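import Pool.Agent.MP_88bd62_nt.U.Stmts2

/-! Fourth moments of the inverse of the zeta function on the first band. -/

namespace Pool.Agent.MP_88bd62_nt.U

open Finset Real

noncomputable section

/-- The inverse modulus of zeta at the pole number `k`. -/
def yz (k : ℤ) : ℝ := 1 / ‖riemannZeta (sk k)‖

def NumW : Prop :=
  (∀ k ∈ Kset (2 ^ 20), 1 / 5 ≤ ‖riemannZeta (sk k)‖) ∧
  ∑ m ∈ range (2 ^ 20), yz (2 * m + 1) ^ 4 / (2 * m + 1) ≤ 210 ∧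
  ∀ i < 16, ∑ m ∈ Ico (2 ^ 16 * i) (2 ^ 16 * (i + 1)), yz (2 * (m : ℕ) + 1) ^ 4 ≤ 21 * 2 ^ 16

end

end Pool.Agent.MP_88bd62_nt.U
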