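import Pool.Agent.MP_88bd62_nt.U.AStm

/-! The algebra of the residual. -/

namespace Pool.Agent.MP_88bd62_nt.U.A

theorem aAlg_mul {x y : ℂ} {p q : ℝ} (hx : ‖x - 1‖ ≤ p) (hy : ‖y - 1‖ ≤ q) :
    ‖x * y - 1‖ ≤ (1 + p) * (1 + q) - 1 := by
  have e : x * y - 1 = (x - 1) * (y - 1) + (x - 1) + (y - 1) := by ring
  have h1 : ‖(x - 1) * (y - 1)‖ ≤ p * q := by
    rw [norm_mul]
    exact mul_le_mul hx hy (norm_nonneg _) ((norm_nonneg _).trans hx)
  rw [e]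
  have h2 := norm_add₃_le (a := (x - 1) * (y - 1)) (b := x - 1) (c := y - 1)
  nlinarith

theorem aAlg_low {x : ℂ} {p : ℝ} (hx : ‖x - 1‖ ≤ p) : 1 - p ≤ ‖x‖ := by
  have h := norm_sub_norm_le (1 : ℂ) x
  rw [norm_one, norm_sub_rev] at h
  linarith

theorem aAlg_div {x y : ℂ} {p : ℝ} (hy : y ≠ 0) (h : ‖x - y‖ ≤ p * ‖y‖) : ‖x / y - 1‖ ≤ p := by
  rw [div_sub_one hy, norm_div]
  exact (div_le_iff₀ (norm_pos_iff.2 hy)).2 h

theorem aAlg_core (A B C F T W R S : ℂ) (η d ε α τ h : ℝ) (hA : ‖A - 1‖ ≤ η) (hB : ‖B - 1‖ ≤ d)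
    (hC : ‖C - 1‖ ≤ ε) (hF : ‖F - 1‖ ≤ α) (hT : ‖T - 1‖ ≤ τ) (h1 : η + d + ε ≤ h)
    (h2 : 4 * α ≤ h) (h3 : h ≤ 1 / 4) :
    ‖W * (T * F ^ 3 - A * A * B * C) / (A * A * B * C) + R / (A * A * B * C) + S / A‖ ≤
      (1 + h) / (1 - h) ^ 2 * (‖W‖ * (2 * η + d + ε + 3 * α + τ) + ‖R‖ + ‖S‖) := by
  have hη : 0 ≤ η := (norm_nonneg _).trans hA
  have hd : 0 ≤ d := (norm_nonneg _).trans hB
  have hε : 0 ≤ ε := (norm_nonneg _).trans hC
  have hα : 0 ≤ α := (norm_nonneg _).trans hF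
  have hτ : 0 ≤ τ := (norm_nonneg _).trans hT
  have hh : 0 ≤ h := by linarith
  have hh' : 0 < 1 - h := by linarith
  have a1 : 1 - h ≤ ‖A‖ := le_trans (by linarith) (aAlg_low hA)
  have a2 : 1 - h ≤ ‖A‖ * ‖B‖ * ‖C‖ := by
    have b1 : (1 - η) * (1 - d) * (1 - ε) ≤ ‖A‖ * ‖B‖ * ‖C‖ :=
      mul_le_mul (mul_le_mul (aAlg_low hA) (aAlg_low hB) (by linarith) (norm_nonneg _))
        (aAlg_low hC) (by linarith) (by positivity)
    have b2 : 1 - η - d ≤ (1 - η) * (1 - d) := by nlinarith [mul_nonneg hη hd]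
    have b3 : (1 - η - d) * (1 - ε) ≤ (1 - η) * (1 - d) * (1 - ε) :=
      mul_le_mul_of_nonneg_right b2 (by linarith)
    nlinarith [mul_nonneg (add_nonneg hη hd) hε]
  have a3 : (1 - h) ^ 2 ≤ ‖A * A * B * C‖ := by
    rw [mul_assoc A A, mul_assoc A, norm_mul, norm_mul, norm_mul, sq]
    exact mul_le_mul a1 a2 hh'.le (norm_nonneg _)
  have a4 : ‖A * A * B * C - 1‖ ≤ (2 * η + d + ε) * (1 + h) := by
    refine (aAlg_mul (aAlg_mul (aAlg_mul hA hA) hB) hC).trans ?_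
    have b1 : (2 * η + d + ε) * (1 + (η + d + ε)) ≤ (2 * η + d + ε) * (1 + h) :=
      mul_le_mul_of_nonneg_left (by linarith) (by linarith)
    refine le_trans ?_ b1
    have b2 : η * η * (d + ε) ≤ η * η * (1 / 4) :=
      mul_le_mul_of_nonneg_left (by linarith) (mul_nonneg hη hη)
    have b3 : d * ε * η ≤ d * ε * (1 / 4) :=
      mul_le_mul_of_nonneg_left (by linarith) (mul_nonneg hd hε)
    have b4 : d * ε * η * η ≤ d * ε * η * (1 / 4) :=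
      mul_le_mul_of_nonneg_left (by linarith) (by positivity)
    nlinarith [mul_nonneg hη hη, mul_nonneg hη hd, mul_nonneg hη hε, mul_nonneg hd hd,
      mul_nonneg hd hε, mul_nonneg hε hε]
  have a5 : ‖T * F ^ 3 - 1‖ ≤ (3 * α + τ) * (1 + h) := by
    have b0 : F ^ 3 = F * F * F := by ring
    rw [b0]
    refine (aAlg_mul hT (aAlg_mul (aAlg_mul hF hF) hF)).trans ?_
    have b1 : α * α ≤ α * (1 / 16) := mul_le_mul_of_nonneg_left (by linarith) hα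
    have b2 : α * α * α ≤ α * α * (1 / 16) :=
      mul_le_mul_of_nonneg_left (by linarith) (mul_nonneg hα hα)
    have b3 : (1 + α) * (1 + α) * (1 + α) ≤ 1 + h := by nlinarith
    have b4 := mul_le_mul_of_nonneg_left b3 hτ
    have b5 := mul_le_mul_of_nonneg_left h2 hα
    nlinarith [mul_nonneg hα hα]
  have a6 : ‖T * F ^ 3 - A * A * B * C‖ ≤ (1 + h) * (2 * η + d + ε + 3 * α + τ) := by
    have b1 := norm_sub_le_norm_sub_add_norm_sub (T * F ^ 3) 1 (A * A * B * C)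
    rw [norm_sub_rev 1] at b1
    linarith
  have hp : 0 < (1 - h) ^ 2 := by positivity
  have c1 : ‖W * (T * F ^ 3 - A * A * B * C) / (A * A * B * C)‖ ≤
      ‖W‖ * ((1 + h) * (2 * η + d + ε + 3 * α + τ)) / (1 - h) ^ 2 := by
    rw [norm_div, norm_mul]
    gcongr
  have c2 : ‖R / (A * A * B * C)‖ ≤ (1 + h) * ‖R‖ / (1 - h) ^ 2 := by
    rw [norm_div]
    refine div_le_div₀ (by positivity) ?_ hp a3
    nlinarith [mul_nonneg hh (norm_nonneg R)]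
  have c3 : ‖S / A‖ ≤ (1 + h) * ‖S‖ / (1 - h) ^ 2 := by
    rw [norm_div]
    refine div_le_div₀ (by positivity) ?_ hp ?_
    · nlinarith [mul_nonneg hh (norm_nonneg S)]
    · nlinarith [mul_nonneg hh hh'.le]
  refine norm_add₃_le.trans ((add_le_add_three c1 c2 c3).trans (le_of_eq ?_))
  ring

theorem stAlg : StAlg := by
  intro κ ζ D V T β Z G P U₁ U₂ e₁ e₂ r η d ε α τ h hκ hζ hD hZ hG he hβ hT hη hd hε hα hτ h1 h2 h3
    e1 e2 e3
  have hA := aAlg_div (mul_ne_zero hκ hζ) hZ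
  have hB := aAlg_div (mul_ne_zero hκ hD) hG
  have hF := aAlg_div hκ hβ
  have nz : ∀ {x y : ℂ} {p : ℝ}, ‖x / y - 1‖ ≤ p → p ≤ 1 / 4 → x ≠ 0 := by
    intro x y p hp hp' hx
    rw [hx, zero_div, zero_sub, norm_neg, norm_one] at hp
    linarith
  have hZ0 : Z ≠ 0 := nz hA (by linarith)
  have hG0 : G ≠ 0 := nz hB (by linarith)
  have hC : ‖U₁ / (Z * G) - 1‖ ≤ ε := by
    refine aAlg_div (mul_ne_zero hZ0 hG0) ?_
    have : U₁ - Z * G = -e₁ := by rw [e1]; ring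
    rw [this, norm_neg]
    exact he
  have hU : U₁ ≠ 0 := nz hC (by linarith)
  have key := aAlg_core _ _ _ _ T (V / (ζ ^ 2 * D)) (r / (κ ^ 3 * ζ ^ 2 * D)) (e₂ / (κ * ζ))
    η d ε α τ h hA hB hC hF hT h1 h2 h3
  rw [norm_div r, norm_div e₂] at key
  refine le_trans (le_of_eq ?_) key
  congr 1
  have hP : P = (V * T * β ^ 3 + r) / (U₁ * Z) + e₂ / Z := by
    rw [← e3]
    field_simp
    linear_combination e2
  rw [hP]
  field_simp
  ring

end Pool.Agent.MP_88bd62_nt.U.A
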