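import Pool.Agent.MP_88bd62_nt.U.AStm

/-! Basic properties of the evaluation points. -/

namespace Pool.Agent.MP_88bd62_nt.U.A

open Finset Real

noncomputable section

lemma aBas_d (z : ℂ) (s : ℝ) :
    HasDerivAt (fun s : ℝ => Complex.exp (-(z * s))) (Complex.exp (-(z * s)) * (-z)) s := by
  have h1 : HasDerivAt (fun w : ℂ => Complex.exp (-(z * w))) (Complex.exp (-(z * s)) * (-z))
      (s : ℂ) := by
    have h2 : HasDerivAt (fun w : ℂ => -(z * w)) (-z) (s : ℂ) := by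
      have h3 := ((hasDerivAt_id (s : ℂ)).const_mul z).fun_neg
      rw [mul_one] at h3
      exact h3
    exact h2.cexp
  exact h1.comp_ofReal

lemma aBas_n (z : ℂ) (hz : 0 ≤ z.re) {s : ℝ} (hs : 0 ≤ s) : ‖Complex.exp (-(z * s))‖ ≤ 1 := by
  rw [Complex.norm_exp, Real.exp_le_one_iff]
  simp only [Complex.neg_re, Complex.mul_re, Complex.ofReal_re, Complex.ofReal_im, mul_zero,
    sub_zero, Left.neg_nonpos_iff]
  positivity

lemma aBas_one (z : ℂ) (hz : 0 ≤ z.re) {s : ℝ} (hs : 0 ≤ s) :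
    ‖1 - Complex.exp (-(z * s))‖ ≤ ‖z‖ * s := by
  have hd : ∀ x : ℝ, HasDerivAt (fun s : ℝ => 1 - Complex.exp (-(z * s)))
      (-(Complex.exp (-(z * x)) * (-z))) x := fun x => (aBas_d z x).const_sub 1
  refine image_norm_le_of_norm_deriv_right_le_deriv_boundary (a := 0) (b := s)
    (f := fun s : ℝ => 1 - Complex.exp (-(z * s))) (B := fun s => ‖z‖ * s) (B' := fun _ => ‖z‖)
    (fun x _ => (hd x).continuousAt.continuousWithinAt) (fun x _ => (hd x).hasDerivWithinAt)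
    (by simp) (fun x => by simpa using (hasDerivAt_id x).const_mul ‖z‖) ?_ ⟨hs, le_rfl⟩
  intro x hx
  rw [norm_neg, norm_mul, norm_neg]
  exact mul_le_of_le_one_left (norm_nonneg _) (aBas_n z hz hx.1)

lemma aBas_two (z : ℂ) (hz : 0 ≤ z.re) :
    ‖1 - Complex.exp (-z) - z‖ ≤ ‖z‖ ^ 2 / 2 := by
  have hd : ∀ x : ℝ, HasDerivAt (fun s : ℝ => 1 - Complex.exp (-(z * s)) - z * s)
      (-(Complex.exp (-(z * x)) * (-z)) - z) x := fun x => by
    have h2 : HasDerivAt (fun s : ℝ => z * s) z x := by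
      simpa using ((hasDerivAt_id (x : ℂ)).const_mul z).comp_ofReal
    exact ((aBas_d z x).const_sub 1).sub h2
  have h := image_norm_le_of_norm_deriv_right_le_deriv_boundary (a := 0) (b := 1)
    (f := fun s : ℝ => 1 - Complex.exp (-(z * s)) - z * s) (B := fun s => ‖z‖ ^ 2 / 2 * s ^ 2)
    (B' := fun s => ‖z‖ ^ 2 * s)
    (fun x _ => (hd x).continuousAt.continuousWithinAt) (fun x _ => (hd x).hasDerivWithinAt)
    (by simp) (fun x => by
      refine ((hasDerivAt_pow 2 x).const_mul (‖z‖ ^ 2 / 2)).congr_deriv ?_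
      norm_num
      ring) ?_ (x := 1) ⟨zero_le_one, le_rfl⟩
  · simpa using h
  · intro x hx
    have e : -(Complex.exp (-(z * x)) * (-z)) - z = -(z * (1 - Complex.exp (-(z * x)))) := by ring
    rw [e, norm_neg, norm_mul, sq, mul_assoc]
    exact mul_le_mul_of_nonneg_left (aBas_one z hz hx.1) (norm_nonneg _)

lemma aBas_low (z : ℂ) (hz : 0 ≤ z.re) (hz2 : ‖z‖ ≤ 2) :
    exp (-(z.re / 2)) * (1 - ‖z‖ ^ 2 / 24) * ‖z‖ ≤ ‖1 - Complex.exp (-z)‖ := by
  set a := z.re with ha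
  set t := |z.im| with ht
  set u := exp (-(a / 2)) with hu
  have hu0 : 0 < u := exp_pos _
  have ht0 : 0 ≤ t := abs_nonneg _
  have htz : t ≤ ‖z‖ := Complex.abs_im_le_norm z
  have hn : ‖z‖ ^ 2 = a ^ 2 + t ^ 2 := by
    rw [Complex.sq_norm, Complex.normSq_apply, ht, sq_abs]; ring
  have hz0 : 0 ≤ ‖z‖ := norm_nonneg _
  set c := 1 - ‖z‖ ^ 2 / 24 with hc
  have hc0 : 0 ≤ c := by rw [hc]; nlinarith
  have hc1 : c ≤ 1 := by rw [hc]; nlinarith
  have hr : exp (-a) = u ^ 2 := by rw [hu, ← exp_nat_mul]; congr 1; push_cast; ring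
  have h1 : a * u ≤ 1 - u ^ 2 := by
    have h := self_le_sinh_iff.2 (show 0 ≤ a / 2 by positivity)
    rw [sinh_eq] at h
    have h3 : exp (a / 2) * u = 1 := by rw [hu, ← exp_add]; simp
    rw [← hu] at h
    nlinarith
  have h2 : t / 2 * c ≤ sin (t / 2) := by
    have h := sin_ge_sub_cube (show 0 ≤ t / 2 by positivity)
    have : t ^ 2 ≤ ‖z‖ ^ 2 := by gcongr
    rw [hc]
    nlinarith
  have h3 : ‖1 - Complex.exp (-z)‖ ^ 2 = (1 - u ^ 2) ^ 2 + 4 * u ^ 2 * sin (t / 2) ^ 2 := by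
    rw [Complex.sq_norm, Complex.normSq_apply]
    simp only [Complex.sub_re, Complex.one_re, Complex.exp_re, Complex.neg_re, Complex.neg_im,
      Complex.sub_im, Complex.one_im, Complex.exp_im, cos_neg, sin_neg, ← ha, hr]
    have h4 : sin (t / 2) ^ 2 = 1 / 2 - cos z.im / 2 := by
      rw [sin_sq_eq_half_sub, show 2 * (t / 2) = t by ring, ht, cos_abs]
    have h5 := sin_sq_add_cos_sq z.im
    rw [h4]
    linear_combination (u ^ 4) * h5
  refine abs_le_of_sq_le_sq' ?_ (norm_nonneg _) |>.2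
  rw [h3]
  have h6 : (a * u) ^ 2 ≤ (1 - u ^ 2) ^ 2 := by gcongr
  have h7 : (t / 2 * c) ^ 2 ≤ sin (t / 2) ^ 2 := by gcongr
  have h8 : c ^ 2 ≤ 1 := by nlinarith
  have h9 : (u * c * ‖z‖) ^ 2 = (a * u) ^ 2 * c ^ 2 + 4 * u ^ 2 * (t / 2 * c) ^ 2 := by
    rw [mul_pow _ ‖z‖, hn]; ring
  rw [h9]
  have h10 : (a * u) ^ 2 * c ^ 2 ≤ (a * u) ^ 2 := mul_le_of_le_one_right (sq_nonneg _) h8
  have h11 : 4 * u ^ 2 * (t / 2 * c) ^ 2 ≤ 4 * u ^ 2 * sin (t / 2) ^ 2 := by gcongr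
  linarith

lemma aBas_re (k : ℤ) : (zk k).re = log 2 / 2 ^ 22 := by
  have : zk k = ((log 2 / 2 ^ 22 : ℝ) : ℂ) + ((π * k / 2 ^ 22 : ℝ) : ℂ) * Complex.I := by
    unfold zk; push_cast; ring
  rw [this]
  simp only [Complex.add_re, Complex.ofReal_re, Complex.mul_re, Complex.I_re, Complex.ofReal_im,
    Complex.I_im, mul_zero, zero_mul, sub_zero, add_zero]

lemma aBas_im (k : ℤ) : (zk k).im = π * k / 2 ^ 22 := by
  have : zk k = ((log 2 / 2 ^ 22 : ℝ) : ℂ) + ((π * k / 2 ^ 22 : ℝ) : ℂ) * Complex.I := by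
    unfold zk; push_cast; ring
  rw [this]
  simp only [Complex.add_im, Complex.ofReal_re, Complex.mul_im, Complex.I_re, Complex.ofReal_im,
    Complex.I_im, mul_zero, mul_one, zero_add, add_zero]

lemma aBas_repos (k : ℤ) : 0 < (zk k).re := by
  rw [aBas_re]; have := log_pos (show (1 : ℝ) < 2 by norm_num); positivity

lemma aBas_ne (k : ℤ) : zk k ≠ 0 := fun h => by
  have := aBas_repos k
  rw [h] at this
  simp at this

lemma aBas_add (k : ℤ) (v w : ℝ) : xp k (v + w) = xp k v * xp k w := by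
  unfold xp; rw [← Complex.exp_add]; congr 1; push_cast; ring

lemma aBas_nat (k : ℤ) (n : ℕ) : xp k n = xk k ^ n := by
  unfold xk xp; rw [← Complex.exp_nat_mul]; congr 1; push_cast; ring

lemma aBas_norm (k : ℤ) (v : ℝ) : ‖xp k v‖ = 2 ^ (-(v / 2 ^ 22)) := by
  unfold xp
  rw [Complex.norm_exp, rpow_def_of_pos (by norm_num)]
  congr 1
  simp only [Complex.neg_re, Complex.mul_re, Complex.ofReal_re, Complex.ofReal_im, mul_zero,
    sub_zero, aBas_re]
  ring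

lemma aBas_xk (k : ℤ) : xk k = Complex.exp (-zk k) := by
  unfold xk xp; simp

lemma aBas_two_exp (v : ℝ) : (((2 : ℝ) ^ v : ℝ) : ℂ) = Complex.exp ((log 2 * v : ℝ) : ℂ) := by
  rw [rpow_def_of_pos (by norm_num), Complex.ofReal_exp]

lemma aBas_ee (k : ℤ) (v : ℝ) : (((2 : ℝ) ^ v : ℝ) : ℂ) * ee k v = xp k (-(2 ^ 22 * v)) := by
  rw [aBas_two_exp]
  unfold ee xp zk
  rw [← Complex.exp_add]
  congr 1
  generalize log 2 = L
  push_cast
  ring

lemma aBas_odd (k : ℤ) (hk : Odd k) : xk k ^ 2 ^ 22 = -1 / 2 := by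
  rw [← aBas_nat]
  have h := aBas_ee k (-1)
  have e : (((2 ^ 22 : ℕ) : ℕ) : ℝ) = -(2 ^ 22 * (-1)) := by norm_num
  rw [e, ← h]
  obtain ⟨m, rfl⟩ := hk
  have h2 : ee (2 * m + 1) (-1) = -1 := by
    unfold ee
    have : (((π * ((2 * m + 1 : ℤ) : ℝ) * (-1) : ℝ)) : ℂ) * Complex.I =
        ((-m - 1 : ℤ) : ℂ) * (2 * π * Complex.I) + π * Complex.I := by push_cast; ring
    rw [this, Complex.exp_add, Complex.exp_int_mul_two_pi_mul_I, Complex.exp_pi_mul_I, one_mul]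
  rw [h2, rpow_neg_one]
  push_cast
  ring

lemma aBas_pw (k : ℤ) (n : ℕ) (hn : 1 ≤ n) : pw n k = xp k (2 ^ 22 * th n) := by
  unfold pw xp sk zk tk th logb
  have h0 : (n : ℂ) ≠ 0 := by exact_mod_cast (by omega : n ≠ 0)
  have hl : ((log 2 : ℝ) : ℂ) ≠ 0 := by
    exact_mod_cast (log_pos (show (1 : ℝ) < 2 by norm_num)).ne'
  rw [Complex.cpow_def_of_ne_zero h0, ← Complex.natCast_log]
  congr 1
  generalize log 2 = L at hl ⊢
  generalize log n = M
  push_cast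
  field_simp

lemma aBas_sh (k : ℤ) : sh k = 1 / (2 ^ 22 * zk k) := by
  unfold sh zk
  congr 1
  field_simp

lemma aBas_xi (k : ℤ) : ‖zk k‖ = π / 2 * xi k := by
  unfold xi
  have := pi_pos
  field_simp

lemma aBas_xi1 (k : ℤ) : |(k : ℝ)| / 2 ^ 21 ≤ xi k := by
  have h := Complex.abs_im_le_norm (zk k)
  rw [aBas_im, aBas_xi, abs_div, abs_mul, abs_of_pos pi_pos,
    abs_of_pos (show (0 : ℝ) < 2 ^ 22 by positivity)] at h
  have := pi_pos
  have e : π * |(k : ℝ)| / 2 ^ 22 = π / 2 * (|(k : ℝ)| / 2 ^ 21) := by ring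
  rw [e] at h
  exact le_of_mul_le_mul_left h (by positivity)

lemma aBas_xi2 (k : ℤ) : xi k ≤ (|(k : ℝ)| + 0.23) / 2 ^ 21 := by
  have h := Complex.norm_le_abs_re_add_abs_im (zk k)
  have hl := log_pos (show (1 : ℝ) < 2 by norm_num)
  rw [aBas_im, aBas_re, aBas_xi, abs_div, abs_div, abs_mul, abs_of_pos pi_pos, abs_of_pos hl,
    abs_of_pos (show (0 : ℝ) < 2 ^ 22 by positivity)] at h
  have h1 := pi_gt_d2
  have h2 := log_two_lt_d9
  have e : π / 2 * ((|(k : ℝ)| + 0.23) / 2 ^ 21) = π * 0.23 / 2 ^ 22 + π * |(k : ℝ)| / 2 ^ 22 := by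
    ring
  refine le_of_mul_le_mul_left (a := π / 2) (h.trans ?_) (by positivity)
  rw [e]
  have : log 2 ≤ π * 0.23 := by linarith
  gcongr

lemma aBas_nxk (k : ℤ) : ‖xk k‖ = exp (-(log 2 / 2 ^ 22)) := by
  rw [aBas_xk, Complex.norm_exp, Complex.neg_re, aBas_re]

lemma aBas_nxk1 (k : ℤ) : ‖xk k‖ < 1 := by
  rw [aBas_nxk, exp_lt_one_iff, ← aBas_re k, Left.neg_neg_iff]
  exact aBas_repos k

lemma aBas_1x (k : ℤ) : ‖1 - xk k‖ ≤ ‖zk k‖ := by
  have h := aBas_one (zk k) (aBas_repos k).le zero_le_one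
  rw [aBas_xk]
  simpa using h

lemma aBas_q1 (k : ℤ) : ‖qq k‖ ≤ 1 := by
  unfold qq
  rw [norm_div, div_le_one (norm_pos_iff.2 (aBas_ne k))]
  exact aBas_1x k

lemma aBas_q2 (k : ℤ) : ‖qq k - 1‖ ≤ ‖zk k‖ / 2 := by
  have h := aBas_two (zk k) (aBas_repos k).le
  have hz := aBas_ne k
  have e : qq k - 1 = (1 - Complex.exp (-zk k) - zk k) / zk k := by
    unfold qq; rw [aBas_xk]; field_simp
  rw [e, norm_div, div_le_iff₀ (norm_pos_iff.2 hz)]
  linarith

lemma aBas_q3 (k : ℤ) (hx : xi k < 1) : sL (xi k) ≤ ‖qq k‖ := by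
  have hz := norm_pos_iff.2 (aBas_ne k)
  have hp := pi_lt_d4
  have hp0 := pi_pos
  have hx0 : 0 ≤ xi k := by unfold xi; positivity
  have h := aBas_low (zk k) (aBas_repos k).le (by rw [aBas_xi]; nlinarith)
  unfold qq
  rw [norm_div, le_div_iff₀ hz, aBas_xk]
  refine le_trans (mul_le_mul_of_nonneg_right ?_ hz.le) h
  have h1 : 0.9999999 ≤ exp (-((zk k).re / 2)) := by
    have h2 := add_one_le_exp (-((zk k).re / 2))
    have h3 := log_two_lt_d9
    rw [aBas_re] at h2 ⊢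
    norm_num at h2 h3 ⊢
    linarith
  have h4 : π ^ 2 ≤ 9.8697 := by nlinarith
  have h5 : ‖zk k‖ ^ 2 / 24 ≤ 0.10281 * xi k ^ 2 := by
    rw [aBas_xi]
    have := mul_le_mul_of_nonneg_right h4 (sq_nonneg (xi k))
    nlinarith
  have h6 : xi k ^ 2 ≤ 1 := by nlinarith
  have h7 : 0 ≤ 1 - 0.10281 * xi k ^ 2 := by linarith
  unfold sL
  calc 0.9999999 - 0.10281 * xi k ^ 2 ≤ 0.9999999 * (1 - 0.10281 * xi k ^ 2) := by
        nlinarith [sq_nonneg (xi k)]
    _ ≤ _ := mul_le_mul h1 (by linarith) h7 (exp_pos _).le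

theorem stBas (hKerB : StKerB) : StBas := by
  refine ⟨aBas_add, aBas_nat, aBas_norm, aBas_odd, aBas_pw, aBas_ee, fun k => ?_, fun k hk => ?_⟩
  · have hz := norm_pos_iff.2 (aBas_ne k)
    have hp0 := pi_pos
    have hx : 0 < xi k := by unfold xi; positivity
    refine ⟨aBas_ne k, aBas_sh k, aBas_xi k, hx, ?_, ?_, ?_, (aBas_nxk1 k).le, aBas_1x k,
      aBas_q1 k, aBas_q2 k, aBas_xi1 k, aBas_xi2 k⟩
    · rw [aBas_sh, norm_div, norm_mul, aBas_xi, norm_pow, norm_one, Complex.norm_two]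
      congr 1
      ring
    · rw [aBas_xk]; exact Complex.exp_ne_zero _
    · intro h
      have := aBas_nxk1 k
      rw [h, norm_one] at this
      exact lt_irrefl _ this
  · obtain ⟨hk1, hk2⟩ := mem_filter.1 hk
    rw [mem_Ioo] at hk1
    have hk3 : |k| ≤ 2097151 := by
      rw [abs_le]
      obtain ⟨h1, h2⟩ := hk1
      push_cast at h1 h2
      constructor <;> omega
    have hk4 : |(k : ℝ)| ≤ 2097151 := by exact_mod_cast hk3
    have hx : xi k < 1 := by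
      refine (aBas_xi2 k).trans_lt ?_
      rw [div_lt_one (by positivity)]
      norm_num
      linarith
    have hp0 := pi_pos
    have hx0 : 0 ≤ xi k := by unfold xi; positivity
    have hq := aBas_q3 k hx
    have h6 : xi k ^ 2 ≤ 1 := by nlinarith
    have hs1 : 0.897 ≤ sL (xi k) := by unfold sL; linarith
    have hs2 : sL (xi k) ≤ 1 := hq.trans (aBas_q1 k)
    have hs0 : 0 ≤ sL (xi k) := by linarith
    have hx1 : 0 < ‖xk k‖ := by rw [aBas_nxk]; exact exp_pos _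
    have hw := hKerB (2 ^ 20) (by norm_num) k
    have hn : ‖kap k‖ = ‖qq k‖ ^ 5 / ‖xk k‖ := by unfold kap; rw [norm_div, norm_pow]
    refine ⟨hk2, hx, hq, ?_, ?_, ?_, ?_, hw.1, hw.2.1⟩
    · rw [hn, le_div_iff₀ hx1]
      unfold kL
      calc sL (xi k) ^ 5 * ‖xk k‖ ≤ sL (xi k) ^ 5 :=
            mul_le_of_le_one_right (by positivity) (aBas_nxk1 k).le
        _ ≤ _ := by gcongr
    · unfold kL
      calc (0.58 : ℝ) ≤ 0.897 ^ 5 := by norm_num
        _ ≤ _ := by gcongr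
    · exact pow_le_one₀ hs0 hs2
    · rw [hn, div_le_iff₀ hx1]
      have h1 : ‖qq k‖ ^ 5 ≤ 1 := pow_le_one₀ (norm_nonneg _) (aBas_q1 k)
      have h2 := add_one_le_exp (-(log 2 / 2 ^ 22))
      have h3 := log_two_lt_d9
      rw [aBas_nxk]
      have h4 : log 2 / 2 ^ 22 ≤ 0.0000002 := by
        rw [div_le_iff₀ (by positivity)]; norm_num at h3 ⊢; linarith
      linarith

end

end Pool.Agent.MP_88bd62_nt.U.A
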