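import Pool.Agent.MP_88bd62_nt.U.ASpec

/-! One block of eight terms of the sum. -/

namespace Pool.Agent.MP_88bd62_nt.U.A

open Finset Real Polynomial
open Pool.Agent.MP_22d5c4_co.K (dig ones dig_lt)
open D (cn an)

noncomputable section

/-- Nonnegative coefficients, degree below `n`, mass at most `c`. -/
def aBlk_G (R : ℤ[X]) (n : ℕ) (c : ℝ) : Prop :=
  (∀ j, 0 ≤ R.coeff j) ∧ (∀ j, n ≤ j → R.coeff j = 0) ∧ L1 R c

lemma aBlk_add (hNrm : StNrm) {R S : ℤ[X]} {n : ℕ} {a b : ℝ} (h : aBlk_G R n a)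
    (h' : aBlk_G S n b) : aBlk_G (R + S) n (a + b) :=
  ⟨fun j => by rw [coeff_add]; exact add_nonneg (h.1 j) (h'.1 j),
    fun j hj => by rw [coeff_add, h.2.1 j hj, h'.2.1 j hj, add_zero],
    (hNrm.1 R S a b h.2.2 h'.2.2).1⟩

lemma aBlk_lt (hUni : StUni) (x : ℕ) : tr36 x < 2 ^ (80 * 132) := by
  have h (n : ℕ) : on n = ones 80 n := by
    rw [← (hUni.2.2.2.1 n).2.2.2, on, shl_eq, one_mul, B1_eq]
    rfl
  have h1 (n : ℕ) : Nat.land (Nat.shiftRight x 36) (Nat.mul (on n) 17592186044415) < 2 ^ (80 * n) := by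
    rw [h]
    exact (hUni.2.2.2.2.2.1 n x 36 44 le_rfl).1
  exact h1 132

lemma aBlk_tr (hPar : StPar) (hUni : StUni) (hNrm : StNrm) (hSp : StSp) {R : ℤ[X]} {n x : ℕ}
    {c : ℝ} (h : aBlk_G R n c) (hn : n ≤ 132) (hc : c < 2 ^ 80) (hx : vl R = x) :
    ∃ V : ℤ[X], vl V = tr36 x ∧ L1 V (c / 2 ^ 36) ∧ ∀ k, ‖ev k V - ev k R / 2 ^ 36‖ ≤ n := by
  have h1 : ∀ j, R.coeff j < 2 ^ 80 := fun j => by
    have h2 := ((hNrm.2.1 R c 0 0 h.2.2).2.2.2 j).trans_lt hc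
    have h3 : (R.coeff j : ℝ) < 2 ^ 80 := (le_abs_self _).trans_lt h2
    exact_mod_cast h3
  have h2 := hUni.2.1 R 132 x (fun i hi => h.2.1 i (hn.trans hi)) (fun i _ => by
    have h3 := h.1 i
    have h4 := h1 i
    have h5 : ((dig 80 x i : ℕ) : ℤ) < 2 ^ 80 := by exact_mod_cast dig_lt 80 x i
    have h6 : (0 : ℤ) ≤ dig 80 x i := Int.natCast_nonneg _
    rw [abs_lt]
    constructor <;> linarith) (by rw [hx])
  obtain ⟨h3, h4⟩ := hUni.2.2.1 132 (tr36 x) 0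
  have h5 : ∀ j, (tp 132 (tr36 x) 0).coeff j = R.coeff j / 2 ^ 36 := fun j => by
    rw [h3]
    split_ifs with hj
    · rw [(hSp.2 x).2 j hj, h2 j hj, sub_zero]
      push_cast
      rfl
    · rw [h.2.1 j (by omega), Int.zero_ediv]
  refine ⟨tp 132 (tr36 x) 0, by rw [h4 (aBlk_lt hUni x), zero_mul, sub_zero], fun N => ?_,
    fun k => ?_⟩
  · refine le_trans ?_ (div_le_div_of_nonneg_right (h.2.2 N) (by positivity))
    rw [sum_div]
    refine sum_le_sum fun j _ => ?_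
    have h6 := h.1 j
    have h7 : 0 ≤ R.coeff j / 2 ^ 36 := Int.ediv_nonneg h6 (by positivity)
    have h8 : R.coeff j / 2 ^ 36 * 2 ^ 36 ≤ R.coeff j := Int.ediv_mul_le _ (by positivity)
    rw [h5, le_div_iff₀ (by positivity), abs_of_nonneg (by exact_mod_cast h7),
      abs_of_nonneg (by exact_mod_cast h6)]
    exact_mod_cast h8
  · have h6 : Sup (R - C (2 ^ 36) * tp 132 (tr36 x) 0) n (2 ^ 36) := by
      refine ⟨fun j hj => ?_, fun j => ?_⟩
      · rw [coeff_sub, coeff_C_mul, h5, h.2.1 j hj, Int.zero_ediv, mul_zero, sub_zero]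
      · rw [coeff_sub, coeff_C_mul, h5, ← Int.emod_def]
        have h7 : 0 ≤ R.coeff j % 2 ^ 36 := Int.emod_nonneg _ (by positivity)
        have h8 : R.coeff j % 2 ^ 36 ≤ 2 ^ 36 := (Int.emod_lt_of_pos _ (by positivity)).le
        rw [abs_of_nonneg (by exact_mod_cast h7)]
        exact_mod_cast h8
    have h7 := hPar.1 _ _ k (hPar.2.1 _ _ _ h6)
    have e : ev k (tp 132 (tr36 x) 0) - ev k R / 2 ^ 36 =
        -(ev k (R - C (2 ^ 36) * tp 132 (tr36 x) 0) / 2 ^ 36) := by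
      simp only [ev, map_sub, map_mul, map_pow, map_ofNat]
      ring
    rw [e, norm_neg, norm_div, div_le_iff₀ (by simp)]
    simpa using h7

lemma aBlk_T (hNode : StNode) (hUni : StUni) (hNrm : StNrm) (hSp : StSp) {f : ℕ} (hf : f < 2 ^ 17)
    (s n : ℕ) (hn : s + 5 ≤ n) : aBlk_G (X ^ s * tp 5 (spl f) 0) n (24 * 2 ^ 68) ∧
      vl (X ^ s * tp 5 (spl f) 0) = (spl f * 2 ^ (80 * s) : ℕ) ∧
      ∀ k, ev k (X ^ s * tp 5 (spl f) 0) = 24 * 2 ^ 68 * (xk k ^ s * tv k (f / 2 ^ 17)) := by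
  obtain ⟨h1, h2⟩ := hSp.1 f hf
  obtain ⟨h3, h4⟩ := hUni.2.2.1 5 (spl f) 0
  have hf0 : (0 : ℝ) ≤ f / 2 ^ 17 := by positivity
  have hf1 : (f : ℝ) / 2 ^ 17 ≤ 1 := by
    rw [div_le_one (by positivity)]
    exact_mod_cast hf.le
  have h5 := (hNode.2.2 _ hf0 hf1).2
  have h6 : ∀ j, 0 ≤ (tp 5 (spl f) 0).coeff j := fun j => by
    rw [h3]
    split_ifs
    · rw [sub_zero]
      exact Int.natCast_nonneg _
    · exact le_rfl
  refine ⟨⟨fun j => ?_, fun j hj => ?_, (hNrm.2.1 _ _ s 0 fun N => ?_).1⟩, ?_, fun k => ?_⟩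
  · rw [coeff_X_pow_mul']
    split_ifs
    · exact h6 _
    · exact le_rfl
  · rw [coeff_X_pow_mul', if_pos (by omega), h3, if_neg (by omega)]
  · calc ∑ i ∈ range N, |((tp 5 (spl f) 0).coeff i : ℝ)|
        ≤ ∑ i ∈ range (max 5 N), |((tp 5 (spl f) 0).coeff i : ℝ)| :=
          sum_le_sum_of_subset_of_nonneg (range_subset_range.2 (le_max_right 5 N))
            fun _ _ _ => abs_nonneg _
      _ = ∑ i ∈ range 5, |((tp 5 (spl f) 0).coeff i : ℝ)| := by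
          refine (sum_subset (range_subset_range.2 (le_max_left 5 N)) fun j _ hj => ?_).symm
          rw [h3, if_neg (by simpa using hj), Int.cast_zero, abs_zero]
      _ = ∑ i ∈ range 5, 24 * 2 ^ 68 * tap i (f / 2 ^ 17) := by
          refine sum_congr rfl fun i hi => ?_
          rw [h3, if_pos (mem_range.1 hi), sub_zero, Int.cast_natCast, Nat.abs_cast,
            h2 i (mem_range.1 hi)]
      _ ≤ _ := by rw [← mul_sum, h5, mul_one]
  · have h7 := h4 h1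
    rw [zero_mul, sub_zero, vl] at h7
    rw [vl, eval_mul, h7, eval_pow, eval_X, ← pow_mul, Nat.cast_mul, Nat.cast_pow, mul_comm]
    rfl
  · rw [ev, map_mul, map_pow, aeval_X, mul_left_comm]
    congr 1
    rw [tp, map_sum, tv, mul_sum]
    refine sum_congr rfl fun i hi => ?_
    have h7 := congrArg Complex.ofReal (h2 i (mem_range.1 hi))
    push_cast at h7
    rw [aeval_monomial, sub_zero, map_natCast, h7]
    ring

lemma aBlk_pow {r : ℝ} (hr : 0 < r) :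
    (2 : ℝ) ^ (-(2 ^ 22 * logb 2 (r / 2 ^ 19) / 2 ^ 22)) = 2 ^ 19 / r := by
  rw [mul_div_cancel_left₀ _ (by positivity), rpow_neg (by norm_num),
    rpow_logb (by norm_num) (by norm_num) (by positivity), inv_div]

lemma aBlk_blv (t g : ℕ) (c : ℤ) (h : bneg t g ≤ bpos t g)
    (hc : c = if g % 3 = 1 then (((2 * g + 1) / 3 : ℕ) : ℤ) else -(((2 * g - 1) / 3 : ℕ) : ℤ)) :
    ((bpos t g - bneg t g : ℕ) : ℤ) =
      bp1 (bfv t) (bsv t) - bm1 (bfv t) (bsv t) + c * b0 t := by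
  rw [Nat.cast_sub h, hc, bpos, bneg, cn_eq, cn_eq, two_mul]
  simp only [Nat.beq_eq, Nat.add_eq, Nat.mul_eq, Nat.sub_eq, Nat.succ_eq_add_one]
  change ((if g % 3 = 1 then _ + (g + g + 1) / 3 * _ else _ : ℕ) : ℤ) -
    ((if g % 3 = 1 then _ else _ + (g + g - 1) / 3 * _ : ℕ) : ℤ) = _
  split_ifs
  · rw [Nat.cast_add, Nat.cast_mul]
    ring
  · rw [Nat.cast_add, Nat.cast_mul]
    ring

theorem stBlk (hBas : StBas) (hNode : StNode) (hFold : StFold) (hPar : StPar) (hUni : StUni)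
    (hNrm : StNrm) (hSp : StSp) (hBt : StBt) : StBlk := by
  intro m P h8 hm1 hm2 hP hc
  obtain ⟨f, s, hfs, hs0, hb0⟩ := hBt m P hm1 hm2 hP
  have hm0 : 0 < m := lt_of_lt_of_le (by norm_num) hm1
  obtain ⟨c1, c2, c3, c4, c5, c6, c7, c0⟩ := hFold.2.2.2 m h8 hm0 hm2
  obtain ⟨T, hT⟩ : ∃ T : ℕ → ℤ[X], T = fun i => X ^ s i * tp 5 (spl (f i)) 0 := ⟨_, rfl⟩
  have hG : ∀ i < 8, aBlk_G (T i) 132 (24 * 2 ^ 68) ∧
      vl (T i) = (bn (bfv (bt m P)) (bsv (bt m P)) (64 * i) : ℕ) ∧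
      ∀ k, ev k (T i) = 24 * 2 ^ 68 * (xk k ^ s i * tv k (f i / 2 ^ 17)) := fun i hi => by
    rw [(hfs i hi).2.2.1, hT]
    exact aBlk_T hNode hUni hNrm hSp (hfs i hi).1 _ _ (by have := (hfs i hi).2.1; omega)
  have g := fun i hi => (hG i hi).1
  have v := fun i hi => (hG i hi).2.1
  have hv (A B : ℤ[X]) : vl (A + B) = vl A + vl B := eval_add
  obtain ⟨Vp, p1, p2, p3⟩ := aBlk_tr hPar hUni hNrm hSp (x := Nat.add (Nat.add
      (Nat.add (bn (bfv (bt m P)) (bsv (bt m P)) 64) (bn (bfv (bt m P)) (bsv (bt m P)) 192))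
      (Nat.add (bn (bfv (bt m P)) (bsv (bt m P)) 320) (bn (bfv (bt m P)) (bsv (bt m P)) 448)))
      (Nat.mul 3 (bn (bfv (bt m P)) (bsv (bt m P)) 256)))
    (aBlk_add hNrm (aBlk_add hNrm (aBlk_add hNrm (g 1 (by norm_num)) (g 3 (by norm_num)))
      (aBlk_add hNrm (g 5 (by norm_num)) (g 7 (by norm_num))))
      (aBlk_add hNrm (aBlk_add hNrm (g 4 (by norm_num)) (g 4 (by norm_num))) (g 4 (by norm_num))))
    le_rfl (by norm_num) (by
      simp only [hv, v 1 (by norm_num), v 3 (by norm_num), v 5 (by norm_num), v 7 (by norm_num),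
        v 4 (by norm_num), Nat.add_eq, Nat.mul_eq, Nat.reduceMul, Nat.cast_add, Nat.cast_mul,
        Nat.cast_ofNat]
      ring)
  obtain ⟨Vn, n1, n2, n3⟩ := aBlk_tr hPar hUni hNrm hSp
    (x := Nat.add (bn (bfv (bt m P)) (bsv (bt m P)) 128) (bn (bfv (bt m P)) (bsv (bt m P)) 384))
    (aBlk_add hNrm (g 2 (by norm_num)) (g 6 (by norm_num))) le_rfl (by norm_num) (by
      simp only [hv, v 2 (by norm_num), v 6 (by norm_num), Nat.add_eq, Nat.reduceMul, Nat.cast_add])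
  obtain ⟨z1, z2, -⟩ := aBlk_T hNode hUni hNrm hSp (hfs 0 (by norm_num)).1 (s 0) 5 (by omega)
  obtain ⟨V0, o1, o2, o3⟩ := aBlk_tr hPar hUni hNrm hSp z1 (by norm_num) (by norm_num) z2
  rw [hs0, mul_zero, pow_zero, mul_one, ← hb0] at o1
  have hT0 : X ^ s 0 * tp 5 (spl (f 0)) 0 = T 0 := by rw [hT]
  rw [hT0] at o3
  refine ⟨Vp - Vn + C (cm m) * V0, ?_, ?_, fun k hk => ?_⟩
  · have e := aBlk_blv (bt m P) (Nat.gcd m 1048576) (cm m) (Nat.le_of_ble_eq_true hc) c0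
    refine Eq.trans ?_ e.symm
    rw [hv, bp1, bm1, ← p1, ← n1, ← o1]
    simp only [vl, eval_sub, eval_mul, eval_C]
  · have h1 := (hNrm.1 _ _ _ _ (hNrm.1 _ _ _ _ p2 n2).2.1 (hNrm.2.1 _ _ 0 (cm m) o2).2.1).1
    intro N
    refine (h1 N).trans_eq ?_
    rw [sum_Ico_eq_sum_range, Nat.add_sub_cancel_left]
    simp only [sum_range_succ, sum_range_zero, c1, c2, c3, c4, c5, c6, c7, add_zero]
    norm_num
    ring
  · rw [sum_Ico_eq_sum_range, sum_Ico_eq_sum_range, Nat.add_sub_cancel_left]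
    have hx : ‖xk k ^ (P / 2 ^ 40)‖ ≤ 1 := by
      rw [norm_pow]
      exact pow_le_one₀ (norm_nonneg _) (hBas.2.2.2.2.2.2.1 k).2.2.2.2.2.2.2.1
    have hD : ∀ i ∈ range 8, ‖(cm (m + i) : ℂ) * (3 * 2 ^ 35 * (xk k ^ (P / 2 ^ 40 + s i) *
        tv k (f i / 2 ^ 17) - kap k * xp k (2 ^ 22 * logb 2 ((m + i : ℕ) / 2 ^ 19))))‖ ≤
        3 * 2 ^ 35 * ‖kap k‖ * nd (xi k) * (|(cm (m + i) : ℝ)| * (2 ^ 19 / (m + i : ℕ))) := by
      intro i hi
      obtain ⟨h1, -, -, h2⟩ := hfs i (mem_range.1 hi)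
      have h3 := hNode.1 k hk _ _ _ (by positivity) (by
        rw [div_le_one (by positivity)]
        exact_mod_cast h1.le) h2
      rw [aBlk_pow (by positivity)] at h3
      rw [norm_mul, norm_mul, Complex.norm_intCast, show ‖(3 * 2 ^ 35 : ℂ)‖ = 3 * 2 ^ 35 by simp]
      refine (mul_le_mul_of_nonneg_left (mul_le_mul_of_nonneg_left h3 (by positivity))
        (abs_nonneg _)).trans_eq ?_
      ring
    have e : xk k ^ (P / 2 ^ 40) * ev k (Vp - Vn + C (cm m) * V0) - 3 * 2 ^ 35 * kap k *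
        ∑ i ∈ range 8, (cm (m + i) : ℂ) * xp k (2 ^ 22 * logb 2 ((m + i : ℕ) / 2 ^ 19)) =
        xk k ^ (P / 2 ^ 40) * ((ev k Vp - ev k (T 1 + T 3 + (T 5 + T 7) + (T 4 + T 4 + T 4)) / 2 ^ 36)
          - (ev k Vn - ev k (T 2 + T 6) / 2 ^ 36) + cm m * (ev k V0 - ev k (T 0) / 2 ^ 36)) +
        ∑ i ∈ range 8, (cm (m + i) : ℂ) * (3 * 2 ^ 35 * (xk k ^ (P / 2 ^ 40 + s i) *
          tv k (f i / 2 ^ 17) - kap k * xp k (2 ^ 22 * logb 2 ((m + i : ℕ) / 2 ^ 19)))) := by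
      have w := fun i hi => (hG i hi).2.2 k
      have ha (A B : ℤ[X]) : ev k (A + B) = ev k A + ev k B := map_add _ _ _
      have hb : ev k (Vp - Vn + C (cm m) * V0) = ev k Vp - ev k Vn + cm m * ev k V0 := by
        simp only [ev, map_add, map_sub, map_mul, eq_intCast, map_intCast]
      rw [hb]
      simp only [ha, w 0 (by norm_num), w 1 (by norm_num), w 2 (by norm_num), w 3 (by norm_num),
        w 4 (by norm_num), w 5 (by norm_num), w 6 (by norm_num), w 7 (by norm_num), sum_range_succ,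
        sum_range_zero, c1, c2, c3, c4, c5, c6, c7, add_zero, pow_add]
      push_cast
      ring
    rw [e]
    refine (norm_add_le _ _).trans ?_
    have h1 := (norm_sum_le _ _).trans (sum_le_sum hD)
    have h2 := (norm_add_le _ _).trans (add_le_add ((norm_sub_le _ _).trans
      (add_le_add (p3 k) (n3 k))) ((norm_mul (cm m : ℂ) _).trans_le
        (mul_le_mul_of_nonneg_left (o3 k) (norm_nonneg _))))
    have h3 := (norm_mul _ _).trans_le (mul_le_mul hx h2 (norm_nonneg _) zero_le_one)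
    have h4 := single_le_sum (f := fun i => |(cm (m + i) : ℝ)|) (fun _ _ => abs_nonneg _)
      (mem_range.2 (by norm_num : 0 < 8))
    rw [add_zero] at h4
    rw [Complex.norm_intCast] at h3
    rw [sum_add_distrib, sum_add_distrib, ← mul_sum _ _ (5 : ℝ), sum_const, card_range]
    norm_num at h1 h3 ⊢
    linarith

end

end Pool.Agent.MP_88bd62_nt.U.A
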