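import Pool.Agent.MP_88bd62_nt.U.ASpec

/-! The positions of eight consecutive integers, computed in slots of width `64`. -/

namespace Pool.Agent.MP_88bd62_nt.U.A

open Finset Real
open Pool.Agent.MP_22d5c4_co.K (dig dig_add dig_shl testBit_dig)

/-- Packing in slots of width `64`. -/
def aBt_pk (N : ℕ → ℕ) (n : ℕ) : ℕ := ∑ i ∈ range n, N i * 2 ^ (64 * i)

theorem aBt_dig {N : ℕ → ℕ} (n : ℕ) (h : ∀ i < n, N i < 2 ^ 64) :
    ∀ i, dig 64 (aBt_pk N n) i = if i < n then N i else 0 := by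
  induction n with
  | zero => intro i; simp [aBt_pk, dig]
  | succ n ih =>
    have h1 : ∀ i, dig 64 (N n * 2 ^ (64 * n)) i = if i = n then N n else 0 := fun i => by
      rw [dig_shl, dig]
      split_ifs with h2 h3 h3
      · rw [h3, Nat.sub_self, mul_zero, pow_zero, Nat.div_one, Nat.mod_eq_of_lt (h n (by omega))]
      · rw [Nat.div_eq_of_lt ((h n (by omega)).trans_le
          (Nat.pow_le_pow_right two_pos (by omega))), Nat.zero_mod]
      · omega
      · rfl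
    have h2 : ∀ i, dig 64 (aBt_pk N n) i + dig 64 (N n * 2 ^ (64 * n)) i =
        if i < n + 1 then N i else 0 := fun i => by
      rw [ih fun j hj => h j (by omega), h1]
      split_ifs <;> first | omega | simp_all
    intro i
    rw [aBt_pk, sum_range_succ, ← aBt_pk, dig_add 64 (i + 1) _ _ (fun j _ => ?_) i (by omega), h2]
    rw [h2]
    split_ifs with h3
    · exact h j h3
    · exact Nat.two_pow_pos 64

theorem aBt_bit {N : ℕ → ℕ} {n : ℕ} (h : ∀ i < n, N i < 2 ^ 64) (i : ℕ) {j : ℕ} (hj : j < 64) :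
    (aBt_pk N n).testBit (64 * i + j) = (decide (i < n) && (N i).testBit j) := by
  rw [← testBit_dig _ _ _ _ hj, aBt_dig n h]
  split_ifs with h1 <;> simp [h1]

section lanes

variable {N : ℕ → ℕ} (h : ∀ i < 8, N i < 2 ^ 47)
include h

theorem aBt_f {i : ℕ} (hi : i < 8) :
    (aBt_pk N 8 >>> 23 >>> (64 * i)) &&& (2 ^ 17 - 1) = N i / 2 ^ 23 % 2 ^ 17 := by
  refine Nat.eq_of_testBit_eq fun j => ?_
  rw [Nat.testBit_and, Nat.testBit_two_pow_sub_one, Nat.testBit_mod_two_pow,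
    Nat.testBit_div_two_pow, Nat.testBit_shiftRight, Nat.testBit_shiftRight]
  by_cases hj : j < 17
  · rw [show 23 + (64 * i + j) = 64 * i + (j + 23) by omega,
      aBt_bit (fun i hi => (h i hi).trans (by norm_num)) i (by omega)]
    simp [hi, hj]
  · simp [hj]

theorem aBt_fv {i : ℕ} (hi : i < 8) :
    ((aBt_pk N 8 >>> 23 &&& MF) >>> (64 * i)) &&& (2 ^ 17 - 1) = N i / 2 ^ 23 % 2 ^ 17 := by
  have e : MF = aBt_pk (fun _ => 2 ^ 17 - 1) 8 := by decide +kernel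
  rw [← aBt_f h hi]
  refine Nat.eq_of_testBit_eq fun j => ?_
  rw [Nat.testBit_and, Nat.testBit_and, Nat.testBit_two_pow_sub_one, Nat.testBit_shiftRight,
    Nat.testBit_and, Nat.testBit_shiftRight (aBt_pk N 8 >>> 23)]
  by_cases hj : j < 17
  · rw [e, aBt_bit (fun _ _ => by norm_num) i (by omega), Nat.testBit_two_pow_sub_one]
    simp [hi, hj]
  · simp [hj]

theorem aBt_s : aBt_pk N 8 >>> 23 >>> 17 &&& M7 = aBt_pk (fun i => N i / 2 ^ 40) 8 := by
  have e : M7 = aBt_pk (fun _ => 2 ^ 7 - 1) 8 := by decide +kernel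
  have h1 : ∀ i < 8, N i / 2 ^ 40 < 2 ^ 7 := fun i hi => Nat.div_lt_of_lt_mul (h i hi)
  refine Nat.eq_of_testBit_eq fun b => ?_
  have hj : b % 64 < 64 := Nat.mod_lt _ (by norm_num)
  rw [← Nat.div_add_mod b 64]
  generalize b / 64 = i at *
  generalize b % 64 = j at *
  rw [Nat.testBit_and, e, aBt_bit (fun _ _ => by norm_num) i hj, Nat.testBit_two_pow_sub_one,
    aBt_bit (fun i hi => (h1 i hi).trans (by norm_num)) i hj, Nat.testBit_shiftRight,
    Nat.testBit_shiftRight]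
  by_cases hi : i < 8
  · by_cases h2 : j < 7
    · rw [show 23 + (17 + (64 * i + j)) = 64 * i + (j + 40) by omega,
        aBt_bit (fun i hi => (h i hi).trans (by norm_num)) i (by omega), Nat.testBit_div_two_pow]
      simp [hi, h2]
    · rw [Nat.testBit_lt_two_pow ((h1 i hi).trans_le (Nat.pow_le_pow_right two_pos (by omega)))]
      simp [h2]
  · simp [hi]

theorem aBt_sv {i : ℕ} (hi : i < 8) :
    (((aBt_pk N 8 >>> 23 >>> 17 &&& M7) * 80) >>> (64 * i)) &&& (2 ^ 14 - 1) =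
      80 * (N i / 2 ^ 40) := by
  have h1 : ∀ i < 8, 80 * (N i / 2 ^ 40) < 2 ^ 14 := fun i hi => by
    have : N i / 2 ^ 40 < 2 ^ 7 := Nat.div_lt_of_lt_mul (h i hi)
    omega
  have e : aBt_pk (fun i => N i / 2 ^ 40) 8 * 80 = aBt_pk (fun i => 80 * (N i / 2 ^ 40)) 8 := by
    rw [aBt_pk, aBt_pk, sum_mul]
    exact sum_congr rfl fun _ _ => by ring
  have h2 := aBt_dig 8 (fun i hi => (h1 i hi).trans (by norm_num)) i
  rw [if_pos hi, dig] at h2
  rw [aBt_s h, e, Nat.and_two_pow_sub_one_eq_mod, Nat.shiftRight_eq_div_pow,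
    ← Nat.mod_mod_of_dvd _ (pow_dvd_pow 2 (by norm_num : 14 ≤ 64)), h2, Nat.mod_eq_of_lt (h1 i hi)]

end lanes

theorem aBt_num {a D E : ℕ} (h : 7 * E ≤ D) :
    a * O8 + D * RAMP - E * SQ = aBt_pk (fun i => a + i * D - i ^ 2 * E) 8 := by
  have e1 : O8 = aBt_pk (fun _ => 1) 8 := by decide +kernel
  have e2 : RAMP = aBt_pk (fun i => i) 8 := by decide +kernel
  have e3 : SQ = aBt_pk (fun i => i ^ 2) 8 := by decide +kernel
  refine Nat.sub_eq_of_eq_add ?_
  simp only [e1, e2, e3, aBt_pk, mul_sum, ← sum_add_distrib]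
  refine sum_congr rfl fun i hi => ?_
  have h1 : i ^ 2 * E ≤ i * D := by
    rw [sq, mul_assoc]
    exact Nat.mul_le_mul_left i
      ((Nat.mul_le_mul_right E (Nat.le_of_lt_succ (mem_range.1 hi))).trans h)
  rw [← mul_assoc E, ← add_mul, mul_comm E, Nat.sub_add_cancel (h1.trans (Nat.le_add_left _ _))]
  ring

theorem aBt_log {m i K : ℝ} (hm : 2 ^ 19 ≤ m) (h0 : 0 ≤ i) (hi : i ≤ 8) (hK0 : 0 ≤ K)
    (hK : K ≤ 7 * 10 ^ 18) :
    |K * log (1 + i / m) - (i * (K / m) - i ^ 2 * (K / m / (2 * m)))| ≤ 50000 := by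
  have hm0 : 0 < m := lt_of_lt_of_le (by norm_num) hm
  have h1 : 0 ≤ i / m := div_nonneg h0 hm0.le
  have h2 : i / m ≤ 1 / 2 ^ 16 := by
    rw [div_le_iff₀ hm0]
    linarith
  have e : K * log (1 + i / m) - (i * (K / m) - i ^ 2 * (K / m / (2 * m))) =
      K * (log (1 + i / m) - i / m + (i / m) ^ 2 / 2) := by
    field_simp
    ring
  rw [e, abs_mul, abs_of_nonneg hK0]
  generalize i / m = x at h1 h2
  have h3 := abs_log_sub_add_sum_range_le (x := -x) (by rw [abs_neg, abs_of_nonneg h1]; linarith) 2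
  rw [abs_neg, abs_of_nonneg h1, sub_neg_eq_add] at h3
  have h4 : x ^ (2 + 1) / (1 - x) ≤ (1 / 2 ^ 16) ^ (2 + 1) / (1 / 2) := by
    gcongr
    linarith
  have h5 : |log (1 + x) - x + x ^ 2 / 2| ≤ (1 / 2 ^ 16) ^ (2 + 1) / (1 / 2) := by
    refine le_trans (le_of_eq ?_) (h3.trans h4)
    congr 1
    simp [sum_range_succ]
    ring
  refine (mul_le_mul hK h5 (abs_nonneg _) (by norm_num)).trans (by norm_num)

theorem aBt_div (a : ℕ) {b : ℕ} (hb : 0 < b) :
    ((a / b : ℕ) : ℝ) ≤ a / b ∧ (a : ℝ) / b ≤ (a / b : ℕ) + 1 := by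
  refine ⟨Nat.cast_div_le, ?_⟩
  rw [div_le_iff₀' (by exact_mod_cast hb)]
  exact_mod_cast (Nat.lt_mul_div_succ a hb).le

theorem stBt (hLg : StLg) : StBt := by
  intro m P hm _ hP
  obtain ⟨-, -, k1, k2⟩ := hLg
  have hm0 : 0 < m := lt_of_lt_of_le (by norm_num) hm
  have hD : KK / m ≤ 13 * 10 ^ 12 := (Nat.div_le_div_left hm (by norm_num)).trans (by decide +kernel)
  have hE : 7 * (KK / m / (m + m)) ≤ KK / m :=
    (Nat.mul_le_mul_right _ (by omega)).trans (Nat.mul_div_le _ _)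
  obtain ⟨d1, d2⟩ := aBt_div KK hm0
  obtain ⟨d3, d4⟩ := aBt_div (KK / m) (add_pos hm0 hm0)
  have hK : (KK : ℝ) + 1 ≤ 7 * 10 ^ 18 := by norm_num [KK]
  have hb : bt m P = (P % 2 ^ 40 * O8 + KK / m * RAMP - KK / m / (m + m) * SQ) >>> 23 := by
    rw [← Nat.and_two_pow_sub_one_eq_mod]
    rfl
  have hr : P % 2 ^ 40 < 2 ^ 40 := Nat.mod_lt _ (by norm_num)
  have hq := Nat.div_add_mod P (2 ^ 40)
  rw [aBt_num hE] at hb
  generalize KK / m / (m + m) = E at *
  generalize KK / m = D at *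
  generalize P % 2 ^ 40 = a at *
  generalize P / 2 ^ 40 = c at *
  have hN : ∀ i < 8, a + i * D - i ^ 2 * E < 2 ^ 47 := fun i hi => by
    have : i * D ≤ 7 * D := Nat.mul_le_mul_right D (by omega)
    omega
  refine ⟨fun i => (a + i * D - i ^ 2 * E) / 2 ^ 23 % 2 ^ 17,
    fun i => (a + i * D - i ^ 2 * E) / 2 ^ 40, fun i hi => ⟨Nat.mod_lt _ (by norm_num),
      Nat.div_lt_of_lt_mul (hN i hi), ?_, ?_⟩, by simpa using hr, ?_⟩
  · beta_reduce
    rw [← aBt_fv hN hi, ← aBt_sv hN hi, ← hb, ← Nat.shiftLeft_eq]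
    rfl
  · have h1 : i ^ 2 * E ≤ i * D := by
      rw [sq, mul_assoc]
      exact Nat.mul_le_mul_left i ((Nat.mul_le_mul_right E (by omega)).trans hE)
    obtain ⟨n, hn⟩ : ∃ n, a + i * D - i ^ 2 * E = n := ⟨_, rfl⟩
    have h2 : (n : ℝ) + i ^ 2 * E = a + i * D := by
      exact_mod_cast (Nat.sub_eq_iff_eq_add (h1.trans (Nat.le_add_left _ _))).1 hn |>.symm
    simp only [hn]
    obtain ⟨ρ, h3, h4⟩ : ∃ ρ, ρ < 2 ^ 23 ∧
        n = 2 ^ 40 * (n / 2 ^ 40) + 2 ^ 23 * (n / 2 ^ 23 % 2 ^ 17) + ρ :=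
      ⟨n % 2 ^ 23, Nat.mod_lt _ (by norm_num), by omega⟩
    generalize n / 2 ^ 40 = s at *
    generalize n / 2 ^ 23 % 2 ^ 17 = f at *
    have hm' : (2 : ℝ) ^ 19 ≤ m := by exact_mod_cast hm
    have hm1 : (0 : ℝ) < m := by exact_mod_cast hm0
    have hi' : (i : ℝ) ≤ 8 := by exact_mod_cast hi.le
    have hi0 : (0 : ℝ) ≤ i := Nat.cast_nonneg i
    have h5 := aBt_log hm' hi0 hi' ((Nat.cast_nonneg KK).trans k1) (k2.trans hK)
    have e : 2 ^ 62 * logb 2 ((m + i : ℕ) / 2 ^ 19) =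
        2 ^ 62 * logb 2 (m / 2 ^ 19) + 2 ^ 62 / log 2 * log (1 + (i : ℝ) / m) := by
      have e1 : ((m + i : ℕ) : ℝ) / 2 ^ 19 = m / 2 ^ 19 * (1 + i / m) := by
        push_cast
        field_simp
      rw [e1, logb_mul (by positivity) (by positivity), logb, logb]
      ring
    generalize (2 : ℝ) ^ 62 / log 2 = K at *
    have u1 : (D : ℝ) ≤ K / m := d1.trans (div_le_div_of_nonneg_right k1 hm1.le)
    have u2 : K / m ≤ D + 2 := by
      have h6 : (1 : ℝ) / m ≤ 1 := (div_le_one hm1).2 (by linarith)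
      have h7 := div_le_div_of_nonneg_right k2 hm1.le
      rw [add_div] at h7
      linarith
    rw [Nat.cast_add, ← two_mul] at d3 d4
    have v1 : (E : ℝ) ≤ K / m / (2 * m) := d3.trans (div_le_div_of_nonneg_right u1 (by positivity))
    have v2 : K / m / (2 * m) ≤ E + 2 := by
      have h6 : (2 : ℝ) / (2 * m) ≤ 1 := (div_le_one (by positivity)).2 (by linarith)
      have h7 := div_le_div_of_nonneg_right u2 (by positivity : (0 : ℝ) ≤ 2 * m)
      rw [add_div] at h7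
      linarith
    have w1 := mul_le_mul_of_nonneg_left u1 hi0
    have w2 := mul_le_mul_of_nonneg_left u2 hi0
    have w3 := mul_le_mul_of_nonneg_left v1 (sq_nonneg (i : ℝ))
    have w4 := mul_le_mul_of_nonneg_left v2 (sq_nonneg (i : ℝ))
    have w5 : (i : ℝ) ^ 2 ≤ 8 ^ 2 := pow_le_pow_left₀ hi0 hi' 2
    have w6 : (2 : ℝ) ^ 40 * c + a = P := by exact_mod_cast hq
    have w7 : (n : ℝ) = 2 ^ 40 * s + 2 ^ 23 * f + ρ := by exact_mod_cast h4
    have w8 : (ρ : ℝ) ≤ 2 ^ 23 := by exact_mod_cast h3.le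
    have w9 : (0 : ℝ) ≤ ρ := Nat.cast_nonneg ρ
    obtain ⟨p1, p2⟩ := hP
    rw [abs_le] at h5 ⊢
    rw [Nat.cast_add c]
    constructor <;> linarith [h5.1, h5.2]
  · have h1 := aBt_f hN (i := 0) (by norm_num)
    rw [mul_zero, Nat.shiftRight_zero, ← hb] at h1
    beta_reduce
    rw [← h1]
    rfl

end Pool.Agent.MP_88bd62_nt.U.A
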