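import Pool.Agent.MP_88bd62_nt.U.AStm

/-! The inverse transform on the grid. -/

namespace Pool.Agent.MP_88bd62_nt.U.A

open Finset Real Polynomial

noncomputable section

theorem aCf_mem {N : ℕ} {k : ℤ} : k ∈ Kset N ↔ (-(2 * N : ℤ) < k ∧ k < 2 * N) ∧ Odd k := by
  rw [Kset, mem_filter, mem_Ioo]

theorem aCf_sumK (N : ℕ) (f : ℤ → ℂ) :
    ∑ k ∈ Kset N, f k = ∑ r ∈ range (2 * N), f (2 * r + 1 - 2 * N) := by
  symm
  refine Finset.sum_bij (fun r _ => (2 * (r : ℤ) + 1 - 2 * N : ℤ)) ?_ ?_ ?_ ?_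
  · intro r hr
    rw [mem_range] at hr
    rw [aCf_mem]
    refine ⟨⟨by omega, by omega⟩, ⟨r - N, by ring⟩⟩
  · intro a _ b _ h
    omega
  · intro k hk
    rw [aCf_mem] at hk
    obtain ⟨⟨h1, h2⟩, ⟨s, rfl⟩⟩ := hk
    refine ⟨(s + N).toNat, ?_, ?_⟩
    · rw [mem_range]; omega
    · omega
  · intro r _
    rfl

theorem aCf_xp_zero (k : ℤ) : xp k 0 = 1 := by
  simp [xp]

theorem aCf_xp_step (a : ℤ) (r : ℕ) (d : ℝ) :
    xp (2 * r + a) d = xp a d * Complex.exp (-(2 * π * Complex.I * d / 2 ^ 22)) ^ r := by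
  rw [← Complex.exp_nat_mul, xp, xp, ← Complex.exp_add]
  congr 1
  simp only [zk]
  push_cast
  ring

theorem aCf_orth (d : ℤ) (h0 : d ≠ 0) (h1 : |d| < 2 ^ 22) :
    ∑ k ∈ Kset (2 ^ 21), xp k d = 0 := by
  obtain ⟨N, hN⟩ : ∃ N : ℕ, N = 2 ^ 21 := ⟨_, rfl⟩
  rw [← hN, aCf_sumK]
  set w : ℂ := Complex.exp (-(2 * π * Complex.I * ((d : ℝ) : ℂ) / 2 ^ 22)) with hw
  have h2 : ∀ r : ℕ, xp (2 * r + 1 - 2 * N) d = xp (1 - 2 * N) d * w ^ r := by
    intro r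
    rw [← aCf_xp_step]
    congr 1
    ring
  have hw1 : w ≠ 1 := by
    intro h
    rw [hw, Complex.exp_eq_one_iff] at h
    obtain ⟨n, hn⟩ := h
    have hpi : (2 * π * Complex.I : ℂ) ≠ 0 := Complex.two_pi_I_ne_zero
    have h3 : ((d : ℝ) : ℂ) = -(n * 2 ^ 22) := by
      apply mul_left_cancel₀ hpi
      linear_combination (-2 ^ 22 : ℂ) * hn
    have h4 : d = -(n * 2 ^ 22) := by exact_mod_cast h3
    rw [abs_lt] at h1
    omega
  have hwN : w ^ (2 * N) = 1 := by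
    rw [hw, ← Complex.exp_nat_mul, Complex.exp_eq_one_iff]
    refine ⟨-d, ?_⟩
    have : ((2 * N : ℕ) : ℂ) = 2 ^ 22 := by
      rw [hN]; norm_num
    rw [this]
    push_cast
    field_simp
  simp_rw [h2]
  rw [← Finset.mul_sum, geom_sum_eq hw1, hwN]
  simp

theorem aCf_card : ∑ k ∈ Kset (2 ^ 21), xp k 0 = 2 ^ 22 := by
  obtain ⟨N, hN⟩ : ∃ N : ℕ, N = 2 ^ 21 := ⟨_, rfl⟩
  rw [← hN, aCf_sumK]
  simp_rw [aCf_xp_zero]
  rw [Finset.sum_const, card_range, nsmul_eq_mul, mul_one, hN]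
  norm_num

theorem aCf_one (d : ℤ) (h1 : |d| < 2 ^ 22) :
    cf (fun _ => 1) d = if d = 0 then 1 else 0 := by
  rw [cf]
  simp_rw [one_mul]
  split_ifs with h
  · subst h
    rw [Int.cast_zero, neg_zero, aCf_card]
    norm_num
  · have := aCf_orth (-d) (by omega) (by rwa [abs_neg])
    rw [Int.cast_neg] at this
    rw [this, zero_div]

theorem aCf_shift (hBas : StBas) (φ : ℤ → ℂ) (i m : ℤ) :
    cf (fun k => xp k i * φ k) m = cf φ (m - i) := by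
  rw [cf, cf]
  refine congrArg (fun z : ℂ => z / 2 ^ 22) ?_
  refine Finset.sum_congr rfl fun k _ => ?_
  have : (-((m - i : ℤ) : ℝ)) = i + -m := by push_cast; ring
  rw [this, hBas.1]
  ring

theorem aCf_congr (φ ψ : ℤ → ℂ) (m : ℤ) (h : ∀ k, Odd k → φ k = ψ k) : cf φ m = cf ψ m := by
  rw [cf, cf]
  refine congrArg (fun z : ℂ => z / 2 ^ 22) ?_
  refine Finset.sum_congr rfl fun k hk => ?_
  rw [h k (aCf_mem.1 hk).2]

theorem aCf_per (hBas : StBas) (φ : ℤ → ℂ) (m : ℤ) : cf φ (m + 2 ^ 22) = -2 * cf φ m := by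
  rw [cf, cf, ← mul_div_assoc, Finset.mul_sum]
  refine congrArg (fun z : ℂ => z / 2 ^ 22) ?_
  refine Finset.sum_congr rfl fun k hk => ?_
  have hk' : Odd k := (aCf_mem.1 hk).2
  have h1 : xp k (2 ^ 22) = -1 / 2 := by
    rw [← hBas.2.2.2.1 k hk', ← hBas.2.1 k (2 ^ 22)]
    congr 1
    norm_num
  have h2 : xp k (-(m : ℝ)) = xp k (-((m + 2 ^ 22 : ℤ) : ℝ)) * xp k (2 ^ 22) := by
    rw [← hBas.1]
    congr 1
    push_cast
    ring
  rw [h2, h1]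
  ring

theorem aCf_smul (a : ℂ) (φ : ℤ → ℂ) (m : ℤ) : cf (fun k => a * φ k) m = a * cf φ m := by
  rw [cf, cf, ← mul_div_assoc, Finset.mul_sum]
  refine congrArg (fun z : ℂ => z / 2 ^ 22) ?_
  refine Finset.sum_congr rfl fun k _ => ?_
  ring

theorem aCf_sum {ι : Type} (s : Finset ι) (φ : ι → ℤ → ℂ) (m : ℤ) :
    cf (fun k => ∑ j ∈ s, φ j k) m = ∑ j ∈ s, cf (φ j) m := by
  simp only [cf]
  rw [← Finset.sum_div, Finset.sum_comm]
  refine congrArg (fun z : ℂ => z / 2 ^ 22) ?_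
  refine Finset.sum_congr rfl fun k _ => ?_
  rw [Finset.sum_mul]

theorem aCf_mul (hBas : StBas) (P : ℤ[X]) (n : ℕ) (hn : P.natDegree < n) (φ : ℤ → ℂ) (m : ℤ) :
    cf (fun k => ev k P * φ k) m = ∑ j ∈ range n, (P.coeff j : ℂ) * cf φ (m - j) := by
  have h : (fun k => ev k P * φ k) =
      fun k => ∑ j ∈ range n, (P.coeff j : ℂ) * (xp k ((j : ℤ) : ℝ) * φ k) := by
    funext k
    rw [ev, Polynomial.aeval_eq_sum_range' hn, Finset.sum_mul]
    refine Finset.sum_congr rfl fun j _ => ?_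
    rw [Int.cast_natCast, hBas.2.1, zsmul_eq_mul, mul_assoc]
  rw [h, aCf_sum]
  refine Finset.sum_congr rfl fun j _ => ?_
  rw [aCf_smul, aCf_shift hBas]

theorem aCf_coeff' (hBas : StBas) (G : ℕ) (hG : (G : ℤ) = 2 ^ 22) (P : ℤ[X]) (i : ℕ)
    (hP : ∀ j, G ≤ j → P.coeff j = 0) (hi : i < G) :
    cf (fun k => ev k P) i = P.coeff i := by
  have hn : P.natDegree < G := by
    have : P.natDegree ≤ G - 1 := by
      rw [Polynomial.natDegree_le_iff_coeff_eq_zero]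
      intro j hj
      exact hP j (by omega)
    omega
  have h := aCf_mul hBas P G hn (fun _ => 1) i
  simp only [mul_one] at h
  rw [h, Finset.sum_eq_single i]
  · rw [aCf_one _ (by simp), if_pos (by simp), mul_one]
  · intro j hj hji
    rw [mem_range] at hj
    rw [aCf_one _ (by rw [abs_lt, ← hG]; omega), if_neg (by omega), mul_zero]
  · intro hi'
    exact absurd (mem_range.2 hi) hi'

theorem aCf_coeff (hBas : StBas) (P : ℤ[X]) (i : ℕ)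
    (hP : ∀ j, 2 ^ 22 ≤ j → P.coeff j = 0) (hi : i < 2 ^ 22) :
    cf (fun k => ev k P) i = P.coeff i :=
  aCf_coeff' hBas (2 ^ 22) (by norm_num) P i hP hi

theorem aCf_block (g : ℤ → ℂ) (G : ℤ) (hG : 0 < G) (c : ℝ) (hg : ∀ m, g (m + G) = -2 * g m)
    (h : ∀ m, 0 ≤ m → m < G → ‖g m‖ ≤ c) (m : ℤ) (hm : m < 3 * G) : ‖g m‖ ≤ 4 * c := by
  have hc : 0 ≤ c := (norm_nonneg _).trans (h 0 le_rfl hG)
  have hn : ∀ m, ‖g (m + G)‖ = 2 * ‖g m‖ := by
    intro m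
    rw [hg, norm_mul]
    simp
  have h1 : ∀ n : ℕ, ∀ m, -(n : ℤ) ≤ m → m < G → ‖g m‖ ≤ c := by
    intro n
    induction n with
    | zero => intro m h1 h2; exact h m (by simpa using h1) h2
    | succ n ih =>
      intro m h1 h2
      by_cases h0 : 0 ≤ m
      · exact h m h0 h2
      · have := ih (m + G) (by push_cast at h1; omega) (by omega)
        rw [hn] at this
        linarith [norm_nonneg (g m)]
  have h2 : ∀ m, m < G → ‖g m‖ ≤ c := fun m hm => h1 m.natAbs m (by omega) hm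
  have h3 : ∀ m, m < 2 * G → ‖g m‖ ≤ 2 * c := by
    intro m hm
    have := h2 (m - G) (by omega)
    have e := hn (m - G)
    rw [sub_add_cancel] at e
    linarith
  have := h3 (m - G) (by omega)
  have e := hn (m - G)
  rw [sub_add_cancel] at e
  linarith

theorem aCf_onp_coeff (n i : ℕ) : (onp n).coeff i = if i < n then 1 else 0 := by
  rw [onp, finsetSum_coeff]
  simp_rw [coeff_X_pow]
  rw [Finset.sum_ite_eq]
  simp only [mem_range]

theorem aCf_onp_ev (n : ℕ) (k : ℤ) : (1 - xk k) * ev k (onp n) = 1 - xk k ^ n := by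
  rw [ev, onp, map_sum]
  simp_rw [map_pow, aeval_X]
  exact mul_neg_geom_sum _ _

theorem aCf_geo (hBas : StBas) (m : ℤ) (h0 : 0 ≤ m) (h1 : m < 2 ^ 22) :
    cf (fun k => 1 / (1 - xk k)) m = 2 / 3 := by
  obtain ⟨G, hG⟩ : ∃ G : ℕ, G = 2 ^ 22 := ⟨_, rfl⟩
  have hG' : (G : ℤ) = 2 ^ 22 := by rw [hG]; norm_num
  have h : ∀ k, Odd k → 1 / (1 - xk k) = 2 / 3 * ev k (onp G) := by
    intro k hk
    have e := aCf_onp_ev G k
    have e2 : xk k ^ G = -1 / 2 := by rw [hG]; exact hBas.2.2.2.1 k hk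
    have hne : 1 - xk k ≠ 0 := sub_ne_zero.2 (hBas.2.2.2.2.2.2.1 k).2.2.2.2.2.2.1.symm
    rw [e2] at e
    rw [div_eq_iff hne]
    linear_combination (-2 / 3 : ℂ) * e
  rw [aCf_congr _ _ m h, aCf_smul]
  obtain ⟨i, rfl⟩ := Int.eq_ofNat_of_zero_le h0
  have hi : i < G := by rw [← hG'] at h1; exact_mod_cast h1
  rw [aCf_coeff' hBas G hG' (onp G) i (fun j hj => by rw [aCf_onp_coeff, if_neg (by omega)]) hi,
    aCf_onp_coeff, if_pos hi]
  norm_num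

theorem aCf_sup (hBas : StBas) (P : ℤ[X]) (c : ℝ) (m : ℤ) (hP : Sup P (2 ^ 22) c)
    (hm : m < 3 * 2 ^ 22) : ‖cf (fun k => ev k P) m‖ ≤ 4 * c := by
  refine aCf_block (cf fun k => ev k P) (2 ^ 22) (by norm_num) c (aCf_per hBas _) ?_ m hm
  intro m h0 h1
  obtain ⟨i, rfl⟩ := Int.eq_ofNat_of_zero_le h0
  rw [aCf_coeff hBas P i hP.1 (by exact_mod_cast h1), Complex.norm_intCast]
  exact hP.2 i

theorem aCf_l1 (hBas : StBas) (φ : ℤ → ℂ) (P : ℤ[X]) (c M : ℝ) (m : ℤ)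
    (hM : ∀ m' ≤ m, ‖cf φ m'‖ ≤ M) (hP : L1 P c) :
    ‖cf (fun k => ev k P * φ k) m‖ ≤ c * M := by
  have hM0 : 0 ≤ M := (norm_nonneg _).trans (hM m le_rfl)
  rw [aCf_mul hBas P (P.natDegree + 1) (Nat.lt_succ_self _)]
  refine (norm_sum_le _ _).trans ?_
  refine le_trans ?_ (mul_le_mul_of_nonneg_right (hP (P.natDegree + 1)) hM0)
  rw [Finset.sum_mul]
  refine Finset.sum_le_sum fun j _ => ?_
  rw [norm_mul, Complex.norm_intCast]
  exact mul_le_mul_of_nonneg_left (hM _ (by omega)) (abs_nonneg _)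

theorem aCf_restr (N : ℕ) (f : ℤ → ℂ) :
    ∑ k ∈ Kset (2 * N), (wk N k : ℂ) * f k = ∑ k ∈ Kset N, (wk N k : ℂ) * f k := by
  symm
  refine Finset.sum_subset ?_ ?_
  · intro k hk
    rw [aCf_mem] at hk ⊢
    refine ⟨⟨?_, ?_⟩, hk.2⟩
    · push_cast; omega
    · push_cast; omega
  · intro k hk hk'
    rw [aCf_mem] at hk hk'
    have : 2 * (N : ℤ) ≤ |k| := by
      by_contra h
      rw [not_le, abs_lt] at h
      exact hk' ⟨h, hk.2⟩
    rw [wk, if_pos this]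
    simp

theorem aCf_wk (c : ℤ → ℂ) (i : ℤ) : cf (fun k => wk (2 ^ 20) k * c k) i =
    (∑ k ∈ K20, (wk (2 ^ 20) k : ℂ) * (c k * xp k (-i))) / 2 ^ 22 := by
  rw [cf, K20, ← aCf_restr, show 2 * 2 ^ 20 = 2 ^ 21 from by norm_num]
  refine congrArg (fun z : ℂ => z / 2 ^ 22) ?_
  refine Finset.sum_congr rfl fun k _ => ?_
  ring

theorem aCf_lp (hBas : StBas) (c : ℤ → ℂ) (i : ℤ) :
    (((2 : ℝ) ^ ((i : ℝ) / 2 ^ 22) : ℝ) : ℂ) * LPc (2 ^ 20) c (i / 2 ^ 22) =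
      cf (fun k => wk (2 ^ 20) k * (c k / zk k)) i := by
  rw [aCf_wk, LPc, K20, Finset.mul_sum, Finset.sum_div]
  refine Finset.sum_congr rfl fun k _ => ?_
  have h1 := hBas.2.2.2.2.2.1 k ((i : ℝ) / 2 ^ 22)
  have h2 : -((2 : ℝ) ^ 22 * ((i : ℝ) / 2 ^ 22)) = -i := by field_simp
  rw [h2] at h1
  obtain ⟨h3, h4, -⟩ := hBas.2.2.2.2.2.2.1 k
  rw [← h1, h4]
  field_simp

theorem aCf_nb (hBas : StBas) (c : ℤ → ℂ) (i : ℤ) :
    ‖cf (fun k => wk (2 ^ 20) k * c k) i‖ ≤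
      2 ^ ((i : ℝ) / 2 ^ 22) * ((∑ k ∈ K20, wk (2 ^ 20) k * ‖c k‖) / 2 ^ 22) := by
  rw [aCf_wk, norm_div, ← mul_div_assoc, Finset.mul_sum]
  have h : ‖(2 : ℂ) ^ 22‖ = 2 ^ 22 := by simp
  rw [h]
  refine div_le_div_of_nonneg_right ((norm_sum_le _ _).trans ?_) (by positivity)
  refine Finset.sum_le_sum fun k hk => ?_
  have hw : 0 ≤ wk (2 ^ 20) k := (hBas.2.2.2.2.2.2.2 k hk).2.2.2.2.2.2.2.1
  rw [norm_mul, norm_mul, hBas.2.2.1, Complex.norm_real, Real.norm_of_nonneg hw, neg_div, neg_neg]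
  exact le_of_eq (by ring)

theorem stCf (hBas : StBas) : StCf := by
  refine ⟨aCf_coeff hBas, aCf_shift hBas, aCf_per hBas, aCf_congr, fun m => ⟨aCf_geo hBas m, ?_, ?_⟩,
    aCf_sup hBas, aCf_l1 hBas, fun c i => ⟨aCf_lp hBas c i, aCf_nb hBas c i⟩⟩
  · intro h0 h1
    have e := aCf_per hBas (fun k => 1 / (1 - xk k)) m
    rw [aCf_geo hBas (m + 2 ^ 22) (by linarith) (by linarith)] at e
    linear_combination (1 / 2 : ℂ) * e
  · intro hm
    have := aCf_block (cf fun k => 1 / (1 - xk k)) (2 ^ 22) (by norm_num) (2 / 3) (aCf_per hBas _)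
      (fun m h0 h1 => by rw [aCf_geo hBas m h0 h1]; norm_num) m hm
    linarith

end

end Pool.Agent.MP_88bd62_nt.U.A
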