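import Pool.Agent.MP_88bd62_nt.U.ASpec

/-! The check of one quarter of the partial sum of zeta. -/

namespace Pool.Agent.MP_88bd62_nt.U.A

open Finset Real Polynomial
open Pool.Agent.MP_22d5c4_co.K (dig ones)
open D (cn an PL cl flo fhi Tb)

noncomputable section

theorem aChk_pos (hLg : StLg) (m : ℕ) (h1 : 2 ^ 19 ≤ m) (h2 : m + 2 ^ 17 ≤ 2 ^ 20) :
    PosOK m (Nat.add 4194304 (lg 24 524288 m)) 100 := by
  obtain ⟨h3, h4⟩ := hLg.1 24 524288 m (by norm_num) (by omega) (by omega)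
  generalize lg 24 524288 m = L at h3 h4 ⊢
  have hm1 : (524288 : ℝ) ≤ m := by exact_mod_cast (show 524288 ≤ m by omega)
  have hm2 : (m : ℝ) ≤ 1048576 := by exact_mod_cast (show m ≤ 1048576 by omega)
  have hy0 : (0 : ℝ) ≤ ((m : ℝ) - (524288 : ℕ)) / ((524288 : ℕ) + m) := by
    apply div_nonneg
    · push_cast; linarith
    · positivity
  have hy1 : ((m : ℝ) - (524288 : ℕ)) / ((524288 : ℕ) + m) ≤ 1 / 3 := by
    rw [div_le_div_iff₀ (by positivity) (by norm_num)]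
    push_cast
    linarith
  have hy2 := pow_le_pow_left₀ hy0 hy1 (2 * 24 + 1)
  have e1 : ((524288 : ℕ) : ℝ) = 2 ^ 19 := by norm_num
  have e2 : ((Nat.add 4194304 L : ℕ) : ℝ) = 2 ^ 22 + L := by
    rw [Nat.add_eq]; push_cast; norm_num
  generalize (((m : ℝ) - (524288 : ℕ)) / ((524288 : ℕ) + m)) ^ (2 * 24 + 1) = y at hy2 h4
  rw [e1] at h3 h4
  unfold PosOK
  rw [e2]
  generalize logb 2 ((m : ℝ) / 2 ^ 19) = w at h3 h4 ⊢
  constructor
  · linarith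
  · norm_num at hy2 h4 ⊢
    linarith

theorem aChk_exp (x : ℝ) (h : |x| ≤ 1 / 2 ^ 22) : |(2 : ℝ) ^ x - 1| ≤ 0.00000016527 := by
  rw [rpow_def_of_pos (by norm_num)]
  have h1 := Real.log_two_lt_d9
  have h2 := Real.log_two_gt_d9
  have h3 : |log 2 * x| ≤ 0.000000165265 := by
    rw [abs_mul, abs_of_pos (by linarith : (0 : ℝ) < log 2)]
    calc log 2 * |x| ≤ 0.6931471808 * (1 / 2 ^ 22) := by gcongr
      _ ≤ _ := by norm_num
  have h4 := Real.abs_exp_sub_one_sub_id_le (x := log 2 * x) (by linarith)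
  generalize log 2 * x = z at h3 h4 ⊢
  have h5 : z ^ 2 ≤ 0.000000165265 ^ 2 := by
    rw [← sq_abs]
    exact pow_le_pow_left₀ (abs_nonneg _) h3 2
  rw [abs_le] at h3 h4 ⊢
  constructor <;> norm_num at h3 h4 h5 ⊢ <;> linarith [h3.1, h3.2, h4.1, h4.2]

theorem aChk_acc (m P e : ℕ) (h1 : 2 ^ 19 ≤ m) (h2 : m + 2 ^ 17 ≤ 2 ^ 20) (hP : PosOK m P 100)
    (he : |(e : ℤ) * 2 ^ 19 - 4465566707 * m| ≤ 2 ^ 19) :
    |(e : ℝ) - 3 * 2 ^ 31 * log 2 * 2 ^ (((P / 2 ^ 40 : ℕ) : ℝ) / 2 ^ 22)| ≤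
      5 + 739 * 2 ^ (((P / 2 ^ 40 : ℕ) : ℝ) / 2 ^ 22) := by
  have hm1 : (524288 : ℝ) ≤ m := by exact_mod_cast (show 524288 ≤ m by omega)
  have hm2 : (m : ℝ) ≤ 1048576 := by exact_mod_cast (show m ≤ 1048576 by omega)
  have ha1 : ((P / 2 ^ 40 : ℕ) : ℝ) * 2 ^ 40 ≤ P := by
    exact_mod_cast Nat.div_mul_le_self P (2 ^ 40)
  have ha2 : (P : ℝ) ≤ (((P / 2 ^ 40 : ℕ) : ℝ) + 1) * 2 ^ 40 := by
    have : P ≤ (P / 2 ^ 40 + 1) * 2 ^ 40 := by omega
    exact_mod_cast this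
  generalize ((P / 2 ^ 40 : ℕ) : ℝ) = a at ha1 ha2 ⊢
  have he' : |(e : ℝ) * 2 ^ 19 - 4465566707 * m| ≤ 2 ^ 19 := by
    simpa only [Int.cast_abs, Int.cast_sub, Int.cast_mul, Int.cast_pow, Int.cast_natCast,
      Int.cast_ofNat] using (Int.cast_le (R := ℝ)).2 he
  obtain ⟨p1, p2⟩ := hP
  have hw : (2 : ℝ) ^ logb 2 ((m : ℝ) / 2 ^ 19) = m / 2 ^ 19 :=
    rpow_logb (by norm_num) (by norm_num) (by positivity)
  generalize logb 2 ((m : ℝ) / 2 ^ 19) = w at p1 p2 hw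
  have hs : |w - a / 2 ^ 22| ≤ 1 / 2 ^ 22 := by
    rw [abs_le]
    constructor <;> norm_num at p1 p2 ha1 ha2 ⊢ <;> linarith
  have h3 := aChk_exp _ hs
  have h4 : (m : ℝ) / 2 ^ 19 = 2 ^ (a / 2 ^ 22) * 2 ^ (w - a / 2 ^ 22) := by
    rw [← rpow_add (by norm_num), ← hw]
    congr 1
    ring
  have hu : (0 : ℝ) < 2 ^ (a / 2 ^ 22) := by positivity
  generalize (2 : ℝ) ^ (a / 2 ^ 22) = u at h4 hu ⊢
  generalize (2 : ℝ) ^ (w - a / 2 ^ 22) = v at h4 h3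
  have hc : |3 * 2 ^ 31 * log 2 - 4465566707| ≤ 2 := by
    have := Real.log_two_near_10
    rw [abs_le] at this ⊢
    constructor <;> norm_num at this ⊢ <;> linarith [this.1, this.2]
  generalize 3 * 2 ^ 31 * log 2 = c at hc ⊢
  have h5 : |(e : ℝ) - c * (u * v)| ≤ 5 := by
    rw [← h4]
    have : (e : ℝ) - c * (m / 2 ^ 19) =
        (e * 2 ^ 19 - 4465566707 * m) / 2 ^ 19 - (c - 4465566707) * (m / 2 ^ 19) := by ring
    rw [this]
    refine (abs_sub _ _).trans ?_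
    rw [abs_div, abs_mul, abs_of_pos (by positivity : (0 : ℝ) < 2 ^ 19),
      abs_of_nonneg (by positivity : (0 : ℝ) ≤ m / 2 ^ 19)]
    have q1 : |(e : ℝ) * 2 ^ 19 - 4465566707 * m| / 2 ^ 19 ≤ 1 := by
      rw [div_le_one (by positivity)]; exact he'
    have q2 : (m : ℝ) / 2 ^ 19 ≤ 2 := by
      rw [div_le_iff₀ (by positivity)]; norm_num; linarith
    have q3 : |c - 4465566707| * (m / 2 ^ 19) ≤ 2 * 2 := by gcongr
    linarith
  have h6 : |c * (u * v) - c * u| ≤ 739 * u := by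
    have : c * (u * v) - c * u = (c * (v - 1)) * u := by ring
    rw [this, abs_mul, abs_of_pos hu, abs_mul]
    have q1 : |c| ≤ 4465566709 := by
      rw [abs_le] at hc ⊢
      constructor <;> linarith [hc.1, hc.2]
    have q2 : |c| * |v - 1| ≤ 4465566709 * 0.00000016527 := by gcongr
    have q3 : |c| * |v - 1| ≤ 739 := q2.trans (by norm_num)
    gcongr
  calc |(e : ℝ) - c * u| = |(e - c * (u * v)) + (c * (u * v) - c * u)| := by ring_nf
    _ ≤ _ := (abs_add_le _ _).trans (add_le_add h5 h6)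

/-- The polynomial identity from the identity of the packed values. -/
theorem aChk_id (hUni : StUni) (hNrm : StNrm) (hMk : StMk) (n zu q R t v : ℕ) (Z : ℤ[X])
    (hzu : zu < 2 ^ (80 * n)) (hzd : ∀ i < n, dig 80 zu i < 2 ^ 29)
    (hq : q < 2 ^ (80 * n)) (hqd : ∀ i < n, dig 80 q i < 2 ^ 27)
    (hR : R < 2 ^ (80 * n)) (hRd : ∀ i < n, dig 80 R i ≤ 2 ^ 34) (ht : t ≤ 2 ^ 27)
    (hZ : vl Z = v) (hZ1 : L1 Z (2 ^ 60))
    (h : t * 2 ^ (80 * n) + v + zu * 2 ^ 27 =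
      R + (ones 80 n * 36033195065475072 + 67108864) + (2 ^ 80 - 1) * q) :
    C (2 ^ 27) * tp n zu zoff =
      tp n R 0 - Z - C ((t : ℤ) - 2 ^ 26) * X ^ n - (1 - X) * tp n q (2 ^ 26) := by
  have c1 := (hUni.2.2.1 n zu zoff).1
  have c2 := (hUni.2.2.1 n R 0).1
  have c3 := (hUni.2.2.1 n q (2 ^ 26)).1
  have v1 := (hUni.2.2.1 n zu zoff).2 hzu
  have v2 := (hUni.2.2.1 n R 0).2 hR
  have v3 := (hUni.2.2.1 n q (2 ^ 26)).2 hq
  have ho := hMk.2.2.2.2.2.1 n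
  have hz : (zoff : ℤ) = 268468224 := rfl
  have b1 (i : ℕ) : |(tp n zu zoff).coeff i| ≤ 2 ^ 29 := by
    rw [c1, hz]
    split_ifs with hi
    · have := hzd i hi
      rw [abs_le]
      constructor <;> omega
    · norm_num
  have b2 (i : ℕ) : |(tp n R 0).coeff i| ≤ 2 ^ 34 := by
    rw [c2]
    split_ifs with hi
    · have := hRd i hi
      rw [abs_le]
      constructor <;> omega
    · norm_num
  have b3 (i : ℕ) : |(tp n q (2 ^ 26)).coeff i| ≤ 2 ^ 26 := by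
    rw [c3]
    split_ifs with hi
    · have := hqd i hi
      rw [abs_le]
      constructor <;> omega
    · norm_num
  have b4 (i : ℕ) : |Z.coeff i| ≤ 2 ^ 60 := by
    have := (hNrm.2.1 Z _ 0 0 hZ1).2.2.2 i
    exact_mod_cast this
  generalize tp n zu zoff = A at b1 v1 ⊢
  generalize tp n R 0 = E at b2 v2 ⊢
  generalize tp n q (2 ^ 26) = p at b3 v3 ⊢
  clear c1 c2 c3
  refine hUni.1 _ _ (fun i => ?_) ?_
  · have b5 : |(X * p).coeff i| ≤ 2 ^ 26 := by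
      rcases i with _ | i
      · simp
      · rw [coeff_X_mul]; exact b3 i
    have b6 : |(C ((t : ℤ) - 2 ^ 26) * X ^ n).coeff i| ≤ 2 ^ 26 := by
      rw [coeff_C_mul, coeff_X_pow]
      split_ifs
      · rw [mul_one, abs_le]
        constructor <;> omega
      · norm_num
    rw [sub_mul, one_mul, coeff_sub, coeff_sub, coeff_sub, coeff_sub, coeff_C_mul]
    have a1 := abs_le.1 (b1 i)
    have a2 := abs_le.1 (b2 i)
    have a3 := abs_le.1 (b3 i)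
    have a4 := abs_le.1 (b4 i)
    have a5 := abs_le.1 b5
    have a6 := abs_le.1 b6
    rw [abs_lt]
    constructor <;> omega
  · unfold vl at *
    simp only [eval_mul, eval_sub, eval_C, eval_pow, eval_X, eval_one]
    rw [v1, v2, v3, hZ, hz, ← pow_mul]
    have h' : (t : ℤ) * 2 ^ (80 * n) + v + zu * 2 ^ 27 =
        R + (ones 80 n * 36033195065475072 + 67108864) + (2 ^ 80 - 1) * q := by
      have := congrArg (Nat.cast : ℕ → ℤ) h
      push_cast [Nat.cast_sub (show 1 ≤ 2 ^ 80 by norm_num)] at this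
      linarith
    have ho' : ((2 : ℤ) ^ 80 - 1) * ones 80 n + 1 = 2 ^ (80 * n) := by
      have := congrArg (Nat.cast : ℕ → ℤ) ho
      push_cast [Nat.cast_sub (show 1 ≤ 2 ^ 80 by norm_num)] at this
      linarith
    generalize (2 : ℤ) ^ (80 * n) = B at h' ho' ⊢
    linear_combination h' + 2 ^ 26 * ho'

theorem aChk_z3 (hMk : StMk) (n x y : ℕ) (h : zc3 n (ones 80 n) x y = true) :
    ∃ q, x = y + (2 ^ 80 - 1) * q ∧ q < 2 ^ (80 * n) ∧ ∀ i < n, dig 80 q i < 2 ^ 27 := by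
  unfold zc3 at h
  rw [an_eq, an_eq] at h
  obtain ⟨h1, h2, h3⟩ := h
  have h1' := Nat.le_of_ble_eq_true h1
  have h2' : (x - y) % B1 = 0 := Nat.eq_of_beq_eq_true h2
  refine ⟨(x - y) / B1, ?_, hMk.2.2.1 _ n 27 (by norm_num) h3⟩
  rw [← B1_eq, Nat.mul_div_cancel' (Nat.dvd_of_mod_eq_zero h2')]
  omega

theorem aChk_sub (a b c d : ℕ) (h1 : a ≤ b) (h2 : c ≤ d) :
    ∑ r ∈ Ico b c, |(cm r : ℝ)| ≤ ∑ r ∈ Ico a d, |(cm r : ℝ)| :=
  sum_le_sum_of_subset_of_nonneg (Ico_subset_Ico h1 h2) fun _ _ _ => abs_nonneg _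

theorem aChk_fin (u w c d e l : ℝ) (hu : 1 ≤ u) (hv : 0 < w) (hl : l ≤ 22)
    (hacc : |e - c * u| ≤ 5 + 739 * u) (r1 : (e - 2 * l) * w ≤ d) (r2 : d ≤ e * w) :
    |d - c * (u * w)| ≤ 800 * (u * w) := by
  obtain ⟨s1, s2⟩ := abs_le.1 hacc
  have s3 := mul_le_mul_of_nonneg_right s1 hv.le
  have s4 := mul_le_mul_of_nonneg_right s2 hv.le
  have s5 := mul_le_mul_of_nonneg_right hl hv.le
  have s6 := mul_le_mul_of_nonneg_right hu hv.le
  rw [abs_le]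
  constructor <;> nlinarith

theorem stChk (hFold : StFold) (hPar : StPar) (hUni : StUni) (hNrm : StNrm) (hMk : StMk)
    (hLg : StLg) (hTree : StTree) (hRamp : StRamp) : StChk := by
  intro m a n l e t zu h8 h1 h2 hl hl1 hl2 he h
  have hP := aChk_pos hLg m h1 h2
  unfold zchk at h
  rw [frc_eq] at h
  generalize Nat.add 4194304 (lg 24 524288 m) = P at h hP
  have hon : Nat.div (shl 1 n) B1 = ones 80 n := hMk.1 n
  rw [hon, an_eq, shl_eq, one_mul] at h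
  obtain ⟨ha, h⟩ := h
  have ha' : P / 2 ^ 40 = a := by
    rw [← Nat.shiftRight_eq_div_pow]
    exact Nat.eq_of_beq_eq_true ha
  unfold zc2 at h
  rw [an_eq, an_eq, an_eq] at h
  obtain ⟨htr, ht, hzu, h⟩ := h
  have ht' : t ≤ 2 ^ 27 := Nat.le_of_ble_eq_true ht
  obtain ⟨hz1, hz2⟩ := hMk.2.2.1 zu n 29 (by norm_num) hzu
  obtain ⟨q, hq, hq1, hq2⟩ := aChk_z3 hMk n _ _ h
  obtain ⟨Z, hZ, hB⟩ := hTree 14 m P 100 le_rfl h8 h1 h2 hP (by norm_num) htr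
  have he' : e ≤ 2 ^ 33 := by
    have := (abs_le.1 he).2
    omega
  obtain ⟨-, hr⟩ := hRamp e n l hl hl1 he'
  have hacc := aChk_acc m P e h1 h2 hP he
  rw [ha'] at hacc hB
  have e17 : 8 * 2 ^ 14 = 2 ^ 17 := by norm_num
  rw [e17] at hB
  have hland := hMk.2.2.2.1 (ramp e (Nat.mul (ones 80 n) 1099511627775) l) n
  generalize ramp e (Nat.mul (ones 80 n) 1099511627775) l = R at hq hr hland
  generalize trv 14 m P = v at hq hZ
  clear h htr hzu ht ha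
  have hq' : t * 2 ^ (80 * n) + v + zu * 2 ^ 27 = R % 2 ^ (80 * n) +
      (ones 80 n * 36033195065475072 + 67108864) + (2 ^ 80 - 1) * q := by
    rw [← hland, ← Nat.shiftLeft_eq zu 27]
    exact hq
  have hd (i : ℕ) (hi : i < n) : dig 80 (R % 2 ^ (80 * n)) i = dig 80 R i :=
    Pool.Agent.MP_22d5c4_co.K.dig_mod 80 R n i hi
  have hw (j : ℕ) (hj : j < n) : (2 : ℝ) ^ ((j : ℝ) / 2 ^ 22) ≤ 2 := by
    have h3 : j ≤ 2 ^ 22 := (hj.le.trans hl2).trans (Nat.pow_le_pow_right (by norm_num) hl)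
    have h4 : (j : ℝ) ≤ 2 ^ 22 := by exact_mod_cast h3
    calc (2 : ℝ) ^ ((j : ℝ) / 2 ^ 22) ≤ 2 ^ (1 : ℝ) :=
          rpow_le_rpow_of_exponent_le (by norm_num) (by rwa [div_le_one (by positivity)])
      _ = 2 := rpow_one 2
  have hZ1 : L1 Z (2 ^ 60) := by
    intro k
    refine (hB.1 k).trans ?_
    have h4 := (aChk_sub _ _ _ _ h1 h2).trans hFold.2.2.1
    generalize ∑ r ∈ Ico m (m + 2 ^ 17), |(cm r : ℝ)| = s at h4 ⊢
    norm_num at h4 ⊢
    linarith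
  have hRd (i : ℕ) (hi : i < n) : dig 80 (R % 2 ^ (80 * n)) i ≤ 2 ^ 34 := by
    rw [hd i hi]
    have h3 := (hr i (hi.trans_le hl2)).2
    have h4 : (e : ℝ) ≤ 2 ^ 33 := by exact_mod_cast he'
    have h5 : (e : ℝ) * 2 ^ ((i : ℝ) / 2 ^ 22) ≤ 2 ^ 33 * 2 := by
      have := hw i hi
      gcongr
    have h6 : (dig 80 R i : ℝ) ≤ 2 ^ 34 := by
      refine h3.trans (h5.trans ?_)
      norm_num
    exact_mod_cast h6
  refine ⟨hz1, hz2, tp n q (2 ^ 26), tp n (R % 2 ^ (80 * n)) 0, Z, (t : ℤ) - 2 ^ 26, ⟨?_, ?_⟩, ?_,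
    hB, ?_, ?_, aChk_id hUni hNrm hMk n zu q _ t v Z hz1 hz2 hq1 hq2 (Nat.mod_lt _ (by positivity))
      hRd ht' hZ hZ1 hq'⟩
  · intro i hi
    rw [(hUni.2.2.1 n q _).1, if_neg (by omega)]
  · intro i
    have : |(tp n q (2 ^ 26)).coeff i| ≤ 2 ^ 26 := by
      rw [(hUni.2.2.1 n q _).1]
      split_ifs with hi
      · have := hq2 i hi
        rw [abs_le]
        constructor <;> omega
      · norm_num
    exact_mod_cast this
  · rw [abs_le]
    constructor <;> omega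
  · intro i hi
    rw [(hUni.2.2.1 n _ _).1, if_neg (by omega)]
  · intro j hj
    rw [(hUni.2.2.1 n _ _).1, if_pos hj, hd j hj, sub_zero, Int.cast_natCast]
    obtain ⟨r1, r2⟩ := hr j (hj.trans_le hl2)
    have e1 : (2 : ℝ) ^ (((a + j : ℕ) : ℝ) / 2 ^ 22) =
        2 ^ ((a : ℝ) / 2 ^ 22) * 2 ^ ((j : ℝ) / 2 ^ 22) := by
      rw [← rpow_add (by norm_num), Nat.cast_add, add_div]
    have hu : (1 : ℝ) ≤ 2 ^ ((a : ℝ) / 2 ^ 22) :=
      one_le_rpow one_le_two (div_nonneg (Nat.cast_nonneg _) (pow_nonneg two_pos.le _))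
    have hv : (0 : ℝ) < 2 ^ ((j : ℝ) / 2 ^ 22) := rpow_pos_of_pos two_pos _
    have hl' : (l : ℝ) ≤ 22 := by exact_mod_cast hl
    rw [e1]
    exact aChk_fin _ _ _ _ _ _ hu hv hl' hacc r1 r2

end

end Pool.Agent.MP_88bd62_nt.U.A
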