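import Pool.Agent.MP_88bd62_nt.U.ASpec

/-! The two lists of nodes on the grid. -/

namespace Pool.Agent.MP_88bd62_nt.U.A

open Finset Real Polynomial
open Pool.Agent.MP_22d5c4_co.K (dig ones)

theorem aDH_div {e c κ v : ℂ} {r a b n a' b' : ℝ} (hc : c = (r : ℂ)) (hr : 0 < r) (hn : 0 ≤ n)
    (h : ‖e - c * κ * v‖ ≤ r * ‖κ‖ * (a * n) + b) (ha : a ≤ a') (hb : b ≤ b' * r) :
    ‖e / c - κ * v‖ ≤ ‖κ‖ * (a' * n) + b' := by
  subst hc
  have hr' : (r : ℂ) ≠ 0 := by exact_mod_cast hr.ne'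
  have e1 : e / r - κ * v = (e - r * κ * v) / r := by field_simp
  rw [e1, norm_div, Complex.norm_real, Real.norm_eq_abs, abs_of_pos hr, div_le_iff₀ hr]
  have h1 : r * ‖κ‖ * (a * n) ≤ r * ‖κ‖ * (a' * n) := by gcongr
  nlinarith

theorem aDH_nd (hBas : StBas) (hMon : StMon) {k : ℤ} (hk : k ∈ K20) : 0 ≤ nd (xi k) := by
  have h1 := (hBas.2.2.2.2.2.2.1 k).2.2.2.1
  have h2 := (hBas.2.2.2.2.2.2.2 k hk).2.1
  exact (hMon.2 0 (xi k) (xi k) le_rfl h1.le h1 le_rfl h2.le).2.2.1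

theorem stDH (hBas : StBas) (hMon : StMon) (hNrm : StNrm) (hMk : StMk) (hGrid : StGrid)
    (hLD : StLD) (hLH : StLH) : StDH := by
  intro N hN
  obtain ⟨N', -, hN2, hO, -⟩ := hMk.2.2.2.2.2.2
  obtain rfl : N' = N := hN2.trans hN.symm
  rw [hO]
  constructor
  · intro hg
    obtain ⟨h1, h2, h3, h4, h5⟩ := hLD
    obtain ⟨P, p1, p2, p3, p4⟩ := hGrid lD N' h1 (by linarith) hg
    have q : L1 P (2.7 * (3 * 2 ^ 35)) := fun n => (p3 n).trans (by linarith)
    refine ⟨P, p1, ⟨fun i hi => p2 i (hN2 ▸ hi), fun i => ?_⟩, q, fun k hk => ?_⟩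
    · exact ((hNrm.2.1 P _ 0 0 q).2.2.2 i).trans (by norm_num)
    · have h := p4 k hk
      rw [h5, add_assoc] at h
      have h4' : (lD.len : ℝ) ≤ 2187 := by exact_mod_cast h4
      refine aDH_div (r := 3 * 2 ^ 35) (by push_cast; rfl) (by positivity)
        (aDH_nd hBas hMon hk) h h2 ?_
      generalize (lD.len : ℝ) = u at *
      generalize lD.ms = v at *
      norm_num
      linarith
  · intro hg
    obtain ⟨h1, h2, h3, h4, h5⟩ := hLH
    obtain ⟨P, p1, p2, p3, p4⟩ := hGrid lH N' h1 (by linarith) hg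
    have q : L1 P (1.07 * (3 * 2 ^ 36)) := fun n => (p3 n).trans (by linarith)
    refine ⟨P, p1, ⟨fun i hi => p2 i (hN2 ▸ hi), fun i => ?_⟩, q, fun k hk => ?_⟩
    · exact ((hNrm.2.1 P _ 0 0 q).2.2.2 i).trans (by norm_num)
    · have h := p4 k hk
      rw [h5, add_assoc] at h
      have h4' : (lH.len : ℝ) ≤ 13000 := by exact_mod_cast h4
      generalize (lH.len : ℝ) = u at *
      generalize lH.ms = v at *
      have e1 : (3 * 2 ^ 35 * kap k * (2 * HBl k) : ℂ) = 3 * 2 ^ 36 * kap k * HBl k := by ring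
      have e2 : 3 * 2 ^ 35 * ‖kap k‖ * (v * nd (xi k)) =
          3 * 2 ^ 36 * ‖kap k‖ * (v / 2 * nd (xi k)) := by ring
      rw [e1, e2] at h
      refine aDH_div (r := 3 * 2 ^ 36) (by push_cast; rfl) (by positivity)
        (aDH_nd hBas hMon hk) h (by linarith) ?_
      norm_num
      linarith

end Pool.Agent.MP_88bd62_nt.U.A
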