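import Pool.Agent.MP_88bd62_nt.U.Stmts3
import Pool.Agent.MP_22d5c4_co.Dig

/-! Definitions for the evaluation of the low pass polynomial on the grid with `2 ^ 22` points.
Integer polynomials are evaluated at the points `xk k`, which satisfy `x ^ 2 ^ 22 = -1 / 2`. -/

namespace Pool.Agent.MP_88bd62_nt.U.A

open Finset Real Polynomial
open Pool.Agent.MP_22d5c4_co.K (dig)

noncomputable section

def zk (k : ℤ) : ℂ := ((log 2 : ℝ) + (π * k : ℝ) * Complex.I) / 2 ^ 22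

/-- The real power `x ^ v` of the evaluation point. -/
def xp (k : ℤ) (v : ℝ) : ℂ := Complex.exp (-(zk k * v))

def xk (k : ℤ) : ℂ := xp k 1

def ev (k : ℤ) (P : ℤ[X]) : ℂ := aeval (xk k) P

def xi (k : ℤ) : ℝ := 2 / π * ‖zk k‖

def qq (k : ℤ) : ℂ := (1 - xk k) / zk k

def kap (k : ℤ) : ℂ := qq k ^ 5 / xk k

def kap4 (k : ℤ) : ℂ := qq k ^ 4 / xk k

def K20 : Finset ℤ := Kset (2 ^ 20)

/-- The inverse transform. -/
def cf (φ : ℤ → ℂ) (m : ℤ) : ℂ := (∑ k ∈ Kset (2 ^ 21), φ k * xp k (-m)) / 2 ^ 22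

/-- The sum of the absolute values of the coefficients is at most `c`. -/
def L1 (P : ℤ[X]) (c : ℝ) : Prop := ∀ n, ∑ i ∈ range n, |(P.coeff i : ℝ)| ≤ c

/-- Degree below `n` and coefficients bounded by `c`. -/
def Sup (P : ℤ[X]) (n : ℕ) (c : ℝ) : Prop :=
  (∀ i, n ≤ i → P.coeff i = 0) ∧ ∀ i, |(P.coeff i : ℝ)| ≤ c

/-- The packed value. -/
def vl (P : ℤ[X]) : ℤ := P.eval (2 ^ 80)

/-- The polynomial of the first `n` digits of `x`, lowered by `o`. -/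
def tp (n x : ℕ) (o : ℤ) : ℤ[X] := ∑ j ∈ range n, monomial j ((dig 80 x j : ℤ) - o)

def lp (l : List ℤ) : ℤ[X] := l.foldr (fun c P => C c + X * P) 0

def onp (n : ℕ) : ℤ[X] := ∑ j ∈ range n, X ^ j

/-- The pieces of the quartic spline. -/
def tap : ℕ → ℝ → ℝ
  | 0, f => (1 - f) ^ 4 / 24
  | 1, f => (11 - 12 * f - 6 * f ^ 2 + 12 * f ^ 3 - 4 * f ^ 4) / 24
  | 2, f => (11 + 12 * f - 6 * f ^ 2 - 12 * f ^ 3 + 6 * f ^ 4) / 24
  | 3, f => (1 + 4 * f + 6 * f ^ 2 + 4 * f ^ 3 - 4 * f ^ 4) / 24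
  | 4, f => f ^ 4 / 24
  | _, _ => 0

def tv (k : ℤ) (f : ℝ) : ℂ := ∑ t ∈ range 5, (tap t f : ℂ) * xk k ^ t

/-! Error functions of the relative frequency -/

def al5 (x : ℝ) : ℝ := (x / (4 - x)) ^ 5 + (x / (3.999 + x)) ^ 5 + 0.00014 * x ^ 5

def al4 (x : ℝ) : ℝ := (x / (4 - x)) ^ 4 + (x / (3.999 + x)) ^ 4 + 0.00106 * x ^ 4

def sL (x : ℝ) : ℝ := 0.9999999 - 0.10281 * x ^ 2

def kL (x : ℝ) : ℝ := sL x ^ 5

def nd (x : ℝ) : ℝ := 1.001 * (al5 x + 0.00000632 * x)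

def tg (x : ℝ) : ℝ := if x ≤ 11 / 16 then 0.00000145 * x / (1 - 2.0814 * x ^ 2) else 0.003

def aZ (x : ℝ) : ℝ := 5.14 * nd x + 0.0000006 + tg x

def cU (x : ℝ) : ℝ := 1.000001 - 0.6168 * x ^ 2 * (1 - 0.2057 * x ^ 2)

def tT (x : ℝ) : ℝ := ∑ i ∈ Icc 20 28, (Nat.choose 28 i : ℝ) * (0.6169 * x ^ 2) ^ i * cU x ^ (28 - i)

def hh (x : ℝ) : ℝ :=
  5 * (aZ x + (0.0000008 + 0.008182 * x) / kL x)
    + 2.2341 * (1.8184 * nd x + 0.00000035 / kL x) + 0.00003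

def cc (x : ℝ) : ℝ := (1 + hh x) / (1 - hh x) ^ 2

def gR (x : ℝ) : ℝ :=
  cc x * 2.2341 * (0.702 * (5.14 * nd x + tg x) + 0.189 * (4.0625 * nd x + 3 * al5 x + tT x))

def gX (x : ℝ) : ℝ := 0.192 * (1.026 * al4 x + 1.026 * nd x)

def gB (x : ℝ) : ℝ := 2.494 * (al4 x + nd x)

def wU (x : ℝ) : ℝ := (if x ≤ 1 / 2 then 1 - 6 * x ^ 2 + 6 * x ^ 3 else 2 * (1 - x) ^ 3) + 0.000000001

def om (k : ℤ) : ℝ := wk (2 ^ 20) k * ‖sh k‖

/-! The factors -/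

/-- The weight of `m` after folding. -/
def cm (m : ℕ) : ℤ := ∑ i ∈ range (padicValNat 2 m + 1), (-2) ^ i

def pw (n : ℕ) (k : ℤ) : ℂ := (n : ℂ) ^ (-sk k)

def DAv (k : ℤ) : ℂ :=
  (([3, 5, 7, 11, 13, 17, 19] : List ℕ).map fun p => 1 - 3 * pw p k ^ 2 + 2 * pw p k ^ 3).prod

def HB (k : ℤ) : ℂ := Complex.exp (Lam (sk k)) * DAv k

def PP (n : ℕ) : Finset ℕ := (Ico 23 n).filter Nat.Prime

def mu1 (k : ℤ) : ℂ :=
  ∑ p ∈ PP (2 ^ 15), 3 * pw p k ^ 2 - ∑ p ∈ PP 1024, 2 * pw p k ^ 3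
    + ∑ p ∈ PP 128, 9 / 2 * pw p k ^ 4

def mus (k : ℤ) : ℂ := ∑ p ∈ PP 512, 3 * pw p k ^ 2 - ∑ p ∈ PP 48, 2 * pw p k ^ 3

def HBl (k : ℤ) : ℂ := 1 + mu1 k + mus k ^ 2 / 2

/-- The taper times `2 ^ 56 * x ^ 28`. -/
def tpv (x : ℂ) : ℂ :=
  ∑ i ∈ range 20, (Nat.choose 28 i : ℂ) * (-1) ^ i * (1 - x) ^ (2 * i) * (1 + x) ^ (56 - 2 * i)

def b5 (x : ℂ) : ℂ := 1 + 11 * x + 11 * x ^ 2 + x ^ 3

/-- The negative of the deficits of the running sums of the taper. -/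
def DFL : List ℤ :=
  [-996124179980318007339, -996124179980340619214, -996124179980059941014,
  -996124179978560600270, -996124180000100265318, -996124179984527382894,
  -996124179335355312054, -996124182581936600686, -996124180112108919838,
  -996124151629238530558, -996124247936414178054, -996124246027424002302,
  -996123611065689956598, -996124804937988266718, -996126057954942867558,
  -996118516200445384158, -996124327217234560218, -996145351246543159398,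
  -996097434620719977678, -996088034339326331238, -996244086365055796638,
  -996094204604360374278, -995846011795848393198, -996480648874781306118,
  -996403226012334149958, -995073239189254778358, -996604732825054226718,
  -997690918429530135798, -993468754223443258510, -993950999931438343126,
  -968593796830424956798, -812750773140187795158, -498062089990157893632,
  -183373406840127992106, -27530383149890830466, -2173180048877444138, -2655425756872528754,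
  1566738449214348534, 480552844738439454, -1050940791061008906, 279046032018362694,
  356468894465518854, -278168184467394066, -29975375955412986, 119906384740009374,
  -36145640989456026, -26745359595809586, 21171266227372134, 147236918772954, -5663779870403106,
  1877974627080294, 624957672479454, -568914625830666, 66047108215038, 67956098390790,
  -28351077256706, 131793132574, 2601620813422, -644960475210, 4211595630, 19784478054,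
  -1755186994, -255846250, 24831950, 2220075]

/-- The inverse of the cubic spline filter. -/
def IL : List ℤ :=
  [1, -4, 16, -59, 222, -828, 3089, -11527, 43018, -160547, 599170, -2236134, 8345367,
  -31145332, 116235962, -31145332, 8345367, -2236134, 599170, -160547, 43018, -11527, 3089,
  -828, 222, -59, 16, -4, 1]

def jc : ℕ → ℕ
  | 1 => 185917468868
  | 2 => 2167212837036
  | 3 => 6315721042242
  | 4 => 8668851348147
  | 5 => 6315721042242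
  | 6 => 2167212837036
  | 7 => 185917468868
  | _ => 0

/-- Samples of the Jackson kernel, times `2 ^ 40`. -/
def jt (i : ℕ) : ℕ :=
  if i = 512 then 3 * 2 ^ 36 else jc (Nat.dist i 512 % 8) / Nat.dist i 512 ^ 4

def JT : ℤ[X] := ∑ i ∈ range 1025, monomial i (jt i : ℤ)

def gE (n : ℕ) : ℝ := a1 n * (-1 / 2) ^ Nat.log 2 n

def PE (n : ℕ) : ℝ := 2 ^ 22 * (th n - Nat.log 2 n)

/-! Specifications of the stages -/

def SpecZ (ZP : ℤ[X]) : Prop :=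
  Sup ZP (2 ^ 22) (2 ^ 29) ∧ L1 ZP (7.7 * (3 * 2 ^ 27)) ∧ ∃ p : ℤ[X], Sup p (2 ^ 22) (2 ^ 26) ∧
    ∀ k ∈ K20, ‖ev k ZP / (3 * 2 ^ 27) - kap k * riemannZeta (sk k)
      - (1 - xk k) * ev k p / (3 * 2 ^ 54)‖ ≤ ‖kap k‖ * aZ (xi k) + 0.0000008

def SpecD (DP : ℤ[X]) : Prop :=
  Sup DP (2 ^ 22) (2 ^ 40) ∧ L1 DP (2.7 * (3 * 2 ^ 35)) ∧
    ∀ k ∈ K20, ‖ev k DP / (3 * 2 ^ 35) - kap k * DAv k‖ ≤ ‖kap k‖ * (1.8184 * nd (xi k)) + 0.00000035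

def SpecH (HP : ℤ[X]) : Prop :=
  Sup HP (2 ^ 22) (2 ^ 40) ∧ L1 HP (1.07 * (3 * 2 ^ 36)) ∧
    ∀ k ∈ K20, ‖ev k HP / (3 * 2 ^ 36) - kap k * HBl k‖ ≤ ‖kap k‖ * (1.0321 * nd (xi k)) + 0.00000065

def RingR (ZP DP PW : ℤ[X]) : Prop := ∃ U₁ U₂ e₁ e₂ r : ℤ[X],
  Sup e₁ (2 ^ 22) (2 ^ 23 + 1) ∧ Sup e₂ (2 ^ 22) (2 ^ 23 + 1) ∧ Sup r (2 ^ 22) (2 ^ 46 + 1) ∧
  ∀ k : ℤ, Odd k → 2 * ev k ZP * ev k DP = 2 ^ 24 * ev k U₁ + ev k e₁ ∧
    2 * ev k ZP * ev k PW = 2 ^ 24 * ev k U₂ + ev k e₂ ∧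
    (1 - xk k) * (2 * ev k U₁ * ev k U₂ - ev k r) = 2 * xp k (-555) * (tpv (xk k) * b5 (xk k) ^ 3)

/-- The error of the inverse of the square of zeta. -/
def dR (PW : ℤ[X]) (k : ℤ) : ℂ :=
  qq k * xp k 527 * ev k PW / 2 ^ 22 - 1 / (zk k * riemannZeta (sk k) ^ 2 * DAv k)

def SpecR (PW : ℤ[X]) : Prop := (∑ k ∈ K20, wk (2 ^ 20) k * ‖dR PW k‖) / 2 ^ 22 ≤ 0.0045

/-- The nodes of the explicit part on the grid. -/
def SpecA (A : ℕ → ℤ[X]) (l : ℕ → ℕ) : Prop := ∀ n ∈ E0,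
  L1 (A n) (27 * 2 ^ 22 * |gE n|) ∧ ∀ k ∈ K20,
    ‖xk k ^ l n * ev k (A n) / (27 * 2 ^ 22) - kap k * (a1 n * pw n k)‖ ≤
      ‖kap k‖ * (|a1 n| / n * nd (xi k)) + 16 / (27 * 2 ^ 22)

def RingY (HP PW Y : ℤ[X]) : Prop := Sup Y (2 ^ 22) (2 ^ 29) ∧ ∃ e : ℤ[X],
  Sup e (2 ^ 22) (2 ^ 34 + 1) ∧
    ∀ k : ℤ, Odd k → 2 * ev k HP * ev k PW = 2 ^ 35 * ev k Y + ev k e

/-- The approximation of the coefficients, without the Jackson weights. -/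
def ps (Y : ℤ[X]) (A : ℕ → ℤ[X]) (l : ℕ → ℕ) (k : ℤ) : ℂ :=
  ev k (lp IL) * xp k (-15) / 2 ^ 26 * (xp k 527 * ev k Y
    - (∑ n ∈ E0, xk k ^ l n * ev k (A n)) / (1 - xk k)) / (27 * 2 ^ 22)

def SpecP (Y : ℤ[X]) (A : ℕ → ℤ[X]) (l : ℕ → ℕ) : Prop :=
  (∑ k ∈ K20, wk (2 ^ 20) k * ‖ps Y A l k - (FS k - Ser a1 k) / zk k‖) / 2 ^ 22 ≤ 0.00425

def RingQ (Y Q : ℤ[X]) (A : ℕ → ℤ[X]) (l j : ℕ → ℕ) (S : ℕ → ℤ) : Prop :=
  ∃ (K e₁ e₂ : ℤ[X]) (D : ℕ → ℤ[X]), L1 e₁ (1053 * (2 ^ 32 + 1)) ∧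
    2 * JT * lp IL = C (2 ^ 33) * K + e₁ ∧ L1 e₂ 1 ∧ (∀ i, 2 ^ 22 ≤ i → Q.coeff i = 0) ∧
    (∀ n ∈ E0, j n < 2 ^ 22 ∧ l n ≤ 527 + j n ∧
      |(S n : ℝ) - 27 * 2 ^ 56 * gE n| ≤ 27 * 2 ^ 56 / 10 ^ 7 ∧
      K * A n - C (S n) * X ^ (527 + j n - l n) = (1 - X) * D n) ∧
    ∀ k : ℤ, Odd k → ev k Q =
      2 * (ev k K * ev k Y - ∑ n ∈ E0, xp k (l n - 527) * ev k (D n)) + ev k e₂

/-- The value of the steps at the grid point `i`. -/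
def stp (j : ℕ → ℕ) (i : ℕ) : ℝ := ∑ n ∈ E0, gE n * if j n ≤ i then 2 / 3 else -1 / 3

def SpecQ (Y Q : ℤ[X]) (A : ℕ → ℤ[X]) (l j : ℕ → ℕ) : Prop := ∀ i < 2 ^ 22,
  ‖(Q.coeff i : ℂ) / (27 * 2 ^ 57) - (cf (fun k => wk (2 ^ 20) k * ps Y A l k) i + stp j i)‖ ≤
    0.00009

/-- The final comparison with a bound `b` for the explicit measure. -/
def SpecF (b : ℕ → ℝ) (Q : ℤ[X]) (j : ℕ → ℕ) (S : ℕ → ℤ) : Prop := ∀ i < 2 ^ 22,
  |(Q.coeff i : ℝ)| ≤ 27 * 2 ^ 57 * 2 ^ ((i : ℝ) / 2 ^ 22) * (0.97965 - b i) ∧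
    ∀ n ∈ E0, j n = i →
      |(Q.coeff i : ℝ) - 2 * S n| ≤ 27 * 2 ^ 57 * 2 ^ ((i : ℝ) / 2 ^ 22) * (0.97965 - b i)

end

end Pool.Agent.MP_88bd62_nt.U.A
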