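import Pool.Agent.MP_88bd62_nt.U.AStm

/-! The sampled density against the pole term. -/

namespace Pool.Agent.MP_88bd62_nt.U.A

open Finset Real

lemma aDens_term (k : ℤ) (j : ℕ) :
    (((2 : ℝ) ^ ((j : ℝ) / 2 ^ 22) : ℝ) : ℂ) * xk k ^ j =
      Complex.exp (Complex.I * ((-(π * k / 2 ^ 22) : ℝ) : ℂ)) ^ j := by
  rw [Real.rpow_def_of_pos (by norm_num : (0 : ℝ) < 2), Complex.ofReal_exp, xk, xp,
    ← Complex.exp_nat_mul, ← Complex.exp_nat_mul, ← Complex.exp_add]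
  congr 1
  unfold zk
  generalize Real.log 2 = L
  push_cast
  ring

lemma aDens_sin (t : ℝ) (ht : |t| ≤ 1.571) : 0.897 * |t| ≤ |2 * sin (t / 2)| := by
  have key : ∀ s : ℝ, 0 ≤ s → s ≤ 1.571 → 0.897 * s ≤ |2 * sin (s / 2)| := by
    intro s h0 h1
    have h := Real.sin_ge_sub_cube (x := s / 2) (by linarith)
    have h2 : s ^ 2 ≤ 2.4681 := by nlinarith
    have h3 : s ^ 3 ≤ 2.4681 * s := by nlinarith
    refine le_trans ?_ (le_abs_self _)
    nlinarith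
  rcases le_total 0 t with h | h
  · rw [abs_of_nonneg h] at ht ⊢
    exact key t h ht
  · rw [abs_of_nonpos h] at ht ⊢
    have := key (-t) (by linarith) ht
    rwa [neg_div, Real.sin_neg, mul_neg (2 : ℝ), abs_neg] at this

lemma aDens_cube (t : ℝ) : (sin t - t) ^ 2 ≤ t ^ 6 / 36 := by
  have key : ∀ s : ℝ, 0 ≤ s → (sin s - s) ^ 2 ≤ s ^ 6 / 36 := by
    intro s h0
    have h1 := Real.sin_ge_sub_cube h0
    have h2 := Real.sin_le h0
    have h3 : s ^ 6 / 36 = (s ^ 3 / 6) ^ 2 := by ring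
    rw [h3]
    apply sq_le_sq'
    · linarith
    · have : 0 ≤ s ^ 3 / 6 := by positivity
      linarith
  rcases le_total 0 t with h | h
  · exact key t h
  · have := key (-t) (by linarith)
    rw [Real.sin_neg] at this
    nlinarith

lemma aDens_rem (t : ℝ) (ht : |t| ≤ 1.571) :
    ‖Complex.exp (Complex.I * (t : ℂ)) - 1 - Complex.I * t‖ ≤ 0.565 * t ^ 2 := by
  have e : Complex.exp (Complex.I * (t : ℂ)) - 1 - Complex.I * t =
      ((cos t - 1 : ℝ) : ℂ) + ((sin t - t : ℝ) : ℂ) * Complex.I := by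
    rw [mul_comm Complex.I, Complex.exp_mul_I]
    push_cast
    ring
  rw [e, Complex.norm_add_mul_I]
  apply Real.sqrt_le_iff.2 ⟨by positivity, ?_⟩
  have h1 := Real.one_sub_sq_div_two_le_cos (x := t)
  have h2 := Real.cos_le_one t
  have h3 := aDens_cube t
  have h4 : (cos t - 1) ^ 2 ≤ (t ^ 2 / 2) ^ 2 := by
    apply sq_le_sq'
    · linarith
    · have : 0 ≤ t ^ 2 / 2 := by positivity
      linarith
  have h5 : t ^ 2 ≤ 2.4681 := by
    have := abs_nonneg t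
    rw [← sq_abs]
    nlinarith
  have h6 : t ^ 6 ≤ 2.4681 * t ^ 4 := by
    have h7 : 0 ≤ t ^ 4 := by positivity
    have : t ^ 6 = t ^ 2 * t ^ 4 := by ring
    rw [this]
    exact mul_le_mul_of_nonneg_right h5 h7
  have h7 : 0 ≤ t ^ 4 := by positivity
  nlinarith

lemma aDens_geo (t : ℝ) (h0 : t ≠ 0) (ht : |t| ≤ 1.571) :
    Complex.exp (Complex.I * (t : ℂ)) - 1 ≠ 0 ∧
    ‖1 / (Complex.I * t) - 1 / (Complex.exp (Complex.I * (t : ℂ)) - 1)‖ ≤ 0.63 := by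
  have hp : 0 < |t| := abs_pos.2 h0
  have h1 : 0.897 * |t| ≤ ‖Complex.exp (Complex.I * (t : ℂ)) - 1‖ := by
    rw [Complex.norm_exp_I_mul_ofReal_sub_one, Real.norm_eq_abs]
    exact aDens_sin t ht
  have h2 := aDens_rem t ht
  generalize Complex.exp (Complex.I * (t : ℂ)) - 1 = u at h1 h2 ⊢
  have hu : 0 < ‖u‖ := lt_of_lt_of_le (by positivity) h1
  have hu0 : u ≠ 0 := norm_pos_iff.1 hu
  have ht0 : (t : ℂ) ≠ 0 := by exact_mod_cast h0
  refine ⟨hu0, ?_⟩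
  have e : 1 / (Complex.I * t) - 1 / u = (u - Complex.I * t) / (Complex.I * t * u) := by
    have := Complex.I_ne_zero
    field_simp
  rw [e, norm_div, norm_mul, norm_mul, Complex.norm_I, Complex.norm_real, Real.norm_eq_abs,
    div_le_iff₀ (by positivity)]
  have h3 : t ^ 2 = |t| * |t| := by rw [← sq_abs]; ring
  have h4 : |t| * (0.897 * |t|) ≤ |t| * ‖u‖ := mul_le_mul_of_nonneg_left h1 hp.le
  have h5 : 0 ≤ |t| * |t| := by positivity
  nlinarith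

lemma aDens_z (k : ℤ) (hk : k ≠ 0) : ‖zk k‖ ≤ 1.025 * |π * k / 2 ^ 22| := by
  have h1 : (1 : ℝ) ≤ (k : ℝ) ^ 2 := by
    have : (1 : ℤ) ≤ k ^ 2 := by
      have := Int.one_le_abs hk
      rw [← sq_abs]
      nlinarith
    exact_mod_cast this
  have h2 := Real.log_two_lt_d9
  have h3 := Real.log_two_gt_d9
  have h4 := Real.pi_gt_d2
  have h5 : ‖((log 2 : ℝ) : ℂ) + ((π * k : ℝ) : ℂ) * Complex.I‖ ≤ 1.025 * |π * k| := by
    rw [Complex.norm_add_mul_I]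
    apply Real.sqrt_le_iff.2 ⟨by positivity, ?_⟩
    rw [mul_pow (1.025 : ℝ), sq_abs]
    have h6 : log 2 ^ 2 ≤ 0.4805 := by nlinarith
    have h7 : 9.8596 ≤ π ^ 2 := by nlinarith
    have h8 : π ^ 2 * 1 ≤ π ^ 2 * (k : ℝ) ^ 2 := mul_le_mul_of_nonneg_left h1 (by positivity)
    have h9 : (π * k) ^ 2 = π ^ 2 * (k : ℝ) ^ 2 := by ring
    rw [h9]
    nlinarith
  unfold zk
  rw [norm_div, abs_div, ← mul_div_assoc]
  have e1 : ‖(2 : ℂ) ^ 22‖ = 2 ^ 22 := by simp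
  have e2 : |(2 : ℝ) ^ 22| = 2 ^ 22 := abs_of_pos (by positivity)
  rw [e1, e2]
  exact div_le_div_of_nonneg_right h5 (by positivity)

lemma aDens_kap (hBas : StBas) (k : ℤ) : ‖kap k - 1‖ ≤ 3.5001 * ‖zk k‖ := by
  obtain ⟨-, -, hn, -, -, -, h7, -⟩ := hBas
  obtain ⟨-, -, -, -, -, hx, -, -, h1, h2, h3, -⟩ := h7 k
  have hx1 : 0.99999 ≤ ‖xk k‖ := by
    rw [xk, hn, Real.rpow_def_of_pos (by norm_num : (0 : ℝ) < 2)]
    have a := Real.add_one_le_exp (log 2 * -(1 / 2 ^ 22))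
    have b := Real.log_two_lt_d9
    norm_num at a ⊢
    linarith
  have e : kap k - 1 =
      ((qq k - 1) * (qq k ^ 4 + qq k ^ 3 + qq k ^ 2 + qq k + 1) + (1 - xk k)) / xk k := by
    unfold kap
    field_simp
    ring
  have hq : ‖qq k ^ 4 + qq k ^ 3 + qq k ^ 2 + qq k + 1‖ ≤ 5 := by
    have p : ∀ n : ℕ, ‖qq k ^ n‖ ≤ 1 := fun n => by
      rw [norm_pow]
      exact pow_le_one₀ (norm_nonneg _) h2
    have a1 := norm_add_le (qq k ^ 4 + qq k ^ 3 + qq k ^ 2 + qq k) 1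
    have a2 := norm_add_le (qq k ^ 4 + qq k ^ 3 + qq k ^ 2) (qq k)
    have a3 := norm_add_le (qq k ^ 4 + qq k ^ 3) (qq k ^ 2)
    have a4 := norm_add_le (qq k ^ 4) (qq k ^ 3)
    rw [norm_one] at a1
    linarith [p 4, p 3, p 2]
  have hz := norm_nonneg (zk k)
  rw [e, norm_div, div_le_iff₀ (by linarith)]
  have b1 := norm_add_le ((qq k - 1) * (qq k ^ 4 + qq k ^ 3 + qq k ^ 2 + qq k + 1)) (1 - xk k)
  rw [norm_mul] at b1
  have b2 := mul_le_mul h3 hq (norm_nonneg _) (by linarith)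
  have b3 := mul_le_mul_of_nonneg_left hx1 hz
  nlinarith

theorem stDens (hBas : StBas) : StDens := by
  intro k hk
  have hkap := aDens_kap hBas k
  obtain ⟨-, -, -, hN, -⟩ := hBas
  have hk' : -(2 * ((2 ^ 20 : ℕ) : ℤ)) < k ∧ k < 2 * ((2 ^ 20 : ℕ) : ℤ) ∧ Odd k := by
    have := Finset.mem_filter.1 hk
    exact ⟨(Finset.mem_Ioo.1 this.1).1, (Finset.mem_Ioo.1 this.1).2, this.2⟩
  obtain ⟨k1, k2, ko⟩ := hk'
  have k0 : k ≠ 0 := by
    rintro rfl
    exact absurd ko (by decide)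
  have kr : (k : ℝ) ≠ 0 := by exact_mod_cast k0
  have kb : |(k : ℝ)| ≤ 2 ^ 21 := by
    have : |k| ≤ 2 ^ 21 := by
      push_cast at k1 k2
      rw [abs_le]
      constructor <;> omega
    exact_mod_cast this
  have hz := aDens_z k k0
  have hp := Real.pi_pos
  have hb : |-(π * k / 2 ^ 22 : ℝ)| ≤ 1.571 := by
    rw [abs_neg, abs_div, abs_mul, abs_of_pos hp, abs_of_pos (by positivity : (0 : ℝ) < 2 ^ 22),
      div_le_iff₀ (by positivity)]
    have := Real.pi_lt_d4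
    nlinarith [abs_nonneg (k : ℝ)]
  have h0 : -(π * k / 2 ^ 22 : ℝ) ≠ 0 := neg_ne_zero.2 (by positivity)
  obtain ⟨hu, hg⟩ := aDens_geo _ h0 hb
  have hw := aDens_term k (2 ^ 22)
  rw [hN k ko, show (((2 ^ 22 : ℕ) : ℝ)) / 2 ^ 22 = 1 by norm_num, Real.rpow_one] at hw
  have hs : ∀ n : ℕ, ∑ j ∈ range n, ((log 2 / 16 * 2 ^ ((j : ℝ) / 2 ^ 22) : ℝ) : ℂ) * xk k ^ j =
      ((log 2 : ℝ) : ℂ) / 16 *
        ((Complex.exp (Complex.I * ((-(π * k / 2 ^ 22) : ℝ) : ℂ)) ^ n - 1) /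
          (Complex.exp (Complex.I * ((-(π * k / 2 ^ 22) : ℝ) : ℂ)) - 1)) := by
    intro n
    rw [← geom_sum_eq (sub_ne_zero.1 hu), Finset.mul_sum]
    refine Finset.sum_congr rfl fun j _ => ?_
    rw [← aDens_term, Complex.ofReal_mul, Complex.ofReal_div, mul_assoc]
    norm_num
  rw [hs, ← hw]
  rw [← abs_neg] at hz
  have ht : (tk k : ℝ) = -(-(π * k / 2 ^ 22)) * 2 ^ 22 / log 2 := by
    unfold tk
    field_simp
  rw [ht]
  generalize Complex.exp (Complex.I * ((-(π * k / 2 ^ 22) : ℝ) : ℂ)) - 1 = u at hu hg ⊢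
  generalize -(π * k / 2 ^ 22 : ℝ) = t at hz h0 hg ⊢
  have l1 := Real.log_two_lt_d9
  have l2 := Real.log_two_gt_d9
  generalize log 2 = L at l1 l2 ⊢
  have L0 : (L : ℂ) ≠ 0 := by exact_mod_cast (by linarith : L ≠ 0)
  have t0 : (t : ℂ) ≠ 0 := by exact_mod_cast h0
  have e : (L : ℂ) / 16 * ((((2 : ℝ) : ℂ) * (-1 / 2) - 1) / u)
      - 2 ^ 19 * kap k / (((-t * 2 ^ 22 / L : ℝ) : ℂ) * Complex.I) =
      (L : ℂ) / 8 * ((1 / (Complex.I * t) - 1 / u) + (kap k - 1) / (Complex.I * t)) := by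
    have := Complex.I_ne_zero
    push_cast
    field_simp
    ring
  have tp : 0 < |t| := abs_pos.2 h0
  have c1 : ‖(kap k - 1) / (Complex.I * t)‖ ≤ 3.5877 := by
    rw [norm_div, norm_mul, Complex.norm_I, Complex.norm_real, Real.norm_eq_abs,
      div_le_iff₀ (by positivity)]
    linarith
  have c2 := norm_add_le (1 / (Complex.I * t) - 1 / u) ((kap k - 1) / (Complex.I * t))
  have c3 : ‖(L : ℂ) / 8‖ = L / 8 := by
    rw [norm_div, Complex.norm_real, Real.norm_eq_abs, abs_of_pos (by linarith)]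
    norm_num
  rw [e, norm_mul, c3]
  have c4 := mul_le_mul (show L / 8 ≤ 0.08665 by linarith)
    (show ‖1 / (Complex.I * t) - 1 / u + (kap k - 1) / (Complex.I * t)‖ ≤ 4.2177 by linarith)
    (norm_nonneg _) (by norm_num)
  refine c4.trans (by norm_num)

end Pool.Agent.MP_88bd62_nt.U.A
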