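import Pool.Agent.MP_88bd62_nt.U.AEx

/-! The explicit nodes. -/

namespace Pool.Agent.MP_88bd62_nt.U.A

open Finset Real Polynomial
open Pool.Agent.MP_22d5c4_co.K (dig ones)
open D (cn an PL cl flo fhi Tb)

noncomputable section

theorem aE_PE {e i P L : ℕ} {x : ℝ} (c2 : e * 2 ^ 40 + 1048576 ≤ P + 549755813888)
    (c3 : P + 1048576 ≤ e * 2 ^ 40 + 549755813888) (l1 : L = i * 2 ^ 62 + P)
    (l2 : (L : ℝ) ≤ 2 ^ 62 * x) (l3 : 2 ^ 62 * x ≤ L + 1100) :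
    |2 ^ 22 * (x - i) - e| ≤ 1 / 2 := by
  have a2 : (e : ℝ) * 2 ^ 40 + 1048576 ≤ P + 549755813888 := by exact_mod_cast c2
  have a3 : (P : ℝ) + 1048576 ≤ e * 2 ^ 40 + 549755813888 := by exact_mod_cast c3
  have a1 : (L : ℝ) = i * 2 ^ 62 + P := by exact_mod_cast l1
  rw [abs_le]
  constructor <;> linarith

theorem aE_s {s : ℕ} {x : ℝ} (hx : x ≤ 1)
    (h : |(s : ℝ) - 27 * 2 ^ 56 * x| ≤ 27 * 2 ^ 56 / 10 ^ 7) : s ≤ 2 ^ 62 := by
  have : (s : ℝ) ≤ 2 ^ 62 := by linarith [(abs_le.1 h).2]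
  exact_mod_cast this

theorem aE_fin (hUni : StUni) (hNrm : StNrm) (K Q : ℤ[X]) (v a s m c : ℕ) (e : ℤ) {x : ℝ}
    (hx : x ≤ 1) (hv : vl K = v) (hK : Sup K 1053 (2 ^ 32)) (h1 : a < 2 ^ (80 * 5))
    (h2 : L1 (tp 5 a 0) (27 * 2 ^ 22 * x)) (hs : s ≤ 2 ^ 62) (hQ : ∀ i, |(Q.coeff i : ℝ)| ≤ 2 ^ 62)
    (hc : vl Q = c) (h : B1 * c + s * 2 ^ (80 * m) = v * a) :
    K * (C e * tp 5 a 0) - C (e * s) * X ^ m = (1 - X) * (C (-e) * Q) := by
  obtain ⟨t1, t2⟩ := hUni.2.2.1 5 a 0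
  have hsup := hNrm.2.2.1 _ K _ _ 5 1053 h2 (fun i hi => by rw [t1, if_neg (by omega)]) hK
  have hp := aE_poly hUni (tp 5 a 0 * K) Q s m c _ (fun i => (hsup.2 i).trans (by linarith)) hs hQ hc
    (by
      have := t2 h1
      unfold vl at this hv ⊢
      rw [eval_mul, this, hv, zero_mul, sub_zero, Nat.cast_mul, mul_comm]) h
  rw [C_mul, C_neg]
  linear_combination C e * hp

theorem stE (hUni : StUni) (hNrm : StNrm) (hMk : StMk) (hLg : StLg) (hNd : StNd) (hE0 : StE0) :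
    StE := by
  intro hch
  have key : ∀ n ∈ E0, ec1 n (eo n) (Nat.log 2 n) (lg 15 (Nat.shiftLeft 1 (Nat.log2 n)) n) = true :=
    fun n hn => by
      rw [← (hLg.2.1 n (hE0.1 n hn).1).1]
      exact hch n hn
  refine ⟨fun n hn => ?_, fun K hK n hn => ?_⟩
  · obtain ⟨hn1, hg, ha, hoi, ho, hes, -⟩ := hE0.1 n hn
    obtain ⟨-, h2, h3⟩ := aE_nd hLg hNd hn1 ho hoi (aE_ec (key n hn)).1
    have hesR : |(es n : ℝ)| = 1 := by exact_mod_cast hes
    constructor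
    · have h4 := ((hNrm.2.1 _ _ 0 (es n) h2).2.1)
      rw [hg, abs_div, abs_mul, hesR, one_mul, abs_of_pos (by positivity : (0 : ℝ) < 2 ^ eo n),
        abs_of_pos (by positivity : (0 : ℝ) < 2 ^ Nat.log 2 n)]
      rw [hes, Int.cast_one, one_mul] at h4
      exact h4
    · intro k hk
      have h4 := h3 k hk
      have h5 : |a1 n| = 2 ^ eo n := by
        rw [ha, abs_mul, abs_mul, hesR, one_mul, abs_pow, abs_pow, abs_neg, abs_one, one_pow,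
          mul_one, abs_two]
      have h6 : xk k ^ el n * ev k (Af n) / (27 * 2 ^ 22) - kap k * (a1 n * pw n k) =
          (es n : ℂ) * (xk k ^ el n * ev k (tp 5 (eA n (eo n)) 0) - 27 * 2 ^ 22 * 2 ^ eo n *
            (-1) ^ Nat.log 2 n * kap k * pw n k) / (27 * 2 ^ 22) := by
        have h7 : ev k (Af n) = es n * ev k (tp 5 (eA n (eo n)) 0) := by
          unfold Af ev
          rw [map_mul, aeval_C, eq_intCast]
        rw [h7, ha]
        push_cast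
        ring
      have h8 : ‖(es n : ℂ)‖ = 1 := by rw [Complex.norm_intCast, hesR]
      have h9 : ‖(27 * 2 ^ 22 : ℂ)‖ = 27 * 2 ^ 22 := by simp
      rw [h5, h6, norm_div, norm_mul, h8, one_mul, h9, div_le_iff₀ (by positivity)]
      refine h4.trans (le_of_eq ?_)
      ring
  · obtain ⟨hn1, hg, ha, hoi, ho, hes, -⟩ := hE0.1 n hn
    obtain ⟨c1, c2, c3, c4, c5, c6, c7, c8⟩ := aE_ec (key n hn)
    obtain ⟨h1, h2, -⟩ := aE_nd hLg hNd hn1 ho hoi c1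
    obtain ⟨-, l1, l2, l3⟩ := hLg.2.1 n hn1
    obtain ⟨d1, d2⟩ := aE_C hUni hMk _ _ c8
    have hS := aE_S c5 c6
    have hesR : |(es n : ℝ)| = 1 := by exact_mod_cast hes
    have h7 : (2 : ℝ) ^ eo n / 2 ^ Nat.log 2 n ≤ 1 :=
      div_le_one_of_le₀ (pow_le_pow_right₀ (by norm_num) hoi) (by positivity)
    refine ⟨?_, c4, ?_, d1, d2, ?_⟩
    · exact aE_PE c2 c3 l1 l2 l3
    · have e : (Sf n : ℝ) - 27 * 2 ^ 56 * gE n =
          es n * (eS n (eo n) - 27 * 2 ^ 56 * (2 ^ eo n / 2 ^ Nat.log 2 n)) := by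
        rw [hg, Sf]
        push_cast
        ring
      rw [e, abs_mul, hesR, one_mul]
      exact hS
    · rw [aE_eT] at c7
      rw [Af, Sf]
      exact aE_fin hUni hNrm K (Cf n) _ _ _ _ _ _ h7 hK.1 hK.2.1 h1 h2 (aE_s h7 hS) d2.2 d1 c7

end

end Pool.Agent.MP_88bd62_nt.U.A
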