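import Pool.Agent.MP_88bd62_nt.U.ASpec

/-! The finite facts on the explicit nodes. -/

namespace Pool.Agent.MP_88bd62_nt.U.A

open Finset

theorem aE0_nat : ∀ n ∈ E0, 1 ≤ n ∧ Odd n ∧
    (-1 : ℤ) ^ eo n = es n * (-1) ^ Nat.log2 n ∧ eo n ≤ Nat.log2 n ∧ eo n ≤ 4 ∧ |es n| = 1 ∧
    ej n < 4194303 ∧ el n < 4194304 ∧ (n ≠ 1 → 527 ≤ el n) := by
  decide +kernel

theorem aE0_inj : ∀ m ∈ E0, ∀ n ∈ E0, ej m = ej n → m = n := by
  decide +kernel

theorem aE0_card : ∀ n ∈ E0, ArithmeticFunction.cardFactors n = eo n := by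
  simp [E0, eo, ArithmeticFunction.cardFactors_apply, Nat.primeFactorsList_ofNat]

theorem aE0_all (A : Bool) (f : ℕ → ℕ → Bool)
    (h : D.an A (D.an (f 1 0) (D.an (f 3 1) (D.an (f 13 1) (D.an (f 25 2) (D.an (f 27 3)
      (D.an (f 49 2) (D.an (f 65 2) (D.an (f 391 2) (D.an (f 783 4)
        (D.an (f 1565 2) (f 3129 3))))))))))) = true) :
    A = true ∧ ∀ n ∈ E0, f n (eo n) = true := by
  simp only [an_eq] at h
  simpa [E0, eo] using h

theorem stE0 : StE0 := by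
  refine ⟨fun n hn => ?_, by decide +kernel, fun m hm n hn h => aE0_inj m hm n hn h,
    fun h => aE0_all _ echk h⟩
  obtain ⟨h1, h2, h3, h4, h5, h6, h7, h8, h9⟩ := aE0_nat n hn
  rw [Nat.log2_eq_log_two] at h3 h4
  have h10 : (-1 : ℝ) ^ eo n = es n * (-1) ^ Nat.log 2 n := by exact_mod_cast h3
  have h11 : a1 n = es n * 2 ^ eo n * (-1) ^ Nat.log 2 n := by
    rw [a1, if_pos hn, fo, if_pos h2, aE0_card n hn, neg_pow, h10]
    ring
  refine ⟨h1, ?_, h11, h4, h5, h6, h7, h8, h9⟩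
  rw [gE, h11, mul_assoc, ← mul_pow, div_eq_mul_inv (_ * _), ← inv_pow]
  norm_num

end Pool.Agent.MP_88bd62_nt.U.A
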