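import Pool.Agent.MP_88bd62_nt.U.ASpec

/-! The explicit nodes. -/

namespace Pool.Agent.MP_88bd62_nt.U.A

open Finset Real Polynomial
open Pool.Agent.MP_22d5c4_co.K (dig ones)
open D (cn an PL cl flo fhi Tb)

noncomputable section

theorem aE_div (a b : ℕ) (h : Nat.mod a b = 0) : b * Nat.div a b = a :=
  Nat.mul_div_cancel' (Nat.dvd_of_mod_eq_zero h)

theorem aE_shl (a b : ℕ) : Nat.shiftLeft a b = a * 2 ^ b := Nat.shiftLeft_eq a b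

theorem aE_eT (n o : ℕ) : eT n o = eS n o * 2 ^ (80 * (527 + ej n - el n)) := shl_eq _ _

theorem aE_ec {n o i P : ℕ} (h : ec1 n o i P = true) :
    i = Nat.shiftRight (eL n) 62 ∧ ej n * 2 ^ 40 + 1048576 ≤ P + 549755813888 ∧
    P + 1048576 ≤ ej n * 2 ^ 40 + 549755813888 ∧ el n ≤ ej n ∧
    eS n o * 2 ^ i * 10000000 ≤ 1945555039024054272 * (10000000 * 2 ^ o + 2 ^ i) ∧
    1945555039024054272 * (10000000 * 2 ^ o) ≤
      eS n o * 2 ^ i * 10000000 + 1945555039024054272 * 2 ^ i ∧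
    B1 * eC n o + eT n o = kv * eA n o ∧
    rng (Nat.add (eC n o) (Nat.shiftLeft (on 1057) 62)) 1057 (on 1057) 63 = true := by
  unfold ec1 at h
  simp only [an_eq] at h
  obtain ⟨h1, h2, h3, h4, h5, h6, h7, h8, h9⟩ := h
  have h10 : B1 * eC n o = Nat.sub (Nat.mul kv (eA n o)) (eT n o) :=
    aE_div _ _ (Nat.eq_of_beq_eq_true h8)
  replace h2 := Nat.le_of_ble_eq_true h2
  replace h3 := Nat.le_of_ble_eq_true h3
  replace h5 := Nat.le_of_ble_eq_true h5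
  replace h6 := Nat.le_of_ble_eq_true h6
  replace h7 := Nat.le_of_ble_eq_true h7
  simp only [aE_shl, Nat.add_eq, Nat.mul_eq, Nat.sub_eq, one_mul] at h2 h3 h5 h6 h7 h10
  refine ⟨(Nat.eq_of_beq_eq_true h1).symm, h2, h3, Nat.le_of_ble_eq_true h4, h5, h6, ?_, h9⟩
  rw [h10, Nat.sub_add_cancel h7]

theorem aE_C (hUni : StUni) (hMk : StMk) (c N : ℕ)
    (h : rng (Nat.add c (Nat.shiftLeft (on N) 62)) N (on N) 63 = true) :
    vl (tp N (c + 2 ^ 62 * ones 80 N) (2 ^ 62)) = c ∧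
      Sup (tp N (c + 2 ^ 62 * ones 80 N) (2 ^ 62)) N (2 ^ 62) := by
  rw [hMk.1, aE_shl, Nat.add_eq, mul_comm] at h
  obtain ⟨h1, h2⟩ := hMk.2.2.1 _ _ _ (by norm_num) h
  obtain ⟨h3, h4⟩ := hUni.2.2.1 N (c + 2 ^ 62 * ones 80 N) (2 ^ 62)
  refine ⟨?_, fun i hi => ?_, fun i => ?_⟩
  · rw [h4 h1]
    push_cast
    ring
  · rw [h3, if_neg (by omega)]
  · rw [h3]
    split_ifs with hi
    · have h5 : (dig 80 (c + 2 ^ 62 * ones 80 N) i : ℝ) < 2 ^ 63 := by exact_mod_cast h2 i hi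
      have h6 : (0 : ℝ) ≤ dig 80 (c + 2 ^ 62 * ones 80 N) i := Nat.cast_nonneg _
      generalize dig 80 (c + 2 ^ 62 * ones 80 N) i = d at h5 h6
      push_cast
      rw [abs_le]
      constructor <;> linarith
    · simp

theorem aE_poly (hUni : StUni) (M Q : ℤ[X]) (s m c t : ℕ) (hM : ∀ i, |(M.coeff i : ℝ)| ≤ 2 ^ 60)
    (hs : s ≤ 2 ^ 62) (hQ : ∀ i, |(Q.coeff i : ℝ)| ≤ 2 ^ 62) (hc : vl Q = c) (ht : vl M = t)
    (h : B1 * c + s * 2 ^ (80 * m) = t) : M - C (s : ℤ) * X ^ m = (X - 1) * Q := by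
  refine hUni.1 _ _ (fun i => ?_) ?_
  · have h1 : |M.coeff i| ≤ 2 ^ 60 := by exact_mod_cast hM i
    have h2 : ∀ i, |Q.coeff i| ≤ 2 ^ 62 := fun i => by exact_mod_cast hQ i
    have h3 : |(X * Q).coeff i| ≤ 2 ^ 62 := by
      rcases i with _ | i
      · simp
      · rw [coeff_X_mul]
        exact h2 i
    have h4 : |(C (s : ℤ) * X ^ m).coeff i| ≤ 2 ^ 62 := by
      rw [coeff_C_mul_X_pow]
      split_ifs
      · rw [abs_of_nonneg (Int.natCast_nonneg s)]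
        exact_mod_cast hs
      · simp
    have h5 := h2 i
    rw [sub_mul, one_mul, coeff_sub, coeff_sub]
    rw [abs_le] at h1 h3 h4 h5
    rw [abs_lt]
    constructor <;> linarith [h1.1, h1.2, h3.1, h3.2, h4.1, h4.2, h5.1, h5.2]
  · unfold vl at hc ht ⊢
    rw [eval_sub, eval_mul, eval_mul, eval_sub, eval_pow, eval_X, eval_C, eval_one, hc, ht, ← h,
      ← pow_mul]
    have hB : ((B1 : ℕ) : ℤ) = 2 ^ 80 - 1 := by norm_num [B1]
    rw [Nat.cast_add, Nat.cast_mul, Nat.cast_mul, Nat.cast_pow, hB, Nat.cast_ofNat]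
    generalize (2 : ℤ) ^ (80 * m) = y
    ring

theorem aE_nd (hLg : StLg) (hNd : StNd) {n o : ℕ} (hn : 1 ≤ n) (ho : o ≤ 4)
    (hoi : o ≤ Nat.log 2 n) (hi : Nat.log 2 n = Nat.shiftRight (eL n) 62) :
    eA n o < 2 ^ (80 * 5) ∧ L1 (tp 5 (eA n o) 0) (27 * 2 ^ 22 * (2 ^ o / 2 ^ Nat.log 2 n)) ∧
    ∀ k ∈ K20, ‖xk k ^ el n * ev k (tp 5 (eA n o) 0)
      - 27 * 2 ^ 22 * 2 ^ o * (-1) ^ Nat.log 2 n * kap k * pw n k‖ ≤
      27 * 2 ^ 22 * (‖kap k‖ * (2 ^ o / n * nd (xi k))) + 16 := by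
  obtain ⟨-, -, h1, h2⟩ := hLg.2.1 n hn
  have hw : Nat.shiftLeft 1207959552 o ≤ 2 ^ 41 * n := by
    rw [aE_shl]
    have := Nat.pow_le_pow_right (show 0 < 2 by norm_num) ho
    omega
  obtain ⟨-, h3, -, h4, h5⟩ := hNd n (lgn n) _ _ hn h1 (by linarith) hw hi
  have hwR : ((Nat.shiftLeft 1207959552 o : ℕ) : ℝ) = 1207959552 * 2 ^ o := by
    rw [aE_shl]
    push_cast
    rfl
  have hwC : ((Nat.shiftLeft 1207959552 o : ℕ) : ℂ) = 1207959552 * 2 ^ o := by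
    rw [aE_shl]
    push_cast
    rfl
  refine ⟨h3, ?_, fun k hk => ?_⟩
  · rw [hwR] at h4
    rw [show (27 * 2 ^ 22 * (2 ^ o / 2 ^ Nat.log 2 n) : ℝ) =
      3 * 2 ^ 35 * (1207959552 * 2 ^ o / 2 ^ 40 / 2 ^ Nat.log 2 n) by ring]
    exact h4
  · have h6 := h5 k hk
    rw [hwR, hwC] at h6
    have h7 : (2 : ℝ) ^ o / 2 ^ Nat.log 2 n ≤ 1 :=
      div_le_one_of_le₀ (pow_le_pow_right₀ (by norm_num) hoi) (by positivity)
    have h8 : (3 * 2 ^ 35 * (1207959552 * 2 ^ o / 2 ^ 40) : ℂ) = 27 * 2 ^ 22 * 2 ^ o := by ring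
    rw [h8] at h6
    refine h6.trans ?_
    have h9 : (1207959552 * 2 ^ o / 2 ^ 40 / 2 ^ Nat.log 2 n : ℝ) =
      9 / 2 ^ 13 * (2 ^ o / 2 ^ Nat.log 2 n) := by ring
    have h10 : 3 * 2 ^ 35 * ‖kap k‖ * (1207959552 * 2 ^ o / 2 ^ 40 / n * nd (xi k)) =
      27 * 2 ^ 22 * (‖kap k‖ * (2 ^ o / n * nd (xi k))) := by ring
    rw [h9, h10]
    linarith

theorem aE_S {s o i : ℕ} (h5 : s * 2 ^ i * 10000000 ≤ 1945555039024054272 * (10000000 * 2 ^ o + 2 ^ i))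
    (h6 : 1945555039024054272 * (10000000 * 2 ^ o) ≤
      s * 2 ^ i * 10000000 + 1945555039024054272 * 2 ^ i) :
    |(s : ℝ) - 27 * 2 ^ 56 * (2 ^ o / 2 ^ i)| ≤ 27 * 2 ^ 56 / 10 ^ 7 := by
  have a5 : (s : ℝ) * 2 ^ i * 10000000 ≤ 1945555039024054272 * (10000000 * 2 ^ o + 2 ^ i) := by
    exact_mod_cast h5
  have a6 : 1945555039024054272 * (10000000 * 2 ^ o) ≤
      (s : ℝ) * 2 ^ i * 10000000 + 1945555039024054272 * 2 ^ i := by exact_mod_cast h6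
  have hp : (0 : ℝ) < 2 ^ i := by positivity
  have e : (s : ℝ) - 27 * 2 ^ 56 * (2 ^ o / 2 ^ i) = (s * 2 ^ i - 27 * 2 ^ 56 * 2 ^ o) / 2 ^ i := by
    field_simp
  rw [e, abs_le, le_div_iff₀ hp, div_le_iff₀ hp]
  constructor <;> linarith

end

end Pool.Agent.MP_88bd62_nt.U.A
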