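import Pool.Agent.MP_88bd62_nt.U.Stmts

/-! The low pass polynomial is the average against the kernel. -/

namespace Pool.Agent.MP_88bd62_nt.U

open Finset Real Filter Topology MeasureTheory

theorem xLP_sg_abs (v : ℝ) : |sg v| ≤ 1 := by
  unfold sg
  have h1 : |((-1 : ℝ)) ^ ⌊v⌋| = 1 := by rw [abs_zpow]; simp
  have h2 : (2 : ℝ) ^ ((⌊v⌋ : ℝ) - v) ≤ 1 :=
    Real.rpow_le_one_of_one_le_of_nonpos (by norm_num) (by linarith [Int.floor_le v])
  have h3 : 0 < (2 : ℝ) ^ ((⌊v⌋ : ℝ) - v) := by positivity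
  rw [abs_mul, abs_mul, h1, abs_of_pos h3, abs_of_pos (by norm_num : (0 : ℝ) < 2 / 3)]
  linarith

theorem xLP_sg_meas : Measurable sg := by
  unfold sg
  have h1 : Measurable fun v : ℝ => ((-1 : ℝ)) ^ ⌊v⌋ :=
    (measurable_from_top (f := fun n : ℤ => ((-1 : ℝ)) ^ n)).comp Int.measurable_floor
  have h2 : Measurable fun v : ℝ => ((⌊v⌋ : ℤ) : ℝ) :=
    (measurable_from_top (f := fun n : ℤ => (n : ℝ))).comp Int.measurable_floor
  have h3 : Measurable fun v : ℝ => (2 : ℝ) ^ ((⌊v⌋ : ℝ) - v) :=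
    (Real.continuous_const_rpow (by norm_num : (2 : ℝ) ≠ 0)).measurable.comp
      (h2.sub measurable_id)
  exact (measurable_const.mul h1).mul h3

theorem xLP_sg_add (v : ℝ) : sg (v + 1) = -sg v := by
  unfold sg
  rw [Int.floor_add_one, zpow_add_one₀ (by norm_num)]
  have : ((⌊v⌋ + 1 : ℤ) : ℝ) - (v + 1) = ⌊v⌋ - v := by push_cast; ring
  rw [this]
  ring

theorem xLP_ee_add (k : ℤ) (v w : ℝ) : ee k (v + w) = ee k v * ee k w := by
  unfold ee
  rw [← Complex.exp_add]
  congr 1
  push_cast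
  ring

theorem xLP_ee_norm (k : ℤ) (v : ℝ) : ‖ee k v‖ = 1 := Complex.norm_exp_ofReal_mul_I _

theorem xLP_ee_cont (k : ℤ) : Continuous (ee k) := by
  unfold ee
  fun_prop

theorem xLP_ee_one (k : ℤ) : ee k (-1) = (-1) ^ k := by
  unfold ee
  have : ((π * k * (-1) : ℝ) : ℂ) * Complex.I = (k : ℂ) * (-(π * Complex.I)) := by
    push_cast; ring
  rw [this, Complex.exp_int_mul, Complex.exp_neg, Complex.exp_pi_mul_I]
  norm_num

theorem xLP_ii {f : ℝ → ℂ} (hf : Measurable f) {C : ℝ} (hC : ∀ x, ‖f x‖ ≤ C) (a b : ℝ) :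
    IntervalIntegrable f volume a b :=
  (intervalIntegrable_const (c := C)).mono_fun' hf.aestronglyMeasurable
    (Eventually.of_forall hC)

theorem xLP_g_meas (k : ℤ) : Measurable fun w : ℝ => ee k (-w) * (sg w : ℂ) :=
  ((xLP_ee_cont k).comp continuous_neg).measurable.mul
    (Complex.measurable_ofReal.comp xLP_sg_meas)

theorem xLP_g_norm (k : ℤ) (w v : ℝ) : ‖ee k w * (sg v : ℂ)‖ ≤ 1 := by
  rw [norm_mul, xLP_ee_norm, one_mul, Complex.norm_real]
  exact xLP_sg_abs v

theorem xLP_g_add (k : ℤ) (w : ℝ) :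
    ee k (-(w + 1)) * (sg (w + 1) : ℂ) = -(-1) ^ k * (ee k (-w) * (sg w : ℂ)) := by
  rw [neg_add, xLP_ee_add, xLP_ee_one, xLP_sg_add]
  push_cast
  ring

theorem xLP_int01 (k : ℤ) : ∫ w in (0 : ℝ)..1, ee k (-w) * (sg w : ℂ) =
    2 / 3 * (1 - (-1) ^ k / 2) * sh k := by
  have hl : (0 : ℝ) < log 2 := Real.log_pos (by norm_num)
  set c : ℂ := -((log 2 : ℝ) + (π * k : ℝ) * Complex.I) with hc
  have hc0 : c ≠ 0 := by
    intro h
    have := congrArg Complex.re h
    simp only [hc, Complex.neg_re, Complex.add_re, Complex.ofReal_re, Complex.mul_re,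
      Complex.I_re, Complex.ofReal_im, Complex.I_im, Complex.zero_re] at this
    linarith
  have e1 : ∀ w : ℝ, Complex.exp (c * w) = ee k (-w) * (((2 : ℝ) ^ (-w) : ℝ) : ℂ) := by
    intro w
    unfold ee
    rw [Real.rpow_def_of_pos (by norm_num), Complex.ofReal_exp, ← Complex.exp_add]
    congr 1
    rw [hc]
    push_cast
    ring
  have e2 : ∫ w in (0 : ℝ)..1, ee k (-w) * (sg w : ℂ) =
      ∫ w in (0 : ℝ)..1, 2 / 3 * Complex.exp (c * w) := by
    rw [intervalIntegral.integral_of_le zero_le_one, intervalIntegral.integral_of_le zero_le_one,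
      integral_Ioc_eq_integral_Ioo, integral_Ioc_eq_integral_Ioo]
    refine setIntegral_congr_fun measurableSet_Ioo fun w hw => ?_
    have hf : ⌊w⌋ = 0 := Int.floor_eq_zero_iff.2 ⟨hw.1.le, hw.2⟩
    simp only [e1, sg, hf, zpow_zero, Int.cast_zero, zero_sub]
    push_cast
    ring
  rw [e2, intervalIntegral.integral_const_mul, integral_exp_mul_complex hc0, e1, xLP_ee_one,
    Real.rpow_neg_one]
  have : sh k = -c⁻¹ := by rw [sh, hc, inv_neg, neg_neg, one_div]
  rw [this]
  simp only [Complex.ofReal_zero, mul_zero, Complex.exp_zero]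
  push_cast
  ring

/-- The Fourier coefficient. -/
noncomputable def xLP_c (k : ℤ) : ℂ := if Odd k then sh k else 0

theorem xLP_node (k : ℤ) (v : ℝ) :
    ∫ y in (-1 : ℝ)..1, ee k y * (sg (v - y) : ℂ) = 2 * ee k v * xLP_c k := by
  have hi := xLP_ii (xLP_g_meas k) (fun w => xLP_g_norm k (-w) w)
  have hp : Function.Periodic (fun w : ℝ => ee k (-w) * (sg w : ℂ)) 2 := by
    intro w
    have h1 := xLP_g_add k (w + 1)
    have h2 : ((-1 : ℂ)) ^ k * (-1) ^ k = 1 := by rw [← mul_zpow]; simp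
    rw [xLP_g_add k w, show w + 1 + 1 = w + 2 by ring] at h1
    simp only [h1]
    linear_combination (ee k (-w) * (sg w : ℂ)) * h2
  have e1 : ∀ y : ℝ, ee k y * (sg (v - y) : ℂ) =
      ee k v * (fun w : ℝ => ee k (-w) * (sg w : ℂ)) (v - y) := by
    intro y
    simp only
    rw [← mul_assoc, ← xLP_ee_add]
    congr 2
    ring
  simp only [e1]
  rw [intervalIntegral.integral_const_mul,
    intervalIntegral.integral_comp_sub_left (fun w : ℝ => ee k (-w) * (sg w : ℂ)) v,
    show v - -1 = v - 1 + 2 by ring, hp.intervalIntegral_add_eq (v - 1) 0,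
    ← intervalIntegral.integral_add_adjacent_intervals (hi 0 1) (hi 1 (0 + 2))]
  have e2 : ∫ w in (1 : ℝ)..(0 + 2), ee k (-w) * (sg w : ℂ) =
      -(-1) ^ k * ∫ w in (0 : ℝ)..1, ee k (-w) * (sg w : ℂ) := by
    rw [← intervalIntegral.integral_const_mul]
    simp only [← xLP_g_add]
    rw [intervalIntegral.integral_comp_add_right (fun w : ℝ => ee k (-w) * (sg w : ℂ)) 1]
    norm_num
  rw [e2, xLP_int01, xLP_c]
  split_ifs with h
  · rw [h.neg_one_zpow]; ring
  · rw [(Int.not_odd_iff_even.1 h).neg_one_zpow]; ring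

theorem xLP_term_le (a : ℕ → ℝ) (n : ℕ) (v : ℝ) : ‖a n / n * sg v‖ ≤ |a n| / n := by
  rw [Real.norm_eq_abs, abs_mul, abs_div, Nat.abs_cast]
  exact mul_le_of_le_one_right (by positivity) (xLP_sg_abs v)

theorem xLP_hasSum {a : ℕ → ℝ} (ha : AC a) (u : ℝ) :
    HasSum (fun n : ℕ => a n / n * sg (u - th n)) (Phi a u) :=
  (Summable.of_norm_bounded ha fun n => xLP_term_le a n _).hasSum

theorem xLP_Phi_meas {a : ℕ → ℝ} (ha : AC a) : Measurable (Phi a) := by
  refine measurable_of_tendsto_metrizable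
    (f := fun m u => ∑ n ∈ range m, a n / n * sg (u - th n)) (fun m => ?_) ?_
  · exact Finset.measurable_sum _ fun n _ =>
      measurable_const.mul (xLP_sg_meas.comp (measurable_id.sub measurable_const))
  · exact tendsto_pi_nhds.2 fun u => (xLP_hasSum ha u).tendsto_sum_nat

theorem xLP_Phi_le {a : ℕ → ℝ} (ha : AC a) (u : ℝ) : ‖Phi a u‖ ≤ ∑' n : ℕ, |a n| / n :=
  tsum_of_norm_bounded ha.hasSum fun n => xLP_term_le a n _

theorem xLP_ii2 {a : ℕ → ℝ} (ha : AC a) (k : ℤ) (u : ℝ) :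
    IntervalIntegrable (fun y => ee k y * (Phi a (u - y) : ℂ)) volume (-1) 1 := by
  refine xLP_ii (f := fun y => ee k y * (Phi a (u - y) : ℂ))
    ((xLP_ee_cont k).measurable.mul (Complex.measurable_ofReal.comp
    ((xLP_Phi_meas ha).comp (measurable_const.sub measurable_id))))
    (C := ∑' n : ℕ, |a n| / n) (fun y => ?_) _ _
  rw [norm_mul, xLP_ee_norm, one_mul, Complex.norm_real]
  exact xLP_Phi_le ha _

theorem xLP_mode {a : ℕ → ℝ} (ha : AC a) (k : ℤ) (u : ℝ) :
    ∫ y in (-1 : ℝ)..1, ee k y * (Phi a (u - y) : ℂ) = 2 * (Ser a k * xLP_c k * ee k u) := by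
  have h := intervalIntegral.hasSum_integral_of_dominated_convergence (μ := volume) (a := -1)
    (b := 1) (F := fun (n : ℕ) (y : ℝ) => ee k y * ((a n / n * sg (u - y - th n) : ℝ) : ℂ))
    (f := fun y => ee k y * (Phi a (u - y) : ℂ)) (fun n _ => |a n| / n)
    (fun n => ((xLP_ee_cont k).measurable.mul (Complex.measurable_ofReal.comp
      (measurable_const.mul (xLP_sg_meas.comp
        ((measurable_const.sub measurable_id).sub measurable_const))))).aestronglyMeasurable)
    (fun n => Eventually.of_forall fun y _ => by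
      rw [norm_mul, xLP_ee_norm, one_mul, Complex.norm_real]
      exact xLP_term_le a n _)
    (Eventually.of_forall fun _ _ => ha) intervalIntegrable_const
    (Eventually.of_forall fun y _ =>
      (Complex.hasSum_ofReal.2 (xLP_hasSum ha (u - y))).mul_left _)
  rw [← h.tsum_eq, Ser, ← tsum_mul_right, ← tsum_mul_right, ← tsum_mul_left]
  refine tsum_congr fun n => ?_
  have e : ∀ y : ℝ, ee k y * ((a n / n * sg (u - y - th n) : ℝ) : ℂ) =
      ((a n / n : ℝ) : ℂ) * (ee k y * (sg (u - th n - y) : ℂ)) := by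
    intro y
    rw [show u - y - th n = u - th n - y by ring]
    push_cast
    ring
  simp only [e]
  rw [intervalIntegral.integral_const_mul, xLP_node, sub_eq_add_neg, xLP_ee_add]
  ring

theorem xLP_ker (N : ℕ) (y : ℝ) :
    (ker N y : ℂ) = ∑ k ∈ Ioo (-(2 * N : ℤ)) (2 * N), (wk N k : ℂ) * ee k y := by
  have h1 : ∑ k ∈ Ioo (-(2 * N : ℤ)) (2 * N), (wk N k : ℂ) * ee k y =
      ∑ k ∈ Ioo (-(2 * N : ℤ)) (2 * N), (wk N k : ℂ) * ee (-k) y := by
    refine Finset.sum_nbij' (fun k => -k) (fun k => -k) ?_ ?_ ?_ ?_ ?_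
    · intro k hk
      simp only [Finset.mem_Ioo] at hk ⊢
      omega
    · intro k hk
      simp only [Finset.mem_Ioo] at hk ⊢
      omega
    · intro k _; simp
    · intro k _; simp
    · intro k _
      simp [wk]
  have h2 : ∀ k : ℤ, ee k y + ee (-k) y = 2 * (cos (π * k * y) : ℝ) := by
    intro k
    unfold ee
    rw [Complex.ofReal_cos, Complex.two_cos]
    congr 2
    push_cast
    ring
  have h3 : 2 * (ker N y : ℂ) =
      2 * ∑ k ∈ Ioo (-(2 * N : ℤ)) (2 * N), (wk N k : ℂ) * ee k y := by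
    rw [two_mul (∑ k ∈ _, _)]
    nth_rewrite 2 [h1]
    rw [← Finset.sum_add_distrib, ker, Complex.ofReal_sum, Finset.mul_sum]
    refine Finset.sum_congr rfl fun k _ => ?_
    rw [← mul_add, h2, Complex.ofReal_mul]
    ring
  exact mul_left_cancel₀ two_ne_zero h3

theorem stLP : StLP := by
  intro N a _ ha u
  have e : ∀ y : ℝ, ((ker N y * Phi a (u - y) : ℝ) : ℂ) =
      ∑ k ∈ Ioo (-(2 * N : ℤ)) (2 * N), (wk N k : ℂ) * (ee k y * (Phi a (u - y) : ℂ)) := by
    intro y
    rw [Complex.ofReal_mul, xLP_ker, Finset.sum_mul]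
    exact Finset.sum_congr rfl fun k _ => mul_assoc _ _ _
  constructor
  · have hk : Continuous (ker N) := by
      unfold ker
      fun_prop
    have h0 : IntervalIntegrable (fun y => Phi a (u - y)) volume (-1) 1 :=
      (intervalIntegrable_const (c := ∑' n : ℕ, |a n| / n)).mono_fun'
        ((xLP_Phi_meas ha).comp (measurable_const.sub measurable_id)).aestronglyMeasurable
        (Eventually.of_forall fun y => xLP_Phi_le ha _)
    exact h0.continuousOn_mul hk.continuousOn
  · rw [Complex.ofReal_mul, ← intervalIntegral.integral_ofReal]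
    simp only [e]
    rw [intervalIntegral.integral_finsetSum fun k _ => (xLP_ii2 ha k u).const_mul _, LPc, Kset,
      Finset.sum_filter, Finset.mul_sum]
    refine Finset.sum_congr rfl fun k _ => ?_
    rw [intervalIntegral.integral_const_mul, xLP_mode ha, xLP_c]
    split_ifs
    · push_cast; ring
    · simp

end Pool.Agent.MP_88bd62_nt.U
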