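import Pool.Agent.MP_88bd62_nt.U.AStm
import Pool.Agent.MP_88bd62_nt.U.LP

/-! From the grid to all points of the circle. -/

namespace Pool.Agent.MP_88bd62_nt.U.A

open Finset Real Polynomial

theorem aFin_sub (φ ψ : ℤ → ℂ) (m : ℤ) : cf φ m - cf ψ m = cf (fun k => φ k - ψ k) m := by
  unfold cf
  rw [← sub_div, ← sum_sub_distrib]
  simp only [sub_mul]

theorem aFin_ee {k : ℤ} (hk : Odd k) : ee k 1 = -ee k 0 := by
  have h := xLP_ee_add k 1 (-1)
  rw [xLP_ee_one, hk.neg_one_zpow, add_neg_cancel] at h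
  rw [h]
  ring

theorem aFin_low (u : ℝ) : lowA u 1 = lowA (u - 1) 0 := by
  have h1 : ∀ (N : ℕ) (c : ℤ → ℂ), LPc N c 1 = -LPc N c 0 := fun N c => by
    unfold LPc
    rw [← sum_neg_distrib]
    refine sum_congr rfl fun k hk => ?_
    rw [aFin_ee (mem_filter.1 hk).2, mul_neg]
  have h2 : Phi a1 u = -Phi a1 (u - 1) := by
    unfold Phi
    rw [← tsum_neg]
    refine tsum_congr fun n => ?_
    rw [show u - th n = u - 1 - th n + 1 by ring, xLP_sg_add, mul_neg]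
  unfold lowA
  rw [h1, h2, sub_zero, mul_neg, Complex.ofReal_neg, ← neg_add, norm_neg]

theorem aFin_B (η : ℝ) : Bexp η 1 = Bexp η 0 := by
  unfold Bexp
  congr 1
  funext n
  congr 1
  unfold dZ
  rw [show 1 - th n = 0 - th n + 1 by ring, round_add_one]
  congr 1
  push_cast
  ring

theorem aFin_tri {W₁ W₂ : ℂ} {r q s x e b : ℝ} (h1 : ‖W₂ - W₁‖ ≤ r * 0.00425)
    (h2 : ‖(q : ℂ) - (W₂ + s)‖ ≤ 0.00009) (h3 : |q + e| ≤ r * (0.97965 - b))
    (h4 : |x - s - e| ≤ 1 / 10 ^ 7) (hr : 1 ≤ r) : ‖W₁ + x‖ ≤ r * (0.984 - b) := by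
  have e1 : W₁ + x = ((q + e : ℝ) : ℂ) + ((x - s - e : ℝ) : ℂ) - ((q : ℂ) - (W₂ + s))
      - (W₂ - W₁) := by
    push_cast
    ring
  rw [e1]
  refine (norm_sub_le _ _).trans ?_
  refine (add_le_add ((norm_sub_le _ _).trans (add_le_add (norm_add_le _ _) h2)) h1).trans ?_
  rw [Complex.norm_real, Complex.norm_real, Real.norm_eq_abs, Real.norm_eq_abs]
  linarith

theorem stFin (hCf : StCf) (hStep : StStep) : StFin := by
  intro Y Q A l j S b h1 h2 h3 h4 h5 hP hQ hF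
  have grid : ∀ (i : ℕ) (u : ℝ), i < 2 ^ 22 → (i - 1 / 2) / 2 ^ 22 ≤ u →
      u < (i + 1 / 2) / 2 ^ 22 →
      lowA u (i / 2 ^ 22) + Bexp (1 / 2 ^ 23) (i / 2 ^ 22) ≤ 0.984 := fun i u hi hu hu' => by
    have hr : (1 : ℝ) ≤ 2 ^ ((i : ℝ) / 2 ^ 22) := one_le_rpow one_le_two (by positivity)
    have e1 := (hCf.2.2.2.2.2.2.2 (fun k => FS k - Ser a1 k) i).1
    have e2 := (hCf.2.2.2.2.2.2.2 (fun k => ps Y A l k - (FS k - Ser a1 k) / zk k) i).2
    rw [Int.cast_natCast] at e1 e2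
    have e3 := e2.trans (mul_le_mul_of_nonneg_left hP (by positivity))
    simp only [mul_sub] at e3
    rw [← aFin_sub] at e3
    have e4 := hQ i hi
    obtain ⟨e5, e6⟩ := hF i hi
    have e7 : 2 ^ ((i : ℝ) / 2 ^ 22) * lowA u (i / 2 ^ 22) =
        ‖cf (fun k => wk (2 ^ 20) k * ((FS k - Ser a1 k) / zk k)) i +
          (((2 : ℝ) ^ u * Phi a1 u : ℝ) : ℂ)‖ := by
      unfold lowA
      rw [← e1, ← Complex.norm_of_nonneg (r := 2 ^ ((i : ℝ) / 2 ^ 22)) (by positivity),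
        ← norm_mul, mul_add, ← Complex.ofReal_mul, ← mul_assoc, ← rpow_add two_pos,
        add_sub_cancel, Complex.norm_of_nonneg (by positivity)]
    have e8 : (Q.coeff i : ℂ) / (27 * 2 ^ 57) = (((Q.coeff i : ℝ) / (27 * 2 ^ 57) : ℝ) : ℂ) := by
      push_cast
      ring
    rw [e8] at e4
    have e9 : 2 ^ ((i : ℝ) / 2 ^ 22) * lowA u (i / 2 ^ 22) ≤
        2 ^ ((i : ℝ) / 2 ^ 22) * (0.984 - b i) := by
      rw [e7]
      rcases hStep j h1 h2 h3 i u hi hu hu' with h | ⟨n, hn, hj, h⟩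
      · refine aFin_tri (e := 0) e3 e4 ?_ (by rw [h]; norm_num) hr
        rw [add_zero, abs_div, abs_of_pos (a := (27 * 2 ^ 57 : ℝ)) (by positivity),
          div_le_iff₀ (by positivity)]
        linarith
      · refine aFin_tri (e := -(2 * S n / (27 * 2 ^ 57))) e3 e4 ?_ ?_ hr
        · rw [← sub_eq_add_neg, ← sub_div, abs_div,
            abs_of_pos (a := (27 * 2 ^ 57 : ℝ)) (by positivity), div_le_iff₀ (by positivity)]
          linarith [e6 n hn hj]
        · have h6 := abs_le.1 (h4 n hn)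
          rw [h, abs_le]
          constructor <;> linarith [h6.1, h6.2]
    have e10 := le_of_mul_le_mul_left e9 (by positivity)
    linarith [h5 i hi]
  intro u hu0 hu1
  have f1 := Nat.floor_le (show 0 ≤ u * 2 ^ 22 + 1 / 2 by positivity)
  have f2 := Nat.lt_floor_add_one (u * 2 ^ 22 + 1 / 2)
  generalize ⌊u * 2 ^ 22 + 1 / 2⌋₊ = i at f1 f2
  rcases lt_or_ge i (2 ^ 22) with hi | hi
  · refine ⟨i / 2 ^ 22, ?_, grid i u hi (by linarith) (by linarith)⟩
    rw [abs_le]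
    constructor <;> linarith
  · have hi' : (2 : ℝ) ^ 22 ≤ i := by exact_mod_cast hi
    have h := grid 0 (u - 1) (by norm_num) (by rw [Nat.cast_zero]; linarith)
      (by rw [Nat.cast_zero]; linarith)
    rw [Nat.cast_zero, zero_div] at h
    refine ⟨1, ?_, ?_⟩
    · rw [abs_le]
      constructor <;> linarith
    · rw [aFin_low, aFin_B]
      exact h

end Pool.Agent.MP_88bd62_nt.U.A
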