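import Pool.Agent.MP_88bd62_nt.U.AStm

/-! Folding of the initial sum of zeta into one dyadic range. -/

namespace Pool.Agent.MP_88bd62_nt.U.A

open Finset Real

theorem aFold_split {M : Type} [AddCommMonoid M] (f : ℕ → M) (A B : ℕ) (h : A ≤ B) :
    ∑ m ∈ Ico (2 * A) (2 * B), f m = ∑ j ∈ Ico A B, (f (2 * j) + f (2 * j + 1)) := by
  induction B, h using Nat.le_induction with
  | base => simp
  | succ B hB ih =>
    rw [show 2 * (B + 1) = 2 * B + 1 + 1 by ring, sum_Ico_succ_top (by omega),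
      sum_Ico_succ_top (by omega), ih, sum_Ico_succ_top hB, add_assoc]

theorem aFold_dy {M : Type} [AddCommMonoid M] (f : ℕ → M) (a : ℕ) :
    ∑ m ∈ Ico (2 ^ (a + 1)) (2 ^ (a + 1 + 1)), f m =
      ∑ j ∈ Ico (2 ^ a) (2 ^ (a + 1)), (f (2 * j) + f (2 * j + 1)) := by
  rw [← aFold_split f _ _ (Nat.pow_le_pow_right (by norm_num) (Nat.le_succ a)),
    pow_succ' 2 (a + 1), pow_succ' 2 a]

theorem aFold_v_odd (n : ℕ) (h : Odd n) : padicValNat 2 n = 0 :=
  padicValNat.eq_zero_of_not_dvd (by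
    intro h2
    exact (Nat.not_even_iff_odd.mpr h) (even_iff_two_dvd.mpr h2))

theorem aFold_v_two (n : ℕ) (h : n ≠ 0) : padicValNat 2 (2 * n) = padicValNat 2 n + 1 := by
  rw [padicValNat.mul (by norm_num) h, padicValNat.self (by norm_num), add_comm]

theorem aFold_cm_odd (n : ℕ) (h : Odd n) : cm n = 1 := by
  simp [cm, aFold_v_odd n h]

theorem aFold_cm_two (n : ℕ) (h : n ≠ 0) : cm (2 * n) = 1 - 2 * cm n := by
  unfold cm
  rw [aFold_v_two n h, sum_range_succ' _ (padicValNat 2 n + 1), mul_sum]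
  simp only [pow_succ, pow_zero]
  rw [sub_eq_add_neg, add_comm, ← sum_neg_distrib]
  congr 1
  exact sum_congr rfl fun i _ => by ring

theorem aFold_pos {a j : ℕ} (h : j ∈ Ico (2 ^ a) (2 ^ (a + 1))) : 1 ≤ j :=
  le_trans (Nat.one_le_two_pow) (mem_Ico.mp h).1

theorem aFold_fold (P : ℕ → ℂ) (hP : ∀ n, 1 ≤ n → P (2 * n) = -1 / 2 * P n) (a : ℕ) :
    ∑ n ∈ Ico 1 (2 ^ (a + 1)), P n = ∑ m ∈ Ico (2 ^ a) (2 ^ (a + 1)), (cm m : ℂ) * P m := by
  induction a with
  | zero => simp [aFold_cm_odd 1 odd_one]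
  | succ a ih =>
    rw [← sum_Ico_consecutive P (Nat.one_le_two_pow : 1 ≤ 2 ^ (a + 1))
      (Nat.pow_le_pow_right (by norm_num) (Nat.le_succ (a + 1))), ih, aFold_dy, aFold_dy,
      ← sum_add_distrib]
    refine sum_congr rfl fun j hj => ?_
    have h1 := aFold_pos hj
    rw [aFold_cm_two j (by omega), aFold_cm_odd _ (odd_two_mul_add_one j), hP j h1]
    push_cast
    ring

theorem aFold_odd_sum (A B : ℕ) (hA : 1 ≤ A) (h : A ≤ B) :
    ∑ j ∈ Ico A B, 1 / ((2 * j + 1 : ℕ) : ℝ) ≤ (log B - log A) / 2 := by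
  induction B, h using Nat.le_induction with
  | base => simp
  | succ B hB ih =>
    rw [sum_Ico_succ_top hB]
    have hB0 : (0 : ℝ) < B := by exact_mod_cast (by omega : 0 < B)
    have h1 := Real.le_log_one_add_of_nonneg (x := 1 / (B : ℝ)) (by positivity)
    have h2 : log (1 + 1 / (B : ℝ)) = log ((B + 1 : ℕ) : ℝ) - log B := by
      rw [← log_div (by positivity) hB0.ne']
      congr 1
      push_cast
      field_simp
    have h3 : 2 * (1 / (B : ℝ)) / (1 / B + 2) = 2 * (1 / ((2 * B + 1 : ℕ) : ℝ)) := by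
      push_cast
      field_simp
      ring
    rw [h2, h3] at h1
    linarith

theorem aFold_odd_dy (a : ℕ) :
    ∑ j ∈ Ico (2 ^ a) (2 ^ (a + 1)), 1 / ((2 * j + 1 : ℕ) : ℝ) ≤ 0.34658 := by
  refine (aFold_odd_sum _ _ Nat.one_le_two_pow
    (Nat.pow_le_pow_right (by norm_num) (Nat.le_succ a))).trans ?_
  push_cast
  rw [log_pow, log_pow]
  push_cast
  have := log_two_lt_d9
  linarith

theorem aFold_wt (a : ℕ) : ∀ F : ℕ → ℝ, (∀ i, 0 ≤ F i) →
    ∑ m ∈ Ico (2 ^ a) (2 ^ (a + 1)), F (padicValNat 2 m) / m ≤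
      ∑ i ∈ range a, F i / 2 ^ i * 0.34658 + F a / 2 ^ a := by
  induction a with
  | zero => intro F _; simp
  | succ a ih =>
    intro F hF
    rw [aFold_dy, sum_add_distrib, sum_range_succ']
    have h1 := ih (fun i => F (i + 1) / 2) (fun i => div_nonneg (hF _) (by norm_num))
    have h2 : ∑ j ∈ Ico (2 ^ a) (2 ^ (a + 1)), F (padicValNat 2 (2 * j)) / ((2 * j : ℕ) : ℝ) =
        ∑ j ∈ Ico (2 ^ a) (2 ^ (a + 1)), F (padicValNat 2 j + 1) / 2 / j := by
      refine sum_congr rfl fun j hj => ?_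
      have h1 := aFold_pos hj
      rw [aFold_v_two j (by omega)]
      push_cast
      rw [div_div]
    have h3 : ∑ j ∈ Ico (2 ^ a) (2 ^ (a + 1)),
        F (padicValNat 2 (2 * j + 1)) / ((2 * j + 1 : ℕ) : ℝ) ≤ F 0 * 0.34658 := by
      refine le_trans (le_of_eq ?_) (mul_le_mul_of_nonneg_left (aFold_odd_dy a) (hF 0))
      rw [mul_sum]
      refine sum_congr rfl fun j _ => ?_
      rw [aFold_v_odd _ (odd_two_mul_add_one j), mul_one_div]
    have h4 : ∑ i ∈ range a, F (i + 1) / 2 / 2 ^ i * 0.34658 =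
        ∑ i ∈ range a, F (i + 1) / 2 ^ (i + 1) * (0.34658 : ℝ) :=
      sum_congr rfl fun i _ => by rw [div_div, pow_succ']
    have h5 : F (a + 1) / 2 / 2 ^ a = F (a + 1) / 2 ^ (a + 1) := by rw [div_div, pow_succ']
    rw [h4, h5] at h1
    rw [h2, pow_zero, div_one]
    linarith

theorem aFold_ct (a : ℕ) : ∀ F : ℕ → ℝ,
    ∑ m ∈ Ico (2 ^ a) (2 ^ (a + 1)), F (padicValNat 2 m) =
      ∑ i ∈ range a, F i * (2 ^ a / 2 ^ (i + 1)) + F a := by
  induction a with
  | zero => intro F; simp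
  | succ a ih =>
    intro F
    rw [aFold_dy, sum_add_distrib, sum_range_succ']
    have h1 := ih (fun i => F (i + 1))
    have h2 : ∑ j ∈ Ico (2 ^ a) (2 ^ (a + 1)), F (padicValNat 2 (2 * j)) =
        ∑ j ∈ Ico (2 ^ a) (2 ^ (a + 1)), F (padicValNat 2 j + 1) := by
      refine sum_congr rfl fun j hj => ?_
      have h1 := aFold_pos hj
      rw [aFold_v_two j (by omega)]
    have h3 : ∑ j ∈ Ico (2 ^ a) (2 ^ (a + 1)), F (padicValNat 2 (2 * j + 1)) = F 0 * 2 ^ a := by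
      rw [sum_congr rfl fun j _ => by rw [aFold_v_odd _ (odd_two_mul_add_one j)], sum_const,
        Nat.card_Ico, pow_succ, Nat.mul_two, Nat.add_sub_cancel, nsmul_eq_mul]
      push_cast
      ring
    have h4 : ∑ i ∈ range a, F (i + 1) * (2 ^ a / 2 ^ (i + 1)) =
        ∑ i ∈ range a, F (i + 1) * ((2 : ℝ) ^ (a + 1) / 2 ^ (i + 1 + 1)) :=
      sum_congr rfl fun i _ => by
        congr 1
        field_simp
        ring
    rw [h2, h3, h1, h4]
    have h5 : (2 : ℝ) ^ (a + 1) / 2 ^ (0 + 1) = 2 ^ a := by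
      field_simp
      ring
    rw [h5]
    ring

/-- The absolute value of the weight as a function of the valuation. -/
noncomputable def aFold_F (v : ℕ) : ℝ := |((∑ i ∈ range (v + 1), (-2) ^ i : ℤ) : ℝ)|

theorem aFold_F_eq (v : ℕ) : aFold_F v = (2 ^ (v + 1) + (-1) ^ v) / 3 := by
  have h : ((∑ i ∈ range (v + 1), (-2) ^ i : ℤ) : ℝ) = (-1) ^ v * ((2 ^ (v + 1) + (-1) ^ v) / 3) := by
    push_cast
    rw [geom_sum_eq (by norm_num), neg_pow (2 : ℝ), pow_succ (-1 : ℝ)]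
    have : ((-1 : ℝ) ^ v) * (-1) ^ v = 1 := by rw [← mul_pow]; simp
    linear_combination (-1 / 3 : ℝ) * this
  have h2 : (0 : ℝ) ≤ (2 ^ (v + 1) + (-1) ^ v) / 3 := by
    have h3 : (1 : ℝ) ≤ 2 ^ (v + 1) := one_le_pow₀ (by norm_num)
    rcases neg_one_pow_eq_or ℝ v with h4 | h4 <;> rw [h4] <;> linarith
  unfold aFold_F
  rw [h, abs_mul, abs_of_nonneg h2, abs_pow]
  simp

theorem aFold_gcd (m : ℕ) (h0 : 0 < m) (h : m < 2 ^ 20) :
    cm m = if Nat.gcd m 1048576 % 3 = 1 then (((2 * Nat.gcd m 1048576 + 1) / 3 : ℕ) : ℤ)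
      else -(((2 * Nat.gcd m 1048576 - 1) / 3 : ℕ) : ℤ) := by
  obtain ⟨v, n, hn, rfl⟩ := Nat.exists_eq_two_pow_mul_odd h0.ne'
  have hn0 : n ≠ 0 := by rintro rfl; simp at hn
  have hv : v < 20 := by
    have h1 : 2 ^ v ≤ 2 ^ v * n := Nat.le_mul_of_pos_right _ (Nat.pos_of_ne_zero hn0)
    exact (Nat.pow_lt_pow_iff_right (by norm_num)).mp (lt_of_le_of_lt h1 h)
  have h1 : padicValNat 2 (2 ^ v * n) = v := by
    rw [padicValNat.mul (by positivity) hn0, padicValNat.prime_pow, aFold_v_odd n hn, add_zero]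
  have h2 : Nat.gcd (2 ^ v * n) 1048576 = 2 ^ v := by
    have h3 : 1048576 = 2 ^ v * 2 ^ (20 - v) := by
      rw [← pow_add, show v + (20 - v) = 20 by omega]
      norm_num
    have h4 : Nat.Coprime n (2 ^ (20 - v)) := (Nat.coprime_two_right.mpr hn).pow_right _
    rw [h3, Nat.gcd_mul_left, h4.gcd_eq_one, mul_one]
  rw [h2]
  unfold cm
  rw [h1]
  clear h h0 h1 h2
  interval_cases v <;> decide

theorem stFold (hBas : StBas) : StFold := by
  obtain ⟨hadd, hnat, -, hhalf, hpw, -⟩ := hBas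
  refine ⟨fun k hk => ?_, ?_, ?_, fun m h8 h0 h => ?_⟩
  · have h2 : xp k (2 ^ 22) = -1 / 2 := by
      rw [← hhalf k hk, ← hnat]
      norm_num
    have hP : ∀ n : ℕ, 1 ≤ n → pw (2 * n) k = -1 / 2 * pw n k := by
      intro n hn
      have hn0 : (n : ℝ) ≠ 0 := by exact_mod_cast (by omega : n ≠ 0)
      rw [hpw k _ (by omega), hpw k n hn, ← h2, ← hadd]
      congr 1
      unfold th
      push_cast
      rw [logb_mul (by norm_num) hn0, logb_self_eq_one (by norm_num)]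
      ring
    have h19 : ∀ (j : ℕ) (v : ℝ), xp k (v - 2 ^ 22 * j) = (-2) ^ j * xp k v := by
      intro j
      induction j with
      | zero => intro v; simp
      | succ j ih =>
        intro v
        have h3 := hadd k (v - 2 ^ 22 * ((j + 1 : ℕ) : ℝ)) (2 ^ 22)
        rw [show v - 2 ^ 22 * ((j + 1 : ℕ) : ℝ) + 2 ^ 22 = v - 2 ^ 22 * j by push_cast; ring, ih,
          h2] at h3
        linear_combination 2 * h3
    have h4 := aFold_fold (fun n => pw n k) hP 19
    rw [show (2 : ℕ) ^ 20 = 2 ^ (19 + 1) from rfl, h4, mul_sum]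
    refine sum_congr rfl fun m hm => ?_
    have h1 := aFold_pos hm
    have hm0 : (m : ℝ) ≠ 0 := by exact_mod_cast (by omega : m ≠ 0)
    have h5 : (2 : ℝ) ^ 22 * logb 2 (m / 2 ^ 19) = 2 ^ 22 * th m - 2 ^ 22 * ((19 : ℕ) : ℝ) := by
      unfold th
      rw [logb_div hm0 (by positivity), logb_pow, logb_self_eq_one (by norm_num)]
      ring
    rw [h5, h19, ← hpw k m h1]
    ring
  · have h1 := aFold_wt 19 aFold_F (fun i => abs_nonneg _)
    refine le_trans (le_of_eq rfl) (h1.trans ?_)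
    simp only [aFold_F_eq, sum_range_succ, sum_range_zero]
    norm_num
  · have h1 := aFold_ct 19 aFold_F
    refine le_trans (le_of_eq ?_) (h1.le.trans ?_)
    · rfl
    · simp only [aFold_F_eq, sum_range_succ, sum_range_zero]
      norm_num
  · obtain ⟨t, rfl⟩ := h8
    have o1 : ∀ n : ℕ, n % 2 = 1 → cm n = 1 := fun n hn => aFold_cm_odd n (Nat.odd_iff.mpr hn)
    have o2 : ∀ n : ℕ, n % 4 = 2 → cm n = -1 := fun n hn => by
      rw [show n = 2 * (n / 2) by omega, aFold_cm_two _ (by omega), o1 _ (by omega)]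
      norm_num
    have o3 : ∀ n : ℕ, n % 8 = 4 → cm n = 3 := fun n hn => by
      rw [show n = 2 * (n / 2) by omega, aFold_cm_two _ (by omega), o2 _ (by omega)]
      norm_num
    exact ⟨o1 _ (by omega), o2 _ (by omega), o1 _ (by omega), o3 _ (by omega), o1 _ (by omega),
      o2 _ (by omega), o1 _ (by omega), aFold_gcd _ h0 h⟩

end Pool.Agent.MP_88bd62_nt.U.A
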