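import Pool.Agent.MP_88bd62_nt.U.ASpec

/-! The final comparison along the table. -/

namespace Pool.Agent.MP_88bd62_nt.U.A

open Finset Real Polynomial
open Pool.Agent.MP_22d5c4_co.K (dig ones dig_add dig_ones dig_mod dig_shift vec_lt vec_ge)
open D (cn an PL cl flo fhi Tb)

theorem aFt_jc1 (hMk : StMk) {x i d h j a b r : ℕ} (hr : r < 2 ^ d) (hj : j = i + r)
    (H : jc1 x i d h j a b = true) : |(dig 80 x r : ℝ) - 2 ^ 78 + (a - b)| ≤ (h : ℝ) := by
  have h1 : an (Nat.ble i j) (Nat.ble (Nat.succ j) (Nat.add i (Nat.shiftLeft 1 d))) = true := by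
    rw [an_eq, Nat.ble_eq, Nat.ble_eq, Nat.add_eq, Nat.shiftLeft_eq', Nat.shiftLeft_eq, one_mul]
    omega
  rw [jc1, cb_eq, if_pos h1, hMk.2.2.2.2.1, Nat.sub_eq, show j - i = r by omega, jc2, an_eq,
    Nat.ble_eq, Nat.ble_eq] at H
  simp only [Nat.add_eq] at H
  obtain ⟨h2, h3⟩ := H
  have h4 : ((302231454903657293676544 + b : ℕ) : ℝ) ≤ (dig 80 x r + a + h : ℕ) := Nat.cast_le.2 h2
  have h5 : ((dig 80 x r + a : ℕ) : ℝ) ≤ (302231454903657293676544 + h + b : ℕ) := Nat.cast_le.2 h3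
  push_cast at h4 h5
  rw [abs_le]
  constructor <;> linarith

theorem aFt_jall (hMk : StMk) {x i d h r : ℕ} (hr : r < 2 ^ d) (H : jall x i d h = true) :
    ∀ n ∈ E0, ej n = i + r → |(dig 80 x r : ℝ) - 2 ^ 78 + 2 * Sf n| ≤ (h : ℝ) := by
  have kp : ∀ n o, jp x i d h n o = true → eo n = o → es n = 1 → ej n = i + r →
      |(dig 80 x r : ℝ) - 2 ^ 78 + 2 * Sf n| ≤ (h : ℝ) := by
    intro n o H1 ho hs hj
    have h1 := aFt_jc1 hMk hr hj H1
    rw [Sf, ho, hs]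
    rw [Nat.mul_eq] at h1
    push_cast at h1 ⊢
    rwa [sub_zero, ← one_mul (eS n o : ℝ)] at h1
  have km : ∀ n o, jm x i d h n o = true → eo n = o → es n = -1 → ej n = i + r →
      |(dig 80 x r : ℝ) - 2 ^ 78 + 2 * Sf n| ≤ (h : ℝ) := by
    intro n o H1 ho hs hj
    have h1 := aFt_jc1 hMk hr hj H1
    rw [Sf, ho, hs]
    rw [Nat.mul_eq] at h1
    push_cast at h1 ⊢
    rwa [show (0 : ℝ) - 2 * eS n o = 2 * (-1 * eS n o) by ring] at h1
  rw [jall] at H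
  simp only [an_eq] at H
  obtain ⟨h1, h2, h3, h4, h5, h6, h7, h8, h9, h10, h11⟩ := H
  intro n hn
  simp only [E0, Finset.mem_insert, Finset.mem_singleton] at hn
  rcases hn with rfl | rfl | rfl | rfl | rfl | rfl | rfl | rfl | rfl | rfl | rfl
  exacts [kp _ _ h1 rfl rfl, kp _ _ h2 rfl rfl, kp _ _ h3 rfl rfl, kp _ _ h4 rfl rfl,
    km _ _ h5 rfl rfl, km _ _ h6 rfl rfl, kp _ _ h7 rfl rfl, kp _ _ h8 rfl rfl,
    km _ _ h9 rfl rfl, kp _ _ h10 rfl rfl, kp _ _ h11 rfl rfl]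

theorem aFt_lane {x n c r : ℕ} (hx : ∀ r < n, dig 80 x r ≤ 2 ^ 79) (hc : c < 2 ^ 79) (hr : r < n) :
    dig 80 (x + ones 80 n * c) r = dig 80 x r + c := by
  have h1 := dig_ones (K := 80) (c := c) (by norm_num) (by omega) n
  rw [mul_comm, dig_add 80 n x _ (fun i hi => by
    rw [h1 i hi]
    have := hx i hi
    omega) r hr, h1 r hr]

theorem aFt_lf2 (hMk : StMk) {x i d h r : ℕ} (hx : ∀ r < 2 ^ d, dig 80 x r ≤ 2 ^ 79)
    (hh : h ≤ 1180591620717411303424) (hr : r < 2 ^ d)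
    (H : lf2 x i d h (ones 80 (2 ^ d)) = true) : |(dig 80 x r : ℝ) - 2 ^ 78| ≤ (h : ℝ) ∧
      ∀ n ∈ E0, ej n = i + r → |(dig 80 x r : ℝ) - 2 ^ 78 + 2 * Sf n| ≤ (h : ℝ) := by
  rw [lf2, an_eq, an_eq, Nat.beq_eq, Nat.beq_eq] at H
  obtain ⟨h1, h2, h3⟩ := H
  refine ⟨?_, aFt_jall hMk hr h3⟩
  simp only [Nat.add_eq, Nat.mul_eq, Nat.sub_eq, Nat.shiftLeft_eq', Nat.shiftLeft_eq,
    Nat.land_eq] at h1 h2
  have h4 := vec_lt (K := 80) (by norm_num) h1 r hr
  have h5 := vec_ge (K := 80) (by norm_num) h2 r hr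
  rw [aFt_lane hx (by omega) hr] at h4 h5
  have h6 : ((dig 80 x r : ℕ) : ℝ) ≤ (302231454903657293676544 + h : ℕ) := Nat.cast_le.2 (by omega)
  have h7 : ((302231454903657293676544 : ℕ) : ℝ) ≤ (dig 80 x r + h : ℕ) := Nat.cast_le.2 (by omega)
  push_cast at h6 h7
  rw [abs_le]
  constructor <;> linarith

theorem aFt_shr (a b : ℕ) : (Nat.shiftRight (Nat.mul a b) 40 : ℝ) ≤ a * b / 2 ^ 40 := by
  rw [Nat.shiftRight_eq, Nat.shiftRight_eq_div_pow, Nat.mul_eq]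
  have := Nat.cast_div_le (α := ℝ) (m := a * b) (n := 2 ^ 40)
  exact_mod_cast this

theorem stFt (hMk : StMk) (hRt : StRt) : StFt := by
  intro t
  induction t with
  | leaf v =>
    intro x i d u _ hu hx H r hr
    change lf1 v x i d u = true at H
    rw [lf1, an_eq, frc_eq, an_eq, Nat.ble_eq, Nat.ble_eq, hMk.1, Nat.shiftLeft_eq',
      Nat.shiftLeft_eq, one_mul] at H
    obtain ⟨h1, h2, h3⟩ := H
    have h4 := aFt_shr (Nat.sub 3811925987959829535 (Nat.mul v 59373627899904)) u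
    generalize Nat.shiftRight (Nat.mul (Nat.sub 3811925987959829535 (Nat.mul v 59373627899904)) u) 40
      = h at h2 h3 h4
    rw [Nat.sub_eq, Nat.cast_sub h1, Nat.mul_eq] at h4
    have h5 : ((Nat.mul v 59373627899904 : ℕ) : ℝ) ≤ (3811925987959829535 : ℕ) := Nat.cast_le.2 h1
    rw [Nat.mul_eq] at h5
    push_cast at h4 h5
    have h6 : (2 : ℝ) ^ ((i : ℝ) / 2 ^ 22) ≤ 2 ^ (((i + r : ℕ) : ℝ) / 2 ^ 22) := by
      refine Real.rpow_le_rpow_of_exponent_le (by norm_num) ?_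
      push_cast
      gcongr
      linarith [Nat.cast_nonneg (α := ℝ) r]
    have h7 : (h : ℝ) ≤ 27 * 2 ^ 57 * 2 ^ (((i + r : ℕ) : ℝ) / 2 ^ 22) * (0.97965 - (v : ℝ) / 2 ^ 16) := by
      have h8 : (u : ℝ) / 2 ^ 40 ≤ 2 ^ (((i + r : ℕ) : ℝ) / 2 ^ 22) := by linarith
      have h9 : (3811925987959829535 - v * 59373627899904 : ℝ) ≤
          27 * 2 ^ 57 * (0.97965 - (v : ℝ) / 2 ^ 16) := by linarith
      have h10 := mul_le_mul h9 h8 (by positivity) (by linarith)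
      linarith
    obtain ⟨h8, h9⟩ := aFt_lf2 hMk hx h2 hr h3
    exact ⟨h8.trans h7, fun n hn hj => (h9 n hn hj).trans h7⟩
  | node l s il ir =>
    intro x i d u hd hu hx H r hr
    rcases d with _ | e
    · exact absurd H Bool.false_ne_true
    change an (fin l (Nat.land x (Nat.sub (shl 1 (Nat.shiftLeft 1 e)) 1)) i e u)
      (fin s (shr x (Nat.shiftLeft 1 e)) (Nat.add i (Nat.shiftLeft 1 e)) e
        (Nat.shiftRight (Nat.mul u (rt e)) 40)) = true at H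
    rw [an_eq, Nat.shiftLeft_eq', Nat.shiftLeft_eq, one_mul, shl_eq, one_mul, Nat.sub_eq,
      hMk.2.2.2.1, shr_eq, Nat.add_eq] at H
    have hp : 2 ^ (e + 1) = 2 ^ e + 2 ^ e := by ring
    rw [Tb.val]
    split_ifs with h
    · have h1 := il _ i e u (by omega) hu
        (fun q hq => by rw [dig_mod 80 x _ q hq]; exact hx q (by omega)) H.1 r h
      rwa [dig_mod 80 x _ r h] at h1
    · obtain ⟨q, rfl⟩ := Nat.exists_eq_add_of_le (not_lt.1 h)
      have hu' : (Nat.shiftRight (Nat.mul u (rt e)) 40 : ℝ) ≤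
          2 ^ 40 * 2 ^ (((i + 2 ^ e : ℕ) : ℝ) / 2 ^ 22) := by
        refine (aFt_shr _ _).trans ?_
        have h2 := mul_le_mul hu (hRt e (by omega)).1 (by positivity) (by positivity)
        push_cast
        rw [add_div, Real.rpow_add (by norm_num)]
        linarith
      have h1 := ir _ _ e _ (by omega) hu'
        (fun q hq => by rw [dig_shift]; exact hx _ (by omega)) H.2 q (by omega)
      rw [Nat.add_sub_cancel_left]
      rwa [dig_shift, add_comm q, add_assoc] at h1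

end Pool.Agent.MP_88bd62_nt.U.A
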