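import Pool.Agent.MP_88bd62_nt.U.ASpec

/-! A list of nodes on the grid. -/

namespace Pool.Agent.MP_88bd62_nt.U.A

open Finset Real Polynomial
open Pool.Agent.MP_22d5c4_co.K (dig ones dig_lt)
open D (cn an PL cl flo fhi Tb)

noncomputable section

theorem aGrid_mono {P : ℤ[X]} {a b : ℝ} (h : L1 P a) (hab : a ≤ b) : L1 P b :=
  fun n => (h n).trans hab

theorem aGrid_vl_add (P Q : ℤ[X]) : vl (P + Q) = vl P + vl Q := eval_add

theorem aGrid_vl_sub (P Q : ℤ[X]) : vl (P - Q) = vl P - vl Q := eval_sub P Q _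

theorem aGrid_vl_X (m : ℕ) (P : ℤ[X]) : vl (X ^ m * P) = 2 ^ (80 * m) * vl P := by
  unfold vl
  rw [eval_mul, eval_pow, eval_X, pow_mul]

theorem aGrid_vl_C (c : ℤ) (P : ℤ[X]) : vl (C c * P) = c * vl P := by
  unfold vl
  rw [eval_mul, eval_C]

/-- One node. -/
theorem aGrid_node (hUni : StUni) (hNrm : StNrm) (hNd : StNd) (n L c w : ℕ) (h1 : 1 ≤ n)
    (hc : c ≤ 2 * n) (hL : (L : ℝ) ≤ 2 ^ 62 * logb 2 n) (hL' : 2 ^ 62 * logb 2 n ≤ L + 200000)
    (hw : w = c * 2 ^ 40) :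
    ∃ M : ℤ[X], (∀ j, 0 ≤ M.coeff j) ∧
      vl M = (ntp (Nat.add L 4194304) w : ℤ) * 2 ^ (80 * ncl (Nat.add L 4194304)) ∧
      L1 M (3 * 2 ^ 35 * min (c : ℝ) (2 * c / n)) ∧ ∀ k ∈ K20,
        ‖ev k M - 3 * 2 ^ 35 * kap k *
            ((-1) ^ Nat.shiftRight (Nat.add L 4194304) 62 * c * pw n k)‖ ≤
          3 * 2 ^ 35 * ‖kap k‖ * (c / n * nd (xi k)) + 5.5 + 10 * (c / n) := by
  obtain ⟨hn, hlt, -, hl1, hev⟩ := hNd n L w _ h1 hL hL' (by omega) rfl
  generalize Nat.shiftRight (Nat.add L 4194304) 62 = i at hn hl1 hev ⊢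
  generalize ntp (Nat.add L 4194304) w = y at hlt hl1 hev ⊢
  generalize ncl (Nat.add L 4194304) = m at hev ⊢
  have hr : (w : ℝ) / 2 ^ 40 = c := by
    rw [hw, Nat.cast_mul, Nat.cast_pow, Nat.cast_ofNat, mul_div_cancel_right₀]
    positivity
  have hz : (w : ℂ) / 2 ^ 40 = c := by
    rw [hw, Nat.cast_mul, Nat.cast_pow, Nat.cast_ofNat, mul_div_cancel_right₀]
    exact pow_ne_zero _ two_ne_zero
  rw [hr] at hl1
  rw [hr, hz] at hev
  have hn0 : (0 : ℝ) < n := by exact_mod_cast h1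
  have hc0 : (0 : ℝ) ≤ c := Nat.cast_nonneg c
  have hi : (1 : ℝ) ≤ 2 ^ i := one_le_pow₀ one_le_two
  have hn' : (n : ℝ) ≤ 2 * 2 ^ i := by
    rw [← pow_succ']
    exact_mod_cast hn.le
  have ha : (c : ℝ) / 2 ^ i ≤ c := div_le_self hc0 hi
  have hb : (c : ℝ) / 2 ^ i ≤ 2 * c / n := by
    rw [div_le_div_iff₀ (by positivity) hn0]
    exact (mul_le_mul_of_nonneg_left hn' hc0).trans_eq (by ring)
  refine ⟨X ^ m * tp 5 y 0, fun j => ?_, ?_, ?_, fun k hk => ?_⟩
  · rw [coeff_X_pow_mul']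
    split_ifs
    · rw [(hUni.2.2.1 5 y 0).1]
      split_ifs
      · rw [sub_zero]
        exact Nat.cast_nonneg _
      · exact le_rfl
    · exact le_rfl
  · rw [aGrid_vl_X, (hUni.2.2.1 5 y 0).2 hlt, zero_mul, sub_zero, mul_comm]
  · exact aGrid_mono (hNrm.2.1 _ _ m 0 hl1).1
      (mul_le_mul_of_nonneg_left (le_min ha hb) (by positivity))
  · have he : ev k (X ^ m * tp 5 y 0) = xk k ^ m * ev k (tp 5 y 0) := by
      unfold ev
      rw [map_mul, map_pow, aeval_X]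
    have h := hev k hk
    rw [he, show 3 * 2 ^ 35 * kap k * ((-1) ^ i * c * pw n k) =
      3 * 2 ^ 35 * (c : ℂ) * (-1) ^ i * kap k * pw n k by ring]
    refine h.trans ?_
    have : 2 * (c : ℝ) / n = 2 * (c / n) := mul_div_assoc _ _ _
    linarith

theorem aGrid_ind (hUni : StUni) (hNrm : StNrm) (hNd : StNd) (l : TL) (hl : l.ok 200000) :
    ∃ Pos Neg : ℤ[X], (∀ j, 0 ≤ Pos.coeff j) ∧ (∀ j, 0 ≤ Neg.coeff j) ∧
      (val (toP l) : ℤ) = vl Pos + 2 ^ 40 * vl Neg ∧ L1 (Pos + Neg) (3 * 2 ^ 35 * l.wt) ∧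
      ∀ k ∈ K20, ‖ev k (Pos - Neg) - 3 * 2 ^ 35 * kap k * l.vk k‖ ≤
        3 * 2 ^ 35 * ‖kap k‖ * (l.ms * nd (xi k)) + 5.5 * l.len + 10 * l.ms := by
  induction l with
  | nil =>
    refine ⟨0, 0, fun j => le_rfl, fun j => le_rfl, ?_, fun n => ?_, fun k _ => ?_⟩
    · show ((val .nil : ℕ) : ℤ) = _
      rw [val_nil]
      simp [vl]
    · simp [TL.wt]
    · simp [ev, TL.vk, TL.ms, TL.len]
  | cons n L c s t ih =>
    obtain ⟨⟨h1, hc, hL, hL'⟩, ht⟩ := hl
    obtain ⟨Pos, Neg, hP, hN, hv, hl1, hev⟩ := ih ht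
    obtain ⟨M, hM, hvM, hlM, heM⟩ := aGrid_node hUni hNrm hNd n L c (Nat.shiftLeft c 40) h1 hc hL hL'
      (Nat.shiftLeft_eq c 40)
    have hval : val (toP (.cons n L c s t)) =
        ntp (Nat.add L 4194304) (Nat.shiftLeft c 40) *
          2 ^ (40 * ((s + Nat.shiftRight (Nat.add L 4194304) 62) % 2)) *
          2 ^ (80 * ncl (Nat.add L 4194304)) + val (toP t) := by
      rw [← val_cons, ← Nat.shiftLeft_eq]
      rfl
    generalize Nat.shiftRight (Nat.add L 4194304) 62 = i at hval heM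
    generalize ntp (Nat.add L 4194304) (Nat.shiftLeft c 40) = y at hval hvM
    generalize ncl (Nat.add L 4194304) = m at hval hvM
    have hsum : L1 (M + (Pos + Neg)) (3 * 2 ^ 35 * TL.wt (.cons n L c s t)) :=
      aGrid_mono (hNrm.1 _ _ _ _ hlM hl1).1 (by rw [TL.wt, mul_add])
    have hfin (k : ℤ) (hk : k ∈ K20) (a : ℂ) (ha : ‖a‖ =
        ‖ev k M - 3 * 2 ^ 35 * kap k * ((-1) ^ i * c * pw n k)‖) :
        ‖a + (ev k (Pos - Neg) - 3 * 2 ^ 35 * kap k * t.vk k)‖ ≤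
          3 * 2 ^ 35 * ‖kap k‖ * (TL.ms (.cons n L c s t) * nd (xi k)) +
            5.5 * TL.len (.cons n L c s t) + 10 * TL.ms (.cons n L c s t) := by
      refine (norm_add_le _ _).trans ?_
      have h2 := heM k hk
      have h3 := hev k hk
      rw [ha, TL.ms, TL.len, Nat.cast_succ]
      linarith
    rcases Nat.mod_two_eq_zero_or_one (s + i) with h | h
    · have hs : (-1 : ℂ) ^ s = (-1) ^ i := by
        have h2 : Even (s + i) := Nat.even_iff.2 h
        rcases Nat.even_or_odd s with h3 | h3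
        · rw [h3.neg_one_pow, ((Nat.even_add.1 h2).1 h3).neg_one_pow]
        · have h4 : Odd i := by
            rw [← Nat.not_even_iff_odd] at h3 ⊢
            exact fun h5 => h3 ((Nat.even_add.1 h2).2 h5)
          rw [h3.neg_one_pow, h4.neg_one_pow]
      refine ⟨M + Pos, Neg, fun j => ?_, hN, ?_, by rwa [add_assoc], fun k hk => ?_⟩
      · rw [coeff_add]
        exact add_nonneg (hM j) (hP j)
      · rw [hval, h, aGrid_vl_add, hvM, Nat.cast_add, hv]
        push_cast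
        ring
      · refine le_of_eq_of_le ?_ (hfin k hk _ rfl)
        congr 1
        unfold ev
        rw [TL.vk, hs, map_sub, map_sub, map_add]
        ring
    · have hs : (-1 : ℂ) ^ s = -(-1) ^ i := by
        have h2 : Odd (s + i) := Nat.odd_iff.2 h
        rcases Nat.even_or_odd s with h3 | h3
        · rw [h3.neg_one_pow, ((Nat.odd_add'.1 h2).2 h3).neg_one_pow, neg_neg]
        · rw [h3.neg_one_pow, ((Nat.odd_add.1 h2).1 h3).neg_one_pow]
      refine ⟨Pos, M + Neg, hP, fun j => ?_, ?_, by rwa [add_left_comm], fun k hk => ?_⟩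
      · rw [coeff_add]
        exact add_nonneg (hM j) (hN j)
      · rw [hval, h, aGrid_vl_add, hvM, Nat.cast_add, hv]
        push_cast
        ring
      · refine le_of_eq_of_le ?_ (hfin k hk _ (norm_neg _))
        congr 1
        unfold ev
        rw [TL.vk, hs, map_sub, map_sub, map_add]
        ring

theorem aGrid_split (hUni : StUni) (Pos Neg : ℤ[X]) (g N : ℕ) (hP : ∀ j, 0 ≤ Pos.coeff j)
    (hN : ∀ j, 0 ≤ Neg.coeff j) (hb : ∀ j, Pos.coeff j + Neg.coeff j < 2 ^ 40)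
    (hv : (g : ℤ) = vl Pos + 2 ^ 40 * vl Neg) (hg : g < 2 ^ (80 * N)) :
    vl Pos = gp g (ones 80 N) ∧ vl Neg = gm g (ones 80 N) ∧
      ∀ j, N ≤ j → Pos.coeff j = 0 ∧ Neg.coeff j = 0 := by
  have hT : Pos + C (2 ^ 40) * Neg = tp N g 0 := by
    refine hUni.1 _ _ (fun j => ?_) ?_
    · rw [coeff_add, coeff_C_mul, (hUni.2.2.1 N g 0).1, abs_lt]
      have h1 := hP j
      have h2 := hN j
      have h3 := hb j
      have h4 : (dig 80 g j : ℤ) < 2 ^ 80 := by exact_mod_cast dig_lt 80 g j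
      have h5 : (0 : ℤ) ≤ dig 80 g j := Nat.cast_nonneg _
      split_ifs <;> constructor <;> linarith
    · rw [aGrid_vl_add, aGrid_vl_C, (hUni.2.2.1 N g 0).2 hg, zero_mul, sub_zero, hv]
  have hc (j : ℕ) : Pos.coeff j + 2 ^ 40 * Neg.coeff j =
      if j < N then (dig 80 g j : ℤ) - 0 else 0 := by
    rw [← (hUni.2.2.1 N g 0).1, ← hT, coeff_add, coeff_C_mul]
  have hz (j : ℕ) (hj : N ≤ j) : Pos.coeff j = 0 ∧ Neg.coeff j = 0 := by
    have h0 := hc j
    have h1 := hP j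
    have h2 := hN j
    rw [if_neg (not_lt.2 hj)] at h0
    constructor <;> linarith
  have key (s : ℕ) (hs : s + 40 ≤ 80) (R : ℤ[X]) (hR : ∀ j, N ≤ j → R.coeff j = 0)
      (hd : ∀ j < N, R.coeff j = ((dig 80 g j / 2 ^ s % 2 ^ 40 : ℕ) : ℤ)) :
      vl R = ((g >>> s) &&& (ones 80 N * (2 ^ 40 - 1)) : ℕ) := by
    obtain ⟨h1, h2⟩ := hUni.2.2.2.2.2.1 N g s 40 hs
    generalize (g >>> s) &&& (ones 80 N * (2 ^ 40 - 1)) = y at h1 h2 ⊢
    have h3 : R = tp N y 0 := by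
      ext j
      rw [(hUni.2.2.1 N y 0).1]
      split_ifs with hj
      · rw [h2 j hj, hd j hj, sub_zero]
      · exact hR j (not_lt.1 hj)
    rw [h3, (hUni.2.2.1 N y 0).2 h1, zero_mul, sub_zero]
  have he : (1099511627775 : ℕ) = 2 ^ 40 - 1 := by norm_num
  refine ⟨?_, ?_, hz⟩
  · have h := key 0 (by norm_num) Pos (fun j hj => (hz j hj).1) fun j hj => by
      have h0 := hc j
      have h1 := hP j
      have h2 := hN j
      have h3 := hb j
      rw [if_pos hj] at h0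
      generalize dig 80 g j = d at h0 ⊢
      omega
    rw [h, Nat.shiftRight_zero, ← he]
    rfl
  · have h := key 40 (by norm_num) Neg (fun j hj => (hz j hj).2) fun j hj => by
      have h0 := hc j
      have h1 := hP j
      have h2 := hN j
      have h3 := hb j
      rw [if_pos hj] at h0
      generalize dig 80 g j = d at h0 ⊢
      omega
    rw [h, ← he]
    rfl

theorem stGrid (hUni : StUni) (hNrm : StNrm) (hNd : StNd) : StGrid := by
  intro l N hl hw hg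
  obtain ⟨Pos, Neg, hP, hN, hv, hl1, hev⟩ := aGrid_ind hUni hNrm hNd l hl
  have hb (j : ℕ) : Pos.coeff j + Neg.coeff j < 2 ^ 40 := by
    have h := (hNrm.2.1 _ _ 0 0 hl1).2.2.2 j
    have h1 : (((Pos + Neg).coeff j : ℤ) : ℝ) < 2 ^ 40 := by
      refine (le_abs_self _).trans_lt (h.trans_lt ?_)
      linarith
    rw [← coeff_add]
    exact_mod_cast h1
  have hgv : grid l = val (toP l) := sc_eq 22 _
  obtain ⟨h1, h2, h3⟩ := aGrid_split hUni Pos Neg (grid l) N hP hN hb (by rw [hgv, hv]) hg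
  refine ⟨Pos - Neg, by rw [aGrid_vl_sub, h1, h2], fun j hj => ?_, fun n => ?_, hev⟩
  · rw [coeff_sub, (h3 j hj).1, (h3 j hj).2, sub_zero]
  · refine le_trans (sum_le_sum fun j _ => ?_) (hl1 n)
    have h4 := hP j
    have h5 := hN j
    have h6 : |(Pos - Neg).coeff j| ≤ |(Pos + Neg).coeff j| := by
      rw [coeff_sub, coeff_add, abs_of_nonneg (add_nonneg h4 h5), abs_le]
      constructor <;> linarith
    exact_mod_cast h6

end

end Pool.Agent.MP_88bd62_nt.U.A
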