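import Pool.Agent.MP_88bd62_nt.U.Stmts

namespace Pool.Agent.MP_88bd62_nt.U

open Finset Real

theorem xH_re (k : ℤ) : (sk k).re = 1 := by simp [sk]

theorem xH_two {k : ℤ} (hk : Odd k) : (2 : ℂ) ^ (-sk k) = -(1 / 2) := by
  have h0 : (log 2 : ℂ) ≠ 0 := Complex.ofReal_ne_zero.2 (log_pos one_lt_two).ne'
  have h1 : Complex.log 2 = (log 2 : ℝ) := by
    rw [Complex.ofReal_log zero_le_two, Complex.ofReal_ofNat]
  have h2 : Complex.log 2 * -sk k = -Complex.log 2 + ((-k : ℤ) : ℂ) * (π * Complex.I) := by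
    rw [h1, sk, tk]
    push_cast
    field_simp
    ring
  rw [Complex.cpow_def_of_ne_zero two_ne_zero, h2, Complex.exp_add, Complex.exp_neg,
    Complex.exp_log two_ne_zero, Complex.exp_int_mul, Complex.exp_pi_mul_I, hk.neg.neg_one_zpow]
  norm_num

theorem xH_loc {x : ℂ} {y : ℝ} (hx : ‖x‖ ≤ y) (hy : y ≤ 1 / 3) :
    exp (loc x).re ≤ (1 - 3 * y ^ 2 - 2 * y ^ 3)⁻¹ := by
  have h0 := norm_nonneg x
  have a1 : 1 + 2 * x ≠ 0 := Complex.slitPlane_ne_zero
    (Complex.mem_slitPlane_of_norm_lt_one (by rw [norm_mul]; simp; linarith))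
  have a2 : 1 - x ≠ 0 := by
    rw [sub_eq_add_neg]
    exact Complex.slitPlane_ne_zero
      (Complex.mem_slitPlane_of_norm_lt_one (by rw [norm_neg]; linarith))
  have e3 : Complex.exp (loc x) = (1 - (3 * x ^ 2 - 2 * x ^ 3))⁻¹ := by
    have e1 : (2 : ℂ) * Complex.log (1 - x) = Complex.log (1 - x) + Complex.log (1 - x) := by ring
    have e2 : 1 - (3 * x ^ 2 - 2 * x ^ 3) = (1 + 2 * x) * ((1 - x) * (1 - x)) := by ring
    rw [loc, Complex.exp_sub, Complex.exp_neg, e1, Complex.exp_add, Complex.exp_log a1,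
      Complex.exp_log a2, e2, mul_inv, div_eq_mul_inv]
  have h1 : ‖3 * x ^ 2 - 2 * x ^ 3‖ ≤ 3 * y ^ 2 + 2 * y ^ 3 := by
    refine (norm_sub_le _ _).trans ?_
    rw [norm_mul, norm_mul, norm_pow, norm_pow, Complex.norm_ofNat, Complex.norm_ofNat]
    gcongr
  have h2 := norm_sub_norm_le (1 : ℂ) (3 * x ^ 2 - 2 * x ^ 3)
  have h3 : y ^ 2 ≤ (1 / 3) ^ 2 := by gcongr; linarith
  have h4 : y ^ 3 ≤ (1 / 3) ^ 3 := by gcongr; linarith
  rw [norm_one] at h2
  rw [← Complex.norm_exp, e3, norm_inv]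
  exact inv_anti₀ (by linarith) (by linarith)

theorem xH_head {s : ℂ} (hs : 1 ≤ s.re) : exp (∑ n ∈ range 65, (ell n s).re) ≤ 2.3 := by
  have h1 : ∀ n ∈ range 65, exp (ell n s).re ≤
      if n.Prime ∧ n ≠ 2 then (1 - 3 * (1 / (n : ℝ)) ^ 2 - 2 * (1 / (n : ℝ)) ^ 3)⁻¹ else 1 := by
    intro n _
    unfold ell
    split_ifs with h
    · have h3 : 3 ≤ n := by have := h.1.two_le; omega
      have h3' : (3 : ℝ) ≤ n := by exact_mod_cast h3
      exact xH_loc (norm_cpow_le (by omega) hs) (by gcongr)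
    · simp
  rw [exp_sum]
  refine (prod_le_prod (fun n _ => (exp_pos _).le) h1).trans ?_
  have h2 : (range 65).filter (fun n => n.Prime ∧ n ≠ 2) =
      {3, 5, 7, 11, 13, 17, 19, 23, 29, 31, 37, 41, 43, 47, 53, 59, 61} := by decide +kernel
  rw [← prod_filter, h2]
  norm_num

theorem xH_lam (hS2 : StS2) {s : ℂ} (hs : 1 ≤ s.re) : exp (Lam s).re ≤ 2.35 := by
  obtain ⟨h1, h2⟩ := hS2 6 (by norm_num)
  have h3 := summable_ell hs
  have h4 : Summable fun n => (ell n s).re := (Complex.hasSum_re h3.hasSum).summable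
  have h5 : ∀ n, (ell (n + 65) s).re ≤ 3.4 * (if (n + 65).Coprime 210 ∧ 2 ^ 6 < n + 65 then
      1 / ((n + 65 : ℕ) : ℝ) ^ 2 else 0) := by
    intro n
    by_cases hp : (n + 65).Prime
    · have hc : (n + 65).Coprime 210 := (Nat.Prime.coprime_iff_not_dvd hp).2 fun hd => by
        have e : (210 : ℕ) = 2 * (3 * (5 * 7)) := by norm_num
        rw [e, hp.dvd_mul, hp.dvd_mul, hp.dvd_mul] at hd
        rcases hd with h | h | h | h <;> (have := Nat.le_of_dvd (by norm_num) h; omega)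
      rw [if_pos ⟨hc, by omega⟩]
      refine ((Complex.re_le_norm _).trans (norm_ell_le _ hs)).trans ?_
      have h6 : (65 : ℝ) ≤ ((n + 65 : ℕ) : ℝ) := by exact_mod_cast Nat.le_add_left 65 n
      generalize ((n + 65 : ℕ) : ℝ) = y at h6
      have h7 : 24 / y ^ 3 ≤ 0.4 / y ^ 2 := by
        rw [div_le_div_iff₀ (by positivity) (by positivity)]
        nlinarith [sq_nonneg y]
      have h8 : 3.4 * (1 / y ^ 2) = 3 / y ^ 2 + 0.4 / y ^ 2 := by ring
      linarith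
    · rw [ell, if_neg fun h => hp h.1, Complex.zero_re]
      split_ifs <;> positivity
  have h6 := ((summable_nat_add_iff 65).2 h4).tsum_le_tsum h5
    (((summable_nat_add_iff 65).2 h1).mul_left _)
  have h7 := h1.sum_add_tsum_nat_add 65
  have h8 : 0 ≤ ∑ n ∈ range 65, (if n.Coprime 210 ∧ 2 ^ 6 < n then 1 / (n : ℝ) ^ 2 else 0) :=
    sum_nonneg fun n _ => by split_ifs <;> positivity
  have h9 : S2 6 ≤ 0.0044 := by norm_num [S2]
  rw [tsum_mul_left] at h6
  have h10 : exp (∑' n, (ell (n + 65) s).re) ≤ 1.02 := by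
    refine (exp_le_exp.2 (show _ ≤ (0.015 : ℝ) by linarith)).trans ?_
    refine (exp_bound_div_one_sub_of_interval (by norm_num) (by norm_num)).trans (by norm_num)
  rw [Lam, Complex.re_tsum h3, ← h4.sum_add_tsum_nat_add 65, exp_add]
  refine (mul_le_mul (xH_head hs) h10 (exp_pos _).le (by norm_num)).trans (by norm_num)

theorem stH (hS2 : StS2) : StH := by
  intro k hk
  have hz := riemannZeta_ne_zero_of_one_le_re (xH_re k).ge
  refine ⟨hz, ?_⟩
  have h1 := xH_lam hS2 (xH_re k).ge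
  have h2 : ‖(1 : ℂ) - -(1 / 2)‖ = 3 / 2 := by
    rw [show (1 : ℂ) - -(1 / 2) = ((3 / 2 : ℝ) : ℂ) by push_cast; ring, Complex.norm_real]
    norm_num
  have h3 := norm_pos_iff.2 hz
  rw [FS, FF, norm_div, norm_pow, norm_mul, xH_two hk, h2, Complex.norm_exp, mul_pow, ← div_div]
  gcongr
  rw [div_le_iff₀ (by norm_num)]
  linarith

end Pool.Agent.MP_88bd62_nt.U
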