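import Pool.Agent.MP_88bd62_nt.U.AStm
import Pool.Agent.MP_88bd62_nt.U.H

/-! The Euler factors at the primes below `23`. -/

namespace Pool.Agent.MP_88bd62_nt.U.A

open Finset Real

theorem aHa_loc {x : ℂ} (hx : ‖x‖ ≤ 1 / 3) :
    Complex.exp (loc x) * (1 - 3 * x ^ 2 + 2 * x ^ 3) = 1 := by
  have a1 : 1 + 2 * x ≠ 0 := Complex.slitPlane_ne_zero
    (Complex.mem_slitPlane_of_norm_lt_one (by rw [norm_mul]; simp; linarith))
  have a2 : 1 - x ≠ 0 := by
    rw [sub_eq_add_neg]
    exact Complex.slitPlane_ne_zero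
      (Complex.mem_slitPlane_of_norm_lt_one (by rw [norm_neg]; linarith))
  have e1 : (2 : ℂ) * Complex.log (1 - x) = Complex.log (1 - x) + Complex.log (1 - x) := by ring
  have e2 : 1 - 3 * x ^ 2 + 2 * x ^ 3 = (1 + 2 * x) * ((1 - x) * (1 - x)) := by ring
  rw [loc, Complex.exp_sub, Complex.exp_neg, e1, Complex.exp_add, Complex.exp_log a1,
    Complex.exp_log a2, e2]
  field_simp

theorem aHa_set : (range 23).filter (fun n => n.Prime ∧ n ≠ 2) = {3, 5, 7, 11, 13, 17, 19} := by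
  decide +kernel

theorem aHa_mul (k : ℤ) : Complex.exp (∑ n ∈ range 23, ell n (sk k)) * DAv k = 1 := by
  have h1 : DAv k = ∏ n ∈ range 23,
      if n.Prime ∧ n ≠ 2 then 1 - 3 * pw n k ^ 2 + 2 * pw n k ^ 3 else 1 := by
    rw [← prod_filter, aHa_set, DAv]
    simp
  rw [h1, Complex.exp_sum, ← prod_mul_distrib]
  refine prod_eq_one fun n _ => ?_
  unfold ell
  split_ifs with h
  · have h3 : 3 ≤ n := by have := h.1.two_le; omega
    have h3' : (3 : ℝ) ≤ n := by exact_mod_cast h3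
    exact aHa_loc ((norm_cpow_le (by omega) (xH_re k).ge).trans (by gcongr))
  · simp

theorem aHa_head {s : ℂ} (hs : 1 ≤ s.re) : exp (∑ n ∈ range 23, (ell n s).re) ≤ 2.2341 := by
  have h1 : ∀ n ∈ range 23, exp (ell n s).re ≤
      if n.Prime ∧ n ≠ 2 then (1 - 3 * (1 / (n : ℝ)) ^ 2 - 2 * (1 / (n : ℝ)) ^ 3)⁻¹ else 1 := by
    intro n _
    unfold ell
    split_ifs with h
    · have h3 : 3 ≤ n := by have := h.1.two_le; omega
      have h3' : (3 : ℝ) ≤ n := by exact_mod_cast h3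
      exact xH_loc (norm_cpow_le (by omega) hs) (by gcongr)
    · simp
  rw [exp_sum]
  refine (prod_le_prod (fun n _ => (exp_pos _).le) h1).trans ?_
  rw [← prod_filter, aHa_set]
  norm_num

theorem aHa_split {s : ℂ} (hs : 1 ≤ s.re) :
    Lam s = ∑ n ∈ range 23, ell n s + ∑' n : ℕ, if 23 ≤ n then ell n s else 0 := by
  have h1 := summable_ell hs
  have h2 : Summable fun n : ℕ => if 23 ≤ n then ell n s else 0 := by
    rw [← summable_nat_add_iff 23]
    simpa using (summable_nat_add_iff 23).2 h1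
  rw [Lam, ← h1.sum_add_tsum_nat_add 23, ← h2.sum_add_tsum_nat_add 23]
  have h3 : ∑ n ∈ range 23, (if 23 ≤ n then ell n s else 0) = 0 :=
    sum_eq_zero fun n hn => if_neg (not_le.2 (mem_range.1 hn))
  rw [h3, zero_add]
  simp

theorem aHa_pw (k : ℤ) {n : ℕ} (hn : n ≠ 0) : (n : ℂ)⁻¹ * ee k (-th n) = pw n k := by
  have h0 : (log 2 : ℂ) ≠ 0 := Complex.ofReal_ne_zero.2 (log_pos one_lt_two).ne'
  have hn' : (n : ℂ) ≠ 0 := Nat.cast_ne_zero.2 hn
  rw [pw, Complex.cpow_def_of_ne_zero hn', ee]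
  have h2 : Complex.log n * -sk k =
      -Complex.log n + ((π * k * -th n : ℝ) : ℂ) * Complex.I := by
    rw [← Complex.natCast_log, sk, tk, th, logb]
    push_cast
    have h3 : Complex.log 2 ≠ 0 := by simpa using h0
    field_simp
    ring
  rw [h2, Complex.exp_add, Complex.exp_neg, Complex.exp_log hn']

theorem stHa (hH : StH) : StHa := by
  intro k hk
  have h1 := aHa_mul k
  have h2 : DAv k ≠ 0 := right_ne_zero_of_mul_eq_one h1
  have hz := (hH k hk).1
  refine ⟨h2, ?_, hz, ?_, ?_, ?_⟩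
  · rw [← eq_inv_of_mul_eq_one_left h1, Complex.norm_exp, Complex.re_sum]
    exact aHa_head (xH_re k).ge
  · rw [FS, FF, HB, xH_two hk]
    field_simp
    ring
  · rw [HB, aHa_split (xH_re k).ge, Complex.exp_add, mul_right_comm, h1, one_mul]
  · rw [Ser, tsum_eq_sum (s := E0) fun n hn => by simp [a1, hn]]
    refine sum_congr rfl fun n hn => ?_
    have hn0 : n ≠ 0 := by
      rintro rfl
      exact absurd hn (by decide)
    rw [← aHa_pw k hn0]
    push_cast
    ring

end Pool.Agent.MP_88bd62_nt.U.A
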