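import Pool.Agent.MP_88bd62_nt.U.AStm

/-! The Euler factor of the primes from `23` on and its second order approximation. -/

namespace Pool.Agent.MP_88bd62_nt.U.A

open Finset Real

noncomputable section

/-- The tail weight. -/
def aHb_g (j n : ℕ) : ℝ := if n.Coprime 210 ∧ 2 ^ j < n then 1 / (n : ℝ) ^ 2 else 0

lemma aHb_g_nonneg (j n : ℕ) : 0 ≤ aHb_g j n := by
  unfold aHb_g; split_ifs <;> positivity

lemma aHb_fin {E : Type} [NormedAddCommGroup E] (s : Finset ℕ) (f : ℕ → E) :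
    HasSum (fun n => if n ∈ s then f n else 0) (∑ n ∈ s, f n) := by
  have h := hasSum_sum_of_ne_finset_zero (L := SummationFilter.unconditional ℕ)
    (f := fun n => if n ∈ s then f n else 0) (s := s) (fun b hb => if_neg hb)
  rwa [sum_congr rfl (fun n hn => if_pos hn)] at h

lemma aHb_cop {n : ℕ} (hp : n.Prime) (h : 23 ≤ n) : n.Coprime 210 := by
  have e : (210 : ℕ) = 2 * 3 * 5 * 7 := by norm_num
  rw [e]
  refine Nat.Coprime.mul_right (Nat.Coprime.mul_right (Nat.Coprime.mul_right ?_ ?_) ?_) ?_ <;>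
    exact (Nat.coprime_primes hp (by norm_num)).2 (by omega)

lemma aHb_mem {n : ℕ} (hp : n.Prime) (h : 23 ≤ n) (m : ℕ) : n ∈ PP m ↔ n < m := by
  simp [PP, hp, h]

lemma aHb_tail {n : ℕ} (hp : n.Prime) (h : 23 ≤ n) (j e : ℕ) (hj : 2 ≤ j) (hn : ¬ n < 2 ^ j) :
    (1 / (n : ℝ)) ^ (2 + e) ≤ (1 / 2 ^ j) ^ e * aHb_g j n := by
  have hne : n ≠ 2 ^ j := by
    rintro rfl
    have := Nat.Prime.eq_one_of_pow hp
    omega
  have hlt : 2 ^ j < n := lt_of_le_of_ne (not_lt.1 hn) (Ne.symm hne)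
  have hR : (2 : ℝ) ^ j ≤ n := by exact_mod_cast hlt.le
  rw [aHb_g, if_pos ⟨aHb_cop hp h, hlt⟩, pow_add, mul_comm, one_div_pow (n : ℝ) 2]
  gcongr

lemma aHb_pw {n : ℕ} (hn : n ≠ 0) (k : ℤ) : ‖pw n k‖ ≤ 1 / n :=
  norm_cpow_le hn (by simp [sk])

lemma aHb_loc {v : ℂ} {y : ℝ} (hv : ‖v‖ ≤ y) (hy : y ≤ 1 / 23) :
    ‖loc v - (3 * v ^ 2 - 2 * v ^ 3 + 9 / 2 * v ^ 4)‖ ≤ 6.6 / 23 * y ^ 4 := by
  have h0 : 0 ≤ y := (norm_nonneg _).trans hv
  have h1 := norm_loc_sub hv (by linarith) 7 (by norm_num)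
  have h2 : locT 7 v = 3 * v ^ 2 - 2 * v ^ 3 + 9 / 2 * v ^ 4
      + (-6 * v ^ 5 + 11 * v ^ 6 + -18 * v ^ 7) := by
    simp only [locT, sum_range_succ, range_zero, sum_empty]
    push_cast
    ring
  have h3 : ‖-6 * v ^ 5 + 11 * v ^ 6 + -18 * v ^ 7‖ ≤ 6 * y ^ 5 + 11 * y ^ 6 + 18 * y ^ 7 := by
    refine norm_add₃_le.trans ?_
    simp only [norm_mul, norm_pow, norm_neg, Complex.norm_ofNat]
    gcongr
  have e : loc v - (3 * v ^ 2 - 2 * v ^ 3 + 9 / 2 * v ^ 4) =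
      (loc v - locT 7 v) + (-6 * v ^ 5 + 11 * v ^ 6 + -18 * v ^ 7) := by rw [h2]; ring
  rw [e]
  refine (norm_add_le _ _).trans ?_
  have y2 : y ^ 2 ≤ (1 / 23) ^ 2 := by gcongr
  have y3 : y ^ 3 ≤ (1 / 23) ^ 3 := by gcongr
  have y4 : y ^ 4 ≤ (1 / 23) ^ 4 := by gcongr
  have p4 : 0 ≤ y ^ 4 := by positivity
  have e2 : 3 * (2 * y) ^ (7 + 1) + (6 * y ^ 5 + 11 * y ^ 6 + 18 * y ^ 7) =
      (768 * y ^ 4 + 6 * y + 11 * y ^ 2 + 18 * y ^ 3) * y ^ 4 := by ring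
  have h4 : 768 * y ^ 4 + 6 * y + 11 * y ^ 2 + 18 * y ^ 3 ≤ 6.6 / 23 := by
    norm_num at y2 y3 y4 ⊢; linarith
  calc _ ≤ 3 * (2 * y) ^ (7 + 1) + (6 * y ^ 5 + 11 * y ^ 6 + 18 * y ^ 7) := add_le_add h1 h3
    _ = _ := e2
    _ ≤ _ := mul_le_mul_of_nonneg_right h4 p4

/-- The summand of the approximation. -/
def aHb_b (k : ℤ) (n : ℕ) : ℂ :=
  (if n ∈ PP (2 ^ 15) then 3 * pw n k ^ 2 else 0) - (if n ∈ PP 1024 then 2 * pw n k ^ 3 else 0)
    + (if n ∈ PP 128 then 9 / 2 * pw n k ^ 4 else 0)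

/-- The majorant of the difference. -/
def aHb_B (n : ℕ) : ℝ :=
  3 * aHb_g 15 n + 2 / 1024 * aHb_g 10 n + (9 / 2 + 6.6 / 23) / 128 ^ 2 * aHb_g 7 n
    + 6.6 / 23 * (2 / 9) * (if n ∈ PP 128 then 9 / 2 / (n : ℝ) ^ 4 else 0)

lemma aHb_B_nonneg (n : ℕ) : 0 ≤ aHb_B n := by
  have h1 := aHb_g_nonneg 15 n
  have h2 := aHb_g_nonneg 10 n
  have h3 := aHb_g_nonneg 7 n
  have h4 : 0 ≤ (if n ∈ PP 128 then 9 / 2 / (n : ℝ) ^ 4 else 0) := by split_ifs <;> positivity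
  unfold aHb_B
  positivity

lemma aHb_one {n : ℕ} (hp : n.Prime) (h : 23 ≤ n) (k : ℤ) (c : ℂ) (j e : ℕ) (hj : 2 ≤ j) :
    ‖c * pw n k ^ (2 + e) - (if n ∈ PP (2 ^ j) then c * pw n k ^ (2 + e) else 0)‖ ≤
      ‖c‖ * ((1 / 2 ^ j) ^ e * aHb_g j n) := by
  have hg := aHb_g_nonneg j n
  split_ifs with hm
  · rw [sub_self, norm_zero]; positivity
  · rw [aHb_mem hp h] at hm
    rw [sub_zero, norm_mul, norm_pow]
    have h1 := aHb_tail hp h j e hj hm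
    have h2 : ‖pw n k‖ ^ (2 + e) ≤ (1 / (n : ℝ)) ^ (2 + e) := by
      gcongr; exact aHb_pw (by omega) k
    exact mul_le_mul_of_nonneg_left (h2.trans h1) (norm_nonneg _)

lemma aHb_pt (k : ℤ) (n : ℕ) :
    ‖(if 23 ≤ n then ell n (sk k) else 0) - aHb_b k n‖ ≤ aHb_B n := by
  by_cases hh : n.Prime ∧ 23 ≤ n
  · obtain ⟨hp, h⟩ := hh
    have hR : (23 : ℝ) ≤ n := by exact_mod_cast h
    have e1 : ell n (sk k) = loc (pw n k) := by
      rw [ell, if_pos ⟨hp, by omega⟩, pw]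
    rw [if_pos h, e1]
    have t0 := aHb_loc (aHb_pw (n := n) (by omega) k) (by gcongr)
    have t1 := aHb_one hp h k 3 15 0 (by norm_num)
    have t2 := aHb_one hp h k 2 10 1 (by norm_num)
    have t3 := aHb_one hp h k (9 / 2) 7 2 (by norm_num)
    have t4 : (1 / (n : ℝ)) ^ 4 ≤ (1 / 2 ^ 7) ^ 2 * aHb_g 7 n
        + 2 / 9 * (if n ∈ PP 128 then 9 / 2 / (n : ℝ) ^ 4 else 0) := by
      have hg := aHb_g_nonneg 7 n
      split_ifs with hm
      · have : (1 / (n : ℝ)) ^ 4 = 2 / 9 * (9 / 2 / (n : ℝ) ^ 4) := by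
          rw [one_div_pow]; ring
        have h5 : (0 : ℝ) ≤ (1 / 2 ^ 7) ^ 2 * aHb_g 7 n := by positivity
        linarith
      · rw [aHb_mem hp h] at hm
        have := aHb_tail hp h 7 2 (by norm_num) (by simpa using hm)
        simpa using this
    have n3 : ‖(3 : ℂ)‖ = 3 := by simp
    have n2 : ‖(2 : ℂ)‖ = 2 := by simp
    have n9 : ‖(9 / 2 : ℂ)‖ = 9 / 2 := by simp
    rw [n3] at t1
    rw [n2, show (2 : ℕ) ^ 10 = 1024 by norm_num] at t2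
    rw [n9, show (2 : ℕ) ^ 7 = 128 by norm_num] at t3
    have e2 : loc (pw n k) - aHb_b k n =
        (loc (pw n k) - (3 * pw n k ^ 2 - 2 * pw n k ^ 3 + 9 / 2 * pw n k ^ 4))
        + ((3 * pw n k ^ (2 + 0) - (if n ∈ PP (2 ^ 15) then 3 * pw n k ^ (2 + 0) else 0))
        - (2 * pw n k ^ (2 + 1) - (if n ∈ PP 1024 then 2 * pw n k ^ (2 + 1) else 0))
        + (9 / 2 * pw n k ^ (2 + 2)
          - (if n ∈ PP 128 then 9 / 2 * pw n k ^ (2 + 2) else 0))) := by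
      rw [aHb_b]; ring
    rw [e2]
    refine (norm_add_le _ _).trans ?_
    refine (add_le_add t0 ((norm_add_le _ _).trans (add_le_add ((norm_sub_le _ _).trans
      (add_le_add t1 t2)) t3))).trans ?_
    rw [aHb_B]
    generalize (if n ∈ PP 128 then 9 / 2 / (n : ℝ) ^ 4 else 0) = w at t4 ⊢
    generalize (1 / (n : ℝ)) ^ 4 = z at t4 ⊢
    generalize aHb_g 7 n = g7 at t4 ⊢
    norm_num at t4 ⊢
    linarith
  · have hm : ∀ m, n ∉ PP m := fun m hm => hh (by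
      simp only [PP, mem_filter, mem_Ico] at hm; exact ⟨hm.2, hm.1.1⟩)
    have e1 : (if 23 ≤ n then ell n (sk k) else 0) = 0 := by
      split_ifs with h
      · rw [ell, if_neg (fun h' => hh ⟨h'.1, h⟩)]
      · rfl
    rw [e1, aHb_b, if_neg (hm _), if_neg (hm _), if_neg (hm _)]
    simpa using aHb_B_nonneg n

lemma aHb_gs (hS2 : StS2) (j : ℕ) (hj : 3 ≤ j) : ∃ g : ℝ, HasSum (aHb_g j) g ∧ g ≤ S2 j :=
  ⟨_, (hS2 j hj).1.hasSum, (hS2 j hj).2⟩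

lemma aHb_hb (k : ℤ) : HasSum (aHb_b k) (mu1 k) := by
  unfold aHb_b mu1
  generalize PP (2 ^ 15) = s
  generalize PP 1024 = t
  generalize PP 128 = u
  exact ((aHb_fin s fun p => 3 * pw p k ^ 2).sub (aHb_fin t fun p => 2 * pw p k ^ 3)).add
    (aHb_fin u fun p => 9 / 2 * pw p k ^ 4)

lemma aHb_hB (hPs : StPs) (hS2 : StS2) : ∃ g : ℝ, HasSum aHb_B g ∧ g ≤ 0.0000244 := by
  obtain ⟨g15, s15, b15⟩ := aHb_gs hS2 15 (by norm_num)
  obtain ⟨g10, s10, b10⟩ := aHb_gs hS2 10 (by norm_num)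
  obtain ⟨g7, s7, b7⟩ := aHb_gs hS2 7 (by norm_num)
  have b4 := hPs.2.2.2.2.1
  unfold aHb_B
  generalize PP 128 = u at b4 ⊢
  have s4 := aHb_fin u fun n => 9 / 2 / (n : ℝ) ^ 4
  generalize (∑ p ∈ u, 9 / 2 / (p : ℝ) ^ 4) = w at b4 s4
  refine ⟨_, (((s15.mul_left 3).add (s10.mul_left (2 / 1024))).add
      (s7.mul_left ((9 / 2 + 6.6 / 23) / 128 ^ 2))).add (s4.mul_left (6.6 / 23 * (2 / 9))), ?_⟩
  norm_num [S2] at b4 b15 b10 b7 ⊢
  linarith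

lemma aHb_diff (hPs : StPs) (hS2 : StS2) (k : ℤ) :
    ‖(∑' n : ℕ, if 23 ≤ n then ell n (sk k) else 0) - mu1 k‖ ≤ 0.0000244 := by
  have ha : Summable fun n : ℕ => if 23 ≤ n then ell n (sk k) else 0 := by
    refine Summable.of_norm_bounded (summable_ell (s := sk k) (by simp [sk])).norm fun n => ?_
    split_ifs <;> simp
  obtain ⟨g, hB, hg⟩ := aHb_hB hPs hS2
  have h1 := tsum_of_norm_bounded hB (aHb_pt k)
  rw [(ha.hasSum.sub (aHb_hb k)).tsum_eq] at h1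
  exact h1.trans hg

lemma aHb_sum (k : ℤ) (s : Finset ℕ) (hs : ∀ n ∈ s, n ≠ 0) (c : ℂ) (r : ℝ) (hc : ‖c‖ = r)
    (e : ℕ) : ‖∑ p ∈ s, c * pw p k ^ e‖ ≤ ∑ p ∈ s, r / (p : ℝ) ^ e := by
  refine norm_sum_le_of_le _ fun p hp => ?_
  rw [norm_mul, norm_pow, hc, div_eq_mul_one_div, ← one_div_pow]
  have : 0 ≤ r := hc ▸ norm_nonneg c
  gcongr
  exact aHb_pw (hs p hp) k

lemma aHb_split (f : ℕ → ℂ) (a b : ℕ) (hab : a ≤ b) :
    ∑ p ∈ PP b, f p = ∑ p ∈ PP a, f p + ∑ p ∈ (PP b).filter (a ≤ ·), f p := by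
  rw [← sum_filter_add_sum_filter_not (PP b) (a ≤ ·), add_comm]
  congr 1
  refine sum_congr ?_ fun _ _ => rfl
  ext p
  simp only [PP, mem_filter, mem_Ico]
  constructor
  · rintro ⟨⟨⟨h1, _⟩, h3⟩, h4⟩; exact ⟨⟨h1, by omega⟩, h3⟩
  · rintro ⟨⟨h1, h2⟩, h3⟩; exact ⟨⟨⟨h1, by omega⟩, h3⟩, by omega⟩

lemma aHb_ne (m : ℕ) : ∀ n ∈ PP m, n ≠ 0 := fun n hn => by
  simp only [PP, mem_filter, mem_Ico] at hn; omega

lemma aHb_mus (hPs : StPs) (k : ℤ) : ‖mus k‖ ≤ 0.030587 ∧ ‖mu1 k - mus k‖ ≤ 0.000909 := by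
  obtain ⟨b1, b2, b3, b4, b5, -⟩ := hPs
  have c1 := (aHb_sum k _ (aHb_ne 512) 3 3 (by simp) 2).trans b1
  have c2 := (aHb_sum k ((PP (2 ^ 15)).filter (512 ≤ ·))
    (fun n hn => aHb_ne _ n (mem_of_mem_filter n hn)) 3 3 (by simp) 2).trans b2
  have c3 := (aHb_sum k _ (aHb_ne 48) 2 2 (by simp) 3).trans b3
  have c4 := (aHb_sum k ((PP 1024).filter (48 ≤ ·))
    (fun n hn => aHb_ne _ n (mem_of_mem_filter n hn)) 2 2 (by simp) 3).trans b4
  have c5 := (aHb_sum k _ (aHb_ne 128) (9 / 2) (9 / 2) (by simp) 4).trans b5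
  constructor
  · exact (norm_sub_le _ _).trans ((add_le_add c1 c3).trans (by norm_num))
  · have e : mu1 k - mus k = ∑ p ∈ (PP (2 ^ 15)).filter (512 ≤ ·), 3 * pw p k ^ 2
        - ∑ p ∈ (PP 1024).filter (48 ≤ ·), 2 * pw p k ^ 3 + ∑ p ∈ PP 128, 9 / 2 * pw p k ^ 4 := by
      rw [mu1, mus, aHb_split _ 512 (2 ^ 15) (by norm_num), aHb_split _ 48 1024 (by norm_num)]
      ring
    rw [e]
    exact (norm_add_le _ _).trans
      ((add_le_add ((norm_sub_le _ _).trans (add_le_add c2 c4)) c5).trans (by norm_num))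

lemma aHb_exp {m : ℂ} (hm : ‖m‖ ≤ 0.031521) :
    ‖Complex.exp m - (1 + m + m ^ 2 / 2)‖ ≤ 0.0000053 := by
  have h1 := Complex.exp_bound (x := m) (by linarith) (n := 4) (by norm_num)
  have e : Complex.exp m - (1 + m + m ^ 2 / 2) =
      (Complex.exp m - ∑ i ∈ range 4, m ^ i / i.factorial) + m ^ 3 / 6 := by
    simp only [sum_range_succ, range_zero, sum_empty, Nat.factorial]
    push_cast
    ring
  rw [e]
  refine (norm_add_le _ _).trans ?_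
  have h3 : ‖m‖ ^ 3 ≤ 0.031521 ^ 3 := by gcongr
  have h4 : ‖m‖ ^ 4 ≤ 0.031521 ^ 4 := by gcongr
  have h5 : ‖m ^ 3 / 6‖ = ‖m‖ ^ 3 / 6 := by simp
  rw [h5]
  norm_num [Nat.factorial] at h1 h3 h4 ⊢
  linarith

theorem stHb (hHa : StHa) (hPs : StPs) (hS2 : StS2) : StHb := by
  intro k hk
  have hd := aHb_diff hPs hS2 k
  obtain ⟨hs, h1⟩ := aHb_mus hPs k
  rw [(hHa k hk).2.2.2.2.1, HBl]
  generalize (∑' n : ℕ, if 23 ≤ n then ell n (sk k) else 0) = m at hd ⊢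
  generalize mu1 k = a at hd h1 ⊢
  generalize mus k = b at hs h1 ⊢
  have h2 : ‖m - b‖ ≤ 0.0009334 := by
    have := norm_add_le (m - a) (a - b)
    rw [sub_add_sub_cancel] at this
    linarith
  have h3 : ‖m‖ ≤ 0.031521 := by
    have := norm_add_le (m - b) b
    rw [sub_add_cancel] at this
    linarith
  have h4 := aHb_exp h3
  have h5 : ‖m + b‖ ≤ 0.062108 := (norm_add_le _ _).trans (by linarith)
  have h6 : ‖(m - b) * (m + b) / 2‖ ≤ 0.0009334 * 0.062108 / 2 := by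
    rw [norm_div, norm_mul, Complex.norm_two]
    gcongr
  have h7 : ‖m ^ 2 / 2‖ ≤ 0.031521 ^ 2 / 2 := by
    rw [norm_div, norm_pow, Complex.norm_two]
    gcongr
  constructor
  · have e : Complex.exp m = (Complex.exp m - (1 + m + m ^ 2 / 2)) + (1 + m + m ^ 2 / 2) := by
      ring
    rw [e]
    refine (norm_add_le _ _).trans ?_
    have := norm_add₃_le (a := (1 : ℂ)) (b := m) (c := m ^ 2 / 2)
    rw [norm_one] at this
    norm_num at h7 h4 h3 this ⊢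
    linarith
  · have e : Complex.exp m - (1 + a + b ^ 2 / 2) =
        (Complex.exp m - (1 + m + m ^ 2 / 2)) + (m - a) + (m - b) * (m + b) / 2 := by ring
    rw [e]
    refine norm_add₃_le.trans ?_
    linarith

end

end Pool.Agent.MP_88bd62_nt.U.A
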