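import Pool.Agent.MP_88bd62_nt.U.AStm

/-! The inverse filter, the samples of the kernel and the explicit nodes. -/

namespace Pool.Agent.MP_88bd62_nt.U.A

open Finset Real Polynomial
open ArithmeticFunction (cardFactors)

noncomputable section

def aI_R : List ℤ :=
  [1, 0, 1, 1, 2, 1, -1, 1, -1, -2, 0, -1, 1, 2, 1, 0, 1, 2, 1, -1, 0, -2, -1, 1, -1, 1, 2, 1, 1,
  0, 1]

theorem aI_ev (x : ℂ) :
    aeval x (lp IL) * (1 + 4 * x + x ^ 2) - 6 * 2 ^ 26 * x ^ 15 = aeval x (lp aI_R) := by
  simp only [lp, IL, aI_R, List.foldr_cons, List.foldr_nil, map_add, map_mul, aeval_X,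
    map_zero, eq_intCast, map_intCast]
  push_cast
  ring

theorem aI_jt (i : ℕ) : jt i ≤ 2 ^ 38 := by
  unfold jt
  split_ifs with h
  · norm_num
  · generalize Nat.dist i 512 = d
    have h1 : d % 8 ≤ d := Nat.mod_le _ _
    have h2 : d % 8 < 8 := Nat.mod_lt _ (by norm_num)
    generalize d % 8 = r at h1 h2
    rcases Nat.eq_zero_or_pos r with rfl | hr
    · simp [jc]
    · refine (Nat.div_le_div_left (Nat.pow_le_pow_left h1 4) (by positivity)).trans ?_
      interval_cases r <;> simp [jc]

theorem aI_a (n k : ℕ) (hn : n ∈ E0) (ho : Odd n) (l : List ℕ) (hl : ∀ p ∈ l, p.Prime)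
    (hp : l.prod = n) (hk : l.length = k) : |a1 n| = 2 ^ k := by
  rw [a1, if_pos hn, fo, if_pos ho, ArithmeticFunction.cardFactors_apply,
    ← (Nat.primeFactorsList_unique hp hl).length_eq, hk, abs_pow]
  norm_num

theorem stI (hPar : StPar) (hUni : StUni) : StI := by
  have hl := hUni.2.2.2.2.2.2
  have e1 := aI_a 1 0 (by decide) (by decide) [] (by simp) rfl rfl
  have e2 := aI_a 3 1 (by decide) (by decide) [3] (by norm_num) rfl rfl
  have e3 := aI_a 13 1 (by decide) (by decide) [13] (by norm_num) rfl rfl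
  have e4 := aI_a 25 2 (by decide) (by decide) [5, 5] (by norm_num) rfl rfl
  have e5 := aI_a 27 3 (by decide) (by decide) [3, 3, 3] (by norm_num) rfl rfl
  have e6 := aI_a 49 2 (by decide) (by decide) [7, 7] (by norm_num) rfl rfl
  have e7 := aI_a 65 2 (by decide) (by decide) [5, 13] (by norm_num) rfl rfl
  have e8 := aI_a 391 2 (by decide) (by decide) [17, 23] (by norm_num) rfl rfl
  have e9 := aI_a 783 4 (by decide) (by decide) [3, 3, 3, 29] (by norm_num) rfl rfl
  have e10 := aI_a 1565 2 (by decide) (by decide) [5, 313] (by norm_num) rfl rfl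
  have e11 := aI_a 3129 3 (by decide) (by decide) [3, 7, 149] (by norm_num) rfl rfl
  refine ⟨fun n => ((hl IL).2.1 n).trans ?_, ⟨fun i hi => ?_, fun i => ?_⟩, fun k => ?_,
    ⟨fun i hi => ?_, fun i => ?_⟩, ?_, ?_⟩
  · have : (IL.map fun c => |c|).sum = 201326590 := by decide
    rw [this]
    norm_num
  · rw [(hl IL).2.2, List.getD_eq_default]
    exact hi
  · rw [(hl IL).2.2]
    have h : ∀ c ∈ (0 : ℤ) :: IL, |c| ≤ 2 ^ 27 := by decide
    have h' : IL.getD i 0 ∈ (0 : ℤ) :: IL := by
      rcases lt_or_ge i IL.length with hi | hi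
      · rw [List.getD_eq_getElem _ _ hi]
        exact List.mem_cons_of_mem _ (List.getElem_mem hi)
      · rw [List.getD_eq_default _ _ hi]
        exact List.mem_cons_self
    exact_mod_cast h _ h'
  · have h := hPar.1 _ _ k (hl aI_R).2.1
    have : (aI_R.map fun c => |c|).sum = 32 := by decide
    rw [this] at h
    rw [ev, aI_ev]
    exact_mod_cast h
  · rw [JT, finsetSum_coeff]
    refine sum_eq_zero fun j hj => ?_
    rw [coeff_monomial, if_neg]
    have := mem_range.1 hj
    omega
  · rw [JT, finsetSum_coeff]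
    simp only [coeff_monomial]
    rw [sum_ite_eq']
    split_ifs
    · rw [Int.cast_natCast, Nat.abs_cast]
      exact_mod_cast aI_jt i
    · simp
  · have h : ∀ n, |gE n| = |a1 n| * (1 / 2) ^ Nat.log 2 n := fun n => by
      rw [gE, abs_mul, abs_pow]
      norm_num
    simp only [h]
    rw [E0]
    simp only [sum_insert, mem_insert, mem_singleton, Nat.reduceEqDiff, or_self, not_false_eq_true,
      sum_singleton, OfNat.one_ne_ofNat, e1, e2, e3, e4, e5, e6, e7, e8, e9, e10, e11]
    norm_num
  · rw [E0]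
    simp only [sum_insert, mem_insert, mem_singleton, Nat.reduceEqDiff, or_self, not_false_eq_true,
      sum_singleton, OfNat.one_ne_ofNat, e1, e2, e3, e4, e5, e6, e7, e8, e9, e10, e11]
    norm_num

end

end Pool.Agent.MP_88bd62_nt.U.A
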