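import Pool.Agent.MP_88bd62_nt.U.ASpec

namespace Pool.Agent.MP_88bd62_nt.U.A

theorem aIsp_g {m k : ℕ} (h1 : k < m) (h2 : m < (k + 1) ^ 2) (h3 : 2 ≤ m) :
    Nat.gcd m k.factorial = 1 ↔ m.Prime := by
  constructor
  · intro h
    by_contra hp
    have h4 := Nat.minFac_sq_le_self (by omega) hp
    have h5 : m.minFac ≤ k := by
      by_contra h6
      have : (k + 1) ^ 2 ≤ m.minFac ^ 2 := Nat.pow_le_pow_left (by omega) 2
      omega
    have h7 := Nat.minFac_prime (show m ≠ 1 by omega)
    have h8 := Nat.dvd_gcd (Nat.minFac_dvd m) (h7.dvd_factorial.2 h5)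
    rw [h] at h8
    exact h7.one_lt.ne' (Nat.dvd_one.1 h8)
  · intro hp
    exact (Nat.Prime.coprime_iff_not_dvd hp).2 fun h => absurd (hp.dvd_factorial.1 h) (by omega)

theorem aIsp_e (m : ℕ) :
    isp m = Nat.beq (Nat.gcd m (D.cn (Nat.ble m 528) (Nat.factorial 22) (Nat.factorial 181))) 1 := by
  have h1 : Nat.factorial 22 = 1124000727777607680000 := by decide +kernel
  have h2 : Nat.factorial 181 = 0x2ad5274e58d079f9ccee804a65a0a779f8a4f525264fb1c037d898c016b3744daa4f6c61f6a02e2d896d776c78d0a55337730fe88caaf6fd6cd36101ccefe73de61fe132ec7ceda75289443fc8b30434dcea54f381a7b4acfd8ea4ba5d7412077b86ad1277f1122164d573bee80bfac768706b1b00000000000000000000000000000000000000000000 := by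
    decide +kernel
  rw [h1, h2, isp]

theorem stIsp : StIsp := by
  intro m h1 h2
  rw [aIsp_e, Nat.beq_eq, cn_eq]
  split_ifs with h
  · have := Nat.le_of_ble_eq_true h
    exact aIsp_g (by omega) (by omega) (by omega)
  · have : ¬ m ≤ 528 := fun h' => h (Nat.ble_eq_true_of_le h')
    exact aIsp_g (by omega) (by omega) (by omega)

end Pool.Agent.MP_88bd62_nt.U.A
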