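import Pool.Agent.MP_88bd62_nt.U.AStm
import Pool.Agent.MP_88bd62_nt.U.LP

/-! The Jackson weights as a convolution on the grid. -/

namespace Pool.Agent.MP_88bd62_nt.U.A

open Finset Real Polynomial

theorem aJ_orth (G : ℕ) (hG : 0 < G) (d : ℤ) (h0 : d ≠ 0) (hd : |d| < 2 * G) :
    ∑ i ∈ Ico (-(G : ℤ)) G, ee d ((i : ℝ) / G) = 0 := by
  have hG' : (G : ℝ) ≠ 0 := Nat.cast_ne_zero.2 hG.ne'
  have hGc : (G : ℂ) ≠ 0 := Nat.cast_ne_zero.2 hG.ne'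
  have h1 : ee d (1 / G) ≠ 1 := by
    unfold ee
    rw [Ne, Complex.exp_eq_one_iff]
    rintro ⟨n, hn⟩
    have hp : (π : ℂ) ≠ 0 := Complex.ofReal_ne_zero.2 pi_ne_zero
    push_cast at hn
    field_simp at hn
    have h2 : d = G * n * 2 := by exact_mod_cast hn
    have h3 : |d| = 2 * G * |n| := by
      rw [h2, abs_mul, abs_mul, abs_two, Nat.abs_cast]
      ring
    have h4 : 1 ≤ |n| := Int.one_le_abs fun e => h0 (by rw [h2, e]; ring)
    nlinarith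
  have h2 := Finset.sum_Ico_int_sub G fun i : ℤ => ee d ((i : ℝ) / G)
  have h3 : ∀ i : ℤ, ee d ((i : ℝ) / G) - ee d (((i + 1 : ℤ) : ℝ) / G) =
      (1 - ee d (1 / G)) * ee d ((i : ℝ) / G) := fun i => by
    rw [Int.cast_add, Int.cast_one, add_div, xLP_ee_add]
    ring
  have h4 : ee d (((-(G : ℤ) : ℤ) : ℝ) / G) = ee d ((((G : ℕ) : ℤ) : ℝ) / G) := by
    unfold ee
    rw [Complex.exp_eq_exp_iff_exists_int]
    refine ⟨-d, ?_⟩
    push_cast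
    field_simp
    ring
  simp only [h3] at h2
  rw [h4, sub_self, ← mul_sum] at h2
  exact (mul_eq_zero.1 h2).resolve_left (sub_ne_zero.2 h1.symm)

theorem aJ_inv (G N : ℕ) (hG : 0 < G) (hN : 2 * N ≤ G) (k : ℤ) (hk : |k| < G) :
    ∑ i ∈ Ico (-(G : ℤ)) G, (ker N ((i : ℝ) / G) : ℂ) * ee k (-((i : ℝ) / G)) =
      2 * G * (wk N k : ℂ) := by
  have h1 : ∀ (k' : ℤ) (v : ℝ), ee k' v * ee k (-v) = ee (k' - k) v := fun k' v => by
    unfold ee
    rw [← Complex.exp_add]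
    congr 1
    push_cast
    ring
  simp only [xLP_ker, sum_mul, mul_assoc, h1]
  rw [sum_comm]
  simp only [← mul_sum]
  rw [sum_eq_single k]
  · have h2 : ∀ v : ℝ, ee 0 v = 1 := fun v => by simp [ee]
    simp only [sub_self, h2]
    rw [sum_const, Int.card_Ico, nsmul_eq_mul, mul_one,
      show ((G : ℤ) - -(G : ℤ)).toNat = 2 * G by omega]
    push_cast
    ring
  · intro k' hk' hne
    rw [mem_Ioo] at hk'
    rw [abs_lt] at hk
    rw [aJ_orth G hG (k' - k) (sub_ne_zero.2 hne) (by rw [abs_lt]; omega), mul_zero]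
  · intro h
    rw [mem_Ioo, ← abs_lt, not_lt] at h
    rw [wk, if_pos h, Complex.ofReal_zero, zero_mul]

theorem aJ_w (hBas : StBas) (k : ℤ) (hk : k ∈ Kset (2 ^ 21)) :
    (wk (2 ^ 20) k : ℂ) = ∑ i ∈ Ico (-2 ^ 22 : ℤ) (2 ^ 22), (Jk i : ℂ) * xp k i := by
  have hk2 : |k| < ((2 ^ 22 : ℕ) : ℤ) := by
    rw [Kset, mem_filter, mem_Ioo, ← abs_lt] at hk
    exact hk.1.trans_eq (by norm_num)
  have h := aJ_inv (2 ^ 22) (2 ^ 20) (by norm_num) (by norm_num) k hk2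
  have e1 : ((2 ^ 22 : ℕ) : ℤ) = 2 ^ 22 := by norm_num
  have e2 : ((2 ^ 22 : ℕ) : ℝ) = 2 ^ 22 := by norm_num
  have e3 : 2 * ((2 ^ 22 : ℕ) : ℂ) = 2 ^ 23 := by norm_num
  rw [e1, e2, e3] at h
  have h2 : ∀ i : ℤ, (Jk i : ℂ) * xp k i =
      (ker (2 ^ 20) ((i : ℝ) / 2 ^ 22) : ℂ) * ee k (-((i : ℝ) / 2 ^ 22)) / 2 ^ 23 := fun i => by
    have h3 := hBas.2.2.2.2.2.1 k (-((i : ℝ) / 2 ^ 22))
    rw [show -(2 ^ 22 * -((i : ℝ) / 2 ^ 22)) = i by ring] at h3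
    have h4 : (((2 : ℝ) ^ ((i : ℝ) / 2 ^ 22) : ℝ) : ℂ) *
        (((2 : ℝ) ^ (-((i : ℝ) / 2 ^ 22)) : ℝ) : ℂ) = 1 := by
      rw [← Complex.ofReal_mul, ← rpow_add two_pos, add_neg_cancel, rpow_zero, Complex.ofReal_one]
    rw [← h3, Jk, Complex.ofReal_div, Complex.ofReal_mul, Complex.ofReal_pow,
      Complex.ofReal_ofNat]
    linear_combination (ker (2 ^ 20) ((i : ℝ) / 2 ^ 22) : ℂ) * ee k (-((i : ℝ) / 2 ^ 22))
      / 2 ^ 23 * h4
  rw [sum_congr rfl fun i _ => h2 i, ← sum_div, h, mul_div_cancel_left₀ _ (by norm_num)]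

theorem aJ_t (hBas : StBas) (k : ℤ) (S : Finset ℤ) (hS : ∀ i : ℤ, |i| ≤ 512 → i ∈ S) :
    ev k JT * xp k (-512) / 2 ^ 40 = ∑ i ∈ S,
      ((if |i| ≤ 512 then (jt (i + 512).toNat : ℝ) / 2 ^ 40 else 0 : ℝ) : ℂ) * xp k i := by
  have h1 : ∀ i : ℤ,
      ((if |i| ≤ 512 then (jt (i + 512).toNat : ℝ) / 2 ^ 40 else 0 : ℝ) : ℂ) * xp k i =
      if |i| ≤ 512 then (jt (i + 512).toNat : ℂ) * xp k i / 2 ^ 40 else 0 := fun i => by
    split_ifs
    · push_cast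
      ring
    · rw [Complex.ofReal_zero, zero_mul]
  rw [sum_congr rfl fun i _ => h1 i, ← sum_filter, ev, JT, map_sum, sum_mul, sum_div]
  refine sum_nbij' (fun j : ℕ => (j : ℤ) - 512) (fun i => (i + 512).toNat) ?_ ?_ ?_ ?_ ?_
  · intro j hj
    have h : |(j : ℤ) - 512| ≤ 512 := by
      have := mem_range.1 hj
      rw [abs_le]
      omega
    exact mem_filter.2 ⟨hS _ h, h⟩
  · intro i hi
    have := abs_le.1 (mem_filter.1 hi).2
    exact mem_range.2 (by omega)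
  · intro j _
    omega
  · intro i hi
    have := abs_le.1 (mem_filter.1 hi).2
    omega
  · intro j _
    rw [aeval_monomial, ← hBas.2.1, mul_assoc, ← hBas.1, sub_add_cancel, Int.toNat_natCast,
      eq_intCast, Int.cast_natCast, Int.cast_sub, Int.cast_natCast, Int.cast_ofNat, sub_eq_add_neg]

theorem aJ_lin (S : Finset ℤ) (c : ℤ → ℂ) (w φ : ℤ → ℂ) (m : ℤ)
    (h : ∀ k ∈ Kset (2 ^ 21), w k = ∑ i ∈ S, c i * xp k i) :
    cf (fun k => w k * φ k) m = ∑ i ∈ S, c i * cf (fun k => xp k i * φ k) m := by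
  unfold cf
  generalize Kset (2 ^ 21) = T at h
  simp only [← mul_div_assoc, mul_sum]
  rw [← sum_div, sum_comm]
  congr 1
  refine sum_congr rfl fun k hk => ?_
  rw [h k hk, sum_mul, sum_mul]
  exact sum_congr rfl fun i _ => by ring

theorem stJ (hBas : StBas) (hCf : StCf) (hJa : StJa) : StJ := by
  intro φ M m hM
  have hS : ∀ i : ℤ, |i| ≤ 512 → i ∈ Ico (-2 ^ 22 : ℤ) (2 ^ 22) := fun i hi => by
    rw [abs_le] at hi
    rw [mem_Ico]
    omega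
  have hS2 : ∀ i ∈ Ico (-2 ^ 22 : ℤ) (2 ^ 22), ‖cf φ (m - i)‖ ≤ M := fun i hi => by
    rw [mem_Ico] at hi
    exact hM _ (by omega)
  have h1 := aJ_lin _ _ _ φ m (aJ_w hBas)
  have h2 := aJ_lin _ _ _ φ m fun k _ => aJ_t hBas k _ hS
  unfold StJa at hJa
  generalize Ico (-2 ^ 22 : ℤ) (2 ^ 22) = S at hJa hS2 h1 h2
  rw [h1, h2, ← sum_sub_distrib]
  refine (norm_sum_le _ _).trans (le_trans ?_
    (mul_le_mul_of_nonneg_right hJa ((norm_nonneg _).trans (hM m (by omega)))))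
  rw [sum_mul]
  refine sum_le_sum fun i hi => ?_
  rw [← sub_mul, norm_mul, ← Complex.ofReal_sub, Complex.norm_real, norm_eq_abs, hCf.2.1]
  exact mul_le_mul_of_nonneg_left (hS2 i hi) (abs_nonneg _)

end Pool.Agent.MP_88bd62_nt.U.A
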