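import Pool.Agent.MP_88bd62_nt.U.Stmts

namespace Pool.Agent.MP_88bd62_nt.U

open Finset Real Filter Topology

theorem xKerA_cos (θ : ℝ) (M : ℕ) : cos (((M + 2 : ℕ) : ℝ) * θ) =
    2 * cos θ * cos (((M + 1 : ℕ) : ℝ) * θ) - cos (M * θ) := by
  have h1 : ((M + 2 : ℕ) : ℝ) * θ = ((M + 1 : ℕ) : ℝ) * θ + θ := by push_cast; ring
  have h2 : (M : ℝ) * θ = ((M + 1 : ℕ) : ℝ) * θ - θ := by push_cast; ring
  rw [h1, h2, cos_add, cos_sub]
  ring

noncomputable def xKerA_f (θ : ℝ) (M : ℕ) : ℝ := ∑ k ∈ range M, ((M : ℝ) - k) * cos (k * θ)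

noncomputable def xKerA_t (θ : ℝ) (M : ℕ) : ℝ := ∑ k ∈ range M, cub ((M : ℝ) - k) * cos (k * θ)

theorem xKerA_f_rec (θ : ℝ) (M : ℕ) : xKerA_f θ (M + 2) =
    2 * xKerA_f θ (M + 1) - xKerA_f θ M + cos (((M + 1 : ℕ) : ℝ) * θ) := by
  have h : ∑ k ∈ range M, (((M + 2 : ℕ) : ℝ) - k) * cos (k * θ) =
      2 * ∑ k ∈ range M, (((M + 1 : ℕ) : ℝ) - k) * cos (k * θ) -
        ∑ k ∈ range M, ((M : ℝ) - k) * cos (k * θ) := by
    rw [mul_sum, ← sum_sub_distrib]
    exact sum_congr rfl fun k _ => by push_cast; ring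
  simp only [xKerA_f, sum_range_succ, h]
  push_cast
  ring

theorem xKerA_t_rec (θ : ℝ) (M : ℕ) : xKerA_t θ (M + 2) =
    2 * xKerA_t θ (M + 1) - xKerA_t θ M + xKerA_f θ (M + 1) := by
  have h : ∑ k ∈ range M, cub (((M + 2 : ℕ) : ℝ) - k) * cos (k * θ) =
      2 * ∑ k ∈ range M, cub (((M + 1 : ℕ) : ℝ) - k) * cos (k * θ) -
        ∑ k ∈ range M, cub ((M : ℝ) - k) * cos (k * θ) +
        ∑ k ∈ range M, (((M + 1 : ℕ) : ℝ) - k) * cos (k * θ) := by
    rw [mul_sum, ← sum_sub_distrib, ← sum_add_distrib]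
    exact sum_congr rfl fun k _ => by unfold cub; push_cast; ring
  simp only [xKerA_t, xKerA_f, sum_range_succ, h]
  unfold cub
  push_cast
  ring

theorem xKerA_f_eq (θ : ℝ) (M : ℕ) : (2 - 2 * cos θ) * xKerA_f θ M =
    1 - cos (M * θ) + M * (1 - cos θ) := by
  induction M using Nat.twoStepInduction with
  | zero => simp [xKerA_f]
  | one => simp [xKerA_f]; ring
  | more M h0 h1 =>
    rw [xKerA_f_rec, xKerA_cos]
    push_cast at h1 ⊢
    linear_combination 2 * h1 - h0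

theorem xKerA_t_eq (θ : ℝ) (M : ℕ) : (2 - 2 * cos θ) ^ 2 * xKerA_t θ M =
    cos (M * θ) - 1 + M ^ 2 * (1 - cos θ) + (2 - 2 * cos θ) ^ 2 * cub M / 2 := by
  induction M using Nat.twoStepInduction with
  | zero => simp [xKerA_t, cub]
  | one => simp [xKerA_t, cub]
  | more M h0 h1 =>
    have h2 := xKerA_f_eq θ (M + 1)
    rw [xKerA_t_rec, xKerA_cos]
    unfold cub at h0 h1 ⊢
    push_cast at h1 h2 ⊢
    linear_combination 2 * h1 - h0 + (2 - 2 * cos θ) * h2

theorem xKerA_cN {N : ℕ} (hN : 1 ≤ N) : 0 < cN N := by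
  unfold cN
  positivity

theorem xKerA_w0 {N : ℕ} (hN : 1 ≤ N) : wk N 0 = 1 := by
  unfold wk
  rw [if_neg (by simp; omega), if_pos (by simp), div_eq_one_iff_eq (xKerA_cN hN).ne']
  unfold cub cN
  simp
  ring

theorem xKerA_ker {N : ℕ} (hN : 1 ≤ N) (y : ℝ) : cN N * ker N y =
    2 * (xKerA_t (π * y) (2 * N) - 4 * xKerA_t (π * y) N) - cN N := by
  have hc := (xKerA_cN hN).ne'
  obtain ⟨M, hM⟩ : ∃ M : ℕ, 2 * N = M + 1 := ⟨2 * N - 1, by omega⟩
  have h1 : Ioo (-(2 * N : ℤ)) (2 * N) = Icc (-(M : ℤ)) M := by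
    ext k
    simp only [mem_Ioo, mem_Icc]
    omega
  have h2 : Function.Even fun k : ℤ => wk N k * cos (π * k * y) := fun k => by
    simp [wk]
  have h3 : xKerA_t (π * y) N =
      ∑ k ∈ range (2 * N), (if k ≤ N then cub ((N : ℝ) - k) else 0) * cos (k * (π * y)) := by
    rw [xKerA_t, ← sum_subset (range_subset_range.2 (by omega : N ≤ 2 * N))]
    · exact sum_congr rfl fun k hk => by rw [if_pos (mem_range.1 hk).le]
    · intro k _ hk
      split_ifs with h
      · have : k = N := by simp at hk; omega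
        simp [this, cub]
      · simp
  rw [ker, h1, sum_Icc_of_even_eq_range h2, ← hM, h3, xKerA_t, xKerA_w0 hN, mul_sum,
    ← sum_sub_distrib]
  have h4 : ∀ k ∈ range (2 * N), cub (((2 * N : ℕ) : ℝ) - k) * cos (k * (π * y)) -
      4 * ((if k ≤ N then cub ((N : ℝ) - k) else 0) * cos (k * (π * y))) =
      cN N * (wk N k * cos (π * ((k : ℤ) : ℝ) * y)) := by
    intro k hk
    have hk' := mem_range.1 hk
    unfold wk
    have hk2 : ¬ 2 * (N : ℤ) ≤ |(k : ℤ)| := by rw [Nat.abs_cast]; omega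
    rw [if_neg hk2, show (k : ℝ) * (π * y) = π * k * y by ring]
    simp only [Int.cast_natCast, Nat.abs_cast, Nat.cast_le]
    push_cast
    split_ifs
    · field_simp
    · field_simp
      ring
  rw [sum_congr rfl h4, ← mul_sum]
  simp
  ring

theorem xKerA_closed {N : ℕ} (hN : 1 ≤ N) (y : ℝ) :
    sin (π / 2 * y) ^ 4 * (cN N * ker N y) = sin (N * (π / 2 * y)) ^ 4 := by
  have h1 := xKerA_t_eq (π * y) (2 * N)
  have h2 := xKerA_t_eq (π * y) N
  have h3 : cos (π * y) = 1 - 2 * sin (π / 2 * y) ^ 2 := by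
    rw [← cos_two_mul_eq_one_sub]
    congr 1
    ring
  have h4 : cos (N * (π * y)) = 1 - 2 * sin (N * (π / 2 * y)) ^ 2 := by
    rw [← cos_two_mul_eq_one_sub]
    congr 1
    ring
  have h5 : cos (((2 * N : ℕ) : ℝ) * (π * y)) = 2 * cos (N * (π * y)) ^ 2 - 1 := by
    rw [← cos_two_mul]
    congr 1
    push_cast
    ring
  rw [h5, h4, h3] at h1
  rw [h4, h3] at h2
  rw [xKerA_ker hN]
  unfold cub at h1 h2
  unfold cN
  push_cast at h1
  linear_combination (1 / 8) * h1 - (1 / 2) * h2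

theorem xKerA_sin (x : ℝ) (N : ℕ) : |sin (N * x)| ≤ N * |sin x| := by
  induction N with
  | zero => simp
  | succ N ih =>
    rw [Nat.cast_succ, add_mul, one_mul, sin_add, add_mul, one_mul]
    refine (abs_add_le _ _).trans (add_le_add ?_ ?_)
    · rw [abs_mul]
      exact (mul_le_of_le_one_right (abs_nonneg _) (abs_cos_le_one _)).trans ih
    · rw [abs_mul]
      exact mul_le_of_le_one_left (abs_nonneg _) (abs_cos_le_one _)

theorem xKerA_cont (N : ℕ) : Continuous (ker N) := by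
  unfold ker
  fun_prop

theorem xKerA_bd {N : ℕ} (hN : 1 ≤ N) (y : ℝ) : 0 ≤ ker N y ∧ ker N y ≤ 3 / 2 * N := by
  have hc := xKerA_cN hN
  have hd : Dense (Set.range fun n : ℤ => (2 * n : ℝ))ᶜ :=
    (Set.countable_range _).dense_compl ℝ
  refine hd.induction (P := fun y => 0 ≤ ker N y ∧ ker N y ≤ 3 / 2 * N) (fun y hy => ?_)
    ((isClosed_le continuous_const (xKerA_cont N)).inter
      (isClosed_le (xKerA_cont N) continuous_const)) y
  have hs : sin (π / 2 * y) ≠ 0 := fun h => by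
    obtain ⟨n, hn⟩ := sin_eq_zero_iff.1 h
    refine hy ⟨n, mul_left_cancel₀ pi_ne_zero ?_⟩
    linear_combination 2 * hn
  have h1 := xKerA_closed hN y
  have h2 : 0 < sin (π / 2 * y) ^ 4 := by positivity
  have h3 : sin (N * (π / 2 * y)) ^ 4 ≤ sin (π / 2 * y) ^ 4 * N ^ 4 := by
    have := pow_le_pow_left₀ (abs_nonneg _) (xKerA_sin (π / 2 * y) N) 4
    rwa [mul_pow, Even.pow_abs (by decide), Even.pow_abs (by decide), mul_comm ((N : ℝ) ^ 4)] at this
  constructor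
  · have h4 : 0 ≤ sin (π / 2 * y) ^ 4 * (cN N * ker N y) := by rw [h1]; positivity
    exact nonneg_of_mul_nonneg_right (nonneg_of_mul_nonneg_right h4 h2) hc
  · rw [← h1] at h3
    have h4 := le_of_mul_le_mul_left h3 h2
    refine le_of_mul_le_mul_left (h4.trans ?_) hc
    unfold cN
    have : (0 : ℝ) ≤ N := Nat.cast_nonneg N
    nlinarith [sq_nonneg (N : ℝ)]

theorem xKerA_int {N : ℕ} (hN : 1 ≤ N) : ∫ y in (0 : ℝ)..1, ker N y = 1 := by
  unfold ker
  rw [intervalIntegral.integral_finsetSum fun k _ => Continuous.intervalIntegrable (by fun_prop) _ _,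
    sum_eq_single 0]
  · simp [xKerA_w0 hN]
  · intro k _ hk
    have h1 : π * (k : ℝ) ≠ 0 := mul_ne_zero pi_ne_zero (by exact_mod_cast hk)
    rw [intervalIntegral.integral_const_mul, intervalIntegral.integral_comp_mul_left _ h1,
      integral_cos, mul_one, mul_comm π, sin_int_mul_pi]
    simp
  · intro h
    exact absurd (mem_Ioo.2 ⟨by omega, by omega⟩) h

theorem xKerA_pt {N : ℕ} (hN : 1 ≤ N) {y : ℝ} (h0 : 0 < y) (h1 : y ≤ 1) :
    ker N y ≤ 0.27 / (N ^ 3 * y ^ 4) + 4000 / (N : ℝ) ^ 3 := by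
  have hN0 : (0 : ℝ) < N := by exact_mod_cast hN
  have hk := (xKerA_bd hN y).1
  have h2 : sin (π / 2 * y) ^ 4 * (N ^ 3 * ker N y) ≤ 3 / 2 := by
    have h3 : sin (N * (π / 2 * y)) ^ 4 ≤ 1 := by
      rw [← Even.pow_abs (by decide)]
      exact pow_le_one₀ (abs_nonneg _) (abs_sin_le_one _)
    rw [← xKerA_closed hN y] at h3
    have h4 : (N : ℝ) ^ 3 ≤ 3 / 2 * cN N := by
      unfold cN
      nlinarith
    calc sin (π / 2 * y) ^ 4 * (N ^ 3 * ker N y)
        ≤ sin (π / 2 * y) ^ 4 * (3 / 2 * cN N * ker N y) := by gcongr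
      _ = 3 / 2 * (sin (π / 2 * y) ^ 4 * (cN N * ker N y)) := by ring
      _ ≤ 3 / 2 := by linarith
  have h5 : 0 ≤ (N : ℝ) ^ 3 * ker N y := by positivity
  rcases le_total y 0.14 with h | h
  · have h6 : 1.54 * y ≤ sin (π / 2 * y) := by
      refine le_trans ?_ (sin_ge_sub_cube (by positivity))
      have p1 := pi_gt_d2
      have p2 := pi_lt_d2
      have h7 : π / 2 * y ≤ 0.2205 := by nlinarith
      have h8 : 1.57 * y ≤ π / 2 * y := by nlinarith
      have h9 : 0 < π / 2 * y := by positivity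
      have h10 : (π / 2 * y) ^ 2 ≤ 0.2205 ^ 2 := by gcongr
      nlinarith
    have h7 : (1.54 * y) ^ 4 * (N ^ 3 * ker N y) ≤ 3 / 2 := le_trans (by gcongr) h2
    refine le_add_of_le_of_nonneg ?_ (by positivity)
    rw [le_div_iff₀ (by positivity)]
    have h8 : 0 ≤ y ^ 4 * (N ^ 3 * ker N y) := by positivity
    nlinarith
  · have h6 : 0.14 ≤ sin (π / 2 * y) := h.trans (le_sin_mul h0.le h1)
    have h7 : 0.14 ^ 4 * (N ^ 3 * ker N y) ≤ 3 / 2 := le_trans (by gcongr) h2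
    refine le_add_of_nonneg_of_le (by positivity) ?_
    rw [le_div_iff₀ (by positivity)]
    nlinarith

theorem stKerA : StKerA := by
  intro N hN
  refine ⟨xKerA_bd hN, xKerA_int hN, fun d hd hd1 => ?_⟩
  have hN0 : (0 : ℝ) < N := by exact_mod_cast hN
  have hpos : ∀ y ∈ Set.uIcc d 1, 0 < y := fun y hy => by
    rw [Set.uIcc_of_le hd1] at hy
    exact hd.trans_le hy.1
  have hi : IntervalIntegrable (fun y : ℝ => 0.27 / (N ^ 3 * y ^ 4) + 4000 / (N : ℝ) ^ 3)
      MeasureTheory.volume d 1 := by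
    refine ContinuousOn.intervalIntegrable (ContinuousOn.add (continuousOn_const.div
      (by fun_prop) fun y hy => ?_) continuousOn_const)
    have := hpos y hy
    positivity
  have hder : ∀ y ∈ Set.uIcc d 1, HasDerivAt
      (fun y : ℝ => -0.09 / N ^ 3 * (y ^ 3)⁻¹ + 4000 / (N : ℝ) ^ 3 * y)
      (0.27 / (N ^ 3 * y ^ 4) + 4000 / (N : ℝ) ^ 3) y := fun y hy => by
    have h0 := (hpos y hy).ne'
    refine ((((hasDerivAt_pow 3 y).fun_inv (pow_ne_zero 3 h0)).const_mul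
      (-0.09 / (N : ℝ) ^ 3)).fun_add
      ((hasDerivAt_id' y).const_mul (4000 / (N : ℝ) ^ 3))).congr_deriv ?_
    field_simp
    norm_num
    ring
  refine (intervalIntegral.integral_mono_on hd1 ((xKerA_cont N).intervalIntegrable _ _) hi
    fun y hy => xKerA_pt hN (hd.trans_le hy.1) hy.2).trans ?_
  rw [intervalIntegral.integral_eq_sub_of_hasDerivAt hder hi]
  have h1 : 0.09 / ((N : ℝ) * d) ^ 3 = 0.09 / N ^ 3 * (d ^ 3)⁻¹ := by field_simp
  have h2 : 0 ≤ 0.09 / (N : ℝ) ^ 3 := by positivity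
  have h3 : 0 ≤ 4000 / (N : ℝ) ^ 3 * d := by positivity
  rw [h1, one_pow, inv_one, neg_div]
  linarith

end Pool.Agent.MP_88bd62_nt.U
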