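import Pool.Agent.MP_88bd62_nt.U.AStm
import Pool.Agent.MP_88bd62_nt.U.KerA

namespace Pool.Agent.MP_88bd62_nt.U.A

open Finset Real

theorem aJa_f0 (M : ℕ) : xKerA_f 0 M = M * (M + 1) / 2 := by
  induction M using Nat.twoStepInduction with
  | zero => simp [xKerA_f]
  | one => simp [xKerA_f]
  | more M h0 h1 =>
    rw [xKerA_f_rec, h0, h1, mul_zero, cos_zero]
    push_cast
    ring

theorem aJa_t0 (M : ℕ) : xKerA_t 0 M = (M - 1) * M * (M + 1) * (M + 2) / 24 := by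
  induction M using Nat.twoStepInduction with
  | zero => simp [xKerA_t]
  | one => simp [xKerA_t, cub]
  | more M h0 h1 =>
    rw [xKerA_t_rec, h0, h1, aJa_f0]
    push_cast
    ring

theorem aJa_k0 {N : ℕ} (hN : 1 ≤ N) : cN N * ker N 0 = (N : ℝ) ^ 4 := by
  rw [xKerA_ker hN, mul_zero, aJa_t0, aJa_t0]
  unfold cN
  push_cast
  ring

theorem aJa_cN : cN (2 ^ 20) = (2 ^ 61 + 2 ^ 20) / 3 := by
  unfold cN
  push_cast
  norm_num

theorem aJa_zero : |Jk 0 - 3 / 16| ≤ 2 / 2 ^ 40 := by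
  have h := aJa_k0 (N := 2 ^ 20) (by norm_num)
  rw [aJa_cN] at h
  have h1 : Jk 0 = ker (2 ^ 20) 0 / 2 ^ 23 := by
    unfold Jk
    rw [Int.cast_zero, zero_div, rpow_zero, one_mul]
  rw [h1]
  generalize ker (2 ^ 20) 0 = K at h
  push_cast at h
  rw [abs_le]
  constructor <;> norm_num at h ⊢ <;> linarith

theorem aJa_P : 7.8842743715 ≤ 768 / π ^ 4 ∧ 768 / π ^ 4 ≤ 7.8842743716 := by
  have h1 : (3.14159265358979323846 : ℝ) ^ 4 ≤ π ^ 4 :=
    pow_le_pow_left₀ (by norm_num) pi_gt_d20.le 4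
  have h2 : π ^ 4 ≤ (3.14159265358979323847 : ℝ) ^ 4 :=
    pow_le_pow_left₀ pi_pos.le pi_lt_d20.le 4
  have h3 : 0 < π ^ 4 := by positivity
  rw [le_div_iff₀ h3, div_le_iff₀ h3]
  constructor <;> norm_num at h1 h2 ⊢ <;> linarith

theorem aJa_r : 1.41421356237 ≤ √2 ∧ √2 ≤ 1.41421356238 :=
  ⟨le_sqrt_of_sq_le (by norm_num), sqrt_le_iff.2 ⟨by norm_num, by norm_num⟩⟩

theorem aJa_box {s c a b : ℝ} (ha : 0 ≤ a) (h1 : a ≤ s) (h2 : s ≤ b)
    (h3 : c - 1 / 10 ^ 9 ≤ 7.8842743715 * a) (h4 : 7.8842743716 * b ≤ c + 1 / 10 ^ 9) :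
    |768 / π ^ 4 * s - c| ≤ 1 / 10 ^ 9 := by
  have h5 := mul_le_mul aJa_P.1 h1 ha (le_trans (by norm_num) aJa_P.1)
  have h6 := mul_le_mul aJa_P.2 h2 (ha.trans h1) (by norm_num)
  rw [abs_le]
  constructor <;> linarith

theorem aJa_sin (x : ℝ) : sin x ^ 4 = ((1 - cos (2 * x)) / 2) ^ 2 := by
  rw [show (1 - cos (2 * x)) / 2 = sin x ^ 2 by rw [sin_sq_eq_half_sub]; ring]
  ring

theorem aJa_lo {x : ℝ} (h : cos (2 * x) = √2 / 2) :
    |768 / π ^ 4 * sin x ^ 4 - 185917468868 / 2 ^ 40| ≤ 1 / 10 ^ 9 := by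
  have h2 : √2 ^ 2 = 2 := sq_sqrt (by norm_num)
  have e : sin x ^ 4 = (3 - 2 * √2) / 8 := by rw [aJa_sin, h]; linear_combination (1 / 16) * h2
  have := aJa_r
  exact aJa_box (a := 0.0214466094) (b := 0.02144660941) (by norm_num) (by rw [e]; linarith)
    (by rw [e]; linarith) (by norm_num) (by norm_num)

theorem aJa_hi {x : ℝ} (h : cos (2 * x) = -(√2 / 2)) :
    |768 / π ^ 4 * sin x ^ 4 - 6315721042242 / 2 ^ 40| ≤ 1 / 10 ^ 9 := by
  have h2 : √2 ^ 2 = 2 := sq_sqrt (by norm_num)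
  have e : sin x ^ 4 = (3 + 2 * √2) / 8 := by rw [aJa_sin, h]; linear_combination (1 / 16) * h2
  have := aJa_r
  exact aJa_box (a := 0.72855339059) (b := 0.7285533906) (by norm_num) (by rw [e]; linarith)
    (by rw [e]; linarith) (by norm_num) (by norm_num)

theorem aJa_md {x : ℝ} (h : cos (2 * x) = 0) :
    |768 / π ^ 4 * sin x ^ 4 - 2167212837036 / 2 ^ 40| ≤ 1 / 10 ^ 9 := by
  have e : sin x ^ 4 = 1 / 4 := by rw [aJa_sin, h]; norm_num
  exact aJa_box (a := 1 / 4) (b := 1 / 4) (by norm_num) e.ge e.le (by norm_num) (by norm_num)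

theorem aJa_s (n : ℕ) :
    |768 / π ^ 4 * sin (π * n / 8) ^ 4 - (jc (n % 8) : ℝ) / 2 ^ 40| ≤ 1 / 10 ^ 9 := by
  have h1 : π * n / 8 = π * (n % 8 : ℕ) / 8 + (n / 8 : ℕ) * π := by
    conv_lhs => rw [← Nat.mod_add_div n 8]
    push_cast
    ring
  have h2 : sin (π * n / 8) ^ 4 = sin (π * (n % 8 : ℕ) / 8) ^ 4 := by
    rw [h1, sin_add_nat_mul_pi, mul_pow, ← pow_mul, mul_comm (n / 8) 4, pow_mul]
    norm_num
  rw [h2]
  have h3 : n % 8 < 8 := Nat.mod_lt _ (by norm_num)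
  generalize n % 8 = r at h3
  interval_cases r <;> simp only [jc] <;> push_cast
  · simp
  · exact aJa_lo (by rw [← cos_pi_div_four]; congr 1; ring)
  · exact aJa_md (by rw [← cos_pi_div_two]; congr 1; ring)
  · exact aJa_hi (by rw [← cos_pi_div_four, ← cos_pi_sub]; congr 1; ring)
  · have e : sin (π * 4 / 8) ^ 4 = 1 := by
      rw [show π * 4 / 8 = π / 2 by ring, sin_pi_div_two, one_pow]
    exact aJa_box (a := 1) (b := 1) (by norm_num) e.ge e.le (by norm_num) (by norm_num)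
  · exact aJa_hi (by rw [← cos_pi_div_four, ← cos_add_pi]; congr 1; ring)
  · exact aJa_md (by
      rw [show 2 * (π * 6 / 8) = π / 2 + π by ring, cos_add_pi, cos_pi_div_two, neg_zero])
  · exact aJa_lo (by rw [← cos_pi_div_four, ← cos_two_pi_sub]; congr 1; ring)

theorem aJa_ker {i : ℤ} {n : ℕ} (hi : |i| = n) :
    sin (π * n / 2 ^ 23) ^ 4 * ((2 ^ 61 + 2 ^ 20) / 3 * ker (2 ^ 20) (i / 2 ^ 22)) =
      sin (π * n / 8) ^ 4 := by
  have h := xKerA_closed (N := 2 ^ 20) (by norm_num) ((i : ℝ) / 2 ^ 22)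
  rw [aJa_cN] at h
  have e1 : π / 2 * ((i : ℝ) / 2 ^ 22) = π * i / 2 ^ 23 := by ring
  have e2 : ((2 ^ 20 : ℕ) : ℝ) * (π * i / 2 ^ 23) = π * i / 8 := by push_cast; ring
  rw [e1, e2] at h
  generalize ker (2 ^ 20) ((i : ℝ) / 2 ^ 22) = K at h ⊢
  rcases abs_eq (Int.natCast_nonneg n) |>.1 hi with rfl | rfl
  · exact_mod_cast h
  · rw [Int.cast_neg, Int.cast_natCast, mul_neg, neg_div, neg_div, sin_neg, sin_neg,
      Even.neg_pow (by decide), Even.neg_pow (by decide)] at h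
    exact h

theorem aJa_abs {i : ℤ} {n : ℕ} (hi : |i| = n) : |(i : ℝ)| = n := by exact_mod_cast hi

theorem aJa_tail {i : ℤ} {n : ℕ} (hi : |i| = n) (h1 : 1 ≤ n) (h2 : (n : ℝ) ≤ 2 ^ 22) :
    |Jk i| ≤ 96 / (n : ℝ) ^ 4 := by
  have hn : (0 : ℝ) < n := by exact_mod_cast h1
  have hk := aJa_ker hi
  have h0 := (xKerA_bd (N := 2 ^ 20) (by norm_num) ((i : ℝ) / 2 ^ 22)).1
  have hE : (2 : ℝ) ^ ((i : ℝ) / 2 ^ 22) ≤ 2 := by
    refine (rpow_le_rpow_of_exponent_le (by norm_num) (?_ : (i : ℝ) / 2 ^ 22 ≤ 1)).trans (rpow_one 2).le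
    rw [div_le_one (by norm_num)]
    exact (le_abs_self _).trans ((aJa_abs hi).le.trans h2)
  have hE0 : (0 : ℝ) < 2 ^ ((i : ℝ) / 2 ^ 22) := by positivity
  unfold Jk
  generalize ker (2 ^ 20) ((i : ℝ) / 2 ^ 22) = K at hk h0
  generalize (2 : ℝ) ^ ((i : ℝ) / 2 ^ 22) = E at hE hE0
  have hs : (n : ℝ) / 2 ^ 22 ≤ sin (π * n / 2 ^ 23) := by
    have h := mul_le_sin (x := π * n / 2 ^ 23) (by positivity) (by
      have := pi_pos
      rw [div_le_div_iff₀ (by norm_num) (by norm_num)]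
      nlinarith)
    refine le_trans (le_of_eq ?_) h
    field_simp
  have hs4 := pow_le_pow_left₀ (by positivity) hs 4
  have h1' : sin (π * n / 8) ^ 4 ≤ 1 := by
    have := sin_sq_le_one (π * n / 8)
    have h' := sq_nonneg (sin (π * n / 8))
    nlinarith
  have h3 : ((n : ℝ) / 2 ^ 22) ^ 4 * (2 ^ 61 / 3 * K) ≤ 1 := by
    refine le_trans (mul_le_mul hs4 ?_ (by positivity) (by positivity)) (hk.le.trans h1')
    exact mul_le_mul_of_nonneg_right (by norm_num) h0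
  rw [abs_of_nonneg (by positivity), le_div_iff₀ (by positivity)]
  have h4 : K * (n : ℝ) ^ 4 ≤ 3 * 2 ^ 27 := by
    have e : ((n : ℝ) / 2 ^ 22) ^ 4 * (2 ^ 61 / 3 * K) = K * (n : ℝ) ^ 4 / (3 * 2 ^ 27) := by ring
    rwa [e, div_le_one (by norm_num)] at h3
  have h5 := mul_le_mul hE h4 (by positivity) (by norm_num)
  calc E * K / 2 ^ 23 * (n : ℝ) ^ 4 = E * (K * (n : ℝ) ^ 4) / 2 ^ 23 := by ring
    _ ≤ 2 * (3 * 2 ^ 27) / 2 ^ 23 := by gcongr
    _ = 96 := by norm_num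

theorem aJa_E {i : ℤ} {n : ℕ} (hi : |i| = n) (h2 : (n : ℝ) ≤ 512) :
    |(2 : ℝ) ^ ((i : ℝ) / 2 ^ 22) - 1| ≤ 0.000000166 * (n : ℝ) := by
  rw [rpow_def_of_pos (by norm_num)]
  have hn : (0 : ℝ) ≤ n := n.cast_nonneg
  have ht : |log 2 * ((i : ℝ) / 2 ^ 22)| ≤ 0.0000001653 * (n : ℝ) := by
    rw [abs_mul, abs_div, aJa_abs hi, abs_of_pos (log_pos one_lt_two),
      abs_of_pos (by norm_num : (0 : ℝ) < 2 ^ 22)]
    have := log_two_lt_d9
    calc log 2 * ((n : ℝ) / 2 ^ 22) ≤ 0.6931471808 * ((n : ℝ) / 2 ^ 22) := by gcongr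
      _ ≤ 0.0000001653 * (n : ℝ) := by linarith
  generalize log 2 * ((i : ℝ) / 2 ^ 22) = t at ht
  have ht1 : |t| ≤ 0.0001 := by linarith
  have h3 := abs_exp_sub_one_sub_id_le (x := t) (by linarith)
  have h4 : t ^ 2 ≤ 0.0001 * |t| := by
    rw [← sq_abs, sq]
    exact mul_le_mul_of_nonneg_right ht1 (abs_nonneg t)
  have h5 := abs_add_le (exp t - 1 - t) t
  rw [sub_add_cancel] at h5
  linarith

theorem aJa_q {x : ℝ} (h0 : 0 < x) (h1 : x ≤ 0.0002) :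
    0 < sin x ∧ 1 ≤ (x / sin x) ^ 4 ∧ (x / sin x) ^ 4 ≤ 1.00000003 := by
  have h2 := sin_gt_sub_cube h0
  have h3 : x ^ 3 ≤ 0.00000004 * x := by nlinarith [mul_pos h0 h0]
  have h4 : 0 < sin x := by linarith
  refine ⟨h4, one_le_pow₀ ((one_le_div h4).2 (sin_le h0.le)), ?_⟩
  have h5 : x / sin x ≤ 1.000000007 := by
    rw [div_le_iff₀ h4]
    linarith
  exact (pow_le_pow_left₀ (by positivity) h5 4).trans (by norm_num)

theorem aJa_mid {i : ℤ} {n : ℕ} (hi : |i| = n) (h1 : 1 ≤ n) (h2 : (n : ℝ) ≤ 512) :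
    |Jk i - 768 / π ^ 4 * sin (π * n / 8) ^ 4 / (n : ℝ) ^ 4| ≤
      0.00000021 * (768 / π ^ 4 * sin (π * n / 8) ^ 4) / (n : ℝ) ^ 3 := by
  have hn1 : (1 : ℝ) ≤ n := by exact_mod_cast h1
  have hn : (0 : ℝ) < n := by linarith
  have hk := aJa_ker hi
  have hE := aJa_E hi h2
  have hp := pi_pos
  obtain ⟨hs, hq1, hq2⟩ := aJa_q (x := π * n / 2 ^ 23) (by positivity) (by
    have := pi_lt_d2
    rw [div_le_iff₀ (by norm_num)]
    nlinarith)
  unfold Jk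
  generalize ker (2 ^ 20) ((i : ℝ) / 2 ^ 22) = K at hk
  generalize (2 : ℝ) ^ ((i : ℝ) / 2 ^ 22) = E at hE
  have hs0 : 0 ≤ sin (π * n / 8) ^ 4 := by positivity
  generalize sin (π * n / 8) ^ 4 = s at hk hs0
  generalize sin (π * n / 2 ^ 23) = σ at hk hs hq1 hq2
  obtain ⟨q, hq⟩ : ∃ q, q = (π * n / 2 ^ 23 / σ) ^ 4 := ⟨_, rfl⟩
  have e : E * K / 2 ^ 23 - 768 / π ^ 4 * s / (n : ℝ) ^ 4 =
      768 / π ^ 4 * s / (n : ℝ) ^ 4 * (E * (q * (2 ^ 41 / (2 ^ 41 + 1))) - 1) := by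
    rw [hq, ← hk]
    field_simp
    ring
  rw [← hq] at hq1 hq2
  have hr1 : 0.999999999999 ≤ q * (2 ^ 41 / (2 ^ 41 + 1)) := by linarith
  have hr2 : q * (2 ^ 41 / (2 ^ 41 + 1)) ≤ 1.00000003 := by linarith
  generalize q * (2 ^ 41 / (2 ^ 41 + 1)) = ρ at e hr1 hr2
  have h3 : |E * ρ - 1| ≤ 0.00000021 * (n : ℝ) := by
    have e2 : E * ρ - 1 = (E - 1) * ρ + (ρ - 1) := by ring
    have h4 : |(E - 1) * ρ| ≤ 0.000000166 * (n : ℝ) * 1.00000003 := by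
      rw [abs_mul, abs_of_pos (by linarith : 0 < ρ)]
      exact mul_le_mul hE hr2 (by linarith) (by positivity)
    have h5 : |ρ - 1| ≤ 0.00000003 := abs_le.2 ⟨by linarith, by linarith⟩
    have h6 := abs_add_le ((E - 1) * ρ) (ρ - 1)
    rw [e2]
    linarith
  rw [e, abs_mul, abs_of_nonneg (by positivity)]
  refine (mul_le_mul_of_nonneg_left h3 (by positivity)).trans (le_of_eq ?_)
  field_simp

theorem aJa_div (a b : ℕ) : ((a / b : ℕ) : ℝ) ≤ (a : ℝ) / b ∧ (a : ℝ) / b ≤ (a / b : ℕ) + 1 := by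
  refine ⟨Nat.cast_div_le, ?_⟩
  rw [← Nat.floor_div_eq_div (K := ℝ)]
  exact (Nat.lt_floor_add_one _).le

/-- integer bounds of the central terms -/
def aJa_nb (n : ℕ) : ℕ := (21 * jc (n % 8) + 220000000000) / (10 ^ 8 * n ^ 3) + 2

theorem aJa_nb_sum : ∑ n ∈ range 513, aJa_nb n ≤ 200000 := by decide +kernel

theorem aJa_cen {i : ℤ} {n : ℕ} (hi : |i| = n) (h2 : n ≤ 512) :
    |Jk i - (jt (i + 512).toNat : ℝ) / 2 ^ 40| ≤ (aJa_nb n : ℝ) / 2 ^ 40 := by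
  rcases Nat.eq_zero_or_pos n with rfl | h1
  · have h0 : i = 0 := by simpa using hi
    subst h0
    have e1 : (jt ((0 : ℤ) + 512).toNat : ℝ) / 2 ^ 40 = 3 / 16 := by
      have : jt ((0 : ℤ) + 512).toNat = 3 * 2 ^ 36 := by decide +kernel
      rw [this]
      norm_num
    have e2 : aJa_nb 0 = 2 := by decide +kernel
    rw [e1, e2]
    exact_mod_cast aJa_zero
  have hd : Nat.dist (i + 512).toNat 512 = n := by
    unfold Nat.dist
    rcases abs_eq (Int.natCast_nonneg n) |>.1 hi with rfl | rfl <;> omega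
  have hne : (i + 512).toNat ≠ 512 := fun h => by
    rw [h, Nat.dist_self] at hd
    omega
  have hm := aJa_mid hi h1 (by exact_mod_cast h2)
  have hs := aJa_s n
  rw [jt, if_neg hne, hd, aJa_nb]
  have d1 := aJa_div (jc (n % 8)) (n ^ 4)
  have d2 := (aJa_div (21 * jc (n % 8) + 220000000000) (10 ^ 8 * n ^ 3)).2
  generalize (21 * jc (n % 8) + 220000000000) / (10 ^ 8 * n ^ 3) = B at d2 ⊢
  generalize jc (n % 8) / n ^ 4 = J at d1 ⊢
  push_cast at d1 d2 ⊢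
  have hc0 : (0 : ℝ) ≤ jc (n % 8) := Nat.cast_nonneg _
  generalize (jc (n % 8) : ℝ) = c at hs d1 d2 hc0
  generalize 768 / π ^ 4 * sin (π * n / 8) ^ 4 = e at hm hs
  have hn1 : (1 : ℝ) ≤ n := by exact_mod_cast h1
  have hn : (0 : ℝ) < n := by linarith
  have h3 : |e / (n : ℝ) ^ 4 - c / (n : ℝ) ^ 4 / 2 ^ 40| ≤ 1 / 10 ^ 9 / (n : ℝ) ^ 3 := by
    rw [div_right_comm, ← sub_div, abs_div, abs_of_pos (by positivity : (0 : ℝ) < (n : ℝ) ^ 4)]
    exact div_le_div₀ (by norm_num) hs (by positivity) (pow_le_pow_right₀ hn1 (by norm_num))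
  have h4 : 0.00000021 * e / (n : ℝ) ^ 3 + 1 / 10 ^ 9 / (n : ℝ) ^ 3 ≤
      (21 * c + 220000000000) / (100000000 * (n : ℝ) ^ 3) / 2 ^ 40 := by
    have h5 := (abs_le.1 hs).2
    rw [← add_div, ← div_div, div_right_comm]
    refine div_le_div_of_nonneg_right ?_ (by positivity)
    linarith
  rw [abs_le] at hm h3 ⊢
  obtain ⟨d0, d1⟩ := d1
  generalize (21 * c + 220000000000) / (100000000 * (n : ℝ) ^ 3) = u at d2 h4
  generalize c / (n : ℝ) ^ 4 = v at d0 d1 h3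
  constructor <;> linarith [hm.1, hm.2, h3.1, h3.2]

/-- the bound of one term -/
noncomputable def aJa_b (n : ℕ) : ℝ :=
  if n ≤ 512 then (aJa_nb n : ℝ) / 2 ^ 40 else 96 / (n : ℝ) ^ 4

theorem aJa_b0 (n : ℕ) : 0 ≤ aJa_b n := by
  unfold aJa_b
  split_ifs <;> positivity

theorem aJa_sum (M : ℕ) (hM : 512 ≤ M) : ∑ n ∈ range (M + 1), aJa_b n ≤
    200000 / 2 ^ 40 + 32 / 512 ^ 3 - 32 / (M : ℝ) ^ 3 := by
  induction M, hM using Nat.le_induction with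
  | base =>
    have h1 : ∑ n ∈ range (512 + 1), aJa_b n = ((∑ n ∈ range 513, aJa_nb n : ℕ) : ℝ) / 2 ^ 40 := by
      rw [Nat.cast_sum, sum_div]
      exact sum_congr rfl fun n hn => if_pos (by have := mem_range.1 hn; omega)
    have h2 : ((∑ n ∈ range 513, aJa_nb n : ℕ) : ℝ) ≤ 200000 := by exact_mod_cast aJa_nb_sum
    rw [h1]
    generalize ((∑ n ∈ range 513, aJa_nb n : ℕ) : ℝ) = S at h2
    push_cast
    linarith
  | succ M hM ih =>
    rw [sum_range_succ, aJa_b, if_neg (by omega)]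
    have hm : (0 : ℝ) < M := by exact_mod_cast (by omega : 0 < M)
    have h : 96 / ((M : ℝ) + 1) ^ 4 ≤ 32 / (M : ℝ) ^ 3 - 32 / ((M : ℝ) + 1) ^ 3 := by
      rw [div_sub_div _ _ (by positivity) (by positivity), div_le_div_iff₀ (by positivity)
        (by positivity)]
      have e : (32 * ((M : ℝ) + 1) ^ 3 - (M : ℝ) ^ 3 * 32) * ((M : ℝ) + 1) ^ 4 -
          96 * ((M : ℝ) ^ 3 * ((M : ℝ) + 1) ^ 3) =
          32 * ((M : ℝ) + 1) ^ 3 * (6 * (M : ℝ) ^ 2 + 4 * M + 1) := by ring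
      have : 0 ≤ 32 * ((M : ℝ) + 1) ^ 3 * (6 * (M : ℝ) ^ 2 + 4 * M + 1) := by positivity
      linarith
    push_cast
    linarith

theorem aJa_main (M : ℕ) (hM : 512 ≤ M) (hM' : (M : ℝ) ≤ 2 ^ 22) : ∑ i ∈ Ico (-(M : ℤ)) M,
    |Jk i - if |i| ≤ 512 then (jt (i + 512).toNat : ℝ) / 2 ^ 40 else 0| ≤ 0.000001 := by
  have h1 : ∀ i ∈ Ico (-(M : ℤ)) M,
      |Jk i - if |i| ≤ 512 then (jt (i + 512).toNat : ℝ) / 2 ^ 40 else 0| ≤ aJa_b i.natAbs := by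
    intro i hi
    have hi' := mem_Ico.1 hi
    have hn : |i| = (i.natAbs : ℤ) := (Int.natCast_natAbs i).symm
    unfold aJa_b
    by_cases h : i.natAbs ≤ 512
    · rw [if_pos h, if_pos (by rw [hn]; omega)]
      exact aJa_cen hn h
    · rw [if_neg h, if_neg (by rw [hn]; omega), sub_zero]
      refine aJa_tail hn (by omega) (le_trans ?_ hM')
      exact_mod_cast (by omega : i.natAbs ≤ M)
  have h2 : ∑ i ∈ Ico (-(M : ℤ)) M, aJa_b i.natAbs ≤ ∑ i ∈ Icc (-(M : ℤ)) M, aJa_b i.natAbs :=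
    sum_le_sum_of_subset_of_nonneg Ico_subset_Icc_self fun i _ _ => aJa_b0 _
  have h3 : Function.Even fun i : ℤ => aJa_b i.natAbs := fun i => by simp
  rw [sum_Icc_of_even_eq_range h3] at h2
  simp only [Int.natAbs_natCast, Int.natAbs_zero, nsmul_eq_mul, Nat.cast_ofNat] at h2
  have h4 := aJa_sum M hM
  have h5 := aJa_b0 0
  have h6 : 0 ≤ 32 / (M : ℝ) ^ 3 := by positivity
  refine (sum_le_sum h1).trans (h2.trans ?_)
  generalize ∑ n ∈ range (M + 1), aJa_b n = S at h4 ⊢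
  norm_num at h4 ⊢
  linarith

theorem stJa : StJa := by
  have h := aJa_main (2 ^ 22) (by norm_num) (by norm_num)
  rw [Nat.cast_pow, Nat.cast_ofNat] at h
  exact h

end Pool.Agent.MP_88bd62_nt.U.A
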