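import Pool.Agent.MP_88bd62_nt.U.ASpec

/-! The final filter. -/

namespace Pool.Agent.MP_88bd62_nt.U.A

open Finset Real Polynomial
open Pool.Agent.MP_22d5c4_co.K (dig ones)

theorem aK_jt : jtv = ∑ i ∈ range 1025, jt i * (2 ^ 80) ^ i := by decide +kernel

theorem aK_il : IL.foldr (fun c v => c + 2 ^ 80 * v) 0 = (ilv : ℤ) := by decide +kernel

theorem aK_kx : (jtv : ℤ) * ilv = kx := by decide +kernel

theorem aK_vl (n : ℕ) (f : ℕ → ℕ) : vl (∑ i ∈ range n, monomial i (f i : ℤ)) =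
    ((∑ i ∈ range n, f i * (2 ^ 80) ^ i : ℕ) : ℤ) := by
  unfold vl
  rw [eval_finsetSum, Nat.cast_sum]
  refine sum_congr rfl fun i _ => ?_
  rw [eval_monomial, Nat.cast_mul, Nat.cast_pow, Nat.cast_pow, Nat.cast_ofNat]

theorem aK_mg (n : ℕ) : Nat.sub (shl 1 n) 1 = 2 ^ (80 * n) - 1 := by
  rw [shl_eq, one_mul, Nat.sub_eq]

theorem aK_main (hPar : StPar) (hMw : StMw) (n x : ℕ) (W : ℤ[X]) (c : ℝ) (hc : c ≤ 2 ^ 77)
    (h0 : ∀ i, n ≤ i → W.coeff i = 0) (h1 : ∀ i, |(W.coeff i : ℝ)| ≤ c) (hx : vl W = x)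
    (h : mwd x n (ones 80 n) (2 ^ (80 * n) - 1) 65 33 = true) :
    ∃ K : ℤ[X], vl K = mws x n (ones 80 n) (2 ^ (80 * n) - 1) 65 33 ∧ Sup K n (2 ^ 32) ∧
      ∃ e : ℤ[X], L1 e (n * (2 ^ 32 + 1)) ∧ 2 * W = C (2 ^ 33) * K + e := by
  obtain ⟨lo, hi, V, e, hW, hlo, hV, sV, se, vV, -⟩ := hMw W n x 65 33 c
    ⟨fun i hi => h0 i (by omega), h1⟩ hc hx (by norm_num) (by norm_num) (by norm_num) h
  have hhi : hi = 0 := by
    ext j
    have := h0 (j + n) (by omega)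
    rwa [hW, coeff_add, hlo.1 _ (by omega), coeff_X_pow_mul, zero_add] at this
  rw [hhi, mul_zero, add_zero] at hW
  rw [hhi, sub_zero, ← hW] at hV
  exact ⟨V, vV, sV, e, hPar.2.1 e n _ se, hV⟩

theorem stK (hI : StI) (hPar : StPar) (hUni : StUni) (hNrm : StNrm) (hMk : StMk) (hMw : StMw) :
    StK := by
  intro h
  rw [hMk.1, aK_mg] at h
  obtain ⟨i1, i2, -, i3, -⟩ := hI
  have hS := hNrm.2.2.1 (lp IL) JT _ _ 29 1025 i1 i2.1 i3
  have hx : vl (JT * lp IL) = kx := by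
    have e1 : vl JT = jtv := by
      rw [aK_jt]
      exact aK_vl 1025 jt
    have e2 : vl (lp IL) = ilv := (hUni.2.2.2.2.2.2 IL).1.trans aK_il
    have e3 : vl (JT * lp IL) = vl JT * vl (lp IL) := eval_mul
    rw [e3, e1, e2]
    exact aK_kx
  have h0 : ∀ i, 1053 ≤ i → (JT * lp IL).coeff i = 0 := by
    intro i hi
    rw [coeff_mul]
    refine sum_eq_zero fun p hp => ?_
    have := Finset.HasAntidiagonal.mem_antidiagonal.1 hp
    by_cases h1 : 1025 ≤ p.1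
    · rw [i3.1 _ h1, zero_mul]
    · rw [i2.1 _ (by omega), mul_zero]
  obtain ⟨K, k1, k2, e, k3, k4⟩ := aK_main hPar hMw 1053 kx (JT * lp IL) (3 * 2 ^ 26 * 2 ^ 38)
    (by norm_num) h0
    (fun i => by rw [mul_comm JT]; exact hS.2 i) hx h
  refine ⟨K, ?_, k2, e, by exact_mod_cast k3, by rw [mul_assoc]; exact k4⟩
  rw [k1, ← hMk.1, ← aK_mg, kv]

end Pool.Agent.MP_88bd62_nt.U.A
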