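import Pool.Agent.MP_88bd62_nt.U.ASpec

/-! The list of the terms of the finite Euler product. -/

namespace Pool.Agent.MP_88bd62_nt.U.A

open Finset Real

noncomputable section

theorem aLD_nil (n L c s : ℕ) (t : TL) : dal [] n L c s t = TL.cons n L c s t := rfl

theorem aLD_cons (p : ℕ) (ps : List ℕ) (n L c s : ℕ) (t : TL) :
    dal (p :: ps) n L c s t = dal ps n L c s (dal ps (n * p ^ 2) (L + 2 * lgn p) (3 * c) (s + 1)
      (dal ps (n * p ^ 3) (L + 3 * lgn p) (2 * c) s t)) := rfl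

theorem aLD_pw_mul (a b : ℕ) (k : ℤ) : pw (a * b) k = pw a k * pw b k := by
  unfold pw
  rw [Nat.cast_mul, Complex.natCast_mul_natCast_cpow]

theorem aLD_pw_one (k : ℤ) : pw 1 k = 1 := by
  unfold pw
  rw [Nat.cast_one, Complex.one_cpow]

theorem aLD_vk (k : ℤ) (ps : List ℕ) : ∀ (n L c s : ℕ) (t : TL), (dal ps n L c s t).vk k =
    (-1) ^ s * c * pw n k * (ps.map fun p => 1 - 3 * pw p k ^ 2 + 2 * pw p k ^ 3).prod + t.vk k := by
  induction ps with
  | nil => intro n L c s t; rw [aLD_nil]; simp [TL.vk]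
  | cons p ps ih =>
    intro n L c s t
    have h2 : pw (n * p ^ 2) k = pw n k * pw p k ^ 2 := by
      rw [aLD_pw_mul, pow_two, aLD_pw_mul, pow_two]
    have h3 : pw (n * p ^ 3) k = pw n k * pw p k ^ 3 := by
      rw [aLD_pw_mul, pow_three, aLD_pw_mul, aLD_pw_mul, pow_three]
    rw [aLD_cons, ih, ih, ih, h2, h3, List.map_cons, List.prod_cons]
    push_cast
    ring

/-- The product of the absolute values. -/
def aLD_P (ps : List ℕ) : ℝ := (ps.map fun p : ℕ => 1 + 3 / (p : ℝ) ^ 2 + 2 / (p : ℝ) ^ 3).prod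

theorem aLD_P_cons (p : ℕ) (ps : List ℕ) :
    aLD_P (p :: ps) = (1 + 3 / (p : ℝ) ^ 2 + 2 / (p : ℝ) ^ 3) * aLD_P ps := by
  unfold aLD_P
  rw [List.map_cons, List.prod_cons]

theorem aLD_ms (ps : List ℕ) : ∀ (n L c s : ℕ) (t : TL),
    (dal ps n L c s t).ms = c / n * aLD_P ps + t.ms := by
  induction ps with
  | nil => intro n L c s t; rw [aLD_nil]; simp [TL.ms, aLD_P]
  | cons p ps ih =>
    intro n L c s t
    rw [aLD_cons, ih, ih, ih, aLD_P_cons]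
    push_cast
    ring

theorem aLD_wt (ps : List ℕ) : ∀ (n L c s : ℕ) (t : TL),
    (dal ps n L c s t).wt ≤ min (c : ℝ) (2 * c / n) + 2 * (c / n) * (aLD_P ps - 1) + t.wt := by
  induction ps with
  | nil => intro n L c s t; rw [aLD_nil]; simp [TL.wt, aLD_P]
  | cons p ps ih =>
    intro n L c s t
    rw [aLD_cons, aLD_P_cons]
    have h1 := ih n L c s (dal ps (n * p ^ 2) (L + 2 * lgn p) (3 * c) (s + 1)
      (dal ps (n * p ^ 3) (L + 3 * lgn p) (2 * c) s t))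
    have h2 := ih (n * p ^ 2) (L + 2 * lgn p) (3 * c) (s + 1)
      (dal ps (n * p ^ 3) (L + 3 * lgn p) (2 * c) s t)
    have h3 := ih (n * p ^ 3) (L + 3 * lgn p) (2 * c) s t
    have m2 := min_le_right (((3 * c : ℕ) : ℝ)) (2 * ((3 * c : ℕ) : ℝ) / ((n * p ^ 2 : ℕ) : ℝ))
    have m3 := min_le_right (((2 * c : ℕ) : ℝ)) (2 * ((2 * c : ℕ) : ℝ) / ((n * p ^ 3 : ℕ) : ℝ))
    have e : 2 * ((c : ℝ) / n) * (aLD_P ps - 1)
        + (2 * ((3 * c : ℕ) : ℝ) / ((n * p ^ 2 : ℕ) : ℝ)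
          + 2 * (((3 * c : ℕ) : ℝ) / ((n * p ^ 2 : ℕ) : ℝ)) * (aLD_P ps - 1))
        + (2 * ((2 * c : ℕ) : ℝ) / ((n * p ^ 3 : ℕ) : ℝ)
          + 2 * (((2 * c : ℕ) : ℝ) / ((n * p ^ 3 : ℕ) : ℝ)) * (aLD_P ps - 1)) =
        2 * ((c : ℝ) / n) * ((1 + 3 / (p : ℝ) ^ 2 + 2 / (p : ℝ) ^ 3) * aLD_P ps - 1) := by
      push_cast
      ring
    linarith

theorem aLD_len (ps : List ℕ) : ∀ (n L c s : ℕ) (t : TL),
    (dal ps n L c s t).len = 3 ^ ps.length + t.len := by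
  induction ps with
  | nil => intro n L c s t; rw [aLD_nil]; simp [TL.len, add_comm]
  | cons p ps ih =>
    intro n L c s t
    rw [aLD_cons, ih, ih, ih, List.length_cons]
    ring

theorem aLD_ok (hLg : StLg) (δ : ℝ) (ps : List ℕ) : (∀ p ∈ ps, 2 ≤ p) →
    ∀ (n L c s : ℕ) (t : TL) (e : ℝ), 1 ≤ n → c ≤ n → (L : ℝ) ≤ 2 ^ 62 * logb 2 n →
      2 ^ 62 * logb 2 n ≤ L + e → e + 3300 * ps.length ≤ δ → t.ok δ → (dal ps n L c s t).ok δ := by
  induction ps with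
  | nil =>
    intro _ n L c s t e hn hc h1 h2 he ht
    rw [aLD_nil]
    simp only [List.length_nil, Nat.cast_zero, mul_zero, add_zero] at he
    exact ⟨⟨hn, by omega, h1, by linarith⟩, ht⟩
  | cons p ps ih =>
    intro hp n L c s t e hn hc h1 h2 he ht
    have hp2 : 2 ≤ p := hp p List.mem_cons_self
    have ih' := ih fun q hq => hp q (List.mem_cons_of_mem _ hq)
    obtain ⟨-, -, l1, l2⟩ := hLg.2.1 p (by omega)
    have hn0 : (n : ℝ) ≠ 0 := by positivity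
    have hp0 : (p : ℝ) ≠ 0 := by positivity
    have hl (j : ℕ) : logb 2 ((n * p ^ j : ℕ) : ℝ) = logb 2 n + j * logb 2 p := by
      push_cast
      rw [logb_mul hn0 (pow_ne_zero _ hp0), logb_pow]
    have q2 : 4 ≤ p ^ 2 := Nat.pow_le_pow_left hp2 2
    have q3 : 8 ≤ p ^ 3 := Nat.pow_le_pow_left hp2 3
    have r2 : n * 4 ≤ n * p ^ 2 := Nat.mul_le_mul_left n q2
    have r3 : n * 8 ≤ n * p ^ 3 := Nat.mul_le_mul_left n q3
    rw [List.length_cons, Nat.cast_succ] at he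
    rw [aLD_cons]
    refine ih' _ _ _ _ _ e hn hc h1 h2 (by linarith) ?_
    refine ih' _ _ _ _ _ (e + 3300) (by omega) (by omega) ?_ ?_ (by linarith) ?_
    · rw [hl]; push_cast; linarith
    · rw [hl]; push_cast; linarith
    refine ih' _ _ _ _ _ (e + 3300) (by omega) (by omega) ?_ ?_ (by linarith) ht
    · rw [hl]; push_cast; linarith
    · rw [hl]; push_cast; linarith

theorem aLD_val : aLD_P [3, 5, 7, 11, 13, 17, 19] ≤ 1.8184 := by
  unfold aLD_P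
  simp only [List.map_cons, List.map_nil, List.prod_cons, List.prod_nil]
  norm_num

theorem stLD (hLg : StLg) : StLD := by
  have hv := aLD_val
  refine ⟨?_, ?_, ?_, ?_, fun k => ?_⟩
  · refine aLD_ok hLg 200000 [3, 5, 7, 11, 13, 17, 19] (by decide) 1 0 1 0 TL.nil 0 le_rfl le_rfl
      (by simp) (by simp) (by norm_num) trivial
  · rw [lD, aLD_ms]
    simp only [TL.ms]
    norm_num at hv ⊢
    exact hv
  · refine (aLD_wt [3, 5, 7, 11, 13, 17, 19] 1 0 1 0 TL.nil).trans ?_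
    have := min_le_left (((1 : ℕ) : ℝ)) (2 * ((1 : ℕ) : ℝ) / ((1 : ℕ) : ℝ))
    generalize min (((1 : ℕ) : ℝ)) (2 * ((1 : ℕ) : ℝ) / ((1 : ℕ) : ℝ)) = x at this ⊢
    generalize aLD_P [3, 5, 7, 11, 13, 17, 19] = y at hv ⊢
    simp only [TL.wt, Nat.cast_one, div_one] at this ⊢
    norm_num at hv ⊢
    linarith
  · rw [lD, aLD_len]
    simp [TL.len]
  · rw [lD, aLD_vk, aLD_pw_one, DAv]
    simp [TL.vk]

end

end Pool.Agent.MP_88bd62_nt.U.A
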