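import Pool.Agent.MP_88bd62_nt.U.ASpec

/-! The list of nodes of the factor of the large primes. -/

namespace Pool.Agent.MP_88bd62_nt.U.A

open Finset Real

noncomputable section

theorem aLH_pw_mul (m n : ℕ) (k : ℤ) : pw (m * n) k = pw m k * pw n k := by
  rw [pw, pw, pw, Nat.cast_mul, Complex.natCast_mul_natCast_cpow]

theorem aLH_pw_one (k : ℤ) : pw 1 k = 1 := by simp [pw]

theorem aLH_pw_pow (p e : ℕ) (k : ℤ) : pw (p ^ e) k = pw p k ^ e := by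
  induction e with
  | zero => exact aLH_pw_one k
  | succ e ih => rw [pow_succ, aLH_pw_mul, ih, pow_succ]

theorem aLH_PP (n : ℕ) : PP (23 + 2 * n) = PP (22 + 2 * n) := by
  ext p
  simp only [PP, mem_filter, mem_Ico]
  refine ⟨fun h => ⟨⟨h.1.1, ?_⟩, h.2⟩, fun h => ⟨⟨h.1.1, by omega⟩, h.2⟩⟩
  have := h.2.eq_two_or_odd
  omega

theorem aLH_split {a b : ℕ} (h : a ≤ b) (f : ℕ → ℝ) :
    ∑ p ∈ PP b, f p = ∑ p ∈ PP a, f p + ∑ p ∈ (PP b).filter (a ≤ ·), f p := by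
  rw [← sum_filter_add_sum_filter_not (PP b) (a ≤ ·), add_comm]
  congr 2
  ext p
  simp only [PP, mem_filter, mem_Ico]
  exact ⟨fun h' => ⟨⟨h'.1.1.1, by omega⟩, h'.1.2⟩, fun h' => ⟨⟨⟨h'.1.1, by omega⟩, h'.2⟩, by omega⟩⟩

theorem aLH_succ (e c s n : ℕ) (t : TL) : gent e c s (n + 1) t =
    if isp (23 + 2 * n) = true then
      .cons ((23 + 2 * n) ^ e) (e * lgn (23 + 2 * n)) c s (gent e c s n t) else gent e c s n t := by
  rw [← ct_eq, two_mul]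
  rfl

theorem aLH_gent (hIsp : StIsp) {M : Type} [AddCommMonoid M] (F : TL → M) (f : ℕ → M) (e c s : ℕ)
    (hF : ∀ p L t, F (.cons (p ^ e) L c s t) = f p + F t) {n N : ℕ} (hN : 22 + 2 * n = N)
    (hn : N ≤ 2 ^ 15) (t : TL) : F (gent e c s n t) = ∑ p ∈ PP N, f p + F t := by
  subst hN
  rw [← aLH_PP, PP, sum_filter]
  induction n with
  | zero => exact ((congrArg (· + F t) (by simp)).trans (zero_add _)).symm
  | succ n ih =>
    have h1 : ¬ (23 + 2 * n + 1).Prime := fun h => by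
      have := h.eq_two_or_odd
      omega
    rw [aLH_succ, show 23 + 2 * (n + 1) = 23 + 2 * n + 1 + 1 by ring, sum_Ico_succ_top (by omega),
      sum_Ico_succ_top (by omega), if_neg h1, add_zero]
    simp only [hIsp (23 + 2 * n) (by omega) (by omega)]
    split_ifs
    · rw [hF, ih (by omega)]
      abel
    · rw [ih (by omega), add_zero]

/-- The condition on a list with coefficients at most `a n`. -/
def aLH_ok (a : ℕ) (δ : ℝ) : TL → Prop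
  | .nil => True
  | .cons n L c _ t =>
    (1 ≤ n ∧ c ≤ a * n ∧ (L : ℝ) ≤ 2 ^ 62 * logb 2 n ∧ 2 ^ 62 * logb 2 n ≤ L + δ) ∧ aLH_ok a δ t

theorem aLH_ok_two {δ : ℝ} {l : TL} (h : aLH_ok 2 δ l) : l.ok δ := by
  induction l with
  | nil => trivial
  | cons n L c s t ih => exact ⟨h.1, ih h.2⟩

theorem aLH_gent_ok (hLg : StLg) {a e c s : ℕ} {δ : ℝ} (ha : 1 ≤ a) (he : 1 ≤ e) (hc : c ≤ 23)
    (hδ : 1100 * (e : ℝ) ≤ δ) (n : ℕ) {t : TL} (ht : aLH_ok a δ t) :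
    aLH_ok a δ (gent e c s n t) := by
  induction n with
  | zero => exact ht
  | succ n ih =>
    rw [aLH_succ]
    split_ifs
    · obtain ⟨-, -, h1, h2⟩ := hLg.2.1 (23 + 2 * n) (by omega)
      have h3 : 23 + 2 * n ≤ (23 + 2 * n) ^ e := Nat.le_self_pow (by omega) _
      have h4 : (0 : ℝ) ≤ e := Nat.cast_nonneg e
      refine ⟨⟨by omega, by nlinarith, ?_, ?_⟩, ih⟩ <;>
        rw [Nat.cast_pow, logb_pow, Nat.cast_mul] <;> nlinarith
    · exact ih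

theorem aLH_row (n L c s n' L' c' s' : ℕ) (l t : TL) : row n L c s (.cons n' L' c' s' l) t =
    .cons (n * n') (L + L') (c * c') (s + s') (row n L c s l t) := rfl

theorem aLH_prs (n L c s : ℕ) (l t : TL) : prs (.cons n L c s l) t =
    .cons (n * n) (L + L) (c * c) 0 (row n L (2 * c) s l (prs l t)) := rfl

theorem aLH_log {n n' L L' : ℕ} {δ : ℝ} (hn : 1 ≤ n) (hn' : 1 ≤ n')
    (h : (L : ℝ) ≤ 2 ^ 62 * logb 2 n ∧ 2 ^ 62 * logb 2 n ≤ L + δ)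
    (h' : (L' : ℝ) ≤ 2 ^ 62 * logb 2 n' ∧ 2 ^ 62 * logb 2 n' ≤ L' + δ) :
    ((L + L' : ℕ) : ℝ) ≤ 2 ^ 62 * logb 2 (n * n' : ℕ) ∧
      2 ^ 62 * logb 2 (n * n' : ℕ) ≤ (L + L' : ℕ) + 2 * δ := by
  rw [Nat.cast_mul, Nat.cast_add, logb_mul (by positivity) (by positivity)]
  constructor <;> linarith [h.1, h.2, h'.1, h'.2]

theorem aLH_row_ok {n L c s : ℕ} {δ : ℝ} (hn : 1 ≤ n) (hc : c ≤ 2 * n)
    (h : (L : ℝ) ≤ 2 ^ 62 * logb 2 n ∧ 2 ^ 62 * logb 2 n ≤ L + δ) {l t : TL} (hl : aLH_ok 1 δ l)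
    (ht : aLH_ok 2 (2 * δ) t) : aLH_ok 2 (2 * δ) (row n L c s l t) := by
  induction l with
  | nil => exact ht
  | cons n' L' c' s' l ih =>
    rw [aLH_row]
    refine ⟨⟨Nat.mul_pos hn hl.1.1, ?_, aLH_log hn hl.1.1 h hl.1.2.2⟩, ih hl.2⟩
    have := Nat.mul_le_mul hc hl.1.2.1
    rwa [one_mul, mul_assoc] at this

theorem aLH_prs_ok {δ : ℝ} {l : TL} (hl : aLH_ok 1 δ l) : aLH_ok 2 (2 * δ) (prs l .nil) := by
  induction l with
  | nil => trivial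
  | cons n L c s l ih =>
    obtain ⟨⟨h1, h2, h3⟩, h4⟩ := hl
    rw [aLH_prs]
    exact ⟨⟨Nat.mul_pos h1 h1, by nlinarith, aLH_log h1 h1 h3 h3⟩,
      aLH_row_ok h1 (by omega) h3 h4 (ih h4)⟩

theorem aLH_row_val (n L c s : ℕ) (l t : TL) :
    (∀ k, (row n L c s l t).vk k = (-1) ^ s * c * pw n k * l.vk k + t.vk k) ∧
    (row n L c s l t).ms = c / n * l.ms + t.ms ∧ (row n L c s l t).len = l.len + t.len := by
  induction l with
  | nil => exact ⟨fun k => by simp [row, TL.vk], by simp [row, TL.ms], by simp [row, TL.len]⟩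
  | cons n' L' c' s' l ih =>
    rw [aLH_row]
    refine ⟨fun k => ?_, ?_, ?_⟩
    · rw [TL.vk, TL.vk, ih.1, aLH_pw_mul]
      push_cast
      ring
    · rw [TL.ms, TL.ms, ih.2.1]
      push_cast
      ring
    · rw [TL.len, TL.len, ih.2.2]
      ring

theorem aLH_prs_val (l : TL) : (∀ k, (prs l .nil).vk k = l.vk k ^ 2) ∧
    (prs l .nil).ms = l.ms ^ 2 ∧ (prs l .nil).len ≤ l.len ^ 2 := by
  induction l with
  | nil => exact ⟨fun k => by simp [prs, TL.vk], by simp [prs, TL.ms], by simp [prs, TL.len]⟩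
  | cons n L c s l ih =>
    obtain ⟨h1, h2, h3⟩ := aLH_row_val n L (2 * c) s l (prs l .nil)
    rw [aLH_prs]
    refine ⟨fun k => ?_, ?_, ?_⟩
    · have e : ((-1 : ℂ) ^ s) ^ 2 = 1 := by rw [← pow_mul, mul_comm, pow_mul]; simp
      rw [TL.vk, TL.vk, h1, ih.1, aLH_pw_mul]
      push_cast
      linear_combination -(c * pw n k) ^ 2 * e
    · rw [TL.ms, TL.ms, h2, ih.2.1]
      push_cast
      ring
    · rw [TL.len, TL.len, h3]
      nlinarith [ih.2.2]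

theorem aLH_wt (l : TL) : 0 ≤ l.ms ∧ l.wt ≤ 2 * l.ms := by
  induction l with
  | nil => simp [TL.wt, TL.ms]
  | cons n L c s l ih =>
    rw [TL.wt, TL.ms]
    refine ⟨add_nonneg (by positivity) ih.1, ?_⟩
    have := min_le_right (c : ℝ) (2 * c / n)
    rw [mul_div_assoc] at this ⊢
    linarith [ih.2]

theorem aLH_all (hIsp : StIsp) (e c s : ℕ) {n N : ℕ} (hN : 22 + 2 * n = N) (hn : N ≤ 2 ^ 15)
    (t : TL) :
    (∀ k, (gent e c s n t).vk k = ∑ p ∈ PP N, (-1) ^ s * c * pw p k ^ e + t.vk k) ∧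
    (gent e c s n t).ms = ∑ p ∈ PP N, (c : ℝ) / (p : ℝ) ^ e + t.ms ∧
    (gent e c s n t).len = (PP N).card + t.len := by
  refine ⟨fun k => aLH_gent hIsp _ _ e c s (fun p L t => ?_) hN hn t,
    aLH_gent hIsp _ _ e c s (fun p L t => ?_) hN hn t, ?_⟩
  · rw [TL.vk, aLH_pw_pow]
  · rw [TL.ms, Nat.cast_pow]
  · rw [aLH_gent hIsp TL.len (fun _ => 1) e c s (fun p L t => add_comm _ _) hN hn t, card_eq_sum_ones]

theorem aLH_main (hPs : StPs) (hLg : StLg) (hIsp : StIsp) {n₁ n₂ n₃ n₄ n₅ : ℕ}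
    (h₁ : 22 + 2 * n₁ = 2 ^ 15) (h₂ : 22 + 2 * n₂ = 1024) (h₃ : 22 + 2 * n₃ = 128)
    (h₄ : 22 + 2 * n₄ = 512) (h₅ : 22 + 2 * n₅ = 48) {S T : TL}
    (hS : S = gent 2 3 0 n₄ (gent 3 2 1 n₅ .nil))
    (hT : T = gent 2 6 0 n₁ (gent 3 4 1 n₂ (gent 4 9 0 n₃ (prs S .nil)))) :
    T.ok 200000 ∧ 0 ≤ T.ms ∧ T.ms ≤ 0.064 ∧ T.len ≤ 12907 ∧ ∀ k, T.vk k = 2 * HBl k - 2 := by
  obtain ⟨p1, p2, p3, p4, p5, c1, c2, c3, c4, c5⟩ := hPs
  obtain ⟨a1, a2, a3⟩ := aLH_all hIsp 3 2 1 h₅ (by norm_num) .nil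
  obtain ⟨b1, b2, b3⟩ := aLH_all hIsp 2 3 0 h₄ (by norm_num) (gent 3 2 1 n₅ .nil)
  obtain ⟨d1, d2, d3⟩ := aLH_prs_val S
  obtain ⟨e1, e2, e3⟩ := aLH_all hIsp 4 9 0 h₃ (by norm_num) (prs S .nil)
  obtain ⟨f1, f2, f3⟩ := aLH_all hIsp 3 4 1 h₂ (by norm_num) (gent 4 9 0 n₃ (prs S .nil))
  obtain ⟨g1, g2, g3⟩ := aLH_all hIsp 2 6 0 h₁ le_rfl (gent 3 4 1 n₂ (gent 4 9 0 n₃ (prs S .nil)))
  rw [← hS] at b1 b2 b3
  rw [← hT] at g1 g2 g3
  refine ⟨?_, (aLH_wt T).1, ?_, ?_, fun k => ?_⟩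
  · have s1 : aLH_ok 1 100000 S := hS ▸ aLH_gent_ok hLg le_rfl one_le_two (by norm_num)
      (by norm_num) _ (aLH_gent_ok hLg le_rfl (by norm_num) (by norm_num) (by norm_num) _ trivial)
    have s2 := aLH_prs_ok s1
    rw [show (2 : ℝ) * 100000 = 200000 by norm_num] at s2
    exact hT ▸ aLH_ok_two (aLH_gent_ok hLg one_le_two one_le_two (by norm_num) (by norm_num) _
      (aLH_gent_ok hLg one_le_two (by norm_num) (by norm_num) (by norm_num) _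
        (aLH_gent_ok hLg one_le_two (by norm_num) (by norm_num) (by norm_num) _ s2)))
  · have s0 := (aLH_wt S).1
    have s1 : S.ms ≤ 0.030587 := by
      rw [b2, a2, TL.ms]
      push_cast
      linarith
    have s2 : S.ms ^ 2 ≤ 0.030587 ^ 2 := pow_le_pow_left₀ s0 s1 2
    have t1 : ∀ (s : Finset ℕ) (c c' : ℝ) (e : ℕ), c = 2 * c' →
        ∑ p ∈ s, c / (p : ℝ) ^ e = 2 * ∑ p ∈ s, c' / (p : ℝ) ^ e := fun s c c' e h => by
      simp only [h, mul_sum, mul_div_assoc]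
    rw [g2, f2, e2, d2, t1 _ _ 3 2 (by norm_num), t1 _ _ 2 3 (by norm_num),
      t1 _ _ (9 / 2) 4 (by norm_num), aLH_split (by norm_num : 512 ≤ 2 ^ 15),
      aLH_split (by norm_num : 48 ≤ 1024)]
    linarith
  · have s1 : S.len ≤ 96 := by
      rw [b3, a3, TL.len]
      omega
    have s2 := d3.trans (Nat.pow_le_pow_left s1 2)
    rw [g3, f3, e3]
    omega
  · have t1 : ∀ (s : Finset ℕ) (c c' d : ℂ) (e : ℕ), c = d * c' →
        ∑ p ∈ s, c * pw p k ^ e = d * ∑ p ∈ s, c' * pw p k ^ e := fun s c c' d e h => by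
      simp only [h, mul_sum, mul_assoc]
    rw [g1, f1, e1, d1, b1, a1, TL.vk, HBl, mu1, mus, t1 (PP (2 ^ 15)) _ 3 2 2 (by norm_num),
      t1 (PP 1024) _ 2 (-2) 3 (by norm_num), t1 (PP 128) _ (9 / 2) 2 4 (by norm_num),
      t1 (PP 512) _ 3 1 2 (by norm_num), t1 (PP 48) _ 2 (-1) 3 (by norm_num)]
    ring

theorem aLH_head {T : TL}
    (h : T.ok 200000 ∧ 0 ≤ T.ms ∧ T.ms ≤ 0.064 ∧ T.len ≤ 12907 ∧ ∀ k, T.vk k = 2 * HBl k - 2)
    {l : TL} (hl : l = .cons 1 0 2 0 T) :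
    l.ok 200000 ∧ l.ms ≤ 2.0642 ∧ l.wt ≤ 2.14 ∧ l.len ≤ 13000 ∧ ∀ k, l.vk k = 2 * HBl k := by
  obtain ⟨h1, h2, h3, h4, h5⟩ := h
  subst hl
  refine ⟨⟨by norm_num, h1⟩, ?_, ?_, ?_, fun k => ?_⟩
  · rw [TL.ms]
    norm_num
    linarith
  · have := (aLH_wt T).2
    rw [TL.wt]
    norm_num
    linarith
  · rw [TL.len]
    omega
  · rw [TL.vk, h5, aLH_pw_one]
    norm_num

theorem stLH (hPs : StPs) (hLg : StLg) (hIsp : StIsp) : StLH :=
  aLH_head (aLH_main hPs hLg hIsp (n₁ := 16373) (n₂ := 501) (n₃ := 53) (n₄ := 245) (n₅ := 13)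
    (by norm_num) (by norm_num) (by norm_num) (by norm_num) (by norm_num) lS.eq_1 rfl) lH.eq_1

end

end Pool.Agent.MP_88bd62_nt.U.A
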