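import Pool.Agent.MP_88bd62_nt.U.ASpec

namespace Pool.Agent.MP_88bd62_nt.U.A

open Finset Real

noncomputable section

/-- A partial sum of the series of `atanh`. -/
def aLg_s (Y : ℝ) (j i : ℕ) : ℝ := ∑ m ∈ range i, Y ^ (2 * (j + m) + 1) / (2 * (j + m : ℕ) + 1)

theorem aLg_series {Y : ℝ} (h0 : 0 ≤ Y) (h1 : Y ≤ 1 / 3) (T : ℕ) :
    2 * aLg_s Y 0 T ≤ log (1 + Y) - log (1 - Y) ∧
      log (1 + Y) - log (1 - Y) ≤ 2 * aLg_s Y 0 T + 9 / 4 * (Y ^ (2 * T + 1) / (2 * T + 1)) := by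
  have h := hasSum_log_sub_log_of_abs_lt_one (x := Y) (by rw [abs_of_nonneg h0]; linarith)
  have e : ∑ k ∈ range T, (2 : ℝ) * (1 / (2 * k + 1)) * Y ^ (2 * k + 1) = 2 * aLg_s Y 0 T := by
    rw [aLg_s, mul_sum]
    refine sum_congr rfl fun k _ => ?_
    rw [zero_add]; ring
  have ht := (hasSum_nat_add_iff' T).2 h
  rw [e] at ht
  have hg := (hasSum_geometric_of_lt_one (r := 1 / 9) (by norm_num) (by norm_num)).mul_left
    (2 * (Y ^ (2 * T + 1) / (2 * T + 1)))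
  constructor
  · have := ht.nonneg fun n => by positivity
    linarith
  · have := hasSum_le (fun n => ?_) ht hg
    · norm_num at this; linarith
    · have a1 : Y ^ (2 * (n + T) + 1) ≤ Y ^ (2 * T + 1) * (1 / 9) ^ n := by
        rw [show 2 * (n + T) + 1 = 2 * T + 1 + 2 * n by ring, pow_add, pow_mul]
        gcongr
        nlinarith
      have a2 : (1 : ℝ) / (2 * (n + T : ℕ) + 1) ≤ 1 / (2 * T + 1) := by
        gcongr; exact Nat.le_add_left _ _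
      calc (2 : ℝ) * (1 / (2 * (n + T : ℕ) + 1)) * Y ^ (2 * (n + T) + 1)
          ≤ 2 * (1 / (2 * T + 1)) * (Y ^ (2 * T + 1) * (1 / 9) ^ n) := by gcongr
        _ = _ := by ring

theorem aLg_KK : (KK : ℝ) ≤ 2 ^ 62 / log 2 ∧ 2 ^ 62 / log 2 ≤ KK + 1 := by
  obtain ⟨h1, h2⟩ := aLg_series (Y := 1 / 3) (by norm_num) le_rfl 22
  have e : log (1 + 1 / 3) - log (1 - 1 / 3) = log 2 := by
    rw [← log_div (by norm_num) (by norm_num)]; norm_num
  rw [e] at h1 h2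
  have hp : 0 < log 2 := log_pos (by norm_num)
  rw [le_div_iff₀ hp, div_le_iff₀ hp]
  simp only [aLg_s, sum_range_succ, sum_range_zero, KK] at h1 h2 ⊢
  norm_num at h1 h2 ⊢
  constructor <;> linarith

theorem aLg_div (a b : ℕ) (hb : 0 < b) :
    ((a / b : ℕ) : ℝ) ≤ a / b ∧ (a : ℝ) / b - 1 ≤ (a / b : ℕ) := by
  refine ⟨Nat.cast_div_le, ?_⟩
  have hb' : (0 : ℝ) < b := by exact_mod_cast hb
  have h := Nat.lt_mul_div_succ a hb
  have : (a : ℝ) < b * ((a / b : ℕ) + 1) := by exact_mod_cast h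
  rw [sub_le_iff_le_add, div_le_iff₀ hb']; linarith

/-- The inner recursion of `ath`. -/
def aLg_G (y2 T i : ℕ) : ℕ → ℕ :=
  @Nat.rec (fun _ => ℕ → ℕ) (fun _ => 0) (fun i ih p =>
    Nat.add (Nat.div p (Nat.sub (Nat.add T T) (Nat.succ (Nat.add i i))))
      (ih (Nat.shiftRight (Nat.mul p y2) 64))) i

theorem aLg_G_succ (y2 j i p : ℕ) :
    aLg_G y2 (j + (i + 1)) (i + 1) p =
      p / (2 * j + 1) + aLg_G y2 (j + 1 + i) i (p * y2 / 2 ^ 64) := by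
  have e : j + (i + 1) + (j + (i + 1)) - (i + i + 1) = 2 * j + 1 := by omega
  rw [← e, show j + 1 + i = j + (i + 1) by omega, ← Nat.shiftRight_eq_div_pow]
  rfl

theorem aLg_G_bd {Y u : ℝ} (hu : u = 2 ^ 64) (h0 : 0 ≤ Y) (h1 : Y ≤ 1 / 3) {y2 : ℕ}
    (hy : (y2 : ℝ) ≤ u * Y ^ 2) (hy' : u * Y ^ 2 - 5 / 3 ≤ y2) (i : ℕ) :
    ∀ j p : ℕ, (p : ℝ) ≤ u * Y ^ (2 * j + 1) → u * Y ^ (2 * j + 1) - 2 ≤ p →
      (aLg_G y2 (j + i) i p : ℝ) ≤ u * aLg_s Y j i ∧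
        u * aLg_s Y j i - 3 * i ≤ aLg_G y2 (j + i) i p := by
  have hu0 : 0 < u := by rw [hu]; positivity
  induction i with
  | zero => intro j p _ _; simp [aLg_s, aLg_G]
  | succ i ih =>
    intro j p hp hp'
    have es : aLg_s Y j (i + 1) = Y ^ (2 * j + 1) / (2 * j + 1) + aLg_s Y (j + 1) i := by
      rw [aLg_s, sum_range_succ', add_comm, aLg_s]
      congr 1
      refine sum_congr rfl fun m _ => ?_
      rw [show j + (m + 1) = j + 1 + m by omega]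
    obtain ⟨d1, d2⟩ := aLg_div p (2 * j + 1) (by omega)
    obtain ⟨c1, c2⟩ := aLg_div (p * y2) (2 ^ 64) (by positivity)
    have eu : ((2 ^ 64 : ℕ) : ℝ) = u := by rw [hu]; norm_num
    rw [eu, Nat.cast_mul] at c1 c2
    set P := Y ^ (2 * j + 1) with hP
    have hP0 : 0 ≤ P := by positivity
    have hP1 : P ≤ 1 / 3 :=
      (pow_le_of_le_one h0 (by linarith) (by omega)).trans h1
    have eP : Y ^ (2 * (j + 1) + 1) = P * Y ^ 2 := by rw [hP]; ring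
    have hY2 : Y ^ 2 ≤ 1 / 9 := by nlinarith
    have hr : (y2 : ℝ) / u ≤ Y ^ 2 := by rw [div_le_iff₀ hu0]; linarith
    have hr0 : 0 ≤ (y2 : ℝ) / u := by positivity
    obtain ⟨i1, i2⟩ := ih (j + 1) (p * y2 / 2 ^ 64)
      (by
        refine c1.trans ?_
        rw [eP, mul_div_assoc, ← mul_assoc]
        gcongr)
      (by
        refine le_trans ?_ c2
        rw [eP, mul_div_assoc]
        have a1 : (u * P - 2) * (y2 / u) ≤ p * (y2 / u) := by gcongr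
        have a2 : u * P * (y2 / u) = P * y2 := by field_simp
        have a3 : P * (u * Y ^ 2 - 5 / 3) ≤ P * y2 := by gcongr
        nlinarith)
    have hj : (1 : ℝ) ≤ 2 * j + 1 := by have := (Nat.cast_nonneg j : (0 : ℝ) ≤ j); linarith
    have b1 : (p : ℝ) / (2 * j + 1) ≤ u * (P / (2 * j + 1)) := by
      rw [← mul_div_assoc]; gcongr
    have b2 : u * (P / (2 * j + 1)) - 2 ≤ (p : ℝ) / (2 * j + 1) := by
      have c3 : (u * P - 2) / (2 * j + 1) ≤ (p : ℝ) / (2 * j + 1) := by gcongr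
      have c4 : (2 : ℝ) / (2 * j + 1) ≤ 2 := div_le_self (by norm_num) hj
      rw [sub_div, mul_div_assoc] at c3
      linarith
    rw [aLg_G_succ, es]
    push_cast at d1 d2 ⊢
    constructor <;> linarith

theorem aLg_lg (T a b : ℕ) (ha : 0 < a) (hab : a ≤ b) (hb : b ≤ 2 * a) :
    (lg T a b : ℝ) ≤ 2 ^ 62 * logb 2 (b / a) ∧ 2 ^ 62 * logb 2 (b / a) ≤
      lg T a b + 3 * T + 4 + 2 ^ 64 * ((b - a) / (a + b) : ℝ) ^ (2 * T + 1) / (2 * T + 1) := by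
  have ha' : (0 : ℝ) < a := by exact_mod_cast ha
  have hab' : (a : ℝ) ≤ b := by exact_mod_cast hab
  have hb' : (b : ℝ) ≤ 2 * a := by exact_mod_cast hb
  set Y : ℝ := (b - a) / (a + b) with hY
  have h0 : 0 ≤ Y := div_nonneg (by linarith) (by linarith)
  have h1 : Y ≤ 1 / 3 := by rw [hY, div_le_iff₀ (by linarith)]; linarith
  obtain ⟨u, hu⟩ : ∃ u : ℝ, u = 2 ^ 64 := ⟨_, rfl⟩
  have hu0 : 0 < u := by rw [hu]; positivity
  have eu : ((2 ^ 64 : ℕ) : ℝ) = u := by rw [hu]; norm_num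
  obtain ⟨y, hy⟩ : ∃ y, y = (b - a) * 2 ^ 64 / (a + b) := ⟨_, rfl⟩
  obtain ⟨y2, hy2⟩ : ∃ y2, y2 = y * y / 2 ^ 64 := ⟨_, rfl⟩
  have el : lg T a b = KK * aLg_G y2 (0 + T) T y / 2 ^ 63 := by
    rw [hy2, hy, zero_add, ← Nat.shiftLeft_eq, ← Nat.shiftRight_eq_div_pow,
      ← Nat.shiftRight_eq_div_pow]
    rfl
  obtain ⟨y1, y1'⟩ := aLg_div ((b - a) * 2 ^ 64) (a + b) (by omega)
  have ey : (((b - a) * 2 ^ 64 : ℕ) : ℝ) / ((a + b : ℕ) : ℝ) = u * Y := by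
    rw [Nat.cast_mul, eu, Nat.cast_sub hab, Nat.cast_add, hY]; ring
  rw [ey, ← hy] at y1 y1'
  obtain ⟨z1, z2⟩ := aLg_div (y * y) (2 ^ 64) (by positivity)
  rw [eu, ← hy2, Nat.cast_mul] at z1 z2
  have hy0 : (0 : ℝ) ≤ y := Nat.cast_nonneg _
  have w1 : (y2 : ℝ) ≤ u * Y ^ 2 := by
    refine z1.trans ?_
    rw [div_le_iff₀ hu0]; nlinarith
  have w2 : u * Y ^ 2 - 5 / 3 ≤ y2 := by
    refine le_trans ?_ z2
    have : u * Y ^ 2 - 2 * Y ≤ (y : ℝ) * y / u := by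
      rw [le_div_iff₀ hu0]
      rcases le_total (u * Y) 1 with h | h
      · nlinarith [mul_nonneg hu0.le h0]
      · nlinarith
    linarith
  obtain ⟨g1, g2⟩ := aLg_G_bd hu h0 h1 w1 w2 T 0 y (by simpa using y1) (by simp; linarith)
  obtain ⟨s1, s2⟩ := aLg_series h0 h1 T
  have eL : log (1 + Y) - log (1 - Y) = log (b / a) := by
    rw [← log_div (by linarith) (by linarith)]
    congr 1
    have : (a : ℝ) + b ≠ 0 := by linarith
    rw [hY, div_eq_div_iff (by rw [← hY]; linarith) ha'.ne']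
    field_simp; ring
  rw [eL] at s1 s2
  have hL : log (b / a : ℝ) ≤ 1 := by
    have : log (b / a : ℝ) ≤ log 2 :=
      log_le_log (div_pos (by linarith) ha') (by rw [div_le_iff₀ ha']; exact hb')
    linarith [log_two_lt_d9]
  obtain ⟨k1, k2⟩ := aLg_KK
  obtain ⟨l1, l2⟩ := aLg_div (KK * aLg_G y2 (0 + T) T y) (2 ^ 63) (by positivity)
  have eu' : ((2 ^ 63 : ℕ) : ℝ) = u / 2 := by rw [hu]; norm_num
  rw [← el, eu', Nat.cast_mul] at l1 l2
  have eb : (2 : ℝ) ^ 62 * logb 2 (b / a) = 2 ^ 62 / log 2 * log (b / a) := by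
    rw [logb]; ring
  have hK : (KK : ℝ) + 1 ≤ 0.37 * u := by rw [hu, KK]; norm_num
  rw [eb, ← hu, mul_div_assoc u]
  set K : ℝ := 2 ^ 62 / log 2
  set A : ℝ := Nat.cast (aLg_G y2 (0 + T) T y)
  set τ : ℝ := Y ^ (2 * T + 1) / (2 * T + 1)
  have hA : 0 ≤ A := Nat.cast_nonneg _
  have hτ : 0 ≤ τ := by positivity
  have hT : (0 : ℝ) ≤ T := Nat.cast_nonneg _
  have hk : (0 : ℝ) ≤ KK := Nat.cast_nonneg _
  have hA1 : A / (u / 2) ≤ log (b / a) := by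
    rw [div_le_iff₀ (by linarith)]; nlinarith
  have hA0 : 0 ≤ A / (u / 2) := by positivity
  rw [mul_div_assoc] at l1 l2
  constructor
  · refine l1.trans ?_
    gcongr
  · have f1 : log (b / a) ≤ A / (u / 2) + (6 * T / u + 9 / 4 * τ) := by
      have : 2 * aLg_s Y 0 T ≤ A / (u / 2) + 6 * T / u := by
        rw [← sub_nonneg, show A / (u / 2) + 6 * T / u - 2 * aLg_s Y 0 T =
          2 * (A - (u * aLg_s Y 0 T - 3 * T)) / u by field_simp; ring]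
        exact div_nonneg (by linarith) hu0.le
      linarith
    have f2 : K * log (b / a) ≤ (KK + 1) * (A / (u / 2)) + 0.37 * u * (6 * T / u + 9 / 4 * τ) := by
      calc K * log (b / a) ≤ K * (A / (u / 2) + (6 * T / u + 9 / 4 * τ)) := by
            gcongr
        _ = K * (A / (u / 2)) + K * (6 * T / u + 9 / 4 * τ) := by ring
        _ ≤ _ := by gcongr; linarith
    have f3 : 0.37 * u * (6 * T / u + 9 / 4 * τ) = 2.22 * T + 0.8325 * (u * τ) := by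
      field_simp; ring
    have f4 : 0 ≤ u * τ := by positivity
    nlinarith

theorem stLg : StLg := by
  refine ⟨aLg_lg, fun n hn => ?_, aLg_KK⟩
  have e1 : Nat.log2 n = Nat.log 2 n := Nat.log2_eq_log_two
  have e2 : lgn n = Nat.log 2 n * 2 ^ 62 + lg 15 (Nat.shiftLeft 1 (Nat.log2 n)) n := by
    rw [← Nat.shiftLeft_eq, ← e1]; rfl
  refine ⟨e1, e2, ?_⟩
  have e3 : Nat.shiftLeft 1 (Nat.log2 n) = 2 ^ Nat.log 2 n := by
    rw [Nat.shiftLeft_eq', Nat.shiftLeft_eq, one_mul, e1]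
  have l1 : 2 ^ Nat.log 2 n ≤ n := Nat.pow_log_le_self 2 (by omega)
  have l2 : n < 2 ^ (Nat.log 2 n + 1) := Nat.lt_pow_succ_log_self (by norm_num) n
  rw [e2, e3]
  generalize Nat.log 2 n = k at l1 l2
  obtain ⟨h1, h2⟩ := aLg_lg 15 (2 ^ k) n (by positivity) l1 (by rw [pow_succ] at l2; omega)
  have hn' : (0 : ℝ) < n := by exact_mod_cast hn
  have l1' : ((2 ^ k : ℕ) : ℝ) ≤ n := by exact_mod_cast l1
  have l2' : (n : ℝ) ≤ 2 * (2 ^ k : ℕ) := by
    rw [pow_succ] at l2; exact_mod_cast (by omega : n ≤ 2 * 2 ^ k)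
  have hp : (0 : ℝ) < (2 ^ k : ℕ) := by positivity
  have e4 : logb 2 (n / (2 ^ k : ℕ) : ℝ) = logb 2 n - k := by
    rw [logb_div hn'.ne' hp.ne']
    push_cast
    rw [logb_pow, logb_self_eq_one (by norm_num), mul_one]
  rw [e4] at h1 h2
  have b1 : ((n - (2 ^ k : ℕ)) / ((2 ^ k : ℕ) + n) : ℝ) ^ (2 * 15 + 1) ≤ (1 / 3) ^ (2 * 15 + 1) := by
    refine pow_le_pow_left₀ (div_nonneg (by linarith) (by linarith)) ?_ _
    rw [div_le_iff₀ (by linarith)]; linarith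
  generalize ((n - (2 ^ k : ℕ)) / ((2 ^ k : ℕ) + n) : ℝ) ^ (2 * 15 + 1) = w at h2 b1
  rw [Nat.cast_add, Nat.cast_mul]
  norm_num at h1 h2 b1 ⊢
  constructor <;> linarith

end

end Pool.Agent.MP_88bd62_nt.U.A
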