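import Pool.Agent.MP_88bd62_nt.U.ASpec

namespace Pool.Agent.MP_88bd62_nt.U.A

open Pool.Agent.MP_22d5c4_co.K (dig ones ones_succ)

theorem aMk_geo (n : ℕ) : (2 ^ 80 - 1) * ones 80 n + 1 = 2 ^ (80 * n) := by
  induction n with
  | zero => simp [ones]
  | succ n ih =>
    rw [ones_succ (by norm_num), mul_add 80, pow_add, ← ih]
    generalize ones 80 n = o
    norm_num
    ring

theorem aMk_ms (n : ℕ) : Nat.sub (shl 1 n) 1 = 2 ^ (80 * n) - 1 := by
  rw [shl_eq, one_mul, Nat.sub_eq]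

theorem stMk (hUni : StUni) : StMk := by
  obtain ⟨-, -, -, h4, h5, -⟩ := hUni
  have h1 : ∀ n, Nat.div (shl 1 n) B1 = ones 80 n := fun n => by
    rw [shl_eq, one_mul, B1_eq]
    exact (h4 n).2.2.2
  have h2 : ∀ x n r, r ≤ 80 → low x (ones 80 n) r = true → ∀ i < n, dig 80 x i < 2 ^ r := by
    intro x n r hr h
    refine h5 n x r hr ?_
    have e : (1208925819614629174706176 : ℕ) = 2 ^ 80 := by norm_num
    have h' := Nat.eq_of_beq_eq_true h
    rwa [Nat.land_eq, Nat.mul_eq, Nat.sub_eq, Nat.shiftLeft_eq', Nat.shiftLeft_eq, one_mul,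
      e] at h'
  refine ⟨h1, h2, fun x n r hr h => ?_, fun x n => Nat.and_two_pow_sub_one_eq_mod x _,
    fun x i => ?_, aMk_geo, ?_⟩
  · obtain ⟨h3, h6⟩ := (an_eq _ _).1 h
    refine ⟨?_, h2 x n r hr h6⟩
    have h' := Nat.eq_of_beq_eq_true h3
    rw [shr_eq] at h'
    exact (Nat.div_eq_zero_iff_lt (by positivity)).1 h'
  · rw [shr_eq, B1_eq]
    exact Nat.and_two_pow_sub_one_eq_mod _ 80
  · refine ⟨4194304, rfl, by norm_num, ?_, ?_⟩
    · unfold ON PG
      exact h1 4194304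
    · unfold MG PG
      exact aMk_ms 4194304

end Pool.Agent.MP_88bd62_nt.U.A
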