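import Pool.Agent.MP_88bd62_nt.U.AStm

/-! Monotonicity of the error functions. -/

namespace Pool.Agent.MP_88bd62_nt.U.A

open Finset Real

noncomputable section

theorem aMon_wU {a x : ℝ} (ha : 0 ≤ a) (hax : a ≤ x) (hx : x ≤ 1) : wU x ≤ wU a := by
  unfold wU
  have key : ∀ a x : ℝ, 0 ≤ a → a ≤ x → x ≤ 1 / 2 →
      1 - 6 * x ^ 2 + 6 * x ^ 3 ≤ 1 - 6 * a ^ 2 + 6 * a ^ 3 := by
    intro a x ha hax hx
    have h1 : 0 ≤ x + a - (x ^ 2 + x * a + a ^ 2) := by nlinarith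
    nlinarith [mul_nonneg (sub_nonneg.2 hax) h1]
  split_ifs with h1 h2 h2
  · linarith [key a x ha hax h1]
  · exact absurd (hax.trans h1) h2
  · have h3 := key a (1 / 2) ha h2 le_rfl
    have h4 : (1 - x) ^ 3 ≤ (1 / 2) ^ 3 := pow_le_pow_left₀ (by linarith) (by linarith) 3
    linarith
  · have h4 : (1 - x) ^ 3 ≤ (1 - a) ^ 3 := pow_le_pow_left₀ (by linarith) (by linarith) 3
    linarith

theorem aMon_w1 {N t : ℝ} (hN : 100000 ≤ N) (ht : 0 ≤ t) (h : t ≤ N) :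
    (cub (2 * N - t) - 4 * cub (N - t)) / (N * (2 * N ^ 2 + 1) / 3) ≤ wU (t / (2 * N)) := by
  have hN0 : 0 < N := by linarith
  obtain ⟨x, rfl⟩ : ∃ x, t = 2 * N * x := ⟨t / (2 * N), by field_simp⟩
  have hx0 : 0 ≤ x := by
    by_contra hc
    nlinarith
  have hx : x ≤ 1 / 2 := by
    by_contra hc
    nlinarith
  rw [mul_div_cancel_left₀ _ (by positivity : 2 * N ≠ 0), wU, if_pos hx,
    div_le_iff₀ (by positivity)]
  unfold cub
  have hW : 0 ≤ 1 - 6 * x ^ 2 + 6 * x ^ 3 := by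
    have h1 : 0 ≤ 1 / 2 + x - (1 / 4 + x / 2 + x ^ 2) := by nlinarith
    nlinarith [mul_nonneg (sub_nonneg.2 hx) h1]
  have h2 : 10000000000 ≤ N ^ 2 := by nlinarith
  have h3 : N * 10000000000 ≤ N * N ^ 2 := by gcongr
  have h4 : 0 ≤ N * (1 - 6 * x ^ 2 + 6 * x ^ 3) := by positivity
  have h5 : 0 ≤ N * x := by positivity
  have e : (1 - 6 * x ^ 2 + 6 * x ^ 3 + 0.000000001) * (N * (2 * N ^ 2 + 1) / 3) -
      (((2 * N - 2 * N * x) ^ 3 - (2 * N - 2 * N * x)) / 6 -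
        4 * (((N - 2 * N * x) ^ 3 - (N - 2 * N * x)) / 6)) =
      N * (1 - 6 * x ^ 2 + 6 * x ^ 3) / 3 + N * x - N / 3 +
        0.000000001 * (2 * (N * N ^ 2) + N) / 3 := by ring
  linarith

theorem aMon_w2 {N t : ℝ} (hN : 0 < N) (h : N < t) (h' : t < 2 * N) :
    (cub (2 * N - t) - 0) / (N * (2 * N ^ 2 + 1) / 3) ≤ wU (t / (2 * N)) := by
  obtain ⟨x, rfl⟩ : ∃ x, t = 2 * N * x := ⟨t / (2 * N), by field_simp⟩
  have hx0 : ¬ x ≤ 1 / 2 := by
    intro hc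
    nlinarith
  have hx : 0 ≤ 1 - x := by
    by_contra hc
    nlinarith
  rw [mul_div_cancel_left₀ _ (by positivity : 2 * N ≠ 0), wU, if_neg hx0,
    div_le_iff₀ (by positivity)]
  unfold cub
  have h4 : 0 ≤ N * (1 - x) ^ 3 := by positivity
  have h5 : 0 ≤ N * (1 - x) := by positivity
  have h6 : 0 ≤ N * (2 * N ^ 2 + 1) := by positivity
  have e : (2 * (1 - x) ^ 3 + 0.000000001) * (N * (2 * N ^ 2 + 1) / 3) -
      (((2 * N - 2 * N * x) ^ 3 - (2 * N - 2 * N * x)) / 6 - 0) =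
      2 * (N * (1 - x) ^ 3) / 3 + N * (1 - x) / 3 +
        0.000000001 * (N * (2 * N ^ 2 + 1)) / 3 := by ring
  linarith

theorem aMon_wk {N : ℕ} (hN : 100000 ≤ N) {k : ℤ} (hk : k ∈ Kset N) {a : ℝ} (ha : 0 ≤ a)
    (h : a ≤ |(k : ℝ)| / (2 * N)) : wk N k ≤ wU a := by
  have hN' : (100000 : ℝ) ≤ N := by exact_mod_cast hN
  have h1 : |k| < 2 * (N : ℤ) := by
    have := mem_Ioo.1 (mem_filter.1 hk).1
    exact abs_lt.2 this
  have h2 : |(k : ℝ)| < 2 * N := by exact_mod_cast h1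
  refine le_trans ?_ (aMon_wU ha h ((div_le_one (by positivity)).2 h2.le))
  rw [wk, if_neg (not_le.2 h1), cN]
  split_ifs with h3
  · exact aMon_w1 hN' (abs_nonneg _) (by exact_mod_cast h3)
  · exact aMon_w2 (by linarith) (by exact_mod_cast not_le.1 h3) h2

theorem aMon_r1 {x b : ℝ} (hx : 0 < x) (h : x ≤ b) (hb : b ≤ 1) :
    x / (3.999 + x) ≤ b / (3.999 + b) ∧ x / (3.999 + x) ^ 2 ≤ b / (3.999 + b) ^ 2 := by
  have hb0 : 0 < b := hx.trans_le h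
  constructor
  · rw [div_le_div_iff₀ (by positivity) (by positivity)]
    nlinarith
  · rw [div_le_div_iff₀ (by positivity) (by positivity)]
    have h1 : 0 ≤ 3.999 ^ 2 - b * x := by nlinarith
    nlinarith [mul_nonneg (sub_nonneg.2 h) h1]

theorem aMon_al5e {x : ℝ} (hx : 0 < x) (h : x ≤ 1) : al5 x / x =
    x ^ 4 / (4 - x) ^ 5 + (x / (3.999 + x)) ^ 3 * (x / (3.999 + x) ^ 2) + 0.00014 * x ^ 4 := by
  have h1 : 4 - x ≠ 0 := by linarith
  have h2 : 3.999 + x ≠ 0 := by positivity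
  unfold al5
  field_simp

theorem aMon_al4e {x : ℝ} (hx : 0 < x) (h : x ≤ 1) : al4 x / x =
    x ^ 3 / (4 - x) ^ 4 + (x / (3.999 + x)) ^ 2 * (x / (3.999 + x) ^ 2) + 0.00106 * x ^ 3 := by
  have h1 : 4 - x ≠ 0 := by linarith
  have h2 : 3.999 + x ≠ 0 := by positivity
  unfold al4
  field_simp

theorem aMon_al5 {x b : ℝ} (hx : 0 < x) (h : x ≤ b) (hb : b ≤ 1) : al5 x / x ≤ al5 b / b := by
  have hb0 : 0 < b := hx.trans_le h
  obtain ⟨h1, h2⟩ := aMon_r1 hx h hb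
  have h3 : 0 < 4 - b := by linarith
  rw [aMon_al5e hx (h.trans hb), aMon_al5e hb0 hb]
  gcongr

theorem aMon_al4 {x b : ℝ} (hx : 0 < x) (h : x ≤ b) (hb : b ≤ 1) : al4 x / x ≤ al4 b / b := by
  have hb0 : 0 < b := hx.trans_le h
  obtain ⟨h1, h2⟩ := aMon_r1 hx h hb
  have h3 : 0 < 4 - b := by linarith
  rw [aMon_al4e hx (h.trans hb), aMon_al4e hb0 hb]
  gcongr

theorem aMon_nd {x b : ℝ} (hx : 0 < x) (h : x ≤ b) (hb : b ≤ 1) : nd x / x ≤ nd b / b := by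
  have hb0 : 0 < b := hx.trans_le h
  have e : ∀ y : ℝ, 0 < y → nd y / y = 1.001 * (al5 y / y + 0.00000632) := fun y hy => by
    unfold nd
    field_simp
  rw [e x hx, e b hb0]
  linarith [aMon_al5 hx h hb]

theorem aMon_up {x b u v : ℝ} (hx : 0 < x) (h : x ≤ b) (hu : 0 ≤ u) (huv : u / x ≤ v / b) :
    u ≤ v := by
  have hb0 : 0 < b := hx.trans_le h
  have h1 : u / b ≤ u / x := by gcongr
  exact (div_le_div_iff_of_pos_right hb0).1 (h1.trans huv)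

theorem aMon_pos {x : ℝ} (hx : 0 < x) (h : x ≤ 1) : 0 ≤ al5 x ∧ 0 ≤ al4 x ∧ 0 ≤ nd x := by
  have h3 : 0 < 4 - x := by linarith
  have h5 : 0 ≤ al5 x := by
    unfold al5
    positivity
  refine ⟨h5, ?_, ?_⟩
  · unfold al4
    positivity
  · unfold nd
    positivity

theorem aMon_den {x : ℝ} (hx : 0 < x) (h : x ≤ 11 / 16) : 0.016 ≤ 1 - 2.0814 * x ^ 2 := by
  nlinarith

theorem aMon_tge {x : ℝ} (hx : 0 < x) (h : x ≤ 11 / 16) :
    tg x / x = 0.00000145 / (1 - 2.0814 * x ^ 2) ∧ tg x / x ≤ 0.0001 := by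
  have h1 := aMon_den hx h
  have h2 : 1 - 2.0814 * x ^ 2 ≠ 0 := by linarith
  have e : tg x / x = 0.00000145 / (1 - 2.0814 * x ^ 2) := by
    rw [tg, if_pos h]
    field_simp
  refine ⟨e, ?_⟩
  rw [e, div_le_iff₀ (by linarith)]
  linarith

theorem aMon_tg0 {x : ℝ} (hx : 0 < x) : 0 ≤ tg x := by
  unfold tg
  split_ifs with h
  · have h1 := aMon_den hx h
    exact div_nonneg (by positivity) (by linarith)
  · norm_num

theorem aMon_tgr {x b : ℝ} (hx : 0 < x) (h : x ≤ b) (hb : b ≤ 11 / 16) : tg x / x ≤ tg b / b := by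
  have hb0 : 0 < b := hx.trans_le h
  have h1 := aMon_den hb0 hb
  have h2 : 0 < 1 - 2.0814 * b ^ 2 := by linarith
  rw [(aMon_tge hx (h.trans hb)).1, (aMon_tge hb0 hb).1]
  gcongr

theorem aMon_tg {x b : ℝ} (hx : 0 < x) (h : x ≤ b) : tg x ≤ tg b := by
  by_cases hb : b ≤ 11 / 16
  · exact aMon_up hx h (aMon_tg0 hx) (aMon_tgr hx h hb)
  · by_cases h1 : x ≤ 11 / 16
    · have h2 := (aMon_tge hx h1).2
      rw [div_le_iff₀ hx] at h2
      rw [tg.eq_1 b, if_neg hb]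
      linarith
    · rw [tg, tg, if_neg hb, if_neg h1]

theorem aMon_kL {x b : ℝ} (hx : 0 < x) (h : x ≤ b) (hb : b ≤ 1) : kL b ≤ kL x ∧ 0.58 ≤ kL b := by
  have hb0 : 0 < b := hx.trans_le h
  have h1 : 0.897 ≤ sL b := by
    unfold sL
    nlinarith
  have h2 : sL b ≤ sL x := by
    unfold sL
    gcongr
  refine ⟨pow_le_pow_left₀ (by linarith) h2 5, le_trans ?_ (pow_le_pow_left₀ (by norm_num) h1 5)⟩
  norm_num

theorem aMon_hh {x b : ℝ} (hx : 0 < x) (h : x ≤ b) (hb : b ≤ 1) : hh x ≤ hh b := by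
  have hb0 : 0 < b := hx.trans_le h
  obtain ⟨h1, h2⟩ := aMon_kL hx h hb
  have h3 : 0 < kL b := by linarith
  have h4 : nd x ≤ nd b := aMon_up hx h (aMon_pos hx (h.trans hb)).2.2 (aMon_nd hx h hb)
  have h5 := aMon_tg hx h
  unfold hh aZ
  gcongr

theorem aMon_one : al4 1 ≤ 0.01502 ∧ nd 1 ≤ 0.0046 ∧ hh 1 ≤ 1 / 4 := by
  have h1 : nd 1 ≤ 0.0046 := by norm_num [nd, al5]
  refine ⟨by norm_num [al4], h1, ?_⟩
  have h2 := (aMon_kL one_pos le_rfl le_rfl).2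
  have h3 : tg 1 = 0.003 := by rw [tg, if_neg (by norm_num)]
  have h4 : (0.0000008 + 0.008182 * 1) / kL 1 ≤ 0.0142 := by
    rw [div_le_iff₀ (by linarith)]
    linarith
  have h5 : 0.00000035 / kL 1 ≤ 0.000001 := by
    rw [div_le_iff₀ (by linarith)]
    linarith
  unfold hh aZ
  linarith

theorem aMon_cU {a x : ℝ} (ha : 0 ≤ a) (h : a ≤ x) (hx : x ≤ 1) : 0 ≤ cU x ∧ cU x ≤ cU a := by
  have h1 : a ^ 2 ≤ x ^ 2 := by gcongr
  have h2 : x ^ 2 ≤ 1 := by nlinarith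
  have h3 : 0 ≤ a ^ 2 := by positivity
  unfold cU
  generalize a ^ 2 = s at *
  generalize x ^ 2 = t at *
  constructor
  · nlinarith
  · have h4 : 0 ≤ 1 - 0.2057 * (s + t) := by linarith
    nlinarith [mul_nonneg (sub_nonneg.2 h1) h4]

theorem aMon_tT {a x b : ℝ} (ha : 0 ≤ a) (hax : a ≤ x) (hx : 0 < x) (h : x ≤ b) (hb : b ≤ 1) :
    0 ≤ tT x ∧ tT x / x ≤
      (∑ i ∈ Icc 20 28, (Nat.choose 28 i : ℝ) * (0.6169 * b ^ 2) ^ i * cU a ^ (28 - i)) / b := by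
  have hb0 : 0 < b := hx.trans_le h
  obtain ⟨h1, h2⟩ := aMon_cU ha hax (h.trans hb)
  refine ⟨sum_nonneg fun i _ => by positivity, ?_⟩
  rw [tT, sum_div, sum_div]
  refine sum_le_sum fun i hi => ?_
  obtain ⟨j, rfl⟩ : ∃ j, i = j + 1 := ⟨i - 1, by have := (mem_Icc.1 hi).1; omega⟩
  have e : ∀ c y w : ℝ, 0 < y → c * (0.6169 * y ^ 2) ^ (j + 1) * w / y =
      c * ((0.6169 * y ^ 2) ^ j * (0.6169 * y)) * w := fun c y w hy => by
    rw [pow_succ _ j]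
    field_simp
  rw [e _ x _ hx, e _ b _ hb0]
  gcongr

theorem stMon : StMon := by
  refine ⟨fun k hk a ha h => aMon_wk (by norm_num) hk ha ?_, fun a x b ha hax hx h hb => ?_⟩
  · have e : (2 : ℝ) * ((2 ^ 20 : ℕ) : ℝ) = 2 ^ 21 := by norm_num
    rwa [e]
  have hb0 : 0 < b := hx.trans_le h
  have hx1 := h.trans hb
  obtain ⟨p5, p4, pn⟩ := aMon_pos hx hx1
  obtain ⟨o4, on, oh⟩ := aMon_one
  obtain ⟨k1, k2⟩ := aMon_kL hx h hb
  obtain ⟨t1, t2⟩ := aMon_tT ha hax hx h hb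
  have pt := aMon_tg0 hx
  have h4 : 4 * al5 x ≤ hh x := by
    have k3 : 0 < kL x := by linarith
    have q1 : 0 ≤ (0.0000008 + 0.008182 * x) / kL x := by positivity
    have q2 : 0 ≤ 0.00000035 / kL x := by positivity
    have q3 : al5 x ≤ nd x := by
      unfold nd
      linarith
    unfold hh aZ
    linarith
  have hm := aMon_hh hx h hb
  have hb4 : hh b ≤ 1 / 4 := (aMon_hh hb0 hb le_rfl).trans oh
  have h0 : 0 ≤ hh x := by linarith
  have c1 : 0 < 1 - hh b := by linarith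
  refine ⟨p5, p4, pn, pt, t1, h0, (aMon_up hx hx1 p4 (aMon_al4 hx hx1 le_rfl)).trans o4,
    (aMon_up hx hx1 pn (aMon_nd hx hx1 le_rfl)).trans on, h4, hm, hb4, ?_, ?_, k1, k2,
    aMon_al5 hx h hb, aMon_al4 hx h hb, aMon_nd hx h hb, ?_, t2⟩
  · rw [cc, one_le_div (pow_pos (by linarith) 2)]
    nlinarith
  · unfold cc
    gcongr
    linarith
  · split_ifs with s1 s2
    · exact aMon_tgr hx h s1
    · have ha0 : 0 < a := by linarith
      by_cases s3 : x ≤ 11 / 16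
      · refine (aMon_tge hx s3).2.trans ?_
        rw [le_div_iff₀ ha0]
        linarith
      · rw [tg, if_neg s3]
        gcongr
    · by_cases s3 : x ≤ 11 / 16
      · linarith [(aMon_tge hx s3).2]
      · rw [tg, if_neg s3, div_le_one hx]
        linarith [not_le.1 s3]

end

end Pool.Agent.MP_88bd62_nt.U.A
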