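import Pool.Agent.MP_88bd62_nt.U.ASpec

/-! Products in the ring: reduction and rounding. -/

namespace Pool.Agent.MP_88bd62_nt.U.A

open Finset Real Polynomial
open Pool.Agent.MP_22d5c4_co.K (dig ones)

theorem aMw_o (o r s : ℕ) : mwo o r s = o * (2 ^ r + 2 ^ (s - 1)) := by
  simp only [mwo, Nat.mul_eq, Nat.add_eq, Nat.sub_eq, Nat.shiftLeft_eq', Nat.shiftLeft_eq, one_mul]

theorem aMw_v (x n o mg r s : ℕ) : mwv x n o mg r s =
    (mwy x n mg (mwo o r s) >>> s) &&& (o * (2 ^ (r + 1 - s) - 1)) := by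
  simp only [mwv, Nat.mul_eq, Nat.sub_eq, Nat.shiftLeft_eq', Nat.shiftLeft_eq, one_mul,
    Nat.land_eq, Nat.shiftRight_eq, Nat.succ_eq_add_one]

theorem aMw_int {P : ℤ[X]} {n : ℕ} {c : ℝ} (h : Sup P n c) (hc : c ≤ 2 ^ 77) (i : ℕ) :
    |P.coeff i| ≤ 2 ^ 77 := by
  have := (h.2 i).trans hc
  exact_mod_cast this

theorem stMw (hPar : StPar) (hUni : StUni) (hNrm : StNrm) (hMk : StMk) : StMw := by
  intro W n x r s c hW hc hx hs hsr hr hd
  obtain ⟨lo, hi, β, hβ, e1, hlo, hhi, hL, hm⟩ :=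
    hNrm.2.2.2.2 W n x c hW (hc.trans_lt (by norm_num)) hx
  obtain ⟨-, u2, u3, u4, -, u6, -⟩ := hUni
  rw [mwd, an_eq, mwc, an_eq, Nat.ble_eq, Nat.ble_eq] at hd
  obtain ⟨⟨h1, h2⟩, h3⟩ := hd
  have hdig := hMk.2.1 _ n (r + 1) (by omega) h2
  have hy : (mwy x n (2 ^ (80 * n) - 1) (mwo (ones 80 n) r s) : ℤ) =
      2 * ((x % 2 ^ (80 * n) : ℕ) : ℤ) - ((x / 2 ^ (80 * n) : ℕ) : ℤ) +
        (2 ^ r + 2 ^ (s - 1)) * (ones 80 n : ℕ) := by
    rw [mwy, Nat.sub_eq, Nat.cast_sub h1, shr_eq, mwa, hMk.2.2.2.1, aMw_o, Nat.add_eq,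
      Nat.shiftLeft_eq', Nat.shiftLeft_eq]
    generalize x % 2 ^ (80 * n) = a
    generalize x / 2 ^ (80 * n) = b
    push_cast
    ring
  have hs' : (mws x n (ones 80 n) (2 ^ (80 * n) - 1) r s : ℤ) =
      mwv x n (ones 80 n) (2 ^ (80 * n) - 1) r s - 2 ^ (r - s) * (ones 80 n : ℕ) := by
    rw [mws, Nat.sub_eq, Nat.cast_sub h3, Nat.shiftLeft_eq', Nat.shiftLeft_eq, Nat.sub_eq]
    push_cast
    ring
  rw [hs', aMw_v]
  clear h1 h2 h3 hs'
  generalize mwy x n (2 ^ (80 * n) - 1) (mwo (ones 80 n) r s) = y at hdig hy ⊢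
  obtain ⟨v1, v2⟩ := u6 n y s (r + 1 - s) (by omega)
  generalize (y >>> s) &&& (ones 80 n * (2 ^ (r + 1 - s) - 1)) = v at v1 v2 ⊢
  obtain ⟨t1, t2⟩ := u3 n v (2 ^ (r - s))
  have p1 : 2 ^ (r + 1) = 2 ^ s * (2 * 2 ^ (r - s)) := by
    rw [← pow_succ', ← pow_add]
    congr 1
    omega
  have p2 : 2 ^ (r + 1 - s) = 2 * 2 ^ (r - s) := by
    rw [← pow_succ']
    congr 1
    omega
  have hq : ∀ i < n, dig 80 y i / 2 ^ s < 2 * 2 ^ (r - s) := fun i hi =>
    Nat.div_lt_of_lt_mul (p1 ▸ hdig i hi)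
  have hv : ∀ i < n, dig 80 v i = dig 80 y i / 2 ^ s := fun i hi => by
    rw [v2 i hi, p2, Nat.mod_eq_of_lt (hq i hi)]
  have hR : ∀ i, (2 * lo - hi + C β + C (2 ^ r + 2 ^ (s - 1)) * onp n : ℤ[X]).coeff i =
      2 * lo.coeff i - hi.coeff i + (if i = 0 then β else 0) +
        (2 ^ r + 2 ^ (s - 1)) * if i < n then 1 else 0 := fun i => by
    rw [coeff_add, coeff_add, coeff_sub, coeff_ofNat_mul, coeff_C, coeff_C_mul, (u4 n).2.1]
  have hb : ∀ i : ℕ, 0 ≤ (if i = 0 then β else 0) ∧ (if i = 0 then β else 0) ≤ 1 := fun i => by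
    rcases hβ with rfl | rfl <;> split_ifs <;> simp
  have key : ∀ i < n, 2 * lo.coeff i - hi.coeff i + (if i = 0 then β else 0) +
      (2 ^ r + 2 ^ (s - 1)) = (dig 80 y i : ℤ) := fun i hi' => by
    have := u2 (2 * lo - hi + C β + C (2 ^ r + 2 ^ (s - 1)) * onp n) n y (fun j hj => ?_)
      (fun j hj => ?_) ?_ i hi'
    · rwa [hR, if_pos hi', mul_one] at this
    · rw [hR, hlo.1 j hj, hhi.1 j hj, if_neg (by omega), if_neg (by omega)]
      simp
    · rw [hR, if_pos hj, mul_one]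
      have a1 := abs_le.1 (aMw_int hlo hc j)
      have a2 := abs_le.1 (aMw_int hhi hc j)
      have a3 := hb j
      have a4 : (2 : ℤ) ^ r ≤ 2 ^ 78 := pow_le_pow_right₀ one_le_two hr
      have a5 : (2 : ℤ) ^ (s - 1) ≤ 2 ^ 77 := pow_le_pow_right₀ one_le_two (by omega)
      have a6 : (0 : ℤ) < 2 ^ r := by positivity
      have a7 : (0 : ℤ) < 2 ^ (s - 1) := by positivity
      have a8 : (dig 80 y j : ℤ) < 2 ^ 79 := by
        exact_mod_cast (hdig j hj).trans_le (Nat.pow_le_pow_right two_pos (by omega : r + 1 ≤ 79))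
      have a9 : (0 : ℤ) ≤ dig 80 y j := Int.natCast_nonneg _
      rw [abs_lt]
      constructor <;> linarith [a1.1, a1.2, a2.1, a2.2, a3.1, a3.2]
    · have : vl (2 * lo - hi + C β + C (2 ^ r + 2 ^ (s - 1)) * onp n) =
          vl (2 * lo - hi) + β + (2 ^ r + 2 ^ (s - 1)) * (ones 80 n : ℕ) := by
        rw [← (u4 n).1, vl, vl, vl, eval_add, eval_add, eval_C, eval_mul, eval_C]
      rw [this, hy]
      exact (hm.symm.add_right _)
  have hE : Sup (2 * lo - hi - C (2 ^ s) * tp n v (2 ^ (r - s))) n (2 ^ (s - 1) + 1) := by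
    have h0 : ∀ i, n ≤ i → (2 * lo - hi - C (2 ^ s) * tp n v (2 ^ (r - s))).coeff i = 0 :=
      fun i hi' => by
        rw [coeff_sub, coeff_sub, coeff_ofNat_mul, coeff_C_mul, t1, hlo.1 i hi', hhi.1 i hi',
          if_neg (by omega)]
        simp
    refine ⟨h0, fun i => ?_⟩
    rcases le_or_gt n i with hi' | hi'
    · rw [h0 i hi', Int.cast_zero, abs_zero]
      positivity
    · have a1 := key i hi'
      have a2 := hb i
      have a3 : ((2 ^ s * (dig 80 y i / 2 ^ s) + dig 80 y i % 2 ^ s : ℕ) : ℤ) = dig 80 y i := by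
        rw [Nat.div_add_mod]
      have a4 : ((dig 80 y i % 2 ^ s : ℕ) : ℤ) < 2 ^ s := by
        exact_mod_cast Nat.mod_lt (dig 80 y i) (Nat.two_pow_pos s)
      have a5 : (2 : ℤ) ^ s = 2 * 2 ^ (s - 1) := by
        rw [← pow_succ']
        congr 1
        omega
      have a6 : (2 : ℤ) ^ s * 2 ^ (r - s) = 2 ^ r := by
        rw [← pow_add]
        congr 1
        omega
      have a7 : (0 : ℤ) ≤ (dig 80 y i % 2 ^ s : ℕ) := Int.natCast_nonneg _
      rw [Nat.cast_add, Nat.cast_mul, Nat.cast_pow, Nat.cast_ofNat] at a3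
      have : |(2 * lo - hi - C (2 ^ s) * tp n v (2 ^ (r - s))).coeff i| ≤ 2 ^ (s - 1) + 1 := by
        rw [coeff_sub, coeff_sub, coeff_ofNat_mul, coeff_C_mul, t1, if_pos hi', hv i hi', mul_sub,
          a6, abs_le]
        constructor <;> linarith [a2.1, a2.2]
      exact_mod_cast this
  refine ⟨lo, hi, tp n v (2 ^ (r - s)), _, e1, hlo, (add_sub_cancel _ _).symm,
    ⟨fun i hi' => by rw [t1, if_neg (by omega)], fun i => ?_⟩, hE, t2 v1, fun a ha m => ?_⟩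
  · rw [t1]
    split_ifs with hi'
    · have a1 : ((dig 80 y i / 2 ^ s : ℕ) : ℤ) < 2 * 2 ^ (r - s) := by exact_mod_cast hq i hi'
      have a2 : (0 : ℤ) ≤ (dig 80 y i / 2 ^ s : ℕ) := Int.natCast_nonneg _
      have : |(dig 80 v i : ℤ) - 2 ^ (r - s)| ≤ 2 ^ (r - s) := by
        rw [hv i hi', abs_le]
        constructor <;> linarith
      exact_mod_cast this
    · rw [Int.cast_zero, abs_zero]
      positivity
  · have := (hNrm.1 _ _ _ _ (hL a ha) (hPar.2.1 _ _ _ hE)).2.1 m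
    rw [sub_sub_cancel] at this
    rw [le_div_iff₀ (by positivity), sum_mul]
    refine le_trans (le_of_eq (sum_congr rfl fun i _ => ?_)) this
    rw [coeff_C_mul, Int.cast_mul, abs_mul, mul_comm, Int.cast_pow, Int.cast_ofNat,
      abs_of_pos (by positivity : (0 : ℝ) < 2 ^ s)]

end Pool.Agent.MP_88bd62_nt.U.A
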