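import Pool.Agent.MP_88bd62_nt.U.ASpec

/-! One node on the grid. -/

namespace Pool.Agent.MP_88bd62_nt.U.A

open Finset Real Polynomial
open Pool.Agent.MP_22d5c4_co.K (dig ones dig_add)

theorem aNd_mul (n y : ℕ) : ∀ c : ℕ, (∀ t < n, c * dig 80 y t < 2 ^ 80) →
    ∀ t < n, dig 80 (c * y) t = c * dig 80 y t := by
  intro c
  induction c with
  | zero => intro _ t _; simp [dig]
  | succ c ih =>
    intro h t ht
    have h' : ∀ t < n, c * dig 80 y t < 2 ^ 80 := fun t ht =>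
      lt_of_le_of_lt (Nat.mul_le_mul_right _ (Nat.le_succ c)) (h t ht)
    rw [Nat.succ_mul, Nat.succ_mul, dig_add 80 n _ _ (fun t ht => by
      rw [ih h' t ht, ← Nat.succ_mul]; exact h t ht) t ht, ih h' t ht]

theorem aNd_mask : 0xffffffffff0000000000ffffffffff0000000000ffffffffff0000000000ffffffffff0000000000ffffffffff = ones 80 5 * (2 ^ 40 - 1) := by
  decide +kernel

theorem aNd_div (a b : ℕ) (hb : 0 < b) :
    ((a / b : ℕ) : ℝ) ≤ a / b ∧ (a : ℝ) / b - 1 ≤ ((a / b : ℕ) : ℝ) := by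
  refine ⟨Nat.cast_div_le, ?_⟩
  have h := Nat.lt_div_mul_add (a := a) hb
  have hb' : (0 : ℝ) < b := by exact_mod_cast hb
  have h' : (a : ℝ) < (a / b : ℕ) * b + b := by exact_mod_cast h
  rw [sub_le_iff_le_add, div_le_iff₀ hb']
  linarith

theorem aNd_ntp (L w : ℕ) : ntp L w = ((w / 2 ^ (L / 2 ^ 62) *
    tr36 (spl (L / 2 ^ 23 % 2 ^ 17))) >>> 40) &&& (ones 80 5 * (2 ^ 40 - 1)) := by
  rw [← aNd_mask, ← Nat.and_two_pow_sub_one_eq_mod, ← Nat.shiftRight_eq_div_pow,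
    ← Nat.shiftRight_eq_div_pow, ← Nat.shiftRight_eq_div_pow]
  rfl

theorem aNd_ncl (L : ℕ) : ncl L = L / 2 ^ 40 % 2 ^ 22 := by
  rw [← Nat.and_two_pow_sub_one_eq_mod, ← Nat.shiftRight_eq_div_pow]
  rfl

/-- the digits of a node -/
theorem aNd_dig (hNode : StNode) (hUni : StUni) (hSp : StSp) (L w : ℕ)
    (hw : w / 2 ^ (L / 2 ^ 62) < 2 ^ 42) :
    ntp L w < 2 ^ (80 * 5) ∧ ∀ t < 5, dig 80 (ntp L w) t < 2 ^ 40 ∧
      (dig 80 (ntp L w) t : ℝ) ≤ 3 * 2 ^ 35 * (w / 2 ^ 40 / 2 ^ (L / 2 ^ 62)) *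
        tap t ((L / 2 ^ 23 % 2 ^ 17 : ℕ) / 2 ^ 17) ∧
      3 * 2 ^ 35 * (w / 2 ^ 40 / 2 ^ (L / 2 ^ 62)) * tap t ((L / 2 ^ 23 % 2 ^ 17 : ℕ) / 2 ^ 17)
        - (1.1 + w / 2 ^ 40 / 2 ^ (L / 2 ^ 62)) ≤ dig 80 (ntp L w) t := by
  rw [aNd_ntp]
  generalize L / 2 ^ 62 = i at *
  have hf : L / 2 ^ 23 % 2 ^ 17 < 2 ^ 17 := Nat.mod_lt _ (by norm_num)
  generalize L / 2 ^ 23 % 2 ^ 17 = f at *
  have hf' : (f : ℝ) / 2 ^ 17 ≤ 1 := by
    rw [div_le_one (by norm_num)]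
    exact_mod_cast hf.le
  obtain ⟨h0, h1⟩ := hNode.2.2 (f / 2 ^ 17) (by positivity) hf'
  have hs : ∀ t < 5, (dig 80 (tr36 (spl f)) t : ℝ) ≤ 3 * 2 ^ 35 * tap t (f / 2 ^ 17) ∧
      3 * 2 ^ 35 * tap t (f / 2 ^ 17) - 1 ≤ (dig 80 (tr36 (spl f)) t : ℝ) ∧
      tap t (f / 2 ^ 17) ≤ 1 := by
    intro t ht
    have h2 := aNd_div (dig 80 (spl f) t) (2 ^ 36) (by norm_num)
    rw [← (hSp.2 _).2 t (by omega), (hSp.1 f hf).2 t ht] at h2
    push_cast at h2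
    refine ⟨by linarith [h2.1], by linarith [h2.2], ?_⟩
    rw [← h1]
    exact single_le_sum (f := fun t => tap t (f / 2 ^ 17)) (fun t _ => h0 t) (mem_range.2 ht)
  have hs' : ∀ t < 5, dig 80 (tr36 (spl f)) t < 2 ^ 37 := fun t ht => by
    have : (dig 80 (tr36 (spl f)) t : ℝ) < 2 ^ 37 := by linarith [hs t ht]
    exact_mod_cast this
  have hm : ∀ t < 5, w / 2 ^ i * dig 80 (tr36 (spl f)) t < 2 ^ 79 := fun t ht =>
    (Nat.mul_lt_mul'' hw (hs' t ht)).trans_le (by norm_num)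
  obtain ⟨h2, h3⟩ := hUni.2.2.2.2.2.1 5 (w / 2 ^ i * tr36 (spl f)) 40 40 le_rfl
  refine ⟨h2, fun t ht => ?_⟩
  rw [h3 t ht, aNd_mul 5 _ _ (fun t ht => (hm t ht).trans (by norm_num)) t ht]
  refine ⟨Nat.mod_lt _ (by norm_num), ?_⟩
  rw [Nat.mod_eq_of_lt (by have := hm t ht; omega)]
  obtain ⟨h4, h5⟩ := aNd_div (w / 2 ^ i * dig 80 (tr36 (spl f)) t) (2 ^ 40) (by norm_num)
  obtain ⟨h6, h7⟩ := aNd_div w (2 ^ i) (by positivity)
  obtain ⟨h8, h9, h10⟩ := hs t ht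
  have h11 := h0 t
  rw [Nat.cast_mul] at h4 h5
  rw [Nat.cast_pow, Nat.cast_ofNat] at h4 h5 h6 h7
  have e : (w : ℝ) / 2 ^ i = 2 ^ 40 * (w / 2 ^ 40 / 2 ^ i) := by field_simp
  have hW : (0 : ℝ) ≤ w / 2 ^ 40 / 2 ^ i := by positivity
  rw [e] at h6 h7
  generalize (w : ℝ) / 2 ^ 40 / 2 ^ i = W at *
  have hs0 : (0 : ℝ) ≤ dig 80 (tr36 (spl f)) t := Nat.cast_nonneg _
  generalize (dig 80 (tr36 (spl f)) t : ℝ) = s at *
  have hw0 : (0 : ℝ) ≤ (w / 2 ^ i : ℕ) := Nat.cast_nonneg _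
  generalize ((w / 2 ^ i : ℕ) : ℝ) = v at *
  generalize tap t (f / 2 ^ 17) = τ at *
  have h12 : v * s ≤ 2 ^ 40 * W * (3 * 2 ^ 35 * τ) := mul_le_mul h6 h8 hs0 (by positivity)
  have h13 : (2 ^ 40 * W - 1) * s ≤ v * s := mul_le_mul_of_nonneg_right h7 hs0
  have h14 : W * (3 * 2 ^ 35 * τ - 1) ≤ W * s := mul_le_mul_of_nonneg_left h9 hW
  constructor
  · linarith
  · linarith

theorem stNd (hBas : StBas) (hNode : StNode) (hPar : StPar) (hUni : StUni) (hNrm : StNrm)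
    (hSp : StSp) : StNd := by
  intro n L w i hn hL1 hL2 hw hi
  have hi' : i = (L + 4194304) / 2 ^ 62 := hi.trans (Nat.shiftRight_eq_div_pow _ _)
  rw [Nat.add_eq]
  generalize hL : L + 4194304 = M at *
  have hLr : (L : ℝ) + 4194304 = M := by exact_mod_cast hL
  have hn0 : (0 : ℝ) < n := by exact_mod_cast hn
  have hdec : ∃ ρ : ℕ, ρ < 2 ^ 23 ∧ M = i * 2 ^ 62 + M / 2 ^ 40 % 2 ^ 22 * 2 ^ 40 +
      M / 2 ^ 23 % 2 ^ 17 * 2 ^ 23 + ρ := ⟨M % 2 ^ 23, by omega, by omega⟩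
  have hn2 : n < 2 ^ (i + 1) := by
    have h1 : M < (i + 1) * 2 ^ 62 := by omega
    have h2 : (M : ℝ) < (i + 1) * 2 ^ 62 := by exact_mod_cast h1
    have h3 : logb 2 n < ((i + 1 : ℕ) : ℝ) := by push_cast; linarith
    rw [logb_lt_iff_lt_rpow one_lt_two hn0, rpow_natCast] at h3
    exact_mod_cast h3
  have hw' : w / 2 ^ (M / 2 ^ 62) < 2 ^ 42 := by
    rw [← hi', Nat.div_lt_iff_lt_mul (by positivity)]
    calc w ≤ 2 ^ 41 * n := hw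
      _ < 2 ^ 41 * 2 ^ (i + 1) := by gcongr
      _ = 2 ^ 42 * 2 ^ i := by ring
  obtain ⟨h1, h2⟩ := aNd_dig hNode hUni hSp M w hw'
  rw [← hi'] at h2
  rw [aNd_ncl]
  obtain ⟨ρ, hρ, hM⟩ := hdec
  have hf : M / 2 ^ 23 % 2 ^ 17 < 2 ^ 17 := Nat.mod_lt _ (by norm_num)
  generalize M / 2 ^ 23 % 2 ^ 17 = f at *
  generalize M / 2 ^ 40 % 2 ^ 22 = l at *
  generalize ntp M w = z at *
  have hf' : (f : ℝ) / 2 ^ 17 ≤ 1 := by
    rw [div_le_one (by norm_num)]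
    exact_mod_cast hf.le
  obtain ⟨h0, hsum⟩ := hNode.2.2 (f / 2 ^ 17) (by positivity) hf'
  have hW : (0 : ℝ) ≤ w / 2 ^ 40 / 2 ^ i := by positivity
  refine ⟨hn2, h1, fun t ht => (h2 t ht).1, fun N => ?_, fun k hk => ?_⟩
  · calc ∑ j ∈ range N, |(((tp 5 z 0).coeff j : ℤ) : ℝ)|
        = ∑ j ∈ (range N).filter (· < 5), |(((tp 5 z 0).coeff j : ℤ) : ℝ)| := by
          refine (sum_filter_of_ne fun j _ hj => ?_).symm
          by_contra h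
          rw [(hUni.2.2.1 5 z 0).1, if_neg h] at hj
          simp at hj
      _ ≤ ∑ j ∈ range 5, |(((tp 5 z 0).coeff j : ℤ) : ℝ)| :=
          sum_le_sum_of_subset_of_nonneg (fun j hj => mem_range.2 (mem_filter.1 hj).2)
            fun _ _ _ => abs_nonneg _
      _ ≤ ∑ j ∈ range 5, 3 * 2 ^ 35 * ((w : ℝ) / 2 ^ 40 / 2 ^ i) * tap j (f / 2 ^ 17) := by
          refine sum_le_sum fun j hj => ?_
          rw [(hUni.2.2.1 5 z 0).1, if_pos (mem_range.1 hj), sub_zero, Int.cast_natCast,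
            Nat.abs_cast]
          exact (h2 j (mem_range.1 hj)).2.1
      _ = _ := by rw [← mul_sum, hsum, mul_one]
  · obtain ⟨badd, bnat, -, bodd, bpw, -, bk, bK⟩ := hBas
    have hx1 : ‖xk k‖ ≤ 1 := (bk k).2.2.2.2.2.2.2.1
    have hMr : (M : ℝ) = i * 2 ^ 62 + l * 2 ^ 40 + f * 2 ^ 23 + ρ := by exact_mod_cast hM
    have hρr : (ρ : ℝ) < 2 ^ 23 := by exact_mod_cast hρ
    have hρ0 : (0 : ℝ) ≤ ρ := Nat.cast_nonneg _
    have hP := hNode.1 k hk l (f / 2 ^ 17) (2 ^ 22 * (logb 2 n - i)) (by positivity) hf' (by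
      rw [abs_le]
      constructor <;> linarith)
    have e1 : (2 : ℝ) ^ (-(2 ^ 22 * (logb 2 n - i) / 2 ^ 22)) = 2 ^ i / n := by
      rw [mul_div_cancel_left₀ _ (by norm_num), neg_sub, rpow_sub two_pos, rpow_natCast,
        rpow_logb two_pos (by norm_num) hn0]
    rw [e1] at hP
    have e2 : pw n k = xp k (2 ^ 22 * (logb 2 n - i)) * (-1 / 2) ^ i := by
      rw [bpw k n hn, ← bodd k (bK k hk).1, ← pow_mul, ← bnat, ← badd, th]
      congr 1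
      push_cast
      ring
    have e3 : ev k (tp 5 z 0) = ∑ t ∈ range 5, (dig 80 z t : ℂ) * xk k ^ t := by
      simp only [ev, tp, map_sum, aeval_monomial, sub_zero, map_natCast]
    have hE : ‖ev k (tp 5 z 0) - ((3 * 2 ^ 35 * ((w : ℝ) / 2 ^ 40 / 2 ^ i) : ℝ) : ℂ) *
        tv k (f / 2 ^ 17)‖ ≤ 5 * (1.1 + (w : ℝ) / 2 ^ 40 / 2 ^ i) := by
      rw [e3, tv, mul_sum, ← sum_sub_distrib]
      refine (norm_sum_le _ _).trans ((sum_le_card_nsmul _ _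
        (1.1 + (w : ℝ) / 2 ^ 40 / 2 ^ i) fun t ht => ?_).trans (by simp [mul_add]))
      obtain ⟨-, h3, h4⟩ := h2 t (mem_range.1 ht)
      rw [← mul_assoc, ← sub_mul, norm_mul, norm_pow, ← Complex.ofReal_mul,
        ← Complex.ofReal_natCast, ← Complex.ofReal_sub, Complex.norm_real, Real.norm_eq_abs]
      refine (mul_le_of_le_one_right (abs_nonneg _) (pow_le_one₀ (norm_nonneg _) hx1)).trans ?_
      rw [abs_le]
      constructor <;> linarith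
    have e4 : xk k ^ l * ev k (tp 5 z 0) - 3 * 2 ^ 35 * (w / 2 ^ 40) * (-1) ^ i * kap k * pw n k =
        xk k ^ l * (ev k (tp 5 z 0) - ((3 * 2 ^ 35 * ((w : ℝ) / 2 ^ 40 / 2 ^ i) : ℝ) : ℂ) *
          tv k (f / 2 ^ 17)) + ((3 * 2 ^ 35 * ((w : ℝ) / 2 ^ 40 / 2 ^ i) : ℝ) : ℂ) *
          (xk k ^ l * tv k (f / 2 ^ 17) - kap k * xp k (2 ^ 22 * (logb 2 n - i))) := by
      have e5 : (-1 : ℂ) ^ i * (-1 / 2) ^ i = 1 / 2 ^ i := by
        rw [← mul_pow, ← one_div_pow]; norm_num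
      rw [e2]
      push_cast
      linear_combination (-(3 * 2 ^ 35 * ((w : ℂ) / 2 ^ 40) * kap k *
        xp k (2 ^ 22 * (logb 2 n - i)))) * e5
    rw [e4]
    refine (norm_add_le _ _).trans ?_
    rw [norm_mul, norm_mul, norm_pow, Complex.norm_real, Real.norm_of_nonneg (by positivity)]
    have h5 := (mul_le_of_le_one_left (norm_nonneg _)
      (pow_le_one₀ (n := l) (norm_nonneg _) hx1)).trans hE
    have h6 := mul_le_mul_of_nonneg_left hP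
      (show (0 : ℝ) ≤ 3 * 2 ^ 35 * ((w : ℝ) / 2 ^ 40 / 2 ^ i) by positivity)
    have e6 : 3 * 2 ^ 35 * ((w : ℝ) / 2 ^ 40 / 2 ^ i) * (‖kap k‖ * (2 ^ i / n * nd (xi k))) =
        3 * 2 ^ 35 * ‖kap k‖ * (w / 2 ^ 40 / n * nd (xi k)) := by
      field_simp
    rw [e6] at h6
    linarith

end Pool.Agent.MP_88bd62_nt.U.A
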