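import Pool.Agent.MP_88bd62_nt.U.AStm

/-! Nodes off the grid. -/

namespace Pool.Agent.MP_88bd62_nt.U.A

open Finset Real

theorem aNode_pow {y : ℝ} (hy : y ≤ 0.001) : (2 : ℝ) ^ y ≤ 1.001 := by
  have h := rpow_one_add_le_one_add_mul_self (s := 1) (p := 0.001) (by norm_num) (by norm_num)
    (by norm_num)
  rw [one_add_one_eq_two] at h
  exact (rpow_le_rpow_of_exponent_le one_le_two hy).trans (h.trans (by norm_num))

theorem aNode_exp {w : ℂ} {x : ℝ} (hx : x ≤ 1) (hw : ‖w‖ ≤ 0.0000063 * x) :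
    ‖Complex.exp w - 1‖ ≤ 1.001 * (0.00000632 * x) := by
  have h0 := norm_nonneg w
  have h1 := Complex.norm_exp_sub_one_sub_id_le (x := w) (by linarith)
  have h2 := norm_add_le (Complex.exp w - 1 - w) w
  rw [sub_add_cancel] at h2
  nlinarith

theorem aNode_tap (f : ℝ) (h0 : 0 ≤ f) (h1 : f ≤ 1) : ∀ t, 0 ≤ tap t f
  | 0 => by rw [tap]; positivity
  | 1 => by
    obtain ⟨g, rfl⟩ : ∃ g, f = 1 - g := ⟨1 - f, by ring⟩
    have hg : 0 ≤ g := by linarith
    have h2 : g ^ 4 ≤ g ^ 3 := pow_le_pow_of_le_one hg (by linarith) (by norm_num)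
    rw [tap]
    nlinarith [sq_nonneg g]
  | 2 => by
    have h2 : f ^ 3 ≤ f ^ 1 := pow_le_pow_of_le_one h0 h1 (by norm_num)
    have h3 : f ^ 2 ≤ 1 := pow_le_one₀ h0 h1
    have h4 : 0 ≤ f ^ 4 := by positivity
    rw [tap]
    nlinarith
  | 3 => by
    have h2 : f ^ 4 ≤ f ^ 3 := pow_le_pow_of_le_one h0 h1 (by norm_num)
    rw [tap]
    nlinarith [sq_nonneg f]
  | 4 => by rw [tap]; positivity
  | _ + 5 => le_rfl

theorem stNode (hBas : StBas) (hSpl : StSpl) : StNode := by
  obtain ⟨hadd, hnat, hnorm, -, -, -, hz, hK⟩ := hBas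
  refine ⟨fun k hk l f P h0 h1 hP => ?_, fun k hk => ?_, fun f h0 h1 => ⟨aNode_tap f h0 h1, ?_⟩⟩
  · obtain ⟨d, rfl⟩ : ∃ d, P = l + f - d := ⟨l + f - P, by ring⟩
    have hd : |d| ≤ 0.000004 := by
      rwa [show l + f - d - l - f = -d by ring, abs_neg] at hP
    generalize hP' : l + f - d = P
    have e1 : xk k ^ l = xp k P * xp k (d - f) := by
      rw [← hadd, ← hnat, ← hP']; congr 1; ring
    have e2 : xk k ^ l * tv k f - kap k * xp k P =
        xp k P * xp k (d - f) * (tv k f - kap k * xp k f) + kap k * xp k P * (xp k d - 1) := by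
      have e3 : xp k (d - f) * xp k f = xp k d := by rw [← hadd, sub_add_cancel]
      rw [e1, ← e3]; ring
    have h2 : ‖xp k (d - f)‖ ≤ 1.001 := by
      rw [hnorm]
      refine aNode_pow ?_
      rw [← neg_div, div_le_iff₀ (by positivity)]
      linarith [(abs_le.1 hd).1]
    obtain ⟨-, -, h3, h4, -⟩ := hz k
    have h5 : ‖xp k d - 1‖ ≤ 1.001 * (0.00000632 * xi k) := by
      refine aNode_exp (hK k hk).2.1.le ?_
      rw [norm_neg, norm_mul, h3, Complex.norm_real, Real.norm_eq_abs]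
      have h6 : π / 2 * |d| ≤ 0.0000063 := by nlinarith [pi_lt_d4, pi_pos, abs_nonneg d]
      nlinarith
    have h7 := (hSpl k hk).1 f h0 h1
    rw [e2, ← hnorm k P]
    refine (norm_add_le _ _).trans ?_
    simp only [norm_mul]
    refine (add_le_add (mul_le_mul (mul_le_mul_of_nonneg_left h2 (norm_nonneg _)) h7
      (norm_nonneg _) (by positivity)) (mul_le_mul_of_nonneg_left h5 (by positivity))).trans
      (le_of_eq ?_)
    rw [nd]; ring
  · have h := (hSpl k hk).1 0 le_rfl zero_le_one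
    have e : tv k 0 = b5 (xk k) / 24 := by
      simp [tv, b5, tap, sum_range_succ]
      ring
    rwa [e, show xp k 0 = 1 by simp [xp], mul_one] at h
  · simp only [sum_range_succ, range_zero, sum_empty, tap]
    ring

end Pool.Agent.MP_88bd62_nt.U.A
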