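import Pool.Agent.MP_88bd62_nt.U.AStm

/-! Norm inequalities for integer polynomials and the wrap of a packed value. -/

namespace Pool.Agent.MP_88bd62_nt.U.A

open Finset Real Polynomial

theorem aNrm_nonneg {P : ℤ[X]} {a : ℝ} (h : L1 P a) : 0 ≤ a := by
  simpa using h 0

theorem aNrm_coeff {P : ℤ[X]} {a : ℝ} (h : L1 P a) (i : ℕ) : |(P.coeff i : ℝ)| ≤ a := by
  refine le_trans ?_ (h (i + 1))
  exact Finset.single_le_sum (f := fun j => |(P.coeff j : ℝ)|) (fun j _ => abs_nonneg _)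
    (Finset.mem_range.2 (Nat.lt_succ_self i))

theorem aNrm_add {P Q : ℤ[X]} {a b : ℝ} (hP : L1 P a) (hQ : L1 Q b) : L1 (P + Q) (a + b) := by
  intro n
  refine le_trans ?_ (add_le_add (hP n) (hQ n))
  rw [← Finset.sum_add_distrib]
  refine Finset.sum_le_sum fun i _ => ?_
  rw [coeff_add]; push_cast
  exact abs_add_le _ _

theorem aNrm_neg {P : ℤ[X]} {a : ℝ} (hP : L1 P a) : L1 (-P) a := by
  intro n
  refine le_trans (le_of_eq ?_) (hP n)
  refine Finset.sum_congr rfl fun i _ => ?_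
  rw [coeff_neg]; push_cast
  exact abs_neg _

theorem aNrm_sub {P Q : ℤ[X]} {a b : ℝ} (hP : L1 P a) (hQ : L1 Q b) : L1 (P - Q) (a + b) := by
  rw [sub_eq_add_neg]
  exact aNrm_add hP (aNrm_neg hQ)

theorem aNrm_tri (f g : ℕ → ℝ) (hf : ∀ i, 0 ≤ f i) (hg : ∀ i, 0 ≤ g i) (n : ℕ) :
    ∑ i ∈ range n, ∑ p ∈ antidiagonal i, f p.1 * g p.2 ≤
      (∑ i ∈ range n, f i) * ∑ i ∈ range n, g i := by
  rw [Finset.sum_mul_sum, ← Finset.sum_product', Finset.sum_sigma']
  have key : ∑ x ∈ (range n).sigma (fun i => antidiagonal i), f x.2.1 * g x.2.2 =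
      ∑ p ∈ (range n ×ˢ range n).filter (fun p => p.1 + p.2 < n), f p.1 * g p.2 := by
    refine Finset.sum_bij' (fun x _ => x.2) (fun p _ => ⟨p.1 + p.2, p⟩) ?_ ?_ ?_ ?_ ?_
    · rintro ⟨i, p⟩ hx
      simp only [Finset.mem_sigma, Finset.mem_range, HasAntidiagonal.mem_antidiagonal] at hx
      simp only [Finset.mem_filter, Finset.mem_product, Finset.mem_range]
      omega
    · intro p hp
      simp only [Finset.mem_filter, Finset.mem_product, Finset.mem_range] at hp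
      simp only [Finset.mem_sigma, Finset.mem_range, HasAntidiagonal.mem_antidiagonal]
      exact ⟨hp.2, trivial⟩
    · rintro ⟨i, p⟩ hx
      simp only [Finset.mem_sigma, Finset.mem_range, HasAntidiagonal.mem_antidiagonal] at hx
      obtain ⟨_, rfl⟩ := hx
      rfl
    · intro p _
      rfl
    · intro x _
      rfl
  rw [key]
  exact Finset.sum_le_sum_of_subset_of_nonneg (Finset.filter_subset _ _)
    fun p _ _ => mul_nonneg (hf _) (hg _)

theorem aNrm_mul {P Q : ℤ[X]} {a b : ℝ} (hP : L1 P a) (hQ : L1 Q b) : L1 (P * Q) (a * b) := by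
  intro n
  calc ∑ i ∈ range n, |((P * Q).coeff i : ℝ)|
      ≤ ∑ i ∈ range n, ∑ p ∈ antidiagonal i, |(P.coeff p.1 : ℝ)| * |(Q.coeff p.2 : ℝ)| := by
        refine Finset.sum_le_sum fun i _ => ?_
        rw [coeff_mul]; push_cast
        refine le_trans (Finset.abs_sum_le_sum_abs _ _) (le_of_eq ?_)
        exact Finset.sum_congr rfl fun p _ => abs_mul _ _
    _ ≤ (∑ i ∈ range n, |(P.coeff i : ℝ)|) * ∑ i ∈ range n, |(Q.coeff i : ℝ)| :=
        aNrm_tri (fun i => |(P.coeff i : ℝ)|) (fun i => |(Q.coeff i : ℝ)|)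
          (fun _ => abs_nonneg _) (fun _ => abs_nonneg _) n
    _ ≤ a * b := mul_le_mul (hP n) (hQ n) (Finset.sum_nonneg fun _ _ => abs_nonneg _)
          (aNrm_nonneg hP)

theorem aNrm_mono (n : ℕ) (c : ℤ) : L1 (monomial n c) |(c : ℝ)| := by
  intro m
  have : ∀ i, |((monomial n c : ℤ[X]).coeff i : ℝ)| = if n = i then |(c : ℝ)| else 0 := by
    intro i
    rw [coeff_monomial]
    split_ifs <;> simp
  simp only [this, Finset.sum_ite_eq]
  split_ifs
  · exact le_rfl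
  · exact abs_nonneg _

theorem aNrm_X {P : ℤ[X]} {a : ℝ} (n : ℕ) (hP : L1 P a) : L1 (X ^ n * P) a := by
  have h := aNrm_mul (aNrm_mono n 1) hP
  rw [← X_pow_eq_monomial] at h
  simpa using h

theorem aNrm_C {P : ℤ[X]} {a : ℝ} (c : ℤ) (hP : L1 P a) : L1 (C c * P) (|(c : ℝ)| * a) := by
  have h := aNrm_mul (aNrm_mono 0 c) hP
  rwa [monomial_zero_left] at h

theorem aNrm_sup {P Q : ℤ[X]} {a b : ℝ} {m n : ℕ} (hP : L1 P a) (hm : ∀ i, m ≤ i → P.coeff i = 0)
    (hQ : Sup Q n b) : Sup (P * Q) (m + n) (a * b) := by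
  constructor
  · intro i hi
    rw [coeff_mul]
    refine Finset.sum_eq_zero fun p hp => ?_
    have := HasAntidiagonal.mem_antidiagonal.1 hp
    by_cases h1 : m ≤ p.1
    · rw [hm _ h1, zero_mul]
    · rw [hQ.1 p.2 (by omega), mul_zero]
  · intro i
    have hb : 0 ≤ b := le_trans (abs_nonneg _) (hQ.2 0)
    rw [coeff_mul]; push_cast
    refine le_trans (Finset.abs_sum_le_sum_abs _ _) ?_
    calc ∑ p ∈ antidiagonal i, |(P.coeff p.1 : ℝ) * (Q.coeff p.2 : ℝ)|
        ≤ ∑ p ∈ antidiagonal i, |(P.coeff p.1 : ℝ)| * b := by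
          refine Finset.sum_le_sum fun p _ => ?_
          rw [abs_mul]
          exact mul_le_mul_of_nonneg_left (hQ.2 _) (abs_nonneg _)
      _ = (∑ j ∈ range (i + 1), |(P.coeff j : ℝ)|) * b := by
          rw [Finset.sum_mul,
            Finset.Nat.sum_antidiagonal_eq_sum_range_succ (fun x _ => |(P.coeff x : ℝ)| * b)]
      _ ≤ a * b := mul_le_mul_of_nonneg_right (hP _) hb

theorem aNrm_sum {ι : Type} (s : Finset ι) (P : ι → ℤ[X]) (a : ι → ℝ)
    (h : ∀ i ∈ s, L1 (P i) (a i)) : L1 (∑ i ∈ s, P i) (∑ i ∈ s, a i) := by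
  classical
  induction s using Finset.induction_on with
  | empty => intro n; simp
  | insert j s hj ih =>
    rw [Finset.sum_insert hj, Finset.sum_insert hj]
    exact aNrm_add (h j (Finset.mem_insert_self _ _))
      (ih fun i hi => h i (Finset.mem_insert_of_mem hi))

/-- The polynomial with the `n` coefficients `u 0, …, u (n - 1)`. -/
noncomputable def aNrm_cut (n : ℕ) (u : ℕ → ℤ) : ℤ[X] := ∑ i ∈ range n, monomial i (u i)

theorem aNrm_cut_coeff (n : ℕ) (u : ℕ → ℤ) (j : ℕ) :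
    (aNrm_cut n u).coeff j = if j < n then u j else 0 := by
  simp only [aNrm_cut, finsetSum_coeff, coeff_monomial, Finset.sum_ite_eq', Finset.mem_range]

theorem aNrm_cut_sup (n : ℕ) (u : ℕ → ℤ) (c : ℝ) (h : ∀ i, |(u i : ℝ)| ≤ c) :
    Sup (aNrm_cut n u) n c := by
  constructor
  · intro i hi
    rw [aNrm_cut_coeff, if_neg (by omega)]
  · intro i
    rw [aNrm_cut_coeff]
    split_ifs
    · exact h i
    · simpa using le_trans (abs_nonneg _) (h 0)

theorem aNrm_cut_L1 (n : ℕ) (u : ℕ → ℤ) :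
    L1 (aNrm_cut n u) (∑ i ∈ range n, |(u i : ℝ)|) :=
  aNrm_sum (range n) (fun i => monomial i (u i)) (fun i => |(u i : ℝ)|)
    fun i _ => aNrm_mono i (u i)

theorem aNrm_cut_val (B : ℤ) (hB : 2 ≤ B) (n : ℕ) (u : ℕ → ℤ) (h : ∀ i, |u i| ≤ B - 1) :
    |(aNrm_cut n u).eval B| < B ^ n := by
  have key : |(aNrm_cut n u).eval B| ≤ B ^ n - 1 := by
    induction n with
    | zero => simp [aNrm_cut]
    | succ n ih =>
      have e : (aNrm_cut (n + 1) u).eval B = (aNrm_cut n u).eval B + u n * B ^ n := by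
        simp only [aNrm_cut, Finset.sum_range_succ, eval_add, eval_monomial]
      have hp : 0 < B ^ n := pow_pos (by omega) n
      have h2 : |u n * B ^ n| ≤ (B - 1) * B ^ n := by
        rw [abs_mul, abs_of_pos hp]
        exact mul_le_mul_of_nonneg_right (h n) hp.le
      rw [e]
      refine le_trans (abs_add_le _ _) ?_
      have : B ^ (n + 1) - 1 = B ^ n - 1 + (B - 1) * B ^ n := by ring
      rw [this]
      exact add_le_add ih h2
  omega

theorem aNrm_split (W : ℤ[X]) (n : ℕ) (h : ∀ i, 2 * n ≤ i → W.coeff i = 0) :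
    W = aNrm_cut n (fun i => W.coeff i) + X ^ n * aNrm_cut n (fun i => W.coeff (n + i)) := by
  ext j
  rw [coeff_add, coeff_X_pow_mul', aNrm_cut_coeff, aNrm_cut_coeff]
  by_cases h1 : j < n
  · rw [if_pos h1, if_neg (by omega), add_zero]
  · rw [if_neg h1, if_pos (by omega), zero_add]
    by_cases h2 : j - n < n
    · rw [if_pos h2]
      congr 1
      omega
    · rw [if_neg h2]
      exact h j (by omega)

theorem aNrm_wrap (M l h x : ℤ) (hM : 0 < M) (hl : |l| < M) (hx : x = l + M * h) :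
    ∃ β : ℤ, (β = 0 ∨ β = 1) ∧ 2 * (x % M) - x / M ≡ 2 * l - h + β [ZMOD M] := by
  have hl' := abs_lt.1 hl
  by_cases h0 : 0 ≤ l
  · have := (Int.ediv_emod_unique (a := x) (r := l) (q := h) hM).2 ⟨hx.symm, h0, hl'.2⟩
    refine ⟨0, Or.inl rfl, ?_⟩
    rw [this.1, this.2, add_zero]
  · have := (Int.ediv_emod_unique (a := x) (r := l + M) (q := h - 1) hM).2
      ⟨by rw [hx]; ring, by omega, by omega⟩
    refine ⟨1, Or.inr rfl, ?_⟩
    rw [this.1, this.2]
    exact Int.modEq_iff_dvd.2 ⟨-2, by ring⟩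

theorem aNrm_five (W : ℤ[X]) (n x : ℕ) (c : ℝ) (hW : Sup W (2 * n) c) (hc : c < 2 ^ 79)
    (hx : vl W = x) :
    ∃ (lo hi : ℤ[X]) (β : ℤ), (β = 0 ∨ β = 1) ∧ W = lo + X ^ n * hi ∧ Sup lo n c ∧ Sup hi n c ∧
      (∀ a, L1 W a → L1 (2 * lo - hi) (2 * a)) ∧
      2 * ((x % 2 ^ (80 * n) : ℕ) : ℤ) - ((x / 2 ^ (80 * n) : ℕ) : ℤ) ≡ vl (2 * lo - hi) + β
        [ZMOD 2 ^ (80 * n)] := by
  have hs := aNrm_split W n hW.1
  set lo := aNrm_cut n (fun i => W.coeff i) with hlo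
  set hi := aNrm_cut n (fun i => W.coeff (n + i)) with hhi
  have hu : ∀ i, |W.coeff i| ≤ (2 : ℤ) ^ 80 - 1 := by
    intro i
    have h1 : |(W.coeff i : ℝ)| < 2 ^ 79 := lt_of_le_of_lt (hW.2 i) hc
    have h2 : |W.coeff i| < (2 : ℤ) ^ 79 := by exact_mod_cast h1
    have h3 : (2 : ℤ) ^ 79 ≤ 2 ^ 80 - 1 := by norm_num
    omega
  have hv : |vl lo| < (2 : ℤ) ^ (80 * n) := by
    rw [pow_mul]
    exact aNrm_cut_val (2 ^ 80) (by norm_num) n _ hu
  have hxe : (x : ℤ) = vl lo + 2 ^ (80 * n) * vl hi := by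
    rw [← hx, pow_mul]
    conv_lhs => rw [hs]
    simp only [vl, eval_add, eval_mul, eval_pow, eval_X]
  obtain ⟨β, hβ, hm⟩ := aNrm_wrap (2 ^ (80 * n)) (vl lo) (vl hi) x (by positivity) hv hxe
  refine ⟨lo, hi, β, hβ, hs, aNrm_cut_sup n _ c hW.2, aNrm_cut_sup n _ c fun i => hW.2 (n + i),
    ?_, ?_⟩
  · intro a ha
    have h1 := aNrm_C 2 (aNrm_cut_L1 n (fun i => W.coeff i))
    have h2 := aNrm_cut_L1 n (fun i => W.coeff (n + i))
    have h3 := aNrm_sub h1 h2
    have h4 := ha (n + n)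
    rw [Finset.sum_range_add] at h4
    have h5 : 0 ≤ ∑ i ∈ range n, |(W.coeff (n + i) : ℝ)| :=
      Finset.sum_nonneg fun _ _ => abs_nonneg _
    have e : (C (2 : ℤ) : ℤ[X]) = 2 := rfl
    rw [e] at h3
    intro m
    refine le_trans (h3 m) ?_
    have e2 : |((2 : ℤ) : ℝ)| = 2 := by norm_num
    rw [e2]
    linarith
  · have e : vl (2 * lo - hi) = 2 * vl lo - vl hi := by
      simp only [vl, eval_sub, eval_mul, eval_ofNat]
    rw [e, Int.natCast_mod, Int.natCast_div, Nat.cast_pow, Nat.cast_ofNat]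
    exact hm

theorem stNrm : StNrm := by
  refine ⟨fun P Q a b hP hQ => ⟨aNrm_add hP hQ, aNrm_sub hP hQ, aNrm_mul hP hQ⟩,
    fun P a n c hP => ⟨aNrm_X n hP, ?_, aNrm_neg hP, aNrm_coeff hP⟩,
    fun P Q a b m n hP hm hQ => aNrm_sup hP hm hQ,
    fun s P a h => aNrm_sum s P a h,
    fun W n x c hW hc hx => aNrm_five W n x c hW hc hx⟩
  rw [Int.cast_abs]
  exact aNrm_C c hP

end Pool.Agent.MP_88bd62_nt.U.A
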