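import Pool.Agent.MP_88bd62_nt.U.AStm

/-! The error of the approximate coefficients. -/

namespace Pool.Agent.MP_88bd62_nt.U.A

open Finset Real Polynomial

theorem aP_alg (R B dH dr W A dA z T : ℂ) (hz : z ≠ 0) :
    R * (4 / 9 * (B + dH) * (dr + W / z) - (A + dA) / z) - T - (4 / 9 * B * W - A) / z =
      R * (4 / 9 * (B + dH)) * dr
        + ((R - 1) * (4 / 9 * B * W - A) + R * (4 / 9 * dH * W - dA)) / z - T := by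
  field_simp
  ring

theorem aP_nrm (R B dH dr W A dA z T : ℂ) (al n y : ℝ) (hz : z ≠ 0) (hal : 0 ≤ al) (hn : 0 ≤ n)
    (hn' : n ≤ 0.0046) (hR : ‖R‖ ≤ 1.0153) (hR1 : ‖R - 1‖ ≤ 1.0153 * al + 0.00000008)
    (hB : ‖B‖ ≤ 1.0321) (hH : ‖dH‖ ≤ 1.0321 * n + 0.000061121) (hW : ‖W‖ ≤ 2.2341 * y ^ 2)
    (hA : ‖A‖ ≤ 2.4558) (hdA : ‖dA‖ ≤ 2.4558 * n + 0.00000268) :
    ‖R * (4 / 9 * (B + dH) * (dr + W / z) - (A + dA) / z) - T - (4 / 9 * B * W - A) / z‖ ≤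
      0.468 * ‖dr‖ + (0.192 * (1.026 * al + 1.026 * n) * (y ^ 4 + 7) + 2.494 * (al + n)
        + 0.00006171 * y ^ 2 + 0.00000292) / ‖z‖ + ‖T‖ := by
  rw [aP_alg _ _ _ _ _ _ _ _ _ hz]
  have h49 : ‖(4 / 9 : ℂ)‖ = 4 / 9 := by simp
  have hy : 0 ≤ y ^ 2 := sq_nonneg y
  have h1 : ‖R * (4 / 9 * (B + dH)) * dr‖ ≤ 0.468 * ‖dr‖ := by
    rw [norm_mul, norm_mul, norm_mul, h49]
    refine mul_le_mul_of_nonneg_right ?_ (norm_nonneg _)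
    have h : ‖B + dH‖ ≤ 1.03691 := (norm_add_le _ _).trans (by linarith)
    calc ‖R‖ * (4 / 9 * ‖B + dH‖) ≤ 1.0153 * (4 / 9 * 1.03691) := by gcongr
      _ ≤ 0.468 := by norm_num
  have h2 : ‖4 / 9 * B * W - A‖ ≤ 1.025 * y ^ 2 + 2.4558 := by
    refine (norm_sub_le _ _).trans (add_le_add ?_ hA)
    rw [norm_mul, norm_mul, h49]
    calc 4 / 9 * ‖B‖ * ‖W‖ ≤ 4 / 9 * 1.0321 * (2.2341 * y ^ 2) := by gcongr
      _ ≤ 1.025 * y ^ 2 := by linarith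
  have h3 : ‖4 / 9 * dH * W - dA‖ ≤
      4 / 9 * (1.0321 * n + 0.000061121) * (2.2341 * y ^ 2) + (2.4558 * n + 0.00000268) := by
    refine (norm_sub_le _ _).trans (add_le_add ?_ hdA)
    rw [norm_mul, norm_mul, h49]
    gcongr
  have h4 : ‖(R - 1) * (4 / 9 * B * W - A) + R * (4 / 9 * dH * W - dA)‖ ≤
      (1.0153 * al + 0.00000008) * (1.025 * y ^ 2 + 2.4558) + 1.0153 *
        (4 / 9 * (1.0321 * n + 0.000061121) * (2.2341 * y ^ 2) + (2.4558 * n + 0.00000268)) := by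
    refine (norm_add_le _ _).trans (add_le_add ?_ ?_)
    · rw [norm_mul]; gcongr
    · rw [norm_mul]; gcongr
  have h5 : 5.29 * y ^ 2 ≤ y ^ 4 + 7 := by nlinarith [sq_nonneg (y ^ 2 - 2.645)]
  have h6 : al * (5.29 * y ^ 2) ≤ al * (y ^ 4 + 7) := mul_le_mul_of_nonneg_left h5 hal
  have h7 : n * (5.29 * y ^ 2) ≤ n * (y ^ 4 + 7) := mul_le_mul_of_nonneg_left h5 hn
  have h8 : 0 ≤ al * y ^ 2 := mul_nonneg hal hy
  have h9 : 0 ≤ n * y ^ 2 := mul_nonneg hn hy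
  have h10 : ‖(R - 1) * (4 / 9 * B * W - A) + R * (4 / 9 * dH * W - dA)‖ ≤
      0.192 * (1.026 * al + 1.026 * n) * (y ^ 4 + 7) + 2.494 * (al + n)
        + 0.00006171 * y ^ 2 + 0.00000292 := h4.trans (by nlinarith)
  refine (norm_sub_le _ _).trans (add_le_add ((norm_add_le _ _).trans (add_le_add h1 ?_)) le_rfl)
  rw [norm_div]
  exact div_le_div_of_nonneg_right h10 (norm_nonneg _)

theorem aP_id (I u v x z κ₄ q Y H P E S B dH dr W A dA : ℂ) (hz : z ≠ 0) (hx : 1 - x ≠ 0)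
    (hq : q = (1 - x) / z) (hY : 2 * H * P = 2 ^ 35 * Y + E)
    (hH : H / (3 * 2 ^ 36) = κ₄ * q * (B + dH)) (hP : dr = q * v * P / 2 ^ 22 - W / z)
    (hS : S / (27 * 2 ^ 22) = κ₄ * q * (A + dA)) :
    I * u / 2 ^ 26 * (v * Y - S / (1 - x)) / (27 * 2 ^ 22) =
      I * u / 2 ^ 26 * κ₄ * (4 / 9 * (B + dH) * (dr + W / z) - (A + dA) / z)
        - I * u / 2 ^ 26 * v * E / (27 * 2 ^ 57) := by
  have e1 : Y = (2 * H * P - E) / 2 ^ 35 := by rw [hY]; ring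
  have e2 : H = 3 * 2 ^ 36 * (κ₄ * q * (B + dH)) := by rw [← hH]; ring
  have e3 : S = 27 * 2 ^ 22 * (κ₄ * q * (A + dA)) := by rw [← hS]; ring
  rw [e1, e2, e3, hP, hq]
  field_simp
  ring

theorem aP_rel (κ H B : ℂ) (a b : ℝ) (hκ : 0.58 ≤ ‖κ‖) (hb : 0 ≤ b)
    (h : ‖H - κ * B‖ ≤ ‖κ‖ * a + b) : ∃ d : ℂ, H = κ * (B + d) ∧ ‖d‖ ≤ a + b / 0.58 := by
  have h0 : 0 < ‖κ‖ := lt_of_lt_of_le (by norm_num) hκ
  have h1 : κ ≠ 0 := norm_pos_iff.1 h0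
  refine ⟨(H - κ * B) / κ, by field_simp; ring, ?_⟩
  rw [norm_div, div_le_iff₀ h0]
  refine h.trans ?_
  have : b ≤ b / 0.58 * ‖κ‖ := by
    calc b = b / 0.58 * 0.58 := by field_simp
      _ ≤ b / 0.58 * ‖κ‖ := by gcongr
  linarith

theorem aP_R (I u x κ₄ : ℂ) (al : ℝ) (hal0 : 0 ≤ al) (hal : al ≤ 0.01502) (hu : ‖u‖ ≤ 1.00001)
    (hux : u * x ^ 15 = 1) (hI : ‖I * (1 + 4 * x + x ^ 2) - 6 * 2 ^ 26 * x ^ 15‖ ≤ 32)
    (hκ : ‖(1 + 4 * x + x ^ 2) / 6 - κ₄‖ ≤ ‖κ₄‖ * al) :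
    ‖I * u / 2 ^ 26 * κ₄‖ ≤ 1.0153 ∧ ‖I * u / 2 ^ 26 * κ₄ - 1‖ ≤ 1.0153 * al + 0.00000008 := by
  have e : I * u / 2 ^ 26 * κ₄ - 1 = (I * (1 + 4 * x + x ^ 2) - 6 * 2 ^ 26 * x ^ 15) * u
      / (6 * 2 ^ 26) - I * u / 2 ^ 26 * ((1 + 4 * x + x ^ 2) / 6 - κ₄) := by
    linear_combination hux
  have h1 : ‖(I * (1 + 4 * x + x ^ 2) - 6 * 2 ^ 26 * x ^ 15) * u / (6 * 2 ^ 26)‖ ≤ 0.00000008 := by
    rw [norm_div, norm_mul, show ‖(6 * 2 ^ 26 : ℂ)‖ = 6 * 2 ^ 26 by simp]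
    calc _ ≤ 32 * 1.00001 / (6 * 2 ^ 26) := by gcongr
      _ ≤ (0.00000008 : ℝ) := by norm_num
  have h2 : ‖I * u / 2 ^ 26 * ((1 + 4 * x + x ^ 2) / 6 - κ₄)‖ ≤ ‖I * u / 2 ^ 26 * κ₄‖ * al := by
    rw [norm_mul, norm_mul _ κ₄, mul_assoc]
    exact mul_le_mul_of_nonneg_left hκ (norm_nonneg _)
  have h3 : ‖I * u / 2 ^ 26 * κ₄ - 1‖ ≤ 0.00000008 + ‖I * u / 2 ^ 26 * κ₄‖ * al := by
    rw [e]
    exact (norm_sub_le _ _).trans (add_le_add h1 h2)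
  generalize I * u / 2 ^ 26 * κ₄ = R at h3 ⊢
  have h4 : ‖R‖ ≤ ‖R - 1‖ + 1 := by simpa using norm_add_le (R - 1) 1
  have h5 : ‖R‖ * al ≤ ‖R‖ * 0.01502 := mul_le_mul_of_nonneg_left hal (norm_nonneg _)
  have h6 : ‖R‖ ≤ 1.0153 := by linarith
  have h7 : ‖R‖ * al ≤ 1.0153 * al := mul_le_mul_of_nonneg_right h6 hal0
  exact ⟨h6, by linarith⟩

theorem aP_pw (n : ℕ) (k : ℤ) (hn : 0 < n) : ‖pw n k‖ = 1 / n := by
  rw [pw, Complex.norm_natCast_cpow_of_pos hn]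
  simp [sk, Real.rpow_neg_one]

theorem aP_E0 : (∀ n ∈ E0, 0 < n) ∧ E0.card = 11 := by
  constructor
  · decide
  · decide

theorem aP_pt (hBas : StBas) (hSpl : StSpl) (hHa : StHa) (hHb : StHb) (hPar : StPar) (hI : StI)
    (hMon : StMon) (HP PW Y e : ℤ[X]) (A : ℕ → ℤ[X]) (l : ℕ → ℕ) (k : ℤ) (hk : k ∈ K20)
    (hH : ‖ev k HP / (3 * 2 ^ 36) - kap k * HBl k‖ ≤
      ‖kap k‖ * (1.0321 * nd (xi k)) + 0.00000065)
    (hY : 2 * ev k HP * ev k PW = 2 ^ 35 * ev k Y + ev k e) (hA : SpecA A l) :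
    ‖ps Y A l k - (FS k - Ser a1 k) / zk k‖ ≤ 0.468 * ‖dR PW k‖ +
      (gX (xi k) * (yz k ^ 4 + 7) + gB (xi k) + 0.00006171 * yz k ^ 2 + 0.00000292) / ‖zk k‖
      + 3.0001 / (27 * 2 ^ 57) * ‖ev k e‖ := by
  obtain ⟨b1, b2, b3, -, -, -, b7, b8⟩ := hBas
  obtain ⟨hz, -, -, hxi, -, hx0, hx1, -⟩ := b7 k
  obtain ⟨hodd, hxi1, -, hk1, hk2, -⟩ := b8 k hk
  obtain ⟨-, hal0, hn0, -, -, -, hal, hn, -⟩ := hMon.2 0 (xi k) 1 le_rfl hxi.le hxi hxi1.le le_rfl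
  obtain ⟨hD, hD', hζ, hFS, -, hSer⟩ := hHa k hodd
  obtain ⟨hB, hB'⟩ := hHb k hodd
  obtain ⟨i1, -, i3, -, -, i6⟩ := hI
  have hκ : 0.58 ≤ ‖kap k‖ := hk2.trans hk1
  have hu : ‖xp k (-15)‖ ≤ 1.00001 := by
    rw [b3]
    have := rpow_one_add_le_one_add_mul_self (s := 1) (p := -(-15 / 2 ^ 22)) (by norm_num)
      (by norm_num) (by norm_num)
    rw [one_add_one_eq_two] at this
    exact this.trans (by norm_num)
  have hux : xp k (-15) * xk k ^ 15 = 1 := by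
    have h15 := b2 k 15
    have h0 := b2 k 0
    rw [Nat.cast_ofNat] at h15
    rw [Nat.cast_zero, pow_zero] at h0
    rw [← h15, ← b1, neg_add_cancel, h0]
  have hv : ‖xp k 527‖ ≤ 1 := by
    rw [b3]
    exact rpow_le_one_of_one_le_of_nonpos (by norm_num) (by norm_num)
  obtain ⟨hR, hR1⟩ := aP_R (ev k (lp IL)) (xp k (-15)) (xk k) (kap4 k) (al4 (xi k)) hal0 hal hu hux
    (i3 k) (hSpl k hk).2
  have hkq : kap k = kap4 k * qq k := by rw [kap, kap4]; ring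
  obtain ⟨d, hd, hd'⟩ := aP_rel _ _ _ _ _ hκ (by norm_num) hH
  have hS : ‖(∑ n ∈ E0, xk k ^ l n * ev k (A n)) / (27 * 2 ^ 22) - kap k * Ser a1 k‖ ≤
      ‖kap k‖ * (2.4558 * nd (xi k)) + 11 * (16 / (27 * 2 ^ 22)) := by
    rw [hSer, sum_div, mul_sum, ← sum_sub_distrib]
    refine (norm_sum_le _ _).trans ((sum_le_sum fun n hn => (hA n hn).2 k hk).trans ?_)
    rw [sum_add_distrib, ← mul_sum, ← sum_mul, sum_const, aP_E0.2, nsmul_eq_mul, Nat.cast_ofNat]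
    gcongr
  obtain ⟨dA, hdA, hdA'⟩ := aP_rel _ _ _ _ _ hκ (by norm_num) hS
  have hA1 : ‖Ser a1 k‖ ≤ 2.4558 := by
    rw [hSer]
    refine (norm_sum_le _ _).trans (le_trans (le_of_eq (sum_congr rfl fun n hn => ?_)) i6)
    rw [norm_mul, aP_pw n k (aP_E0.1 n hn), Complex.norm_real, Real.norm_eq_abs, mul_one_div]
  have hW : ‖1 / (riemannZeta (sk k) ^ 2 * DAv k)‖ ≤ 2.2341 * yz k ^ 2 := by
    rw [one_div, mul_inv, norm_mul, norm_inv, norm_pow, yz, one_div, inv_pow, mul_comm]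
    gcongr
  have hid := aP_id (ev k (lp IL)) (xp k (-15)) (xp k 527) (xk k) (zk k) (kap4 k) (qq k) (ev k Y)
    (ev k HP) (ev k PW) (ev k e) (∑ n ∈ E0, xk k ^ l n * ev k (A n)) (HB k)
    (HBl k - HB k + d) (dR PW k) (1 / (riemannZeta (sk k) ^ 2 * DAv k)) (Ser a1 k) dA hz
    (sub_ne_zero.2 hx1.symm) rfl hY (by rw [hd, hkq]; ring)
    (by rw [dR]; congr 1; field_simp) (by rw [hdA, hkq])
  have hFS' : FS k = 4 / 9 * HB k * (1 / (riemannZeta (sk k) ^ 2 * DAv k)) := by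
    rw [hFS]; field_simp
  have hdH : ‖HBl k - HB k + d‖ ≤ 1.0321 * nd (xi k) + 0.000061121 := by
    refine (norm_add_le _ _).trans ?_
    rw [norm_sub_rev]
    have : (0.00000065 : ℝ) / 0.58 ≤ 0.000001121 := by norm_num
    linarith
  have hdA'' : ‖dA‖ ≤ 2.4558 * nd (xi k) + 0.00000268 :=
    hdA'.trans (add_le_add le_rfl (by norm_num))
  have hT : ‖ev k (lp IL) * xp k (-15) / 2 ^ 26 * xp k 527 * ev k e / (27 * 2 ^ 57)‖ ≤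
      3.0001 / (27 * 2 ^ 57) * ‖ev k e‖ := by
    have hI' := hPar.1 _ _ k i1
    rw [norm_div, norm_mul, norm_mul, norm_div, norm_mul,
      show ‖(27 * 2 ^ 57 : ℂ)‖ = 27 * 2 ^ 57 by simp, show ‖(2 ^ 26 : ℂ)‖ = 2 ^ 26 by simp]
    calc _ ≤ 3 * 2 ^ 26 * 1.00001 / 2 ^ 26 * 1 * ‖ev k e‖ / (27 * 2 ^ 57) := by gcongr
      _ = 3.00003 / (27 * 2 ^ 57) * ‖ev k e‖ := by ring
      _ ≤ _ := by gcongr; norm_num
  rw [ps, hid, hFS']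
  refine (aP_nrm _ _ _ _ _ _ _ _ _ _ _ _ hz hal0 hn0 hn hR hR1 hB hdH hW hA1 hdA'').trans ?_
  rw [gX, gB]
  exact add_le_add le_rfl hT

theorem stP (hBas : StBas) (hSpl : StSpl) (hHa : StHa) (hHb : StHb) (hPar : StPar) (hI : StI)
    (hWin : StWin) (hMon : StMon) (hSum : StSum) : StP := by
  intro hW HP PW Y A l hR hH hY hA
  obtain ⟨-, e, he, hY⟩ := hY
  obtain ⟨-, -, w2, w1, w⟩ := hWin hW
  obtain ⟨-, s2, s3, -⟩ := hSum hW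
  have hw : ∀ k ∈ K20, 0 ≤ wk (2 ^ 20) k ∧ wk (2 ^ 20) k ≤ 1 := fun k hk =>
    (hBas.2.2.2.2.2.2.2 k hk).2.2.2.2.2.2.2
  have hΩ : ∑ k ∈ K20, wk (2 ^ 20) k ^ 2 ≤ 1449 ^ 2 := by
    refine (w (fun k => wk (2 ^ 20) k ^ 2) (fun _ => 1) (fun _ => zero_le_one)
      fun k hk => pow_le_one₀ (hw k hk).1 (hw k hk).2).2.trans ?_
    rw [sum_const, card_range]
    norm_num
  have hE := hPar.2.2 e _ 1449 _ he (by norm_num) hΩ
  have key : ∀ k ∈ K20, wk (2 ^ 20) k * ‖ps Y A l k - (FS k - Ser a1 k) / zk k‖ ≤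
      0.468 * (wk (2 ^ 20) k * ‖dR PW k‖) + 2 ^ 22 * (om k * gX (xi k) * (yz k ^ 4 + 7)
        + om k * gB (xi k) + 0.00006171 * (‖sh k‖ * yz k ^ 2) + 0.00000292 * ‖sh k‖)
        + 3.0001 / (27 * 2 ^ 57) * (wk (2 ^ 20) k * ‖ev k e‖) := by
    intro k hk
    have hodd := (hBas.2.2.2.2.2.2.2 k hk).1
    have h := aP_pt hBas hSpl hHa hHb hPar hI hMon HP PW Y e A l k hk (hH.2.2 k hk) (hY k hodd) hA
    obtain ⟨hz, hsh, -⟩ := hBas.2.2.2.2.2.2.1 k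
    have hz' : 0 < ‖zk k‖ := norm_pos_iff.2 hz
    have hs : (‖zk k‖)⁻¹ = 2 ^ 22 * ‖sh k‖ := by
      rw [hsh, norm_div, norm_one, norm_mul, show ‖(2 ^ 22 : ℂ)‖ = 2 ^ 22 by simp]
      field_simp
    refine (mul_le_mul_of_nonneg_left h (hw k hk).1).trans ?_
    rw [div_eq_mul_inv _ ‖zk k‖, hs, om]
    have h1 : wk (2 ^ 20) k * (‖sh k‖ * yz k ^ 2) ≤ ‖sh k‖ * yz k ^ 2 :=
      mul_le_of_le_one_left (by positivity) (hw k hk).2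
    have h2 : wk (2 ^ 20) k * ‖sh k‖ ≤ ‖sh k‖ :=
      mul_le_of_le_one_left (by positivity) (hw k hk).2
    generalize wk (2 ^ 20) k = a at h1 h2 ⊢
    nlinarith
  have hsum := sum_le_sum key
  rw [sum_add_distrib, sum_add_distrib, ← mul_sum, ← mul_sum, ← mul_sum, sum_add_distrib,
    sum_add_distrib, sum_add_distrib, ← mul_sum, ← mul_sum] at hsum
  unfold SpecR at hR
  unfold SpecP
  rw [div_le_iff₀ (by positivity)] at hR hE ⊢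
  norm_num at hR hE hsum s2 s3 w1 w2 ⊢
  linarith

end Pool.Agent.MP_88bd62_nt.U.A
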