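import Pool.Agent.MP_88bd62_nt.U.AStm

/-! Bounds for the values of integer polynomials on the grid, and the mean square identity. -/

namespace Pool.Agent.MP_88bd62_nt.U.A

open Finset Real Polynomial
open scoped ComplexConjugate

theorem aPar_sum (N : ℕ) (f : ℤ → ℂ) :
    ∑ k ∈ Kset N, f k = ∑ m ∈ range (2 * N), f (2 * m + 1 - 2 * N) := by
  symm
  refine sum_nbij' (fun m : ℕ => (2 * m + 1 - 2 * N : ℤ))
    (fun k => ((k + 2 * N - 1) / 2).toNat) ?_ ?_ ?_ ?_ ?_
  · intro m hm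
    simp only [Kset, mem_filter, mem_Ioo, Int.odd_iff, mem_range] at hm ⊢
    omega
  · intro k hk
    simp only [Kset, mem_filter, mem_Ioo, Int.odd_iff, mem_range] at hk ⊢
    omega
  · intro m hm
    simp only [mem_range] at hm
    omega
  · intro k hk
    simp only [Kset, mem_filter, mem_Ioo, Int.odd_iff] at hk
    omega
  · intro m _
    rfl

/-- The point of the unit circle. -/
noncomputable def aPar_w (G : ℕ) (k : ℤ) : ℂ := Complex.exp (-((π * k / G : ℝ) * Complex.I))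

theorem aPar_term (G j l : ℕ) (k : ℤ) : aPar_w G k ^ j * conj (aPar_w G k ^ l) =
    Complex.exp (-((π * k / G : ℝ) * Complex.I) * ((j : ℂ) - l)) := by
  unfold aPar_w
  rw [← Complex.exp_nat_mul, ← Complex.exp_nat_mul, ← Complex.exp_conj, ← Complex.exp_add]
  congr 1
  simp only [map_mul, map_neg, Complex.conj_ofReal, Complex.conj_I, map_natCast]
  ring

theorem aPar_orth (N j l : ℕ) (hj : j < 2 * N) (hl : l < 2 * N) :
    ∑ k ∈ Kset N, aPar_w (2 * N) k ^ j * conj (aPar_w (2 * N) k ^ l) =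
      if j = l then ((2 * N : ℕ) : ℂ) else 0 := by
  rw [aPar_sum]
  simp only [aPar_term]
  generalize hG : 2 * N = G at hj hl
  have hG0 : (G : ℂ) ≠ 0 := by
    have : G ≠ 0 := by omega
    exact_mod_cast this
  split_ifs with h
  · subst h
    simp
  · set ζ : ℂ := Complex.exp (-(2 * π * Complex.I * ((j : ℂ) - l) / G)) with hζ
    have h1 : ζ ≠ 1 := by
      intro h1
      rw [hζ, Complex.exp_eq_one_iff] at h1
      obtain ⟨n, hn⟩ := h1
      have h2 : ((j : ℂ) - l) = -(n * G) := by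
        have hp : (2 * π * Complex.I : ℂ) ≠ 0 := Complex.two_pi_I_ne_zero
        field_simp at hn
        linear_combination -hn
      have h3 : (j : ℤ) - l = -(n * G) := by exact_mod_cast h2
      have h4 : (j : ℤ) ≠ l := by exact_mod_cast h
      have h5 : (j : ℤ) < G := by exact_mod_cast hj
      have h6 : (l : ℤ) < G := by exact_mod_cast hl
      rcases lt_trichotomy n 0 with h7 | h7 | h7
      · nlinarith
      · rw [h7] at h3
        omega
      · nlinarith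
    have h2 : ζ ^ G = 1 := by
      rw [hζ, ← Complex.exp_nat_mul, Complex.exp_eq_one_iff]
      refine ⟨(l : ℤ) - j, ?_⟩
      push_cast
      field_simp
      ring
    have h3 : ∀ m : ℕ, Complex.exp (-((π * ((2 * m + 1 - 2 * N : ℤ) : ℝ) / G : ℝ) * Complex.I) *
        ((j : ℂ) - l)) = Complex.exp (-((π * (1 - 2 * N) / G : ℝ) * Complex.I) * ((j : ℂ) - l)) *
          ζ ^ m := by
      intro m
      rw [hζ, ← Complex.exp_nat_mul, ← Complex.exp_add]
      congr 1
      push_cast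
      field_simp
      ring
    simp only [h3]
    rw [← mul_sum, geom_sum_eq h1, h2, sub_self, zero_div, mul_zero]

theorem aPar_pars (N : ℕ) (b : ℕ → ℝ) :
    ∑ k ∈ Kset N, ‖∑ j ∈ range (2 * N), (b j : ℂ) * aPar_w (2 * N) k ^ j‖ ^ 2 =
      (2 * N : ℕ) * ∑ j ∈ range (2 * N), b j ^ 2 := by
  apply Complex.ofReal_injective
  have h1 : ∀ k : ℤ, ((‖∑ j ∈ range (2 * N), (b j : ℂ) * aPar_w (2 * N) k ^ j‖ ^ 2 : ℝ) : ℂ) =
      ∑ j ∈ range (2 * N), ∑ l ∈ range (2 * N),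
        (b j : ℂ) * b l * (aPar_w (2 * N) k ^ j * conj (aPar_w (2 * N) k ^ l)) := by
    intro k
    rw [← Complex.normSq_eq_norm_sq, ← Complex.mul_conj, map_sum, sum_mul_sum]
    refine sum_congr rfl fun j _ => sum_congr rfl fun l _ => ?_
    rw [map_mul, Complex.conj_ofReal]
    ring
  rw [Complex.ofReal_sum, sum_congr rfl fun k _ => h1 k, sum_comm, Complex.ofReal_mul,
    Complex.ofReal_sum, mul_sum]
  refine sum_congr rfl fun j hj => ?_
  rw [sum_comm, sum_eq_single j]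
  · rw [← mul_sum, aPar_orth N j j (mem_range.1 hj) (mem_range.1 hj), if_pos rfl]
    push_cast
    ring
  · intro l hl hlj
    rw [← mul_sum, aPar_orth N j l (mem_range.1 hj) (mem_range.1 hl), if_neg hlj.symm, mul_zero]
  · intro h
    exact absurd hj h

theorem aPar_geom (G : ℕ) (hG : 1000 ≤ G) :
    ∑ j ∈ range G, (exp (-(log 2 / G)) ^ j) ^ 2 ≤ 0.542 * G := by
  have hG0 : (1000 : ℝ) ≤ G := by exact_mod_cast hG
  have hl := log_two_gt_d9
  set a : ℝ := 2 * log 2 / G with ha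
  have ha0 : 0 < a := by positivity
  have haG : a * G = 2 * log 2 := by
    rw [ha]
    field_simp
  have h1 : ∀ j : ℕ, (exp (-(log 2 / G)) ^ j) ^ 2 = exp (-a) ^ j := by
    intro j
    rw [← pow_mul, mul_comm, pow_mul, ← exp_nat_mul]
    congr 2
    rw [ha]
    push_cast
    ring
  have h2 : exp (-a) ^ G = 1 / 4 := by
    rw [← exp_nat_mul, show (G : ℝ) * -a = -((2 : ℕ) * log 2) by push_cast; linarith, exp_neg,
      exp_nat_mul, exp_log (by norm_num)]
    norm_num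
  have h3 : exp (-a) * (1 + a) ≤ 1 := by
    have h4 := add_one_le_exp a
    have h5 : exp (-a) * exp a = 1 := by rw [← exp_add, neg_add_cancel, exp_zero]
    have h6 := exp_pos (-a)
    nlinarith
  have h7 := geom_sum_mul_neg (exp (-a)) G
  simp only [h1]
  rw [h2] at h7
  have h8 : 0 ≤ ∑ j ∈ range G, exp (-a) ^ j := sum_nonneg fun j _ => by positivity
  generalize ∑ j ∈ range G, exp (-a) ^ j = S at h7 h8 ⊢
  have h9 : S * a ≤ 3 / 4 * (1 + a) := by nlinarith
  have h10 : S * (2 * log 2) ≤ 3 / 4 * (G + 2 * log 2) := by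
    have := mul_le_mul_of_nonneg_right h9 (by linarith : (0 : ℝ) ≤ G)
    nlinarith
  by_contra hc
  rw [not_le] at hc
  nlinarith

theorem aPar_xk (G : ℕ) (hG : G = 2 ^ 22) (k : ℤ) :
    xk k = (exp (-(log 2 / G)) : ℝ) * aPar_w G k := by
  have h : (2 : ℂ) ^ 22 = G := by rw [hG, Nat.cast_pow, Nat.cast_ofNat]
  unfold xk xp zk aPar_w
  rw [h, Complex.ofReal_exp, ← Complex.exp_add]
  congr 1
  push_cast
  ring

theorem aPar_ev (P : ℤ[X]) (n : ℕ) (h : ∀ i, n ≤ i → P.coeff i = 0) (k : ℤ) :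
    ev k P = ∑ j ∈ range n, (P.coeff j : ℂ) * xk k ^ j := by
  unfold ev
  rw [aeval_eq_sum_range' (n := max n (P.natDegree + 1)) (by omega)]
  symm
  rw [← sum_subset (range_subset_range.2 (le_max_left n (P.natDegree + 1)))]
  · simp only [zsmul_eq_mul]
  · intro j _ hj
    rw [h j (by simpa using hj), zero_smul]

theorem aPar_main (N M : ℕ) (hN : 2 * N = 2 ^ 22) (hM : M ≤ N) (P : ℤ[X]) (c Ω : ℝ) (a : ℤ → ℝ)
    (hP : Sup P (2 * N) c) (hΩ : 0 ≤ Ω) (ha : ∑ k ∈ Kset M, a k ^ 2 ≤ Ω ^ 2) :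
    ∑ k ∈ Kset M, a k * ‖ev k P‖ ≤ 0.7363 * Ω * c * (2 * N : ℕ) := by
  have hc : 0 ≤ c := (abs_nonneg _).trans (hP.2 0)
  have hsub : Kset M ⊆ Kset N := by
    intro k hk
    simp only [Kset, mem_filter, mem_Ioo, Int.odd_iff] at hk ⊢
    omega
  have hG : 1000 ≤ 2 * N := by rw [hN]; norm_num
  have h1 : ∑ k ∈ Kset N, ‖ev k P‖ ^ 2 =
      (2 * N : ℕ) * ∑ j ∈ range (2 * N),
        ((P.coeff j : ℝ) * exp (-(log 2 / (2 * N : ℕ))) ^ j) ^ 2 := by
    rw [← aPar_pars]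
    refine sum_congr rfl fun k _ => ?_
    rw [aPar_ev P _ hP.1, aPar_xk _ hN]
    congr 2
    refine sum_congr rfl fun j _ => ?_
    rw [mul_pow, Complex.ofReal_mul, Complex.ofReal_pow, Complex.ofReal_intCast, mul_assoc]
  have h2 : ∑ j ∈ range (2 * N), ((P.coeff j : ℝ) * exp (-(log 2 / (2 * N : ℕ))) ^ j) ^ 2 ≤
      c ^ 2 * (0.542 * (2 * N : ℕ)) := by
    refine le_trans ?_ (mul_le_mul_of_nonneg_left (aPar_geom _ hG) (sq_nonneg c))
    rw [mul_sum]
    refine sum_le_sum fun j _ => ?_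
    rw [mul_pow]
    refine mul_le_mul_of_nonneg_right ?_ (sq_nonneg _)
    exact sq_le_sq' (abs_le.1 (hP.2 j)).1 (abs_le.1 (hP.2 j)).2
  have h3 : ∑ k ∈ Kset M, ‖ev k P‖ ^ 2 ≤ ∑ k ∈ Kset N, ‖ev k P‖ ^ 2 :=
    sum_le_sum_of_subset_of_nonneg hsub fun _ _ _ => sq_nonneg _
  have h4 := sum_mul_sq_le_sq_mul_sq (Kset M) a fun k => ‖ev k P‖
  have hG0 : (0 : ℝ) ≤ (2 * N : ℕ) := Nat.cast_nonneg _
  generalize ((2 * N : ℕ) : ℝ) = G at h1 h2 hG0 ⊢
  have h5 : ∑ k ∈ Kset M, ‖ev k P‖ ^ 2 ≤ G * (c ^ 2 * (0.542 * G)) :=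
    h3.trans (h1.trans_le (mul_le_mul_of_nonneg_left h2 hG0))
  have h6 := h4.trans (mul_le_mul ha h5 (sum_nonneg fun _ _ => sq_nonneg _) (sq_nonneg _))
  refine le_trans (le_abs_self _) (abs_le_of_sq_le_sq' ?_ (by positivity) |> abs_le.2)
  refine h6.trans ?_
  have h7 : 0 ≤ (Ω * c * G) ^ 2 := sq_nonneg _
  nlinarith

theorem stPar (hBas : StBas) : StPar := by
  refine ⟨fun P c k h => ?_, fun P n c h m => ?_, fun P c Ω a hP hΩ ha => ?_⟩
  · have hx : ‖xk k‖ ≤ 1 := (hBas.2.2.2.2.2.2.1 k).2.2.2.2.2.2.2.1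
    rw [aPar_ev P (P.natDegree + 1) (fun i hi => coeff_eq_zero_of_natDegree_lt hi)]
    refine (norm_sum_le _ _).trans (le_trans (sum_le_sum fun j _ => ?_) (h (P.natDegree + 1)))
    rw [norm_mul, norm_pow, Complex.norm_intCast]
    exact mul_le_of_le_one_right (abs_nonneg _) (pow_le_one₀ (norm_nonneg _) hx)
  · calc ∑ i ∈ range m, |(P.coeff i : ℝ)| ≤ ∑ i ∈ range (max n m), |(P.coeff i : ℝ)| :=
          sum_le_sum_of_subset_of_nonneg (range_subset_range.2 (le_max_right n m))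
            fun _ _ _ => abs_nonneg _
      _ = ∑ i ∈ range n, |(P.coeff i : ℝ)| := by
          refine (sum_subset (range_subset_range.2 (le_max_left n m)) fun j _ hj => ?_).symm
          rw [h.1 j (by simpa using hj), Int.cast_zero, abs_zero]
      _ ≤ ∑ _i ∈ range n, c := sum_le_sum fun i _ => h.2 i
      _ = n * c := by rw [sum_const, card_range, nsmul_eq_mul]
  · have e : 2 * 2 ^ 21 = 2 ^ 22 := by norm_num
    have h := aPar_main (2 ^ 21) (2 ^ 20) e (by norm_num) P c Ω a (by rw [e]; exact hP) hΩ ha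
    rw [div_le_iff₀ (by positivity)]
    refine h.trans_eq ?_
    rw [e, Nat.cast_pow, Nat.cast_ofNat]

end Pool.Agent.MP_88bd62_nt.U.A
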