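import Pool.Agent.MP_88bd62_nt.U.AStm

/-! Sums of reciprocal powers of primes, evaluated by the kernel. -/

namespace Pool.Agent.MP_88bd62_nt.U.A

open Finset Pool.Agent.MP_22d5c4_co.K

noncomputable section

def aPs_w (F lo hi c d n : ℕ) : ℕ :=
  cn (an (Nat.ble lo n) (an (Nat.ble (Nat.succ n) hi) (Nat.beq (Nat.gcd n F) 1)))
    (Nat.div (Nat.add c (Nat.sub (Nat.pow n d) 1)) (Nat.pow n d)) 0

/-- The sum of `w` over `2 ^ k` consecutive numbers. -/
def aPs_sm (w : ℕ → ℕ) (k : ℕ) : ℕ → ℕ :=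
  @Nat.rec (fun _ => ℕ → ℕ) w (fun k ih a => Nat.add (ih a) (ih (Nat.add a (Nat.pow 2 k)))) k

def aPs_chk (K lo hi c d k B : ℕ) : Bool :=
  frc (Nat.factorial K) fun F => Nat.ble (aPs_sm (aPs_w F lo hi c d) k 0) B

theorem aPs_sm_eq (w : ℕ → ℕ) (k : ℕ) : ∀ a, aPs_sm w k a = ∑ i ∈ range (2 ^ k), w (a + i) := by
  induction k with
  | zero => intro a; simp [aPs_sm]
  | succ k ih =>
    intro a
    have e : aPs_sm w (k + 1) a = aPs_sm w k a + aPs_sm w k (a + 2 ^ k) := rfl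
    rw [e, ih, ih, pow_succ, mul_two, sum_range_add]
    simp only [add_assoc]

theorem aPs_le (K lo hi c d k B : ℕ) (h : aPs_chk K lo hi c d k B = true) (hK : K < lo)
    (hk : hi ≤ 2 ^ k) {S : Finset ℕ} (hS : ∀ p ∈ S, p.Prime ∧ lo ≤ p ∧ p < hi) {a x : ℝ}
    (ha : a * 10 ^ 12 = c) (hx : B ≤ x * 10 ^ 12) : ∑ p ∈ S, a / (p : ℝ) ^ d ≤ x := by
  rw [aPs_chk, frc_eq, Nat.ble_eq, aPs_sm_eq] at h
  simp only [zero_add] at h
  have h1 := (sum_le_sum_of_subset (f := aPs_w K.factorial lo hi c d)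
    fun p hp => mem_range.2 ((hS p hp).2.2.trans_le hk)).trans h
  refine le_of_mul_le_mul_right (le_trans ?_ hx) (by positivity)
  refine le_trans ?_ (Nat.cast_le.2 h1)
  rw [sum_mul, Nat.cast_sum]
  refine sum_le_sum fun p hp => ?_
  obtain ⟨h2, h3, h4⟩ := hS p hp
  have h5 : Nat.gcd p K.factorial = 1 := (Nat.Prime.coprime_iff_not_dvd h2).2 fun hd => by
    have := (Nat.Prime.dvd_factorial h2).1 hd
    omega
  have h6 : 0 < p ^ d := pow_pos h2.pos d
  have h7 : aPs_w K.factorial lo hi c d p = (c + (p ^ d - 1)) / p ^ d := by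
    rw [aPs_w, cn_eq, if_pos]
    · rfl
    · simp only [an_eq, Nat.ble_eq, Nat.beq_eq]
      exact ⟨h3, h4, h5⟩
  have h8 : c ≤ (c + (p ^ d - 1)) / p ^ d * p ^ d := by
    have h9 := Nat.lt_mul_div_succ (c + (p ^ d - 1)) h6
    rw [mul_add, mul_one, mul_comm] at h9
    omega
  rw [h7, div_mul_eq_mul_div, ha, div_le_iff₀ (by exact_mod_cast h6)]
  exact_mod_cast h8

theorem aPs_card (K lo hi k n : ℕ) (h : aPs_chk K lo hi (10 ^ 12) 0 k (n * 10 ^ 12) = true)
    (hK : K < lo) (hk : hi ≤ 2 ^ k) {S : Finset ℕ} (hS : ∀ p ∈ S, p.Prime ∧ lo ≤ p ∧ p < hi) :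
    S.card ≤ n := by
  have h1 := aPs_le K lo hi _ 0 k _ h hK hk hS (a := 1) (x := n) (by norm_num) (by norm_num)
  simpa using h1

theorem aPs_pp (n : ℕ) : ∀ p ∈ PP n, p.Prime ∧ 23 ≤ p ∧ p < n := fun _ hp =>
  ⟨(mem_filter.1 hp).2, mem_Ico.1 (mem_filter.1 hp).1⟩

theorem aPs_hi (m n : ℕ) : ∀ p ∈ (PP n).filter (m ≤ ·), p.Prime ∧ m ≤ p ∧ p < n := fun p hp =>
  ⟨(aPs_pp n p (mem_filter.1 hp).1).1, (mem_filter.1 hp).2, (aPs_pp n p (mem_filter.1 hp).1).2.2⟩

theorem aPs_split (m n a b : ℕ) (h1 : (PP m).card ≤ a) (h2 : ((PP n).filter (m ≤ ·)).card ≤ b) :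
    (PP n).card ≤ a + b := by
  refine le_trans (card_le_card fun p hp => ?_) ((card_union_le _ _).trans (add_le_add h1 h2))
  obtain ⟨h3, h4, -⟩ := aPs_pp n p hp
  rcases lt_or_ge p m with h | h
  · exact mem_union_left _ (mem_filter.2 ⟨mem_Ico.2 ⟨h4, h⟩, h3⟩)
  · exact mem_union_right _ (mem_filter.2 ⟨hp, h⟩)

theorem stPs : StPs := by
  have h1 := aPs_card 22 23 512 9 89 (by decide +kernel) (by norm_num) (by norm_num) (aPs_pp _)
  have h2 := aPs_card 22 23 48 6 7 (by decide +kernel) (by norm_num) (by norm_num) (aPs_pp _)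
  exact ⟨aPs_le 22 23 512 3000000000000 2 9 30160000000 (by decide +kernel) (by norm_num)
      (by norm_num) (aPs_pp _) (by norm_num) (by norm_num),
    aPs_le 181 512 (2 ^ 15) 3000000000000 2 15 790000000 (by decide +kernel) (by norm_num)
      le_rfl (aPs_hi _ _) (by norm_num) (by norm_num),
    aPs_le 22 23 48 2000000000000 3 6 427000000 (by decide +kernel) (by norm_num)
      (by norm_num) (aPs_pp _) (by norm_num) (by norm_num),
    aPs_le 31 48 1024 2000000000000 3 10 83000000 (by decide +kernel) (by norm_num)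
      (by norm_num) (aPs_hi _ _) (by norm_num) (by norm_num),
    aPs_le 22 23 128 4500000000000 4 7 36000000 (by decide +kernel) (by norm_num)
      (by norm_num) (aPs_pp _) (by norm_num) (by norm_num),
    aPs_split 512 _ 89 3415 h1 (aPs_card 181 512 (2 ^ 15) 15 3415 (by decide +kernel)
      (by norm_num) le_rfl (aPs_hi _ _)), h1,
    aPs_split 48 _ 7 157 h2 (aPs_card 31 48 1024 10 157 (by decide +kernel) (by norm_num)
      (by norm_num) (aPs_hi _ _)),
    aPs_card 22 23 128 7 23 (by decide +kernel) (by norm_num) (by norm_num) (aPs_pp _), h2⟩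

end

end Pool.Agent.MP_88bd62_nt.U.A
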