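import Pool.Agent.MP_88bd62_nt.U.AStm

/-! The coefficients of the final product approximate the low pass polynomial plus the steps. -/

namespace Pool.Agent.MP_88bd62_nt.U.A

open Finset Real Polynomial

noncomputable section

theorem aQ_add (φ ψ : ℤ → ℂ) (m : ℤ) : cf (fun k => φ k + ψ k) m = cf φ m + cf ψ m := by
  unfold cf
  simp only [add_mul, sum_add_distrib, add_div]

theorem aQ_sub (φ ψ : ℤ → ℂ) (m : ℤ) : cf (fun k => φ k - ψ k) m = cf φ m - cf ψ m := by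
  unfold cf
  simp only [sub_mul, sum_sub_distrib, sub_div]

theorem aQ_smul (c : ℂ) (φ : ℤ → ℂ) (m : ℤ) : cf (fun k => c * φ k) m = c * cf φ m := by
  unfold cf
  simp only [mul_assoc, ← mul_sum, mul_div_assoc]

theorem aQ_sum {ι : Type} (s : Finset ι) (φ : ι → ℤ → ℂ) (m : ℤ) :
    cf (fun k => ∑ n ∈ s, φ n k) m = ∑ n ∈ s, cf (φ n) m := by
  unfold cf
  simp only [sum_mul]
  rw [sum_comm, sum_div]

/-- The polynomial of the nodes. -/
def aQ_B (A : ℕ → ℤ[X]) (l : ℕ → ℕ) : ℤ[X] := ∑ n ∈ E0, X ^ l n * A n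

def aQ_f (Y : ℤ[X]) (A : ℕ → ℤ[X]) (l : ℕ → ℕ) (k : ℤ) : ℂ :=
  ev k Y - xp k ((-527 : ℤ) : ℝ) * (ev k (aQ_B A l) * (1 / (1 - xk k)))

theorem aQ_evB (A : ℕ → ℤ[X]) (l : ℕ → ℕ) (k : ℤ) :
    ev k (aQ_B A l) = ∑ n ∈ E0, xk k ^ l n * ev k (A n) := by
  unfold aQ_B ev
  simp only [map_sum, map_mul, map_pow, aeval_X]

theorem aQ_L1mono {P : ℤ[X]} {a b : ℝ} (h : L1 P a) (hab : a ≤ b) : L1 P b :=
  fun n => (h n).trans hab

theorem aQ_L1B (hI : StI) (hNrm : StNrm) {A : ℕ → ℤ[X]} {l : ℕ → ℕ} (hA : SpecA A l) :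
    L1 (aQ_B A l) (27 * 2 ^ 22 * 3.2422) := by
  have h := hNrm.2.2.2.1 E0 (fun n => X ^ l n * A n) (fun n => 27 * 2 ^ 22 * |gE n|)
    fun n hn => (hNrm.2.1 (A n) _ (l n) 0 (hA n hn).1).1
  refine aQ_L1mono h ?_
  rw [← mul_sum]
  exact mul_le_mul_of_nonneg_left hI.2.2.2.2.1 (by positivity)

theorem aQ_fbound (hCf : StCf) (hI : StI) (hNrm : StNrm) {Y : ℤ[X]} {A : ℕ → ℤ[X]} {l : ℕ → ℕ}
    (hY : Sup Y (2 ^ 22) (2 ^ 29)) (hA : SpecA A l) (m : ℤ) (hm : m < 2 * 2 ^ 22) :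
    ‖cf (aQ_f Y A l) m‖ ≤ 27.62 * (27 * 2 ^ 22) := by
  obtain ⟨-, hsh, -, -, hgeo, hsup, hL1, -⟩ := hCf
  have e : cf (aQ_f Y A l) m = cf (fun k => ev k Y) m -
      cf (fun k => ev k (aQ_B A l) * (1 / (1 - xk k))) (m - (-527 : ℤ)) := by
    rw [← hsh, ← aQ_sub]
    rfl
  have h1 := hsup Y _ m hY (by omega)
  have h2 := hL1 (fun k => 1 / (1 - xk k)) (aQ_B A l) _ (8 / 3) (m - (-527 : ℤ))
    (fun m' hm' => (hgeo m').2.2 (by omega)) (aQ_L1B hI hNrm hA)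
  rw [e]
  refine (norm_sub_le _ _).trans ((add_le_add h1 h2).trans ?_)
  norm_num

theorem aQ_ps (hBas : StBas) (Y : ℤ[X]) (A : ℕ → ℤ[X]) (l : ℕ → ℕ) (k : ℤ) :
    ps Y A l k = 1 / (2 ^ 26 * (27 * 2 ^ 22)) *
      (ev k (lp IL) * (xp k ((512 : ℤ) : ℝ) * aQ_f Y A l k)) := by
  have hadd := hBas.1 k
  have h1 : xp k ((512 : ℤ) : ℝ) = xp k (-15) * xp k 527 := by
    rw [← hadd]
    norm_num
  have h2 : xp k (-15) = xp k ((512 : ℤ) : ℝ) * xp k ((-527 : ℤ) : ℝ) := by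
    rw [← hadd]
    norm_num
  unfold ps aQ_f
  rw [← aQ_evB]
  have h3 : xp k ((512 : ℤ) : ℝ) * (ev k Y - xp k ((-527 : ℤ) : ℝ) *
      (ev k (aQ_B A l) * (1 / (1 - xk k)))) =
      xp k (-15) * (xp k 527 * ev k Y - ev k (aQ_B A l) / (1 - xk k)) := by
    rw [mul_sub, mul_sub, ← mul_assoc, ← mul_assoc (xp k (-15)), ← h1, ← h2]
    ring
  rw [h3]
  ring

theorem aQ_psbound (hBas : StBas) (hCf : StCf) (hI : StI) (hNrm : StNrm) {Y : ℤ[X]}
    {A : ℕ → ℤ[X]} {l : ℕ → ℕ} (hY : Sup Y (2 ^ 22) (2 ^ 29)) (hA : SpecA A l) (m : ℤ)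
    (hm : m < 2 * 2 ^ 22) : ‖cf (ps Y A l) m‖ ≤ 82.86 := by
  have hb := aQ_fbound hCf hI hNrm hY hA
  obtain ⟨-, hsh, -, -, -, -, hL1, -⟩ := hCf
  have e : cf (ps Y A l) m = 1 / (2 ^ 26 * (27 * 2 ^ 22)) *
      cf (fun k => ev k (lp IL) * (xp k ((512 : ℤ) : ℝ) * aQ_f Y A l k)) m := by
    rw [← aQ_smul]
    congr 1
    funext k
    exact aQ_ps hBas Y A l k
  have h := hL1 (fun k => xp k ((512 : ℤ) : ℝ) * aQ_f Y A l k) (lp IL) _ (27.62 * (27 * 2 ^ 22)) m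
    (fun m' hm' => by
      rw [hsh]
      exact hb _ (by omega)) hI.1
  rw [e, norm_mul]
  have hn : ‖(1 / (2 ^ 26 * (27 * 2 ^ 22)) : ℂ)‖ = 1 / (2 ^ 26 * (27 * 2 ^ 22)) := by
    simp
  rw [hn]
  refine (mul_le_mul_of_nonneg_left h (by positivity)).trans ?_
  norm_num

theorem aQ_jt (hBas : StBas) (Y : ℤ[X]) (A : ℕ → ℤ[X]) (l : ℕ → ℕ) {K e₁ : ℤ[X]}
    (h : 2 * JT * lp IL = C (2 ^ 33) * K + e₁) (k : ℤ) :
    ev k JT * xp k (-512) / 2 ^ 40 * ps Y A l k =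
      1 / (27 * 2 ^ 56) * (ev k K * aQ_f Y A l k)
        + 1 / (27 * 2 ^ 89) * (ev k e₁ * aQ_f Y A l k) := by
  have h1 : xp k (-512) * xp k ((512 : ℤ) : ℝ) = 1 := by
    rw [← hBas.1 k]
    have := hBas.2.1 k 0
    norm_num at this ⊢
    exact this
  have h2 : 2 * ev k JT * ev k (lp IL) = 2 ^ 33 * ev k K + ev k e₁ := by
    have := congrArg (ev k) h
    unfold ev at this ⊢
    simp only [map_add, map_mul, map_ofNat, map_pow] at this
    exact this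
  rw [aQ_ps hBas]
  linear_combination (1 / (27 * 2 ^ 89) * aQ_f Y A l k) * h2
    + (ev k JT * ev k (lp IL) * aQ_f Y A l k / (27 * 2 ^ 88)) * h1

theorem aQ_node (hBas : StBas) {K A D : ℤ[X]} {S : ℤ} {j l : ℕ} (hl : l ≤ 527 + j)
    (h : K * A - C S * X ^ (527 + j - l) = (1 - X) * D) (k : ℤ) :
    xp k (l - 527) * ev k D =
      ev k K * (xp k ((-527 : ℤ) : ℝ) * (xk k ^ l * ev k A * (1 / (1 - xk k))))
        - S * (xp k ((j : ℤ) : ℝ) * (1 / (1 - xk k))) := by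
  have hx : 1 - xk k ≠ 0 := sub_ne_zero.2 (hBas.2.2.2.2.2.2.1 k).2.2.2.2.2.2.1.symm
  have h1 : ev k K * ev k A - S * xk k ^ (527 + j - l) = (1 - xk k) * ev k D := by
    have := congrArg (ev k) h
    unfold ev at this ⊢
    simp only [map_sub, map_mul, map_pow, aeval_X, map_one, eq_intCast, map_intCast] at this
    exact this
  have h2 : xp k (l - 527) = xp k ((-527 : ℤ) : ℝ) * xk k ^ l := by
    rw [← hBas.2.1, ← hBas.1]
    congr 1
    push_cast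
    ring
  have h3 : xp k ((j : ℤ) : ℝ) = xp k (l - 527) * xk k ^ (527 + j - l) := by
    rw [← hBas.2.1, ← hBas.1, Nat.cast_sub hl]
    congr 1
    push_cast
    ring
  have h4 : ev k D = (ev k K * ev k A - S * xk k ^ (527 + j - l)) * (1 / (1 - xk k)) := by
    rw [h1]
    field_simp
  rw [h4, h3, h2]
  ring

theorem aQ_one : Sup 1 (2 ^ 22) 1 := by
  refine ⟨fun i hi => ?_, fun i => ?_⟩
  · rw [coeff_one, if_neg (by omega)]
  · rw [coeff_one]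
    split_ifs <;> simp

theorem stQ (hBas : StBas) (hCf : StCf) (hJ : StJ) (hI : StI) (hNrm : StNrm) : StQ := by
  intro Y Q A l j S hY hA hR i hi
  obtain ⟨K, e₁, e₂, D, he₁, hK, he₂, hQ0, hn, hQ⟩ := hR
  have hfb := aQ_fbound hCf hI hNrm hY hA
  have hpb := aQ_psbound hBas hCf hI hNrm hY hA
  obtain ⟨hco, hsh, -, hodd, hgeo, hsup, hL1, -⟩ := hCf
  have hi' : (i : ℤ) < 2 ^ 22 := by exact_mod_cast hi
  have e1 := hJ (ps Y A l) 82.86 i fun m' hm' => hpb m' (by omega)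
  have e2 : cf (fun k => ev k JT * xp k (-512) / 2 ^ 40 * ps Y A l k) i =
      1 / (27 * 2 ^ 56) * cf (fun k => ev k K * aQ_f Y A l k) i
        + 1 / (27 * 2 ^ 89) * cf (fun k => ev k e₁ * aQ_f Y A l k) i := by
    rw [← aQ_smul, ← aQ_smul, ← aQ_add]
    congr 1
    funext k
    exact aQ_jt hBas Y A l hK k
  have e3 := hL1 (aQ_f Y A l) e₁ _ _ i (fun m' hm' => hfb m' (by omega)) he₁
  have e4 : ‖cf (fun k => ev k e₂) i‖ ≤ 1 * (4 * 1) := by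
    have h := hL1 (fun k => ev k 1) e₂ 1 (4 * 1) i
      (fun m' hm' => hsup 1 1 m' aQ_one (by omega)) he₂
    have : (fun k => ev k e₂ * ev k 1) = fun k => ev k e₂ := by
      funext k
      unfold ev
      rw [map_one, mul_one]
    rwa [this] at h
  have hstep : ∀ n ∈ E0, cf (fun k => xp k ((j n : ℤ) : ℝ) * (1 / (1 - xk k))) i =
      ((if j n ≤ i then 2 / 3 else -1 / 3 : ℝ) : ℂ) := by
    intro n hn'
    have hj : ((j n : ℕ) : ℤ) < 2 ^ 22 := by exact_mod_cast (hn n hn').1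
    rw [hsh]
    split_ifs with h
    · rw [(hgeo _).1 (by omega) (by omega)]
      push_cast
      rfl
    · rw [(hgeo _).2.1 (by omega) (by omega)]
      push_cast
      rfl
  have e5 : (Q.coeff i : ℂ) = 2 * cf (fun k => ev k K * aQ_f Y A l k) i
      + 2 * ∑ n ∈ E0, (S n : ℂ) * ((if j n ≤ i then 2 / 3 else -1 / 3 : ℝ) : ℂ)
      + cf (fun k => ev k e₂) i := by
    have h1 : ∑ n ∈ E0, (S n : ℂ) * ((if j n ≤ i then 2 / 3 else -1 / 3 : ℝ) : ℂ) =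
        cf (fun k => ∑ n ∈ E0, (S n : ℂ) * (xp k ((j n : ℤ) : ℝ) * (1 / (1 - xk k)))) i := by
      rw [aQ_sum]
      refine sum_congr rfl fun n hn' => ?_
      rw [aQ_smul, hstep n hn']
    rw [← hco Q i hQ0 hi, h1, ← aQ_smul, ← aQ_smul, ← aQ_add, ← aQ_add]
    refine hodd _ _ _ fun k hk => ?_
    rw [hQ k hk, sum_congr rfl fun n hn' => aQ_node hBas (hn n hn').2.1 (hn n hn').2.2.2 k,
      sum_sub_distrib, ← mul_sum, ← mul_sum, ← sum_mul, ← aQ_evB]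
    unfold aQ_f
    ring
  have e6 : ‖∑ n ∈ E0, ((S n : ℂ) / (27 * 2 ^ 56) - gE n) *
      ((if j n ≤ i then 2 / 3 else -1 / 3 : ℝ) : ℂ)‖ ≤ 11 * (1 / 10 ^ 7) := by
    refine (norm_sum_le _ _).trans ?_
    have hc : E0.card = 11 := by decide
    have := sum_le_card_nsmul E0 (fun n => ‖((S n : ℂ) / (27 * 2 ^ 56) - gE n) *
      ((if j n ≤ i then 2 / 3 else -1 / 3 : ℝ) : ℂ)‖) (1 / 10 ^ 7) fun n hn' => by
      have h := (hn n hn').2.2.1
      have h1 : ((S n : ℂ) / (27 * 2 ^ 56) - gE n) =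
          ((((S n : ℝ) - 27 * 2 ^ 56 * gE n) / (27 * 2 ^ 56) : ℝ) : ℂ) := by
        push_cast
        field_simp
      have h2 : |((S n : ℝ) - 27 * 2 ^ 56 * gE n) / (27 * 2 ^ 56)| ≤ 1 / 10 ^ 7 := by
        rw [abs_div, abs_of_pos (by positivity : (0 : ℝ) < 27 * 2 ^ 56),
          div_le_iff₀ (by positivity)]
        linarith
      have h3 : |(if j n ≤ i then 2 / 3 else -1 / 3 : ℝ)| ≤ 1 := by
        split_ifs
        · rw [abs_le]
          norm_num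
        · rw [abs_le]
          norm_num
      simp only [h1, norm_mul, Complex.norm_real, Real.norm_eq_abs]
      exact (mul_le_mul h2 h3 (abs_nonneg _) (by positivity)).trans (by norm_num)
    rw [hc] at this
    simpa using this
  have e7 : ((stp j i : ℝ) : ℂ) =
      ∑ n ∈ E0, (gE n : ℂ) * ((if j n ≤ i then 2 / 3 else -1 / 3 : ℝ) : ℂ) := by
    unfold stp
    rw [Complex.ofReal_sum]
    exact sum_congr rfl fun n _ => Complex.ofReal_mul _ _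
  have e8 : ∑ n ∈ E0, ((S n : ℂ) / (27 * 2 ^ 56) - gE n) *
      ((if j n ≤ i then 2 / 3 else -1 / 3 : ℝ) : ℂ) =
      1 / (27 * 2 ^ 56) * ∑ n ∈ E0, (S n : ℂ) * ((if j n ≤ i then 2 / 3 else -1 / 3 : ℝ) : ℂ)
        - stp j i := by
    rw [e7, mul_sum, ← sum_sub_distrib]
    exact sum_congr rfl fun n _ => by ring
  have key : (Q.coeff i : ℂ) / (27 * 2 ^ 57) -
      (cf (fun k => wk (2 ^ 20) k * ps Y A l k) i + stp j i) =
      -(cf (fun k => wk (2 ^ 20) k * ps Y A l k) i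
        - cf (fun k => ev k JT * xp k (-512) / 2 ^ 40 * ps Y A l k) i)
      + -(1 / (27 * 2 ^ 89) * cf (fun k => ev k e₁ * aQ_f Y A l k) i)
      + ∑ n ∈ E0, ((S n : ℂ) / (27 * 2 ^ 56) - gE n) *
        ((if j n ≤ i then 2 / 3 else -1 / 3 : ℝ) : ℂ)
      + 1 / (27 * 2 ^ 57) * cf (fun k => ev k e₂) i := by
    rw [e8, e5, e2]
    ring
  have n1 : ‖(1 / (27 * 2 ^ 89) : ℂ)‖ = 1 / (27 * 2 ^ 89) := by simp
  have n2 : ‖(1 / (27 * 2 ^ 57) : ℂ)‖ = 1 / (27 * 2 ^ 57) := by simp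
  have b2 : ‖-(1 / (27 * 2 ^ 89) * cf (fun k => ev k e₁ * aQ_f Y A l k) i)‖ ≤ 0.000001 := by
    rw [norm_neg, norm_mul, n1]
    exact (mul_le_mul_of_nonneg_left e3 (by positivity)).trans (by norm_num)
  have b4 : ‖1 / (27 * 2 ^ 57) * cf (fun k => ev k e₂) i‖ ≤ 0.000001 := by
    rw [norm_mul, n2]
    exact (mul_le_mul_of_nonneg_left e4 (by positivity)).trans (by norm_num)
  rw [key]
  refine (norm_add_le _ _).trans ?_
  refine (add_le_add (norm_add₃_le.trans (add_le_add (add_le_add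
    ((norm_neg _).le.trans e1) b2) e6)) b4).trans ?_
  norm_num

end

end Pool.Agent.MP_88bd62_nt.U.A
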