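import Pool.Agent.MP_88bd62_nt.U.AStm

/-! The weighted sum of the errors of the inverse. -/

namespace Pool.Agent.MP_88bd62_nt.U.A

open Finset Real Polynomial

theorem aR_pt {w d z s G y c L p r e : ℝ} (hw : 0 ≤ w) (hs : s = 1 / (2 ^ 22 * z)) (hs0 : 0 ≤ s)
    (hy : 0 < y) (h1 : w * c ^ 2 / L ^ 2 ≤ 1.01)
    (h : d ≤ G * (y ^ 4 + 7) / z + c ^ 2 / L ^ 2 * (0.0000083721 * y ^ 3 + 0.000001747 * y ^ 2) / z
      + 1.0001 * c / L ^ 3 * (4.4682 * y ^ 3 * p / (3 * 2 ^ 54) + 2.2341 * y ^ 2 * r / (27 * 2 ^ 66)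
        + y * e / (3 * 2 ^ 50))) :
    w * d ≤ 2 ^ 22 * (w * s * G * (y ^ 4 + 7)) + 2 ^ 22 * (1.01 * 0.0000083721) * (s * y ^ 3)
      + 2 ^ 22 * (1.01 * 0.000001747) * (s * y ^ 2)
      + 1.0001 * 4.4682 / (3 * 2 ^ 54) * (w * c / L ^ 3 * y ^ 3 * p)
      + 1.0001 * 2.2341 / (27 * 2 ^ 66) * (w * c / L ^ 3 * y ^ 2 * r)
      + 1.0001 / (3 * 2 ^ 50) * (w * c / L ^ 3 * y * e) := by
  have h2 := mul_le_mul_of_nonneg_right h1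
    (by positivity : 0 ≤ 2 ^ 22 * s * (0.0000083721 * y ^ 3 + 0.000001747 * y ^ 2))
  have h3 : z⁻¹ = 2 ^ 22 * s := by
    rw [hs, one_div, mul_inv, ← mul_assoc, mul_inv_cancel₀ (by positivity), one_mul]
  refine (mul_le_mul_of_nonneg_left h hw).trans ?_
  rw [div_eq_mul_inv _ z, div_eq_mul_inv _ z, h3]
  refine le_of_sub_nonneg (le_trans (sub_nonneg.2 h2) (le_of_eq ?_))
  ring

theorem aR_sq {ι : Type} {s : Finset ι} {g y : ι → ℝ} {f : ℝ → ℝ} {c B : ℝ}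
    (hy : ∀ k ∈ s, f (y k) ^ 2 ≤ c ^ 2 * (y k ^ 4 + 7))
    (h : ∑ k ∈ s, g k ^ 2 * (y k ^ 4 + 7) ≤ B ^ 2) :
    ∑ k ∈ s, (g k * f (y k)) ^ 2 ≤ (c * B) ^ 2 := by
  rw [mul_pow c B]
  refine le_trans ?_ (mul_le_mul_of_nonneg_left h (sq_nonneg c))
  rw [mul_sum]
  refine sum_le_sum fun k hk => ?_
  rw [mul_pow, mul_left_comm]
  exact mul_le_mul_of_nonneg_left (hy k hk) (sq_nonneg _)

theorem stR (hBas : StBas) (hPar : StPar) (hWin : StWin) (hSum : StSum) (hMon : StMon)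
    (hRp : StRp) : StR := by
  have _ := hMon
  rintro hW ZP DP PW ⟨-, -, p, hp, hZ⟩ ⟨-, -, hD⟩ ⟨U₁, U₂, e₁, e₂, r, he₁, he₂, hr, hU⟩
  obtain ⟨-, -, -, -, -, -, b1, b2⟩ := hBas
  obtain ⟨p1, p2, p3⟩ := hPar
  obtain ⟨w1, w2, w3, -⟩ := hWin hW
  obtain ⟨s1, -, -, s2, s3⟩ := hSum hW
  have h1 : ∀ k, ‖ev k p‖ ≤ 2 ^ 48 := fun k => (p1 _ _ k (p2 _ _ _ hp)).trans (by norm_num)
  have h2 : ∀ k, ‖ev k e₁‖ ≤ 2 ^ 22 * (2 ^ 23 + 1) := fun k =>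
    (p1 _ _ k (p2 _ _ _ he₁)).trans (by norm_num)
  have h3 := sum_le_sum fun k (hk : k ∈ K20) =>
    aR_pt (s := ‖sh k‖) (b2 k hk).2.2.2.2.2.2.2.1 (by rw [(b1 k).2.1]; simp) (norm_nonneg _)
      (w1 k hk).1 (s3 k hk) (hRp ZP DP PW p U₁ U₂ e₁ e₂ r k hk (w1 k hk).2 (hZ k hk) (h1 k)
        (hD k hk) (h2 k) (hU k (b2 k hk).1).1 (hU k (b2 k hk).1).2.1 (hU k (b2 k hk).1).2.2)
  have q1 := p3 p _ _ _ hp (by norm_num) (aR_sq (f := fun y => y ^ 3) (c := 5) (fun k hk => by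
    obtain ⟨h4, h5⟩ := w1 k hk
    have h6 : yz k ^ 2 ≤ 5 ^ 2 := pow_le_pow_left₀ h4.le h5 2
    nlinarith [mul_le_mul_of_nonneg_right h6 (pow_pos h4 4).le]) s2)
  have q2 := p3 r _ _ _ hr (by norm_num) (aR_sq (f := fun y => y ^ 2) (c := 1)
    (fun k _ => by nlinarith) s2)
  have q3 := p3 e₂ _ _ _ he₂ (by norm_num) (aR_sq (f := fun y => y) (c := 1)
    (fun k _ => by nlinarith [sq_nonneg (yz k ^ 2 - 1)]) s2)
  simp only [om] at s1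
  simp only [sum_add_distrib, ← mul_sum] at h3
  rw [div_le_iff₀ (by positivity)] at q1 q2 q3
  rw [SpecR, div_le_iff₀ (by positivity)]
  refine h3.trans ?_
  generalize K20 = S at *
  linarith

end Pool.Agent.MP_88bd62_nt.U.A
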