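import Pool.Agent.MP_88bd62_nt.U.AStm

namespace Pool.Agent.MP_88bd62_nt.U.A

open Finset Real Polynomial

theorem aRp_y3 (y : ℝ) (hy : 0 ≤ y) : y ^ 3 ≤ 0.351 * (y ^ 4 + 7) := by
  nlinarith [sq_nonneg (y ^ 2 - 1.4245 * y - 1.526), sq_nonneg (y - 2.14), sq_nonneg (y ^ 2 - 4.58),
    mul_nonneg hy (sq_nonneg (y - 2.14)), mul_nonneg (mul_nonneg hy hy) (sq_nonneg (y - 2.14))]

theorem aRp_y2 (y : ℝ) : y ^ 2 ≤ 0.189 * (y ^ 4 + 7) := by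
  nlinarith [sq_nonneg (y ^ 2 - 2.6455)]

theorem aRp_real (c i j s y w m n g a t R E : ℝ) (hc : 1 ≤ c) (hi : 1 ≤ i) (hj : 0 ≤ j)
    (hs0 : 0 ≤ s) (hs : s ≤ c) (hy : 0 ≤ y) (hw : w * j ≤ 1) (hm : 0 ≤ m)
    (hn : 0 ≤ n) (hg : 0 ≤ g) (ha : 0 ≤ a) (ht : 0 ≤ t) (hR : 0 ≤ R) (hE : 0 ≤ E) :
    c * (2.2341 * y ^ 2 * j * (2 * (y * (5.14 * n + 0.0000006 + g + (0.0000008 + w * m) * i))
        + 2.2341 * (1.8184 * n + 0.00000035 * i) + 0.0000009472584 * y * i ^ 2 * s + 3 * a + t)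
        + 2.2341 * y ^ 2 * R * i ^ 3 + y * E * i) ≤
      c * 2.2341 * (0.702 * (5.14 * n + g) + 0.189 * (4.0625 * n + 3 * a + t)) * (y ^ 4 + 7) * j
      + c ^ 2 * i ^ 2 * (0.0000083721 * y ^ 3 + 0.000001747 * y ^ 2) * j
      + 1.0001 * c * i ^ 3 * (4.4682 * y ^ 3 * m + 2.2341 * y ^ 2 * R + y * E) := by
  have hc0 : 0 ≤ c := by linarith
  have hi0 : 0 ≤ i := by linarith
  have hi2 : i ≤ i ^ 2 := by nlinarith
  have hi3 : i ≤ i ^ 3 := by nlinarith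
  have hci : i ^ 2 ≤ c * i ^ 2 := by nlinarith
  have hy2 : 0 ≤ y ^ 2 := by positivity
  have hy3 : 0 ≤ y ^ 3 := by positivity
  have h1 : 2 * y ^ 3 * (5.14 * n + g) ≤ 0.702 * (5.14 * n + g) * (y ^ 4 + 7) := by
    have := mul_le_mul_of_nonneg_right (aRp_y3 y hy) (show 0 ≤ 5.14 * n + g by positivity)
    linarith
  have h2 : y ^ 2 * (2.2341 * (1.8184 * n) + 3 * a + t) ≤
      0.189 * (4.0625 * n + 3 * a + t) * (y ^ 4 + 7) := by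
    have h21 := mul_le_mul_of_nonneg_right (aRp_y2 y) (show 0 ≤ 4.0625 * n + 3 * a + t by positivity)
    have h22 : y ^ 2 * (2.2341 * (1.8184 * n) + 3 * a + t) ≤ y ^ 2 * (4.0625 * n + 3 * a + t) := by
      apply mul_le_mul_of_nonneg_left _ hy2
      linarith
    linarith
  have h3 : 2.2341 * (2 * (0.0000006 + 0.0000008 * i) + 0.0000009472584 * i ^ 2 * s) ≤
      c * i ^ 2 * 0.0000083721 := by
    have : i ^ 2 * s ≤ c * i ^ 2 := by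
      rw [mul_comm c]; exact mul_le_mul_of_nonneg_left hs (by positivity)
    nlinarith
  have h4 : 2.2341 * (2.2341 * (0.00000035 * i)) ≤ c * i ^ 2 * 0.000001747 := by
    nlinarith
  have h5 : w * j * i ≤ 1.0001 * i ^ 3 := by
    have : w * j * i ≤ 1 * i := mul_le_mul_of_nonneg_right hw hi0
    nlinarith
  have h6 : i ^ 3 ≤ 1.0001 * i ^ 3 := by nlinarith
  have h7 : i ≤ 1.0001 * i ^ 3 := by nlinarith
  have k1 := mul_le_mul_of_nonneg_left h1 (show 0 ≤ c * 2.2341 * j by positivity)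
  have k2 := mul_le_mul_of_nonneg_left h2 (show 0 ≤ c * 2.2341 * j by positivity)
  have k3 := mul_le_mul_of_nonneg_left h3 (show 0 ≤ c * y ^ 3 * j by positivity)
  have k4 := mul_le_mul_of_nonneg_left h4 (show 0 ≤ c * y ^ 2 * j by positivity)
  have k5 := mul_le_mul_of_nonneg_left h5 (show 0 ≤ c * (4.4682 * y ^ 3 * m) by positivity)
  have k6 := mul_le_mul_of_nonneg_left h6 (show 0 ≤ c * (2.2341 * y ^ 2 * R) by positivity)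
  have k7 := mul_le_mul_of_nonneg_left h7 (show 0 ≤ c * (y * E) by positivity)
  nlinarith

theorem aRp_low (Z W : ℂ) (η : ℝ) (h : ‖Z - W‖ ≤ η * ‖W‖) : (1 - η) * ‖W‖ ≤ ‖Z‖ := by
  have h1 : ‖W‖ ≤ ‖Z‖ + ‖Z - W‖ := by
    have := norm_sub_le Z (Z - W)
    simpa using this
  linarith

theorem aRp_core (hAlg : StAlg) (κ ζ D V T β Z G P U₁ U₂ e₁ e₂ r u z : ℂ)
    (K y w m n g a t h ξ : ℝ) (hK : 0.58 ≤ K) (hK1 : K ≤ 1) (hKκ : K ≤ ‖κ‖) (hζ : ζ ≠ 0)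
    (hy : y = 1 / ‖ζ‖) (hy5 : y ≤ 5) (hD : D ≠ 0) (hD1 : ‖D⁻¹‖ ≤ 2.2341) (hz : z ≠ 0)
    (hw0 : 0 ≤ w) (hw : w ≤ ‖z‖) (hm : 0 ≤ m) (hwm : w * m ≤ 0.008182 * ξ)
    (hn : 0 ≤ n) (hg : 0 ≤ g) (ha : 0 ≤ a) (ht : 0 ≤ t) (h4 : 4 * a ≤ h) (hq : h ≤ 1 / 4)
    (hh : h = 5 * (5.14 * n + 0.0000006 + g + (0.0000008 + 0.008182 * ξ) / K)
      + 2.2341 * (1.8184 * n + 0.00000035 / K) + 0.00003)
    (hZ : ‖Z - κ * ζ‖ ≤ ‖κ‖ * (5.14 * n + 0.0000006 + g) + 0.0000008 + w * m)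
    (hG : ‖G - κ * D‖ ≤ ‖κ‖ * (1.8184 * n) + 0.00000035) (he : ‖e₁‖ ≤ 0.000000424)
    (hβ : ‖β - κ‖ ≤ ‖κ‖ * a) (hT : ‖T - 1‖ ≤ t) (r1 : Z * G = U₁ + e₁) (r2 : Z * P = U₂ + e₂)
    (r3 : U₁ * U₂ = V * T * β ^ 3 + r) (hu : ‖u‖ ≤ 1) (huV : u * V = 1 / z) :
    ‖u * P - 1 / (z * ζ ^ 2 * D)‖ ≤
      (1 + h) / (1 - h) ^ 2 * 2.2341 * (0.702 * (5.14 * n + g) + 0.189 * (4.0625 * n + 3 * a + t))
        * (y ^ 4 + 7) / ‖z‖
      + ((1 + h) / (1 - h) ^ 2) ^ 2 / K ^ 2 * (0.0000083721 * y ^ 3 + 0.000001747 * y ^ 2) / ‖z‖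
      + 1.0001 * ((1 + h) / (1 - h) ^ 2) / K ^ 3 * (4.4682 * y ^ 3 * m + 2.2341 * y ^ 2 * ‖r‖
        + y * ‖e₂‖) := by
  have hK0 : 0 < K := by linarith
  have hκ0 : 0 < ‖κ‖ := by linarith
  have hκ : κ ≠ 0 := norm_pos_iff.1 hκ0
  have hζ0 : 0 < ‖ζ‖ := norm_pos_iff.2 hζ
  have hD0 : 0 < ‖D‖ := norm_pos_iff.2 hD
  have hz0 : 0 < ‖z‖ := norm_pos_iff.2 hz
  have hy0 : 0 < y := by rw [hy]; positivity
  have hyζ : y * ‖ζ‖ = 1 := by rw [hy]; field_simp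
  have hDD : 1 ≤ 2.2341 * ‖D‖ := by
    rw [norm_inv, inv_le_iff_one_le_mul₀ hD0] at hD1
    exact hD1
  have hh0 : 0 ≤ h := by linarith
  have h1h : 0 < 1 - h := by linarith
  obtain ⟨i, hi⟩ : ∃ i, i = 1 / K := ⟨_, rfl⟩
  have hiK : i * K = 1 := by rw [hi]; field_simp
  have hi1 : 1 ≤ i := by rw [hi, le_div_iff₀ hK0]; linarith
  have hi2 : i ≤ 1.73 := by rw [hi, div_le_iff₀ hK0]; linarith
  have hiκ : 1 ≤ i * ‖κ‖ := by nlinarith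
  obtain ⟨s, hs⟩ : ∃ s, s = 1 / (1 - h) := ⟨_, rfl⟩
  have hsh : s * (1 - h) = 1 := by rw [hs]; field_simp
  have hs0 : 0 ≤ s := by rw [hs]; positivity
  have hs2 : s ≤ 4 / 3 := by rw [hs, div_le_iff₀ h1h]; linarith
  obtain ⟨c, hc⟩ : ∃ c, c = (1 + h) / (1 - h) ^ 2 := ⟨_, rfl⟩
  have hsc : s ≤ c := by
    rw [hs, hc, div_le_div_iff₀ h1h (by positivity)]
    nlinarith
  have hc1 : 1 ≤ c := by
    rw [hc, le_div_iff₀ (by positivity)]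
    nlinarith
  obtain ⟨η, hη⟩ : ∃ η, η = y * (5.14 * n + 0.0000006 + g + (0.0000008 + w * m) * i) := ⟨_, rfl⟩
  obtain ⟨d, hd⟩ : ∃ d, d = 2.2341 * (1.8184 * n + 0.00000035 * i) := ⟨_, rfl⟩
  obtain ⟨ε, hε⟩ : ∃ ε, ε = 0.0000009472584 * y * i ^ 2 * s := ⟨_, rfl⟩
  have hwm0 : 0 ≤ w * m := mul_nonneg hw0 hm
  have hη0 : 0 ≤ η := by rw [hη]; positivity
  have hd0 : 0 ≤ d := by rw [hd]; positivity
  have hε0 : 0 ≤ ε := by rw [hε]; positivity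
  have hε3 : ε ≤ 0.00003 := by
    rw [hε]
    have a1 : y * i ^ 2 ≤ 5 * 3 := mul_le_mul hy5 (by nlinarith) (by positivity) (by norm_num)
    have a2 : y * i ^ 2 * s ≤ 5 * 3 * (4 / 3) := mul_le_mul a1 hs2 hs0 (by norm_num)
    nlinarith
  have hsum : η + d + 0.00003 ≤ h := by
    have b1 : (0.0000008 + w * m) * i ≤ (0.0000008 + 0.008182 * ξ) / K := by
      rw [div_eq_mul_one_div, ← hi]
      exact mul_le_mul_of_nonneg_right (by linarith) (by linarith)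
    have b2 : η ≤ 5 * (5.14 * n + 0.0000006 + g + (0.0000008 + w * m) * i) := by
      rw [hη]; exact mul_le_mul_of_nonneg_right hy5 (by positivity)
    have b3 : (0.00000035 : ℝ) / K = 0.00000035 * i := by rw [hi]; ring
    rw [hh, b3, ← hd]
    linarith
  have hZ' : ‖Z - κ * ζ‖ ≤ η * ‖κ * ζ‖ := by
    have b1 : η * ‖κ * ζ‖ = ‖κ‖ * (5.14 * n + 0.0000006 + g) + (0.0000008 + w * m) * (i * ‖κ‖) := by
      rw [norm_mul, hη]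
      linear_combination (‖κ‖ * (5.14 * n + 0.0000006 + g + (0.0000008 + w * m) * i)) * hyζ
    have b2 : (0.0000008 + w * m) * 1 ≤ (0.0000008 + w * m) * (i * ‖κ‖) :=
      mul_le_mul_of_nonneg_left hiκ (by positivity)
    linarith
  have hG' : ‖G - κ * D‖ ≤ d * ‖κ * D‖ := by
    have b1 : d * ‖κ * D‖ = (‖κ‖ * (1.8184 * n) + 0.00000035 * (i * ‖κ‖)) * (2.2341 * ‖D‖) := by
      rw [norm_mul, hd]; ring
    have b2 : (‖κ‖ * (1.8184 * n) + 0.00000035 * (i * ‖κ‖)) * 1 ≤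
        (‖κ‖ * (1.8184 * n) + 0.00000035 * (i * ‖κ‖)) * (2.2341 * ‖D‖) :=
      mul_le_mul_of_nonneg_left hDD (by positivity)
    linarith
  have he' : ‖e₁‖ ≤ ε * ‖Z * G‖ := by
    have b1 := aRp_low _ _ _ hZ'
    have b2 := aRp_low _ _ _ hG'
    have b3 : (1 - η) * ‖κ * ζ‖ * ((1 - d) * ‖κ * D‖) ≤ ‖Z * G‖ := by
      rw [norm_mul Z]
      exact mul_le_mul b1 b2 (mul_nonneg (by linarith) (norm_nonneg _)) (norm_nonneg _)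
    have b4 : 1 ≤ s * ((1 - η) * (1 - d)) := by
      have : 1 - h ≤ (1 - η) * (1 - d) := by nlinarith [mul_nonneg hη0 hd0]
      nlinarith
    have b5 : ε * ((1 - η) * ‖κ * ζ‖ * ((1 - d) * ‖κ * D‖)) = 0.000000424 *
        ((s * ((1 - η) * (1 - d))) * ((i * ‖κ‖) * (i * ‖κ‖) * (2.2341 * ‖D‖))) := by
      rw [norm_mul, norm_mul, hε]
      linear_combination (0.0000009472584 * i ^ 2 * s * (1 - η) * ‖κ‖ * (1 - d) * ‖κ‖ * ‖D‖) * hyζ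
    have b6 : 1 ≤ (s * ((1 - η) * (1 - d))) * ((i * ‖κ‖) * (i * ‖κ‖) * (2.2341 * ‖D‖)) :=
      one_le_mul_of_one_le_of_one_le b4
        (one_le_mul_of_one_le_of_one_le (one_le_mul_of_one_le_of_one_le hiκ hiκ) hDD)
    have b7 := mul_le_mul_of_nonneg_left b3 hε0
    linarith
  have main := hAlg κ ζ D V T β Z G P U₁ U₂ e₁ e₂ r η d ε a t h hκ hζ hD hZ' hG' he'
    (by rw [mul_comm]; exact hβ) hT hη0 hd0 hε0 ha ht (by linarith) h4 hq r1 r2 r3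
  rw [← hc] at main ⊢
  have e1 : u * P - 1 / (z * ζ ^ 2 * D) = u * (P - V / (ζ ^ 2 * D)) := by
    rw [mul_sub, ← mul_div_assoc, huV]
    field_simp
  obtain ⟨j, hj⟩ : ∃ j, j = 1 / ‖z‖ := ⟨_, rfl⟩
  have hj0 : 0 ≤ j := by rw [hj]; positivity
  have hDi : ‖D‖⁻¹ ≤ 2.2341 := by rwa [norm_inv] at hD1
  have hκi : ‖κ‖⁻¹ ≤ i := by
    rw [hi, one_div]; exact inv_anti₀ hK0 hKκ
  have hyi : ‖ζ‖⁻¹ = y := by rw [hy, one_div]
  have f1 : ‖u‖ * ‖V / (ζ ^ 2 * D)‖ ≤ 2.2341 * y ^ 2 * j := by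
    rw [← norm_mul, ← mul_div_assoc, huV, norm_div, norm_div, norm_one, ← hj, norm_mul, norm_pow,
      div_eq_mul_inv, mul_inv, ← inv_pow, hyi]
    have := mul_le_mul_of_nonneg_left hDi (show 0 ≤ j * y ^ 2 by positivity)
    linarith
  have f2 : ‖r‖ / ‖κ ^ 3 * ζ ^ 2 * D‖ ≤ 2.2341 * y ^ 2 * ‖r‖ * i ^ 3 := by
    rw [norm_mul, norm_mul, norm_pow, norm_pow, div_eq_mul_inv, mul_inv, mul_inv, ← inv_pow,
      ← inv_pow, hyi]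
    have b1 : ‖κ‖⁻¹ ^ 3 ≤ i ^ 3 := pow_le_pow_left₀ (by positivity) hκi 3
    have b2 : ‖κ‖⁻¹ ^ 3 * ‖D‖⁻¹ ≤ i ^ 3 * 2.2341 := mul_le_mul b1 hDi (by positivity) (by positivity)
    have := mul_le_mul_of_nonneg_left b2 (show 0 ≤ ‖r‖ * y ^ 2 by positivity)
    linarith
  have f3 : ‖e₂‖ / ‖κ * ζ‖ ≤ y * ‖e₂‖ * i := by
    rw [norm_mul, div_eq_mul_inv, mul_inv, hyi]
    have := mul_le_mul_of_nonneg_left hκi (show 0 ≤ ‖e₂‖ * y by positivity)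
    linarith
  have hwj : w * j ≤ 1 := by
    rw [hj, ← div_eq_mul_one_div, div_le_one hz0]; exact hw
  have fin := aRp_real c i j s y w m n g a t ‖r‖ ‖e₂‖ hc1 hi1 hj0 hs0 hsc hy0.le hwj hm hn hg ha ht
    (norm_nonneg _) (norm_nonneg _)
  rw [← hη, ← hd, ← hε] at fin
  have g1 : ‖u‖ * ‖V / (ζ ^ 2 * D)‖ * (2 * η + d + ε + 3 * a + t) ≤
      2.2341 * y ^ 2 * j * (2 * η + d + ε + 3 * a + t) :=
    mul_le_mul_of_nonneg_right f1 (by positivity)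
  have g2 : ‖u‖ * (‖r‖ / ‖κ ^ 3 * ζ ^ 2 * D‖ + ‖e₂‖ / ‖κ * ζ‖) ≤
      1 * (‖r‖ / ‖κ ^ 3 * ζ ^ 2 * D‖ + ‖e₂‖ / ‖κ * ζ‖) :=
    mul_le_mul_of_nonneg_right hu (by positivity)
  have g3 : ‖u‖ * (‖V / (ζ ^ 2 * D)‖ * (2 * η + d + ε + 3 * a + t) + ‖r‖ / ‖κ ^ 3 * ζ ^ 2 * D‖
      + ‖e₂‖ / ‖κ * ζ‖) ≤ 2.2341 * y ^ 2 * j * (2 * η + d + ε + 3 * a + t)
        + 2.2341 * y ^ 2 * ‖r‖ * i ^ 3 + y * ‖e₂‖ * i := by
    linarith
  have g4 := mul_le_mul_of_nonneg_left g3 (show 0 ≤ c by linarith)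
  have g5 := mul_le_mul_of_nonneg_left main (norm_nonneg u)
  rw [e1, norm_mul]
  have e2 : ∀ A B C : ℝ, A / ‖z‖ + c ^ 2 / K ^ 2 * B / ‖z‖ + 1.0001 * c / K ^ 3 * C =
      A * j + c ^ 2 * i ^ 2 * B * j + 1.0001 * c * i ^ 3 * C := by
    intro A B C
    rw [hj, hi]
    field_simp
  rw [e2]
  linarith

theorem stRp (hBas : StBas) (hNode : StNode) (hHa : StHa) (hTT : StTT) (hMon : StMon)
    (hAlg : StAlg) : StRp := by
  intro ZP DP PW p U₁ U₂ e₁ e₂ r k hk hy5 hZ hp hG he r1 r2 r3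
  obtain ⟨hadd, hnat, hnorm, -, -, -, hb, hb2⟩ := hBas
  obtain ⟨hz, -, hzn, hξ, -, hx0, hx1, -, hw, hq, -⟩ := hb k
  obtain ⟨hodd, hξ1, -, hKκ, hK, hK1, -⟩ := hb2 k hk
  obtain ⟨hD, hD1, hζ, -⟩ := hHa k hodd
  obtain ⟨ha, -, hn, hg, ht, -, -, -, h4, -, hq4, -⟩ :=
    hMon.2 0 (xi k) (xi k) le_rfl hξ.le hξ le_rfl hξ1.le
  have hx1' : 1 - xk k ≠ 0 := sub_ne_zero.2 (Ne.symm hx1)
  have x0 : xp k 0 = 1 := by simp [xp]
  have x1 : xp k 527 * xp k (-527) = 1 := by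
    rw [← hadd, ← x0]; norm_num
  have x2 : xp k (-555) * xk k ^ 28 = xp k (-527) := by
    rw [← hnat, ← hadd]; norm_num
  have x3 : ‖xp k 527‖ ≤ 1 := by
    rw [hnorm]
    exact Real.rpow_le_one_of_one_le_of_nonpos (by norm_num) (by norm_num)
  have n1 : ∀ (v : ℂ) (a b : ℕ), ‖v / (a * 2 ^ b)‖ = ‖v‖ / (a * 2 ^ b) := by
    intro v a b
    rw [norm_div, norm_mul, norm_pow, Complex.norm_natCast, Complex.norm_ofNat]
  have n3 : ∀ (v : ℂ) (b : ℕ), ‖v / (3 * 2 ^ b)‖ = ‖v‖ / (3 * 2 ^ b) := fun v b => by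
    simpa using n1 v 3 b
  have n9 : ∀ (v : ℂ) (b : ℕ), ‖v / (9 * 2 ^ b)‖ = ‖v‖ / (9 * 2 ^ b) := fun v b => by
    simpa using n1 v 9 b
  have n27 : ∀ (v : ℂ) (b : ℕ), ‖v / (27 * 2 ^ b)‖ = ‖v‖ / (27 * 2 ^ b) := fun v b => by
    simpa using n1 v 27 b
  have core := aRp_core hAlg (kap k) (riemannZeta (sk k)) (DAv k) (xp k (-527) / (1 - xk k))
    (tpv (xk k) / (2 ^ 56 * xk k ^ 28)) (b5 (xk k) / 24) (ev k ZP / (3 * 2 ^ 27))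
    (ev k DP / (3 * 2 ^ 35)) (ev k PW / 2 ^ 22) (ev k U₁ / (9 * 2 ^ 39)) (ev k U₂ / (3 * 2 ^ 26))
    (ev k e₁ / (9 * 2 ^ 63)) (ev k e₂ / (3 * 2 ^ 50)) (ev k r / (27 * 2 ^ 66))
    (qq k * xp k 527) (zk k) (kL (xi k)) (yz k) ‖1 - xk k‖ (‖ev k p‖ / (3 * 2 ^ 54))
    (nd (xi k)) (tg (xi k)) (al5 (xi k)) (tT (xi k)) (hh (xi k)) (xi k) hK hK1 hKκ hζ rfl hy5 hD hD1
    hz (norm_nonneg _) hw (by positivity) ?_ hn hg ha ht h4 hq4 rfl ?_ hG ?_ (hNode.2.1 k hk)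
    (hTT.1 k hk) ?_ ?_ ?_ ?_ ?_
  · rw [n27, n3] at core
    have e1 : dR PW k = qq k * xp k 527 * (ev k PW / 2 ^ 22)
        - 1 / (zk k * riemannZeta (sk k) ^ 2 * DAv k) := by
      rw [dR, mul_div_assoc]
    rw [e1]
    refine core.trans (le_of_eq ?_)
    rw [gR, cc]
    ring
  · have b1 : ‖ev k p‖ / (3 * 2 ^ 54) ≤ 1 / 192 := by
      rw [div_le_iff₀ (by positivity)]
      refine hp.trans (by norm_num)
    have b2 : ‖1 - xk k‖ * (‖ev k p‖ / (3 * 2 ^ 54)) ≤ π / 2 * xi k * (1 / 192) :=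
      mul_le_mul (hw.trans hzn.le) b1 (by positivity) (by positivity)
    have b3 : π * xi k ≤ 3.1416 * xi k := mul_le_mul_of_nonneg_right Real.pi_lt_d4.le hξ.le
    linarith
  · have b1 := norm_add_le (ev k ZP / (3 * 2 ^ 27) - kap k * riemannZeta (sk k)
      - (1 - xk k) * ev k p / (3 * 2 ^ 54)) ((1 - xk k) * ev k p / (3 * 2 ^ 54))
    rw [sub_add_cancel, n3, norm_mul, mul_div_assoc] at b1
    rw [aZ] at hZ
    rw [mul_div_assoc] at hZ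
    linarith
  · rw [n9, div_le_iff₀ (by positivity)]
    refine he.trans (by norm_num)
  · linear_combination (1 / (9 * 2 ^ 63)) * r1
  · linear_combination (1 / (3 * 2 ^ 50)) * r2
  · have h : ev k U₁ * ev k U₂ = xp k (-555) * tpv (xk k) * b5 (xk k) ^ 3 / (1 - xk k)
        + ev k r / 2 := by
      field_simp
      linear_combination r3
    rw [← x2, div_mul_div_comm, h]
    field_simp
    ring
  · rw [norm_mul]
    exact mul_le_one₀ hq (norm_nonneg _) x3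
  · rw [qq]
    field_simp
    linear_combination x1

end Pool.Agent.MP_88bd62_nt.U.A
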