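import Pool.Agent.MP_88bd62_nt.U.DP

/-! Programs for the evaluation on the grid, run by the kernel.  Numbers are read as vectors of
digits in base `2 ^ 80`. -/

namespace Pool.Agent.MP_88bd62_nt.U.A

open D (cn an PL cl flo fhi Tb)

noncomputable section

/-- Evaluate the small number `x` first. -/
def frc (x : ℕ) (k : ℕ → Bool) : Bool := @Nat.rec (fun _ => Bool) false (fun c _ => k c) (Nat.succ x)

def frn (x : ℕ) (k : ℕ → ℕ) : ℕ := @Nat.rec (fun _ => ℕ) 0 (fun c _ => k c) (Nat.succ x)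

def cb (a x y : Bool) : Bool := @Bool.rec (fun _ => Bool) y x a

def B1 : ℕ := 1208925819614629174706175

def shl (x n : ℕ) : ℕ := Nat.shiftLeft x (Nat.mul 80 n)

def shr (x n : ℕ) : ℕ := Nat.shiftRight x (Nat.mul 80 n)

/-- `n` digits `1`. -/
def on (n : ℕ) : ℕ := Nat.div (shl 1 n) B1

/-- The first digits of `x`, marked by `o`, are below `2 ^ r`. -/
def low (x o r : ℕ) : Bool :=
  Nat.beq (Nat.land x (Nat.mul o (Nat.sub 1208925819614629174706176 (Nat.shiftLeft 1 r)))) 0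

/-- `x` has at most `n` digits, all below `2 ^ r`; here `o = on n`. -/
def rng (x n o r : ℕ) : Bool := an (Nat.beq (shr x n) 0) (low x o r)

/-! Splines and logarithms -/

def K0 : ℕ := 0x10000000000000000000b0000000000000000000b0000000000000000000100000000000000000
def K1 : ℕ := 0x200000000000000000005fffffffffffffffffff9fffffffffffffffffffe0000000000000
def K2 : ℕ := 0x17ffffffffffffffffffe7ffffffffffffffffffe80000000000000000001800000000
def K3 : ℕ := 0x7ffffffffffffffffffe800000000000000000017fffffffffffffffffff80000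
def K4 : ℕ := 0xfffffffffffffffffffc00000000000000000005fffffffffffffffffffc00000000000000000001

/-- The five values `24 * 2 ^ 68 * tap t (f / 2 ^ 17)`. -/
def spl (f : ℕ) : ℕ :=
  Nat.add (Nat.mul (Nat.add (Nat.mul (Nat.add (Nat.mul (Nat.add (Nat.mul K4 f) K3) f) K2) f) K1) f) K0

/-- Digits divided by `2 ^ 36`, for numbers with at most `132` digits. -/
def tr36 (x : ℕ) : ℕ := Nat.land (Nat.shiftRight x 36) (Nat.mul (on 132) 17592186044415)

def KK : ℕ := 6653256548922161245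

/-- The sum of `y ^ (2 i + 1) / (2 i + 1)` over `i < T`, in units of `2 ^ (-64)`. -/
def ath (y y2 T : ℕ) : ℕ :=
  @Nat.rec (fun _ => ℕ → ℕ) (fun _ => 0) (fun i ih p =>
    Nat.add (Nat.div p (Nat.sub (Nat.add T T) (Nat.succ (Nat.add i i))))
      (ih (Nat.shiftRight (Nat.mul p y2) 64))) T y

def lg1 (T y : ℕ) : ℕ :=
  Nat.shiftRight (Nat.mul KK (ath y (Nat.shiftRight (Nat.mul y y) 64) T)) 63

/-- `2 ^ 62 * logb 2 (b / a)`. -/
def lg (T a b : ℕ) : ℕ := lg1 T (Nat.div (Nat.shiftLeft (Nat.sub b a) 64) (Nat.add a b))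

/-- `2 ^ 62 * logb 2 n`. -/
def lgn (n : ℕ) : ℕ :=
  Nat.add (Nat.shiftLeft (Nat.log2 n) 62) (lg 15 (Nat.shiftLeft 1 (Nat.log2 n)) n)

/-- `2 ^ 40 * 2 ^ (2 ^ i / 2 ^ 22)`, rounded down. -/
def rt (i : ℕ) : ℕ :=
  Nat.land (Nat.shiftRight 0x200000000000000016a09e667f3000001306fe0a31b000001172b83c7d50000010b5586cf98000001059b0d315800000102c9a3e7780000010163da9fb300000100b1afa5ab0000010058c86da1000001002c605e2e00000100162f3904000001000b175eff00000100058ba01f0000010002c5cc37000001000162e5250000010000b17255000001000058b91b00000100002c5c890000010000162e4300000100000b17210000010000058b90000001000002c5c8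
    (Nat.mul 64 i)) 18446744073709551615

/-! The partial sum of zeta -/

def O8 : ℕ := 0x10000000000000001000000000000000100000000000000010000000000000001000000000000000100000000000000010000000000000001
def RAMP : ℕ := 0x70000000000000006000000000000000500000000000000040000000000000003000000000000000200000000000000010000000000000000
def SQ : ℕ := 0x310000000000000024000000000000001900000000000000100000000000000009000000000000000400000000000000010000000000000000
def MF : ℕ := 0x1ffff000000000001ffff000000000001ffff000000000001ffff000000000001ffff000000000001ffff000000000001ffff000000000001ffff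
def M7 : ℕ := 0x7f000000000000007f000000000000007f000000000000007f000000000000007f000000000000007f000000000000007f000000000000007f

/-- Positions of `m, …, m + 7` relative to the cell of `m`, in slots of width `64`. -/
def bt (m P : ℕ) : ℕ :=
  Nat.shiftRight (Nat.sub (Nat.add (Nat.mul (Nat.land P 1099511627775) O8) (Nat.mul (Nat.div KK m) RAMP))
    (Nat.mul (Nat.div (Nat.div KK m) (Nat.add m m)) SQ)) 23

def bn (fv sv i : ℕ) : ℕ :=
  Nat.shiftLeft (spl (Nat.land (Nat.shiftRight fv i) 131071)) (Nat.land (Nat.shiftRight sv i) 16383)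

def bp1 (fv sv : ℕ) : ℕ :=
  tr36 (Nat.add (Nat.add (Nat.add (bn fv sv 64) (bn fv sv 192)) (Nat.add (bn fv sv 320) (bn fv sv 448)))
    (Nat.mul 3 (bn fv sv 256)))

def bm1 (fv sv : ℕ) : ℕ := tr36 (Nat.add (bn fv sv 128) (bn fv sv 384))

def bfv (t : ℕ) : ℕ := Nat.land t MF

def bsv (t : ℕ) : ℕ := Nat.mul (Nat.land (Nat.shiftRight t 17) M7) 80

def b0 (t : ℕ) : ℕ := tr36 (spl (Nat.land t 131071))

def bpos (t g : ℕ) : ℕ :=
  cn (Nat.beq (Nat.mod g 3) 1)
    (Nat.add (bp1 (bfv t) (bsv t)) (Nat.mul (Nat.div (Nat.succ (Nat.add g g)) 3) (b0 t)))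
    (bp1 (bfv t) (bsv t))

def bneg (t g : ℕ) : ℕ :=
  cn (Nat.beq (Nat.mod g 3) 1) (bm1 (bfv t) (bsv t))
    (Nat.add (bm1 (bfv t) (bsv t)) (Nat.mul (Nat.div (Nat.sub (Nat.add g g) 1) 3) (b0 t)))

def blv (m P : ℕ) : ℕ := Nat.sub (bpos (bt m P) (Nat.gcd m 1048576)) (bneg (bt m P) (Nat.gcd m 1048576))

def blc (m P : ℕ) : Bool := Nat.ble (bneg (bt m P) (Nat.gcd m 1048576)) (bpos (bt m P) (Nat.gcd m 1048576))

def nxm (i m : ℕ) : ℕ := Nat.add m (Nat.shiftLeft 8 i)

def nxp (i m P : ℕ) : ℕ := Nat.add P (lg (Nat.succ (Nat.div 23 (Nat.sub 17 i))) m (nxm i m))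

/-- The value of `2 ^ l` blocks, relative to the cell of `m`. -/
def trv (l : ℕ) : ℕ → ℕ → ℕ :=
  @Nat.rec (fun _ => ℕ → ℕ → ℕ) blv (fun i ih m P =>
    frn (nxm i m) fun m' => frn (nxp i m P) fun R =>
      Nat.add (ih m P) (shl (ih m' R) (Nat.sub (Nat.shiftRight R 40) (Nat.shiftRight P 40)))) l

def trc (l : ℕ) : ℕ → ℕ → Bool :=
  @Nat.rec (fun _ => ℕ → ℕ → Bool) blc (fun i ih m P =>
    frc (nxm i m) fun m' => frc (nxp i m P) fun R => an (ih m P) (ih m' R)) l

/-- The exponential ramp on `2 ^ l` cells; `M` has digits `2 ^ 40 - 1`. -/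
def ramp (e M l : ℕ) : ℕ :=
  @Nat.rec (fun _ => ℕ) e (fun i ih => Nat.add ih
    (shl (Nat.land (Nat.shiftRight (Nat.mul ih (rt i)) 40) M) (Nat.shiftLeft 1 i))) l

def zoff : ℕ := 268468224

def zc3 (n o x y : ℕ) : Bool :=
  an (Nat.ble y x) (an (Nat.beq (Nat.mod (Nat.sub x y) B1) 0) (rng (Nat.div (Nat.sub x y) B1) n o 27))

def zc2 (m n l e t zu P pn o : ℕ) : Bool :=
  an (trc 14 m P) (an (Nat.ble t 134217728) (an (rng zu n o 29)
    (zc3 n o (Nat.add (Nat.add (Nat.mul t pn) (trv 14 m P)) (Nat.shiftLeft zu 27))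
      (Nat.add (Nat.land (ramp e (Nat.mul o 1099511627775) l) (Nat.sub pn 1))
        (Nat.add (Nat.mul o 36033195065475072) 67108864)))))

/-- The check of the quarter starting at `m`, with cells from `a` to `a + n`. -/
def zchk (m a n l e t zu : ℕ) : Bool :=
  frc (Nat.add 4194304 (lg 24 524288 m)) fun P =>
    an (Nat.beq (Nat.shiftRight P 40) a) (zc2 m n l e t zu P (shl 1 n) (Nat.div (shl 1 n) B1))

/-! Sparse lists of nodes -/

def val (l : PL) : ℕ := @PL.rec (fun _ => ℕ) 0 (fun c w _ ih => Nat.add (shl w c) ih) l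

def sc1 (l : PL) (x : ℕ) : ℕ :=
  @PL.rec (fun _ => ℕ) 0 (fun c w t _ => @PL.rec (fun _ => ℕ) (shl w c) (fun _ _ _ _ => x) t) l

/-- The value of a list by radix splitting. -/
def sc (k : ℕ) : PL → ℕ :=
  @Nat.rec (fun _ => PL → ℕ) val (fun k ih l => sc1 l
    (Nat.add (ih (flo (Nat.shiftLeft 1 k) l))
      (Nat.shiftLeft (ih (fhi (Nat.shiftLeft 1 k) l)) (Nat.shiftLeft 80 k)))) k

/-- Terms `(-1) ^ s * c * n ^ (-s)` with the logarithm `L` of `n`. -/
inductive TL
  | nil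
  | cons (n L c s : ℕ) (t : TL)

def ct (a : Bool) (x y : TL) : TL := @Bool.rec (fun _ => TL) y x a

/-- The cell of a node; `L` includes the rounding offset. -/
def ncl (L : ℕ) : ℕ := Nat.land (Nat.shiftRight L 40) 4194303

/-- The five values of a node of weight `w / 2 ^ 40`. -/
def ntp (L w : ℕ) : ℕ :=
  Nat.land (Nat.shiftRight (Nat.mul (Nat.shiftRight w (Nat.shiftRight L 62))
    (tr36 (spl (Nat.land (Nat.shiftRight L 23) 131071)))) 40) 0xffffffffff0000000000ffffffffff0000000000ffffffffff0000000000ffffffffff0000000000ffffffffff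

def nod (L c s : ℕ) (t : PL) : PL :=
  PL.cons (ncl L) (Nat.shiftLeft (ntp L (Nat.shiftLeft c 40))
    (Nat.mul 40 (Nat.mod (Nat.add s (Nat.shiftRight L 62)) 2))) t

def toP (l : TL) : PL :=
  @TL.rec (fun _ => PL) PL.nil (fun _ L c s _ ih => nod (Nat.add L 4194304) c s ih) l

/-- Positive terms in the low halves of the digits, negative terms in the high halves. -/
def grid (l : TL) : ℕ := sc 22 (toP l)

def gp (x o : ℕ) : ℕ := Nat.land x (Nat.mul o 1099511627775)

def gm (x o : ℕ) : ℕ := Nat.land (Nat.shiftRight x 40) (Nat.mul o 1099511627775)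

def dal (ps : List ℕ) : ℕ → ℕ → ℕ → ℕ → TL → TL :=
  @List.rec ℕ (fun _ => ℕ → ℕ → ℕ → ℕ → TL → TL) TL.cons (fun p _ ih n L c s t =>
    ih n L c s (ih (Nat.mul n (Nat.pow p 2)) (Nat.add L (Nat.mul 2 (lgn p))) (Nat.mul 3 c) (Nat.succ s)
      (ih (Nat.mul n (Nat.pow p 3)) (Nat.add L (Nat.mul 3 (lgn p))) (Nat.mul 2 c) s t))) ps

def lD : TL := dal [3, 5, 7, 11, 13, 17, 19] 1 0 1 0 TL.nil

def isp (m : ℕ) : Bool :=
  Nat.beq (Nat.gcd m (cn (Nat.ble m 528) 1124000727777607680000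
    0x2ad5274e58d079f9ccee804a65a0a779f8a4f525264fb1c037d898c016b3744daa4f6c61f6a02e2d896d776c78d0a55337730fe88caaf6fd6cd36101ccefe73de61fe132ec7ceda75289443fc8b30434dcea54f381a7b4acfd8ea4ba5d7412077b86ad1277f1122164d573bee80bfac768706b1b00000000000000000000000000000000000000000000)) 1

def gt1 (e c s m : ℕ) (t : TL) : TL :=
  ct (isp m) (TL.cons (Nat.pow m e) (Nat.mul e (lgn m)) c s t) t

/-- The terms `c * p ^ (-e s)` for the primes among `23, 25, …, 21 + 2 n`. -/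
def gent (e c s n : ℕ) (t : TL) : TL :=
  @Nat.rec (fun _ => TL) t (fun i ih => gt1 e c s (Nat.add 23 (Nat.add i i)) ih) n

def row (n L c s : ℕ) (l t : TL) : TL :=
  @TL.rec (fun _ => TL) t (fun n' L' c' s' _ ih =>
    TL.cons (Nat.mul n n') (Nat.add L L') (Nat.mul c c') (Nat.add s s') ih) l

/-- The terms of the square of a list. -/
def prs (l t : TL) : TL :=
  @TL.rec (fun _ => TL) t (fun n L c s l' ih =>
    TL.cons (Nat.mul n n) (Nat.add L L) (Nat.mul c c) 0 (row n L (Nat.mul 2 c) s l' ih)) l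

def lS : TL := gent 2 3 0 245 (gent 3 2 1 13 TL.nil)

def lH : TL :=
  TL.cons 1 0 2 0 (gent 2 6 0 16373 (gent 3 4 1 501 (gent 4 9 0 53 (prs lS TL.nil))))

/-! Products in the ring -/

def mwa (x mg z : ℕ) : ℕ := Nat.add (Nat.shiftLeft (Nat.land x mg) 1) z

/-- Twice the low half minus the high half, plus `z`. -/
def mwy (x n mg z : ℕ) : ℕ := Nat.sub (mwa x mg z) (shr x n)

def mwo (o r s : ℕ) : ℕ := Nat.mul o (Nat.add (Nat.shiftLeft 1 r) (Nat.shiftLeft 1 (Nat.sub s 1)))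

def mwc (x n o mg r s : ℕ) : Bool :=
  an (Nat.ble (shr x n) (mwa x mg (mwo o r s))) (low (mwy x n mg (mwo o r s)) o (Nat.succ r))

def mwv (x n o mg r s : ℕ) : ℕ :=
  Nat.land (Nat.shiftRight (mwy x n mg (mwo o r s)) s)
    (Nat.mul o (Nat.sub (Nat.shiftLeft 1 (Nat.sub (Nat.succ r) s)) 1))

/-- The value after removing the offset. -/
def mws (x n o mg r s : ℕ) : ℕ := Nat.sub (mwv x n o mg r s) (Nat.shiftLeft o (Nat.sub r s))

def mwd (x n o mg r s : ℕ) : Bool :=
  an (mwc x n o mg r s) (Nat.ble (Nat.shiftLeft o (Nat.sub r s)) (mwv x n o mg r s))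

def PG : ℕ := shl 1 4194304

def ON : ℕ := Nat.div PG B1

def MG : ℕ := Nat.sub PG 1

def dfv : ℕ := 0x21e02b000000000000017ae7cdfffffffffffff0c01895ffffffffffff9761f8ce0000000000049b3f2d66000000000000fb07d96dffffffffff69d55c27b600000000025dbcaf366e00000000001eaf7b9c1dffffffffe637001c71fe000000003dce431adb06000000003c11ca6c70fdfffffffdfa933dd1e0f60000000238654c115ade00000006ac020a8b5865ffffffebe0d27cbd15de0000000085e9443dc4da0000004b37278aed8065ffffffa0fb3cb5e6d4cdffffff7f95bb24a50966000001a9fe38bcbac59dffffff95818dec2b3805fffffc23bf82910171ee000004f26e922417ed06000003df5ee33e6fd145fffff16a4eeb2cd72df6000006ab44442670291e000015be2c51915e1cf5ffffdb260857da30ac8dffffe1d7504271b1a3d5fffe81f06e632c5b7f7dfff60f2eca0868fc4ed5ffe4ffffffffffffffffffd3f0d135f79703b129ffcb7e0f919cd3a48081ffca1e28afbd8e4e5c29ffca24d9f7a825cf5371ffc9ea41d3ae6ea1e309ffc9f954bbbbd98fd6e1ffca0e95b114d328d209ffc9fc20a11cc1902eb9ffc9fb0d916ddbe812f9ffca03dc407d6efe8e11ffca006a7e7213d4c7f9ffc9fe5601c743453a61ffca00806a44db5af699ffca005f04c34a192b31ffc9ffb4c8d875127f99ffc9ffff7a16bbc23b25ffca00141f2d8342ea21ffc9fff953fdf574a799ffc9fffdc79ab3eea521ffca0002056cc22e1f09ffc9ffffc3ee35938f01ffc9ffffc231bce524f9ffca000019c8ffe38e01ffc9ffffffe1508463e1ffc9fffffda24350c991ffca000000962aa3d849ffc9ffffffff04f82691ffc9fffffffb64c0d299ffca00000000689e0731ffca000000000f3fe769ffc9fffffffffe851831ffc9ffffffffffde1fd5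

def rc4 (a b : ℕ) : Bool := an (Nat.ble b a) (low (Nat.sub a b) ON 47)

def rc3 (x : ℕ) : Bool :=
  rc4 (mwa x MG (shl (Nat.mul 4 (Nat.add (Nat.mul 996124179980315787264 (on 555)) dfv)) 4193749))
    (Nat.add (shr x 4194304) (Nat.mul ON 1328165502938343538688))

def rc2 (x y : ℕ) : Bool :=
  an (mwd x 4194304 ON MG 67 24) (an (mwd y 4194304 ON MG 53 24)
    (rc3 (Nat.mul (mws x 4194304 ON MG 67 24) (mws y 4194304 ON MG 53 24))))

def wv (wl : ℕ) : ℕ := Nat.sub wl (Nat.shiftLeft ON 25)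

def rc1 (zu wl g : ℕ) : Bool :=
  an (Nat.ble (Nat.mul ON zoff) zu) (an (Nat.ble (Nat.shiftLeft ON 25) wl) (an (rng wl 4194304 ON 26)
    (an (Nat.beq (shr g 4194304) 0) (an (Nat.ble (gp g ON) (gm g ON))
      (rc2 (Nat.mul (Nat.sub zu (Nat.mul ON zoff)) (Nat.sub (gm g ON) (gp g ON)))
        (Nat.mul (Nat.sub zu (Nat.mul ON zoff)) (wv wl)))))))

/-- The four quarters side by side. -/
def zcat (z₀ z₁ z₂ z₃ : ℕ) : ℕ :=
  Nat.add (Nat.add z₀ (shl z₁ 1350264)) (shl (Nat.add z₂ (shl z₃ 932781)) 2453510)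

/-- The check of the residual. -/
def rchk (z₀ z₁ z₂ z₃ wl : ℕ) : Bool := rc1 (zcat z₀ z₁ z₂ z₃) wl (grid lD)

/-! The final filter and the explicit nodes -/

def jt1 (d : ℕ) : ℕ :=
  cn (Nat.beq d 0) 206158430208 (Nat.div (Nat.land (Nat.shiftRight
    0x2b498b70c4000001f897f388ac000005be7e4f2942000007e25fce22b3000005be7e4f2942000001f897f388ac0000002b498b70c40000000000000000
    (Nat.mul 64 (Nat.mod d 8))) 18446744073709551615) (Nat.pow d 4))

def jtv : ℕ :=
  @Nat.rec (fun _ => ℕ) 0 (fun i ih =>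
    Nat.add (jt1 (Nat.add (Nat.sub i 512) (Nat.sub 512 i))) (Nat.shiftLeft ih 80)) 1025

def ilv : ℕ := 0xfffffffffffffffffffc0000000000000000000fffffffffffffffffffc5000000000000000000ddfffffffffffffffffcc400000000000000000c10ffffffffffffffffd2f90000000000000000a809fffffffffffffffd8cdd00000000000000092481ffffffffffffffdde11a000000000000007f5716fffffffffffffe24c28c00000000000006ed9eb9fffffffffffffe24c28c000000000000007f5716ffffffffffffffdde11a00000000000000092481fffffffffffffffd8cdd0000000000000000a809ffffffffffffffffd2f900000000000000000c10fffffffffffffffffcc4000000000000000000ddffffffffffffffffffc50000000000000000000ffffffffffffffffffffc00000000000000000001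

def kx : ℕ := Nat.mul jtv ilv

def kv : ℕ := mws kx 1053 (on 1053) (Nat.sub (shl 1 1053) 1) 65 33

def eL (n : ℕ) : ℕ := Nat.add (lgn n) 4194304

def el (n : ℕ) : ℕ := ncl (eL n)

def ej (n : ℕ) : ℕ := ncl (Nat.add (lgn n) 549755813888)

def eA (n o : ℕ) : ℕ := ntp (eL n) (Nat.shiftLeft 1207959552 o)

def eS (n o : ℕ) : ℕ := Nat.mod (Nat.mul kv (eA n o)) B1

def eT (n o : ℕ) : ℕ := shl (eS n o) (Nat.sub (Nat.add 527 (ej n)) (el n))

def eC (n o : ℕ) : ℕ := Nat.div (Nat.sub (Nat.mul kv (eA n o)) (eT n o)) B1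

def ec1 (n o i P : ℕ) : Bool :=
  an (Nat.beq (Nat.shiftRight (eL n) 62) i)
  (an (Nat.ble (Nat.add (Nat.shiftLeft (ej n) 40) 1048576) (Nat.add P 549755813888))
  (an (Nat.ble (Nat.add P 1048576) (Nat.add (Nat.shiftLeft (ej n) 40) 549755813888))
  (an (Nat.ble (el n) (ej n))
  (an (Nat.ble (Nat.mul (Nat.shiftLeft (eS n o) i) 10000000)
    (Nat.mul 1945555039024054272 (Nat.add (Nat.shiftLeft 10000000 o) (Nat.shiftLeft 1 i))))
  (an (Nat.ble (Nat.mul 1945555039024054272 (Nat.shiftLeft 10000000 o))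
    (Nat.add (Nat.mul (Nat.shiftLeft (eS n o) i) 10000000) (Nat.shiftLeft 1945555039024054272 i)))
  (an (Nat.ble (eT n o) (Nat.mul kv (eA n o)))
  (an (Nat.beq (Nat.mod (Nat.sub (Nat.mul kv (eA n o)) (eT n o)) B1) 0)
    (rng (Nat.add (eC n o) (Nat.shiftLeft (on 1057) 62)) 1057 (on 1057) 63))))))))

def echk (n o : ℕ) : Bool := ec1 n o (Nat.log2 n) (lg 15 (Nat.shiftLeft 1 (Nat.log2 n)) n)

def kchk : Bool :=
  an (mwd kx 1053 (on 1053) (Nat.sub (shl 1 1053) 1) 65 33)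
  (an (echk 1 0) (an (echk 3 1) (an (echk 13 1) (an (echk 25 2) (an (echk 27 3) (an (echk 49 2)
  (an (echk 65 2) (an (echk 391 2) (an (echk 783 4) (an (echk 1565 2) (echk 3129 3)))))))))))

def ep (n o : ℕ) (t : PL) : PL := PL.cons (Nat.sub (el n) 527) (eC n o) t

def cpos : ℕ :=
  sc 22 (PL.cons 4193777 (Nat.mul 2 (eC 1 0)) (ep 27 3 (ep 49 2 (ep 783 4 PL.nil))))

def cneg : ℕ :=
  sc 22 (ep 3 1 (ep 13 1 (ep 25 2 (ep 65 2 (ep 391 2 (ep 1565 2 (ep 3129 3 PL.nil)))))))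

/-- The other value at a jump: `a` is added and `b` subtracted. -/
def jc2 (d a b h : ℕ) : Bool :=
  an (Nat.ble (Nat.add 302231454903657293676544 b) (Nat.add (Nat.add d a) h))
    (Nat.ble (Nat.add d a) (Nat.add (Nat.add 302231454903657293676544 h) b))

def jc1 (x i d h j a b : ℕ) : Bool :=
  cb (an (Nat.ble i j) (Nat.ble (Nat.succ j) (Nat.add i (Nat.shiftLeft 1 d))))
    (jc2 (Nat.land (shr x (Nat.sub j i)) B1) a b h) true

def jp (x i d h n o : ℕ) : Bool := jc1 x i d h (ej n) (Nat.mul 2 (eS n o)) 0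

def jm (x i d h n o : ℕ) : Bool := jc1 x i d h (ej n) 0 (Nat.mul 2 (eS n o))

def jall (x i d h : ℕ) : Bool :=
  an (jp x i d h 1 0) (an (jp x i d h 3 1) (an (jp x i d h 13 1) (an (jp x i d h 25 2)
  (an (jm x i d h 27 3) (an (jm x i d h 49 2) (an (jp x i d h 65 2) (an (jp x i d h 391 2)
  (an (jm x i d h 783 4) (an (jp x i d h 1565 2) (jp x i d h 3129 3))))))))))

def lf2 (x i d h o : ℕ) : Bool :=
  an (Nat.beq (Nat.land (Nat.add x (Nat.mul o (Nat.sub 302231454903657293676543 h))) (Nat.shiftLeft o 79)) 0)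
  (an (Nat.beq (Nat.land (Nat.add x (Nat.mul o (Nat.add 302231454903657293676544 h))) (Nat.shiftLeft o 79))
    (Nat.shiftLeft o 79)) (jall x i d h))

def lf1 (v x i d u : ℕ) : Bool :=
  an (Nat.ble (Nat.mul v 59373627899904) 3811925987959829535)
    (frc (Nat.shiftRight (Nat.mul (Nat.sub 3811925987959829535 (Nat.mul v 59373627899904)) u) 40) fun h =>
      an (Nat.ble h 1180591620717411303424) (lf2 x i d h (on (Nat.shiftLeft 1 d))))

/-- The check of `2 ^ d` cells starting at `i`; `u` is a lower bound of `2 ^ 40 * 2 ^ (i / 2 ^ 22)`. -/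
def fin (t : Tb) : ℕ → ℕ → ℕ → ℕ → Bool :=
  @Tb.rec (fun _ => ℕ → ℕ → ℕ → ℕ → Bool) lf1 (fun _ _ il ir x i d u =>
    @Nat.rec (fun _ => Bool) false (fun e _ =>
      an (il (Nat.land x (Nat.sub (shl 1 (Nat.shiftLeft 1 e)) 1)) i e u)
        (frc (Nat.add i (Nat.shiftLeft 1 e)) fun i' =>
          frc (Nat.shiftRight (Nat.mul u (rt e)) 40) fun u' =>
            ir (shr x (Nat.shiftLeft 1 e)) i' e u')) d) t

def xc3 (t : Tb) (x : ℕ) : Bool :=
  an (Nat.ble (shr x 4194304) (mwa x MG (Nat.shiftLeft ON 78)))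
    (fin t (mwy x 4194304 MG (Nat.shiftLeft ON 78)) 0 22 1099511627776)

def xc2 (t : Tb) (a : ℕ) : Bool := an (Nat.ble cneg a) (xc3 t (Nat.sub a cneg))

def xc1 (t : Tb) (x : ℕ) : Bool :=
  an (mwd x 4194304 ON MG 63 35)
    (xc2 t (Nat.add (Nat.mul kv (mws x 4194304 ON MG 63 35)) cpos))

def xc0 (t : Tb) (wl g : ℕ) : Bool :=
  an (Nat.beq (shr g 4194304) 0) (an (Nat.ble (gm g ON) (gp g ON))
    (xc1 t (Nat.mul (Nat.sub (gp g ON) (gm g ON)) (wv wl))))

/-- The final check. -/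
def xchk (t : Tb) (wl : ℕ) : Bool := xc0 t wl (grid lH)

end

end Pool.Agent.MP_88bd62_nt.U.A
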