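import Pool.Agent.MP_88bd62_nt.U.AStm
import Pool.Agent.MP_88bd62_nt.U.Prg

/-! Specifications of the programs for the evaluation on the grid. -/

namespace Pool.Agent.MP_88bd62_nt.U.A

open Finset Real Polynomial
open Pool.Agent.MP_22d5c4_co.K (dig ones)
open D (cn an PL cl flo fhi Tb)

noncomputable section

/-! Unfolding of the basic operations -/

theorem frc_eq (x : ℕ) (k : ℕ → Bool) : frc x k = k x := rfl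

theorem frn_eq (x : ℕ) (k : ℕ → ℕ) : frn x k = k x := rfl

theorem cb_eq (a x y : Bool) : cb a x y = if a = true then x else y := by cases a <;> rfl

theorem cn_eq (a : Bool) (x y : ℕ) : cn a x y = if a = true then x else y := by cases a <;> rfl

theorem ct_eq (a : Bool) (x y : TL) : ct a x y = if a = true then x else y := by cases a <;> rfl

theorem an_eq (a b : Bool) : an a b = true ↔ a = true ∧ b = true := by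
  cases a <;> simp [an]

theorem B1_eq : B1 = 2 ^ 80 - 1 := by norm_num [B1]

theorem shl_eq (x n : ℕ) : shl x n = x * 2 ^ (80 * n) := Nat.shiftLeft_eq x (80 * n)

theorem shr_eq (x n : ℕ) : shr x n = x / 2 ^ (80 * n) := Nat.shiftRight_eq_div_pow x (80 * n)

theorem val_nil : val .nil = 0 := rfl

theorem val_cons (c w : ℕ) (t : PL) : val (.cons c w t) = w * 2 ^ (80 * c) + val t := by
  rw [← shl_eq]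
  rfl

theorem val_split (b : ℕ) (l : PL) : val (flo b l) + val (fhi b l) * 2 ^ (80 * b) = val l := by
  have hcl (a : Bool) (x y : PL) : cl a x y = if a = true then x else y := by cases a <;> rfl
  induction l with
  | nil => exact (zero_add _).trans (zero_mul _)
  | cons c w t ih =>
    show val (cl (Nat.ble b c) (flo b t) (.cons c w (flo b t))) +
      val (cl (Nat.ble b c) (.cons (Nat.sub c b) w (fhi b t)) (fhi b t)) * _ = _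
    rw [hcl, hcl]
    split_ifs with h
    · obtain ⟨d, rfl⟩ := Nat.exists_eq_add_of_le (Nat.le_of_ble_eq_true h)
      rw [val_cons, val_cons, ← ih, Nat.sub_eq, Nat.add_sub_cancel_left, mul_add 80, pow_add]
      ring
    · rw [val_cons, val_cons, ← ih, add_assoc]

theorem sc_eq (k : ℕ) : ∀ l, sc k l = val l := by
  have h1 (l : PL) (x : ℕ) (h : x = val l) : sc1 l x = val l := by
    cases l with
    | nil => rfl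
    | cons c w t =>
      cases t with
      | nil => rfl
      | cons _ _ _ => exact h
  induction k with
  | zero => exact fun _ => rfl
  | succ k ih =>
    intro l
    show sc1 l (Nat.add (sc k (flo (Nat.shiftLeft 1 k) l))
      (Nat.shiftLeft (sc k (fhi (Nat.shiftLeft 1 k) l)) (Nat.shiftLeft 80 k))) = _
    refine h1 _ _ ?_
    rw [ih, ih, ← val_split (Nat.shiftLeft 1 k) l]
    simp only [Nat.add_eq, Nat.shiftLeft_eq', Nat.shiftLeft_eq, one_mul]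

/-- Masks.  The variable `N` keeps the large numbers from being evaluated. -/
def StMk : Prop := (∀ n, on n = ones 80 n) ∧
  (∀ x n r, r ≤ 80 → low x (ones 80 n) r = true → ∀ i < n, dig 80 x i < 2 ^ r) ∧
  (∀ x n r, r ≤ 80 → rng x n (ones 80 n) r = true →
    x < 2 ^ (80 * n) ∧ ∀ i < n, dig 80 x i < 2 ^ r) ∧
  (∀ x n, Nat.land x (2 ^ (80 * n) - 1) = x % 2 ^ (80 * n)) ∧
  (∀ x i, Nat.land (shr x i) B1 = dig 80 x i) ∧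
  (∀ n, (2 ^ 80 - 1) * ones 80 n + 1 = 2 ^ (80 * n)) ∧
  ∃ N : ℕ, N = 4194304 ∧ N = 2 ^ 22 ∧ ON = ones 80 N ∧ MG = 2 ^ (80 * N) - 1

/-! Logarithms, roots, splines -/

def StLg : Prop :=
  (∀ T a b : ℕ, 0 < a → a ≤ b → b ≤ 2 * a → (lg T a b : ℝ) ≤ 2 ^ 62 * logb 2 (b / a) ∧
    2 ^ 62 * logb 2 (b / a) ≤
      lg T a b + 3 * T + 4 + 2 ^ 64 * ((b - a) / (a + b) : ℝ) ^ (2 * T + 1) / (2 * T + 1)) ∧
  (∀ n : ℕ, 1 ≤ n → Nat.log2 n = Nat.log 2 n ∧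
    lgn n = Nat.log 2 n * 2 ^ 62 + lg 15 (Nat.shiftLeft 1 (Nat.log2 n)) n ∧
    (lgn n : ℝ) ≤ 2 ^ 62 * logb 2 n ∧ 2 ^ 62 * logb 2 n ≤ lgn n + 1100) ∧
  (KK : ℝ) ≤ 2 ^ 62 / log 2 ∧ 2 ^ 62 / log 2 ≤ KK + 1

def StRt : Prop := ∀ i : ℕ, i ≤ 22 → (rt i : ℝ) ≤ 2 ^ 40 * 2 ^ ((2 : ℝ) ^ i / 2 ^ 22) ∧
  2 ^ 40 * 2 ^ ((2 : ℝ) ^ i / 2 ^ 22) ≤ (rt i : ℝ) + 1

def StSp : Prop :=
  (∀ f : ℕ, f < 2 ^ 17 → spl f < 2 ^ (80 * 5) ∧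
    ∀ t < 5, (dig 80 (spl f) t : ℝ) = 24 * 2 ^ 68 * tap t (f / 2 ^ 17)) ∧
  ∀ x, tr36 x ≤ x ∧ ∀ i < 132, dig 80 (tr36 x) i = dig 80 x i / 2 ^ 36

/-- One node of weight `w / 2 ^ 40`. -/
def StNd : Prop := ∀ n L w i : ℕ, 1 ≤ n → (L : ℝ) ≤ 2 ^ 62 * logb 2 n →
  2 ^ 62 * logb 2 n ≤ L + 200000 → w ≤ 2 ^ 41 * n → i = Nat.shiftRight (Nat.add L 4194304) 62 →
  n < 2 ^ (i + 1) ∧ ntp (Nat.add L 4194304) w < 2 ^ (80 * 5) ∧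
  (∀ t < 5, dig 80 (ntp (Nat.add L 4194304) w) t < 2 ^ 40) ∧
  L1 (tp 5 (ntp (Nat.add L 4194304) w) 0) (3 * 2 ^ 35 * (w / 2 ^ 40 / 2 ^ i)) ∧
  ∀ k ∈ K20, ‖xk k ^ ncl (Nat.add L 4194304) * ev k (tp 5 (ntp (Nat.add L 4194304) w) 0)
      - 3 * 2 ^ 35 * (w / 2 ^ 40) * (-1) ^ i * kap k * pw n k‖ ≤
    3 * 2 ^ 35 * ‖kap k‖ * (w / 2 ^ 40 / n * nd (xi k)) + 5.5 + 5 * (w / 2 ^ 40 / 2 ^ i)

/-! The partial sum of zeta -/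

/-- `P` is the position of `m` with the rounding offset, up to `δ`. -/
def PosOK (m P : ℕ) (δ : ℝ) : Prop := (P : ℝ) - 2 ^ 22 ≤ 2 ^ 62 * logb 2 (m / 2 ^ 19) ∧
  2 ^ 62 * logb 2 (m / 2 ^ 19) ≤ P - 2 ^ 22 + δ

/-- `Z` holds the terms from `m` to `m + N` on the cells from `a` on. -/
def BlkOK (Z : ℤ[X]) (m N a : ℕ) : Prop :=
  L1 Z (3 * 2 ^ 35 * ∑ r ∈ Ico m (m + N), |(cm r : ℝ)|) ∧ ∀ k ∈ K20,
    ‖xk k ^ a * ev k Z - 3 * 2 ^ 35 * kap k *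
        ∑ r ∈ Ico m (m + N), (cm r : ℂ) * xp k (2 ^ 22 * logb 2 (r / 2 ^ 19))‖ ≤
      ∑ r ∈ Ico m (m + N), (3 * 2 ^ 35 * ‖kap k‖ * nd (xi k) * (|(cm r : ℝ)| * (2 ^ 19 / r))
        + 33 + 5 * |(cm r : ℝ)|)

def StBt : Prop := ∀ m P : ℕ, 2 ^ 19 ≤ m → m < 2 ^ 20 → PosOK m P 100000 → ∃ f s : ℕ → ℕ,
  (∀ i : ℕ, i < 8 → f i < 2 ^ 17 ∧ s i < 128 ∧
    bn (bfv (bt m P)) (bsv (bt m P)) (64 * i) = spl (f i) * 2 ^ (80 * s i) ∧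
    |2 ^ 22 * logb 2 ((m + i : ℕ) / 2 ^ 19) - (P / 2 ^ 40 + s i : ℕ) - f i / 2 ^ 17| ≤ 0.000004) ∧
  s 0 = 0 ∧ b0 (bt m P) = tr36 (spl (f 0))

def StBlk : Prop := ∀ m P : ℕ, 8 ∣ m → 2 ^ 19 ≤ m → m < 2 ^ 20 → PosOK m P 100000 →
  blc m P = true → ∃ Z, vl Z = blv m P ∧ BlkOK Z m 8 (P / 2 ^ 40)

def StTree : Prop := ∀ (l m P : ℕ) (δ : ℝ), l ≤ 14 → 8 ∣ m → 2 ^ 19 ≤ m → m + 8 * 2 ^ l ≤ 2 ^ 20 →
  PosOK m P δ → δ + 4200 * l ≤ 100000 → trc l m P = true →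
  ∃ Z, vl Z = trv l m P ∧ BlkOK Z m (8 * 2 ^ l) (P / 2 ^ 40)

def StRamp : Prop := ∀ e N l : ℕ, l ≤ 22 → 2 ^ l ≤ 2 * N → e ≤ 2 ^ 33 →
  ramp e (Nat.mul (ones 80 N) 1099511627775) l < 2 ^ (80 * 2 ^ l) ∧ ∀ j : ℕ, j < 2 ^ l →
    ((e : ℝ) - 2 * l) * 2 ^ ((j : ℝ) / 2 ^ 22) ≤
      dig 80 (ramp e (Nat.mul (ones 80 N) 1099511627775) l) j ∧
    (dig 80 (ramp e (Nat.mul (ones 80 N) 1099511627775) l) j : ℝ) ≤ e * 2 ^ ((j : ℝ) / 2 ^ 22)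

/-- The quarter starting at `m` on the cells from `a` to `a + n`. -/
def ChZ (m a n zu : ℕ) : Prop := zu < 2 ^ (80 * n) ∧ (∀ i < n, dig 80 zu i < 2 ^ 29) ∧
  ∃ (p E Z : ℤ[X]) (t : ℤ), Sup p n (2 ^ 26) ∧ |t| ≤ 2 ^ 26 ∧ BlkOK Z m (2 ^ 17) a ∧
    (∀ j, n ≤ j → E.coeff j = 0) ∧
    (∀ j : ℕ, j < n → |(E.coeff j : ℝ) - 3 * 2 ^ 31 * log 2 * 2 ^ (((a + j : ℕ) : ℝ) / 2 ^ 22)| ≤
      800 * 2 ^ (((a + j : ℕ) : ℝ) / 2 ^ 22)) ∧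
    C (2 ^ 27) * tp n zu zoff = E - Z - C t * X ^ n - (1 - X) * p

def StChk : Prop := ∀ m a n l e t zu : ℕ, 8 ∣ m → 2 ^ 19 ≤ m → m + 2 ^ 17 ≤ 2 ^ 20 → l ≤ 22 →
  2 ^ l ≤ 2 * n → n ≤ 2 ^ l → |(e : ℤ) * 2 ^ 19 - 4465566707 * m| ≤ 2 ^ 19 →
  zchk m a n l e t zu = true → ChZ m a n zu

def StZ : Prop := ∀ z₀ z₁ z₂ z₃ N : ℕ, N = 2 ^ 22 → ChZ 524288 0 1350264 z₀ →
  ChZ 655360 1350264 1103246 z₁ → ChZ 786432 2453510 932781 z₂ → ChZ 917504 3386291 808013 z₃ →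
  zcat z₀ z₁ z₂ z₃ < 2 ^ (80 * N) ∧ SpecZ (tp N (zcat z₀ z₁ z₂ z₃) zoff)

/-! Lists of nodes -/

def TL.vk (k : ℤ) : TL → ℂ
  | .nil => 0
  | .cons n _ c s t => (-1) ^ s * c * pw n k + t.vk k

def TL.ms : TL → ℝ
  | .nil => 0
  | .cons n _ c _ t => c / n + t.ms

def TL.wt : TL → ℝ
  | .nil => 0
  | .cons n _ c _ t => min (c : ℝ) (2 * c / n) + t.wt

def TL.len : TL → ℕ
  | .nil => 0
  | .cons _ _ _ _ t => t.len + 1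

def TL.ok (δ : ℝ) : TL → Prop
  | .nil => True
  | .cons n L c _ t =>
    (1 ≤ n ∧ c ≤ 2 * n ∧ (L : ℝ) ≤ 2 ^ 62 * logb 2 n ∧ 2 ^ 62 * logb 2 n ≤ L + δ) ∧ t.ok δ

def StGrid : Prop := ∀ (l : TL) (N : ℕ), l.ok 200000 → l.wt ≤ 10 → grid l < 2 ^ (80 * N) →
  ∃ P : ℤ[X], vl P = (gp (grid l) (ones 80 N) : ℤ) - gm (grid l) (ones 80 N) ∧
    (∀ i, N ≤ i → P.coeff i = 0) ∧ L1 P (3 * 2 ^ 35 * l.wt) ∧
    ∀ k ∈ K20, ‖ev k P - 3 * 2 ^ 35 * kap k * l.vk k‖ ≤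
      3 * 2 ^ 35 * ‖kap k‖ * (l.ms * nd (xi k)) + 5.5 * l.len + 10 * l.ms

def StLD : Prop :=
  lD.ok 200000 ∧ lD.ms ≤ 1.8184 ∧ lD.wt ≤ 2.7 ∧ lD.len ≤ 2187 ∧ ∀ k, lD.vk k = DAv k

def StIsp : Prop := ∀ m, 23 ≤ m → m < 2 ^ 15 → (isp m = true ↔ m.Prime)

def StLH : Prop :=
  lH.ok 200000 ∧ lH.ms ≤ 2.0642 ∧ lH.wt ≤ 2.14 ∧ lH.len ≤ 13000 ∧ ∀ k, lH.vk k = 2 * HBl k

def StDH : Prop := ∀ N : ℕ, N = 2 ^ 22 →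
  (grid lD < 2 ^ (80 * N) → ∃ DP, vl DP = (gp (grid lD) ON : ℤ) - gm (grid lD) ON ∧ SpecD DP) ∧
  (grid lH < 2 ^ (80 * N) → ∃ HP, vl HP = (gp (grid lH) ON : ℤ) - gm (grid lH) ON ∧ SpecH HP)

/-! Products in the ring -/

def StMw : Prop := ∀ (W : ℤ[X]) (n x r s : ℕ) (c : ℝ), Sup W (2 * n) c → c ≤ 2 ^ 77 → vl W = x →
  1 ≤ s → s ≤ r → r ≤ 78 → mwd x n (ones 80 n) (2 ^ (80 * n) - 1) r s = true →
  ∃ lo hi V e : ℤ[X], W = lo + X ^ n * hi ∧ Sup lo n c ∧ 2 * lo - hi = C (2 ^ s) * V + e ∧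
    Sup V n (2 ^ (r - s)) ∧ Sup e n (2 ^ (s - 1) + 1) ∧
    vl V = mws x n (ones 80 n) (2 ^ (80 * n) - 1) r s ∧
    ∀ a, L1 W a → L1 V ((2 * a + n * (2 ^ (s - 1) + 1)) / 2 ^ s)

def StRc : Prop := ∀ zu wl g N : ℕ, N = 2 ^ 22 → rc1 zu wl g = true → g < 2 ^ (80 * N) ∧
  Sup (tp N wl (2 ^ 25)) N (2 ^ 25) ∧ vl (tp N wl (2 ^ 25)) = wv wl ∧
  ∀ DP : ℤ[X], zu < 2 ^ (80 * N) → SpecZ (tp N zu zoff) → vl DP = (gp g ON : ℤ) - gm g ON →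
    SpecD DP → RingR (tp N zu zoff) DP (-tp N wl (2 ^ 25))

/-! The final filter and the explicit nodes -/

def KOK (K : ℤ[X]) : Prop := vl K = kv ∧ Sup K 1053 (2 ^ 32) ∧
  ∃ e : ℤ[X], L1 e (1053 * (2 ^ 32 + 1)) ∧ 2 * JT * lp IL = C (2 ^ 33) * K + e

def StK : Prop := mwd kx 1053 (on 1053) (Nat.sub (shl 1 1053) 1) 65 33 = true → ∃ K, KOK K

def eo (n : ℕ) : ℕ :=
  if n = 1 then 0 else if n = 3 ∨ n = 13 then 1 else if n = 27 ∨ n = 3129 then 3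
  else if n = 783 then 4 else 2

def es (n : ℕ) : ℤ := if n = 27 ∨ n = 49 ∨ n = 783 then -1 else 1

def Af (n : ℕ) : ℤ[X] := C (es n) * tp 5 (eA n (eo n)) 0

def Sf (n : ℕ) : ℤ := es n * eS n (eo n)

def Cf (n : ℕ) : ℤ[X] := tp 1057 (eC n (eo n) + 2 ^ 62 * ones 80 1057) (2 ^ 62)

def StE0 : Prop :=
  (∀ n ∈ E0, 1 ≤ n ∧ gE n = es n * 2 ^ eo n / 2 ^ Nat.log 2 n ∧
    a1 n = es n * 2 ^ eo n * (-1) ^ Nat.log 2 n ∧ eo n ≤ Nat.log 2 n ∧ eo n ≤ 4 ∧ |es n| = 1 ∧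
    ej n < 2 ^ 22 - 1 ∧ el n < 2 ^ 22 ∧ (n ≠ 1 → 527 ≤ el n)) ∧
  el 1 = 0 ∧ Set.InjOn ej E0 ∧
  (kchk = true → mwd kx 1053 (on 1053) (Nat.sub (shl 1 1053) 1) 65 33 = true ∧
    ∀ n ∈ E0, echk n (eo n) = true)

/-- The facts on the explicit node `n`. -/
def EOK (K : ℤ[X]) (n : ℕ) : Prop :=
  |PE n - ej n| ≤ 1 / 2 ∧ el n ≤ ej n ∧
  |(Sf n : ℝ) - 27 * 2 ^ 56 * gE n| ≤ 27 * 2 ^ 56 / 10 ^ 7 ∧
  vl (Cf n) = eC n (eo n) ∧ Sup (Cf n) 1057 (2 ^ 62) ∧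
  K * Af n - C (Sf n) * X ^ (527 + ej n - el n) = (1 - X) * (C (-es n) * Cf n)

def StE : Prop := (∀ n ∈ E0, echk n (eo n) = true) →
  SpecA Af el ∧ ∀ K, KOK K → ∀ n ∈ E0, EOK K n

def StFt : Prop := ∀ (t : Tb) (x i d u : ℕ), d ≤ 22 → (u : ℝ) ≤ 2 ^ 40 * 2 ^ ((i : ℝ) / 2 ^ 22) →
  (∀ r < 2 ^ d, dig 80 x r ≤ 2 ^ 79) → fin t x i d u = true → ∀ r : ℕ, r < 2 ^ d →
    |(dig 80 x r : ℝ) - 2 ^ 78| ≤
      27 * 2 ^ 57 * 2 ^ (((i + r : ℕ) : ℝ) / 2 ^ 22) * (0.97965 - (t.val d r : ℝ) / 2 ^ 16) ∧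
    ∀ n ∈ E0, ej n = i + r → |(dig 80 x r : ℝ) - 2 ^ 78 + 2 * Sf n| ≤
      27 * 2 ^ 57 * 2 ^ (((i + r : ℕ) : ℝ) / 2 ^ 22) * (0.97965 - (t.val d r : ℝ) / 2 ^ 16)

/-- The product of the two factors. -/
def StXy : Prop := ∀ (t : Tb) (wl g N : ℕ), N = 2 ^ 22 → xc0 t wl g = true → g < 2 ^ (80 * N) ∧
  ∀ HP W : ℤ[X], Sup W N (2 ^ 25) → vl W = wv wl → vl HP = (gp g ON : ℤ) - gm g ON → SpecH HP →
    ∃ (V : ℤ[X]) (y : ℕ), vl V = y ∧ Sup V N (2 ^ 28) ∧ RingY HP (-W) (-V) ∧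
      xc2 t (Nat.add (Nat.mul kv y) cpos) = true

/-- The final filter. -/
def StXq : Prop := ∀ (t : Tb) (y N : ℕ) (K V : ℤ[X]), N = 2 ^ 22 → KOK K → (∀ n ∈ E0, EOK K n) →
  vl V = y → Sup V N (2 ^ 28) → xc2 t (Nat.add (Nat.mul kv y) cpos) = true →
  ∃ Q : ℤ[X], RingQ (-V) Q Af el ej Sf ∧ SpecF (fun i => (t.val 22 i : ℝ) / 2 ^ 16) Q ej Sf

end

end Pool.Agent.MP_88bd62_nt.U.A
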