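import Pool.Agent.MP_88bd62_nt.U.AStm

/-! The aliasing error of the splines. -/

namespace Pool.Agent.MP_88bd62_nt.U.A

open Finset Real

theorem aSpl_four {p : ℝ → ℂ} (hp : Continuous p) (h01 : p 0 = p 1) {c : ℤ → ℂ}
    (hc : ∀ n : ℤ, ∫ f in (0 : ℝ)..1, Complex.exp (-(2 * π * Complex.I * n) * f) * p f = c n)
    (hs : Summable c) {f : ℝ} (h0 : 0 ≤ f) (h1 : f ≤ 1) :
    ∃ u : ℤ → ℂ, (∀ n, ‖u n‖ = 1) ∧ u 0 = 1 ∧ HasSum (fun n => c n * u n) (p f) := by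
  obtain ⟨g, hg, e⟩ : ∃ g ∈ Set.Ico (0 : ℝ) 1, p g = p f := by
    rcases h1.eq_or_lt with rfl | h
    exacts [⟨0, by simp, h01⟩, ⟨f, ⟨h0, h⟩, rfl⟩]
  let B : C(UnitAddCircle, ℂ) := ⟨_, AddCircle.liftIco_zero_continuous h01 hp.continuousOn⟩
  have h2 : fourierCoeff B = c := funext fun n => by
    refine (fourierCoeff_liftIco_eq p n).trans ?_
    rw [fourierCoeffOn_eq_integral, ← hc]
    simp only [fourier_coe_apply]
    simp
  have h3 := has_pointwise_sum_fourier_series_of_summable (h2 ▸ hs) (g : UnitAddCircle)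
  rw [h2, show B g = p f from (AddCircle.liftIco_zero_coe_apply hg).trans e] at h3
  exact ⟨fun n => fourier n (g : UnitAddCircle), fun n => by simp [-fourier_coe_apply'],
    fourier_zero, h3⟩

theorem aSpl_int {w : ℂ} (hw : w ≠ 0) (a₀ a₁ a₂ a₃ a₄ : ℂ) :
    ∫ f in (0 : ℝ)..1, Complex.exp (w * f) * (a₀ + a₁ * f + a₂ * f ^ 2 + a₃ * f ^ 3 + a₄ * f ^ 4) =
      Complex.exp w * ((a₀ + a₁ + a₂ + a₃ + a₄) / w - (a₁ + 2 * a₂ + 3 * a₃ + 4 * a₄) / w ^ 2 +
        (2 * a₂ + 6 * a₃ + 12 * a₄) / w ^ 3 - (6 * a₃ + 24 * a₄) / w ^ 4 + 24 * a₄ / w ^ 5) -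
      (a₀ / w - a₁ / w ^ 2 + 2 * a₂ / w ^ 3 - 6 * a₃ / w ^ 4 + 24 * a₄ / w ^ 5) := by
  rw [intervalIntegral.integral_eq_sub_of_hasDerivAt (f := fun f : ℝ => Complex.exp (w * f) *
    (a₀ / w - a₁ / w ^ 2 + 2 * a₂ / w ^ 3 - 6 * a₃ / w ^ 4 + 24 * a₄ / w ^ 5 +
      (a₁ / w - 2 * a₂ / w ^ 2 + 6 * a₃ / w ^ 3 - 24 * a₄ / w ^ 4) * f +
      (a₂ / w - 3 * a₃ / w ^ 2 + 12 * a₄ / w ^ 3) * f ^ 2 + (a₃ / w - 4 * a₄ / w ^ 2) * f ^ 3 +
      a₄ / w * f ^ 4)) (fun f _ => ?_) (Continuous.intervalIntegrable (by fun_prop) _ _)]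
  · simp only [Complex.ofReal_one, Complex.ofReal_zero, mul_one, mul_zero, Complex.exp_zero]
    ring
  · have h := hasDerivAt_id (f : ℂ)
    refine ((h.const_mul w).cexp.mul (((((h.const_mul _).const_add _).add
      ((h.pow 2).const_mul _)).add ((h.pow 3).const_mul _)).add
        ((h.pow 4).const_mul _))).comp_ofReal.congr_deriv ?_
    simp only [id, Pi.add_apply, Pi.pow_apply, Nat.cast_ofNat, Nat.add_one_sub_one]
    field_simp
    ring

theorem aSpl_tail {q : ℕ} {t : ℕ → ℝ} (ht : ∀ n, 0 ≤ t n)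
    (h : ∀ n : ℕ, (1 / (4 * n + 15) : ℝ) ^ q ≤ t n - t (n + 1)) (N : ℕ) :
    ∑ n ∈ range N, (1 / (4 * n + 7) : ℝ) ^ q ≤ (1 / 7) ^ q + (1 / 11) ^ q + t 0 := by
  refine (sum_le_sum_of_subset_of_nonneg (range_subset_range.2 (N.le_add_right 2))
    fun _ _ _ => by positivity).trans ?_
  have h1 := sum_le_sum (s := range N) fun n _ => h n
  rw [sum_range_sub'] at h1
  rw [sum_range_succ', sum_range_succ']
  simp only [Nat.cast_add, Nat.cast_one, Nat.cast_zero,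
    show ∀ n : ℝ, 4 * (n + 1 + 1) + 7 = 4 * n + 15 from fun n => by ring]
  norm_num at h1 ⊢
  linarith [ht N]

theorem aSpl_t5 (N : ℕ) : ∑ n ∈ range N, (1 / (4 * n + 7) : ℝ) ^ 5 ≤ 0.00014 / 2 := by
  refine (aSpl_tail (t := fun n => 1 / (16 * (4 * n + 13) ^ 4)) (fun n => by positivity)
    (fun n => ?_) N).trans (by norm_num)
  have := n.cast_nonneg (α := ℝ)
  rw [div_pow, div_sub_div _ _ (by positivity) (by positivity),
    div_le_div_iff₀ (by positivity) (by positivity), ← sub_nonneg]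
  push_cast
  ring_nf
  positivity

theorem aSpl_t4 (N : ℕ) : ∑ n ∈ range N, (1 / (4 * n + 7) : ℝ) ^ 4 ≤ 0.00106 / 2 := by
  refine (aSpl_tail (t := fun n => 1 / (12 * (4 * n + 13) ^ 3)) (fun n => by positivity)
    (fun n => ?_) N).trans (by norm_num)
  have := n.cast_nonneg (α := ℝ)
  rw [div_pow, div_sub_div _ _ (by positivity) (by positivity),
    div_le_div_iff₀ (by positivity) (by positivity), ← sub_nonneg]
  push_cast
  ring_nf
  positivity

theorem aSpl_gen {q : ℕ} (hq : 2 ≤ q) {C ξ : ℝ}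
    (hC : ∀ N, ∑ n ∈ range N, (1 / (4 * n + 7) : ℝ) ^ q ≤ C / 2) {z κ a₀ a₁ a₂ a₃ a₄ : ℂ}
    (hz : ‖z‖ = π / 2 * ξ) (ξ0 : 0 < ξ) (ξ1 : ξ < 1) (r0 : 0 < z.re) (r1 : z.re ≤ 0.001)
    (h01 : a₀ = Complex.exp z * (a₀ + a₁ + a₂ + a₃ + a₄))
    (hc : ∀ w : ℂ, w ≠ 0 →
      Complex.exp z * ((a₀ + a₁ + a₂ + a₃ + a₄) / w - (a₁ + 2 * a₂ + 3 * a₃ + 4 * a₄) / w ^ 2 +
        (2 * a₂ + 6 * a₃ + 12 * a₄) / w ^ 3 - (6 * a₃ + 24 * a₄) / w ^ 4 + 24 * a₄ / w ^ 5) -
      (a₀ / w - a₁ / w ^ 2 + 2 * a₂ / w ^ 3 - 6 * a₃ / w ^ 4 + 24 * a₄ / w ^ 5) = κ * (z / w) ^ q)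
    {f : ℝ} (h0 : 0 ≤ f) (h1 : f ≤ 1) :
    ‖a₀ + a₁ * f + a₂ * f ^ 2 + a₃ * f ^ 3 + a₄ * f ^ 4 - κ * Complex.exp (-(z * f))‖ ≤
      ‖κ‖ * ((ξ / (4 - ξ)) ^ q + (ξ / (3.999 + ξ)) ^ q + C * ξ ^ q) := by
  have hπ := pi_gt_three
  have hw : ∀ n : ℤ, z - 2 * π * Complex.I * n ≠ 0 := fun n h => by
    simpa [r0.ne'] using congrArg Complex.re h
  obtain ⟨u, u1, u0, hu⟩ := aSpl_four (p := fun f => Complex.exp (z * f) *
      (a₀ + a₁ * f + a₂ * f ^ 2 + a₃ * f ^ 3 + a₄ * f ^ 4)) (by fun_prop) (by simpa using h01)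
    (c := fun n => κ * (z / (z - 2 * π * Complex.I * n)) ^ q) (fun n => by
      rw [← hc _ (hw n), ← Complex.exp_periodic.sub_int_mul_eq n, mul_comm (n : ℂ),
        ← aSpl_int (hw n)]
      refine intervalIntegral.integral_congr fun f _ => ?_
      simp only [← mul_assoc, ← Complex.exp_add]
      congr 2
      ring) (by
      refine (((EisensteinSeries.linear_right_summable (-z / (2 * π * Complex.I)) 1 (k := q)
        (by exact_mod_cast hq)).mul_left ((-z / (2 * π * Complex.I)) ^ q)).congr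
          fun n => ?_).mul_left κ
      have := Complex.two_pi_I_ne_zero
      rw [zpow_natCast, ← div_eq_mul_inv, ← div_pow, Int.cast_one, one_mul,
        div_add' _ _ _ this, div_div_div_cancel_right₀ this, ← neg_div_neg_eq]
      congr 2 <;> ring) h0 h1
  have z0 : z ≠ 0 := fun h => by simp [h] at r0
  have hb : ∀ (n : ℤ) (d : ℝ), 0 < d → π / 2 * d ≤ ‖z - 2 * π * Complex.I * n‖ →
      ‖κ * (z / (z - 2 * π * Complex.I * n)) ^ q * u n‖ ≤ ‖κ‖ * (ξ / d) ^ q := fun n d d0 h => by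
    rw [norm_mul, u1, mul_one, norm_mul, norm_pow, norm_div, hz,
      ← mul_div_mul_left ξ d (show π / 2 ≠ 0 by positivity)]
    gcongr
  have n1 : ∀ n : ℤ, 2 * π * |(n : ℝ)| - π / 2 * ξ ≤ ‖z - 2 * π * Complex.I * n‖ := fun n => by
    have := norm_sub_norm_le (2 * π * Complex.I * n) z
    rw [norm_sub_rev, hz] at this
    simpa [abs_of_pos pi_pos] using this
  have n2 : ∀ n : ℤ, |z.im - 2 * π * n| ≤ ‖z - 2 * π * Complex.I * n‖ := fun n => by
    simpa using Complex.abs_im_le_norm (z - 2 * π * Complex.I * n)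
  have n3 := Complex.norm_le_abs_re_add_abs_im z
  rw [hz, abs_of_pos r0] at n3
  have h2 := (hasSum_nat_add_iff' 1).2 hu.nat_add_neg
  simp only [range_one, sum_singleton, Nat.cast_zero, neg_zero, Int.cast_zero, mul_zero, sub_zero,
    div_self z0, one_pow, mul_one, u0, add_sub_add_right_eq_sub] at h2
  have h3 : ‖Complex.exp (z * f) * (a₀ + a₁ * f + a₂ * f ^ 2 + a₃ * f ^ 3 + a₄ * f ^ 4) - κ‖ ≤
      ‖κ‖ * ((ξ / (4 - ξ)) ^ q + (ξ / (3.999 + ξ)) ^ q + C * ξ ^ q) := by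
    refine le_of_tendsto' ((Filter.tendsto_add_atTop_iff_nat 1).2 h2.tendsto_sum_nat).norm fun N => ?_
    rw [sum_range_succ', add_comm, mul_add]
    refine (norm_add_le _ _).trans (add_le_add ((norm_add_le _ _).trans ?_) ?_)
    · rw [mul_add]
      have a1 := n1 1
      have a2 := n1 (-1)
      have a3 := (abs_le.1 (n2 1)).1
      have a4 := (abs_le.1 (n2 (-1))).2
      simp only [Int.cast_one, Int.cast_neg, abs_neg, abs_one] at a1 a2 a3 a4
      rcases abs_cases z.im with h | h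
      · exact add_le_add (hb 1 _ (by linarith) (by push_cast; linarith))
          (hb (-1) _ (by linarith) (by push_cast; nlinarith))
      · exact (add_comm _ _).trans_le (add_le_add (hb (-1) _ (by linarith) (by push_cast; linarith))
          (hb 1 _ (by linarith) (by push_cast; nlinarith)))
    · refine le_trans (norm_sum_le_of_le _
        (n := fun n : ℕ => ‖κ‖ * (2 * ξ ^ q * (1 / (4 * n + 7)) ^ q)) fun n _ => ?_) ?_
      · have a0 := n.cast_nonneg (α := ℝ)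
        have a1 : ∀ m : ℤ, |(m : ℝ)| = n + 2 → π / 2 * (4 * n + 7) ≤ ‖z - 2 * π * Complex.I * m‖ :=
          fun m h => le_trans (by rw [h]; nlinarith) (n1 m)
        refine (norm_add_le _ _).trans ((add_le_add (hb _ _ (by positivity) (a1 _ ?_))
          (hb _ _ (by positivity) (a1 _ ?_))).trans_eq (by rw [div_pow, div_pow]; ring))
        all_goals
          push_cast
          rw [abs_eq (by positivity)]
          first | exact Or.inl (by ring1) | exact Or.inr (by ring1)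
      · rw [← mul_sum, ← mul_sum]
        exact mul_le_mul_of_nonneg_left (by nlinarith [hC N, pow_pos ξ0 q]) (norm_nonneg _)
  refine le_trans ?_ h3
  have h4 : ‖Complex.exp (-(z * f))‖ ≤ 1 := by
    rw [Complex.norm_exp, exp_le_one_iff]
    simpa using mul_nonneg r0.le h0
  refine le_trans (le_of_eq ?_) (mul_le_of_le_one_left (norm_nonneg _) h4)
  rw [← norm_mul, mul_sub, ← mul_assoc, ← Complex.exp_add, neg_add_cancel, Complex.exp_zero,
    one_mul, mul_comm κ]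

theorem stSpl (hBas : StBas) : StSpl := by
  intro k hk
  obtain ⟨-, -, -, -, -, -, h1, h2⟩ := hBas
  obtain ⟨z0, -, hz, ξ0, -, x0, -⟩ := h1 k
  have ξ1 := (h2 k hk).2.1
  have r : (zk k).re = log 2 / 2 ^ 22 := by
    rw [zk, ← Complex.ofReal_ofNat, ← Complex.ofReal_pow, Complex.div_ofReal_re]
    rw [Complex.add_re, Complex.ofReal_re, Complex.re_ofReal_mul, Complex.I_re, mul_zero, add_zero]
  have r0 : 0 < (zk k).re := r ▸ div_pos (log_pos one_lt_two) (by positivity)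
  have r1 : (zk k).re ≤ 0.001 := by
    rw [r, div_le_iff₀ (by positivity)]
    linarith [log_two_lt_d9]
  have e : Complex.exp (zk k) = (xk k)⁻¹ := by
    rw [xk, xp, Complex.ofReal_one, mul_one, Complex.exp_neg, inv_inv]
  refine ⟨fun f h0 h1 => ?_, ?_⟩
  · have h := aSpl_gen (by norm_num) aSpl_t5 (κ := kap k)
      (a₀ := (1 + 11 * xk k + 11 * xk k ^ 2 + xk k ^ 3) / 24)
      (a₁ := (-4 - 12 * xk k + 12 * xk k ^ 2 + 4 * xk k ^ 3) / 24)
      (a₂ := (6 - 6 * xk k - 6 * xk k ^ 2 + 6 * xk k ^ 3) / 24)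
      (a₃ := (-4 + 12 * xk k - 12 * xk k ^ 2 + 4 * xk k ^ 3) / 24)
      (a₄ := (1 - xk k) ^ 4 / 24) hz ξ0 ξ1 r0 r1 (by rw [e]; field_simp; ring)
      (fun w hw => by rw [e, kap, qq]; field_simp; ring) h0 h1
    refine le_of_eq_of_le (congrArg (‖· - _‖) ?_) h
    simp only [tv, sum_range_succ, range_zero, sum_empty, tap]
    push_cast
    ring
  · have h := aSpl_gen (by norm_num) aSpl_t4 (κ := kap4 k)
      (a₀ := (1 + 4 * xk k + xk k ^ 2) / 6) (a₁ := (-3 + 3 * xk k ^ 2) / 6)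
      (a₂ := (3 - 6 * xk k + 3 * xk k ^ 2) / 6) (a₃ := -(1 - xk k) ^ 3 / 6) (a₄ := 0)
      hz ξ0 ξ1 r0 r1 (by rw [e]; field_simp; ring)
      (fun w hw => by rw [e, kap4, qq]; field_simp; ring) le_rfl zero_le_one
    simpa [al4] using h

end Pool.Agent.MP_88bd62_nt.U.A
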