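import Pool.Agent.MP_88bd62_nt.U.AStm

/-! The steps of the explicit part. -/

namespace Pool.Agent.MP_88bd62_nt.U.A

open Finset Real

theorem aStep_pos {n : ℕ} (hn : n ∈ E0) : 0 < n := by
  rcases Nat.eq_zero_or_pos n with h | h
  · subst h
    exact absurd hn (by decide)
  · exact h

theorem aStep_Phi (u : ℝ) : Phi a1 u = ∑ n ∈ E0, a1 n / n * sg (u - th n) := by
  unfold Phi
  refine tsum_eq_sum fun n hn => ?_
  simp [a1, hn]

theorem aStep_term {n : ℕ} (hn : 0 < n) (u : ℝ) :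
    2 ^ u * (a1 n / n * sg (u - th n)) = gE n * (2 / 3 * (-2) ^ ⌊u - PE n / 2 ^ 22⌋) := by
  have hn' : (0 : ℝ) < n := by exact_mod_cast hn
  set L : ℕ := Nat.log 2 n with hL
  set f : ℤ := ⌊u - PE n / 2 ^ 22⌋ with hf
  have hv : u - th n = u - PE n / 2 ^ 22 - L := by
    unfold PE
    rw [← hL]
    field_simp
    ring
  have hfl : ⌊u - th n⌋ = f - L := by
    rw [hv, Int.floor_sub_natCast]
  have hth : (2 : ℝ) ^ th n = n := Real.rpow_logb (by norm_num) (by norm_num) hn'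
  have h2 : (2 : ℝ) ^ u * 2 ^ (((f - L : ℤ) : ℝ) - (u - th n)) = 2 ^ (f - L : ℤ) * n := by
    rw [← Real.rpow_add (by norm_num), ← hth, ← Real.rpow_intCast, ← Real.rpow_add (by norm_num)]
    congr 1
    ring
  have h3 : ((-1 : ℝ)) ^ (f - L : ℤ) * 2 ^ (f - L : ℤ) = (-2) ^ f * (-1 / 2) ^ L := by
    rw [← mul_zpow, zpow_sub₀ (by norm_num), zpow_natCast, div_eq_mul_inv, ← inv_pow]
    norm_num
  unfold sg gE
  rw [hfl, ← hL]
  calc (2 : ℝ) ^ u * (a1 n / n * (2 / 3 * (-1) ^ (f - L : ℤ) * 2 ^ (((f - L : ℤ) : ℝ) - (u - th n))))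
      = a1 n / n * (2 / 3) * (-1) ^ (f - L : ℤ)
          * (2 ^ u * 2 ^ (((f - L : ℤ) : ℝ) - (u - th n))) := by ring
    _ = a1 n * (2 / 3) * ((-1) ^ (f - L : ℤ) * 2 ^ (f - L : ℤ)) := by
      rw [h2]
      field_simp
    _ = _ := by
      rw [h3]
      ring

theorem aStep_floor {N P u : ℝ} {i j : ℕ} (hN : 2 ≤ N) (hP : |P - j| ≤ 1 / 2) (hj : (j : ℝ) + 2 ≤ N)
    (hi : (i : ℝ) + 1 ≤ N) (h1 : (i - 1 / 2) / N ≤ u) (h2 : u < (i + 1 / 2) / N) :
    (j < i → ⌊u - P / N⌋ = 0) ∧ (i < j → ⌊u - P / N⌋ = -1) ∧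
      (⌊u - P / N⌋ = 0 ∨ ⌊u - P / N⌋ = -1) := by
  have hN0 : 0 < N := by linarith
  obtain ⟨hP1, hP2⟩ := abs_le.1 hP
  rw [div_le_iff₀ hN0] at h1
  rw [lt_div_iff₀ hN0] at h2
  have hi0 : (0 : ℝ) ≤ i := Nat.cast_nonneg i
  have hj0 : (0 : ℝ) ≤ j := Nat.cast_nonneg j
  have e : u - P / N = (u * N - P) / N := by field_simp
  have lo : -1 ≤ u - P / N := by
    rw [e, le_div_iff₀ hN0]
    linarith
  have hi' : u - P / N < 1 := by
    rw [e, div_lt_iff₀ hN0]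
    linarith
  have A : 0 ≤ u - P / N → ⌊u - P / N⌋ = 0 := fun h =>
    Int.floor_eq_iff.2 ⟨by simpa using h, by simpa using hi'⟩
  have B : u - P / N < 0 → ⌊u - P / N⌋ = -1 := fun h =>
    Int.floor_eq_iff.2 ⟨by simpa using lo, by simpa using h⟩
  refine ⟨fun h => A ?_, fun h => B ?_, ?_⟩
  · have : (j : ℝ) + 1 ≤ i := by exact_mod_cast h
    rw [e]
    exact div_nonneg (by linarith) hN0.le
  · have : (i : ℝ) + 1 ≤ j := by exact_mod_cast h
    rw [e]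
    exact div_neg_of_neg_of_pos (by linarith) hN0
  · rcases le_or_gt 0 (u - P / N) with h | h
    · exact Or.inl (A h)
    · exact Or.inr (B h)

theorem stStep : StStep := by
  intro j hP hinj hj i u hi h1 h2
  have hfl : ∀ n ∈ E0, (j n < i → ⌊u - PE n / 2 ^ 22⌋ = 0) ∧
      (i < j n → ⌊u - PE n / 2 ^ 22⌋ = -1) ∧
      (⌊u - PE n / 2 ^ 22⌋ = 0 ∨ ⌊u - PE n / 2 ^ 22⌋ = -1) := by
    intro n hn
    refine aStep_floor (by norm_num) (hP n hn) ?_ ?_ h1 h2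
    · have h : j n + 2 ≤ 2 ^ 22 := by
        have := hj n hn
        omega
      exact_mod_cast h
    · exact_mod_cast hi
  have hsum : 2 ^ u * Phi a1 u = ∑ n ∈ E0, gE n * (2 / 3 * (-2) ^ ⌊u - PE n / 2 ^ 22⌋) := by
    rw [aStep_Phi, mul_sum]
    exact sum_congr rfl fun n hn => aStep_term (aStep_pos hn) u
  have hgood : ∀ n ∈ E0, ¬ (j n = i ∧ ⌊u - PE n / 2 ^ 22⌋ = -1) →
      gE n * (2 / 3 * (-2) ^ ⌊u - PE n / 2 ^ 22⌋) = gE n * if j n ≤ i then 2 / 3 else -1 / 3 := by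
    intro n hn hb
    obtain ⟨a, b, c⟩ := hfl n hn
    rcases lt_trichotomy (j n) i with h | h | h
    · rw [a h, if_pos h.le]
      norm_num
    · rcases c with c | c
      · rw [c, if_pos h.le]
        norm_num
      · exact absurd ⟨h, c⟩ hb
    · rw [b h, if_neg (not_le.2 h)]
      norm_num
  by_cases hex : ∃ n ∈ E0, j n = i ∧ ⌊u - PE n / 2 ^ 22⌋ = -1
  · obtain ⟨n, hn, hni, hnf⟩ := hex
    refine Or.inr ⟨n, hn, hni, ?_⟩
    rw [hsum]
    unfold stp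
    rw [← add_sum_erase _ _ hn, ← add_sum_erase E0 (fun n => gE n * if j n ≤ i then (2 / 3 : ℝ)
      else -1 / 3) hn, hnf, if_pos hni.le]
    have : ∑ m ∈ E0.erase n, gE m * (2 / 3 * (-2) ^ ⌊u - PE m / 2 ^ 22⌋) =
        ∑ m ∈ E0.erase n, gE m * if j m ≤ i then (2 / 3 : ℝ) else -1 / 3 := by
      refine sum_congr rfl fun m hm => hgood m (mem_of_mem_erase hm) fun hb => ?_
      exact ne_of_mem_erase hm (hinj (mem_of_mem_erase hm) hn (hb.1.trans hni.symm))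
    rw [this]
    norm_num
    ring
  · refine Or.inl ?_
    rw [hsum]
    exact sum_congr rfl fun n hn => hgood n hn fun hb => hex ⟨n, hn, hb⟩

end Pool.Agent.MP_88bd62_nt.U.A
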