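import Pool.Agent.MP_88bd62_nt.U.ASumx

/-! The weighted sums of the error functions over the frequencies. -/

namespace Pool.Agent.MP_88bd62_nt.U.A

open Finset Real

/-- The sub-interval that contains the relative frequency. -/
theorem aSum_int (hBas : StBas) (k : ℤ) (hk : k ∈ K20) : ∃ s : ℕ, s < 128 ∧
    k.natAbs / 2 ^ 17 = s / 8 ∧ (0 : ℝ) ≤ aSum_a s ∧ (aSum_a s : ℝ) ≤ |(k : ℝ)| / 2 ^ 21 ∧
    (aSum_a s : ℝ) ≤ xi k ∧ xi k ≤ aSum_a (s + 1) ∧ (aSum_a (s + 1) : ℝ) ≤ 1 := by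
  obtain ⟨-, -, -, -, -, -, h7, -⟩ := hBas
  obtain ⟨-, -, -, -, -, -, -, -, -, -, -, hl, hu⟩ := h7 k
  have hlt : k.natAbs < 2097152 := by
    unfold K20 Kset at hk
    rw [mem_filter, mem_Ioo] at hk
    obtain ⟨⟨h1, h2⟩, -⟩ := hk
    push_cast at h1 h2
    omega
  have habs : |(k : ℝ)| = (k.natAbs : ℝ) := by
    rw [← Int.cast_abs, Int.abs_eq_natAbs, Int.cast_natCast]
  generalize k.natAbs = n at hlt habs
  rw [habs] at hl hu ⊢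
  have h1 : n / 16384 * 16384 ≤ n := Nat.div_mul_le_self _ _
  have h2 : n + 1 ≤ (n / 16384 + 1) * 16384 := by omega
  have h3 : n / 16384 + 1 ≤ 128 := by omega
  have e1 : ((n / 16384 : ℕ) : ℝ) * 16384 ≤ n := by exact_mod_cast h1
  have e2 : (n : ℝ) + 1 ≤ (((n / 16384 : ℕ) : ℝ) + 1) * 16384 := by exact_mod_cast h2
  have e3 : ((n / 16384 : ℕ) : ℝ) + 1 ≤ 128 := by exact_mod_cast h3
  have e0 : (0 : ℝ) ≤ ((n / 16384 : ℕ) : ℝ) := Nat.cast_nonneg _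
  have ea : ((aSum_a (n / 16384) : ℚ) : ℝ) = ((n / 16384 : ℕ) : ℝ) / 128 := by
    unfold aSum_a; rw [Rat.cast_div, Rat.cast_natCast]; norm_num
  have eb : ((aSum_a (n / 16384 + 1) : ℚ) : ℝ) = (((n / 16384 : ℕ) : ℝ) + 1) / 128 := by
    unfold aSum_a; rw [Rat.cast_div, Rat.cast_natCast, Nat.cast_add, Nat.cast_one]; norm_num
  refine ⟨n / 16384, by omega, by omega, ?_, ?_, ?_, ?_, ?_⟩
  · rw [ea]; positivity
  · rw [ea]; linarith
  · rw [ea]; linarith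
  · rw [eb]; linarith
  · rw [eb]; linarith

theorem aSum_om (hBas : StBas) (k : ℤ) (hk : k ∈ K20) (g G w : ℝ) (hg : 0 ≤ g)
    (hG : g / xi k ≤ G) (hw : wk (2 ^ 20) k ≤ w) :
    om k * g ≤ w * G / (3.14159 * 2 ^ 21) := by
  obtain ⟨-, -, -, -, -, -, h7, h8⟩ := hBas
  obtain ⟨-, -, -, hx, hs, -⟩ := h7 k
  obtain ⟨-, -, -, -, -, -, -, hw0, -⟩ := h8 k hk
  have hpi : (3.14159 : ℝ) ≤ π := by have := Real.pi_gt_d6; linarith
  have h0 : 0 ≤ g / xi k := div_nonneg hg hx.le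
  have e : om k * g = wk (2 ^ 20) k * (g / xi k) / (π * 2 ^ 21) := by
    unfold om; rw [hs]; field_simp
  rw [e]
  have h1 : wk (2 ^ 20) k * (g / xi k) ≤ w * G := mul_le_mul hw hG h0 (hw0.trans hw)
  exact div_le_div₀ ((mul_nonneg hw0 h0).trans h1) h1 (by norm_num)
    (mul_le_mul_of_nonneg_right hpi (by positivity))

theorem aSum_pR (hBas : StBas) (hMon : StMon) (k : ℤ) (hk : k ∈ K20) :
    om k * gR (xi k) ≤
      (aSum_tR.getD (k.natAbs / 2 ^ 17) 0 : ℝ) / 10 ^ 9 / (3.14159 * 2 ^ 21) := by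
  obtain ⟨s, hs, he, ha0, hak, hax, hxb, hb1⟩ := aSum_int hBas k hk
  have hx : 0 < xi k := (hBas.2.2.2.2.2.2.1 k).2.2.2.1
  obtain ⟨p5, p4, pn, pg, pT, -, -, -, -, -, -, c1, cb, -, -, q5, q4, qn, qg, qT⟩ :=
    hMon.2 _ _ _ ha0 hax hx hxb hb1
  have hw := hMon.1 k hk _ ha0 hak
  have hn : ((aSum_wU (aSum_a s) * aSum_GR (aSum_a s) (aSum_a (s + 1)) : ℚ) : ℝ) ≤
      (((aSum_tR.getD (s / 8) 0 : ℚ) / 10 ^ 9 : ℚ) : ℝ) := Rat.cast_le.2 (aSum_nR s hs)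
  rw [Rat.cast_mul, aSum_cwU, Rat.cast_div, Rat.cast_natCast, Rat.cast_pow, Rat.cast_ofNat] at hn
  rw [he]
  refine (aSum_om hBas k hk _ (aSum_GR (aSum_a s) (aSum_a (s + 1)) : ℚ) _ ?_ ?_ hw).trans
    (div_le_div_of_nonneg_right hn (by norm_num))
  · unfold gR; positivity
  · rw [← aSum_ctgh] at qg
    rw [← aSum_ctTh] at qT
    have e : gR (xi k) / xi k = cc (xi k) * 2.2341 * (0.702 * (5.14 * (nd (xi k) / xi k)
        + tg (xi k) / xi k) + 0.189 * (4.0625 * (nd (xi k) / xi k) + 3 * (al5 (xi k) / xi k)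
        + tT (xi k) / xi k)) := by
      unfold gR; ring
    rw [e]
    unfold aSum_GR
    push_cast
    rw [aSum_ccc, aSum_cnd, aSum_cal5]
    have hc0 : 0 ≤ cc (aSum_a (s + 1) : ℝ) := by linarith
    gcongr

theorem aSum_pX (hBas : StBas) (hMon : StMon) (k : ℤ) (hk : k ∈ K20) :
    om k * gX (xi k) ≤
      (aSum_tX.getD (k.natAbs / 2 ^ 17) 0 : ℝ) / 10 ^ 9 / (3.14159 * 2 ^ 21) := by
  obtain ⟨s, hs, he, ha0, hak, hax, hxb, hb1⟩ := aSum_int hBas k hk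
  have hx : 0 < xi k := (hBas.2.2.2.2.2.2.1 k).2.2.2.1
  obtain ⟨p5, p4, pn, pg, pT, -, -, -, -, -, -, c1, cb, -, -, q5, q4, qn, qg, qT⟩ :=
    hMon.2 _ _ _ ha0 hax hx hxb hb1
  have hw := hMon.1 k hk _ ha0 hak
  have hn : ((aSum_wU (aSum_a s) * aSum_GX (aSum_a (s + 1)) : ℚ) : ℝ) ≤
      (((aSum_tX.getD (s / 8) 0 : ℚ) / 10 ^ 9 : ℚ) : ℝ) := Rat.cast_le.2 (aSum_nX s hs)
  rw [Rat.cast_mul, aSum_cwU, Rat.cast_div, Rat.cast_natCast, Rat.cast_pow, Rat.cast_ofNat] at hn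
  rw [he]
  refine (aSum_om hBas k hk _ (aSum_GX (aSum_a (s + 1)) : ℚ) _ ?_ ?_ hw).trans
    (div_le_div_of_nonneg_right hn (by norm_num))
  · unfold gX; positivity
  · have e : gX (xi k) / xi k =
        0.192 * (1.026 * (al4 (xi k) / xi k) + 1.026 * (nd (xi k) / xi k)) := by
      unfold gX; ring
    rw [e]
    unfold aSum_GX
    push_cast
    rw [aSum_cnd, aSum_cal4]
    gcongr

theorem aSum_pB (hBas : StBas) (hMon : StMon) (k : ℤ) (hk : k ∈ K20) :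
    om k * gB (xi k) ≤
      (aSum_tB.getD (k.natAbs / 2 ^ 17) 0 : ℝ) / 10 ^ 9 / (3.14159 * 2 ^ 21) := by
  obtain ⟨s, hs, he, ha0, hak, hax, hxb, hb1⟩ := aSum_int hBas k hk
  have hx : 0 < xi k := (hBas.2.2.2.2.2.2.1 k).2.2.2.1
  obtain ⟨p5, p4, pn, pg, pT, -, -, -, -, -, -, c1, cb, -, -, q5, q4, qn, qg, qT⟩ :=
    hMon.2 _ _ _ ha0 hax hx hxb hb1
  have hw := hMon.1 k hk _ ha0 hak
  have hn : ((aSum_wU (aSum_a s) * aSum_GB (aSum_a (s + 1)) : ℚ) : ℝ) ≤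
      (((aSum_tB.getD (s / 8) 0 : ℚ) / 10 ^ 9 : ℚ) : ℝ) := Rat.cast_le.2 (aSum_nB s hs)
  rw [Rat.cast_mul, aSum_cwU, Rat.cast_div, Rat.cast_natCast, Rat.cast_pow, Rat.cast_ofNat] at hn
  rw [he]
  refine (aSum_om hBas k hk _ (aSum_GB (aSum_a (s + 1)) : ℚ) _ ?_ ?_ hw).trans
    (div_le_div_of_nonneg_right hn (by norm_num))
  · unfold gB; positivity
  · have e : gB (xi k) / xi k = 2.494 * (al4 (xi k) / xi k + nd (xi k) / xi k) := by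
      unfold gB; ring
    rw [e]
    unfold aSum_GB
    push_cast
    rw [aSum_cnd, aSum_cal4]
    gcongr

theorem aSum_pQ (hBas : StBas) (hMon : StMon) (k : ℤ) (hk : k ∈ K20) :
    (wk (2 ^ 20) k * cc (xi k) / kL (xi k) ^ 3) ^ 2 ≤
      (aSum_tQ.getD (k.natAbs / 2 ^ 17) 0 : ℝ) / 10 ^ 6 ∧
    wk (2 ^ 20) k * cc (xi k) ^ 2 / kL (xi k) ^ 2 ≤ 1.01 := by
  obtain ⟨s, hs, he, ha0, hak, hax, hxb, hb1⟩ := aSum_int hBas k hk
  have hx : 0 < xi k := (hBas.2.2.2.2.2.2.1 k).2.2.2.1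
  obtain ⟨-, -, -, -, -, -, -, -, -, -, -, c1, cb, kb, k0, -⟩ :=
    hMon.2 _ _ _ ha0 hax hx hxb hb1
  have hw := hMon.1 k hk _ ha0 hak
  have hw0 : 0 ≤ wk (2 ^ 20) k := (hBas.2.2.2.2.2.2.2 k hk).2.2.2.2.2.2.2.1
  have hc0 : 0 ≤ cc (xi k) := by linarith
  have hk0 : 0 < kL (aSum_a (s + 1) : ℝ) := by linarith
  have hk1 : 0 < kL (xi k) := by linarith
  have hU : 0 ≤ wU (aSum_a s : ℝ) := hw0.trans hw
  have hc1 : 0 ≤ cc (aSum_a (s + 1) : ℝ) := by linarith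
  constructor
  · have hn : (((aSum_wU (aSum_a s) * aSum_cc (aSum_a (s + 1)) /
        aSum_kL (aSum_a (s + 1)) ^ 3) ^ 2 : ℚ) : ℝ) ≤
        (((aSum_tQ.getD (s / 8) 0 : ℚ) / 10 ^ 6 : ℚ) : ℝ) := Rat.cast_le.2 (aSum_nQ s hs)
    rw [Rat.cast_pow, Rat.cast_div, Rat.cast_mul, Rat.cast_pow, aSum_cwU, aSum_ccc, aSum_ckL,
      Rat.cast_div, Rat.cast_natCast, Rat.cast_pow, Rat.cast_ofNat] at hn
    rw [he]
    refine le_trans ?_ hn
    gcongr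
  · have hn : ((aSum_wU (aSum_a s) * aSum_cc (aSum_a (s + 1)) ^ 2 /
        aSum_kL (aSum_a (s + 1)) ^ 2 : ℚ) : ℝ) ≤ ((1.01 : ℚ) : ℝ) := Rat.cast_le.2 (aSum_nM s hs)
    rw [Rat.cast_div, Rat.cast_mul, Rat.cast_pow, Rat.cast_pow, aSum_cwU, aSum_ccc, aSum_ckL] at hn
    refine le_trans ?_ (hn.trans (by norm_num))
    gcongr

theorem aSum_tab (l : List ℕ) (N : ℕ) (h : ∑ i ∈ range 16, l.getD i 0 = N) (d e : ℝ) :
    ∑ i ∈ range 16, (l.getD i 0 : ℝ) / d / e = N / d / e := by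
  rw [← sum_div, ← sum_div, ← h, Nat.cast_sum]

theorem stSum (hBas : StBas) (hWin : StWin) (hMon : StMon) : StSum := by
  intro hW
  obtain ⟨-, -, -, -, hw⟩ := hWin hW
  refine ⟨?_, ?_, ?_, ?_, fun k hk => (aSum_pQ hBas hMon k hk).2⟩
  · have h := (hw (fun k => om k * gR (xi k))
      (fun i => (aSum_tR.getD i 0 : ℝ) / 10 ^ 9 / (3.14159 * 2 ^ 21)) (fun i => by positivity)
      (aSum_pR hBas hMon)).1
    rw [aSum_tab _ _ aSum_sR] at h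
    exact h.trans (by norm_num)
  · have h := (hw (fun k => om k * gX (xi k))
      (fun i => (aSum_tX.getD i 0 : ℝ) / 10 ^ 9 / (3.14159 * 2 ^ 21)) (fun i => by positivity)
      (aSum_pX hBas hMon)).1
    rw [aSum_tab _ _ aSum_sX] at h
    exact h.trans (by norm_num)
  · have h := (hw (fun k => om k * gB (xi k))
      (fun i => (aSum_tB.getD i 0 : ℝ) / 10 ^ 9 / (3.14159 * 2 ^ 21)) (fun i => by positivity)
      (aSum_pB hBas hMon)).2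
    rw [aSum_tab _ _ aSum_sB] at h
    exact h.trans (by norm_num)
  · have h := (hw (fun k => (wk (2 ^ 20) k * cc (xi k) / kL (xi k) ^ 3) ^ 2)
      (fun i => (aSum_tQ.getD i 0 : ℝ) / 10 ^ 6 / 1) (fun i => by positivity)
      (fun k hk => by rw [div_one]; exact (aSum_pQ hBas hMon k hk).1)).1
    rw [aSum_tab _ _ aSum_sQ] at h
    exact h.trans (by norm_num)

end Pool.Agent.MP_88bd62_nt.U.A
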