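import Pool.Agent.MP_88bd62_nt.U.AStm

/-! The tail of the zeta series at the poles. -/

namespace Pool.Agent.MP_88bd62_nt.U.A

open Finset Real

theorem aTl_one (k : ℤ) (A : ℕ) (hA : A = 2 ^ 20) :
    (A : ℂ) ^ (-((tk k : ℝ) * Complex.I)) = 1 := by
  have h2 : log 2 ≠ 0 := (log_pos one_lt_two).ne'
  have hA0 : (A : ℂ) ≠ 0 := by
    rw [hA]
    exact_mod_cast (by positivity : (2 ^ 20 : ℕ) ≠ 0)
  rw [Complex.cpow_def_of_ne_zero hA0, ← Complex.natCast_log]
  have h1 : log (A : ℝ) * tk k = 20 * π * k := by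
    rw [hA, Nat.cast_pow, log_pow, tk]
    push_cast
    field_simp
  have h3 : ((log (A : ℝ) : ℝ) : ℂ) * -((tk k : ℝ) * Complex.I) =
      ((-(10 * k) : ℤ) : ℂ) * (2 * π * Complex.I) := by
    have h4 : ((log (A : ℝ) : ℝ) : ℂ) * (tk k : ℝ) = 20 * π * k := by exact_mod_cast h1
    push_cast at h4 ⊢
    linear_combination (-Complex.I) * h4
  rw [h3, Complex.exp_int_mul_two_pi_mul_I]

theorem aTl_mid (x y : ℝ) (hy0 : 0 ≤ y) (hy : y ≤ 1.442696 * x) (hx : x ≤ 11 / 16) :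
    (0.55 + 1.05 * y / (1 - y ^ 2)) / 1048576 ≤
      0.0000006 + 0.00000145 * x / (1 - 2.0814 * x ^ 2) := by
  have hx0 : 0 ≤ x := by nlinarith
  have h1 : 0 < 1 - 2.0814 * x ^ 2 := by nlinarith
  have h2 : 1 - 2.0814 * x ^ 2 ≤ 1 - y ^ 2 := by nlinarith
  have h3 : 1.05 * y / (1 - y ^ 2) ≤ 1.05 * (1.442696 * x) / (1 - 2.0814 * x ^ 2) :=
    div_le_div₀ (by positivity) (by linarith) h1 h2
  have h4 : 0 ≤ x / (1 - 2.0814 * x ^ 2) := div_nonneg hx0 h1.le
  have h5 : 1.05 * (1.442696 * x) / (1 - 2.0814 * x ^ 2) =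
      1.05 * 1.442696 * (x / (1 - 2.0814 * x ^ 2)) := by ring
  rw [mul_div_assoc 0.00000145]
  rw [h5] at h3
  linarith

theorem aTl_tail (τ A : ℝ) (hA : A = 1048576) (h1 : 0.99 * A ≤ τ) (h2 : τ ≤ 1.4427 * A) :
    tailB τ A ≤ 0.002988 := by
  subst hA
  have hpi := pi_gt_d6
  have hf : ⌊1.04 * τ / 1048576⌋₊ = 1 := by
    rw [Nat.floor_eq_iff (by linarith)]
    constructor <;> push_cast <;> linarith
  have hs : √(τ / π) ≤ 694 := by
    rw [sqrt_le_left (by norm_num), div_le_iff₀ pi_pos]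
    linarith
  have hs0 := sqrt_nonneg (τ / π)
  rw [tailB, hf, Icc_self, sum_singleton, blk]
  have h3 : (√(τ / π) * (3.01 / ((1 : ℕ) : ℝ) + 1 / (((1 : ℕ) : ℝ) + 1)) + 1) /
      max 1048576 (τ / (((1 : ℕ) : ℝ) + 1) - 1) ≤ 2437 / 1048576 := by
    refine div_le_div₀ (by norm_num) ?_ (by norm_num) (le_max_left _ _)
    push_cast
    linarith
  have h4 : (√(τ / π) + 1.01) / max (1048576 - 1) (τ - 2) ≤ 695.1 / (1048576 - 1) :=
    div_le_div₀ (by norm_num) (by linarith) (by norm_num) (le_max_left _ _)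
  linarith

theorem aTl_main (hTl3 : StTl3) (hEM1 : StEM1) (hTail : StTail) (A : ℕ) (hA : (A : ℝ) = 1048576)
    (hA' : 10 ^ 6 ≤ A) (t x y : ℝ) (ht : t ≠ 0) (h1 : (A : ℂ) ^ (-(t * Complex.I)) = 1)
    (hy : |t| / (2 * π * A) = y) (hx0 : 0 < x) (hyx : y ≤ 1.442696 * x) (hy1 : y ≤ 1.4427)
    (hy2 : 11 / 16 < x → 0.99 ≤ y) :
    ‖riemannZeta (1 + t * Complex.I) - ∑ n ∈ Ico 1 A, (n : ℂ) ^ (-(1 + t * Complex.I))
      - 1 / (t * Complex.I)‖ ≤ 0.0000006 + tg x := by
  have hpi := pi_gt_d6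
  have hA0 : (0 : ℝ) < A := by rw [hA]; norm_num
  have hty : |t| = y * (2 * π * A) := by
    rw [← hy]
    field_simp
  have hy0 : 0 ≤ y := by
    rw [← hy]
    positivity
  by_cases hc : |t| ≤ 2000
  · have h2 := hEM1 t A ht (le_trans (by norm_num) hA')
    rw [h1] at h2
    have h3 : ‖(A : ℂ) ^ (-(1 + t * Complex.I)) / 2‖ = 1 / 1048576 / 2 := by
      rw [norm_div, Complex.norm_natCast_cpow_of_pos (by exact_mod_cast hA0), hA]
      simp [rpow_neg_one]
    have h4 : (|t| + 6) ^ 2 / (47 * (A : ℝ) ^ 2) ≤ 2006 ^ 2 / (47 * 1048576 ^ 2) := by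
      rw [hA]
      have := abs_nonneg t
      gcongr
      linarith
    have h5 : 0 ≤ tg x := by
      unfold tg
      split_ifs with h
      · exact div_nonneg (by positivity) (by nlinarith)
      · norm_num
    have h6 := norm_add_le (riemannZeta (1 + t * Complex.I)
      - ∑ n ∈ Ico 1 A, (n : ℂ) ^ (-(1 + t * Complex.I))
      - (A : ℂ) ^ (-(1 + t * Complex.I)) / 2 - 1 / (t * Complex.I))
      ((A : ℂ) ^ (-(1 + t * Complex.I)) / 2)
    rw [show ∀ a b c : ℂ, a - b - c + b = a - c from fun a b c => by ring, h3] at h6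
    norm_num at h4
    linarith
  · rw [not_le] at hc
    by_cases hx : x ≤ 11 / 16
    · have h2 := hTl3 t A hc.le hA' (by
        rw [hty]
        exact mul_le_mul_of_nonneg_right (by linarith) (by positivity))
      rw [h1, hy, hA] at h2
      rw [tg, if_pos hx]
      exact h2.trans (aTl_mid x y hy0 hyx hx)
    · have h2 := hy2 (not_le.1 hx)
      have hτ : |t| / (2 * π) = y * A := by
        rw [hty]
        field_simp
      have h3 := (hTail t A (by rw [hτ, hA]; linarith) (by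
        rw [hτ, hA]
        have : √(y * 1048576) ≤ 2000 := by
          rw [sqrt_le_left (by norm_num)]
          linarith
        linarith)).1
      rw [hτ] at h3
      have h4 := aTl_tail (y * A) A hA (by nlinarith) (by nlinarith)
      have h5 : 6000000 ≤ |t| := by
        rw [hty, hA]
        nlinarith
      have h6 : ‖(1 : ℂ) / (t * Complex.I)‖ = 1 / |t| := by simp
      have h7 : 1 / |t| ≤ 1 / 6000000 := one_div_le_one_div_of_le (by norm_num) h5
      have h8 : 3.01 / |t| = 3.01 * (1 / |t|) := by ring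
      rw [tg, if_neg hx]
      refine (norm_sub_le _ _).trans ?_
      rw [h6]
      linarith

theorem stTl (hBas : StBas) (hTl3 : StTl3) (hEM1 : StEM1) (hTail : StTail) : StTl := by
  intro k hk
  obtain ⟨-, -, -, -, -, -, h7, h8⟩ := hBas
  obtain ⟨hodd, hx1, -⟩ := h8 k hk
  obtain ⟨-, -, -, hx0, -, -, -, -, -, -, -, hl, hu⟩ := h7 k
  have hl1 := log_two_gt_d9
  have hl2 := log_two_lt_d9
  have hl0 : 0 < log 2 := log_pos one_lt_two
  have hk0 : (k : ℝ) ≠ 0 := by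
    have : k ≠ 0 := by
      rintro rfl
      exact absurd hodd (by decide)
    exact_mod_cast this
  have ht : tk k ≠ 0 := by
    unfold tk
    have := pi_pos
    positivity
  have hu0 : 0 ≤ |(k : ℝ)| / 2 ^ 21 := by positivity
  obtain ⟨A, hA⟩ : ∃ A : ℕ, A = 2 ^ 20 := ⟨_, rfl⟩
  have hA1 : (A : ℝ) = 1048576 := by
    rw [hA]
    norm_num
  have hA2 : 10 ^ 6 ≤ A := by
    rw [hA]
    norm_num
  have hy : |tk k| / (2 * π * A) = |(k : ℝ)| / 2 ^ 21 / log 2 := by
    rw [hA1, tk, abs_div, abs_mul, abs_of_pos pi_pos, abs_of_pos hl0]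
    have := pi_pos
    field_simp
    norm_num
  rw [← hA]
  refine aTl_main hTl3 hEM1 hTail A hA1 hA2 (tk k) (xi k) _ ht (aTl_one k A hA) hy hx0 ?_ ?_ ?_
  · rw [div_le_iff₀ hl0]
    nlinarith
  · rw [div_le_iff₀ hl0]
    nlinarith
  · intro h
    rw [le_div_iff₀ hl0]
    rw [add_div] at hu
    norm_num at hu ⊢
    linarith

end Pool.Agent.MP_88bd62_nt.U.A
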