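import Pool.Agent.MP_88bd62_nt.U.Stmts

/-! The Euler-Maclaurin formula on the line `re s = 1` in trapezoidal form. -/

namespace Pool.Agent.MP_88bd62_nt.U

open Finset Real Filter Topology

theorem xEM1_mv {r : ℂ} (hr : r ≠ 0) (hr' : r.re = -1) {a b : ℝ} (ha : 0 < a) (hab : a ≤ b) :
    ‖(b : ℂ) ^ r - (a : ℂ) ^ r‖ ≤ ‖r‖ / a ^ 2 * (b - a) := by
  refine norm_image_sub_le_of_norm_deriv_le_segment' (f := fun y : ℝ => (y : ℂ) ^ r)
    (f' := fun y : ℝ => r * (y : ℂ) ^ (r - 1)) (fun x hx => ?_) (fun x hx => ?_) b ⟨hab, le_rfl⟩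
  · exact (hasDerivAt_ofReal_cpow_const (ha.trans_le hx.1).ne' hr).hasDerivWithinAt
  · have hx0 : 0 < x := ha.trans_le hx.1
    have h1 : (r - 1).re = -(2 : ℕ) := by
      rw [Complex.sub_re, hr', Complex.one_re]
      norm_num
    rw [norm_mul, Complex.norm_cpow_eq_rpow_re_of_pos hx0, h1, Real.rpow_neg hx0.le,
      Real.rpow_natCast, ← div_eq_mul_inv]
    have := hx.1
    gcongr

theorem xEM1_second {r : ℂ} (hr : r ≠ 0) (hr' : r.re = 0) {a : ℝ} (ha : 0 < a) :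
    ‖((a + 1 : ℝ) : ℂ) ^ r - 2 * ((a + 1 / 2 : ℝ) : ℂ) ^ r + (a : ℂ) ^ r‖ ≤
      ‖r‖ * (‖r - 1‖ / a ^ 2) / 4 := by
  have h1 : (r - 1).re = -1 := by
    rw [Complex.sub_re, hr', Complex.one_re]
    norm_num
  have h2 : r - 1 ≠ 0 := fun e => by
    rw [e, Complex.zero_re] at h1
    norm_num at h1
  have key := norm_image_sub_le_of_norm_deriv_le_segment'
    (f := fun y : ℝ => ((y + 1 / 2 : ℝ) : ℂ) ^ r - (y : ℂ) ^ r)
    (f' := fun y : ℝ => r * ((y + 1 / 2 : ℝ) : ℂ) ^ (r - 1) - r * (y : ℂ) ^ (r - 1))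
    (a := a) (b := a + 1 / 2) (C := ‖r‖ * (‖r - 1‖ / a ^ 2) / 2) (fun x hx => ?_) (fun x hx => ?_)
    (a + 1 / 2) ⟨by linarith, le_rfl⟩
  · have e1 : a + 1 / 2 + 1 / 2 = a + 1 := by ring
    simp only [e1] at key
    refine le_trans (le_of_eq ?_) (key.trans (le_of_eq ?_))
    · congr 1
      ring
    · ring
  · have hx0 : 0 < x := ha.trans_le hx.1
    refine (HasDerivAt.sub ?_ (hasDerivAt_ofReal_cpow_const hx0.ne' hr)).hasDerivWithinAt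
    exact (hasDerivAt_ofReal_cpow_const (x := x + 1 / 2) (by positivity) hr).comp_add_const x
      (1 / 2)
  · have hx0 : 0 < x := ha.trans_le hx.1
    have h3 := xEM1_mv h2 h1 hx0 (b := x + 1 / 2) (by linarith)
    have h4 : ‖r - 1‖ / x ^ 2 ≤ ‖r - 1‖ / a ^ 2 := by
      have := hx.1
      gcongr
    rw [← mul_sub, norm_mul, mul_div_assoc]
    gcongr
    linarith

theorem xEM1_num {x : ℝ} (hx : 999 ≤ x) : 47 * (x + 1) ^ 2 ≤ (x - 1 / 2) ^ 2 * 48 := by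
  nlinarith

theorem xEM1_fin {A B C a u p p' q R : ℝ} (hA : A ≤ p / (1 + 1)) (hB : B ≤ p' / (1 + 1))
    (hC : C ≤ q / 4) (d1 : p ≤ (a + 1) * (a + 2) / 24 * u) (d2 : p' ≤ (a + 1) * (a + 2) / 24 * u)
    (d3 : q ≤ (a + 1) * u) (d4 : (a + 6) ^ 2 * (u / 48) ≤ R) (d5 : 0 ≤ a * u) (u0 : 0 ≤ u) :
    A / 2 + B / 2 + C / 2 ≤ R := by
  nlinarith

theorem stEM1 (hEM : StEM) : StEM1 := by
  intro t N ht hN
  obtain ⟨M, rfl⟩ : ∃ M, N = M + 1 := ⟨N - 1, by omega⟩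
  have hM : (999 : ℝ) ≤ M := by exact_mod_cast (by omega : 999 ≤ M)
  set s : ℂ := 1 + t * Complex.I with hs
  have ht' : (t : ℂ) * Complex.I ≠ 0 := mul_ne_zero (by exact_mod_cast ht) Complex.I_ne_zero
  have hre : s.re = 1 := by simp [hs]
  have hs1 : s ≠ 1 := fun e => ht' (by rw [hs] at e; linear_combination e)
  have e1 : 1 - s = -(t * Complex.I) := by rw [hs]; ring
  have e2 : s - 1 = t * Complex.I := by rw [hs]; ring
  have hA := hEM s (M + 1) (by rw [hre]; norm_num) hs1 (by omega)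
  have hB := hEM s M (by rw [hre]; norm_num) hs1 (by omega)
  have hC := xEM1_second (r := -(t * Complex.I)) (neg_ne_zero.2 ht') (by simp)
    (a := (M : ℝ) + 1 / 2) (by positivity)
  have e3 : -s.re - 1 = -((2 : ℕ) : ℝ) := by rw [hre]; norm_num
  have e4 : Icc 1 M = Ico 1 (M + 1) := by
    ext n
    simp only [mem_Icc, mem_Ico]
    omega
  have e5 : -(t * Complex.I) - 1 = -s := by rw [hs]; ring
  have p1 : (0 : ℝ) < M - 1 / 2 := by linarith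
  have p2 : (0 : ℝ) < ((M + 1 : ℕ) : ℝ) - 1 / 2 := by push_cast; linarith
  rw [Finset.sum_Icc_succ_top (by omega), e4, e1, e2, e3, hre, Real.rpow_neg p2.le,
    Real.rpow_natCast] at hA
  rw [e4, e1, e2, e3, hre, Real.rpow_neg p1.le, Real.rpow_natCast] at hB
  rw [e5, norm_neg, norm_neg] at hC
  have hn : 0 < ‖(t : ℂ) * Complex.I‖ := norm_pos_iff.2 ht'
  set S := ∑ n ∈ Ico 1 (M + 1), (n : ℂ) ^ (-s)
  set r : ℂ := -(t * Complex.I)
  have c1 : (((M : ℝ) + 1 / 2 + 1 : ℝ) : ℂ) = ((M + 1 : ℕ) : ℂ) + 1 / 2 := by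
    push_cast
    ring
  have c2 : (((M : ℝ) + 1 / 2 + 1 / 2 : ℝ) : ℂ) = ((M + 1 : ℕ) : ℂ) := by
    push_cast
    ring
  have c3 : (((M : ℝ) + 1 / 2 : ℝ) : ℂ) = (M : ℂ) + 1 / 2 := by
    push_cast
    ring
  rw [c1, c2, c3] at hC
  set x := (((M + 1 : ℕ) : ℂ) + 1 / 2) ^ r
  set y := ((M + 1 : ℕ) : ℂ) ^ r
  set z := ((M : ℂ) + 1 / 2) ^ r
  set w := ((M + 1 : ℕ) : ℂ) ^ (-s)
  have key : riemannZeta s - S - w / 2 - y / (t * Complex.I) =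
      (riemannZeta s - (S + w) - x / (t * Complex.I)) / 2 +
        (riemannZeta s - S - z / (t * Complex.I)) / 2 +
        (x - 2 * y + z) / (t * Complex.I) / 2 := by
    ring
  have hC' : ‖(x - 2 * y + z) / (t * Complex.I)‖ ≤ ‖s‖ / ((M : ℝ) + 1 / 2) ^ 2 / 4 := by
    rw [norm_div, div_le_iff₀ hn]
    linarith
  have b1 : ‖s‖ ≤ |t| + 1 := by
    refine (norm_add_le _ _).trans (le_of_eq ?_)
    simp [add_comm]
  have b2 : ‖s + 1‖ ≤ |t| + 2 := by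
    refine (norm_add_le _ _).trans ?_
    rw [norm_one]
    linarith
  have a0 := abs_nonneg t
  set u : ℝ := (((M : ℝ) - 1 / 2) ^ 2)⁻¹ with hu
  have u0 : 0 ≤ u := by positivity
  have u1 : ((((M + 1 : ℕ) : ℝ) - 1 / 2) ^ 2)⁻¹ ≤ u := by
    rw [hu]
    gcongr
    push_cast
    linarith
  have u2 : (((M : ℝ) + 1 / 2) ^ 2)⁻¹ ≤ u := by
    rw [hu]
    gcongr
    linarith
  have u3 : u / 48 ≤ 1 / (47 * ((M + 1 : ℕ) : ℝ) ^ 2) := by
    rw [hu, inv_eq_one_div, div_div]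
    push_cast
    exact one_div_le_one_div_of_le (by positivity) (xEM1_num hM)
  have d1 : ‖s‖ * ‖s + 1‖ / 24 * ((((M + 1 : ℕ) : ℝ) - 1 / 2) ^ 2)⁻¹ ≤
      (|t| + 1) * (|t| + 2) / 24 * u := by gcongr
  have d2 : ‖s‖ * ‖s + 1‖ / 24 * u ≤ (|t| + 1) * (|t| + 2) / 24 * u := by gcongr
  have d3 : ‖s‖ / ((M : ℝ) + 1 / 2) ^ 2 ≤ (|t| + 1) * u := by
    rw [div_eq_mul_inv]
    gcongr
  have d4 : (|t| + 6) ^ 2 * (u / 48) ≤ (|t| + 6) ^ 2 / (47 * ((M + 1 : ℕ) : ℝ) ^ 2) := by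
    rw [div_eq_mul_one_div ((|t| + 6) ^ 2)]
    gcongr
  have d5 : 0 ≤ |t| * u := by positivity
  rw [key]
  refine (norm_add₃_le).trans ?_
  simp only [norm_div _ (2 : ℂ), Complex.norm_ofNat]
  exact xEM1_fin hA hB hC' d1 d2 d3 d4 d5 u0

end Pool.Agent.MP_88bd62_nt.U
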