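import Pool.Agent.MP_88bd62_nt.U.Stmts

/-! The estimate of Kuzmin and Landau with the increments as weights. -/

namespace Pool.Agent.MP_88bd62_nt.U

open Finset Real

/-- The function `d cot (π d)`. -/
noncomputable def xKL0_c (d : ℝ) : ℝ := d * cos (π * d) / sin (π * d)

/-- The quotient `d / (ex d - 1)`. -/
noncomputable def xKL0_b (d : ℝ) : ℂ :=
  ((-(d / 2) : ℝ) : ℂ) + ((-(xKL0_c d / 2) : ℝ) : ℂ) * Complex.I

theorem xKL0_sin {d : ℝ} (h0 : 0 < d) (h1 : d < 1) : 0 < sin (π * d) :=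
  sin_pos_of_pos_of_lt_pi (by positivity) (mul_lt_of_lt_one_right pi_pos h1)

theorem xKL0_cos {u : ℝ} (h0 : 0 ≤ u) (h1 : u < π / 2) : u * cos u ≤ sin u := by
  have h := le_tan h0 h1
  rwa [tan_eq_sin_div_cos, le_div_iff₀ (cos_pos_of_mem_Ioo ⟨by linarith [pi_pos], h1⟩)] at h

theorem xKL0_anti : AntitoneOn xKL0_c (Set.Ioo 0 1) := by
  have h : ∀ d ∈ Set.Ioo (0 : ℝ) 1, HasDerivAt xKL0_c
      (((1 * cos (π * d) + d * (-sin (π * d) * (π * 1))) * sin (π * d) -
        d * cos (π * d) * (cos (π * d) * (π * 1))) / sin (π * d) ^ 2) d := fun d hd =>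
    ((hasDerivAt_id' d).mul ((hasDerivAt_id' d).const_mul π).cos).div
      ((hasDerivAt_id' d).const_mul π).sin (xKL0_sin hd.1 hd.2).ne'
  refine antitoneOn_of_deriv_nonpos (convex_Ioo 0 1)
    (fun d hd => (h d hd).continuousAt.continuousWithinAt)
    (fun d hd => (h d (interior_subset hd)).differentiableAt.differentiableWithinAt) fun d hd => ?_
  have hd' := interior_subset hd
  rw [(h d hd').deriv]
  refine div_nonpos_of_nonpos_of_nonneg ?_ (sq_nonneg _)
  have h1 := sin_le (mul_pos pi_pos hd'.1).le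
  have h2 := mul_le_of_le_one_left (xKL0_sin hd'.1 hd'.2).le (cos_le_one (π * d))
  have h3 : π * d * (sin (π * d) ^ 2 + cos (π * d) ^ 2) = π * d := by
    rw [sin_sq_add_cos_sq, mul_one]
  linarith

theorem xKL0_id {d : ℝ} (h0 : 0 < d) (h1 : d < 1) : xKL0_b d * (ex d - 1) = d := by
  have hs := (xKL0_sin h0 h1).ne'
  have h := sin_sq_add_cos_sq (π * d)
  have e : ex d = (cos (2 * (π * d)) : ℝ) + (sin (2 * (π * d)) : ℝ) * Complex.I := by
    rw [ex, mul_assoc, Complex.exp_mul_I, Complex.ofReal_cos, Complex.ofReal_sin]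
  rw [e, xKL0_b, xKL0_c, cos_two_mul, sin_two_mul]
  generalize sin (π * d) = s at *
  generalize cos (π * d) = c at *
  refine Complex.ext ?_ ?_
  · simp only [Complex.mul_re, Complex.add_re, Complex.sub_re, Complex.ofReal_re, Complex.I_re,
      Complex.ofReal_im, Complex.I_im, Complex.add_im, Complex.mul_im, Complex.sub_im,
      Complex.one_re, Complex.one_im]
    field_simp
    ring
  · simp only [Complex.mul_re, Complex.add_re, Complex.sub_re, Complex.ofReal_re, Complex.I_re,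
      Complex.ofReal_im, Complex.I_im, Complex.add_im, Complex.mul_im, Complex.sub_im,
      Complex.one_re, Complex.one_im]
    field_simp
    linear_combination (-2 * d * c) * h

theorem xKL0_step (x : ℝ) {y : ℝ} (h0 : 0 < y - x) (h1 : y - x < 1) :
    ((y - x : ℝ) : ℂ) * ex x = xKL0_b (y - x) * (ex y - ex x) := by
  have e : ex y = ex (y - x) * ex x := by
    rw [ex, ex, ex, ← Complex.exp_add]
    congr 1
    push_cast
    ring
  rw [e, ← sub_one_mul, ← mul_assoc, xKL0_id h0 h1]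

theorem xKL0_tri (x y : ℝ) : ‖(x : ℂ) + (y : ℂ) * Complex.I‖ ≤ |x| + |y| := by
  simpa using norm_add_le (x : ℂ) ((y : ℂ) * Complex.I)

theorem xKL0_sub {d e : ℝ} (h0 : 0 < e) (h : e ≤ d) (h1 : d < 1) :
    ‖xKL0_b d - xKL0_b e‖ ≤ (d - e) / 2 + (xKL0_c e - xKL0_c d) / 2 := by
  have h2 := xKL0_anti ⟨h0, h.trans_lt h1⟩ ⟨h0.trans_le h, h1⟩ h
  have h3 := xKL0_tri (-((d - e) / 2)) ((xKL0_c e - xKL0_c d) / 2)
  rw [abs_neg, abs_of_nonneg (by linarith), abs_of_nonneg (by linarith)] at h3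
  convert h3 using 2
  rw [xKL0_b, xKL0_b]
  push_cast
  ring

theorem xKL0_last {d : ℝ} (h0 : 0 < d) (h1 : d ≤ 1 / 100) :
    ‖xKL0_b d‖ - d / 2 + xKL0_c d / 2 ≤ 2.001 / (2 * π) := by
  have hs := xKL0_sin h0 (by linarith)
  have h2 : π * d < π / 2 := by nlinarith [pi_pos]
  have hp := mul_pos pi_pos h0
  have h3 : 0 ≤ xKL0_c d :=
    div_nonneg (mul_nonneg h0.le (cos_pos_of_mem_Ioo ⟨by linarith [pi_pos], h2⟩).le) hs.le
  have h4 : xKL0_c d ≤ 2.001 / (2 * π) := by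
    rw [xKL0_c, div_le_div_iff₀ hs (by positivity)]
    linarith [xKL0_cos hp.le h2]
  have h5 := xKL0_tri (-(d / 2)) (-(xKL0_c d / 2))
  rw [abs_neg, abs_neg, abs_of_nonneg (by linarith), abs_of_nonneg (by linarith)] at h5
  rw [xKL0_b]
  linarith

theorem xKL0_first {d η : ℝ} (hη : 0 < η) (h0 : 0 < d) (h1 : d ≤ 1 - η) :
    ‖xKL0_b d‖ - xKL0_c d / 2 ≤ d * (1 / (π * η)) := by
  have hs := xKL0_sin h0 (by linarith)
  have h2 : ‖xKL0_b d‖ ≤ d / sin (π * d) / 2 := by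
    rw [xKL0_b, Complex.norm_add_mul_I, xKL0_c]
    refine sqrt_le_iff.2 ⟨by positivity, le_of_eq ?_⟩
    have h := sin_sq_add_cos_sq (π * d)
    generalize π * d = s at *
    field_simp
    exact h
  obtain ⟨u, hu⟩ : ∃ u, π * d = π - 2 * u := ⟨(π - π * d) / 2, by ring⟩
  have h3 : π * η ≤ 2 * u := by nlinarith [pi_pos]
  have h4 : u < π / 2 := by nlinarith [pi_pos]
  have hp := mul_pos pi_pos hη
  have h5 := xKL0_cos (by linarith) h4
  have h6 : 0 < cos u := cos_pos_of_mem_Ioo ⟨by linarith [pi_pos], h4⟩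
  have h7 : (1 - cos (π * d)) / sin (π * d) / 2 ≤ 1 / (π * η) := by
    rw [div_div, div_le_div_iff₀ (by positivity) hp, hu, cos_pi_sub, sin_pi_sub, cos_two_mul,
      sin_two_mul]
    have h8 := mul_le_mul_of_nonneg_left h3 (sq_nonneg (cos u))
    have h9 := mul_le_mul_of_nonneg_left h5 h6.le
    linarith
  have h8 := mul_le_mul_of_nonneg_left h7 h0.le
  have h9 : d * ((1 - cos (π * d)) / sin (π * d) / 2) = d / sin (π * d) / 2 - xKL0_c d / 2 := by
    rw [xKL0_c]
    ring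
  linarith

theorem stKL0 : StKL0 := by
  intro φ A B η hη hAB h1 h2 h3
  have hn : ∀ x, ‖ex x‖ = 1 := fun x => Complex.norm_exp_ofReal_mul_I _
  have key : ∀ m, A ≤ m → m < B →
      ‖∑ n ∈ Ico A (m + 1), ((φ (n + 1) - φ n : ℝ) : ℂ) * ex (φ n) -
        xKL0_b (φ (m + 1) - φ m) * ex (φ (m + 1)) + xKL0_b (φ (A + 1) - φ A) * ex (φ A)‖ ≤
      ((φ (A + 1) - φ A) - (φ (m + 1) - φ m)) / 2 +
        (xKL0_c (φ (m + 1) - φ m) - xKL0_c (φ (A + 1) - φ A)) / 2 := by
    intro m hm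
    induction m, hm using Nat.le_induction with
    | base =>
      intro h
      have h4 := h1 A le_rfl h
      rw [Nat.Ico_succ_singleton, sum_singleton, xKL0_step _ h4.1 (by linarith [h4.2])]
      simp [mul_sub]
    | succ m hm ih =>
      intro h
      have h4 := h1 m hm (by omega)
      have h5 := h1 (m + 1) (by omega) h
      have h6 := xKL0_sub h5.1 (h2 m hm h) (by linarith [h4.2])
      have h7 := norm_add_le_of_le (ih (by omega))
        ((norm_mul _ (ex (φ (m + 1)))).trans_le ((hn _).symm ▸ (mul_one _).trans_le h6))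
      rw [sum_Ico_succ_top (by omega), xKL0_step _ h5.1 (by linarith [h5.2])]
      refine (le_of_eq (congrArg _ (by ring))).trans (h7.trans_eq (by ring))
  obtain ⟨m, rfl⟩ : ∃ m, B = m + 1 := ⟨B - 1, by omega⟩
  have h4 := key m (by omega) m.lt_succ_self
  have h5 := xKL0_last (h1 m (by omega) m.lt_succ_self).1 h3
  have h6 := xKL0_first hη (h1 A le_rfl hAB).1 (h1 A le_rfl hAB).2
  have h7 : ∀ a b c : ℂ, ‖a‖ ≤ ‖a - b + c‖ + ‖b‖ + ‖c‖ := fun a b c =>
    (le_of_eq (congrArg _ (by ring))).trans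
      ((norm_sub_le (a - b + c + b) c).trans (add_le_add (norm_add_le _ _) le_rfl))
  refine (h7 _ (xKL0_b (φ (m + 1) - φ m) * ex (φ (m + 1)))
    (xKL0_b (φ (A + 1) - φ A) * ex (φ A))).trans ?_
  rw [norm_mul, norm_mul, hn, hn]
  linarith

end Pool.Agent.MP_88bd62_nt.U
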