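import Pool.Agent.MP_88bd62_nt.U.Stmts

/-! The tail of the zeta function on the line of real part one. -/

namespace Pool.Agent.MP_88bd62_nt.U

open Finset Real Filter Topology

theorem xTail_ex (x : ℝ) : ‖ex x‖ = 1 := Complex.norm_exp_ofReal_mul_I _

theorem xTail_d (τ : ℝ) {α : ℝ} {n : ℕ} (h : 0 < n + α) :
    τ * log ((n + 1 : ℕ) + α) - τ * log (n + α) = τ * log (1 + 1 / (n + α)) := by
  rw [← mul_sub, ← log_div (by push_cast; linarith) h.ne']
  congr 2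
  push_cast
  field_simp
  ring

theorem xTail_mono {x y : ℝ} (hx : 0 < x) (h : x ≤ y) : log (1 + 1 / y) ≤ log (1 + 1 / x) :=
  have hy := hx.trans_le h
  log_le_log (by positivity) (by gcongr)

theorem xTail_le {x : ℝ} (hx : 0 < x) : log (1 + 1 / x) ≤ 1 / x := by
  linarith [log_le_sub_one_of_pos (show 0 < 1 + 1 / x by positivity)]

theorem xTail_r {x : ℝ} (hx : 0 < x) : |1 / x - log (1 + 1 / x)| ≤ (x ^ 2)⁻¹ / 2 := by
  rw [abs_of_nonneg (sub_nonneg.2 (xTail_le hx))]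
  have h := le_log_one_add_of_nonneg (show 0 ≤ 1 / x by positivity)
  have h2 : 1 / x - (x ^ 2)⁻¹ / 2 ≤ 2 * (1 / x) / (1 / x + 2) := by
    rw [le_div_iff₀ (by positivity), ← one_div, ← one_div_pow]
    have : 0 ≤ (1 / x) ^ 3 := by positivity
    nlinarith
  linarith

theorem xTail_far (hKL0 : StKL0) {τ α : ℝ} {A B : ℕ} (hτ : 400 ≤ τ) (h0 : 0 ≤ α)
    (hA : τ - 2 ≤ A) (hd : τ * log (1 + 1 / (A + α)) ≤ 1 - 1 / √(π * τ)) (hAB : A < B)
    (hB : 100 * τ + 1 ≤ B) :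
    ‖∑ n ∈ Ico A B, ((1 / (n + α) : ℝ) : ℂ) * ex (τ * log (n + α))‖ ≤
      (√(τ / π) + 1.01) / A + 2.001 / (2 * π * τ) := by
  have hτ0 : 0 < τ := by linarith
  have hA0 : (0 : ℝ) < A := by linarith
  have hp : ∀ n : ℕ, A ≤ n → (0 : ℝ) < n + α := fun n hn => by
    linarith [(Nat.cast_le.2 hn : (A : ℝ) ≤ n)]
  have h1 := hKL0 (fun n => τ * log (n + α)) A B (1 / √(π * τ)) (by positivity) hAB
    (fun n hn _ => by
      have := hp n hn
      rw [xTail_d τ this]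
      refine ⟨mul_pos hτ0 (log_pos (lt_add_of_pos_right _ (by positivity))), le_trans ?_ hd⟩
      exact mul_le_mul_of_nonneg_left (xTail_mono (hp A le_rfl) (by gcongr)) hτ0.le)
    (fun n hn _ => by
      rw [xTail_d τ (hp n hn), xTail_d τ (hp (n + 1) (by omega))]
      exact mul_le_mul_of_nonneg_left (xTail_mono (hp n hn) (by push_cast; linarith)) hτ0.le)
    (by
      obtain ⟨m, rfl⟩ : ∃ m, B = m + 1 := ⟨B - 1, by omega⟩
      have := hp m (by omega)
      push_cast at hB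
      rw [Nat.add_sub_cancel, xTail_d τ this]
      refine (mul_le_mul_of_nonneg_left (xTail_le this) hτ0.le).trans ?_
      rw [mul_one_div, div_le_iff₀ this]
      linarith)
  have h2 : 1 / (π * (1 / √(π * τ))) = √(τ / π) := by
    have h3 : √(π * τ) = π * √(τ / π) := by
      rw [show π * τ = π ^ 2 * (τ / π) by field_simp, sqrt_mul (sq_nonneg _), sqrt_sq pi_pos.le]
    have : 0 < √(τ / π) := by positivity
    rw [h3]
    field_simp
  rw [h2, xTail_d τ (hp A le_rfl)] at h1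
  have h3 : ∑ n ∈ Ico A B, ((1 / (n + α) : ℝ) : ℂ) * ex (τ * log (n + α)) =
      ((τ⁻¹ : ℝ) : ℂ) * ∑ n ∈ Ico A B, ((τ * log ((n + 1 : ℕ) + α) - τ * log (n + α) : ℝ) : ℂ) *
        ex (τ * log (n + α)) + ∑ n ∈ Ico A B,
        ((1 / (n + α) - log (1 + 1 / (n + α)) : ℝ) : ℂ) * ex (τ * log (n + α)) := by
    rw [mul_sum, ← sum_add_distrib]
    refine sum_congr rfl fun n hn => ?_
    rw [xTail_d τ (hp n (mem_Ico.1 hn).1), ← mul_assoc, ← add_mul, ← Complex.ofReal_mul,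
      ← Complex.ofReal_add, inv_mul_cancel_left₀ hτ0.ne', add_sub_cancel]
  have h4 : ‖∑ n ∈ Ico A B, ((1 / (n + α) - log (1 + 1 / (n + α)) : ℝ) : ℂ) *
      ex (τ * log (n + α))‖ ≤ 0.51 / A := by
    obtain ⟨m, rfl⟩ : ∃ m, A = m + 1 :=
      ⟨A - 1, (Nat.sub_add_cancel (Nat.cast_pos.1 hA0)).symm⟩
    push_cast at hA hA0 ⊢
    have hm : (0 : ℝ) < m := by linarith
    have h5 := sum_Ioc_inv_sq_le_sub (α := ℝ) (Nat.cast_pos.1 hm).ne' (show m ≤ B by omega)
    have h6 : ∑ n ∈ Ico (m + 1) B, ((n : ℝ) ^ 2)⁻¹ ≤ ∑ n ∈ Ioc m B, ((n : ℝ) ^ 2)⁻¹ :=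
      sum_le_sum_of_subset_of_nonneg (fun n hn => by
        rw [mem_Ico] at hn
        rw [mem_Ioc]
        omega) fun _ _ _ => by positivity
    have h7 : (m : ℝ)⁻¹ / 2 ≤ 0.51 / (m + 1) := by
      rw [div_le_div_iff₀ two_pos hA0, inv_mul_le_iff₀ hm]
      linarith
    have h8 : (0 : ℝ) ≤ (B : ℝ)⁻¹ := by positivity
    refine (norm_sum_le_of_le (n := fun n : ℕ => ((n : ℝ) ^ 2)⁻¹ / 2) _ fun n hn => ?_).trans ?_
    · have hn1 := (mem_Ico.1 hn).1
      have : (0 : ℝ) < n := Nat.cast_pos.2 (by omega)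
      have h9 := xTail_r (hp n hn1)
      rw [norm_mul, xTail_ex, mul_one, ← Real.norm_eq_abs, ← Complex.norm_real] at *
      push_cast at h9
      refine h9.trans ?_
      gcongr
      linarith
    · rw [← sum_div]
      linarith
  have h5 : τ⁻¹ * (τ * log (1 + 1 / (A + α)) * (√(τ / π) + 1 / 2) + 2.001 / (2 * π)) ≤
      (√(τ / π) + 1 / 2) / A + 2.001 / (2 * π * τ) := by
    have h6 : log (1 + 1 / (A + α)) ≤ 1 / A :=
      (xTail_mono hA0 (le_add_of_nonneg_right h0)).trans (xTail_le hA0)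
    have h7 := mul_le_mul_of_nonneg_right h6 (show 0 ≤ √(τ / π) + 1 / 2 by positivity)
    rw [mul_add, mul_assoc τ, inv_mul_cancel_left₀ hτ0.ne']
    refine add_le_add (h7.trans_eq (by ring)) (le_of_eq ?_)
    field_simp
  rw [h3]
  refine (norm_add_le _ _).trans ?_
  rw [norm_mul, Complex.norm_real, Real.norm_eq_abs, abs_of_pos (inv_pos.2 hτ0)]
  have h6 := mul_le_mul_of_nonneg_left h1 (inv_pos.2 hτ0).le
  have h7 : (√(τ / π) + 1.01) / A = (√(τ / π) + 1 / 2) / A + 0.51 / A := by ring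
  linarith

theorem xTail_core (hBlock : StBlock) (hKL0 : StKL0) {τ α : ℝ} {A : ℕ} (hτ : 400 ≤ τ)
    (h0 : 0 ≤ α) (h1 : α ≤ 1) (hA : 2 * √τ ≤ A) : ∀ᶠ B : ℕ in atTop,
    ‖∑ n ∈ Ico A B, ((1 / (n + α) : ℝ) : ℂ) * ex (τ * log (n + α))‖ ≤
      tailB τ A + 2.001 / (2 * π * τ) := by
  obtain ⟨A₀, h2, h3, -, h4, h5⟩ := hBlock τ α A (fun x => 1 / x) hτ h0 h1 hA
    (fun x hx y _ h => one_div_le_one_div_of_le (zero_lt_one.trans_le hx) h)
    fun x hx => by positivity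
  filter_upwards [eventually_gt_atTop A₀,
    tendsto_natCast_atTop_atTop.eventually_ge_atTop (100 * τ + 1)] with B hB hB'
  have h6 := xTail_far hKL0 hτ h0 h3 h4 hB hB'
  have h7 : (√(τ / π) + 1.01) / A₀ ≤ (√(τ / π) + 1.01) / max ((A : ℝ) - 1) (τ - 2) :=
    div_le_div_of_nonneg_left (by positivity) (lt_max_of_lt_right (by linarith))
      (max_le (by linarith [(Nat.cast_le.2 h2 : (A : ℝ) ≤ A₀)]) h3)
  rw [← sum_Ico_consecutive _ h2 hB.le, tailB]
  refine (norm_add_le _ _).trans ?_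
  simp only [mul_one_div] at h5
  linarith

theorem xTail_pow (t : ℝ) {x : ℝ} (hx : 0 < x) : (x : ℂ) ^ (-(1 + t * Complex.I)) =
    ((1 / x : ℝ) : ℂ) * ex (-t / (2 * π) * log x) := by
  have h : (x : ℂ) ≠ 0 := Complex.ofReal_ne_zero.2 hx.ne'
  rw [neg_add, Complex.cpow_add _ _ h, Complex.cpow_neg_one, Complex.cpow_def_of_ne_zero h, ex,
    ← Complex.ofReal_log hx.le, show 2 * π * (-t / (2 * π) * log x) = -t * log x by field_simp]
  push_cast
  congr 1
  · rw [one_div]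
  · ring_nf

theorem xTail_norm (t : ℝ) (S : Finset ℕ) (x : ℕ → ℝ) (hx : ∀ n ∈ S, 0 < x n) :
    ‖∑ n ∈ S, (x n : ℂ) ^ (-(1 + t * Complex.I))‖ =
      ‖∑ n ∈ S, ((1 / x n : ℝ) : ℂ) * ex (|t| / (2 * π) * log (x n))‖ := by
  rw [sum_congr rfl fun n hn => xTail_pow t (hx n hn)]
  rcases le_total t 0 with h | h
  · rw [abs_of_nonpos h]
  · rw [abs_of_nonneg h, ← Complex.norm_conj, map_sum]
    refine congrArg _ (sum_congr rfl fun n _ => ?_)
    rw [map_mul, Complex.conj_ofReal, ex, ex, ← Complex.exp_conj, map_mul, Complex.conj_ofReal,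
      Complex.conj_I]
    congr 2
    push_cast
    ring

theorem xTail_em (hEM : StEM) {t : ℝ} (ht : t ≠ 0) : ∀ᶠ N : ℕ in atTop,
    ‖riemannZeta (1 + t * Complex.I) - ∑ n ∈ Icc 1 N, (n : ℂ) ^ (-(1 + t * Complex.I))‖ ≤
      1.009 / |t| := by
  have h0 : 0 < |t| := abs_pos.2 ht
  have h1 : Tendsto (fun N : ℕ => ‖1 + t * Complex.I‖ * ‖1 + t * Complex.I + 1‖ / 24 *
      ((N : ℝ) - 1 / 2) ^ (-(2 : ℝ)) / 2) atTop (𝓝 (_ * 0 / 2)) :=
    (((tendsto_rpow_neg_atTop two_pos).comp (tendsto_atTop_add_const_right _ (-(1 / 2))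
      tendsto_natCast_atTop_atTop)).const_mul _).div_const _
  rw [mul_zero, zero_div] at h1
  filter_upwards [h1.eventually_le_const (show 0 < 0.009 / |t| by positivity),
    eventually_ge_atTop 1] with N h2 hN
  have h3 := hEM (1 + t * Complex.I) N (by simp) (by simp [ht]) hN
  have h4 : ‖((N : ℂ) + 1 / 2) ^ (1 - (1 + t * Complex.I)) / (1 + t * Complex.I - 1)‖ =
      1 / |t| := by
    rw [norm_div, show (N : ℂ) + 1 / 2 = (((N : ℝ) + 1 / 2 : ℝ) : ℂ) by push_cast; rfl,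
      Complex.norm_cpow_eq_rpow_re_of_pos (by positivity)]
    simp
  rw [show (1 + t * Complex.I).re = 1 by simp, show (-1 - 1 : ℝ) = -2 by norm_num,
    one_add_one_eq_two] at h3
  have h5 := norm_le_norm_add_norm_sub' (riemannZeta (1 + t * Complex.I) -
    ∑ n ∈ Icc 1 N, (n : ℂ) ^ (-(1 + t * Complex.I)))
    (((N : ℂ) + 1 / 2) ^ (1 - (1 + t * Complex.I)) / (1 + t * Complex.I - 1))
  have h6 : 1.009 / |t| = 1 / |t| + 0.009 / |t| := by ring
  linarith

theorem xTail_split (s : ℂ) (B : ℕ) : ∑ n ∈ Icc 1 (2 * B), (n : ℂ) ^ s =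
    ∑ j ∈ range B, ((2 * j + 1 : ℕ) : ℂ) ^ s + 2 ^ s * ∑ n ∈ Icc 1 B, (n : ℂ) ^ s := by
  induction B with
  | zero => simp
  | succ B ih =>
    have h := Complex.natCast_mul_natCast_cpow 2 (B + 1) s
    rw [← Nat.cast_mul, Nat.cast_ofNat] at h
    rw [show 2 * (B + 1) = 2 * B + 1 + 1 by ring, sum_Icc_succ_top (by omega),
      sum_Icc_succ_top (by omega), sum_Icc_succ_top (by omega), sum_range_succ, ih,
      show 2 * B + 1 + 1 = 2 * (B + 1) by ring, h]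
    ring

theorem stTail (hBlock : StBlock) (hKL0 : StKL0) (hEM : StEM) : StTail := by
  intro t A hτ hA
  have hπ : 0 < 2 * π := by positivity
  have h0 : 0 < |t| := (div_pos_iff_of_pos_right hπ).1 (by linarith)
  have hA0 : 1 ≤ A := Nat.cast_pos.1 (lt_of_lt_of_le (by positivity) hA)
  have he := xTail_em hEM (abs_pos.1 h0)
  have hc : 2 * π * (|t| / (2 * π)) = |t| := mul_div_cancel₀ _ hπ.ne'
  constructor
  · obtain ⟨N, ⟨h1, h2⟩, h3⟩ := ((he.and ((tendsto_add_atTop_nat 1).eventually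
      (xTail_core hBlock hKL0 hτ le_rfl zero_le_one hA))).and (eventually_ge_atTop A)).exists
    rw [← xTail_norm t _ (fun n => n + 0) fun n hn => by
      have : (0 : ℝ) < n := Nat.cast_pos.2 (hA0.trans (mem_Ico.1 hn).1)
      linarith, hc] at h2
    simp only [add_zero, Complex.ofReal_natCast] at h2
    rw [← Ico_add_one_right_eq_Icc, ← sum_Ico_consecutive _ hA0 (show A ≤ N + 1 by omega),
      sub_add_eq_sub_sub] at h1
    have h4 := norm_le_norm_add_norm_sub' (riemannZeta (1 + t * Complex.I) -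
      ∑ n ∈ Ico 1 A, (n : ℂ) ^ (-(1 + t * Complex.I)))
      (∑ n ∈ Ico A (N + 1), (n : ℂ) ^ (-(1 + t * Complex.I)))
    have h5 : 3.01 / |t| = 2.001 / |t| + 1.009 / |t| := by ring
    linarith
  · have h2B : Tendsto (fun B : ℕ => 2 * B) atTop atTop :=
      tendsto_id.const_mul_atTop' two_pos
    obtain ⟨B, ⟨⟨h1, h1'⟩, h2⟩, h3⟩ := (((he.and (h2B.eventually he)).and
      (xTail_core hBlock hKL0 (α := 1 / 2) hτ (by norm_num) (by norm_num) hA)).and
        (eventually_ge_atTop A)).exists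
    rw [← xTail_norm t _ (fun n => n + 1 / 2) fun n _ => by positivity, hc] at h2
    generalize hs : -(1 + t * Complex.I) = s at *
    have hn : ‖(2 : ℂ) ^ s‖ = 1 / 2 := by
      rw [← hs, ← Complex.ofReal_ofNat, Complex.norm_cpow_eq_rpow_re_of_pos two_pos]
      simp [rpow_neg_one]
    have h4 : ∑ j ∈ Ico A B, ((2 * j + 1 : ℕ) : ℂ) ^ s =
        2 ^ s * ∑ j ∈ Ico A B, (((j : ℝ) + 1 / 2 : ℝ) : ℂ) ^ s := by
      rw [mul_sum]
      refine sum_congr rfl fun j _ => ?_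
      rw [← Complex.ofReal_ofNat, ← Complex.mul_cpow_ofReal_nonneg zero_le_two (by positivity)]
      congr 1
      push_cast
      ring
    have h5 : (1 - (2 : ℂ) ^ s) * riemannZeta (1 + t * Complex.I) -
        ∑ j ∈ range A, ((2 * j + 1 : ℕ) : ℂ) ^ s =
        (riemannZeta (1 + t * Complex.I) - ∑ n ∈ Icc 1 (2 * B), (n : ℂ) ^ s) -
        2 ^ s * (riemannZeta (1 + t * Complex.I) - ∑ n ∈ Icc 1 B, (n : ℂ) ^ s) +
        2 ^ s * ∑ j ∈ Ico A B, (((j : ℝ) + 1 / 2 : ℝ) : ℂ) ^ s := by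
      rw [xTail_split, ← sum_range_add_sum_Ico _ h3, h4]
      ring
    rw [h5]
    refine (norm_add_le _ _).trans ((add_le_add (norm_sub_le _ _) le_rfl).trans ?_)
    rw [norm_mul, norm_mul, hn]
    have h6 : 2.6 / |t| = 1.009 / |t| + 1 / 2 * (1.009 / |t|) + 1 / 2 * (2.001 / |t|) +
      0.086 / |t| := by ring
    have h7 : 0 ≤ 0.086 / |t| := by positivity
    linarith

end Pool.Agent.MP_88bd62_nt.U
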