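import Pool.Agent.MP_88bd62_nt.U.AStm
import Pool.Agent.MP_88bd62_nt.U.Tail
import Pool.Agent.MP_88bd62_nt.U.KL0
import Pool.Agent.MP_88bd62_nt.U.EM1

/-! The tail of the zeta series below the first stationary point. -/

namespace Pool.Agent.MP_88bd62_nt.U.A

open Finset Real Filter Topology

theorem aTl3_H0 {d : ℝ} (h0 : 0 < d) (h1 : d < 1) : 0 ≤ 1 / π - xKL0_c d := by
  have hs := xKL0_sin h0 h1
  have hp := mul_pos pi_pos h0
  rw [sub_nonneg, xKL0_c, div_le_div_iff₀ hs pi_pos]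
  rcases lt_or_ge (π * d) (π / 2) with h | h
  · linarith [xKL0_cos hp.le h]
  · have h2 : cos (π * d) ≤ 0 := cos_nonpos_of_pi_div_two_le_of_le h (by nlinarith [pi_pos])
    nlinarith [mul_nonneg hp.le (neg_nonneg.2 h2)]

theorem aTl3_H1 {d : ℝ} (h0 : 0 < d) (h1 : d < 1) :
    1 / π - xKL0_c d ≤ π / 3 * (d ^ 2 / (1 - d ^ 2)) := by
  have hd : 0 < 1 - d ^ 2 := by nlinarith
  have hz : (d : ℂ) ∈ Complex.integerComplement := by
    rintro ⟨n, hn⟩
    have h2 : (n : ℝ) = d := by exact_mod_cast hn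
    have h3 : (0 : ℤ) < n := by exact_mod_cast (h2 ▸ h0 : (0 : ℝ) < n)
    have h4 : n < (1 : ℤ) := by exact_mod_cast (h2 ▸ h1 : (n : ℝ) < 1)
    omega
  have h2 : HasSum (fun n : ℕ => 2 * d / (1 - d ^ 2) * (1 / ((n + 1 : ℕ) : ℝ) ^ 2))
      (2 * d / (1 - d ^ 2) * (π ^ 2 / 6)) := by
    refine HasSum.mul_left _ ?_
    have := (hasSum_nat_add_iff' 1).2 hasSum_zeta_two
    simpa using this
  have h3 := tsum_of_norm_bounded h2
    (f := fun n : ℕ => (1 / ((d : ℂ) - (n + 1)) + 1 / ((d : ℂ) + (n + 1)))) fun n => by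
      have hn : (1 : ℝ) ≤ n + 1 := by linarith [(Nat.cast_nonneg n : (0 : ℝ) ≤ n)]
      have e : (1 / ((d : ℂ) - (n + 1)) + 1 / ((d : ℂ) + (n + 1))) =
          ((1 / (d - (n + 1)) + 1 / (d + (n + 1)) : ℝ) : ℂ) := by push_cast; rfl
      rw [e, Complex.norm_real, Real.norm_eq_abs]
      push_cast
      generalize (n : ℝ) + 1 = k at hn
      have hk : 0 < k ^ 2 - d ^ 2 := by nlinarith
      have e2 : 1 / (d - k) + 1 / (d + k) = -(2 * d / (k ^ 2 - d ^ 2)) := by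
        have : d - k ≠ 0 := by linarith
        have : d + k ≠ 0 := by linarith
        field_simp
        ring
      rw [e2, abs_neg, abs_of_pos (by positivity), mul_one_div, div_div]
      refine div_le_div_of_nonneg_left (by positivity) (by positivity) ?_
      nlinarith [mul_nonneg (sq_nonneg d) (show 0 ≤ k ^ 2 - 1 by nlinarith)]
  rw [← cot_series_rep' hz] at h3
  have e : (π : ℂ) * Complex.cot (π * d) - 1 / d = ((π * Real.cot (π * d) - 1 / d : ℝ) : ℂ) := by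
    push_cast; rfl
  rw [e, Complex.norm_real, Real.norm_eq_abs] at h3
  have h4 := mul_le_mul_of_nonneg_left ((neg_le_abs _).trans h3) (div_pos h0 pi_pos).le
  have hs := (xKL0_sin h0 h1).ne'
  have hp := pi_pos.ne'
  refine (le_of_eq ?_).trans (h4.trans_eq ?_)
  · rw [xKL0_c, Real.cot_eq_cos_div_sin]
    field_simp
    ring
  · field_simp
    ring

theorem aTl3_abel (a : ℕ → ℝ) (z : ℕ → ℂ) (hz : ∀ n, ‖z n‖ = 1) {A N : ℕ} (hAN : A < N)
    (h0 : ∀ n, A ≤ n → 0 ≤ a n) (h1 : ∀ n, A ≤ n → a (n + 1) ≤ a n) :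
    ‖∑ n ∈ Ico A N, (a n : ℂ) * (z (n + 1) - z n)‖ ≤ 2 * a A := by
  have key : ∀ m, A ≤ m →
      ‖∑ n ∈ Ico A (m + 1), (a n : ℂ) * (z (n + 1) - z n) - a m * z (m + 1) + a A * z A‖ ≤
        a A - a m := by
    intro m hm
    induction m, hm using Nat.le_induction with
    | base => simp [mul_sub]
    | succ m hm ih =>
      have h2 : ‖((a m - a (m + 1) : ℝ) : ℂ) * z (m + 1)‖ ≤ a m - a (m + 1) := by
        rw [norm_mul, hz, mul_one, Complex.norm_real, Real.norm_eq_abs,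
          abs_of_nonneg (sub_nonneg.2 (h1 m hm))]
      rw [sum_Ico_succ_top (by omega)]
      refine (le_of_eq (congrArg _ ?_)).trans ((norm_add_le_of_le ih h2).trans_eq (by ring))
      push_cast
      ring
  obtain ⟨m, rfl⟩ : ∃ m, N = m + 1 := ⟨N - 1, by omega⟩
  have h4 := key m (by omega)
  have h7 : ∀ a b c : ℂ, ‖a‖ ≤ ‖a - b + c‖ + ‖b‖ + ‖c‖ := fun a b c =>
    (le_of_eq (congrArg _ (by ring))).trans
      ((norm_sub_le (a - b + c + b) c).trans (add_le_add (norm_add_le _ _) le_rfl))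
  refine (h7 _ (a m * z (m + 1)) (a A * z A)).trans ?_
  rw [norm_mul, norm_mul, hz, hz, Complex.norm_real, Complex.norm_real, Real.norm_eq_abs,
    Real.norm_eq_abs, abs_of_nonneg (h0 m (by omega)), abs_of_nonneg (h0 A le_rfl)]
  linarith

noncomputable def aTl3_w (x : ℝ) : ℝ := 1 / (x * log (1 + 1 / x))

theorem aTl3_L {x : ℝ} (hx : 0 < x) : 0 < log (1 + 1 / x) :=
  log_pos (lt_add_of_pos_right _ (by positivity))

theorem aTl3_w1 {x : ℝ} (hx : 0 < x) : 1 ≤ aTl3_w x ∧ aTl3_w x ≤ 1 + 1 / (2 * x) := by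
  have hL := aTl3_L hx
  constructor
  · rw [aTl3_w, le_div_iff₀ (by positivity), one_mul]
    have := mul_le_mul_of_nonneg_left (xTail_le hx) hx.le
    rwa [mul_one_div_cancel hx.ne'] at this
  · have h := le_log_one_add_of_nonneg (show 0 ≤ 1 / x by positivity)
    rw [aTl3_w]
    refine (one_div_le_one_div_of_le (by positivity) (mul_le_mul_of_nonneg_left h hx.le)).trans_eq ?_
    field_simp
    ring

theorem aTl3_w2 {x : ℝ} (hx : 0 < x) : aTl3_w (x + 1) ≤ aTl3_w x := by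
  have hL := aTl3_L hx
  refine one_div_le_one_div_of_le (by positivity) ?_
  have h := strictConcaveOn_log_Ioi.concaveOn.2 (Set.mem_Ioi.2 one_pos)
    (Set.mem_Ioi.2 (show 0 < 1 + 1 / x by positivity)) (show 0 ≤ 1 / (x + 1) by positivity)
    (show 0 ≤ x / (x + 1) by positivity) (by field_simp; ring)
  simp only [smul_eq_mul, log_one, mul_zero, zero_add] at h
  have e : 1 / (x + 1) * 1 + x / (x + 1) * (1 + 1 / x) = 1 + 1 / (x + 1) := by
    field_simp
    ring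
  rw [e, div_mul_eq_mul_div, div_le_iff₀ (by positivity)] at h
  linarith

noncomputable def aTl3_p (τ x : ℝ) : ℝ :=
  (1 / π - xKL0_c (τ * log (1 + 1 / x))) * aTl3_w x / (2 * τ)

theorem aTl3_id {τ : ℝ} (hτ : 0 < τ) {n : ℕ} (hn : 2 ≤ n) (hd : τ * log (1 + 1 / n) < 1) :
    ((1 / n : ℝ) : ℂ) * ex (τ * log n) + Complex.I / (2 * π * τ) *
      (ex (τ * log (n + 1 : ℕ)) - ex (τ * log n)) =
    -(1 / 2) * (ex (τ * log (n + 1 : ℕ)) / (((n + 1 : ℕ) : ℂ) - 1) - ex (τ * log n) / (n - 1))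
      + ((1 / (4 * n * (n - 1)) : ℝ) : ℂ) * (ex (τ * log (n + 1 : ℕ)) - ex (τ * log n))
      + Complex.I * (((aTl3_w n / (2 * π * τ) / (2 * (n - 1)) : ℝ) : ℂ) *
        (ex (τ * log (n + 1 : ℕ)) - ex (τ * log n)))
      - Complex.I * (((aTl3_p τ n / (2 * (n - 1)) : ℝ) : ℂ) *
        (ex (τ * log (n + 1 : ℕ)) - ex (τ * log n)))
      - Complex.I * ((((aTl3_w n - 1) / (2 * π * τ) : ℝ) : ℂ) *
        (ex (τ * log (n + 1 : ℕ)) - ex (τ * log n)))
      + Complex.I * (((aTl3_p τ n : ℝ) : ℂ) * (ex (τ * log (n + 1 : ℕ)) - ex (τ * log n))) := by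
  have h2 : (2 : ℝ) ≤ n := by exact_mod_cast hn
  have h0 : (0 : ℝ) < n := by linarith
  have hL := aTl3_L h0
  have e := xTail_d τ (α := 0) (n := n) (by linarith)
  simp only [add_zero] at e
  have h := xKL0_step (τ * log n) (y := τ * log (n + 1 : ℕ)) (by rw [e]; positivity)
    (by rw [e]; exact hd)
  rw [e, xKL0_b] at h
  rw [aTl3_p, aTl3_w]
  generalize xKL0_c (τ * log (1 + 1 / n)) = c at *
  generalize log (1 + 1 / (n : ℝ)) = L at *
  generalize ex (τ * log (n + 1 : ℕ)) = f at *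
  generalize ex (τ * log n) = g at *
  have a1 : (L : ℂ) ≠ 0 := Complex.ofReal_ne_zero.2 hL.ne'
  have a2 : (τ : ℂ) ≠ 0 := Complex.ofReal_ne_zero.2 hτ.ne'
  have a3 : (π : ℂ) ≠ 0 := Complex.ofReal_ne_zero.2 pi_pos.ne'
  have a4 : (n : ℂ) ≠ 0 := Nat.cast_ne_zero.2 (by omega)
  have a5 : (n : ℂ) - 1 ≠ 0 := sub_ne_zero.2 (Nat.cast_ne_one.2 (by omega))
  push_cast at h ⊢
  rw [add_sub_cancel_right]
  have h' : g / n = (-(1 / (2 * n)) - Complex.I * (c / (2 * τ * n * L))) * (f - g) := by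
    field_simp
    linear_combination 2 * h
  have h'' : g / (n - 1) = g / n + g / n / (n - 1) := by
    field_simp
    ring
  have h3 : f / n = g / n + (f - g) / n := by ring
  rw [h'', h3, one_div_mul_eq_div, h']
  generalize f - g = D
  field_simp
  ring

theorem aTl3_tel (z : ℕ → ℂ) {A N : ℕ} (h : A ≤ N) :
    ∑ n ∈ Ico A N, (z (n + 1) - z n) = z N - z A := by
  rw [sum_Ico_eq_sub _ h, sum_range_sub, sum_range_sub]
  ring

theorem aTl3_core {τ : ℝ} {A N : ℕ} (hτ : 300 ≤ τ) (hA : 10 ^ 6 ≤ A) (hy : τ / A ≤ 0.993)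
    (hAN : A < N) :
    ‖∑ n ∈ Ico A N, ((1 / n : ℝ) : ℂ) * ex (τ * log n) + Complex.I / (2 * π * τ) *
      (ex (τ * log N) - ex (τ * log A))‖ ≤
      (0.51 + 1.05 * (τ / A) / (1 - (τ / A) ^ 2)) / A + 1 / (2 * ((N : ℝ) - 1)) := by
  have hτ0 : 0 < τ := by linarith
  have hA1 : (1000000 : ℝ) ≤ A := by exact_mod_cast hA
  have hA0 : (0 : ℝ) < A := by linarith
  have hT : 1800 ≤ 2 * π * τ := by nlinarith [pi_gt_three]
  have hp : ∀ n : ℕ, A ≤ n → (1000000 : ℝ) ≤ n := fun n hn => hA1.trans (Nat.cast_le.2 hn)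
  have hp0 : ∀ n : ℕ, A ≤ n → (0 : ℝ) < n := fun n hn => by linarith [hp n hn]
  have hp1 : ∀ n : ℕ, A ≤ n → (0 : ℝ) < n - 1 := fun n hn => by linarith [hp n hn]
  have hdA : τ * log (1 + 1 / A) ≤ τ / A := by
    rw [← mul_one_div τ]
    exact mul_le_mul_of_nonneg_left (xTail_le hA0) hτ0.le
  have hd0 : ∀ n : ℕ, A ≤ n → 0 < τ * log (1 + 1 / n) := fun n hn =>
    mul_pos hτ0 (aTl3_L (hp0 n hn))
  have hd1 : ∀ n : ℕ, A ≤ n → τ * log (1 + 1 / n) < 1 := fun n hn => by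
    have := mul_le_mul_of_nonneg_left (xTail_mono hA0 (Nat.cast_le.2 hn : (A : ℝ) ≤ n)) hτ0.le
    linarith
  have hw0 : ∀ n : ℕ, A ≤ n → 1 ≤ aTl3_w n := fun n hn => (aTl3_w1 (hp0 n hn)).1
  have hw2 : ∀ n : ℕ, A ≤ n → aTl3_w (n + 1 : ℕ) ≤ aTl3_w n := fun n hn => by
    push_cast
    exact aTl3_w2 (hp0 n hn)
  have hq0 : ∀ n : ℕ, A ≤ n → 0 ≤ aTl3_p τ n := fun n hn =>
    div_nonneg (mul_nonneg (aTl3_H0 (hd0 n hn) (hd1 n hn)) (by linarith [hw0 n hn])) (by positivity)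
  have hq2 : ∀ n : ℕ, A ≤ n → aTl3_p τ (n + 1 : ℕ) ≤ aTl3_p τ n := fun n hn => by
    have h1 := xKL0_anti ⟨hd0 (n + 1) (by omega), hd1 (n + 1) (by omega)⟩ ⟨hd0 n hn, hd1 n hn⟩
      (mul_le_mul_of_nonneg_left (xTail_mono (hp0 n hn) (by push_cast; linarith)) hτ0.le)
    refine div_le_div_of_nonneg_right ?_ (by positivity)
    exact mul_le_mul (by linarith) (hw2 n hn) (by linarith [hw0 (n + 1) (by omega)])
      (aTl3_H0 (hd0 n hn) (hd1 n hn))
  have hm : ∀ n : ℕ, (n : ℝ) - 1 ≤ ((n + 1 : ℕ) : ℝ) - 1 := fun n => by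
    push_cast
    linarith
  have hz : ∀ n : ℕ, ‖ex (τ * log n)‖ = 1 := fun n => xTail_ex _
  have s1 := aTl3_abel (fun n => 1 / (4 * n * (n - 1))) (fun n => ex (τ * log n)) hz hAN
    (fun n hn => by have := hp0 n hn; have := hp1 n hn; positivity) fun n hn => by
      have := hp0 n hn
      have := hp1 n hn
      refine one_div_le_one_div_of_le (by positivity) ?_
      push_cast
      nlinarith
  have s2 := aTl3_abel (fun n => aTl3_w n / (2 * π * τ) / (2 * (n - 1))) (fun n => ex (τ * log n))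
    hz hAN (fun n hn => by
      have := hp1 n hn
      have : 0 ≤ aTl3_w n := by linarith [hw0 n hn]
      positivity) fun n hn => by
      have := hp1 n hn
      have : 0 ≤ aTl3_w n := by linarith [hw0 n hn]
      exact div_le_div₀ (by positivity) (div_le_div_of_nonneg_right (hw2 n hn) (by positivity))
        (by positivity) (by linarith [hm n])
  have s3 := aTl3_abel (fun n => aTl3_p τ n / (2 * (n - 1))) (fun n => ex (τ * log n))
    hz hAN (fun n hn => by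
      have := hp1 n hn
      have := hq0 n hn
      positivity) fun n hn => by
      have := hp1 n hn
      exact div_le_div₀ (hq0 n hn) (hq2 n hn) (by positivity) (by linarith [hm n])
  have s4 := aTl3_abel (fun n => (aTl3_w n - 1) / (2 * π * τ)) (fun n => ex (τ * log n))
    hz hAN (fun n hn => div_nonneg (sub_nonneg.2 (hw0 n hn)) (by positivity)) fun n hn =>
      div_le_div_of_nonneg_right (by linarith [hw2 n hn]) (by positivity)
  have s5 := aTl3_abel (fun n => aTl3_p τ n) (fun n => ex (τ * log n)) hz hAN hq0 hq2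
  have s0 : ‖ex (τ * log N) / ((N : ℂ) - 1) - ex (τ * log A) / ((A : ℂ) - 1)‖ ≤
      1 / ((N : ℝ) - 1) + 1 / ((A : ℝ) - 1) := by
    have h : ∀ n : ℕ, A ≤ n → ‖ex (τ * log n) / ((n : ℂ) - 1)‖ = 1 / ((n : ℝ) - 1) := fun n hn => by
      rw [norm_div, hz, show (n : ℂ) - 1 = (((n : ℝ) - 1 : ℝ) : ℂ) by push_cast; rfl,
        Complex.norm_real, Real.norm_eq_abs, abs_of_pos (hp1 n hn)]
    rw [← h N hAN.le, ← h A le_rfl]
    exact norm_sub_le _ _
  rw [← aTl3_tel (fun n => ex (τ * log n) / ((n : ℂ) - 1)) hAN.le] at s0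
  rw [← aTl3_tel (fun n => ex (τ * log n)) hAN.le, mul_sum, ← sum_add_distrib,
    sum_congr rfl fun n hn => aTl3_id hτ0 (by have := (mem_Ico.1 hn).1; omega)
      (hd1 n (mem_Ico.1 hn).1)]
  simp only [sum_add_distrib, sum_sub_distrib (f := fun _ => _ + _),
    sum_sub_distrib (f := fun _ => _ + _ - _), ← mul_sum]
  have key : ∀ a b c d e f : ℂ, ‖-(1 / 2) * a + b + Complex.I * c - Complex.I * d - Complex.I * e
      + Complex.I * f‖ ≤ 1 / 2 * ‖a‖ + ‖b‖ + ‖c‖ + ‖d‖ + ‖e‖ + ‖f‖ := fun a b c d e f => by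
    have hI : ∀ x : ℂ, ‖Complex.I * x‖ ≤ ‖x‖ := fun x => by simp
    refine norm_add_le_of_le (norm_sub_le_of_le (norm_sub_le_of_le (norm_add_le_of_le
      (norm_add_le_of_le ?_ le_rfl) (hI _)) (hI _)) (hI _)) (hI _)
    simp
  refine (key _ _ _ _ _ _).trans ?_
  have b0 : 1 / ((A : ℝ) - 1) ≤ 1.000002 / A := by
    rw [div_le_div_iff₀ (hp1 A le_rfl) hA0]
    linarith
  have hw := (aTl3_w1 hA0).2
  have hi : 1 / (2 * (A : ℝ)) ≤ 0.000001 := by
    rw [div_le_iff₀ (by positivity)]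
    linarith
  have b1 : 2 * (1 / (4 * (A : ℝ) * (A - 1))) ≤ 0.001 / A := by
    rw [mul_one_div, div_le_div_iff₀ (by have := hp1 A le_rfl; positivity) hA0]
    nlinarith
  have b2 : 2 * (aTl3_w A / (2 * π * τ) / (2 * (A - 1))) ≤ 0.001 / A := by
    have h1 : aTl3_w A / (2 * π * τ) ≤ 0.0006 := by
      rw [div_le_iff₀ (by positivity)]
      linarith
    have h2 := mul_le_mul h1 b0 (by have := hp1 A le_rfl; positivity) (by norm_num)
    have h3 : 0 ≤ 1 / (A : ℝ) := by positivity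
    refine (le_of_eq ?_).trans (h2.trans ?_)
    · have := (hp1 A le_rfl).ne'
      field_simp
    · rw [← mul_one_div, ← mul_one_div 0.001]
      linarith
  have b4 : 2 * ((aTl3_w A - 1) / (2 * π * τ)) ≤ 0.001 / A := by
    have h1 : (aTl3_w A - 1) / (2 * π * τ) ≤ 1 / (2 * A) / 1800 :=
      div_le_div₀ (by positivity) (by linarith) (by norm_num) hT
    have h3 : 0 ≤ 1 / (A : ℝ) := by positivity
    have h4 : 1 / (2 * (A : ℝ)) = 1 / 2 * (1 / A) := by field_simp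
    rw [← mul_one_div 0.001]
    linarith
  have b5 : 2 * aTl3_p τ A ≤ 1.0472 * ((τ / A) / (1 - (τ / A) ^ 2)) / A := by
    have h1 := aTl3_H1 (hd0 A le_rfl) (hd1 A le_rfl)
    have h2 := hd0 A le_rfl
    have h3 : 2 * aTl3_p τ A = (1 / π - xKL0_c (τ * log (1 + 1 / A))) / (τ * log (1 + 1 / A)) / A := by
      have := (aTl3_L hA0).ne'
      rw [aTl3_p, aTl3_w]
      field_simp
    rw [h3]
    generalize τ * log (1 + 1 / A) = d at *
    generalize τ / A = y at *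
    refine div_le_div_of_nonneg_right ?_ hA0.le
    rw [div_le_iff₀ h2]
    refine h1.trans ?_
    have h4 : 0 < 1 - y ^ 2 := by nlinarith
    have h5 : d / (1 - d ^ 2) ≤ y / (1 - y ^ 2) := div_le_div₀ (by linarith) hdA h4 (by nlinarith)
    have h6 : 0 ≤ d / (1 - d ^ 2) := div_nonneg h2.le (by nlinarith)
    have h7 : π / 3 ≤ 1.0472 := by linarith [pi_lt_d4]
    have h8 := mul_le_mul_of_nonneg_right (mul_le_mul h7 h5 h6 (by norm_num)) h2.le
    exact (le_of_eq (by ring)).trans h8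
  have b3 : 2 * (aTl3_p τ A / (2 * (A - 1))) ≤ 0.001 * (2 * aTl3_p τ A) := by
    have h1 : 1 / (2 * ((A : ℝ) - 1)) ≤ 0.001 := by
      rw [div_le_iff₀ (by have := hp1 A le_rfl; positivity)]
      linarith
    have h2 := mul_le_mul_of_nonneg_left h1 (hq0 A le_rfl)
    rw [mul_one_div] at h2
    linarith
  have c0 : 0 ≤ (τ / A) / (1 - (τ / A) ^ 2) / A := by
    have h0 : 0 < τ / A := by positivity
    exact div_nonneg (div_nonneg h0.le (by nlinarith)) hA0.le
  have c1 : (0.51 + 1.05 * (τ / A) / (1 - (τ / A) ^ 2)) / A =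
      0.51 * (1 / A) + 1.05 * ((τ / A) / (1 - (τ / A) ^ 2) / A) := by ring
  have c2 : 1 / (2 * ((N : ℝ) - 1)) = 1 / 2 * (1 / ((N : ℝ) - 1)) := by
    have := (hp1 N hAN.le).ne'
    field_simp
  have c3 : 0 ≤ 1 / (A : ℝ) := by positivity
  rw [mul_div_assoc] at b5
  rw [← mul_one_div 1.000002] at b0
  rw [← mul_one_div 0.001] at b1 b2 b4
  rw [c1, c2]
  linarith

theorem aTl3_pow (t : ℝ) {x : ℝ} (hx : 0 < x) :
    (x : ℂ) ^ (-(t * Complex.I)) = ex (-t / (2 * π) * log x) := by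
  have h : (x : ℂ) ≠ 0 := Complex.ofReal_ne_zero.2 hx.ne'
  rw [Complex.cpow_def_of_ne_zero h, ex, ← Complex.ofReal_log hx.le,
    show 2 * π * (-t / (2 * π) * log x) = -t * log x by field_simp]
  push_cast
  ring_nf

theorem aTl3_conj (x : ℝ) : (starRingEnd ℂ) (ex (-x)) = ex x := by
  rw [ex, ex, ← Complex.exp_conj, map_mul, Complex.conj_ofReal, Complex.conj_I]
  congr 1
  push_cast
  ring

theorem aTl3_norm {t : ℝ} (ht : t ≠ 0) {A N : ℕ} (hA : 0 < A) (hAN : A < N) :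
    ‖∑ n ∈ Ico A N, (n : ℂ) ^ (-(1 + t * Complex.I)) +
      ((N : ℂ) ^ (-(t * Complex.I)) / (t * Complex.I) -
        (A : ℂ) ^ (-(t * Complex.I)) / (t * Complex.I))‖ =
    ‖∑ n ∈ Ico A N, ((1 / n : ℝ) : ℂ) * ex (|t| / (2 * π) * log n) +
      Complex.I / (2 * π * (|t| / (2 * π) : ℝ)) *
      (ex (|t| / (2 * π) * log N) - ex (|t| / (2 * π) * log A))‖ := by
  have h1 := aTl3_pow t (x := N) (Nat.cast_pos.2 (hA.trans hAN))
  have h2 := aTl3_pow t (x := A) (Nat.cast_pos.2 hA)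
  have h3 : ∀ n ∈ Ico A N, (n : ℂ) ^ (-(1 + t * Complex.I)) =
      ((1 / n : ℝ) : ℂ) * ex (-t / (2 * π) * log n) := fun n hn =>
    xTail_pow t (x := n) (Nat.cast_pos.2 (hA.trans_le (mem_Ico.1 hn).1))
  rw [Complex.ofReal_natCast] at h1 h2
  rw [h1, h2, sum_congr rfl h3]
  have a2 : (t : ℂ) ≠ 0 := Complex.ofReal_ne_zero.2 ht
  have a3 : (π : ℂ) ≠ 0 := Complex.ofReal_ne_zero.2 pi_pos.ne'
  rcases le_total t 0 with h | h
  · rw [abs_of_nonpos h]
    congr 2
    push_cast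
    field_simp
    rw [Complex.I_sq]
    ring
  · rw [abs_of_nonneg h, ← Complex.norm_conj, map_add, map_sum]
    simp only [neg_div, neg_mul, map_mul, map_sub, map_div₀, aTl3_conj, Complex.conj_ofReal,
      Complex.conj_I]
    congr 2
    push_cast
    field_simp
    rw [Complex.I_sq]
    ring

theorem stTl3 (hKL0 : StKL0) (hEM : StEM) : StTl3 := by
  intro t A ht hA hy
  have hπ : 0 < 2 * π := by positivity
  have h0 : 0 < |t| := by linarith
  have hA1 : 0 < A := lt_of_lt_of_le (by norm_num) hA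
  have hA0 : (0 : ℝ) < A := Nat.cast_pos.2 hA1
  have hτ : 300 ≤ |t| / (2 * π) := by
    rw [le_div_iff₀ hπ]
    linarith [pi_lt_d2]
  have hy' : |t| / (2 * π) / A ≤ 0.993 := by
    rw [div_div, div_le_iff₀ (by positivity)]
    exact hy
  obtain ⟨N, hN⟩ := exists_nat_ge ((A : ℝ) * (100 + (|t| + 6) ^ 2) + 1000)
  have hs : 0 ≤ (|t| + 6) ^ 2 := sq_nonneg _
  have hAs : 0 ≤ (A : ℝ) * (|t| + 6) ^ 2 := by positivity
  have hAN : A < N := by
    have : (A : ℝ) < N := by nlinarith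
    exact_mod_cast this
  have hN0 : (0 : ℝ) < N := Nat.cast_pos.2 (hA1.trans hAN)
  have h1 := stEM1 hEM t N (abs_pos.1 h0) (by
    have : (1000 : ℝ) ≤ N := by nlinarith
    exact_mod_cast this)
  have h2 := aTl3_core hτ hA hy' hAN
  rw [← aTl3_norm (abs_pos.1 h0) hA1 hAN, div_div] at h2
  have h3 : ‖(N : ℂ) ^ (-(1 + t * Complex.I)) / 2‖ = 1 / (2 * N) := by
    have := xTail_pow t hN0
    rw [Complex.ofReal_natCast] at this
    rw [this, norm_div, norm_mul, xTail_ex, Complex.norm_real, Real.norm_eq_abs,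
      abs_of_pos (by positivity), Complex.norm_ofNat]
    field_simp
  rw [← sum_Ico_consecutive _ hA1 hAN.le] at h1
  have h4 := norm_add_le_of_le (norm_add_le_of_le h1 h3.le) h2
  refine (le_of_eq (congrArg _ (by ring))).trans (h4.trans ?_)
  have b1 : (|t| + 6) ^ 2 / (47 * (N : ℝ) ^ 2) ≤ 0.01 / A := by
    rw [div_le_div_iff₀ (by positivity) hA0]
    have : (1000 : ℝ) ≤ N := by nlinarith
    nlinarith
  have b2 : 1 / (2 * (N : ℝ)) ≤ 0.01 / A := by
    rw [div_le_div_iff₀ (by positivity) hA0]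
    nlinarith
  have b3 : 1 / (2 * ((N : ℝ) - 1)) ≤ 0.01 / A := by
    rw [div_le_div_iff₀ (by nlinarith) hA0]
    nlinarith
  have c : ∀ x : ℝ, (0.55 + x) / A = (0.51 + x) / A + 4 * (0.01 / A) := fun x => by ring
  have c3 : 0 ≤ 0.01 / (A : ℝ) := by positivity
  rw [c]
  linarith

end Pool.Agent.MP_88bd62_nt.U.A
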