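import Pool.Agent.MP_88bd62_nt.U.AStm

/-! Packed integer polynomials. -/

namespace Pool.Agent.MP_88bd62_nt.U.A

open Finset Real Polynomial
open Pool.Agent.MP_22d5c4_co.K (dig ones dig_lt dig_ones)

theorem aUni_mod (B : ℤ) (n : ℕ) : ∀ D : ℤ[X], (∀ i < n, |D.coeff i| < B) → B ^ n ∣ D.eval B →
    ∀ i < n, D.coeff i = 0 := by
  induction n with
  | zero => intro D _ _ i hi; omega
  | succ n ih =>
    intro D h1 h2
    have e : D.eval B = B * D.divX.eval B + D.coeff 0 := by
      conv_lhs => rw [← D.X_mul_divX_add]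
      simp
    have hB : B ≠ 0 := ((abs_nonneg _).trans_lt (h1 0 n.succ_pos)).ne'
    have h0 : D.coeff 0 = 0 := by
      refine Int.eq_zero_of_abs_lt_dvd ?_ (h1 0 n.succ_pos)
      have := (dvd_pow_self B n.succ_ne_zero).trans h2
      rwa [e, dvd_add_right (dvd_mul_right _ _)] at this
    rw [e, h0, add_zero, pow_succ', mul_dvd_mul_iff_left hB] at h2
    have h3 := ih D.divX (fun i hi => by rw [coeff_divX]; exact h1 _ (by omega)) h2
    intro i hi
    rcases i with _ | i
    · exact h0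
    · rw [← coeff_divX]; exact h3 i (by omega)

theorem aUni_sum (K x n : ℕ) : ∑ j ∈ range n, dig K x j * (2 ^ K) ^ j = x % 2 ^ (K * n) := by
  induction n with
  | zero => simp [Nat.mod_one]
  | succ n ih =>
    rw [sum_range_succ, ih, Nat.mul_succ, pow_add, Nat.mod_mul, ← pow_mul, mul_comm (dig K x n)]
    rfl

theorem aUni_ones {K : ℕ} (hK : 0 < K) (n : ℕ) : ∑ j ∈ range n, (2 ^ K) ^ j = ones K n := by
  rw [Nat.geomSum_eq (Nat.one_lt_two_pow hK.ne'), ← pow_mul]; rfl

theorem aUni_geo (K n : ℕ) : (2 ^ K - 1) * ones K n + 1 = 2 ^ (K * n) := by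
  rw [ones, Nat.mul_div_cancel' (by rw [pow_mul]; exact Nat.sub_one_dvd_pow_sub_one _ _)]
  exact Nat.sub_add_cancel Nat.one_le_two_pow

theorem aUni_div {K : ℕ} (hK : 1 < 2 ^ K - 1) (n : ℕ) : 2 ^ (K * n) / (2 ^ K - 1) = ones K n := by
  rw [← aUni_geo, Nat.mul_add_div (by omega), Nat.div_eq_of_lt hK, add_zero]

theorem aUni_land (K a c i : ℕ) : dig K (a &&& c) i = dig K a i &&& dig K c i := by
  unfold dig
  rw [Nat.and_div_two_pow, Nat.and_mod_two_pow]

theorem aUni_hi {K : ℕ} (hK : 0 < K) (n x r : ℕ) (hr : r ≤ K)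
    (h : x &&& (ones K n * (2 ^ K - 2 ^ r)) = 0) : ∀ i < n, dig K x i < 2 ^ r := by
  intro i hi
  have h1 := aUni_land K x (ones K n * (2 ^ K - 2 ^ r)) i
  rw [h, mul_comm, dig_ones hK (Nat.sub_lt (by positivity) (by positivity)) n i hi] at h1
  have h2 : dig K 0 i = 0 := by simp [dig]
  refine Nat.lt_pow_two_of_testBit _ fun j hj => ?_
  by_cases hj' : j < K
  · have h3 := congrArg (fun y => y.testBit j) (h2.symm.trans h1)
    have e : 2 ^ K - 2 ^ r = (2 ^ (K - r) - 1) * 2 ^ r := by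
      rw [Nat.sub_mul, ← pow_add, one_mul, Nat.sub_add_cancel hr]
    have h4 : j - r < K - r := by omega
    simpa [e, Nat.testBit_mul_two_pow, Nat.testBit_two_pow_sub_one, hj, h4] using h3
  · exact Nat.testBit_lt_two_pow
      ((dig_lt K x i).trans_le (Nat.pow_le_pow_right two_pos (not_lt.1 hj')))

theorem aUni_mid {K : ℕ} (hK : 0 < K) (n x s t : ℕ) (h : s + t ≤ K) :
    (x >>> s) &&& (ones K n * (2 ^ t - 1)) < 2 ^ (K * n) ∧
    ∀ i < n, dig K ((x >>> s) &&& (ones K n * (2 ^ t - 1))) i = dig K x i / 2 ^ s % 2 ^ t := by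
  have h1 : 2 ^ t ≤ 2 ^ K := Nat.pow_le_pow_right two_pos (by omega)
  have h2 : 0 < 2 ^ t := by positivity
  refine ⟨Nat.and_le_right.trans_lt ?_, fun i hi => ?_⟩
  · rw [← aUni_geo, mul_comm]
    exact Nat.lt_succ_of_le (Nat.mul_le_mul_right _ (by omega))
  · rw [aUni_land, mul_comm, dig_ones hK (by omega) n i hi, Nat.and_two_pow_sub_one_eq_mod]
    refine Nat.eq_of_testBit_eq fun j => ?_
    simp only [dig, Nat.testBit_mod_two_pow, Nat.testBit_div_two_pow, Nat.testBit_shiftRight]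
    by_cases hj : j < t
    · have h3 : j < K := by omega
      have h4 : j + s < K := by omega
      simp only [hj, h3, h4, decide_true, Bool.true_and]
      congr 1
      ring
    · simp [hj]

theorem aUni_tpc (n x : ℕ) (o : ℤ) (i : ℕ) :
    (tp n x o).coeff i = if i < n then (dig 80 x i : ℤ) - o else 0 := by
  simp only [tp, finsetSum_coeff, coeff_monomial, sum_ite_eq', mem_range]

theorem aUni_tpv (n x : ℕ) (o : ℤ) :
    vl (tp n x o) = (x % 2 ^ (80 * n) : ℕ) - o * ones 80 n := by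
  rw [← aUni_sum, ← aUni_ones (by norm_num)]
  simp only [vl, tp, eval_finsetSum, eval_monomial, Nat.cast_sum, Nat.cast_mul, Nat.cast_pow,
    Nat.cast_ofNat, sub_mul, sum_sub_distrib, mul_sum]

theorem aUni_lp (l : List ℤ) : vl (lp l) = l.foldr (fun c v => c + 2 ^ 80 * v) 0 ∧
    L1 (lp l) ((l.map fun c => |c|).sum : ℤ) ∧ ∀ i, (lp l).coeff i = l.getD i 0 := by
  induction l with
  | nil => simp [vl, lp, L1]
  | cons c l ih =>
    obtain ⟨h1, h2, h3⟩ := ih
    have e : lp (c :: l) = C c + X * lp l := rfl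
    have e0 : (lp (c :: l)).coeff 0 = c := by simp [e]
    have e1 : ∀ i, (lp (c :: l)).coeff (i + 1) = (lp l).coeff i := fun i => by
      rw [e, coeff_add, coeff_C_succ, coeff_X_mul, zero_add]
    refine ⟨?_, fun n => ?_, fun i => ?_⟩
    · rw [List.foldr_cons, ← h1, e]
      simp only [vl, eval_add, eval_C, eval_mul, eval_X]
    · rw [List.map_cons, List.sum_cons, Int.cast_add, Int.cast_abs]
      rcases n with _ | n
      · have := h2 0
        rw [sum_range_zero] at this ⊢
        positivity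
      · rw [sum_range_succ', e0, add_comm]
        simp only [e1]
        exact add_le_add le_rfl (h2 n)
    · rcases i with _ | i
      · exact e0
      · rw [e1, h3]; rfl

theorem stUni : StUni := by
  refine ⟨fun P Q h1 h2 => ?_, fun P n y _ h1 h2 i hi => ?_,
    fun n x o => ⟨aUni_tpc n x o, fun h => ?_⟩, fun n => ⟨?_, fun i => ?_, ?_, ?_⟩,
    aUni_hi (by norm_num), aUni_mid (by norm_num), aUni_lp⟩
  · ext i
    refine sub_eq_zero.1 ((coeff_sub P Q i).symm.trans (aUni_mod (2 ^ 80) (i + 1) (P - Q)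
      (fun j _ => by rw [coeff_sub]; exact h1 j) ?_ i i.lt_succ_self))
    rw [eval_sub, show P.eval (2 ^ 80) = Q.eval (2 ^ 80) from h2, sub_self]
    exact dvd_zero _
  · have := aUni_mod (2 ^ 80) n (P - tp n y 0)
      (fun j hj => by rw [coeff_sub, aUni_tpc, if_pos hj, sub_zero]; exact h1 j hj) ?_ i hi
    · rwa [coeff_sub, aUni_tpc, if_pos hi, sub_zero, sub_eq_zero] at this
    · rw [eval_sub, ← pow_mul]
      refine Int.ModEq.dvd (a := vl (tp n y 0)) (b := vl P) ?_
      rw [aUni_tpv, zero_mul, sub_zero]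
      refine Int.ModEq.trans ?_ h2.symm
      rw [Int.natCast_mod, Nat.cast_pow, Nat.cast_ofNat]
      exact Int.mod_modEq _ _
  · rw [aUni_tpv, Nat.mod_eq_of_lt h]
  · rw [← aUni_ones (by norm_num)]
    simp only [vl, onp, eval_finsetSum, eval_pow, eval_X, Nat.cast_sum, Nat.cast_pow,
      Nat.cast_ofNat]
  · simp [onp, coeff_X_pow]
  · exact mul_neg_geom_sum X n
  · exact aUni_div (by norm_num) n

end Pool.Agent.MP_88bd62_nt.U.A
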