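import Pool.Agent.MP_88bd62_nt.U.AStm

/-! Moments of the inverse of zeta over the first band and over its sixteen windows. -/

namespace Pool.Agent.MP_88bd62_nt.U.A

open Finset Real

theorem aWin_mem (N : ℕ) (k : ℤ) : k ∈ Kset N ↔ -(2 * N : ℤ) < k ∧ k < 2 * N ∧ k % 2 = 1 := by
  rw [Kset, mem_filter, mem_Ioo, Int.odd_iff, and_assoc]

theorem aWin_sum (g : ℤ → ℝ) (N : ℕ) :
    ∑ k ∈ Kset N, g k = ∑ m ∈ range N, (g (2 * (m : ℤ) + 1) + g (-(2 * (m : ℤ) + 1))) := by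
  induction N with
  | zero =>
    rw [sum_range_zero]
    refine sum_eq_zero fun k hk => ?_
    rw [aWin_mem] at hk
    omega
  | succ N ih =>
    have e : Kset (N + 1) = insert (2 * (N : ℤ) + 1) (insert (-(2 * (N : ℤ) + 1)) (Kset N)) := by
      ext k
      rw [mem_insert, mem_insert, aWin_mem, aWin_mem]
      omega
    have h1 : (-(2 * (N : ℤ) + 1)) ∉ Kset N := by
      rw [aWin_mem]; omega
    have h2 : (2 * (N : ℤ) + 1) ∉ insert (-(2 * (N : ℤ) + 1)) (Kset N) := by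
      rw [mem_insert, aWin_mem]; omega
    rw [e, sum_insert h2, sum_insert h1, ih, sum_range_succ]
    ring

theorem aWin_neg (k : ℤ) : yz (-k) = yz k := by
  have e : sk (-k) = (starRingEnd ℂ) (sk k) := by
    have : tk (-k) = -tk k := by
      simp only [tk]; push_cast; ring
    simp [sk, this]
  rw [yz, yz, e, riemannZeta_conj, Complex.norm_conj]

theorem aWin_sh (k : ℤ) (hk : k ≠ 0) : ‖sh k‖ ≤ 1 / (π * |(k : ℝ)|) := by
  have hk' : (0 : ℝ) < |(k : ℝ)| := abs_pos.2 (by exact_mod_cast hk)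
  rw [sh, norm_div, norm_one]
  refine one_div_le_one_div_of_le (mul_pos pi_pos hk') ?_
  refine le_trans (le_of_eq ?_) (Complex.abs_im_le_norm _)
  rw [Complex.add_im, Complex.ofReal_im, Complex.mul_I_im, Complex.ofReal_re, zero_add, abs_mul,
    abs_of_pos pi_pos]

theorem aWin_harm (N : ℕ) (hN : 2 ≤ N) :
    ∑ m ∈ range N, 1 / (2 * (m : ℝ) + 1) ≤ 4 / 3 + (log N - log 2) / 2 := by
  induction N, hN using Nat.le_induction with
  | base => norm_num [sum_range_succ]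
  | succ N hN ih =>
    have hp : (0 : ℝ) < N := by exact_mod_cast (by omega : 0 < N)
    have h1 := le_log_one_add_of_nonneg (x := 1 / (N : ℝ)) (by positivity)
    have e1 : 1 + 1 / (N : ℝ) = (N + 1) / N := by field_simp
    have e2 : 2 * (1 / (N : ℝ)) / (1 / N + 2) = 2 * (1 / (2 * N + 1)) := by
      field_simp
      ring
    rw [e1, e2, log_div (by positivity) hp.ne'] at h1
    rw [sum_range_succ]
    push_cast
    linarith

theorem aWin_harm20 (N : ℕ) (hN : N = 2 ^ 20) :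
    ∑ m ∈ range N, 1 / (2 * (m : ℝ) + 1) ≤ 7.92 := by
  have h1 := aWin_harm N (by rw [hN]; norm_num)
  have h2 : log N = 20 * log 2 := by
    rw [hN, Nat.cast_pow, log_pow]
    norm_num
  have h3 := log_two_lt_d9
  rw [h2] at h1
  linarith

theorem aWin_mom (N : ℕ) (p : ℝ → ℝ) (a b A B : ℝ) (hp0 : ∀ k, 0 ≤ p (yz k))
    (hp : ∀ k, p (yz k) ≤ a * yz k ^ 4 + b) (ha : 0 ≤ a) (hb : 0 ≤ b)
    (hA : ∑ m ∈ range N, yz (2 * (m : ℕ) + 1) ^ 4 / (2 * (m : ℝ) + 1) ≤ A)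
    (hB : ∑ m ∈ range N, 1 / (2 * (m : ℝ) + 1) ≤ B) (hA0 : 0 ≤ A) (hB0 : 0 ≤ B) :
    ∑ k ∈ Kset N, ‖sh k‖ * p (yz k) ≤ 0.6367 * (a * A + b * B) := by
  rw [aWin_sum]
  have h1 : ∀ m ∈ range N, ‖sh (2 * (m : ℤ) + 1)‖ * p (yz (2 * (m : ℤ) + 1)) +
      ‖sh (-(2 * (m : ℤ) + 1))‖ * p (yz (-(2 * (m : ℤ) + 1))) ≤
      2 / π * (a * (yz (2 * (m : ℕ) + 1) ^ 4 / (2 * (m : ℝ) + 1)) +
        b * (1 / (2 * (m : ℝ) + 1))) := by
    intro m _
    have hm : (0 : ℝ) < 2 * (m : ℝ) + 1 := by positivity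
    have k1 := aWin_sh (2 * (m : ℤ) + 1) (by omega)
    have k2 := aWin_sh (-(2 * (m : ℤ) + 1)) (by omega)
    push_cast at k1 k2
    rw [abs_neg] at k2
    rw [abs_of_pos hm] at k1 k2
    rw [aWin_neg]
    have k3 := hp (2 * (m : ℤ) + 1)
    have k4 := hp0 (2 * (m : ℤ) + 1)
    have k5 : 0 ≤ 1 / (π * (2 * (m : ℝ) + 1)) := by positivity
    have k6 := mul_le_mul k1 k3 k4 k5
    have k7 := mul_le_mul k2 k3 k4 k5
    refine (add_le_add k6 k7).trans (le_of_eq ?_)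
    field_simp
    ring
  refine (sum_le_sum h1).trans ?_
  rw [← mul_sum, sum_add_distrib, ← mul_sum, ← mul_sum]
  have h2 : 2 / π ≤ 0.6367 := by
    rw [div_le_iff₀ pi_pos]
    linarith [pi_gt_d4]
  have h3 := add_le_add (mul_le_mul_of_nonneg_left hA ha) (mul_le_mul_of_nonneg_left hB hb)
  calc _ ≤ 2 / π * (a * A + b * B) := mul_le_mul_of_nonneg_left h3 (by positivity)
    _ ≤ _ := mul_le_mul_of_nonneg_right h2 (by positivity)

theorem aWin_blocks (g : ℕ → ℝ) (L n : ℕ) :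
    ∑ m ∈ range (L * n), g m = ∑ i ∈ range n, ∑ m ∈ Ico (L * i) (L * (i + 1)), g m := by
  induction n with
  | zero => simp
  | succ n ih =>
    rw [sum_range_succ, ← ih, sum_range_add_sum_Ico _ (Nat.mul_le_mul_left L (Nat.le_succ n))]

theorem aWin_win (L n : ℕ) (f u : ℤ → ℝ) (c : ℕ → ℝ) (D : ℝ) (hc : ∀ i, 0 ≤ c i)
    (hu : ∀ k, 0 ≤ u k) (hn : ∀ k, u (-k) = u k)
    (hf : ∀ k ∈ Kset (L * n), f k ≤ c (k.natAbs / (2 * L)))
    (hD : ∀ i < n, ∑ m ∈ Ico (L * i) (L * (i + 1)), u (2 * (m : ℕ) + 1) ≤ D) :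
    ∑ k ∈ Kset (L * n), f k * u k ≤ 2 * D * ∑ i ∈ range n, c i := by
  have h1 : ∑ k ∈ Kset (L * n), f k * u k ≤
      ∑ k ∈ Kset (L * n), c (k.natAbs / (2 * L)) * u k :=
    sum_le_sum fun k hk => mul_le_mul_of_nonneg_right (hf k hk) (hu k)
  refine h1.trans ?_
  rw [aWin_sum, aWin_blocks, mul_sum]
  refine sum_le_sum fun i hi => ?_
  have h2 : ∀ m ∈ Ico (L * i) (L * (i + 1)),
      c ((2 * (m : ℤ) + 1).natAbs / (2 * L)) * u (2 * (m : ℤ) + 1) +
        c ((-(2 * (m : ℤ) + 1)).natAbs / (2 * L)) * u (-(2 * (m : ℤ) + 1)) =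
      2 * c i * u (2 * (m : ℕ) + 1) := by
    intro m hm
    rw [mem_Ico] at hm
    have e1 : (2 * (m : ℤ) + 1).natAbs = 2 * m + 1 := by omega
    have e2 : (2 * m + 1) / (2 * L) = i := by
      refine Nat.div_eq_of_lt_le ?_ ?_
      · have : i * (2 * L) = 2 * (L * i) := by ring
        omega
      · have : (i + 1) * (2 * L) = 2 * (L * (i + 1)) := by ring
        omega
    rw [Int.natAbs_neg, hn, e1, e2]
    ring
  rw [sum_congr rfl h2, ← mul_sum]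
  have := mul_le_mul_of_nonneg_left (hD i (mem_range.1 hi)) (mul_nonneg zero_le_two (hc i))
  linarith

theorem aWin_card (L i : ℕ) (a : ℝ) : ∑ _m ∈ Ico (L * i) (L * (i + 1)), a = L * a := by
  rw [sum_const, Nat.card_Ico, nsmul_eq_mul, mul_add, mul_one, Nat.add_sub_cancel_left]

theorem aWin_main (N L : ℕ) (hN : N = 2 ^ 20) (hL : L = 2 ^ 16)
    (h1 : ∀ k ∈ Kset N, 1 / 5 ≤ ‖riemannZeta (sk k)‖)
    (h2 : ∑ m ∈ range N, yz (2 * m + 1) ^ 4 / (2 * m + 1) ≤ 210)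
    (h3 : ∀ i < 16, ∑ m ∈ Ico (L * i) (L * (i + 1)), yz (2 * (m : ℕ) + 1) ^ 4 ≤ 21 * 2 ^ 16) :
    (∀ k ∈ Kset N, 0 < yz k ∧ yz k ≤ 5) ∧
    ∑ k ∈ Kset N, ‖sh k‖ * yz k ^ 3 ≤ 59 ∧ ∑ k ∈ Kset N, ‖sh k‖ * yz k ^ 2 ≤ 26 ∧
    ∑ k ∈ Kset N, ‖sh k‖ ≤ 5.1 ∧
    ∀ (f : ℤ → ℝ) (c : ℕ → ℝ), (∀ i, 0 ≤ c i) → (∀ k ∈ Kset N, f k ≤ c (k.natAbs / 2 ^ 17)) →
      ∑ k ∈ Kset N, f k * (yz k ^ 4 + 7) ≤ 28 * 2 ^ 17 * ∑ i ∈ range 16, c i ∧
      ∑ k ∈ Kset N, f k ≤ 2 ^ 17 * ∑ i ∈ range 16, c i := by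
  have hy : ∀ k, 0 ≤ yz k := fun k => by unfold yz; positivity
  have hB := aWin_harm20 N hN
  have e1 : N = L * 16 := by rw [hN, hL]; norm_num
  have e2 : 2 ^ 17 = 2 * L := by rw [hL]; norm_num
  have e3 : (L : ℝ) = 2 ^ 16 := by rw [hL]; norm_num
  clear hN hL
  refine ⟨fun k hk => ?_, ?_, ?_, ?_, fun f c hc hf => ?_⟩
  · have := h1 k hk
    have hp : 0 < ‖riemannZeta (sk k)‖ := lt_of_lt_of_le (by norm_num) this
    refine ⟨one_div_pos.2 hp, ?_⟩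
    rw [yz, div_le_iff₀ hp]
    linarith
  · refine (aWin_mom N (fun y => y ^ 3) 0.33 2.94 210 7.92 (fun k => pow_nonneg (hy k) _)
      (fun k => ?_) (by norm_num) (by norm_num) h2 hB (by norm_num) (by norm_num)).trans
      (by norm_num)
    nlinarith [sq_nonneg (yz k ^ 2 - 1.5152 * yz k - 1.7217), sq_nonneg (yz k - 2.2727)]
  · refine (aWin_mom N (fun y => y ^ 2) 0.097 2.578 210 7.92 (fun k => pow_nonneg (hy k) _)
      (fun k => ?_) (by norm_num) (by norm_num) h2 hB (by norm_num) (by norm_num)).trans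
      (by norm_num)
    nlinarith [sq_nonneg (yz k ^ 2 - 5.1546)]
  · have := aWin_mom N (fun _ => 1) 0 1 210 7.92 (fun _ => zero_le_one)
      (fun k => by rw [zero_mul, zero_add]) le_rfl zero_le_one h2 hB (by norm_num) (by norm_num)
    refine le_trans (le_of_eq (sum_congr rfl fun k _ => (mul_one _).symm)) (this.trans ?_)
    norm_num
  · rw [e1, e2] at hf
    rw [e1]
    constructor
    · refine (aWin_win L 16 f (fun k => yz k ^ 4 + 7) c (28 * 2 ^ 16) hc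
        (fun k => by positivity) (fun k => by rw [aWin_neg]) hf fun i hi => ?_).trans
        (le_of_eq (by ring))
      rw [sum_add_distrib, aWin_card, e3]
      linarith [h3 i hi]
    · have := aWin_win L 16 f (fun _ => 1) c (2 ^ 16) hc (fun _ => zero_le_one)
        (fun _ => rfl) hf fun i _ => by rw [aWin_card, e3, mul_one]
      refine le_trans (le_of_eq (sum_congr rfl fun k _ => (mul_one _).symm))
        (this.trans (le_of_eq (by ring)))

theorem stWin (hBas : StBas) : StWin := by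
  have _ := hBas
  unfold StWin NumW K20
  intro h
  exact aWin_main (2 ^ 20) (2 ^ 16) rfl rfl h.1 h.2.1 h.2.2

end Pool.Agent.MP_88bd62_nt.U.A
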