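import Pool.Agent.MP_88bd62_nt.U.DA

/-! The digits of the packed table of divisor counts. -/

namespace Pool.Agent.MP_88bd62_nt.U.D

open Finset
open Pool.Agent.MP_22d5c4_co.K (dig dig_add dig_lt testBit_dig)

theorem xDDX_hi {K C i j : ℕ} (hj : K ≤ j) : (dig K C i).testBit j = false :=
  Nat.testBit_lt_two_pow ((dig_lt K C i).trans_le (Nat.pow_le_pow_right two_pos hj))

theorem xDDX_and (K a b i : ℕ) : dig K (a &&& b) i = dig K a i &&& dig K b i := by
  refine Nat.eq_of_testBit_eq fun j => ?_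
  rcases lt_or_ge j K with h | h
  · rw [Nat.testBit_and, testBit_dig _ _ _ _ h, testBit_dig _ _ _ _ h, testBit_dig _ _ _ _ h,
      Nat.testBit_and]
  · rw [Nat.testBit_and, xDDX_hi h, xDDX_hi h, Bool.false_and]

theorem xDDX_xor (K a b i : ℕ) : dig K (a ^^^ b) i = dig K a i ^^^ dig K b i := by
  refine Nat.eq_of_testBit_eq fun j => ?_
  rcases lt_or_ge j K with h | h
  · rw [Nat.testBit_xor, testBit_dig _ _ _ _ h, testBit_dig _ _ _ _ h, testBit_dig _ _ _ _ h,
      Nat.testBit_xor]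
  · rw [Nat.testBit_xor, xDDX_hi h, xDDX_hi h, xDDX_hi h, Bool.xor_self]

theorem xDDX_add {K a b : ℕ} (h : ∀ i, dig K a i + dig K b i < 2 ^ K) (i : ℕ) :
    dig K (a + b) i = dig K a i + dig K b i :=
  dig_add K (i + 1) a b (fun j _ => h j) i (Nat.lt_succ_self i)

theorem xDDX_mul {K a : ℕ} (c : ℕ) (h : ∀ i, c * dig K a i < 2 ^ K) (i : ℕ) :
    dig K (c * a) i = c * dig K a i := by
  induction c generalizing i with
  | zero => simp [dig]
  | succ c ih =>
    have h1 : ∀ i, c * dig K a i < 2 ^ K := fun i =>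
      (Nat.mul_le_mul_right _ (Nat.le_succ c)).trans_lt (h i)
    rw [Nat.succ_mul, Nat.succ_mul, xDDX_add (fun j => by rw [ih h1, ← Nat.succ_mul]; exact h j),
      ih h1]

/-- The number of small divisors prime to `210`. -/
def xDDX_ct (E i : ℕ) : ℕ :=
  #{e ∈ Ioc 0 E | e.Coprime 210 ∧ i < 524288 ∧ e ∣ 524289 + i}

theorem xDDX_ct_le (E i : ℕ) : xDDX_ct E i ≤ E :=
  (card_filter_le _ _).trans (by simp)

theorem xDDX_ct_succ (E i : ℕ) : xDDX_ct (E + 1) i = xDDX_ct E i +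
    if (E + 1).Coprime 210 ∧ i < 524288 ∧ E + 1 ∣ 524289 + i then 1 else 0 := by
  unfold xDDX_ct
  rw [← insert_Ioc_right_eq_Ioc_add_one (Nat.zero_le E), filter_insert]
  split_ifs with h
  · rw [card_insert_of_notMem (by simp)]
  · rfl

theorem xDDX_cntv_succ (e : ℕ) :
    cntv (e + 1) = cn (cop (e + 1)) (cntv e + pat (e + 1)) (cntv e) := rfl

theorem xDDX_cntv (hPat : DPat) (E : ℕ) (hE : E ≤ 4096) (i : ℕ) :
    dig 24 (cntv E) i = xDDX_ct E i := by
  induction E generalizing i with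
  | zero =>
    change dig 24 0 i = _
    simp [dig, xDDX_ct]
  | succ e ih =>
    have ih := ih (by omega)
    rw [xDDX_cntv_succ, cn_eq, xDDX_ct_succ]
    by_cases h : (e + 1).Coprime 210
    · rw [if_pos ((cop_eq _).2 h), xDDX_add fun j => ?_, ih, hPat _ _ (by omega) hE]
      · exact congrArg _ (if_congr (and_iff_right h).symm rfl rfl)
      · rw [ih, hPat _ _ (by omega) hE]
        have := xDDX_ct_le e j
        split_ifs <;> omega
    · rw [if_neg fun k => h ((cop_eq _).1 k), ih, if_neg fun k => h k.1, add_zero]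

theorem xDDX_npat (hPat : DPat) (e : ℕ) (h1 : 1 ≤ e) (h2 : e ≤ 4096) (i : ℕ) :
    dig 24 (npat e) i = if i < 524288 ∧ ¬ e ∣ 524289 + i then 1 else 0 := by
  have : npat e = pat 1 ^^^ pat e := rfl
  rw [this, xDDX_xor, hPat _ _ le_rfl (by norm_num), hPat _ _ h1 h2]
  by_cases a : i < 524288 <;> by_cases b : e ∣ 524289 + i <;> simp [a, b]

noncomputable def xDDX_c (f : ℕ → ℕ) : ℕ :=
  let _ := npat
  Nat.land (f 3) (Nat.land (f 5) (f 7))

theorem xDDX_c1 : co105 = xDDX_c npat := rfl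

theorem xDDX_c2 (f : ℕ → ℕ) : xDDX_c f = f 3 &&& (f 5 &&& f 7) := rfl

theorem xDDX_co (hPat : DPat) (i : ℕ) : dig 24 co105 i =
    if i < 524288 ∧ ¬ 3 ∣ 524289 + i ∧ ¬ 5 ∣ 524289 + i ∧ ¬ 7 ∣ 524289 + i then 1 else 0 := by
  rw [xDDX_c1, xDDX_c2, xDDX_and, xDDX_and, xDDX_npat hPat _ (by norm_num) (by norm_num),
    xDDX_npat hPat _ (by norm_num) (by norm_num), xDDX_npat hPat _ (by norm_num) (by norm_num)]
  generalize 524289 + i = X
  by_cases a : i < 524288 <;> by_cases b : 3 ∣ X <;> by_cases c : 5 ∣ X <;> by_cases d : 7 ∣ X <;>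
    simp [a, b, c, d]

theorem xDDX_lev1 (a E : ℕ) : lev a E =
    (cntv E &&& 16777215 * (pat (1 <<< a) &&& npat (2 <<< a) &&& co105)) <<< (a + 1) := rfl

/-- The condition selecting the level. -/
def xDDX_P (a i : ℕ) : Prop := i < 524288 ∧ 2 ^ a ∣ 524289 + i ∧ ¬ 2 ^ (a + 1) ∣ 524289 + i ∧
  ¬ 3 ∣ 524289 + i ∧ ¬ 5 ∣ 524289 + i ∧ ¬ 7 ∣ 524289 + i

open Classical in
theorem xDDX_lev (hPat : DPat) (a E : ℕ) (ha : a ≤ 10) (hE : E ≤ 1024) (i : ℕ) :
    dig 24 (lev a E) i = if xDDX_P a i then 2 ^ (a + 1) * xDDX_ct E i else 0 := by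
  have p1 : 2 ^ (a + 1) ≤ 2 ^ 11 := Nat.pow_le_pow_right two_pos (by omega)
  have p2 : 0 < 2 ^ a := by positivity
  have p3 : 2 ^ (a + 1) = 2 * 2 ^ a := pow_succ' 2 a
  have e1 : ∀ j, dig 24 (pat (1 <<< a) &&& npat (2 <<< a) &&& co105) j =
      if xDDX_P a j then 1 else 0 := fun j => by
    rw [xDDX_and, xDDX_and, Nat.shiftLeft_eq, Nat.shiftLeft_eq, one_mul, ← p3,
      hPat _ _ p2 (by omega), xDDX_npat hPat _ (by omega) (by omega), xDDX_co hPat]
    unfold xDDX_P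
    generalize 524289 + j = X
    by_cases z : j < 524288 <;> by_cases b : 2 ^ a ∣ X <;> by_cases c : 2 ^ (a + 1) ∣ X <;>
      by_cases d : ¬ 3 ∣ X ∧ ¬ 5 ∣ X ∧ ¬ 7 ∣ X <;> simp [z, b, c, d]
  have e2 : ∀ j, dig 24 (cntv E &&& 16777215 * (pat (1 <<< a) &&& npat (2 <<< a) &&& co105)) j =
      if xDDX_P a j then xDDX_ct E j else 0 := fun j => by
    rw [xDDX_and, xDDX_mul _ fun k => ?_, e1, xDDX_cntv hPat E (by omega)]
    · split_ifs
      · have := xDDX_ct_le E j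
        rw [mul_one, show 16777215 = 2 ^ 24 - 1 by norm_num, Nat.and_two_pow_sub_one_eq_mod,
          Nat.mod_eq_of_lt (by omega)]
      · simp
    · rw [e1]
      split_ifs <;> norm_num
  rw [xDDX_lev1, Nat.shiftLeft_eq, mul_comm, xDDX_mul _ fun k => ?_, e2]
  · split_ifs <;> simp
  · rw [e2]
    have := Nat.mul_le_mul p1 ((xDDX_ct_le E k).trans hE)
    split_ifs <;> omega

noncomputable def xDDX_d (f : ℕ → ℕ → ℕ) : ℕ :=
  let _ := lev
  Nat.add (f 10 32) (Nat.add (f 9 45) (Nat.add (f 8 64) (Nat.add (f 7 90)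
    (Nat.add (f 6 128) (Nat.add (f 5 181) (Nat.add (f 4 256) (Nat.add (f 3 362)
      (Nat.add (f 2 512) (Nat.add (f 1 724) (f 0 1024))))))))))

theorem xDDX_d1 : DX = xDDX_d lev := rfl

theorem xDDX_d2 (f : ℕ → ℕ → ℕ) : xDDX_d f = f 10 32 + (f 9 45 + (f 8 64 + (f 7 90 +
    (f 6 128 + (f 5 181 + (f 4 256 + (f 3 362 + (f 2 512 + (f 1 724 + f 0 1024))))))))) := rfl

theorem xDDX_step {x y b c : ℕ} {u v : ℕ → ℕ} (hx : ∀ i, dig 24 x i = u i ∧ u i ≤ b)
    (hy : ∀ i, dig 24 y i = v i ∧ v i ≤ c) (h : b + c < 2 ^ 24) (i : ℕ) :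
    dig 24 (x + y) i = u i + v i ∧ u i + v i ≤ b + c := by
  refine ⟨?_, add_le_add (hx i).2 (hy i).2⟩
  rw [xDDX_add fun j => ?_, (hx i).1, (hy i).1]
  rw [(hx j).1, (hy j).1]
  exact (add_le_add (hx j).2 (hy j).2).trans_lt h

theorem xDDX_sum (f : ℕ → ℕ → ℕ) (u : ℕ → ℕ → ℕ → ℕ)
    (h : ∀ a E, a ≤ 10 → E ≤ 1024 → ∀ i, dig 24 (f a E) i = u a E i ∧ u a E i ≤ 2 ^ (a + 1) * E)
    (i : ℕ) : dig 24 (xDDX_d f) i = u 10 32 i + (u 9 45 i + (u 8 64 i + (u 7 90 i +
      (u 6 128 i + (u 5 181 i + (u 4 256 i + (u 3 362 i + (u 2 512 i + (u 1 724 i +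
        u 0 1024 i))))))))) ∧ dig 24 (xDDX_d f) i < 2 ^ 18 := by
  have k := xDDX_step (h 10 32 (by omega) (by omega)) (xDDX_step (h 9 45 (by omega) (by omega))
    (xDDX_step (h 8 64 (by omega) (by omega)) (xDDX_step (h 7 90 (by omega) (by omega))
    (xDDX_step (h 6 128 (by omega) (by omega)) (xDDX_step (h 5 181 (by omega) (by omega))
    (xDDX_step (h 4 256 (by omega) (by omega)) (xDDX_step (h 3 362 (by omega) (by omega))
    (xDDX_step (h 2 512 (by omega) (by omega)) (xDDX_step (h 1 724 (by omega) (by omega))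
    (h 0 1024 (by omega) (by omega)) (by norm_num)) (by norm_num)) (by norm_num)) (by norm_num))
    (by norm_num)) (by norm_num)) (by norm_num)) (by norm_num)) (by norm_num)) (by norm_num) i
  rw [xDDX_d2]
  exact ⟨k.1, k.1 ▸ k.2.trans_lt (by norm_num)⟩

theorem xDDX_div {m E : ℕ} (h : m < (E + 1) ^ 2) :
    m.divisors.card ≤ 2 * #{e ∈ Ioc 0 E | e ∣ m} := by
  rw [← card_filter_add_card_filter_not (s := m.divisors) (· ≤ E), two_mul]
  refine add_le_add (card_le_card fun e he => ?_) ?_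
  · simp only [mem_filter, Nat.mem_divisors, mem_Ioc] at he ⊢
    exact ⟨⟨Nat.pos_of_dvd_of_pos he.1.1 (Nat.pos_of_ne_zero he.1.2), he.2⟩, he.1.1⟩
  · refine card_le_card_of_injOn (fun e => m / e) (fun e he => ?_) fun e he d hd k => ?_
    · simp only [coe_filter, Nat.mem_divisors, mem_Ioc, Set.mem_ofPred_eq] at he ⊢
      obtain ⟨⟨⟨c, rfl⟩, h0⟩, h1⟩ := he
      have h2 : 0 < e := by omega
      rw [Nat.mul_div_cancel_left _ h2]
      refine ⟨⟨Nat.pos_of_ne_zero (right_ne_zero_of_mul h0), ?_⟩, dvd_mul_left _ _⟩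
      by_contra h3
      have := Nat.mul_le_mul (show E + 1 ≤ e by omega) (show E + 1 ≤ c by omega)
      rw [sq] at h
      omega
    · simp only [coe_filter, Nat.mem_divisors, Set.mem_ofPred_eq] at he hd
      rw [← Nat.div_div_self he.1.1 he.1.2, ← Nat.div_div_self hd.1.1 hd.1.2]
      exact congrArg _ k

theorem xDDX_key {a m i E : ℕ} (hm : m.Coprime 210) (hi : i < 524288)
    (e : m * 2 ^ a = 524289 + i) (hE : 2 ^ 20 < (E + 1) ^ 2 * 2 ^ a) :
    xDDX_P a i ∧ 2 ^ a * m.divisors.card ≤ 2 ^ (a + 1) * xDDX_ct E i := by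
  have np : ∀ p : ℕ, p.Prime → p ∣ 210 → ¬ p ∣ m := fun p hp h1 h2 =>
    hp.one_lt.ne' (Nat.eq_one_of_dvd_coprimes hm h2 h1)
  have nq : ∀ p : ℕ, p.Prime → p ∣ 210 → p ≠ 2 → ¬ p ∣ 524289 + i := fun p hp h1 h2 h3 => by
    rw [← e] at h3
    rcases (Nat.Prime.dvd_mul hp).1 h3 with h | h
    · exact np p hp h1 h
    · exact h2 ((Nat.prime_dvd_prime_iff_eq hp Nat.prime_two).1 (hp.dvd_of_dvd_pow h))
  refine ⟨⟨hi, e ▸ dvd_mul_left _ _, fun h => ?_, nq 3 (by norm_num) (by norm_num) (by norm_num),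
    nq 5 (by norm_num) (by norm_num) (by norm_num),
    nq 7 (by norm_num) (by norm_num) (by norm_num)⟩, ?_⟩
  · rw [← e, pow_succ'] at h
    exact np 2 Nat.prime_two (by norm_num) (Nat.dvd_of_mul_dvd_mul_right (by positivity) h)
  · have h1 : m < (E + 1) ^ 2 := Nat.lt_of_mul_lt_mul_right (a := 2 ^ a) (by omega)
    rw [pow_succ, mul_assoc]
    refine Nat.mul_le_mul_left _ ((xDDX_div h1).trans (Nat.mul_le_mul_left _ ?_))
    refine card_le_card fun d hd => ?_
    simp only [mem_filter] at hd ⊢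
    exact ⟨hd.1, hm.coprime_dvd_left hd.2, hi, e ▸ hd.2.mul_right _⟩

open Classical in
theorem dDX (hPat : DPat) : DDX := by
  have h := xDDX_sum lev (fun a E i => if xDDX_P a i then 2 ^ (a + 1) * xDDX_ct E i else 0)
    fun a E ha hE i => ⟨xDDX_lev hPat a E ha hE i, by
      split_ifs
      · exact Nat.mul_le_mul_left _ (xDDX_ct_le E i)
      · exact Nat.zero_le _⟩
  rw [← xDDX_d1] at h
  unfold DDX
  generalize DX = z at h
  refine ⟨fun i => (h i).2, fun i hi => ?_, fun a m i ha hm hi e => ?_⟩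
  · have : ∀ a, ¬ xDDX_P a i := fun a k => absurd k.1 (by omega)
    rw [(h i).1]
    simp only [this, if_false]
  · rw [(h i).1]
    have k : ∀ E, 2 ^ 20 < (E + 1) ^ 2 * 2 ^ a → 2 ^ a * m.divisors.card ≤
        if xDDX_P a i then 2 ^ (a + 1) * xDDX_ct E i else 0 := fun E hE => by
      rw [if_pos (xDDX_key hm hi e hE).1]
      exact (xDDX_key hm hi e hE).2
    clear h e
    interval_cases a
    · have := k 1024 (by norm_num); omega
    · have := k 724 (by norm_num); omega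
    · have := k 512 (by norm_num); omega
    · have := k 362 (by norm_num); omega
    · have := k 256 (by norm_num); omega
    · have := k 181 (by norm_num); omega
    · have := k 128 (by norm_num); omega
    · have := k 90 (by norm_num); omega
    · have := k 64 (by norm_num); omega
    · have := k 45 (by norm_num); omega
    · have := k 32 (by norm_num); omega

end Pool.Agent.MP_88bd62_nt.U.D
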