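import Pool.Agent.MP_88bd62_nt.U.DA

/-! Digits of the packed form of a polynomial. -/

namespace Pool.Agent.MP_88bd62_nt.U.D

open Finset Polynomial
open Pool.Agent.MP_22d5c4_co.K (dig dig_zero dig_succ)

/-- The folded coefficients for a general period. -/
noncomputable def xDDig_cf (G : ℕ) (p : ℕ[X]) (J : ℕ) : ℕ :=
  p.sum fun c w => if c % G = J then w else 0

theorem xDDig_add (G : ℕ) (p q : ℕ[X]) (J : ℕ) :
    xDDig_cf G (p + q) J = xDDig_cf G p J + xDDig_cf G q J :=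
  sum_add_index _ _ _ (by simp) (by intros; split_ifs <;> simp)

theorem xDDig_mono (G c w J : ℕ) :
    xDDig_cf G (monomial c w) J = if c % G = J then w else 0 :=
  sum_monomial_index _ _ (by simp)

theorem xDDig_mass {G : ℕ} (hG : 0 < G) (p : ℕ[X]) :
    ∑ J ∈ range G, xDDig_cf G p J = p.eval 1 := by
  induction p using Polynomial.induction_on' with
  | add p q h h' => simp only [xDDig_add, sum_add_distrib, h, h', eval_add]
  | monomial c w =>
    simp only [xDDig_mono, eval_monomial, one_pow, mul_one]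
    rw [sum_ite_eq, if_pos (mem_range.mpr (Nat.mod_lt _ hG))]

theorem xDDig_pow {b G Q : ℕ} (hQ : Q + 1 = b ^ G) (c : ℕ) : b ^ c ≡ b ^ (c % G) [MOD Q] := by
  have h1 : b ^ G ≡ 1 [MOD Q] := by
    rw [← hQ]
    simp
  have h2 := (h1.pow (c / G)).mul_right (b ^ (c % G))
  rw [← pow_mul, ← pow_add, Nat.div_add_mod, one_pow, one_mul] at h2
  exact h2

theorem xDDig_ev {b G Q : ℕ} (hG : 0 < G) (hQ : Q + 1 = b ^ G) (p : ℕ[X]) :
    p.eval b ≡ ∑ J ∈ range G, xDDig_cf G p J * b ^ J [MOD Q] := by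
  induction p using Polynomial.induction_on' with
  | add p q h h' =>
    simp only [xDDig_add, add_mul, sum_add_distrib, eval_add]
    exact h.add h'
  | monomial c w =>
    simp only [xDDig_mono, eval_monomial, ite_mul, zero_mul]
    rw [sum_ite_eq, if_pos (mem_range.mpr (Nat.mod_lt _ hG))]
    exact (xDDig_pow hQ c).mul_left w

theorem xDDig_one {t : ℕ} (p : ℕ[X]) : p.eval (t + 1) ≡ p.eval 1 [MOD t] := by
  induction p using Polynomial.induction_on' with
  | add p q h h' =>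
    simp only [eval_add]
    exact h.add h'
  | monomial c w =>
    simp only [eval_monomial]
    refine Nat.ModEq.mul_left w (Nat.ModEq.pow c ?_)
    simp

theorem xDDig_lt {t : ℕ} (f : ℕ → ℕ) (n : ℕ) (h : ∀ J < n + 1, f J < t) :
    ∑ J ∈ range (n + 1), f J * (t + 1) ^ J + 1 < (t + 1) ^ (n + 1) := by
  induction n with
  | zero => simpa using h 0 (by omega)
  | succ n ih =>
    have h1 := ih fun J hJ => h J (by omega)
    have h2 : f (n + 1) * (t + 1) ^ (n + 1) ≤ t * (t + 1) ^ (n + 1) :=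
      Nat.mul_le_mul_right _ (h (n + 1) (by omega)).le
    rw [sum_range_succ, pow_succ (t + 1) (n + 1)]
    nlinarith

theorem xDDig_dig (K n : ℕ) : ∀ f : ℕ → ℕ, (∀ J < n, f J < 2 ^ K) →
    ∀ J < n, dig K (∑ i ∈ range n, f i * (2 ^ K) ^ i) J = f J := by
  induction n with
  | zero => intro f _ J hJ; omega
  | succ n ih =>
    intro f h J hJ
    have h0 := h 0 (by omega)
    have e : ∑ i ∈ range (n + 1), f i * (2 ^ K) ^ i
        = f 0 + 2 ^ K * ∑ i ∈ range n, f (i + 1) * (2 ^ K) ^ i := by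
      rw [sum_range_succ', mul_sum, add_comm, pow_zero, mul_one]
      congr 1
      exact sum_congr rfl fun i _ => by ring
    rw [e]
    rcases J with _ | J
    · rw [dig_zero, Nat.add_mul_mod_self_left, Nat.mod_eq_of_lt h0]
    · rw [dig_succ, Nat.add_mul_div_left _ _ (by positivity), Nat.div_eq_of_lt h0, zero_add]
      exact ih (fun i => f (i + 1)) (fun i hi => h (i + 1) (by omega)) J (by omega)

theorem xDDig_main {K G Q t a : ℕ} (ht : t + 1 = 2 ^ K) (hQ : Q + 1 = (2 ^ K) ^ (G + 1))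
    (p : ℕ[X]) (h : a ≡ p.eval (2 ^ K) [MOD Q]) (hp : p.eval 1 < t) :
    a % t = p.eval 1 ∧ ∀ J < G + 1, dig K (a % Q) J = xDDig_cf (G + 1) p J ∧
      xDDig_cf (G + 1) p J ≤ p.eval 1 := by
  have hle : ∀ J < G + 1, xDDig_cf (G + 1) p J ≤ p.eval 1 := fun J hJ => by
    rw [← xDDig_mass (Nat.add_one_pos G) p]
    exact single_le_sum (f := xDDig_cf (G + 1) p) (fun _ _ => Nat.zero_le _) (mem_range.mpr hJ)
  have hd : t ∣ Q := by
    have h1 : (t + 1) - 1 ∣ (t + 1) ^ (G + 1) - 1 ^ (G + 1) := Nat.sub_dvd_pow_sub_pow _ _ _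
    rw [one_pow, Nat.add_sub_cancel, ht, ← hQ, Nat.add_sub_cancel] at h1
    exact h1
  refine ⟨?_, fun J hJ => ⟨?_, hle J hJ⟩⟩
  · have h1 : a ≡ p.eval 1 [MOD t] := by
      refine (h.of_dvd hd).trans ?_
      rw [← ht]
      exact xDDig_one p
    rw [h1, Nat.mod_eq_of_lt hp]
  · have h1 := h.trans (xDDig_ev (Nat.add_one_pos G) hQ p)
    have h2 := xDDig_lt (xDDig_cf (G + 1) p) G fun J hJ => (hle J hJ).trans_lt hp
    rw [ht, ← hQ] at h2
    rw [h1, Nat.mod_eq_of_lt (by omega)]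
    exact xDDig_dig K (G + 1) _ (fun J hJ => by have := hle J hJ; omega) J hJ

theorem xDDig_ms (a : ℕ) : mass a = a % (2 ^ 128 - 1) := by
  have e : (340282366920938463463374607431768211455 : ℕ) = 2 ^ 128 - 1 := by norm_num
  rw [← e]
  rfl

theorem xDDig_gen {K G Q t a : ℕ} (hG : 0 < G) (ht : t + 1 = 2 ^ K) (hQ : Q + 1 = (2 ^ K) ^ G)
    (p : ℕ[X]) (h : a ≡ p.eval (2 ^ K) [MOD Q]) (hp : p.eval 1 < t) :
    a % t = p.eval 1 ∧ ∀ J < G, dig K (a % Q) J = xDDig_cf G p J ∧ xDDig_cf G p J ≤ p.eval 1 := by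
  obtain ⟨G, rfl⟩ : ∃ k, G = k + 1 := ⟨G - 1, by omega⟩
  exact xDDig_main ht hQ p h hp

theorem dDig : DDig := by
  intro a p h hp
  rw [xDDig_ms]
  exact xDDig_gen (K := 128) (G := 131072) (Q := QQ) (t := 2 ^ 128 - 1) (by norm_num)
    (by norm_num) QQ_succ p h hp

end Pool.Agent.MP_88bd62_nt.U.D
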