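import Pool.Agent.MP_88bd62_nt.U.DA

/-! The gathering program is a majorant. -/

namespace Pool.Agent.MP_88bd62_nt.U.D

open Finset Polynomial
open Pool.Agent.MP_22d5c4_co.K (dig dig_zero dig_succ dig_shift dig_mod msk msk_eq)

noncomputable section

def xDGa_y (x : ℝ) : ℝ := 2 ^ 59 * 2 ^ (x / 131072)

def xDGa_L (t z len : ℕ) (φ : ℕ → ℝ) : ℝ :=
  ∑ i ∈ range len, 2 ^ 28 * ((dig 24 z i : ℝ) / (t + 1 + i : ℕ)) * φ (t + 1 + i)

theorem xDGa_add (a b : ℝ) : xDGa_y (a + b) = xDGa_y a * 2 ^ (b / 131072) := by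
  unfold xDGa_y
  rw [add_div, Real.rpow_add two_pos, mul_assoc]

theorem xDGa_le {a b : ℝ} : xDGa_y a ≤ xDGa_y b ↔ a ≤ b := by
  unfold xDGa_y
  rw [mul_le_mul_iff_right₀ (by positivity), Real.rpow_le_rpow_left_iff one_lt_two,
    div_le_div_iff_of_pos_right (by norm_num)]

theorem xDGa_zero : xDGa_y 0 = 2 ^ 59 := by simp [xDGa_y]

theorem xDGa_top : xDGa_y 131072 = 2 ^ 60 := by
  unfold xDGa_y
  rw [div_self (by norm_num), Real.rpow_one]
  norm_num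

theorem xDGa_th {n : ℕ} (hn : n ≠ 0) : xDGa_y (131072 * (th n - (19 : ℤ))) = n * 2 ^ 40 := by
  unfold xDGa_y th
  rw [mul_div_cancel_left₀ _ (by norm_num), Real.rpow_sub two_pos,
    Real.rpow_logb two_pos (by norm_num) (by exact_mod_cast Nat.pos_of_ne_zero hn),
    Real.rpow_intCast]
  norm_num
  ring

theorem xDGa_up {c : ℝ} (h : c ≤ 131072) : xDGa_y (c + 1) ≤ xDGa_y c + 2 ^ 43 := by
  have h1 := rpow_one_add_le_one_add_mul_self (s := 1) (p := 1 / 131072) (by norm_num)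
    (by norm_num) (by norm_num)
  have h2 := xDGa_le.2 h
  have h3 : 0 ≤ xDGa_y c := by unfold xDGa_y; positivity
  rw [xDGa_top] at h2
  rw [one_add_one_eq_two] at h1
  rw [xDGa_add]
  nlinarith

theorem xDGa_down {c : ℝ} (h : 0 ≤ c) : xDGa_y (c + -1 / 100) ≤ xDGa_y c - 2 ^ 20 := by
  have h1 : xDGa_y c = xDGa_y (c + -1 / 100) * 2 ^ ((1 / 100 : ℝ) / 131072) := by
    rw [← xDGa_add]
    congr 1
    ring
  have h2 : (1 : ℝ) + 1 / 2 ^ 30 ≤ 2 ^ ((1 / 100 : ℝ) / 131072) := by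
    rw [Real.rpow_def_of_pos two_pos]
    have := Real.add_one_le_exp (Real.log 2 * ((1 / 100 : ℝ) / 131072))
    have := Real.log_two_gt_d9
    linarith
  have h3 := xDGa_le.2 h
  have h4 : 0 ≤ xDGa_y (c + -1 / 100) := by unfold xDGa_y; positivity
  rw [xDGa_zero] at h3
  have h5 := mul_le_mul_of_nonneg_left h2 h4
  rw [← h1] at h5
  by_contra h6
  linarith

theorem xDGa_nil (z : ℕ) (h : ∀ i, dig 24 z i = 0) : z = 0 := by
  induction z using Nat.strong_induction_on with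
  | _ z ih =>
    by_contra h0
    have h1 := ih (z / 2 ^ 24) (Nat.div_lt_self (Nat.pos_of_ne_zero h0) (by norm_num))
      fun i => (dig_succ 24 z i).symm.trans (h _)
    have h2 := (dig_zero 24 z).symm.trans (h 0)
    omega

theorem xDGa_sum (len : ℕ) : ∀ z : ℕ, (∀ i, len ≤ i → dig 24 z i = 0) →
    z % 16777215 = (∑ i ∈ range len, dig 24 z i) % 16777215 := by
  induction len with
  | zero => exact fun z h => by rw [xDGa_nil z fun i => h i (Nat.zero_le i)]; rfl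
  | succ n ih =>
    intro z h
    have h1 := ih (z / 2 ^ 24) fun i hi => (dig_succ 24 z i).symm.trans (h _ (by omega))
    rw [sum_range_succ', dig_zero]
    simp only [dig_succ]
    omega

theorem xDGa_ga0 (L z : ℕ) : ga 0 L z = z % 16777215 * 2 ^ 28 / (L / 2 ^ 40) + 1 := by
  rw [← Nat.shiftLeft_eq, ← Nat.shiftRight_eq_div_pow]
  rfl

theorem xDGa_gas (k L z M d : ℕ) (hM : M = L * rk k / 2 ^ 60) (hd : d = M / 2 ^ 40 - L / 2 ^ 40) :
    ga (k + 1) L z = ga k L (z % 2 ^ (24 * d)) +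
      (2 ^ 128) ^ 2 ^ k * ga k M (z / 2 ^ (24 * d)) := by
  rw [← msk_eq, ← pow_mul, mul_comm (2 ^ _), ← Nat.shiftLeft_eq, ← Nat.shiftLeft_eq 128, hd, hM]
  simp only [← Nat.shiftRight_eq_div_pow]
  rfl

theorem xDGa_leaf {c L z len : ℕ} (hc : c < 131072)
    (h2 : xDGa_y c ≤ L + 2 ^ 20) (h3 : ((L / 2 ^ 40 + len : ℕ) : ℝ) * 2 ^ 40 ≤ xDGa_y (c + 1))
    (h4 : ∀ i, dig 24 z i < 2 ^ 18) (h5 : ∀ i, len ≤ i → dig 24 z i = 0) :
    Mj (-1 / 100) 1 (xDGa_L (L / 2 ^ 40) z len) (X ^ c * C (ga 0 L z)) := by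
  intro φ Φ hφ hΦ hP
  have a1 := xDGa_up (c := c) (by exact_mod_cast hc.le)
  have a2 := xDGa_down (c := c) (Nat.cast_nonneg c)
  have a3 := xDGa_le.2 (Nat.cast_nonneg (α := ℝ) c)
  rw [xDGa_zero] at a3
  have a4 : (L / 2 ^ 40 + len) * 2 ^ 40 ≤ L + 2 ^ 20 + 2 ^ 43 := by
    exact_mod_cast h3.trans (a1.trans (add_le_add_left h2 _))
  have a5 : 2 ^ 59 ≤ L + 2 ^ 20 := by exact_mod_cast a3.trans h2
  have a6 : L < (L / 2 ^ 40 + 1) * 2 ^ 40 := by omega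
  have a7 : len ≤ 63 := by omega
  have a8 : 0 < L / 2 ^ 40 := by omega
  have a9 : ∑ i ∈ range len, dig 24 z i ≤ len * 2 ^ 18 := by
    simpa using sum_le_card_nsmul (range len) _ _ fun i _ => (h4 i).le
  rw [xDGa_ga0, xDGa_sum len z h5, Nat.mod_eq_of_lt (by omega), mul_comm (X ^ c),
    C_mul_X_pow_eq_monomial, pr_monomial]
  generalize L / 2 ^ 40 = t at *
  have b1 : (0 : ℝ) < t := by exact_mod_cast a8
  have b2 : xDGa_L t z len φ ≤ ∑ i ∈ range len, 2 ^ 28 * ((dig 24 z i : ℝ) / t) * Φ c := by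
    refine sum_le_sum fun i hi => mul_le_mul ?_ (hP _ _ ⟨by omega, 19, ?_, ?_⟩) (hφ _)
      (by positivity)
    · gcongr
      omega
    · rw [← xDGa_le, xDGa_th (by omega)]
      have : L ≤ (t + 1 + i) * 2 ^ 40 := by omega
      have : (L : ℝ) ≤ (t + 1 + i : ℕ) * 2 ^ 40 := by exact_mod_cast this
      linarith
    · rw [← xDGa_le, xDGa_th (by omega)]
      refine le_trans ?_ h3
      have := mem_range.1 hi
      exact mul_le_mul_of_nonneg_right (Nat.cast_le.2 (by omega)) (by positivity)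
  refine b2.trans ?_
  rw [← sum_mul, ← Finset.mul_sum, ← sum_div, ← Nat.cast_sum]
  refine mul_le_mul_of_nonneg_right ?_ (hΦ c)
  generalize ∑ i ∈ range len, dig 24 z i = s
  rw [← mul_div_assoc, div_le_iff₀ b1]
  have := Nat.lt_div_mul_add (a := s * 2 ^ 28) a8
  have : 2 ^ 28 * s ≤ (s * 2 ^ 28 / t + 1) * t := by rw [add_mul]; omega
  exact_mod_cast this

theorem xDGa_split (t z len d : ℕ) {φ : ℕ → ℝ} (hφ : ∀ n, 0 ≤ φ n) :
    xDGa_L t z len φ ≤ xDGa_L t (z % 2 ^ (24 * d)) d φ +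
      xDGa_L (t + d) (z / 2 ^ (24 * d)) (len - d) φ := by
  have h1 : xDGa_L t z len φ ≤ xDGa_L t z (d + (len - d)) φ :=
    sum_le_sum_of_subset_of_nonneg (range_subset_range.2 (by omega)) fun i _ _ =>
      mul_nonneg (by positivity) (hφ _)
  refine h1.trans (le_of_eq ?_)
  unfold xDGa_L
  rw [sum_range_add]
  congr 1
  · exact sum_congr rfl fun i hi => by rw [dig_mod _ _ _ _ (mem_range.1 hi)]
  · refine sum_congr rfl fun i _ => ?_
    rw [dig_shift, add_comm i d, show t + 1 + (d + i) = t + d + 1 + i by omega]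

theorem xDGa_hi (z d i : ℕ) (h : d ≤ i) : dig 24 (z % 2 ^ (24 * d)) i = 0 := by
  obtain ⟨j, rfl⟩ := Nat.exists_eq_add_of_le' h
  rw [← dig_shift, Nat.div_eq_of_lt (Nat.mod_lt _ (by positivity))]
  simp [dig]

theorem xDGa_step (hRk : DRk) {k c L : ℕ} {e : ℝ} (hk : k < 17) (hc : c + 2 ^ k ≤ 131072)
    (h1 : (L : ℝ) ≤ xDGa_y c) (h2 : xDGa_y c ≤ L + e) :
    L ≤ L * rk k / 2 ^ 60 ∧ ((L * rk k / 2 ^ 60 : ℕ) : ℝ) ≤ xDGa_y (c + 2 ^ k : ℕ) ∧
      xDGa_y (c + 2 ^ k : ℕ) ≤ (L * rk k / 2 ^ 60 : ℕ) + (2 * e + 2) := by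
  obtain ⟨a1, a2⟩ := hRk k hk
  have a3 : (1 : ℝ) < 2 ^ ((2 : ℝ) ^ k / 131072) := Real.one_lt_rpow one_lt_two (by positivity)
  have a4 : (2 : ℝ) ^ ((2 : ℝ) ^ k / 131072) ≤ 2 ^ (1 : ℝ) := by
    refine Real.rpow_le_rpow_of_exponent_le one_le_two ((div_le_one (by norm_num)).2 ?_)
    have : 2 ^ k ≤ 131072 := by omega
    exact_mod_cast this
  have a5 : xDGa_y c ≤ xDGa_y 131072 := xDGa_le.2 (by
    have : c ≤ 131072 := (Nat.le_add_right _ _).trans hc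
    exact_mod_cast this)
  rw [xDGa_top] at a5
  rw [Real.rpow_one] at a4
  rw [Nat.cast_add, Nat.cast_pow, Nat.cast_ofNat, xDGa_add]
  generalize (2 : ℝ) ^ ((2 : ℝ) ^ k / 131072) = r at *
  generalize rk k = q at *
  have a6 : 2 ^ 60 < q + 1 := by
    have : (2 : ℝ) ^ 60 < q + 1 := by linarith
    exact_mod_cast this
  have a7 : L * q / 2 ^ 60 * 2 ^ 60 ≤ L * q := Nat.div_mul_le_self _ _
  have a8 : L * q ≤ (L * q / 2 ^ 60 + 1) * 2 ^ 60 := by omega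
  have a9 : (0 : ℝ) ≤ L := Nat.cast_nonneg L
  refine ⟨(Nat.le_div_iff_mul_le (by positivity)).2 (Nat.mul_le_mul_left _ (by omega)), ?_, ?_⟩
  · have b1 : ((L * q / 2 ^ 60 : ℕ) : ℝ) * 2 ^ 60 ≤ L * q := by exact_mod_cast a7
    have b2 := mul_le_mul_of_nonneg_left a1 a9
    have b3 := mul_le_mul_of_nonneg_right h1 (zero_le_one.trans a3.le)
    linarith
  · have b1 : (L : ℝ) * q ≤ (((L * q / 2 ^ 60 : ℕ) : ℝ) + 1) * 2 ^ 60 := by exact_mod_cast a8
    have b2 := mul_le_mul_of_nonneg_left a2 a9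
    have b3 := mul_le_mul_of_nonneg_right h2 (zero_le_one.trans a3.le)
    have b4 := mul_le_mul_of_nonneg_left a4 (show 0 ≤ e by linarith)
    linarith

theorem xDGa_main (hRk : DRk) (k : ℕ) : k ≤ 17 → ∀ (c L z len : ℕ) (e : ℝ), c + 2 ^ k ≤ 131072 →
    (L : ℝ) ≤ xDGa_y c → xDGa_y c ≤ L + e → (e + 2) * 2 ^ k ≤ 2 ^ 20 →
    ((L / 2 ^ 40 + len : ℕ) : ℝ) * 2 ^ 40 ≤ xDGa_y (c + 2 ^ k : ℕ) →
    (∀ i, dig 24 z i < 2 ^ 18) → (∀ i, len ≤ i → dig 24 z i = 0) →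
    ∃ p : ℕ[X], ga k L z = p.eval (2 ^ 128) ∧ p.eval 1 ≤ 2 ^ k * (2 ^ 52 + 1) ∧
      Mj (-1 / 100) 1 (xDGa_L (L / 2 ^ 40) z len) (X ^ c * p) := by
  induction k with
  | zero =>
    intro _ c L z len e hc h1 h2 h3 h4 h5 h6
    refine ⟨C (ga 0 L z), eval_C.symm, ?_, xDGa_leaf (by omega) (by linarith)
      (by simpa using h4) h5 h6⟩
    rw [eval_C, xDGa_ga0]
    have := Nat.div_le_self (z % 16777215 * 2 ^ 28) (L / 2 ^ 40)
    omega
  | succ k ih =>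
    intro hk c L z len e hc h1 h2 h3 h4 h5 h6
    have hp : 2 ^ (k + 1) = 2 ^ k + 2 ^ k := by omega
    have hq : c + 2 ^ k ≤ 131072 := by
      have := Nat.zero_le (2 ^ k)
      omega
    obtain ⟨a1, a2, a3⟩ := xDGa_step hRk (k := k) (by omega) hq h1 h2
    generalize hM : L * rk k / 2 ^ 60 = M at a1 a2 a3
    have a4 : L / 2 ^ 40 ≤ M / 2 ^ 40 := Nat.div_le_div_right a1
    obtain ⟨d, hd⟩ := Nat.exists_eq_add_of_le a4
    have a5 : ((M / 2 ^ 40 : ℕ) : ℝ) * 2 ^ 40 ≤ M := by exact_mod_cast Nat.div_mul_le_self _ _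
    have a6 : (0 : ℝ) ≤ (e + 2) * 2 ^ k := mul_nonneg (by linarith) (by positivity)
    rw [pow_succ] at h3
    obtain ⟨p, b1, b2, b3⟩ := ih (by omega) c L (z % 2 ^ (24 * d)) d e hq h1 h2
      (by linarith) (by rw [← hd]; exact a5.trans a2) (fun i => by
        rcases lt_or_ge i d with h | h
        · rw [dig_mod _ _ _ _ h]; exact h5 i
        · rw [xDGa_hi _ _ _ h]; positivity) (xDGa_hi z d)
    obtain ⟨q, c1, c2, c3⟩ := ih (by omega) (c + 2 ^ k) M (z / 2 ^ (24 * d)) (len - d) (2 * e + 2)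
      (by omega) a2 a3 (by linarith) (by
        rcases le_total d len with h | h
        · rwa [hd, add_assoc, Nat.add_sub_cancel' h, add_assoc, ← hp]
        · rw [Nat.sub_eq_zero_of_le h, add_zero]
          exact a5.trans (a2.trans (xDGa_le.2 (Nat.cast_le.2 (Nat.le_add_right _ _)))))
      (fun i => by rw [dig_shift]; exact h5 _) fun i hi => by rw [dig_shift]; exact h6 _ (by omega)
    refine ⟨p + X ^ 2 ^ k * q, ?_, ?_, ?_⟩
    · rw [xDGa_gas k L z M d hM.symm (by omega), b1, c1, eval_add, eval_mul, eval_pow, eval_X]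
    · rw [eval_add, eval_mul, eval_pow, eval_X, one_pow, one_mul, hp, add_mul]
      exact add_le_add b2 c2
    · rw [mul_add, ← mul_assoc, ← pow_add]
      rw [hd] at c3
      exact (b3.add c3).le fun φ hφ => xDGa_split _ _ _ _ hφ

theorem dGa (hRk : DRk) : DGa := by
  intro z h1 h2
  obtain ⟨p, a1, a2, a3⟩ := xDGa_main hRk 17 le_rfl 0 576460752303423488 z 524288 0 (by norm_num)
    (by rw [Nat.cast_zero, xDGa_zero]; norm_num) (by rw [Nat.cast_zero, xDGa_zero]; norm_num)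
    (by norm_num) (by
      rw [show ((0 + 2 ^ 17 : ℕ) : ℝ) = 131072 by norm_num, xDGa_top]
      norm_num) h1 h2
  refine ⟨p, a1, a2.trans (by norm_num), ?_⟩
  rw [pow_zero, one_mul, show 576460752303423488 / 2 ^ 40 = 524288 by norm_num] at a3
  exact a3

end

end Pool.Agent.MP_88bd62_nt.U.D
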