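import Pool.Agent.MP_88bd62_nt.U.DA

/-! The majorant of the higher prime power measure. -/

namespace Pool.Agent.MP_88bd62_nt.U.D

open Finset Polynomial

noncomputable section

def xDH_v (j q : ℕ) : ℝ := if 11 ≤ q ∧ q.Coprime 210 then 2 ^ 24 * hW (q, j) else 0

def xDH_kap (q : ℕ) : ℕ := ⌊16384 * th q - 196608⌋₊

theorem xDH_w (j q : ℕ) :
    wH j q = if 11 ≤ q ∧ q.Coprime 210 then 4194304 * 2 ^ j / q ^ j + 1 else 0 := by
  rw [wH, cn_eq]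
  have h : (an (Nat.ble 11 q) (cop q) = true) ↔ (11 ≤ q ∧ q.Coprime 210) := by
    rw [an_eq, cop_eq, Nat.ble_eq]
  rw [if_congr h rfl rfl, Nat.shiftLeft_eq', Nat.shiftLeft_eq]
  rfl

theorem xDH_c (hLg : DLg) (j q : ℕ) : cH j q = 16 * Nat.log 2 ((q ^ j) ^ 8192) := by
  rw [cH, hLg, ← pow_mul]
  rfl

theorem xDH_nodes (hLg : DLg) (n j : ℕ) (hj : 2 ≤ j) :
    Mj 0 16 (fun φ => ∑ q ∈ range n, xDH_v j q * φ (q ^ j)) (nd n (cH j) (wH j)) := by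
  refine Mj.nodes (range n) (fun q => q ^ j) (cH j) (wH j) (xDH_v j) fun q _ => ?_
  rw [xDH_v, xDH_w]
  split_ifs with h
  · refine Or.inr ⟨?_, ?_⟩
    · obtain ⟨k, rfl⟩ := Nat.exists_eq_add_of_le' hj
      have hq : 0 < q ^ (k + 2) := pow_pos (by omega) _
      have hq' : (0 : ℝ) < (q : ℝ) ^ (k + 2) := by exact_mod_cast hq
      have h1 : 4194304 * 2 ^ (k + 2) < (4194304 * 2 ^ (k + 2) / q ^ (k + 2) + 1) * q ^ (k + 2) :=
        (Nat.div_lt_iff_lt_mul hq).1 (Nat.lt_succ_self _)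
      have h2 : ((4194304 * 2 ^ (k + 2) : ℕ) : ℝ) ≤
          ((4194304 * 2 ^ (k + 2) / q ^ (k + 2) + 1 : ℕ) : ℝ) * (q : ℝ) ^ (k + 2) := by
        exact_mod_cast h1.le
      rw [hW, ← mul_div_assoc, div_le_iff₀ hq']
      refine le_trans (le_of_eq ?_) h2
      simp only [Nat.add_sub_cancel]
      push_cast
      ring
    · rw [xDH_c hLg]
      have := Pos.log (n := q ^ j) (pow_ne_zero _ (by omega)) 16 8192 (by norm_num)
      simpa using this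
  · exact Or.inl le_rfl

theorem xDH_th {q : ℕ} (h1 : 4096 < q) (h2 : q < 32768) : 12 ≤ th q ∧ th q < 15 := by
  have a : th (2 ^ 12) ≤ th q :=
    Real.logb_le_logb_of_le one_lt_two (by positivity) (by exact_mod_cast h1.le)
  have b : th q < th (2 ^ 15) :=
    Real.logb_lt_logb one_lt_two (by exact_mod_cast (by omega : 0 < q)) (by exact_mod_cast h2)
  rw [th_pow, th_two] at a b
  constructor <;> push_cast at a b <;> linarith

theorem xDH_fl {q : ℕ} (h1 : 4096 < q) (h2 : q < 32768) :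
    xDH_kap q < 49152 ∧ (xDH_kap q : ℝ) + 196608 ≤ 16384 * th q ∧
      16384 * th q < xDH_kap q + 196609 := by
  obtain ⟨a, b⟩ := xDH_th h1 h2
  have h0 : 0 ≤ 16384 * th q - 196608 := by linarith
  have d : xDH_kap q < 49152 := (Nat.floor_lt h0).2 (by push_cast; linarith)
  have f : (xDH_kap q : ℝ) ≤ _ := Nat.floor_le h0
  have g : _ < (xDH_kap q : ℝ) + 1 := Nat.lt_floor_add_one _
  exact ⟨d, by linarith, by linarith⟩

theorem xDH_gap {q r : ℕ} (h1 : 4096 < q) (h2 : q < 32768) (h : q + 2 ≤ r) :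
    th q + 1 / 16384 ≤ th r := by
  have hq : (0 : ℝ) < q := by exact_mod_cast (by omega : 0 < q)
  have hq2 : (q : ℝ) ≤ 32768 := by exact_mod_cast h2.le
  have hr : (q : ℝ) + 2 ≤ r := by exact_mod_cast h
  have a : ((1 : ℝ) + 1) ^ (1 / 16384 : ℝ) ≤ 1 + 1 / 16384 * 1 :=
    rpow_one_add_le_one_add_mul_self (by norm_num) (by norm_num) (by norm_num)
  rw [one_add_one_eq_two] at a
  have b : (q : ℝ) * 2 ^ (1 / 16384 : ℝ) ≤ r := by nlinarith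
  have c := Real.logb_le_logb_of_le one_lt_two (by positivity) b
  rw [Real.logb_mul hq.ne' (by positivity), Real.logb_rpow two_pos (by norm_num)] at c
  exact c

theorem xDH_card (i : ℕ) : ((Ioo 4096 32768).filter fun q => xDH_kap q = i).card ≤ 2 := by
  generalize hS : ((Ioo 4096 32768).filter fun q => xDH_kap q = i) = S
  have hm : ∀ q ∈ S, (4096 < q ∧ q < 32768) ∧ xDH_kap q = i := fun q hq => by
    rw [← hS, mem_filter, mem_Ioo] at hq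
    exact hq
  rcases S.eq_empty_or_nonempty with h | h
  · rw [h]
    exact Nat.zero_le _
  · have hs : S ⊆ Ico (S.min' h) (S.min' h + 2) := fun r hr => by
      refine mem_Ico.2 ⟨min'_le _ _ hr, lt_of_not_ge fun hc => ?_⟩
      obtain ⟨⟨a1, a2⟩, a3⟩ := hm _ (min'_mem S h)
      obtain ⟨⟨b1, b2⟩, b3⟩ := hm _ hr
      have c := xDH_gap a1 a2 hc
      have d := (xDH_fl a1 a2).2.1
      have e := (xDH_fl b1 b2).2.2
      rw [a3] at d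
      rw [b3] at e
      linarith
    refine (card_le_card hs).trans ?_
    rw [Nat.card_Ico]
    omega

theorem xDH_tail : Mj 0 16 (fun φ => ∑ q ∈ Ioo 4096 32768, φ (q ^ 2))
    (C 2 * nd 49152 (fun i => 16 * i) (fun _ => 1)) := by
  intro φ Φ a b c
  have h1 : ∀ q ∈ Ioo 4096 32768, φ (q ^ 2) ≤ Φ (16 * xDH_kap q) := fun q hq => by
    obtain ⟨q1, q2⟩ := mem_Ioo.1 hq
    obtain ⟨-, d, e⟩ := xDH_fl q1 q2
    refine c _ _ ⟨pow_ne_zero _ (by omega), 24, ?_, ?_⟩ <;> rw [th_pow] <;> push_cast <;> linarith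
  refine (sum_le_sum h1).trans ?_
  rw [pr_C, nd, pr_sum, mul_sum, ← sum_fiberwise_of_maps_to (t := range 49152) (g := xDH_kap)
    fun q hq => mem_range.2 (xDH_fl (mem_Ioo.1 hq).1 (mem_Ioo.1 hq).2).1]
  refine sum_le_sum fun i _ => ?_
  rw [pr_monomial, sum_congr rfl (g := fun _ => Φ (16 * i))
    fun q hq => by rw [(mem_filter.1 hq).2], sum_const, nsmul_eq_mul, Nat.cast_one, one_mul]
  exact mul_le_mul_of_nonneg_right (by exact_mod_cast xDH_card i) (b _)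

theorem xDH_hW (α : ℕ × ℕ) : 0 ≤ hW α := by
  rw [hW]
  positivity

theorem xDH_v0 (j q : ℕ) : 0 ≤ xDH_v j q := by
  rw [xDH_v]
  split_ifs
  · exact mul_nonneg (by positivity) (xDH_hW _)
  · exact le_rfl

theorem xDH_sub {φ : ℕ → ℝ} (hφ : ∀ n, 0 ≤ φ n) (A : Finset ℕ) (n j : ℕ)
    (h : ∀ q ∈ A, q < n ∧ 11 ≤ q ∧ q.Coprime 210) :
    ∑ q ∈ A, 2 ^ 24 * hW (q, j) * φ (q ^ j) ≤ ∑ q ∈ range n, xDH_v j q * φ (q ^ j) := by
  refine le_trans (le_of_eq (sum_congr rfl fun q hq => ?_))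
    (sum_le_sum_of_subset_of_nonneg (s := A) (fun q hq => mem_range.2 (h q hq).1)
      fun q _ _ => mul_nonneg (xDH_v0 j q) (hφ _))
  rw [xDH_v, if_pos (h q hq).2]

theorem xDH_two {φ : ℕ → ℝ} (hφ : ∀ n, 0 ≤ φ n) (A : Finset ℕ)
    (h : ∀ q ∈ A, q < 32768 ∧ 11 ≤ q ∧ q.Coprime 210) :
    ∑ q ∈ A, 2 ^ 24 * hW (q, 2) * φ (q ^ 2) ≤ ∑ q ∈ range 4097, xDH_v 2 q * φ (q ^ 2) +
      ∑ q ∈ Ioo 4096 32768, φ (q ^ 2) := by
  rw [← sum_filter_add_sum_filter_not A (· < 4097)]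
  refine add_le_add (xDH_sub hφ _ _ _ fun q hq => ?_) ?_
  · obtain ⟨a, b⟩ := mem_filter.1 hq
    exact ⟨b, (h q a).2⟩
  · refine le_trans (sum_le_sum fun q hq => ?_)
      (sum_le_sum_of_subset_of_nonneg (fun q hq => ?_) fun q _ _ => hφ _)
    · have b : (4096 : ℝ) ≤ q := by
        have := (mem_filter.1 hq).2
        exact_mod_cast (by omega : 4096 ≤ q)
      refine mul_le_of_le_one_left (hφ _) ?_
      rw [hW, ← mul_div_assoc, div_le_one (by positivity)]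
      norm_num
      nlinarith
    · obtain ⟨a, b⟩ := mem_filter.1 hq
      exact mem_Ioo.2 ⟨by omega, (h q a).1⟩

theorem xDH_un {g : ℕ × ℕ → ℝ} (hg : ∀ α, 0 ≤ g α) (s t : Finset (ℕ × ℕ)) :
    ∑ α ∈ s ∪ t, g α ≤ ∑ α ∈ s, g α + ∑ α ∈ t, g α := by
  rw [← sum_union_inter]
  exact le_add_of_nonneg_right (sum_nonneg fun α _ => hg α)

theorem xDH_pr (g : ℕ × ℕ → ℝ) (A : Finset ℕ) (j : ℕ) :
    ∑ α ∈ A ×ˢ {j}, g α = ∑ q ∈ A, g (q, j) := by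
  rw [sum_product]
  exact sum_congr rfl fun q _ => sum_singleton _ _

theorem xDH_five {g : ℕ × ℕ → ℝ} (hg : ∀ α, 0 ≤ g α) (A B C D E : Finset ℕ) :
    ∑ α ∈ (A ×ˢ {2}) ∪ (B ×ˢ {3}) ∪ (C ×ˢ {4}) ∪ (D ×ˢ {5}) ∪ (E ×ˢ {6}), g α ≤
      ∑ q ∈ A, g (q, 2) + ∑ q ∈ B, g (q, 3) + ∑ q ∈ C, g (q, 4) + ∑ q ∈ D, g (q, 5) +
        ∑ q ∈ E, g (q, 6) := by
  simp only [← xDH_pr]
  refine (xDH_un hg _ _).trans (add_le_add ?_ le_rfl)
  refine (xDH_un hg _ _).trans (add_le_add ?_ le_rfl)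
  refine (xDH_un hg _ _).trans (add_le_add ?_ le_rfl)
  exact xDH_un hg _ _

theorem xDH_wb (j q : ℕ) (hj : j ≤ 6) : wH j q ≤ 2 ^ 29 := by
  rw [xDH_w]
  split_ifs
  · have a : 2 ^ j ≤ 2 ^ 6 := Nat.pow_le_pow_right two_pos hj
    have b := Nat.div_le_self (4194304 * 2 ^ j) (q ^ j)
    omega
  · exact Nat.zero_le _

theorem xDH_six {α β : ℝ} {L1 L2 L3 L4 L5 L6 L : (ℕ → ℝ) → ℝ} {p1 p2 p3 p4 p5 p6 : ℕ[X]}
    (h1 : Mj α β L1 p1) (h2 : Mj α β L2 p2) (h3 : Mj α β L3 p3) (h4 : Mj α β L4 p4)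
    (h5 : Mj α β L5 p5) (h6 : Mj α β L6 p6)
    (h : ∀ φ, (∀ n, 0 ≤ φ n) → L φ ≤ L5 φ + L6 φ + L4 φ + L3 φ + L2 φ + L1 φ) :
    Mj α β L (p1 + p2 + p3 + p4 + p5 + p6) :=
  (((((h1.add h2).add h3).add h4).add h5).add h6).le fun φ hφ => by
    have := h φ hφ
    linarith

theorem xDH_ev {p1 p2 p3 p4 p5 p6 : ℕ[X]} (h1 : p1.eval 1 ≤ 14 * 2 ^ 29)
    (h2 : p2.eval 1 ≤ 20 * 2 ^ 29) (h3 : p3.eval 1 ≤ 38 * 2 ^ 29) (h4 : p4.eval 1 ≤ 513 * 2 ^ 29)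
    (h5 : p5.eval 1 ≤ 4097 * 2 ^ 29) (h6 : p6.eval 1 ≤ 49152 * 1) :
    (p1 + p2 + p3 + p4 + p5 + C 2 * p6).eval 1 ≤ 2 ^ 60 := by
  rw [eval_add, eval_add, eval_add, eval_add, eval_add, eval_mul, eval_C]
  omega

/-- The polynomial `pH` with variable lengths. -/
def xDH_g (a b c d e f : ℕ) : ℕ[X] :=
  nd a (cH 6) (wH 6) + nd b (cH 5) (wH 5) + nd c (cH 4) (wH 4) + nd d (cH 3) (wH 3)
    + nd e (cH 2) (wH 2) + C 2 * nd f (fun i => 16 * i) (fun _ => 1)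

theorem xDH_g_eq (a b c d e f : ℕ) : xDH_g a b c d e f =
    nd a (cH 6) (wH 6) + nd b (cH 5) (wH 5) + nd c (cH 4) (wH 4) + nd d (cH 3) (wH 3)
      + nd e (cH 2) (wH 2) + C 2 * nd f (fun i => 16 * i) (fun _ => 1) := rfl

theorem xDH_pH : pH = xDH_g 14 20 38 513 4097 49152 := rfl

theorem xDH_HA : HA = (((Icc 11 (2 ^ 15)).filter (fun q => q.Coprime 210)) ×ˢ {2}) ∪
    (((Icc 11 (2 ^ 9)).filter (fun q => q.Coprime 210)) ×ˢ {3}) ∪
    (({11, 13, 17, 19, 23, 29, 31, 37} : Finset ℕ) ×ˢ {4}) ∪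
    (({11, 13, 17, 19} : Finset ℕ) ×ˢ {5}) ∪ (({11, 13} : Finset ℕ) ×ˢ {6}) := rfl

theorem xDH_mass : pH.eval 1 ≤ 2 ^ 60 := by
  rw [xDH_pH, xDH_g_eq]
  exact xDH_ev (nd_mass fun i _ => xDH_wb 6 i le_rfl)
    (nd_mass fun i _ => xDH_wb 5 i (by norm_num)) (nd_mass fun i _ => xDH_wb 4 i (by norm_num))
    (nd_mass fun i _ => xDH_wb 3 i (by norm_num)) (nd_mass fun i _ => xDH_wb 2 i (by norm_num))
    (nd_mass fun i _ => le_rfl)

theorem xDH_LH {φ : ℕ → ℝ} (hφ : ∀ n, 0 ≤ φ n) : LH φ ≤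
    ∑ q ∈ range 4097, xDH_v 2 q * φ (q ^ 2) + ∑ q ∈ Ioo 4096 32768, φ (q ^ 2) +
      ∑ q ∈ range 513, xDH_v 3 q * φ (q ^ 3) + ∑ q ∈ range 38, xDH_v 4 q * φ (q ^ 4) +
      ∑ q ∈ range 20, xDH_v 5 q * φ (q ^ 5) + ∑ q ∈ range 14, xDH_v 6 q * φ (q ^ 6) := by
  have h := xDH_five (g := fun α => 2 ^ 24 * hW α * φ (α.1 ^ α.2))
    (fun α => mul_nonneg (mul_nonneg (by positivity) (xDH_hW α)) (hφ _))
    ((Icc 11 (2 ^ 15)).filter fun q => q.Coprime 210)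
    ((Icc 11 (2 ^ 9)).filter fun q => q.Coprime 210) {11, 13, 17, 19, 23, 29, 31, 37}
    {11, 13, 17, 19} {11, 13}
  have h2 := xDH_two hφ ((Icc 11 (2 ^ 15)).filter fun q => q.Coprime 210) fun q hq => by
    obtain ⟨a, b⟩ := mem_filter.1 hq
    obtain ⟨c, d⟩ := mem_Icc.1 a
    refine ⟨lt_of_le_of_ne d fun e => ?_, c, b⟩
    rw [e] at b
    exact absurd b (by norm_num)
  have h3 := xDH_sub hφ ((Icc 11 (2 ^ 9)).filter fun q => q.Coprime 210) 513 3 fun q hq => by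
    obtain ⟨a, b⟩ := mem_filter.1 hq
    obtain ⟨c, d⟩ := mem_Icc.1 a
    exact ⟨by omega, c, b⟩
  have h4 := xDH_sub hφ {11, 13, 17, 19, 23, 29, 31, 37} 38 4 (by decide)
  have h5 := xDH_sub hφ {11, 13, 17, 19} 20 5 (by decide)
  have h6 := xDH_sub hφ {11, 13} 14 6 (by decide)
  rw [← xDH_HA] at h
  exact le_trans h (add_le_add (add_le_add (add_le_add (add_le_add h2 h3) h4) h5) h6)

theorem dH (hLg : DLg) : DH := by
  refine ⟨?_, xDH_mass⟩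
  rw [xDH_pH, xDH_g_eq]
  exact xDH_six (xDH_nodes hLg 14 6 (by norm_num)) (xDH_nodes hLg 20 5 (by norm_num))
    (xDH_nodes hLg 38 4 (by norm_num)) (xDH_nodes hLg 513 3 (by norm_num))
    (xDH_nodes hLg 4097 2 le_rfl) xDH_tail fun φ hφ => xDH_LH hφ

end

end Pool.Agent.MP_88bd62_nt.U.D
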