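import Pool.Agent.MP_88bd62_nt.U.DA

namespace Pool.Agent.MP_88bd62_nt.U.D

open Finset Polynomial

theorem xDList_cl (a : Bool) (x y : PL) : cl a x y = if a = true then x else y := by
  cases a <;> rfl

theorem xDList_cons (c w : ℕ) (t : PL) : val (.cons c w t) = w * 2 ^ (128 * c) + val t := by
  show Nat.add (Nat.shiftLeft w (Nat.mul 128 c)) (val t) = _
  rw [Nat.add_eq, Nat.mul_eq, Nat.shiftLeft_eq', Nat.shiftLeft_eq]

theorem xDList_split (b : ℕ) (l : PL) :
    val (flo b l) + val (fhi b l) * 2 ^ (128 * b) = val l := by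
  induction l with
  | nil => exact (zero_add _).trans (zero_mul _)
  | cons c w t ih =>
    show val (cl (Nat.ble b c) (flo b t) (.cons c w (flo b t))) +
      val (cl (Nat.ble b c) (.cons (Nat.sub c b) w (fhi b t)) (fhi b t)) * _ = _
    rw [xDList_cl, xDList_cl]
    split_ifs with h
    · obtain ⟨d, rfl⟩ := Nat.exists_eq_add_of_le (Nat.le_of_ble_eq_true h)
      rw [xDList_cons, xDList_cons, ← ih, Nat.sub_eq, Nat.add_sub_cancel_left, mul_add 128, pow_add]
      ring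
    · rw [xDList_cons, xDList_cons, ← ih, add_assoc]

theorem xDList_sc1 (l : PL) (x : ℕ) (h : x = val l) : sc1 l x = val l := by
  cases l with
  | nil => rfl
  | cons c w t =>
    cases t with
    | nil => rfl
    | cons _ _ _ => exact h

theorem xDList_sc (k : ℕ) : ∀ l, sc k l = val l := by
  induction k with
  | zero => exact fun _ => rfl
  | succ k ih =>
    intro l
    show sc1 l (Nat.add (sc k (flo (Nat.shiftLeft 1 k) l))
      (Nat.shiftLeft (sc k (fhi (Nat.shiftLeft 1 k) l)) (Nat.shiftLeft 128 k))) = _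
    refine xDList_sc1 _ _ ?_
    rw [ih, ih, ← xDList_split (Nat.shiftLeft 1 k) l]
    simp only [Nat.add_eq, Nat.shiftLeft_eq', Nat.shiftLeft_eq, one_mul]

theorem xDList_pow (b Q N : ℕ) (h : Q + 1 = b ^ N) (c : ℕ) : b ^ (c % N) ≡ b ^ c [MOD Q] := by
  conv_rhs => rw [← Nat.mod_add_div c N, pow_add, pow_mul, ← h]
  have : (Q + 1) ^ (c / N) ≡ 1 ^ (c / N) [MOD Q] := Nat.ModEq.pow _ (by simp [Nat.ModEq])
  simpa using (this.mul_left (b ^ (c % N))).symm

theorem xDList_mon (c w : ℕ) : Ev (w * 2 ^ (128 * Nat.land c 131071)) (monomial c w) := by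
  have e : Nat.land c 131071 = c % 131072 := Nat.and_two_pow_sub_one_eq_mod c 17
  unfold Ev
  rw [eval_monomial, pow_mul, e]
  exact (xDList_pow _ _ _ QQ_succ c).mul_left w

theorem xDList_nil : Ev (val .nil) 0 := by
  unfold Ev
  rw [eval_zero]
  exact Nat.ModEq.refl 0

theorem xDList_gen (c w : ℕ → ℕ) (t : PL) (n : ℕ) (p : ℕ[X]) (h : Ev (val t) p) :
    Ev (val (gen c w t n)) (p + nd n c w) := by
  induction n with
  | zero =>
    rw [nd, sum_range_zero, add_zero]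
    exact h
  | succ n ih =>
    show Ev (val (cl (Nat.beq (w n) 0) (gen c w t n)
      (.cons (Nat.land (c n) 131071) (w n) (gen c w t n)))) _
    rw [nd, sum_range_succ, ← nd, ← add_assoc, xDList_cl]
    split_ifs with h0
    · rw [Nat.eq_of_beq_eq_true h0, monomial_zero_right, add_zero]
      exact ih
    · rw [xDList_cons, add_comm]
      exact ih.add (xDList_mon _ _)

theorem xDList_ofL (l : List (ℕ × ℕ)) : Ev (val (ofL l))
    (l.map fun x => monomial (cS x.1 + cM x.2) (wS x.1 * wM x.2)).sum := by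
  induction l with
  | nil => exact xDList_nil
  | cons x l ih =>
    show Ev (val (.cons (Nat.land (cS x.1 + cM x.2) 131071) (wS x.1 * wM x.2) (ofL l))) _
    rw [xDList_cons, List.map_cons, List.sum_cons]
    exact (xDList_mon _ _).add ih

theorem xDList_box (s n b : ℕ) : (box s n).eval b = (∑ i ∈ range n, b ^ i) * b ^ s := by
  rw [box, eval_finsetSum, sum_mul]
  exact sum_congr rfl fun i _ => by rw [eval_monomial, one_mul, pow_add, mul_comm]

noncomputable def xDList_P (N a b m n s t : ℕ) : ℕ[X] :=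
  box 0 N + (C a * box s m + C b * box t n)

noncomputable def xDList_A (N a b m n s t : ℕ) : ℕ :=
  Nat.add (one 128 N) (Nat.add (Nat.shiftLeft (Nat.mul a (one 128 m)) s)
    (Nat.shiftLeft (Nat.mul b (one 128 n)) t))

theorem xDList_aq (hOne : DOne) (N a b m n s t s' t' : ℕ) (hs : s' = 128 * s) (ht : t' = 128 * t) :
    Ev (xDList_A N a b m n s' t') (xDList_P N a b m n s t) := by
  unfold Ev xDList_A xDList_P
  rw [hs, ht, hOne 128 N (by norm_num), hOne 128 m (by norm_num), hOne 128 n (by norm_num)]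
  simp only [Nat.add_eq, Nat.mul_eq, Nat.shiftLeft_eq', Nat.shiftLeft_eq, eval_add, eval_mul,
    eval_C, xDList_box, pow_mul, pow_zero, mul_one, mul_assoc]
  exact Nat.ModEq.refl _

theorem xDList_mass (N a b m n s t : ℕ) :
    (xDList_P N a b m n s t).eval 1 = N + (a * m + b * n) := by
  simp [xDList_P, xDList_box]

noncomputable def xDList_G (k n : ℕ) : ℕ :=
  Nat.mod (Nat.add (sc k lH) (Nat.mul 2 (one 2048 n))) QQ

theorem xDList_H (hOne : DOne) (k n : ℕ) {p : ℕ[X]} (h : Ev (val lH) p) :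
    Ev (xDList_G k n) (p + C 2 * nd n (fun i => 16 * i) fun _ => 1) := by
  have e : Ev (one 2048 n) (nd n (fun i => 16 * i) fun _ => 1) := by
    unfold Ev
    rw [hOne 2048 n (by norm_num), nd, eval_finsetSum]
    simp only [eval_monomial, one_mul, ← pow_mul, ← mul_assoc]
    exact Nat.ModEq.refl _
  rw [← xDList_sc k] at h
  exact (h.add ((Ev.C 2).mul e)).mod

theorem xDList_five (c w : ℕ → ℕ → ℕ) (n₂ n₃ n₄ n₅ n₆ : ℕ) :
    Ev (val (gen (c 2) (w 2) (gen (c 3) (w 3) (gen (c 4) (w 4) (gen (c 5) (w 5)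
      (gen (c 6) (w 6) PL.nil n₆) n₅) n₄) n₃) n₂))
      (nd n₆ (c 6) (w 6) + nd n₅ (c 5) (w 5) + nd n₄ (c 4) (w 4) + nd n₃ (c 3) (w 3)
        + nd n₂ (c 2) (w 2)) := by
  have h := xDList_gen (c 2) (w 2) _ n₂ _ (xDList_gen (c 3) (w 3) _ n₃ _
    (xDList_gen (c 4) (w 4) _ n₄ _ (xDList_gen (c 5) (w 5) _ n₅ _
      (xDList_gen (c 6) (w 6) _ n₆ _ xDList_nil))))
  rwa [zero_add] at h

noncomputable def xDList_L (n₂ n₃ n₄ n₅ n₆ n : ℕ) : ℕ[X] :=
  nd n₆ (cH 6) (wH 6) + nd n₅ (cH 5) (wH 5) + nd n₄ (cH 4) (wH 4) + nd n₃ (cH 3) (wH 3)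
    + nd n₂ (cH 2) (wH 2) + C 2 * nd n (fun i => 16 * i) (fun _ => 1)

theorem xDList_Hfin (hOne : DOne) (k n₂ n₃ n₄ n₅ n₆ n : ℕ)
    (h : lH = gen (cH 2) (wH 2) (gen (cH 3) (wH 3) (gen (cH 4) (wH 4) (gen (cH 5) (wH 5)
      (gen (cH 6) (wH 6) PL.nil n₆) n₅) n₄) n₃) n₂) :
    Ev (xDList_G k n) (xDList_L n₂ n₃ n₄ n₅ n₆ n) :=
  xDList_H hOne k n (h ▸ xDList_five cH wH n₂ n₃ n₄ n₅ n₆)

theorem xDList_aH : aH = xDList_G 17 49152 := rfl

theorem xDList_pH : pH = xDList_L 4097 513 38 20 14 49152 := rfl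

theorem xDList_lH : lH = gen (cH 2) (wH 2) (gen (cH 3) (wH 3) (gen (cH 4) (wH 4)
    (gen (cH 5) (wH 5) (gen (cH 6) (wH 6) PL.nil 14) 20) 38) 513) 4097 := rfl

theorem xDList_pq (F : ℕ) : pq F = xDList_P 131072 743 725943 (F + 12) (F + 2) 131066 131071 := rfl

theorem xDList_aq' (F : ℕ) :
    aq F = xDList_A 131072 743 725943 (Nat.add F 12) (Nat.add F 2) 16776448 16777088 := rfl

theorem dList (hOne : DOne) : DList := by
  refine ⟨xDList_sc, xDList_gen, xDList_ofL, fun F => ?_, ?_⟩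
  · rw [xDList_pq, xDList_aq', Nat.add_eq, Nat.add_eq]
    exact ⟨xDList_aq hOne _ _ _ _ _ _ _ _ _ (by norm_num) (by norm_num), xDList_mass ..⟩
  · rw [xDList_aH, xDList_pH]
    exact xDList_Hfin hOne _ _ _ _ _ _ _ xDList_lH

end Pool.Agent.MP_88bd62_nt.U.D
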