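import Pool.Agent.MP_88bd62_nt.U.DA

/-! The small nodes and the table of roots of two. -/

namespace Pool.Agent.MP_88bd62_nt.U.D

open Finset

theorem xDMs_rec (m n : ℕ) :
    @Nat.rec (fun _ => ℕ) 0 (fun e ih => cn (Nat.beq (Nat.mod m (Nat.succ e)) 0) (Nat.succ ih) ih) n
      = ((Ioc 0 n).filter (· ∣ m)).card := by
  induction n with
  | zero => simp
  | succ n ih =>
    change cn (Nat.beq (m % (n + 1)) 0) (Nat.succ _) _ = _
    rw [ih, cn_eq, ← Finset.insert_Ioc_right_eq_Ioc_add_one (Nat.zero_le n), filter_insert]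
    simp only [Nat.beq_eq, ← Nat.dvd_iff_mod_eq_zero]
    split_ifs
    · rw [card_insert_of_notMem (by simp)]
    · rfl

theorem xDMs_dv (m : ℕ) : dv m = m.divisors.card := by
  rw [dv, xDMs_rec, Nat.divisors]
  congr 2

theorem xDMs_cM (hLg : DLg) {m e : ℕ} (hm : m ≠ 0) (he : 1 * e = 131072) :
    Pos 0 1 m (lg 21 (Nat.pow m e)) := by
  have h := Pos.log hm 1 e he
  rw [one_mul, Nat.cast_one] at h
  rw [hLg, Nat.pow_eq]
  exact h

theorem dMs (hLg : DLg) : DMs := by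
  intro m _
  have h1 : wM m = if m.Coprime 210 then m.divisors.card * 2 ^ 28 / m + 1 else 0 := by
    rw [wM, cn_eq, xDMs_dv, Nat.shiftLeft_eq', Nat.shiftLeft_eq]
    simp only [cop_eq]
    rfl
  have h2 : m.divisors.card * 2 ^ 28 / m ≤ 2 ^ 28 :=
    Nat.div_le_of_le_mul (Nat.mul_le_mul_right _ (Nat.card_divisors_le_self m))
  refine ⟨by rw [h1]; split_ifs <;> omega, fun h => ?_⟩
  have hm : m ≠ 0 := by
    rintro rfl
    simp at h
  refine ⟨?_, ?_⟩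
  · rw [h1, if_pos h, mW]
    have h3 : (0 : ℝ) < m := by positivity
    have h4 : ((m.divisors.card * 2 ^ 28 : ℕ) : ℝ) ≤
        (m * (m.divisors.card * 2 ^ 28 / m + 1) : ℕ) := by
      exact_mod_cast (Nat.lt_mul_div_succ _ (Nat.pos_of_ne_zero hm)).le
    rw [Nat.cast_mul m] at h4
    rw [← mul_div_assoc, div_le_iff₀ h3, mul_comm _ (m : ℝ)]
    refine le_trans (le_of_eq ?_) h4
    push_cast
    ring
  · rw [cM]
    exact xDMs_cM hLg hm (one_mul _)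

theorem xDMs_rk : ∀ k < 17, rk k ^ 2 ^ (17 - k) ≤ 2 ^ (60 * 2 ^ (17 - k) + 1) ∧
    2 ^ (60 * 2 ^ (17 - k) + 1) ≤ (rk k + 1) ^ 2 ^ (17 - k) := by decide +kernel

theorem xDMs_root {r n : ℕ} {x : ℝ} (hn : n ≠ 0) (hx : x * n = 1)
    (h : r ^ n ≤ 2 ^ (60 * n + 1) ∧ 2 ^ (60 * n + 1) ≤ (r + 1) ^ n) :
    (r : ℝ) ≤ 2 ^ 60 * 2 ^ x ∧ 2 ^ 60 * 2 ^ x ≤ (r : ℝ) + 1 := by
  have e : ((2 : ℝ) ^ 60 * 2 ^ x) ^ n = 2 ^ (60 * n + 1) := by
    rw [mul_pow, ← Real.rpow_natCast (2 ^ x), ← Real.rpow_mul zero_le_two, hx, Real.rpow_one,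
      pow_succ _ (60 * n), pow_mul]
  constructor
  · refine le_of_pow_le_pow_left₀ hn (by positivity) ?_
    rw [e]
    exact_mod_cast h.1
  · refine le_of_pow_le_pow_left₀ hn (by positivity) ?_
    rw [e]
    exact_mod_cast h.2

theorem dRk : DRk := by
  intro k hk
  refine xDMs_root (n := 2 ^ (17 - k)) (by positivity) ?_ (xDMs_rk k hk)
  push_cast
  rw [div_mul_eq_mul_div, ← pow_add, Nat.add_sub_cancel' hk.le]
  norm_num

end Pool.Agent.MP_88bd62_nt.U.D
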