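import Pool.Agent.MP_88bd62_nt.U.DA

/-! Repunits, their digits, and the logarithm by bisection. -/

namespace Pool.Agent.MP_88bd62_nt.U.D

open Finset
open Pool.Agent.MP_22d5c4_co.K (dig dig_add dig_shl)

theorem xDOne_lt {t w : ℕ} (h : t + 2 ≤ w) : 2 ^ t < 2 ^ w - 1 := by
  have h1 : 2 ^ (t + 2) ≤ 2 ^ w := Nat.pow_le_pow_right two_pos h
  have h2 : 0 < 2 ^ t := Nat.two_pow_pos t
  rw [pow_add] at h1
  omega

theorem xDOne_step {w : ℕ} (h : 2 ≤ w) (t : ℕ) :
    2 ^ (t + w) / (2 ^ w - 1) = 2 ^ t / (2 ^ w - 1) + 2 ^ t := by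
  have h1 : 2 ^ 0 < 2 ^ w - 1 := xDOne_lt (by omega)
  obtain ⟨m, hm⟩ : ∃ m, 2 ^ w = m + 1 := ⟨2 ^ w - 1, by omega⟩
  rw [hm, Nat.add_sub_cancel] at h1
  rw [pow_add, hm, Nat.add_sub_cancel, mul_add, mul_one, add_comm,
    Nat.add_mul_div_right _ _ (by omega)]

theorem xDOne_one (w n : ℕ) : one w n = 2 ^ (w * n) / (2 ^ w - 1) := by
  rw [← Nat.one_shiftLeft, ← Nat.one_shiftLeft]
  rfl

theorem dOne : DOne := fun w n h => by
  rw [xDOne_one]
  induction n with
  | zero => exact Nat.div_eq_of_lt (xDOne_lt (by omega))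
  | succ n ih => rw [sum_range_succ, ← ih, Nat.mul_succ, xDOne_step h]

theorem xDOne_pow {K : ℕ} (hK : 2 ≤ K) (B i : ℕ) :
    dig K (2 ^ (K * B)) i = if i = B then 1 else 0 := by
  have h1 : ∀ t, t ≠ 0 → 1 < 2 ^ t := fun t ht => Nat.one_lt_two_pow ht
  rw [← one_mul (2 ^ (K * B)), dig_shl, dig]
  split_ifs with h2 h3 h3
  · rw [h3, Nat.sub_self, mul_zero, pow_zero, Nat.div_one, Nat.mod_eq_of_lt (h1 K (by omega))]
  · rw [Nat.div_eq_of_lt (h1 _ (mul_ne_zero (by omega) (by omega))), Nat.zero_mod]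
  · omega
  · rfl

theorem xDOne_dig {K e : ℕ} (hK : 2 ≤ K) (he : 1 ≤ e) (B : ℕ) : ∀ j,
    dig K (2 ^ (K * B) / (2 ^ (K * e) - 1)) j = if j < B ∧ e ∣ B - j then 1 else 0 := by
  induction B using Nat.strong_induction_on with
  | _ B ih =>
    intro j
    rcases lt_or_ge B e with h | h
    · have h1 : K * (B + 1) ≤ K * e := Nat.mul_le_mul_left K h
      rw [Nat.mul_succ] at h1
      rw [Nat.div_eq_of_lt (xDOne_lt (by omega)), if_neg, dig, Nat.zero_div, Nat.zero_mod]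
      rintro ⟨h2, h3⟩
      have := Nat.le_of_dvd (by omega) h3
      omega
    · obtain ⟨B, rfl⟩ := Nat.exists_eq_add_of_le' h
      have h1 : K * 1 ≤ K * e := Nat.mul_le_mul_left K he
      have h2 : 2 ^ 2 ≤ 2 ^ K := Nat.pow_le_pow_right two_pos hK
      rw [mul_add, xDOne_step (by omega), dig_add K (j + 1) _ _ (fun i _ => by
        rw [ih B (by omega), xDOne_pow hK]
        split_ifs <;> omega) j (Nat.lt_succ_self j), ih B (by omega), xDOne_pow hK]
      rcases lt_trichotomy j B with h3 | rfl | h3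
      · rw [if_neg h3.ne, add_zero, show B + e - j = B - j + e by omega]
        simp only [h3, true_and, Nat.dvd_add_self_right, show j < B + e by omega]
      · rw [if_neg (by omega), if_pos rfl, if_pos ⟨by omega, by rw [Nat.add_sub_cancel_left]⟩]
      · rw [if_neg (by omega), if_neg h3.ne', if_neg]
        rintro ⟨h4, h5⟩
        have := Nat.le_of_dvd (by omega) h5
        omega

theorem xDOne_pat {e : ℕ} (he : 1 ≤ e) (K a b c i : ℕ) (hK : 2 ≤ K) (h : b + 1 = a + c) :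
    dig K (Nat.div (Nat.shiftLeft 1 (Nat.mul K (Nat.add a (Nat.sub (Nat.sub e 1) (Nat.mod b e)))))
      (Nat.sub (Nat.shiftLeft 1 (Nat.mul K e)) 1)) i = if i < a ∧ e ∣ c + i then 1 else 0 := by
  have h1 := xDOne_dig hK he (a + (e - 1 - b % e)) i
  rw [← Nat.one_shiftLeft, ← Nat.one_shiftLeft] at h1
  refine h1.trans (if_congr ?_ rfl rfl)
  have h2 := Nat.mod_lt b he
  have h3 := Nat.div_add_mod b e
  have h4 : i < a + (e - 1 - b % e) → (e ∣ a + (e - 1 - b % e) - i ↔ e ∣ c + i) := fun hi => by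
    have h5 : e ∣ a + (e - 1 - b % e) - i + (c + i) := ⟨b / e + 1, by rw [Nat.mul_succ]; omega⟩
    exact ⟨fun h6 => (Nat.dvd_add_right h6).1 h5, fun h6 => (Nat.dvd_add_left h6).1 h5⟩
  refine ⟨fun ⟨h5, h6⟩ => ⟨?_, (h4 h5).1 h6⟩, fun ⟨h5, h6⟩ => ⟨by omega, (h4 (by omega)).2 h6⟩⟩
  have := Nat.le_of_dvd (by omega) h6
  omega

theorem dPat : DPat := fun _ i he _ =>
  xDOne_pat he 24 524288 1048576 524289 i (by norm_num) (by norm_num)

theorem xDOne_lg (k x : ℕ) : lg (k + 1) x = cn (Nat.beq (x >>> (1 <<< k)) 0) (lg k x)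
    (lg k (x >>> (1 <<< k)) + 1 <<< k) := rfl

theorem dLg : DLg := fun k => by
  induction k with
  | zero => exact fun _ => Nat.log2_eq_log_two
  | succ k ih =>
    intro x
    rw [xDOne_lg, cn_eq, ih, ih, Nat.shiftRight_eq_div_pow, Nat.log_div_base_pow]
    generalize 1 <<< k = n
    split_ifs with h
    · rfl
    · rw [Nat.beq_eq, Nat.div_eq_zero_iff_lt (Nat.two_pow_pos n), not_lt] at h
      exact Nat.sub_add_cancel (Nat.le_log_of_pow_le one_lt_two h)

end Pool.Agent.MP_88bd62_nt.U.D
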