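import Pool.Agent.MP_88bd62_nt.U.DA

/-! Packing a dyadic tree of values in slots. -/

namespace Pool.Agent.MP_88bd62_nt.U.D

open Finset Pool.Agent.MP_22d5c4_co.K

theorem xDPack_cat {w n a : ℕ} (b : ℕ) (ha : a < 2 ^ (w * n)) (i : ℕ) :
    dig w (a + b * 2 ^ (w * n)) i = if i < n then dig w a i else dig w b (i - n) := by
  split_ifs with h
  · rw [← dig_mod w _ n i h, Nat.add_mul_mod_self_right, Nat.mod_eq_of_lt ha]
  · obtain ⟨j, rfl⟩ := Nat.exists_eq_add_of_le' (not_lt.1 h)
    rw [← dig_shift, Nat.add_mul_div_right _ _ (by positivity), Nat.div_eq_of_lt ha, zero_add,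
      Nat.add_sub_cancel]

theorem xDPack_lt {w n m a b : ℕ} (ha : a < 2 ^ (w * n)) (hb : b < 2 ^ (w * m)) :
    a + b * 2 ^ (w * n) < 2 ^ (w * (n + m)) := by
  rw [mul_add, pow_add]
  nlinarith

theorem xDPack_leaf {w c : ℕ} (hc : c < 2 ^ w) (n : ℕ) :
    c * ∑ i ∈ range n, 2 ^ (w * i) < 2 ^ (w * n) ∧
      ∀ i < n, dig w (c * ∑ i ∈ range n, 2 ^ (w * i)) i = c := by
  induction n with
  | zero => simp
  | succ n ih =>
    rw [sum_range_succ, mul_add]
    refine ⟨xDPack_lt ih.1 (by rwa [mul_one]), fun i hi => ?_⟩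
    rw [xDPack_cat c ih.1]
    split_ifs with h
    · exact ih.2 i h
    · rw [show i - n = 0 by omega, dig_zero, Nat.mod_eq_of_lt hc]

theorem xDPack_node (h : ℕ → ℕ) (w : ℕ) (l r : Tb) (d : ℕ) :
    (Tb.node l r).pack h w (d + 1) = l.pack h w d + r.pack h w d * 2 ^ (w * 2 ^ d) := by
  rw [← Nat.shiftLeft_eq, ← Nat.shiftLeft_eq]
  rfl

theorem dPack (hOne : DOne) : DPack := by
  intro h w hw hh t
  induction t with
  | leaf v =>
    intro d
    have e : (Tb.leaf v).pack h w d = h v * one w (1 <<< d) := rfl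
    rw [e, hOne w _ hw, Nat.shiftLeft_eq, one_mul]
    exact xDPack_leaf (hh v) _
  | node l r il ir =>
    intro d
    cases d with
    | zero => exact il 0
    | succ d =>
      rw [xDPack_node]
      refine ⟨?_, fun i hi => ?_⟩
      · rw [pow_succ, mul_two]
        exact xDPack_lt (il d).1 (ir d).1
      · rw [xDPack_cat _ (il d).1, Tb.val]
        split_ifs with h1
        · exact (il d).2 i h1
        · exact (ir d).2 _ (by rw [pow_succ] at hi; omega)

end Pool.Agent.MP_88bd62_nt.U.D
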