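import Pool.Agent.MP_88bd62_nt.U.DA

/-! The weight of a jump is majorized by three boxes. -/

namespace Pool.Agent.MP_88bd62_nt.U.D

open Finset Polynomial

theorem xDPsi_dz {t v δ : ℝ} {M : ℤ} (h : 131072 * (t - M) = v) (h1 : δ ≤ |v|)
    (h2 : |v| ≤ 131072 - δ) : 8 * δ ≤ 2 ^ 20 * dZ t := by
  obtain ⟨h3, h4⟩ := abs_le.1 h2
  have h5 := le_abs_self (t - round t)
  have h6 := neg_abs_le (t - round t)
  unfold dZ
  rcases lt_trichotomy (round t) M with e | e | e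
  · have : (round t : ℝ) + 1 ≤ M := by exact_mod_cast e
    linarith
  · rw [e] at h5 h6 ⊢
    rcases le_abs.1 h1 with h7 | h7 <;> linarith
  · have : (M : ℝ) + 1 ≤ round t := by exact_mod_cast e
    linarith

theorem xDPsi_far {d a : ℝ} (ha : 1 ≤ a) (h : a ≤ 2 ^ 20 * d) :
    psi (2 ^ 20) (1 / 2 ^ 23) d ≤ 1.007 * (0.045 / a ^ 3) := by
  unfold psi
  push_cast
  rw [if_neg (by linarith), if_neg (by linarith), add_zero]
  gcongr
  linarith

theorem xDPsi_all (d : ℝ) : psi (2 ^ 20) (1 / 2 ^ 23) d ≤ 1.007 * (1 / 2 + 3 / 16) := by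
  unfold psi
  push_cast
  gcongr
  · split_ifs with h
    · exact le_rfl
    · refine le_trans (b := 0.045 / (1 / 2) ^ 3) ?_ (by norm_num)
      gcongr
      exact (not_le.1 h).le
  · split_ifs <;> norm_num

theorem xDPsi_box (s w : ℕ) {Φ : ℕ → ℝ} (h : ∀ j, 0 ≤ Φ j) {j : ℕ} (hj : j < w)
    (h1 : Φ (s + j) = 1) : 1 ≤ pr (box s w) Φ := by
  rw [box, pr_sum]
  refine le_trans ?_ (single_le_sum (fun i _ => pr_nonneg _ h) (mem_range.2 hj))
  rw [pr_monomial, h1, Nat.cast_one, one_mul]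

theorem xDPsi_eq : pq = fun F =>
    box 0 131072 + (C 743 * box 131066 (F + 12) + C 725943 * box 131071 (F + 2)) := by
  delta pq
  with_reducible rfl

theorem xDPsi_lin (a b c : ℕ[X]) (Φ : ℕ → ℝ) :
    pr (a + (C 743 * b + C 725943 * c)) Φ = pr a Φ + (743 * pr b Φ + 725943 * pr c Φ) := by
  rw [pr_add, pr_add, pr_C, pr_C]
  norm_num

theorem xDPsi_pq (F : ℕ) (Φ : ℕ → ℝ) : pr (pq F) Φ = pr (box 0 131072) Φ +
    (743 * pr (box 131066 (F + 12)) Φ + 725943 * pr (box 131071 (F + 2)) Φ) := by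
  rewrite [xDPsi_eq]
  exact xDPsi_lin _ _ _ _

theorem dPsi : DPsi := by
  intro F n c J u hF hp hJ h3 h4
  obtain ⟨-, z, h1, h2⟩ := hp
  obtain ⟨Φ, hΦ⟩ : ∃ Φ : ℕ → ℝ, Φ = fun j => if (c + j) % 131072 = J then 1 else 0 := ⟨_, rfl⟩
  have h0 : ∀ j, 0 ≤ Φ j := fun j => by
    rw [hΦ]
    dsimp only
    split_ifs <;> norm_num
  have h5 : ∀ j, (c + j) % 131072 = J → Φ j = 1 := fun j hj => by rw [hΦ]; exact if_pos hj
  obtain ⟨k, m, hk, k1, k2⟩ : ∃ k m : ℤ, (J : ℤ) - c = k + 131072 * m ∧ -6 ≤ k ∧ k < 131066 :=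
    ⟨(J - c + 6) % 131072 - 6, (J - c + 6) / 131072, by omega, by omega, by omega⟩
  have hk' : (J : ℝ) - c = k + 131072 * m := by exact_mod_cast hk
  have hF' : (F : ℝ) ≤ 100 := by exact_mod_cast hF
  have k1' : (-6 : ℝ) ≤ k := by exact_mod_cast k1
  have k2' : (k : ℝ) ≤ 131065 := by exact_mod_cast Int.le_of_lt_add_one k2
  have b0 := xDPsi_box 0 131072 h0 (j := (k % 131072).toNat) (by omega) (h5 _ (by omega))
  have b1 := pr_nonneg (box 131066 (F + 12)) h0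
  have b2 := pr_nonneg (box 131071 (F + 2)) h0
  rewrite [← hΦ, xDPsi_pq]
  rw [div_le_iff₀ (by norm_num)] at h3
  rw [le_div_iff₀ (by norm_num)] at h4
  obtain ⟨v, hv⟩ : ∃ v : ℝ, 131072 * (u - th n - (m - z : ℤ)) = v := ⟨_, rfl⟩
  have v1 : k - F - 1 / 2 ≤ v := by push_cast at hv; linarith
  have v2 : v ≤ k + 3 / 2 := by push_cast at hv; linarith
  have v3 : |v| ≤ 131072 - 11 / 2 := abs_le.2 ⟨by linarith, by linarith⟩
  by_cases c1 : -1 ≤ k ∧ k ≤ F
  · have := xDPsi_box 131071 (F + 2) h0 (j := (k + 1).toNat) (by omega) (h5 _ (by omega))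
    have := xDPsi_all (dZ (u - th n))
    linarith
  by_cases c2 : k ≤ F + 5
  · have := xDPsi_box 131066 (F + 12) h0 (j := (k + 6).toNat) (by omega) (h5 _ (by omega))
    have h6 : 1 / 2 ≤ |v| := by
      rcases le_or_gt (-1) k with h | h
      · have : (F : ℝ) + 1 ≤ k := by exact_mod_cast (by omega : (F : ℤ) + 1 ≤ k)
        exact le_abs.2 (Or.inl (by linarith))
      · have : (k : ℝ) ≤ -2 := by exact_mod_cast (by omega : k ≤ -2)
        exact le_abs.2 (Or.inr (by linarith))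
    have := xDPsi_far (a := 4) (by norm_num)
      (le_trans (by norm_num) (xDPsi_dz hv h6 (by linarith)))
    linarith
  · have h6 : (F : ℝ) + 6 ≤ k := by exact_mod_cast (by omega : (F : ℤ) + 6 ≤ k)
    have := xDPsi_far (a := 44) (by norm_num)
      (le_trans (by norm_num) (xDPsi_dz hv (le_abs.2 (Or.inl (by linarith))) v3))
    linarith

end Pool.Agent.MP_88bd62_nt.U.D
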