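import Pool.Agent.MP_88bd62_nt.U.DA

/-! The smooth part: enumeration, weights and positions. -/

namespace Pool.Agent.MP_88bd62_nt.U.D

open Finset

theorem xDS_log (p e l : ℕ) (h : Nat.shiftRight (Nat.pow p e) l = 1) :
    (l : ℝ) ≤ e * th p ∧ e * th p ≤ l + 1 := by
  have h0 : p ^ e / 2 ^ l = 1 := by
    rw [← Nat.shiftRight_eq_div_pow]
    exact h
  have h2 : 0 < 2 ^ l := by positivity
  have h3 : 2 ^ l ≤ p ^ e := by
    have := Nat.div_mul_le_self (p ^ e) (2 ^ l)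
    rw [h0, one_mul] at this
    exact this
  have h4 : p ^ e ≤ 2 ^ (l + 1) := by
    have := Nat.lt_mul_div_succ (p ^ e) h2
    rw [h0] at this
    rw [pow_succ]
    exact this.le
  have h5 : 0 < p ^ e := h2.trans_le h3
  have h6 : th (2 ^ l) ≤ th (p ^ e) :=
    Real.logb_le_logb_of_le one_lt_two (by exact_mod_cast h2) (by exact_mod_cast h3)
  have h7 : th (p ^ e) ≤ th (2 ^ (l + 1)) :=
    Real.logb_le_logb_of_le one_lt_two (by exact_mod_cast h5) (by exact_mod_cast h4)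
  rw [th_pow, th_pow, th_two] at h6 h7
  push_cast at h7
  constructor <;> linarith

theorem xDS_k : Nat.shiftRight (Nat.pow 3 16777216) 26591258 = 1 ∧
    Nat.shiftRight (Nat.pow 5 16777216) 38955489 = 1 ∧
    Nat.shiftRight (Nat.pow 7 16777216) 47099599 = 1 :=
  ⟨by decide +kernel, by decide +kernel, by decide +kernel⟩

theorem xDS_w (a b c : ℕ) :
    wS3 a b c = 2 ^ 20 * 2 ^ (a + (b + c)) / (3 ^ a * (5 ^ b * 7 ^ c)) + 1 := by
  have : wS3 a b c = (1048576 <<< (a + (b + c))) / (3 ^ a * (5 ^ b * 7 ^ c)) + 1 := rfl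
  rw [this, Nat.shiftLeft_eq]
  norm_num

theorem xDS_c (a b c : ℕ) :
    cS3 a b c = (a * 26591258 + (b * 38955489 + c * 47099599)) / 128 := by
  have : cS3 a b c = (a * 26591258 + (b * 38955489 + c * 47099599)) >>> 7 := rfl
  rw [this, Nat.shiftRight_eq_div_pow]

theorem xDS_main (a b c : ℕ) (h : a + (b + c) ≤ 57) :
    2 ^ 20 * sW (a, b, c) ≤ wS3 a b c ∧ wS3 a b c ≤ 2 ^ 80 ∧
      Pos 0 1.45 (sN (a, b, c)) (cS3 a b c) := by
  refine ⟨?_, ?_, ?_⟩
  · rw [xDS_w]
    have hN : 0 < 3 ^ a * (5 ^ b * 7 ^ c) := by positivity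
    have h1 := Nat.lt_mul_div_succ (2 ^ 20 * 2 ^ (a + (b + c))) hN
    generalize 2 ^ 20 * 2 ^ (a + (b + c)) / (3 ^ a * (5 ^ b * 7 ^ c)) + 1 = W at h1 ⊢
    have h2 : ((2 ^ 20 * 2 ^ (a + (b + c)) : ℕ) : ℝ) ≤ (3 ^ a * (5 ^ b * 7 ^ c) * W : ℕ) := by
      exact_mod_cast h1.le
    have h3 : (2 : ℝ) ^ 20 * sW (a, b, c)
        = 2 ^ 20 * 2 ^ (a + (b + c)) / (3 ^ a * (5 ^ b * 7 ^ c)) := by
      simp only [sW, div_pow, pow_add]
      field_simp
    rw [h3, div_le_iff₀ (by positivity)]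
    push_cast at h2
    linarith
  · rw [xDS_w]
    have h1 : 2 ^ 20 * 2 ^ (a + (b + c)) / (3 ^ a * (5 ^ b * 7 ^ c)) ≤ 2 ^ 20 * 2 ^ (a + (b + c)) :=
      Nat.div_le_self _ _
    have h2 : 2 ^ (a + (b + c)) ≤ 2 ^ 57 := Nat.pow_le_pow_right two_pos h
    omega
  · obtain ⟨k3, k5, k7⟩ := xDS_k
    obtain ⟨l3, u3⟩ := xDS_log _ _ _ k3
    obtain ⟨l5, u5⟩ := xDS_log _ _ _ k5
    obtain ⟨l7, u7⟩ := xDS_log _ _ _ k7
    clear k3 k5 k7
    have e : th (sN (a, b, c)) = a * th 3 + b * th 5 + c * th 7 := by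
      simp only [sN]
      rw [th_mul (by positivity) (by positivity), th_mul (by positivity) (by positivity),
        th_pow, th_pow, th_pow]
    rw [xDS_c]
    have d1 : 128 * ((a * 26591258 + (b * 38955489 + c * 47099599)) / 128)
        ≤ a * 26591258 + (b * 38955489 + c * 47099599) := Nat.mul_div_le _ _
    have d2 : a * 26591258 + (b * 38955489 + c * 47099599)
        ≤ 128 * ((a * 26591258 + (b * 38955489 + c * 47099599)) / 128) + 127 := by omega
    generalize (a * 26591258 + (b * 38955489 + c * 47099599)) / 128 = C at d1 d2 ⊢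
    have d3 : (128 * C : ℝ) ≤ a * 26591258 + (b * 38955489 + c * 47099599) := by
      exact_mod_cast d1
    have d4 : (a * 26591258 + (b * 38955489 + c * 47099599) : ℝ) ≤ 128 * C + 127 := by
      exact_mod_cast d2
    have d5 : (a + (b + c) : ℝ) ≤ 57 := by exact_mod_cast h
    have a0 : (0 : ℝ) ≤ a := Nat.cast_nonneg _
    have b0 : (0 : ℝ) ≤ b := Nat.cast_nonneg _
    have c0 : (0 : ℝ) ≤ c := Nat.cast_nonneg _
    push_cast at l3 u3 l5 u5 l7 u7
    have m3 := mul_le_mul_of_nonneg_left l3 a0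
    have n3 := mul_le_mul_of_nonneg_left u3 a0
    have m5 := mul_le_mul_of_nonneg_left l5 b0
    have n5 := mul_le_mul_of_nonneg_left u5 b0
    have m7 := mul_le_mul_of_nonneg_left l7 c0
    have n7 := mul_le_mul_of_nonneg_left u7 c0
    refine ⟨by simp only [sN]; positivity, 0, ?_, ?_⟩ <;> rw [e] <;> push_cast <;> linarith

theorem dS : DS := by
  refine ⟨fun F => ?_, fun i hi => ?_⟩
  · refine sum_nbij' (fun s => 165 * s.1 + 11 * s.2.1 + s.2.2) dec ?_ ?_ ?_ ?_ ?_
    · rintro ⟨a, b, c⟩ h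
      simp only [SB, mem_product, mem_range] at h ⊢
      omega
    · intro i h
      simp only [SB, dec, mem_product, mem_range] at h ⊢
      omega
    · rintro ⟨a, b, c⟩ h
      simp only [SB, dec, mem_product, mem_range, Prod.mk.injEq] at h ⊢
      omega
    · intro i h
      simp only [dec, mem_range] at h ⊢
      omega
    · rintro ⟨a, b, c⟩ h
      simp only [SB, dec, mem_product, mem_range] at h ⊢
      congr 2
      · omega
      · congr 1 <;> omega
  · exact xDS_main (i / 165) (i / 11 % 15) (i % 11) (by omega)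

end Pool.Agent.MP_88bd62_nt.U.D
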