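import Pool.Agent.MP_88bd62_nt.U.DA

/-! Transfer of the majorant from the dyadic window to the numbers prime to `210`. -/

namespace Pool.Agent.MP_88bd62_nt.U.D

open Finset Polynomial
open Pool.Agent.MP_22d5c4_co.K (dig)

theorem xDTr_ex {m : ℕ} (h1 : 512 < m) (h2 : m ≤ 2 ^ 20) :
    ∃ x : ℕ × ℕ, x.1 ≤ 10 ∧ x.2 < 524288 ∧ m * 2 ^ x.1 = 524289 + x.2 := by
  have e1 : Nat.clog 2 m ≤ 20 := (Nat.clog_le_iff_le_pow one_lt_two).2 h2
  have e2 : 9 < Nat.clog 2 m := (Nat.lt_clog_iff_pow_lt one_lt_two).2 (by omega)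
  have e3 : m ≤ 2 ^ Nat.clog 2 m := Nat.le_pow_clog one_lt_two m
  have e4 : 2 ^ (Nat.clog 2 m - 1) < m := Nat.pow_pred_clog_lt_self one_lt_two (by omega)
  generalize Nat.clog 2 m = c at *
  have e5 : m * 2 ^ (20 - c) ≤ 2 ^ 20 := by
    calc m * 2 ^ (20 - c) ≤ 2 ^ c * 2 ^ (20 - c) := Nat.mul_le_mul_right _ e3
      _ = 2 ^ 20 := by rw [← pow_add]; congr 1; omega
  have e6 : 2 ^ 19 < m * 2 ^ (20 - c) := by
    calc 2 ^ 19 = 2 ^ (c - 1) * 2 ^ (20 - c) := by rw [← pow_add]; congr 1; omega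
      _ < m * 2 ^ (20 - c) := Nat.mul_lt_mul_of_pos_right e4 (by positivity)
  refine ⟨(20 - c, m * 2 ^ (20 - c) - 524289), by simp only; omega, ?_, ?_⟩ <;>
    simp only <;> omega

theorem xDTr_odd {m : ℕ} (h : m.Coprime 210) (a : ℕ) : ordCompl[2] (m * 2 ^ a) = m := by
  have h2 : m.Coprime 2 := h.coprime_dvd_right (by norm_num)
  rw [mul_comm]
  exact Nat.ordCompl_pow_mul_of_not_dvd a Nat.prime_two
    ((Nat.Prime.coprime_iff_not_dvd Nat.prime_two).1 h2.symm)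

theorem dTr : DTr := by
  intro z α β p hz h φ Φ h0 h1 h2
  refine le_trans ?_ (h (fun n => φ (ordCompl[2] n)) Φ (fun n => h0 _) h1 fun n c hn => h2 _ _ ?_)
  swap
  · refine Pos.two (n.factorization 2) ?_
    rwa [mul_comm, Nat.ordProj_mul_ordCompl_eq_self]
  have hS : ∀ m ∈ MB.filter (512 < ·), 512 < m ∧ m ≤ 2 ^ 20 ∧ m.Coprime 210 := fun m hm => by
    have e := mem_filter.1 hm
    have e' := mem_filter.1 e.1
    exact ⟨e.2, (mem_Icc.1 e'.1).2, e'.2⟩
  unfold LMl LX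
  generalize MB.filter (512 < ·) = S at hS
  have hx : ∀ m, ∃ x : ℕ × ℕ, m ∈ S → x.1 ≤ 10 ∧ x.2 < 524288 ∧ m * 2 ^ x.1 = 524289 + x.2 := by
    intro m
    by_cases hm : m ∈ S
    · obtain ⟨x, hx⟩ := xDTr_ex (hS m hm).1 (hS m hm).2.1
      exact ⟨x, fun _ => hx⟩
    · exact ⟨0, fun h => absurd h hm⟩
  choose x hx using hx
  have hodd : ∀ m ∈ S, ordCompl[2] (524289 + (x m).2) = m := fun m hm => by
    rw [← (hx m hm).2.2, xDTr_odd (hS m hm).2.2]
  set G : ℕ → ℝ := fun i =>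
    2 ^ 28 * ((dig 24 z i : ℝ) / (524289 + i : ℕ)) * φ (ordCompl[2] (524289 + i)) with hG
  calc ∑ m ∈ S, 2 ^ 28 * mW m * φ m ≤ ∑ m ∈ S, G (x m).2 := by
        refine sum_le_sum fun m hm => ?_
        obtain ⟨e1, e2, e3⟩ := hx m hm
        have e4 : ((2 ^ (x m).1 * m.divisors.card : ℕ) : ℝ) ≤ dig 24 z (x m).2 :=
          Nat.cast_le.2 (hz _ _ _ e1 (hS m hm).2.2 e2 e3)
        have e5 : (0 : ℝ) < m := Nat.cast_pos.2 (by have := (hS m hm).1; omega)
        simp only [hG]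
        rw [hodd m hm, ← e3]
        refine mul_le_mul_of_nonneg_right (mul_le_mul_of_nonneg_left ?_ (by positivity)) (h0 m)
        rw [mW, div_le_div_iff₀ e5 (by push_cast; positivity)]
        push_cast at e4 ⊢
        nlinarith
    _ = ∑ i ∈ S.image fun m => (x m).2, G i := by
        refine (sum_image fun m hm n hn e => ?_).symm
        rw [← hodd m hm, ← hodd n hn]
        exact congrArg (fun i => ordCompl[2] (524289 + i)) e
    _ ≤ ∑ i ∈ range 524288, G i := by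
        refine sum_le_sum_of_subset_of_nonneg (fun i hi => ?_) fun i _ _ => ?_
        · obtain ⟨m, hm, rfl⟩ := mem_image.1 hi
          exact mem_range.2 (hx m hm).2.1
        · exact mul_nonneg (by positivity) (h0 _)

end Pool.Agent.MP_88bd62_nt.U.D
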