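import Pool.Agent.MP_88bd62_nt.U.DF
import Pool.Agent.MP_88bd62_nt.U.DOne
import Pool.Agent.MP_88bd62_nt.U.DList
import Pool.Agent.MP_88bd62_nt.U.DDig
import Pool.Agent.MP_88bd62_nt.U.DPack
import Pool.Agent.MP_88bd62_nt.U.DS
import Pool.Agent.MP_88bd62_nt.U.DMs
import Pool.Agent.MP_88bd62_nt.U.DH
import Pool.Agent.MP_88bd62_nt.U.DDX
import Pool.Agent.MP_88bd62_nt.U.DGa
import Pool.Agent.MP_88bd62_nt.U.DTr
import Pool.Agent.MP_88bd62_nt.U.DPsi

/-! The bound for the explicit measure. -/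

namespace Pool.Agent.MP_88bd62_nt.U.D

open Pool.Agent.MP_22d5c4_co.K (dig)

theorem dB (T : Tb) (h : chk T = true) (i : ℕ) (hi : i < 2 ^ 17) (u : ℝ)
    (h1 : (i : ℝ) / 2 ^ 17 ≤ u) (h2 : u ≤ (i + 1) / 2 ^ 17) :
    Bexp (1 / 2 ^ 23) u ≤ T.val 17 i / 2 ^ 16 :=
  dFin dOne (dList dOne) dDig (dPack dOne) dS (dMs dLg) (dH dLg) (dDX dPat) (dGa dRk) dTr dPsi
    T h i hi u h1 h2

theorem pack_dig (h : ℕ → ℕ) (w : ℕ) (hw : 2 ≤ w) (hh : ∀ v, h v < 2 ^ w) (t : Tb) (d : ℕ) :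
    t.pack h w d < 2 ^ (w * 2 ^ d) ∧ ∀ i < 2 ^ d, dig w (t.pack h w d) i = h (t.val d i) :=
  dPack dOne h w hw hh t d

/-- No node of `t` lies below depth `d`. -/
def Tb.dep : Tb → ℕ → Bool
  | .leaf _, _ => true
  | .node _ _, 0 => false
  | .node l r, d + 1 => l.dep d && r.dep d

/-- Refinement of the cells does not change the values. -/
theorem Tb.val_add (e : ℕ) : ∀ (t : Tb) (d i : ℕ), t.dep d = true →
    t.val (d + e) i = t.val d (i / 2 ^ e)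
  | .leaf _, _, _, _ => by simp [Tb.val]
  | .node _ _, 0, _, h => by simp [Tb.dep] at h
  | .node l r, d + 1, i, h => by
    simp only [Tb.dep, Bool.and_eq_true] at h
    have e1 : i / 2 ^ e < 2 ^ d ↔ i < 2 ^ (d + e) := by
      rw [Nat.div_lt_iff_lt_mul (by positivity), pow_add]
    rw [Nat.add_right_comm, Tb.val, Tb.val, Tb.val_add e l d i h.1, Tb.val_add e r d _ h.2]
    simp only [e1]
    rw [pow_add, mul_comm (2 ^ d), Nat.sub_mul_div]

/-- The bound on a finer grid. -/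
theorem dB' (T : Tb) (h : chk T = true) (hd : T.dep 17 = true) (e i : ℕ) (hi : i < 2 ^ (17 + e))
    (u : ℝ) (h1 : (i : ℝ) / 2 ^ (17 + e) ≤ u) (h2 : u ≤ (i + 1) / 2 ^ (17 + e)) :
    Bexp (1 / 2 ^ 23) u ≤ T.val (17 + e) i / 2 ^ 16 := by
  rw [Tb.val_add e T 17 i hd]
  have h0 : 0 < 2 ^ e := by positivity
  refine dB T h _ (by rwa [Nat.div_lt_iff_lt_mul h0, ← pow_add]) u (le_trans ?_ h1) (h2.trans ?_)
  · rw [pow_add, mul_comm, ← div_div]
    gcongr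
    exact_mod_cast Nat.cast_div_le (α := ℝ) (m := i) (n := 2 ^ e)
  · rw [pow_add, mul_comm, ← div_div]
    gcongr
    rw [div_le_iff₀ (by positivity)]
    have := Nat.lt_div_mul_add (a := i) h0
    have h3 : i + 1 ≤ (i / 2 ^ e + 1) * 2 ^ e := by rw [add_mul, one_mul]; omega
    exact_mod_cast h3

end Pool.Agent.MP_88bd62_nt.U.D
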