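import Pool.Agent.MP_88bd62_nt.U.Main
import Pool.Agent.MP_88bd62_nt.U.DZ
import Pool.Agent.MP_88bd62_nt.U.AAlg
import Pool.Agent.MP_88bd62_nt.U.ABas
import Pool.Agent.MP_88bd62_nt.U.ACf
import Pool.Agent.MP_88bd62_nt.U.ADens
import Pool.Agent.MP_88bd62_nt.U.AFin
import Pool.Agent.MP_88bd62_nt.U.AFold
import Pool.Agent.MP_88bd62_nt.U.AHa
import Pool.Agent.MP_88bd62_nt.U.AHb
import Pool.Agent.MP_88bd62_nt.U.AI
import Pool.Agent.MP_88bd62_nt.U.AJ
import Pool.Agent.MP_88bd62_nt.U.AJa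
import Pool.Agent.MP_88bd62_nt.U.AMon
import Pool.Agent.MP_88bd62_nt.U.ANode
import Pool.Agent.MP_88bd62_nt.U.ANrm
import Pool.Agent.MP_88bd62_nt.U.AP
import Pool.Agent.MP_88bd62_nt.U.APar
import Pool.Agent.MP_88bd62_nt.U.APs
import Pool.Agent.MP_88bd62_nt.U.AQ
import Pool.Agent.MP_88bd62_nt.U.AR
import Pool.Agent.MP_88bd62_nt.U.ARp
import Pool.Agent.MP_88bd62_nt.U.ASpl
import Pool.Agent.MP_88bd62_nt.U.AStep
import Pool.Agent.MP_88bd62_nt.U.ASum
import Pool.Agent.MP_88bd62_nt.U.ATT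
import Pool.Agent.MP_88bd62_nt.U.ATl
import Pool.Agent.MP_88bd62_nt.U.ATl3
import Pool.Agent.MP_88bd62_nt.U.AUni
import Pool.Agent.MP_88bd62_nt.U.AWin
import Pool.Agent.MP_88bd62_nt.U.ASpec

/-! Assembly of the evaluation on the grid from the results of the programs. -/

namespace Pool.Agent.MP_88bd62_nt.U.A

open D (Tb)

theorem gBas : StBas := stBas fKerB
theorem gSpl : StSpl := stSpl gBas
theorem gNode : StNode := stNode gBas gSpl
theorem gTl : StTl := stTl gBas (stTl3 fKL0 fEM) fEM1 fTail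
theorem gFold : StFold := stFold gBas
theorem gDens : StDens := stDens gBas
theorem gHa : StHa := stHa fH
theorem gHb : StHb := stHb gHa stPs fS2
theorem gCf : StCf := stCf gBas
theorem gPar : StPar := stPar gBas
theorem gJ : StJ := stJ gBas gCf stJa
theorem gTT : StTT := stTT gBas
theorem gI : StI := stI gPar stUni
theorem gWin : StWin := stWin gBas
theorem gSum : StSum := stSum gBas gWin stMon
theorem gR' : StR := stR gBas gPar gWin gSum stMon (stRp gBas gNode gHa gTT stMon stAlg)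
theorem gP : StP := stP gBas gSpl gHa gHb gPar gI gWin stMon gSum
theorem gQ : StQ := stQ gBas gCf gJ gI stNrm
theorem gFin : StFin := stFin gCf stStep

theorem num_of_spec (hChk : StChk) (hZ : StZ) (hDH : StDH) (hRc : StRc) (hK : StK) (hE0 : StE0)
    (hE : StE) (hXy : StXy) (hXq : StXq) (hW : NumW) (z₀ z₁ z₂ z₃ wl : ℕ) (t : Tb)
    (h₀ : zchk 524288 0 1350264 21 4465566707 128063518 z₀ = true)
    (h₁ : zchk 655360 1350264 1103246 21 5581958384 38149353 z₁ = true)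
    (h₂ : zchk 786432 2453510 932781 20 6698350061 94903399 z₂ = true)
    (h₃ : zchk 917504 3386291 808013 20 7814741738 60099842 z₃ = true)
    (hr : rchk z₀ z₁ z₂ z₃ wl = true) (hk : kchk = true) (hx : xchk t wl = true)
    (ht : D.chk t = true) (hd : t.dep 17 = true) : NumA1 0.984 := by
  obtain ⟨N, hN⟩ : ∃ N : ℕ, N = 2 ^ 22 := ⟨_, rfl⟩
  obtain ⟨hz, sZ⟩ := hZ z₀ z₁ z₂ z₃ N hN
    (hChk _ _ _ _ _ _ _ (by norm_num) (by norm_num) (by norm_num) (by norm_num) (by norm_num)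
      (by norm_num) (by norm_num) h₀)
    (hChk _ _ _ _ _ _ _ (by norm_num) (by norm_num) (by norm_num) (by norm_num) (by norm_num)
      (by norm_num) (by norm_num) h₁)
    (hChk _ _ _ _ _ _ _ (by norm_num) (by norm_num) (by norm_num) (by norm_num) (by norm_num)
      (by norm_num) (by norm_num) h₂)
    (hChk _ _ _ _ _ _ _ (by norm_num) (by norm_num) (by norm_num) (by norm_num) (by norm_num)
      (by norm_num) (by norm_num) h₃)
  obtain ⟨gD, sW, vW, hR⟩ := hRc _ wl (grid lD) N hN hr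
  obtain ⟨DP, vD, sD⟩ := (hDH N hN).1 gD
  have sR := gR' hW _ _ _ sZ sD (hR DP hz sZ vD sD)
  obtain ⟨gH, hY⟩ := hXy t wl (grid lH) N hN hx
  obtain ⟨HP, vH, sH⟩ := (hDH N hN).2 gH
  obtain ⟨V, y, vV, sV, rY, hx2⟩ := hY HP _ sW vW vH sH
  obtain ⟨e1, -, e3, e4⟩ := hE0
  obtain ⟨K, sK⟩ := hK (e4 hk).1
  obtain ⟨sA, hn⟩ := hE (e4 hk).2
  obtain ⟨Q, rQ, sF⟩ := hXq t y N K V hN sK (hn K sK) vV sV hx2
  refine gFin (-V) Q Af el ej Sf _ (fun n h => (hn K sK n h).1) e3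
    (fun n h => (e1 n h).2.2.2.2.2.2.1) (fun n h => (hn K sK n h).2.2.1) (fun i hi => ?_)
    (gP hW _ _ _ _ _ sR sH rY sA) (gQ _ _ _ _ _ _ rY.1 sA rQ) sF
  refine D.dB' t ht hd 5 i hi _ le_rfl ?_
  gcongr
  exact le_add_of_nonneg_right zero_le_one

end Pool.Agent.MP_88bd62_nt.U.A
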