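import Pool.Agent.MP_88bd62_nt.U.ASpec

/-! The exponential ramp. -/

namespace Pool.Agent.MP_88bd62_nt.U.A

open Finset Real
open Pool.Agent.MP_22d5c4_co.K (dig ones dig_zero dig_succ dig_shift dig_mod)

theorem aRamp_mul (K r n : ℕ) : ∀ x, x < 2 ^ (K * n) → (∀ j < n, dig K x j * r < 2 ^ K) →
    x * r < 2 ^ (K * n) ∧ ∀ j < n, dig K (x * r) j = dig K x j * r := by
  induction n with
  | zero =>
    intro x hx _
    rw [mul_zero, pow_zero, Nat.lt_one_iff] at hx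
    subst hx
    simp
  | succ n ih =>
    intro x hx h
    have hp : 0 < 2 ^ K := by positivity
    have h0 := h 0 (by omega)
    rw [dig_zero] at h0
    obtain ⟨h1, h2⟩ := ih (x / 2 ^ K) (by rwa [Nat.div_lt_iff_lt_mul hp, ← pow_add])
      fun j hj => by rw [← dig_succ]; exact h _ (by omega)
    have e : x * r = x % 2 ^ K * r + 2 ^ K * (x / 2 ^ K * r) := by
      rw [← mul_assoc, ← add_mul, Nat.mod_add_div]
    refine ⟨?_, fun j hj => ?_⟩
    · rw [e, mul_add, mul_one, pow_add, mul_comm (2 ^ (K * n))]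
      have h3 := Nat.mul_le_mul_left (2 ^ K) (Nat.succ_le_of_lt h1)
      rw [Nat.mul_succ] at h3
      omega
    · rcases j with _ | j
      · rw [dig_zero, dig_zero, e, Nat.add_mul_mod_self_left, Nat.mod_eq_of_lt h0]
      · rw [dig_succ, dig_succ, e, Nat.add_mul_div_left _ _ hp, Nat.div_eq_of_lt h0, zero_add,
          h2 j (by omega)]

theorem aRamp_cat {K n R z : ℕ} (hR : R < 2 ^ (K * n)) (hz : z < 2 ^ (K * n)) :
    R + z * 2 ^ (K * n) < 2 ^ (K * (n * 2)) ∧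
      (∀ j < n, dig K (R + z * 2 ^ (K * n)) j = dig K R j) ∧
      ∀ j, dig K (R + z * 2 ^ (K * n)) (j + n) = dig K z j := by
  refine ⟨?_, fun j hj => ?_, fun j => ?_⟩
  · rw [← mul_assoc, mul_two, pow_add]
    have h3 := Nat.mul_le_mul_right (2 ^ (K * n)) (Nat.succ_le_of_lt hz)
    rw [Nat.succ_mul] at h3
    omega
  · rw [← dig_mod K _ n j hj, Nat.add_mul_mod_self_right, Nat.mod_eq_of_lt hR]
  · rw [← dig_shift, Nat.add_mul_div_right _ _ (by positivity), Nat.div_eq_of_lt hR, zero_add]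

theorem aRamp_num {d r : ℕ} {a e s t : ℝ} (hs : 1 ≤ s) (ht : 1 ≤ t) (hd : (d : ℝ) ≤ 2 ^ 34)
    (h1 : a * s ≤ d) (h2 : d ≤ e * s) (h3 : (r : ℝ) ≤ 2 ^ 40 * t) (h4 : 2 ^ 40 * t ≤ (r : ℝ) + 1) :
    (a - 2) * (s * t) ≤ (d * r / 2 ^ 40 : ℕ) ∧ ((d * r / 2 ^ 40 : ℕ) : ℝ) ≤ e * (s * t) := by
  have f1 : ((d * r / 2 ^ 40 * 2 ^ 40 : ℕ) : ℝ) ≤ (d * r : ℕ) :=
    Nat.cast_le.2 (Nat.div_mul_le_self _ _)
  have f2 : ((d * r : ℕ) : ℝ) ≤ (d * r / 2 ^ 40 * 2 ^ 40 + 2 ^ 40 : ℕ) :=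
    Nat.cast_le.2 (Nat.lt_div_mul_add (by positivity)).le
  generalize d * r / 2 ^ 40 = f at f1 f2
  push_cast at f1 f2
  have hd0 : (0 : ℝ) ≤ d := d.cast_nonneg
  have g1 := mul_le_mul_of_nonneg_left h3 hd0
  have g2 := mul_le_mul_of_nonneg_left h4 hd0
  have g3 := mul_le_mul_of_nonneg_right h1 (zero_le_one.trans ht)
  have g4 := mul_le_mul_of_nonneg_right h2 (zero_le_one.trans ht)
  have g5 := one_le_mul_of_one_le_of_one_le hs ht
  constructor <;> nlinarith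

theorem stRamp (hUni : StUni) (hRt : StRt) : StRamp := by
  intro e N l hl hN he
  have he' : (e : ℝ) ≤ 2 ^ 33 := by exact_mod_cast he
  induction l with
  | zero =>
    have h0 : e < 2 ^ 80 := by omega
    refine ⟨h0, fun j hj => ?_⟩
    obtain rfl : j = 0 := by omega
    rw [dig_zero, show ramp e (Nat.mul (ones 80 N) 1099511627775) 0 = e from rfl,
      Nat.mod_eq_of_lt h0]
    simp
  | succ i ih =>
    rw [pow_succ] at hN
    obtain ⟨h1, h2⟩ := ih (by omega) (by omega)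
    have e1 : ramp e (Nat.mul (ones 80 N) 1099511627775) (i + 1) =
        ramp e (Nat.mul (ones 80 N) 1099511627775) i +
          ((ramp e (Nat.mul (ones 80 N) 1099511627775) i * rt i) >>> 40 &&&
            (ones 80 N * (2 ^ 40 - 1))) * 2 ^ (80 * 2 ^ i) := by
      rw [← shl_eq, ← Nat.one_shiftLeft i]
      rfl
    rw [e1]
    generalize ramp e (Nat.mul (ones 80 N) 1099511627775) i = R at h1 h2
    obtain ⟨r1, r2⟩ := hRt i (by omega)
    have hi : (2 : ℝ) ^ i ≤ 2 ^ 22 := pow_le_pow_right₀ one_le_two (by omega)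
    have two : ∀ x : ℝ, x ≤ 2 ^ 22 → (2 : ℝ) ^ (x / 2 ^ 22) ≤ 2 := fun x hx =>
      (rpow_le_rpow_of_exponent_le one_le_two ((div_le_one (by positivity)).2 hx)).trans_eq
        (rpow_one 2)
    have hd : ∀ j < 2 ^ i, (dig 80 R j : ℝ) ≤ 2 ^ 34 := fun j hj => by
      have h3 : (j : ℝ) ≤ 2 ^ i := by exact_mod_cast hj.le
      have h4 := mul_le_mul he' (two j (h3.trans hi)) (by positivity) (by positivity)
      linarith [(h2 j hj).2]
    have hr : (rt i : ℝ) ≤ 2 ^ 41 := by linarith [two _ hi]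
    have hdr : ∀ j < 2 ^ i, dig 80 R j * rt i < 2 ^ 80 := fun j hj => by
      have h3 : dig 80 R j ≤ 2 ^ 34 := by exact_mod_cast hd j hj
      have h4 : rt i ≤ 2 ^ 41 := by exact_mod_cast hr
      exact (Nat.mul_le_mul h3 h4).trans_lt (by norm_num)
    obtain ⟨h3, h4⟩ := aRamp_mul 80 (rt i) _ R h1 hdr
    have h5 := (hUni.2.2.2.2.2.1 N (R * rt i) 40 40 le_rfl).2
    obtain ⟨h6, h7, h8⟩ := aRamp_cat (z := (R * rt i) >>> 40 &&& (ones 80 N * (2 ^ 40 - 1))) h1
      ((Nat.and_le_left.trans (Nat.shiftRight_le _ _)).trans_lt h3)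
    refine ⟨h6, fun j hj => ?_⟩
    rcases lt_or_ge j (2 ^ i) with h | h
    · rw [h7 j h]
      refine ⟨le_trans (mul_le_mul_of_nonneg_right ?_ (by positivity)) (h2 j h).1, (h2 j h).2⟩
      push_cast
      linarith
    · obtain ⟨j, rfl⟩ := Nat.exists_eq_add_of_le' h
      have hj' : j < 2 ^ i := by rw [pow_succ] at hj; omega
      rw [h8, h5 j (by omega), h4 j hj', Nat.mod_eq_of_lt
        ((Nat.div_lt_iff_lt_mul (by positivity)).2 ((hdr j hj').trans_eq (by norm_num))),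
        Nat.cast_add j, add_div, rpow_add two_pos, Nat.cast_pow, Nat.cast_ofNat,
        show (e : ℝ) - 2 * (i + 1 : ℕ) = e - 2 * i - 2 by push_cast; ring]
      exact aRamp_num (one_le_rpow one_le_two (by positivity))
        (one_le_rpow one_le_two (by positivity)) (hd j hj') (h2 j hj').1 (h2 j hj').2 r1 r2

end Pool.Agent.MP_88bd62_nt.U.A
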