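import Pool.Agent.MP_88bd62_nt.U.ASpec

/-! The check of the residual in the ring. -/

namespace Pool.Agent.MP_88bd62_nt.U.A

open Finset Real Polynomial
open Pool.Agent.MP_22d5c4_co.K (dig ones)

theorem aRc_neg {P : ℤ[X]} {n : ℕ} {c : ℝ} (h : Sup P n c) : Sup (-P) n c :=
  ⟨fun i hi => by rw [coeff_neg, h.1 i hi, neg_zero], fun i => by
    rw [coeff_neg, Int.cast_neg, abs_neg]
    exact h.2 i⟩

theorem aRc_int {P : ℤ[X]} {n : ℕ} {c : ℝ} (h : Sup P n c) (c' : ℤ) (hc : c ≤ c') (i : ℕ) :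
    -c' ≤ P.coeff i ∧ P.coeff i ≤ c' := by
  have := (h.2 i).trans hc
  exact abs_le.1 (by exact_mod_cast this)

theorem aRc_ev {k : ℤ} {N : ℕ} (hx : xk k ^ N = -1 / 2) (lo hi : ℤ[X]) :
    ev k (2 * lo - hi) = 2 * ev k (lo + X ^ N * hi) := by
  simp only [ev, map_sub, map_mul, map_add, map_pow, aeval_X, map_ofNat, hx]
  ring

theorem aRc_dfv : DFL.foldr (fun c v => c + 2 ^ 80 * v) 0 = (dfv : ℤ) := by decide +kernel

/-- The target of the product. -/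
noncomputable def aRc_T (L : ℤ[X]) (N m n : ℕ) : ℤ[X] :=
  C (9 * 2 ^ 67) * onp N - 4 * (X ^ m * (C (27 * 2 ^ 65) * onp n + L))

theorem aRc_evT (hBas : StBas) (hUni : StUni) {k : ℤ} {N m n : ℕ} (hm : N = m + n) {L : ℤ[X]}
    (h2 : (1 - xk k) * aeval (xk k) L = tpv (xk k) * b5 (xk k) ^ 3 - 27 * 2 ^ 65)
    (hx : xk k ^ N = -1 / 2) : (1 - xk k) * ev k (aRc_T L N m n) =
      2 * xp k (-n) * (tpv (xk k) * b5 (xk k) ^ 3) := by
  have h1 : ∀ n, (1 - xk k) * aeval (xk k) (onp n) = 1 - xk k ^ n := fun n => by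
    have := congrArg (aeval (xk k)) (hUni.2.2.2.1 n).2.2.1
    simpa only [map_mul, map_sub, map_one, map_pow, aeval_X] using this
  have h3 : xp k (-n) * xk k ^ n = 1 := by
    rw [← hBas.2.1, ← hBas.1, ← pow_zero (xk k), ← hBas.2.1, neg_add_cancel, Nat.cast_zero]
  have h4 : xk k ^ m * xk k ^ n = -1 / 2 := by rw [← pow_add, ← hm, hx]
  have h5 : xp k (-n) = -2 * xk k ^ m := by
    linear_combination 2 * xp k (-n) * h4 - 2 * xk k ^ m * h3
  have h6 := h1 N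
  have h7 := h1 n
  rw [hx] at h6
  simp only [ev, aRc_T, map_sub, map_mul, map_add, map_pow, aeval_X, map_ofNat]
  rw [h5]
  linear_combination 9 * 2 ^ 67 * h6 - 4 * xk k ^ m * (27 * 2 ^ 65 * h7 + h2) +
    4 * (27 * 2 ^ 65) * h4

theorem aRc_res (hUni : StUni) {N m n y : ℕ} (hm : N = m + n) (hn : 65 ≤ n) {L : ℤ[X]} {d : ℤ}
    (hL : Sup L 65 (2 ^ 70)) (b3 : vl L = d) {lo hi : ℤ[X]} {β : ℤ} (hβ : β = 0 ∨ β = 1) (hlo : Sup lo N (375 * 2 ^ 67)) (hhi : Sup hi N (375 * 2 ^ 67))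
    (hd : ∀ i < N, dig 80 y i < 2 ^ 47)
    (hv : vl (2 * lo - hi) + β + 4 * (27 * 2 ^ 65 * ones 80 n + d) * 2 ^ (80 * m) -
      ones 80 N * (9 * 2 ^ 67 - 2 ^ 46) ≡ y [ZMOD 2 ^ (80 * N)]) :
    Sup (2 * lo - hi - aRc_T L N m n) N (2 ^ 46 + 1) := by
  obtain ⟨-, u2, -, u4, -⟩ := hUni
  have c1 : ∀ i, (aRc_T L N m n).coeff i = 9 * 2 ^ 67 * (if i < N then 1 else 0) -
      4 * if m ≤ i then 27 * 2 ^ 65 * (if i - m < n then 1 else 0) + L.coeff (i - m)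
        else 0 := fun i => by
    rw [aRc_T, coeff_sub, coeff_C_mul, coeff_ofNat_mul, coeff_X_pow_mul', coeff_add, coeff_C_mul,
      (u4 N).2.1, (u4 n).2.1]
  have c2 : ∀ i, N ≤ i → (2 * lo - hi - aRc_T L N m n).coeff i = 0 := fun i hi' => by
    rw [coeff_sub, coeff_sub, coeff_ofNat_mul, hlo.1 i hi', hhi.1 i hi', c1,
      hL.1 (i - m) (by omega), if_neg (by omega), if_pos (by omega), if_neg (by omega)]
    ring
  have c3 : ∀ i, (C β : ℤ[X]).coeff i = 0 ∨ (C β : ℤ[X]).coeff i = 1 := fun i => by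
    rw [coeff_C]
    split_ifs
    · exact hβ
    · exact Or.inl rfl
  have c4 := u2 (2 * lo - hi - aRc_T L N m n + C β + C (2 ^ 46) * onp N) N y (fun i hi' => by
    rw [coeff_add, coeff_add, c2 i hi', coeff_C, coeff_C_mul, (u4 N).2.1, if_neg (by omega),
      if_neg (by omega)]
    ring) (fun i hi' => by
    have a1 := aRc_int hlo (375 * 2 ^ 67) (by norm_num) i
    have a2 := aRc_int hhi (375 * 2 ^ 67) (by norm_num) i
    have a3 := aRc_int hL (2 ^ 70) (by norm_num) (i - m)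
    have a4 := hd i hi'
    have a5 := c3 i
    rw [coeff_add, coeff_add, coeff_sub, coeff_sub, coeff_ofNat_mul, coeff_C_mul, (u4 N).2.1, c1,
      if_pos hi', abs_lt]
    split_ifs <;> omega) (by
    refine Int.ModEq.trans ?_ hv
    have b1 := (u4 N).1
    have b2 := (u4 n).1
    unfold vl at b1 b2 b3 ⊢
    simp only [aRc_T, eval_add, eval_sub, eval_mul, eval_C, eval_pow, eval_X, eval_ofNat, b1, b2,
      b3, pow_mul]
    generalize ((2 : ℤ) ^ 80) ^ m = u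
    generalize ((2 : ℤ) ^ 80) ^ N = v
    refine Int.modEq_iff_dvd.2 ⟨0, ?_⟩
    ring)
  refine ⟨c2, fun i => ?_⟩
  rcases lt_or_ge i N with hi' | hi'
  · have a1 := c4 i hi'
    have a4 := hd i hi'
    have a5 := c3 i
    rw [coeff_add, coeff_add, coeff_C_mul, (u4 N).2.1, if_pos hi'] at a1
    have a6 : |(2 * lo - hi - aRc_T L N m n).coeff i| ≤ 2 ^ 46 + 1 := by
      rw [abs_le]
      omega
    exact_mod_cast a6
  · rw [c2 i hi', Int.cast_zero, abs_zero]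
    positivity

theorem aRc_vl_mul (P Q : ℤ[X]) : vl (P * Q) = vl P * vl Q := eval_mul

theorem aRc_vl_neg (P : ℤ[X]) : vl (-P) = -vl P := eval_neg _ _

theorem aRc_mul (a b : ℕ) : ((Nat.mul a b : ℕ) : ℤ) = a * b := Nat.cast_mul a b

theorem aRc_sub {a b : ℕ} (h : b ≤ a) : ((Nat.sub a b : ℕ) : ℤ) = a - b := Nat.cast_sub h

theorem aRc_add (a b : ℕ) : ((Nat.add a b : ℕ) : ℤ) = a + b := Nat.cast_add a b

theorem aRc_shl (a b : ℕ) : ((Nat.shiftLeft a b : ℕ) : ℤ) = a * 2 ^ b := by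
  rw [Nat.shiftLeft_eq', Nat.shiftLeft_eq, Nat.cast_mul, Nat.cast_pow, Nat.cast_ofNat]

theorem stRc (hBas : StBas) (hTT : StTT) (hPar : StPar) (hUni : StUni) (hNrm : StNrm) (hMk : StMk)
    (hMw : StMw) : StRc := by
  intro zu wl g N hN h
  obtain ⟨k1, k2, k3, k4, -, -, N', hN1, hN2, hO, hM⟩ := hMk
  obtain rfl : N' = N := hN2.trans hN.symm
  obtain ⟨m, n, hm, hn, hm'⟩ : ∃ m n, m = 4193749 ∧ n = 555 ∧ N' = m + n :=
    ⟨_, _, rfl, rfl, by rw [hN1]⟩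
  unfold rc1 rc2 rc3 rc4 at h
  unfold wv at h ⊢
  rw [hO] at h ⊢
  rw [hM, ← hN1, ← hm, ← hn, k1] at h
  simp only [an_eq] at h
  obtain ⟨h1, h2, h3, h4, h5, h6, h7, h8, h9⟩ := h
  obtain ⟨w1, w2⟩ := k3 _ _ _ (by norm_num) h3
  have w3 := k2 _ _ _ (by norm_num) h9
  replace h1 := Nat.le_of_ble_eq_true h1
  replace h2 := Nat.le_of_ble_eq_true h2
  replace h4 := Nat.eq_of_beq_eq_true h4
  replace h5 := Nat.le_of_ble_eq_true h5
  replace h8 := Nat.le_of_ble_eq_true h8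
  have sW : Sup (tp N' wl (2 ^ 25)) N' (2 ^ 25) := by
    refine ⟨fun i hi => by rw [(hUni.2.2.1 _ _ _).1, if_neg (not_lt.2 hi)], fun i => ?_⟩
    have : |(tp N' wl (2 ^ 25)).coeff i| ≤ 2 ^ 25 := by
      rw [(hUni.2.2.1 _ _ _).1, abs_le]
      split_ifs with hi
      · have := w2 i hi
        omega
      · omega
    exact_mod_cast this
  have vW : vl (tp N' wl (2 ^ 25)) = (Nat.sub wl (Nat.shiftLeft (ones 80 N') 25) : ℕ) := by
    rw [(hUni.2.2.1 _ _ _).2 w1, aRc_sub h2, aRc_shl, mul_comm]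
  refine ⟨?_, sW, vW, fun DP hz hZ hDv hD => ?_⟩
  · rw [shr_eq] at h4
    exact (Nat.div_eq_zero_iff_lt (by positivity)).1 h4
  have vZ : vl (tp N' zu zoff) = (Nat.sub zu (Nat.mul (ones 80 N') zoff) : ℕ) := by
    rw [(hUni.2.2.1 _ _ _).2 hz, aRc_sub h1, aRc_mul, mul_comm]
  have vD : vl (-DP) = (Nat.sub (gm g (ones 80 N')) (gp g (ones 80 N')) : ℕ) := by
    rw [aRc_vl_neg, hDv, aRc_sub h5, neg_sub]
  obtain ⟨z1, z2, -⟩ := hZ
  obtain ⟨d1, d2, -⟩ := hD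
  rw [← hN] at z1 d1
  clear h1 h2 h3 h4 h5 h9 hDv w2
  generalize tp N' zu zoff = ZP at *
  generalize tp N' wl (2 ^ 25) = W at *
  generalize Nat.sub zu _ = z at *
  generalize Nat.sub wl _ = w at *
  generalize Nat.sub (gm g _) _ = d at *
  have n3 := hNrm.2.2.1
  obtain ⟨lo1, hi1, V1, e1, a1, -, a2, a3, a4, a5, a6⟩ := hMw (ZP * -DP) N' _ 67 24 _
    (two_mul N' ▸ n3 _ _ _ _ _ _ z2 z1.1 (aRc_neg d1)) (by norm_num)
    (by rw [aRc_vl_mul, vZ, vD, aRc_mul]) (by norm_num) (by norm_num) (by norm_num) h6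
  obtain ⟨lo2, hi2, V2, e2, b1, -, b2, b3, b4, b5, -⟩ := hMw (ZP * W) N' _ 53 24 _
    (two_mul N' ▸ n3 _ _ _ _ _ _ z2 z1.1 sW) (by norm_num)
    (by rw [aRc_vl_mul, vZ, vW, aRc_mul]) (by norm_num) (by norm_num) (by norm_num) h7
  have a7 : L1 V1 (375 * 2 ^ 38) := fun n => by
    refine (a6 _ (hNrm.1 _ _ _ _ z2 (hNrm.2.1 _ _ 0 0 d2).2.2.1).2.2 n).trans ?_
    have : (N' : ℝ) = 4194304 := by rw [hN1]; norm_num
    rw [this]
    norm_num
  have s3 : Sup (V1 * V2) (2 * N') (375 * 2 ^ 67) := by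
    have := n3 _ _ _ _ _ _ a7 a3.1 b3
    rw [← two_mul] at this
    exact ⟨this.1, fun i => (this.2 i).trans (by norm_num)⟩
  obtain ⟨lo, hi, β, hβ, c1, c2, c3, -, c4⟩ := hNrm.2.2.2.2 (V1 * V2) N' _ _ s3 (by norm_num)
    (by rw [aRc_vl_mul, a5, b5, ← aRc_mul])
  have sr := aRc_res (n := n) hUni hm' (by omega) hTT.2.2
    ((hUni.2.2.2.2.2.2 DFL).1.trans aRc_dfv) hβ c2 c3 w3 (by
    rw [aRc_sub h8, mwa, k4, shl_eq, shr_eq]
    generalize Nat.mul (mws _ _ _ _ 67 24) (mws _ _ _ _ 53 24) = x at c4 ⊢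
    generalize x % 2 ^ (80 * N') = p at c4 ⊢
    generalize x / 2 ^ (80 * N') = q at c4 ⊢
    simp only [aRc_add, aRc_mul, aRc_shl, Nat.cast_mul, Nat.cast_pow, Nat.cast_ofNat]
    refine ((c4.symm.add_right _).sub_right _).trans (Int.modEq_iff_dvd.2 ⟨0, ?_⟩)
    ring)
  unfold RingR
  rw [← hN]
  refine ⟨-V1, -V2, -e1, -e2, _, aRc_neg a4, aRc_neg b4, sr, fun k hk => ?_⟩
  have hx : xk k ^ N' = -1 / 2 := by rw [hN]; exact hBas.2.2.2.1 k hk
  have f1 := aRc_ev hx lo1 hi1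
  have f2 := aRc_ev hx lo2 hi2
  have f3 := aRc_ev hx lo hi
  have f4 := aRc_evT hBas hUni hm' (hTT.2.1 _) hx
  rw [← a1, a2] at f1
  rw [← b1, b2] at f2
  rw [← c1] at f3
  rw [show (n : ℝ) = 555 by rw [hn]; norm_num] at f4
  rw [← f4]
  simp only [ev, map_sub, map_mul, map_add, map_neg, map_pow, map_ofNat] at f1 f2 f3 ⊢
  exact ⟨by linear_combination f1, by linear_combination f2,
    by linear_combination -(1 - xk k) * f3⟩

end Pool.Agent.MP_88bd62_nt.U.A
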