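import Pool.Agent.MP_88bd62_nt.U.ASpec

/-! The table of roots of two. -/

namespace Pool.Agent.MP_88bd62_nt.U.A

theorem aRt_tab : ∀ i < 23, rt i ^ 2 ^ (22 - i) ≤ 2 * (2 ^ 40) ^ 2 ^ (22 - i) ∧
    2 * (2 ^ 40) ^ 2 ^ (22 - i) ≤ (rt i + 1) ^ 2 ^ (22 - i) := by decide +kernel

theorem aRt_root {r n : ℕ} {x : ℝ} (hn : n ≠ 0) (hx : x * n = 1)
    (h : r ^ n ≤ 2 * (2 ^ 40) ^ n ∧ 2 * (2 ^ 40) ^ n ≤ (r + 1) ^ n) :
    (r : ℝ) ≤ 2 ^ 40 * 2 ^ x ∧ 2 ^ 40 * 2 ^ x ≤ (r : ℝ) + 1 := by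
  have e : ((2 : ℝ) ^ 40 * 2 ^ x) ^ n = 2 * (2 ^ 40) ^ n := by
    rw [mul_pow, ← Real.rpow_natCast (2 ^ x), ← Real.rpow_mul zero_le_two, hx, Real.rpow_one,
      mul_comm]
  constructor
  · refine le_of_pow_le_pow_left₀ hn (by positivity) ?_
    rw [e]
    exact_mod_cast h.1
  · refine le_of_pow_le_pow_left₀ hn (by positivity) ?_
    rw [e]
    exact_mod_cast h.2

theorem stRt : StRt := by
  intro i hi
  refine aRt_root (n := 2 ^ (22 - i)) (by positivity) ?_ (aRt_tab i (Nat.lt_succ_of_le hi))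
  rw [Nat.cast_pow, Nat.cast_ofNat, div_mul_eq_mul_div, ← pow_add, Nat.add_sub_cancel' hi]
  exact div_self (by positivity)

end Pool.Agent.MP_88bd62_nt.U.A
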