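import Pool.Agent.MP_88bd62_nt.U.ASpec

namespace Pool.Agent.MP_88bd62_nt.U.A

open Finset Real Polynomial
open Pool.Agent.MP_22d5c4_co.K (dig ones dig_zero dig_succ dig_lt)

theorem aSp_zero {c : ℕ} (y : ℕ) (hc : c < 2 ^ 80) : dig 80 (c + 2 ^ 80 * y) 0 = c := by
  rw [dig_zero, Nat.add_mul_mod_self_left, Nat.mod_eq_of_lt hc]

theorem aSp_succ {c : ℕ} (y i : ℕ) (hc : c < 2 ^ 80) :
    dig 80 (c + 2 ^ 80 * y) (i + 1) = dig 80 y i := by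
  rw [dig_succ, Nat.add_mul_div_left _ _ (by positivity), Nat.div_eq_of_lt hc, zero_add]

theorem aSp_int (f t : ℕ) : ∃ z : ℤ, (z : ℝ) = 24 * 2 ^ 68 * tap t (f / 2 ^ 17) := by
  rcases t with _ | _ | _ | _ | _ | t
  · exact ⟨(2 ^ 17 - f) ^ 4, by simp only [tap]; push_cast; ring⟩
  · exact ⟨11 * 2 ^ 68 - 12 * 2 ^ 51 * f - 6 * 2 ^ 34 * f ^ 2 + 12 * 2 ^ 17 * f ^ 3 - 4 * f ^ 4,
      by simp only [tap]; push_cast; ring⟩
  · exact ⟨11 * 2 ^ 68 + 12 * 2 ^ 51 * f - 6 * 2 ^ 34 * f ^ 2 - 12 * 2 ^ 17 * f ^ 3 + 6 * f ^ 4,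
      by simp only [tap]; push_cast; ring⟩
  · exact ⟨2 ^ 68 + 4 * 2 ^ 51 * f + 6 * 2 ^ 34 * f ^ 2 + 4 * 2 ^ 17 * f ^ 3 - 4 * f ^ 4,
      by simp only [tap]; push_cast; ring⟩
  · exact ⟨f ^ 4, by simp only [tap]; push_cast; ring⟩
  · exact ⟨0, by simp only [tap]; push_cast; ring⟩

theorem aSp_nat (hNode : StNode) {f : ℕ} (hf : f < 2 ^ 17) (t : ℕ) (ht : t < 5) :
    ∃ c : ℕ, c < 2 ^ 80 ∧ (c : ℝ) = 24 * 2 ^ 68 * tap t (f / 2 ^ 17) := by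
  have hf' : (f : ℝ) ≤ 2 ^ 17 := by exact_mod_cast hf.le
  obtain ⟨h0, h1⟩ := hNode.2.2 (f / 2 ^ 17) (by positivity) ((div_le_one (by positivity)).2 hf')
  have h2 : tap t (f / 2 ^ 17) ≤ 1 :=
    h1 ▸ single_le_sum (f := fun t => tap t (f / 2 ^ 17)) (fun i _ => h0 i) (mem_range.2 ht)
  obtain ⟨z, hz⟩ := aSp_int f t
  have h3 : (0 : ℝ) ≤ z := by rw [hz]; have := h0 t; positivity
  lift z to ℕ using by exact_mod_cast h3
  refine ⟨z, ?_, by exact_mod_cast hz⟩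
  have : ((z : ℤ) : ℝ) < 2 ^ 80 := by rw [hz]; linarith
  exact_mod_cast this

theorem stSp (hUni : StUni) (hNode : StNode) (hMk : StMk) : StSp := by
  refine ⟨fun f hf => ?_, fun x => ⟨?_, fun i hi => ?_⟩⟩
  · obtain ⟨c0, b0, e0⟩ := aSp_nat hNode hf 0 (by norm_num)
    obtain ⟨c1, b1, e1⟩ := aSp_nat hNode hf 1 (by norm_num)
    obtain ⟨c2, b2, e2⟩ := aSp_nat hNode hf 2 (by norm_num)
    obtain ⟨c3, b3, e3⟩ := aSp_nat hNode hf 3 (by norm_num)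
    obtain ⟨c4, b4, e4⟩ := aSp_nat hNode hf 4 (by norm_num)
    have hs : spl f = c0 + 2 ^ 80 * (c1 + 2 ^ 80 * (c2 + 2 ^ 80 * (c3 + 2 ^ 80 *
        (c4 + 2 ^ 80 * 0)))) := by
      have : (spl f : ℝ) = c0 + 2 ^ 80 * (c1 + 2 ^ 80 * (c2 + 2 ^ 80 * (c3 + 2 ^ 80 *
        (c4 + 2 ^ 80 * 0)))) := by
        rw [e0, e1, e2, e3, e4]
        simp only [spl, Nat.add_eq, Nat.mul_eq, tap, K0, K1, K2, K3, K4]
        push_cast
        ring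
      exact_mod_cast this
    rw [hs]
    refine ⟨by omega, fun t ht => ?_⟩
    rcases t with _ | _ | _ | _ | _ | t
    · rw [aSp_zero _ b0, e0]
    · rw [aSp_succ _ _ b0, aSp_zero _ b1, e1]
    · rw [aSp_succ _ _ b0, aSp_succ _ _ b1, aSp_zero _ b2, e2]
    · rw [aSp_succ _ _ b0, aSp_succ _ _ b1, aSp_succ _ _ b2, aSp_zero _ b3, e3]
    · rw [aSp_succ _ _ b0, aSp_succ _ _ b1, aSp_succ _ _ b2, aSp_succ _ _ b3, aSp_zero _ b4, e4]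
    · omega
  · exact Nat.and_le_left.trans (Nat.shiftRight_le x 36)
  · have h := (hUni.2.2.2.2.2.1 132 x 36 44 (by norm_num)).2 i hi
    have e : tr36 x = (x >>> 36) &&& (ones 80 132 * (2 ^ 44 - 1)) := by
      rw [← hMk.1]; rfl
    rw [e, h]
    refine Nat.mod_eq_of_lt ?_
    have := dig_lt 80 x i
    omega

end Pool.Agent.MP_88bd62_nt.U.A
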