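import Pool.Agent.MP_88bd62_nt.U.ADefs

/-! The analytic steps of the evaluation on the grid, as propositions. -/

namespace Pool.Agent.MP_88bd62_nt.U.A

open Finset Real Polynomial
open Pool.Agent.MP_22d5c4_co.K (dig ones)

noncomputable section

def StBas : Prop :=
  (∀ k v w, xp k (v + w) = xp k v * xp k w) ∧ (∀ (k : ℤ) (n : ℕ), xp k n = xk k ^ n) ∧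
  (∀ k v, ‖xp k v‖ = 2 ^ (-(v / 2 ^ 22))) ∧ (∀ k, Odd k → xk k ^ 2 ^ 22 = -1 / 2) ∧
  (∀ (k : ℤ) (n : ℕ), 1 ≤ n → pw n k = xp k (2 ^ 22 * th n)) ∧
  (∀ (k : ℤ) (v : ℝ), (((2 : ℝ) ^ v : ℝ) : ℂ) * ee k v = xp k (-(2 ^ 22 * v))) ∧
  (∀ k, zk k ≠ 0 ∧ sh k = 1 / (2 ^ 22 * zk k) ∧ ‖zk k‖ = π / 2 * xi k ∧ 0 < xi k ∧
    ‖sh k‖ = 1 / (π * 2 ^ 21 * xi k) ∧ xk k ≠ 0 ∧ xk k ≠ 1 ∧ ‖xk k‖ ≤ 1 ∧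
    ‖1 - xk k‖ ≤ ‖zk k‖ ∧ ‖qq k‖ ≤ 1 ∧ ‖qq k - 1‖ ≤ ‖zk k‖ / 2 ∧
    |(k : ℝ)| / 2 ^ 21 ≤ xi k ∧ xi k ≤ (|(k : ℝ)| + 0.23) / 2 ^ 21) ∧
  ∀ k ∈ K20, Odd k ∧ xi k < 1 ∧ sL (xi k) ≤ ‖qq k‖ ∧ kL (xi k) ≤ ‖kap k‖ ∧ 0.58 ≤ kL (xi k) ∧
    kL (xi k) ≤ 1 ∧ ‖kap k‖ ≤ 1.000001 ∧ 0 ≤ wk (2 ^ 20) k ∧ wk (2 ^ 20) k ≤ 1

/-- The aliasing error of the splines. -/
def StSpl : Prop := ∀ k ∈ K20,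
  (∀ f : ℝ, 0 ≤ f → f ≤ 1 → ‖tv k f - kap k * xp k f‖ ≤ ‖kap k‖ * al5 (xi k)) ∧
  ‖(1 + 4 * xk k + xk k ^ 2) / 6 - kap4 k‖ ≤ ‖kap4 k‖ * al4 (xi k)

def StNode : Prop := (∀ k ∈ K20, ∀ (l : ℕ) (f P : ℝ), 0 ≤ f → f ≤ 1 → |P - l - f| ≤ 0.000004 →
    ‖xk k ^ l * tv k f - kap k * xp k P‖ ≤ ‖kap k‖ * (2 ^ (-(P / 2 ^ 22)) * nd (xi k))) ∧
  (∀ k ∈ K20, ‖b5 (xk k) / 24 - kap k‖ ≤ ‖kap k‖ * al5 (xi k)) ∧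
  ∀ f : ℝ, 0 ≤ f → f ≤ 1 → (∀ t, 0 ≤ tap t f) ∧ ∑ t ∈ range 5, tap t f = 1

/-- The tail of the series below the first stationary point. -/
def StTl3 : Prop := ∀ (t : ℝ) (A : ℕ), 2000 ≤ |t| → 10 ^ 6 ≤ A → |t| ≤ 0.993 * (2 * π * A) →
  ‖riemannZeta (1 + t * Complex.I) - ∑ n ∈ Ico 1 A, (n : ℂ) ^ (-(1 + t * Complex.I))
      - (A : ℂ) ^ (-(t * Complex.I)) / (t * Complex.I)‖ ≤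
    (0.55 + 1.05 * (|t| / (2 * π * A)) / (1 - (|t| / (2 * π * A)) ^ 2)) / A

def StTl : Prop := ∀ k ∈ K20,
  ‖riemannZeta (sk k) - ∑ n ∈ Ico 1 (2 ^ 20), pw n k - 1 / ((tk k : ℝ) * Complex.I)‖ ≤
    0.0000006 + tg (xi k)

def StFold : Prop :=
  (∀ k : ℤ, Odd k → -2 ^ 19 * ∑ n ∈ Ico 1 (2 ^ 20), pw n k =
    ∑ m ∈ Ico (2 ^ 19) (2 ^ 20), (cm m : ℂ) * xp k (2 ^ 22 * logb 2 (m / 2 ^ 19))) ∧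
  ∑ m ∈ Ico (2 ^ 19) (2 ^ 20), |(cm m : ℝ)| / m ≤ 5.14 ∧
  ∑ m ∈ Ico (2 ^ 19) (2 ^ 20), |(cm m : ℝ)| ≤ 7.12 * 2 ^ 19 ∧
  ∀ m : ℕ, 8 ∣ m → 0 < m → m < 2 ^ 20 →
    cm (m + 1) = 1 ∧ cm (m + 2) = -1 ∧ cm (m + 3) = 1 ∧ cm (m + 4) = 3 ∧ cm (m + 5) = 1 ∧
    cm (m + 6) = -1 ∧ cm (m + 7) = 1 ∧
    cm m = if Nat.gcd m 1048576 % 3 = 1 then (((2 * Nat.gcd m 1048576 + 1) / 3 : ℕ) : ℤ)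
      else -(((2 * Nat.gcd m 1048576 - 1) / 3 : ℕ) : ℤ)

def StDens : Prop := ∀ k ∈ K20,
  ‖∑ j ∈ range (2 ^ 22), ((log 2 / 16 * 2 ^ ((j : ℝ) / 2 ^ 22) : ℝ) : ℂ) * xk k ^ j
    - 2 ^ 19 * kap k / ((tk k : ℝ) * Complex.I)‖ ≤ 2 ^ 19 * 0.0000007

def StHa : Prop := ∀ k : ℤ, Odd k → DAv k ≠ 0 ∧ ‖(DAv k)⁻¹‖ ≤ 2.2341 ∧ riemannZeta (sk k) ≠ 0 ∧
  FS k = HB k / (9 / 4 * riemannZeta (sk k) ^ 2 * DAv k) ∧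
  HB k = Complex.exp (∑' n : ℕ, if 23 ≤ n then ell n (sk k) else 0) ∧
  Ser a1 k = ∑ n ∈ E0, (a1 n : ℂ) * pw n k

/-- Sums over primes. -/
def StPs : Prop := ∑ p ∈ PP 512, 3 / (p : ℝ) ^ 2 ≤ 0.03016 ∧
  ∑ p ∈ (PP (2 ^ 15)).filter (512 ≤ ·), 3 / (p : ℝ) ^ 2 ≤ 0.00079 ∧
  ∑ p ∈ PP 48, 2 / (p : ℝ) ^ 3 ≤ 0.000427 ∧
  ∑ p ∈ (PP 1024).filter (48 ≤ ·), 2 / (p : ℝ) ^ 3 ≤ 0.000083 ∧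
  ∑ p ∈ PP 128, 9 / 2 / (p : ℝ) ^ 4 ≤ 0.000036 ∧ (PP (2 ^ 15)).card ≤ 3504 ∧ (PP 512).card ≤ 89 ∧
  (PP 1024).card ≤ 164 ∧ (PP 128).card ≤ 23 ∧ (PP 48).card ≤ 7

def StHb : Prop := ∀ k : ℤ, Odd k → ‖HB k‖ ≤ 1.0321 ∧ ‖HB k - HBl k‖ ≤ 0.00006

def StCf : Prop :=
  (∀ (P : ℤ[X]) (i : ℕ), (∀ j, 2 ^ 22 ≤ j → P.coeff j = 0) → i < 2 ^ 22 →
    cf (fun k => ev k P) i = P.coeff i) ∧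
  (∀ (φ : ℤ → ℂ) (i m : ℤ), cf (fun k => xp k i * φ k) m = cf φ (m - i)) ∧
  (∀ (φ : ℤ → ℂ) (m : ℤ), cf φ (m + 2 ^ 22) = -2 * cf φ m) ∧
  (∀ (φ ψ : ℤ → ℂ) (m : ℤ), (∀ k, Odd k → φ k = ψ k) → cf φ m = cf ψ m) ∧
  (∀ m : ℤ, (0 ≤ m → m < 2 ^ 22 → cf (fun k => 1 / (1 - xk k)) m = 2 / 3) ∧
    (-2 ^ 22 ≤ m → m < 0 → cf (fun k => 1 / (1 - xk k)) m = -1 / 3) ∧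
    (m < 3 * 2 ^ 22 → ‖cf (fun k => 1 / (1 - xk k)) m‖ ≤ 8 / 3)) ∧
  (∀ (P : ℤ[X]) (c : ℝ) (m : ℤ), Sup P (2 ^ 22) c → m < 3 * 2 ^ 22 →
    ‖cf (fun k => ev k P) m‖ ≤ 4 * c) ∧
  (∀ (φ : ℤ → ℂ) (P : ℤ[X]) (c M : ℝ) (m : ℤ), (∀ m' ≤ m, ‖cf φ m'‖ ≤ M) → L1 P c →
    ‖cf (fun k => ev k P * φ k) m‖ ≤ c * M) ∧
  ∀ (c : ℤ → ℂ) (i : ℤ), (((2 : ℝ) ^ ((i : ℝ) / 2 ^ 22) : ℝ) : ℂ) * LPc (2 ^ 20) c (i / 2 ^ 22) =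
      cf (fun k => wk (2 ^ 20) k * (c k / zk k)) i ∧
    ‖cf (fun k => wk (2 ^ 20) k * c k) i‖ ≤
      2 ^ ((i : ℝ) / 2 ^ 22) * ((∑ k ∈ K20, wk (2 ^ 20) k * ‖c k‖) / 2 ^ 22)

def StPar : Prop := (∀ (P : ℤ[X]) (c : ℝ) (k : ℤ), L1 P c → ‖ev k P‖ ≤ c) ∧
  (∀ (P : ℤ[X]) (n : ℕ) (c : ℝ), Sup P n c → L1 P (n * c)) ∧
  ∀ (P : ℤ[X]) (c Ω : ℝ) (a : ℤ → ℝ), Sup P (2 ^ 22) c → 0 ≤ Ω → ∑ k ∈ K20, a k ^ 2 ≤ Ω ^ 2 →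
    (∑ k ∈ K20, a k * ‖ev k P‖) / 2 ^ 22 ≤ 0.7363 * Ω * c

/-- The Jackson kernel on the grid. -/
def Jk (i : ℤ) : ℝ := 2 ^ ((i : ℝ) / 2 ^ 22) * ker (2 ^ 20) (i / 2 ^ 22) / 2 ^ 23

def StJa : Prop := ∑ i ∈ Ico (-2 ^ 22 : ℤ) (2 ^ 22),
  |Jk i - if |i| ≤ 512 then (jt (i + 512).toNat : ℝ) / 2 ^ 40 else 0| ≤ 0.000001

def StJ : Prop := ∀ (φ : ℤ → ℂ) (M : ℝ) (m : ℤ), (∀ m' ≤ m + 2 ^ 22, ‖cf φ m'‖ ≤ M) →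
  ‖cf (fun k => wk (2 ^ 20) k * φ k) m
    - cf (fun k => ev k JT * xp k (-512) / 2 ^ 40 * φ k) m‖ ≤ 0.000001 * M

def StTT : Prop :=
  (∀ k ∈ K20, ‖tpv (xk k) / (2 ^ 56 * xk k ^ 28) - 1‖ ≤ tT (xi k)) ∧
  (∀ x : ℂ, (1 - x) * aeval x (lp DFL) = tpv x * b5 x ^ 3 - 27 * 2 ^ 65) ∧
  Sup (lp DFL) 65 (2 ^ 70)

def StI : Prop := L1 (lp IL) (3 * 2 ^ 26) ∧ Sup (lp IL) 29 (2 ^ 27) ∧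
  (∀ k, ‖ev k (lp IL) * (1 + 4 * xk k + xk k ^ 2) - 6 * 2 ^ 26 * xk k ^ 15‖ ≤ 32) ∧
  Sup JT 1025 (2 ^ 38) ∧
  ∑ n ∈ E0, |gE n| ≤ 3.2422 ∧ ∑ n ∈ E0, |a1 n| / n ≤ 2.4558

/-- Sums over windows of frequencies. -/
def StWin : Prop := NumW → (∀ k ∈ K20, 0 < yz k ∧ yz k ≤ 5) ∧
  ∑ k ∈ K20, ‖sh k‖ * yz k ^ 3 ≤ 59 ∧ ∑ k ∈ K20, ‖sh k‖ * yz k ^ 2 ≤ 26 ∧
  ∑ k ∈ K20, ‖sh k‖ ≤ 5.1 ∧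
  ∀ (f : ℤ → ℝ) (c : ℕ → ℝ), (∀ i, 0 ≤ c i) → (∀ k ∈ K20, f k ≤ c (k.natAbs / 2 ^ 17)) →
    ∑ k ∈ K20, f k * (yz k ^ 4 + 7) ≤ 28 * 2 ^ 17 * ∑ i ∈ range 16, c i ∧
    ∑ k ∈ K20, f k ≤ 2 ^ 17 * ∑ i ∈ range 16, c i

/-- Monotonicity of the error functions. -/
def StMon : Prop :=
  (∀ k ∈ K20, ∀ a : ℝ, 0 ≤ a → a ≤ |(k : ℝ)| / 2 ^ 21 → wk (2 ^ 20) k ≤ wU a) ∧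
  ∀ a x b : ℝ, 0 ≤ a → a ≤ x → 0 < x → x ≤ b → b ≤ 1 →
    0 ≤ al5 x ∧ 0 ≤ al4 x ∧ 0 ≤ nd x ∧ 0 ≤ tg x ∧ 0 ≤ tT x ∧ 0 ≤ hh x ∧ al4 x ≤ 0.01502 ∧
    nd x ≤ 0.0046 ∧ 4 * al5 x ≤ hh x ∧ hh x ≤ hh b ∧ hh b ≤ 1 / 4 ∧ 1 ≤ cc x ∧ cc x ≤ cc b ∧
    kL b ≤ kL x ∧ 0.58 ≤ kL b ∧
    al5 x / x ≤ al5 b / b ∧ al4 x / x ≤ al4 b / b ∧ nd x / x ≤ nd b / b ∧
    tg x / x ≤ (if b ≤ 11 / 16 then tg b / b else if 11 / 16 ≤ a then 0.003 / a else 1) ∧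
    tT x / x ≤ (∑ i ∈ Icc 20 28, (Nat.choose 28 i : ℝ) * (0.6169 * b ^ 2) ^ i * cU a ^ (28 - i)) / b

def StSum : Prop := NumW →
  ∑ k ∈ K20, om k * gR (xi k) * (yz k ^ 4 + 7) ≤ 0.00356 ∧
  ∑ k ∈ K20, om k * gX (xi k) * (yz k ^ 4 + 7) ≤ 0.00035 ∧
  ∑ k ∈ K20, om k * gB (xi k) ≤ 0.00016 ∧
  ∑ k ∈ K20, (wk (2 ^ 20) k * cc (xi k) / kL (xi k) ^ 3) ^ 2 * (yz k ^ 4 + 7) ≤ 4700 ^ 2 ∧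
  ∀ k ∈ K20, wk (2 ^ 20) k * cc (xi k) ^ 2 / kL (xi k) ^ 2 ≤ 1.01

/-- The algebra of the residual. -/
def StAlg : Prop := ∀ (κ ζ D V T β Z G P U₁ U₂ e₁ e₂ r : ℂ) (η d ε α τ h : ℝ),
  κ ≠ 0 → ζ ≠ 0 → D ≠ 0 → ‖Z - κ * ζ‖ ≤ η * ‖κ * ζ‖ → ‖G - κ * D‖ ≤ d * ‖κ * D‖ →
  ‖e₁‖ ≤ ε * ‖Z * G‖ → ‖β - κ‖ ≤ α * ‖κ‖ → ‖T - 1‖ ≤ τ → 0 ≤ η → 0 ≤ d → 0 ≤ ε → 0 ≤ α → 0 ≤ τ →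
  η + d + ε ≤ h → 4 * α ≤ h → h ≤ 1 / 4 → Z * G = U₁ + e₁ → Z * P = U₂ + e₂ →
  U₁ * U₂ = V * T * β ^ 3 + r →
  ‖P - V / (ζ ^ 2 * D)‖ ≤ (1 + h) / (1 - h) ^ 2 *
    (‖V / (ζ ^ 2 * D)‖ * (2 * η + d + ε + 3 * α + τ) + ‖r‖ / ‖κ ^ 3 * ζ ^ 2 * D‖ + ‖e₂‖ / ‖κ * ζ‖)

/-- The pointwise bound for the inverse. -/
def StRp : Prop := ∀ (ZP DP PW p U₁ U₂ e₁ e₂ r : ℤ[X]) (k : ℤ), k ∈ K20 → yz k ≤ 5 →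
  ‖ev k ZP / (3 * 2 ^ 27) - kap k * riemannZeta (sk k) - (1 - xk k) * ev k p / (3 * 2 ^ 54)‖ ≤
    ‖kap k‖ * aZ (xi k) + 0.0000008 → ‖ev k p‖ ≤ 2 ^ 48 →
  ‖ev k DP / (3 * 2 ^ 35) - kap k * DAv k‖ ≤ ‖kap k‖ * (1.8184 * nd (xi k)) + 0.00000035 →
  ‖ev k e₁‖ ≤ 2 ^ 22 * (2 ^ 23 + 1) →
  2 * ev k ZP * ev k DP = 2 ^ 24 * ev k U₁ + ev k e₁ →
  2 * ev k ZP * ev k PW = 2 ^ 24 * ev k U₂ + ev k e₂ →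
  (1 - xk k) * (2 * ev k U₁ * ev k U₂ - ev k r) = 2 * xp k (-555) * (tpv (xk k) * b5 (xk k) ^ 3) →
  ‖dR PW k‖ ≤ gR (xi k) * (yz k ^ 4 + 7) / ‖zk k‖
    + cc (xi k) ^ 2 / kL (xi k) ^ 2 * (0.0000083721 * yz k ^ 3 + 0.000001747 * yz k ^ 2) / ‖zk k‖
    + 1.0001 * cc (xi k) / kL (xi k) ^ 3 * (4.4682 * yz k ^ 3 * ‖ev k p‖ / (3 * 2 ^ 54)
      + 2.2341 * yz k ^ 2 * ‖ev k r‖ / (27 * 2 ^ 66) + yz k * ‖ev k e₂‖ / (3 * 2 ^ 50))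

def StR : Prop := NumW → ∀ ZP DP PW : ℤ[X], SpecZ ZP → SpecD DP → RingR ZP DP PW → SpecR PW

def StP : Prop := NumW → ∀ (HP PW Y : ℤ[X]) (A : ℕ → ℤ[X]) (l : ℕ → ℕ),
  SpecR PW → SpecH HP → RingY HP PW Y → SpecA A l → SpecP Y A l

def StQ : Prop := ∀ (Y Q : ℤ[X]) (A : ℕ → ℤ[X]) (l j : ℕ → ℕ) (S : ℕ → ℤ),
  Sup Y (2 ^ 22) (2 ^ 29) → SpecA A l → RingQ Y Q A l j S → SpecQ Y Q A l j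

/-- The steps of the explicit part. -/
def StStep : Prop := ∀ j : ℕ → ℕ, (∀ n ∈ E0, |PE n - j n| ≤ 1 / 2) → Set.InjOn j E0 →
  (∀ n ∈ E0, j n < 2 ^ 22 - 1) → ∀ (i : ℕ) (u : ℝ), i < 2 ^ 22 →
    (i - 1 / 2) / 2 ^ 22 ≤ u → u < (i + 1 / 2) / 2 ^ 22 →
    2 ^ u * Phi a1 u = stp j i ∨ ∃ n ∈ E0, j n = i ∧ 2 ^ u * Phi a1 u = stp j i - gE n

def StFin : Prop := ∀ (Y Q : ℤ[X]) (A : ℕ → ℤ[X]) (l j : ℕ → ℕ) (S : ℕ → ℤ) (b : ℕ → ℝ),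
  (∀ n ∈ E0, |PE n - j n| ≤ 1 / 2) → Set.InjOn j E0 → (∀ n ∈ E0, j n < 2 ^ 22 - 1) →
  (∀ n ∈ E0, |(S n : ℝ) - 27 * 2 ^ 56 * gE n| ≤ 27 * 2 ^ 56 / 10 ^ 7) →
  (∀ i : ℕ, i < 2 ^ 22 → Bexp (1 / 2 ^ 23) (i / 2 ^ 22) ≤ b i) →
  SpecP Y A l → SpecQ Y Q A l j → SpecF b Q j S → NumA1 0.984

/-! Packed arithmetic -/

def StUni : Prop :=
  (∀ P Q : ℤ[X], (∀ i, |P.coeff i - Q.coeff i| < 2 ^ 80) → vl P = vl Q → P = Q) ∧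
  (∀ (P : ℤ[X]) (n y : ℕ), (∀ i, n ≤ i → P.coeff i = 0) →
    (∀ i < n, |P.coeff i - dig 80 y i| < 2 ^ 80) → vl P ≡ y [ZMOD 2 ^ (80 * n)] →
    ∀ i < n, P.coeff i = dig 80 y i) ∧
  (∀ (n x : ℕ) (o : ℤ), (∀ i, (tp n x o).coeff i = if i < n then (dig 80 x i : ℤ) - o else 0) ∧
    (x < 2 ^ (80 * n) → vl (tp n x o) = x - o * ones 80 n)) ∧
  (∀ n, vl (onp n) = ones 80 n ∧ (∀ i, (onp n).coeff i = if i < n then 1 else 0) ∧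
    (1 - X) * onp n = 1 - X ^ n ∧ 2 ^ (80 * n) / (2 ^ 80 - 1) = ones 80 n) ∧
  (∀ n x r : ℕ, r ≤ 80 → x &&& (ones 80 n * (2 ^ 80 - 2 ^ r)) = 0 → ∀ i < n, dig 80 x i < 2 ^ r) ∧
  (∀ n x s t : ℕ, s + t ≤ 80 → (x >>> s) &&& (ones 80 n * (2 ^ t - 1)) < 2 ^ (80 * n) ∧
    ∀ i < n, dig 80 ((x >>> s) &&& (ones 80 n * (2 ^ t - 1))) i = dig 80 x i / 2 ^ s % 2 ^ t) ∧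
  ∀ l : List ℤ, vl (lp l) = l.foldr (fun c v => c + 2 ^ 80 * v) 0 ∧
    L1 (lp l) ((l.map fun c => |c|).sum : ℤ) ∧ ∀ i, (lp l).coeff i = l.getD i 0

def StNrm : Prop :=
  (∀ (P Q : ℤ[X]) (a b : ℝ), L1 P a → L1 Q b → L1 (P + Q) (a + b) ∧ L1 (P - Q) (a + b) ∧
    L1 (P * Q) (a * b)) ∧
  (∀ (P : ℤ[X]) (a : ℝ) (n : ℕ) (c : ℤ), L1 P a → L1 (X ^ n * P) a ∧ L1 (C c * P) (|c| * a) ∧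
    L1 (-P) a ∧ ∀ i, |(P.coeff i : ℝ)| ≤ a) ∧
  (∀ (P Q : ℤ[X]) (a b : ℝ) (m n : ℕ), L1 P a → (∀ i, m ≤ i → P.coeff i = 0) → Sup Q n b →
    Sup (P * Q) (m + n) (a * b)) ∧
  (∀ {ι : Type} (s : Finset ι) (P : ι → ℤ[X]) (a : ι → ℝ), (∀ i ∈ s, L1 (P i) (a i)) →
    L1 (∑ i ∈ s, P i) (∑ i ∈ s, a i)) ∧
  ∀ (W : ℤ[X]) (n x : ℕ) (c : ℝ), Sup W (2 * n) c → c < 2 ^ 79 → vl W = x →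
    ∃ (lo hi : ℤ[X]) (β : ℤ), (β = 0 ∨ β = 1) ∧ W = lo + X ^ n * hi ∧ Sup lo n c ∧ Sup hi n c ∧
      (∀ a, L1 W a → L1 (2 * lo - hi) (2 * a)) ∧
      2 * ((x % 2 ^ (80 * n) : ℕ) : ℤ) - ((x / 2 ^ (80 * n) : ℕ) : ℤ) ≡ vl (2 * lo - hi) + β
        [ZMOD 2 ^ (80 * n)]

end

end Pool.Agent.MP_88bd62_nt.U.A
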