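import Pool.Agent.MP_88bd62_nt.U.AStm

/-! Rational copies of the error functions and the numerical tables for the window sums. -/

namespace Pool.Agent.MP_88bd62_nt.U.A

open Finset

def aSum_al5 (x : ℚ) : ℚ := (x / (4 - x)) ^ 5 + (x / (3.999 + x)) ^ 5 + 0.00014 * x ^ 5

def aSum_al4 (x : ℚ) : ℚ := (x / (4 - x)) ^ 4 + (x / (3.999 + x)) ^ 4 + 0.00106 * x ^ 4

def aSum_kL (x : ℚ) : ℚ := (0.9999999 - 0.10281 * x ^ 2) ^ 5

def aSum_nd (x : ℚ) : ℚ := 1.001 * (aSum_al5 x + 0.00000632 * x)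

def aSum_tg (x : ℚ) : ℚ := if x ≤ 11 / 16 then 0.00000145 * x / (1 - 2.0814 * x ^ 2) else 0.003

def aSum_cU (x : ℚ) : ℚ := 1.000001 - 0.6168 * x ^ 2 * (1 - 0.2057 * x ^ 2)

def aSum_hh (x : ℚ) : ℚ :=
  5 * (5.14 * aSum_nd x + 0.0000006 + aSum_tg x + (0.0000008 + 0.008182 * x) / aSum_kL x)
    + 2.2341 * (1.8184 * aSum_nd x + 0.00000035 / aSum_kL x) + 0.00003

def aSum_cc (x : ℚ) : ℚ := (1 + aSum_hh x) / (1 - aSum_hh x) ^ 2

def aSum_wU (x : ℚ) : ℚ :=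
  (if x ≤ 1 / 2 then 1 - 6 * x ^ 2 + 6 * x ^ 3 else 2 * (1 - x) ^ 3) + 0.000000001

def aSum_tgh (a b : ℚ) : ℚ :=
  if b ≤ 11 / 16 then aSum_tg b / b else if 11 / 16 ≤ a then 0.003 / a else 1

def aSum_tTh (a b : ℚ) : ℚ :=
  (∑ i ∈ Icc 20 28, (Nat.choose 28 i : ℚ) * (0.6169 * b ^ 2) ^ i * aSum_cU a ^ (28 - i)) / b

def aSum_GR (a b : ℚ) : ℚ :=
  aSum_cc b * 2.2341 * (0.702 * (5.14 * (aSum_nd b / b) + aSum_tgh a b)
    + 0.189 * (4.0625 * (aSum_nd b / b) + 3 * (aSum_al5 b / b) + aSum_tTh a b))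

def aSum_GX (b : ℚ) : ℚ := 0.192 * (1.026 * (aSum_al4 b / b) + 1.026 * (aSum_nd b / b))

def aSum_GB (b : ℚ) : ℚ := 2.494 * (aSum_al4 b / b + aSum_nd b / b)

theorem aSum_cal5 (x : ℚ) : ((aSum_al5 x : ℚ) : ℝ) = al5 x := by
  unfold aSum_al5 al5; push_cast; rfl

theorem aSum_cal4 (x : ℚ) : ((aSum_al4 x : ℚ) : ℝ) = al4 x := by
  unfold aSum_al4 al4; push_cast; rfl

theorem aSum_ckL (x : ℚ) : ((aSum_kL x : ℚ) : ℝ) = kL x := by
  unfold aSum_kL kL sL; push_cast; rfl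

theorem aSum_cnd (x : ℚ) : ((aSum_nd x : ℚ) : ℝ) = nd x := by
  unfold aSum_nd nd; push_cast; rw [aSum_cal5]

theorem aSum_le (x c : ℚ) (d : ℝ) (h : (c : ℝ) = d) : (x : ℝ) ≤ d ↔ x ≤ c := by
  rw [← h, Rat.cast_le]

theorem aSum_ge (x c : ℚ) (d : ℝ) (h : (c : ℝ) = d) : d ≤ (x : ℝ) ↔ c ≤ x := by
  rw [← h, Rat.cast_le]

theorem aSum_ctg (x : ℚ) : ((aSum_tg x : ℚ) : ℝ) = tg x := by
  unfold aSum_tg tg
  simp only [aSum_le x (11 / 16) (11 / 16) (by norm_num)]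
  split_ifs
  · push_cast; rfl
  · push_cast; rfl

theorem aSum_ccU (x : ℚ) : ((aSum_cU x : ℚ) : ℝ) = cU x := by
  unfold aSum_cU cU; push_cast; rfl

theorem aSum_chh (x : ℚ) : ((aSum_hh x : ℚ) : ℝ) = hh x := by
  unfold aSum_hh hh aZ; push_cast; rw [aSum_cnd, aSum_ctg, aSum_ckL]

theorem aSum_ccc (x : ℚ) : ((aSum_cc x : ℚ) : ℝ) = cc x := by
  unfold aSum_cc cc; push_cast; rw [aSum_chh]

theorem aSum_cwU (x : ℚ) : ((aSum_wU x : ℚ) : ℝ) = wU x := by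
  unfold aSum_wU wU
  simp only [aSum_le x (1 / 2) (1 / 2) (by norm_num)]
  split_ifs
  · push_cast; rfl
  · push_cast; rfl

theorem aSum_ctgh (a b : ℚ) : ((aSum_tgh a b : ℚ) : ℝ) =
    if (b : ℝ) ≤ 11 / 16 then tg b / b else if 11 / 16 ≤ (a : ℝ) then 0.003 / (a : ℝ) else 1 := by
  unfold aSum_tgh
  simp only [aSum_le b (11 / 16) (11 / 16) (by norm_num),
    aSum_ge a (11 / 16) (11 / 16) (by norm_num)]
  split_ifs
  · push_cast; rw [aSum_ctg]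
  · push_cast; rfl
  · push_cast; rfl

theorem aSum_ctTh (a b : ℚ) : ((aSum_tTh a b : ℚ) : ℝ) =
    (∑ i ∈ Icc 20 28, (Nat.choose 28 i : ℝ) * (0.6169 * (b : ℝ) ^ 2) ^ i * cU a ^ (28 - i)) / b := by
  unfold aSum_tTh
  push_cast
  simp only [aSum_ccU]

def aSum_tR : List ℕ := [64235, 65867, 80789, 121098, 194649, 298779, 417301, 524724, 600697,
  627571, 626704, 1119167, 747616, 458722, 277784, 145031]

def aSum_tX : List ℕ := [1652, 4445, 11374, 22894, 37874, 53694, 66844, 74228, 75457, 74573,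
  67845, 55337, 39149, 22458, 8930, 1482]

def aSum_tB : List ℕ := [20914, 56266, 143993, 289842, 479497, 679787, 846262, 939746, 955311,
  944121, 858943, 700584, 495637, 284318, 113052, 18760]

def aSum_tQ : List ℕ := [1004833, 988508, 919984, 811734, 678296, 533721, 391617, 264804, 164210,
  94824, 50295, 25829, 9999, 2808, 423, 13]

def aSum_a (s : ℕ) : ℚ := (s : ℚ) / 128

theorem aSum_nR : ∀ s < 128, aSum_wU (aSum_a s) * aSum_GR (aSum_a s) (aSum_a (s + 1)) ≤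
    (aSum_tR.getD (s / 8) 0 : ℚ) / 10 ^ 9 := by decide +kernel

theorem aSum_nX : ∀ s < 128, aSum_wU (aSum_a s) * aSum_GX (aSum_a (s + 1)) ≤
    (aSum_tX.getD (s / 8) 0 : ℚ) / 10 ^ 9 := by decide +kernel

theorem aSum_nB : ∀ s < 128, aSum_wU (aSum_a s) * aSum_GB (aSum_a (s + 1)) ≤
    (aSum_tB.getD (s / 8) 0 : ℚ) / 10 ^ 9 := by decide +kernel

theorem aSum_nQ : ∀ s < 128,
    (aSum_wU (aSum_a s) * aSum_cc (aSum_a (s + 1)) / aSum_kL (aSum_a (s + 1)) ^ 3) ^ 2 ≤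
    (aSum_tQ.getD (s / 8) 0 : ℚ) / 10 ^ 6 := by decide +kernel

theorem aSum_nM : ∀ s < 128,
    aSum_wU (aSum_a s) * aSum_cc (aSum_a (s + 1)) ^ 2 / aSum_kL (aSum_a (s + 1)) ^ 2 ≤ 1.01 := by
  decide +kernel

theorem aSum_sR : ∑ i ∈ range 16, aSum_tR.getD i 0 = 6370734 := by decide +kernel

theorem aSum_sX : ∑ i ∈ range 16, aSum_tX.getD i 0 = 618236 := by decide +kernel

theorem aSum_sB : ∑ i ∈ range 16, aSum_tB.getD i 0 = 7827033 := by decide +kernel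

theorem aSum_sQ : ∑ i ∈ range 16, aSum_tQ.getD i 0 = 5941898 := by decide +kernel

end Pool.Agent.MP_88bd62_nt.U.A
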