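import Pool.Agent.MP_88bd62_nt.U.AStm

/-! The taper. -/

namespace Pool.Agent.MP_88bd62_nt.U.A

open Finset Real Polynomial

theorem aTT_cos {t : ℝ} (ht : |t| ≤ 2) : cos t ≤ 1 - t ^ 2 / 2 + t ^ 4 / 24 := by
  obtain ⟨u, hu0, hu1, hu⟩ : ∃ u : ℝ, 0 ≤ u ∧ u ≤ 1 ∧ |t| = 2 * u :=
    ⟨|t| / 2, by positivity, by linarith, by ring⟩
  have h1 := sin_ge_sub_cube hu0
  have h2 : u ^ 3 ≤ u ^ 1 := pow_le_pow_of_le_one hu0 hu1 (by norm_num)
  have h3 : (u - u ^ 3 / 6) ^ 2 ≤ sin u ^ 2 := pow_le_pow_left₀ (by linarith) h1 2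
  have h4 : t ^ 2 = (2 * u) ^ 2 := by rw [← hu, sq_abs]
  have h5 : t ^ 4 = (2 * u) ^ 4 := by rw [show t ^ 4 = (t ^ 2) ^ 2 by ring, h4]; ring
  rw [← cos_abs, hu, cos_two_mul, cos_sq', h4, h5]
  nlinarith [sq_nonneg (u ^ 3)]

theorem aTT_one {z : ℂ} (h0 : 0 ≤ z.re) (h1 : z.re ≤ 0.000001) (h2 : ‖z‖ ≤ 2) :
    0.999999 ≤ ‖Complex.exp (-z)‖ ∧ ‖1 + Complex.exp (-z)‖ ^ 2 ≤
      4 * ‖Complex.exp (-z)‖ * (1.000001 - ‖z‖ ^ 2 / 4 + ‖z‖ ^ 4 / 48) := by
  have hc := aTT_cos ((Complex.abs_im_le_norm z).trans h2)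
  have hn : ‖z‖ ^ 2 = z.re ^ 2 + z.im ^ 2 := by
    rw [Complex.sq_norm, Complex.normSq_apply]; ring
  have hr : ‖Complex.exp (-z)‖ = exp (-z.re) := by rw [Complex.norm_exp, Complex.neg_re]
  have hr1 : exp (-z.re) ≤ 1 := exp_le_one_iff.2 (by linarith)
  have hr0 : 0.999999 ≤ exp (-z.re) := by linarith [add_one_le_exp (-z.re)]
  have e : ‖1 + Complex.exp (-z)‖ ^ 2 = 1 + 2 * (exp (-z.re) * cos z.im) + exp (-z.re) ^ 2 := by
    rw [Complex.sq_norm, Complex.normSq_add, Complex.normSq_eq_norm_sq (Complex.exp _), hr]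
    simp only [map_one, one_mul, Complex.conj_re, Complex.exp_re, Complex.neg_re, Complex.neg_im,
      cos_neg]
    ring
  rw [e, hr]
  refine ⟨hr0, ?_⟩
  generalize exp (-z.re) = r at *
  have h4 : z.im ^ 4 ≤ ‖z‖ ^ 4 := by
    rw [show z.im ^ 4 = (z.im ^ 2) ^ 2 by ring, show ‖z‖ ^ 4 = (‖z‖ ^ 2) ^ 2 by ring]
    exact pow_le_pow_left₀ (sq_nonneg _) (by rw [hn]; linarith [sq_nonneg z.re]) 2
  have h5 : z.re ^ 2 ≤ 0.000001 := by nlinarith
  have h6 : cos z.im ≤ 1.000001 - ‖z‖ ^ 2 / 2 + ‖z‖ ^ 4 / 24 := by linarith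
  have h7 := mul_le_mul_of_nonneg_left h6 (show 0 ≤ r by linarith)
  nlinarith

theorem aTT_split {x : ℂ} (hx : x ≠ 0) : tpv x / (2 ^ 56 * x ^ 28) - 1 =
    -∑ i ∈ Icc 20 28, (Nat.choose 28 i : ℂ) * (-(1 - x) ^ 2 / (4 * x)) ^ i *
      ((1 + x) ^ 2 / (4 * x)) ^ (28 - i) := by
  have h1 : -(1 - x) ^ 2 / (4 * x) + (1 + x) ^ 2 / (4 * x) = 1 := by field_simp; ring
  have h2 := add_pow (-(1 - x) ^ 2 / (4 * x)) ((1 + x) ^ 2 / (4 * x)) 28
  rw [h1, one_pow, range_eq_Ico, ← sum_Ico_consecutive _ (show 0 ≤ 20 by norm_num) (by norm_num),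
    ← range_eq_Ico] at h2
  have h3 : tpv x / (2 ^ 56 * x ^ 28) = ∑ i ∈ range 20, (-(1 - x) ^ 2 / (4 * x)) ^ i *
      ((1 + x) ^ 2 / (4 * x)) ^ (28 - i) * (Nat.choose 28 i : ℂ) := by
    rw [tpv, sum_div]
    refine sum_congr rfl fun i hi => ?_
    obtain ⟨j, hj⟩ : ∃ j, 28 = i + j := ⟨28 - i, by have := mem_range.1 hi; omega⟩
    have h4 : (2 ^ 56 * x ^ 28 : ℂ) = (4 * x) ^ i * (4 * x) ^ j := by
      rw [← pow_add, ← hj, mul_pow]; norm_num
    rw [h4, show 56 - 2 * i = 2 * j by omega, show 28 - i = j by omega, pow_mul, pow_mul, div_pow,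
      div_pow, neg_pow ((1 - x) ^ 2)]
    ring
  rw [h3, show Icc 20 28 = Ico 20 (28 + 1) from rfl,
    sum_congr (s₁ := Ico 20 (28 + 1)) rfl fun i _ => mul_rotate _ _ _]
  linear_combination -h2

theorem aTT_coeff (l : List ℤ) (i : ℕ) : (lp l).coeff i = l.getD i 0 := by
  induction l generalizing i with
  | nil => simp [lp]
  | cons c l ih =>
    rw [show lp (c :: l) = C c + X * lp l from rfl]
    rcases i with _ | i
    · simp
    · rw [coeff_add, coeff_X_mul, ih, coeff_C_succ, zero_add, List.getD_cons_succ]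

theorem aTT_aeval (x : ℂ) (c : ℤ) (l : List ℤ) : aeval x (lp (c :: l)) = c + x * aeval x (lp l) := by
  rw [show lp (c :: l) = C c + X * lp l from rfl, map_add, map_mul, aeval_C, aeval_X]
  rfl

theorem aTT_id (x : ℂ) : (1 - x) * aeval x (lp DFL) = tpv x * b5 x ^ 3 - 27 * 2 ^ 65 := by
  have h0 : aeval x (lp []) = 0 := map_zero _
  simp only [DFL, aTT_aeval, h0, tpv, b5, sum_range_succ, range_zero, sum_empty]
  norm_num [Nat.choose]
  ring

theorem stTT (hBas : StBas) : StTT := by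
  obtain ⟨-, -, -, -, -, -, hz, hK⟩ := hBas
  refine ⟨fun k hk => ?_, aTT_id, fun i hi => ?_, fun i => ?_⟩
  · obtain ⟨-, -, h1, h2, -, h3, -, -, h4, -⟩ := hz k
    have h5 := (hK k hk).2.1
    have hre : (zk k).re = log 2 / 2 ^ 22 := by
      rw [zk, show (2 : ℂ) ^ 22 = ((2 ^ 22 : ℝ) : ℂ) by push_cast; rfl, Complex.div_ofReal_re]
      simp only [Complex.add_re, Complex.ofReal_re, Complex.mul_re, Complex.I_re, Complex.I_im,
        Complex.ofReal_im, mul_zero, zero_mul, sub_zero, add_zero]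
    have hx : Complex.exp (-zk k) = xk k := by rw [xk, xp, Complex.ofReal_one, mul_one]
    have hp1 : π ^ 2 ≤ 9.8697 := by nlinarith [pi_lt_d4, pi_pos]
    have hp2 : 9.869 ≤ π ^ 2 := by nlinarith [pi_gt_d4]
    have hp3 : (π ^ 2) ^ 2 ≤ 9.8697 ^ 2 := pow_le_pow_left₀ (sq_nonneg _) hp1 2
    obtain ⟨h6, h7⟩ := aTT_one (z := zk k) (by rw [hre]; have := log_nonneg one_le_two; positivity)
      (by rw [hre, div_le_iff₀ (by positivity)]; linarith [log_two_lt_d9])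
      (by rw [h1]; nlinarith [pi_lt_d4])
    rw [hx] at h6 h7
    have h8 : 0 < 4 * ‖xk k‖ := by linarith
    have hs : ‖-(1 - xk k) ^ 2 / (4 * xk k)‖ ≤ 0.6169 * xi k ^ 2 := by
      rw [norm_div, norm_neg, norm_pow, norm_mul, Complex.norm_ofNat, div_le_iff₀ h8]
      refine (pow_le_pow_left₀ (norm_nonneg _) h4 2).trans ?_
      rw [h1, mul_pow, div_pow]
      nlinarith [sq_nonneg (xi k), mul_le_mul_of_nonneg_left h6 (sq_nonneg (xi k)),
        mul_le_mul_of_nonneg_left hp1 (sq_nonneg (xi k))]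
    have hc : ‖(1 + xk k) ^ 2 / (4 * xk k)‖ ≤ cU (xi k) := by
      rw [norm_div, norm_pow, norm_mul, Complex.norm_ofNat, div_le_iff₀' h8]
      refine h7.trans (mul_le_mul_of_nonneg_left ?_ h8.le)
      rw [h1, cU]
      have h9 := mul_le_mul_of_nonneg_left hp2 (sq_nonneg (xi k))
      have h10 := mul_le_mul_of_nonneg_left hp3 (show 0 ≤ xi k ^ 4 by positivity)
      have h11 : 0 ≤ xi k ^ 4 := by positivity
      nlinarith [sq_nonneg (xi k)]
    rw [aTT_split h3, norm_neg, tT]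
    refine (norm_sum_le _ _).trans (sum_le_sum fun i _ => ?_)
    rw [norm_mul, norm_mul, norm_pow, norm_pow, Complex.norm_natCast]
    gcongr
  · rw [aTT_coeff, List.getD_eq_default _ _ (le_of_eq_of_le (by rfl) hi)]
  · rw [aTT_coeff]
    have h : ∀ c ∈ DFL, |c| ≤ 2 ^ 70 := by decide +kernel
    have h2 : |DFL.getD i 0| ≤ 2 ^ 70 := by
      rcases lt_or_ge i DFL.length with hi | hi
      · rw [List.getD_eq_getElem _ _ hi]
        exact h _ (List.getElem_mem hi)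
      · rw [List.getD_eq_default _ _ hi]
        norm_num
    exact_mod_cast h2

end Pool.Agent.MP_88bd62_nt.U.A
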