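import Pool.Agent.MP_88bd62_nt.U.ASpec

/-! The tree of blocks. -/

namespace Pool.Agent.MP_88bd62_nt.U.A

open Finset Real Polynomial

theorem aTree_nxm (i m : ℕ) : nxm i m = m + 8 * 2 ^ i := by
  simp only [nxm, Nat.add_eq, Nat.shiftLeft_eq', Nat.shiftLeft_eq]

theorem aTree_err {i : ℕ} (hi : i ≤ 13) {y : ℝ} (h0 : 0 ≤ y) (hy : y ≤ 2 ^ i / 2 ^ 17) :
    3 * ((23 / (17 - i) + 1 : ℕ) : ℝ) + 4 + 2 ^ 64 * y ^ (2 * (23 / (17 - i) + 1) + 1) /
      (2 * ((23 / (17 - i) + 1 : ℕ) : ℝ) + 1) ≤ 4200 := by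
  have h1 := pow_le_pow_left₀ h0 hy (2 * (23 / (17 - i) + 1) + 1)
  generalize y ^ (2 * (23 / (17 - i) + 1) + 1) = z at h1
  interval_cases i <;> norm_num at h1 ⊢ <;> linarith

theorem aTree_pos (hLg : StLg) {i m P : ℕ} {δ : ℝ} (hi : i ≤ 13) (hm : 2 ^ 19 ≤ m)
    (h : PosOK m P δ) : PosOK (m + 8 * 2 ^ i) (nxp i m P) (δ + 4200) := by
  have h1 : 2 ^ i ≤ 2 ^ 13 := Nat.pow_le_pow_right two_pos hi
  have hm0 : 0 < m := lt_of_lt_of_le (by norm_num) hm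
  obtain ⟨l1, l2⟩ := hLg.1 (23 / (17 - i) + 1) m (m + 8 * 2 ^ i) hm0 (Nat.le_add_right _ _)
    (by norm_num at h1 hm; omega)
  have e : nxp i m P = P + lg (23 / (17 - i) + 1) m (m + 8 * 2 ^ i) := by
    rw [← aTree_nxm]
    rfl
  have hm' : (0 : ℝ) < m := by exact_mod_cast hm0
  have hm2 : (2 : ℝ) ^ 19 ≤ m := by exact_mod_cast hm
  have hp : (0 : ℝ) < 2 ^ i := by positivity
  have hb : ((m + 8 * 2 ^ i : ℕ) : ℝ) = m + 8 * 2 ^ i := by push_cast; rfl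
  have e2 : logb 2 (((m + 8 * 2 ^ i : ℕ) : ℝ) / 2 ^ 19) =
      logb 2 (m / 2 ^ 19) + logb 2 (((m + 8 * 2 ^ i : ℕ) : ℝ) / m) := by
    rw [← logb_mul (by positivity) (by rw [hb]; positivity)]
    congr 1
    field_simp
  have e3 := aTree_err hi (y := (((m + 8 * 2 ^ i : ℕ) : ℝ) - m) / (m + ((m + 8 * 2 ^ i : ℕ) : ℝ)))
    (by rw [hb, add_sub_cancel_left]; positivity) (by
      rw [hb, add_sub_cancel_left, div_le_div_iff₀ (by positivity) (by positivity)]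
      nlinarith)
  rw [PosOK, e, e2, Nat.cast_add P]
  exact ⟨by linarith [h.1], by linarith [h.2]⟩

theorem aTree_join (hNrm : StNrm) {Z₁ Z₂ : ℤ[X]} {m N a b : ℕ} (hab : a ≤ b)
    (h₁ : BlkOK Z₁ m N a) (h₂ : BlkOK Z₂ (m + N) N b) :
    BlkOK (Z₁ + X ^ (b - a) * Z₂) m (N + N) a := by
  have s1 : m ≤ m + N := Nat.le_add_right _ _
  have s2 : m + N ≤ m + N + N := Nat.le_add_right _ _
  refine ⟨?_, fun k hk => ?_⟩
  · rw [← add_assoc, ← sum_Ico_consecutive _ s1 s2, mul_add]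
    exact (hNrm.1 _ _ _ _ h₁.1 (hNrm.2.1 _ _ (b - a) 0 h₂.1).1).1
  · rw [← add_assoc, ← sum_Ico_consecutive _ s1 s2, ← sum_Ico_consecutive _ s1 s2]
    refine le_trans (le_of_eq ?_) ((norm_add_le _ _).trans (add_le_add (h₁.2 k hk) (h₂.2 k hk)))
    congr 1
    obtain ⟨d, rfl⟩ := Nat.exists_eq_add_of_le hab
    simp only [ev, map_add, map_mul, map_pow, aeval_X, Nat.add_sub_cancel_left]
    ring

theorem stTree (hNrm : StNrm) (hLg : StLg) (hBlk : StBlk) : StTree := by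
  intro l
  induction l with
  | zero =>
    intro m P δ _ h8 hm hm' hP hδ hc
    refine hBlk m P h8 hm (by omega) ⟨hP.1, hP.2.trans ?_⟩ hc
    rw [Nat.cast_zero, mul_zero, add_zero] at hδ
    linarith
  | succ i ih =>
    intro m P δ hl h8 hm hm' hP hδ hc
    have hc' : D.an (trc i m P) (trc i (nxm i m) (nxp i m P)) = true := hc
    have hv : trv (i + 1) m P = trv i m P + shl (trv i (nxm i m) (nxp i m P))
        (Nat.shiftRight (nxp i m P) 40 - Nat.shiftRight P 40) := rfl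
    rw [an_eq, aTree_nxm] at hc'
    have e : 8 * 2 ^ (i + 1) = 8 * 2 ^ i + 8 * 2 ^ i := by ring
    rw [e, ← add_assoc] at hm'
    push_cast at hδ
    obtain ⟨Z₁, v₁, b₁⟩ := ih m P δ (by omega) h8 hm ((Nat.le_add_right _ _).trans hm') hP
      (by linarith) hc'.1
    obtain ⟨Z₂, v₂, b₂⟩ := ih (m + 8 * 2 ^ i) (nxp i m P) (δ + 4200) (by omega)
      (dvd_add h8 (dvd_mul_right _ _)) (hm.trans (Nat.le_add_right _ _)) hm'
      (aTree_pos hLg (by omega) hm hP) (by linarith) hc'.2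
    have hab : P / 2 ^ 40 ≤ nxp i m P / 2 ^ 40 := Nat.div_le_div_right (Nat.le_add_right _ _)
    refine ⟨_, ?_, e ▸ aTree_join hNrm hab b₁ b₂⟩
    rw [hv, aTree_nxm, shl_eq, Nat.shiftRight_eq, Nat.shiftRight_eq, Nat.shiftRight_eq_div_pow,
      Nat.shiftRight_eq_div_pow]
    generalize nxp i m P / 2 ^ 40 - P / 2 ^ 40 = d
    rw [vl] at v₁ v₂
    rw [vl, eval_add, eval_mul, eval_pow, eval_X, v₁, v₂, ← pow_mul, Nat.cast_add, Nat.cast_mul,
      Nat.cast_pow, Nat.cast_ofNat, mul_comm]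

end Pool.Agent.MP_88bd62_nt.U.A
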