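import Pool.Agent.MP_88bd62_nt.U.ASpec

/-! The final filter. -/

namespace Pool.Agent.MP_88bd62_nt.U.A

open Finset Real Polynomial
open Pool.Agent.MP_22d5c4_co.K (dig ones)
open D (cn an PL cl flo fhi Tb)

theorem aXq_add {P Q : ℤ[X]} {n : ℕ} {a b : ℝ} (hP : Sup P n a) (hQ : Sup Q n b) :
    Sup (P + Q) n (a + b) :=
  ⟨fun i hi => by rw [coeff_add, hP.1 i hi, hQ.1 i hi, add_zero], fun i => by
    rw [coeff_add, Int.cast_add]
    exact (abs_add_le _ _).trans (add_le_add (hP.2 i) (hQ.2 i))⟩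

theorem aXq_sub {P Q : ℤ[X]} {n : ℕ} {a b : ℝ} (hP : Sup P n a) (hQ : Sup Q n b) :
    Sup (P - Q) n (a + b) :=
  ⟨fun i hi => by rw [coeff_sub, hP.1 i hi, hQ.1 i hi, sub_zero], fun i => by
    rw [coeff_sub, Int.cast_sub]
    exact (abs_sub _ _).trans (add_le_add (hP.2 i) (hQ.2 i))⟩

theorem aXq_mono {P : ℤ[X]} {n m : ℕ} {a b : ℝ} (hP : Sup P n a) (hn : n ≤ m) (ha : a ≤ b) :
    Sup P m b :=
  ⟨fun i hi => hP.1 i (hn.trans hi), fun i => (hP.2 i).trans ha⟩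

theorem aXq_sh {P : ℤ[X]} {n M : ℕ} {a : ℝ} (hP : Sup P n a) (m : ℕ) (hm : m + n ≤ M) :
    Sup (X ^ m * P) M a := by
  refine ⟨fun i hi => ?_, fun i => ?_⟩
  · rw [coeff_X_pow_mul', if_pos (by omega), hP.1 _ (by omega)]
  · rw [coeff_X_pow_mul']
    split_ifs with h
    · exact hP.2 _
    · rw [Int.cast_zero, abs_zero]
      exact (abs_nonneg _).trans (hP.2 0)

theorem aXq_int {P : ℤ[X]} {n : ℕ} (h : Sup P n (2 ^ 71)) (i : ℕ) : |P.coeff i| ≤ 2 ^ 71 := by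
  have := h.2 i
  exact_mod_cast this

theorem aXq_core (hUni : StUni) (hNrm : StNrm) (hMk : StMk) (W : ℤ[X]) (n x : ℕ) (hn : 0 < n)
    (hW : Sup W (2 * n) (2 ^ 71)) (hx : vl W = x)
    (h1 : shr x n ≤ mwa x (2 ^ (80 * n) - 1) (Nat.shiftLeft (ones 80 n) 78)) :
    ∃ (lo hi : ℤ[X]) (β : ℤ), (β = 0 ∨ β = 1) ∧ W = lo + X ^ n * hi ∧
      (∀ i, n ≤ i → (2 * lo - hi + C β).coeff i = 0) ∧ ∀ i < n,
        (dig 80 (mwy x n (2 ^ (80 * n) - 1) (Nat.shiftLeft (ones 80 n) 78)) i : ℤ) =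
          (2 * lo - hi + C β).coeff i + 2 ^ 78 ∧
        dig 80 (mwy x n (2 ^ (80 * n) - 1) (Nat.shiftLeft (ones 80 n) 78)) i ≤ 2 ^ 79 := by
  obtain ⟨lo, hi, β, hβ, e1, hlo, hhi, -, hm⟩ := hNrm.2.2.2.2 W n x _ hW (by norm_num) hx
  obtain ⟨-, u2, -, u4, -⟩ := hUni
  have hy : (mwy x n (2 ^ (80 * n) - 1) (Nat.shiftLeft (ones 80 n) 78) : ℤ) =
      2 * ((x % 2 ^ (80 * n) : ℕ) : ℤ) - ((x / 2 ^ (80 * n) : ℕ) : ℤ) +
        2 ^ 78 * (ones 80 n : ℕ) := by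
    rw [mwy, Nat.sub_eq, Nat.cast_sub h1, shr_eq, mwa, hMk.2.2.2.1, Nat.add_eq,
      Nat.shiftLeft_eq', Nat.shiftLeft_eq', Nat.shiftLeft_eq, Nat.shiftLeft_eq]
    generalize x % 2 ^ (80 * n) = a
    generalize x / 2 ^ (80 * n) = b
    push_cast
    ring
  clear h1
  generalize mwy x n (2 ^ (80 * n) - 1) (Nat.shiftLeft (ones 80 n) 78) = y at hy ⊢
  have hQ : ∀ i, (2 * lo - hi + C β : ℤ[X]).coeff i =
      2 * lo.coeff i - hi.coeff i + (if i = 0 then β else 0) := fun i => by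
    rw [coeff_add, coeff_sub, coeff_ofNat_mul, coeff_C]
  have hb : ∀ i : ℕ, 0 ≤ (if i = 0 then β else 0) ∧ (if i = 0 then β else 0) ≤ 1 := fun i => by
    rcases hβ with rfl | rfl <;> split_ifs <;> simp
  have h0 : ∀ i, n ≤ i → (2 * lo - hi + C β : ℤ[X]).coeff i = 0 := fun i h => by
    rw [hQ, hlo.1 i h, hhi.1 i h, if_neg (by omega)]
    simp
  have hB : ∀ i, |(2 * lo - hi + C β : ℤ[X]).coeff i| ≤ 2 ^ 73 := fun i => by
    have a1 := abs_le.1 (aXq_int hlo i)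
    have a2 := abs_le.1 (aXq_int hhi i)
    have a3 := hb i
    rw [hQ, abs_le]
    constructor <;> linarith [a1.1, a1.2, a2.1, a2.2, a3.1, a3.2]
  have hv : vl (2 * lo - hi + C β) = vl (2 * lo - hi) + β := by
    rw [vl, vl, eval_add, eval_C]
  refine ⟨lo, hi, β, hβ, e1, h0, ?_⟩
  generalize (2 * lo - hi + C β : ℤ[X]) = R at h0 hB hv
  have hR : ∀ i, (R + C (2 ^ 78) * onp n : ℤ[X]).coeff i =
      R.coeff i + 2 ^ 78 * if i < n then 1 else 0 := fun i => by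
    rw [coeff_add, coeff_C_mul, (u4 n).2.1]
  have key : ∀ i < n, R.coeff i + 2 ^ 78 = (dig 80 y i : ℤ) := fun i hi' => by
    have := u2 (R + C (2 ^ 78) * onp n) n y (fun j hj => ?_) (fun j hj => ?_) ?_ i hi'
    · rwa [hR, if_pos hi', mul_one] at this
    · rw [hR, h0 j hj, if_neg (by omega), mul_zero, add_zero]
    · rw [hR, if_pos hj, mul_one]
      have a1 := abs_le.1 (hB j)
      have a8 : (dig 80 y j : ℤ) < 2 ^ 80 := by
        exact_mod_cast Pool.Agent.MP_22d5c4_co.K.dig_lt 80 y j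
      have a9 : (0 : ℤ) ≤ dig 80 y j := Int.natCast_nonneg _
      rw [abs_lt]
      constructor <;> linarith [a1.1, a1.2]
    · have : vl (R + C (2 ^ 78) * onp n) = vl R + 2 ^ 78 * (ones 80 n : ℕ) := by
        rw [← (u4 n).1, vl, vl, vl, eval_add, eval_mul, eval_C]
      rw [this, hy, hv]
      exact (hm.symm.add_right _)
  intro i hi'
  refine ⟨(key i hi').symm, ?_⟩
  have a1 := abs_le.1 (hB i)
  have a2 : (dig 80 y i : ℤ) ≤ 2 ^ 79 := by linarith [key i hi', a1.2]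
  exact_mod_cast a2

theorem aXq_vc {P R : ℤ[X]} {w : ℕ} {t : PL} (c : ℕ) (h1 : vl P = w) (h2 : vl R = val t) :
    vl (X ^ c * P + R) = val (.cons c w t) := by
  rw [val_cons, Nat.cast_add, Nat.cast_mul, ← h1, ← h2, vl, vl, vl, eval_add, eval_mul, eval_pow,
    eval_X, ← pow_mul, mul_comm, Nat.cast_pow, Nat.cast_ofNat]

theorem aXq_ep {R : ℤ[X]} {t : PL} (n o : ℕ) (ho : eo n = o) (h1 : vl (Cf n) = eC n (eo n))
    (h2 : vl R = val t) : vl (X ^ Nat.sub (el n) 527 * Cf n + R) = val (ep n o t) := by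
  subst ho
  unfold ep
  exact aXq_vc _ h1 h2

theorem aXq_eT (hBas : StBas) (k : ℤ) (l : ℕ) (P : ℤ[X]) (h : 527 ≤ l) :
    ev k (X ^ Nat.sub l 527 * P) = xp k (l - 527) * ev k P := by
  have := hBas.2.1 k (l - 527)
  rw [Nat.cast_sub h, Nat.cast_ofNat] at this
  rw [this, ev, ev, map_mul, map_pow, aeval_X, Nat.sub_eq]

theorem aXq_sT (l N : ℕ) (P : ℤ[X]) (hN : N = 2 ^ 22) (h1 : l < 2 ^ 22)
    (h2 : Sup P 1057 (2 ^ 62)) : Sup (X ^ Nat.sub l 527 * P) (2 * N) (2 ^ 62) := by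
  refine aXq_sh h2 _ ?_
  rw [Nat.sub_eq]
  omega

theorem aXq_e1 (hBas : StBas) (k : ℤ) (hk : Odd k) (M : ℕ) (hM : M = 4193777) :
    xp k (-527) = -2 * xk k ^ M := by
  have h1 := hBas.2.2.2.1 k hk
  have h2 := hBas.1 k (-527) ((2 ^ 22 : ℕ) : ℝ)
  have h3 : (-527 : ℝ) + ((2 ^ 22 : ℕ) : ℝ) = (M : ℝ) := by
    rw [hM]
    norm_num
  rw [h3, hBas.2.1, hBas.2.1, h1] at h2
  rw [h2]
  ring

theorem aXq_v0 : vl 0 = val .nil := by
  rw [val_nil, vl, eval_zero, Nat.cast_zero]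

theorem aXq_v2 {P : ℤ[X]} {c : ℕ} (h : vl P = c) : vl (2 * P) = Nat.mul 2 c := by
  rw [Nat.mul_eq, Nat.cast_mul, ← h, vl, vl, eval_mul, eval_ofNat, Nat.cast_ofNat]

theorem aXq_s0 (n : ℕ) : Sup 0 n 0 := ⟨fun _ _ => coeff_zero _, fun _ => by simp⟩

theorem aXq_sum (f : ℕ → ℂ) : ∑ n ∈ E0, f n = f 1 + (f 3 + (f 13 + (f 25 + (f 27 + (f 49 + (f 65 +
    (f 391 + (f 783 + (f 1565 + f 3129))))))))) := by
  simp [E0]

theorem aXq_pos (T : ℕ → ℤ[X]) (P : ℤ[X]) (M : ℕ) (hM : M = 4193777) (h1 : vl P = eC 1 (eo 1))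
    (h : ∀ n ∈ E0, ∀ (o : ℕ) (R : ℤ[X]) (t : PL), eo n = o → vl R = val t →
      vl (T n + R) = val (ep n o t)) :
    vl (X ^ M * (2 * P) + (T 27 + (T 49 + (T 783 + 0)))) = cpos := by
  have e1 : eo 1 = 0 := by simp [eo]
  rw [e1] at h1
  unfold cpos
  rw [← hM, sc_eq]
  exact aXq_vc M (aXq_v2 h1) (h 27 (by simp [E0]) 3 _ _ (by simp [eo])
    (h 49 (by simp [E0]) 2 _ _ (by simp [eo]) (h 783 (by simp [E0]) 4 _ _ (by simp [eo]) aXq_v0)))

theorem aXq_neg (T : ℕ → ℤ[X])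
    (h : ∀ n ∈ E0, ∀ (o : ℕ) (R : ℤ[X]) (t : PL), eo n = o → vl R = val t →
      vl (T n + R) = val (ep n o t)) :
    vl (T 3 + (T 13 + (T 25 + (T 65 + (T 391 + (T 1565 + (T 3129 + 0))))))) = cneg := by
  unfold cneg
  rw [sc_eq]
  exact h 3 (by simp [E0]) 1 _ _ (by simp [eo]) (h 13 (by simp [E0]) 1 _ _ (by simp [eo])
    (h 25 (by simp [E0]) 2 _ _ (by simp [eo]) (h 65 (by simp [E0]) 2 _ _ (by simp [eo])
    (h 391 (by simp [E0]) 2 _ _ (by simp [eo]) (h 1565 (by simp [E0]) 2 _ _ (by simp [eo])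
    (h 3129 (by simp [E0]) 3 _ _ (by simp [eo]) aXq_v0))))))

theorem aXq_ev (k : ℤ) (T F : ℕ → ℤ[X]) (u : ℕ → ℂ) (M : ℕ) (h1 : u 1 = -2 * xk k ^ M)
    (h : ∀ n ∈ E0, n ≠ 1 → ev k (T n) = u n * ev k (F n)) :
    ∑ n ∈ E0, u n * ev k (C (-es n) * F n) =
      ev k (X ^ M * (2 * F 1) + (T 27 + (T 49 + (T 783 + 0)))) -
        ev k (T 3 + (T 13 + (T 25 + (T 65 + (T 391 + (T 1565 + (T 3129 + 0))))))) := by
  have hc (n : ℕ) : ev k (C (-es n) * F n) = -(es n : ℂ) * ev k (F n) := by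
    rw [ev, ev, map_mul, aeval_C, eq_intCast, Int.cast_neg]
  have ha (P Q : ℤ[X]) : ev k (P + Q) = ev k P + ev k Q := map_add _ _ _
  have h0 : ev k 0 = 0 := map_zero _
  have hp : ev k (X ^ M * (2 * F 1)) = xk k ^ M * (2 * ev k (F 1)) := by
    rw [ev, ev, map_mul, map_mul, map_pow, aeval_X, map_ofNat]
  have s1 : es 1 = 1 := by simp [es]
  have s3 : es 3 = 1 := by simp [es]
  have s13 : es 13 = 1 := by simp [es]
  have s25 : es 25 = 1 := by simp [es]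
  have s27 : es 27 = -1 := by simp [es]
  have s49 : es 49 = -1 := by simp [es]
  have s65 : es 65 = 1 := by simp [es]
  have s391 : es 391 = 1 := by simp [es]
  have s783 : es 783 = -1 := by simp [es]
  have s1565 : es 1565 = 1 := by simp [es]
  have s3129 : es 3129 = 1 := by simp [es]
  simp only [aXq_sum, hc, ha, h0, hp, s1, s3, s13, s25, s27, s49, s65, s391, s783, s1565, s3129]
  rw [h 3 (by simp [E0]) (by norm_num), h 13 (by simp [E0]) (by norm_num),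
    h 25 (by simp [E0]) (by norm_num), h 27 (by simp [E0]) (by norm_num),
    h 49 (by simp [E0]) (by norm_num), h 65 (by simp [E0]) (by norm_num),
    h 391 (by simp [E0]) (by norm_num), h 783 (by simp [E0]) (by norm_num),
    h 1565 (by simp [E0]) (by norm_num), h 3129 (by simp [E0]) (by norm_num), h1]
  push_cast
  ring

theorem aXq_PM (hBas : StBas) (hE0 : StE0) (N : ℕ) (hN : N = 2 ^ 22)
    (h1 : ∀ n ∈ E0, vl (Cf n) = eC n (eo n)) (h2 : ∀ n ∈ E0, Sup (Cf n) 1057 (2 ^ 62)) :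
    ∃ P R : ℤ[X], vl P = cpos ∧ vl R = cneg ∧ Sup P (2 * N) (5 * 2 ^ 62) ∧
      Sup R (2 * N) (7 * 2 ^ 62) ∧ ∀ k : ℤ, Odd k →
        ∑ n ∈ E0, xp k (el n - 527) * ev k (C (-es n) * Cf n) = ev k P - ev k R := by
  obtain ⟨M, hM⟩ : ∃ M : ℕ, M = 4193777 := ⟨_, rfl⟩
  obtain ⟨T, hT⟩ : ∃ T : ℕ → ℤ[X], ∀ n, T n = X ^ Nat.sub (el n) 527 * Cf n :=
    ⟨fun n => X ^ Nat.sub (el n) 527 * Cf n, fun _ => rfl⟩
  have hv : ∀ n ∈ E0, ∀ (o : ℕ) (R : ℤ[X]) (t : PL), eo n = o → vl R = val t →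
      vl (T n + R) = val (ep n o t) := fun n hn o R t ho hR => by
    rw [hT]
    exact aXq_ep n o ho (h1 n hn) hR
  have hs : ∀ n ∈ E0, Sup (T n) (2 * N) (2 ^ 62) := fun n hn => by
    rw [hT]
    exact aXq_sT _ N _ hN (hE0.1 n hn).2.2.2.2.2.2.2.1 (h2 n hn)
  have a := h2 1 (by simp [E0])
  have b := aXq_add a a
  rw [← two_mul] at b
  refine ⟨_, _, aXq_pos T (Cf 1) M hM (h1 1 (by simp [E0])) hv, aXq_neg T hv, ?_, ?_,
    fun k hk => ?_⟩
  · exact aXq_mono (aXq_add (aXq_sh b M (by omega)) (aXq_add (hs 27 (by simp [E0]))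
      (aXq_add (hs 49 (by simp [E0])) (aXq_add (hs 783 (by simp [E0])) (aXq_s0 _))))) le_rfl
      (by norm_num)
  · exact aXq_mono (aXq_add (hs 3 (by simp [E0])) (aXq_add (hs 13 (by simp [E0]))
      (aXq_add (hs 25 (by simp [E0])) (aXq_add (hs 65 (by simp [E0]))
      (aXq_add (hs 391 (by simp [E0])) (aXq_add (hs 1565 (by simp [E0]))
      (aXq_add (hs 3129 (by simp [E0])) (aXq_s0 _)))))))) le_rfl (by norm_num)
  · refine aXq_ev k T Cf (fun n => xp k (el n - 527)) M ?_ fun n hn hn1 => ?_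
    · rw [hE0.2.1, Nat.cast_zero, zero_sub]
      exact aXq_e1 hBas k hk M hM
    · rw [hT]
      exact aXq_eT hBas k _ _ ((hE0.1 n hn).2.2.2.2.2.2.2.2 hn1)

theorem aXq_sub' {A B : ℤ[X]} {a b : ℕ} (ha : vl A = a) (hb : vl B = b) (h : b ≤ a) :
    vl (A - B) = Nat.sub a b := by
  rw [Nat.sub_eq, Nat.cast_sub h, ← ha, ← hb, vl, vl, vl, eval_sub]

theorem aXq_ma {K V P : ℤ[X]} {a y c : ℕ} (hK : vl K = a) (hV : vl V = y) (hP : vl P = c) :
    vl (K * V + P) = Nat.add (Nat.mul a y) c := by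
  rw [Nat.add_eq, Nat.mul_eq, Nat.cast_add, Nat.cast_mul, ← hK, ← hV, ← hP, vl, vl, vl, vl,
    eval_add, eval_mul]

theorem stXq (hBas : StBas) (hPar : StPar) (hUni : StUni) (hNrm : StNrm) (hMk : StMk)
    (hE0 : StE0) (hFt : StFt) : StXq := by
  intro t y N K V hN hK hE hy hV h
  obtain ⟨M, hM, hM2, hO, hG⟩ := hMk.2.2.2.2.2.2
  obtain rfl : N = M := hN.trans hM2.symm
  obtain ⟨k1, k2, e₁, k3, k4⟩ := hK
  obtain ⟨P, R, p1, hB, p2, p3, p4⟩ := aXq_PM hBas hE0 N hN (fun n hn => (hE n hn).2.2.2.1)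
    fun n hn => (hE n hn).2.2.2.2.1
  have hA := aXq_ma k1 hy p1
  have hKV := hNrm.2.2.1 K V _ _ 1053 N (hPar.2.1 K 1053 _ k2) k2.1 hV
  have hW : Sup (K * V + P - R) (2 * N) (2 ^ 71) :=
    aXq_mono (aXq_sub (aXq_add (aXq_mono hKV (by omega) le_rfl) p2) p3) le_rfl (by norm_num)
  generalize Nat.add (Nat.mul kv y) cpos = a at h hA
  unfold xc2 at h
  rw [an_eq, Nat.ble_eq] at h
  obtain ⟨h1, h2⟩ := h
  have hx := aXq_sub' hA hB h1
  generalize Nat.sub a cneg = x at h2 hx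
  unfold xc3 at h2
  rw [an_eq, Nat.ble_eq, ← hM, hO, hG] at h2
  obtain ⟨h3, h4⟩ := h2
  obtain ⟨lo, hi, β, hβ, w1, w2, w3⟩ := aXq_core hUni hNrm hMk _ N x (by omega) hW hx h3
  generalize mwy x N (2 ^ (80 * N) - 1) (Nat.shiftLeft (ones 80 N) 78) = z at h4 w3
  have hF := hFt t z 0 22 1099511627776 le_rfl (by norm_num)
    (fun r hr => (w3 r (hN ▸ hr)).2) h4
  refine ⟨-(2 * lo - hi + C β), ⟨K, e₁, -C β, fun n => C (-es n) * Cf n, k3, k4, fun m => ?_,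
    fun i hi' => ?_, fun n hn => ?_, fun k hk => ?_⟩, fun i hi' => ?_⟩
  · rcases Nat.eq_zero_or_pos m with rfl | hm
    · simp
    · rw [sum_eq_single 0]
      · rcases hβ with rfl | rfl <;> simp
      · intro j _ hj
        rw [coeff_neg, coeff_C, if_neg hj]
        simp
      · intro h0
        exact absurd (mem_range.2 hm) h0
  · rw [coeff_neg, w2 i (hN ▸ hi'), neg_zero]
  · obtain ⟨-, a2, a3, -, -, a6⟩ := hE n hn
    exact ⟨(hE0.1 n hn).2.2.2.2.2.2.1.trans_le (Nat.sub_le _ _), a2.trans (Nat.le_add_left _ _),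
      a3, a6⟩
  · rw [p4 k hk]
    have b2 := hBas.2.2.2.1 k hk
    rw [← hN] at b2
    have b3 := congrArg (aeval (xk k)) w1
    simp only [map_mul, map_add, map_sub, map_pow, aeval_X, b2] at b3
    simp only [ev, map_neg, map_mul, map_add, map_sub, map_ofNat]
    linear_combination 2 * b3
  · obtain ⟨f1, f2⟩ := hF i hi'
    have b1 : (((-(2 * lo - hi + C β)).coeff i : ℤ) : ℝ) = -((dig 80 z i : ℝ) - 2 ^ 78) := by
      have b2 : (-(2 * lo - hi + C β)).coeff i = -((dig 80 z i : ℤ) - 2 ^ 78) := by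
        rw [coeff_neg, (w3 i (hN ▸ hi')).1, add_sub_cancel_right]
      rw [b2]
      push_cast
      ring
    rw [zero_add] at f1 f2
    rw [b1]
    refine ⟨by rwa [abs_neg], fun n hn hj => ?_⟩
    rw [← abs_neg, neg_sub, sub_neg_eq_add, add_comm]
    exact f2 n hn hj

end Pool.Agent.MP_88bd62_nt.U.A
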