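import Pool.Agent.MP_88bd62_nt.U.ASpec

/-! The product of the two factors. -/

namespace Pool.Agent.MP_88bd62_nt.U.A

open Finset Real Polynomial
open Pool.Agent.MP_22d5c4_co.K (dig ones)
open D (cn an PL cl flo fhi Tb)

theorem aXy_neg {P : ℤ[X]} {n : ℕ} {c d : ℝ} (h : Sup P n c) (hcd : c ≤ d) : Sup (-P) n d :=
  ⟨fun i hi => by rw [coeff_neg, h.1 i hi, neg_zero], fun i => by
    rw [coeff_neg, Int.cast_neg, abs_neg]
    exact (h.2 i).trans hcd⟩

theorem aXy_core (hBas : StBas) (hNrm : StNrm) (hMw : StMw) (N x : ℕ) (hN : N = 2 ^ 22)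
    (HP W : ℤ[X]) (hW : Sup W N (2 ^ 25)) (hH : SpecH HP) (hx : vl (HP * W) = x)
    (hc : mwd x N (ones 80 N) (2 ^ (80 * N) - 1) 63 35 = true) :
    ∃ V : ℤ[X], vl V = mws x N (ones 80 N) (2 ^ (80 * N) - 1) 63 35 ∧ Sup V N (2 ^ 28) ∧
      RingY HP (-W) (-V) := by
  have h1 := hNrm.2.2.1 HP W _ _ N N hH.2.1 (by rw [hN]; exact hH.1.1) hW
  rw [← two_mul] at h1
  obtain ⟨lo, hi, V, e, e1, -, e2, hV, he, e3, -⟩ := hMw (HP * W) N x 63 35 _ h1 (by norm_num) hx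
    (by norm_num) (by norm_num) (by norm_num) hc
  refine ⟨V, e3, hV, ?_, -e, ?_, fun k hk => ?_⟩
  · rw [← hN]
    exact aXy_neg hV (by norm_num)
  · rw [← hN]
    exact aXy_neg he le_rfl
  · have h2 := hBas.2.2.2.1 k hk
    rw [← hN] at h2
    have h3 := congrArg (aeval (xk k)) e1
    have h4 := congrArg (aeval (xk k)) e2
    simp only [map_mul, map_add, map_sub, map_pow, aeval_X, map_ofNat, h2] at h3 h4
    simp only [ev, map_neg]
    linear_combination (-2) * h3 - h4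

theorem stXy (hBas : StBas) (hNrm : StNrm) (hMk : StMk) (hMw : StMw) : StXy := by
  intro t wl g N hN h
  obtain ⟨M, hM, hM2, hO, hG⟩ := hMk.2.2.2.2.2.2
  obtain rfl : N = M := hN.trans hM2.symm
  unfold xc0 xc1 at h
  rw [an_eq, an_eq, an_eq, ← hM] at h
  obtain ⟨h1, h2, h3, h4⟩ := h
  refine ⟨?_, fun HP W hW hw hp hH => ?_⟩
  · rw [Nat.beq_eq, shr_eq] at h1
    exact (Nat.div_eq_zero_iff_lt (by positivity)).1 h1
  · rw [Nat.ble_eq] at h2
    have hx : vl (HP * W) = (Nat.mul (Nat.sub (gp g ON) (gm g ON)) (wv wl) : ℕ) := by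
      rw [Nat.mul_eq, Nat.sub_eq, Nat.cast_mul, Nat.cast_sub h2, ← hw, ← hp]
      exact eval_mul
    generalize Nat.mul (Nat.sub (gp g ON) (gm g ON)) (wv wl) = x at hx h3 h4
    rw [hO, hG] at h3 h4
    obtain ⟨V, a1, a2, a3⟩ := aXy_core hBas hNrm hMw N x hN HP W hW hH hx h3
    exact ⟨V, _, a1, a2, a3, h4⟩

end Pool.Agent.MP_88bd62_nt.U.A
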