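import Pool.Agent.MP_88bd62_nt.U.ASpec

/-! The four quarters of the sum for zeta are glued together. -/

namespace Pool.Agent.MP_88bd62_nt.U.A

open Finset Real Polynomial
open Pool.Agent.MP_22d5c4_co.K (dig ones dig_mod dig_shift)

/-- The data of adjacent chunks. -/
def aZ_G (m M a n zu : ℕ) (c : ℝ) : Prop := zu < 2 ^ (80 * n) ∧ (∀ i < n, dig 80 zu i < 2 ^ 29) ∧
  ∃ p E Z T : ℤ[X], Sup p n (2 ^ 26) ∧ L1 T (c * 2 ^ 26) ∧ BlkOK Z m M a ∧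
    (∀ j, n ≤ j → E.coeff j = 0) ∧
    (∀ j : ℕ, j < n → |(E.coeff j : ℝ) - 3 * 2 ^ 31 * log 2 * 2 ^ (((a + j : ℕ) : ℝ) / 2 ^ 22)| ≤
      800 * 2 ^ (((a + j : ℕ) : ℝ) / 2 ^ 22)) ∧
    C (2 ^ 27) * tp n zu zoff = E - Z - T - (1 - X) * p

lemma aZ_mono {P : ℤ[X]} {a b : ℝ} (h : L1 P a) (hab : a ≤ b) : L1 P b := fun n => (h n).trans hab

lemma aZ_L1 {P : ℤ[X]} {N : ℕ} {c : ℝ} (h0 : ∀ j, N ≤ j → P.coeff j = 0)
    (h : ∑ i ∈ range N, |(P.coeff i : ℝ)| ≤ c) : L1 P c := fun n =>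
  calc ∑ i ∈ range n, |(P.coeff i : ℝ)| ≤ ∑ i ∈ range (n + N), |(P.coeff i : ℝ)| :=
        sum_le_sum_of_subset_of_nonneg (range_mono (by omega)) fun _ _ _ => abs_nonneg _
    _ = ∑ i ∈ range N, |(P.coeff i : ℝ)| :=
        (sum_subset (range_mono (by omega)) fun i _ hi => by
          rw [h0 i (by simpa using hi), Int.cast_zero, abs_zero]).symm
    _ ≤ c := h

lemma aZ_of (hNrm : StNrm) {m a n zu : ℕ} (h : ChZ m a n zu) : aZ_G m (2 ^ 17) a n zu 1 := by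
  obtain ⟨h1, h2, p, E, Z, t, h3, h4, h5, h6, h7, h8⟩ := h
  refine ⟨h1, h2, p, E, Z, C t * X ^ n, h3, ?_, h5, h6, h7, h8⟩
  have e : L1 (1 : ℤ[X]) 1 := aZ_L1 (N := 1)
    (fun j hj => by rw [coeff_one, if_neg (by omega)]) (by simp)
  have e1 := (hNrm.2.1 _ _ 0 t (hNrm.2.1 _ _ n 0 e).1).2.1
  rw [mul_one, mul_one] at e1
  refine aZ_mono e1 ?_
  rw [one_mul]
  exact_mod_cast h4

lemma aZ_cf {P : ℤ[X]} (Q : ℤ[X]) {n : ℕ} (h : ∀ i, n ≤ i → P.coeff i = 0) (i : ℕ) :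
    (P + X ^ n * Q).coeff i = if i < n then P.coeff i else Q.coeff (i - n) := by
  rw [coeff_add, coeff_X_pow_mul']
  by_cases hi : i < n
  · rw [if_pos hi, if_neg (by omega), add_zero]
  · rw [if_neg hi, if_pos (by omega), h i (by omega), zero_add]

lemma aZ_dig {z n : ℕ} (z' : ℕ) (h : z < 2 ^ (80 * n)) (i : ℕ) :
    dig 80 (z + z' * 2 ^ (80 * n)) i = if i < n then dig 80 z i else dig 80 z' (i - n) := by
  split_ifs with hi
  · rw [← dig_mod 80 _ n i hi, Nat.add_mul_mod_self_right, Nat.mod_eq_of_lt h]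
  · obtain ⟨j, rfl⟩ : ∃ j, i = j + n := ⟨i - n, by omega⟩
    rw [← dig_shift, Nat.add_mul_div_right _ _ (by positivity), Nat.div_eq_of_lt h, zero_add,
      Nat.add_sub_cancel]

lemma aZ_blk (hNrm : StNrm) {Z Z' : ℤ[X]} {m M M' a n : ℕ} (h : BlkOK Z m M a)
    (h' : BlkOK Z' (m + M) M' (a + n)) : BlkOK (Z + X ^ n * Z') m (M + M') a := by
  have s1 : m ≤ m + M := by omega
  have s2 : m + M ≤ m + M + M' := by omega
  unfold BlkOK
  rw [← add_assoc]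
  refine ⟨?_, fun k hk => ?_⟩
  · rw [← sum_Ico_consecutive _ s1 s2, mul_add]
    exact (hNrm.1 _ _ _ _ h.1 (hNrm.2.1 _ _ n 0 h'.1).1).1
  · rw [← sum_Ico_consecutive _ s1 s2, ← sum_Ico_consecutive _ s1 s2]
    refine le_trans (le_of_eq ?_) ((norm_add_le _ _).trans (add_le_add (h.2 k hk) (h'.2 k hk)))
    congr 1
    simp only [ev, map_add, map_mul, map_pow, aeval_X]
    ring

lemma aZ_glue (hUni : StUni) (hNrm : StNrm) {m M m' M' a a' n n' z z' : ℕ} {c c' : ℝ} (N : ℕ)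
    (h : aZ_G m M a n z c) (h' : aZ_G m' M' a' n' z' c') (hm : m' = m + M) (ha : a' = a + n)
    (hn : N = n + n') : aZ_G m (M + M') a N (Nat.add z (shl z' n)) (c + c') := by
  subst hm ha hn
  obtain ⟨h1, h2, p, E, Z, T, h3, h4, h5, h6, h7, h8⟩ := h
  obtain ⟨k1, k2, p', E', Z', T', k3, k4, k5, k6, k7, k8⟩ := h'
  rw [Nat.add_eq, shl_eq]
  have ht : tp (n + n') (z + z' * 2 ^ (80 * n)) zoff = tp n z zoff + X ^ n * tp n' z' zoff := by
    ext i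
    rw [aZ_cf _ fun i hi => by rw [(hUni.2.2.1 _ _ _).1, if_neg (by omega)], (hUni.2.2.1 _ _ _).1,
      (hUni.2.2.1 _ _ _).1, (hUni.2.2.1 _ _ _).1, aZ_dig _ h1]
    split_ifs <;> first | rfl | omega
  refine ⟨?_, fun i hi => ?_, p + X ^ n * p', E + X ^ n * E', Z + X ^ n * Z', T + X ^ n * T',
    ⟨fun i hi => ?_, fun i => ?_⟩, ?_, aZ_blk hNrm h5 k5, fun j hj => ?_, fun j hj => ?_, ?_⟩
  · calc z + z' * 2 ^ (80 * n) < (z' + 1) * 2 ^ (80 * n) := by rw [add_one_mul]; omega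
      _ ≤ 2 ^ (80 * n') * 2 ^ (80 * n) := Nat.mul_le_mul_right _ k1
      _ = _ := by rw [← pow_add, ← mul_add, add_comm]
  · rw [aZ_dig _ h1]
    split_ifs with hi'
    · exact h2 i hi'
    · exact k2 _ (by omega)
  · rw [aZ_cf _ h3.1, if_neg (by omega), k3.1 _ (by omega)]
  · rw [aZ_cf _ h3.1]
    split_ifs
    · exact h3.2 _
    · exact k3.2 _
  · rw [add_mul]
    exact (hNrm.1 _ _ _ _ h4 (hNrm.2.1 _ _ n 0 k4).1).1
  · rw [aZ_cf _ h6, if_neg (by omega), k6 _ (by omega)]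
  · rw [aZ_cf _ h6]
    split_ifs with hj'
    · exact h7 j hj'
    · have := k7 (j - n) (by omega)
      rwa [show a + n + (j - n) = a + j by omega] at this
  · rw [ht]
    linear_combination h8 + X ^ n * k8

lemma aZ_sum (N : ℕ) (hN : N = 2 ^ 22) :
    ∑ j ∈ range N, (2 : ℝ) ^ ((j : ℝ) / 2 ^ 22) ≤ 1.5 * 2 ^ 22 := by
  have h1 : ∀ n : ℕ, ∑ j ∈ range n, (1 + (j : ℝ) / 2 ^ 22) ≤ n + (n : ℝ) ^ 2 / 2 ^ 23 := by
    intro n
    induction n with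
    | zero => simp
    | succ n ih =>
      rw [sum_range_succ]
      push_cast
      linarith
  have hN' : (N : ℝ) = 2 ^ 22 := by rw [hN]; norm_num
  refine (sum_le_sum fun j hj => ?_).trans ((h1 N).trans (by rw [hN']; norm_num))
  have h2 : (j : ℝ) ≤ N := by exact_mod_cast (mem_range.1 hj).le
  have := rpow_one_add_le_one_add_mul_self (s := 1) (p := (j : ℝ) / 2 ^ 22) (by norm_num)
    (by positivity) (by rw [div_le_one (by positivity)]; linarith)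
  rwa [one_add_one_eq_two, mul_one] at this

lemma aZ_evE (hBas : StBas) {E : ℤ[X]} {N : ℕ} (hN : 0 < N) (h0 : ∀ j, N ≤ j → E.coeff j = 0)
    (h : ∀ j : ℕ, j < N → |(E.coeff j : ℝ) - 3 * 2 ^ 31 * log 2 * 2 ^ ((j : ℝ) / 2 ^ 22)| ≤
      800 * 2 ^ ((j : ℝ) / 2 ^ 22)) (k : ℤ) :
    ‖ev k E - 3 * 2 ^ 35 * ∑ j ∈ range N,
      ((log 2 / 16 * 2 ^ ((j : ℝ) / 2 ^ 22) : ℝ) : ℂ) * xk k ^ j‖ ≤ N * 800 := by
  have hd : E.natDegree < N :=
    lt_of_le_of_lt (natDegree_le_iff_coeff_eq_zero.2 fun j (hj : N - 1 < j) => h0 j (by omega))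
      (by omega)
  rw [ev, aeval_eq_sum_range' hd, mul_sum, ← sum_sub_distrib]
  refine (norm_sum_le _ _).trans ((sum_le_card_nsmul _ _ 800 fun j hj => ?_).trans (by simp))
  have e : E.coeff j • xk k ^ j -
      3 * 2 ^ 35 * (((log 2 / 16 * 2 ^ ((j : ℝ) / 2 ^ 22) : ℝ) : ℂ) * xk k ^ j) =
      (((E.coeff j : ℝ) - 3 * 2 ^ 31 * log 2 * 2 ^ ((j : ℝ) / 2 ^ 22) : ℝ) : ℂ) * xk k ^ j := by
    generalize log 2 = L
    generalize (2 : ℝ) ^ ((j : ℝ) / 2 ^ 22) = y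
    rw [zsmul_eq_mul]
    push_cast
    ring
  rw [e, norm_mul, Complex.norm_real, Real.norm_eq_abs, ← hBas.2.1, hBas.2.2.1,
    Real.rpow_neg (by norm_num), ← div_eq_mul_inv, div_le_iff₀ (by positivity)]
  exact h j (mem_range.1 hj)

lemma aZ_fin (hBas : StBas) (hTl : StTl) (hFold : StFold) (hDens : StDens) (hMon : StMon)
    (hPar : StPar) (hUni : StUni) (hNrm : StNrm) {m M N N' z : ℕ} {c : ℝ} (h : aZ_G m M 0 N' z c)
    (hm : m = 2 ^ 19) (hM : m + M = 2 ^ 20) (hN : N = 2 ^ 22) (hN' : N' = N) (hc : c = 4) :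
    z < 2 ^ (80 * N) ∧ SpecZ (tp N z zoff) := by
  subst hN' hc
  obtain ⟨h1, h2, p, E, Z, T, h3, h4, h5, h6, h7, h8⟩ := h
  simp only [zero_add] at h7
  unfold BlkOK at h5
  rw [hM, hm] at h5
  have hN' : (N' : ℝ) = 2 ^ 22 := by rw [hN]; norm_num
  obtain ⟨f1, f2, f3, -⟩ := hFold
  have l1 := Real.log_two_lt_d9
  have l2 := Real.log_two_gt_d9
  unfold SpecZ
  rw [← hN]
  refine ⟨h1, ⟨fun i hi => ?_, fun i => ?_⟩, ?_, -p, ⟨fun i hi => ?_, fun i => ?_⟩, fun k hk => ?_⟩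
  · rw [(hUni.2.2.1 _ _ _).1, if_neg (by omega)]
  · rw [(hUni.2.2.1 _ _ _).1]
    split_ifs with hi
    · have a : ((dig 80 z i : ℕ) : ℝ) < 2 ^ 29 := by exact_mod_cast h2 i hi
      have b : (0 : ℝ) ≤ (dig 80 z i : ℕ) := Nat.cast_nonneg _
      have c : ((zoff : ℕ) : ℝ) = 268468224 := by norm_num [zoff]
      rw [Int.cast_sub, Int.cast_natCast, Int.cast_natCast, c, abs_le]
      constructor <;> linarith
    · simp
  · have a1 : L1 E ((3 * 2 ^ 31 * log 2 + 800) * (1.5 * 2 ^ 22)) := aZ_L1 h6 (by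
      refine le_trans ?_ (mul_le_mul_of_nonneg_left (aZ_sum _ hN) (by positivity))
      rw [mul_sum]
      refine sum_le_sum fun j hj => ?_
      have b := abs_le.1 (h7 j (mem_range.1 hj))
      have c : 0 ≤ log 2 * (2 : ℝ) ^ ((j : ℝ) / 2 ^ 22) := by positivity
      rw [abs_le]
      constructor <;> linarith [b.1, b.2])
    have a2 := hPar.2.1 _ _ _ h3
    have a3 := (hNrm.1 _ _ _ _ a2 (hNrm.2.1 _ _ 1 0 a2).1).2.1
    have a4 := (hNrm.1 _ _ _ _ (hNrm.1 _ _ _ _ (hNrm.1 _ _ _ _ a1 h5.1).2.1 h4).2.1 a3).2.1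
    rw [show p - X ^ 1 * p = (1 - X) * p by ring, ← h8, hN'] at a4
    intro n
    have a5 := a4 n
    simp only [coeff_C_mul, Int.cast_mul, Int.cast_pow, Int.cast_ofNat, abs_mul,
      abs_of_pos (show (0 : ℝ) < 2 ^ 27 by positivity), ← mul_sum] at a5
    linarith
  · rw [coeff_neg, h3.1 i hi, neg_zero]
  · rw [coeff_neg, Int.cast_neg, abs_neg]
    exact h3.2 i
  · obtain ⟨ko, kx, -⟩ := hBas.2.2.2.2.2.2.2 k hk
    have x0 := (hBas.2.2.2.2.2.2.1 k).2.2.2.1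
    have n0 := (hMon.2 0 (xi k) 1 le_rfl x0.le x0 kx.le le_rfl).2.2.1
    have b1 := aZ_evE hBas (by omega) h6 h7 k
    have b2 := hDens k hk
    have b3 := h5.2 k hk
    have b4 := hPar.1 _ _ k h4
    have b5 := mul_le_mul_of_nonneg_left (hTl k hk) (norm_nonneg (kap k))
    have b6 := congrArg (ev k) h8
    rw [← hN] at b2
    rw [hN'] at b1
    rw [← f1 k ko, pow_zero, one_mul, sum_add_distrib, sum_add_distrib, ← mul_sum, ← mul_sum,
      sum_const, Nat.card_Ico, nsmul_eq_mul,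
      show ((2 ^ 20 - 2 ^ 19 : ℕ) : ℝ) = 2 ^ 19 by norm_num] at b3
    have b7 : ∑ r ∈ Ico (2 ^ 19) (2 ^ 20), |(cm r : ℝ)| * (2 ^ 19 / r) ≤ 2 ^ 19 * 5.14 := by
      refine le_trans (le_of_eq ?_) (mul_le_mul_of_nonneg_left f2 (by positivity))
      rw [mul_sum]
      exact sum_congr rfl fun r _ => by ring
    have b8 := mul_le_mul_of_nonneg_left b7 (mul_nonneg (norm_nonneg (kap k)) n0)
    rw [← norm_mul] at b5
    simp only [ev, map_mul, map_sub, map_one, aeval_X, map_pow, map_ofNat] at b6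
    unfold ev at b1 b3 b4 ⊢
    rw [map_neg]
    generalize ∑ j ∈ range N', ((log 2 / 16 * 2 ^ ((j : ℝ) / 2 ^ 22) : ℝ) : ℂ) * xk k ^ j = D
      at b1 b2
    generalize ∑ n ∈ Ico 1 (2 ^ 20), pw n k = S at b3 b5
    generalize ∑ r ∈ Ico (2 ^ 19) (2 ^ 20), |(cm r : ℝ)| * (2 ^ 19 / r) = s₁ at b3 b8
    generalize ∑ r ∈ Ico (2 ^ 19) (2 ^ 20), |(cm r : ℝ)| = s₂ at b3 f3
    generalize ((tk k : ℝ) : ℂ) * Complex.I = τ at b2 b5
    have e : aeval (xk k) (tp N' z zoff) / (3 * 2 ^ 27) - kap k * riemannZeta (sk k) -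
        (1 - xk k) * -aeval (xk k) p / (3 * 2 ^ 54) =
        ((aeval (xk k) E - 3 * 2 ^ 35 * D) + 3 * 2 ^ 35 * (D - 2 ^ 19 * kap k / τ)
          - (aeval (xk k) Z - 3 * 2 ^ 35 * kap k * (-2 ^ 19 * S)) - aeval (xk k) T) / (3 * 2 ^ 54)
          - kap k * (riemannZeta (sk k) - S - 1 / τ) := by
      linear_combination (1 / (3 * 2 ^ 54)) * b6
    rw [e]
    generalize aeval (xk k) E - 3 * 2 ^ 35 * D = u₁ at b1 ⊢
    generalize D - 2 ^ 19 * kap k / τ = u₂ at b2 ⊢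
    generalize aeval (xk k) Z - 3 * 2 ^ 35 * kap k * (-2 ^ 19 * S) = u₃ at b3 ⊢
    have c1 := norm_sub_le (u₁ + 3 * 2 ^ 35 * u₂ - u₃) (aeval (xk k) T)
    have c2 := norm_sub_le (u₁ + 3 * 2 ^ 35 * u₂) u₃
    have c3 := norm_add_le u₁ (3 * 2 ^ 35 * u₂)
    rw [norm_mul, show ‖(3 * 2 ^ 35 : ℂ)‖ = 3 * 2 ^ 35 by simp] at c3
    have c4 : ‖(u₁ + 3 * 2 ^ 35 * u₂ - u₃ - aeval (xk k) T) / (3 * 2 ^ 54)‖ ≤
        5.14 * (‖kap k‖ * nd (xi k)) + 0.0000008 := by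
      rw [norm_div, show ‖(3 * 2 ^ 54 : ℂ)‖ = 3 * 2 ^ 54 by simp, div_le_iff₀ (by positivity)]
      linear_combination c1 + c2 + c3 + b1 + 3 * 2 ^ 35 * b2 + b3 + 3 * 2 ^ 35 * b8 + 5 * f3 + b4
    refine (norm_sub_le _ _).trans ?_
    unfold aZ
    linarith

theorem stZ (hBas : StBas) (hTl : StTl) (hFold : StFold) (hDens : StDens) (hMon : StMon)
    (hPar : StPar) (hUni : StUni) (hNrm : StNrm) : StZ := by
  intro z₀ z₁ z₂ z₃ N hN h₀ h₁ h₂ h₃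
  have g₁ := aZ_glue hUni hNrm 2453510 (aZ_of hNrm h₀) (aZ_of hNrm h₁) (by norm_num) (by norm_num)
    (by norm_num)
  have g₂ := aZ_glue hUni hNrm 1740794 (aZ_of hNrm h₂) (aZ_of hNrm h₃) (by norm_num) (by norm_num)
    (by norm_num)
  have g₃ := aZ_glue hUni hNrm N g₁ g₂ (by norm_num) (by norm_num) (by rw [hN]; norm_num)
  unfold zcat
  exact aZ_fin hBas hTl hFold hDens hMon hPar hUni hNrm g₃ (by norm_num) (by norm_num) hN rfl
    (by norm_num)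

end Pool.Agent.MP_88bd62_nt.U.A
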