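import Pool.Agent.MP_88bd62_nt.U.Stmts

/-! Antiperiodicity and the change of the base point. -/

namespace Pool.Agent.MP_88bd62_nt.U

open Finset Real Filter Topology

lemma xBase_ee {k : ℤ} (hk : Odd k) (u : ℝ) (m : ℤ) : ee k (u + m) = (-1) ^ m * ee k u := by
  have e : ((-1 : ℂ)) ^ m = Complex.exp (((k * m : ℤ) : ℂ) * (π * Complex.I)) := by
    rw [Complex.exp_int_mul, Complex.exp_pi_mul_I, zpow_mul, hk.neg_one_zpow]
  rw [e, ee, ee, ← Complex.exp_add]
  congr 1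
  push_cast
  ring

lemma xBase_sg (v : ℝ) (m : ℤ) : sg (v + m) = (-1) ^ m * sg v := by
  rw [sg, sg, Int.floor_add_intCast, zpow_add₀ (by norm_num), Int.cast_add, add_sub_add_right_eq_sub]
  ring

lemma xBase_LP (N : ℕ) (c : ℤ → ℂ) (u : ℝ) (m : ℤ) : LPc N c (u + m) = (-1) ^ m * LPc N c u := by
  rw [LPc, LPc, mul_sum]
  refine sum_congr rfl fun k hk => ?_
  rw [xBase_ee (mem_filter.1 hk).2]
  ring

lemma xBase_Phi (a : ℕ → ℝ) (u : ℝ) (m : ℤ) : Phi a (u + m) = (-1) ^ m * Phi a u := by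
  rw [Phi, Phi, ← tsum_mul_left]
  refine tsum_congr fun n => ?_
  rw [add_sub_right_comm, xBase_sg]
  ring

lemma xBase_norm_ee (k : ℤ) (v : ℝ) : ‖ee k v‖ = 1 := Complex.norm_exp_ofReal_mul_I _

lemma xBase_abs_sg (v : ℝ) : |sg v| ≤ 1 := by
  have h : (2 : ℝ) ^ ((⌊v⌋ : ℝ) - v) ≤ 1 :=
    rpow_le_one_of_one_le_of_nonpos one_le_two (by linarith [Int.floor_le v])
  rw [sg, abs_mul, abs_mul, abs_zpow, abs_neg, abs_one, one_zpow, abs_of_pos (by norm_num),
    abs_of_pos (by positivity)]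
  linarith

lemma xBase_sumS {a : ℕ → ℝ} (h : AC a) (k : ℤ) :
    Summable fun n : ℕ => ((a n / n : ℝ) : ℂ) * ee k (-th n) := by
  refine Summable.of_norm (h.congr fun n => ?_)
  rw [norm_mul, xBase_norm_ee, mul_one, Complex.norm_real, norm_eq_abs, abs_div, Nat.abs_cast]

lemma xBase_sumP {a : ℕ → ℝ} (h : AC a) (u : ℝ) :
    Summable fun n : ℕ => a n / n * sg (u - th n) := by
  refine Summable.of_norm_bounded h fun n => ?_
  rw [norm_eq_abs, abs_mul, abs_div, Nat.abs_cast]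
  exact mul_le_of_le_one_right (by positivity) (xBase_abs_sg _)

lemma xBase_Ser {a a' : ℕ → ℝ} (h : AC a) (h' : AC a') (k : ℤ) :
    Ser (a - a') k = Ser a k - Ser a' k := by
  rw [Ser, Ser, Ser, ← (xBase_sumS h k).tsum_sub (xBase_sumS h' k)]
  refine tsum_congr fun n => ?_
  rw [Pi.sub_apply, sub_div, Complex.ofReal_sub, sub_mul]

lemma xBase_PhiS {a a' : ℕ → ℝ} (h : AC a) (h' : AC a') (u : ℝ) :
    Phi (a - a') u = Phi a u - Phi a' u := by
  rw [Phi, Phi, Phi, ← (xBase_sumP h u).tsum_sub (xBase_sumP h' u)]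
  refine tsum_congr fun n => ?_
  rw [Pi.sub_apply, sub_div, sub_mul]

lemma xBase_LPsub (N : ℕ) (c c' : ℤ → ℂ) (u : ℝ) :
    LPc N (fun k => c k - c' k) u = LPc N c u - LPc N c' u := by
  rw [LPc, LPc, LPc, ← sum_sub_distrib]
  exact sum_congr rfl fun k _ => by ring

lemma xBase_move (k : ℤ) {η u u' : ℝ} (h : |u - u'| ≤ η) :
    ‖sh k * (ee k u - ((2 : ℝ) ^ (u' - u) : ℝ) * ee k u')‖ ≤ 2 ^ η * η := by
  have hl := log_pos one_lt_two
  have hη := (abs_nonneg _).trans h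
  have h1 := Convex.norm_image_sub_le_of_norm_deriv_le (f := Complex.exp) (C := 2 ^ η)
    (s := {z : ℂ | z.re ≤ log 2 * η}) (fun z _ => Complex.differentiableAt_exp)
    (fun z hz => by
      rw [Complex.deriv_exp, Complex.norm_exp, rpow_def_of_pos two_pos]
      exact exp_le_exp.2 hz) (convex_halfSpace_re_le _)
    (x := (log 2 * (u' - u) : ℝ) + (π * k * u' : ℝ) * Complex.I)
    (y := (π * k * u : ℝ) * Complex.I)
    (by
      simp only [Set.mem_ofPred_eq, Complex.add_re, Complex.ofReal_re, Complex.re_ofReal_mul,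
        Complex.I_re, mul_zero, add_zero]
      exact mul_le_mul_of_nonneg_left (by linarith [neg_abs_le (u - u')]) hl.le)
    (by
      simp only [Set.mem_ofPred_eq, Complex.re_ofReal_mul, Complex.I_re, mul_zero]
      positivity)
  have hz : ((log 2 : ℝ) : ℂ) + (π * k : ℝ) * Complex.I ≠ 0 := fun h0 => by
    have := congrArg Complex.re h0
    simp only [Complex.add_re, Complex.ofReal_re, Complex.re_ofReal_mul, Complex.I_re, mul_zero,
      add_zero, Complex.zero_re] at this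
    exact hl.ne' this
  have e : ((π * k * u : ℝ) : ℂ) * Complex.I -
      ((log 2 * (u' - u) : ℝ) + (π * k * u' : ℝ) * Complex.I) =
      (((log 2 : ℝ) : ℂ) + (π * k : ℝ) * Complex.I) * (u - u' : ℝ) := by
    simp only [Complex.ofReal_mul, Complex.ofReal_sub]
    ring
  rw [e, Complex.exp_add, ← Complex.ofReal_exp, ← rpow_def_of_pos two_pos, norm_mul,
    Complex.norm_real, norm_eq_abs] at h1
  rw [norm_mul, sh, norm_div, norm_one, one_div, inv_mul_le_iff₀ (norm_pos_iff.2 hz), ee, ee]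
  refine h1.trans ?_
  rw [mul_left_comm]
  gcongr

lemma xBase_term (hK : StKerB) {N : ℕ} (hN : 1000 ≤ N) {η : ℝ} (h0 : 0 ≤ η) (h1 : η ≤ 1 / 1000)
    {k : ℤ} (hk : Odd k) {r : ℝ} (hr : 0 ≤ r) :
    wk N k * r * (2 ^ η * η) + min (1.501 * |(k : ℝ)| / (2 * N)) 1 * r / (π * |(k : ℝ)|) ≤
      min ((1.501 + 6.3 * N * η) * |(k : ℝ)| / (2 * N)) (1 + 1.26 * N * η) * r
        / (π * |(k : ℝ)|) := by
  obtain ⟨w0, w1, -, w2, -⟩ := hK N hN k
  have hk0 : 0 < |(k : ℝ)| := abs_pos.2 (by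
    have : k ≠ 0 := by rintro rfl; simp at hk
    exact_mod_cast this)
  have hN0 : (0 : ℝ) < N := by exact_mod_cast (by omega : 0 < N)
  have h2 : (2 : ℝ) ^ η ≤ 1.001 := by
    have := rpow_one_add_le_one_add_mul_self (s := 1) (by norm_num) h0 (by linarith)
    rw [one_add_one_eq_two] at this
    linarith
  have h3 : π * 2 ^ η ≤ 3.15 :=
    (mul_le_mul pi_lt_d4.le h2 (by positivity) (by norm_num)).trans (by norm_num)
  have h4 : π * |(k : ℝ)| * (wk N k * (2 ^ η * η)) ≤ 3.15 * (η * (|(k : ℝ)| * wk N k)) := by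
    refine le_trans (le_of_eq (by ring)) (mul_le_mul_of_nonneg_right h3 (by positivity))
  have h5 : η * (|(k : ℝ)| * wk N k) ≤ η * |(k : ℝ)| :=
    mul_le_mul_of_nonneg_left (mul_le_of_le_one_right hk0.le w1) h0
  have h6 := mul_le_mul_of_nonneg_left w2 h0
  have h7 : π * |(k : ℝ)| * (wk N k * (2 ^ η * η)) + min (1.501 * |(k : ℝ)| / (2 * N)) 1 ≤
      min ((1.501 + 6.3 * N * η) * |(k : ℝ)| / (2 * N)) (1 + 1.26 * N * η) := by
    refine le_min ?_ (by linarith [min_le_right (1.501 * |(k : ℝ)| / (2 * N)) 1])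
    have e : (1.501 + 6.3 * N * η) * |(k : ℝ)| / (2 * N) =
        1.501 * |(k : ℝ)| / (2 * N) + 3.15 * (η * |(k : ℝ)|) := by
      field_simp
      ring
    linarith [min_le_left (1.501 * |(k : ℝ)| / (2 * N)) 1]
  refine le_trans (le_of_eq ?_) (div_le_div_of_nonneg_right
    (mul_le_mul_of_nonneg_right h7 hr) (by positivity))
  field_simp

theorem stBase (hKerB : StKerB) (hLP : StLP) : StBase := by
  refine ⟨fun N c a u m => ?_, fun N N' a a' η u u' hN hNN ha ha' h0 h1 hu => ?_⟩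
  · have e : Psi N c a (u + m) = (-1) ^ m * Psi N c a u := by
      simp only [Psi, HP, xBase_LP, xBase_Phi]
      push_cast
      ring
    rw [e, norm_mul, norm_zpow, norm_neg, norm_one, one_zpow, one_mul]
  have ht : (((2 : ℝ) ^ (u' - u) : ℝ) : ℂ) * ((2 : ℝ) ^ (u - u') : ℝ) = 1 := by
    rw [← Complex.ofReal_mul, ← rpow_add two_pos]
    simp
  have e : Psi N FS a u = ((2 : ℝ) ^ (u' - u) : ℝ) *
      ((LPc N (fun k => FS k - Ser a' k) u' + (((2 : ℝ) ^ (u - u') * Phi a' u : ℝ) : ℂ))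
        + ((((2 : ℝ) ^ (u - u') * Phi (a - a') u : ℝ) : ℂ) - LPc N (Ser (a - a')) u')) +
      ∑ k ∈ Kset N, (wk N k : ℂ) * (FS k - Ser a k) *
        (sh k * (ee k u - ((2 : ℝ) ^ (u' - u) : ℝ) * ee k u')) := by
    have e1 : ∑ k ∈ Kset N, (wk N k : ℂ) * (FS k - Ser a k) *
        (sh k * (ee k u - ((2 : ℝ) ^ (u' - u) : ℝ) * ee k u')) =
        LPc N (fun k => FS k - Ser a k) u -
          ((2 : ℝ) ^ (u' - u) : ℝ) * LPc N (fun k => FS k - Ser a k) u' := by
      rw [LPc, LPc, mul_sum, ← sum_sub_distrib]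
      exact sum_congr rfl fun k _ => by ring
    rw [e1, funext (xBase_Ser ha ha'), xBase_PhiS ha ha']
    simp only [xBase_LPsub, Psi, HP, Complex.ofReal_mul, Complex.ofReal_sub]
    linear_combination -(Phi a u : ℂ) * ht
  have h2 : ‖(((2 : ℝ) ^ (u' - u) : ℝ) : ℂ)‖ ≤ 2 ^ η := by
    rw [Complex.norm_real, norm_of_nonneg (by positivity)]
    exact rpow_le_rpow_of_exponent_le one_le_two (by linarith [neg_abs_le (u - u')])
  have h3 : ‖∑ k ∈ Kset N, (wk N k : ℂ) * (FS k - Ser a k) *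
      (sh k * (ee k u - ((2 : ℝ) ^ (u' - u) : ℝ) * ee k u'))‖ ≤
      ∑ k ∈ Kset N', wk N k * ‖FS k - Ser a k‖ * (2 ^ η * η) := by
    refine (norm_sum_le_of_le _ fun k _ => ?_).trans
      (sum_le_sum_of_subset_of_nonneg (filter_subset_filter _ (Ioo_subset_Ioo ?_ ?_))
        fun k _ _ => ?_)
    · have := (hKerB N hN k).1
      rw [norm_mul, norm_mul, Complex.norm_real, norm_of_nonneg this]
      exact mul_le_mul_of_nonneg_left (xBase_move k hu) (by positivity)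
    · omega
    · omega
    · have := (hKerB N hN k).1
      positivity
  have h4 : ∑ k ∈ Kset N', wk N k * ‖FS k - Ser a k‖ * (2 ^ η * η) + Rem N N' 1.501 1 a ≤
      Rem N N' (1.501 + 6.3 * N * η) (1 + 1.26 * N * η) a := by
    rw [Rem, Rem, ← sum_add_distrib]
    exact sum_le_sum fun k hk => xBase_term hKerB hN h0 h1 (mem_filter.1 hk).2 (norm_nonneg _)
  have h5 := (congrArg norm e).trans_le (norm_add_le _ _)
  rw [norm_mul] at h5
  have h6 := mul_le_mul h2 (norm_add_le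
    (LPc N (fun k => FS k - Ser a' k) u' + (((2 : ℝ) ^ (u - u') * Phi a' u : ℝ) : ℂ))
    ((((2 : ℝ) ^ (u - u') * Phi (a - a') u : ℝ) : ℂ) - LPc N (Ser (a - a')) u'))
    (norm_nonneg _) (by positivity)
  linarith

end Pool.Agent.MP_88bd62_nt.U
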