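import Pool.Agent.MP_88bd62_nt.U.Stmts

/-! The blocks of the second derivative test. -/

namespace Pool.Agent.MP_88bd62_nt.U

open Finset Real

noncomputable section

theorem xBlock_lo {x : ℝ} (hx : 0 < x) : 1 / (x + 1 / 2) ≤ log (1 + 1 / x) := by
  refine le_of_eq_of_le ?_ (le_log_one_add_of_nonneg (x := 1 / x) (by positivity))
  field_simp
  ring

theorem xBlock_hi {x : ℝ} (hx : 0 < x) : log (1 + 1 / x) ≤ (2 * x + 1) / (2 * x * (x + 1)) := by
  have h1 : (1 : ℝ) ≤ 1 + 1 / x := le_add_of_nonneg_right (by positivity)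
  have h2 := self_le_sinh_iff.2 (log_nonneg h1)
  rw [sinh_log (by positivity)] at h2
  refine h2.trans_eq ?_
  field_simp
  ring

theorem xBlock_hi' {x : ℝ} (hx : 0 < x) : log (1 + 1 / x) ≤ 1 / x := by
  have := log_le_sub_one_of_pos (x := 1 + 1 / x) (by positivity)
  linarith

/-- The increments of the phase. -/
def xBlock_d (τ α : ℝ) (n : ℕ) : ℝ := τ * log (1 + 1 / (n + α))

/-- The first index from `A` on where the increment is at most `c`. -/
def xBlock_N (τ α : ℝ) (A : ℕ) (c : ℝ) : ℕ := sInf {n | A ≤ n ∧ xBlock_d τ α n ≤ c}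

variable {τ α e c c' : ℝ} {A m n : ℕ}

theorem xBlock_pos (hα : 0 ≤ α) (hn : 1 ≤ n) : (1 : ℝ) ≤ n + α := by
  have : (1 : ℝ) ≤ n := by exact_mod_cast hn
  linarith

theorem xBlock_anti (hτ : 0 ≤ τ) (hα : 0 ≤ α) (hm : 1 ≤ m) (h : m ≤ n) :
    xBlock_d τ α n ≤ xBlock_d τ α m := by
  have h1 := xBlock_pos hα hm
  have h2 : (m : ℝ) ≤ n := by exact_mod_cast h
  have h3 : (0 : ℝ) < n + α := by linarith
  unfold xBlock_d
  gcongr

theorem xBlock_inc (hα : 0 ≤ α) (hn : 1 ≤ n) :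
    τ * log (((n + 1 : ℕ) : ℝ) + α) - τ * log (n + α) = xBlock_d τ α n := by
  have h1 := xBlock_pos hα hn
  have h2 : (1 : ℝ) + 1 / (n + α) = (((n + 1 : ℕ) : ℝ) + α) / (n + α) := by
    push_cast
    field_simp
    ring
  rw [xBlock_d, h2, log_div (by push_cast; linarith) (by linarith)]
  ring

theorem xBlock_le (hτ : 0 ≤ τ) (hα : 0 ≤ α) (hn : 1 ≤ n) : xBlock_d τ α n * (n + α) ≤ τ := by
  have h1 := xBlock_pos hα hn
  have h2 := mul_le_mul_of_nonneg_left (xBlock_hi' (x := n + α) (by linarith)) hτ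
  rw [mul_one_div, le_div_iff₀ (by linarith)] at h2
  exact h2

theorem xBlock_ge (hτ : 0 ≤ τ) (hα : 0 ≤ α) (hn : 1 ≤ n) :
    τ ≤ xBlock_d τ α n * (n + α + 1 / 2) := by
  have h1 := xBlock_pos hα hn
  have h2 := mul_le_mul_of_nonneg_left (xBlock_lo (x := n + α) (by linarith)) hτ
  rw [mul_one_div, div_le_iff₀ (by linarith)] at h2
  exact h2

theorem xBlock_le2 (hτ : 0 ≤ τ) (hα : 0 ≤ α) (hn : 40 ≤ n) :
    xBlock_d τ α n * (n + α + 1 / 2 - 1 / 160) ≤ τ := by
  have h1 : (40 : ℝ) ≤ n := by exact_mod_cast hn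
  have h2 := xBlock_hi (x := n + α) (by linarith)
  generalize hx : (n : ℝ) + α = x at *
  have h3 : 40 ≤ x := by linarith
  have h4 : (2 * x + 1) / (2 * x * (x + 1)) * (x + 1 / 2 - 1 / 160) ≤ 1 := by
    rw [div_mul_eq_mul_div, div_le_one (by positivity)]
    nlinarith
  calc _ ≤ τ * ((2 * x + 1) / (2 * x * (x + 1))) * (x + 1 / 2 - 1 / 160) := by
        rw [xBlock_d, hx]
        gcongr
        linarith
    _ ≤ τ * 1 := by rw [mul_assoc]; gcongr
    _ = τ := mul_one τ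

theorem xBlock_spec (hτ : 0 ≤ τ) (hα : 0 ≤ α) (hA : 1 ≤ A) (hc : 0 < c) :
    A ≤ xBlock_N τ α A c ∧ xBlock_d τ α (xBlock_N τ α A c) ≤ c := by
  refine Nat.sInf_mem (s := {n | A ≤ n ∧ xBlock_d τ α n ≤ c}) ⟨A + ⌈τ / c⌉₊, by simp, ?_⟩
  have h1 := xBlock_le (n := A + ⌈τ / c⌉₊) hτ hα (by omega)
  have h2 := xBlock_pos (n := A + ⌈τ / c⌉₊) hα (by omega)
  have h3 := Nat.le_ceil (τ / c)
  rw [div_le_iff₀ hc] at h3
  have h4 : (0 : ℝ) ≤ A := Nat.cast_nonneg A
  refine le_of_mul_le_mul_right (h1.trans ?_) (lt_of_lt_of_le one_pos h2)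
  push_cast
  nlinarith

theorem xBlock_lt (hn : A ≤ n) (h : n < xBlock_N τ α A c) : c < xBlock_d τ α n :=
  lt_of_not_ge fun h' => Nat.notMem_of_lt_sInf h ⟨hn, h'⟩

theorem xBlock_after (hτ : 0 ≤ τ) (hα : 0 ≤ α) (hA : 1 ≤ A) (hc : 0 < c)
    (h : xBlock_N τ α A c ≤ n) : xBlock_d τ α n ≤ c :=
  (xBlock_anti hτ hα (hA.trans (xBlock_spec hτ hα hA hc).1) h).trans (xBlock_spec hτ hα hA hc).2

theorem xBlock_mono (hτ : 0 ≤ τ) (hα : 0 ≤ α) (hA : 1 ≤ A) (hc : 0 < c) (h : c ≤ c') :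
    xBlock_N τ α A c' ≤ xBlock_N τ α A c :=
  Nat.sInf_le ⟨(xBlock_spec hτ hα hA hc).1, (xBlock_spec hτ hα hA hc).2.trans h⟩

theorem xBlock_near {ν x y : ℝ} (he : 0 < e) (he' : e ≤ 0.03) (hν : 0 < ν) (hν' : ν ≤ τ * e)
    (h1 : τ ≤ ν * (1 + e) * (x + 1 / 2))
    (h2 : ν * (1 - e) * (y + 1 / 2 - 1 / 160) ≤ τ) : y - x ≤ 2.01 * (τ * e / ν) := by
  obtain ⟨T, rfl⟩ : ∃ T, τ = ν * T := ⟨τ / ν, by field_simp⟩
  have h3 : T ≤ (1 + e) * (x + 1 / 2) := by
    rw [mul_assoc] at h1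
    exact le_of_mul_le_mul_left h1 hν
  have h4 : (1 - e) * (y + 1 / 2 - 1 / 160) ≤ T := by
    rw [mul_assoc] at h2
    exact le_of_mul_le_mul_left h2 hν
  have h5 : 1 ≤ T * e := by
    rw [mul_assoc] at hν'
    exact le_of_mul_le_mul_left (by simpa using hν') hν
  have h6 : ν * T * e / ν = T * e := by field_simp
  rw [h6]
  have h7 : (1 - e ^ 2) * (y - x - 1 / 160) ≤ 2 * (T * e) := by
    have a := mul_le_mul_of_nonneg_left h3 (show 0 ≤ 1 - e by linarith)
    have b := mul_le_mul_of_nonneg_left h4 (show 0 ≤ 1 + e by linarith)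
    nlinarith
  have h8 : e ^ 2 ≤ 0.0009 := by nlinarith
  by_contra h9
  have h10 : 2.01 * (T * e) - 1 / 160 ≤ y - x - 1 / 160 := by linarith
  have h11 := mul_le_mul (show 0.9991 ≤ 1 - e ^ 2 by linarith) h10 (by linarith) (by linarith)
  linarith

theorem xBlock_ex (x : ℝ) : ‖ex x‖ = 1 := Complex.norm_exp_ofReal_mul_I _

theorem xBlock_one (hKL : StKL) {w : ℝ → ℝ} (hτ : 0 ≤ τ) (hα : 0 ≤ α) (hA : 40 ≤ A)
    (hw : AntitoneOn w (Set.Ici 1)) (hw0 : ∀ x, 1 ≤ x → 0 ≤ w x) (he : 0 < e) (he' : e ≤ 0.03)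
    (hs : π * τ * e ^ 2 = 1) {ν : ℕ} (hν : 1 ≤ ν) (hν' : (ν : ℝ) ≤ τ * e) :
    ‖∑ n ∈ Ico (xBlock_N τ α A (((ν + 1 : ℕ) : ℝ) * (1 - e))) (xBlock_N τ α A (ν * (1 - e))),
      (w (n + α) : ℂ) * ex (τ * log (n + α))‖ ≤ blk τ ν * w (max A (τ / (ν + 1) - 1)) := by
  have hA1 : 1 ≤ A := by omega
  have hν1 : (1 : ℝ) ≤ ν := by exact_mod_cast hν
  have hA40 : (40 : ℝ) ≤ A := by exact_mod_cast hA
  have c1 : 0 < (ν : ℝ) * (1 - e) := mul_pos (by linarith) (by linarith)
  have c2 : (ν : ℝ) * (1 - e) ≤ min (ν * (1 + e)) ((ν + 1) * (1 - e)) :=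
    le_min (by nlinarith) (by nlinarith)
  have c3 : 0 < ((ν : ℝ) + 1) * (1 - e) := mul_pos (by linarith) (by linarith)
  push_cast [← Complex.ofReal_natCast]
  have hqb := xBlock_mono (A := A) hτ hα hA1 c1 c2
  have haq := xBlock_mono (A := A) hτ hα hA1 (c1.trans_le c2) (min_le_right _ _)
  have ha := xBlock_spec (A := A) hτ hα hA1 c3
  have ha' := fun n => xBlock_after (A := A) (n := n) hτ hα hA1 c3
  have hq := fun n => xBlock_after (A := A) (n := n) hτ hα hA1 (c1.trans_le c2)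
  have hq' := fun n => xBlock_lt (τ := τ) (α := α) (A := A) (n := n)
    (c := min (ν * (1 + e)) ((ν + 1) * (1 - e)))
  have hb := fun n => xBlock_lt (τ := τ) (α := α) (A := A) (n := n) (c := ν * (1 - e))
  generalize xBlock_N τ α A (((ν : ℝ) + 1) * (1 - e)) = a at *
  generalize xBlock_N τ α A (min ((ν : ℝ) * (1 + e)) ((ν + 1) * (1 - e))) = q at *
  generalize xBlock_N τ α A ((ν : ℝ) * (1 - e)) = b at *
  have hM : (1 : ℝ) ≤ max (A : ℝ) (τ / (ν + 1) - 1) := le_max_of_le_left (by linarith)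
  have hW0 := hw0 _ hM
  have hW : ∀ n, a ≤ n → w (n + α) ≤ w (max A (τ / (ν + 1) - 1)) := by
    intro n hn
    have h1 : A ≤ n := ha.1.trans hn
    have h2 : (A : ℝ) ≤ n := by exact_mod_cast h1
    refine hw hM (xBlock_pos hα (hA1.trans h1)) (max_le (by linarith) ?_)
    have h3 := xBlock_ge hτ hα (hA1.trans h1)
    have h4 := mul_le_mul_of_nonneg_right ((ha' n hn).trans
      (show ((ν : ℝ) + 1) * (1 - e) ≤ ν + 1 by nlinarith)) (show 0 ≤ n + α + 1 / 2 by linarith)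
    rw [sub_le_iff_le_add, div_le_iff₀ (by linarith)]
    nlinarith
  generalize w (max A (τ / (ν + 1) - 1)) = W at *
  have hsq : √(τ / π) = τ * e := by
    rw [sqrt_eq_iff_mul_self_eq (by positivity) (by positivity), div_eq_iff pi_ne_zero]
    linear_combination -τ * hs
  have far : ‖∑ n ∈ Ico a q, (w (n + α) : ℂ) * ex (τ * log (n + α))‖ ≤
      W * (τ * e / ν + τ * e / (ν + 1)) := by
    have e1 : ∀ x : ℝ, 0 < x → 1 / (π * (x * e)) = τ * e / x := fun x hx => by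
      field_simp
      linear_combination -hs
    rw [← e1 _ (by linarith), ← e1 _ (by linarith)]
    refine (hKL (fun n => τ * log (n + α)) (fun n => w (n + α)) a q ν (ν * e) ((ν + 1) * e)
      (by positivity) (by positivity) (fun n h1 h2 => ?_) (fun n h1 h2 => ?_)
      (fun n h1 => ?_)).trans (mul_le_mul_of_nonneg_right (hW a le_rfl) (by positivity))
    · have h3 := hq' n (ha.1.trans h1) h2
      have h4 := ha' n h1
      rw [xBlock_inc hα (by omega), Int.cast_natCast]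
      rcases min_lt_iff.1 h3 with h5 | h5
      · constructor <;> linarith
      · linarith
    · rw [xBlock_inc (n := n + 1) hα (by omega), xBlock_inc hα (by omega)]
      exact xBlock_anti hτ hα (by omega) (by omega)
    · have h2 := xBlock_pos (n := n) hα (by omega)
      have h3 := xBlock_pos (n := n + 1) hα (by omega)
      exact ⟨hw0 _ h3, hw h2 h3 (by push_cast; linarith)⟩
  have near : ‖∑ n ∈ Ico q b, (w (n + α) : ℂ) * ex (τ * log (n + α))‖ ≤
      (2.01 * (τ * e / ν) + 1) * W := by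
    refine (norm_sum_le_of_le _ (n := fun _ => W) fun n hn => ?_).trans ?_
    · have h1 := haq.trans (mem_Ico.1 hn).1
      rw [norm_mul, xBlock_ex, mul_one, Complex.norm_real,
        norm_of_nonneg (hw0 _ (xBlock_pos hα (by omega)))]
      exact hW n h1
    rw [sum_const, Nat.card_Ico, nsmul_eq_mul, Nat.cast_sub hqb]
    refine mul_le_mul_of_nonneg_right ?_ hW0
    rcases hqb.eq_or_lt with rfl | hlt
    · rw [sub_self]; positivity
    obtain ⟨b, rfl⟩ : ∃ b', b = b' + 1 := ⟨b - 1, by omega⟩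
    have h1 := xBlock_ge (n := q) hτ hα (by omega)
    have h2 := xBlock_le2 (n := b) hτ hα (by omega)
    have h3 := (hq q le_rfl).trans (min_le_left _ _)
    have h4 := hb b (by omega) (by omega)
    have h5 := xBlock_pos (n := q) hα (by omega)
    have h6 := xBlock_pos (n := b) hα (by omega)
    have := xBlock_near (x := q + α) (y := b + α) he he' (by linarith) hν'
      (h1.trans (mul_le_mul_of_nonneg_right h3 (by linarith)))
      ((mul_le_mul_of_nonneg_right h4.le (by linarith)).trans h2)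
    push_cast
    linarith
  rw [← sum_Ico_consecutive _ haq hqb]
  refine (norm_add_le _ _).trans ((add_le_add far near).trans_eq ?_)
  rw [blk, hsq]
  ring

theorem stBlock (hKL : StKL) : StBlock := by
  intro τ α A w hτ hα hα1 hA hw hw0
  have hτ0 : 0 < τ := by linarith
  have hp := pi_gt_d2
  have hp' := pi_lt_d2
  have hA2 : 4 * τ ≤ (A : ℝ) ^ 2 := by
    have := pow_le_pow_left₀ (by positivity) hA 2
    rwa [mul_pow, sq_sqrt hτ0.le, show (2 : ℝ) ^ 2 = 4 by norm_num] at this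
  have hA40 : (40 : ℝ) ≤ A := by
    by_contra h
    have := Nat.cast_nonneg (α := ℝ) A
    nlinarith
  have hA' : 40 ≤ A := by exact_mod_cast hA40
  have hA1 : 1 ≤ A := by omega
  have he : 0 < 1 / √(π * τ) := by positivity
  have hs : π * τ * (1 / √(π * τ)) ^ 2 = 1 := by
    rw [div_pow, sq_sqrt (by positivity)]
    field_simp
  generalize 1 / √(π * τ) = e at *
  have he' : e ≤ 0.03 := by
    by_contra h
    have h1 : 0.03 ^ 2 ≤ e ^ 2 := pow_le_pow_left₀ (by norm_num) (not_le.1 h).le 2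
    have h2 : 3.14 * 400 ≤ π * τ := mul_le_mul hp.le hτ (by norm_num) pi_pos.le
    have h3 := mul_le_mul h2 h1 (by norm_num) (by positivity)
    norm_num [hs] at h3
  have hAe : 1.04 ≤ A * e := by
    by_contra h
    have h1 : (A * e) ^ 2 ≤ 1.04 ^ 2 := pow_le_pow_left₀ (by positivity) (not_le.1 h).le 2
    have h2 := mul_le_mul_of_nonneg_right hA2 (show 0 ≤ π * e ^ 2 by positivity)
    have h3 := mul_le_mul h1 hp'.le pi_pos.le (by norm_num)
    nlinarith
  have c1 : 0 < 1 - e := by linarith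
  obtain ⟨h1, h2⟩ := xBlock_spec (A := A) hτ0.le hα hA1 c1
  have key : ∀ k : ℕ, k ≤ ⌊1.04 * τ / A⌋₊ →
      ‖∑ n ∈ Ico (xBlock_N τ α A (((k + 1 : ℕ) : ℝ) * (1 - e))) (xBlock_N τ α A (1 - e)),
        (w (n + α) : ℂ) * ex (τ * log (n + α))‖ ≤
        ∑ ν ∈ Icc 1 k, blk τ ν * w (max A (τ / (ν + 1) - 1)) := by
    intro k
    induction k with
    | zero => simp
    | succ k ih =>
      intro hk
      have a1 : (1 : ℝ) ≤ (k + 1 : ℕ) := by exact_mod_cast Nat.le_add_left 1 k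
      have a2 : ((k + 1 : ℕ) : ℝ) ≤ τ * e := by
        refine ((Nat.le_floor_iff (by positivity)).1 hk).trans ?_
        rw [div_le_iff₀ (by linarith)]
        nlinarith
      have a3 := xBlock_mono (A := A) hτ0.le hα hA1 c1 (le_mul_of_one_le_left c1.le a1)
      have a4 := xBlock_mono (A := A) (c' := ((k + 1 + 1 : ℕ) : ℝ) * (1 - e)) hτ0.le hα hA1
        (mul_pos (lt_of_lt_of_le one_pos a1) c1) (by gcongr; omega)
      rw [sum_Icc_succ_top (by omega), ← sum_Ico_consecutive _ a4 a3, add_comm]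
      exact (norm_add_le _ _).trans (add_le_add (ih (by omega))
        (xBlock_one hKL hτ0.le hα hA' hw hw0 he he' hs (by omega) a2))
  have hK : xBlock_N τ α A (((⌊1.04 * τ / A⌋₊ + 1 : ℕ) : ℝ) * (1 - e)) = A := by
    have a1 := Nat.lt_floor_add_one (1.04 * τ / A)
    have a2 := xBlock_le (n := A) hτ0.le hα hA1
    rw [div_lt_iff₀ (by linarith)] at a1
    refine le_antisymm (Nat.sInf_le ⟨le_rfl, ?_⟩) (xBlock_spec hτ0.le hα hA1 (by positivity)).1
    push_cast
    generalize ((⌊1.04 * τ / A⌋₊ : ℕ) : ℝ) + 1 = K at *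
    have a3 : 0 < K := by nlinarith
    refine le_of_mul_le_mul_right (a2.trans ?_) (show 0 < A + α by linarith)
    have a4 : K * A * 0.97 ≤ K * (A + α) * (1 - e) := by gcongr <;> linarith
    linarith
  refine ⟨xBlock_N τ α A (1 - e), h1, ?_, ?_, h2, ?_⟩
  · have a1 := xBlock_ge hτ0.le hα (hA1.trans h1)
    have a2 := xBlock_pos hα (hA1.trans h1)
    have a3 := mul_le_mul_of_nonneg_right (h2.trans (show 1 - e ≤ 1 by linarith))
      (show 0 ≤ xBlock_N τ α A (1 - e) + α + 1 / 2 by linarith)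
    linarith
  · rcases h1.eq_or_lt with h | h
    · exact Or.inl h.symm
    right
    have a1 := fun n => xBlock_lt (τ := τ) (α := α) (A := A) (n := n) (c := 1 - e)
    generalize xBlock_N τ α A (1 - e) = b at *
    obtain ⟨b, rfl⟩ : ∃ b', b = b' + 1 := ⟨b - 1, by omega⟩
    have a2 := xBlock_le (n := b) hτ0.le hα (by omega)
    have a3 := xBlock_pos (n := b) hα (by omega)
    have a4 := mul_le_mul_of_nonneg_right ((show 0.97 ≤ 1 - e by linarith).trans
      (a1 b (by omega) (by omega)).le) (show 0 ≤ b + α by linarith)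
    push_cast
    linarith
  · have := key _ le_rfl
    rwa [hK] at this

end

end Pool.Agent.MP_88bd62_nt.U
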