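import Pool.Agent.MP_88bd62_nt.U.Stmts

namespace Pool.Agent.MP_88bd62_nt.U

open Finset Real

theorem xCar_int (H : ℂ → ℂ) (b : ℂ) (r : ℝ) (hr : 0 < r)
    (hH : DifferentiableOn ℂ H (Metric.closedBall b r)) (n : ℕ) :
    ∫ θ in (0 : ℝ)..2 * π, (circleMap 0 r θ ^ n)⁻¹ * H (circleMap b r θ) =
      2 * π * (iteratedDeriv n H b / n.factorial) := by
  have h := hH.circleIntegral_one_div_sub_center_pow_smul hr n
  have e : (∮ z in C(b, r), (1 / (z - b) ^ (n + 1)) • H z) =
      Complex.I * ∫ θ in (0 : ℝ)..2 * π, (circleMap 0 r θ ^ n)⁻¹ * H (circleMap b r θ) := by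
    rw [circleIntegral, ← intervalIntegral.integral_const_mul]
    refine intervalIntegral.integral_congr fun θ _ => ?_
    have h0 : circleMap 0 r θ ≠ 0 := circleMap_ne_center hr.ne'
    simp only [deriv_circleMap, circleMap_sub_center, smul_eq_mul]
    field_simp
    ring
  rw [e, smul_eq_mul] at h
  refine mul_left_cancel₀ Complex.I_ne_zero (h.trans ?_)
  ring

theorem xCar_zero (H : ℂ → ℂ) (b : ℂ) (r : ℝ) (hr : 0 < r)
    (hH : DifferentiableOn ℂ H (Metric.closedBall b r)) (n : ℕ) :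
    ∫ θ in (0 : ℝ)..2 * π, circleMap 0 r θ ^ (n + 1) * H (circleMap b r θ) = 0 := by
  have hd : DifferentiableOn ℂ (fun z => (z - b) ^ n * H z) (Metric.closedBall b r) :=
    ((differentiableOn_id.sub_const b).pow n).mul hH
  have h := (hd.diffContOnCl_ball subset_rfl).circleIntegral_eq_zero hr.le
  have e : (∮ z in C(b, r), (z - b) ^ n * H z) =
      Complex.I * ∫ θ in (0 : ℝ)..2 * π, circleMap 0 r θ ^ (n + 1) * H (circleMap b r θ) := by
    rw [circleIntegral, ← intervalIntegral.integral_const_mul]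
    refine intervalIntegral.integral_congr fun θ _ => ?_
    simp only [deriv_circleMap, circleMap_sub_center, smul_eq_mul]
    ring
  rw [e] at h
  exact (mul_eq_zero.1 h).resolve_left Complex.I_ne_zero

theorem xCar_coef (H : ℂ → ℂ) (b : ℂ) (r : ℝ) (hr : 0 < r)
    (hH : DifferentiableOn ℂ H (Metric.closedBall b r))
    (hp : ∀ z ∈ Metric.closedBall b r, 0 ≤ (H z).re) (n : ℕ) :
    ‖iteratedDeriv (n + 1) H b / (n + 1).factorial‖ * r ^ (n + 1) ≤ 2 * (H b).re := by
  have hφ : Continuous fun θ => H (circleMap b r θ) :=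
    hH.continuousOn.comp_continuous (continuous_circleMap b r) (circleMap_mem_closedBall b hr.le)
  have h0 : ∀ θ, circleMap 0 r θ ≠ 0 := fun θ => circleMap_ne_center hr.ne'
  have hu : Continuous fun θ => (circleMap 0 r θ ^ (n + 1))⁻¹ :=
    ((continuous_circleMap 0 r).pow _).inv₀ fun θ => pow_ne_zero _ (h0 θ)
  have h1 := xCar_int H b r hr hH (n + 1)
  have h2 := xCar_zero H b r hr hH n
  have h3 := xCar_int H b r hr hH 0
  simp only [pow_zero, inv_one, one_mul, iteratedDeriv_zero, Nat.factorial_zero, Nat.cast_one,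
    div_one] at h3
  have h4 : ∫ θ in (0 : ℝ)..2 * π,
      (circleMap 0 r θ ^ (n + 1))⁻¹ * (starRingEnd ℂ) (H (circleMap b r θ)) = 0 := by
    have h5 := Complex.conjCLE.toContinuousLinearMap.intervalIntegral_comp_comm
      (μ := MeasureTheory.volume) (a := 0) (b := 2 * π)
      ((((continuous_circleMap 0 r).pow (n + 1)).mul hφ).intervalIntegrable _ _)
    have h6 : ∫ θ in (0 : ℝ)..2 * π,
        (starRingEnd ℂ) (circleMap 0 r θ ^ (n + 1) * H (circleMap b r θ)) = 0 := by
      refine h5.trans ?_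
      refine (congrArg _ h2).trans (map_zero _)
    have e : ∀ θ, (circleMap 0 r θ ^ (n + 1))⁻¹ * (starRingEnd ℂ) (H (circleMap b r θ)) =
        (((r : ℂ) ^ 2) ^ (n + 1))⁻¹ *
          (starRingEnd ℂ) (circleMap 0 r θ ^ (n + 1) * H (circleMap b r θ)) := fun θ => by
      have h7 : (r : ℂ) ^ 2 = circleMap 0 r θ * (starRingEnd ℂ) (circleMap 0 r θ) := by
        rw [Complex.mul_conj, Complex.normSq_eq_norm_sq, norm_circleMap_zero, sq_abs]
        push_cast
        rfl
      have h8 : (starRingEnd ℂ) (circleMap 0 r θ) ≠ 0 := (map_ne_zero _).2 (h0 θ)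
      have h9 := h0 θ
      rw [h7, map_mul, map_pow, mul_pow]
      field_simp
    simp only [e]
    rw [intervalIntegral.integral_const_mul, h6, mul_zero]
  have h5 : ∫ θ in (0 : ℝ)..2 * π,
      (circleMap 0 r θ ^ (n + 1))⁻¹ * ((2 * (H (circleMap b r θ)).re : ℝ) : ℂ) =
      2 * π * (iteratedDeriv (n + 1) H b / (n + 1).factorial) := by
    have h6 := intervalIntegral.integral_add (μ := MeasureTheory.volume) (a := 0) (b := 2 * π)
      (f := fun θ => (circleMap 0 r θ ^ (n + 1))⁻¹ * H (circleMap b r θ))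
      (g := fun θ => (circleMap 0 r θ ^ (n + 1))⁻¹ * (starRingEnd ℂ) (H (circleMap b r θ)))
      ((hu.mul hφ).intervalIntegrable _ _)
      ((hu.mul (Complex.continuous_conj.comp hφ)).intervalIntegrable _ _)
    rw [h1, h4, add_zero] at h6
    rw [← h6]
    refine intervalIntegral.integral_congr fun θ _ => ?_
    simp only [← Complex.add_conj]
    ring
  have h6 : ∫ θ in (0 : ℝ)..2 * π, (H (circleMap b r θ)).re = 2 * π * (H b).re := by
    have h7 := Complex.reCLM.intervalIntegral_comp_comm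
      (μ := MeasureTheory.volume) (a := 0) (b := 2 * π) (hφ.intervalIntegrable _ _)
    refine h7.trans ?_
    rw [h3]
    simp
  have h7 := intervalIntegral.norm_integral_le_integral_norm (μ := MeasureTheory.volume)
    (f := fun θ => (circleMap 0 r θ ^ (n + 1))⁻¹ * ((2 * (H (circleMap b r θ)).re : ℝ) : ℂ))
    (a := 0) (b := 2 * π) (by positivity)
  have h8 : ∫ θ in (0 : ℝ)..2 * π,
      ‖(circleMap 0 r θ ^ (n + 1))⁻¹ * ((2 * (H (circleMap b r θ)).re : ℝ) : ℂ)‖ =
      (r ^ (n + 1))⁻¹ * 2 * (2 * π * (H b).re) := by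
    rw [← h6, ← intervalIntegral.integral_const_mul]
    refine intervalIntegral.integral_congr fun θ _ => ?_
    have := hp _ (circleMap_mem_closedBall b hr.le θ)
    simp only [norm_mul, norm_inv, norm_pow, norm_circleMap_zero, abs_of_pos hr,
      Complex.norm_real, Real.norm_eq_abs, abs_of_nonneg this, abs_two]
    ring
  rw [h5, h8, norm_mul] at h7
  have h9 : ‖(2 * π : ℂ)‖ = 2 * π := by
    rw [norm_mul, Complex.norm_real, Real.norm_eq_abs, abs_of_pos Real.pi_pos]
    simp
  rw [h9] at h7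
  have hrp : 0 < r ^ (n + 1) := by positivity
  have h10 : ‖iteratedDeriv (n + 1) H b / (n + 1).factorial‖ ≤ (r ^ (n + 1))⁻¹ * 2 * (H b).re := by
    refine le_of_mul_le_mul_left (h7.trans (le_of_eq ?_)) (by positivity : 0 < 2 * π)
    ring
  calc _ ≤ (r ^ (n + 1))⁻¹ * 2 * (H b).re * r ^ (n + 1) := mul_le_mul_of_nonneg_right h10 hrp.le
    _ = _ := by field_simp

theorem xCar_coef' (G : ℂ → ℂ) (b : ℂ) (R M : ℝ) (hR : 0 < R)
    (hG : DifferentiableOn ℂ G (Metric.ball b R)) (hM : ∀ z ∈ Metric.ball b R, (G z).re ≤ M)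
    (n : ℕ) (hn : 1 ≤ n) :
    ‖iteratedDeriv n G b / n.factorial‖ * R ^ n ≤ 2 * (M - (G b).re) := by
  obtain ⟨m, rfl⟩ : ∃ m, n = m + 1 := ⟨n - 1, by omega⟩
  have ht : Filter.Tendsto
      (fun r : ℝ => ‖iteratedDeriv (m + 1) G b / (m + 1).factorial‖ * r ^ (m + 1))
      (nhdsWithin R (Set.Iio R))
      (nhds (‖iteratedDeriv (m + 1) G b / (m + 1).factorial‖ * R ^ (m + 1))) :=
    ((continuous_const.mul (continuous_pow _)).tendsto R).mono_left nhdsWithin_le_nhds
  refine le_of_tendsto ht ?_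
  filter_upwards [Ioo_mem_nhdsLT hR] with r hr
  have hs := Metric.closedBall_subset_ball (x := b) hr.2
  have h := xCar_coef (fun z => (M : ℂ) - G z) b r hr.1 ((hG.mono hs).const_sub _)
    (fun z hz => by simpa using hM z (hs hz)) m
  rw [iteratedDeriv_const_sub (Nat.succ_pos m), iteratedDeriv_neg, neg_div, norm_neg] at h
  simpa using h

theorem stCar : StCar := by
  intro G b w R M K hG hM hw hK
  have hR : 0 < R := (norm_nonneg w).trans_lt hw
  have hq0 : 0 ≤ ‖w‖ / R := by positivity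
  have hq1 : ‖w‖ / R < 1 := (div_lt_one hR).2 hw
  have h1 := Complex.hasSum_taylorSeries_on_ball hG (z := b + w) (by simpa using hw)
  have h2 : HasSum (fun i : ℕ => iteratedDeriv i G b / i.factorial * w ^ i) (G (b + w)) := by
    have e : (fun i : ℕ => iteratedDeriv i G b / i.factorial * w ^ i) =
        fun n : ℕ => (n.factorial : ℂ)⁻¹ • (b + w - b) ^ n • iteratedDeriv n G b := by
      funext i
      simp only [add_sub_cancel_left, smul_eq_mul]
      ring
    rw [e]
    exact h1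
  have h3 := (hasSum_nat_add_iff' K).2 h2
  have h4 := (hasSum_geometric_of_lt_one hq0 hq1).mul_left
    (2 * (M - (G b).re) * (‖w‖ / R) ^ K)
  rw [div_eq_mul_inv _ (1 - ‖w‖ / R)]
  refine h3.norm_le_of_bounded h4 fun i => ?_
  have h5 := xCar_coef' G b R M hR hG hM (i + K) (by omega)
  have h6 : 0 ≤ (‖w‖ / R) ^ (i + K) := by positivity
  calc _ = ‖iteratedDeriv (i + K) G b / (i + K).factorial‖ * R ^ (i + K) * (‖w‖ / R) ^ (i + K) := by
        rw [norm_mul, norm_pow, div_pow]
        field_simp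
    _ ≤ 2 * (M - (G b).re) * (‖w‖ / R) ^ (i + K) := mul_le_mul_of_nonneg_right h5 h6
    _ = _ := by ring

end Pool.Agent.MP_88bd62_nt.U
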