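import Pool.Agent.MP_88bd62_nt.U.Stmts

/-! The chain of approximants. -/

namespace Pool.Agent.MP_88bd62_nt.U

open Finset Real

lemma xChain_norm_ee (k : ℤ) (v : ℝ) : ‖ee k v‖ = 1 := Complex.norm_exp_ofReal_mul_I _

lemma xChain_norm_sh {k : ℤ} (hk : k ≠ 0) : ‖sh k‖ ≤ 1 / (π * |(k : ℝ)|) := by
  have h0 : 0 < π * |(k : ℝ)| := mul_pos pi_pos (abs_pos.2 (Int.cast_ne_zero.2 hk))
  rw [sh, norm_div, norm_one]
  refine one_div_le_one_div_of_le h0 (le_trans ?_ (Complex.abs_im_le_norm _))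
  rw [Complex.add_im, Complex.ofReal_im, zero_add, Complex.mul_I_im, Complex.ofReal_re, abs_mul,
    abs_of_pos pi_pos]

lemma xChain_rem (N N' : ℕ) (a : ℕ → ℝ) (v : ℤ → ℝ)
    (hv : ∀ k, |v k| ≤ min (1.501 * |(k : ℝ)| / (2 * N)) 1) (u : ℝ) :
    ‖∑ k ∈ Kset N', (v k : ℂ) * (FS k - Ser a k) * sh k * ee k u‖ ≤ Rem N N' 1.501 1 a := by
  refine (norm_sum_le _ _).trans (sum_le_sum fun k hk => ?_)
  have hk0 : k ≠ 0 := by
    rintro rfl
    exact absurd (mem_filter.1 hk).2 (by decide)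
  rw [norm_mul, norm_mul, norm_mul, xChain_norm_ee, mul_one, Complex.norm_real, Real.norm_eq_abs,
    div_eq_mul_one_div _ (π * _)]
  exact mul_le_mul (mul_le_mul_of_nonneg_right (hv k) (norm_nonneg _)) (xChain_norm_sh hk0)
    (norm_nonneg _) (mul_nonneg ((abs_nonneg _).trans (hv k)) (norm_nonneg _))

lemma xChain_lp {N N' : ℕ} (h : N ≤ N') (c : ℤ → ℂ) (u : ℝ) :
    LPc N c u = ∑ k ∈ Kset N', (wk N k : ℂ) * c k * sh k * ee k u := by
  refine sum_subset (fun k hk => ?_) fun k hk hk' => ?_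
  · simp only [Kset, mem_filter, mem_Ioo] at hk ⊢
    exact ⟨⟨by omega, by omega⟩, hk.2⟩
  · simp only [Kset, mem_filter, mem_Ioo] at hk hk'
    have h1 : 2 * (N : ℤ) ≤ |k| := by
      by_contra h2
      rw [not_le, abs_lt] at h2
      exact hk' ⟨h2, hk.2⟩
    rw [wk, if_pos h1]
    simp

lemma xChain_psi {N N' : ℕ} (h : N ≤ N') (a : ℕ → ℝ) (u : ℝ) : Psi N FS a u =
    Phi a u + ∑ k ∈ Kset N', (wk N k : ℂ) * (FS k - Ser a k) * sh k * ee k u := by
  rw [Psi, HP, xChain_lp h, xChain_lp h]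
  simp only [mul_sub, sub_mul, sum_sub_distrib]
  ring

lemma xChain_one (hB : StKerB) {N N' : ℕ} (hN : 1000 ≤ N) (h : N ≤ N') (a : ℕ → ℝ) (u : ℝ) :
    ‖Psi N' FS a u‖ ≤ ‖Psi N FS a u‖ + Rem N N' 1.501 1 a := by
  have e : Psi N' FS a u = Psi N FS a u + ∑ k ∈ Kset N',
      ((wk N' k - wk N k : ℝ) : ℂ) * (FS k - Ser a k) * sh k * ee k u := by
    rw [xChain_psi h, xChain_psi le_rfl, add_assoc, ← sum_add_distrib]
    congr 1
    refine sum_congr rfl fun k _ => ?_
    push_cast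
    ring
  rw [e]
  refine (norm_add_le _ _).trans (add_le_add le_rfl (xChain_rem N N' a _ (fun k => ?_) u))
  obtain ⟨h1, h2, h3, -⟩ := hB N hN k
  obtain ⟨h4, h5, h6, -⟩ := hB N' (hN.trans h) k
  have h7 : 1.501 * |(k : ℝ)| / (2 * N') ≤ 1.501 * |(k : ℝ)| / (2 * N) := by
    have : (0 : ℝ) < N := by exact_mod_cast (show 0 < N by omega)
    have : (N : ℝ) ≤ N' := by exact_mod_cast h
    gcongr
  rw [le_min_iff, abs_le, abs_le]
  refine ⟨⟨?_, ?_⟩, ?_, ?_⟩ <;> linarith

lemma xChain_sg (v : ℝ) : |sg v| ≤ 1 := by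
  have h1 : (2 : ℝ) ^ ((⌊v⌋ : ℝ) - v) ≤ 1 :=
    rpow_le_one_of_one_le_of_nonpos one_le_two (sub_nonpos.2 (Int.floor_le v))
  have h2 : (0 : ℝ) < (2 : ℝ) ^ ((⌊v⌋ : ℝ) - v) := rpow_pos_of_pos two_pos _
  rw [sg, abs_mul, abs_mul, abs_zpow, abs_neg, abs_one, one_zpow, abs_of_pos h2,
    abs_of_pos (by norm_num : (0 : ℝ) < 2 / 3)]
  linarith

lemma xChain_sumPhi {a : ℕ → ℝ} (ha : AC a) (u : ℝ) :
    Summable fun n : ℕ => a n / n * sg (u - th n) := by
  refine Summable.of_norm_bounded ha fun n => ?_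
  rw [Real.norm_eq_abs, abs_mul, abs_div, Nat.abs_cast]
  exact mul_le_of_le_one_right (by positivity) (xChain_sg _)

lemma xChain_sumSer {a : ℕ → ℝ} (ha : AC a) (k : ℤ) :
    Summable fun n : ℕ => ((a n / n : ℝ) : ℂ) * ee k (-th n) := by
  refine Summable.of_norm_bounded ha fun n => ?_
  rw [norm_mul, xChain_norm_ee, mul_one, Complex.norm_real, Real.norm_eq_abs, abs_div,
    Nat.abs_cast]

lemma xChain_two {a a' : ℕ → ℝ} (ha : AC a) (ha' : AC a') (N : ℕ) (u : ℝ) :
    Psi N FS a' u = Psi N FS a u + HP N (a' - a) u := by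
  have e1 : Phi (a' - a) u = Phi a' u - Phi a u := by
    rw [Phi, Phi, Phi, ← (xChain_sumPhi ha' u).tsum_sub (xChain_sumPhi ha u)]
    refine tsum_congr fun n => ?_
    rw [Pi.sub_apply, sub_div, sub_mul]
  have e2 : ∀ k, Ser (a' - a) k = Ser a' k - Ser a k := fun k => by
    rw [Ser, Ser, Ser, ← (xChain_sumSer ha' k).tsum_sub (xChain_sumSer ha k)]
    refine tsum_congr fun n => ?_
    rw [Pi.sub_apply, sub_div, Complex.ofReal_sub, sub_mul]
  simp only [Psi, HP, LPc, e1, e2, mul_sub, sub_mul, sum_sub_distrib, Complex.ofReal_sub]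
  ring

lemma xChain_cont_ee (k : ℤ) : Continuous (ee k) := by
  unfold ee
  fun_prop

lemma xChain_cont_ker (N : ℕ) : Continuous (ker N) := by
  unfold ker
  fun_prop

lemma xChain_int_ee (j : ℤ) : ∫ y in (-1 : ℝ)..1, ee j y = if j = 0 then 2 else 0 := by
  split_ifs with h
  · simp [ee, h]
    norm_num
  · have hc : (π * j * Complex.I : ℂ) ≠ 0 := mul_ne_zero (mul_ne_zero
      (Complex.ofReal_ne_zero.2 pi_ne_zero) (Int.cast_ne_zero.2 h)) Complex.I_ne_zero
    have e : ∀ y : ℝ, ee j y = Complex.exp (π * j * Complex.I * y) := fun y => by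
      rw [ee]
      congr 1
      push_cast
      ring
    simp only [e]
    rw [integral_exp_mul_complex hc, div_eq_zero_iff, sub_eq_zero]
    left
    rw [← mul_one (Complex.exp (_ * ((-1 : ℝ) : ℂ))), ← Complex.exp_int_mul_two_pi_mul_I j,
      ← Complex.exp_add]
    congr 1
    push_cast
    ring

lemma xChain_cos (m k : ℤ) (u y : ℝ) : (cos (π * m * y) : ℂ) * ee k (u - y) =
    ee k u / 2 * (ee (m - k) y + ee (-m - k) y) := by
  have e1 : ee k u * ee (m - k) y = Complex.exp ((π * m * y : ℝ) * Complex.I) * ee k (u - y) := by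
    simp only [ee, ← Complex.exp_add]
    congr 1
    push_cast
    ring
  have e2 : ee k u * ee (-m - k) y =
      Complex.exp (-(π * m * y : ℝ) * Complex.I) * ee k (u - y) := by
    simp only [ee, ← Complex.exp_add]
    congr 1
    push_cast
    ring
  rw [Complex.ofReal_cos, Complex.cos]
  linear_combination (-1 / 2) * e1 - (1 / 2) * e2

lemma xChain_orth {N : ℕ} {k : ℤ} (hk : k ∈ Kset N) (u : ℝ) :
    ∫ y in (-1 : ℝ)..1, (ker N y : ℂ) * ee k (u - y) = 2 * wk N k * ee k u := by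
  have hk1 : k ∈ Ioo (-(2 * N : ℤ)) (2 * N) := (mem_filter.1 hk).1
  have hk2 : -k ∈ Ioo (-(2 * N : ℤ)) (2 * N) := by
    rw [mem_Ioo] at hk1 ⊢
    omega
  have e : ∀ y : ℝ, (ker N y : ℂ) * ee k (u - y) = ∑ m ∈ Ioo (-(2 * N : ℤ)) (2 * N),
      (wk N m : ℂ) * (ee k u / 2) * (ee (m - k) y + ee (-m - k) y) := fun y => by
    rw [ker, Complex.ofReal_sum, sum_mul]
    refine sum_congr rfl fun m _ => ?_
    rw [Complex.ofReal_mul, mul_assoc, xChain_cos, mul_assoc]
  simp only [e]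
  have hc : ∀ m : ℤ, Continuous fun y : ℝ =>
      (wk N m : ℂ) * (ee k u / 2) * (ee (m - k) y + ee (-m - k) y) := fun m =>
    continuous_const.mul ((xChain_cont_ee _).add (xChain_cont_ee _))
  rw [intervalIntegral.integral_finsetSum fun m _ => (hc m).intervalIntegrable _ _]
  have e2 : ∀ m : ℤ, ∫ y in (-1 : ℝ)..1,
      (wk N m : ℂ) * (ee k u / 2) * (ee (m - k) y + ee (-m - k) y) =
      (if m = k then (wk N m : ℂ) * ee k u else 0) +
        if m = -k then (wk N m : ℂ) * ee k u else 0 := fun m => by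
    rw [intervalIntegral.integral_const_mul, intervalIntegral.integral_add
      ((xChain_cont_ee _).intervalIntegrable _ _) ((xChain_cont_ee _).intervalIntegrable _ _),
      xChain_int_ee, xChain_int_ee]
    have h1 : m - k = 0 ↔ m = k := sub_eq_zero
    have h2 : -m - k = 0 ↔ m = -k := by omega
    simp only [h1, h2]
    split_ifs <;> ring
  have e3 : wk N (-k) = wk N k := by simp [wk]
  simp only [e2]
  rw [sum_add_distrib, sum_ite_eq', sum_ite_eq', if_pos hk1, if_pos hk2, e3]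
  ring

lemma xChain_mean (hA : StKerA) {N : ℕ} (hN : 1 ≤ N) : ∫ y in (-1 : ℝ)..1, ker N y = 2 := by
  have h1 := (hA N hN).2.1
  have h2 : ∫ y in (-1 : ℝ)..0, ker N y = 1 := by
    have h3 := intervalIntegral.integral_comp_neg (a := 0) (b := 1) (ker N)
    have h4 : ∀ y, ker N (-y) = ker N y := fun y => by simp [ker]
    simp only [h4, neg_zero] at h3
    rw [← h3, h1]
  rw [← intervalIntegral.integral_add_adjacent_intervals (b := 0)
    ((xChain_cont_ker N).intervalIntegrable _ _) ((xChain_cont_ker N).intervalIntegrable _ _),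
    h1, h2]
  norm_num

lemma xChain_three (hA : StKerA) (hB : StKerB) (hLP : StLP) {N N' : ℕ} (hN : 1000 ≤ N)
    (h : N ≤ N') {a : ℕ → ℝ} (ha : AC a) {M : ℝ} (hM : ∀ u, ‖Psi N FS a u‖ ≤ M) (u : ℝ) :
    ‖LPc N' FS u‖ ≤ M + Rem N N' 1.501 1 a := by
  have hN' : 1 ≤ N' := by omega
  obtain ⟨h1, h2⟩ := hLP N' a hN' ha u
  have h3 : ‖∫ y in (-1 : ℝ)..1, (ker N' y : ℂ) * Psi N FS a (u - y)‖ ≤ 2 * M := by
    refine (intervalIntegral.norm_integral_le_of_norm_le (g := fun y => ker N' y * M)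
      (by norm_num) (Filter.Eventually.of_forall fun y _ => ?_)
      (((xChain_cont_ker N').mul continuous_const).intervalIntegrable _ _)).trans_eq ?_
    · have h4 := ((hA N' hN').1 y).1
      rw [norm_mul, Complex.norm_real, Real.norm_eq_abs, abs_of_nonneg h4]
      exact mul_le_mul_of_nonneg_left (hM _) h4
    · rw [intervalIntegral.integral_mul_const, xChain_mean hA hN']
  have hc : ∀ k, Continuous fun y : ℝ =>
      (wk N k : ℂ) * (FS k - Ser a k) * sh k * ((ker N' y : ℂ) * ee k (u - y)) := fun k =>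
    continuous_const.mul ((Complex.continuous_ofReal.comp (xChain_cont_ker N')).mul
      ((xChain_cont_ee k).comp (continuous_const.sub continuous_id)))
  have h4 : ∫ y in (-1 : ℝ)..1, (ker N' y : ℂ) * Psi N FS a (u - y) = 2 * (LPc N' (Ser a) u +
      ∑ k ∈ Kset N', (wk N k : ℂ) * (FS k - Ser a k) * sh k * (wk N' k * ee k u)) := by
    have e : ∀ y : ℝ, (ker N' y : ℂ) * Psi N FS a (u - y) =
        ((ker N' y * Phi a (u - y) : ℝ) : ℂ) + ∑ k ∈ Kset N',
          (wk N k : ℂ) * (FS k - Ser a k) * sh k * ((ker N' y : ℂ) * ee k (u - y)) := fun y => by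
      rw [xChain_psi h, mul_add, mul_sum, Complex.ofReal_mul]
      congr 1
      exact sum_congr rfl fun k _ => by ring
    have h5 : IntervalIntegrable (fun y => ((ker N' y * Phi a (u - y) : ℝ) : ℂ))
        MeasureTheory.volume (-1) 1 := ⟨h1.1.ofReal, h1.2.ofReal⟩
    simp only [e]
    rw [intervalIntegral.integral_add h5
      ((continuous_finsetSum _ fun k _ => hc k).intervalIntegrable _ _),
      intervalIntegral.integral_ofReal,
      intervalIntegral.integral_finsetSum fun k _ => (hc k).intervalIntegrable _ _, ← h2, mul_add,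
      mul_sum]
    congr 1
    · push_cast
      ring
    · refine sum_congr rfl fun k hk => ?_
      rw [intervalIntegral.integral_const_mul, xChain_orth hk]
      ring
  rw [h4, norm_mul, Complex.norm_ofNat] at h3
  have e : LPc N' FS u = (LPc N' (Ser a) u +
      ∑ k ∈ Kset N', (wk N k : ℂ) * (FS k - Ser a k) * sh k * (wk N' k * ee k u)) +
      ∑ k ∈ Kset N', ((wk N' k * (1 - wk N k) : ℝ) : ℂ) * (FS k - Ser a k) * sh k * ee k u := by
    rw [LPc, LPc, ← sum_add_distrib, ← sum_add_distrib]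
    refine sum_congr rfl fun k _ => ?_
    push_cast
    ring
  rw [e]
  refine (norm_add_le _ _).trans (add_le_add (by linarith) (xChain_rem N N' a _ (fun k => ?_) u))
  obtain ⟨h5, h6, h7, -⟩ := hB N hN k
  obtain ⟨h8, h9, -⟩ := hB N' (hN.trans h) k
  have h10 : wk N' k * (1 - wk N k) ≤ 1 - wk N k := mul_le_of_le_one_left (by linarith) h9
  rw [abs_of_nonneg (mul_nonneg h8 (by linarith)), le_min_iff]
  constructor <;> linarith

theorem stChain (hKerA : StKerA) (hKerB : StKerB) (hLP : StLP) : StChain := by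
  intro N a B R h r hN hm ha h0 hh hr hR
  have hN' : ∀ i, 1000 ≤ N i := fun i => hN.trans (hm (Nat.zero_le i))
  have key : ∀ i u, ‖Psi (N i) FS (a i) u‖ + Rem (N i) (N (i + 1)) 1.501 1 (a i) ≤
      B + ∑ j ∈ range i, (h j + r j) := by
    intro i
    induction i with
    | zero => simpa using h0
    | succ i ih =>
      intro u
      have h1 := xChain_one hKerB (hN' i) (hm (Nat.le_succ i)) (a i) u
      have h2 := norm_add_le (Psi (N (i + 1)) FS (a i) u) (HP (N (i + 1)) (a (i + 1) - a i) u)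
      rw [← xChain_two (ha i) (ha (i + 1))] at h2
      have h3 := ih u
      have h4 := hh i u
      have h5 := hr i
      rw [sum_range_succ]
      linarith
  intro i u
  have h1 := xChain_three hKerA hKerB hLP (hN' i) (hm (Nat.le_succ i)) (ha i)
    (fun u => le_sub_iff_add_le.2 (key i u)) u
  have h2 := hR i
  linarith

end Pool.Agent.MP_88bd62_nt.U
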