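import Pool.Agent.MP_88bd62_nt.U.Stmts

/-! The Chernoff bound for the weights. -/

namespace Pool.Agent.MP_88bd62_nt.U

open Finset Real

lemma xChern_gam {x y : ℝ} (K : ℕ) (h : 0 ≤ x * y) : 0 ≤ gam x K y ∧ gam x K y ≤ 1 := by
  unfold gam
  refine ⟨by positivity, ?_⟩
  calc _ ≤ exp (-(x * y)) * exp (x * y) :=
        mul_le_mul_of_nonneg_left (Real.sum_le_exp_of_nonneg h K) (exp_pos _).le
    _ = 1 := by rw [← exp_add]; simp

lemma xChern_cher {l g : ℝ} (K : ℕ) (hl : 0 ≤ l) (h0 : 0 < g) (h1 : g < 1) :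
    exp (-l) * ∑ i ∈ range K, l ^ i / i.factorial ≤ exp (K * log (1 / (1 - g)) - g * l) := by
  have hg : 0 < 1 - g := sub_pos.2 h1
  have hr : 1 ≤ 1 / (1 - g) := by rw [le_div_iff₀ hg]; linarith
  have h2 : ∑ i ∈ range K, l ^ i / i.factorial ≤ (1 / (1 - g)) ^ K * exp ((1 - g) * l) := by
    refine le_trans ?_ (mul_le_mul_of_nonneg_left
      (Real.sum_le_exp_of_nonneg (mul_nonneg hg.le hl) K) (by positivity))
    rw [mul_sum]
    refine sum_le_sum fun i hi => ?_
    have e : l ^ i / i.factorial = (1 / (1 - g)) ^ i * (((1 - g) * l) ^ i / i.factorial) := by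
      rw [← mul_div_assoc, ← mul_pow, ← mul_assoc, one_div_mul_cancel hg.ne', one_mul]
    rw [e]
    exact mul_le_mul_of_nonneg_right (pow_le_pow_right₀ hr (mem_range.1 hi).le) (by positivity)
  calc _ ≤ exp (-l) * ((1 / (1 - g)) ^ K * exp ((1 - g) * l)) :=
        mul_le_mul_of_nonneg_left h2 (exp_pos _).le
    _ = _ := by
        rw [exp_sub, exp_nat_mul, exp_log (by positivity), mul_left_comm, ← exp_add,
          show -l + (1 - g) * l = -(g * l) by ring, exp_neg]
        rfl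

theorem stChern : StChern := by
  intro j K J x g θ _ hx h0 h1 hJ hθ _ hK
  have h01 : ∀ p : ℕ, 0 ≤ ct j x K p ∧ ct j x K p ≤ 1 := by
    intro p
    unfold ct
    split_ifs
    · exact ⟨zero_le_one, le_rfl⟩
    · exact xChern_gam K (mul_nonneg hx.le (log_natCast_nonneg p))
  refine ⟨h01, fun i p hp => ?_⟩
  rcases le_or_gt i J with hi | hi
  · rw [Nat.sub_eq_zero_of_le hi, pow_zero]
    exact (h01 p).2
  have hi' : (2 * j + 2 : ℝ) ≤ i := by exact_mod_cast (by omega : 2 * j + 2 ≤ i)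
  have h4 : ¬ p ≤ 4 ^ j := by
    rw [not_le, ← Nat.cast_lt (α := ℝ)]
    refine lt_of_lt_of_le ?_ hp
    have e : ((4 ^ j : ℕ) : ℝ) = 2 ^ ((2 * j : ℕ) : ℝ) := by
      rw [rpow_natCast, pow_mul]
      norm_num
    rw [e]
    refine rpow_lt_rpow_of_exponent_lt one_lt_two ?_
    push_cast
    linarith
  have hl : ((i : ℝ) - 1 / 64) * log 2 ≤ log p := by
    rw [← log_rpow two_pos]
    exact log_le_log (by positivity) hp
  unfold ct gam
  rw [if_neg h4]
  refine (xChern_cher K (mul_nonneg hx.le (log_natCast_nonneg p)) h0 h1).trans ?_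
  refine le_trans ?_ (pow_le_pow_left₀ (by positivity) hθ _)
  rw [rpow_def_of_pos two_pos, ← exp_nat_mul, Nat.cast_sub hi.le]
  refine exp_le_exp.2 ?_
  have := mul_le_mul_of_nonneg_left hl (mul_pos h0 hx).le
  linarith

end Pool.Agent.MP_88bd62_nt.U
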