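import Pool.Agent.MP_88bd62_nt.U.Stmts

/-! Counting odd integers and integers prime to `210` in intervals. -/

namespace Pool.Agent.MP_88bd62_nt.U

open Finset Real

lemma xCount_per (p : ℕ → Prop) [DecidablePred p] (T u v l r : ℕ) (hT : 0 < T)
    (hp : ∀ k, p (T + k) ↔ p k) (h0 : u * Nat.count p T = v * T)
    (h1 : ∀ m < T, v * m ≤ u * Nat.count p m + l ∧ u * Nat.count p m ≤ v * m + r) (m : ℕ) :
    v * m ≤ u * Nat.count p m + l ∧ u * Nat.count p m ≤ v * m + r := by
  induction m using Nat.strong_induction_on with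
  | _ m ih =>
    rcases lt_or_ge m T with h | h
    · exact h1 m h
    · obtain ⟨k, rfl⟩ := Nat.exists_eq_add_of_le h
      have h2 := ih k (by omega)
      have h3 : Nat.count (fun j => p (T + j)) k = Nat.count p k := by simp only [hp]
      rw [Nat.count_add, h3, mul_add, mul_add, h0]
      omega

lemma xCount_Ioc (p : ℕ → Prop) [DecidablePred p] {a b : ℕ} (h : a ≤ b) :
    Nat.count p (a + 1) + ((Ioc a b).filter p).card = Nat.count p (b + 1) := by
  induction b, h using Nat.le_induction with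
  | base => simp
  | succ b h ih =>
    rw [Nat.count_succ p (b + 1), ← ih, ← insert_Ioc_right_eq_Ioc_add_one h, filter_insert]
    split_ifs
    · rw [card_insert_of_notMem (by simp), add_assoc]
    · rfl

lemma xCount_real (p : ℕ → Prop) [DecidablePred p] (u v l r : ℕ)
    (h1 : ∀ m, v * m ≤ u * Nat.count p m + l ∧ u * Nat.count p m ≤ v * m + r) {X h : ℝ}
    (hX : 0 ≤ X) (hh : 0 ≤ h) :
    u * (((Ioc ⌊X⌋₊ ⌊X + h⌋₊).filter p).card : ℝ) ≤ v * (h + 1) + l + r := by
  have h2 := xCount_Ioc p (Nat.floor_le_floor (by linarith : X ≤ X + h))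
  have h3 := (h1 (⌊X⌋₊ + 1)).1
  have h4 := (h1 (⌊X + h⌋₊ + 1)).2
  rw [← h2, mul_add] at h4
  have h5 : v * (⌊X⌋₊ + 1) + u * ((Ioc ⌊X⌋₊ ⌊X + h⌋₊).filter p).card ≤
      v * (⌊X + h⌋₊ + 1) + l + r := by omega
  have h6 : (v * (⌊X⌋₊ + 1) + u * ((Ioc ⌊X⌋₊ ⌊X + h⌋₊).filter p).card : ℝ) ≤
      v * (⌊X + h⌋₊ + 1) + l + r := by exact_mod_cast h5
  have h7 := mul_le_mul_of_nonneg_left (Nat.lt_floor_add_one X).le (Nat.cast_nonneg (α := ℝ) v)
  have h8 := mul_le_mul_of_nonneg_left (Nat.floor_le (by linarith : 0 ≤ X + h))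
    (Nat.cast_nonneg (α := ℝ) v)
  linarith

lemma xCount_odd (m : ℕ) : 1 * m ≤ 2 * Nat.count Odd m + 1 ∧ 2 * Nat.count Odd m ≤ 1 * m + 0 :=
  xCount_per Odd 2 2 1 1 0 two_pos (fun k => by simp only [Nat.odd_iff]; omega)
    (by decide) (by decide) m

lemma xCount_cop (m : ℕ) : 8 * m ≤ 35 * Nat.count (fun n => n.Coprime 210) m + 53 ∧
    35 * Nat.count (fun n => n.Coprime 210) m ≤ 8 * m + 45 :=
  xCount_per _ 210 35 8 53 45 (by norm_num) (fun _ => Nat.coprime_self_add_left)
    (by decide +kernel) (by decide +kernel) m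

lemma xCount_ten : ∑ n ∈ (Icc 1 10).filter (fun n : ℕ => n.Coprime 210), (1 / n : ℝ) = 1 := by
  rw [show (Icc 1 10).filter (fun n : ℕ => n.Coprime 210) = {1} by decide +kernel]
  simp

lemma xCount_abel {m : ℕ} (hm : 10 ≤ m) :
    ∑ n ∈ (Icc 1 m).filter (fun n => n.Coprime 210), (1 / n : ℝ) +
      ((8 * (m + 1) + 45) / 35 - Nat.count (fun n => n.Coprime 210) (m + 1)) / m ≤
        1.28 + 8 / 35 * (log m - log 10) := by
  induction m, hm using Nat.le_induction with
  | base =>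
    rw [xCount_ten, show Nat.count (fun n => n.Coprime 210) (10 + 1) = 1 by decide +kernel]
    norm_num
  | succ m hm ih =>
    have h0 : (10 : ℝ) ≤ m := by exact_mod_cast hm
    have h1 : (35 * Nat.count (fun n => n.Coprime 210) (m + 1) : ℝ) ≤ 8 * (m + 1) + 45 := by
      exact_mod_cast (xCount_cop (m + 1)).2
    have h2 := Real.one_sub_inv_le_log_of_pos (show (0 : ℝ) < (m + 1) / m by positivity)
    rw [log_div (by positivity) (by positivity),
      show 1 - (((m : ℝ) + 1) / m)⁻¹ = 1 / (m + 1) by field_simp; ring] at h2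
    rw [sum_filter] at ih
    rw [sum_filter, sum_Icc_succ_top (by omega), Nat.count_succ _ (m + 1)]
    push_cast
    generalize (Nat.count (fun n => n.Coprime 210) (m + 1) : ℝ) = N at *
    have h3 : ((8 * (m + 1) + 45) / 35 - N) / (m + 1) ≤ ((8 * (m + 1) + 45) / 35 - N) / m :=
      div_le_div_of_nonneg_left (by linarith) (by linarith) (by linarith)
    have h4 : ∀ a : ℝ, ((8 * ((m : ℝ) + 1 + 1) + 45) / 35 - (N + a)) / (m + 1) =
        ((8 * (m + 1) + 45) / 35 - N) / (m + 1) + 8 / 35 * (1 / (m + 1)) - a * (1 / (m + 1)) :=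
      fun a => by
        field_simp
        ring
    rw [h4]
    split_ifs <;> linarith

theorem stCount : StCount := by
  refine ⟨fun X h hX hh => ⟨?_, ?_⟩, fun t ht => ?_⟩
  · have h1 := xCount_real Odd 2 1 1 0 xCount_odd hX hh
    push_cast at h1
    linarith
  · have h1 := xCount_real _ 35 8 53 45 xCount_cop hX hh
    push_cast at h1
    linarith
  · rcases le_total ⌊t⌋₊ 10 with h | h
    · have h1 := log_nonneg ht
      refine (sum_le_sum_of_subset_of_nonneg (filter_subset_filter _ (Icc_subset_Icc_right h))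
        fun _ _ _ => by positivity).trans ?_
      rw [xCount_ten]
      linarith
    · have h0 : (10 : ℝ) ≤ ⌊t⌋₊ := by exact_mod_cast h
      have h1 := xCount_abel h
      have h2 : (35 * Nat.count (fun n => n.Coprime 210) (⌊t⌋₊ + 1) : ℝ) ≤
          8 * (⌊t⌋₊ + 1) + 45 := by exact_mod_cast (xCount_cop (⌊t⌋₊ + 1)).2
      have h3 : (0 : ℝ) ≤ ((8 * (⌊t⌋₊ + 1) + 45) / 35 -
          Nat.count (fun n => n.Coprime 210) (⌊t⌋₊ + 1)) / ⌊t⌋₊ :=
        div_nonneg (by linarith) (by linarith)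
      have h4 : log ⌊t⌋₊ ≤ log t := log_le_log (by linarith) (Nat.floor_le (by linarith))
      have h5 : log (2 ^ 2) ≤ log 10 := log_le_log (by norm_num) (by norm_num)
      rw [log_pow] at h5
      have h6 := log_two_gt_d9
      push_cast at h5
      linarith

end Pool.Agent.MP_88bd62_nt.U
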