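import Pool.Agent.MP_88bd62_nt.U.Stmts

/-! Crude bounds for the divisor function on numbers prime to `210`. -/

namespace Pool.Agent.MP_88bd62_nt.U

open Finset Real
open scoped ENNReal

lemma xCrude_pow (k : ℕ) : (k + 2) ^ 5 ≤ 32 * 11 ^ k := by
  induction k with
  | zero => norm_num
  | succ k ih =>
    have h : (2 * (k + 1 + 2)) ^ 5 ≤ (3 * (k + 2)) ^ 5 := Nat.pow_le_pow_left (by omega) 5
    rw [mul_pow, mul_pow] at h
    rw [pow_succ 11]
    omega

lemma xCrude_div (n : ℕ) (hn : n.Coprime 210) :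
    (n.divisors.card : ℝ) ≤ 2.05 * (n : ℝ) ^ (1 / 5 : ℝ) := by
  have hn0 : n ≠ 0 := by rintro rfl; simp at hn
  set S : Finset ℕ := {11, 13, 17, 19, 23, 29, 31} with hS
  have h1 : ∀ p ∈ n.primeFactors, ((n.factorization p + 1 : ℕ) : ℝ) ^ 5 ≤
      (p : ℝ) ^ n.factorization p * if p ∈ S then 32 / (p : ℝ) else 1 := by
    intro p hp
    have hpp := Nat.prime_of_mem_primeFactors hp
    have hd := Nat.dvd_of_mem_primeFactors hp
    have hc : p.Coprime 210 := Nat.Coprime.coprime_dvd_left hd hn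
    have h11 : 11 ≤ p ∧ (p ∉ S → 32 ≤ p) := by
      by_cases h : 32 ≤ p
      · exact ⟨by omega, fun _ => h⟩
      · have h' : p < 32 := by omega
        revert hpp hc
        interval_cases p <;> simp [hS] <;> norm_num
    obtain ⟨k, hk⟩ : ∃ k, n.factorization p = k + 1 :=
      Nat.exists_eq_succ_of_ne_zero (hpp.factorization_pos_of_dvd hn0 hd).ne'
    have h2 : ((k + 1 + 1 : ℕ) : ℝ) ^ 5 ≤ 32 * (p : ℝ) ^ k := by
      exact_mod_cast (xCrude_pow k).trans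
        (Nat.mul_le_mul_left 32 (Nat.pow_le_pow_left h11.1 k))
    have hp0 : (0 : ℝ) < p := by exact_mod_cast hpp.pos
    rw [hk]
    refine h2.trans ?_
    split_ifs with h
    · exact le_of_eq (by rw [pow_succ (p : ℝ)]; field_simp)
    · rw [mul_one, pow_succ']
      exact mul_le_mul_of_nonneg_right (by exact_mod_cast h11.2 h) (by positivity)
  have h3 : ∏ p ∈ n.primeFactors, (p : ℝ) ^ n.factorization p = n := by
    exact_mod_cast (Nat.prod_factorization_pow_eq_self hn0)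
  have h4 : ∏ p ∈ n.primeFactors, (if p ∈ S then 32 / (p : ℝ) else 1) ≤ 2.05 ^ 5 := by
    rw [prod_ite_mem]
    refine (prod_le_prod_of_subset_of_one_le (t := S) inter_subset_right
      (fun i _ => by positivity) fun i hi _ => ?_).trans (by rw [hS]; norm_num)
    simp only [hS, mem_insert, mem_singleton] at hi
    rcases hi with rfl | rfl | rfl | rfl | rfl | rfl | rfl <;> norm_num
  have h5 : (n.divisors.card : ℝ) ^ 5 ≤ (2.05 * (n : ℝ) ^ (1 / 5 : ℝ)) ^ 5 := by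
    rw [mul_pow, ← rpow_natCast ((n : ℝ) ^ (1 / 5 : ℝ)), ← rpow_mul (Nat.cast_nonneg n),
      Nat.card_divisors hn0, Nat.cast_prod, ← prod_pow]
    refine (prod_le_prod (fun i _ => by positivity) h1).trans ?_
    rw [prod_mul_distrib, h3, mul_comm]
    norm_num only [Nat.cast_ofNat, rpow_one] at h4 ⊢
    exact mul_le_mul_of_nonneg_right h4 (Nat.cast_nonneg n)
  exact le_of_pow_le_pow_left₀ (by norm_num) (by positivity) h5

lemma xCrude_exp {l : ℝ} (h0 : 0 ≤ l) (h1 : l ≤ 1 / 64) :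
    (2 : ℝ) ^ l - 1 ≤ 1.011 * 0.6932 * l ∧ (2 : ℝ) ^ l ≤ 1.011 := by
  have hl := log_two_lt_d9
  have hl0 : 0 < log 2 := log_pos (by norm_num)
  have hy : log 2 * l ≤ 0.6932 * l := mul_le_mul_of_nonneg_right (by linarith) h0
  have hy0 : 0 ≤ log 2 * l := by positivity
  have h2 : (2 : ℝ) ^ l * (1 - log 2 * l) ≤ 1 := by
    rw [rpow_def_of_pos (by norm_num)]
    have := add_one_le_exp (-(log 2 * l))
    calc exp (log 2 * l) * (1 - log 2 * l) ≤ exp (log 2 * l) * exp (-(log 2 * l)) :=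
          mul_le_mul_of_nonneg_left (by linarith) (exp_pos _).le
      _ = 1 := by rw [← exp_add, add_neg_cancel, exp_zero]
  have h3 : (0 : ℝ) < 2 ^ l := by positivity
  have h4 : (2 : ℝ) ^ l ≤ 1.011 := by nlinarith
  exact ⟨by nlinarith, h4⟩

lemma xCrude_lev (Q : ℕ → Prop) (j : ℕ) (sl el x l : ℝ) (hs : 0 ≤ sl) (he : 0 ≤ el)
    (hc : ∀ X h : ℝ, 0 ≤ X → 0 ≤ h →
      (((Ioc ⌊X⌋₊ ⌊X + h⌋₊).filter fun n => n.Coprime 210).card : ℝ) ≤ sl * h + el)
    (hx : (2 : ℝ) ^ ((j : ℝ) - 1 / 64) ≤ x) (hx' : x < (2 : ℝ) ^ ((j : ℝ) + 1 - 1 / 64))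
    (h0 : 0 ≤ l) (h1 : l ≤ 1 / 64) :
    ∑ n ∈ Ioc ⌊x⌋₊ ⌊x * 2 ^ l⌋₊, nuD Q n ≤ ENNReal.ofReal
      (1.011 * 0.6932 * sl * (2.05 * 1.1487 ^ (j + 1)) * l
        + 1.011 * el * (2.05 * 1.1487 ^ (j + 1)) / 2 ^ j) := by
  have hx0 : 0 < x := lt_of_lt_of_le (by positivity) hx
  obtain ⟨e1, -⟩ := xCrude_exp h0 h1
  obtain ⟨-, e2⟩ := xCrude_exp (l := 1 / 64) (by norm_num) le_rfl
  have hl1 : (1 : ℝ) ≤ 2 ^ l := one_le_rpow (by norm_num) h0
  set d : ℝ := 2.05 * 1.1487 ^ (j + 1) with hd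
  have hd0 : 0 ≤ d := by positivity
  have hterm : ∀ n ∈ Ioc ⌊x⌋₊ ⌊x * 2 ^ l⌋₊, nuD Q n ≤
      if n.Coprime 210 then ENNReal.ofReal (d / x) else 0 := by
    intro n hn
    rw [nuD]
    split_ifs with g1 g2
    · obtain ⟨n1, n2⟩ := mem_Ioc.1 hn
      have n3 : x < n := Nat.lt_of_floor_lt n1
      have n4 : (n : ℝ) ≤ (1.1487 ^ (j + 1)) ^ 5 := by
        calc (n : ℝ) ≤ x * 2 ^ l := (Nat.le_floor_iff (by positivity)).1 n2
          _ ≤ 2 ^ ((j : ℝ) + 1 - 1 / 64) * 2 ^ (1 / 64 : ℝ) :=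
            mul_le_mul hx'.le (rpow_le_rpow_of_exponent_le (by norm_num) h1) (by positivity)
              (by positivity)
          _ = 2 ^ (j + 1) := by
            rw [← rpow_add (by norm_num), sub_add_cancel, ← rpow_natCast]; push_cast; rfl
          _ ≤ (1.1487 ^ 5) ^ (j + 1) := pow_le_pow_left₀ (by norm_num) (by norm_num) _
          _ = _ := by rw [← pow_mul, ← pow_mul, mul_comm]
      have n5 : (n : ℝ) ^ (1 / 5 : ℝ) ≤ 1.1487 ^ (j + 1) := by
        refine (rpow_le_rpow (Nat.cast_nonneg n) n4 (by norm_num)).trans_eq ?_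
        rw [← rpow_natCast _ 5, ← rpow_mul (by positivity)]
        norm_num
      refine ENNReal.ofReal_le_ofReal (div_le_div₀ hd0 ((xCrude_div n g2).trans ?_) hx0 n3.le)
      exact mul_le_mul_of_nonneg_left n5 (by norm_num)
    · exact absurd g1.1 g2
    · exact zero_le
    · exact le_rfl
  refine (sum_le_sum hterm).trans ?_
  rw [← sum_filter, sum_const, nsmul_eq_mul, ← ENNReal.ofReal_natCast,
    ← ENNReal.ofReal_mul (Nat.cast_nonneg _)]
  refine ENNReal.ofReal_le_ofReal ?_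
  have h5 := hc x (x * (2 ^ l - 1)) hx0.le (mul_nonneg hx0.le (by linarith))
  rw [show x + x * (2 ^ l - 1) = x * 2 ^ l by ring] at h5
  refine (mul_le_mul_of_nonneg_right h5 (by positivity)).trans ?_
  have h6 : 1 / x ≤ 1.011 / 2 ^ j := by
    rw [div_le_div_iff₀ hx0 (by positivity), one_mul]
    calc (2 : ℝ) ^ j = 2 ^ (1 / 64 : ℝ) * 2 ^ ((j : ℝ) - 1 / 64) := by
          rw [← rpow_add (by norm_num), add_sub_cancel, rpow_natCast]
      _ ≤ 1.011 * x := mul_le_mul e2 hx (by positivity) (by norm_num)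
  calc (sl * (x * (2 ^ l - 1)) + el) * (d / x) = sl * d * (2 ^ l - 1) + el * d * (1 / x) := by
        field_simp
    _ ≤ sl * d * (1.011 * 0.6932 * l) + el * d * (1.011 / 2 ^ j) := by gcongr
    _ = _ := by ring

lemma xCrude_IB (hIB : StIB) (j₀ j₁ : ℕ) (sl el : ℕ → ℝ) (a b : ℝ) (hs : ∀ j, 0 ≤ sl j)
    (he : ∀ j, 0 ≤ el j) (hc : ∀ j, ∀ X h : ℝ, 0 ≤ X → 0 ≤ h →
      (((Ioc ⌊X⌋₊ ⌊X + h⌋₊).filter fun n => n.Coprime 210).card : ℝ) ≤ sl j * h + el j)
    (ha : ∑ j ∈ Ico j₀ (j₁ + 1), 1.011 * 0.6932 * sl j * (2.05 * 1.1487 ^ (j + 1)) ≤ a)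
    (hb : ∑ j ∈ Ico j₀ (j₁ + 1), 1.011 * el j * (2.05 * 1.1487 ^ (j + 1)) / 2 ^ j ≤ b) :
    IB (nuD fun m => 2 ^ j₀ < m ∧ m ≤ 2 ^ j₁) a b := by
  have hsum : ∀ (f : ℕ → ℝ) (n : ℕ), (∀ j, 0 ≤ f j) →
      ∑ j ∈ Ico j₀ n, (if j ≤ j₁ then f j else 0) ≤ ∑ j ∈ Ico j₀ (j₁ + 1), f j := by
    intro f n hf
    rw [← sum_filter]
    refine sum_le_sum_of_subset_of_nonneg (fun j hj => ?_) fun j _ _ => hf j
    simp only [mem_filter, mem_Ico] at hj ⊢
    omega
  have p1 : ∀ j, 0 ≤ 1.011 * 0.6932 * sl j * (2.05 * 1.1487 ^ (j + 1)) := fun j => by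
    have := hs j; positivity
  have p2 : ∀ j, 0 ≤ 1.011 * el j * (2.05 * 1.1487 ^ (j + 1)) / 2 ^ j := fun j => by
    have := he j; positivity
  refine hIB.2.2.2.2.2 _ j₀
    (fun j => if j ≤ j₁ then 1.011 * 0.6932 * sl j * (2.05 * 1.1487 ^ (j + 1)) else 0)
    (fun j => if j ≤ j₁ then 1.011 * el j * (2.05 * 1.1487 ^ (j + 1)) / 2 ^ j else 0) a b
    (fun n hn => if_neg fun h => absurd h.2.1 (not_lt.2 hn))
    (fun j => ⟨ite_nonneg (p1 j) le_rfl, ite_nonneg (p2 j) le_rfl⟩)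
    (fun j _ x l hx hx' h0 h1 => ?_) (fun n => (hsum _ n p1).trans ha)
    fun n => (hsum _ n p2).trans hb
  by_cases hj : j ≤ j₁
  · simp only [if_pos hj]
    exact xCrude_lev _ j _ _ x l (hs j) (he j) (hc j) hx hx' h0 h1
  · refine (sum_eq_zero fun n hn => if_neg fun h => ?_).trans_le zero_le
    have n3 : x < n := Nat.lt_of_floor_lt (mem_Ioc.1 hn).1
    have n4 : (n : ℝ) ≤ 2 ^ (j₁ : ℝ) := by rw [rpow_natCast]; exact_mod_cast h.2.2
    have n5 : (j₁ : ℝ) + 1 ≤ j := by exact_mod_cast not_le.1 hj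
    have n6 : (2 : ℝ) ^ (j₁ : ℝ) ≤ 2 ^ ((j : ℝ) - 1 / 64) :=
      rpow_le_rpow_of_exponent_le (by norm_num) (by linarith)
    linarith

theorem stCrude (hIB : StIB) (hCount : StCount) : StCrude := by
  have hodd : ∀ X h : ℝ, 0 ≤ X → 0 ≤ h →
      (((Ioc ⌊X⌋₊ ⌊X + h⌋₊).filter fun n => n.Coprime 210).card : ℝ) ≤ 1 / 2 * h + 1 := by
    intro X h hX hh
    have h1 := (hCount.1 X h hX hh).1
    have h2 : ((Ioc ⌊X⌋₊ ⌊X + h⌋₊).filter fun n => n.Coprime 210).card ≤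
        ((Ioc ⌊X⌋₊ ⌊X + h⌋₊).filter Odd).card := card_le_card (monotone_filter_right _
      fun n _ hn => Nat.coprime_two_right.1 (Nat.Coprime.coprime_dvd_right (by norm_num) hn))
    have h3 := (Nat.cast_le (α := ℝ)).2 h2
    linarith
  refine ⟨xCrude_div, ?_, ?_⟩
  · refine xCrude_IB hIB 20 30 (fun j => if j < 23 then 1 / 2 else 8 / 35)
      (fun j => if j < 23 then 1 else 3.03) _ _ (fun j => by split_ifs <;> norm_num)
      (fun j => by split_ifs <;> norm_num) (fun j X h hX hh => ?_) ?_ ?_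
    · split_ifs
      · exact hodd X h hX hh
      · exact (hCount.1 X h hX hh).2
    · norm_num [sum_Ico_eq_sum_range, sum_range_succ]
    · norm_num [sum_Ico_eq_sum_range, sum_range_succ]
  · have h1 : IB (fun n => if n = 1 then 1 else 0) 0 1 := by
      intro α β h1 h2
      rw [tsum_eq_single 1 fun n hn => by simp [hn]]
      have h3 : cnt 1 α β ≤ 1 := by
        have h4 : ⌊β - th 1⌋ ≤ ⌊α - th 1 + 1⌋ := Int.floor_le_floor (by linarith)
        rw [Int.floor_add_one] at h4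
        rw [cnt]
        omega
      simpa using h3
    have h2 := xCrude_IB hIB 3 20 (fun _ => 1 / 2) (fun _ => 1) 100 1.1 (fun j => by norm_num)
      (fun j => by norm_num) (fun _ => hodd)
      (by norm_num [sum_Ico_eq_sum_range, sum_range_succ])
      (by norm_num [sum_Ico_eq_sum_range, sum_range_succ])
    have h3 := hIB.2.2.1 _ _ _ _ _ _ le_rfl zero_le_one (by norm_num) (by norm_num) h1 h2
    refine hIB.2.1 _ _ _ _ _ (by norm_num) (by norm_num) (hIB.1 _ _ _ _ (fun n => ?_) h3)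
    rw [Pi.add_apply, nuD, nuD]
    by_cases g : n.Coprime 210 ∧ n ≤ 2 ^ 20
    · by_cases g1 : 2 ^ 3 < n
      · rw [if_pos g, if_pos (⟨g.1, g1, g.2⟩ : n.Coprime 210 ∧ 2 ^ 3 < n ∧ n ≤ 2 ^ 20)]
        exact le_add_self
      · have g2 : n = 1 := by
          have g3 := g.1
          have g4 : n ≤ 8 := by omega
          revert g3
          interval_cases n <;> norm_num
        subst g2
        simp
    · rw [if_neg g]
      exact zero_le

end Pool.Agent.MP_88bd62_nt.U
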