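import Mathlib.Data.Nat.Notation

/-! Programs for the bound of the explicit measure, evaluated by the kernel.  Vectors with `2 ^ 17`
slots of width `128` describe measures on the logarithmic circle. -/

namespace Pool.Agent.MP_88bd62_nt.U.D


noncomputable def cn (a : Bool) (x y : ℕ) : ℕ := @Bool.rec (fun _ => ℕ) y x a

noncomputable def an (a b : Bool) : Bool := @Bool.rec (fun _ => Bool) false b a

noncomputable def cop (n : ℕ) : Bool := Nat.beq (Nat.gcd n 210) 1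

/-- The number with `n` digits `1` in base `2 ^ w`. -/
noncomputable def one (w n : ℕ) : ℕ := Nat.div (Nat.shiftLeft 1 (Nat.mul w n)) (Nat.sub (Nat.shiftLeft 1 w) 1)

/-- Marks the multiples of `e` in `(2 ^ 19, 2 ^ 20]`. -/
noncomputable def pat (e : ℕ) : ℕ :=
  Nat.div (Nat.shiftLeft 1 (Nat.mul 24 (Nat.add 524288 (Nat.sub (Nat.sub e 1) (Nat.mod 1048576 e)))))
    (Nat.sub (Nat.shiftLeft 1 (Nat.mul 24 e)) 1)

noncomputable def cntv (E : ℕ) : ℕ :=
  @Nat.rec (fun _ => ℕ) 0 (fun e ih => cn (cop (Nat.succ e)) (Nat.add ih (pat (Nat.succ e))) ih) E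

noncomputable def npat (e : ℕ) : ℕ := Nat.xor (pat 1) (pat e)

noncomputable def co105 : ℕ := Nat.land (npat 3) (Nat.land (npat 5) (npat 7))

noncomputable def lev (a E : ℕ) : ℕ :=
  Nat.shiftLeft (Nat.land (cntv E) (Nat.mul 16777215
    (Nat.land (Nat.land (pat (Nat.shiftLeft 1 a)) (npat (Nat.shiftLeft 2 a))) co105))) (Nat.succ a)

noncomputable def DX : ℕ :=
  Nat.add (lev 10 32) (Nat.add (lev 9 45) (Nat.add (lev 8 64) (Nat.add (lev 7 90)
    (Nat.add (lev 6 128) (Nat.add (lev 5 181) (Nat.add (lev 4 256) (Nat.add (lev 3 362)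
      (Nat.add (lev 2 512) (Nat.add (lev 1 724) (lev 0 1024))))))))))

noncomputable def rk (k : ℕ) : ℕ :=
  Nat.land (Nat.shiftRight 0x16a09e667f3bcc901306fe0a31b7152d1172b83c7d517adc10b5586cf9890f621059b0d31585743a102c9a3e778060ee10163da9fb33356d100b1afa5abcbed610058c86da1c09ea1002c605e2e8cec5100162f3904051fa1000b175effdc76b100058ba01fb9f9610002c5cc37da9491000162e525ee05410000b17255775c01000058b91b5bc9a
    (Nat.mul 64 k)) 18446744073709551615

noncomputable def ga2 (k : ℕ) (ih : ℕ → ℕ → ℕ) (L z M s : ℕ) : ℕ :=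
  Nat.add (ih L (Nat.sub z (Nat.shiftLeft (Nat.shiftRight z s) s)))
    (Nat.shiftLeft (ih M (Nat.shiftRight z s)) (Nat.shiftLeft 128 k))

noncomputable def ga1 (k : ℕ) (ih : ℕ → ℕ → ℕ) (L z M : ℕ) : ℕ :=
  ga2 k ih L z M (Nat.mul 24 (Nat.sub (Nat.shiftRight M 40) (Nat.shiftRight L 40)))

/-- Gathers the weights of `(2 ^ 19, 2 ^ 20]` in cells. -/
noncomputable def ga (k : ℕ) : ℕ → ℕ → ℕ :=
  @Nat.rec (fun _ => ℕ → ℕ → ℕ)
    (fun L z => Nat.succ (Nat.div (Nat.shiftLeft (Nat.mod z 16777215) 28) (Nat.shiftRight L 40)))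
    (fun k ih L z => ga1 k ih L z (Nat.shiftRight (Nat.mul L (rk k)) 60)) k

noncomputable def aMl : ℕ := ga 17 576460752303423488 DX

/-- Lists of cells with weights. -/
inductive PL
  | nil
  | cons (c w : ℕ) (t : PL)

noncomputable def cl (a : Bool) (x y : PL) : PL := @Bool.rec (fun _ => PL) y x a

noncomputable def flo (b : ℕ) (l : PL) : PL :=
  @PL.rec (fun _ => PL) PL.nil (fun c w _ ih => cl (Nat.ble b c) ih (PL.cons c w ih)) l

noncomputable def fhi (b : ℕ) (l : PL) : PL :=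
  @PL.rec (fun _ => PL) PL.nil (fun c w _ ih => cl (Nat.ble b c) (PL.cons (Nat.sub c b) w ih) ih) l

noncomputable def val (l : PL) : ℕ :=
  @PL.rec (fun _ => ℕ) 0 (fun c w _ ih => Nat.add (Nat.shiftLeft w (Nat.mul 128 c)) ih) l

noncomputable def sc1 (l : PL) (x : ℕ) : ℕ :=
  @PL.rec (fun _ => ℕ) 0 (fun c w t _ =>
    @PL.rec (fun _ => ℕ) (Nat.shiftLeft w (Nat.mul 128 c)) (fun _ _ _ _ => x) t) l

/-- The value of a list by radix splitting. -/
noncomputable def sc (k : ℕ) : PL → ℕ :=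
  @Nat.rec (fun _ => PL → ℕ) val (fun k ih l => sc1 l
    (Nat.add (ih (flo (Nat.shiftLeft 1 k) l))
      (Nat.shiftLeft (ih (fhi (Nat.shiftLeft 1 k) l)) (Nat.shiftLeft 128 k)))) k

noncomputable def gen (c w : ℕ → ℕ) (t : PL) (n : ℕ) : PL :=
  @Nat.rec (fun _ => PL) t
    (fun i ih => cl (Nat.beq (w i) 0) ih (PL.cons (Nat.land (c i) 131071) (w i) ih)) n

/-- The binary logarithm by bisection. -/
noncomputable def lg (k : ℕ) : ℕ → ℕ :=
  @Nat.rec (fun _ => ℕ → ℕ) Nat.log2 (fun k ih x =>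
    cn (Nat.beq (Nat.shiftRight x (Nat.shiftLeft 1 k)) 0) (ih x)
      (Nat.add (ih (Nat.shiftRight x (Nat.shiftLeft 1 k))) (Nat.shiftLeft 1 k))) k

noncomputable def cS3 (a b c : ℕ) : ℕ :=
  Nat.shiftRight (Nat.add (Nat.mul a 26591258) (Nat.add (Nat.mul b 38955489) (Nat.mul c 47099599))) 7

noncomputable def wS3 (a b c : ℕ) : ℕ :=
  Nat.succ (Nat.div (Nat.shiftLeft 1048576 (Nat.add a (Nat.add b c)))
    (Nat.mul (Nat.pow 3 a) (Nat.mul (Nat.pow 5 b) (Nat.pow 7 c))))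

noncomputable def cS (i : ℕ) : ℕ := cS3 (Nat.div i 165) (Nat.mod (Nat.div i 11) 15) (Nat.mod i 11)

noncomputable def wS (i : ℕ) : ℕ := wS3 (Nat.div i 165) (Nat.mod (Nat.div i 11) 15) (Nat.mod i 11)

noncomputable def aS : ℕ := sc 17 (gen cS wS PL.nil 5610)

noncomputable def dv (m : ℕ) : ℕ :=
  @Nat.rec (fun _ => ℕ) 0 (fun e ih => cn (Nat.beq (Nat.mod m (Nat.succ e)) 0) (Nat.succ ih) ih) m

noncomputable def cM (m : ℕ) : ℕ := lg 21 (Nat.pow m 131072)

noncomputable def wM (m : ℕ) : ℕ := cn (cop m) (Nat.succ (Nat.div (Nat.shiftLeft (dv m) 28) m)) 0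

noncomputable def aMs : ℕ := sc 17 (gen cM wM PL.nil 513)

noncomputable def cH (j q : ℕ) : ℕ := Nat.mul 16 (lg 18 (Nat.pow q (Nat.mul j 8192)))

noncomputable def wH (j q : ℕ) : ℕ :=
  cn (an (Nat.ble 11 q) (cop q)) (Nat.succ (Nat.div (Nat.shiftLeft 4194304 j) (Nat.pow q j))) 0

noncomputable def lH : PL :=
  gen (cH 2) (wH 2) (gen (cH 3) (wH 3) (gen (cH 4) (wH 4) (gen (cH 5) (wH 5)
    (gen (cH 6) (wH 6) PL.nil 14) 20) 38) 513) 4097

noncomputable def QQ : ℕ := Nat.sub (Nat.shiftLeft 1 16777216) 1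

noncomputable def aH : ℕ := Nat.mod (Nat.add (sc 17 lH) (Nat.mul 2 (one 2048 49152))) QQ

/-- The pairs whose product is treated exactly. -/
def lR : List (ℕ × ℕ) := [(0, 1), (165, 1), (0, 13), (22, 1), (495, 1), (2, 1), (11, 13), (0, 391),
  (495, 29), (11, 313), (166, 149)]

noncomputable def ofL (l : List (ℕ × ℕ)) : PL :=
  @List.rec (ℕ × ℕ) (fun _ => PL) PL.nil (fun x _ ih =>
    PL.cons (Nat.land (Nat.add (cS x.1) (cM x.2)) 131071) (Nat.mul (wS x.1) (wM x.2)) ih) l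

noncomputable def aR : ℕ := sc 17 (ofL lR)

noncomputable def mq (a b : ℕ) : ℕ := Nat.mod (Nat.mul a b) QQ

noncomputable def aq (F : ℕ) : ℕ :=
  Nat.add (one 128 131072) (Nat.add
    (Nat.shiftLeft (Nat.mul 743 (one 128 (Nat.add F 12))) 16776448)
    (Nat.shiftLeft (Nat.mul 725943 (one 128 (Nat.add F 2))) 16777088))

noncomputable def ad (a b : ℕ) : ℕ := Nat.add a b

noncomputable def aM : ℕ := ad aMl aMs

noncomputable def bB (s m r g q₁ q₂ q₃ : ℕ) : ℕ :=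
  Nat.mod (Nat.add (Nat.shiftLeft (Nat.mul (Nat.sub (mq s m) r) q₁) 49)
    (Nat.add (Nat.shiftLeft (Nat.mul (mq (mq s m) g) q₂) 25)
      (Nat.mul (mq (mq (mq s m) g) g) q₃))) QQ

noncomputable def aB : ℕ := bB aS aM aR aH (aq 2) (aq 18) (aq 34)

noncomputable def mass (a : ℕ) : ℕ := Nat.mod a 340282366920938463463374607431768211455

/-- Dyadic trees of values. -/
inductive Tb
  | leaf (v : ℕ)
  | node (l r : Tb)

/-- The value on cell `i` among `2 ^ d` cells. -/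
def Tb.val : Tb → ℕ → ℕ → ℕ
  | .leaf v, _, _ => v
  | .node l _, 0, i => l.val 0 i
  | .node l r, d + 1, i => if i < 2 ^ d then l.val d i else r.val d (i - 2 ^ d)

/-- The numbers `h v` in `2 ^ d` slots of width `w`. -/
noncomputable def Tb.pack (h : ℕ → ℕ) (w : ℕ) (t : Tb) : ℕ → ℕ :=
  @Tb.rec (fun _ => ℕ → ℕ) (fun v d => Nat.mul (h v) (one w (Nat.shiftLeft 1 d)))
    (fun _ _ il ir d => @Nat.rec (fun _ => ℕ) (il 0)
      (fun e _ => Nat.add (il e) (Nat.shiftLeft (ir e) (Nat.shiftLeft w e))) d) t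

noncomputable def hT (v : ℕ) : ℕ :=
  Nat.sub 170141183460469231731687303715884105727 (Nat.shiftLeft v 101)

noncomputable def chk (t : Tb) : Bool :=
  an (Nat.ble aR (mq aS aM)) (an (Nat.ble (mass aS) 7350000) (an (Nat.ble (mass aM) 2520000000)
    (an (Nat.ble (mass aH) 710000)
      (Nat.beq (Nat.land (Nat.add aB (t.pack hT 128 17)) (Nat.shiftLeft (one 128 131072) 127)) 0))))

end Pool.Agent.MP_88bd62_nt.U.D
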