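import Pool.Agent.MP_88bd62_nt.U.Defs
import Pool.Agent.MP_88bd62_nt.U.DP
import Pool.Agent.MP_22d5c4_co.Dig

/-! Polynomials with natural coefficients as majorants of measures on the logarithmic circle. -/

namespace Pool.Agent.MP_88bd62_nt.U.D

open Finset Polynomial
open Pool.Agent.MP_22d5c4_co.K (dig)

noncomputable section

/-- The number `n` lies between the cells `c + α` and `c + β`. -/
def Pos (α β : ℝ) (n c : ℕ) : Prop :=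
  n ≠ 0 ∧ ∃ z : ℤ, c + α ≤ 131072 * (th n - z) ∧ 131072 * (th n - z) ≤ c + β

def pr (p : ℕ[X]) (Φ : ℕ → ℝ) : ℝ := p.sum fun c w => (w : ℝ) * Φ c

/-- The polynomial `p` majorizes the functional `L`. -/
def Mj (α β : ℝ) (L : (ℕ → ℝ) → ℝ) (p : ℕ[X]) : Prop :=
  ∀ φ Φ : ℕ → ℝ, (∀ n, 0 ≤ φ n) → (∀ c, 0 ≤ Φ c) → (∀ n c, Pos α β n c → φ n ≤ Φ c) → L φ ≤ pr p Φ

/-- The number `a` is the packed form of `p`. -/
def Ev (a : ℕ) (p : ℕ[X]) : Prop := a ≡ p.eval (2 ^ 128) [MOD QQ]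

def cf (p : ℕ[X]) (J : ℕ) : ℕ := p.sum fun c w => if c % 131072 = J then w else 0

def nd (n : ℕ) (c w : ℕ → ℕ) : ℕ[X] := ∑ i ∈ range n, monomial (c i) (w i)

def box (s w : ℕ) : ℕ[X] := ∑ j ∈ range w, monomial (s + j) 1

def pq (F : ℕ) : ℕ[X] :=
  box 0 131072 + (C 743 * box 131066 (F + 12) + C 725943 * box 131071 (F + 2))

def pH : ℕ[X] :=
  nd 14 (cH 6) (wH 6) + nd 20 (cH 5) (wH 5) + nd 38 (cH 4) (wH 4) + nd 513 (cH 3) (wH 3)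
    + nd 4097 (cH 2) (wH 2) + C 2 * nd 49152 (fun i => 16 * i) (fun _ => 1)

def dec (i : ℕ) : ℕ × ℕ × ℕ := (i / 165, i / 11 % 15, i % 11)

def LH (φ : ℕ → ℝ) : ℝ := ∑ α ∈ HA, 2 ^ 24 * hW α * φ (α.1 ^ α.2)

def LMl (φ : ℕ → ℝ) : ℝ := ∑ m ∈ MB.filter (512 < ·), 2 ^ 28 * mW m * φ m

def LX (z : ℕ) (φ : ℕ → ℝ) : ℝ :=
  ∑ i ∈ range 524288, 2 ^ 28 * ((dig 24 z i : ℝ) / (524289 + i : ℕ)) * φ (524289 + i)

theorem cn_eq (a : Bool) (x y : ℕ) : cn a x y = if a = true then x else y := by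
  cases a <;> simp [cn]

theorem an_eq (a b : Bool) : an a b = true ↔ a = true ∧ b = true := by
  cases a <;> simp [an]

theorem cop_eq (n : ℕ) : cop n = true ↔ n.Coprime 210 := Nat.beq_eq ▸ Iff.rfl

theorem QQ_succ : QQ + 1 = (2 ^ 128) ^ 131072 := by decide +kernel

theorem pr_zero (Φ : ℕ → ℝ) : pr 0 Φ = 0 := sum_zero_index _

theorem pr_add (p q : ℕ[X]) (Φ : ℕ → ℝ) : pr (p + q) Φ = pr p Φ + pr q Φ :=
  sum_add_index _ _ _ (by simp) (by intros; push_cast; ring)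

theorem pr_monomial (c w : ℕ) (Φ : ℕ → ℝ) : pr (monomial c w) Φ = w * Φ c :=
  sum_monomial_index _ _ (by simp)

theorem pr_sum {ι : Type} (I : Finset ι) (p : ι → ℕ[X]) (Φ : ℕ → ℝ) :
    pr (∑ i ∈ I, p i) Φ = ∑ i ∈ I, pr (p i) Φ := by
  classical
  induction I using Finset.induction_on with
  | empty => simp [pr_zero]
  | insert a s h ih => rw [sum_insert h, sum_insert h, pr_add, ih]

theorem pr_addf (p : ℕ[X]) (Φ Ψ : ℕ → ℝ) : pr p (fun c => Φ c + Ψ c) = pr p Φ + pr p Ψ := by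
  simp only [pr, Polynomial.sum, mul_add, sum_add_distrib]

theorem pr_mulf (p : ℕ[X]) (a : ℝ) (Φ : ℕ → ℝ) : pr p (fun c => a * Φ c) = a * pr p Φ := by
  simp only [pr, Polynomial.sum, Finset.mul_sum, mul_left_comm]

theorem pr_mul (p q : ℕ[X]) (Φ : ℕ → ℝ) :
    pr (p * q) Φ = pr p fun i => pr q fun j => Φ (i + j) := by
  induction p using Polynomial.induction_on' with
  | add p p' h h' => rw [add_mul, pr_add, pr_add, h, h']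
  | monomial c w =>
    rw [pr_monomial]
    induction q using Polynomial.induction_on' with
    | add q q' h h' => rw [mul_add, pr_add, pr_add, h, h', mul_add]
    | monomial d v => rw [monomial_mul_monomial, pr_monomial, pr_monomial]; push_cast; ring

theorem pr_C (a : ℕ) (p : ℕ[X]) (Φ : ℕ → ℝ) : pr (C a * p) Φ = a * pr p Φ := by
  rw [pr_mul, ← monomial_zero_left, pr_monomial]
  simp

theorem pr_nonneg (p : ℕ[X]) {Φ : ℕ → ℝ} (h : ∀ c, 0 ≤ Φ c) : 0 ≤ pr p Φ :=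
  sum_nonneg fun c _ => mul_nonneg (Nat.cast_nonneg _) (h c)

theorem cf_cast (p : ℕ[X]) (J : ℕ) :
    (cf p J : ℝ) = pr p fun c => if c % 131072 = J then 1 else 0 := by
  simp only [cf, pr, Polynomial.sum]
  push_cast
  exact sum_congr rfl fun c _ => by split_ifs <;> simp

theorem th_mul {m n : ℕ} (hm : m ≠ 0) (hn : n ≠ 0) : th (m * n) = th m + th n := by
  unfold th
  push_cast
  exact Real.logb_mul (by exact_mod_cast hm) (by exact_mod_cast hn)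

theorem th_pow (n k : ℕ) : th (n ^ k) = k * th n := by
  unfold th
  push_cast
  exact Real.logb_pow _ _ _

theorem th_two : th 2 = 1 := by simp [th]

theorem Pos.mul {α β α' β' : ℝ} {m n c d : ℕ} (h : Pos α β m c) (h' : Pos α' β' n d) :
    Pos (α + α') (β + β') (m * n) (c + d) := by
  obtain ⟨h1, z, h2, h3⟩ := h
  obtain ⟨h4, y, h5, h6⟩ := h'
  refine ⟨mul_ne_zero h1 h4, z + y, ?_, ?_⟩ <;> rw [th_mul h1 h4] <;> push_cast <;> linarith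

theorem Pos.wide {α β α' β' : ℝ} {n c : ℕ} (h : Pos α β n c) (ha : α' ≤ α) (hb : β ≤ β') :
    Pos α' β' n c := by
  obtain ⟨h1, z, h2, h3⟩ := h
  exact ⟨h1, z, by linarith, by linarith⟩

theorem Pos.two {α β : ℝ} {m c : ℕ} (a : ℕ) (h : Pos α β (m * 2 ^ a) c) : Pos α β m c := by
  obtain ⟨h1, z, h2, h3⟩ := h
  have h4 := left_ne_zero_of_mul h1
  rw [th_mul h4 (by positivity), th_pow, th_two] at h2 h3
  exact ⟨h4, z - a, by push_cast; linarith, by push_cast; linarith⟩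

/-- Position from the logarithm of a power. -/
theorem Pos.log {n : ℕ} (hn : n ≠ 0) (r e : ℕ) (h : r * e = 131072) :
    Pos 0 r n (r * Nat.log 2 (n ^ e)) := by
  have h0 : n ^ e ≠ 0 := pow_ne_zero _ hn
  have h1 : ((2 ^ Nat.log 2 (n ^ e) : ℕ) : ℝ) ≤ (n ^ e : ℕ) := by
    exact_mod_cast Nat.pow_log_le_self 2 h0
  have h2 : ((n ^ e : ℕ) : ℝ) ≤ (2 ^ (Nat.log 2 (n ^ e) + 1) : ℕ) := by
    exact_mod_cast (Nat.lt_pow_succ_log_self one_lt_two _).le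
  have h3 : th (2 ^ Nat.log 2 (n ^ e)) ≤ th (n ^ e) :=
    Real.logb_le_logb_of_le one_lt_two (by positivity) h1
  have h4 : th (n ^ e) ≤ th (2 ^ (Nat.log 2 (n ^ e) + 1)) :=
    Real.logb_le_logb_of_le one_lt_two (by positivity) h2
  rw [th_pow, th_pow, th_two] at h3 h4
  have h5 : (131072 : ℝ) = r * e := by exact_mod_cast h.symm
  have h6 : (0 : ℝ) ≤ r := Nat.cast_nonneg r
  refine ⟨hn, 0, ?_, ?_⟩ <;> rw [h5] <;> push_cast at h3 h4 ⊢ <;> nlinarith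

theorem Mj.add {α β : ℝ} {L L' : (ℕ → ℝ) → ℝ} {p q : ℕ[X]} (h : Mj α β L p) (h' : Mj α β L' q) :
    Mj α β (fun φ => L φ + L' φ) (p + q) := fun φ Φ a b c => by
  rw [pr_add]
  exact add_le_add (h φ Φ a b c) (h' φ Φ a b c)

theorem Mj.le {α β : ℝ} {L L' : (ℕ → ℝ) → ℝ} {p : ℕ[X]} (h : Mj α β L p)
    (h' : ∀ φ, (∀ n, 0 ≤ φ n) → L' φ ≤ L φ) : Mj α β L' p :=
  fun φ Φ a b c => (h' φ a).trans (h φ Φ a b c)

theorem Mj.wide {α β α' β' : ℝ} {L : (ℕ → ℝ) → ℝ} {p : ℕ[X]} (h : Mj α β L p) (ha : α' ≤ α)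
    (hb : β ≤ β') : Mj α' β' L p :=
  fun φ Φ a b c => h φ Φ a b fun n d e => c n d (e.wide ha hb)

theorem Mj.mul {α β α' β' : ℝ} {L L' : (ℕ → ℝ) → ℝ} {p q : ℕ[X]} (h : Mj α β L p)
    (h' : Mj α' β' L' q) (h0 : ∀ φ, (∀ n, 0 ≤ φ n) → 0 ≤ L' φ) :
    Mj (α + α') (β + β') (fun φ => L fun s => L' fun m => φ (s * m)) (p * q) := fun φ Φ a b c => by
  rw [pr_mul]
  exact h _ _ (fun s => h0 _ fun m => a _) (fun i => pr_nonneg _ fun j => b _) fun s i hs =>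
    h' _ _ (fun m => a _) (fun j => b _) fun m j hm => c _ _ (hs.mul hm)

theorem Mj.nodes {α β : ℝ} {ι : Type} (I : Finset ι) (n c w : ι → ℕ) (v : ι → ℝ)
    (h : ∀ i ∈ I, v i ≤ 0 ∨ (v i ≤ w i ∧ Pos α β (n i) (c i))) :
    Mj α β (fun φ => ∑ i ∈ I, v i * φ (n i)) (∑ i ∈ I, monomial (c i) (w i)) := fun φ Φ a b d => by
  rw [pr_sum]
  refine sum_le_sum fun i hi => ?_
  rw [pr_monomial]
  rcases h i hi with h1 | ⟨h1, h2⟩
  · exact (mul_nonpos_of_nonpos_of_nonneg h1 (a _)).trans (mul_nonneg (Nat.cast_nonneg _) (b _))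
  · exact mul_le_mul h1 (d _ _ h2) (a _) (Nat.cast_nonneg _)

theorem Ev.add {a b : ℕ} {p q : ℕ[X]} (h : Ev a p) (h' : Ev b q) : Ev (a + b) (p + q) := by
  unfold Ev
  rw [eval_add]
  exact Nat.ModEq.add h h'

theorem Ev.mul {a b : ℕ} {p q : ℕ[X]} (h : Ev a p) (h' : Ev b q) : Ev (a * b) (p * q) := by
  unfold Ev
  rw [eval_mul]
  exact Nat.ModEq.mul h h'

theorem Ev.mod {a : ℕ} {p : ℕ[X]} (h : Ev a p) : Ev (a % QQ) p := (Nat.mod_modEq _ _).trans h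

theorem Ev.C (a : ℕ) : Ev a (C a) := by
  unfold Ev
  rw [eval_C]

theorem nd_mass {n b : ℕ} {c w : ℕ → ℕ} (h : ∀ i < n, w i ≤ b) : (nd n c w).eval 1 ≤ n * b := by
  rw [nd, eval_finsetSum]
  simp only [eval_monomial, one_pow, mul_one]
  simpa using sum_le_card_nsmul (range n) w b fun i hi => h i (mem_range.mp hi)

/-! The steps, as propositions -/

def DLg : Prop := ∀ k x : ℕ, lg k x = Nat.log 2 x

def DOne : Prop := ∀ w n : ℕ, 2 ≤ w → one w n = ∑ i ∈ range n, 2 ^ (w * i)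

def DList : Prop := (∀ (k : ℕ) (l : PL), sc k l = val l) ∧
  (∀ (c w : ℕ → ℕ) (t : PL) (n : ℕ) (p : ℕ[X]), Ev (val t) p → Ev (val (gen c w t n)) (p + nd n c w)) ∧
  (∀ l : List (ℕ × ℕ), Ev (val (ofL l))
    (l.map fun x => monomial (cS x.1 + cM x.2) (wS x.1 * wM x.2)).sum) ∧
  (∀ F : ℕ, Ev (aq F) (pq F) ∧ (pq F).eval 1 = 131072 + (743 * (F + 12) + 725943 * (F + 2))) ∧
  Ev aH pH

def DDig : Prop := ∀ (a : ℕ) (p : ℕ[X]), Ev a p → p.eval 1 < 2 ^ 128 - 1 →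
  mass a = p.eval 1 ∧ ∀ J < 131072, dig 128 (a % QQ) J = cf p J ∧ cf p J ≤ p.eval 1

def DPack : Prop := ∀ (h : ℕ → ℕ) (w : ℕ), 2 ≤ w → (∀ v, h v < 2 ^ w) → ∀ (t : Tb) (d : ℕ),
  t.pack h w d < 2 ^ (w * 2 ^ d) ∧ ∀ i < 2 ^ d, dig w (t.pack h w d) i = h (t.val d i)

def DS : Prop := (∀ F : ℕ × ℕ × ℕ → ℝ, ∑ s ∈ SB, F s = ∑ i ∈ range 5610, F (dec i)) ∧
  ∀ i < 5610, 2 ^ 20 * sW (dec i) ≤ wS i ∧ wS i ≤ 2 ^ 80 ∧ Pos 0 1.45 (sN (dec i)) (cS i)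

def DMs : Prop := ∀ m ≤ 512, wM m ≤ 2 ^ 40 ∧
  (m.Coprime 210 → 2 ^ 28 * mW m ≤ wM m ∧ Pos 0 1 m (cM m))

def DH : Prop := Mj 0 16 LH pH ∧ pH.eval 1 ≤ 2 ^ 60

def DPat : Prop := ∀ e i : ℕ, 1 ≤ e → e ≤ 4096 →
  dig 24 (pat e) i = if i < 524288 ∧ e ∣ 524289 + i then 1 else 0

def DDX : Prop := (∀ i, dig 24 DX i < 2 ^ 18) ∧ (∀ i, 524288 ≤ i → dig 24 DX i = 0) ∧
  ∀ a m i : ℕ, a ≤ 10 → m.Coprime 210 → i < 524288 → m * 2 ^ a = 524289 + i →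
    2 ^ a * m.divisors.card ≤ dig 24 DX i

def DRk : Prop := ∀ k < 17, (rk k : ℝ) ≤ 2 ^ 60 * 2 ^ ((2 : ℝ) ^ k / 131072) ∧
  2 ^ 60 * 2 ^ ((2 : ℝ) ^ k / 131072) ≤ (rk k : ℝ) + 1

def DGa : Prop := ∀ z : ℕ, (∀ i, dig 24 z i < 2 ^ 18) → (∀ i, 524288 ≤ i → dig 24 z i = 0) →
  ∃ p : ℕ[X], ga 17 576460752303423488 z = p.eval (2 ^ 128) ∧ p.eval 1 ≤ 2 ^ 80 ∧
    Mj (-1 / 100) 1 (LX z) p

def DTr : Prop := ∀ (z : ℕ) (α β : ℝ) (p : ℕ[X]),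
  (∀ a m i : ℕ, a ≤ 10 → m.Coprime 210 → i < 524288 → m * 2 ^ a = 524289 + i →
    2 ^ a * m.divisors.card ≤ dig 24 z i) → Mj α β (LX z) p → Mj α β LMl p

def DPsi : Prop := ∀ (F n c J : ℕ) (u : ℝ), F ≤ 100 → Pos (-1 / 2) (F + 1 / 2) n c → J < 131072 →
  (J : ℝ) / 131072 ≤ u → u ≤ (J + 1) / 131072 →
  2 ^ 20 * psi (2 ^ 20) (1 / 2 ^ 23) (dZ (u - th n)) ≤
    pr (pq F) fun j => if (c + j) % 131072 = J then 1 else 0

end

end Pool.Agent.MP_88bd62_nt.U.D
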