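import Pool.Agent.MP_88bd62_nt.U.DA

/-! The bound for the explicit measure from the steps. -/

namespace Pool.Agent.MP_88bd62_nt.U.D

open Finset Polynomial
open Pool.Agent.MP_22d5c4_co.K (dig dig_add vec_lt ones ones_succ)

noncomputable section

def vS (i : ℕ) : ℝ := 2 ^ 20 * sW (dec i)

def vM (m : ℕ) : ℝ := if m.Coprime 210 then 2 ^ 28 * mW m else 0

def sI (i : ℕ) : ℕ := sN (dec i)

def Ln (n : ℕ) (v : ℕ → ℝ) (N : ℕ → ℕ) (φ : ℕ → ℝ) : ℝ := ∑ i ∈ range n, v i * φ (N i)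

def LM (φ : ℕ → ℝ) : ℝ := LMl φ + Ln 513 vM id φ

def PP (a b : ℕ) (l : List (ℕ × ℕ)) : Finset (ℕ × ℕ) := (range a ×ˢ range b) \ l.toFinset

def L1s (I : Finset (ℕ × ℕ)) (φ : ℕ → ℝ) : ℝ := ∑ x ∈ I, vS x.1 * vM x.2 * φ (sI x.1 * x.2)

def mo (c w c' w' : ℕ → ℕ) (x : ℕ × ℕ) : ℕ[X] := monomial (c x.1 + c' x.2) (w x.1 * w' x.2)

theorem mo_eq (c w c' w' : ℕ → ℕ) :
    mo c w c' w' = fun x => monomial (c x.1 + c' x.2) (w x.1 * w' x.2) := rfl

theorem vS_nonneg (i : ℕ) : 0 ≤ vS i := by unfold vS sW; positivity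

theorem mW_nonneg (m : ℕ) : 0 ≤ mW m := by unfold mW; positivity

theorem vM_nonneg (m : ℕ) : 0 ≤ vM m := by
  have := mW_nonneg m
  unfold vM
  split_ifs <;> positivity

theorem LMl_nonneg (φ : ℕ → ℝ) (h : ∀ n, 0 ≤ φ n) : 0 ≤ LMl φ :=
  sum_nonneg fun m _ => mul_nonneg (mul_nonneg (by positivity) (mW_nonneg m)) (h m)

theorem Ln_nonneg (n : ℕ) (φ : ℕ → ℝ) (h : ∀ n, 0 ≤ φ n) : 0 ≤ Ln n vM id φ :=
  sum_nonneg fun m _ => mul_nonneg (vM_nonneg m) (h m)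

theorem LM_nonneg (φ : ℕ → ℝ) (h : ∀ n, 0 ≤ φ n) : 0 ≤ LM φ :=
  add_nonneg (LMl_nonneg φ h) (Ln_nonneg _ φ h)

theorem LH_nonneg (φ : ℕ → ℝ) (h : ∀ n, 0 ≤ φ n) : 0 ≤ LH φ :=
  sum_nonneg fun α _ => mul_nonneg (by unfold hW; positivity) (h _)

theorem LM_eq (φ : ℕ → ℝ) : LM φ = ∑ m ∈ MB, 2 ^ 28 * mW m * φ m := by
  rw [← sum_filter_add_sum_filter_not MB (512 < ·), LM, LMl, Ln]
  refine congrArg (_ + ·) ?_
  have e : MB.filter (fun m => ¬ 512 < m) = (range 513).filter (fun m => m.Coprime 210) := by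
    ext m
    simp only [MB, mem_filter, mem_Icc, mem_range]
    constructor
    · rintro ⟨⟨_, h⟩, h'⟩
      exact ⟨by omega, h⟩
    · rintro ⟨h, h'⟩
      have : m ≠ 0 := by rintro rfl; norm_num at h'
      exact ⟨⟨⟨by omega, by omega⟩, h'⟩, by omega⟩
  rw [e, sum_filter]
  exact sum_congr rfl fun m _ => by unfold vM; split_ifs <;> simp

/-- The list `l` consists of different pairs with products in `E0`. -/
def Good (a b : ℕ) (l : List (ℕ × ℕ)) : Prop :=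
  l.Nodup ∧ ∀ x ∈ l, x.1 < a ∧ x.2 < b ∧ sI x.1 * x.2 ∈ E0

theorem lR_spec : Good 5610 513 lR := by
  unfold Good
  decide +kernel

theorem Good.sub {a b : ℕ} {l : List (ℕ × ℕ)} (h : Good a b l) :
    l.toFinset ⊆ range a ×ˢ range b := fun x hx => by
  have := h.2 x (List.mem_toFinset.mp hx)
  exact mem_product.mpr ⟨mem_range.mpr this.1, mem_range.mpr this.2.1⟩

theorem aMl_eq : aMl = ga 17 576460752303423488 DX := rfl

theorem Good.poly {a b : ℕ} {l : List (ℕ × ℕ)} (h : Good a b l) (c w c' w' : ℕ → ℕ) (p : ℕ[X]) :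
    nd a c w * (p + nd b c' w')
      = (nd a c w * p + ∑ x ∈ PP a b l, mo c w c' w' x) + (l.map (mo c w c' w')).sum := by
  rw [mul_add, add_assoc, ← List.sum_toFinset _ h.1, PP, sum_sdiff h.sub, sum_product]
  refine congrArg (nd a c w * p + ·) ?_
  rw [nd, nd, sum_mul_sum]
  exact sum_congr rfl fun i _ => sum_congr rfl fun m _ => monomial_mul_monomial _ _ _ _

theorem Good.first {a b : ℕ} {l : List (ℕ × ℕ)} (hl : Good a b l) (φ : ℕ → ℝ) (h : ∀ n, 0 ≤ φ n) :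
    ∑ i ∈ range a, vS i * (LMl (fun m => if sI i * m ∈ E0 then 0 else φ (sI i * m))
        + Ln b vM id fun m => if sI i * m ∈ E0 then 0 else φ (sI i * m))
      ≤ Ln a vS sI (fun s => LMl fun m => φ (s * m)) + L1s (PP a b l) φ := by
  simp only [mul_add, sum_add_distrib]
  refine add_le_add (sum_le_sum fun i _ => mul_le_mul_of_nonneg_left (sum_le_sum fun m _ =>
    mul_le_mul_of_nonneg_left ?_ (mul_nonneg (by positivity) (mW_nonneg m))) (vS_nonneg i)) ?_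
  · dsimp only
    split_ifs
    exacts [h _, le_rfl]
  · have e : ∑ i ∈ range a, vS i * Ln b vM id (fun m => if sI i * m ∈ E0 then 0 else φ (sI i * m))
        = ∑ x ∈ range a ×ˢ range b, vS x.1 * vM x.2 *
          (if sI x.1 * x.2 ∈ E0 then 0 else φ (sI x.1 * x.2)) := by
      rw [sum_product]
      exact sum_congr rfl fun i _ => by simp only [Ln, mul_sum, mul_assoc, id]
    rw [e, ← sum_sdiff hl.sub, sum_eq_zero (s := l.toFinset) fun x hx => by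
      rw [if_pos (hl.2 x (List.mem_toFinset.mp hx)).2.2, mul_zero], add_zero]
    refine sum_le_sum fun x _ => mul_le_mul_of_nonneg_left ?_
      (mul_nonneg (vS_nonneg _) (vM_nonneg _))
    split_ifs
    exacts [h _, le_rfl]

theorem Eint_eq {a : ℕ} (hS : ∀ F : ℕ × ℕ × ℕ → ℝ, ∑ s ∈ SB, F s = ∑ i ∈ range a, F (dec i))
    (φ : ℕ → ℝ) : 2 ^ 97 * Eint φ =
    2 ^ 49 * ∑ i ∈ range a, vS i * (LMl (fun m => if sI i * m ∈ E0 then 0 else φ (sI i * m))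
        + Ln 513 vM id fun m => if sI i * m ∈ E0 then 0 else φ (sI i * m))
      + (2 ^ 25 * Ln a vS sI (fun s => LM fun m => LH fun a => φ (s * m * a))
        + Ln a vS sI fun s => LM fun m => LH fun a => LH fun b => φ (s * m * a * b)) := by
  rw [Eint, hS]
  simp only [← LM.eq_1]
  simp only [Ln, LM_eq, mul_sum, ← sum_add_distrib]
  refine sum_congr rfl fun i _ => sum_congr rfl fun m _ => ?_
  have e1 : LH (fun a => φ (sI i * m * a))
      = 2 ^ 24 * ∑ α ∈ HA, hW α * φ (sI i * m * α.1 ^ α.2) := by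
    simp only [LH, mul_sum, mul_assoc]
  have e2 : LH (fun a => LH fun b => φ (sI i * m * a * b)) = 2 ^ 49 * ∑ α ∈ HA, ∑ β ∈ HA,
      hW α * hW β / 2 * φ (sI i * m * α.1 ^ α.2 * β.1 ^ β.2) := by
    simp only [LH, mul_sum]
    exact sum_congr rfl fun α _ => sum_congr rfl fun β _ => by ring
  rw [e1, e2, vS, sI]
  ring

theorem Mj.nd {α β : ℝ} (n : ℕ) (N c w : ℕ → ℕ) (v : ℕ → ℝ)
    (h : ∀ i < n, v i ≤ 0 ∨ (v i ≤ w i ∧ Pos α β (N i) (c i))) : Mj α β (Ln n v N) (nd n c w) :=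
  Mj.nodes _ _ _ _ _ fun i hi => h i (mem_range.mp hi)

theorem psi_nonneg (x : ℝ) : 0 ≤ psi (2 ^ 20) (1 / 2 ^ 23) (dZ x) := by
  have : 0 ≤ dZ x := abs_nonneg _
  unfold psi
  split_ifs <;> positivity

theorem Mj.fin (hPsi : DPsi) {F J : ℕ} {u : ℝ} {L : (ℕ → ℝ) → ℝ} {p : ℕ[X]}
    (h : Mj (-1 / 2) (F + 1 / 2) L p) (hF : F ≤ 100) (hJ : J < 131072) (h1 : (J : ℝ) / 131072 ≤ u)
    (h2 : u ≤ (J + 1) / 131072) :
    L (fun n => 2 ^ 20 * psi (2 ^ 20) (1 / 2 ^ 23) (dZ (u - th n))) ≤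
      pr (p * pq F) fun c => if c % 131072 = J then 1 else 0 := by
  rw [pr_mul]
  exact h _ _ (fun n => mul_nonneg (by positivity) (psi_nonneg _))
    (fun c => pr_nonneg _ fun j => by split_ifs <;> norm_num)
    fun n c hp => hPsi F n c J u hF hp hJ h1 h2

theorem one_eq (hOne : DOne) {w : ℕ} (hw : 2 ≤ w) (n : ℕ) : one w n = ones w n := by
  rw [hOne w n hw]
  induction n with
  | zero => simp [ones]
  | succ n ih =>
    rw [sum_range_succ', ones_succ (by omega), ← ih, mul_sum, add_comm]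
    simp only [mul_add, pow_add, mul_one, mul_zero, pow_zero, mul_comm]

theorem cmp (hOne : DOne) (n B U : ℕ) (hB : ∀ i < n, dig 128 B i < 2 ^ 127)
    (hU : ∀ i < n, dig 128 U i < 2 ^ 127)
    (h : Nat.land (Nat.add B U) (Nat.shiftLeft (one 128 n) 127) = 0) (i : ℕ) (hi : i < n) :
    dig 128 B i + dig 128 U i < 2 ^ 127 := by
  rw [← dig_add 128 n B U (fun j hj => by have := hB j hj; have := hU j hj; omega) i hi]
  refine vec_lt (K := 128) (W := n) (by norm_num) ?_ i hi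
  rw [← one_eq hOne (by norm_num), ← Nat.shiftLeft_eq]
  exact h

theorem Ev.of_eq {a : ℕ} {p : ℕ[X]} (h : a = p.eval (2 ^ 128)) : Ev a p := by
  subst h
  exact Nat.ModEq.refl _

theorem Ev.add' {a b : ℕ} {p q : ℕ[X]} (h : Ev a p) (h' : Ev b q) : Ev (ad a b) (p + q) :=
  h.add h'

theorem Ev.sub {a b : ℕ} {p q : ℕ[X]} (h : Ev a (p + q)) (h' : Ev b q) (hb : b ≤ a) :
    Ev (a - b) p := by
  unfold Ev at *
  rw [eval_add] at h
  refine Nat.ModEq.add_right_cancel h' ?_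
  rwa [Nat.sub_add_cancel hb]

theorem Ev.shl {a : ℕ} {p : ℕ[X]} (h : Ev a p) (k : ℕ) :
    Ev (Nat.shiftLeft a k) (Polynomial.C (2 ^ k) * p) := by
  rw [show Nat.shiftLeft a k = 2 ^ k * a by rw [mul_comm, ← Nat.shiftLeft_eq]; rfl]
  exact (Ev.C _).mul h

theorem Ev.all {s m r g q₁ q₂ q₃ : ℕ} {S M R P G Q₁ Q₂ Q₃ : ℕ[X]} (hs : Ev s S) (hm : Ev m M)
    (hr : Ev r R) (hg : Ev g G) (h1 : Ev q₁ Q₁) (h2 : Ev q₂ Q₂) (h3 : Ev q₃ Q₃) (e : S * M = P + R)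
    (hle : r ≤ mq s m) :
    Ev (bB s m r g q₁ q₂ q₃) (Polynomial.C (2 ^ 49) * (P * Q₁) +
      (Polynomial.C (2 ^ 25) * (S * M * G * Q₂) + S * M * G * G * Q₃)) := by
  have h0 : Ev (mq s m) (S * M) := (hs.mul hm).mod
  have h4 : Ev (mq (mq s m) g) (S * M * G) := (h0.mul hg).mod
  have h5 : Ev (mq (mq (mq s m) g) g) (S * M * G * G) := (h4.mul hg).mod
  exact (((((e ▸ h0).sub hr hle).mul h1).shl 49).add (((h4.mul h2).shl 25).add (h5.mul h3))).mod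

theorem bB_mod (s m r g q₁ q₂ q₃ : ℕ) : bB s m r g q₁ q₂ q₃ % QQ = bB s m r g q₁ q₂ q₃ :=
  Nat.mod_mod _ _

theorem mass_all {S M R P G Q₁ Q₂ Q₃ : ℕ[X]} (e : S * M = P + R) (hs : S.eval 1 ≤ 7350000)
    (hm : M.eval 1 ≤ 2520000000) (hg : G.eval 1 ≤ 710000)
    (h1 : Q₁.eval 1 = 131072 + (743 * (2 + 12) + 725943 * (2 + 2)))
    (h2 : Q₂.eval 1 = 131072 + (743 * (18 + 12) + 725943 * (18 + 2)))
    (h3 : Q₃.eval 1 = 131072 + (743 * (34 + 12) + 725943 * (34 + 2))) :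
    (Polynomial.C (2 ^ 49) * (P * Q₁) +
      (Polynomial.C (2 ^ 25) * (S * M * G * Q₂) + S * M * G * G * Q₃)).eval 1 < 2 ^ 127 := by
  have h0 : P.eval 1 ≤ 7350000 * 2520000000 := by
    have := congrArg (eval 1) e
    rw [eval_mul, eval_add] at this
    have h4 := Nat.mul_le_mul hs hm
    omega
  simp only [eval_add, eval_mul, eval_C, h1, h2, h3]
  refine lt_of_le_of_lt (add_le_add (Nat.mul_le_mul_left _ (Nat.mul_le_mul_right _ h0))
    (add_le_add (Nat.mul_le_mul_left _ (Nat.mul_le_mul_right _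
      (Nat.mul_le_mul (Nat.mul_le_mul hs hm) hg))) (Nat.mul_le_mul_right _
        (Nat.mul_le_mul (Nat.mul_le_mul (Nat.mul_le_mul hs hm) hg) hg)))) (by norm_num)

theorem chk_spec {T : Tb} (h : chk T = true) : aR ≤ mq aS aM ∧ mass aS ≤ 7350000 ∧
    mass aM ≤ 2520000000 ∧ mass aH ≤ 710000 ∧
    Nat.land (Nat.add aB (T.pack hT 128 17)) (Nat.shiftLeft (one 128 131072) 127) = 0 := by
  rw [chk, an_eq, an_eq, an_eq, an_eq, Nat.ble_eq, Nat.ble_eq, Nat.ble_eq, Nat.ble_eq,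
    Nat.beq_eq] at h
  exact h

theorem hT_le {d v : ℕ} (h : d + hT v < 2 ^ 127) : d ≤ v * 2 ^ 101 := by
  rw [← Nat.shiftLeft_eq]
  change d + (170141183460469231731687303715884105727 - v <<< 101) < 2 ^ 127 at h
  generalize v <<< 101 = x at h ⊢
  omega

theorem nM (hMs : DMs) (m : ℕ) (hm : m < 513) : vM m ≤ 0 ∨ (vM m ≤ wM m ∧ Pos 0 1 m (cM m)) := by
  unfold vM
  split_ifs with hc
  exacts [Or.inr ((hMs m (by omega)).2 hc), Or.inl le_rfl]

theorem Mj.pairs {α β α' β' : ℝ} (a b : ℕ) (l : List (ℕ × ℕ)) (c w c' w' : ℕ → ℕ)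
    (h : ∀ i < a, vS i ≤ w i ∧ Pos α β (sI i) (c i))
    (h' : ∀ m < b, vM m ≤ 0 ∨ (vM m ≤ w' m ∧ Pos α' β' m (c' m))) :
    Mj (α + α') (β + β') (L1s (PP a b l)) (∑ x ∈ PP a b l, mo c w c' w' x) :=
  Mj.nodes _ _ _ _ _ fun x hx => by
    rw [PP, mem_sdiff, mem_product, mem_range, mem_range] at hx
    have a := h _ hx.1.1
    obtain b | b := h' _ hx.1.2
    · exact Or.inl (mul_nonpos_of_nonneg_of_nonpos (vS_nonneg _) b)
    · refine Or.inr ⟨?_, a.2.mul b.2⟩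
      push_cast
      exact mul_le_mul a.1 b.1 (vM_nonneg _) (Nat.cast_nonneg _)

theorem Eint_mul (a : ℝ) (φ : ℕ → ℝ) : Eint (fun n => a * φ n) = a * Eint φ := by
  rw [Eint, Eint, mul_sum]
  refine sum_congr rfl fun s _ => ?_
  rw [mul_sum]
  refine sum_congr rfl fun m _ => ?_
  simp only [mul_left_comm _ a, ← mul_sum]
  split_ifs <;> ring

theorem fin_ar {B a b c x y z w : ℝ} {v : ℕ} (e : 2 ^ 97 * (2 ^ 20 * B) = 2 ^ 49 * w + (2 ^ 25 * b + c))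
    (f0 : w ≤ a) (f1 : a ≤ x) (f2 : b ≤ y) (f3 : c ≤ z)
    (h : ((2 ^ 49 : ℕ) : ℝ) * x + (((2 ^ 25 : ℕ) : ℝ) * y + z) ≤ ((v * 2 ^ 101 : ℕ) : ℝ)) :
    B ≤ v / 2 ^ 16 := by
  push_cast at h
  rw [le_div_iff₀ (by positivity)]
  linarith

theorem dFin (hOne : DOne) (hList : DList) (hDig : DDig) (hPack : DPack) (hS : DS) (hMs : DMs)
    (hH : DH) (hDX : DDX) (hGa : DGa) (hTr : DTr) (hPsi : DPsi) (T : Tb) (h : chk T = true) (i : ℕ)
    (hi : i < 2 ^ 17) (u : ℝ) (h1 : (i : ℝ) / 2 ^ 17 ≤ u) (h2 : u ≤ (i + 1) / 2 ^ 17) :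
    Bexp (1 / 2 ^ 23) u ≤ T.val 17 i / 2 ^ 16 := by
  obtain ⟨c1, c2, c3, c4, c5⟩ := chk_spec h
  obtain ⟨l1, l2, l3, l4, l5⟩ := hList
  obtain ⟨pl, g1, g2, g3⟩ := hGa DX hDX.1 hDX.2.1
  have ev0 : Ev (val PL.nil) 0 := by unfold Ev; rw [eval_zero]; rfl
  have eS : Ev aS (nd 5610 cS wS) := by
    rw [aS, l1]; simpa only [zero_add] using l2 cS wS _ 5610 0 ev0
  have eMs : Ev aMs (nd 513 cM wM) := by
    rw [aMs, l1]; simpa only [zero_add] using l2 cM wM _ 513 0 ev0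
  have eMl : Ev aMl pl := Ev.of_eq (aMl_eq.trans g1)
  have eM : Ev aM (pl + nd 513 cM wM) := by rw [aM]; exact eMl.add' eMs
  have eR : Ev aR (lR.map (mo cS wS cM wM)).sum := by rw [aR, l1, mo_eq]; exact l3 lR
  have e := lR_spec.poly cS wS cM wM pl
  have mS := nd_mass (c := cS) fun i hi => (hS.2 i hi).2.1
  have mM := nd_mass (n := 513) (c := cM) fun m hm => (hMs m (by omega)).1
  rw [(hDig _ _ eS (mS.trans_lt (by norm_num))).1] at c2
  rw [(hDig _ _ eM (by rw [eval_add]; exact (add_le_add g2 mM).trans_lt (by norm_num))).1] at c3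
  rw [(hDig _ _ l5 (hH.2.trans_lt (by norm_num))).1] at c4
  have eB := Ev.all eS eM eR l5 (l4 2).1 (l4 18).1 (l4 34).1 e c1
  have mB := mass_all e c2 c3 c4 (l4 2).2 (l4 18).2 (l4 34).2
  have dB := (hDig _ _ eB (mB.trans (by norm_num))).2
  rw [bB_mod, ← aB] at dB
  have hT' : ∀ v, hT v < 2 ^ 127 := fun v => (Nat.sub_le _ _).trans_lt (by norm_num)
  have dU := (hPack hT 128 (by norm_num) (fun v => (hT' v).trans (by norm_num)) T 17).2
  have c6 := cmp hOne 131072 aB _ (fun j hj => ((dB j hj).1.trans_le (dB j hj).2).trans_lt mB)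
    (fun j hj => (dU j hj).trans_lt (hT' _)) c5 i hi
  rw [dU i hi] at c6
  have c8 := (dB i hi).1.symm.trans_le (hT_le c6)
  have nS : ∀ i < 5610, vS i ≤ wS i ∧ Pos 0 1.45 (sI i) (cS i) := fun i hi =>
    ⟨(hS.2 i hi).1, (hS.2 i hi).2.2⟩
  have jS := Mj.nd 5610 sI cS wS vS fun i hi => Or.inr (nS i hi)
  have jMs := Mj.nd 513 id cM wM vM (nM hMs)
  have jMl : Mj (-1 / 100) 1 LMl pl := hTr DX _ _ _ hDX.2.2 g3
  have jM : Mj (-1 / 100) 1 LM (pl + nd 513 cM wM) := jMl.add (jMs.wide (by norm_num) le_rfl)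
  have j1s := Mj.pairs 5610 513 lR cS wS cM wM nS (nM hMs)
  have j1 := ((jS.mul jMl LMl_nonneg).wide (α' := -1 / 2) (β' := (2 : ℕ) + 1 / 2) (by norm_num)
    (by norm_num)).add (j1s.wide (by norm_num) (by norm_num))
  have j2 := (jS.mul jM LM_nonneg).mul hH.1 LH_nonneg
  have j3 := j2.mul hH.1 LH_nonneg
  have u1 : (i : ℝ) / 131072 ≤ u := by norm_num at h1; exact h1
  have u2 : u ≤ (i + 1) / 131072 := by norm_num at h2; exact h2
  have f1 := j1.fin hPsi (by norm_num) hi u1 u2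
  have f2 := (j2.wide (α' := -1 / 2) (β' := (18 : ℕ) + 1 / 2) (by norm_num)
    (by norm_num)).fin hPsi (by norm_num) hi u1 u2
  have f3 := (j3.wide (α' := -1 / 2) (β' := (34 : ℕ) + 1 / 2) (by norm_num)
    (by norm_num)).fin hPsi (by norm_num) hi u1 u2
  have c9 : ((cf _ i : ℕ) : ℝ) ≤ ((T.val 17 i * 2 ^ 101 : ℕ) : ℝ) := Nat.cast_le.mpr c8
  rw [cf_cast, pr_add, pr_add, pr_C, pr_C] at c9
  have f0 := lR_spec.first (fun n => 2 ^ 20 * psi (2 ^ 20) (1 / 2 ^ 23) (dZ (u - th n)))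
    fun n => mul_nonneg (by positivity) (psi_nonneg _)
  have e1 := Eint_eq hS.1 fun n => 2 ^ 20 * psi (2 ^ 20) (1 / 2 ^ 23) (dZ (u - th n))
  rw [Eint_mul] at e1
  exact fin_ar e1 f0 f1 f2 f3 c9

end

end Pool.Agent.MP_88bd62_nt.U.D
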