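import Pool.Agent.MP_88bd62_nt.U.DP

/-! The table of bounds for the explicit measure and its verification. -/

namespace Pool.Agent.MP_88bd62_nt.U.D

def T0 : Tb :=
  .node (.node (.node (.node (.node (.node (.leaf 1488) (.leaf 1469)) (.node (.node (.leaf 1453)
    (.leaf 5600)) (.leaf 1436))) (.leaf 5464)) (.leaf 20262)) (.leaf 18262)) (.node (.node (.node
    (.leaf 4062) (.node (.node (.leaf 1998) (.leaf 1023)) (.node (.node (.leaf 1032) (.node (.leaf
    546) (.node (.leaf 1946) (.leaf 321)))) (.node (.node (.node (.node (.leaf 542) (.leaf 189))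
    (.node (.node (.leaf 103) (.node (.node (.leaf 127) (.leaf 94)) (.node (.node (.node (.node
    (.node (.leaf 84) (.leaf 138)) (.leaf 138)) (.leaf 120)) (.leaf 106)) (.leaf 114)))) (.node
    (.leaf 152) (.leaf 187)))) (.leaf 313)) (.leaf 994))))) (.leaf 3755)) (.node (.leaf 13057)
    (.node (.leaf 12195) (.leaf 5843))))

theorem chk_T0 : chk T0 = true := by decide +kernel

end Pool.Agent.MP_88bd62_nt.U.D
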