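import Pool.Agent.MP_88bd62_nt.U.DP

/-! The table of bounds for the explicit measure. -/

namespace Pool.Agent.MP_88bd62_nt.U.A

open D (Tb)

def T1 : Tb :=
  .node (.node (.node (.node (.node (.node (.leaf 1488) (.node (.leaf 777) (.node (.leaf 259)
  (.leaf 1469)))) (.node (.node (.leaf 1453) (.leaf 5600)) (.leaf 1436))) (.leaf 5464)) (.leaf
  20262)) (.leaf 18262)) (.node (.node (.node (.leaf 4062) (.node (.node (.leaf 1998) (.leaf
  1023)) (.node (.node (.leaf 1032) (.node (.leaf 546) (.node (.leaf 1946) (.leaf 321)))) (.node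
  (.node (.node (.node (.leaf 542) (.leaf 189)) (.node (.node (.leaf 103) (.node (.node (.leaf
  127) (.leaf 94)) (.node (.node (.node (.node (.node (.leaf 84) (.leaf 138)) (.leaf 138)) (.leaf
  120)) (.leaf 106)) (.leaf 114)))) (.node (.leaf 152) (.leaf 187)))) (.leaf 313)) (.leaf 994)))))
  (.node (.leaf 3755) (.leaf 3530))) (.leaf 13057))

end Pool.Agent.MP_88bd62_nt.U.A
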