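import Mathlib.Data.Nat.Notation

/-! Joining pieces of data. -/

namespace Pool.Agent.MP_88bd62_nt.U.A

def jn (s a b : ℕ) : ℕ := Nat.add a (Nat.shiftLeft b s)

end Pool.Agent.MP_88bd62_nt.U.A
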