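import Pool.Agent.MP_88bd62_nt.U.Prg
import Pool.Agent.MP_88bd62_nt.U.DecJ

/-! Unpacking of the data.  Nothing is proved about these functions: their values are checked. -/

namespace Pool.Agent.MP_88bd62_nt.U.A

noncomputable section

def un4 (n q a b c m : ℕ) : ℕ :=
  Nat.add (Nat.add (Nat.add (Nat.land a m) (shl (Nat.land b m) q))
      (shl (Nat.add (Nat.land (Nat.shiftRight a 32) m) (shl (Nat.land (Nat.shiftRight b 32) m) q))
        (Nat.mul 2 q)))
    (shl (Nat.land c (Nat.sub (shl 1 (Nat.sub n (Nat.mul 4 q))) 1)) (Nat.mul 4 q))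

def un3 (n q x h o m₀ m₂ : ℕ) : ℕ :=
  un4 n q (Nat.add (Nat.land x m₂) (Nat.shiftLeft (Nat.land h m₂) 16))
    (Nat.add (Nat.land (Nat.shiftRight x 16) m₂) (Nat.land h (Nat.shiftLeft m₂ 16)))
    (Nat.add (Nat.land (Nat.shiftRight x 64) m₀) (Nat.land (Nat.shiftRight h 48) (Nat.shiftLeft m₀ 16)))
    (Nat.mul o 4294967295)

def un2 (n q x y o f g : ℕ) : ℕ :=
  un3 n q x (Nat.sub (Nat.add g (Nat.shiftLeft f 12))
      (Nat.shiftLeft (Nat.land g (Nat.mul (Nat.land (Nat.shiftRight y 15) f) 32767)) 1)) o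
    (Nat.mul o 65535) (Nat.mul o 281470681808895)

def un1 (n q x y o f : ℕ) : ℕ := un2 n q x y o f (Nat.land y (Nat.mul f 32767))

/-- Five fields of `16` bits in each digit, with sparse signed high parts `y`. -/
def unf (n q x y : ℕ) : ℕ := un1 n q x y (on q) (Nat.mul (on q) 18447025552981295105)

/-- Running sums. -/
def cum (t u : ℕ) : ℕ := Nat.div (Nat.sub (Nat.add (Nat.mul t PG) (Nat.mul ON zoff)) u) B1

end

end Pool.Agent.MP_88bd62_nt.U.A
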