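import Pool.Agent.MP_88bd62_nt.Euler

/-! Definitions for the upper bound on the summatory function of `(-2)^Ω(n)`. -/

namespace Pool.Agent.MP_88bd62_nt.U

open Finset Real
open ArithmeticFunction (cardFactors)
open scoped ENNReal

noncomputable section

/-- Position of `n` on the logarithmic circle. -/
def th (n : ℕ) : ℝ := logb 2 n

/-- The character `exp (π k v i)` of the circle of length two. -/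
def ee (k : ℤ) (v : ℝ) : ℂ := Complex.exp ((π * k * v : ℝ) * Complex.I)

/-- The height of the pole number `k`. -/
def tk (k : ℤ) : ℝ := π * k / log 2

def sk (k : ℤ) : ℂ := 1 + (tk k : ℝ) * Complex.I

/-- The antiperiodic saw. -/
def sg (v : ℝ) : ℝ := 2 / 3 * (-1) ^ ⌊v⌋ * 2 ^ ((⌊v⌋ : ℝ) - v)

/-- Fourier coefficient of the saw at odd `k`. -/
def sh (k : ℤ) : ℂ := 1 / ((log 2 : ℝ) + (π * k : ℝ) * Complex.I)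

/-- `(-2)^Ω` on odd numbers. -/
def fo (n : ℕ) : ℝ := if Odd n then (-2) ^ cardFactors n else 0

/-- The continuation of the Dirichlet series of `fo`. -/
def FF (s : ℂ) : ℂ := Complex.exp (Lam s) / ((1 - (2 : ℂ) ^ (-s)) * riemannZeta s) ^ 2

/-- The Dirichlet series of `a` at `sk k`. -/
def Ser (a : ℕ → ℝ) (k : ℤ) : ℂ := ∑' n : ℕ, ((a n / n : ℝ) : ℂ) * ee k (-th n)

def Phi (a : ℕ → ℝ) (u : ℝ) : ℝ := ∑' n : ℕ, a n / n * sg (u - th n)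

/-- Absolute convergence on the line of real part one. -/
def AC (a : ℕ → ℝ) : Prop := Summable fun n : ℕ => |a n| / n

/-! The Jackson kernel -/

def cN (N : ℕ) : ℝ := N * (2 * (N : ℝ) ^ 2 + 1) / 3

def cub (r : ℝ) : ℝ := (r ^ 3 - r) / 6

def wk (N : ℕ) (k : ℤ) : ℝ :=
  if 2 * (N : ℤ) ≤ |k| then 0 else
    (cub (2 * N - |(k : ℝ)|) - if |k| ≤ (N : ℤ) then 4 * cub (N - |(k : ℝ)|) else 0) / cN N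

def ker (N : ℕ) (y : ℝ) : ℝ := ∑ k ∈ Ioo (-(2 * N : ℤ)) (2 * N), wk N k * cos (π * k * y)

def Kset (N : ℕ) : Finset ℤ := (Ioo (-(2 * N : ℤ)) (2 * N)).filter Odd

/-- The low pass trigonometric polynomial with coefficients `c`. -/
def LPc (N : ℕ) (c : ℤ → ℂ) (u : ℝ) : ℂ := ∑ k ∈ Kset N, (wk N k : ℂ) * c k * sh k * ee k u

/-- The high pass part. -/
def HP (N : ℕ) (a : ℕ → ℝ) (u : ℝ) : ℂ := (Phi a u : ℂ) - LPc N (Ser a) u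

def Psi (N : ℕ) (c : ℤ → ℂ) (a : ℕ → ℝ) (u : ℝ) : ℂ := LPc N c u + HP N a u

/-- Distance to the nearest integer. -/
def dZ (x : ℝ) : ℝ := |x - round x|

/-- Weight of a jump at distance `d`. -/
def psi (N : ℕ) (η d : ℝ) : ℝ :=
  1.007 * ((if N * d ≤ 1 / 2 then 1 / 2 else 0.045 / (N * d) ^ 3) +
    if d ≤ η then 3 / 2 * N * η else 0)

/-! Measures on the positive integers and interval bounds -/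

/-- Number of integers `j` with `th n + j` in `(α, β]`. -/
def cnt (n : ℕ) (α β : ℝ) : ℕ := (⌊β - th n⌋ - ⌊α - th n⌋).toNat

/-- Interval bound on the circle of length one. -/
def IB (ν : ℕ → ℝ≥0∞) (a b : ℝ) : Prop :=
  ∀ α β : ℝ, α ≤ β → β - α ≤ 1 / 64 →
    ∑' n, ν n * (cnt n α β : ℝ≥0∞) ≤ ENNReal.ofReal (a * (β - α) + b)

def conv (ν μ : ℕ → ℝ≥0∞) (n : ℕ) : ℝ≥0∞ := ∑ x ∈ n.divisorsAntidiagonal, ν x.1 * μ x.2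

/-- All prime factors are at most `2 ^ j`. -/
def Sm (j n : ℕ) : Prop := ∀ p, p.Prime → p ∣ n → p ≤ 2 ^ j

def hh (n : ℕ) : ℝ :=
  ∏ p ∈ n.primeFactors, if n.factorization p = 1 then 0 else 2 ^ (n.factorization p - 2)

open Classical in
def nuS (n : ℕ) : ℝ≥0∞ :=
  if Odd n ∧ ∀ p, p.Prime → p ∣ n → p ≤ 7 then ENNReal.ofReal (2 ^ cardFactors n / n) else 0

def nuH (n : ℕ) : ℝ≥0∞ := if n.Coprime 210 then ENNReal.ofReal (hh n / n) else 0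

open Classical in
/-- The divisor function over `n` on the numbers prime to `210` with property `Q`. -/
def nuD (Q : ℕ → Prop) (n : ℕ) : ℝ≥0∞ :=
  if n.Coprime 210 ∧ Q n then ENNReal.ofReal ((n.divisors.card : ℝ) / n) else 0

open Classical in
def nuF (j n : ℕ) : ℝ≥0∞ :=
  if Odd n ∧ Sm j n then ENNReal.ofReal (2 ^ cardFactors n / n) else 0

def muP (j : ℕ) (c : ℕ → ℝ) (n : ℕ) : ℝ≥0∞ :=
  if n.Prime ∧ 2 ^ j < n then ENNReal.ofReal (c n / n) else 0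

/-- Odd primes up to `2 ^ j`. -/
def Pr (j : ℕ) : Finset ℕ := (Icc 3 (2 ^ j)).filter Nat.Prime

def Fb (j : ℕ) : ℝ := ∏ p ∈ Pr j, (1 - 2 / (p : ℝ))⁻¹

def Mz (j : ℕ) : ℝ := ∏ p ∈ (Icc 11 (2 ^ j)).filter Nat.Prime, (1 - 1 / (p : ℝ))⁻¹

def Fz (j : ℕ) (s : ℂ) : ℂ := ∏ p ∈ Pr j, (1 + 2 * (p : ℂ) ^ (-s))⁻¹

/-- Bound for the sum of `1 / p ^ 2` over primes above `2 ^ j`. -/
def S2 (j : ℕ) : ℝ := 8 / 35 / 2 ^ j + 3.03 / 4 ^ j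

/-! The approximants -/

def gam (x : ℝ) (K : ℕ) (y : ℝ) : ℝ := exp (-(x * y)) * ∑ i ∈ range K, (x * y) ^ i / i.factorial

def ct (j : ℕ) (x : ℝ) (K p : ℕ) : ℝ := if p ≤ 4 ^ j then 1 else gam x K (log p)

def chi (j : ℕ) (c : ℕ → ℝ) (n : ℕ) : ℝ :=
  match n.primeFactorsList.filter (fun p => 2 ^ j < p) with
  | [] => 1
  | [p] => c p
  | _ => 0

def pc (j : ℕ) (c : ℕ → ℝ) (n : ℕ) : ℝ := fo n * chi j c n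

def LL (j : ℕ) (c : ℕ → ℝ) (k : ℤ) : ℂ :=
  ∑' p : ℕ, if p.Prime ∧ 2 ^ j < p then ((c p / p : ℝ) : ℂ) * ee k (-th p) else 0

/-- Geometric decay of the weight `c` beyond level `J`. -/
def Lev (c : ℕ → ℝ) (J : ℕ) (θ : ℝ) : Prop :=
  (∀ p, 0 ≤ c p ∧ c p ≤ 1) ∧
    ∀ j p : ℕ, (2 : ℝ) ^ ((j : ℝ) - 1 / 64) ≤ p → c p ≤ θ ^ (j - J)

/-- Bounds for the number of primes in intervals at the levels from `j₀` on. -/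
def Cnt (sl el : ℕ → ℝ) (j₀ : ℕ) : Prop :=
  ∀ j, j₀ ≤ j → 0 ≤ sl j ∧ 0 ≤ el j ∧ ∀ X h : ℝ, (2 : ℝ) ^ ((j : ℝ) - 1 / 64) ≤ X → 0 ≤ h →
    (((Ioc ⌊X⌋₊ ⌊X + h⌋₊).filter Nat.Prime).card : ℝ) ≤ sl j * h + el j

/-- Mean square bound with Poisson weights. -/
def L2B (X : ℤ → ℝ) (q D E : ℝ) : Prop :=
  ∀ l : ℝ, 0 < l → l ≤ 1 / 10 → ∀ S : Finset ℤ, (∀ k ∈ S, Odd k) →
    ∑ k ∈ S, exp (-(l * |(k : ℝ)|)) * X k ≤ q + D / l + E * l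

/-! Bounds for the zeta function -/

def al0 (L : ℝ) : ℝ := log (L / 2 + 3.1)

def al1 (L : ℝ) : ℝ := 2 * (L / 4 + log 6.7 - al0 L)

def al2 (L : ℝ) : ℝ := L / 2 + log (1.132 * L + 4.45) - 2 * (L / 4 + log 6.7) + al0 L

def Kg (a0 a1 a2 : ℝ) : ℝ :=
  ((2 * a0 + a1 * π / 2 + a2 * 4 / 3) / π + (0.39 * π + 0.668) / (π * 0.999)) / 0.999

def Jg (a0 a1 a2 : ℝ) : ℝ :=
  (a0 * (π - 2) + a1 * (2 - π / 2) + a2 * (π / 2 - 4 / 3) + (a0 + 0.2) * (π + 2)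
    - 1.9 * 0.999 * (2 + π / 2)) / (2 * π)

def Kf (L : ℝ) : ℝ := Kg (al0 L) (al1 L) (al2 L)

def Jf (L : ℝ) : ℝ := Jg (al0 L) (al1 L) (al2 L)

/-- Coefficients of `(0.91 + cos) ^ 2 * (0.28 + cos) ^ 2`. -/
def ta : ℕ → ℝ
  | 0 => 1.40277304
  | 1 => 2.391424
  | 2 => 1.46285
  | 3 => 0.595
  | 4 => 0.125
  | _ => 0

def Sbar (KK η : ℝ) : ℝ := ta 0 / ta 1 * (1 / η - 0.4) + KK

/-- The data of the bounds up to height `T`. -/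
def ZOK (T : ℝ) (L : ℕ → ℝ) (KK : ℝ) : Prop :=
  (∀ j ∈ Icc 1 4, 17 ≤ L j ∧ j * T + 1 ≤ 2 * π * exp (L j)) ∧
    ∑ j ∈ Icc 1 4, ta j * Kf (L j) ≤ ta 1 * KK

/-- Zero free region. -/
def ZF (T δ : ℝ) : Prop :=
  ∀ ρ : ℂ, riemannZeta ρ = 0 → 3 ≤ |ρ.im| → |ρ.im| ≤ T → ρ.re ≤ 1 - δ

def lvG (ℓ S J η δ : ℝ) : ℝ :=
  (1 + 2 * (η / 0.999) / (1 - η / 0.999)) * ℓ + S * ((η + δ) * log (1 + η / δ)) / (1 - η / 0.999)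
    + 2 * (η / 0.999) * (1 + η / 0.999) / (1 - η / 0.999) ^ 3 * J

def bl (a : ℂ) (r : ℝ) (ρ z : ℂ) : ℂ := r * (z - ρ) / (r ^ 2 - (starRingEnd ℂ) (ρ - a) * (z - a))

/-- Bound of the block sums in the second derivative test. -/
def blk (τ : ℝ) (ν : ℕ) : ℝ := √(τ / π) * (3.01 / ν + 1 / (ν + 1)) + 1

def tailB (τ A : ℝ) : ℝ :=
  ∑ ν ∈ Icc 1 ⌊1.04 * τ / A⌋₊, blk τ ν / max A (τ / (ν + 1) - 1)
    + (√(τ / π) + 1.01) / max (A - 1) (τ - 2)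

/-! Closed forms of the sums over levels -/

def slH (j₀ : ℕ) (g : ℝ) (j : ℕ) : ℝ := 1 / (g * ((j : ℝ) - j₀) * log 2)

def elH (j₀ : ℕ) (g : ℝ) (j : ℕ) : ℝ := (2 ^ (g * ((j : ℝ) - j₀)) + 1) ^ 2

def hiB (j₀ j₁ : ℕ) (g : ℝ) : ℝ :=
  (1 + 2 ^ (-(g * ((j₁ : ℝ) - j₀)))) ^ 2 / 2 ^ j₀ * 2 ^ (-((1 - 2 * g) * ((j₁ : ℝ) - j₀)))
    / (1 - 2 ^ (-(1 - 2 * g)))

def eM (jz : ℕ) : ℝ := 1.42 / (jz * log 2)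

def Atot (jz j₀ J : ℕ) (g θ : ℝ) : ℝ :=
  log ((J + 1) / jz) + eM jz + (slH j₀ g J + 4 / 2 ^ j₀) * (θ / (1 - θ))

def aP (jz jo j₀ j₁ J : ℕ) (g θ : ℝ) : ℝ :=
  1.011 * (log 2 * (((jo : ℝ) - jz) / 2 + 8 / 35 * ((j₁ : ℝ) - jo))
    + 1 / g * log (((J : ℝ) - j₀) / ((j₁ : ℝ) - j₀ - 1)) + log 2 * slH j₀ g J * (θ / (1 - θ)))

def bP (jz jo j₀ j₁ : ℕ) (g : ℝ) : ℝ :=
  1.011 * (2 / 2 ^ jz - 2 / 2 ^ jo + 6.06 / 2 ^ jo + hiB j₀ j₁ g)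

def qP (jz jl j₀ j₁ J : ℕ) (g θ : ℝ) : ℝ :=
  1.011 * (log 2 * ((jl : ℝ) - jz) * (log ((jz + jl + 1) / (2 * jz)) + eM jz)
    + 8 / 35 * log 2 * ((j₁ : ℝ) - jl) * (log ((jl + j₁ + 1) / (2 * jz)) + eM jz)
    + 1 / g * ((log ((J : ℝ) - j₀) ^ 2 - log ((j₁ : ℝ) - j₀ - 1) ^ 2) / 2
      - log jz * log (((J : ℝ) - j₀ + 1) / ((j₁ : ℝ) - j₀))
      + 2 * (√(1 + (j₀ + 1) / ((j₁ : ℝ) - j₀ - 1)) - 1)
      + eM jz * log (((J : ℝ) - j₀) / ((j₁ : ℝ) - j₀ - 1)))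
    + log 2 * slH j₀ g J * (θ / (1 - θ)) * Atot jz j₀ J g θ)

def DP (jz jl j₀ j₁ J : ℕ) (g θ : ℝ) : ℝ :=
  S2 jz + 2.025 * (6.06 / 2 ^ jl * (log ((j₁ : ℝ) / jz) + eM jz) + hiB j₀ j₁ g * Atot jz j₀ J g θ)

/-- Admissible level parameters. -/
def LOK (jz jl j₀ j₁ J : ℕ) (g θ : ℝ) : Prop :=
  20 ≤ jz ∧ jz ≤ jl ∧ jl ≤ j₁ ∧ j₀ + 4 ≤ j₁ ∧ j₁ ≤ J ∧ 0 < g ∧ g < 1 / 2 ∧ 0 < θ ∧ θ < 1 ∧
    slH j₀ g j₁ ≤ 8 / 35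

def aHy (jY jD : ℕ) : ℝ :=
  1.011 * log 2 * (2 * jD - jY + 1) * (1 + 2 / 35 * log 2 * (jY + 2 * jD + 2))

def bHy (jY : ℕ) : ℝ := 2.022 * (0.781 / √(2 ^ jY) + 6.06 / 2 ^ jY)

def aGr (jz : ℕ) (M : ℝ) : ℝ := 2 * M ^ 2 * (1.011 * log 2 * (8 / 35) * (jz + 1))

def bGr (jD : ℕ) (M : ℝ) : ℝ := 2 * M ^ 2 * (1.011 * 6.06 / 2 ^ jD)

/-! The explicit part of the first stage -/

def E0 : Finset ℕ := {1, 3, 13, 25, 27, 49, 65, 391, 783, 1565, 3129}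

def a1 (n : ℕ) : ℝ := if n ∈ E0 then fo n else 0

/-- Exponents of `3, 5, 7`. -/
def SB : Finset (ℕ × ℕ × ℕ) := range 34 ×ˢ range 15 ×ˢ range 11

def sN (s : ℕ × ℕ × ℕ) : ℕ := 3 ^ s.1 * 5 ^ s.2.1 * 7 ^ s.2.2

def sW (s : ℕ × ℕ × ℕ) : ℝ := (2 / 3) ^ s.1 * (2 / 5) ^ s.2.1 * (2 / 7) ^ s.2.2

def MB : Finset ℕ := (Icc 1 (2 ^ 20)).filter (fun m => m.Coprime 210)

def mW (m : ℕ) : ℝ := (m.divisors.card : ℝ) / m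

/-- Pairs `(q, j)` standing for `q ^ j`. -/
def HA : Finset (ℕ × ℕ) :=
  (((Icc 11 (2 ^ 15)).filter (fun q => q.Coprime 210)) ×ˢ {2}) ∪
    (((Icc 11 (2 ^ 9)).filter (fun q => q.Coprime 210)) ×ˢ {3}) ∪
    (({11, 13, 17, 19, 23, 29, 31, 37} : Finset ℕ) ×ˢ {4}) ∪
    (({11, 13, 17, 19} : Finset ℕ) ×ˢ {5}) ∪ (({11, 13} : Finset ℕ) ×ˢ {6})

def hW (α : ℕ × ℕ) : ℝ := 2 ^ (α.2 - 2) / (α.1 : ℝ) ^ α.2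

/-- The explicit measure integrated against a function of the node. -/
def Eint (φ : ℕ → ℝ) : ℝ :=
  ∑ s ∈ SB, ∑ m ∈ MB, sW s * mW m * ((if sN s * m ∈ E0 then 0 else φ (sN s * m))
    + ∑ α ∈ HA, hW α * φ (sN s * m * α.1 ^ α.2)
    + ∑ α ∈ HA, ∑ β ∈ HA, hW α * hW β / 2 * φ (sN s * m * α.1 ^ α.2 * β.1 ^ β.2))

def Bexp (η u : ℝ) : ℝ := Eint fun n => psi (2 ^ 20) η (dZ (u - th n))

/-! The summatory functions -/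

def TT (y : ℝ) : ℝ := ∑ n ∈ Icc 1 ⌊y⌋₊, fo n

def ax (x : ℝ) (n : ℕ) : ℝ := if (n : ℝ) ≤ x then fo n else 0

def FS (k : ℤ) : ℂ := FF (sk k)

/-- The weighted remainder on the band up to `2 N'`. -/
def Rem (N N' : ℕ) (s C : ℝ) (a : ℕ → ℝ) : ℝ :=
  ∑ k ∈ Kset N', min (s * |(k : ℝ)| / (2 * N)) C * ‖FS k - Ser a k‖ / (π * |(k : ℝ)|)

/-! The stages -/

/-- The cost of a mean square bound on a band. -/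
def Wc (N : ℕ) (q D E c a b : ℝ) : ℝ :=
  c / π * ((q + E * b / (2 * N)) * (b - a) / (2 * N) + D * log (b / a))

def WOK (N N' : ℕ) (s C c a b : ℝ) : Prop :=
  0 < s ∧ 0 < C ∧ 0 < c ∧ 0 < a ∧ a < b ∧ b ≤ N / 5 ∧ C / s ≤ N' / N ∧
    C ≤ c * (exp (-(a * (C / s))) - exp (-(b * (C / s)))) ∧
    C ≤ c * (exp (-(a * (N' / N))) - exp (-(b * (N' / N))))

def hpCost (N : ℕ) (η A B m : ℝ) : ℝ :=
  1.007 * (A * (0.4225 / N + 3 * N * η ^ 2) + B * (1 / 2 + 3 / 2 * N * η))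
    + (A + 64 * B + m) / (N : ℝ) ^ 2

/-- The parameters of a stage. -/
structure Par where
  (n n' jz K J jl j₀ j₁ jo p₀ p₁ jD : ℕ)
  (x θ g δ η₀ η₁ T KK Mb A ε f gl gp q D E pa pb x₀ lam c a b L₁ L₂ L₃ L₄ : ℝ)

def Par.L (P : Par) : ℕ → ℝ
  | 1 => P.L₁
  | 2 => P.L₂
  | 3 => P.L₃
  | _ => P.L₄

def Par.w (P : Par) : ℕ → ℝ := ct P.jz P.x P.K

def Par.ap (P : Par) : ℕ → ℝ := pc P.jz P.w

def XOK (P : Par) : Prop :=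
  20 ≤ P.n ∧ P.n ≤ P.n' ∧ 20 ≤ P.jz ∧ 1 ≤ P.K ∧ 2 * P.jz < P.J ∧ 0 < P.x ∧ 0 < P.δ ∧
    P.δ ≤ 1 / 50 ∧ P.x + P.δ ≤ 1 / 4 ∧ 0 < P.η₀ ∧ P.η₀ ≤ 1 / 50 ∧ 0 < P.g ∧ P.g < 1 ∧ 0 < P.θ ∧
    P.θ < 1 ∧ P.ε ≤ 1 / 100 ∧ π * 2 ^ (P.n' + 1) / log 2 + 1 ≤ P.T ∧ ZOK P.T P.L P.KK ∧
    Sbar P.KK P.η₀ ≤ 1 / (P.η₀ + P.δ) - 1.003 * (P.η₀ + P.δ) ∧ 2 ^ (-(P.g * P.x)) ≤ P.θ ∧
    P.K * log (1 / (1 - P.g)) ≤ P.g * P.x * (((P.J : ℝ) - 1 / 64) * log 2) ∧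
    2 * (2 * (al0 P.L₁ + al1 P.L₁ * P.δ + al2 P.L₁ * P.δ ^ 2
        + 2 ^ (P.jz * P.δ) * (1.18 + log P.Mb) + log (1 + 1 / P.x))
        * (P.x / (P.x + P.δ)) ^ P.K / (1 - P.x / (P.x + P.δ))
      + (P.x * (2 * P.jz * log 2)) ^ P.K / P.K.factorial * (P.jz * log 2)) + 4.01 * S2 P.jz ≤ P.ε

def GOK (P : Par) : Prop :=
  231 * exp (2.0001 * (log (P.jz / 20) + eM 20)) ≤ P.A ∧
    5.65 * exp (1.0001 * (log (P.jz / 20) + eM 20)) ≤ P.Mb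

def LB (P : Par) : Prop :=
  LOK P.jz P.jl P.j₀ P.j₁ P.J P.gl P.θ ∧ qP P.jz P.jl P.j₀ P.j₁ P.J P.gl P.θ ≤ P.q ∧
    DP P.jz P.jl P.j₀ P.j₁ P.J P.gl P.θ ≤ P.D ∧ 420 * Atot P.jz P.j₀ P.J P.gl P.θ ^ 2 ≤ P.E

def PB (P : Par) : Prop :=
  LOK P.jz P.jo P.p₀ P.p₁ P.J P.gp P.θ ∧ aP P.jz P.jo P.p₀ P.p₁ P.J P.gp P.θ ≤ P.pa ∧
    bP P.jz P.jo P.p₀ P.p₁ P.gp ≤ P.pb ∧ 0 ≤ P.pa ∧ 0 ≤ P.pb

def ROK (P : Par) (r : ℝ) : Prop :=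
  0 < P.η₁ ∧ P.η₁ ≤ 1 / 50 ∧ 0 < P.x₀ ∧ 0 ≤ P.ε ∧ 0 ≤ P.lam ∧
    2.35 * (4 / 9) * exp (2 * lvG (log ((1 / P.η₁ + 1) / 1.6)) (Sbar P.KK P.η₁) (Jf P.L₁) P.η₁ P.δ)
      ≤ P.f ∧
    P.A * (exp (2 * P.x₀) - 1 - 2 * P.x₀) ≤ P.lam * P.x₀ ^ 2 ∧
    P.f * (1 + 1.01 * P.ε) + P.A * (1 + 2 * P.x₀) ≤ P.lam * P.x₀ ^ 2 ∧
    WOK (2 ^ P.n) (2 ^ P.n') 1.501 1 P.c P.a P.b ∧
    2.02 * P.A * P.ε * ((1.501 + ((P.n' : ℝ) - P.n) * log 2) / π)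
      + (P.lam + 1.01 * P.ε * (P.A + P.lam)) * Wc (2 ^ P.n) P.q P.D P.E P.c P.a P.b ≤ r

def R0OK (P : Par) (m : ℕ) (za zb V S s C c a b c' a' b' la lb r : ℝ) : Prop :=
  0 < zb ∧ zb ≤ za ∧ 0 ≤ P.ε ∧ 0 ≤ la ∧ la ≤ lb ∧
    4 / 3 * (P.A * exp (2 * V - 2 * S)) + 2 / 3 * (2.35 * (4 / 9) / za ^ 2) * (1 + 1.01 * P.ε) ≤ la ∧
    4 / 3 * P.A + 2 / 3 * (2.35 * (4 / 9) / zb ^ 2) * (1 + 1.01 * P.ε) ≤ lb ∧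
    WOK (2 ^ P.n) (2 ^ P.n') s C c a b ∧ WOK (2 ^ m) (2 ^ P.n') C C c' a' b' ∧
    1.01 * (2.35 * (4 / 9) / zb ^ 2) * P.ε * ((s + C * (((P.n' : ℝ) - P.n) * log 2)) / π)
      + la * Wc (2 ^ P.n) P.q P.D P.E c a b + (lb - la) * Wc (2 ^ m) P.q P.D P.E c' a' b' ≤ r

def AG (P : Par) (j : ℕ) : ℝ :=
  7.259 * (aHy (2 * j) P.jD + aGr P.jz P.Mb) + 7.35 * S2 j * (272 + aHy 30 P.jD + aGr P.jz P.Mb)
    + 2 * P.A * P.pa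

def BG (P : Par) (j : ℕ) : ℝ :=
  7.259 * (bHy (2 * j) + bGr P.jD P.Mb) + 7.35 * S2 j * (2.100122 + bHy 30 + bGr P.jD P.Mb)
    + 2 * P.A * P.pb

def HOK (P : Par) (j : ℕ) (h : ℝ) : Prop :=
  10 ≤ j ∧ j ≤ P.jz ∧ P.jz ≤ 2 * j ∧ j ≤ P.jD ∧ 15 ≤ P.jD ∧
    hpCost (2 ^ P.n) 0 (AG P j) (BG P j) 0 ≤ h

def A0 (P : Par) : ℝ := 0.035 + 7.259 * (172 + aHy 30 P.jD + aGr 20 P.Mb) + 2 * P.A * P.pa

def B0 (P : Par) : ℝ := 0.000735 + 7.259 * (0.000122 + bHy 30 + bGr P.jD P.Mb) + 2 * P.A * P.pb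

def par0 : Par where
  n := 20
  n' := 25
  jz := 20
  K := 290
  J := 7620
  jl := 30
  j₀ := 36
  j₁ := 52
  jo := 24
  p₀ := 29
  p₁ := 43
  jD := 25
  x := 0.058
  θ := 0.996
  g := 0.1
  δ := 0.00417
  η₀ := 0.0138
  η₁ := 0.0144
  T := 305000000
  KK := 13.3
  Mb := 5.65
  A := 231
  ε := 0.0000019
  f := 0
  gl := 0.49
  gp := 0.49
  q := 47.5
  D := 0.000000242
  E := 16000
  pa := 17.7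
  pb := 0.0000023
  x₀ := 1
  lam := 0
  c := 1
  a := 1
  b := 1
  L₁ := 17.71
  L₂ := 18.4
  L₃ := 18.81
  L₄ := 19.1

def par1 : Par where
  n := 25
  n' := 28
  jz := 27
  K := 380
  J := 10750
  jl := 33
  j₀ := 39
  j₁ := 56
  jo := 29
  p₀ := 33
  p₁ := 47
  jD := 31
  x := 0.054
  θ := 0.9963
  g := 0.1
  δ := 0.00385
  η₀ := 0.0127
  η₁ := 0.0134
  T := 2440000000
  KK := 14.38
  Mb := 8.5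
  A := 518
  ε := 0.00000001
  f := 68900
  gl := 0.49
  gp := 0.49
  q := 45.1
  D := 0.0000000042
  E := 16000
  pa := 17.7
  pb := 0.000000031
  x₀ := 2.48
  lam := 11750
  c := 11.4
  a := 0.047
  b := 0.19
  L₁ := 19.79
  L₂ := 20.48
  L₃ := 20.89
  L₄ := 21.18

def par2 : Par where
  n := 28
  n' := 38
  jz := 30
  K := 300
  J := 15400
  jl := 37
  j₀ := 43
  j₁ := 61
  jo := 32
  p₀ := 36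
  p₁ := 50
  jD := 35
  x := 0.03
  θ := 0.998
  g := 0.1
  δ := 0.003
  η₀ := 0.01
  η₁ := 0.011
  T := 2500000000000
  KK := 18
  Mb := 9.5
  A := 640
  ε := 0.0000000012
  f := 105000
  gl := 0.49
  gp := 0.49
  q := 48.6
  D := 0.00000000038
  E := 18000
  pa := 19
  pb := 0.000000004
  x₀ := 2.6
  lam := 16700
  c := 7.9
  a := 0.002
  b := 0.21
  L₁ := 26.8
  L₂ := 27.5
  L₃ := 27.9
  L₄ := 28.2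

def par3 : Par where
  n := 38
  n' := 64
  jz := 40
  K := 330
  J := 26000
  jl := 48
  j₀ := 52
  j₁ := 72
  jo := 42
  p₀ := 46
  p₁ := 62
  jD := 45
  x := 0.02
  θ := 0.999
  g := 0.1
  δ := 0.0019
  η₀ := 0.007
  η₁ := 0.0075
  T := 170000000000000000000
  KK := 27.5
  Mb := 13
  A := 1200
  ε := 0.0000000001
  f := 300000
  gl := 0.45
  gp := 0.45
  q := 80
  D := 0.000000000001
  E := 30000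
  pa := 30
  pb := 0.00000000001
  x₀ := 3
  lam := 60000
  c := 5
  a := 0.00000001
  b := 0.5
  L₁ := 45
  L₂ := 46
  L₃ := 46
  L₄ := 47

def parT (n : ℕ) : Par where
  n := n
  n' := 2 * n
  jz := n
  K := n
  J := 101 * n ^ 2
  jl := n
  j₀ := n
  j₁ := 2 * n
  jo := n
  p₀ := n
  p₁ := 2 * n
  jD := n
  x := 1 / (50 * n)
  θ := 1 - 1 / (200 * n)
  g := 1 / 2
  δ := 1 / (50 * n)
  η₀ := 1 / (10 * n)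
  η₁ := 1 / (10 * n)
  T := 10 * 4 ^ n
  KK := 2 * n
  Mb := (n : ℝ) ^ 2
  A := (n : ℝ) ^ 3
  ε := (n : ℝ) ^ 2 / 2 ^ n
  f := (n : ℝ) ^ 5
  gl := 1 / 4
  gp := 1 / 4
  q := (n : ℝ) ^ 2
  D := n / 2 ^ n
  E := 420 * (n : ℝ) ^ 2
  pa := (n : ℝ) ^ 2
  pb := n / 2 ^ n
  x₀ := 1
  lam := 5 * (n : ℝ) ^ 5
  c := 4
  a := 1 / 2 ^ (n + 1)
  b := 2
  L₁ := 2 * n
  L₂ := 2 * n
  L₃ := 2 * n
  L₄ := 2 * n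

/-! The numerical input -/

def NumS : Prop := Fb 20 ≤ 231 ∧ Mz 20 ≤ 5.65 ∧ 2.1678 ≤ ∑ p ∈ Pr 16, (1 / p : ℝ)

def NumB (N : ℕ) (z : ℝ) : Prop := ∀ k ∈ Kset N, z ≤ ‖riemannZeta (sk k)‖

def NumC (j N : ℕ) (V : ℝ) : Prop :=
  ∀ k ∈ Kset N, ‖∑ p ∈ Pr j, ((1 / p : ℝ) : ℂ) * ee k (-th p)‖ ≤ V

def lowA (u u' : ℝ) : ℝ :=
  ‖LPc (2 ^ 20) (fun k => FS k - Ser a1 k) u' + (((2 : ℝ) ^ (u - u') * Phi a1 u : ℝ) : ℂ)‖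

def NumA (tf tm : ℝ) : Prop := ∀ u : ℝ, 0 ≤ u → u < 1 → ∃ u' : ℝ,
  (|u - u'| ≤ 1 / 2 ^ 24 ∧ lowA u u' + Bexp (1 / 2 ^ 24) u' ≤ tf) ∨
    (|u - u'| ≤ 1 / 2 ^ 22 ∧ lowA u u' + Bexp (1 / 2 ^ 22) u' ≤ tm)

end

end Pool.Agent.MP_88bd62_nt.U
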