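import Pool.Agent.MP_88bd62_nt.U.Stmts

/-! The disc lemma from the canonical factorisation. -/

namespace Pool.Agent.MP_88bd62_nt.U

open Finset Real Filter Topology

theorem xDisc_log {Z : Finset ℂ} {m : ℂ → ℕ} {g : ℂ} {b : ℂ → ℂ} (hb : ∀ ρ ∈ Z, b ρ ≠ 0) :
    log ‖Complex.exp g * ∏ ρ ∈ Z, b ρ ^ m ρ‖ = g.re + ∑ ρ ∈ Z, m ρ * log ‖b ρ‖ := by
  have h : ∀ ρ ∈ Z, ‖b ρ ^ m ρ‖ ≠ 0 := fun ρ hρ => norm_ne_zero_iff.2 (pow_ne_zero _ (hb ρ hρ))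
  rw [norm_mul, norm_prod, Complex.norm_exp, log_mul (exp_ne_zero _) (prod_ne_zero_iff.2 h),
    log_exp, log_prod h]
  simp only [norm_pow, log_pow]

theorem xDisc_lam {η r : ℝ} (h0 : 0 < η) (h1 : η ≤ 1 / 50) (hr : 0.999 ≤ r) :
    0 ≤ 2 * (η / r) / (1 - η / r) ∧
      2 * (η / r) / (1 - η / r) ≤ 2 * (η / 0.999) / (1 - η / 0.999) := by
  have h2 : η / r ≤ η / 0.999 := div_le_div_of_nonneg_left h0.le (by norm_num) hr
  have h3 : η / 0.999 < 1 := by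
    rw [div_lt_one (by norm_num)]
    linarith
  have h4 : 0 ≤ η / r := div_nonneg h0.le (by linarith)
  exact ⟨div_nonneg (by linarith) (by linarith),
    div_le_div₀ (by linarith) (by linarith) (by linarith) (by linarith)⟩

theorem stDisc (hDiscA : StDiscA) (hDiscB : StDiscB) (hDiscC : StDiscC) : StDisc := by
  intro f a a0 a1 a2 hf hfa h0 h1 h2 hz hup hlog
  obtain ⟨r, R, Z, m, G, hr, hr1, hrR, -, hG, hZ, hall, hfac⟩ := hDiscA f a hf hfa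
  have hr0 : 0 < r := by linarith
  have hre : ∀ ρ ∈ Z, 0 < (a - ρ).re := fun ρ hρ =>
    hz ρ ((hZ ρ hρ).1.le.trans hr1) (hZ ρ hρ).2.1
  have hC := fun ρ (hρ : ρ ∈ Z) => hDiscC a ρ r hr hr1 (hZ ρ hρ).1 (hre ρ hρ)
  have hball : ∀ z, ‖z - a‖ ≤ r → z ∈ Metric.ball a R := fun z hz =>
    mem_ball_iff_norm.2 (hz.trans_lt hrR)
  have hL : ∀ z, ‖z - a‖ ≤ r → (∀ ρ ∈ Z, bl a r ρ z ≠ 0) →
      log ‖f z‖ = (G z).re + ∑ ρ ∈ Z, m ρ * log ‖bl a r ρ z‖ := fun z hz hb => by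
    rw [hfac z (hball z hz), xDisc_log hb]
  have hcirc : ∀ z, ‖z - a‖ = r → ‖f z‖ = exp (G z).re := fun z hz => by
    rw [hfac z (hball z hz.le), norm_mul, norm_prod, Complex.norm_exp, prod_eq_one, mul_one]
    intro ρ hρ
    rw [norm_pow, (hC ρ hρ).1 z hz, one_pow]
  obtain ⟨hB1, hB2⟩ := hDiscB G a r R a0 a1 a2 hr hr1 hrR hG h0 h1 h2
    (fun z u hz hu hu' hzu => exp_le_exp.1 (hcirc z hz ▸ hup z u (hz.le.trans hr1) hu hu' hzu))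
    (fun z hz hz' => by
      have := hlog z (hz.le.trans hr1) hz'
      rwa [hcirc z hz, log_exp] at this)
  set s : ℂ → ℝ := fun ρ => (a - ρ).re * (1 / ‖a - ρ‖ ^ 2 - 1 / r ^ 2) with hs
  have hs0 : ∀ ρ ∈ Z, 0 ≤ s ρ := fun ρ hρ => by
    have h3 : 0 < ‖a - ρ‖ := (hre ρ hρ).trans_le (Complex.re_le_norm _)
    have h4 : ‖a - ρ‖ ≤ r := norm_sub_rev ρ a ▸ (hZ ρ hρ).1.le
    exact mul_nonneg (hre ρ hρ).le (sub_nonneg.2 (by gcongr))
  have hms : ∀ ρ ∈ Z, 0 ≤ m ρ * s ρ := fun ρ hρ => mul_nonneg (Nat.cast_nonneg _) (hs0 ρ hρ)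
  have haa : ‖a - a‖ ≤ r := by simpa using hr0.le
  refine ⟨∑ ρ ∈ Z, m ρ * s ρ, sum_nonneg hms, ?_, fun ρ hρ hf0 => ?_,
    fun η δ ℓ hη hη' hδ hℓ hzero hfl => ?_⟩
  · have hnh : Metric.ball a R ∈ 𝓝 a := Metric.isOpen_ball.mem_nhds (hball a haa)
    have hGa : DifferentiableAt ℂ G a := hG.differentiableAt hnh
    have e1 : f =ᶠ[𝓝 a] fun z => Complex.exp (G z) * ∏ ρ ∈ Z, bl a r ρ z ^ m ρ :=
      mem_of_superset hnh hfac
    have hd : ∀ ρ ∈ Z, DifferentiableAt ℂ (fun z => bl a r ρ z ^ m ρ) a := fun ρ hρ =>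
      (hC ρ hρ).2.2.2.1.pow _
    have hn : ∀ ρ ∈ Z, bl a r ρ a ^ m ρ ≠ 0 := fun ρ hρ => pow_ne_zero _ (hC ρ hρ).2.2.1
    have e2 : deriv f a / f a = deriv G a + ∑ ρ ∈ Z, m ρ * (deriv (bl a r ρ) a / bl a r ρ a) := by
      rw [← logDeriv_apply, (logDeriv_congr_nhds e1).eq_of_nhds,
        logDeriv_mul (f := fun z => Complex.exp (G z))
        (g := fun z => ∏ ρ ∈ Z, bl a r ρ z ^ m ρ) a (Complex.exp_ne_zero _)
        (prod_ne_zero_iff.2 hn) hGa.cexp (DifferentiableAt.fun_finsetProd hd),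
        logDeriv_prod (f := fun ρ z => bl a r ρ z ^ m ρ) hn hd]
      congr 1
      · rw [logDeriv_apply, deriv_cexp hGa, mul_div_cancel_left₀ _ (Complex.exp_ne_zero _)]
      · exact sum_congr rfl fun ρ hρ => logDeriv_fun_pow (hC ρ hρ).2.2.2.1 _
    rw [e2, Complex.add_re, Complex.re_sum, sum_congr rfl (g := fun ρ => m ρ * s ρ)]
    · linarith
    · intro ρ hρ
      rw [← Complex.ofReal_natCast, Complex.re_ofReal_mul, (hC ρ hρ).2.2.2.2.1]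
  · have hρ' : ρ ∈ Z := hall ρ (hρ.le.trans hr) hf0
    refine le_trans ?_ (single_le_sum hms hρ')
    have h3 : (1 : ℝ) ≤ m ρ := by exact_mod_cast (hZ ρ hρ').2.2.1
    have h4 : 1 / r ^ 2 ≤ 1.003 := by
      rw [div_le_iff₀ (by positivity)]
      nlinarith
    refine le_trans ?_ (le_mul_of_one_le_left (hs0 ρ hρ') h3)
    exact mul_le_mul_of_nonneg_left (by linarith) (hre ρ hρ').le
  · have hη2 : ‖a - η - a‖ ≤ r := by
      rw [sub_sub_cancel_left, norm_neg, Complex.norm_real, norm_of_nonneg hη.le]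
      linarith
    have hD := fun ρ (hρ : ρ ∈ Z) => (hC ρ hρ).2.2.2.2.2 η δ hη hη' hδ
      (hzero ρ ((hZ ρ hρ).1.le.trans hr1) (hZ ρ hρ).2.1)
    have hpos : 0 < ‖f (a - η)‖ := by
      rw [hfac _ (hball _ hη2)]
      exact norm_pos_iff.2 (mul_ne_zero (Complex.exp_ne_zero _)
        (prod_ne_zero_iff.2 fun ρ hρ => pow_ne_zero _ (hD ρ hρ).1))
    rw [← le_log_iff_exp_le hpos, hL _ hη2 fun ρ hρ => (hD ρ hρ).1]
    have e1 := hL a haa fun ρ hρ => (hC ρ hρ).2.2.1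
    have e2 : ∑ ρ ∈ Z, m ρ * log ‖bl a r ρ a‖ ≤ 0 := sum_nonpos fun ρ hρ =>
      mul_nonpos_of_nonneg_of_nonpos (Nat.cast_nonneg _)
        (log_nonpos (norm_nonneg _) (hC ρ hρ).2.1)
    have e3 : ∑ ρ ∈ Z, m ρ * log ‖bl a r ρ a‖ - (∑ ρ ∈ Z, m ρ * s ρ) *
        ((η + δ) * log (1 + η / δ)) / (1 - η / 0.999) ≤
        ∑ ρ ∈ Z, m ρ * log ‖bl a r ρ (a - η)‖ := by
      rw [sum_mul, sum_div, ← sum_sub_distrib]
      refine sum_le_sum fun ρ hρ => ?_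
      refine le_trans (le_of_eq ?_) (mul_le_mul_of_nonneg_left (hD ρ hρ).2 (Nat.cast_nonneg _))
      ring
    have e4 := hB2 η hη hη'
    obtain ⟨e5, e6⟩ := xDisc_lam hη hη' hr
    have e7 := mul_le_mul_of_nonneg_right e6 hℓ
    have e8 : -ℓ ≤ (G a).re := by linarith
    have e9 := mul_le_mul_of_nonneg_left e8 e5
    unfold lvG
    linarith

end Pool.Agent.MP_88bd62_nt.U
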