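import Pool.Agent.MP_88bd62_nt.U.Stmts

namespace Pool.Agent.MP_88bd62_nt.U

open Filter Topology Metric Set

theorem xDiscA_one {g : ℂ → ℂ} {U : Set ℂ} (hU : IsOpen U) (hc : IsPreconnected U)
    (hg : DifferentiableOn ℂ g U) {a ρ : ℂ} (ha : a ∈ U) (h0 : g a ≠ 0) (hρ : ρ ∈ U) :
    ∃ (n : ℕ) (h : ℂ → ℂ), DifferentiableOn ℂ h U ∧ h ρ ≠ 0 ∧
      ∀ z ∈ U, g z = (z - ρ) ^ n * h z := by
  classical
  have hA := hg.analyticOnNhd hU
  obtain ⟨n, k, k1, k2, k3⟩ := (hA ρ hρ).exists_eventuallyEq_pow_smul_nonzero_iff.2 fun h =>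
    h0 (hA.eqOn_zero_of_preconnected_of_eventuallyEq_zero hc hρ h ha)
  refine ⟨n, fun z => if z = ρ then k ρ else g z / (z - ρ) ^ n,
    fun z hz => DifferentiableAt.differentiableWithinAt ?_, by simpa using k2, fun z _ => ?_⟩
  · by_cases e : z = ρ
    · subst e
      refine k1.differentiableAt.congr_of_eventuallyEq ?_
      filter_upwards [k3] with w hw
      by_cases e : w = z
      · rw [if_pos e, e]
      · rw [if_neg e, hw, smul_eq_mul, mul_div_cancel_left₀ _ (pow_ne_zero n (sub_ne_zero.2 e))]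
    · refine (((hA z hz).differentiableAt).div (d := fun w => (w - ρ) ^ n) (by fun_prop)
        (pow_ne_zero n (sub_ne_zero.2 e))).congr_of_eventuallyEq ?_
      filter_upwards [isOpen_ne.mem_nhds e] with w hw
      exact if_neg hw
  · by_cases e : z = ρ
    · subst e
      simpa using k3.self_of_nhds
    · simp only [if_neg e]
      rw [mul_div_cancel₀ _ (pow_ne_zero n (sub_ne_zero.2 e))]

theorem xDiscA_all {f : ℂ → ℂ} {U : Set ℂ} (hU : IsOpen U) (hc : IsPreconnected U)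
    (hf : DifferentiableOn ℂ f U) {a : ℂ} (ha : a ∈ U) (h0 : f a ≠ 0) (Z : Finset ℂ)
    (hZ : ∀ ρ ∈ Z, ρ ∈ U) : ∃ (m : ℂ → ℕ) (g : ℂ → ℂ), DifferentiableOn ℂ g U ∧
      (∀ ρ ∈ Z, g ρ ≠ 0) ∧ ∀ z ∈ U, f z = g z * ∏ ρ ∈ Z, (z - ρ) ^ m ρ := by
  classical
  induction Z using Finset.induction_on with
  | empty => exact ⟨fun _ => 0, f, hf, by simp, by simp⟩
  | insert ρ Z hρ ih =>
    obtain ⟨m, g, g1, g2, g3⟩ := ih fun σ hσ => hZ σ (Finset.mem_insert_of_mem hσ)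
    obtain ⟨n, h, h1, h2, h3⟩ := xDiscA_one hU hc g1 ha
      (fun e => h0 (by rw [g3 a ha, e, zero_mul])) (hZ ρ (Finset.mem_insert_self ρ Z))
    refine ⟨Function.update m ρ n, h, h1, fun σ hσ => ?_, fun z hz => ?_⟩
    · rcases Finset.mem_insert.1 hσ with rfl | hσ'
      · exact h2
      · exact fun e => g2 σ hσ' (by rw [h3 σ (hZ σ hσ), e, mul_zero])
    · rw [Finset.prod_insert hρ, Function.update_self, g3 z hz, h3 z hz,
        Finset.prod_congr (s₁ := Z) (f := fun σ => (z - σ) ^ Function.update m ρ n σ)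
          (g := fun σ => (z - σ) ^ m σ) rfl fun σ hσ => by
          rw [Function.update_of_ne (ne_of_mem_of_not_mem hσ hρ)]]
      ring

theorem xDiscA_exp {h : ℂ → ℂ} {a : ℂ} {R : ℝ} (hR : 0 < R) (hh : DifferentiableOn ℂ h (ball a R))
    (hne : ∀ z ∈ ball a R, h z ≠ 0) :
    ∃ G : ℂ → ℂ, DifferentiableOn ℂ G (ball a R) ∧ ∀ z ∈ ball a R, h z = Complex.exp (G z) := by
  obtain ⟨G, hG0, hG⟩ := ((hh.deriv isOpen_ball).div hh hne).isExactOn_ball.with_val_at a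
    (Complex.log (h a))
  have hd : ∀ z ∈ ball a R, HasDerivAt (fun w => h w * Complex.exp (-G w)) 0 z := fun z hz => by
    refine ((hh.differentiableAt (isOpen_ball.mem_nhds hz)).hasDerivAt.mul
      (hG z hz).neg.cexp).congr_deriv ?_
    have := hne z hz
    simp only [Pi.div_apply, Pi.neg_apply]
    field_simp
    ring
  refine ⟨G, fun z hz => (hG z hz).differentiableAt.differentiableWithinAt, fun z hz => ?_⟩
  have h1 := isOpen_ball.is_const_of_deriv_eq_zero (convex_ball a R).isPreconnected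
    (fun z hz => (hd z hz).differentiableAt.differentiableWithinAt)
    (fun z hz => (hd z hz).deriv) hz (mem_ball_self hR)
  rw [hG0, Complex.exp_neg (Complex.log _), Complex.exp_log (hne a (mem_ball_self hR)),
    mul_inv_cancel₀ (hne a (mem_ball_self hR)), Complex.exp_neg,
    mul_inv_eq_one₀ (Complex.exp_ne_zero _)] at h1
  exact h1

theorem stDiscA : StDiscA := by
  classical
  intro f a hf h0
  have hc := (convex_ball a (3 / 2 : ℝ)).isPreconnected
  have ha : a ∈ ball a (3 / 2 : ℝ) := mem_ball_self (by norm_num)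
  have hsub : closedBall a (1.2 : ℝ) ⊆ ball a (3 / 2) := closedBall_subset_ball (by norm_num)
  have hS : {z | z ∈ closedBall a (1.2 : ℝ) ∧ f z = 0}.Finite := by
    by_contra hi
    obtain ⟨x, hx, h1⟩ := Set.Infinite.exists_accPt_of_subset_isCompact hi
      (isCompact_closedBall a 1.2) (sep_subset _ _)
    refine h0 ((hf.analyticOnNhd isOpen_ball).eqOn_zero_of_preconnected_of_frequently_eq_zero hc
      (hsub hx) ?_ ha)
    exact (accPt_iff_frequently_nhdsNE.1 h1).mono fun z hz => hz.2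
  obtain ⟨r, ⟨hr1, hr2⟩, hr3⟩ := ((Icc_infinite (show (0.999 : ℝ) < 1 by norm_num)).sdiff
    (hS.image fun z => ‖z - a‖)).nonempty
  have hr0 : 0 < r := by linarith
  have hev : ∀ᶠ R in 𝓝 r, R < 1.2 ∧ ∀ ρ ∈ {z | z ∈ closedBall a (1.2 : ℝ) ∧ f z = 0},
      (r < ‖ρ - a‖ → R < ‖ρ - a‖) ∧ (‖ρ - a‖ < r → ‖ρ - a‖ * R < r ^ 2) := by
    refine (gt_mem_nhds (by linarith)).and ((eventually_all_finite hS).2 fun ρ _ => ?_)
    refine Eventually.and ?_ ?_
    · by_cases h : r < ‖ρ - a‖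
      · exact (gt_mem_nhds h).mono fun R hR _ => hR
      · exact Eventually.of_forall fun R h' => absurd h' h
    · by_cases h : ‖ρ - a‖ < r
      · have hcont : Continuous fun R : ℝ => ‖ρ - a‖ * R := by fun_prop
        exact (hcont.continuousAt.eventually_lt continuousAt_const
          (show ‖ρ - a‖ * r < r ^ 2 by nlinarith)).mono fun R hR _ => hR
      · exact Eventually.of_forall fun R h' => absurd h' h
  obtain ⟨R, ⟨hR1, hR2⟩, hR3⟩ := ((hev.filter_mono nhdsWithin_le_nhds).and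
    (self_mem_nhdsWithin (s := Ioi r))).exists
  have hR3' : r < R := hR3
  set Z := hS.toFinset.filter fun ρ => ‖ρ - a‖ < r with hZ
  have hZm : ∀ ρ, ρ ∈ Z ↔ (ρ ∈ closedBall a (1.2 : ℝ) ∧ f ρ = 0) ∧ ‖ρ - a‖ < r := fun ρ => by
    simp only [hZ, Finset.mem_filter, Finite.mem_toFinset, mem_ofPred_eq]
  have hbs : ball a R ⊆ closedBall a (1.2 : ℝ) :=
    ball_subset_closedBall.trans (closedBall_subset_closedBall hR1.le)
  obtain ⟨m, g, g1, g2, g3⟩ := xDiscA_all isOpen_ball hc hf ha h0 Z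
    fun ρ hρ => hsub ((hZm ρ).1 hρ).1.1
  have hden : ∀ ρ ∈ Z, ∀ z ∈ ball a R,
      (r : ℂ) ^ 2 - (starRingEnd ℂ) (ρ - a) * (z - a) ≠ 0 := fun ρ hρ z hz e => by
    have h1 := congrArg norm (sub_eq_zero.1 e)
    rw [norm_mul, Complex.norm_conj, norm_pow, Complex.norm_real, Real.norm_of_nonneg hr0.le] at h1
    have h2 := (hR2 ρ ((hZm ρ).1 hρ).1).2 ((hZm ρ).1 hρ).2
    have h3 := mul_le_mul_of_nonneg_left (mem_ball_iff_norm.1 hz).le (norm_nonneg (ρ - a))
    linarith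
  have hin : ∀ z ∈ closedBall a (1.2 : ℝ), f z = 0 → ‖z - a‖ < R → z ∈ Z := fun z hz e hlt => by
    refine (hZm z).2 ⟨⟨hz, e⟩, ?_⟩
    rcases lt_trichotomy ‖z - a‖ r with h | h | h
    · exact h
    · exact absurd ⟨z, ⟨hz, e⟩, h⟩ hr3
    · exact absurd ((hR2 z ⟨hz, e⟩).1 h) hlt.not_gt
  have hr' : (r : ℂ) ≠ 0 := Complex.ofReal_ne_zero.2 hr0.ne'
  obtain ⟨G, G1, G2⟩ := xDiscA_exp (a := a) (hr0.trans hR3')
    (h := fun z => g z * ∏ ρ ∈ Z, (((r : ℂ) ^ 2 - (starRingEnd ℂ) (ρ - a) * (z - a)) / r) ^ m ρ)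
    ((g1.mono (hbs.trans hsub)).mul (by fun_prop)) fun z hz => by
      refine mul_ne_zero (fun e => ?_)
        (Finset.prod_ne_zero_iff.2 fun ρ hρ => pow_ne_zero _ (div_ne_zero (hden ρ hρ z hz) hr'))
      exact g2 z (hin z (hbs hz) (by rw [g3 z (hsub (hbs hz)), e, zero_mul])
        (mem_ball_iff_norm.1 hz)) e
  refine ⟨r, R, Z, m, G, hr1, hr2, hR3', by linarith, G1, fun ρ hρ => ?_, fun ρ h1 h2 => ?_,
    fun z hz => ?_⟩
  · obtain ⟨⟨h1, h2⟩, h3⟩ := (hZm ρ).1 hρ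
    refine ⟨h3, h2, ?_, hden ρ hρ⟩
    rw [g3 ρ (hsub h1), mul_eq_zero, Finset.prod_eq_zero_iff] at h2
    obtain ⟨σ, -, h4⟩ := h2.resolve_left (g2 ρ hρ)
    obtain ⟨h5, h6⟩ := pow_eq_zero_iff'.1 h4
    rw [sub_eq_zero.1 h5]
    exact Nat.one_le_iff_ne_zero.2 h6
  · exact hin ρ (mem_closedBall_iff_norm.2 (by linarith)) h2 (by linarith)
  · rw [← G2 z hz, g3 z (hsub (hbs hz)), mul_assoc, ← Finset.prod_mul_distrib]
    congr 1
    refine Finset.prod_congr rfl fun ρ hρ => ?_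
    have := hden ρ hρ z hz
    rw [← mul_pow, bl]
    congr 1
    field_simp

end Pool.Agent.MP_88bd62_nt.U
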