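import Pool.Agent.MP_88bd62_nt.U.Stmts

/-! Bounds for a holomorphic function from bounds of its real part on a circle. -/

namespace Pool.Agent.MP_88bd62_nt.U

open Real Metric Set

theorem xDiscB_int (p0 p1 p2 p3 a b : ℝ) :
    ∫ θ in a..b, (p0 + p1 * cos θ + p2 * cos θ ^ 2 + p3 * cos θ ^ 3) =
      p0 * (b - a) + p1 * (sin b - sin a) + p2 * ((cos b * sin b - cos a * sin a + b - a) / 2) +
        p3 * (sin b - sin a - (sin b ^ 3 - sin a ^ 3) / 3) := by
  rw [intervalIntegral.integral_add, intervalIntegral.integral_add, intervalIntegral.integral_add,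
    intervalIntegral.integral_const_mul, intervalIntegral.integral_const_mul,
    intervalIntegral.integral_const_mul, integral_cos, integral_cos_sq, integral_cos_pow_three,
    intervalIntegral.integral_const, smul_eq_mul, mul_comm (b - a)]
  all_goals exact Continuous.intervalIntegrable (by fun_prop) _ _

theorem xDiscB_avg {F : ℂ → ℂ} {a : ℂ} {r p0 p1 p2 p3 q0 q1 q2 q3 : ℝ} (hr : 0 < r)
    (hF : ContinuousOn F (sphere a r))
    (h1 : ∀ z c, ‖z - a‖ = r → (z - a).re = r * c → 0 ≤ c → c ≤ 1 →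
      (F z).re ≤ p0 + p1 * c + p2 * c ^ 2 + p3 * c ^ 3)
    (h2 : ∀ z c, ‖z - a‖ = r → (z - a).re = r * c → -1 ≤ c → c ≤ 0 →
      (F z).re ≤ q0 + q1 * c + q2 * c ^ 2 + q3 * c ^ 3) :
    2 * π * (circleAverage F a r).re ≤ p0 * π + 2 * p1 + p2 * (π / 2) + p3 * (4 / 3) +
      (q0 * π - 2 * q1 + q2 * (π / 2) - q3 * (4 / 3)) := by
  have hc : Continuous fun θ : ℝ => F (circleMap a r θ) :=
    hF.comp_continuous (continuous_circleMap a r) fun θ => circleMap_mem_sphere a hr.le θ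
  have hc' : Continuous fun θ : ℝ => (F (circleMap a r θ)).re := Complex.continuous_re.comp hc
  have e1 : 2 * π * (circleAverage F a r).re = ∫ θ in (0 : ℝ)..2 * π, (F (circleMap a r θ)).re := by
    have e2 := Complex.reCLM.intervalIntegral_comp_comm
      (hc.intervalIntegrable (μ := MeasureTheory.volume) 0 (2 * π))
    simp only [Complex.reCLM_apply] at e2
    rw [e2, circleAverage_def, Complex.smul_re, smul_eq_mul, ← mul_assoc,
      mul_inv_cancel₀ two_pi_pos.ne', one_mul]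
  have hper : Function.Periodic (fun θ : ℝ => (F (circleMap a r θ)).re) (2 * π) :=
    fun x => by simp only [periodic_circleMap a r x]
  have e3 := hper.intervalIntegral_add_eq 0 (-(π / 2))
  rw [zero_add, show -(π / 2) + 2 * π = π + π / 2 by ring] at e3
  rw [e1, e3, ← intervalIntegral.integral_add_adjacent_intervals (b := π / 2)
    (hc'.intervalIntegrable _ _) (hc'.intervalIntegrable _ _)]
  have hn : ∀ θ : ℝ, ‖circleMap a r θ - a‖ = r := fun θ => by
    simp [abs_of_pos hr]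
  have hre : ∀ θ : ℝ, (circleMap a r θ - a).re = r * cos θ := fun θ => by
    simp [circleMap_zero_re]
  have b1 : ∫ θ in (-(π / 2))..(π / 2), (F (circleMap a r θ)).re ≤
      ∫ θ in (-(π / 2))..(π / 2), (p0 + p1 * cos θ + p2 * cos θ ^ 2 + p3 * cos θ ^ 3) :=
    intervalIntegral.integral_mono_on (by linarith [pi_pos]) (hc'.intervalIntegrable _ _)
      (Continuous.intervalIntegrable (by fun_prop) _ _) fun θ hθ =>
        h1 _ _ (hn θ) (hre θ) (cos_nonneg_of_mem_Icc hθ) (cos_le_one θ)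
  have b2 : ∫ θ in (π / 2)..(π + π / 2), (F (circleMap a r θ)).re ≤
      ∫ θ in (π / 2)..(π + π / 2), (q0 + q1 * cos θ + q2 * cos θ ^ 2 + q3 * cos θ ^ 3) :=
    intervalIntegral.integral_mono_on (by linarith [pi_pos]) (hc'.intervalIntegrable _ _)
      (Continuous.intervalIntegrable (by fun_prop) _ _) fun θ hθ =>
        h2 _ _ (hn θ) (hre θ) (neg_one_le_cos θ) (cos_nonpos_of_pi_div_two_le_of_le hθ.1 hθ.2)
  rw [xDiscB_int] at b1 b2
  simp only [sin_neg, cos_neg, sin_pi_div_two, cos_pi_div_two, sin_add_pi_div_two,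
    cos_add_pi_div_two, sin_pi, cos_pi] at b1 b2
  linarith

theorem xDiscB_tan {y y0 : ℝ} (hy : 0 < y) (h0 : 0 < y0) : log y ≤ log y0 + y / y0 - 1 := by
  have h := log_le_sub_one_of_pos (div_pos hy h0)
  rw [log_div hy.ne' h0.ne'] at h
  linarith

theorem xDiscB_l1 {x : ℝ} (hx : 0 < x) : x * log (1 + 1 / x) ≤ 0.39 + 0.334 * x := by
  have h1 : log (100 / 39) ≤ 0.944 := by
    rw [log_le_iff_le_exp (by norm_num)]
    refine le_trans ?_ (sum_le_exp_of_nonneg (by norm_num) 6)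
    simp only [Finset.sum_range_succ, Finset.sum_range_zero, Nat.factorial]
    norm_num
  have h2 := xDiscB_tan (y := 1 + 1 / x) (y0 := 100 / 39) (by positivity) (by norm_num)
  have h3 : x * log (1 + 1 / x) ≤ x * (0.944 + (1 + 1 / x) / (100 / 39) - 1) :=
    mul_le_mul_of_nonneg_left (by linarith) hx.le
  refine h3.trans (le_of_eq ?_)
  field_simp
  ring

theorem xDiscB_l2 {x : ℝ} (hx : 0.105 ≤ x) (hx1 : x ≤ 1) : log (1 + 1 / x) ≤ 2.6 - 1.9 * x := by
  have h0 : 0 < x := by linarith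
  have h2 := log_two_lt_d9
  rcases le_total x (1 / 2) with h | h
  · have h3 := xDiscB_tan (y := 1 + 1 / x) (y0 := 8) (by positivity) (by norm_num)
    have h4 : log 8 = 3 * log 2 := by
      rw [show (8 : ℝ) = 2 ^ 3 by norm_num, log_pow]
      norm_num
    have h5 : 1 / x ≤ 11.164 - 15.2 * x := by
      rw [div_le_iff₀ h0]
      nlinarith [mul_nonneg (sub_nonneg.2 hx) (sub_nonneg.2 h)]
    linarith
  · have h3 := xDiscB_tan (y := 1 + 1 / x) (y0 := 2) (by positivity) (by norm_num)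
    have h5 : 1 / x ≤ 4.81 - 3.8 * x := by
      rw [div_le_iff₀ h0]
      nlinarith [mul_nonneg (sub_nonneg.2 hx1) (sub_nonneg.2 h)]
    linarith

theorem xDiscB_ker {ρ ρ0 c : ℝ} (h0 : 0 < ρ) (h1 : ρ ≤ ρ0) (h2 : ρ0 < 1) (hc : -1 ≤ c) :
    0 ≤ 1 + 2 * ρ / (1 - ρ) - (1 - ρ ^ 2) / (1 + 2 * ρ * c + ρ ^ 2) ∧
      1 + 2 * ρ / (1 - ρ) - (1 - ρ ^ 2) / (1 + 2 * ρ * c + ρ ^ 2) ≤
        2 * ρ0 * (1 + ρ0) / (1 - ρ0) ^ 3 * (1 + c) := by
  have a1 : 0 < 1 - ρ0 := by linarith
  have a2 : 0 < 1 - ρ := by linarith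
  have a3 : 0 ≤ 1 + c := by linarith
  have a4 : (1 - ρ) ^ 2 ≤ 1 + 2 * ρ * c + ρ ^ 2 := by nlinarith [mul_nonneg h0.le a3]
  have a5 : 0 < 1 + 2 * ρ * c + ρ ^ 2 := lt_of_lt_of_le (by positivity) a4
  have e : 1 + 2 * ρ / (1 - ρ) - (1 - ρ ^ 2) / (1 + 2 * ρ * c + ρ ^ 2) =
      2 * ρ * (1 + ρ) / ((1 - ρ) * (1 + 2 * ρ * c + ρ ^ 2)) * (1 + c) := by
    field_simp
    ring
  rw [e]
  refine ⟨by positivity, mul_le_mul_of_nonneg_right ?_ a3⟩
  have a6 : 0 < ρ0 := h0.trans_le h1
  refine div_le_div₀ (by positivity) (by nlinarith) (by positivity) ?_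
  calc (1 - ρ0) ^ 3 ≤ (1 - ρ) ^ 3 := pow_le_pow_left₀ a1.le (by linarith) 3
    _ = (1 - ρ) * (1 - ρ) ^ 2 := by ring
    _ ≤ _ := mul_le_mul_of_nonneg_left a4 a2.le

theorem xDiscB_dc {H : ℂ → ℂ} {a : ℂ} {r R : ℝ} (hr : 0 < r) (hR : r < R)
    (hH : DifferentiableOn ℂ H (ball a R)) :
    DiffContOnCl ℂ H (ball a r) ∧ ContinuousOn H (sphere a r) := by
  have h1 : DifferentiableOn ℂ H (closedBall a r) := hH.mono (closedBall_subset_ball hR)
  refine ⟨DifferentiableOn.diffContOnCl ?_, h1.continuousOn.mono sphere_subset_closedBall⟩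
  rwa [closure_ball a hr.ne']

theorem xDiscB_mean {H : ℂ → ℂ} {a : ℂ} {r R : ℝ} (hr : 0 < r) (hR : r < R)
    (hH : DifferentiableOn ℂ H (ball a R)) : circleAverage H a r = H a :=
  DiffContOnCl.circleAverage (by rw [abs_of_pos hr]; exact (xDiscB_dc hr hR hH).1)

theorem xDiscB_one {G : ℂ → ℂ} {a : ℂ} {r R a0 a1 a2 : ℝ} (hr : 0.999 ≤ r) (hr1 : r ≤ 1)
    (hR : r < R) (hG : DifferentiableOn ℂ G (ball a R)) (h0 : 2.4 ≤ a0) (h1 : 0 ≤ a1)
    (h2 : 0 ≤ a2)
    (H1 : ∀ z u, ‖z - a‖ = r → 0 ≤ u → u ≤ 1 → -u ≤ (z - a).re →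
      (G z).re ≤ a0 + a1 * u + a2 * u ^ 2)
    (H2 : ∀ z, ‖z - a‖ = r → 0 < (z - a).re → |(G z).re| ≤ log (1 + 1 / (z - a).re)) :
    -(deriv G a).re ≤ Kg a0 a1 a2 := by
  have hr0 : 0 < r := by linarith
  have hd : DifferentiableOn ℂ (dslope G a) (ball a R) :=
    (Complex.differentiableOn_dslope (ball_mem_nhds a (hr0.trans hR))).2 hG
  have hH : DifferentiableOn ℂ (fun z => -((r : ℂ) ^ 2 * dslope G a z + (z - a) * (G z - G a)))
      (ball a R) :=
    ((hd.const_mul _).add ((differentiableOn_id.sub_const a).mul (hG.sub_const _))).neg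
  have hre : ∀ z c, ‖z - a‖ = r → (z - a).re = r * c →
      (-((r : ℂ) ^ 2 * dslope G a z + (z - a) * (G z - G a))).re =
        -(2 * (r * c) * ((G z).re - (G a).re)) := by
    intro z c hz hc
    have hne : z - a ≠ 0 := by
      rw [← norm_pos_iff, hz]
      exact hr0
    have e1 : ((r : ℂ)) ^ 2 = (z - a) * (starRingEnd ℂ) (z - a) := by
      rw [Complex.mul_conj, Complex.normSq_eq_norm_sq, hz]
      push_cast
      ring
    have e2 : (r : ℂ) ^ 2 * dslope G a z + (z - a) * (G z - G a) =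
        ((2 * (r * c) : ℝ) : ℂ) * (G z - G a) := by
      rw [← hc, ← Complex.add_conj, dslope_of_ne _ (sub_ne_zero.1 hne), slope_def_field, e1]
      field_simp
      ring
    rw [e2, Complex.neg_re, Complex.re_ofReal_mul, Complex.sub_re]
  have key := xDiscB_avg (p0 := 0.78) (p1 := 0.668 + 2 * r * (G a).re) (p2 := 0) (p3 := 0)
    (q0 := 0) (q1 := -(2 * r * a0) + 2 * r * (G a).re) (q2 := 2 * r * a1) (q3 := -(2 * r * a2))
    hr0 (xDiscB_dc hr0 hR hH).2 (fun z c hz hc c0 c1 => by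
      rw [hre z c hz hc]
      have h3 : -(r * c * (G z).re) ≤ 0.39 + 0.334 * c := by
        rcases c0.eq_or_lt with h | h
        · rw [← h]
          norm_num
        · have hx : 0 < r * c := mul_pos hr0 h
          have h4 := H2 z hz (by rwa [hc])
          rw [hc] at h4
          have h5 := xDiscB_l1 hx
          have h6 := mul_le_mul_of_nonneg_left ((neg_le_abs _).trans h4) hx.le
          have h7 : r * c ≤ c := mul_le_of_le_one_left c0 hr1
          linarith
      linarith) (fun z c hz hc c0 c1 => by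
      rw [hre z c hz hc]
      have h3 := H1 z (-c) hz (by linarith) (by linarith) (by rw [hc]; nlinarith)
      have h4 := mul_le_mul_of_nonneg_left h3 (mul_nonneg hr0.le (neg_nonneg.2 c1))
      linarith)
  rw [xDiscB_mean hr0 hR hH] at key
  simp only [dslope_same, sub_self, mul_zero, add_zero] at key
  rw [← Complex.ofReal_pow, Complex.neg_re, Complex.re_ofReal_mul] at key
  have hπ := pi_pos
  set D := -(deriv G a).re with hD
  set A := 2 * a0 + a1 * π / 2 + a2 * 4 / 3 with hA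
  set B := 0.39 * π + 0.668 with hB
  have hA0 : 0 ≤ A := by positivity
  have hB0 : 0 ≤ B := by positivity
  have k2 : π * r ^ 2 * D ≤ r * A + B := by
    rw [hD, hA, hB]
    linarith
  have k3 : D ≤ (A / π + B / (π * r)) / r := by
    rw [le_div_iff₀ hr0, div_add_div _ _ hπ.ne' (by positivity), le_div_iff₀ (by positivity)]
    nlinarith [mul_le_mul_of_nonneg_left k2 hπ.le]
  refine k3.trans ?_
  unfold Kg
  rw [← hA, ← hB]
  gcongr

theorem xDiscB_two {G : ℂ → ℂ} {a : ℂ} {r R a0 a1 a2 η : ℝ} (hr : 0.999 ≤ r) (hr1 : r ≤ 1)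
    (hR : r < R) (hG : DifferentiableOn ℂ G (ball a R)) (h0 : 2.4 ≤ a0) (h1 : 0 ≤ a1)
    (h2 : 0 ≤ a2)
    (H1 : ∀ z u, ‖z - a‖ = r → 0 ≤ u → u ≤ 1 → -u ≤ (z - a).re →
      (G z).re ≤ a0 + a1 * u + a2 * u ^ 2)
    (H2 : ∀ z, ‖z - a‖ = r → 0 < (z - a).re → |(G z).re| ≤ log (1 + 1 / (z - a).re))
    (hη : 0 < η) (hη1 : η ≤ 1 / 50) :
    (1 + 2 * (η / r) / (1 - η / r)) * (G a).re
      - 2 * (η / 0.999) * (1 + η / 0.999) / (1 - η / 0.999) ^ 3 * Jg a0 a1 a2 ≤ (G (a - η)).re := by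
  have hr0 : 0 < r := by linarith
  obtain ⟨hdc, hc⟩ := xDiscB_dc hr0 hR hG
  have hw : a - η ∈ ball a r := by
    rw [mem_ball_iff_norm, sub_sub_cancel_left, norm_neg, Complex.norm_real, Real.norm_eq_abs,
      abs_of_pos hη]
    linarith
  set lam := 1 + 2 * (η / r) / (1 - η / r) with hlam
  set K := 2 * (η / 0.999) * (1 + η / 0.999) / (1 - η / 0.999) ^ 3 with hK
  have hP : ContinuousOn (poissonKernel a (a - η)) (sphere a r) := by
    rw [poissonKernel_eq_re_herglotzRieszKernel]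
    have h3 := continuousOn_herglotzRieszKernel_sphere hw
    rw [abs_of_pos hr0] at h3
    exact Complex.continuous_re.comp_continuousOn h3
  have c1 : ContinuousOn (fun z => lam • G z) (sphere a r) := hc.const_smul lam
  have c2 : ContinuousOn (fun z => poissonKernel a (a - η) z • G z) (sphere a r) := hP.smul hc
  have hav : circleAverage (fun z => lam • G z - poissonKernel a (a - η) z • G z) a r =
      lam • G a - G (a - η) := by
    rw [circleAverage_fun_sub (c1.circleIntegrable hr0.le) (c2.circleIntegrable hr0.le),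
      circleAverage_fun_smul, xDiscB_mean hr0 hR hG]
    congr 1
    exact hdc.circleAverage_poissonKernel_smul hw
  have hker : ∀ z c, ‖z - a‖ = r → (z - a).re = r * c → -1 ≤ c →
      0 ≤ lam - poissonKernel a (a - η) z ∧ lam - poissonKernel a (a - η) z ≤ K * (1 + c) := by
    intro z c hz hc c0
    have e1 : poissonKernel a (a - η) z =
        (1 - (η / r) ^ 2) / (1 + 2 * (η / r) * c + (η / r) ^ 2) := by
      have e2 : ‖z - a - -(η : ℂ)‖ ^ 2 = r ^ 2 * (1 + 2 * (η / r) * c + (η / r) ^ 2) := by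
        have e3 : (z - a).re * (z - a).re + (z - a).im * (z - a).im = r ^ 2 := by
          rw [← Complex.normSq_apply, Complex.normSq_eq_norm_sq, hz]
        rw [← Complex.normSq_eq_norm_sq, Complex.normSq_apply, sub_neg_eq_add, Complex.add_re,
          Complex.add_im, Complex.ofReal_re, Complex.ofReal_im, add_zero]
        rw [hc] at e3 ⊢
        field_simp
        linarith
      rw [poissonKernel_def, sub_sub_cancel_left, e2, hz, norm_neg, Complex.norm_real,
        Real.norm_eq_abs, sq_abs, ← div_div]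
      congr 1
      field_simp
    rw [e1]
    refine xDiscB_ker (div_pos hη hr0) (by gcongr) ?_ c0
    rw [div_lt_one (by norm_num)]
    linarith
  have hb : ∀ z c V, ‖z - a‖ = r → (z - a).re = r * c → -1 ≤ c → 0 ≤ V → (G z).re ≤ V →
      (lam • G z - poissonKernel a (a - η) z • G z).re ≤ K * (1 + c) * V := by
    intro z c V hz hc c0 hV hU
    obtain ⟨k1, k2⟩ := hker z c hz hc c0
    rw [← sub_smul, Complex.smul_re, smul_eq_mul]
    exact (mul_le_mul_of_nonneg_left hU k1).trans (mul_le_mul_of_nonneg_right k2 hV)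
  have key := xDiscB_avg (F := fun z => lam • G z - poissonKernel a (a - η) z • G z)
    (p0 := K * (a0 + 0.2)) (p1 := K * (a0 + 0.2 - 1.9 * 0.999))
    (p2 := -(K * (1.9 * 0.999))) (p3 := 0)
    (q0 := K * a0) (q1 := K * (a0 - a1)) (q2 := K * (a2 - a1)) (q3 := K * a2)
    hr0 (c1.sub c2) (fun z c hz hc c0 c1 => by
      have h3 : (G z).re ≤ a0 + 0.2 - 1.9 * 0.999 * c := by
        have hx : 0.999 * c ≤ r * c := mul_le_mul_of_nonneg_right hr c0
        rcases le_total (r * c) 0.105 with h | h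
        · have h4 := H1 z 0 hz le_rfl zero_le_one (by rw [hc]; linarith)
          linarith
        · have h4 := H2 z hz (by rw [hc]; linarith)
          rw [hc] at h4
          have h5 := xDiscB_l2 h ((mul_le_of_le_one_left c0 hr1).trans c1)
          have h6 := (le_abs_self _).trans h4
          linarith
      refine (hb z c _ hz hc (by linarith) (by linarith) h3).trans (le_of_eq ?_)
      ring) (fun z c hz hc c0 c1 => by
      have h3 := H1 z (-c) hz (by linarith) (by linarith) (by rw [hc]; nlinarith)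
      have h4 : 0 ≤ a1 * -c := mul_nonneg h1 (neg_nonneg.2 c1)
      have h5 : 0 ≤ a2 * (-c) ^ 2 := by positivity
      refine (hb z c _ hz hc c0 (by linarith) h3).trans (le_of_eq ?_)
      ring)
  rw [hav, Complex.sub_re, Complex.smul_re, smul_eq_mul] at key
  have hπ := pi_pos
  have e : K * Jg a0 a1 a2 * (2 * π) = K * (a0 * (π - 2) + a1 * (2 - π / 2) + a2 * (π / 2 - 4 / 3) +
      (a0 + 0.2) * (π + 2) - 1.9 * 0.999 * (2 + π / 2)) := by
    rw [Jg, mul_assoc, div_mul_cancel₀ _ (by positivity)]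
  have k2 : (lam * (G a).re - (G (a - η)).re) * (2 * π) ≤ K * Jg a0 a1 a2 * (2 * π) := by
    rw [e]
    linarith
  have k3 := le_of_mul_le_mul_right k2 (by positivity)
  linarith

theorem stDiscB : StDiscB := fun _ _ _ _ _ _ _ hr hr1 hR hG h0 h1 h2 H1 H2 =>
  ⟨xDiscB_one hr hr1 hR hG h0 h1 h2 H1 H2,
    fun _ hη hη1 => xDiscB_two hr hr1 hR hG h0 h1 h2 H1 H2 hη hη1⟩

end Pool.Agent.MP_88bd62_nt.U
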