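import Pool.Agent.MP_88bd62_nt.U.Stmts

/-! The factors of the canonical product. -/

namespace Pool.Agent.MP_88bd62_nt.U

open Finset Real

lemma xDiscC_h {β γ r x e k : ℝ} (hr : 0 < r) (hn : β ^ 2 + γ ^ 2 < r ^ 2) (hx : 0 ≤ x)
    (he : x < e) (hβ : e ≤ β) (hk : 0 < k) (hk' : k * r ^ 2 ≤ r ^ 2 - x * β) :
    (β - x) / ((β - x) ^ 2 + γ ^ 2) -
        (β * (r ^ 2 - x * β) - x * γ ^ 2) / ((r ^ 2 - x * β) ^ 2 + (x * γ) ^ 2) ≤
      β * (1 / (β ^ 2 + γ ^ 2) - 1 / r ^ 2) / k * (e / (e - x)) := by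
  have h1 : 0 < β - x := by linarith
  have h2 : 0 < β := by linarith
  have h3 : 0 < r ^ 2 - x * β := lt_of_lt_of_le (by positivity) hk'
  have h4 : 0 < r ^ 2 - (β ^ 2 + γ ^ 2) := sub_pos.2 hn
  have h5 : 0 < e - x := sub_pos.2 he
  have h6 : β / (β - x) ≤ e / (e - x) := by
    rw [div_le_div_iff₀ h1 h5]
    nlinarith [mul_le_mul_of_nonneg_left hβ hx]
  have h7 : (β ^ 2 + γ ^ 2) * (β - x) ^ 2 / β ^ 2 ≤ (β - x) ^ 2 + γ ^ 2 := by
    rw [div_le_iff₀ (by positivity)]
    have : (β - x) ^ 2 ≤ β ^ 2 := pow_le_pow_left₀ h1.le (by linarith) 2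
    nlinarith [mul_le_mul_of_nonneg_left this (sq_nonneg γ)]
  calc _ = (r ^ 2 - (β ^ 2 + γ ^ 2)) * ((β - x) * (r ^ 2 - x * β) - x * γ ^ 2) /
        (((β - x) ^ 2 + γ ^ 2) * ((r ^ 2 - x * β) ^ 2 + (x * γ) ^ 2)) := by
        rw [div_sub_div _ _ (by positivity) (by positivity)]
        congr 1
        ring
    _ ≤ (r ^ 2 - (β ^ 2 + γ ^ 2)) * ((β - x) * (r ^ 2 - x * β)) /
        (((β ^ 2 + γ ^ 2) * (β - x) ^ 2 / β ^ 2) * (r ^ 2 - x * β) ^ 2) := by
        refine div_le_div₀ (by positivity) (mul_le_mul_of_nonneg_left ?_ h4.le) (by positivity)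
          (mul_le_mul h7 ?_ (by positivity) (by positivity))
        · have : 0 ≤ x * γ ^ 2 := by positivity
          linarith
        · nlinarith [sq_nonneg (x * γ)]
    _ = (r ^ 2 - (β ^ 2 + γ ^ 2)) / (β ^ 2 + γ ^ 2) * β * (β / (β - x)) / (r ^ 2 - x * β) := by
        field_simp
    _ ≤ (r ^ 2 - (β ^ 2 + γ ^ 2)) / (β ^ 2 + γ ^ 2) * β * (e / (e - x)) / (k * r ^ 2) := by
        gcongr
        have : 0 < e := by linarith
        positivity
    _ = _ := by field_simp

lemma xDiscC_mono {β γ r η δ k : ℝ} (hr : 0 < r) (hn : β ^ 2 + γ ^ 2 < r ^ 2) (hη : 0 < η)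
    (hδ : 0 < δ) (hβ : η + δ ≤ β) (hk : 0 < k) (hk' : k * r ^ 2 ≤ r ^ 2 - η * β) :
    log (β ^ 2 + γ ^ 2) / 2 - log ((r ^ 2) ^ 2) / 2 -
        β * (1 / (β ^ 2 + γ ^ 2) - 1 / r ^ 2) * ((η + δ) * log (1 + η / δ)) / k ≤
      log ((β - η) ^ 2 + γ ^ 2) / 2 - log ((r ^ 2 - η * β) ^ 2 + (η * γ) ^ 2) / 2 := by
  set c := β * (1 / (β ^ 2 + γ ^ 2) - 1 / r ^ 2) / k with hc
  let G : ℝ → ℝ := fun x => log ((β - x) ^ 2 + γ ^ 2) / 2 -
    log ((r ^ 2 - x * β) ^ 2 + (x * γ) ^ 2) / 2 - c * ((η + δ) * log (η + δ - x))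
  have hd : ∀ x ∈ Set.Icc 0 η, ∃ d, 0 ≤ d ∧ HasDerivAt G d x := by
    rintro x ⟨h0, h1⟩
    have h2 : 0 < β - x := by linarith
    have hk2 : k * r ^ 2 ≤ r ^ 2 - x * β := by
      have := mul_le_mul_of_nonneg_right h1 (by linarith : 0 ≤ β)
      linarith
    have h3 : 0 < r ^ 2 - x * β := lt_of_lt_of_le (by positivity) hk2
    have h4 : 0 < η + δ - x := by linarith
    have a1 := ((((hasDerivAt_id' x).const_sub β).fun_pow 2).add_const (γ ^ 2)).log
      (by positivity)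
    have a2 := (((((hasDerivAt_id' x).mul_const β).const_sub (r ^ 2)).fun_pow 2).fun_add
      (((hasDerivAt_id' x).mul_const γ).fun_pow 2)).log (by positivity)
    have a3 := ((((hasDerivAt_id' x).const_sub (η + δ)).log h4.ne').const_mul (η + δ)).const_mul c
    refine ⟨_, ?_, ((a1.div_const 2).fun_sub (a2.div_const 2)).fun_sub a3⟩
    have := sub_nonneg.2 (xDiscC_h hr hn h0 (by linarith : x < η + δ) hβ hk hk2)
    convert this using 1
    rw [← hc]
    simp only [Nat.cast_ofNat, Nat.add_one_sub_one, pow_one]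
    field_simp
    ring
  have hm : MonotoneOn G (Set.Icc 0 η) := by
    refine monotoneOn_of_deriv_nonneg (convex_Icc _ _)
      (fun x hx => (hd x hx).choose_spec.2.continuousAt.continuousWithinAt)
      (fun x hx => (hd x (interior_subset hx)).choose_spec.2.differentiableAt.differentiableWithinAt)
      fun x hx => ?_
    obtain ⟨d, h0, h1⟩ := hd x (interior_subset hx)
    rwa [h1.deriv]
  have := hm ⟨le_rfl, hη.le⟩ ⟨hη.le, le_rfl⟩ hη.le
  simp only [G, sub_zero, zero_mul, add_sub_cancel_left, ne_eq, OfNat.ofNat_ne_zero,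
    not_false_eq_true, zero_pow, add_zero] at this
  have e : log (1 + η / δ) = log (η + δ) - log δ := by
    rw [← log_div (by positivity) hδ.ne']
    congr 1
    field_simp
    ring
  have e2 : β * (1 / (β ^ 2 + γ ^ 2) - 1 / r ^ 2) * ((η + δ) * log (1 + η / δ)) / k =
      c * ((η + δ) * (log (η + δ) - log δ)) := by
    rw [e, hc]
    ring
  rw [e2]
  linarith

lemma xDiscC_log (z : ℂ) : log ‖z‖ = log (z.re ^ 2 + z.im ^ 2) / 2 := by
  have : z.re ^ 2 + z.im ^ 2 = ‖z‖ ^ 2 := by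
    rw [Complex.sq_norm, Complex.normSq_apply]
    ring
  rw [this, log_pow]
  push_cast
  ring

theorem stDiscC : StDiscC := by
  intro a ρ r hr0 _ hw hβ
  obtain ⟨w, rfl⟩ : ∃ w, ρ = a - w := ⟨a - ρ, by ring⟩
  have hr : 0 < r := by linarith
  have hrc : (r : ℂ) ≠ 0 := by exact_mod_cast hr.ne'
  rw [sub_sub_cancel_left, norm_neg] at hw
  rw [sub_sub_cancel] at hβ ⊢
  have hw0 : w ≠ 0 := by rintro rfl; simp at hβ
  have hsq : ‖w‖ ^ 2 = w.re ^ 2 + w.im ^ 2 := by
    rw [Complex.sq_norm, Complex.normSq_apply]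
    ring
  have hn : w.re ^ 2 + w.im ^ 2 < r ^ 2 := hsq ▸ pow_lt_pow_left₀ hw (norm_nonneg _) two_ne_zero
  have hb : bl a r (a - w) = fun z => r * (z - a + w) / (r ^ 2 + (starRingEnd ℂ) w * (z - a)) := by
    funext z
    simp only [bl, sub_sub_cancel_left, map_neg]
    congr 1 <;> ring
  have ha : bl a r (a - w) a = w / r := by
    rw [hb]
    simp only [sub_self, zero_add, mul_zero, add_zero]
    field_simp
  have hD : HasDerivAt (bl a r (a - w))
      ((r * (r ^ 2) - r * w * (starRingEnd ℂ) w) / (r ^ 2) ^ 2) a := by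
    rw [hb]
    have := ((((hasDerivAt_id' a).sub_const a).add_const w).const_mul (r : ℂ)).fun_div
      ((((hasDerivAt_id' a).sub_const a).const_mul ((starRingEnd ℂ) w)).const_add ((r : ℂ) ^ 2))
      (by simpa using hr.ne')
    simpa using this
  refine ⟨fun z hz => ?_, ?_, ?_, hD.differentiableAt, ?_, fun η δ hη hη' hδ hle => ?_⟩
  · rw [hb]
    simp only
    generalize z - a = ζ at hz
    have h1 : ζ + w ≠ 0 := by
      intro h
      rw [eq_neg_of_add_eq_zero_left h, norm_neg] at hz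
      exact hw.ne hz
    have h2 : (r : ℂ) ^ 2 + (starRingEnd ℂ) w * ζ = ζ * (starRingEnd ℂ) (ζ + w) := by
      rw [map_add, mul_add, Complex.mul_conj, Complex.normSq_eq_norm_sq, hz]
      push_cast
      ring
    rw [h2, norm_div, norm_mul, norm_mul, Complex.norm_conj, hz, Complex.norm_real,
      Real.norm_of_nonneg hr.le, div_self (mul_ne_zero hr.ne' (norm_ne_zero_iff.2 h1))]
  · rw [ha, norm_div, Complex.norm_real, Real.norm_of_nonneg hr.le]
    exact (div_le_one hr).2 hw.le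
  · rw [ha]
    exact div_ne_zero hw0 hrc
  · rw [hD.deriv, ha]
    have e : (r * (r ^ 2) - r * w * (starRingEnd ℂ) w) / (r ^ 2) ^ 2 / (w / r) =
        w⁻¹ - (starRingEnd ℂ) w / ((r ^ 2 : ℝ) : ℂ) := by
      push_cast
      field_simp
    rw [e, Complex.sub_re, Complex.inv_re, Complex.div_ofReal_re, Complex.conj_re,
      Complex.normSq_eq_norm_sq]
    ring
  · have hβr : w.re < r := (Complex.re_le_norm w).trans_lt hw
    have hk : 0 < 1 - η / 0.999 := by
      rw [sub_pos, div_lt_one (by norm_num)]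
      linarith
    have hk' : (1 - η / 0.999) * r ^ 2 ≤ r ^ 2 - η * w.re := by
      have : w.re ≤ r ^ 2 / 0.999 := by
        rw [le_div_iff₀ (by norm_num)]
        nlinarith
      have := mul_le_mul_of_nonneg_left this hη.le
      have e : η * (r ^ 2 / 0.999) = η / 0.999 * r ^ 2 := by ring
      linarith
    have h3 : 0 < r ^ 2 - η * w.re := lt_of_lt_of_le (by positivity) hk'
    have e : bl a r (a - w) (a - η) = r * (w - η) / (((r ^ 2 : ℝ) : ℂ) - η * (starRingEnd ℂ) w) := by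
      rw [hb]
      push_cast
      congr 1 <;> ring
    have r1 : (w - η).re = w.re - η := by simp
    have r2 : (w - η).im = w.im := by simp
    have r3 : (((r ^ 2 : ℝ) : ℂ) - η * (starRingEnd ℂ) w).re = r ^ 2 - η * w.re := by
      simp only [Complex.sub_re, Complex.ofReal_re, Complex.re_ofReal_mul, Complex.conj_re]
    have r4 : (((r ^ 2 : ℝ) : ℂ) - η * (starRingEnd ℂ) w).im = η * w.im := by
      simp only [Complex.sub_im, Complex.ofReal_im, Complex.im_ofReal_mul, Complex.conj_im]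
      ring
    have n1 : w - η ≠ 0 := by
      intro h
      rw [h, Complex.zero_re] at r1
      linarith
    have n2 : ((r ^ 2 : ℝ) : ℂ) - η * (starRingEnd ℂ) w ≠ 0 := by
      intro h
      rw [h, Complex.zero_re] at r3
      linarith
    refine ⟨e ▸ div_ne_zero (mul_ne_zero hrc n1) n2, ?_⟩
    have := xDiscC_mono hr hn hη hδ hle hk hk'
    rw [e, ha, norm_div, norm_div, norm_mul, Complex.norm_real, Real.norm_of_nonneg hr.le,
      log_div (norm_ne_zero_iff.2 hw0) hr.ne',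
      log_div (mul_ne_zero hr.ne' (norm_ne_zero_iff.2 n1)) (norm_ne_zero_iff.2 n2),
      log_mul hr.ne' (norm_ne_zero_iff.2 n1), hsq, xDiscC_log w, xDiscC_log (w - η),
      xDiscC_log (_ - _ * _), r1, r2, r3, r4]
    rw [log_pow, log_pow] at this
    push_cast at this
    linarith

end Pool.Agent.MP_88bd62_nt.U
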