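import Pool.Agent.MP_88bd62_nt.U.Stmts

namespace Pool.Agent.MP_88bd62_nt.U

open Finset Real

/-- The functional `E` is summation against its values on point masses. -/
def xEint_Rep (E : (ℕ → ℝ) → ℝ) : Prop :=
  ∀ φ : ℕ → ℝ, HasSum (fun n => E (fun m => if m = n then 1 else 0) * φ n) (E φ)

theorem xEint_eval (k : ℕ) : xEint_Rep fun φ => φ k := fun φ => by
  have h := hasSum_single (f := fun n => (if k = n then (1 : ℝ) else 0) * φ n) k
    fun n hn => by rw [if_neg hn.symm, zero_mul]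
  simpa using h

theorem xEint_ite (P : Prop) [Decidable P] (k : ℕ) : xEint_Rep fun φ => if P then 0 else φ k := by
  by_cases h : P
  · intro φ
    simp only [if_pos h, zero_mul]
    exact hasSum_zero
  · simp only [if_neg h]
    exact xEint_eval k

theorem xEint_add {E F : (ℕ → ℝ) → ℝ} (hE : xEint_Rep E) (hF : xEint_Rep F) :
    xEint_Rep fun φ => E φ + F φ := fun φ => by
  simp only [add_mul]
  exact (hE φ).add (hF φ)

theorem xEint_mul (c : ℝ) {E : (ℕ → ℝ) → ℝ} (hE : xEint_Rep E) :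
    xEint_Rep fun φ => c * E φ := fun φ => by
  simp only [mul_assoc]
  exact (hE φ).mul_left c

theorem xEint_sum {ι : Type} (I : Finset ι) {E : ι → (ℕ → ℝ) → ℝ} (hE : ∀ i, xEint_Rep (E i)) :
    xEint_Rep fun φ => ∑ i ∈ I, E i φ := fun φ => by
  simp only [sum_mul]
  exact hasSum_sum fun i _ => hE i φ

theorem xEint_rep : xEint_Rep Eint :=
  xEint_sum SB fun _ => xEint_sum MB fun _ => xEint_mul _ (xEint_add (xEint_add (xEint_ite _ _)
    (xEint_sum HA fun _ => xEint_mul _ (xEint_eval _)))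
    (xEint_sum HA fun _ => xEint_sum HA fun _ => xEint_mul _ (xEint_eval _)))

theorem xEint_sW (s : ℕ × ℕ × ℕ) : 0 ≤ sW s := by unfold sW; positivity

theorem xEint_mW (m : ℕ) : 0 ≤ mW m := by unfold mW; positivity

theorem xEint_hW (α : ℕ × ℕ) : 0 ≤ hW α := by unfold hW; positivity

theorem xEint_nonneg {φ : ℕ → ℝ} (h : ∀ n, 0 ≤ φ n) : 0 ≤ Eint φ := by
  refine sum_nonneg fun s _ => sum_nonneg fun m _ => mul_nonneg
    (mul_nonneg (xEint_sW s) (xEint_mW m)) (add_nonneg (add_nonneg ?_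
      (sum_nonneg fun α _ => mul_nonneg (xEint_hW α) (h _))) (sum_nonneg fun α _ =>
        sum_nonneg fun β _ => mul_nonneg
          (div_nonneg (mul_nonneg (xEint_hW α) (xEint_hW β)) zero_le_two) (h _)))
  split_ifs
  exacts [le_rfl, h _]

theorem xEint_geom {r : ℝ} (h0 : 0 ≤ r) (h1 : r < 1) (n : ℕ) :
    ∑ i ∈ range n, r ^ i ≤ (1 - r)⁻¹ :=
  sum_le_hasSum _ (fun _ _ => pow_nonneg h0 _) (hasSum_geometric_of_lt_one h0 h1)

theorem xEint_sumS : ∑ s ∈ SB, sW s ≤ 7 := by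
  have e : ∑ s ∈ SB, sW s = (∑ i ∈ range 34, (2 / 3 : ℝ) ^ i) *
      ((∑ i ∈ range 15, (2 / 5 : ℝ) ^ i) * ∑ i ∈ range 11, (2 / 7 : ℝ) ^ i) := by
    rw [sum_mul_sum (range 15), ← sum_product', sum_mul_sum, ← sum_product']
    exact sum_congr rfl fun s _ => mul_assoc _ _ _
  rw [e]
  calc _ ≤ (1 - 2 / 3 : ℝ)⁻¹ * ((1 - 2 / 5 : ℝ)⁻¹ * (1 - 2 / 7 : ℝ)⁻¹) := by
        gcongr <;> exact xEint_geom (by norm_num) (by norm_num) _
    _ = 7 := by norm_num

theorem xEint_odd (K : ℕ) :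
    ∑ n ∈ (range (2 * K + 2)).filter Odd, (1 / n : ℝ) ≤ 1 + log (2 * K + 1) / 2 := by
  rw [sum_filter]
  induction K with
  | zero => simp [sum_range_succ]
  | succ K ih =>
    have h1 : ¬ Odd (2 * K + 2) := by rw [Nat.odd_iff]; omega
    have h2 : Odd (2 * K + 2 + 1) := by rw [Nat.odd_iff]; omega
    rw [show 2 * (K + 1) + 2 = 2 * K + 2 + 1 + 1 by ring, sum_range_succ, sum_range_succ,
      if_neg h1, if_pos h2]
    have h3 := log_le_sub_one_of_pos (show (0 : ℝ) < (2 * K + 1) / (2 * K + 3) by positivity)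
    rw [log_div (by positivity) (by positivity)] at h3
    have h4 : ((2 * K + 1) / (2 * K + 3) - 1 : ℝ) = -2 * (1 / (2 * K + 3)) := by
      field_simp; ring
    push_cast
    rw [show (2 * (K + 1) + 1 : ℝ) = 2 * K + 3 by ring]
    linarith

theorem xEint_div (K : ℕ) (M : Finset ℕ) (hM : ∀ m ∈ M, Odd m ∧ m < 2 * K + 2) :
    ∑ m ∈ M, mW m ≤ (∑ n ∈ (range (2 * K + 2)).filter Odd, (1 / n : ℝ)) ^ 2 := by
  have e : ∀ m ∈ M, mW m = ∑ x ∈ m.divisorsAntidiagonal, (1 / x.1 : ℝ) * (1 / x.2) := by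
    intro m _
    rw [mW, ← Nat.map_div_right_divisors, sum_map, div_eq_mul_one_div, ← nsmul_eq_mul,
      ← sum_const]
    refine sum_congr rfl fun d hd => ?_
    have := Nat.mul_div_cancel' (Nat.dvd_of_mem_divisors hd)
    simp only [Function.Embedding.coeFn_mk]
    rw [one_div_mul_one_div, ← Nat.cast_mul, this]
  rw [sum_congr rfl e, ← sum_biUnion, sq, sum_mul_sum, ← sum_product']
  · refine sum_le_sum_of_subset_of_nonneg (fun x hx => ?_) fun x _ _ => by positivity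
    obtain ⟨m, hm, hx⟩ := mem_biUnion.1 hx
    obtain ⟨h1, h2⟩ := Nat.mem_divisorsAntidiagonal.1 hx
    obtain ⟨h3, h4⟩ := hM m hm
    rw [← h1, Nat.odd_mul] at h3
    have h5 : x.1 ≤ m := Nat.le_of_dvd (Nat.pos_of_ne_zero h2) ⟨_, h1.symm⟩
    have h6 : x.2 ≤ m := Nat.le_of_dvd (Nat.pos_of_ne_zero h2) ⟨x.1, by rw [← h1, mul_comm]⟩
    simp only [mem_product, mem_filter, mem_range]
    exact ⟨⟨by omega, h3.1⟩, by omega, h3.2⟩
  · intro m _ m' _ hne
    refine disjoint_left.2 fun x h1 h2 => hne ?_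
    rw [← (Nat.mem_divisorsAntidiagonal.1 h1).1, (Nat.mem_divisorsAntidiagonal.1 h2).1]

theorem xEint_sumM : ∑ m ∈ MB, mW m ≤ 81 := by
  have h1 := xEint_div (2 ^ 19) MB fun m hm => by
    obtain ⟨a, b⟩ := mem_filter.1 hm
    have c := (mem_Icc.1 a).2
    exact ⟨Nat.coprime_two_right.1 (b.coprime_dvd_right (by norm_num)), by omega⟩
  have h2 := xEint_odd (2 ^ 19)
  have h3 : log (2 * ((2 ^ 19 : ℕ) : ℝ) + 1) ≤ log (2 ^ 21) :=
    log_le_log (by positivity) (by norm_num)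
  rw [log_pow] at h3
  have h4 := log_two_lt_d9
  have h5 : 0 ≤ ∑ n ∈ (range (2 * 2 ^ 19 + 2)).filter Odd, (1 / n : ℝ) :=
    sum_nonneg fun n _ => by positivity
  generalize ∑ n ∈ (range (2 * 2 ^ 19 + 2)).filter Odd, (1 / n : ℝ) = X at *
  generalize log (2 * ((2 ^ 19 : ℕ) : ℝ) + 1) = Y at *
  have h6 : X ≤ 9 := by
    push_cast at h3
    linarith
  nlinarith

theorem xEint_box (N : ℕ) (hN : 10 ≤ N) : ∑ α ∈ Ioc 10 N ×ˢ Icc 2 6, hW α ≤ 1 / 2 := by
  have h2 := sum_Ioc_inv_sq_le_sub (α := ℝ) (k := 10) (n := N) (by norm_num) hN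
  have h3 : ∀ α ∈ Ioc 10 N ×ˢ Icc 2 6, hW α ≤ ((α.1 : ℝ) ^ 2)⁻¹ := by
    rintro ⟨q, j⟩ h
    simp only [mem_product, mem_Icc, mem_Ioc] at h
    obtain ⟨i, rfl⟩ := Nat.exists_eq_add_of_le h.2.1
    have hq : (2 : ℝ) ≤ q := by exact_mod_cast (by omega : 2 ≤ q)
    rw [hW, Nat.add_sub_cancel_left, pow_add, div_le_iff₀ (by positivity),
      inv_mul_cancel_left₀ (by positivity)]
    exact pow_le_pow_left₀ zero_le_two hq i
  refine (sum_le_sum h3).trans ?_
  rw [sum_product]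
  simp only [sum_const, Nat.card_Icc, nsmul_eq_mul, ← mul_sum]
  have h4 : (0 : ℝ) ≤ (N : ℝ)⁻¹ := by positivity
  generalize ∑ i ∈ Ioc 10 N, ((i : ℝ) ^ 2)⁻¹ = X at *
  norm_num at h2 ⊢
  linarith

theorem xEint_sub : HA ⊆ Ioc 10 (2 ^ 15) ×ˢ Icc 2 6 := by
  intro α
  simp only [HA, mem_union, mem_product, mem_filter, mem_Icc, mem_Ioc, mem_singleton, mem_insert]
  omega

theorem xEint_sumH : ∑ α ∈ HA, hW α ≤ 1 / 2 :=
  (sum_le_sum_of_subset_of_nonneg xEint_sub fun α _ _ => xEint_hW α).trans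
    (xEint_box _ (by norm_num))

theorem xEint_mass : Eint (fun _ => 1) ≤ 1000 := by
  have h0 : 0 ≤ ∑ α ∈ HA, hW α := sum_nonneg fun α _ => xEint_hW α
  have h1 := xEint_sumH
  have h2 : Eint (fun _ => 1) ≤ ∑ s ∈ SB, ∑ m ∈ MB, sW s * mW m * (13 / 8) := by
    refine sum_le_sum fun s _ => sum_le_sum fun m _ =>
      mul_le_mul_of_nonneg_left ?_ (mul_nonneg (xEint_sW s) (xEint_mW m))
    have a1 : (if sN s * m ∈ E0 then 0 else 1 : ℝ) ≤ 1 := by split_ifs <;> norm_num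
    have a2 : ∑ α ∈ HA, ∑ β ∈ HA, hW α * hW β / 2 * 1 = (∑ α ∈ HA, hW α) ^ 2 / 2 := by
      simp only [mul_one, sq, sum_mul_sum, sum_div]
    rw [a2]
    simp only [mul_one]
    nlinarith
  simp only [← sum_mul, ← mul_sum] at h2
  have h3 := mul_le_mul xEint_sumS xEint_sumM (sum_nonneg fun m _ => xEint_mW m) (by norm_num)
  linarith

theorem stEint : StEint := by
  have h1 := xEint_rep fun _ => 1
  simp only [mul_one] at h1
  refine ⟨fun n => xEint_nonneg fun m => by split_ifs <;> norm_num, h1.summable,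
    h1.tsum_eq.trans_le xEint_mass, fun φ => (xEint_rep φ).tsum_eq⟩

end Pool.Agent.MP_88bd62_nt.U
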