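import Pool.Agent.MP_88bd62_nt.U.Stmts

/-! The factorisation of the continued Dirichlet series at the poles. -/

namespace Pool.Agent.MP_88bd62_nt.U

open Finset Real

theorem xEx_pois (l : ℝ) (hl : 0 ≤ l) (K : ℕ) :
    0 ≤ 1 - exp (-l) * ∑ i ∈ range K, l ^ i / i.factorial ∧
      1 - exp (-l) * ∑ i ∈ range K, l ^ i / i.factorial ≤ l ^ K / K.factorial := by
  have he : exp (-l) * exp l = 1 := by rw [← exp_add, neg_add_cancel, exp_zero]
  have hp := exp_pos (-l)
  have hs : HasSum (fun i : ℕ => l ^ i / i.factorial) (exp l) := by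
    rw [Real.exp_eq_exp_ℝ]
    exact NormedSpace.expSeries_div_hasSum_exp l
  constructor
  · have := mul_le_mul_of_nonneg_left (Real.sum_le_exp_of_nonneg hl K) hp.le
    linarith
  · have h1 := hs.summable.sum_add_tsum_nat_add K
    rw [hs.tsum_eq] at h1
    have h2 : ∑' i : ℕ, l ^ (i + K) / ((i + K).factorial : ℝ) ≤ l ^ K / K.factorial * exp l := by
      rw [← hs.tsum_eq, ← tsum_mul_left]
      refine ((summable_nat_add_iff K).2 hs.summable).tsum_le_tsum (fun i => ?_)
        (hs.summable.mul_left _)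
      have h3 : (K.factorial : ℝ) * i.factorial ≤ (i + K).factorial := by
        have := Nat.le_of_dvd (Nat.factorial_pos _)
          (Nat.factorial_mul_factorial_dvd_factorial_add K i)
        rw [add_comm i K]
        exact_mod_cast this
      rw [div_mul_div_comm, ← pow_add, add_comm K i]
      have h4 : (0 : ℝ) < (K.factorial : ℝ) * i.factorial := by positivity
      gcongr
    have h5 := mul_le_mul_of_nonneg_left h2 hp.le
    have h6 : exp (-l) * (l ^ K / K.factorial * exp l) = l ^ K / K.factorial := by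
      rw [mul_left_comm, he, mul_one]
    have h7 : exp (-l) * (∑ i ∈ range K, l ^ i / (i.factorial : ℝ)
        + ∑' i : ℕ, l ^ (i + K) / ((i + K).factorial : ℝ)) = 1 := by rw [h1, he]
    linarith [mul_add (exp (-l)) (∑ i ∈ range K, l ^ i / (i.factorial : ℝ))
      (∑' i : ℕ, l ^ (i + K) / ((i + K).factorial : ℝ))]

theorem xEx_harm (a b : ℕ) (ha : 0 < a) (hab : a ≤ b) :
    ∑ n ∈ Ioc a b, (1 / n : ℝ) ≤ log b - log a := by
  induction b, hab using Nat.le_induction with
  | base => simp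
  | succ b hb ih =>
    rw [sum_Ioc_succ_top hb]
    have hb0 : (0 : ℝ) < b := by exact_mod_cast ha.trans_le hb
    have h1 := Real.log_le_sub_one_of_pos (x := (b : ℝ) / (b + 1)) (by positivity)
    rw [Real.log_div hb0.ne' (by positivity)] at h1
    have h2 : (b : ℝ) / (b + 1) - 1 = -(1 / (b + 1)) := by field_simp; ring
    push_cast
    linarith

theorem xEx_tsum {f g : ℕ → ℂ} (S : Finset ℕ) (h : ∀ n, n ∉ S → f n = g n) :
    ‖∑' n, f n - ∑' n, g n‖ ≤ ∑ n ∈ S, ‖f n - g n‖ := by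
  have hs : HasSum (fun n => f n - g n) (∑ n ∈ S, (f n - g n)) :=
    hasSum_sum_of_ne_finset_zero fun n hn => sub_eq_zero.2 (h n hn)
  by_cases hf : Summable f
  · have hg : Summable g := by simpa using hf.sub hs.summable
    rw [← hf.tsum_sub hg, hs.tsum_eq]
    exact norm_sum_le _ _
  · have hg : ¬ Summable g := fun hg => hf (by simpa using hs.summable.add hg)
    rw [tsum_eq_zero_of_not_summable hf, tsum_eq_zero_of_not_summable hg, sub_zero, norm_zero]
    exact sum_nonneg fun _ _ => norm_nonneg _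

theorem xEx_ee (k : ℤ) (v : ℝ) : ‖ee k v‖ = 1 := Complex.norm_exp_ofReal_mul_I _

theorem xEx_LL (j K : ℕ) (x : ℝ) (hx : 0 < x) (k : ℤ) :
    ‖LL j (fun p => gam x K (log p)) k - LL j (ct j x K) k‖ ≤
      (x * (2 * j * log 2)) ^ K / K.factorial * (j * log 2) := by
  have h4 : 4 ^ j = 2 ^ j * 2 ^ j := (mul_pow 2 2 j :)
  have hz : 0 < 2 ^ j := by positivity
  refine (xEx_tsum (Ioc (2 ^ j) (4 ^ j)) fun n hn => ?_).trans ?_
  · split_ifs with h
    · have : ¬ n ≤ 4 ^ j := fun h' => hn (mem_Ioc.2 ⟨h.2, h'⟩)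
      rw [ct, if_neg this]
    · rfl
  · have hl : log ((4 ^ j : ℕ) : ℝ) = 2 * j * log 2 := by
      rw [Nat.cast_pow, Real.log_pow, show ((4 : ℕ) : ℝ) = 2 ^ 2 by norm_num, Real.log_pow]
      push_cast
      ring
    have hl2 : log ((2 ^ j : ℕ) : ℝ) = j * log 2 := by
      rw [Nat.cast_pow, Real.log_pow, Nat.cast_ofNat]
    have h1 := xEx_harm (2 ^ j) (4 ^ j) hz (by rw [h4]; exact Nat.le_mul_of_pos_left _ hz)
    rw [hl, hl2] at h1
    have hc : 0 ≤ (x * (2 * j * log 2)) ^ K / K.factorial := by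
      have := Real.log_pos (x := 2) (by norm_num)
      positivity
    refine le_trans ?_ (mul_le_mul_of_nonneg_left (h1.trans (by linarith)) hc)
    rw [mul_sum]
    refine sum_le_sum fun n hn => ?_
    obtain ⟨hn1, hn2⟩ := mem_Ioc.1 hn
    have hn0 : (0 : ℝ) < n := by exact_mod_cast hz.trans hn1
    split_ifs with h
    · have hlog : 0 ≤ log (n : ℝ) := Real.log_natCast_nonneg n
      obtain ⟨h2, h3⟩ := xEx_pois (x * log n) (by positivity) K
      have h5 : log (n : ℝ) ≤ 2 * j * log 2 := by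
        rw [← hl]
        exact Real.log_le_log hn0 (by exact_mod_cast hn2)
      rw [← sub_mul, norm_mul, xEx_ee, mul_one, ← Complex.ofReal_sub, Complex.norm_real, ct,
        if_pos hn2, ← sub_div, Real.norm_eq_abs, abs_div, abs_of_pos hn0, abs_sub_comm]
      simp only [gam]
      rw [abs_of_nonneg h2, mul_one_div]
      gcongr
      refine h3.trans ?_
      gcongr
    · rw [sub_zero, norm_zero]
      positivity

theorem xEx_primes (j : ℕ) (hj : 1 ≤ j) :
    (Icc 1 (2 ^ j)).filter Nat.Prime = insert 2 (Pr j) := by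
  ext p
  have : 2 ≤ 2 ^ j := by
    calc 2 = 2 ^ 1 := rfl
      _ ≤ 2 ^ j := Nat.pow_le_pow_right (by norm_num) hj
  simp only [Pr, mem_filter, mem_Icc, mem_insert]
  constructor
  · rintro ⟨⟨_, h1⟩, h2⟩
    have := h2.two_le
    by_cases h : p = 2
    · exact Or.inl h
    · exact Or.inr ⟨⟨by omega, h1⟩, h2⟩
  · rintro (rfl | ⟨⟨h0, h1⟩, h2⟩)
    · exact ⟨⟨by norm_num, this⟩, Nat.prime_two⟩
    · exact ⟨⟨by omega, h1⟩, h2⟩

theorem xEx_recip (j : ℕ) {Mb : ℝ} (hM : Mz j ≤ Mb) :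
    ∑ p ∈ (Icc 1 (2 ^ j)).filter Nat.Prime, (1 / p : ℝ) ≤ 1.18 + log Mb := by
  have hq : ∀ p ∈ (Icc 11 (2 ^ j)).filter Nat.Prime, 0 < 1 - 1 / (p : ℝ) := fun p hp => by
    have h1 : (11 : ℝ) ≤ p := by exact_mod_cast (mem_Icc.1 (mem_filter.1 hp).1).1
    have h2 : 1 / (p : ℝ) ≤ 1 / 11 := by gcongr
    linarith
  have h0 : 0 < Mz j := prod_pos fun p hp => inv_pos.2 (hq p hp)
  have h1 : ∑ p ∈ (Icc 11 (2 ^ j)).filter Nat.Prime, (1 / p : ℝ) ≤ log (Mz j) := by
    rw [Mz, Real.log_prod fun p hp => (inv_pos.2 (hq p hp)).ne']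
    refine sum_le_sum fun p hp => ?_
    have := Real.log_le_sub_one_of_pos (hq p hp)
    rw [Real.log_inv]
    linarith
  have h2 : (Icc 1 (2 ^ j)).filter Nat.Prime ⊆
      ({2, 3, 5, 7} : Finset ℕ) ∪ (Icc 11 (2 ^ j)).filter Nat.Prime := by
    intro p hp
    obtain ⟨hp1, hp2⟩ := mem_filter.1 hp
    obtain ⟨hp3, hp4⟩ := mem_Icc.1 hp1
    by_cases h : 11 ≤ p
    · exact mem_union_right _ (mem_filter.2 ⟨mem_Icc.2 ⟨h, hp4⟩, hp2⟩)
    · refine mem_union_left _ ?_
      have h5 : p < 11 := by omega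
      interval_cases p <;> first | decide | exact absurd hp2 (by decide)
  have h3 := sum_le_sum_of_subset_of_nonneg (f := fun p : ℕ => (1 / p : ℝ)) h2
    fun _ _ _ => by positivity
  have h4 := sum_union_inter (s₁ := ({2, 3, 5, 7} : Finset ℕ))
    (s₂ := (Icc 11 (2 ^ j)).filter Nat.Prime) (f := fun p : ℕ => (1 / p : ℝ))
  have h5 : 0 ≤ ∑ p ∈ ({2, 3, 5, 7} : Finset ℕ) ∩ (Icc 11 (2 ^ j)).filter Nat.Prime,
      (1 / p : ℝ) := sum_nonneg fun _ _ => by positivity
  have h6 : ∑ p ∈ ({2, 3, 5, 7} : Finset ℕ), (1 / p : ℝ) ≤ 1.18 := by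
    rw [sum_insert (by decide), sum_insert (by decide), sum_insert (by decide), sum_singleton]
    norm_num
  have h7 := Real.log_le_log h0 hM
  linarith

theorem xEx_prod (j : ℕ) {δ Mb : ℝ} (hδ : 0 < δ) (hM : Mz j ≤ Mb) {s : ℂ} (hs : 1 - δ ≤ s.re) :
    ‖∏ p ∈ (Icc 1 (2 ^ j)).filter Nat.Prime, (1 - (p : ℂ) ^ (-s))‖ ≤
      exp (2 ^ (j * δ) * (1.18 + log Mb)) := by
  have h2 : (0 : ℝ) < 2 ^ (j * δ) := by positivity
  refine le_trans ?_ (exp_le_exp.2 (mul_le_mul_of_nonneg_left (xEx_recip j hM) h2.le))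
  rw [mul_sum, exp_sum, norm_prod]
  refine prod_le_prod (fun _ _ => norm_nonneg _) fun p hp => ?_
  obtain ⟨hp3, hp4⟩ := mem_Icc.1 (mem_filter.1 hp).1
  have hp1 : (1 : ℝ) ≤ p := by exact_mod_cast hp3
  have h3 : ‖(p : ℂ) ^ (-s)‖ ≤ 2 ^ (j * δ) * (1 / p) := by
    rw [norm_nat_cpow (by omega)]
    calc (p : ℝ) ^ (-s.re) ≤ (p : ℝ) ^ (δ + -1) :=
          Real.rpow_le_rpow_of_exponent_le hp1 (by linarith)
      _ = (p : ℝ) ^ δ * (1 / p) := by
          rw [Real.rpow_add (by linarith), Real.rpow_neg_one, one_div]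
      _ ≤ 2 ^ (j * δ) * (1 / p) := by
          rw [Real.rpow_mul (by norm_num), Real.rpow_natCast]
          gcongr
          exact_mod_cast hp4
  refine (norm_sub_le _ _).trans (le_trans ?_ (Real.add_one_le_exp _))
  rw [norm_one]
  linarith

theorem xEx_tk {k : ℤ} (hk : Odd k) : 4.5 ≤ |tk k| := by
  have h1 : (1 : ℝ) ≤ |(k : ℝ)| := by
    have : k ≠ 0 := by
      rintro rfl
      exact absurd hk (by decide)
    exact_mod_cast Int.one_le_abs this
  have h2 := Real.log_pos (x := 2) (by norm_num)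
  have h3 := Real.log_two_lt_d9
  have h4 := Real.pi_gt_d2
  rw [tk, abs_div, abs_mul, abs_of_pos h2, abs_of_pos pi_pos, le_div_iff₀ h2]
  nlinarith

theorem xEx_re (k : ℤ) : (sk k).re = 1 := by simp [sk]

theorem xEx_im (k : ℤ) : (sk k).im = tk k := by simp [sk]

theorem xEx_loc {y : ℂ} (hy : ‖y‖ ≤ 1 / 3) :
    Complex.exp (loc y) = (1 + 2 * y)⁻¹ * ((1 - y) ^ 2)⁻¹ := by
  have a1 : 1 + 2 * y ≠ 0 := Complex.slitPlane_ne_zero
    (Complex.mem_slitPlane_of_norm_lt_one (by rw [norm_mul]; simp; linarith))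
  have a2 : 1 - y ≠ 0 := by
    rw [sub_eq_add_neg]
    exact Complex.slitPlane_ne_zero
      (Complex.mem_slitPlane_of_norm_lt_one (by rw [norm_neg]; linarith))
  have : (2 : ℂ) * Complex.log (1 - y) = Complex.log (1 - y) + Complex.log (1 - y) := by ring
  rw [loc, Complex.exp_sub, Complex.exp_neg, this, Complex.exp_add, Complex.exp_log a1,
    Complex.exp_log a2, div_eq_mul_inv, sq]

theorem xEx_lam (hS2 : StS2) (j : ℕ) (hj : 20 ≤ j) {s : ℂ} (hs : 1 ≤ s.re) :
    ∃ R : ℂ, ‖R‖ ≤ 3.005 * S2 j ∧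
      Complex.exp (Lam s) = Fz j s * ((∏ p ∈ Pr j, (1 - (p : ℂ) ^ (-s))) ^ 2)⁻¹ * Complex.exp R := by
  obtain ⟨h1, h2⟩ := hS2 j (by omega)
  have hz : 2 ^ 20 ≤ 2 ^ j := Nat.pow_le_pow_right (by norm_num) hj
  let r : ℕ → ℂ := fun n => if n ∈ Pr j then 0 else ell n s
  have hb : ∀ n, ‖r n‖ ≤ 3.005 * (if n.Coprime 210 ∧ 2 ^ j < n then 1 / (n : ℝ) ^ 2 else 0) := by
    intro n
    by_cases h : n.Prime ∧ 2 ^ j < n
    · have hn : (2 : ℝ) ^ 20 ≤ n := by exact_mod_cast hz.trans h.2.le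
      have hc : n.Coprime 210 := (Nat.Prime.coprime_iff_not_dvd h.1).2 fun hd => by
        have := Nat.le_of_dvd (by norm_num) hd
        have := h.2
        omega
      have hm : n ∉ Pr j := fun hm => by
        have := (mem_Icc.1 (mem_filter.1 hm).1).2
        have := h.2
        omega
      simp only [r, if_neg hm, if_pos (And.intro hc h.2)]
      refine (norm_ell_le n hs).trans ?_
      have hn0 : (0 : ℝ) < n := by linarith [show (0 : ℝ) < 2 ^ 20 by positivity]
      have e : 3 / (n : ℝ) ^ 2 + 24 / (n : ℝ) ^ 3 = (3 + 24 / n) * (1 / (n : ℝ) ^ 2) := by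
        field_simp
      have h3 : 24 / (n : ℝ) ≤ 24 / 2 ^ 20 := by gcongr
      rw [e]
      gcongr
      norm_num at h3 ⊢
      linarith
    · have h0 : r n = 0 := by
        simp only [r]
        split_ifs with hm
        · rfl
        · rw [ell, if_neg]
          rintro ⟨hp, h3⟩
          have := hp.two_le
          exact hm (mem_filter.2 ⟨mem_Icc.2 ⟨by omega, not_lt.1 fun h4 => h ⟨hp, h4⟩⟩, hp⟩)
      rw [h0, norm_zero]
      split_ifs <;> positivity
  have hr : Summable fun n => ‖r n‖ :=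
    (h1.mul_left 3.005).of_nonneg_of_le (fun _ => norm_nonneg _) hb
  have hf : HasSum (fun n => if n ∈ Pr j then ell n s else 0) (∑ n ∈ Pr j, ell n s) := by
    have := hasSum_sum_of_ne_finset_zero (f := fun n => if n ∈ Pr j then ell n s else 0)
      (s := Pr j) (L := SummationFilter.unconditional ℕ) fun n hn => if_neg hn
    rwa [sum_congr rfl fun n hn => if_pos hn] at this
  refine ⟨∑' n, r n, ?_, ?_⟩
  · refine (norm_tsum_le_tsum_norm hr).trans ((hr.tsum_le_tsum hb (h1.mul_left _)).trans ?_)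
    rw [tsum_mul_left]
    gcongr
  · have e : Lam s = ∑ n ∈ Pr j, ell n s + ∑' n, r n := by
      rw [← hf.tsum_eq, ← hf.summable.tsum_add hr.of_norm, Lam]
      refine tsum_congr fun n => ?_
      simp only [r]
      split_ifs <;> simp
    rw [e, Complex.exp_add, Complex.exp_sum, Fz, ← prod_pow, ← prod_inv_distrib, ← prod_mul_distrib]
    congr 1
    refine prod_congr rfl fun p hp => ?_
    obtain ⟨hp1, hp2⟩ := mem_filter.1 hp
    have hp3 := (mem_Icc.1 hp1).1
    have hp4 : (3 : ℝ) ≤ p := by exact_mod_cast hp3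
    rw [ell, if_pos ⟨hp2, by omega⟩]
    exact xEx_loc ((norm_cpow_le (by omega) hs).trans (by gcongr))

theorem stEx (hEx1 : StEx1) (hZ2 : StZ2) (hS2 : StS2) : StEx := by
  intro j K x δ T L Mb ε hj hK hx hδ hxδ hL hT hZF hM hε k hk hkT
  have ht := xEx_tk hk
  obtain ⟨E1, hE1, hg⟩ := hEx1 j K x δ
    (al0 L + al1 L * δ + al2 L * δ ^ 2 + 2 ^ (j * δ) * (1.18 + log Mb)) k hj hK hx hδ hxδ hk
    (fun s hs => by
      rw [mem_ball_iff_norm] at hs
      have h1 := (Complex.abs_re_le_norm _).trans_lt hs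
      have h2 := (Complex.abs_im_le_norm _).trans_lt hs
      simp only [Complex.sub_re, Complex.add_re, xEx_re, Complex.ofReal_re, Complex.sub_im,
        Complex.add_im, xEx_im, Complex.ofReal_im, add_zero] at h1 h2
      have h3 := (abs_lt.1 h1).1
      have h4 := abs_sub_abs_le_abs_sub s.im (tk k)
      have h5 := abs_sub_abs_le_abs_sub (tk k) s.im
      rw [abs_sub_comm] at h5
      refine ⟨fun h0 => ?_, ?_⟩
      · have := hZF s h0 (by linarith) (by linarith)
        linarith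
      · have h6 := hZ2 L s.im δ s.re hL (by linarith) (by linarith) hδ.le (by linarith)
          (by linarith)
        rw [Complex.re_add_im] at h6
        rw [norm_mul, exp_add]
        exact mul_le_mul h6 (xEx_prod j hδ hM (by linarith)) (norm_nonneg _) (exp_pos _).le)
  obtain ⟨R, hR, hl⟩ := xEx_lam hS2 j hj (s := sk k) (xEx_re k).ge
  have hL2 := xEx_LL j K x hx k
  refine ⟨R - 2 * E1 - 2 * (LL j (fun p => gam x K (log p)) k - LL j (ct j x K) k), ?_, ?_⟩
  · have hS : 0 ≤ S2 j := by unfold S2; positivity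
    have h1 := norm_sub_le (R - 2 * E1)
      (2 * (LL j (fun p => gam x K (log p)) k - LL j (ct j x K) k))
    have h2 := norm_sub_le R (2 * E1)
    rw [norm_mul, Complex.norm_two] at h1 h2
    linarith
  · have h2 : (2 : ℕ) ∉ Pr j := fun hm => by
      have := (mem_Icc.1 (mem_filter.1 hm).1).1
      omega
    rw [xEx_primes j (by omega), prod_insert h2, Nat.cast_ofNat] at hg
    have e : -2 * LL j (ct j x K) k +
        (R - 2 * E1 - 2 * (LL j (fun p => gam x K (log p)) k - LL j (ct j x K) k)) =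
        R - (2 : ℕ) * (LL j (fun p => gam x K (log p)) k + E1) := by
      push_cast
      ring
    rw [e, Complex.exp_sub, Complex.exp_nat_mul, ← hg, FS, FF, hl]
    simp only [div_eq_mul_inv, mul_pow, mul_inv]
    ring

end Pool.Agent.MP_88bd62_nt.U
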