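import Pool.Agent.MP_88bd62_nt.U.Stmts

namespace Pool.Agent.MP_88bd62_nt.U

open Finset Real
open ArithmeticFunction (vonMangoldt)

noncomputable section

/-- The coefficients of the logarithm of the zeta function without the small primes. -/
def xEx1_a (j n : ℕ) : ℂ :=
  (1 : DirichletCharacter ℂ (2 ^ j).factorial) n * vonMangoldt n / Real.log n

theorem xEx1_exp (j : ℕ) {s : ℂ} (hs : 1 < s.re) : Complex.exp (LSeries (xEx1_a j) s) =
    riemannZeta s * ∏ p ∈ (Icc 1 (2 ^ j)).filter Nat.Prime, (1 - (p : ℂ) ^ (-s)) := by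
  have : NeZero (2 ^ j).factorial := ⟨Nat.factorial_ne_zero _⟩
  have h1 := DirichletCharacter.LSeries_changeLevel (one_dvd (2 ^ j).factorial)
    (1 : DirichletCharacter ℂ 1) hs
  rw [DirichletCharacter.changeLevel_one, DirichletCharacter.LSeries_modOne_eq,
    LSeries_one_eq_riemannZeta hs] at h1
  have h2 : (2 ^ j).factorial.primeFactors = (Icc 1 (2 ^ j)).filter Nat.Prime := by
    ext p
    simp only [Nat.mem_primeFactors, mem_filter, mem_Icc]
    exact ⟨fun h => ⟨⟨h.1.pos, h.1.dvd_factorial.1 h.2.1⟩, h.1⟩,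
      fun h => ⟨h.2, h.2.dvd_factorial.2 h.1.2, Nat.factorial_ne_zero _⟩⟩
  rw [h2] at h1
  refine (DirichletCharacter.LSeries_eq_exp_LSeries _ hs).trans (h1.trans ?_)
  congr 1
  refine prod_congr rfl fun p _ => ?_
  rw [MulChar.one_apply (isUnit_of_subsingleton _), one_mul]

theorem xEx1_norm (j n : ℕ) : ‖xEx1_a j n‖ ≤ vonMangoldt n / Real.log n := by
  rw [xEx1_a, norm_div, norm_mul, Complex.norm_real, Complex.norm_real,
    Real.norm_of_nonneg ArithmeticFunction.vonMangoldt_nonneg,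
    Real.norm_of_nonneg (log_natCast_nonneg n)]
  refine div_le_div_of_nonneg_right ?_ (log_natCast_nonneg n)
  exact mul_le_of_le_one_left ArithmeticFunction.vonMangoldt_nonneg
    (DirichletCharacter.norm_le_one _ _)

theorem xEx1_one (n : ℕ) : vonMangoldt n / Real.log n ≤ 1 :=
  div_le_one_of_le₀ ArithmeticFunction.vonMangoldt_le_log (log_natCast_nonneg n)

theorem xEx1_abs (j : ℕ) {s : ℂ} (hs : 1 < s.re) :
    LSeries.abscissaOfAbsConv (xEx1_a j) < s.re :=
  (LSeries.abscissaOfAbsConv_le_of_le_const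
    ⟨1, fun n _ => (xEx1_norm j n).trans (xEx1_one n)⟩).trans_lt (by exact_mod_cast hs)

theorem xEx1_pow (j k : ℕ) {p : ℕ} (hp : p.Prime) :
    xEx1_a j (p ^ (k + 1)) = if 2 ^ j < p then 1 / ((k : ℂ) + 1) else 0 := by
  have h0 : (Real.log p : ℂ) ≠ 0 := by exact_mod_cast hp.log_ne_zero
  have h1 : ((k : ℂ) + 1) ≠ 0 := by exact_mod_cast k.succ_ne_zero
  have h2 := ZMod.isUnit_prime_iff_not_dvd (n := (2 ^ j).factorial) hp
  rw [hp.dvd_factorial, not_le] at h2
  rw [xEx1_a, ArithmeticFunction.vonMangoldt_apply_pow k.succ_ne_zero,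
    ArithmeticFunction.vonMangoldt_apply_prime hp, Nat.cast_pow, Nat.cast_pow, Real.log_pow, map_pow]
  split_ifs with h
  · rw [MulChar.one_apply (h2.2 h), one_pow, one_mul, Complex.ofReal_mul, Complex.ofReal_natCast,
      Nat.cast_succ]
    field_simp
  · rw [MulChar.map_nonunit _ (fun h3 => h (h2.1 h3))]
    simp

theorem xEx1_bd (hInv : StInv) (j : ℕ) {x : ℝ} (hx : 0 < x) {b : ℂ} (hb : b.re = 1 + x) :
    ‖LSeries (xEx1_a j) b‖ ≤ Real.log (1 + 1 / x) := by
  have h1 : (1 : ℝ) < 1 + x := by linarith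
  have h2 := hInv.1 ((1 + x : ℝ) : ℂ) (by rwa [Complex.ofReal_re])
  rw [Complex.ofReal_re, add_sub_cancel_left] at h2
  have h3 : Summable fun n : ℕ => vonMangoldt n / ((n : ℝ) ^ (1 + x) * Real.log n) := by
    refine (Real.summable_one_div_nat_rpow.2 h1).of_nonneg_of_le (fun n => div_nonneg
      ArithmeticFunction.vonMangoldt_nonneg (mul_nonneg (by positivity) (log_natCast_nonneg n)))
      fun n => ?_
    rw [mul_comm, ← div_div]
    exact div_le_div_of_nonneg_right (xEx1_one n) (by positivity)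
  refine (tsum_of_norm_bounded h3.hasSum fun n => ?_).trans ?_
  · rw [LSeries.norm_term_eq, hb]
    split_ifs with h
    · simp [h]
    · rw [mul_comm, ← div_div]
      exact div_le_div_of_nonneg_right (xEx1_norm j n) (by positivity)
  · rw [← log_riemannZeta_eq h1]
    exact (Real.log_le_log (riemannZeta_re_pos_of_one_lt h1) (Complex.re_le_norm _)).trans
      ((le_abs_self _).trans h2)

theorem xEx1_logMul (a : ℕ → ℂ) (i n : ℕ) :
    (LSeries.logMul^[i] a) n = (Real.log n : ℂ) ^ i * a n := by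
  induction i with
  | zero => simp
  | succ i ih =>
    rw [Function.iterate_succ_apply', LSeries.logMul, ih, Complex.natCast_log]
    ring

theorem xEx1_taylor (j K : ℕ) {x : ℝ} (hx : 0 < x) (k : ℤ) :
    HasSum (fun n : ℕ => xEx1_a j n * (((gam x K (Real.log n) / n : ℝ) : ℂ) * ee k (-th n)))
      (∑ i ∈ range K, iteratedDeriv i (LSeries (xEx1_a j)) (sk k + x) / i.factorial *
        (-(x : ℂ)) ^ i) := by
  have hb : 1 < (sk k + x).re := by simp [sk, hx]
  have h1 : ∀ i ∈ range K, HasSum (fun n => (x : ℂ) ^ i / i.factorial *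
      LSeries.term (LSeries.logMul^[i] (xEx1_a j)) (sk k + x) n)
      (iteratedDeriv i (LSeries (xEx1_a j)) (sk k + x) / i.factorial * (-(x : ℂ)) ^ i) := by
    intro i _
    have h2 : LSeriesSummable (LSeries.logMul^[i] (xEx1_a j)) (sk k + x) :=
      LSeriesSummable_of_abscissaOfAbsConv_lt_re
        (LSeries.absicssaOfAbsConv_logPowMul.symm ▸ xEx1_abs j hb)
    refine (h2.hasSum.mul_left ((x : ℂ) ^ i / i.factorial)).trans_eq (congrArg nhds ?_)
    rw [LSeries_iteratedDeriv i (xEx1_abs j hb), neg_pow (x : ℂ), LSeries]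
    have h3 : ((-1 : ℂ) ^ i) * (-1) ^ i = 1 := by rw [← mul_pow]; simp
    linear_combination -(x : ℂ) ^ i / i.factorial *
      (∑' n, LSeries.term (LSeries.logMul^[i] (xEx1_a j)) (sk k + x) n) * h3
  convert hasSum_sum h1 using 1
  ext n
  rcases eq_or_ne n 0 with rfl | hn
  · simp
  have h4 : (n : ℂ) ≠ 0 := Nat.cast_ne_zero.2 hn
  have h5 : ((n : ℂ) ^ (sk k + x))⁻¹ =
      ((Real.exp (-(x * Real.log n)) / n : ℝ) : ℂ) * ee k (-th n) := by
    rw [← Complex.cpow_neg, Complex.cpow_def_of_ne_zero h4, ← Complex.natCast_log, ee, sk, tk, th,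
      logb]
    have h6 : (n : ℂ)⁻¹ = Complex.exp (-(Real.log n : ℂ)) := by
      rw [Complex.exp_neg, ← Complex.ofReal_exp, Real.exp_log (by positivity),
        Complex.ofReal_natCast]
    rw [Complex.ofReal_div (Real.exp _), Complex.ofReal_natCast, div_eq_mul_inv _ (n : ℂ), h6,
      Complex.ofReal_exp, ← Complex.exp_add, ← Complex.exp_add]
    congr 1
    push_cast
    ring
  simp only [LSeries.term_of_ne_zero hn, xEx1_logMul, div_eq_mul_inv _ ((n : ℂ) ^ (sk k + x)), h5,
    gam]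
  push_cast
  simp only [mul_sum, sum_mul, sum_div]
  refine sum_congr rfl fun i _ => ?_
  ring

theorem xEx1_gam {x y : ℝ} (K : ℕ) (h : 0 ≤ x * y) : 0 ≤ gam x K y ∧ gam x K y ≤ 1 := by
  refine ⟨mul_nonneg (exp_pos _).le (sum_nonneg fun i _ => by positivity), ?_⟩
  rw [gam, Real.exp_neg, inv_mul_le_one₀ (exp_pos _)]
  exact Real.sum_le_exp_of_nonneg h K

theorem xEx1_split (hS2 : StS2) {j : ℕ} (hj : 20 ≤ j) {c : ℕ → ℝ} (hc : ∀ n, 0 ≤ c n ∧ c n ≤ 1)
    (k : ℤ) {T : ℂ} (h : HasSum (fun n : ℕ => xEx1_a j n * (((c n / n : ℝ) : ℂ) * ee k (-th n))) T) :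
    ‖T - LL j c k‖ ≤ 0.5001 * S2 j := by
  have h1 := tsum_eq_tsum_primes_add_tsum_primes_of_support_subset_prime_powers h.summable
    (fun n hn => by
      by_contra h2
      exact hn (by simp [xEx1_a, ArithmeticFunction.vonMangoldt_eq_zero_iff.2 h2]))
  have h2 : ∑' p : Nat.Primes, xEx1_a j p * (((c p / (p : ℕ) : ℝ) : ℂ) * ee k (-th p)) =
      LL j c k := by
    refine (tsum_subtype {p : ℕ | p.Prime}
      fun n : ℕ => xEx1_a j n * (((c n / n : ℝ) : ℂ) * ee k (-th n))).trans
      (tsum_congr fun n => ?_)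
    by_cases hn : n.Prime
    · have h3 := xEx1_pow j 0 hn
      rw [zero_add, pow_one] at h3
      rw [Set.indicator_of_mem (show n ∈ {p : ℕ | p.Prime} from hn), h3]
      by_cases h4 : 2 ^ j < n <;> simp [h4, hn]
    · rw [Set.indicator_of_notMem (show n ∉ {p : ℕ | p.Prime} from hn), if_neg fun h => hn h.1]
  rw [h.tsum_eq, h2] at h1
  rw [h1, add_sub_cancel_left]
  obtain ⟨h3, h4⟩ := hS2 j (by omega)
  have h5 := (h3.mul_left 0.5001).subtype {p : ℕ | p.Prime}
  refine (tsum_of_norm_bounded h5.hasSum fun p => ?_).trans ?_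
  · obtain ⟨p, hp⟩ := p
    change p.Prime at hp
    simp only [Function.comp]
    by_cases h6 : 2 ^ j < p
    · have h7 : 2 ^ 20 < p := (Nat.pow_le_pow_right two_pos hj).trans_lt h6
      have h8 : (2 : ℝ) ^ 20 < p := by exact_mod_cast h7
      have h9 : (0 : ℝ) < p := by linarith [show (0 : ℝ) < 2 ^ 20 by positivity]
      have h10 : (p : ℝ)⁻¹ < 1 := inv_lt_one_of_one_lt₀ (by linarith [show (1 : ℝ) < 2 ^ 20 by norm_num])
      rw [if_pos ⟨hp.coprime_iff_not_dvd.2 fun h => by
        have := Nat.le_of_dvd (by norm_num) h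
        omega, h6⟩]
      refine (tsum_of_norm_bounded ((hasSum_geometric_of_lt_one (by positivity) h10).mul_left
        (1 / 2 * (1 / (p : ℝ) ^ 2))) fun m => ?_).trans ?_
      · have h11 : ‖ee k (-th (p ^ (m + 2)))‖ = 1 := Complex.norm_exp_ofReal_mul_I _
        have h12 : ‖(1 / (((m + 1 : ℕ) : ℂ) + 1))‖ ≤ 1 / 2 := by
          have : (((m + 1 : ℕ) : ℂ) + 1) = ((m + 2 : ℕ) : ℂ) := by push_cast; ring
          rw [this, norm_div, norm_one, Complex.norm_natCast]
          exact one_div_le_one_div_of_le two_pos (by exact_mod_cast Nat.le_add_left 2 m)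
        rw [xEx1_pow j (m + 1) hp, if_pos h6, norm_mul, norm_mul, h11, mul_one, Complex.norm_real,
          Real.norm_of_nonneg (div_nonneg (hc _).1 (by positivity)), mul_assoc]
        refine mul_le_mul h12 ((div_le_div_of_nonneg_right (hc _).2 (by positivity)).trans_eq ?_)
          (div_nonneg (hc _).1 (by positivity)) (by norm_num)
        rw [Nat.cast_pow, inv_pow, pow_add]
        field_simp
      · have h11 : (p : ℝ)⁻¹ ≤ 1 / 2 ^ 20 := by
          rw [one_div]
          exact inv_anti₀ (by positivity) h8.le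
        have h12 : (1 - (p : ℝ)⁻¹)⁻¹ ≤ 1.0002 := by
          rw [inv_le_comm₀ (by linarith) (by norm_num)]
          norm_num at h11 ⊢
          linarith
        have h13 : 0 ≤ 1 / (p : ℝ) ^ 2 := by positivity
        nlinarith
    · rw [if_neg fun h => h6 h.2]
      refine le_of_eq ?_
      simp only [xEx1_pow j (_ + 1) hp, if_neg h6, zero_mul, tsum_zero, norm_zero, mul_zero]
  · refine ((h3.mul_left 0.5001).tsum_subtype_le _ _ fun n => ?_).trans ?_
    · split_ifs <;> positivity
    · rw [tsum_mul_left]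
      exact mul_le_mul_of_nonneg_left h4 (by norm_num)

theorem xEx1_log {g G₁ : ℂ → ℂ} {b : ℂ} {r R : ℝ} (hr : 0 < r) (hR : r ≤ R)
    (hg : DifferentiableOn ℂ g (Metric.ball b R)) (h0 : ∀ s ∈ Metric.ball b R, g s ≠ 0)
    (h1 : DifferentiableOn ℂ G₁ (Metric.ball b r))
    (h2 : ∀ s ∈ Metric.ball b r, Complex.exp (G₁ s) = g s) :
    ∃ G : ℂ → ℂ, DifferentiableOn ℂ G (Metric.ball b R) ∧
      (∀ s ∈ Metric.ball b R, Complex.exp (G s) = g s) ∧ G =ᶠ[nhds b] G₁ := by
  have h3 : DifferentiableOn ℂ (fun s => deriv g s / g s) (Metric.ball b R) :=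
    (hg.deriv Metric.isOpen_ball).div hg h0
  obtain ⟨G, hb, hG⟩ := h3.isExactOn_ball.with_val_at b (G₁ b)
  have hd : ∀ s ∈ Metric.ball b R, HasDerivAt g (deriv g s) s := fun s hs =>
    (hg.differentiableAt (Metric.isOpen_ball.mem_nhds hs)).hasDerivAt
  have hc : ∀ {F : ℂ → ℂ} {ρ : ℝ}, 0 < ρ → (∀ s ∈ Metric.ball b ρ, HasDerivAt F 0 s) →
      ∀ s ∈ Metric.ball b ρ, F s = F b := fun hρ hF s hs =>
    Metric.isOpen_ball.is_const_of_deriv_eq_zero (convex_ball b _).isPreconnected
      (fun s hs => (hF s hs).differentiableAt.differentiableWithinAt)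
      (fun s hs => (hF s hs).deriv) hs (Metric.mem_ball_self hρ)
  refine ⟨G, fun s hs => (hG s hs).differentiableAt.differentiableWithinAt, fun s hs => ?_, ?_⟩
  · have h4 := hc (F := fun s => g s * Complex.exp (-G s)) (hr.trans_le hR) (fun s hs => by
      refine ((hd s hs).mul (hG s hs).neg.cexp).congr_deriv ?_
      have := h0 s hs
      field_simp
      ring) s hs
    simp only [hb, ← h2 b (Metric.mem_ball_self hr), ← Complex.exp_add, add_neg_cancel,
      Complex.exp_zero] at h4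
    rw [Complex.exp_neg, mul_inv_eq_one₀ (Complex.exp_ne_zero _)] at h4
    exact h4.symm
  · filter_upwards [Metric.ball_mem_nhds b hr] with s hs
    have h4 := hc (F := fun s => G s - G₁ s) hr (fun s hs => by
      have hs' := Metric.ball_subset_ball hR hs
      have h5 := (h1.differentiableAt (Metric.isOpen_ball.mem_nhds hs)).hasDerivAt
      have h6 := (h5.cexp.congr_of_eventuallyEq (f₁ := g) (by
        filter_upwards [Metric.isOpen_ball.mem_nhds hs] with z hz using (h2 z hz).symm)).deriv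
      refine ((hG s hs').sub h5).congr_deriv ?_
      rw [h6, h2 s hs, mul_div_cancel_left₀ _ (h0 s hs'), sub_self]) s hs
    simp only [hb, sub_self] at h4
    exact sub_eq_zero.1 h4

theorem xEx1_tk {k : ℤ} (hk : Odd k) : 1 ≤ |tk k| := by
  have h1 : (1 : ℝ) ≤ |(k : ℝ)| := by
    have : k ≠ 0 := fun h => by simp [h] at hk
    exact_mod_cast Int.one_le_abs this
  have h2 := Real.log_two_gt_d9
  have h3 := Real.log_two_lt_d9
  rw [tk, abs_div, abs_mul, abs_of_pos pi_pos, abs_of_pos (by linarith : 0 < Real.log 2),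
    le_div_iff₀ (by linarith)]
  nlinarith [Real.pi_gt_three]

theorem stEx1 (hCar : StCar) (hS2 : StS2) (hInv : StInv) : StEx1 := by
  intro j K x δ M k hj hK hx hδ hxδ hk hM
  have hre : (sk k + x).re = 1 + x := by simp [sk]
  have him : (sk k + x).im = tk k := by simp [sk]
  have h1 : ∀ s ∈ Metric.ball (sk k + x) x, 1 < s.re := fun s hs => by
    have h2 := (Complex.abs_re_le_norm (s - (sk k + x))).trans_lt (mem_ball_iff_norm.1 hs)
    rw [Complex.sub_re, hre] at h2
    linarith [(abs_lt.1 h2).1]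
  have h2 : ∀ s ∈ Metric.ball (sk k + x) (x + δ), s ≠ 1 ∧ 0 < s.re := fun s hs => by
    have h3 := (Complex.abs_re_le_norm (s - (sk k + x))).trans_lt (mem_ball_iff_norm.1 hs)
    have h4 := (Complex.abs_im_le_norm (s - (sk k + x))).trans_lt (mem_ball_iff_norm.1 hs)
    rw [Complex.sub_re, hre] at h3
    refine ⟨fun h => ?_, by linarith [(abs_lt.1 h3).1]⟩
    rw [h, Complex.sub_im, him, Complex.one_im, zero_sub, abs_neg] at h4
    linarith [xEx1_tk hk]
  obtain ⟨G, hG, hE, hG₁⟩ := xEx1_log (b := sk k + x) (G₁ := LSeries (xEx1_a j))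
    (g := fun s => riemannZeta s * ∏ p ∈ (Icc 1 (2 ^ j)).filter Nat.Prime, (1 - (p : ℂ) ^ (-s)))
    hx (le_add_of_nonneg_right hδ.le)
    (fun s hs => ((differentiableAt_riemannZeta (h2 s hs).1).mul
      (DifferentiableAt.fun_finsetProd fun p hp => (differentiableAt_const _).sub
        (differentiableAt_id.neg.const_cpow (Or.inl (Nat.cast_ne_zero.2
          (mem_filter.1 hp).2.ne_zero))))).differentiableWithinAt)
    (fun s hs => mul_ne_zero (hM s hs).1 (prod_ne_zero_iff.2 fun p hp h => by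
      have h3 := congrArg norm (sub_eq_zero.1 h)
      rw [norm_one, norm_nat_cpow (mem_filter.1 hp).2.ne_zero] at h3
      exact (Real.rpow_lt_one_of_one_lt_of_neg (by exact_mod_cast (mem_filter.1 hp).2.one_lt)
        (neg_lt_zero.2 (h2 s hs).2)).ne' h3))
    ((LSeries_differentiableOn _).mono fun s hs => xEx1_abs j (h1 s hs))
    fun s hs => xEx1_exp j (h1 s hs)
  have hn : ‖-(x : ℂ)‖ = x := by rw [norm_neg, Complex.norm_real, Real.norm_of_nonneg hx.le]
  have h3 := hCar G (sk k + x) (-x) (x + δ) M K hG (fun z hz => by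
    have h4 := (hM z hz).2
    rwa [← hE z hz, Complex.norm_exp, Real.exp_le_exp] at h4) (by rw [hn]; linarith) hK
  simp only [hG₁.iteratedDeriv_eq, hn, add_neg_cancel_right, hG₁.eq_of_nhds] at h3
  have h4 := xEx1_split hS2 hj (c := fun n => gam x K (Real.log n))
    (fun n => xEx1_gam K (mul_nonneg hx.le (log_natCast_nonneg n))) k (xEx1_taylor j K hx k)
  have h5 := (abs_le.1 ((Complex.abs_re_le_norm _).trans (xEx1_bd hInv j hx hre))).1
  refine ⟨G (sk k) - LL j (fun p => gam x K (Real.log p)) k, ?_, ?_⟩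
  · refine (norm_sub_le_norm_sub_add_norm_sub _ _ _).trans (add_le_add (h3.trans ?_) h4)
    have h6 : x / (x + δ) < 1 := (div_lt_one (by linarith)).2 (by linarith)
    refine div_le_div_of_nonneg_right (mul_le_mul_of_nonneg_right (by linarith) (by positivity))
      (by linarith)
  · rw [add_sub_cancel]
    refine (hE _ ?_).symm
    rw [mem_ball_iff_norm, sub_add_cancel_left, hn]
    linarith

end

end Pool.Agent.MP_88bd62_nt.U
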