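import Pool.Agent.MP_88bd62_nt.U.Stmts

/-! Analytic continuation of the Dirichlet series slightly to the left of the line of real part
one. -/

namespace Pool.Agent.MP_88bd62_nt.U

open Finset Real Filter Topology

lemma xFA_loc {x : ℂ} (hx : ‖x‖ ≤ 2 / 5) : ‖loc x‖ ≤ 12 * ‖x‖ ^ 2 := by
  have n2 : ‖(2 : ℂ) * x‖ = 2 * ‖x‖ := by simp
  have h1 := Complex.norm_log_one_add_sub_self_le (z := 2 * x) (by rw [n2]; linarith)
  have h2 := Complex.norm_log_one_add_sub_self_le (z := -x) (by rw [norm_neg]; linarith)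
  have e : loc x = -(Complex.log (1 + 2 * x) - 2 * x) - 2 * (Complex.log (1 + -x) - -x) := by
    rw [loc, sub_eq_add_neg 1 x]
    ring
  rw [n2] at h1
  rw [norm_neg] at h2
  have b1 : (1 - 2 * ‖x‖)⁻¹ ≤ 5 := inv_le_of_inv_le₀ (by norm_num) (by linarith)
  have b2 : (1 - ‖x‖)⁻¹ ≤ 2 := inv_le_of_inv_le₀ (by norm_num) (by linarith)
  have c1 := mul_le_mul_of_nonneg_left b1 (sq_nonneg (2 * ‖x‖))
  have c2 := mul_le_mul_of_nonneg_left b2 (sq_nonneg ‖x‖)
  rw [e]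
  refine (norm_sub_le _ _).trans ?_
  rw [norm_neg, norm_mul, Complex.norm_two]
  linarith

lemma xFA_pow {n : ℕ} (hn : n ≠ 0) {s : ℂ} (hs : 9 / 10 < s.re) :
    ‖(n : ℂ) ^ (-s)‖ ≤ (n : ℝ) ^ (-(9 / 10) : ℝ) := by
  rw [norm_nat_cpow hn]
  exact rpow_le_rpow_of_exponent_le (by exact_mod_cast Nat.one_le_iff_ne_zero.2 hn) (by linarith)

lemma xFA_pow3 {n : ℕ} (hn : 3 ≤ n) {s : ℂ} (hs : 9 / 10 < s.re) : ‖(n : ℂ) ^ (-s)‖ ≤ 2 / 5 := by
  refine (xFA_pow (by omega) hs).trans ((rpow_le_rpow_of_nonpos (x := 3) (by norm_num)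
    (by exact_mod_cast hn) (by norm_num)).trans ?_)
  refine le_of_pow_le_pow_left₀ (n := 10) (by norm_num) (by norm_num) ?_
  rw [← rpow_natCast, ← rpow_mul (by norm_num)]
  norm_num

lemma xFA_ell (n : ℕ) {s : ℂ} (hs : 9 / 10 < s.re) : ‖ell n s‖ ≤ 12 * (n : ℝ) ^ (-(9 / 5) : ℝ) := by
  unfold ell
  split_ifs with h
  · have h3 : 3 ≤ n := by have := h.1.two_le; omega
    refine (xFA_loc (xFA_pow3 h3 hs)).trans (mul_le_mul_of_nonneg_left
      ((pow_le_pow_left₀ (norm_nonneg _) (xFA_pow (by omega) hs) 2).trans_eq ?_) (by norm_num))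
    rw [← rpow_natCast, ← rpow_mul (Nat.cast_nonneg n)]
    norm_num
  · rw [norm_zero]
    positivity

lemma xFA_sum : Summable fun n : ℕ => 12 * (n : ℝ) ^ (-(9 / 5) : ℝ) :=
  (summable_nat_rpow.2 (by norm_num)).mul_left 12

lemma xFA_cpow {n : ℕ} (hn : n ≠ 0) : Differentiable ℂ fun s : ℂ => (n : ℂ) ^ (-s) :=
  differentiable_neg.const_cpow (Or.inl (Nat.cast_ne_zero.2 hn))

lemma xFA_Lam : DifferentiableOn ℂ Lam {s | 9 / 10 < s.re} := by
  refine Complex.differentiableOn_tsum_of_summable_norm xFA_sum (fun n => ?_)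
    (isOpen_lt continuous_const Complex.continuous_re) fun n s hs => xFA_ell n hs
  unfold ell
  split_ifs with h
  · have h3 : 3 ≤ n := by have := h.1.two_le; omega
    intro s hs
    have hc := xFA_cpow (n := n) (by omega) s
    have hx := xFA_pow3 h3 hs
    have a1 : 1 + 2 * (n : ℂ) ^ (-s) ∈ Complex.slitPlane :=
      Complex.mem_slitPlane_of_norm_lt_one (by rw [norm_mul, Complex.norm_two]; linarith)
    have a2 : 1 - (n : ℂ) ^ (-s) ∈ Complex.slitPlane := by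
      rw [sub_eq_add_neg]
      exact Complex.mem_slitPlane_of_norm_lt_one (by rw [norm_neg]; linarith)
    exact ((((hc.const_mul 2).const_add 1).clog a1).neg.sub
      (((hc.const_sub 1).clog a2).const_mul 2)).differentiableWithinAt
  · exact differentiableOn_const _

lemma xFA_two {s : ℂ} (hs : 9 / 10 < s.re) :
    1 - (2 : ℝ) ^ (-(9 / 10) : ℝ) ≤ ‖1 - (2 : ℂ) ^ (-s)‖ := by
  have h1 := xFA_pow (n := 2) two_ne_zero hs
  have h2 := norm_sub_norm_le (1 : ℂ) (2 ^ (-s))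
  rw [norm_one] at h2
  push_cast at h1
  linarith

lemma xFA_inv {s : ℂ} (hs : s ≠ 1) : (s - 1) / riemannZeta₁ s = (riemannZeta s)⁻¹ := by
  rw [riemannZeta_eq_inv_sub_mul hs, mul_inv, inv_inv, div_eq_mul_inv]

lemma xFA_log (t : ℝ) : 1 ≤ log (|t| + 3) := by
  have := abs_nonneg t
  rw [le_log_iff_exp_le (by linarith)]
  linarith [exp_one_lt_d9]

lemma xFA_small : ∃ δ C : ℝ, 0 < δ ∧ ∀ (σ t : ℝ) (s : ℂ), 1 ≤ σ → σ ≤ 2 → |t| ≤ 4 →
    ‖s - (σ + t * Complex.I)‖ ≤ δ → riemannZeta₁ s ≠ 0 ∧ ‖(s - 1) / riemannZeta₁ s‖ ≤ C := by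
  have hK : IsCompact (Set.Icc (1 : ℝ) 2 ×ℂ Set.Icc (-4 : ℝ) 4) :=
    isCompact_Icc.reProdIm isCompact_Icc
  obtain ⟨δ, hδ, h⟩ := hK.exists_cthickening_subset_open (t := {s | riemannZeta₁ s ≠ 0})
    (isOpen_ne_fun differentiable_riemannZeta₁.continuous continuous_const) fun s hs h0 => by
      by_cases h1 : s = 1
      · simp [h1] at h0
      · exact riemannZeta_ne_zero_of_one_le_re hs.1.1
          (by rw [riemannZeta_eq_inv_sub_mul h1, h0, mul_zero])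
  obtain ⟨C, hC⟩ := (hK.cthickening (r := δ)).exists_bound_of_continuousOn
    (f := fun s => (s - 1) / riemannZeta₁ s) ((continuousOn_id.sub continuousOn_const).div
      differentiable_riemannZeta₁.continuous.continuousOn h)
  refine ⟨δ, C, hδ, fun σ t s h1 h2 h3 h4 => ?_⟩
  have h5 := Metric.mem_cthickening_of_dist_le s (σ + t * Complex.I) δ
    (Set.Icc (1 : ℝ) 2 ×ℂ Set.Icc (-4 : ℝ) 4)
    ⟨by simpa using ⟨h1, h2⟩, by simpa using abs_le.1 h3⟩ (by rwa [dist_eq_norm])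
  exact ⟨h h5, hC s h5⟩

lemma xFA_H (hZC : StZC) : ∃ c C : ℝ, 0 < c ∧ ∀ (σ t : ℝ) (s : ℂ), 1 ≤ σ → σ ≤ 2 →
    ‖s - (σ + t * Complex.I)‖ < c / log (|t| + 3) ^ 9 → 9 / 10 < s.re ∧
      riemannZeta₁ s ≠ 0 ∧ ‖(s - 1) / riemannZeta₁ s‖ ≤ C * log (|t| + 3) ^ 7 := by
  obtain ⟨c, C, hc, h⟩ := hZC
  obtain ⟨δ, C', hδ, h'⟩ := xFA_small
  refine ⟨min c (min δ (1 / 10)), max |C| |C'|, by positivity, fun σ t s h1 h2 h3 => ?_⟩
  have hl := xFA_log t
  have h4 := h3.trans_le (div_le_self (by positivity) (one_le_pow₀ hl))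
  have h5 := h4.trans_le ((min_le_right _ _).trans (min_le_right _ _))
  have h6 := abs_lt.1 ((Complex.abs_re_le_norm _).trans_lt h5)
  have h7 := (Complex.abs_im_le_norm _).trans_lt h5
  simp only [Complex.sub_re, Complex.add_re, Complex.ofReal_re, Complex.mul_re, Complex.I_re,
    Complex.ofReal_im, Complex.I_im, mul_zero, mul_one, sub_zero, add_zero] at h6
  refine ⟨by linarith, ?_⟩
  rcases le_total 4 |t| with ht | ht
  · have hs : s ≠ 1 := by
      rintro rfl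
      simp at h7
      linarith
    obtain ⟨h8, h9⟩ := h σ t s h1 h2 ht (h3.trans_le (by gcongr; exact min_le_left _ _))
    refine ⟨fun h0 => h8 (by rw [riemannZeta_eq_inv_sub_mul hs, h0, mul_zero]), ?_⟩
    rw [xFA_inv hs]
    exact h9.trans (mul_le_mul_of_nonneg_right ((le_abs_self C).trans (le_max_left _ _))
      (by positivity))
  · obtain ⟨h8, h9⟩ := h' σ t s h1 h2 ht
      (h4.le.trans ((min_le_right _ _).trans (min_le_left _ _)))
    exact ⟨h8, h9.trans (((le_abs_self C').trans (le_max_right _ _)).trans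
      (le_mul_of_one_le_right (by positivity) (one_le_pow₀ hl)))⟩

lemma xFA_log14 (t : ℝ) :
    (log (|t| + 3) ^ 7) ^ 2 ≤ 112 ^ 14 * 3 ^ (1 / 8 : ℝ) * (1 + |t|) ^ (1 / 8 : ℝ) := by
  have h0 := abs_nonneg t
  have h1 := log_le_rpow_div (x := |t| + 3) (ε := 1 / 112) (by positivity) (by norm_num)
  have h2 := pow_le_pow_left₀ (by linarith [xFA_log t]) h1 14
  rw [div_pow, ← rpow_natCast (_ ^ _), ← rpow_mul (by positivity)] at h2
  rw [← pow_mul, mul_assoc, ← mul_rpow (by norm_num) (by positivity)]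
  have h3 : (|t| + 3) ^ (1 / 8 : ℝ) ≤ (3 * (1 + |t|)) ^ (1 / 8 : ℝ) :=
    rpow_le_rpow (by positivity) (by linarith) (by norm_num)
  norm_num at h2 h3 ⊢
  linarith

theorem stFA (hZC : StZC) (hZ2 : StZ2) : StFA := by
  have _ := hZ2
  obtain ⟨c, C, hc, h⟩ := xFA_H hZC
  have hb : 0 < 1 - (2 : ℝ) ^ (-(9 / 10) : ℝ) :=
    sub_pos.2 (rpow_lt_one_of_one_lt_of_neg one_lt_two (by norm_num))
  set b := 1 - (2 : ℝ) ^ (-(9 / 10) : ℝ) with hb'
  set B := ∑' n : ℕ, 12 * (n : ℝ) ^ (-(9 / 5) : ℝ) with hB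
  refine ⟨fun s => Complex.exp (Lam s) * ((s - 1) / riemannZeta₁ s / (1 - (2 : ℂ) ^ (-s))) ^ 2,
    c, exp B * ((C / b) ^ 2 * (112 ^ 14 * 3 ^ (1 / 8 : ℝ))), hc, fun s hs => ?_,
    fun σ t h1 h2 => ⟨fun s hs => ?_, fun s hs => ?_⟩⟩
  · have h1 : s ≠ 1 := by
      rintro rfl
      simp at hs
    simp only [xFA_inv h1, FF, div_eq_mul_inv, ← inv_pow, mul_inv, mul_comm]
  · obtain ⟨h3, h4, -⟩ := h σ t s h1 h2 (mem_ball_iff_norm.1 hs)
    have h5 := xFA_Lam.differentiableAt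
      ((isOpen_lt continuous_const Complex.continuous_re).mem_nhds h3)
    have h6 : DifferentiableAt ℂ (fun s : ℂ => (2 : ℂ) ^ (-s)) s := by
      simpa using xFA_cpow two_ne_zero s
    exact (h5.cexp.mul ((((differentiableAt_id.sub_const 1).div (differentiable_riemannZeta₁ s)
      h4).div (h6.const_sub 1) (norm_pos_iff.1 (hb.trans_le (xFA_two h3)))).pow
        2)).differentiableWithinAt
  · obtain ⟨h3, -, h4⟩ := h σ t s h1 h2 (mem_ball_iff_norm.1 hs)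
    have h5 : ‖Lam s‖ ≤ B := tsum_of_norm_bounded xFA_sum.hasSum fun n => xFA_ell n h3
    have h6 : ‖(s - 1) / riemannZeta₁ s / (1 - (2 : ℂ) ^ (-s))‖ ≤ C * log (|t| + 3) ^ 7 / b := by
      rw [norm_div]
      exact div_le_div₀ ((norm_nonneg _).trans h4) h4 hb (xFA_two h3)
    rw [norm_mul, norm_pow, mul_assoc, mul_assoc]
    refine mul_le_mul ((Complex.norm_exp_le_exp_norm _).trans (exp_le_exp.2 h5))
      ((pow_le_pow_left₀ (norm_nonneg _) h6 2).trans ?_) (by positivity) (exp_pos B).le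
    rw [mul_div_right_comm, mul_pow]
    exact mul_le_mul_of_nonneg_left (xFA_log14 t) (sq_nonneg _)

end Pool.Agent.MP_88bd62_nt.U
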