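import Pool.Agent.MP_88bd62_nt.U.Stmts

/-! The Dirichlet series of the odd part of `(-2)^Ω`. -/

namespace Pool.Agent.MP_88bd62_nt.U

open Complex
open ArithmeticFunction (cardFactors)

lemma xFo_term {s : ℂ} (hs : 1 < s.re) (n : ℕ) :
    LSeries.term (fun n => (fo n : ℂ)) s n
      = if Odd n then FH s (ne_zero_of_one_lt_re hs) n else 0 := by
  rcases eq_or_ne n 0 with rfl | hn
  · simp
  · rw [LSeries.term_of_ne_zero hn, div_eq_mul_inv, ← cpow_neg]
    by_cases h : Odd n
    · rw [if_pos h]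
      change _ = fc n * (n : ℂ) ^ (-s)
      simp only [fo, if_pos h, fc]
      push_cast
      ring
    · simp [fo, h]

lemma xFo_summable {s : ℂ} (hs : 1 < s.re) : LSeriesSummable (fun n => (fo n : ℂ)) s := by
  refine Summable.of_norm_bounded (summable_FH hs) fun n => ?_
  rw [xFo_term hs]
  split_ifs
  · exact le_rfl
  · simp

lemma xFo_two {s : ℂ} (hs : 1 < s.re) :
    FH s (ne_zero_of_one_lt_re hs) 2 = -2 * (2 : ℂ) ^ (-s) := by
  change fc 2 * ((2 : ℕ) : ℂ) ^ (-s) = _
  rw [fc, ArithmeticFunction.cardFactors_apply_prime Nat.prime_two]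
  simp

lemma xFo_eq {s : ℂ} (hs : 1 < s.re) :
    LSeries (fun n => (fo n : ℂ)) s = LSeries fc s * (1 + 2 * (2 : ℂ) ^ (-s)) := by
  have hF : Summable (fun n => FH s (ne_zero_of_one_lt_re hs) n) := (summable_FH hs).of_norm
  have hinj2 : Function.Injective (fun k : ℕ => 2 * k) := fun a b h => by
    simp only at h; omega
  have hinj1 : Function.Injective (fun k : ℕ => 2 * k + 1) := fun a b h => by
    simp only at h; omega
  have he : Summable (fun k : ℕ => FH s (ne_zero_of_one_lt_re hs) (2 * k)) :=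
    hF.comp_injective hinj2
  have ho : Summable (fun k : ℕ => FH s (ne_zero_of_one_lt_re hs) (2 * k + 1)) :=
    hF.comp_injective hinj1
  have h1 := tsum_even_add_odd he ho
  have h2 : ∑' k : ℕ, FH s (ne_zero_of_one_lt_re hs) (2 * k)
      = -2 * (2 : ℂ) ^ (-s) * ∑' k : ℕ, FH s (ne_zero_of_one_lt_re hs) k := by
    rw [← tsum_mul_left]
    refine tsum_congr fun k => ?_
    rw [map_mul, xFo_two hs]
  have hS := xFo_summable hs
  have he' : Summable (fun k : ℕ => LSeries.term (fun n => (fo n : ℂ)) s (2 * k)) :=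
    Summable.comp_injective hS hinj2
  have ho' : Summable (fun k : ℕ => LSeries.term (fun n => (fo n : ℂ)) s (2 * k + 1)) :=
    Summable.comp_injective hS hinj1
  have h3 := tsum_even_add_odd he' ho'
  have h4 : ∑' k : ℕ, LSeries.term (fun n => (fo n : ℂ)) s (2 * k) = 0 := by
    have : ∀ k : ℕ, LSeries.term (fun n => (fo n : ℂ)) s (2 * k) = 0 := fun k => by
      rw [xFo_term hs, if_neg (by simp)]
    simp [this]
  have h5 : ∑' k : ℕ, LSeries.term (fun n => (fo n : ℂ)) s (2 * k + 1)
      = ∑' k : ℕ, FH s (ne_zero_of_one_lt_re hs) (2 * k + 1) := by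
    refine tsum_congr fun k => ?_
    rw [xFo_term hs, if_pos (by simp)]
  rw [LSeries_fc hs, LSeries, ← h3, h4, h5]
  linear_combination h1 - h2

theorem stFo : StFo := by
  intro s hs
  refine ⟨xFo_summable hs, ?_⟩
  have hz := riemannZeta_ne_zero_of_one_lt_re hs
  have h2 : (1 - (2 : ℂ) ^ (-s)) ≠ 0 := by
    intro h
    have h3 : (2 : ℂ) ^ (-s) = 1 := by linear_combination -h
    have h4 := norm_two_cpow_lt hs
    rw [h3] at h4
    norm_num at h4
  rw [xFo_eq hs, FF, eq_div_iff (pow_ne_zero 2 (mul_ne_zero h2 hz)), ← euler_identity hs]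
  ring

end Pool.Agent.MP_88bd62_nt.U
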