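import Pool.Agent.MP_88bd62_nt.U.Stmts

/-! Short interval bound for the sum of `2 ^ Ω` over odd numbers. -/

namespace Pool.Agent.MP_88bd62_nt.U

open Finset Real Filter Topology
open ArithmeticFunction (cardFactors)

noncomputable section

theorem xSI_summable (f : ℕ →* ℝ) (h0 : f 0 = 0) (hf : ∀ n, 0 ≤ f n) {u : ℝ} (hu1 : u < 1)
    (hu : ∀ p : ℕ, p.Prime → f p ≤ u) {b : ℕ → ℝ} (hb : Summable b) (hb0 : ∀ n, 0 ≤ b n)
    (hfb : ∀ p : ℕ, p.Prime → f p ≤ b p) : Summable fun n => f n := by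
  refine summable_of_sum_range_le (c := Real.exp (1 / (1 - u) * ∑' n : ℕ, b n)) hf fun N => ?_
  have h1 := (EulerProduct.summable_and_hasSum_smoothNumbers_prod_primesBelow_geometric
    (f := f) (fun {p} h => by
      rw [Real.norm_of_nonneg (hf p)]; exact (hu p h).trans_lt hu1) N).2
  have h2 : HasSum ((N.smoothNumbers).indicator f) _ := hasSum_subtype_iff_indicator.mp h1
  have h3 := sum_le_hasSum (range N) (fun i _ => Set.indicator_nonneg (fun n _ => hf n) i) h2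
  have h4 : ∑ i ∈ range N, f i = ∑ i ∈ range N, (N.smoothNumbers).indicator f i := by
    refine sum_congr rfl fun i hi => ?_
    rcases Nat.eq_zero_or_pos i with rfl | hi0
    · have : (0 : ℕ) ∉ N.smoothNumbers := fun h => Nat.ne_zero_of_mem_smoothNumbers h rfl
      rw [Set.indicator_of_notMem this, h0]
    · rw [Set.indicator_of_mem (Nat.mem_smoothNumbers_of_lt hi0 (mem_range.mp hi))]
  rw [h4]
  refine h3.trans ?_
  have h7 : 0 < 1 - u := by linarith
  have h5 : ∏ p ∈ N.primesBelow, (1 - f p)⁻¹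
      ≤ ∏ p ∈ N.primesBelow, Real.exp (1 / (1 - u) * b p) := by
    refine prod_le_prod (fun p h => ?_) (fun p h => ?_)
    · have := hu p (Nat.prime_of_mem_primesBelow h)
      exact inv_nonneg.mpr (by linarith)
    · have a1 := hf p
      have a2 := hu p (Nat.prime_of_mem_primesBelow h)
      have a3 := hfb p (Nat.prime_of_mem_primesBelow h)
      refine le_trans ?_ (Real.add_one_le_exp _)
      have h6 : 0 < 1 - f p := by linarith
      have e : 1 / (1 - u) * b p = b p / (1 - u) := by ring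
      rw [e]
      have h8 : f p / (1 - f p) ≤ b p / (1 - u) := by gcongr; exact hb0 p
      have h9 : (1 - f p)⁻¹ = f p / (1 - f p) + 1 := by field_simp; ring
      linarith
  refine h5.trans ?_
  rw [← Real.exp_sum, ← mul_sum]
  gcongr
  exact hb.sum_le_tsum _ (fun i _ => hb0 i)

/-- The weight of the square part. -/
def xSI_w (a : ℕ) : ℝ := if Odd a then 4 ^ cardFactors a else 0

theorem xSI_w_nonneg (a : ℕ) : 0 ≤ xSI_w a := by
  unfold xSI_w; split_ifs <;> positivity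

/-- The weight divided by a power. -/
def xSI_G : ℕ →* ℝ where
  toFun a := xSI_w a * (a : ℝ) ^ (-(3 / 2 : ℝ))
  map_one' := by simp [xSI_w]
  map_mul' m n := by
    rcases eq_or_ne m 0 with rfl | hm
    · simp [xSI_w]
    rcases eq_or_ne n 0 with rfl | hn
    · simp [xSI_w]
    rw [Nat.cast_mul, Real.mul_rpow (Nat.cast_nonneg m) (Nat.cast_nonneg n)]
    simp only [xSI_w, Nat.odd_mul, ArithmeticFunction.cardFactors_mul hm hn, pow_add]
    by_cases h1 : Odd m <;> by_cases h2 : Odd n <;> simp [h1, h2]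
    ring

theorem xSI_G_apply (a : ℕ) : xSI_G a = xSI_w a * (a : ℝ) ^ (-(3 / 2 : ℝ)) := rfl

theorem xSI_G_nonneg (a : ℕ) : 0 ≤ xSI_G a :=
  mul_nonneg (xSI_w_nonneg a) (by positivity)

theorem xSI_G_summable : Summable fun n => xSI_G n := by
  have hu1 : 4 * (3 : ℝ) ^ (-(3 / 2 : ℝ)) < 1 := by
    have h1 : (4 : ℝ) < 3 ^ (3 / 2 : ℝ) := by
      rw [Real.lt_rpow_iff_log_lt (by norm_num) (by norm_num)]
      have h2 : Real.log 16 < Real.log 27 := Real.log_lt_log (by norm_num) (by norm_num)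
      have h3 : Real.log 16 = 2 * Real.log 4 := by
        rw [show (16 : ℝ) = 4 ^ 2 by norm_num, Real.log_pow]; norm_num
      have h4 : Real.log 27 = 3 * Real.log 3 := by
        rw [show (27 : ℝ) = 3 ^ 3 by norm_num, Real.log_pow]; norm_num
      linarith
    rw [Real.rpow_neg (by norm_num), ← div_eq_mul_inv, div_lt_one (by positivity)]
    exact h1
  have hle : ∀ p : ℕ, p.Prime → xSI_G p ≤ 4 * (p : ℝ) ^ (-(3 / 2 : ℝ)) := by
    intro p hp
    rw [xSI_G_apply]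
    gcongr
    unfold xSI_w
    rw [ArithmeticFunction.cardFactors_apply_prime hp]
    split_ifs <;> norm_num
  refine xSI_summable xSI_G (by simp [xSI_G_apply, xSI_w]) xSI_G_nonneg hu1 (fun p hp => ?_)
    (b := fun n => 4 * (n : ℝ) ^ (-(3 / 2 : ℝ)))
    ((Real.summable_nat_rpow.mpr (by norm_num)).mul_left 4) (fun n => by positivity) hle
  rcases hp.eq_two_or_odd' with rfl | ho
  · rw [xSI_G_apply]
    have : xSI_w 2 = 0 := by simp [xSI_w]
    rw [this, zero_mul]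
    positivity
  · refine (hle p hp).trans ?_
    have h3 : 3 ≤ p := by
      have := hp.two_le
      rcases ho with ⟨k, rfl⟩
      omega
    have : (p : ℝ) ^ (-(3 / 2 : ℝ)) ≤ (3 : ℝ) ^ (-(3 / 2 : ℝ)) :=
      Real.rpow_le_rpow_of_nonpos (by norm_num) (by exact_mod_cast h3) (by norm_num)
    linarith

theorem xSI_sqf {b : ℕ} (hb : Squarefree b) : 2 ^ cardFactors b ≤ b.divisors.card := by
  have h0 : b ≠ 0 := hb.ne_zero
  have h1 : cardFactors b = b.primeFactors.card := by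
    rw [ArithmeticFunction.cardFactors_apply, ← Nat.toFinset_factors,
      List.toFinset_card_of_nodup ((Nat.squarefree_iff_nodup_primeFactorsList h0).1 hb)]
  rw [Nat.card_divisors h0, h1, ← prod_const]
  refine prod_le_prod' fun p hp => ?_
  have := (Nat.prime_of_mem_primeFactors hp).factorization_pos_of_dvd h0
    (Nat.dvd_of_mem_primeFactors hp)
  omega

theorem xSI_div (b : ℕ) :
    b.divisors.card ≤ 2 * (b.divisors.filter fun c => c ^ 2 ≤ b).card := by
  have h1 := card_filter_add_card_filter_not (s := b.divisors) (fun c => c ^ 2 ≤ b)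
  have h2 : (b.divisors.filter fun c => ¬ c ^ 2 ≤ b).card
      ≤ (b.divisors.filter fun c => c ^ 2 ≤ b).card := by
    refine card_le_card_of_injOn (fun c => b / c) (fun c hc => ?_) (fun c hc c' hc' h => ?_)
    · simp only [coe_filter, Nat.mem_divisors, Set.mem_ofPred_eq, not_le] at hc ⊢
      obtain ⟨⟨⟨k, rfl⟩, h0⟩, h3⟩ := hc
      have hc0 : 0 < c := Nat.pos_of_ne_zero (by rintro rfl; simp at h0)
      rw [Nat.mul_div_cancel_left _ hc0]
      refine ⟨⟨Dvd.intro_left c rfl, h0⟩, ?_⟩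
      have : k < c := by
        by_contra h4
        have : c * c ≤ c * k := Nat.mul_le_mul_left c (not_lt.1 h4)
        nlinarith
      nlinarith
    · simp only [coe_filter, Nat.mem_divisors, Set.mem_ofPred_eq, not_le] at hc hc'
      have e1 := Nat.div_div_self hc.1.1 hc.1.2
      have e2 := Nat.div_div_self hc'.1.1 hc'.1.2
      simp only at h
      rw [← e1, h, e2]
  omega

theorem xSI_pt {n B : ℕ} (hn : 0 < n) (hB : n ≤ B) :
    |fo n| ≤ ∑ a ∈ Icc 1 B, ∑ c ∈ Icc 1 B,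
      if (a * c) ^ 2 ≤ B ∧ a ^ 2 * c ∣ n then 2 * xSI_w a else 0 := by
  have hnn : ∀ a : ℕ, 0 ≤ ∑ c ∈ Icc 1 B,
      if (a * c) ^ 2 ≤ B ∧ a ^ 2 * c ∣ n then 2 * xSI_w a else 0 := fun a =>
    sum_nonneg fun c _ => by
      have := xSI_w_nonneg a
      split_ifs <;> linarith
  by_cases ho : Odd n
  swap
  · simp only [fo, ho, if_false, abs_zero]
    exact sum_nonneg fun a _ => hnn a
  obtain ⟨b, a, rfl, hb⟩ := Nat.sq_mul_squarefree n
  have ha0 : a ≠ 0 := by rintro rfl; simp at hn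
  have hb0 : b ≠ 0 := hb.ne_zero
  have hoa : Odd a := by
    have := (Nat.odd_mul.1 ho).1
    rw [sq] at this
    exact (Nat.odd_mul.1 this).1
  have haB : a ∈ Icc 1 B := by
    rw [mem_Icc]
    refine ⟨Nat.pos_of_ne_zero ha0, le_trans ?_ hB⟩
    exact Nat.le_of_dvd hn (Dvd.dvd.mul_right (dvd_pow_self a two_ne_zero) b)
  refine le_trans ?_ (single_le_sum (fun a _ => hnn a) haB)
  rw [← sum_filter, sum_const, nsmul_eq_mul]
  have h1 : (b.divisors.filter fun c => c ^ 2 ≤ b) ⊆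
      (Icc 1 B).filter fun c => (a * c) ^ 2 ≤ B ∧ a ^ 2 * c ∣ a ^ 2 * b := by
    intro c hc
    rw [mem_filter, Nat.mem_divisors] at hc
    rw [mem_filter, mem_Icc]
    have h2 : c ≤ b := Nat.le_of_dvd (Nat.pos_of_ne_zero hb0) hc.1.1
    have h3 : b ≤ a ^ 2 * b := Nat.le_mul_of_pos_left b (by positivity)
    refine ⟨⟨Nat.pos_of_dvd_of_pos hc.1.1 (Nat.pos_of_ne_zero hb0), by omega⟩, ?_,
      Nat.mul_dvd_mul_left _ hc.1.1⟩
    rw [mul_pow]
    exact (Nat.mul_le_mul_left _ hc.2).trans hB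
  have h2 : 2 ^ cardFactors b ≤ 2 * ((Icc 1 B).filter
      fun c => (a * c) ^ 2 ≤ B ∧ a ^ 2 * c ∣ a ^ 2 * b).card :=
    ((xSI_sqf hb).trans (xSI_div b)).trans (Nat.mul_le_mul_left 2 (card_le_card h1))
  have h3 : (2 : ℝ) ^ cardFactors b ≤ 2 * (((Icc 1 B).filter
      fun c => (a * c) ^ 2 ≤ B ∧ a ^ 2 * c ∣ a ^ 2 * b).card : ℝ) := by exact_mod_cast h2
  have h4 : |fo (a ^ 2 * b)| = 4 ^ cardFactors a * 2 ^ cardFactors b := by
    simp only [fo, ho, if_true, abs_pow, abs_neg, abs_two]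
    rw [ArithmeticFunction.cardFactors_mul (pow_ne_zero 2 ha0) hb0, sq,
      ArithmeticFunction.cardFactors_mul ha0 ha0, pow_add, pow_add, ← mul_pow]
    norm_num
  have h5 : xSI_w a = 4 ^ cardFactors a := by simp [xSI_w, hoa]
  rw [h4, h5]
  have h6 : (0 : ℝ) ≤ 4 ^ cardFactors a := by positivity
  nlinarith [mul_le_mul_of_nonneg_left h3 h6]

theorem xSI_cnt {A B m : ℕ} (hAB : A ≤ B) (hm : 0 < m) :
    (((Ioc A B).filter fun n => m ∣ n).card : ℝ) ≤ ((B : ℝ) - A) / m + 1 := by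
  have h1 := Nat.Ioc_filter_dvd_card_eq_div B m
  have h2 := Nat.Ioc_filter_dvd_card_eq_div A m
  have h3 : (Ioc 0 B).filter (fun n => m ∣ n)
      = (Ioc 0 A).filter (fun n => m ∣ n) ∪ (Ioc A B).filter (fun n => m ∣ n) := by
    rw [← filter_union, Ioc_union_Ioc_eq_Ioc (Nat.zero_le A) hAB]
  have h4 : Disjoint ((Ioc 0 A).filter (fun n => m ∣ n)) ((Ioc A B).filter (fun n => m ∣ n)) := by
    rw [disjoint_left]
    intro x hx hy
    rw [mem_filter, mem_Ioc] at hx hy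
    omega
  rw [h3, card_union_of_disjoint h4, h2] at h1
  have h5 : ((A / m : ℕ) : ℝ) + (((Ioc A B).filter fun n => m ∣ n).card : ℝ) = (B / m : ℕ) := by
    exact_mod_cast h1
  have h6 : ((B / m : ℕ) : ℝ) ≤ (B : ℝ) / m := Nat.cast_div_le
  have h7 : (A : ℝ) / m < (A / m : ℕ) + 1 := by
    have hm' : (0 : ℝ) < m := by exact_mod_cast hm
    rw [div_lt_iff₀ hm']
    have := Nat.lt_div_mul_add (a := A) hm
    have h8 : (A : ℝ) < (A / m : ℕ) * m + m := by exact_mod_cast this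
    linarith
  rw [sub_div]
  linarith

theorem xSI_term {y h : ℝ} (hy : 2 ≤ y) (hh : y ^ (0.8 : ℝ) ≤ h) {a c : ℕ} (ha : 1 ≤ a)
    (hc : 1 ≤ c) (hac : ((a * c : ℕ) : ℝ) ^ 2 ≤ y) :
    (h + 1) / ((a ^ 2 * c : ℕ) : ℝ) + 1 ≤ 3 * h * ((a : ℝ) ^ (-(3 / 2 : ℝ)) * (c : ℝ)⁻¹) := by
  have ha' : (1 : ℝ) ≤ a := by exact_mod_cast ha
  have hc' : (1 : ℝ) ≤ c := by exact_mod_cast hc
  have h1 : 1 ≤ h := le_trans (Real.one_le_rpow (by linarith) (by norm_num)) hh
  set t : ℝ := (a : ℝ) ^ (3 / 2 : ℝ) with ht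
  have ht0 : 0 < t := by positivity
  have h2 : t ≤ (a : ℝ) ^ 2 := by
    rw [← Real.rpow_natCast]
    exact Real.rpow_le_rpow_of_exponent_le ha' (by norm_num)
  have h3 : t * c ≤ h := by
    have e1 : (c : ℝ) ≤ (c : ℝ) ^ (3 / 2 : ℝ) := by
      conv_lhs => rw [← Real.rpow_one c]
      exact Real.rpow_le_rpow_of_exponent_le hc' (by norm_num)
    have e2 : t * (c : ℝ) ^ (3 / 2 : ℝ) = (((a * c : ℕ) : ℝ) ^ 2) ^ (3 / 4 : ℝ) := by
      rw [← Real.rpow_natCast, ← Real.rpow_mul (by positivity), Nat.cast_mul,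
        Real.mul_rpow (by positivity) (by positivity)]
      norm_num [ht]
    have e3 : (((a * c : ℕ) : ℝ) ^ 2) ^ (3 / 4 : ℝ) ≤ y ^ (3 / 4 : ℝ) :=
      Real.rpow_le_rpow (by positivity) hac (by norm_num)
    have e4 : y ^ (3 / 4 : ℝ) ≤ y ^ (0.8 : ℝ) :=
      Real.rpow_le_rpow_of_exponent_le (by linarith) (by norm_num)
    calc t * c ≤ t * (c : ℝ) ^ (3 / 2 : ℝ) := by gcongr
      _ ≤ h := by rw [e2]; linarith
  rw [Real.rpow_neg (by positivity), ← ht, ← mul_inv, ← div_eq_mul_inv]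
  have h4 : (h + 1) / ((a ^ 2 * c : ℕ) : ℝ) ≤ 2 * h / (t * c) := by
    push_cast
    gcongr
    linarith
  have h5 : 1 ≤ h / (t * c) := by
    rw [one_le_div (by positivity)]; exact h3
  have h6 : 3 * h / (t * c) = 2 * h / (t * c) + h / (t * c) := by ring
  linarith

theorem stSI : StSI := by
  refine ⟨18 * ∑' a : ℕ, xSI_G a, fun y h hy hh hhy => ?_⟩
  set A := ⌊y - h⌋₊ with hA
  set B := ⌊y⌋₊ with hB
  have h1 : 1 ≤ h := le_trans (Real.one_le_rpow (by linarith) (by norm_num)) hh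
  have hAB : A ≤ B := Nat.floor_le_floor (by linarith)
  have hBy : (B : ℝ) ≤ y := Nat.floor_le (by linarith)
  have hAy : y - h < A + 1 := Nat.lt_floor_add_one _
  have hB1 : (1 : ℝ) ≤ B := by
    have : 1 ≤ B := Nat.le_floor (by push_cast; linarith)
    exact_mod_cast this
  have s1 : ∑ n ∈ Ioc A B, |fo n| ≤ ∑ n ∈ Ioc A B, ∑ a ∈ Icc 1 B, ∑ c ∈ Icc 1 B,
      if (a * c) ^ 2 ≤ B ∧ a ^ 2 * c ∣ n then 2 * xSI_w a else 0 :=
    sum_le_sum fun n hn => xSI_pt (by rw [mem_Ioc] at hn; omega) (mem_Ioc.1 hn).2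
  refine s1.trans ?_
  rw [sum_comm]
  have s2 : ∀ a ∈ Icc 1 B, (∑ n ∈ Ioc A B, ∑ c ∈ Icc 1 B,
      if (a * c) ^ 2 ≤ B ∧ a ^ 2 * c ∣ n then 2 * xSI_w a else 0)
      ≤ 6 * h * xSI_G a * ∑ c ∈ Icc 1 B, (c : ℝ)⁻¹ := by
    intro a ha
    rw [sum_comm, mul_sum]
    refine sum_le_sum fun c hc => ?_
    have ha1 := (mem_Icc.1 ha).1
    have hc1 := (mem_Icc.1 hc).1
    have hw := xSI_w_nonneg a
    by_cases hac : (a * c) ^ 2 ≤ B
    · simp only [hac, true_and]
      rw [← sum_filter, sum_const, nsmul_eq_mul]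
      have e1 := xSI_cnt hAB (m := a ^ 2 * c) (by positivity)
      have e2 := xSI_term hy hh ha1 hc1 (le_trans (by exact_mod_cast hac) hBy)
      have e3 : ((B : ℝ) - A) / ((a ^ 2 * c : ℕ) : ℝ) ≤ (h + 1) / ((a ^ 2 * c : ℕ) : ℝ) := by
        gcongr
        linarith
      have e4 := mul_le_mul_of_nonneg_right (e1.trans ((add_le_add_left e3 1).trans e2))
        (mul_nonneg zero_le_two hw)
      refine e4.trans (le_of_eq ?_)
      rw [xSI_G_apply]
      ring
    · simp only [hac, false_and, if_false, sum_const_zero]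
      have := xSI_G_nonneg a
      positivity
  refine (sum_le_sum s2).trans ?_
  have s3 : ∑ c ∈ Icc 1 B, (c : ℝ)⁻¹ ≤ 3 * log y := by
    have e1 := harmonic_le_one_add_log B
    rw [harmonic_eq_sum_Icc] at e1
    push_cast at e1
    have e2 : log B ≤ log y := Real.log_le_log (by linarith) hBy
    have e3 : log 2 ≤ log y := Real.log_le_log (by norm_num) hy
    have e4 := Real.log_two_gt_d9
    linarith
  have s4 : ∑ a ∈ Icc 1 B, xSI_G a ≤ ∑' a : ℕ, xSI_G a :=
    xSI_G_summable.sum_le_tsum _ fun i _ => xSI_G_nonneg i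
  rw [← sum_mul, ← mul_sum]
  have s5 : 0 ≤ ∑ a ∈ Icc 1 B, xSI_G a := sum_nonneg fun i _ => xSI_G_nonneg i
  have s6 : 0 ≤ ∑ c ∈ Icc 1 B, (c : ℝ)⁻¹ := sum_nonneg fun i _ => by positivity
  calc 6 * h * (∑ a ∈ Icc 1 B, xSI_G a) * ∑ c ∈ Icc 1 B, (c : ℝ)⁻¹
      ≤ 6 * h * (∑' a : ℕ, xSI_G a) * (3 * log y) := by
        have s7 : 0 ≤ ∑' a : ℕ, xSI_G a := s5.trans s4
        gcongr
    _ = 18 * (∑' a : ℕ, xSI_G a) * h * log y := by ring

end

end Pool.Agent.MP_88bd62_nt.U
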