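import Pool.Agent.MP_88bd62_nt.U.Smootha

namespace Pool.Agent.MP_88bd62_nt.U

open Real MeasureTheory Filter Topology Set

noncomputable section

theorem xSmooth_cpow {x : ℝ} (hx : 0 < x) (w : ℂ) : (x : ℂ) ^ w = Complex.exp (log x * w) := by
  rw [Complex.cpow_def_of_ne_zero (by exact_mod_cast hx.ne'), Complex.ofReal_log hx.le]

theorem xSmooth_sum (hFo : StFo) {κ σ y : ℝ} (hκ : 0 < κ) (hσ : 1 < σ) (hy : 0 < y) :
    ((2 * π * ∑ n ∈ Finset.Icc 1 ⌊y⌋₊, fo n * (1 - (n / y) ^ κ) : ℝ) : ℂ) =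
      ∫ t : ℝ, FF (σ + t * Complex.I) * ((y : ℂ) ^ (σ + t * Complex.I) *
        xSmooth_Ps κ (σ + t * Complex.I)) := by
  let F : ℕ → ℝ → ℂ := fun n t => LSeries.term (fun n => (fo n : ℂ)) (σ + t * Complex.I) n *
    ((y : ℂ) ^ (σ + t * Complex.I) * xSmooth_Ps κ (σ + t * Complex.I))
  have hre : ∀ t : ℝ, (σ + t * Complex.I : ℂ).re = σ := fun t => by simp
  have e0 : F 0 = fun _ => 0 := by
    funext t
    simp [F]
  have e1 : ∀ n : ℕ, n ≠ 0 → F n = fun t : ℝ => (fo n : ℂ) *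
      (((n / y : ℝ) : ℂ) ^ (-(σ + t * Complex.I)) * xSmooth_Ps κ (σ + t * Complex.I)) := by
    intro n hn
    have hn' : (0 : ℝ) < n := by positivity
    funext t
    simp only [F]
    rw [LSeries.term_of_ne_zero hn, ← Complex.ofReal_natCast, xSmooth_cpow hn', xSmooth_cpow hy,
      xSmooth_cpow (div_pos hn' hy), log_div hn'.ne' hy.ne', div_eq_mul_inv, ← Complex.exp_neg,
      mul_assoc, ← mul_assoc (Complex.exp _), ← Complex.exp_add]
    congr 3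
    push_cast
    ring
  have e2 : ∀ n t, ‖F n t‖ = ‖LSeries.term (fun n => (fo n : ℂ)) σ n‖ * y ^ σ *
      ‖xSmooth_Ps κ (σ + t * Complex.I)‖ := fun n t => by
    simp only [F]
    rw [norm_mul, norm_mul, Complex.norm_cpow_eq_rpow_re_of_pos hy, LSeries.norm_term_eq,
      LSeries.norm_term_eq, hre, Complex.ofReal_re, mul_assoc]
  have hP := xSmooth_Ps_int hκ hσ.le
  have hi : ∀ n, Integrable (F n) := fun n => by
    refine (hP.norm.const_mul (‖LSeries.term (fun n => (fo n : ℂ)) σ n‖ * y ^ σ)).mono' ?_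
      (Eventually.of_forall fun t => (e2 n t).le)
    rcases eq_or_ne n 0 with rfl | hn
    · rw [e0]
      exact aestronglyMeasurable_const
    · rw [e1 n hn]
      refine (AEStronglyMeasurable.mul (Continuous.aestronglyMeasurable ?_) hP.1).const_mul _
      simp only [xSmooth_cpow (show (0 : ℝ) < n / y by positivity)]
      fun_prop
  have hs : Summable fun n => ∫ t, ‖F n t‖ := by
    simp only [e2, integral_const_mul]
    exact (((hFo σ (by simpa using hσ)).1.norm).mul_right _).mul_right _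
  have h1 := hasSum_integral_of_summable_integral_norm hi hs
  have h2 : ∀ t : ℝ, ∑' n, F n t = FF (σ + t * Complex.I) * ((y : ℂ) ^ (σ + t * Complex.I) *
      xSmooth_Ps κ (σ + t * Complex.I)) := fun t => by
    simp only [F]
    rw [tsum_mul_right, ← (hFo _ (by rwa [hre])).2, LSeries]
  simp only [h2] at h1
  have h3 : ∀ n : ℕ, n ≠ 0 → ∫ t, F n t =
      ((fo n * (2 * π * (1 - (min (n / y) 1) ^ κ)) : ℝ) : ℂ) := fun n hn => by
    rw [e1 n hn, integral_const_mul, xSmooth_inv hκ hσ.le (by positivity), ← Complex.ofReal_mul]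
  have h4 := hasSum_sum_of_ne_finset_zero (f := fun n => ∫ t, F n t) (s := Finset.Icc 1 ⌊y⌋₊)
    (L := SummationFilter.unconditional ℕ) fun n hn => by
      rcases eq_or_ne n 0 with rfl | h0
      · simp [e0]
      · have : y < n := Nat.lt_of_floor_lt (by
          simp only [Finset.mem_Icc, not_and, not_le] at hn
          exact hn (Nat.one_le_iff_ne_zero.2 h0))
        rw [h3 n h0, min_eq_right ((one_le_div hy).2 this.le)]
        simp
  rw [h1.unique h4, Finset.mul_sum, Complex.ofReal_sum]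
  refine Finset.sum_congr rfl fun n hn => ?_
  obtain ⟨a, b⟩ := Finset.mem_Icc.1 hn
  rw [h3 n (by omega), min_eq_left ((div_le_one hy).2 ((Nat.le_floor_iff hy.le).1 b))]
  congr 1
  ring

theorem xSmooth_log3 {x : ℝ} (hx : 3 ≤ x) : 1 ≤ log x := by
  rw [le_log_iff_exp_le (by linarith)]
  linarith [exp_one_lt_d9]

theorem xSmooth_log {u : ℝ} (hu : 0 ≤ u) :
    log (u + 3) ^ 18 ≤ 288 ^ 18 * 3 * (1 + u) ^ (1 / 16 : ℝ) := by
  have h1 := log_le_rpow_div (x := u + 3) (ε := 1 / 288) (by linarith) (by norm_num)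
  have h2 : 0 ≤ log (u + 3) := log_nonneg (by linarith)
  have h3 : ((u + 3) ^ (1 / 288 : ℝ)) ^ 18 = (u + 3) ^ (1 / 16 : ℝ) := by
    rw [← rpow_natCast, ← rpow_mul (by linarith)]
    norm_num
  have h4 : (u + 3) ^ (1 / 16 : ℝ) ≤ 3 * (1 + u) ^ (1 / 16 : ℝ) := by
    calc (u + 3) ^ (1 / 16 : ℝ) ≤ (3 * (1 + u)) ^ (1 / 16 : ℝ) := by gcongr; linarith
      _ = 3 ^ (1 / 16 : ℝ) * (1 + u) ^ (1 / 16 : ℝ) := mul_rpow (by norm_num) (by linarith)
      _ ≤ 3 ^ (1 : ℝ) * (1 + u) ^ (1 / 16 : ℝ) := by gcongr <;> norm_num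
      _ = _ := by rw [rpow_one]
  calc log (u + 3) ^ 18 ≤ ((u + 3) ^ (1 / 288 : ℝ) / (1 / 288)) ^ 18 := by gcongr
    _ = 288 ^ 18 * (u + 3) ^ (1 / 16 : ℝ) := by
      rw [one_div (288 : ℝ), div_inv_eq_mul, mul_pow, ← one_div, h3, mul_comm]
    _ ≤ 288 ^ 18 * (3 * (1 + u) ^ (1 / 16 : ℝ)) := by gcongr
    _ = _ := by ring

theorem xSmooth_bd (hFA : StFA) : ∃ (G : ℂ → ℂ) (C : ℝ), 0 ≤ C ∧ (∀ s : ℂ, 1 < s.re → G s = FF s) ∧
    ∀ κ σ t : ℝ, 0 < κ → 1 ≤ σ → σ ≤ 2 →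
      AnalyticAt ℂ (fun s => G s * xSmooth_Ps κ s) (σ + t * Complex.I) ∧
      ∀ j ≤ 2, ‖iteratedDeriv j (fun s => G s * xSmooth_Ps κ s) (σ + t * Complex.I)‖ ≤
        C * κ ^ (1 / 4 : ℝ) * (1 + ‖t‖) ^ (-(17 / 16) : ℝ) := by
  obtain ⟨G, c, C, hc, hG, H⟩ := hFA
  obtain ⟨d, hd0, hd1, hd2⟩ : ∃ d : ℝ, 0 < d ∧ d < c ∧ d ≤ 1 / 8 :=
    ⟨min (c / 2) (1 / 8), by positivity, (min_le_left _ _).trans_lt (by linarith), min_le_right _ _⟩
  refine ⟨G, 2 * (|C| * 4 ^ (5 / 4 : ℝ)) * (288 ^ 18 * 3) / d ^ 2, by positivity, hG,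
    fun κ σ t hκ h1 h2 => ?_⟩
  obtain ⟨H1, H2⟩ := H σ t h1 h2
  have hl : 1 ≤ log (|t| + 3) ^ 9 := one_le_pow₀ (xSmooth_log3 (by linarith [abs_nonneg t]))
  set ρ := d / log (|t| + 3) ^ 9 with hρ
  have r0 : 0 < ρ := by positivity
  have r1 : ρ ≤ 1 / 8 := (div_le_self hd0.le hl).trans hd2
  have r2 : Metric.closedBall ((σ : ℂ) + t * Complex.I) ρ ⊆
      Metric.ball ((σ : ℂ) + t * Complex.I) (c / log (|t| + 3) ^ 9) :=
    Metric.closedBall_subset_ball (by rw [hρ]; gcongr)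
  have r3 : ∀ s ∈ Metric.closedBall ((σ : ℂ) + t * Complex.I) ρ,
      0 < s.re ∧ (1 + ‖t‖) / 4 ≤ ‖s‖ := fun s hs => by
    rw [mem_closedBall_iff_norm] at hs
    have a0 := (abs_le.1 ((Complex.abs_re_le_norm _).trans hs)).1
    have a1 : σ ≤ ‖(σ + t * Complex.I : ℂ)‖ := by simpa using Complex.re_le_norm (σ + t * Complex.I)
    have a2 : ‖t‖ ≤ ‖(σ + t * Complex.I : ℂ)‖ := by
      simpa using Complex.abs_im_le_norm (σ + t * Complex.I)
    have a3 := norm_sub_norm_le (σ + t * Complex.I : ℂ) s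
    rw [norm_sub_rev] at a3
    simp only [Complex.sub_re, Complex.add_re, Complex.ofReal_re, Complex.mul_re, Complex.I_re,
      Complex.ofReal_im, Complex.I_im] at a0
    constructor <;> linarith [norm_nonneg t]
  have hD : DifferentiableOn ℂ (fun s => G s * xSmooth_Ps κ s)
      (Metric.closedBall ((σ : ℂ) + t * Complex.I) ρ) :=
    (H1.mono r2).mul fun s hs => (xSmooth_Ps_an hκ (r3 s hs).1).differentiableWithinAt
  refine ⟨hD.analyticAt (Metric.closedBall_mem_nhds _ r0), fun j hj => ?_⟩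
  have ht : 0 < 1 + ‖t‖ := by positivity
  have hM : ∀ s ∈ Metric.sphere ((σ : ℂ) + t * Complex.I) ρ, ‖G s * xSmooth_Ps κ s‖ ≤
      |C| * 4 ^ (5 / 4 : ℝ) * κ ^ (1 / 4 : ℝ) * (1 + ‖t‖) ^ (-(9 / 8) : ℝ) := fun s hs => by
    have hs' := Metric.sphere_subset_closedBall hs
    have a1 : ‖G s‖ ≤ |C| * (1 + ‖t‖) ^ (1 / 8 : ℝ) :=
      (H2 s (r2 hs')).trans (mul_le_mul_of_nonneg_right (le_abs_self C) (by positivity))
    have a2 := xSmooth_Ps_le hκ (r3 s hs').1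
    have a3 : ‖s‖ ^ (-(5 / 4) : ℝ) ≤ ((1 + ‖t‖) / 4) ^ (-(5 / 4) : ℝ) :=
      rpow_le_rpow_of_nonpos (by positivity) (r3 s hs').2 (by norm_num)
    rw [div_rpow (by positivity) (by norm_num), rpow_neg (x := 4) (by norm_num),
      div_inv_eq_mul] at a3
    have a4 : (1 + ‖t‖) ^ (-(9 / 8) : ℝ) = (1 + ‖t‖) ^ (1 / 8 : ℝ) * (1 + ‖t‖) ^ (-(5 / 4) : ℝ) := by
      rw [← rpow_add ht]
      norm_num
    rw [norm_mul, a4]
    calc _ ≤ |C| * (1 + ‖t‖) ^ (1 / 8 : ℝ) *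
          (κ ^ (1 / 4 : ℝ) * ((1 + ‖t‖) ^ (-(5 / 4) : ℝ) * 4 ^ (5 / 4 : ℝ))) := by
          refine mul_le_mul a1 (a2.trans ?_) (norm_nonneg _) (by positivity)
          gcongr
      _ = _ := by ring
  have hC := Complex.norm_iteratedDeriv_le_of_forall_mem_sphere_norm_le j r0
    (hD.mono (closure_ball _ r0.ne').subset).diffContOnCl hM
  have b1 : (j.factorial : ℝ) ≤ 2 := by exact_mod_cast Nat.factorial_le hj
  have b2 : ρ ^ 2 ≤ ρ ^ j := pow_le_pow_of_le_one r0.le (by linarith) hj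
  have b3 := xSmooth_log (abs_nonneg t)
  have b4 : (1 + ‖t‖) ^ (-(17 / 16) : ℝ) =
      (1 + ‖t‖) ^ (-(9 / 8) : ℝ) * (1 + |t|) ^ (1 / 16 : ℝ) := by
    rw [← Real.norm_eq_abs, ← rpow_add ht]
    norm_num
  refine hC.trans ?_
  calc _ ≤ 2 * (|C| * 4 ^ (5 / 4 : ℝ) * κ ^ (1 / 4 : ℝ) * (1 + ‖t‖) ^ (-(9 / 8) : ℝ)) / ρ ^ 2 := by
        gcongr
    _ = 2 * (|C| * 4 ^ (5 / 4 : ℝ) * κ ^ (1 / 4 : ℝ) * (1 + ‖t‖) ^ (-(9 / 8) : ℝ)) / d ^ 2 *
        log (|t| + 3) ^ 18 := by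
        rw [hρ, div_pow, ← pow_mul, div_div_eq_mul_div, div_mul_eq_mul_div]
    _ ≤ 2 * (|C| * 4 ^ (5 / 4 : ℝ) * κ ^ (1 / 4 : ℝ) * (1 + ‖t‖) ^ (-(9 / 8) : ℝ)) / d ^ 2 *
        (288 ^ 18 * 3 * (1 + |t|) ^ (1 / 16 : ℝ)) := by gcongr
    _ = _ := by
        rw [b4]
        ring

theorem stSmooth (hFA : StFA) (hFo : StFo) : StSmooth := by
  obtain ⟨G, C, hC, hG, H⟩ := xSmooth_bd hFA
  refine ⟨exp 1 * (C * ∫ t : ℝ, (1 + ‖t‖) ^ (-(17 / 16) : ℝ)), fun y η hy h0 h1 => ?_⟩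
  have hy0 : 0 < y := by linarith
  have hl := xSmooth_log3 hy
  have hκ : 0 < 1 / η - 1 := by
    rw [sub_pos, lt_div_iff₀ h0]
    linarith
  have hσ : 1 < 1 + 1 / log y := by
    rw [lt_add_iff_pos_right]
    positivity
  have hσ2 : 1 + 1 / log y ≤ 2 := by
    have : 1 / log y ≤ 1 := (div_le_one (by linarith)).2 hl
    linarith
  have hyσ : y ^ (1 + 1 / log y) = exp 1 * y := by
    rw [rpow_add hy0, rpow_one, rpow_def_of_pos hy0, mul_one_div_cancel (by linarith), mul_comm]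
  have hκη : (1 / η - 1) ^ (1 / 4 : ℝ) ≤ η ^ (-(1 / 4) : ℝ) := by
    rw [rpow_neg h0.le, ← inv_rpow h0.le, ← one_div η]
    gcongr
    linarith
  generalize 1 / η - 1 = κ at hκ hκη ⊢
  generalize 1 + 1 / log y = σ at hσ hσ2 hyσ
  have h2 := xSmooth_sum hFo hκ hσ hy0
  have h3 := xSmooth_ibp (fun t => (H κ σ t hκ hσ.le hσ2).1)
    ((integrable_one_add_norm (by norm_num)).const_mul _)
    (fun j hj t => (H κ σ t hκ hσ.le hσ2).2 j hj) (l := log y) (by linarith)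
  have h4 : ∀ t : ℝ, FF (σ + t * Complex.I) * ((y : ℂ) ^ (σ + t * Complex.I) *
      xSmooth_Ps κ (σ + t * Complex.I)) = ((exp 1 * y : ℝ) : ℂ) * (G (σ + t * Complex.I) *
      xSmooth_Ps κ (σ + t * Complex.I) * Complex.exp (log y * t * Complex.I)) := fun t => by
    rw [hG _ (by simpa using hσ), Complex.cpow_add _ _ (by exact_mod_cast hy0.ne'),
      ← Complex.ofReal_cpow hy0.le, hyσ, xSmooth_cpow hy0, ← mul_assoc (log y : ℂ)]
    ring
  simp only [h4] at h2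
  have h5 := congrArg norm h2
  rw [integral_const_mul, norm_mul, Complex.norm_real, Complex.norm_real, Real.norm_eq_abs,
    Real.norm_eq_abs, abs_mul, abs_of_pos (by positivity : 0 < 2 * π),
    abs_of_pos (by positivity : 0 < exp 1 * y)] at h5
  rw [integral_const_mul] at h3
  have hI : 0 ≤ ∫ t : ℝ, (1 + ‖t‖) ^ (-(17 / 16) : ℝ) := integral_nonneg fun t => by positivity
  calc _ ≤ 2 * π * |∑ n ∈ Finset.Icc 1 ⌊y⌋₊, fo n * (1 - (n / y) ^ κ)| :=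
        le_mul_of_one_le_left (abs_nonneg _) (by linarith [pi_gt_three])
    _ ≤ exp 1 * y * (C * κ ^ (1 / 4 : ℝ) * (∫ t : ℝ, (1 + ‖t‖) ^ (-(17 / 16) : ℝ)) / log y ^ 2) := by
        rw [h5]
        gcongr
    _ ≤ exp 1 * y *
        (C * η ^ (-(1 / 4) : ℝ) * (∫ t : ℝ, (1 + ‖t‖) ^ (-(17 / 16) : ℝ)) / log y ^ 2) := by
        gcongr
    _ = _ := by ring

end

end Pool.Agent.MP_88bd62_nt.U
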