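import Pool.Agent.MP_88bd62_nt.U.Stmts

namespace Pool.Agent.MP_88bd62_nt.U

open Finset Real Filter Topology

theorem xTB_si (hSI : StSI) : ∃ C : ℝ, 0 ≤ C ∧ ∀ y h : ℝ, 2 ≤ y → y ^ (0.8 : ℝ) ≤ h → h ≤ y →
    ∑ n ∈ Ioc ⌊y - h⌋₊ ⌊y⌋₊, |fo n| ≤ C * h * log y := by
  obtain ⟨C, hC⟩ := hSI
  refine ⟨max C 0, le_max_right _ _, fun y h h1 h2 h3 => (hC y h h1 h2 h3).trans ?_⟩
  have a1 : 0 ≤ h := (rpow_nonneg (by linarith) _).trans h2
  have a2 : 0 ≤ log y := log_nonneg (by linarith)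
  gcongr
  exact le_max_left _ _

theorem xTB_self {y : ℝ} (hy : 1 ≤ y) : y ^ (0.8 : ℝ) ≤ y := by
  simpa using rpow_le_rpow_of_exponent_le hy (by norm_num : (0.8 : ℝ) ≤ 1)

theorem xTB_piece {C : ℝ} (hC0 : 0 ≤ C) (hC : ∀ y h : ℝ, 2 ≤ y → y ^ (0.8 : ℝ) ≤ h → h ≤ y →
    ∑ n ∈ Ioc ⌊y - h⌋₊ ⌊y⌋₊, |fo n| ≤ C * h * log y) {y h z : ℝ} (h2 : 2 ≤ h) (hy : h ≤ y)
    (h8 : y ^ (0.8 : ℝ) ≤ h) (hz : z ≤ y) :
    ∑ n ∈ Ioc ⌊z - h⌋₊ ⌊z⌋₊, |fo n| ≤ C * h * log y := by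
  rcases le_total h z with a | a
  · refine (hC z h (h2.trans a) ((rpow_le_rpow (by linarith) hz (by norm_num)).trans h8) a).trans ?_
    have := log_le_log (by linarith) hz
    gcongr
  · have b := hC h h h2 (xTB_self (by linarith)) le_rfl
    rw [sub_self, Nat.floor_zero] at b
    refine (sum_le_sum_of_subset_of_nonneg
      (Ioc_subset_Ioc (Nat.zero_le _) (Nat.floor_mono a)) fun _ _ _ => abs_nonneg _).trans
      (b.trans ?_)
    have := log_le_log (by linarith) hy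
    gcongr

theorem xTB_wt {y η : ℝ} (hy : 0 < y) (hη : 0 < η) (hη2 : η ≤ 1 / 2) {n j : ℕ}
    (hn : (n : ℝ) ≤ y - j * (η * y)) : (n / y) ^ (1 / η - 1) ≤ (2 / 3 : ℝ) ^ j := by
  have k0 : 0 ≤ 1 / η - 1 := by
    rw [sub_nonneg, le_div_iff₀ hη]
    linarith
  have a1 : (n : ℝ) / y ≤ exp (-(j * η)) := by
    refine le_trans ?_ (add_one_le_exp _)
    rw [div_le_iff₀ hy]
    linarith
  have a2 : exp (-(1 / 2 : ℝ)) ≤ 2 / 3 := by
    rw [exp_neg, inv_le_comm₀ (exp_pos _) (by norm_num)]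
    linarith [add_one_le_exp (1 / 2 : ℝ)]
  calc (n / y) ^ (1 / η - 1) ≤ exp (-(j * η)) ^ (1 / η - 1) :=
        rpow_le_rpow (by positivity) a1 k0
    _ = exp (-(j * (1 - η))) := by
        rw [← exp_mul]
        congr 1
        field_simp
    _ ≤ exp (j * -(1 / 2 : ℝ)) := by
        refine exp_le_exp.2 ?_
        have : (0 : ℝ) ≤ j := Nat.cast_nonneg j
        nlinarith
    _ ≤ (2 / 3 : ℝ) ^ j := by
        rw [exp_nat_mul]
        exact pow_le_pow_left₀ (exp_pos _).le a2 j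

theorem xTB_tail {B y η : ℝ} (hB : 0 ≤ B) (hy : 0 < y) (hη : 0 < η) (hη2 : η ≤ 1 / 2)
    (hp : ∀ z ≤ y, ∑ n ∈ Ioc ⌊z - η * y⌋₊ ⌊z⌋₊, |fo n| ≤ B) :
    ∑ n ∈ Icc 1 ⌊y⌋₊, |fo n| * (n / y) ^ (1 / η - 1) ≤ 3 * B := by
  have hh : 0 < η * y := mul_pos hη hy
  have key : ∀ j : ℕ, ∑ n ∈ Ioc ⌊y - j * (η * y)⌋₊ ⌊y⌋₊, |fo n| * (n / y) ^ (1 / η - 1) ≤
      B * (3 - 3 * (2 / 3) ^ j) := by
    intro j
    induction j with
    | zero => simp
    | succ j ih =>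
      have j0 : (0 : ℝ) ≤ j * (η * y) := by positivity
      have e : y - (j + 1 : ℕ) * (η * y) = y - j * (η * y) - η * y := by
        push_cast
        ring
      rw [e, ← sum_Ioc_consecutive _ (Nat.floor_mono (by linarith : y - j * (η * y) - η * y ≤
        y - j * (η * y))) (Nat.floor_mono (by linarith : y - j * (η * y) ≤ y))]
      have a : ∑ n ∈ Ioc ⌊y - j * (η * y) - η * y⌋₊ ⌊y - j * (η * y)⌋₊,
          |fo n| * (n / y) ^ (1 / η - 1) ≤ B * (2 / 3) ^ j := by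
        refine le_trans (sum_le_sum (g := fun n => |fo n| * (2 / 3 : ℝ) ^ j) fun n hn => ?_) ?_
        · obtain ⟨b1, b2⟩ := mem_Ioc.1 hn
          exact mul_le_mul_of_nonneg_left
            (xTB_wt hy hη hη2 ((Nat.le_floor_iff' (by omega)).1 b2)) (abs_nonneg _)
        · rw [← sum_mul]
          exact mul_le_mul_of_nonneg_right (hp _ (by linarith)) (by positivity)
      calc _ ≤ B * (2 / 3) ^ j + B * (3 - 3 * (2 / 3) ^ j) := add_le_add a ih
        _ = _ := by ring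
  obtain ⟨j, hj⟩ := exists_nat_ge (1 / η)
  have a := key j
  rw [div_le_iff₀ hη] at hj
  rw [Nat.floor_of_nonpos (by nlinarith)] at a
  have b : 0 ≤ B * (2 / 3 : ℝ) ^ j := by positivity
  have e : Icc 1 ⌊y⌋₊ = Ioc 0 ⌊y⌋₊ := rfl
  rw [e]
  linarith

theorem stTB (hSmooth : StSmooth) (hSI : StSI) : StTB := by
  obtain ⟨C₁, h₁⟩ := hSmooth
  obtain ⟨C, hC0, hC⟩ := xTB_si hSI
  have ev : ∀ᶠ y : ℝ in atTop, 3 ≤ y ∧ 2 ≤ log y ∧ 2 ≤ y ^ (0.8 : ℝ) ∧
      log y ^ 3 ≤ y ^ (0.2 : ℝ) := by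
    filter_upwards [eventually_ge_atTop 3, tendsto_log_atTop.eventually_ge_atTop 2,
      (tendsto_rpow_atTop (by norm_num : (0 : ℝ) < 0.8)).eventually_ge_atTop 2,
      (isLittleO_log_rpow_rpow_atTop 3 (by norm_num : (0 : ℝ) < 0.2)).eventuallyLE]
      with y a1 a2 a3 a4
    refine ⟨a1, a2, a3, ?_⟩
    rw [Real.norm_of_nonneg (by positivity), Real.norm_of_nonneg (by positivity)] at a4
    exact_mod_cast a4
  obtain ⟨y₀, hy₀⟩ := eventually_atTop.1 ev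
  refine ⟨max (C₁ + 3 * C) (C * log y₀ * log y₀ ^ (5 / 4 : ℝ)), fun y hy => ?_⟩
  have l0 : 0 < log y := log_pos (by linarith)
  have p0 : 0 < log y ^ (5 / 4 : ℝ) := rpow_pos_of_pos l0 _
  have y0 : 0 < y := by linarith
  rcases le_total y₀ y with h | h
  · obtain ⟨a1, a2, a3, a4⟩ := hy₀ y h
    refine le_trans ?_ (div_le_div_of_nonneg_right
      (mul_le_mul_of_nonneg_right (le_max_left _ _) y0.le) p0.le)
    obtain ⟨η, hη⟩ : ∃ η : ℝ, η = (log y ^ 3)⁻¹ := ⟨_, rfl⟩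
    have l3 : 2 ≤ log y ^ 3 := by
      have := pow_le_pow_left₀ (by norm_num) a2 3
      linarith
    have η0 : 0 < η := by rw [hη]; positivity
    have η2 : η ≤ 1 / 2 := by
      rw [hη, one_div]
      exact inv_anti₀ (by norm_num) l3
    have h8 : y ^ (0.8 : ℝ) ≤ η * y := by
      rw [hη, le_inv_mul_iff₀ (by positivity)]
      calc log y ^ 3 * y ^ (0.8 : ℝ) ≤ y ^ (0.2 : ℝ) * y ^ (0.8 : ℝ) := by gcongr
        _ = y := by rw [← rpow_add y0]; norm_num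
    have b1 := h₁ y η a1 η0 η2
    have b2 := xTB_tail (B := C * (η * y) * log y) (by positivity) y0 η0 η2 fun z hz =>
      xTB_piece hC0 hC (a3.trans h8) (by nlinarith) h8 hz
    have b3 : |∑ n ∈ Icc 1 ⌊y⌋₊, fo n * (n / y) ^ (1 / η - 1)| ≤
        ∑ n ∈ Icc 1 ⌊y⌋₊, |fo n| * (n / y) ^ (1 / η - 1) := by
      refine (abs_sum_le_sum_abs _ _).trans (le_of_eq (sum_congr rfl fun n _ => ?_))
      rw [abs_mul, abs_of_nonneg (a := _ ^ _) (by positivity)]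
    have e : TT y = ∑ n ∈ Icc 1 ⌊y⌋₊, fo n * (1 - (n / y) ^ (1 / η - 1)) +
        ∑ n ∈ Icc 1 ⌊y⌋₊, fo n * (n / y) ^ (1 / η - 1) := by
      rw [TT, ← sum_add_distrib]
      exact sum_congr rfl fun n _ => by ring
    have e1 : η ^ (-(1 / 4) : ℝ) / log y ^ 2 = 1 / log y ^ (5 / 4 : ℝ) := by
      rw [hη, ← rpow_natCast, ← rpow_neg l0.le, ← rpow_mul l0.le, ← rpow_natCast,
        ← rpow_sub l0, one_div (log y ^ _), ← rpow_neg l0.le]
      norm_num
    have e2 : η * log y ≤ 1 / log y ^ (5 / 4 : ℝ) := by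
      have : η * log y = 1 / log y ^ (2 : ℝ) := by
        rw [hη, rpow_two]
        field_simp
      rw [this]
      exact one_div_le_one_div_of_le p0 (rpow_le_rpow_of_exponent_le (by linarith) (by norm_num))
    rw [e]
    refine (abs_add_le _ _).trans ?_
    calc _ ≤ C₁ * y * η ^ (-(1 / 4) : ℝ) / log y ^ 2 + 3 * (C * (η * y) * log y) :=
          add_le_add b1 (b3.trans b2)
      _ = C₁ * y * (η ^ (-(1 / 4) : ℝ) / log y ^ 2) + 3 * C * y * (η * log y) := by ring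
      _ ≤ C₁ * y * (1 / log y ^ (5 / 4 : ℝ)) + 3 * C * y * (1 / log y ^ (5 / 4 : ℝ)) := by
          rw [e1]
          gcongr
      _ = _ := by ring
  · refine le_trans ?_ (div_le_div_of_nonneg_right
      (mul_le_mul_of_nonneg_right (le_max_right _ _) y0.le) p0.le)
    have b := hC y y hy (xTB_self (by linarith)) le_rfl
    rw [sub_self, Nat.floor_zero] at b
    have b1 : |TT y| ≤ C * y * log y := (abs_sum_le_sum_abs _ _).trans b
    have b2 := log_le_log y0 h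
    rw [le_div_iff₀ p0]
    calc |TT y| * log y ^ (5 / 4 : ℝ) ≤ C * y * log y₀ * log y₀ ^ (5 / 4 : ℝ) := by
          have : C * y * log y ≤ C * y * log y₀ := by gcongr
          have l1 : 0 ≤ C * y * log y₀ := by
            have := l0.le.trans b2
            positivity
          exact mul_le_mul (b1.trans this) (rpow_le_rpow l0.le b2 (by norm_num)) p0.le l1
      _ = _ := by ring

end Pool.Agent.MP_88bd62_nt.U
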