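import Pool.Agent.MP_88bd62_nt.U.Stmts

/-! The Tauberian step. -/

namespace Pool.Agent.MP_88bd62_nt.U

open Finset Real Filter Topology
open ArithmeticFunction (cardFactors)

theorem xTau_ac (x : ℝ) : AC (ax x) := by
  refine summable_of_ne_finset_zero (s := range (⌊x⌋₊ + 1)) fun n hn => ?_
  have h : ¬ (n : ℝ) ≤ x := fun h => hn (mem_range.2 (Nat.lt_succ_of_le (Nat.le_floor h)))
  simp [ax, h]

theorem xTau_int (hK : StKerA) {N : ℕ} (hN : 1 ≤ N) :
    Continuous (ker N) ∧ ∫ y in (-1 : ℝ)..1, ker N y = 2 := by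
  have hc : Continuous (ker N) := by
    unfold ker
    fun_prop
  refine ⟨hc, ?_⟩
  have h1 := (hK N hN).2.1
  have h2 : ∫ y in (-1 : ℝ)..0, ker N y = 1 := by
    have h := intervalIntegral.integral_comp_neg (a := 0) (b := 1) (ker N)
    rw [neg_zero] at h
    rw [← h]
    refine Eq.trans (intervalIntegral.integral_congr fun y _ => ?_) h1
    simp [ker]
  rw [← intervalIntegral.integral_add_adjacent_intervals (b := 0) (hc.intervalIntegrable _ _)
    (hc.intervalIntegrable _ _), h1, h2]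
  norm_num

theorem xTau_diff (hK : StKerA) (hLP : StLP) {N : ℕ} (hN : 1 ≤ N) {a b : ℕ → ℝ} (ha : AC a)
    (hb : AC b) {ε : ℝ} (h : ∀ u, |Phi a u - Phi b u| ≤ ε) (u : ℝ) :
    ‖LPc N (Ser a) u - LPc N (Ser b) u‖ ≤ ε := by
  obtain ⟨hc, hi⟩ := xTau_int hK hN
  obtain ⟨a1, a2⟩ := hLP N a hN ha u
  obtain ⟨b1, b2⟩ := hLP N b hN hb u
  rw [← a2, ← b2, ← Complex.ofReal_sub, Complex.norm_real, ← mul_sub,
    ← intervalIntegral.integral_sub a1 b1, norm_mul]
  have h1 := intervalIntegral.norm_integral_le_of_norm_le (μ := MeasureTheory.volume)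
    (f := fun y => ker N y * Phi a (u - y) - ker N y * Phi b (u - y)) (g := fun y => ker N y * ε)
    (show (-1 : ℝ) ≤ 1 by norm_num) (Eventually.of_forall fun y _ => by
      have h0 := ((hK N hN).1 y).1
      rw [← mul_sub, norm_mul, Real.norm_of_nonneg h0]
      exact mul_le_mul_of_nonneg_left (h _) h0)
    ((hc.mul continuous_const).intervalIntegrable _ _)
  rw [intervalIntegral.integral_mul_const, hi] at h1
  rw [Real.norm_of_nonneg (by norm_num)]
  linarith

theorem xTau_small (hTB : StTB) {ε : ℝ} (hε : 0 < ε) :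
    ∀ᶠ x : ℝ in atTop, |TT x / (3 * x)| ≤ ε := by
  obtain ⟨C, hC⟩ := hTB
  have h1 : Tendsto (fun x : ℝ => C / log x ^ (5 / 4 : ℝ)) atTop (𝓝 0) :=
    tendsto_const_nhds.div_atTop ((tendsto_rpow_atTop (by norm_num)).comp tendsto_log_atTop)
  filter_upwards [eventually_ge_atTop 2, h1.eventually_le_const hε] with x hx h2
  have h3 := hC x hx
  have h4 : C * x / log x ^ (5 / 4 : ℝ) = C / log x ^ (5 / 4 : ℝ) * x := by ring
  rw [abs_div, abs_of_pos (a := 3 * x) (by linarith), div_le_iff₀ (by linarith)]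
  nlinarith

theorem stTau (hTB : StTB) (hTau1 : StTau1) (hTau2 : StTau2) (hTau3 : StTau3) (hTau4 : StTau4)
    (hKerA : StKerA) (hLP : StLP) : StTau := by
  intro B hB
  have key : ∀ ε : ℝ, 0 < ε → ∀ᶠ x : ℝ in atTop,
      |∑ n ∈ Icc 1 ⌊x⌋₊, (-2 : ℝ) ^ cardFactors n| / x ≤ B + 3 * ε := by
    intro ε hε
    obtain ⟨y₀, hy⟩ := hTau2 ε hε
    filter_upwards [eventually_ge_atTop y₀, eventually_ge_atTop 1, xTau_small hTB hε]
      with x hx hx1 hT
    obtain ⟨N₀, hN₀⟩ := hTau4 x (logb 2 x) ε hε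
    obtain ⟨N, hN, hNB⟩ := hB (max N₀ 1)
    obtain ⟨u, hu⟩ := hN₀ N ((le_max_left _ _).trans hN)
    have h1 : Tendsto (fun z : ℝ => ‖LPc N (Ser (ax z)) u - LPc N (Ser (ax x)) u‖) atTop
        (𝓝 ‖LPc N FS u - LPc N (Ser (ax x)) u‖) := by
      refine (Tendsto.sub_const ?_ _).norm
      unfold LPc
      exact tendsto_finsetSum _ fun k hk =>
        (((hTau3 k (mem_filter.1 hk).2).const_mul _).mul_const _).mul_const _
    have h2 := le_of_tendsto h1 ((eventually_ge_atTop x).mono fun z hz =>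
      xTau_diff hKerA hLP ((le_max_right _ _).trans hN) (xTau_ac z) (xTau_ac x)
        (fun v => hy z x v hx hz) u)
    have h3 := norm_sub_norm_le (LPc N (Ser (ax x)) u) (LPc N FS u)
    rw [norm_sub_rev] at h3
    have h4 := hNB u
    rw [← abs_of_pos (a := x) (by linarith), ← abs_div, abs_of_pos (a := x) (by linarith),
      hTau1 x hx1]
    refine (abs_add_le _ _).trans ?_
    linarith
  refine le_of_forall_gt_imp_ge_of_dense fun c hc => ?_
  obtain ⟨d, hd1, hd2⟩ := EReal.lt_iff_exists_real_btwn.1 hc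
  refine le_trans (limsup_le_of_le (by isBoundedDefault) ?_) hd2.le
  have hd : B < d := by exact_mod_cast hd1
  filter_upwards [key ((d - B) / 3) (by linarith)] with x hx
  exact EReal.coe_le_coe_iff.2 (by linarith)

end Pool.Agent.MP_88bd62_nt.U
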