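import Pool.Agent.MP_88bd62_nt.U.Stmts

/-! The truncated saw series is uniformly Cauchy. -/

namespace Pool.Agent.MP_88bd62_nt.U

open Finset Real Filter Topology

theorem xTau2_abs_sg (v : ℝ) : |sg v| ≤ 1 := by
  have h1 : (2 : ℝ) ^ ((⌊v⌋ : ℝ) - v) ≤ 1 :=
    rpow_le_one_of_one_le_of_nonpos one_le_two (sub_nonpos.2 (Int.floor_le v))
  have h2 : (0 : ℝ) < 2 ^ ((⌊v⌋ : ℝ) - v) := by positivity
  rw [sg, abs_mul, abs_mul, abs_zpow, abs_neg, abs_one, one_zpow, abs_of_pos h2,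
    abs_of_pos (by norm_num : (0 : ℝ) < 2 / 3)]
  linarith

theorem xTau2_w (u : ℝ) {n : ℕ} (hn : 0 < n) :
    sg (u - th n) / n = 2 / 3 * (-1) ^ ⌊u - th n⌋ * 2 ^ ((⌊u - th n⌋ : ℝ) - u) := by
  have h0 : (0 : ℝ) < n := by exact_mod_cast hn
  have h1 : (2 : ℝ) ^ th n = n := rpow_logb two_pos (by norm_num) h0
  have h2 : (⌊u - th n⌋ : ℝ) - (u - th n) = (⌊u - th n⌋ : ℝ) - u + th n := by ring
  rw [sg, h2, rpow_add two_pos, h1]
  field_simp

theorem xTau2_TT {a b : ℕ} (h : a ≤ b) : ∑ n ∈ Ioc a b, fo n = TT b - TT a := by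
  have h1 : ∀ c : ℕ, TT c = ∑ n ∈ Ioc 0 c, fo n := fun c => by
    rw [TT, Nat.floor_natCast]
    rfl
  rw [h1, h1, ← sum_Ioc_consecutive _ (Nat.zero_le a) h]
  ring

theorem xTau2_piece {u M R : ℝ} {a b : ℕ} {m : ℤ} (hR : 0 < R) (hM : 0 ≤ M) (ha : R ≤ a)
    (hab : a ≤ b) (h1 : |TT a| ≤ R * M) (h2 : |TT b| ≤ R * M)
    (hm : ∀ n ∈ Ioc a b, ⌊u - th n⌋ = m) :
    |∑ n ∈ Ioc a b, fo n / n * sg (u - th n)| ≤ 2 * M := by
  rcases hab.eq_or_lt with rfl | hlt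
  · simp only [Ioc_self, sum_empty, abs_zero]
    positivity
  have hb : b ∈ Ioc a b := mem_Ioc.2 ⟨hlt, le_rfl⟩
  have h3 : ∀ n ∈ Ioc a b, fo n / n * sg (u - th n) = fo n * (sg (u - th b) / b) := by
    intro n hn
    have h4 := xTau2_w u (n := n) (by have := (mem_Ioc.1 hn).1; omega)
    rw [xTau2_w u (n := b) (by omega), hm b hb, ← hm n hn, ← h4]
    ring
  have hb' : R ≤ b := ha.trans (by exact_mod_cast hab)
  have h5 : |sg (u - th b) / b| ≤ 1 / R := by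
    rw [abs_div, Nat.abs_cast]
    exact div_le_div₀ zero_le_one (xTau2_abs_sg _) hR hb'
  rw [sum_congr rfl h3, ← sum_mul, xTau2_TT hab, abs_mul]
  calc |TT b - TT a| * |sg (u - th b) / b| ≤ (R * M + R * M) * (1 / R) :=
        mul_le_mul ((abs_sub _ _).trans (add_le_add h2 h1)) h5 (abs_nonneg _) (by positivity)
    _ = 2 * M := by field_simp; ring

theorem xTau2_th {a b : ℕ} (ha : 0 < a) (h : a ≤ b) : th a ≤ th b :=
  logb_le_logb_of_le one_lt_two (by exact_mod_cast ha) (by exact_mod_cast h)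

theorem xTau2_th_pow (i : ℕ) : th (2 ^ i) = i := by
  rw [th, Nat.cast_pow, Nat.cast_ofNat, logb_pow, logb_self_eq_one one_lt_two, mul_one]

theorem xTau2_step {u M : ℝ} {a b i : ℕ} (hM : 0 ≤ M) (ha : 2 ^ i ≤ a) (hab : a ≤ b)
    (hb : b ≤ 2 ^ (i + 1)) (hT : ∀ c : ℕ, 2 ^ i ≤ c → c ≤ 2 ^ (i + 1) → |TT c| ≤ 2 ^ i * M) :
    |∑ n ∈ Ioc a b, fo n / n * sg (u - th n)| ≤ 4 * M := by
  classical
  have hp : 0 < 2 ^ i := by positivity
  have hl : ∀ n, a < n → (i : ℝ) ≤ th n := fun n hn => by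
    rw [← xTau2_th_pow]
    exact xTau2_th hp (by omega)
  have hu : ∀ n, a < n → n ≤ b → th n ≤ i + 1 := fun n hn hn' => by
    have := xTau2_th (a := n) (b := 2 ^ (i + 1)) (by omega) (by omega)
    rwa [xTau2_th_pow, Nat.cast_succ] at this
  have f1 := Int.floor_le (u - i)
  have f2 := Int.lt_floor_add_one (u - i)
  set m := ⌊u - i⌋
  set P : ℕ → Prop := fun n => n ≤ a ∨ (m : ℝ) ≤ u - th n with hP
  have c1 : Nat.findGreatest P b ≤ b := Nat.findGreatest_le b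
  have c2 : a ≤ Nat.findGreatest P b := Nat.le_findGreatest hab (Or.inl le_rfl)
  have c3 : P (Nat.findGreatest P b) := Nat.findGreatest_spec hab (Or.inl le_rfl)
  have c4 : ∀ n, Nat.findGreatest P b < n → n ≤ b → ¬ P n := fun n h h' =>
    Nat.findGreatest_is_greatest h h'
  generalize Nat.findGreatest P b = c at c1 c2 c3 c4
  have hR : (0 : ℝ) < 2 ^ i := by positivity
  have ha' : (2 : ℝ) ^ i ≤ a := by exact_mod_cast ha
  have hc' : (2 : ℝ) ^ i ≤ c := by exact_mod_cast ha.trans c2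
  have p1 := xTau2_piece (u := u) (m := m) hR hM ha' c2 (hT a ha (by omega))
    (hT c (by omega) (by omega)) fun n hn => by
      obtain ⟨h1, h2⟩ := mem_Ioc.1 hn
      have h3 := c3.resolve_left (by omega)
      have h4 := xTau2_th (a := n) (b := c) (by omega) h2
      have h5 := hl n h1
      exact Int.floor_eq_iff.2 ⟨by linarith, by linarith⟩
  have p2 := xTau2_piece (u := u) (m := m - 1) hR hM hc' c1 (hT c (by omega) (by omega))
    (hT b (by omega) hb) fun n hn => by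
      obtain ⟨h1, h2⟩ := mem_Ioc.1 hn
      have h3 := not_le.1 (not_or.1 (c4 n h1 h2)).2
      have h4 := hu n (by omega) h2
      refine Int.floor_eq_iff.2 ⟨?_, ?_⟩ <;> push_cast <;> linarith
  rw [← sum_Ioc_consecutive _ c2 c1]
  exact (abs_add_le _ _).trans (by linarith)

theorem xTau2_chain {u : ℝ} {M : ℕ → ℝ} {j : ℕ} (hM : ∀ i, 0 ≤ M i)
    (hT : ∀ i c : ℕ, j ≤ i → 2 ^ i ≤ c → c ≤ 2 ^ (i + 1) → |TT c| ≤ 2 ^ i * M i) (k : ℕ) :
    ∀ a b : ℕ, 2 ^ j ≤ a → a ≤ b → b ≤ 2 ^ (k + j) →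
      |∑ n ∈ Ioc a b, fo n / n * sg (u - th n)| ≤ ∑ i ∈ range k, 4 * M (i + j) := by
  induction k with
  | zero =>
    intro a b h1 h2 h3
    rw [zero_add] at h3
    obtain rfl : a = b := by omega
    simp
  | succ k ih =>
    intro a b h1 h2 h3
    have e : k + 1 + j = k + j + 1 := by ring
    rw [e] at h3
    have h0 : 0 ≤ ∑ i ∈ range k, 4 * M (i + j) :=
      sum_nonneg fun i _ => mul_nonneg (by norm_num) (hM _)
    have h4 := hM (k + j)
    rw [sum_range_succ]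
    rcases le_total b (2 ^ (k + j)) with h | h
    · exact (ih a b h1 h2 h).trans (by linarith)
    rcases le_total a (2 ^ (k + j)) with h' | h'
    · rw [← sum_Ioc_consecutive _ h' h]
      exact (abs_add_le _ _).trans (add_le_add (ih a _ h1 h' le_rfl)
        (xTau2_step h4 le_rfl h h3 fun c => hT _ c (by omega)))
    · exact (xTau2_step h4 h' h2 h3 fun c => hT _ c (by omega)).trans (by linarith)

theorem xTau2_phi {x : ℝ} (hx : 0 ≤ x) (u : ℝ) :
    Phi (ax x) u = ∑ n ∈ Ioc 0 ⌊x⌋₊, fo n / n * sg (u - th n) := by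
  rw [Phi, tsum_eq_sum (s := Ioc 0 ⌊x⌋₊)]
  · refine sum_congr rfl fun n hn => ?_
    rw [ax, if_pos ((Nat.le_floor_iff hx).1 (mem_Ioc.1 hn).2)]
  · intro n hn
    rcases Nat.eq_zero_or_pos n with rfl | h
    · simp
    · rw [ax, if_neg fun h' => hn (mem_Ioc.2 ⟨h, Nat.le_floor h'⟩), zero_div, zero_mul]

theorem stTau2 (hTB : StTB) : StTau2 := by
  obtain ⟨C, hC⟩ := hTB
  intro ε hε
  have hl : 0 < log 2 := log_pos one_lt_two
  set M : ℕ → ℝ := fun i => 2 * |C| / (i * log 2) ^ (5 / 4 : ℝ) with hM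
  have hM0 : ∀ i, 0 ≤ M i := fun i => by positivity
  have hs : Summable fun i => 4 * M i := by
    refine (((summable_one_div_nat_rpow (p := 5 / 4)).2 (by norm_num)).mul_left
      (4 * (2 * |C| / log 2 ^ (5 / 4 : ℝ)))).congr fun i => ?_
    simp only [hM]
    rw [mul_rpow (Nat.cast_nonneg i) hl.le]
    ring
  obtain ⟨j, hj, hj1⟩ := (((tendsto_sum_nat_add fun i => 4 * M i).eventually
    (eventually_le_nhds hε)).and (eventually_ge_atTop 1)).exists
  have hT : ∀ i c : ℕ, j ≤ i → 2 ^ i ≤ c → c ≤ 2 ^ (i + 1) → |TT c| ≤ 2 ^ i * M i := by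
    intro i c h1 h2 h3
    have h2' : (2 : ℝ) ^ i ≤ c := by exact_mod_cast h2
    have h3' : (c : ℝ) ≤ 2 ^ (i + 1) := by exact_mod_cast h3
    have hi : (0 : ℝ) < i := by exact_mod_cast (by omega : 0 < i)
    have h4 : (2 : ℝ) ≤ c := le_trans (le_self_pow₀ one_le_two (by omega)) h2'
    have h5 : i * log 2 ≤ log c := by
      rw [← log_pow]
      exact log_le_log (by positivity) h2'
    calc |TT c| ≤ C * c / log c ^ (5 / 4 : ℝ) := hC c h4
      _ ≤ |C| * 2 ^ (i + 1) / (i * log 2) ^ (5 / 4 : ℝ) :=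
        div_le_div₀ (by positivity)
          (mul_le_mul (le_abs_self C) h3' (by positivity) (abs_nonneg C)) (by positivity)
          (rpow_le_rpow (by positivity) h5 (by norm_num))
      _ = 2 ^ i * M i := by simp only [hM]; ring
  refine ⟨2 ^ j, fun x y u hy hxy => ?_⟩
  have hy0 : 0 ≤ y := le_trans (by positivity) hy
  have h1 : 2 ^ j ≤ ⌊y⌋₊ := Nat.le_floor (by exact_mod_cast hy)
  have h2 : ⌊y⌋₊ ≤ ⌊x⌋₊ := Nat.floor_le_floor hxy
  rw [xTau2_phi hy0, xTau2_phi (hy0.trans hxy), ← sum_Ioc_consecutive _ (Nat.zero_le _) h2,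
    add_sub_cancel_left]
  refine (xTau2_chain hM0 hT ⌊x⌋₊ _ _ h1 h2 ?_).trans (le_trans ?_ hj)
  · exact (Nat.lt_two_pow_self.le).trans (Nat.pow_le_pow_right two_pos (Nat.le_add_right _ _))
  · exact ((summable_nat_add_iff j).2 hs).sum_le_tsum _ fun i _ =>
      mul_nonneg (by norm_num) (hM0 _)

end Pool.Agent.MP_88bd62_nt.U
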