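import Pool.Agent.MP_88bd62_nt.U.Stmts

/-! Convergence of the Dirichlet series on the line of real part one. -/

namespace Pool.Agent.MP_88bd62_nt.U

open Finset Real Filter Topology MeasureTheory Asymptotics

theorem xTau3_gI : IntegrableOn (fun t : ℝ => t⁻¹ * log t ^ (-(5 / 4) : ℝ)) (Set.Ioi 2) := by
  refine integrableOn_Ioi_deriv_of_nonneg' (g := fun t : ℝ => -4 * log t ^ (-(1 / 4) : ℝ))
    (l := -4 * 0) (fun x hx => ?_) (fun x hx => ?_) ?_
  · have hx' : (2 : ℝ) ≤ x := hx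
    have hl : 0 < log x := log_pos (by linarith)
    have h := ((hasDerivAt_log (by linarith : x ≠ 0)).rpow_const (p := -(1 / 4))
      (Or.inl hl.ne')).const_mul (-4)
    refine h.congr_deriv ?_
    rw [show (-(1 / 4) - 1 : ℝ) = -(5 / 4) by norm_num]
    ring
  · have hx' : (2 : ℝ) < x := hx
    have hl : 0 < log x := log_pos (by linarith)
    positivity
  · exact ((tendsto_rpow_neg_atTop (by norm_num)).comp tendsto_log_atTop).const_mul _

theorem xTau3_sum (t : ℝ) : ∑ k ∈ Icc 1 ⌊t⌋₊, (fo k : ℂ) = (TT t : ℂ) := by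
  simp [TT]

theorem xTau3_sum0 (n : ℕ) : ∑ k ∈ Icc 0 n, (fo k : ℂ) = ∑ k ∈ Icc 1 n, (fo k : ℂ) := by
  rw [← insert_Icc_add_one_left_eq_Icc n.zero_le, sum_insert (by simp)]
  simp [fo]

theorem xTau3_big (hTB : StTB) :
    (fun t : ℝ => |TT t| * t ^ (-2 : ℝ)) =O[atTop] fun t : ℝ => t⁻¹ * log t ^ (-(5 / 4) : ℝ) := by
  obtain ⟨C, hC⟩ := hTB
  refine IsBigO.of_bound C ?_
  filter_upwards [eventually_ge_atTop 2] with t ht
  have ht0 : 0 < t := by linarith
  have hl : 0 < log t := log_pos (by linarith)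
  rw [Real.norm_of_nonneg (by positivity), Real.norm_of_nonneg (by positivity)]
  calc |TT t| * t ^ (-2 : ℝ) ≤ C * t / log t ^ (5 / 4 : ℝ) * t ^ (-2 : ℝ) := by
        gcongr
        exact hC t ht
    _ = C * (t⁻¹ * log t ^ (-(5 / 4) : ℝ)) := by
        rw [rpow_neg hl.le, rpow_neg ht0.le, rpow_two]
        field_simp

theorem xTau3_gF : IntegrableAtFilter (fun t : ℝ => t⁻¹ * log t ^ (-(5 / 4) : ℝ)) atTop :=
  ⟨Set.Ioi 2, Ioi_mem_atTop 2, xTau3_gI⟩

theorem xTau3_meas : Measurable TT := by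
  have : TT = (fun n : ℕ => ∑ k ∈ Icc 1 n, fo k) ∘ fun t : ℝ => ⌊t⌋₊ := rfl
  rw [this]
  exact (measurable_from_nat).comp Nat.measurable_floor

theorem xTau3_bI (hTB : StTB) :
    IntegrableOn (fun t : ℝ => |TT t| * t ^ (-2 : ℝ)) (Set.Ioi 1) := by
  have h1 : LocallyIntegrableOn (fun t : ℝ => t ^ (-2 : ℝ) * ∑ k ∈ Icc 1 ⌊t⌋₊, fo k)
      (Set.Ici 1) := by
    refine locallyIntegrableOn_mul_sum_Icc fo zero_le_one ?_
    refine ContinuousOn.locallyIntegrableOn (fun t ht => ?_) measurableSet_Ici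
    exact (Real.continuousAt_rpow_const _ _
      (Or.inl (zero_lt_one.trans_le ht).ne')).continuousWithinAt
  have h2 : IntegrableOn (fun t : ℝ => t ^ (-2 : ℝ) * ∑ k ∈ Icc 1 ⌊t⌋₊, fo k) (Set.Ici 1) := by
    refine h1.integrableOn_of_isBigO_atTop (IsBigO.trans ?_ (xTau3_big hTB)) xTau3_gF
    refine IsBigO.of_bound 1 ?_
    filter_upwards with t
    rw [one_mul, norm_mul, norm_mul, mul_comm, Real.norm_eq_abs (|TT t|), abs_abs]
    rfl
  refine IntegrableOn.congr_fun (h2.norm.mono_measure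
    (Measure.restrict_mono Set.Ioi_subset_Ici_self le_rfl)) (fun t ht => ?_) measurableSet_Ioi
  have ht0 : 0 < t := zero_lt_one.trans ht
  rw [norm_mul, Real.norm_of_nonneg (by positivity), mul_comm]
  rfl

theorem xTau3_norm {w : ℂ} (hw : 1 ≤ w.re) {t : ℝ} (ht : 1 ≤ t) :
    ‖(TT t : ℂ) * (t : ℂ) ^ (-(w + 1))‖ ≤ |TT t| * t ^ (-2 : ℝ) := by
  rw [norm_mul, Complex.norm_real, Real.norm_eq_abs,
    Complex.norm_cpow_eq_rpow_re_of_pos (by linarith)]
  gcongr
  simp only [Complex.neg_re, Complex.add_re, Complex.one_re]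
  linarith

/-- The integral form. -/
noncomputable def xTau3_I (w : ℂ) : ℂ :=
  w * ∫ t in Set.Ioi (1 : ℝ), (TT t : ℂ) * (t : ℂ) ^ (-(w + 1))

theorem xTau3_lim (hTB : StTB) {w : ℂ} (hw : 1 ≤ w.re) :
    Tendsto (fun n : ℕ => ∑ k ∈ Icc 0 n, ((k : ℝ) : ℂ) ^ (-w) * (fo k : ℂ)) atTop
      (𝓝 (xTau3_I w)) := by
  have h₂ : w ≠ 0 := Complex.ne_zero_of_re_pos (by linarith)
  have h₃ (t : ℝ) (ht : t ∈ Set.Ici 1) : DifferentiableAt ℝ (fun x : ℝ => (x : ℂ) ^ (-w)) t :=
    differentiableAt_id.ofReal_cpow_const (zero_lt_one.trans_le ht).ne' (neg_ne_zero.mpr h₂)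
  have hd : ∀ t : ℝ, 0 < t → deriv (fun x : ℝ => (x : ℂ) ^ (-w)) t *
      ∑ k ∈ Icc 0 ⌊t⌋₊, (fo k : ℂ) = -(w * ((TT t : ℂ) * (t : ℂ) ^ (-(w + 1)))) := by
    intro t ht
    rw [Complex.deriv_ofReal_cpow_const ht.ne' (neg_ne_zero.mpr h₂), xTau3_sum0, xTau3_sum,
      show -w - 1 = -(w + 1) by ring]
    ring
  have key := tendsto_sum_mul_atTop_nhds_one_sub_integral₀ (fun k => (fo k : ℂ))
    (f := fun x : ℝ => (x : ℂ) ^ (-w)) (l := 0) (by simp [fo]) h₃ ?_ ?_ ?_ xTau3_gF
  · convert key using 2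
    rw [xTau3_I, zero_sub, ← integral_neg, ← integral_const_mul]
    refine setIntegral_congr_fun measurableSet_Ioi fun t ht => ?_
    rw [hd t (zero_lt_one.trans ht), neg_neg]
  · exact (Iff.mpr integrableOn_Ici_iff_integrableOn_Ioi <|
      integrableOn_Ioi_deriv_ofReal_cpow zero_lt_one
        (by simpa using (by linarith : 0 < w.re))).locallyIntegrableOn
  · obtain ⟨C, hC⟩ := hTB
    have h0 : Tendsto (fun n : ℕ => C * log n ^ (-(5 / 4) : ℝ)) atTop (𝓝 (C * 0)) :=
      (((tendsto_rpow_neg_atTop (by norm_num)).comp tendsto_log_atTop).comp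
        tendsto_natCast_atTop_atTop).const_mul _
    rw [mul_zero] at h0
    refine squeeze_zero_norm' ?_ h0
    filter_upwards [eventually_ge_atTop 2] with n hn
    have hn' : (2 : ℝ) ≤ n := by exact_mod_cast hn
    have hn0 : (0 : ℝ) < n := by linarith
    have hl : 0 < log n := log_pos (by linarith)
    have e : ∑ k ∈ Icc 0 n, (fo k : ℂ) = (TT n : ℂ) := by
      rw [xTau3_sum0, ← xTau3_sum, Nat.floor_natCast]
    rw [e, norm_mul, Complex.norm_real, Real.norm_eq_abs,
      Complex.norm_cpow_eq_rpow_re_of_pos hn0]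
    calc (n : ℝ) ^ (-w).re * |TT n| ≤ (n : ℝ) ^ (-1 : ℝ) * (C * n / log n ^ (5 / 4 : ℝ)) := by
          gcongr
          · linarith
          · rw [Complex.neg_re]; linarith
          · exact hC n hn'
      _ = C * log n ^ (-(5 / 4) : ℝ) := by
          rw [rpow_neg hl.le, rpow_neg_one]
          field_simp
  · refine IsBigO.trans (IsBigO.of_bound ‖w‖ ?_) (xTau3_big hTB)
    filter_upwards [eventually_ge_atTop 1] with t ht
    rw [hd t (by linarith), norm_neg, norm_mul]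
    gcongr
    exact (xTau3_norm hw ht).trans (le_abs_self _)

theorem xTau3_eq (hTB : StTB) (hFo : StFo) {w : ℂ} (hw : 1 < w.re) : xTau3_I w = FF w := by
  obtain ⟨h1, h2⟩ := hFo w hw
  rw [← h2]
  refine tendsto_nhds_unique (xTau3_lim hTB hw.le) ?_
  have := (tendsto_add_atTop_iff_nat 1).mpr h1.hasSum.tendsto_sum_nat
  refine this.congr fun n => ?_
  rw [Nat.range_succ_eq_Icc_zero]
  refine sum_congr rfl fun k _ => ?_
  rw [LSeries.term_def₀ (by simp [fo]), mul_comm, Complex.ofReal_natCast]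

theorem xTau3_cont (hTB : StTB) {s : ℂ} (hs : 1 ≤ s.re) :
    Tendsto (fun e : ℝ => xTau3_I (s + e)) (𝓝[>] 0) (𝓝 (xTau3_I s)) := by
  have h0 : Tendsto (fun e : ℝ => s + e) (𝓝[>] 0) (𝓝 s) := by
    have : Continuous fun e : ℝ => s + e := by fun_prop
    simpa using (this.tendsto 0).mono_left (nhdsWithin_le_nhds (s := Set.Ioi 0))
  refine h0.mul ?_
  refine tendsto_integral_filter_of_dominated_convergence (fun t => |TT t| * t ^ (-2 : ℝ))
    (Eventually.of_forall fun e => ?_) ?_ (xTau3_bI hTB) ?_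
  · refine Measurable.aestronglyMeasurable ?_
    exact (Complex.measurable_ofReal.comp xTau3_meas).mul
      (Complex.measurable_ofReal.pow_const _)
  · filter_upwards [self_mem_nhdsWithin] with e he
    have he' : (0 : ℝ) < e := he
    refine (ae_restrict_iff' measurableSet_Ioi).2 (Eventually.of_forall fun t ht => ?_)
    refine xTau3_norm ?_ (le_of_lt ht)
    simp only [Complex.add_re, Complex.ofReal_re]
    linarith
  · refine (ae_restrict_iff' measurableSet_Ioi).2 (Eventually.of_forall fun t ht => ?_)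
    have ht0 : (t : ℂ) ≠ 0 := by
      have : (0 : ℝ) < t := zero_lt_one.trans ht
      exact_mod_cast this.ne'
    refine Tendsto.const_mul _ ?_
    exact ((continuousAt_const_cpow ht0).tendsto).comp ((h0.add_const 1).neg)

theorem xTau3_FF {s : ℂ} (hs : 1 ≤ s.re) (hs1 : s ≠ 1) :
    Tendsto (fun e : ℝ => FF (s + e)) (𝓝[>] 0) (𝓝 (FF s)) := by
  have h0 : Tendsto (fun e : ℝ => s + e) (𝓝[>] 0) (𝓝 s) := by
    have : Continuous fun e : ℝ => s + e := by fun_prop
    simpa using (this.tendsto 0).mono_left (nhdsWithin_le_nhds (s := Set.Ioi 0))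
  have h1 : Tendsto (fun e : ℝ => s + e) (𝓝[>] 0) (𝓝[{s : ℂ | 1 ≤ s.re}] s) := by
    refine tendsto_nhdsWithin_iff.2 ⟨h0, ?_⟩
    filter_upwards [self_mem_nhdsWithin] with e he
    have he' : (0 : ℝ) < e := he
    change 1 ≤ (s + e).re
    simp only [Complex.add_re, Complex.ofReal_re]
    linarith
  have hL := (continuousOn_Lam s hs).tendsto.comp h1
  have hZ := (differentiableAt_riemannZeta hs1).continuousAt.tendsto.comp h0
  have h2 : Tendsto (fun e : ℝ => (2 : ℂ) ^ (-(s + e))) (𝓝[>] 0) (𝓝 ((2 : ℂ) ^ (-s))) :=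
    ((continuousAt_const_cpow two_ne_zero).tendsto).comp h0.neg
  have hne : (1 : ℂ) - 2 ^ (-s) ≠ 0 := by
    have := norm_cpow_le (n := 2) (by norm_num) hs
    simp only [Nat.cast_ofNat] at this
    intro h
    rw [sub_eq_zero] at h
    rw [← h, norm_one] at this
    norm_num at this
  exact hL.cexp.div (((h2.const_sub 1).mul hZ).pow 2)
    (pow_ne_zero _ (mul_ne_zero hne (riemannZeta_ne_zero_of_one_le_re hs)))

theorem xTau3_pow (k : ℤ) {n : ℕ} (hn : n ≠ 0) :
    ((n : ℝ) : ℂ) ^ (-sk k) = ((1 / n : ℝ) : ℂ) * ee k (-th n) := by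
  have hn0 : (0 : ℝ) < n := by exact_mod_cast Nat.pos_of_ne_zero hn
  have hn1 : ((n : ℝ) : ℂ) ≠ 0 := by exact_mod_cast hn
  have hl : log 2 ≠ 0 := (log_pos one_lt_two).ne'
  rw [sk, neg_add, Complex.cpow_add _ _ hn1, Complex.cpow_neg_one, Complex.cpow_def_of_ne_zero hn1,
    ← Complex.ofReal_log hn0.le, ee]
  congr 1
  · simp
  · congr 1
    have : π * k * -th n = -(log n * tk k) := by
      rw [th, tk, logb]
      field_simp
    rw [this]
    push_cast
    ring

theorem stTau3 (hTB : StTB) (hFo : StFo) : StTau3 := by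
  intro k hk
  have hre : (sk k).re = 1 := by simp [sk]
  have hs1 : sk k ≠ 1 := by
    intro h
    have h1 : (sk k).im = 0 := by rw [h]; simp
    have hl : log 2 ≠ 0 := (log_pos one_lt_two).ne'
    have hk0 : (k : ℝ) ≠ 0 := by
      have : k ≠ 0 := by rintro rfl; simp at hk
      exact_mod_cast this
    have h2 : (sk k).im = tk k := by simp [sk]
    rw [h2, tk] at h1
    exact div_ne_zero (mul_ne_zero pi_ne_zero hk0) hl h1
  have hI : xTau3_I (sk k) = FS k := by
    refine tendsto_nhds_unique (xTau3_cont hTB hre.ge) ((xTau3_FF hre.ge hs1).congr' ?_)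
    filter_upwards [self_mem_nhdsWithin] with e he
    have he' : (0 : ℝ) < e := he
    refine (xTau3_eq hTB hFo ?_).symm
    simp only [Complex.add_re, Complex.ofReal_re]
    linarith
  rw [← hI]
  refine ((xTau3_lim hTB hre.ge).comp (tendsto_nat_floor_atTop (α := ℝ))).congr' ?_
  filter_upwards [eventually_ge_atTop 0] with x hx
  simp only [Function.comp, Ser]
  rw [tsum_eq_sum (s := Icc 0 ⌊x⌋₊)]
  · refine sum_congr rfl fun n hn => ?_
    rcases eq_or_ne n 0 with rfl | hn0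
    · simp [fo]
    · rw [xTau3_pow k hn0, ax, if_pos ((Nat.le_floor_iff hx).1 (mem_Icc.1 hn).2)]
      push_cast
      ring
  · intro n hn
    rw [ax, if_neg]
    · simp
    · intro h
      exact hn (mem_Icc.2 ⟨n.zero_le, Nat.le_floor h⟩)

end Pool.Agent.MP_88bd62_nt.U
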