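import Pool.Agent.MP_88bd62_nt.U.Stmts

/-! Interpolated bound for the zeta function in the critical strip. -/

namespace Pool.Agent.MP_88bd62_nt.U

open Finset Real

/-- Decreasing and logarithmically convex, in an additive form. -/
def xZ2_P (G : ℝ → ℝ) : Prop := Antitone G ∧ ∀ x y A B l : ℝ, 0 ≤ l → l ≤ 1 →
  G ((1 - l) * x + l * y) * exp (-((1 - l) * A + l * B)) ≤
    (1 - l) * (G x * exp (-A)) + l * (G y * exp (-B))

theorem xZ2_one {a b : ℝ} (ha : 0 ≤ a) (hb : 0 < b) (hb1 : b ≤ 1) :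
    xZ2_P fun σ => a * b ^ σ := by
  refine ⟨fun x y h => mul_le_mul_of_nonneg_left (rpow_le_rpow_of_exponent_ge hb hb1 h) ha,
    fun x y A B l h0 h1 => ?_⟩
  have h := convexOn_exp.2 (Set.mem_univ (log b * x + -A)) (Set.mem_univ (log b * y + -B))
    (sub_nonneg.2 h1) h0 (by ring)
  simp only [smul_eq_mul] at h
  have e : (1 - l) * (log b * x + -A) + l * (log b * y + -B) =
      log b * ((1 - l) * x + l * y) + -((1 - l) * A + l * B) := by ring
  rw [e, exp_add, exp_add, exp_add] at h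
  simp only [rpow_def_of_pos hb]
  nlinarith [mul_le_mul_of_nonneg_left h ha]

theorem xZ2_add {G H : ℝ → ℝ} (hG : xZ2_P G) (hH : xZ2_P H) : xZ2_P fun σ => G σ + H σ :=
  ⟨hG.1.add hH.1, fun x y A B l h0 h1 => by
    have := hG.2 x y A B l h0 h1
    have := hH.2 x y A B l h0 h1
    simp only [add_mul, mul_add] at *
    linarith⟩

theorem xZ2_sum {ι : Type} (s : Finset ι) {G : ι → ℝ → ℝ} (h : ∀ i ∈ s, xZ2_P (G i)) :
    xZ2_P fun σ => ∑ i ∈ s, G i σ := by
  classical
  induction s using Finset.induction_on with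
  | empty => exact ⟨fun _ _ _ => by simp, fun _ _ _ _ _ _ _ => by simp⟩
  | insert i s hi ih =>
    simp only [sum_insert hi]
    exact xZ2_add (h i (mem_insert_self _ _)) (ih fun j hj => h j (mem_insert_of_mem hj))

theorem xZ2_exp {G : ℝ → ℝ} (h : ExpSum G) : xZ2_P G := by
  obtain ⟨n, a, b, h, e⟩ := h
  rw [funext e]
  exact xZ2_sum _ fun i _ => xZ2_one (h i).1 (h i).2.1 (h i).2.2

theorem xZ2_int {G : ℝ → ℝ} (h : xZ2_P G) {x y A B l : ℝ} (h0 : 0 ≤ l) (h1 : l ≤ 1)
    (hx : G x ≤ exp A) (hy : G y ≤ exp B) :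
    G ((1 - l) * x + l * y) ≤ exp ((1 - l) * A + l * B) := by
  have k : ∀ g C : ℝ, g * exp (-C) ≤ 1 ↔ g ≤ exp C := fun g C => by
    rw [exp_neg, ← div_eq_mul_inv, div_le_one (exp_pos C)]
  have := h.2 x y A B l h0 h1
  have := mul_le_mul_of_nonneg_left ((k _ _).2 hx) (sub_nonneg.2 h1)
  have := mul_le_mul_of_nonneg_left ((k _ _).2 hy) h0
  exact (k _ _).1 (by linarith)

theorem xZ2_two {s : ℂ} (h : 2 ≤ s.re) : ‖riemannZeta s‖ ≤ 2 := by
  rw [zeta_eq_tsum_one_div_nat_cpow (by linarith)]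
  refine (tsum_of_norm_bounded hasSum_zeta_two fun n => ?_).trans ?_
  · rcases Nat.eq_zero_or_pos n with rfl | hn
    · have : s ≠ 0 := by
        rintro rfl
        norm_num at h
      simp [this]
    · rw [norm_div, norm_one, Complex.norm_natCast_cpow_of_pos hn]
      have h1 : (1 : ℝ) ≤ n := by exact_mod_cast hn
      refine one_div_le_one_div_of_le (by positivity) ?_
      rw [← rpow_natCast]
      exact rpow_le_rpow_of_exponent_le h1 (by exact_mod_cast h)
  · have := pi_lt_d2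
    have := pi_pos
    nlinarith

theorem xZ2_e (n : ℕ) : (2.7 : ℝ) ^ n ≤ exp n := by
  rw [← exp_one_pow]
  exact pow_le_pow_left₀ (by norm_num) (by linarith [exp_one_gt_d9]) n

theorem xZ2_small (hEM : StEM) {t : ℝ} (h2 : 2 ≤ |t|) (ht : |t| ≤ 2514) : ∃ G : ℝ → ℝ, xZ2_P G ∧
    (∀ σ : ℝ, 0 ≤ σ → σ ≤ 2 → ‖riemannZeta (σ + t * Complex.I)‖ ≤ G σ) ∧ G 0 ≤ 4100 ∧
    G 1 ≤ 10 := by
  refine ⟨fun σ => ∑ n ∈ Icc (1 : ℕ) 2600, 1 * ((n : ℝ)⁻¹) ^ σ + 2600.5 / 2 * (2600.5 : ℝ)⁻¹ ^ σ +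
    2516 * 2517 / 24 / 2599.5 * (2599.5 : ℝ)⁻¹ ^ σ, xZ2_add (xZ2_add (xZ2_sum _ fun n hn => ?_)
      (xZ2_one (by norm_num) (by norm_num) (by norm_num)))
      (xZ2_one (by norm_num) (by norm_num) (by norm_num)), fun σ h0 h1 => ?_, ?_, ?_⟩
  · have h1 : (1 : ℝ) ≤ n := by exact_mod_cast (mem_Icc.1 hn).1
    exact xZ2_one zero_le_one (by positivity) (inv_le_one_of_one_le₀ h1)
  · set s : ℂ := σ + t * Complex.I with hs
    have hre : s.re = σ := by simp [hs]
    have him : s.im = t := by simp [hs]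
    have hs1 : 2 ≤ ‖s - 1‖ := by
      have := Complex.abs_im_le_norm (s - 1)
      simp only [Complex.sub_im, him, Complex.one_im, sub_zero] at this
      linarith
    have hne : s ≠ 1 := by
      intro h
      rw [h] at hs1
      norm_num at hs1
    have hn : ‖s‖ ≤ 2516 := by
      have := Complex.norm_le_abs_re_add_abs_im s
      rw [hre, him, abs_of_nonneg h0] at this
      linarith
    have hn1 : ‖s + 1‖ ≤ 2517 := by
      have := norm_add_le s 1
      rw [norm_one] at this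
      linarith
    have h := hEM s 2600 (hre ▸ h0) hne (by norm_num)
    have a1 : ‖∑ n ∈ Icc (1 : ℕ) 2600, (n : ℂ) ^ (-s)‖ ≤
        ∑ n ∈ Icc (1 : ℕ) 2600, 1 * ((n : ℝ)⁻¹) ^ σ := by
      refine norm_sum_le_of_le _ fun n hn => ?_
      rw [Complex.norm_natCast_cpow_of_pos (mem_Icc.1 hn).1, Complex.neg_re, hre, one_mul,
        inv_rpow (Nat.cast_nonneg n), rpow_neg (Nat.cast_nonneg n)]
    have a2 : ‖(((2600 : ℕ) : ℂ) + 1 / 2) ^ (1 - s) / (s - 1)‖ ≤
        2600.5 / 2 * (2600.5 : ℝ)⁻¹ ^ σ := by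
      have e : (((2600 : ℕ) : ℂ) + 1 / 2) = ((2600.5 : ℝ) : ℂ) := by
        push_cast
        norm_num
      rw [norm_div, e, Complex.norm_cpow_eq_rpow_re_of_pos (by norm_num), Complex.sub_re,
        Complex.one_re, hre, rpow_sub (by norm_num), rpow_one, inv_rpow (by norm_num)]
      refine (div_le_div_of_nonneg_left (by positivity) two_pos hs1).trans (le_of_eq ?_)
      ring
    have a3 : ‖s‖ * ‖s + 1‖ / 24 * (((2600 : ℕ) : ℝ) - 1 / 2) ^ (-s.re - 1) / (s.re + 1) ≤
        2516 * 2517 / 24 / 2599.5 * (2599.5 : ℝ)⁻¹ ^ σ := by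
      have e : (((2600 : ℕ) : ℝ) - 1 / 2) = 2599.5 := by norm_num
      rw [e, hre, rpow_sub (by norm_num), rpow_one, inv_rpow (by norm_num), rpow_neg (by norm_num)]
      refine (div_le_self (by positivity) (by linarith)).trans ?_
      have : ‖s‖ * ‖s + 1‖ ≤ 2516 * 2517 := mul_le_mul hn hn1 (norm_nonneg _) (by norm_num)
      calc _ ≤ 2516 * 2517 / 24 * (((2599.5 : ℝ) ^ σ)⁻¹ / 2599.5) := by gcongr
        _ = _ := by ring
    have a4 := norm_add_le_of_le (norm_add_le_of_le a1 a2) (h.trans a3)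
    rwa [show ∀ z u v : ℂ, u + v + (z - u - v) = z from fun _ _ _ => by ring] at a4
  · simp only [rpow_zero, mul_one, sum_const, Nat.card_Icc, nsmul_eq_mul]
    norm_num
  · simp only [rpow_one, one_mul]
    have h1 := harmonic_le_one_add_log 2600
    rw [harmonic_eq_sum_Icc] at h1
    push_cast at h1
    have h3 : log 2600 ≤ 8 := by
      rw [log_le_iff_le_exp (by norm_num)]
      have := xZ2_e 8
      norm_num at this ⊢
      linarith
    norm_num at h1 ⊢
    linarith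

theorem xZ2_G (hZ2a : StZ2a) (hEM : StEM) {L t : ℝ} (hL : 17 ≤ L) (h2 : 2 ≤ |t|)
    (ht : |t| ≤ 2 * π * exp L) : ∃ G : ℝ → ℝ, xZ2_P G ∧
    (∀ σ : ℝ, 0 ≤ σ → σ ≤ 2 → ‖riemannZeta (σ + t * Complex.I)‖ ≤ G σ) ∧
    G 0 ≤ exp (L / 2 + log (1.132 * L + 4.45)) ∧ G (1 / 2) ≤ exp (L / 4 + log 6.7) ∧
    G 1 ≤ exp (al0 L) := by
  rw [exp_add, exp_add, al0, exp_log (by linarith), exp_log (by norm_num), exp_log (by linarith)]
  have e4 : 53 ≤ exp (L / 4) := by
    have := xZ2_e 4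
    have h : exp ((4 : ℕ) : ℝ) ≤ exp (L / 4) := exp_le_exp.2 (by push_cast; linarith)
    exact le_trans (by norm_num) (this.trans h)
  rcases le_or_gt 400 (|t| / (2 * π)) with h | h
  · obtain ⟨G, g1, g2, g3, g4, g5⟩ := hZ2a t h
    have h1 : |t| / (2 * π) ≤ exp L := by
      rw [div_le_iff₀ (by positivity)]
      linarith
    have h3 : log (|t| / (2 * π)) ≤ L := (log_le_iff_le_exp (by linarith)).2 h1
    have h4 : √(|t| / (2 * π)) ≤ exp (L / 2) := by
      rw [exp_half]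
      exact sqrt_le_sqrt h1
    have h5 : √√(|t| / (2 * π)) ≤ exp (L / 4) := by
      rw [show L / 4 = L / 2 / 2 by ring, exp_half]
      exact sqrt_le_sqrt h4
    have h6 : 0 ≤ log (|t| / (2 * π)) := log_nonneg (by linarith)
    exact ⟨G, xZ2_exp g1, g2, g3.trans (mul_le_mul h4 (by linarith) (by linarith) (exp_pos _).le),
      by linarith, by linarith⟩
  · obtain ⟨G, g1, g2, g3, g4⟩ := xZ2_small hEM h2 (by
      rw [div_lt_iff₀ (by positivity)] at h
      linarith [pi_lt_d4])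
    have e2 : exp (L / 2) = exp (L / 4) * exp (L / 4) := by
      rw [← exp_add]
      ring_nf
    refine ⟨G, g1, g2, by rw [e2]; nlinarith, ?_, by linarith⟩
    have h := xZ2_int g1 (l := 1 / 2) (A := log 4100) (B := log 10) (by norm_num) (by norm_num)
      (by rwa [exp_log (by norm_num)]) (by rwa [exp_log (by norm_num)])
    rw [show (1 - 1 / 2 : ℝ) * 0 + 1 / 2 * 1 = 1 / 2 by norm_num,
      show (1 - 1 / 2) * log 4100 + 1 / 2 * log 10 = (log 4100 + log 10) / 2 by ring, exp_half,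
      exp_add, exp_log (by norm_num), exp_log (by norm_num)] at h
    exact h.trans ((sqrt_le_iff.2 (by norm_num) : _ ≤ (203 : ℝ)).trans (by linarith))

theorem stZ2 (hZ2a : StZ2a) (hEM : StEM) : StZ2 := by
  intro L t u σ hL h2 ht hu0 hu1 hσ
  have a0 : exp (al0 L) = L / 2 + 3.1 := exp_log (by linarith)
  have a1 : 0 ≤ al1 L := by
    have : al0 L ≤ L / 4 + log 6.7 := by
      rw [← exp_le_exp, a0, exp_add, exp_log (by norm_num)]
      nlinarith [add_one_le_exp (L / 4)]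
    unfold al1
    linarith
  have a2 : 0 ≤ al2 L := by
    have h1 : log 6.7 ≤ log (1.132 * L + 4.45) := log_le_log (by norm_num) (by linarith)
    have h3 : log 6.7 ≤ al0 L := log_le_log (by norm_num) (by linarith)
    unfold al2
    linarith
  have b1 := mul_nonneg a1 hu0
  have b2 := mul_nonneg a2 (sq_nonneg u)
  rcases le_total σ 2 with hs | hs
  · obtain ⟨G, g1, g2, g3, g4, g5⟩ := xZ2_G hZ2a hEM hL h2 ht
    refine (g2 σ (by linarith) hs).trans ((g1.1 hσ).trans ?_)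
    rcases le_total u (1 / 2) with h | h
    · have k := xZ2_int g1 (l := 2 * u) (by linarith) (by linarith) g5 g4
      rw [show (1 - 2 * u) * 1 + 2 * u * (1 / 2) = 1 - u by ring] at k
      refine k.trans (exp_le_exp.2 ?_)
      unfold al1
      linarith
    · have k := xZ2_int g1 (l := 2 * u - 1) (by linarith) (by linarith) g4 g3
      rw [show (1 - (2 * u - 1)) * (1 / 2) + (2 * u - 1) * 0 = 1 - u by ring] at k
      refine k.trans (exp_le_exp.2 ?_)
      have b3 := mul_nonneg a2 (sq_nonneg (1 - u))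
      unfold al1 al2
      unfold al2 at b3
      linarith
  · refine (xZ2_two (by simpa using hs)).trans (le_trans ?_ (exp_le_exp.2
      (show al0 L ≤ _ by linarith)))
    linarith

end Pool.Agent.MP_88bd62_nt.U
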