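import Pool.Agent.MP_88bd62_nt.U.Z2ab

namespace Pool.Agent.MP_88bd62_nt.U

open Finset Real

noncomputable section

theorem xZ2a_term (σ t : ℝ) {n : ℕ} (hn : 1 ≤ n) :
    (n : ℂ) ^ (-(σ + t * Complex.I)) =
      (((n : ℝ) ^ (-σ) : ℝ) : ℂ) * ex (-t / (2 * π) * log n) := by
  have h0 : (0 : ℝ) < n := by exact_mod_cast hn
  have h1 : (n : ℂ) ≠ 0 := by exact_mod_cast h0.ne'
  rw [Complex.cpow_def_of_ne_zero h1, rpow_def_of_pos h0, Complex.ofReal_exp, ex,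
    ← Complex.exp_add, ← Complex.natCast_log]
  congr 1
  have h2 : 2 * π * (-t / (2 * π) * log n) = -t * log n := by field_simp
  rw [h2]
  push_cast
  ring

theorem xZ2a_norm (σ t : ℝ) (S : Finset ℕ) (hS : ∀ n ∈ S, 1 ≤ n) :
    ‖∑ n ∈ S, (n : ℂ) ^ (-(σ + t * Complex.I))‖ =
      ‖∑ n ∈ S, (((n : ℝ) ^ (-σ) : ℝ) : ℂ) * ex (|t| / (2 * π) * log n)‖ := by
  rw [Finset.sum_congr rfl fun n hn => xZ2a_term σ t (hS n hn)]
  rcases le_total 0 t with h | h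
  · rw [abs_of_nonneg h, ← Complex.norm_conj, map_sum]
    congr 1
    refine Finset.sum_congr rfl fun n _ => ?_
    rw [map_mul, Complex.conj_ofReal, ex, ex, ← Complex.exp_conj, map_mul, Complex.conj_ofReal,
      Complex.conj_I]
    congr 2
    push_cast
    ring
  · rw [abs_of_nonpos h]

theorem xZ2a_d {n : ℕ} (hn : 1 ≤ n) (τ : ℝ) :
    τ * log ((n + 1 : ℕ) : ℝ) - τ * log n = τ * log (1 + 1 / n) := by
  have h0 : (0 : ℝ) < n := by exact_mod_cast hn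
  rw [← mul_sub, ← log_div (by positivity) h0.ne']
  congr 2
  push_cast
  field_simp

theorem xZ2a_KL (hKL : StKL) {τ σ : ℝ} (hτ : 400 ≤ τ) (hσ : 0 ≤ σ) {A B : ℕ} (hA : τ - 2 ≤ A)
    (h : τ * log (1 + 1 / A) ≤ 1 - 1 / √(π * τ)) :
    ‖∑ n ∈ Ico A (B + 1), (((n : ℝ) ^ (-σ) : ℝ) : ℂ) * ex (τ * log n)‖ ≤
      (1 / (π * (τ / (B + 1))) + 1 / (π * (1 / √(π * τ)))) * (τ - 2)⁻¹ ^ σ := by
  have hA0 : (1 : ℝ) ≤ A := by linarith
  have hA1 : 1 ≤ A := by exact_mod_cast hA0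
  have hτ0 : 0 < τ := by linarith
  have h1 := hKL (fun n => τ * log n) (fun n => (n : ℝ) ^ (-σ)) A (B + 1) 0 (τ / (B + 1))
    (1 / √(π * τ)) (by positivity) (by positivity) (fun n h1 h2 => ?_) (fun n h1 _ => ?_)
    fun n h1 => ?_
  · refine h1.trans ?_
    rw [mul_comm, inv_rpow (by linarith), ← rpow_neg (by linarith)]
    exact mul_le_mul_of_nonneg_left (rpow_le_rpow_of_nonpos (by linarith) hA (by linarith))
      (by positivity)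
  · have h3 : (A : ℝ) ≤ n := by exact_mod_cast h1
    have h4 : (n : ℝ) ≤ B := by exact_mod_cast (by omega : n ≤ B)
    have h5 : (0 : ℝ) < n := by linarith
    rw [xZ2a_d (hA1.trans h1), Int.cast_zero, zero_add, zero_add]
    constructor
    · have h6 := one_sub_inv_le_log_of_pos (x := 1 + 1 / (n : ℝ)) (by positivity)
      have h7 : 1 - (1 + 1 / (n : ℝ))⁻¹ = ((n : ℝ) + 1)⁻¹ := by
        field_simp
        ring
      have h8 : ((B : ℝ) + 1)⁻¹ ≤ ((n : ℝ) + 1)⁻¹ := by gcongr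
      rw [div_eq_mul_inv]
      gcongr
      linarith
    · refine le_trans ?_ h
      gcongr
  · have h3 : (A : ℝ) ≤ n := by exact_mod_cast h1
    have h5 : (0 : ℝ) < n := by linarith
    rw [xZ2a_d (n := n + 1) (by omega), xZ2a_d (hA1.trans h1)]
    gcongr
    omega
  · have h3 : (A : ℝ) ≤ n := by exact_mod_cast h1
    refine ⟨by positivity, rpow_le_rpow_of_nonpos (by linarith) ?_ (by linarith)⟩
    push_cast
    linarith

theorem xZ2a_EM (hEM : StEM) {σ t y : ℝ} (hσ : 0 ≤ σ) (hσ2 : σ ≤ 2) (ht : t ≠ 0) {B : ℕ}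
    (hy : 0 < y) (hB : y + 1 ≤ B) :
    ‖riemannZeta (σ + t * Complex.I) - ∑ n ∈ Icc 1 B, (n : ℂ) ^ (-(σ + t * Complex.I))‖ ≤
      ((B + 1 / 2) / |t| + (|t| + 2) * (|t| + 3) / 24 / (B - 1 / 2)) * y⁻¹ ^ σ := by
  set s : ℂ := σ + t * Complex.I with hs
  have hre : s.re = σ := by simp [hs]
  have him : s.im = t := by simp [hs]
  have ht0 : 0 < |t| := abs_pos.2 ht
  have h1 := hEM s B (by rwa [hre]) (fun e => ht (by rw [← him, e, Complex.one_im]))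
    (by exact_mod_cast (by linarith : (1 : ℝ) ≤ B))
  rw [hre] at h1
  have hB0 : (0 : ℝ) < B - 1 / 2 := by linarith
  have hB1 : (0 : ℝ) < B + 1 / 2 := by linarith
  have h2 : ∀ x : ℝ, y ≤ x → x ^ (-σ) ≤ y⁻¹ ^ σ := fun x hx => by
    rw [inv_rpow hy.le, ← rpow_neg hy.le]
    exact rpow_le_rpow_of_nonpos hy hx (by linarith)
  have h3 : ‖((B : ℂ) + 1 / 2) ^ (1 - s) / (s - 1)‖ ≤ (B + 1 / 2) / |t| * y⁻¹ ^ σ := by
    have e : (B : ℂ) + 1 / 2 = ((B + 1 / 2 : ℝ) : ℂ) := by push_cast; rfl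
    rw [norm_div, e, Complex.norm_cpow_eq_rpow_re_of_pos hB1, Complex.sub_re, Complex.one_re, hre,
      sub_eq_add_neg, rpow_add hB1, rpow_one, div_mul_eq_mul_div]
    have h4 := Complex.abs_im_le_norm (s - 1)
    rw [Complex.sub_im, Complex.one_im, sub_zero, him] at h4
    have h5 := h2 (B + 1 / 2) (by linarith)
    gcongr
  have h4 : ‖s‖ ≤ |t| + 2 := by
    have := Complex.norm_le_abs_re_add_abs_im s
    rw [hre, him, abs_of_nonneg hσ] at this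
    linarith
  have h5 : ‖s + 1‖ ≤ |t| + 3 := by
    have := norm_add_le s 1
    rw [norm_one] at this
    linarith
  have h6 : ‖s‖ * ‖s + 1‖ / 24 * ((B : ℝ) - 1 / 2) ^ (-σ - 1) / (σ + 1) ≤
      (|t| + 2) * (|t| + 3) / 24 / (B - 1 / 2) * y⁻¹ ^ σ := by
    refine (div_le_self (by positivity) (by linarith)).trans ?_
    rw [rpow_sub_one hB0.ne', div_mul_eq_mul_div _ (B - 1 / 2 : ℝ), mul_div_assoc _ (y⁻¹ ^ σ)]
    have h7 := h2 (B - 1 / 2) (by linarith)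
    gcongr
  have h7 := norm_add_le (riemannZeta s - ∑ n ∈ Icc 1 B, (n : ℂ) ^ (-s) -
    ((B : ℂ) + 1 / 2) ^ (1 - s) / (s - 1)) (((B : ℂ) + 1 / 2) ^ (1 - s) / (s - 1))
  rw [sub_add_cancel] at h7
  rw [add_mul]
  linarith

theorem xZ2a_bound (hBlock : StBlock) (hKL : StKL) (hEM : StEM) {r t σ : ℝ} {A : ℕ} (hr : 20 ≤ r)
    (ht : |t| / (2 * π) = r ^ 2) (hA : 2 * r ≤ A) (hA' : (A : ℝ) < 2 * r + 1) (hσ : 0 ≤ σ)
    (hσ2 : σ ≤ 2) :
    ‖riemannZeta (σ + t * Complex.I)‖ ≤ xZ2a_G r A ⌊1.04 * r ^ 2 / A⌋₊ σ := by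
  have hr0 : 0 < r := by linarith
  have hτ : 400 ≤ r ^ 2 := by nlinarith
  have hT : |t| = 2 * π * r ^ 2 := by rw [← ht]; field_simp
  have ht0 : t ≠ 0 := abs_pos.1 (by rw [hT]; positivity)
  have hA1 : 1 ≤ A := by exact_mod_cast (by linarith : (1 : ℝ) ≤ A)
  obtain ⟨A₀, h1, h2, h3, h4, h5⟩ := hBlock (r ^ 2) 0 A (fun x => x ^ (-σ)) hτ le_rfl zero_le_one
    (by rwa [sqrt_sq hr0.le]) (fun x hx y hy hxy => rpow_le_rpow_of_nonpos
      (zero_lt_one.trans_le hx) hxy (by linarith)) fun x hx => by positivity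
  simp only [add_zero] at h4 h5
  set B := ⌈2 * r ^ 3⌉₊
  have hB : 2 * r ^ 3 ≤ B := Nat.le_ceil _
  have hB' : (B : ℝ) < 2 * r ^ 3 + 1 := Nat.ceil_lt_add_one (by positivity)
  have hr3 : 20 * r ^ 2 ≤ r ^ 3 := by nlinarith
  have h6 : A₀ ≤ B + 1 := by
    have : (A₀ : ℝ) ≤ B + 1 := by
      rcases h3 with e | e
      · rw [e]; nlinarith
      · linarith
    exact_mod_cast this
  have h7 := xZ2a_KL hKL hτ hσ (B := B) h2 h4
  have h8 := xZ2a_EM hEM hσ hσ2 ht0 (y := r ^ 2 - 2) (B := B) (by linarith) (by linarith)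
  have h9 := xZ2a_K hr hB hB' hT
  rw [← ht, ← xZ2a_norm σ t _ fun n hn => hA1.trans (h1.trans (mem_Ico.1 hn).1), ht] at h7
  rw [← ht, ← xZ2a_norm σ t _ fun n hn => hA1.trans (mem_Ico.1 hn).1, ht] at h5
  have e1 : ∑ n ∈ Icc 1 B, (n : ℂ) ^ (-(σ + t * Complex.I)) =
      ∑ n ∈ Ico 1 A, (n : ℂ) ^ (-(σ + t * Complex.I)) +
        ∑ n ∈ Ico A A₀, (n : ℂ) ^ (-(σ + t * Complex.I)) +
        ∑ n ∈ Ico A₀ (B + 1), (n : ℂ) ^ (-(σ + t * Complex.I)) := by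
    rw [Finset.sum_Ico_consecutive _ hA1 h1, Finset.sum_Ico_consecutive _ (hA1.trans h1) h6]
    rfl
  have e2 : ‖∑ n ∈ Ico 1 A, (n : ℂ) ^ (-(σ + t * Complex.I))‖ ≤
      ∑ n ∈ Ico 1 A, 1 * (n : ℝ)⁻¹ ^ σ := by
    refine (norm_sum_le _ _).trans (le_of_eq (Finset.sum_congr rfl fun n hn => ?_))
    rw [Complex.norm_natCast_cpow_of_pos (mem_Ico.1 hn).1, one_mul, inv_rpow (by positivity),
      ← rpow_neg (by positivity)]
    simp
  have e3 : ∑ ν ∈ Icc 1 ⌊1.04 * r ^ 2 / A⌋₊,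
      blk (r ^ 2) ν * max (A : ℝ) (r ^ 2 / (ν + 1) - 1) ^ (-σ) = ∑ ν ∈ Icc 1 ⌊1.04 * r ^ 2 / A⌋₊,
      blk (r ^ 2) ν * (max (A : ℝ) (r ^ 2 / (ν + 1) - 1))⁻¹ ^ σ := by
    refine Finset.sum_congr rfl fun ν _ => ?_
    rw [inv_rpow (by positivity), ← rpow_neg (by positivity)]
  have e4 := mul_le_mul_of_nonneg_right h9
    (rpow_nonneg (inv_nonneg.2 (by linarith : 0 ≤ r ^ 2 - 2)) σ)
  have e5 := norm_add_le (riemannZeta (σ + t * Complex.I) -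
    ∑ n ∈ Icc 1 B, (n : ℂ) ^ (-(σ + t * Complex.I)))
    (∑ n ∈ Icc 1 B, (n : ℂ) ^ (-(σ + t * Complex.I)))
  rw [sub_add_cancel] at e5
  have e6 := e1 ▸ norm_add₃_le (a := ∑ n ∈ Ico 1 A, (n : ℂ) ^ (-(σ + t * Complex.I)))
    (b := ∑ n ∈ Ico A A₀, (n : ℂ) ^ (-(σ + t * Complex.I)))
    (c := ∑ n ∈ Ico A₀ (B + 1), (n : ℂ) ^ (-(σ + t * Complex.I)))
  unfold xZ2a_G
  rw [e3] at h5
  linarith

theorem stZ2a (hBlock : StBlock) (hKL : StKL) (hEM : StEM) : StZ2a := by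
  intro t ht
  set r := √(|t| / (2 * π))
  have hr : 20 ≤ r := le_sqrt_of_sq_le (by linarith)
  have hr2 : |t| / (2 * π) = r ^ 2 := (sq_sqrt (by linarith)).symm
  set A := ⌈2 * r⌉₊
  have hA : 2 * r ≤ A := Nat.le_ceil _
  have hA' : (A : ℝ) < 2 * r + 1 := Nat.ceil_lt_add_one (by linarith)
  have hA0 : (0 : ℝ) < A := by linarith
  have h1 : 10 ≤ ⌊1.04 * r ^ 2 / A⌋₊ := by
    refine Nat.le_floor ?_
    rw [le_div_iff₀ hA0]
    push_cast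
    nlinarith
  have h2 : (⌊1.04 * r ^ 2 / A⌋₊ : ℝ) ≤ 0.52 * r := by
    refine (Nat.floor_le (by positivity)).trans ?_
    rw [div_le_iff₀ hA0]
    nlinarith
  refine ⟨xZ2a_G r A ⌊1.04 * r ^ 2 / A⌋₊, xZ2a_exp hr hA,
    fun σ h3 h4 => xZ2a_bound hBlock hKL hEM hr hr2 hA hA' h3 h4, ?_, xZ2a_Gh hr hA hA' h2, ?_⟩
  · rw [hr2]
    exact xZ2a_G0 hr hA hA' h1 h2
  · rw [hr2]
    exact xZ2a_G1 hr hA hA' h1 h2

end

end Pool.Agent.MP_88bd62_nt.U
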