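import Pool.Agent.MP_88bd62_nt.U.Stmts

namespace Pool.Agent.MP_88bd62_nt.U

open Real

theorem xZC_log {t : ℝ} (ht : 4 ≤ |t|) : 1 ≤ log (|t| + 3) := by
  rw [le_log_iff_exp_le (by linarith)]
  linarith [exp_one_lt_d9]

theorem xZC_upper (hZ2 : StZ2) {t : ℝ} (ht : 4 ≤ |t|) {z : ℂ}
    (h1 : 1 - 1 / (19 * log (|t| + 3)) ≤ z.re) (h2 : 2 ≤ |z.im|) (h3 : |z.im| ≤ 2 * |t| + 1) :
    ‖riemannZeta z‖ ≤ 13 * exp 3 * log (|t| + 3) := by
  have hl := xZC_log ht
  have he : exp (log (|t| + 3)) = |t| + 3 := exp_log (by linarith)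
  generalize log (|t| + 3) = l at *
  have hL : (19 : ℝ) ≤ 19 * l := by linarith
  have h4 : |z.im| ≤ 2 * π * exp (19 * l) := by
    have a1 : exp l ≤ exp (19 * l) := exp_le_exp.2 (by linarith)
    have a2 := pi_gt_three
    have a3 := abs_nonneg t
    nlinarith
  have h5 := hZ2 (19 * l) z.im (1 / (19 * l)) z.re (by linarith) h2 h4 (by positivity)
    ((div_le_one (by linarith)).2 (by linarith)) h1
  rw [Complex.re_add_im] at h5
  refine h5.trans ?_
  generalize hLL : 19 * l = L at *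
  have b0 : 0 ≤ al0 L := log_nonneg (by linarith)
  have b1 : al0 L ≤ L / 2 + 3.1 - 1 := log_le_sub_one_of_pos (by linarith)
  have b2 : log 6.7 ≤ 6.7 - 1 := log_le_sub_one_of_pos (by norm_num)
  have b3 : 0 ≤ log 6.7 := log_nonneg (by norm_num)
  have b4 : log (1.132 * L + 4.45) ≤ 1.132 * L + 4.45 - 1 := log_le_sub_one_of_pos (by linarith)
  have c1 : al1 L * (1 / L) ≤ 2 := by
    rw [mul_one_div, div_le_iff₀ (by linarith), al1]
    linarith
  have c2 : al2 L * (1 / L) ^ 2 ≤ 1 := by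
    rw [one_div, inv_pow, ← div_eq_mul_inv, div_le_one (by positivity), al2]
    nlinarith
  have c3 : exp (al0 L) = L / 2 + 3.1 := exp_log (by linarith)
  calc exp (al0 L + al1 L * (1 / L) + al2 L * (1 / L) ^ 2) ≤ exp (al0 L + 3) :=
        exp_le_exp.2 (by linarith)
    _ = (L / 2 + 3.1) * exp 3 := by rw [exp_add, c3]
    _ ≤ (13 * l) * exp 3 := mul_le_mul_of_nonneg_right (by linarith) (exp_pos 3).le
    _ = 13 * exp 3 * l := by ring

theorem xZC_diff {z : ℂ} (h : z.im ≠ 0) : DifferentiableAt ℂ riemannZeta z :=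
  differentiableAt_riemannZeta fun e => h (by simp [e])

theorem xZC_deriv (hZ2 : StZ2) {t : ℝ} (ht : 4 ≤ |t|) {z : ℂ}
    (h1 : 1 - 1 / (38 * log (|t| + 3)) ≤ z.re) (h2 : |z.im - t| ≤ 1) :
    ‖deriv riemannZeta z‖ ≤ 494 * exp 3 * log (|t| + 3) ^ 2 := by
  have hl := xZC_log ht
  have hu := fun w => xZC_upper hZ2 ht (z := w)
  generalize log (|t| + 3) = l at *
  have hr : 0 < 1 / (38 * l) := by positivity
  have hr1 : 1 / (38 * l) ≤ 1 := (div_le_one (by positivity)).2 (by linarith)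
  have hr2 : 1 / (19 * l) = 2 * (1 / (38 * l)) := by field_simp; norm_num
  have key : ∀ w ∈ Metric.closedBall z (1 / (38 * l)),
      1 - 1 / (19 * l) ≤ w.re ∧ 2 ≤ |w.im| ∧ |w.im| ≤ 2 * |t| + 1 := by
    intro w hw
    rw [Metric.mem_closedBall, dist_eq_norm] at hw
    have a1 := (Complex.abs_re_le_norm _).trans hw
    have a2 := (Complex.abs_im_le_norm _).trans hw
    rw [Complex.sub_re] at a1
    rw [Complex.sub_im] at a2
    have a3 : |w.im - t| ≤ 2 := (abs_sub_le w.im z.im t).trans (by linarith)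
    have a4 := abs_sub_abs_le_abs_sub w.im t
    have a5 := abs_sub_abs_le_abs_sub t w.im
    rw [abs_sub_comm] at a5
    exact ⟨by linarith [(abs_le.1 a1).1], by linarith, by linarith⟩
  have hd : DiffContOnCl ℂ riemannZeta (Metric.ball z (1 / (38 * l))) := by
    refine DifferentiableOn.diffContOnCl fun w hw => (xZC_diff fun e => ?_).differentiableWithinAt
    have := (key w (Metric.closure_ball_subset_closedBall hw)).2.1
    rw [e, abs_zero] at this
    linarith
  have := Complex.norm_deriv_le_of_forall_mem_sphere_norm_le hr hd fun w hw =>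
    hu w (key w (Metric.sphere_subset_closedBall hw)).1 (key w (Metric.sphere_subset_closedBall hw)).2.1
      (key w (Metric.sphere_subset_closedBall hw)).2.2
  refine this.trans (le_of_eq ?_)
  field_simp
  norm_num

theorem xZC_real {x : ℝ} (hx : 0 < x) : ‖riemannZeta (1 + x)‖ ≤ 1 + 1 / x := by
  have hs : (1 : ℝ) < 1 + x := by linarith
  have h1 := ZetaAsymptotics.zeta_limit_aux1 hs
  have h2 : 0 ≤ ZetaAsymptotics.termTSum (1 + x) := tsum_nonneg fun n => ZetaAsymptotics.term_nonneg _ _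
  have h3 : riemannZeta (1 + x) = ((∑' n : ℕ, 1 / (n + 1 : ℝ) ^ (1 + x) : ℝ) : ℂ) := by
    rw [zeta_eq_tsum_one_div_nat_add_one_cpow (by simpa using hx), Complex.ofReal_tsum]
    congr 1 with n
    rw [Complex.ofReal_div, Complex.ofReal_cpow (by positivity)]
    push_cast
    rfl
  rw [h3, Complex.norm_real, Real.norm_of_nonneg (tsum_nonneg fun n => by positivity)]
  rw [add_sub_cancel_left] at h1
  nlinarith

theorem xZC_lower (hZ2 : StZ2) {t x : ℝ} (ht : 4 ≤ |t|) (hx : 0 < x) (hx1 : x ≤ 1) :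
    x ^ 3 ≤ 104 * exp 3 * log (|t| + 3) * ‖riemannZeta (1 + x + t * Complex.I)‖ ^ 4 := by
  have hl := xZC_log ht
  have h := DirichletCharacter.norm_LFunction_product_ge_one (1 : DirichletCharacter ℂ 1) hx t
  simp only [DirichletCharacter.LFunction_modOne_eq, norm_mul, norm_pow] at h
  have h1 := xZC_real hx
  have h2 : ‖riemannZeta (1 + x + 2 * Complex.I * t)‖ ≤ 13 * exp 3 * log (|t| + 3) := by
    have e : (1 + x + 2 * Complex.I * t : ℂ).im = 2 * t := by simp
    have e' : |2 * t| = 2 * |t| := by rw [abs_mul, abs_two]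
    refine xZC_upper hZ2 ht ?_ (by rw [e, e']; linarith) (by rw [e, e']; linarith)
    have : 0 < 1 / (19 * log (|t| + 3)) := by positivity
    simp only [Complex.add_re, Complex.one_re, Complex.ofReal_re, Complex.mul_re, Complex.re_ofNat,
      Complex.I_re, Complex.im_ofNat, Complex.I_im, Complex.ofReal_im, Complex.mul_im]
    linarith
  rw [mul_comm Complex.I] at h
  have h3 : x * ‖riemannZeta (1 + x)‖ ≤ 2 := by
    have := mul_le_mul_of_nonneg_left h1 hx.le
    rw [mul_add, mul_one_div_cancel hx.ne'] at this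
    linarith
  have h4 : (x * ‖riemannZeta (1 + x)‖) ^ 3 ≤ 2 ^ 3 := pow_le_pow_left₀ (by positivity) h3 3
  generalize ‖riemannZeta (1 + x)‖ = A at *
  generalize ‖riemannZeta (1 + x + t * Complex.I)‖ = B at *
  have hD := norm_nonneg (riemannZeta (1 + x + 2 * Complex.I * t))
  generalize ‖riemannZeta (1 + x + 2 * Complex.I * t)‖ = D at *
  calc x ^ 3 = x ^ 3 * 1 := (mul_one _).symm
    _ ≤ x ^ 3 * (A ^ 3 * B ^ 4 * D) := mul_le_mul_of_nonneg_left h (by positivity)
    _ = (x * A) ^ 3 * D * B ^ 4 := by ring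
    _ ≤ 2 ^ 3 * (13 * exp 3 * log (|t| + 3)) * B ^ 4 := by gcongr
    _ = _ := by ring

theorem stZC (hZ2 : StZ2) : StZC := by
  obtain ⟨B, hB⟩ : ∃ B : ℝ, B = 104 * exp 3 := ⟨_, rfl⟩
  have he : 1 ≤ exp 3 := one_le_exp (by norm_num)
  have hB1 : 104 ≤ B := by linarith
  obtain ⟨a, ha⟩ : ∃ a : ℝ, a = 1 / (20 * B ^ 2) := ⟨_, rfl⟩
  have ha0 : 0 < a := by rw [ha]; positivity
  have ha1 : a * (20 * B ^ 2) = 1 := by rw [ha]; field_simp
  have ha2 : a ≤ 1 / 40 := by
    rw [ha]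
    exact one_div_le_one_div_of_le (by norm_num) (by nlinarith)
  have ha3 : a ^ 4 ≤ 1 / 40 := (pow_le_of_le_one ha0.le (by linarith) (by norm_num)).trans ha2
  refine ⟨a ^ 4, 2 * B / a ^ 3, by positivity, fun σ t s h1 h2 ht hs => ?_⟩
  have hl := xZC_log ht
  have hd := fun w => xZC_deriv hZ2 ht (z := w)
  have hlow := fun x => xZC_lower hZ2 ht (x := x)
  generalize log (|t| + 3) = l at *
  rw [← hB] at hlow
  obtain ⟨x₀, hx₀⟩ : ∃ x₀ : ℝ, x₀ = a ^ 4 / l ^ 9 := ⟨_, rfl⟩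
  have hr1 : 1 / (38 * l) ≤ 1 := (div_le_one (by positivity)).2 (by linarith)
  have p0 : 0 < x₀ := by rw [hx₀]; positivity
  have p1 : x₀ < 1 / (38 * l) := by
    rw [hx₀, div_lt_div_iff₀ (by positivity) (by positivity)]
    have : l ≤ l ^ 9 := le_self_pow₀ hl (by norm_num)
    nlinarith
  rw [← hx₀] at hs
  obtain ⟨x, hx⟩ : ∃ x : ℝ, x = max (σ - 1) x₀ := ⟨_, rfl⟩
  have q0 : x₀ ≤ x := hx ▸ le_max_right _ _
  have q1 : x ≤ 1 := hx ▸ max_le (by linarith) (by linarith)
  have q2 : |1 + x - σ| ≤ x₀ := by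
    rw [hx, abs_le]
    rcases le_total (σ - 1) x₀ with h | h
    · rw [max_eq_right h]; constructor <;> linarith
    · rw [max_eq_left h]; constructor <;> linarith
  have q3 : ‖(1 + x + t * Complex.I : ℂ) - (σ + t * Complex.I)‖ ≤ x₀ := by
    have : (1 + x + t * Complex.I : ℂ) - (σ + t * Complex.I) = ((1 + x - σ : ℝ) : ℂ) := by
      push_cast; ring
    rwa [this, Complex.norm_real]
  have key : ∀ w ∈ Metric.ball (σ + t * Complex.I : ℂ) (1 / (38 * l)),
      1 - 1 / (38 * l) ≤ w.re ∧ |w.im - t| ≤ 1 := by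
    intro w hw
    rw [Metric.mem_ball, dist_eq_norm] at hw
    have a1 := (Complex.abs_re_le_norm _).trans hw.le
    have a2 := (Complex.abs_im_le_norm _).trans hw.le
    simp only [Complex.sub_re, Complex.sub_im, Complex.add_re, Complex.add_im, Complex.mul_re,
      Complex.mul_im, Complex.ofReal_re, Complex.ofReal_im, Complex.I_re, Complex.I_im, mul_zero,
      mul_one, sub_zero, add_zero, zero_add] at a1 a2
    exact ⟨by linarith [(abs_le.1 a1).1], a2.trans hr1⟩
  have mv := (convex_ball (σ + t * Complex.I : ℂ) (1 / (38 * l))).norm_image_sub_le_of_norm_deriv_le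
    (𝕜 := ℂ) (f := riemannZeta) (C := 494 * exp 3 * l ^ 2) (x := 1 + x + t * Complex.I) (y := s)
    (fun w hw => xZC_diff fun e => by
      have := (key w hw).2
      rw [e, zero_sub, abs_neg] at this
      linarith)
    (fun w hw => hd w (key w hw).1 (key w hw).2)
    (by rw [Metric.mem_ball, dist_eq_norm]; linarith)
    (by rw [Metric.mem_ball, dist_eq_norm]; linarith)
  have q4 : ‖s - (1 + x + t * Complex.I)‖ ≤ 2 * x₀ := by
    have := norm_sub_le_norm_sub_add_norm_sub s (σ + t * Complex.I) (1 + x + t * Complex.I)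
    rw [norm_sub_rev (σ + t * Complex.I : ℂ)] at this
    linarith
  have r1 : a ^ 3 / (B * l ^ 7) ≤ ‖riemannZeta (1 + x + t * Complex.I)‖ := by
    refine le_of_pow_le_pow_left₀ (n := 4) (by norm_num) (norm_nonneg _) ?_
    have b1 := hlow x (by linarith) q1
    have b2 : x₀ ^ 3 ≤ x ^ 3 := pow_le_pow_left₀ p0.le q0 3
    have b3 : B ≤ B ^ 4 := le_self_pow₀ (by linarith) (by norm_num)
    have b4 : (a ^ 3 / (B * l ^ 7)) ^ 4 = x₀ ^ 3 / (B ^ 4 * l) := by
      rw [hx₀]; field_simp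
    rw [b4, div_le_iff₀ (by positivity)]
    calc x₀ ^ 3 ≤ B * l * ‖riemannZeta (1 + x + t * Complex.I)‖ ^ 4 := b2.trans b1
      _ ≤ B ^ 4 * l * ‖riemannZeta (1 + x + t * Complex.I)‖ ^ 4 := by gcongr
      _ = _ := by ring
  have r2 : 494 * exp 3 * l ^ 2 * (2 * x₀) ≤ a ^ 3 / (2 * B * l ^ 7) := by
    have b1 : 494 * exp 3 * l ^ 2 * (2 * x₀) = a ^ 3 / (2 * B * l ^ 7) * (a * (19 * B ^ 2)) := by
      rw [hx₀, show exp 3 = B / 104 by linarith]; field_simp; norm_num
    rw [b1]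
    refine mul_le_of_le_one_right (by positivity) ?_
    nlinarith [mul_pos ha0 (pow_pos (show 0 < B by linarith) 2)]
  have r3 : a ^ 3 / (2 * B * l ^ 7) ≤ ‖riemannZeta s‖ := by
    have b1 : a ^ 3 / (B * l ^ 7) = 2 * (a ^ 3 / (2 * B * l ^ 7)) := by field_simp
    have b2 := norm_sub_norm_le (riemannZeta (1 + x + t * Complex.I)) (riemannZeta s)
    rw [norm_sub_rev] at b2
    have b3 := mul_le_mul_of_nonneg_left q4 (show 0 ≤ 494 * exp 3 * l ^ 2 by positivity)
    linarith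
  have r4 : 0 < a ^ 3 / (2 * B * l ^ 7) := by positivity
  refine ⟨norm_pos_iff.1 (r4.trans_le r3), ?_⟩
  rw [norm_inv]
  refine (inv_anti₀ r4 r3).trans (le_of_eq ?_)
  field_simp

end Pool.Agent.MP_88bd62_nt.U
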