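import Pool.Agent.MP_88bd62_nt.U.KL
import Pool.Agent.MP_88bd62_nt.U.Block
import Pool.Agent.MP_88bd62_nt.U.EM
import Pool.Agent.MP_88bd62_nt.U.Z2a
import Pool.Agent.MP_88bd62_nt.U.Z2
import Pool.Agent.MP_88bd62_nt.U.ZC
import Pool.Agent.MP_88bd62_nt.U.FA
import Pool.Agent.MP_88bd62_nt.U.Fo
import Pool.Agent.MP_88bd62_nt.U.Smooth
import Pool.Agent.MP_88bd62_nt.U.SI
import Pool.Agent.MP_88bd62_nt.U.TB
import Pool.Agent.MP_88bd62_nt.U.Tau
import Pool.Agent.MP_88bd62_nt.U.Tau1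
import Pool.Agent.MP_88bd62_nt.U.Tau2
import Pool.Agent.MP_88bd62_nt.U.Tau3
import Pool.Agent.MP_88bd62_nt.U.LP

/-! The limit function of `S x / x` and the exact value of the limit superior. -/

namespace Pool.Agent.MP_88bd62_nt.U.Exact

open Finset Real Filter Topology MeasureTheory
open ArithmeticFunction (cardFactors)

theorem eZ2 : StZ2 := stZ2 (stZ2a (stBlock stKL) stKL stEM) stEM
theorem eTB : StTB := stTB (stSmooth (stFA (stZC eZ2) eZ2) stFo) stSI

theorem exists_lim : ∃ L : ℝ → ℝ,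
    (∀ u, Tendsto (fun y : ℝ => Phi (ax y) u) atTop (𝓝 (L u))) ∧
    ∀ ε : ℝ, 0 < ε → ∀ᶠ y : ℝ in atTop, ∀ u, |Phi (ax y) u - L u| ≤ ε := by
  have h2 := stTau2 eTB
  have hc : ∀ u, ∃ l, Tendsto (fun y : ℝ => Phi (ax y) u) atTop (𝓝 l) := by
    intro u
    refine cauchySeq_tendsto_of_complete (Metric.cauchySeq_iff'.2 fun ε hε => ?_)
    obtain ⟨y₀, hy⟩ := h2 (ε / 2) (by linarith)
    refine ⟨y₀, fun x hx => ?_⟩
    rw [Real.dist_eq]
    linarith [hy x y₀ u le_rfl hx]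
  choose L hL using hc
  refine ⟨L, hL, fun ε hε => ?_⟩
  obtain ⟨y₀, hy⟩ := h2 ε hε
  filter_upwards [eventually_ge_atTop y₀] with y hy0 u
  have h1 : Tendsto (fun x : ℝ => |Phi (ax y) u - Phi (ax x) u|) atTop
      (𝓝 |Phi (ax y) u - L u|) := ((hL u).const_sub _).abs
  refine le_of_tendsto h1 ((eventually_ge_atTop y).mono fun x hx => ?_)
  rw [abs_sub_comm]
  exact hy x y u hy0 hx

theorem Phi_add (a : ℕ → ℝ) (u : ℝ) : Phi a (u + 1) = -Phi a u := by
  unfold Phi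
  rw [← tsum_neg]
  refine tsum_congr fun n => ?_
  rw [show u + 1 - th n = u - th n + 1 by ring, xLP_sg_add]
  ring

theorem Phi_nat (N : ℕ) {x : ℝ} (hx : 0 < x) :
    Phi (ax N) (logb 2 x) = 2 / (3 * x) * ∑ n ∈ (Icc 1 N).filter Odd,
      (-2 : ℝ) ^ ((cardFactors n : ℤ) + ⌊logb 2 (x / n)⌋) := by
  unfold Phi
  rw [tsum_eq_sum (s := (Icc 1 N).filter Odd), mul_sum]
  · refine sum_congr rfl fun n hn => ?_
    obtain ⟨hn1, hn2⟩ := mem_filter.1 hn
    obtain ⟨h1, h2⟩ := mem_Icc.1 hn1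
    have hn0 : (0 : ℝ) < n := by exact_mod_cast h1
    have hle : (n : ℝ) ≤ N := by exact_mod_cast h2
    have e : logb 2 x - th n = logb 2 (x / n) := by
      rw [th, logb_div hx.ne' hn0.ne']
    rw [e]
    simp only [ax, fo, hle, hn2, if_true, sg]
    rw [rpow_sub (by norm_num), rpow_logb (by norm_num) (by norm_num) (by positivity),
      rpow_intCast, zpow_add₀ (by norm_num), zpow_natCast,
      show (-2 : ℝ) ^ ⌊logb 2 (x / n)⌋ = (-1) ^ ⌊logb 2 (x / n)⌋ * 2 ^ ⌊logb 2 (x / n)⌋ by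
        rw [← mul_zpow]; norm_num]
    field_simp
  · intro n hn
    by_cases h0 : n = 0
    · simp [h0]
    by_cases hle : n ≤ N
    · have : ¬ Odd n := fun h => hn (mem_filter.2 ⟨mem_Icc.2 ⟨by omega, hle⟩, h⟩)
      simp [ax, fo, this]
    · have : ¬ (n : ℝ) ≤ N := fun h => hle (by exact_mod_cast h)
      simp [ax, this]

theorem exp_Lam {s : ℂ} (hs : s.re = 1) : Complex.exp (Lam s) =
    ∏' p : Nat.Primes, if (p : ℕ) = 2 then 1 else
      ((1 + 2 * (p : ℂ) ^ (-s)) * (1 - (p : ℂ) ^ (-s)) ^ 2)⁻¹ := by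
  have h1 : HasSum (fun n => ell n s) (Lam s) := (summable_ell hs.ge).hasSum
  have h2 : HasSum (fun p : Nat.Primes => ell p s) (Lam s) := by
    refine (Function.Injective.hasSum_iff (f := fun n => ell n s) Subtype.val_injective ?_).2 h1
    intro n hn
    have : ¬ n.Prime := fun h => hn ⟨⟨n, h⟩, rfl⟩
    simp [ell, this]
  refine ((h2.cexp.congr_fun ?_).tprod_eq).symm
  intro p
  have hp := p.2
  simp only [Function.comp, ell]
  by_cases h : (p : ℕ) = 2
  · simp [h]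
  have h3 : 3 ≤ (p : ℕ) := by have := hp.two_le; omega
  have hn : ‖((p : ℕ) : ℂ) ^ (-s)‖ ≤ 1 / 3 := by
    refine (norm_cpow_le hp.ne_zero hs.ge).trans ?_
    exact one_div_le_one_div_of_le (by norm_num) (by exact_mod_cast h3)
  generalize ((p : ℕ) : ℂ) ^ (-s) = z at hn
  have a1 : 1 + 2 * z ≠ 0 := fun e => by
    have : z = -1 / 2 := by linear_combination e / 2
    rw [this] at hn
    norm_num at hn
  have a2 : 1 - z ≠ 0 := fun e => by
    have : z = 1 := by linear_combination -e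
    rw [this] at hn
    norm_num at hn
  rw [if_neg h, if_pos ⟨hp, h⟩, loc, Complex.exp_sub, Complex.exp_neg, Complex.exp_log a1,
    show (2 : ℂ) * Complex.log (1 - z) = ((2 : ℕ) : ℂ) * Complex.log (1 - z) by norm_num,
    Complex.exp_nat_mul, Complex.exp_log a2]
  field_simp

theorem mode {L : ℝ → ℝ} (hL : ∀ u, Tendsto (fun y : ℝ => Phi (ax y) u) atTop (𝓝 (L u)))
    (hU : ∀ ε : ℝ, 0 < ε → ∀ᶠ y : ℝ in atTop, ∀ u, |Phi (ax y) u - L u| ≤ ε) {k : ℤ}
    (hk : Odd k) : ∫ v in (-1 : ℝ)..1, (L v : ℂ) * ee k (-v) = 2 * (FS k * sh k) := by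
  have hm : ∀ y : ℝ, ∫ v in (-1 : ℝ)..1, (Phi (ax y) v : ℂ) * ee k (-v)
      = 2 * (Ser (ax y) k * sh k) := by
    intro y
    have h := xLP_mode (xTau_ac y) k 0
    have h' := intervalIntegral.integral_comp_neg (a := -1) (b := 1)
      (fun v : ℝ => (Phi (ax y) v : ℂ) * ee k (-v))
    simp only [neg_neg] at h'
    rw [← h']
    simp only [zero_sub] at h
    rw [show ee k 0 = 1 by simp [ee], xLP_c, if_pos hk, mul_one] at h
    rw [← h]
    exact intervalIntegral.integral_congr fun v _ => mul_comm _ _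
  obtain ⟨y₁, hy₁⟩ := eventually_atTop.1 (hU 1 one_pos)
  have hlim : Tendsto (fun y : ℝ => ∫ v in (-1 : ℝ)..1, (Phi (ax y) v : ℂ) * ee k (-v)) atTop
      (𝓝 (∫ v in (-1 : ℝ)..1, (L v : ℂ) * ee k (-v))) := by
    refine intervalIntegral.tendsto_integral_filter_of_dominated_convergence
      (fun _ => ∑' n : ℕ, |ax y₁ n| / n + 2) (Eventually.of_forall fun y => ?_) ?_
      intervalIntegrable_const (Eventually.of_forall fun v _ => ?_)
    · exact ((Complex.measurable_ofReal.comp (xLP_Phi_meas (xTau_ac y))).mul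
        ((xLP_ee_cont k).comp continuous_neg).measurable).aestronglyMeasurable
    · filter_upwards [eventually_ge_atTop y₁] with y hy
      refine Eventually.of_forall fun v _ => ?_
      rw [norm_mul, xLP_ee_norm, mul_one, Complex.norm_real]
      have a1 := abs_le.1 (hy₁ y hy v)
      have a2 := abs_le.1 (hy₁ y₁ le_rfl v)
      have a3 := abs_le.1 (xLP_Phi_le (xTau_ac y₁) v)
      exact abs_le.2 ⟨by linarith [a1.1, a2.2, a3.1], by linarith [a1.2, a2.1, a3.2]⟩
    · exact ((Complex.continuous_ofReal.tendsto _).comp (hL v)).mul_const _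
  simp only [hm] at hlim
  exact tendsto_nhds_unique hlim (((stTau3 eTB stFo k hk).mul_const _).const_mul _)

theorem main : ∃ Φ : ℝ → ℝ,
    (∀ x : ℝ, 0 < x → Tendsto (fun N : ℕ => 2 / (3 * x) * ∑ n ∈ (Icc 1 N).filter Odd,
      (-2 : ℝ) ^ ((cardFactors n : ℤ) + ⌊logb 2 (x / n)⌋)) atTop (𝓝 (Φ x))) ∧
    (∀ x : ℝ, 0 < x → Φ (2 * x) = -Φ x) ∧
    (∀ (k : ℤ) (s : ℂ), Odd k → s = 1 + (π * k / log 2 : ℝ) * Complex.I →
      ∫ v in (-1 : ℝ)..1, (Φ (2 ^ v) : ℂ) * Complex.exp (-(π * k * v : ℝ) * Complex.I) =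
        2 * (∏' p : Nat.Primes, if (p : ℕ) = 2 then 1 else
          ((1 + 2 * (p : ℂ) ^ (-s)) * (1 - (p : ℂ) ^ (-s)) ^ 2)⁻¹) /
          (((1 - (2 : ℂ) ^ (-s)) * riemannZeta s) ^ 2 * (s * (log 2 : ℝ)))) ∧
    Tendsto (fun x : ℝ => (∑ n ∈ Icc 1 ⌊x⌋₊, (-2 : ℝ) ^ cardFactors n) / x - Φ x) atTop (𝓝 0) ∧
    limsup (fun x : ℝ => ((|∑ n ∈ Icc 1 ⌊x⌋₊, (-2 : ℝ) ^ cardFactors n| / x : ℝ) : EReal)) atTop
      = ⨆ x ∈ Set.Ico (1 : ℝ) 2, ((|Φ x| : ℝ) : EReal) := by
  obtain ⟨L, hL, hU⟩ := exists_lim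
  have hadd : ∀ u, L (u + 1) = -L u := fun u =>
    tendsto_nhds_unique (hL (u + 1)) (by simpa only [Phi_add] using (hL u).neg)
  have hint : ∀ (m : ℤ) (u : ℝ), |L (u + m)| = |L u| := by
    intro m
    induction m using Int.induction_on with
    | zero => simp
    | succ n ih =>
      intro u
      rw [show u + ((n + 1 : ℤ) : ℝ) = u + ((n : ℤ) : ℝ) + 1 by push_cast; ring, hadd, abs_neg, ih]
    | pred n ih =>
      intro u
      rw [← ih u, show u + ((-n : ℤ) : ℝ) = u + ((-n - 1 : ℤ) : ℝ) + 1 by push_cast; ring, hadd,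
        abs_neg]
  have hS : Tendsto (fun x : ℝ => (∑ n ∈ Icc 1 ⌊x⌋₊, (-2 : ℝ) ^ cardFactors n) / x
      - L (logb 2 x)) atTop (𝓝 0) := by
    refine Metric.tendsto_nhds.2 fun ε hε => ?_
    filter_upwards [eventually_ge_atTop 1, xTau_small eTB (ε := ε / 3) (by linarith),
      hU (ε / 3) (by linarith)] with x hx h1 h2
    rw [Real.dist_eq, sub_zero, stTau1 x hx, add_sub_assoc]
    linarith [abs_add_le (TT x / (3 * x)) (Phi (ax x) (logb 2 x) - L (logb 2 x)), h2 (logb 2 x)]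
  have hA : Tendsto (fun x : ℝ => |∑ n ∈ Icc 1 ⌊x⌋₊, (-2 : ℝ) ^ cardFactors n| / x
      - |L (logb 2 x)|) atTop (𝓝 0) := by
    refine squeeze_zero_norm' ?_ (by simpa using hS.abs)
    filter_upwards [eventually_gt_atTop 0] with x hx
    rw [← abs_of_pos hx, ← abs_div, abs_of_pos hx]
    exact abs_abs_sub_abs_le_abs_sub _ _
  refine ⟨fun x => L (logb 2 x), fun x hx => ?_, fun x hx => ?_, fun k s hk hs => ?_, hS, ?_⟩
  · simpa only [Function.comp_def, Phi_nat _ hx] using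
      (hL (logb 2 x)).comp tendsto_natCast_atTop_atTop
  · show L (logb 2 (2 * x)) = -L (logb 2 x)
    rw [logb_mul (by norm_num) hx.ne', logb_self_eq_one (by norm_num), add_comm, hadd]
  · have hl : (log 2 : ℝ) ≠ 0 := (Real.log_pos (by norm_num)).ne'
    have hl' : ((log 2 : ℝ) : ℂ) ≠ 0 := by exact_mod_cast hl
    have e : s = sk k := hs
    have e2 : s * (log 2 : ℝ) = (log 2 : ℝ) + (π * k : ℝ) * Complex.I := by
      rw [hs]
      push_cast at hl' ⊢
      field_simp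
    rw [← exp_Lam (by rw [hs, Complex.add_re, Complex.re_ofReal_mul]; simp), e2]
    refine Eq.trans (intervalIntegral.integral_congr fun v _ => ?_) ((mode hL hU hk).trans ?_)
    · simp only [logb_rpow (show (0 : ℝ) < 2 by norm_num) (show (2 : ℝ) ≠ 1 by norm_num), ee]
      congr 2
      push_cast
      ring
    · rw [FS, ← e, FF, sh, div_mul_div_comm, mul_one, mul_div_assoc]
  · refine le_antisymm ?_ (iSup₂_le fun x hx => ?_)
    · refine le_of_forall_gt_imp_ge_of_dense fun c hc => ?_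
      obtain ⟨d, hd1, hd2⟩ := EReal.lt_iff_exists_real_btwn.1 hc
      obtain ⟨d', hd3, hd4⟩ := EReal.lt_iff_exists_real_btwn.1 hd1
      refine le_trans (limsup_le_of_le (by isBoundedDefault) ?_) hd2.le
      have hd : d' < d := by exact_mod_cast hd4
      filter_upwards [hA.eventually_le_const (show 0 < d - d' by linarith)] with x hx
      set u := logb 2 x
      have h1 : ((|L (logb 2 (2 ^ Int.fract u))| : ℝ) : EReal) ≤ d' := by
        refine le_trans (le_iSup₂ (f := fun (x : ℝ) (_ : x ∈ Set.Ico (1 : ℝ) 2) =>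
          ((|L (logb 2 x)| : ℝ) : EReal)) (2 ^ Int.fract u) ⟨?_, ?_⟩) hd3.le
        · exact one_le_rpow (by norm_num) (Int.fract_nonneg u)
        · simpa using rpow_lt_rpow_of_exponent_lt (x := 2) (by norm_num) (Int.fract_lt_one u)
      rw [logb_rpow (by norm_num) (by norm_num), ← hint ⌊u⌋, Int.fract_add_floor] at h1
      have h2 : |L u| ≤ d' := by exact_mod_cast h1
      exact EReal.coe_le_coe_iff.2 (by linarith)
    · have hx0 : 0 < x := by linarith [hx.1]
      have ht : Tendsto (fun j : ℕ => x * 2 ^ j) atTop atTop :=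
        (tendsto_pow_atTop_atTop_of_one_lt (by norm_num)).const_mul_atTop hx0
      have h1 : Tendsto (fun j : ℕ => |∑ n ∈ Icc 1 ⌊x * 2 ^ j⌋₊, (-2 : ℝ) ^ cardFactors n|
          / (x * 2 ^ j)) atTop (𝓝 |L (logb 2 x)|) := by
        have h2 := (hA.comp ht).add_const |L (logb 2 x)|
        rw [zero_add] at h2
        refine h2.congr fun j => ?_
        have h3 := hint j (logb 2 x)
        simp only [Function.comp, logb_mul hx0.ne' (show (2 : ℝ) ^ j ≠ 0 by positivity), logb_pow,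
          logb_self_eq_one (show (1 : ℝ) < 2 by norm_num), mul_one]
        push_cast at h3
        rw [h3]
        ring
      have h4 := ((continuous_coe_real_ereal.tendsto _).comp h1).limsup_eq
      rw [← h4]
      exact (limsup_comp (fun x : ℝ => ((|∑ n ∈ Icc 1 ⌊x⌋₊, (-2 : ℝ) ^ cardFactors n| / x : ℝ) :
        EReal)) (fun j : ℕ => x * 2 ^ j) atTop).le.trans (limsup_le_limsup_of_le ht)

end Pool.Agent.MP_88bd62_nt.U.Exact
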