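import Pool.Agent.MP_88bd62_nt.U.Tau1

/-! The limsup as the supremum of an explicit series. -/

namespace Pool.Agent.MP_88bd62_nt.U

open Finset Real Filter Topology
open ArithmeticFunction (cardFactors)

noncomputable section

/-- The summatory function. -/
def SS (x : ℝ) : ℝ := ∑ n ∈ Icc 1 ⌊x⌋₊, (-2 : ℝ) ^ cardFactors n

/-- The terms of the series. -/
def tm (x : ℝ) (j : ℕ) : ℝ := (-1) ^ j * (TT (2 ^ j * x) / (2 ^ j * x))

theorem SS_two (y : ℝ) : SS (2 * y) = TT (2 * y) - 2 * SS y := by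
  have h : ⌊2 * y⌋₊ / 2 = ⌊y⌋₊ := by
    have h1 := Nat.floor_div_natCast (2 * y) 2
    have h2 : 2 * y / ((2 : ℕ) : ℝ) = y := by push_cast; ring
    rw [h2] at h1
    exact h1.symm
  unfold SS TT
  rw [xTau1_rec, h]

theorem SS_small {x : ℝ} (h1 : 1 ≤ x) (h2 : x < 2) : SS x = TT x := by
  have h : ⌊x⌋₊ = 1 := by
    rw [Nat.floor_eq_iff (by linarith)]
    constructor <;> push_cast <;> linarith
  unfold SS TT
  rw [h]
  simp [fo]

theorem SS_part {x : ℝ} (h1 : 1 ≤ x) (h2 : x < 2) (N : ℕ) :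
    SS (2 ^ N * x) / (2 ^ N * x) = (-1) ^ N * ∑ j ∈ range (N + 1), tm x j := by
  induction N with
  | zero => simp [tm, SS_small h1 h2]
  | succ N ih =>
    have hx : (0 : ℝ) < 2 ^ N * x := by positivity
    have e : (2 : ℝ) ^ (N + 1) * x = 2 * (2 ^ N * x) := by ring
    have e2 : ((-1 : ℝ) ^ (N + 1)) * (-1) ^ (N + 1) = 1 := by
      rw [← mul_pow]; simp
    rw [sum_range_succ _ (N + 1), mul_add, tm, ← mul_assoc, e2, one_mul, pow_succ (-1 : ℝ),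
      mul_comm ((-1 : ℝ) ^ N), mul_assoc, ← ih, e, SS_two]
    field_simp
    ring

theorem tm_bound (hTB : StTB) : ∃ g : ℕ → ℝ, Summable g ∧
    ∀ x : ℝ, 1 ≤ x → ∀ j, |tm x (j + 1)| ≤ g j := by
  obtain ⟨C, hC⟩ := hTB
  have hl : 0 < log 2 := log_pos (by norm_num)
  refine ⟨fun j => |C| / log 2 ^ (5 / 4 : ℝ) * (1 / ((j + 1 : ℕ) : ℝ) ^ (5 / 4 : ℝ)), ?_, ?_⟩
  · refine Summable.mul_left _ ?_
    exact (summable_nat_add_iff (f := fun n : ℕ => 1 / (n : ℝ) ^ (5 / 4 : ℝ)) 1).2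
      (Real.summable_one_div_nat_rpow.2 (by norm_num))
  · intro x hx j
    have hp : (2 : ℝ) ≤ 2 ^ (j + 1) := by
      calc (2 : ℝ) = 2 ^ 1 := by norm_num
        _ ≤ 2 ^ (j + 1) := pow_le_pow_right₀ (by norm_num) (by omega)
    have hq : (2 : ℝ) ^ (j + 1) ≤ 2 ^ (j + 1) * x := le_mul_of_one_le_right (by positivity) hx
    have hy : (0 : ℝ) < 2 ^ (j + 1) * x := by positivity
    have h1 := hC _ (hp.trans hq)
    have hj : (0 : ℝ) < ((j + 1 : ℕ) : ℝ) := by positivity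
    have h2 : log 2 * ((j + 1 : ℕ) : ℝ) ≤ log (2 ^ (j + 1) * x) := by
      rw [mul_comm, ← log_pow]
      exact log_le_log (by positivity) hq
    have h3 : log 2 ^ (5 / 4 : ℝ) * ((j + 1 : ℕ) : ℝ) ^ (5 / 4 : ℝ)
        ≤ log (2 ^ (j + 1) * x) ^ (5 / 4 : ℝ) := by
      rw [← mul_rpow hl.le hj.le]
      exact rpow_le_rpow (by positivity) h2 (by norm_num)
    have h4 : 0 < log 2 ^ (5 / 4 : ℝ) * ((j + 1 : ℕ) : ℝ) ^ (5 / 4 : ℝ) := by positivity
    rw [tm, abs_mul, abs_pow, abs_neg, abs_one, one_pow, one_mul, abs_div, abs_of_pos hy,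
      div_le_iff₀ hy]
    refine h1.trans ?_
    calc C * (2 ^ (j + 1) * x) / log (2 ^ (j + 1) * x) ^ (5 / 4 : ℝ)
        ≤ |C| * (2 ^ (j + 1) * x) / log (2 ^ (j + 1) * x) ^ (5 / 4 : ℝ) := by
          have h5 : 0 < log (2 ^ (j + 1) * x) ^ (5 / 4 : ℝ) := h4.trans_le h3
          gcongr
          exact le_abs_self C
      _ ≤ |C| * (2 ^ (j + 1) * x) /
          (log 2 ^ (5 / 4 : ℝ) * ((j + 1 : ℕ) : ℝ) ^ (5 / 4 : ℝ)) := by gcongr
      _ = _ := by field_simp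

theorem tm_summable (hTB : StTB) {x : ℝ} (hx : 1 ≤ x) : Summable (tm x) := by
  obtain ⟨g, hg, h⟩ := tm_bound hTB
  exact (summable_nat_add_iff 1).1 (Summable.of_norm_bounded hg fun j => h x hx j)

theorem tm_unif (hTB : StTB) {ε : ℝ} (hε : 0 < ε) : ∃ N₀ : ℕ, ∀ N, N₀ ≤ N → ∀ x : ℝ, 1 ≤ x →
    |∑ j ∈ range (N + 1), tm x j - ∑' j, tm x j| ≤ ε := by
  obtain ⟨g, hg, h⟩ := tm_bound hTB
  have ht := tendsto_sum_nat_add g
  obtain ⟨N₀, hN₀⟩ := eventually_atTop.1 (ht.eventually (ge_mem_nhds hε))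
  refine ⟨N₀, fun N hN x hx => ?_⟩
  have hs := tm_summable hTB hx
  rw [← hs.sum_add_tsum_nat_add (N + 1), abs_sub_comm, add_sub_cancel_left]
  refine le_trans ?_ (hN₀ N hN)
  have hg' : Summable fun k => g (k + N) := (summable_nat_add_iff N).2 hg
  exact tsum_of_norm_bounded (f := fun k => tm x (k + (N + 1))) hg'.hasSum
    fun k => h x hx (k + N)

theorem exact_aux (hTB : StTB) :
    limsup (fun x : ℝ => ((|SS x| / x : ℝ) : EReal)) atTop
      = ⨆ x ∈ Set.Ico (1 : ℝ) 2, ((|∑' j, tm x j| : ℝ) : EReal) := by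
  have key : ∀ x : ℝ, 1 ≤ x → x < 2 → ∀ N : ℕ,
      |SS (2 ^ N * x)| / (2 ^ N * x) = |∑ j ∈ range (N + 1), tm x j| := by
    intro x h1 h2 N
    have hy : (0 : ℝ) < 2 ^ N * x := by positivity
    have := congrArg abs (SS_part h1 h2 N)
    rwa [abs_div, abs_of_pos hy, abs_mul, abs_pow, abs_neg, abs_one, one_pow, one_mul] at this
  apply le_antisymm
  · refine le_of_forall_gt_imp_ge_of_dense fun b hb => ?_
    obtain ⟨c, hc1, hc2⟩ := EReal.lt_iff_exists_real_btwn.1 hb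
    obtain ⟨d, hd1, hd2⟩ := EReal.lt_iff_exists_real_btwn.1 hc2
    have hcd : c < d := by exact_mod_cast hd1
    obtain ⟨N₀, hN₀⟩ := tm_unif hTB (sub_pos.2 hcd)
    refine limsup_le_of_le (by isBoundedDefault) ?_
    filter_upwards [eventually_ge_atTop ((2 : ℝ) ^ N₀)] with y hy
    have hy1 : (1 : ℝ) ≤ y := (one_le_pow₀ (by norm_num)).trans hy
    obtain ⟨N, hN1, hN2⟩ := exists_nat_pow_near hy1 (show (1 : ℝ) < 2 by norm_num)
    have hN : N₀ ≤ N := by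
      have : (2 : ℝ) ^ N₀ < 2 ^ (N + 1) := hy.trans_lt hN2
      have := (pow_lt_pow_iff_right₀ (show (1 : ℝ) < 2 by norm_num)).1 this
      omega
    have hp : (0 : ℝ) < 2 ^ N := by positivity
    have h1 : 1 ≤ y / 2 ^ N := by rwa [le_div_iff₀ hp, one_mul]
    have h2 : y / 2 ^ N < 2 := by rwa [div_lt_iff₀ hp, mul_comm, ← pow_succ]
    have e : 2 ^ N * (y / 2 ^ N) = y := by field_simp
    have h3 := key _ h1 h2 N
    rw [e] at h3
    have h4 := hN₀ N hN _ h1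
    have h5 : ((|∑' j, tm (y / 2 ^ N) j| : ℝ) : EReal) < c :=
      lt_of_le_of_lt (le_iSup₂_of_le (f := fun x (_ : x ∈ Set.Ico (1 : ℝ) 2) =>
        ((|∑' j, tm x j| : ℝ) : EReal)) (y / 2 ^ N) ⟨h1, h2⟩ le_rfl) hc1
    have h6 : |∑' j, tm (y / 2 ^ N) j| < c := by exact_mod_cast h5
    have h7 : |SS y| / y ≤ d := by
      rw [h3]
      have := abs_sub_abs_le_abs_sub (∑ j ∈ range (N + 1), tm (y / 2 ^ N) j)
        (∑' j, tm (y / 2 ^ N) j)
      linarith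
    exact le_trans (by exact_mod_cast h7) hd2.le
  · refine iSup₂_le fun x hx => ?_
    refine le_of_forall_lt_imp_le_of_dense fun b hb => ?_
    obtain ⟨c, hc1, hc2⟩ := EReal.lt_iff_exists_real_btwn.1 hb
    have hc : c < |∑' j, tm x j| := by exact_mod_cast hc2
    obtain ⟨N₀, hN₀⟩ := tm_unif hTB (sub_pos.2 hc)
    refine le_limsup_of_frequently_le ?_ (by isBoundedDefault)
    rw [frequently_atTop]
    intro a
    obtain ⟨M, hM⟩ := pow_unbounded_of_one_lt a (show (1 : ℝ) < 2 by norm_num)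
    refine ⟨2 ^ (max M N₀) * x, ?_, ?_⟩
    · have h1 : (2 : ℝ) ^ M ≤ 2 ^ (max M N₀) := pow_le_pow_right₀ (by norm_num) (le_max_left _ _)
      have h2 : (2 : ℝ) ^ (max M N₀) ≤ 2 ^ (max M N₀) * x :=
        le_mul_of_one_le_right (by positivity) hx.1
      linarith
    · rw [key x hx.1 hx.2]
      have h4 := hN₀ _ (le_max_right M N₀) x hx.1
      have h5 := abs_sub_abs_le_abs_sub (∑' j, tm x j) (∑ j ∈ range (max M N₀ + 1), tm x j)
      rw [abs_sub_comm] at h4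
      have h7 : c ≤ |∑ j ∈ range (max M N₀ + 1), tm x j| := by linarith
      exact le_trans hc1.le (by exact_mod_cast h7)

theorem TT_eq (y : ℝ) :
    TT y = ∑ n ∈ (Icc 1 ⌊y⌋₊).filter Odd, (-2 : ℝ) ^ cardFactors n := by
  rw [TT, sum_filter]
  rfl

/-- The series converges absolutely, and the supremum of its modulus is the limsup. -/
theorem exact_formula (hTB : StTB) :
    (∀ x : ℝ, 1 ≤ x → Summable fun j : ℕ => (-1 : ℝ) ^ j *
      ((∑ n ∈ (Icc 1 ⌊2 ^ j * x⌋₊).filter Odd, (-2 : ℝ) ^ cardFactors n) / (2 ^ j * x))) ∧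
    limsup (fun x : ℝ => ((|∑ n ∈ Icc 1 ⌊x⌋₊, (-2 : ℝ) ^ cardFactors n| / x : ℝ) : EReal)) atTop
      = ⨆ x ∈ Set.Ico (1 : ℝ) 2, ((|∑' j : ℕ, (-1 : ℝ) ^ j *
        ((∑ n ∈ (Icc 1 ⌊2 ^ j * x⌋₊).filter Odd, (-2 : ℝ) ^ cardFactors n) / (2 ^ j * x))| : ℝ)
          : EReal) := by
  simp only [← TT_eq]
  exact ⟨fun x hx => tm_summable hTB hx, exact_aux hTB⟩

/-- A limsup below one gives the inequality for all large `x`. -/
theorem eventually_lt_of_limsup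
    (h : limsup (fun x : ℝ => ((|∑ n ∈ Icc 1 ⌊x⌋₊, (-2 : ℝ) ^ cardFactors n| / x : ℝ) : EReal))
      atTop < 1) :
    ∀ᶠ x : ℝ in atTop, |∑ n ∈ Icc 1 ⌊x⌋₊, (-2 : ℝ) ^ cardFactors n| < x := by
  filter_upwards [eventually_lt_of_limsup_lt h, eventually_gt_atTop (0 : ℝ)] with x hx hx0
  have h1 : |∑ n ∈ Icc 1 ⌊x⌋₊, (-2 : ℝ) ^ cardFactors n| / x < 1 := by exact_mod_cast hx
  rwa [div_lt_one hx0] at h1

end

end Pool.Agent.MP_88bd62_nt.U
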