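import Pool.Agent.MP_88bd62_nt.U.Stmts

/-! The factorisation of `2 ^ Ω` on odd numbers. -/

namespace Pool.Agent.MP_88bd62_nt.U

open Finset Real
open ArithmeticFunction (cardFactors)
open scoped ENNReal

noncomputable section

def xFac_c (i : ℕ) : ℝ := if i = 0 then 1 else if i = 1 then 0 else 2 ^ (i - 2)

lemma xFac_T (k : ℕ) : ∑ i ∈ range (k + 2), xFac_c i = 2 ^ k := by
  induction k with
  | zero => simp [sum_range_succ, xFac_c]
  | succ k ih =>
    rw [sum_range_succ, ih]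
    have : xFac_c (k + 2) = 2 ^ k := by simp [xFac_c]
    rw [this]
    ring

lemma xFac_S (k : ℕ) : ∑ i ∈ range (k + 1), xFac_c i * ((k - i + 1 : ℕ) : ℝ) = 2 ^ k := by
  induction k with
  | zero => simp [xFac_c]
  | succ k ih =>
    have e : ∑ i ∈ range (k + 1 + 1), xFac_c i * ((k + 1 - i + 1 : ℕ) : ℝ) =
        ∑ i ∈ range (k + 1), xFac_c i * ((k - i + 1 : ℕ) : ℝ) +
          ∑ i ∈ range (k + 2), xFac_c i := by
      rw [sum_range_succ, sum_range_succ xFac_c (k + 1), ← add_assoc, ← sum_add_distrib]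
      congr 1
      · refine sum_congr rfl fun i hi => ?_
        have h : k + 1 - i + 1 = (k - i + 1) + 1 := by
          have := mem_range.1 hi
          omega
        rw [h]
        push_cast
        ring
      · simp
    rw [e, ih, xFac_T]
    ring

lemma xFac_hh_pow {p : ℕ} (hp : p.Prime) (i : ℕ) : hh (p ^ i) = xFac_c i := by
  unfold hh xFac_c
  by_cases hi : i = 0
  · simp [hi]
  · rw [Nat.primeFactors_prime_pow hi hp, prod_singleton, if_neg hi, hp.factorization_pow,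
      Finsupp.single_eq_same]

lemma xFac_hh_nonneg (n : ℕ) : 0 ≤ hh n := by
  refine prod_nonneg fun p _ => ?_
  split_ifs
  · exact le_rfl
  · positivity

lemma xFac_hh_mul {m n : ℕ} (h : m.Coprime n) : hh (m * n) = hh m * hh n := by
  unfold hh
  rw [h.primeFactors_mul, prod_union h.disjoint_primeFactors]
  congr 1
  · refine prod_congr rfl fun p hp => ?_
    rw [Nat.factorization_eq_of_coprime_left h (Nat.mem_primeFactors_iff_mem_primeFactorsList.1 hp)]
  · refine prod_congr rfl fun p hp => ?_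
    rw [Nat.factorization_eq_of_coprime_right h
      (Nat.mem_primeFactors_iff_mem_primeFactorsList.1 hp)]

def xFac_H : ArithmeticFunction ℝ := ⟨fun n => if n = 0 then 0 else hh n, by simp⟩

def xFac_G : ArithmeticFunction ℝ := ⟨fun n => if n = 0 then 0 else 2 ^ cardFactors n, by simp⟩

lemma xFac_H_apply {n : ℕ} (hn : n ≠ 0) : xFac_H n = hh n := if_neg hn

lemma xFac_G_apply {n : ℕ} (hn : n ≠ 0) : xFac_G n = 2 ^ cardFactors n := if_neg hn

lemma xFac_H_mult : xFac_H.IsMultiplicative := by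
  rw [ArithmeticFunction.IsMultiplicative.iff_ne_zero]
  refine ⟨by rw [xFac_H_apply one_ne_zero]; simp [hh], fun {m n} hm hn h => ?_⟩
  rw [xFac_H_apply (mul_ne_zero hm hn), xFac_H_apply hm, xFac_H_apply hn, xFac_hh_mul h]

lemma xFac_G_mult : xFac_G.IsMultiplicative := by
  rw [ArithmeticFunction.IsMultiplicative.iff_ne_zero]
  refine ⟨by rw [xFac_G_apply one_ne_zero]; simp, fun {m n} hm hn _ => ?_⟩
  rw [xFac_G_apply (mul_ne_zero hm hn), xFac_G_apply hm, xFac_G_apply hn,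
    ArithmeticFunction.cardFactors_mul hm hn, pow_add]

lemma xFac_eq : xFac_H * ((ArithmeticFunction.sigma 0 : ArithmeticFunction ℕ) :
    ArithmeticFunction ℝ) = xFac_G := by
  rw [ArithmeticFunction.IsMultiplicative.eq_iff_eq_on_prime_powers _
    (xFac_H_mult.mul ArithmeticFunction.isMultiplicative_sigma.natCast) _ xFac_G_mult]
  intro p k hp
  rw [xFac_G_apply (pow_ne_zero k hp.ne_zero), ArithmeticFunction.cardFactors_apply_prime_pow hp,
    ArithmeticFunction.mul_apply, Nat.sum_divisorsAntidiagonal (fun a b => xFac_H a *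
      ((ArithmeticFunction.sigma 0 : ArithmeticFunction ℕ) : ArithmeticFunction ℝ) b),
    Nat.sum_divisors_prime_pow hp, ← xFac_S]
  refine sum_congr rfl fun i hi => ?_
  have hik : i ≤ k := Nat.lt_succ_iff.1 (mem_range.1 hi)
  rw [xFac_H_apply (pow_ne_zero i hp.ne_zero), xFac_hh_pow hp, Nat.pow_div hik hp.pos,
    ArithmeticFunction.natCoe_apply, ArithmeticFunction.sigma_zero_apply_prime_pow hp]

lemma xFac_id {m : ℕ} (hm : m ≠ 0) :
    ∑ x ∈ m.divisorsAntidiagonal, hh x.1 * (x.2.divisors.card : ℝ) = 2 ^ cardFactors m := by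
  rw [← xFac_G_apply hm, ← xFac_eq, ArithmeticFunction.mul_apply]
  refine sum_congr rfl fun x hx => ?_
  rw [xFac_H_apply (Nat.left_ne_zero_of_mem_divisorsAntidiagonal hx),
    ArithmeticFunction.natCoe_apply, ArithmeticFunction.sigma_zero_apply]

lemma xFac_split {n : ℕ} (hn : Odd n) : ∃ s m : ℕ, n = s * m ∧ m.Coprime 210 ∧
    ∀ p, p.Prime → p ∣ s → p ≤ 7 := by
  have h0 : n ≠ 0 := hn.pos.ne'
  obtain ⟨a, n₁, h3, e1⟩ := Nat.exists_eq_pow_mul_and_not_dvd h0 3 (by norm_num)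
  have h1 : n₁ ≠ 0 := by
    rintro rfl
    exact h3 (dvd_zero _)
  obtain ⟨b, n₂, h5, e2⟩ := Nat.exists_eq_pow_mul_and_not_dvd h1 5 (by norm_num)
  have h2 : n₂ ≠ 0 := by
    rintro rfl
    exact h5 (dvd_zero _)
  obtain ⟨c, m, h7, e3⟩ := Nat.exists_eq_pow_mul_and_not_dvd h2 7 (by norm_num)
  have d2 : m ∣ n₂ := ⟨7 ^ c, by rw [e3, mul_comm]⟩
  have d1 : m ∣ n₁ := d2.trans ⟨5 ^ b, by rw [e2, mul_comm]⟩
  have d0 : m ∣ n := d1.trans ⟨3 ^ a, by rw [e1, mul_comm]⟩
  refine ⟨3 ^ a * 5 ^ b * 7 ^ c, m, by rw [e1, e2, e3]; ring, ?_, fun p hp hd => ?_⟩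
  · have c2 : m.Coprime 2 := (Odd.of_dvd_nat hn d0).coprime_two_right
    have c3 : m.Coprime 3 :=
      ((Nat.Prime.coprime_iff_not_dvd Nat.prime_three).2 fun h => h3 (h.trans d1)).symm
    have c5 : m.Coprime 5 :=
      ((Nat.Prime.coprime_iff_not_dvd Nat.prime_five).2 fun h => h5 (h.trans d2)).symm
    have c7 : m.Coprime 7 := ((Nat.Prime.coprime_iff_not_dvd (by norm_num)).2 h7).symm
    exact ((c2.mul_right c3).mul_right c5).mul_right c7
  · rcases (Nat.Prime.dvd_mul hp).1 hd with h | h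
    · rcases (Nat.Prime.dvd_mul hp).1 h with h | h
      · exact (Nat.le_of_dvd (by norm_num) (hp.dvd_of_dvd_pow h)).trans (by norm_num)
      · exact (Nat.le_of_dvd (by norm_num) (hp.dvd_of_dvd_pow h)).trans (by norm_num)
    · exact Nat.le_of_dvd (by norm_num) (hp.dvd_of_dvd_pow h)

lemma xFac_conv (ν μ : ℕ → ℝ≥0∞) {s h : ℕ} (hs : s ≠ 0) (hh0 : h ≠ 0) :
    ν s * μ h ≤ conv ν μ (s * h) :=
  single_le_sum (f := fun x : ℕ × ℕ => ν x.1 * μ x.2) (fun _ _ => zero_le)
    (a := (s, h)) (Nat.mem_divisorsAntidiagonal.2 ⟨rfl, mul_ne_zero hs hh0⟩)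

theorem stFac : StFac := by
  classical
  intro n hn
  obtain ⟨s, m, rfl, hm, hs⟩ := xFac_split hn
  have h0 : s * m ≠ 0 := hn.pos.ne'
  have s0 : s ≠ 0 := left_ne_zero_of_mul h0
  have m0 : m ≠ 0 := right_ne_zero_of_mul h0
  have so : Odd s := Odd.of_dvd_nat hn (dvd_mul_right s m)
  have hS : nuS s = ENNReal.ofReal (2 ^ cardFactors s / s) := if_pos ⟨so, hs⟩
  have inj : Set.InjOn (fun y : ℕ × ℕ => (s * y.1, y.2)) (m.divisorsAntidiagonal : Set _) := by
    intro x _ y _ hxy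
    simp only [Prod.mk.injEq] at hxy
    exact Prod.ext (Nat.eq_of_mul_eq_mul_left (Nat.pos_of_ne_zero s0) hxy.1) hxy.2
  have sub : m.divisorsAntidiagonal.image (fun y : ℕ × ℕ => (s * y.1, y.2)) ⊆
      (s * m).divisorsAntidiagonal := by
    intro x hx
    obtain ⟨y, hy, rfl⟩ := mem_image.1 hx
    refine Nat.mem_divisorsAntidiagonal.2 ⟨?_, h0⟩
    rw [← (Nat.mem_divisorsAntidiagonal.1 hy).1, mul_assoc]
  refine le_trans ?_ (sum_le_sum_of_subset sub)
  rw [sum_image inj]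
  have sp : (0 : ℝ) < s := Nat.cast_pos.2 (Nat.pos_of_ne_zero s0)
  have mp : (0 : ℝ) < m := Nat.cast_pos.2 (Nat.pos_of_ne_zero m0)
  have e : (2 : ℝ) ^ cardFactors (s * m) / ((s * m : ℕ) : ℝ) = ∑ y ∈ m.divisorsAntidiagonal,
      2 ^ cardFactors s / s * (hh y.1 / y.1) * ((y.2.divisors.card : ℝ) / y.2) := by
    rw [ArithmeticFunction.cardFactors_mul s0 m0, pow_add, ← xFac_id m0, mul_sum, sum_div]
    refine sum_congr rfl fun y hy => ?_
    have y1 : (y.1 : ℝ) ≠ 0 := Nat.cast_ne_zero.2 (Nat.left_ne_zero_of_mem_divisorsAntidiagonal hy)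
    have y2 : (y.2 : ℝ) ≠ 0 :=
      Nat.cast_ne_zero.2 (Nat.right_ne_zero_of_mem_divisorsAntidiagonal hy)
    rw [← (Nat.mem_divisorsAntidiagonal.1 hy).1]
    push_cast
    field_simp
  rw [e, ENNReal.ofReal_sum_of_nonneg fun y _ => by
    have := xFac_hh_nonneg y.1
    positivity]
  refine sum_le_sum fun y hy => ?_
  have e1 := (Nat.mem_divisorsAntidiagonal.1 hy).1
  have c1 : y.1.Coprime 210 := Nat.Coprime.coprime_dvd_left ⟨y.2, e1.symm⟩ hm
  have c2 : y.2.Coprime 210 := Nat.Coprime.coprime_dvd_left ⟨y.1, by rw [← e1, mul_comm]⟩ hm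
  have hH : nuH y.1 = ENNReal.ofReal (hh y.1 / y.1) := if_pos c1
  have hD : nuD (fun _ => True) y.2 = ENNReal.ofReal ((y.2.divisors.card : ℝ) / y.2) :=
    if_pos ⟨c2, trivial⟩
  have := xFac_hh_nonneg y.1
  rw [ENNReal.ofReal_mul (by positivity), ENNReal.ofReal_mul (by positivity), ← hS, ← hH, ← hD]
  exact mul_le_mul_left (xFac_conv nuS nuH s0
    (Nat.left_ne_zero_of_mem_divisorsAntidiagonal hy)) _

end

end Pool.Agent.MP_88bd62_nt.U
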