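import Pool.Agent.MP_88bd62_nt.U.Stmts

/-! The first stage. -/

namespace Pool.Agent.MP_88bd62_nt.U

open Finset Real

theorem xFirst_mono (N N' : ℕ) {s s' C C' : ℝ} (hs : s ≤ s') (hC : C ≤ C') (a : ℕ → ℝ) :
    Rem N N' s C a ≤ Rem N N' s' C' a := by
  unfold Rem
  refine sum_le_sum fun k _ => ?_
  have h1 : s * |(k : ℝ)| / (2 * N) ≤ s' * |(k : ℝ)| / (2 * N) :=
    div_le_div_of_nonneg_right (mul_le_mul_of_nonneg_right hs (abs_nonneg _)) (by positivity)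
  exact div_le_div_of_nonneg_right
    (mul_le_mul_of_nonneg_right (min_le_min h1 hC) (norm_nonneg _)) (by positivity)

theorem xFirst_ac : AC a1 := by
  refine summable_of_ne_finset_zero (s := E0) fun n hn => ?_
  simp [a1, hn]

theorem xFirst_pow {η : ℝ} (h0 : 0 ≤ η) (h1 : η ≤ 1 / 2 ^ 22) : (2 : ℝ) ^ η ≤ 1.000001 := by
  have h := rpow_one_add_le_one_add_mul_self (s := 1) (by norm_num) h0
    (h1.trans (by norm_num))
  rw [one_add_one_eq_two] at h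
  refine h.trans ?_
  have : (1 : ℝ) / 2 ^ 22 ≤ 0.000001 := by norm_num
  linarith

theorem xFirst_step (hBase : StBase) (hHP0 : StHP0) (hP0X : StP0X) (hP0L : StP0L)
    (hac : AC par0.ap) (hS : NumS) {η h r t s C u u' : ℝ} (h0 : 0 ≤ η) (h1 : η ≤ 1 / 2 ^ 22)
    (hu : |u - u'| ≤ η) (hh : hpCost (2 ^ 20) η (A0 par0) (B0 par0) 1000 ≤ h) (hh1 : h ≤ 1)
    (hs : 1.501 + 6.3 * 2 ^ 20 * η ≤ s) (hC : 1 + 1.26 * 2 ^ 20 * η ≤ C)
    (hr : Rem (2 ^ 20) (2 ^ 25) s C par0.ap ≤ r) (ht : lowA u u' + Bexp η u' ≤ t) (ht1 : t ≤ 1) :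
    ‖Psi (2 ^ 20) FS par0.ap u‖ + Rem (2 ^ 20) (2 ^ 25) 1.501 1 par0.ap ≤
      t + h + r + 0.000002 := by
  have h2 : η ≤ 1 / 1000 := h1.trans (by norm_num)
  have b1 := hBase.2 (2 ^ 20) (2 ^ 25) par0.ap a1 η u u' (by norm_num) (by norm_num) hac
    xFirst_ac h0 h2 hu
  have b2 := hHP0 par0 η h u u' hP0X hP0L.2 rfl rfl (show 15 ≤ 25 by norm_num) hS.2.1 hS.1 h0 h2
    hu hh
  have b3 := (xFirst_mono (2 ^ 20) (2 ^ 25) (s := 1.501 + 6.3 * ((2 ^ 20 : ℕ) : ℝ) * η)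
    (C := 1 + 1.26 * ((2 ^ 20 : ℕ) : ℝ) * η) (by rw [Nat.cast_pow, Nat.cast_ofNat]; exact hs)
    (by rw [Nat.cast_pow, Nat.cast_ofNat]; exact hC) par0.ap).trans hr
  have b4 := xFirst_pow h0 h1
  unfold lowA at ht
  refine b1.trans ?_
  generalize Rem (2 ^ 20) (2 ^ 25) (1.501 + 6.3 * ((2 ^ 20 : ℕ) : ℝ) * η)
    (1 + 1.26 * ((2 ^ 20 : ℕ) : ℝ) * η) par0.ap = R at b3 ⊢
  have n1 := norm_nonneg (LPc (2 ^ 20) (fun k => FS k - Ser a1 k) u' +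
    (((2 : ℝ) ^ (u - u') * Phi a1 u : ℝ) : ℂ))
  have n2 := norm_nonneg ((((2 : ℝ) ^ (u - u') * Phi (par0.ap - a1) u : ℝ) : ℂ) -
    LPc (2 ^ 20) (Ser (par0.ap - a1)) u')
  generalize ‖LPc (2 ^ 20) (fun k => FS k - Ser a1 k) u' +
    (((2 : ℝ) ^ (u - u') * Phi a1 u : ℝ) : ℂ)‖ = X at ht n1 ⊢
  generalize ‖(((2 : ℝ) ^ (u - u') * Phi (par0.ap - a1) u : ℝ) : ℂ) -
    LPc (2 ^ 20) (Ser (par0.ap - a1)) u'‖ = Y at b2 n2 ⊢
  have b5 := mul_le_mul_of_nonneg_right b4 (add_nonneg n1 n2)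
  linarith

theorem stFirst (hBase : StBase) (hX : StX) (hRem0 : StRem0) (hHP0 : StHP0) (hP0X : StP0X)
    (hP0L : StP0L) (hP0R : StP0R) : StFirst := by
  intro hS hB1 hB2 hC tf tm B hA htf htm hf hm u
  have hac : AC par0.ap := (hX par0 hP0X hS.2.1).2.1
  have hn : par0.n = 20 := rfl
  have hn' : par0.n' = 25 := rfl
  have r1 := hRem0 par0 23 16 _ _ _ _ _ _ _ _ _ _ _ _ _ _ _ hP0X hP0L.1 hS.2.1 hS.1
    (by rw [hn]; norm_num) (by rw [hn']; norm_num) (show 16 ≤ 20 by norm_num) hB1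
    (by rw [hn']; exact hB2) hC hS.2.2 hP0R.1
  have r2 := hRem0 par0 23 16 _ _ _ _ _ _ _ _ _ _ _ _ _ _ _ hP0X hP0L.1 hS.2.1 hS.1
    (by rw [hn]; norm_num) (by rw [hn']; norm_num) (show 16 ≤ 20 by norm_num) hB1
    (by rw [hn']; exact hB2) hC hS.2.2 hP0R.2.1
  rw [hn, hn'] at r1 r2
  have e := hBase.1 (2 ^ 20) FS par0.ap (Int.fract u) ⌊u⌋
  rw [Int.fract_add_floor] at e
  rw [e]
  obtain ⟨u', ⟨h1, h2⟩ | ⟨h1, h2⟩⟩ := hA (Int.fract u) (Int.fract_nonneg u) (Int.fract_lt_one u)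
  · refine (xFirst_step hBase hHP0 hP0X hP0L hac hS (by positivity) (by norm_num) h1 hP0R.2.2.1
      (by norm_num) (by norm_num) (by norm_num) r1 h2 htf).trans ?_
    linarith
  · refine (xFirst_step hBase hHP0 hP0X hP0L hac hS (by positivity) le_rfl h1 hP0R.2.2.2
      (by norm_num) (by norm_num) (by norm_num) r2 h2 htm).trans ?_
    linarith

end Pool.Agent.MP_88bd62_nt.U
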