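import Pool.Agent.MP_88bd62_nt.U.Stmts

namespace Pool.Agent.MP_88bd62_nt.U

open Finset Real

lemma xP0R_sum {x : ℝ} (hx : 0 ≤ x) : 1 + x + x ^ 2 / 2 + x ^ 3 / 6 + x ^ 4 / 24 + x ^ 5 / 120 +
    x ^ 6 / 720 + x ^ 7 / 5040 ≤ exp x := by
  have := Real.sum_le_exp_of_nonneg hx 8
  simp only [sum_range_succ, range_zero, sum_empty, Nat.factorial] at this
  norm_num at this
  linarith

lemma xP0R_up {x y : ℝ} (hx : 0 ≤ x) (hy : 0 ≤ y) (h : 1 ≤ y * (1 + x + x ^ 2 / 2 + x ^ 3 / 6 +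
    x ^ 4 / 24 + x ^ 5 / 120 + x ^ 6 / 720 + x ^ 7 / 5040)) : exp (-x) ≤ y := by
  rw [exp_neg, inv_le_iff_one_le_mul₀ (exp_pos x)]
  exact h.trans (mul_le_mul_of_nonneg_left (xP0R_sum hx) hy)

lemma xP0R_lo {x y : ℝ} (hx : 0 ≤ x) (hx' : x ≤ 4) (hy : 0 ≤ y)
    (h : y * (1 + x / 4 + (x / 4) ^ 2 / 2 + (x / 4) ^ 3 / 6 + (x / 4) ^ 4 / 24 +
      (x / 4) ^ 5 / 100) ^ 4 ≤ 1) : y ≤ exp (-x) := by
  have h1 := Real.exp_bound' (x := x / 4) (by linarith) (by linarith) (n := 5) (by norm_num)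
  simp only [sum_range_succ, range_zero, sum_empty, Nat.factorial] at h1
  norm_num at h1
  have h2 : exp x = exp (x / 4) ^ 4 := by
    rw [← exp_nat_mul]
    congr 1
    push_cast
    ring
  rw [exp_neg, ← one_div, le_div_iff₀ (exp_pos x), h2]
  refine le_trans (mul_le_mul_of_nonneg_left (pow_le_pow_left₀ (exp_pos _).le ?_ 4) hy) h
  linarith

lemma xP0R_log {z y : ℝ} (hz : 0 < z) (hy : 0 ≤ y) (h : z ≤ 1 + y + y ^ 2 / 2 + y ^ 3 / 6 +
    y ^ 4 / 24 + y ^ 5 / 120 + y ^ 6 / 720 + y ^ 7 / 5040) : log z ≤ y :=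
  (log_le_iff_le_exp hz).2 (h.trans (xP0R_sum hy))

lemma xP0R_diff {C c x x' : ℝ} (y y' : ℝ) (h1 : y ≤ exp (-x)) (h2 : exp (-x') ≤ y') (hc : 0 ≤ c)
    (h : C ≤ c * (y - y')) : C ≤ c * (exp (-x) - exp (-x')) :=
  h.trans (mul_le_mul_of_nonneg_left (by linarith) hc)

lemma xP0R_wc {N : ℕ} {q D E c a b : ℝ} (y w : ℝ) (h1 : log (b / a) ≤ y) (hD : 0 ≤ D) (hw : 0 ≤ w)
    (hc : 0 ≤ c) (h : c * ((q + E * b / (2 * N)) * (b - a) / (2 * N) + D * y) ≤ w * 3.141592) :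
    Wc N q D E c a b ≤ w := by
  rw [Wc, div_mul_eq_mul_div, div_le_iff₀ pi_pos]
  refine le_trans (mul_le_mul_of_nonneg_left ?_ hc)
    (h.trans (mul_le_mul_of_nonneg_left pi_gt_d6.le hw))
  linarith [mul_le_mul_of_nonneg_left h1 hD]

lemma xP0R_la : 4 / 3 * (par0.A * exp (2 * 1.23 - 2 * 2.1678)) +
    2 / 3 * (2.35 * (4 / 9) / (1 / 6) ^ 2) * (1 + 1.01 * par0.ε) ≤ 72.5 := by
  have h : exp (-1.8756) ≤ 0.1536 := xP0R_up (by norm_num) (by norm_num) (by norm_num)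
  rw [show (2 * 1.23 - 2 * 2.1678 : ℝ) = -1.8756 by norm_num]
  simp only [par0]
  linarith

lemma xP0R_pi {s C : ℝ} (w : ℝ) (hC0 : 0 ≤ C) (hw : 0 ≤ w)
    (h : s + C * (5 * 0.6931471808) ≤ w * 3.141592) :
    (s + C * (((par0.n' : ℝ) - par0.n) * log 2)) / π ≤ w := by
  have h1 := log_two_lt_d9
  have h2 := mul_le_mul_of_nonneg_left pi_gt_d6.le hw
  have h3 := mul_le_mul_of_nonneg_left h1.le hC0
  rw [div_le_iff₀ pi_pos]
  simp only [par0]
  push_cast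
  nlinarith

lemma xP0R_A : 0 ≤ A0 par0 ∧ A0 par0 ≤ 11440 := by
  have h1 := log_two_lt_d9
  have h2 := log_two_gt_d9
  have h3 : log 2 * log 2 ≤ 0.4805 := by nlinarith
  simp only [A0, aHy, aGr, par0]
  push_cast
  constructor <;> nlinarith

lemma xP0R_B : B0 par0 ≤ 0.00312 := by
  have h : √((2 : ℝ) ^ 30) = 32768 := by
    rw [show (2 : ℝ) ^ 30 = 32768 ^ 2 by norm_num, sqrt_sq (by norm_num)]
  simp only [B0, bHy, bGr, par0, h]
  norm_num

theorem stP0R : StP0R := by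
  have hA := xP0R_A
  have hB := xP0R_B
  refine ⟨⟨by norm_num, by norm_num, by norm_num [par0], by norm_num, by norm_num, xP0R_la,
      by norm_num [par0], ?_, ?_, ?_⟩, ⟨by norm_num, by norm_num, by norm_num [par0], by norm_num,
      by norm_num, xP0R_la, by norm_num [par0], ?_, ?_, ?_⟩, ?_, ?_⟩
  · refine ⟨by norm_num, by norm_num, by norm_num, by norm_num, by norm_num, by norm_num [par0],
      by norm_num [par0], xP0R_diff 0.94948 0.90261 (xP0R_lo ?_ ?_ ?_ ?_) (xP0R_up ?_ ?_ ?_) ?_ ?_,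
      xP0R_diff 0.054 0.006 (xP0R_lo ?_ ?_ ?_ ?_) (xP0R_up ?_ ?_ ?_) ?_ ?_⟩ <;> norm_num [par0]
  · refine ⟨by norm_num, by norm_num, by norm_num, by norm_num, by norm_num, by norm_num,
      by norm_num [par0], xP0R_diff 0.8244 0.7335 (xP0R_lo ?_ ?_ ?_ ?_) (xP0R_up ?_ ?_ ?_) ?_ ?_,
      xP0R_diff 0.46 0.3 (xP0R_lo ?_ ?_ ?_ ?_) (xP0R_up ?_ ?_ ?_) ?_ ?_⟩ <;> norm_num [par0]
  · have h1 := xP0R_pi (s := 1.895) (C := 1.079) 1.8 (by norm_num) (by norm_num) (by norm_num)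
    have h2 : Wc (2 ^ par0.n) par0.q par0.D par0.E 23.1 0.091 0.18 ≤ 0.0000160525 :=
      xP0R_wc 0.6822 _ (xP0R_log (by norm_num) (by norm_num) (by norm_num)) (by norm_num [par0])
        (by norm_num) (by norm_num) (by norm_num [par0])
    have h3 : Wc (2 ^ 23) par0.q par0.D par0.E 11.9 0.193 0.31 ≤ 0.0000016908 :=
      xP0R_wc 0.474 _ (xP0R_log (by norm_num) (by norm_num) (by norm_num)) (by norm_num [par0])
        (by norm_num) (by norm_num) (by norm_num [par0])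
    rw [show par0.ε = 0.0000019 from rfl]
    linarith
  · refine ⟨by norm_num, by norm_num, by norm_num, by norm_num, by norm_num, by norm_num [par0],
      by norm_num [par0], xP0R_diff 0.96346 0.91026 (xP0R_lo ?_ ?_ ?_ ?_) (xP0R_up ?_ ?_ ?_) ?_ ?_,
      xP0R_diff 0.061 0.005 (xP0R_lo ?_ ?_ ?_ ?_) (xP0R_up ?_ ?_ ?_) ?_ ?_⟩ <;> norm_num [par0]
  · refine ⟨by norm_num, by norm_num, by norm_num, by norm_num, by norm_num, by norm_num,
      by norm_num [par0], xP0R_diff 0.8236 0.7118 (xP0R_lo ?_ ?_ ?_ ?_) (xP0R_up ?_ ?_ ?_) ?_ ?_,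
      xP0R_diff 0.46 0.3 (xP0R_lo ?_ ?_ ?_ ?_) (xP0R_up ?_ ?_ ?_) ?_ ?_⟩ <;> norm_num [par0]
  · have h1 := xP0R_pi (s := 3.076) (C := 1.315) 2.44 (by norm_num) (by norm_num) (by norm_num)
    have h2 : Wc (2 ^ par0.n) par0.q par0.D par0.E 24.8 0.087 0.22 ≤ 0.0000255790 :=
      xP0R_wc 0.9278 _ (xP0R_log (by norm_num) (by norm_num) (by norm_num)) (by norm_num [par0])
        (by norm_num) (by norm_num) (by norm_num [par0])
    have h3 : Wc (2 ^ 23) par0.q par0.D par0.E 11.8 0.194 0.34 ≤ 0.0000020647 :=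
      xP0R_wc 0.5612 _ (xP0R_log (by norm_num) (by norm_num) (by norm_num)) (by norm_num [par0])
        (by norm_num) (by norm_num) (by norm_num [par0])
    rw [show par0.ε = 0.0000019 from rfl]
    linarith
  · rw [hpCost]
    push_cast
    linarith [hA.2]
  · rw [hpCost]
    push_cast
    linarith [hA.2]

end Pool.Agent.MP_88bd62_nt.U
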