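import Pool.Agent.MP_88bd62_nt.U.Stmts2
import Pool.Agent.MP_88bd62_nt.U.P0R
import Pool.Agent.MP_88bd62_nt.U.First

/-! The first stage on one grid: proofs. -/

namespace Pool.Agent.MP_88bd62_nt.U

open Finset Real

theorem stP0M : StP0M := by
  have hA := xP0R_A
  have hB := xP0R_B
  refine ⟨⟨by norm_num, by norm_num, by norm_num [par0], by norm_num, by norm_num, xP0R_la,
      by norm_num [par0], ?_, ?_, ?_⟩, ?_⟩
  · refine ⟨by norm_num, by norm_num, by norm_num, by norm_num, by norm_num, by norm_num [par0],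
      by norm_num [par0], xP0R_diff 0.95495 0.90382 (xP0R_lo ?_ ?_ ?_ ?_) (xP0R_up ?_ ?_ ?_) ?_ ?_,
      xP0R_diff 0.054 0.0029 (xP0R_lo ?_ ?_ ?_ ?_) (xP0R_up ?_ ?_ ?_) ?_ ?_⟩ <;> norm_num [par0]
  · refine ⟨by norm_num, by norm_num, by norm_num, by norm_num, by norm_num, by norm_num,
      by norm_num [par0], xP0R_diff 0.8285 0.719 (xP0R_lo ?_ ?_ ?_ ?_) (xP0R_up ?_ ?_ ?_) ?_ ?_,
      xP0R_diff 0.46 0.3 (xP0R_lo ?_ ?_ ?_ ?_) (xP0R_up ?_ ?_ ?_) ?_ ?_⟩ <;> norm_num [par0]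
  · have h1 := xP0R_pi (s := 2.289) (C := 1.158) 2.01 (by norm_num) (by norm_num) (by norm_num)
    have h2 : Wc (2 ^ par0.n) par0.q par0.D par0.E 22.7 0.091 0.2 ≤ 0.00001922 :=
      xP0R_wc 0.7876 _ (xP0R_log (by norm_num) (by norm_num) (by norm_num)) (by norm_num [par0])
        (by norm_num) (by norm_num) (by norm_num [par0])
    have h3 : Wc (2 ^ 23) par0.q par0.D par0.E 10.6 0.188 0.33 ≤ 0.000001817 :=
      xP0R_wc 0.5628 _ (xP0R_log (by norm_num) (by norm_num) (by norm_num)) (by norm_num [par0])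
        (by norm_num) (by norm_num) (by norm_num [par0])
    rw [show par0.ε = 0.0000019 from rfl]
    linarith
  · rw [hpCost]
    push_cast
    linarith [hA.2]

theorem stFirst1 (hBase : StBase) (hX : StX) (hRem0 : StRem0) (hHP0 : StHP0) (hP0X : StP0X)
    (hP0L : StP0L) : StFirst1 := by
  intro hS hB1 hB2 hC t hA ht u
  have hac : AC par0.ap := (hX par0 hP0X hS.2.1).2.1
  have hn : par0.n = 20 := rfl
  have hn' : par0.n' = 25 := rfl
  have r1 := hRem0 par0 23 16 _ _ _ _ _ _ _ _ _ _ _ _ _ _ _ hP0X hP0L.1 hS.2.1 hS.1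
    (by rw [hn]; norm_num) (by rw [hn']; norm_num) (show 16 ≤ 20 by norm_num) hB1
    (by rw [hn']; exact hB2) hC hS.2.2 stP0M.1
  rw [hn, hn'] at r1
  have e := hBase.1 (2 ^ 20) FS par0.ap (Int.fract u) ⌊u⌋
  rw [Int.fract_add_floor] at e
  rw [e]
  obtain ⟨u', h1, h2⟩ := hA (Int.fract u) (Int.fract_nonneg u) (Int.fract_lt_one u)
  refine (xFirst_step hBase hHP0 hP0X hP0L hac hS (by positivity) (by norm_num) h1 stP0M.2
    (by norm_num) (by norm_num) (by norm_num) r1 h2 ht).trans ?_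
  linarith

end Pool.Agent.MP_88bd62_nt.U
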