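import Pool.Agent.MP_88bd62_nt.U.Stmts

namespace Pool.Agent.MP_88bd62_nt.U

open Finset Real Filter Topology

theorem xFz_one {w : ℂ} (hw : ‖w‖ < 1) :
    ‖(1 - w)⁻¹‖ ≤ (1 - ‖w‖)⁻¹ * exp (w.re - ‖w‖) := by
  have h1 := (hasSum_nat_add_iff' 1).2
    (Complex.hasSum_re (Complex.hasSum_taylorSeries_neg_log' hw))
  have h2 := (hasSum_nat_add_iff' 1).2
    (hasSum_pow_div_log_of_abs_lt_one (x := ‖w‖) (by rwa [abs_norm]))
  have h3 := hasSum_le (fun n => by
    refine (Complex.re_le_norm _).trans (le_of_eq ?_)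
    rw [norm_div, norm_pow]
    congr 1
    exact_mod_cast Complex.norm_natCast (n + 1 + 1)) h1 h2
  have h4 : 0 < ‖1 - w‖ := norm_pos_iff.2 fun h => by
    rw [← sub_eq_zero.1 h, norm_one] at hw
    exact lt_irrefl _ hw
  simp only [range_one, sum_singleton, zero_add, pow_one, Nat.cast_zero, div_one, Complex.neg_re,
    Complex.log_re] at h3
  calc ‖(1 - w)⁻¹‖ = exp (-log ‖1 - w‖) := by rw [exp_neg, exp_log h4, norm_inv]
    _ ≤ exp (-log (1 - ‖w‖) + (w.re - ‖w‖)) := exp_le_exp.2 (by linarith)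
    _ = _ := by rw [exp_add, exp_neg, exp_log (sub_pos.2 hw)]

theorem xFz_pow {p : ℕ} (hp : 0 < p) (k : ℤ) :
    (p : ℂ) ^ (-sk k) = ((1 / p : ℝ) : ℂ) * ee k (-th p) := by
  have h0 : (0 : ℝ) < p := by exact_mod_cast hp
  have h1 : ((1 / p : ℝ) : ℂ) = Complex.exp (-(Real.log p : ℝ)) := by
    rw [← Complex.ofReal_neg, ← Complex.ofReal_exp, exp_neg, exp_log h0, one_div]
  rw [Complex.cpow_def_of_ne_zero (by exact_mod_cast hp.ne'), ← Complex.natCast_log, h1, ee,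
    ← Complex.exp_add, sk, tk, th, logb]
  congr 1
  push_cast
  ring

theorem xFz_norm (p : ℕ) (k : ℤ) : ‖((1 / p : ℝ) : ℂ) * ee k (-th p)‖ = 1 / p := by
  rw [norm_mul, ee, Complex.norm_exp_ofReal_mul_I, mul_one, Complex.norm_real,
    Real.norm_of_nonneg (by positivity)]

theorem xFz_main (j : ℕ) (k : ℤ) (T : Finset ℕ) (hT : T ⊆ Pr j) : ‖Fz j (sk k)‖ ≤ Fb j *
    exp (∑ p ∈ T, (-2 * (((1 / p : ℝ) : ℂ) * ee k (-th p)).re - 2 * (1 / p : ℝ))) := by
  have h3 : ∀ p ∈ Pr j, 3 ≤ p := fun p hp => (mem_Icc.1 (mem_filter.1 hp).1).1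
  have hlt : ∀ p ∈ Pr j, 2 / (p : ℝ) < 1 := fun p hp => by
    have : (3 : ℝ) ≤ p := by exact_mod_cast h3 p hp
    rw [div_lt_one (by linarith)]
    linarith
  have hF : 0 ≤ Fb j := prod_nonneg fun p hp => inv_nonneg.2 (sub_pos.2 (hlt p hp)).le
  calc ‖Fz j (sk k)‖ ≤ ∏ p ∈ Pr j, ((1 - 2 / (p : ℝ))⁻¹ *
        exp (-2 * (((1 / p : ℝ) : ℂ) * ee k (-th p)).re - 2 * (1 / p : ℝ))) := by
        rw [Fz, norm_prod]
        refine prod_le_prod (fun _ _ => norm_nonneg _) fun p hp => ?_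
        have hn : ‖-2 * (((1 / p : ℝ) : ℂ) * ee k (-th p))‖ = 2 / p := by
          rw [norm_mul, xFz_norm]
          simp [div_eq_mul_inv]
        have h := xFz_one (w := -2 * (((1 / p : ℝ) : ℂ) * ee k (-th p))) (hn ▸ hlt p hp)
        have hr : ∀ z : ℂ, (-2 * z).re = -2 * z.re := fun z => by simp
        rw [hn, hr, neg_mul (2 : ℂ), sub_neg_eq_add] at h
        rw [xFz_pow (by have := h3 p hp; omega), mul_one_div]
        exact h
    _ = Fb j * exp (∑ p ∈ Pr j,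
        (-2 * (((1 / p : ℝ) : ℂ) * ee k (-th p)).re - 2 * (1 / p : ℝ))) := by
        rw [prod_mul_distrib, exp_sum, Fb]
    _ ≤ _ := by
        refine mul_le_mul_of_nonneg_left (exp_le_exp.2 ?_) hF
        refine sum_le_sum_of_subset_of_nonpos' hT fun p _ _ => ?_
        have h := (abs_le.1 ((Complex.abs_re_le_norm _).trans_eq (xFz_norm p k))).1
        linarith

theorem stFz : StFz := by
  intro j k
  refine ⟨by simpa using xFz_main j k ∅ (empty_subset _), fun j₀ V S hj hV hS => ?_⟩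
  have hsub : Pr j₀ ⊆ Pr j := filter_subset_filter _
    (Icc_subset_Icc_right (Nat.pow_le_pow_right two_pos hj))
  have hF : 0 ≤ Fb j := (norm_nonneg _).trans (by simpa using xFz_main j k ∅ (empty_subset _))
  refine (xFz_main j k _ hsub).trans (mul_le_mul_of_nonneg_left (exp_le_exp.2 ?_) hF)
  rw [sum_sub_distrib, ← mul_sum, ← mul_sum, ← Complex.re_sum]
  have h := (abs_le.1 ((Complex.abs_re_le_norm _).trans hV)).1
  linarith

end Pool.Agent.MP_88bd62_nt.U
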