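import Pool.Agent.MP_88bd62_nt.U.Stmts

namespace Pool.Agent.MP_88bd62_nt.U

open Finset Real
open scoped ENNReal

open Classical in
noncomputable def xGr_n1 (jz e : ℕ) : ℝ≥0∞ :=
  if e.Coprime 210 ∧ Sm jz e then ENNReal.ofReal (1 / e) else 0

noncomputable def xGr_n3 (jD jz f : ℕ) : ℝ≥0∞ :=
  if f.Coprime 210 ∧ 2 ^ jD < f ∧ f ≤ 2 ^ (jD + jz) then ENNReal.ofReal (1 / f) else 0

noncomputable def xGr_inv : ℕ →* ℝ where
  toFun n := (n : ℝ)⁻¹
  map_one' := by simp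
  map_mul' a b := by push_cast; rw [mul_inv]

theorem xGr_ge (p : ℕ) (hp : p.Prime) (h : p.Coprime 210) : 11 ≤ p := by
  by_contra hc
  have h2 := hp.two_le
  have h3 : p ≤ 10 := by omega
  interval_cases p <;> revert h <;> decide

theorem xGr_Mz_nonneg (jz : ℕ) : 0 ≤ Mz jz := by
  refine Finset.prod_nonneg fun p hp => inv_nonneg.2 (sub_nonneg.2 ?_)
  have h1 : (1 : ℝ) ≤ p := by exact_mod_cast (Finset.mem_filter.1 hp).2.one_le
  exact (div_le_one (by linarith)).2 h1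

theorem xGr_mass (jz : ℕ) : ∑' n, xGr_n1 jz n ≤ ENNReal.ofReal (Mz jz) := by
  have h := EulerProduct.summable_and_hasSum_factoredNumbers_prod_filter_prime_geometric
    (f := xGr_inv) (fun {p} hp => by
      have h1 : (1 : ℝ) < p := by exact_mod_cast hp.one_lt
      change ‖(p : ℝ)⁻¹‖ < 1
      rw [norm_inv, Real.norm_natCast]
      exact inv_lt_one_of_one_lt₀ h1) (Icc 11 (2 ^ jz))
  have e : Mz jz = ∑' m : Nat.factoredNumbers (Icc 11 (2 ^ jz)), xGr_inv m := by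
    rw [h.2.tsum_eq, Mz]
    refine Finset.prod_congr rfl fun p _ => ?_
    rw [one_div]
    rfl
  rw [e, ENNReal.ofReal_tsum_of_nonneg (f := fun m : Nat.factoredNumbers (Icc 11 (2 ^ jz)) =>
      xGr_inv m) (fun m => inv_nonneg.2 (Nat.cast_nonneg _)) h.2.summable,
    tsum_subtype (Nat.factoredNumbers (Icc 11 (2 ^ jz))) fun m => ENNReal.ofReal (xGr_inv m)]
  refine ENNReal.tsum_le_tsum fun n => ?_
  unfold xGr_n1
  split_ifs with hn
  · have hm : n ∈ Nat.factoredNumbers (Icc 11 (2 ^ jz)) := by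
      rw [Nat.mem_factoredNumbers']
      intro p hp hd
      exact Finset.mem_Icc.2 ⟨xGr_ge p hp (Nat.Coprime.coprime_dvd_left hd hn.1), hn.2 p hp hd⟩
    rw [Set.indicator_of_mem hm, one_div]
    exact le_rfl
  · exact zero_le

theorem xGr_exp {l : ℝ} (h0 : 0 ≤ l) (h1 : l ≤ 1 / 64) :
    (2 : ℝ) ^ l - 1 ≤ 1.011 * log 2 * l ∧ (2 : ℝ) ^ l ≤ 1.011 := by
  have ha := Real.log_two_lt_d9
  have hb := Real.log_two_gt_d9
  have hy0 : 0 ≤ log 2 * l := by positivity
  have hy1 : log 2 * l ≤ 0.010831 := by nlinarith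
  have h2 := Real.abs_exp_sub_one_sub_id_le (x := log 2 * l) (by rw [abs_of_nonneg hy0]; linarith)
  have h3 := (abs_le.1 h2).2
  rw [Real.rpow_def_of_pos (by norm_num : (0 : ℝ) < 2)]
  constructor <;> nlinarith

theorem xGr_geom (a n : ℕ) : ∑ j ∈ Ico a n, (1 : ℝ) / 2 ^ j ≤ 2 / 2 ^ a := by
  rw [Finset.sum_Ico_eq_sum_range]
  have h := sum_geometric_two_le (n - a)
  have e : ∑ j ∈ range (n - a), (1 : ℝ) / 2 ^ (a + j) =
      1 / 2 ^ a * ∑ j ∈ range (n - a), (1 / 2 : ℝ) ^ j := by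
    rw [Finset.mul_sum]
    refine Finset.sum_congr rfl fun j _ => ?_
    rw [pow_add, one_div_pow]
    field_simp
  rw [e]
  have h2 : (0 : ℝ) < 1 / 2 ^ a := by positivity
  calc _ ≤ 1 / 2 ^ a * 2 := mul_le_mul_of_nonneg_left h h2.le
    _ = _ := by ring

theorem xGr_IB3 (hIB : StIB) (hCount : StCount) (jD jz : ℕ) :
    IB (xGr_n3 jD jz) (1.011 * log 2 * (8 / 35) * (jz + 1)) (1.011 * 6.06 / 2 ^ jD) := by
  have hl2 : 0 < log 2 := Real.log_pos (by norm_num)
  refine hIB.2.2.2.2.2 _ jD (fun j => if j ≤ jD + jz then 1.011 * log 2 * (8 / 35) else 0)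
    (fun j => 1.011 * 3.03 * (1 / 2 ^ j)) _ _ (fun n hn => ?_) (fun j => ⟨?_, by positivity⟩)
    (fun j _ x l hx _ hl0 hl1 => ?_) (fun n => ?_) (fun n => ?_)
  · unfold xGr_n3
    rw [if_neg (fun h => by omega)]
  · split_ifs <;> positivity
  · have hx0 : 0 < x := lt_of_lt_of_le (by positivity) hx
    have hgt : ∀ n ∈ Ioc ⌊x⌋₊ ⌊x * 2 ^ l⌋₊, x < n := fun n hn =>
      (Nat.floor_lt hx0.le).1 (Finset.mem_Ioc.1 hn).1
    have hE := xGr_exp (l := 1 / 64) (by norm_num) le_rfl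
    have hxj : (2 : ℝ) ^ j ≤ 1.011 * x := by
      have e : (2 : ℝ) ^ j = 2 ^ ((j : ℝ) - 1 / 64) * 2 ^ (1 / 64 : ℝ) := by
        rw [← Real.rpow_add (by norm_num), sub_add_cancel, Real.rpow_natCast]
      rw [e, mul_comm]
      exact mul_le_mul hE.2 hx (by positivity) (by norm_num)
    split_ifs with hj
    · have h1 := xGr_exp hl0 hl1
      have h2 : (1 : ℝ) ≤ 2 ^ l := Real.one_le_rpow (by norm_num) hl0
      have h3 := (hCount.1 x (x * (2 ^ l - 1)) hx0.le (mul_nonneg hx0.le (by linarith))).2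
      rw [show x + x * (2 ^ l - 1) = x * 2 ^ l by ring] at h3
      calc ∑ n ∈ Ioc ⌊x⌋₊ ⌊x * 2 ^ l⌋₊, xGr_n3 jD jz n
          ≤ ∑ n ∈ Ioc ⌊x⌋₊ ⌊x * 2 ^ l⌋₊, if n.Coprime 210 then ENNReal.ofReal (1 / x) else 0 := by
            refine Finset.sum_le_sum fun n hn => ?_
            unfold xGr_n3
            split_ifs with h4 h5
            · exact ENNReal.ofReal_le_ofReal (one_div_le_one_div_of_le hx0 (hgt n hn).le)
            · exact absurd h4.1 h5
            · exact zero_le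
            · exact le_rfl
        _ = ENNReal.ofReal ((((Ioc ⌊x⌋₊ ⌊x * 2 ^ l⌋₊).filter fun n => n.Coprime 210).card : ℝ) *
              (1 / x)) := by
            rw [← Finset.sum_filter, Finset.sum_const, nsmul_eq_mul,
              ENNReal.ofReal_mul (Nat.cast_nonneg _), ENNReal.ofReal_natCast]
        _ ≤ _ := by
            refine ENNReal.ofReal_le_ofReal ?_
            have h6 : (0 : ℝ) < 1 / x := by positivity
            have h7 : 1 / x ≤ 1.011 * (1 / 2 ^ j) := by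
              rw [mul_one_div, div_le_div_iff₀ hx0 (by positivity)]
              linarith
            calc _ ≤ (8 / 35 * (x * (2 ^ l - 1)) + 3.03) * (1 / x) :=
                  mul_le_mul_of_nonneg_right h3 h6.le
              _ = 8 / 35 * (2 ^ l - 1) + 3.03 * (1 / x) := by field_simp
              _ ≤ _ := by linarith [h1.1]
    · refine le_of_eq_of_le (Finset.sum_eq_zero fun n hn => ?_) zero_le
      unfold xGr_n3
      refine if_neg fun h => ?_
      have h1 : (n : ℝ) ≤ 2 ^ (jD + jz) := by exact_mod_cast h.2.2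
      have h2 : (2 : ℝ) ^ (jD + jz + 1) ≤ 2 ^ j := pow_le_pow_right₀ (by norm_num) (by omega)
      rw [pow_succ] at h2
      linarith [hgt n hn]
  · rw [← Finset.sum_filter, Finset.sum_const, nsmul_eq_mul, mul_comm]
    refine mul_le_mul_of_nonneg_left ?_ (by positivity)
    have h1 : ((Ico jD n).filter fun j => j ≤ jD + jz).card ≤ jz + 1 := by
      refine (Finset.card_le_card (t := Icc jD (jD + jz)) fun j hj => ?_).trans
        (by rw [Nat.card_Icc]; omega)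
      rw [Finset.mem_filter, Finset.mem_Ico] at hj
      exact Finset.mem_Icc.2 ⟨hj.1.1, hj.2⟩
    exact_mod_cast h1
  · rw [← Finset.mul_sum]
    have h1 := xGr_geom jD n
    calc _ ≤ 1.011 * 3.03 * (2 / 2 ^ jD) := mul_le_mul_of_nonneg_left h1 (by norm_num)
      _ = _ := by ring

theorem xGr_div {jD jz f : ℕ} (hs : Sm jz f) (hf : 2 ^ jD < f) :
    ∃ d, d ∣ f ∧ 2 ^ jD < d ∧ d ≤ 2 ^ (jD + jz) := by
  classical
  have hex : ∃ d, d ∣ f ∧ 2 ^ jD < d := ⟨f, dvd_rfl, hf⟩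
  obtain ⟨h1, h2⟩ := Nat.find_spec hex
  refine ⟨_, h1, h2, ?_⟩
  have h3 : Nat.find hex ≠ 1 := by
    have := Nat.one_le_two_pow (n := jD)
    omega
  have hp := Nat.minFac_prime h3
  obtain ⟨c, hc⟩ := Nat.minFac_dvd (Nat.find hex)
  have h4 := hs _ hp ((Nat.minFac_dvd _).trans h1)
  have hc0 : 0 < c := Nat.pos_of_ne_zero fun h => by
    rw [h, mul_zero] at hc
    rw [hc] at h2
    exact Nat.not_lt_zero _ h2
  have h5 : c < Nat.find hex := by
    have := hp.two_le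
    nlinarith
  have h6 : c ≤ 2 ^ jD := by
    by_contra h
    exact Nat.find_min hex h5 ⟨(Dvd.intro_left _ hc.symm).trans h1, not_le.1 h⟩
  rw [hc, pow_add, mul_comm]
  exact Nat.mul_le_mul h6 h4

theorem xGr_n1_eq {jz m e : ℕ} (hm : m.Coprime 210) (hs : Sm jz m) (he : e ∣ m) :
    xGr_n1 jz e = ENNReal.ofReal (1 / e) :=
  if_pos ⟨Nat.Coprime.coprime_dvd_left he hm, fun p hp hd => hs p hp (hd.trans he)⟩

theorem xGr_mul (a b : ℕ) :
    ENNReal.ofReal (1 / (a : ℝ)) * ENNReal.ofReal (1 / (b : ℝ)) =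
      ENNReal.ofReal (1 / ((a * b : ℕ) : ℝ)) := by
  rw [← ENNReal.ofReal_mul (by positivity), one_div_mul_one_div, Nat.cast_mul]

theorem xGr_conv {jD jz f : ℕ} (hm : f.Coprime 210) (hs : Sm jz f) (hf : 2 ^ jD < f) :
    ENNReal.ofReal (1 / f) ≤ conv (xGr_n1 jz) (xGr_n3 jD jz) f := by
  obtain ⟨d, ⟨c, hc⟩, h1, h2⟩ := xGr_div hs hf
  have hmem : (c, d) ∈ f.divisorsAntidiagonal :=
    Nat.mem_divisorsAntidiagonal.2 ⟨by rw [hc, mul_comm], (Nat.zero_lt_of_lt hf).ne'⟩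
  refine le_trans (le_of_eq ?_) (Finset.single_le_sum
    (f := fun x : ℕ × ℕ => xGr_n1 jz x.1 * xGr_n3 jD jz x.2) (fun _ _ => zero_le) hmem)
  have e : xGr_n3 jD jz d = ENNReal.ofReal (1 / d) :=
    if_pos ⟨Nat.Coprime.coprime_dvd_left ⟨c, hc⟩ hm, h1, h2⟩
  rw [xGr_n1_eq hm hs (Dvd.intro_left _ hc.symm), e, xGr_mul, hc, mul_comm c d]

theorem xGr_card (m : ℕ) :
    m.divisors.card ≤ 2 * (m.divisorsAntidiagonal.filter fun x => x.1 ≤ x.2).card := by
  have h1 : m.divisors.card = m.divisorsAntidiagonal.card := by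
    rw [← Nat.map_div_right_divisors, Finset.card_map]
  have h2 := Finset.card_filter_add_card_filter_not (s := m.divisorsAntidiagonal)
    (fun x : ℕ × ℕ => x.1 ≤ x.2)
  have h3 : (m.divisorsAntidiagonal.filter fun x => ¬ x.1 ≤ x.2).card ≤
      (m.divisorsAntidiagonal.filter fun x => x.1 ≤ x.2).card := by
    refine Finset.card_le_card_of_injOn Prod.swap (fun x hx => ?_) Prod.swap_injective.injOn
    rw [Finset.mem_coe, Finset.mem_filter] at hx ⊢
    exact ⟨Nat.swap_mem_divisorsAntidiagonal.2 hx.1, (not_le.1 hx.2).le⟩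
  omega

theorem xGr_pt (jD jz m : ℕ) : nuD (fun m => 4 ^ jD < m ∧ Sm jz m) m ≤
    (conv (xGr_n1 jz) (conv (xGr_n1 jz) (xGr_n3 jD jz)) +
      conv (xGr_n1 jz) (conv (xGr_n1 jz) (xGr_n3 jD jz))) m := by
  unfold nuD
  split_ifs with h
  swap
  · exact zero_le
  obtain ⟨hm, hlt, hs⟩ := h
  set A := m.divisorsAntidiagonal.filter fun x => x.1 ≤ x.2 with hA
  have h1 : (A.card : ℝ≥0∞) * ENNReal.ofReal (1 / m) ≤
      conv (xGr_n1 jz) (conv (xGr_n1 jz) (xGr_n3 jD jz)) m := by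
    rw [← nsmul_eq_mul, ← Finset.sum_const]
    refine le_trans (Finset.sum_le_sum fun x hx => ?_)
      (Finset.sum_le_sum_of_subset (Finset.filter_subset _ _))
    obtain ⟨hx1, hx2⟩ := Finset.mem_filter.1 hx
    have e := (Nat.mem_divisorsAntidiagonal.1 hx1).1
    have hd : x.2 ∣ m := Dvd.intro_left _ e
    have hf : 2 ^ jD < x.2 := by
      by_contra hc
      have h2 : x.1 * x.2 ≤ 2 ^ jD * 2 ^ jD :=
        Nat.mul_le_mul (hx2.trans (not_lt.1 hc)) (not_lt.1 hc)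
      rw [e, ← mul_pow] at h2
      exact absurd hlt (not_lt.2 h2)
    rw [xGr_n1_eq hm hs (Dvd.intro _ e), ← e, ← xGr_mul]
    exact mul_le_mul_right (xGr_conv (Nat.Coprime.coprime_dvd_left hd hm)
      (fun p hp hq => hs p hp (hq.trans hd)) hf) _
  have h2 : ENNReal.ofReal ((m.divisors.card : ℝ) / m) ≤
      (A.card : ℝ≥0∞) * ENNReal.ofReal (1 / m) + (A.card : ℝ≥0∞) * ENNReal.ofReal (1 / m) := by
    rw [← add_mul, ← Nat.cast_add, ← ENNReal.ofReal_natCast,
      ← ENNReal.ofReal_mul (Nat.cast_nonneg _), mul_one_div]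
    refine ENNReal.ofReal_le_ofReal (div_le_div_of_nonneg_right ?_ (Nat.cast_nonneg _))
    have := xGr_card m
    rw [← hA] at this
    exact_mod_cast (by omega : m.divisors.card ≤ A.card + A.card)
  exact h2.trans (add_le_add h1 h1)

theorem stGr (hIB : StIB) (hCount : StCount) : StGr := by
  intro jz jD M hM
  have hM0 : 0 ≤ M := (xGr_Mz_nonneg jz).trans hM
  have hl2 : 0 < log 2 := Real.log_pos (by norm_num)
  have hm := (xGr_mass jz).trans (ENNReal.ofReal_le_ofReal hM)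
  have h1 := hIB.2.2.2.1 _ _ M _ _ hM0 hm (hIB.2.2.2.1 _ _ M _ _ hM0 hm (xGr_IB3 hIB hCount jD jz))
  have h2 := hIB.2.2.1 _ _ _ _ _ _ (by positivity) (by positivity) (by positivity) (by positivity)
    h1 h1
  refine hIB.2.1 _ _ _ _ _ (le_of_eq ?_) (le_of_eq ?_) (hIB.1 _ _ _ _ (xGr_pt jD jz) h2)
  · unfold aGr; ring
  · unfold bGr; ring

end Pool.Agent.MP_88bd62_nt.U
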