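import Pool.Agent.MP_88bd62_nt.U.Stmts

set_option autoImplicit false

open Real Finset

namespace Pool.Agent.MP_88bd62_nt.U

theorem xGrow_one {c c' : ℝ} (hc : 0 ≤ c) (hc2 : c ≤ 2) (hcc : c * 1.00005 ≤ c') {p : ℝ}
    (hp : 2 ^ 20 ≤ p) : (1 - c / p)⁻¹ ≤ exp (c' * (1 / p)) := by
  have hp0 : (0 : ℝ) < p := by linarith [show (0 : ℝ) < 2 ^ 20 by norm_num]
  have hy : c / p ≤ 2 / 2 ^ 20 := by
    rw [div_le_div_iff₀ hp0 (by norm_num)]; nlinarith
  have hy0 : 0 ≤ c / p := div_nonneg hc hp0.le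
  have h1 : 0 < 1 - c / p := by
    have : (2 : ℝ) / 2 ^ 20 < 1 := by norm_num
    linarith
  have h2 : c / p * 1.00005 ≤ c' * (1 / p) := by
    have : c / p * 1.00005 = c * 1.00005 * (1 / p) := by ring
    rw [this]; exact mul_le_mul_of_nonneg_right hcc (by positivity)
  have h3 := add_one_le_exp (c' * (1 / p))
  have h4 : (1 - c / p)⁻¹ ≤ c / p * 1.00005 + 1 := by
    rw [inv_le_iff_one_le_mul₀ h1]
    have : c / p ≤ 0.000002 := hy.trans (by norm_num)
    nlinarith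
  linarith

theorem xGrow_gen (hMert : StMert) (a : ℕ) (ha : 3 ≤ a) (ha2 : a ≤ 2 ^ 20) {c c' : ℝ} (hc : 0 ≤ c)
    (hc2 : c ≤ 2) (hcc : c * 1.00005 ≤ c') (j : ℕ) (hj : 20 ≤ j) :
    ∏ p ∈ (Icc a (2 ^ j)).filter Nat.Prime, (1 - c / (p : ℝ))⁻¹ ≤
      (∏ p ∈ (Icc a (2 ^ 20)).filter Nat.Prime, (1 - c / (p : ℝ))⁻¹) *
        exp (c' * (log (j / 20) + eM 20)) := by
  have hle : 2 ^ 20 ≤ 2 ^ j := Nat.pow_le_pow_right (by norm_num) hj
  have hU : (Icc a (2 ^ j)).filter Nat.Prime =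
      (Icc a (2 ^ 20)).filter Nat.Prime ∪ (Ioc (2 ^ 20) (2 ^ j)).filter Nat.Prime := by
    rw [← filter_union]
    congr 1
    ext x
    simp only [mem_Icc, mem_union, mem_Ioc]
    omega
  have hD : Disjoint ((Icc a (2 ^ 20)).filter Nat.Prime)
      ((Ioc (2 ^ 20) (2 ^ j)).filter Nat.Prime) := by
    rw [disjoint_left]
    intro x h1 h2
    simp only [mem_filter, mem_Icc, mem_Ioc] at h1 h2
    omega
  rw [hU, prod_union hD]
  have hc' : 0 ≤ c' := le_trans (by positivity) hcc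
  refine mul_le_mul_of_nonneg_left ?_ (prod_nonneg fun p hp => ?_)
  · have hM := hMert (2 ^ 20) (2 ^ j) le_rfl hle
    have hl2 : log 2 ≠ 0 := (log_pos (by norm_num)).ne'
    have e1 : log (((2 ^ j : ℕ) : ℝ)) / log (((2 ^ 20 : ℕ) : ℝ)) = j / 20 := by
      rw [Nat.cast_pow, Nat.cast_pow, log_pow, log_pow]
      push_cast
      field_simp
    have e2 : 1.42 / log (((2 ^ 20 : ℕ) : ℝ)) = eM 20 := by
      rw [Nat.cast_pow, log_pow, eM]; norm_num
    rw [e1, e2] at hM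
    calc ∏ p ∈ (Ioc (2 ^ 20) (2 ^ j)).filter Nat.Prime, (1 - c / (p : ℝ))⁻¹
        ≤ ∏ p ∈ (Ioc (2 ^ 20) (2 ^ j)).filter Nat.Prime, exp (c' * (1 / (p : ℝ))) := by
          refine prod_le_prod (fun p hp => ?_) (fun p hp => ?_)
          · simp only [mem_filter, mem_Ioc] at hp
            have h3 : (2 : ℝ) ≤ p := by exact_mod_cast hp.2.two_le
            have : c / p ≤ 1 := by rw [div_le_one (by linarith)]; linarith
            exact inv_nonneg.2 (by linarith)
          · simp only [mem_filter, mem_Ioc] at hp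
            exact xGrow_one hc hc2 hcc (by exact_mod_cast hp.1.1.le)
      _ = exp (c' * ∑ p ∈ (Ioc (2 ^ 20) (2 ^ j)).filter Nat.Prime, (1 / (p : ℝ))) := by
          rw [mul_sum, exp_sum]
      _ ≤ _ := exp_le_exp.2 (mul_le_mul_of_nonneg_left hM hc')
  · simp only [mem_filter, mem_Icc] at hp
    have h3 : (2 : ℝ) ≤ p := by exact_mod_cast hp.2.two_le
    have : c / p ≤ 1 := by rw [div_le_one (by linarith)]; linarith
    exact inv_nonneg.2 (by linarith)

theorem stGrow (hMert : StMert) : StGrow := by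
  intro j hj
  refine ⟨?_, ?_⟩
  · unfold Fb Pr
    exact xGrow_gen hMert _ (by norm_num) (by norm_num) (by norm_num) le_rfl (by norm_num) j hj
  · unfold Mz
    exact xGrow_gen hMert 11 (by norm_num) (by norm_num) (by norm_num) (by norm_num)
      (by norm_num) j hj

end Pool.Agent.MP_88bd62_nt.U
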