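import Pool.Agent.MP_88bd62_nt.U.HPb

/-! The bound for the high pass part. -/

namespace Pool.Agent.MP_88bd62_nt.U

open Finset Real MeasureTheory
open scoped ENNReal

noncomputable section

lemma xHP_G (v w y η : ℝ) (hη : η ≤ 1 / 1000) (hw : |w| ≤ η) (hy0 : 0 ≤ y) :
    |2 * (2 ^ w * sg (v + w)) - sg (v - y) - sg (v + y)| ≤
      (y ^ 2 + 3 * (1 - xHP_i (1 / 128) y)) + 1.007 * xHP_r v y
        + 2.014 * (xHP_i η y * xHP_q v η) := by
  by_cases hy : y ≤ 1 / 128
  · have h := xHP_pt v w y η hη hw hy0 hy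
    have e1 : xHP_i (1 / 128) y = 1 := if_pos hy
    have e2 : xHP_i η y * xHP_q v η = if y ≤ η then xHP_q v η else 0 := by
      unfold xHP_i
      split_ifs <;> simp
    rw [xHP_r, e1, e2]
    linarith
  · have h := xHP_pt_far v w y (hw.trans hη)
    have e1 : xHP_i (1 / 128) y = 0 := if_neg hy
    have a1 := xHP_r_nonneg v y
    have a2 := mul_nonneg (xHP_i_nonneg η y) (xHP_q_nonneg v η)
    rw [e1]
    nlinarith [sq_nonneg y]

lemma xHP_summ {b f : ℕ → ℝ} (b0 : ∀ n, 0 ≤ b n) (hb : Summable b) {C : ℝ} (f0 : ∀ n, 0 ≤ f n)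
    (f1 : ∀ n, f n ≤ C) : Summable fun n => b n * f n :=
  Summable.of_nonneg_of_le (fun n => mul_nonneg (b0 n) (f0 n))
    (fun n => mul_le_mul_of_nonneg_left (f1 n) (b0 n)) (hb.mul_right C)

lemma xHP_Phi {a : ℕ → ℝ} (h : AC a) (x : ℝ) :
    HasSum (fun n : ℕ => a n / n * sg (x - th n)) (Phi a x) := by
  refine (Summable.of_norm_bounded (g := fun n : ℕ => |a n| / n) h fun n => ?_).hasSum
  rw [Real.norm_eq_abs, abs_mul, abs_div, Nat.abs_cast]
  exact mul_le_of_le_one_right (by positivity) ((xHP_abs_sg_le _).trans (by norm_num))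

lemma xHP_tot {η A B : ℝ} {a νE g : ℕ → ℝ} {u u' : ℝ} (hη0 : 0 ≤ η) (hη : η ≤ 1 / 1000)
    (hA : 0 ≤ A) (hB : 0 ≤ B) (hE0 : ∀ n, 0 ≤ νE n) (hEs : Summable νE) (g0 : ∀ n, 0 ≤ g n)
    (gs : Summable g) (gM : ∑' n, g n ≤ A + 64 * B)
    (gI : ∀ u y : ℝ, 0 ≤ y → y ≤ 1 / 128 → ∑' n, g n * xHP_q (u - th n) y ≤ 2 * A * y + B)
    (hb : ∀ n : ℕ, |a n| / n ≤ νE n + g n) (hAC : AC a) (hu : |u - u'| ≤ η) {y : ℝ}
    (hy : 0 ≤ y) :
    |2 * (2 ^ (u - u') * Phi a u) - Phi a (u' - y) - Phi a (u' + y)| ≤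
      (y ^ 2 + 3 * (1 - xHP_i (1 / 128) y)) * (A + 64 * B + ∑' n, νE n)
        + 1.007 * (∑' n, νE n * xHP_r (u' - th n) y + (2 * A * y + B))
        + 2.014 * (xHP_i η y * (∑' n, νE n * xHP_q (u' - th n) η + (2 * A * η + B))) := by
  have h1 := ((((xHP_Phi hAC u).mul_left (2 ^ (u - u'))).mul_left 2).sub
    (xHP_Phi hAC (u' - y))).sub (xHP_Phi hAC (u' + y))
  have s1 := xHP_summ hE0 hEs (fun n => xHP_r_nonneg (u' - th n) y) fun n => xHP_r_le_one _ y
  have s2 := xHP_summ g0 gs (fun n => xHP_r_nonneg (u' - th n) y) fun n => xHP_r_le_one _ y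
  have s3 := xHP_summ hE0 hEs (fun n => xHP_q_nonneg (u' - th n) η) fun n => xHP_q_le_one _ η
  have s4 := xHP_summ g0 gs (fun n => xHP_q_nonneg (u' - th n) η) fun n => xHP_q_le_one _ η
  have h2 := (((gs.hasSum.add hEs.hasSum).mul_left (y ^ 2 + 3 * (1 - xHP_i (1 / 128) y))).add
    ((s1.hasSum.add s2.hasSum).mul_left 1.007)).add
    (((s3.hasSum.add s4.hasSum).mul_left (xHP_i η y)).mul_left 2.014)
  rw [← h1.tsum_eq, ← Real.norm_eq_abs]
  refine (tsum_of_norm_bounded h2 fun n => ?_).trans ?_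
  · have hG := xHP_G (u' - th n) (u - u') y η hη hu hy
    have e1 : u - th n = u' - th n + (u - u') := by ring
    have e2 : u' - y - th n = u' - th n - y := by ring
    have e3 : u' + y - th n = u' - th n + y := by ring
    rw [e1, e2, e3]
    have e : 2 * (2 ^ (u - u') * (a n / n * sg (u' - th n + (u - u'))))
        - a n / n * sg (u' - th n - y) - a n / n * sg (u' - th n + y) =
        a n / n * (2 * (2 ^ (u - u') * sg (u' - th n + (u - u'))) - sg (u' - th n - y)
          - sg (u' - th n + y)) := by ring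
    rw [e, Real.norm_eq_abs, abs_mul, abs_div, Nat.abs_cast]
    refine (mul_le_mul (hb n) hG (abs_nonneg _) (add_nonneg (hE0 n) (g0 n))).trans (le_of_eq ?_)
    ring
  · have a1 : ∑' n, g n * xHP_r (u' - th n) y ≤ 2 * A * y + B := by
      by_cases h : y ≤ 1 / 128
      · have e1 : xHP_i (1 / 128) y = 1 := if_pos h
        simp only [xHP_r, e1, one_mul]
        exact gI u' y hy h
      · have e1 : xHP_i (1 / 128) y = 0 := if_neg h
        simp only [xHP_r, e1, zero_mul, mul_zero, tsum_zero]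
        positivity
    have a2 := gI u' η hη0 (by linarith)
    have a3 : 0 ≤ y ^ 2 + 3 * (1 - xHP_i (1 / 128) y) := by
      nlinarith [sq_nonneg y, xHP_i_le_one (1 / 128) y]
    have a4 := mul_le_mul_of_nonneg_left gM a3
    have a5 := mul_le_mul_of_nonneg_left a2 (xHP_i_nonneg η y)
    linarith

lemma xHP_swap (hKerA : StKerA) {N : ℕ} (hN : 1 ≤ N) {νE : ℕ → ℝ} (hE0 : ∀ n, 0 ≤ νE n)
    (hEs : Summable νE) (v : ℕ → ℝ) :
    HasSum (fun n => νE n * ∫ y in (0 : ℝ)..1, ker N y * xHP_r (v n) y)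
      (∫ y in (0 : ℝ)..1, ker N y * ∑' n, νE n * xHP_r (v n) y) := by
  have hk := (hKerA N hN).1
  have h := hasSum_integral_of_summable_integral_norm (μ := volume.restrict (Set.Ioc (0 : ℝ) 1))
    (F := fun n y => νE n * (ker N y * xHP_r (v n) y))
    (fun n => (xHP_ii N (xHP_r_meas (v n)) (xHP_r_abs (v n)) 0 1).1.const_mul _) (by
      refine Summable.of_nonneg_of_le (fun n => integral_nonneg fun y => norm_nonneg _)
        (fun n => ?_) hEs
      have e : ∀ y, ‖νE n * (ker N y * xHP_r (v n) y)‖ = νE n * (ker N y * xHP_r (v n) y) :=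
        fun y => Real.norm_of_nonneg
          (mul_nonneg (hE0 n) (mul_nonneg (hk y).1 (xHP_r_nonneg _ _)))
      simp only [e]
      rw [integral_const_mul, ← intervalIntegral.integral_of_le zero_le_one]
      exact mul_le_of_le_one_right (hE0 n) (xHP_r_int hKerA hN _))
  have e : ∀ y, ∑' n, νE n * (ker N y * xHP_r (v n) y) = ker N y * ∑' n, νE n * xHP_r (v n) y :=
    fun y => by
      rw [← tsum_mul_left]
      exact tsum_congr fun n => by ring
  simp only [e, ← intervalIntegral.integral_of_le zero_le_one,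
    intervalIntegral.integral_const_mul] at h
  exact h

lemma xHP_fold (hKerA : StKerA) {N : ℕ} (hN : 1 ≤ N) {P : ℝ → ℝ} (u c : ℝ)
    (hI : IntervalIntegrable (fun y => ker N y * P (u - y)) volume (-1) 1) :
    c - 1 / 2 * ∫ y in (-1 : ℝ)..1, ker N y * P (u - y) =
      1 / 2 * ∫ y in (0 : ℝ)..1, ker N y * (2 * c - P (u - y) - P (u + y)) := by
  have h1 : IntervalIntegrable (fun y => ker N y * P (u - y)) volume 0 1 :=
    hI.mono_set (Set.uIcc_subset_uIcc (by simp) (by simp))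
  have h2 : IntervalIntegrable (fun y => ker N y * P (u - y)) volume (-1) 0 :=
    hI.mono_set (Set.uIcc_subset_uIcc (by simp) (by simp))
  have h3 : IntervalIntegrable (fun y => ker N y * P (u + y)) volume 0 1 := by
    have := ((IntervalIntegrable.iff_comp_neg enorm_ne_top).1 h2).symm
    simpa only [xHP_ker_neg, sub_neg_eq_add, neg_zero, neg_neg] using this
  have h4 : ∫ y in (-1 : ℝ)..0, ker N y * P (u - y) = ∫ y in (0 : ℝ)..1, ker N y * P (u + y) := by
    have := intervalIntegral.integral_comp_neg (a := 0) (b := 1) (fun y => ker N y * P (u - y))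
    simp only [xHP_ker_neg, sub_neg_eq_add, neg_zero] at this
    exact this.symm
  have h5 : IntervalIntegrable (fun y => 2 * c * ker N y) volume 0 1 :=
    ((xHP_ker_cont N).intervalIntegrable _ _).const_mul _
  have e : ∀ y, ker N y * (2 * c - P (u - y) - P (u + y)) =
      2 * c * ker N y - ker N y * P (u - y) - ker N y * P (u + y) := fun y => by ring
  simp only [e]
  rw [← intervalIntegral.integral_add_adjacent_intervals h2 h1, h4,
    intervalIntegral.integral_sub (h5.sub h1) h3, intervalIntegral.integral_sub h5 h1,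
    intervalIntegral.integral_const_mul, (hKerA N hN).2.1]
  ring

theorem stHP (hKerA : StKerA) (hKerC : StKerC) (hLP : StLP) : StHP := by
  intro N η A B a νE νG u u' hN hη0 hη hA hB hE0 hEs hIB hle hu
  have hN1 : 1 ≤ N := le_trans (by norm_num) hN
  have hN0 : (0 : ℝ) < N := by exact_mod_cast hN1
  obtain ⟨g, g0, gs, gM, gI, gle⟩ := xHP_real hA hB hIB
  have hb : ∀ n : ℕ, |a n| / n ≤ νE n + g n := fun n => gle n _ _ (hE0 n) (hle n)
  have hAC : AC a := Summable.of_nonneg_of_le (fun n => by positivity) hb (hEs.add gs)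
  refine ⟨hAC, ?_⟩
  obtain ⟨hI, hL⟩ := hLP N a hN1 hAC u'
  rw [← hL, ← Complex.ofReal_sub, Complex.norm_real, xHP_fold hKerA hN1 u' _ hI, norm_mul,
    Real.norm_of_nonneg (by norm_num : (0 : ℝ) ≤ 1 / 2)]
  have hk := (hKerA N hN1).1
  have hm : 0 ≤ ∑' n, νE n := tsum_nonneg hE0
  have s3 := xHP_summ hE0 hEs (fun n => xHP_q_nonneg (u' - th n) η) fun n => xHP_q_le_one _ η
  have hq : 0 ≤ ∑' n, νE n * xHP_q (u' - th n) η :=
    tsum_nonneg fun n => mul_nonneg (hE0 n) (xHP_q_nonneg _ _)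
  have hsw := xHP_swap hKerA hN1 hE0 hEs fun n => u' - th n
  have hps := xHP_summ hE0 hEs (fun n => (xHP_psi N hη0 (dZ (u' - th n))).1)
    fun n => (xHP_psi N hη0 _).2
  have hnode := hasSum_le (fun n => by
      have := mul_le_mul_of_nonneg_left (xHP_node hKerA hN (u' - th n) hη0) (hE0 n)
      linarith)
    ((hsw.mul_left (1.007 / 2)).add (s3.hasSum.mul_left (1.007 * (3 / 2 * N * η))))
    (hps.hasSum.add (hEs.hasSum.mul_left (0.01 / (N : ℝ) ^ 2)))
  have hSm : Measurable fun y => ∑' n, νE n * xHP_r (u' - th n) y :=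
    Measurable.tsum fun n => (xHP_r_meas _).const_mul _
  have hSb : ∀ y, |∑' n, νE n * xHP_r (u' - th n) y| ≤ ∑' n, νE n := fun y => by
    rw [← Real.norm_eq_abs]
    refine tsum_of_norm_bounded hEs.hasSum fun n => ?_
    rw [Real.norm_of_nonneg (mul_nonneg (hE0 n) (xHP_r_nonneg _ _))]
    exact mul_le_of_le_one_right (hE0 n) (xHP_r_le_one _ _)
  have htot := fun y (hy : 0 ≤ y) =>
    xHP_tot hη0 hη hA hB hE0 hEs g0 gs gM gI hb hAC hu (y := y) hy
  set M : ℝ := A + 64 * B + ∑' n, νE n with hM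
  set Q : ℝ := ∑' n, νE n * xHP_q (u' - th n) η + (2 * A * η + B) with hQ
  have hM0 : 0 ≤ M := by positivity
  have hQ0 : 0 ≤ Q := by positivity
  have i1 : IntervalIntegrable (fun y => M * (y ^ 2 * ker N y)) volume 0 1 :=
    (((continuous_pow 2).mul (xHP_ker_cont N)).intervalIntegrable _ _).const_mul _
  have i2 : IntervalIntegrable (fun y => 3 * M * (ker N y * (1 - xHP_i (1 / 128) y))) volume 0 1 :=
    (xHP_ii N (f := fun y => 1 - xHP_i (1 / 128) y) (measurable_const.sub (xHP_i_meas _)) (C := 1)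
      (fun y => abs_le.2
      ⟨by linarith [xHP_i_le_one (1 / 128) y], by linarith [xHP_i_nonneg (1 / 128) y]⟩)
      0 1).const_mul _
  have i3 := (xHP_ii N hSm hSb 0 1).const_mul 1.007
  have i4 : IntervalIntegrable (fun y => 2.014 * A * (y * ker N y)) volume 0 1 :=
    ((continuous_id.mul (xHP_ker_cont N)).intervalIntegrable _ _).const_mul _
  have i5 : IntervalIntegrable (fun y => 1.007 * B * ker N y) volume 0 1 :=
    ((xHP_ker_cont N).intervalIntegrable _ _).const_mul _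
  have i6 := (xHP_ii N (xHP_i_meas η) (xHP_i_abs η) 0 1).const_mul (2.014 * Q)
  have key := intervalIntegral.norm_integral_le_of_norm_le (μ := volume)
    (f := fun y => ker N y * (2 * (2 ^ (u - u') * Phi a u) - Phi a (u' - y) - Phi a (u' + y)))
    zero_le_one (Filter.Eventually.of_forall fun y hy => by
      rw [norm_mul, Real.norm_of_nonneg (hk y).1, Real.norm_eq_abs]
      refine (mul_le_mul_of_nonneg_left (htot y hy.1.le) (hk y).1).trans (le_of_eq ?_)
      ring) (((((i1.add i2).add i3).add i4).add i5).add i6)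
  rw [intervalIntegral.integral_add ((((i1.add i2).add i3).add i4).add i5) i6,
    intervalIntegral.integral_add (((i1.add i2).add i3).add i4) i5,
    intervalIntegral.integral_add ((i1.add i2).add i3) i4,
    intervalIntegral.integral_add (i1.add i2) i3, intervalIntegral.integral_add i1 i2] at key
  simp only [intervalIntegral.integral_const_mul] at key
  rw [(hKerA N hN1).2.1] at key
  have b1 := mul_le_mul_of_nonneg_left (hKerC N hN).2 hM0
  have b2 := mul_le_mul_of_nonneg_left (xHP_tail hKerA hN) hM0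
  have b4 := mul_le_mul_of_nonneg_left (hKerC N hN).1 hA
  have b6 := mul_le_mul_of_nonneg_left (xHP_near hKerA hN1 hη0 (by linarith)) hQ0
  have c1 : 0.01 / (N : ℝ) ^ 2 * ∑' n, νE n ≤ 0.01 / (N : ℝ) ^ 2 * M :=
    mul_le_mul_of_nonneg_left (by rw [hM]; linarith) (by positivity)
  have c2 : 0 ≤ M / (N : ℝ) ^ 2 := by positivity
  have e1 : M * (1 / (N : ℝ) ^ 2) = M / (N : ℝ) ^ 2 := by ring
  have e2 : M * (0.2 / (N : ℝ) ^ 2) = 0.2 * (M / (N : ℝ) ^ 2) := by ring
  have e3 : 0.01 / (N : ℝ) ^ 2 * M = 0.01 * (M / (N : ℝ) ^ 2) := by ring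
  have e4 : Q * (3 / 2 * N * η) = 3 / 2 * N * η * ∑' n, νE n * xHP_q (u' - th n) η
      + (A * (3 * N * η ^ 2) + B * (3 / 2 * N * η)) := by
    rw [hQ]; ring
  rw [e1] at b1
  rw [e2] at b2
  rw [e3] at c1
  rw [e4] at b6
  linarith

end

end Pool.Agent.MP_88bd62_nt.U
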