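import Pool.Agent.MP_88bd62_nt.U.Stmts

/-! The high pass part of the first stage. -/

namespace Pool.Agent.MP_88bd62_nt.U

open Finset Real
open scoped ENNReal

noncomputable section

theorem xHP0_Fb (j : ℕ) : 0 ≤ Fb j := by
  refine prod_nonneg fun p hp => inv_nonneg.2 (sub_nonneg.2 ?_)
  have h : (3 : ℝ) ≤ p := by exact_mod_cast (mem_Icc.1 (mem_filter.1 hp).1).1
  rw [div_le_one (by linarith)]
  linarith

theorem xHP0_aHy {jY jD : ℕ} (h : jY ≤ 2 * jD) : 0 ≤ aHy jY jD := by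
  have h1 : (jY : ℝ) ≤ 2 * jD := by exact_mod_cast h
  have h2 := log_nonneg (one_le_two (α := ℝ))
  have h3 : (0 : ℝ) ≤ 2 * jD - jY + 1 := by linarith
  unfold aHy
  positivity

theorem xHP0_aGr (j : ℕ) (M : ℝ) : 0 ≤ aGr j M := by
  have h2 := log_nonneg (one_le_two (α := ℝ))
  unfold aGr
  positivity

theorem stHP0 (hX : StX) (hHP : StHP) (hIB : StIB) (hMaj1 : StMaj1) (hMajE : StMajE) (hMass : StMass) (hCrude : StCrude) (hHy : StHy) (hGr : StGr) (hPrIB : StPrIB) (hEint : StEint) : StHP0 := by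
  intro P η h u u' hXO hPB _ hjz hjD hMz hFb hη hη' hu hh
  have hlev := (hX P hXO hMz).1
  obtain ⟨-, i2, i3, i4, i5, -⟩ := hIB
  obtain ⟨νr, hr, hE⟩ := hMajE
  obtain ⟨hL, ha, hb, ha0, hb0⟩ := hPB
  have p1 := i2 _ _ _ _ _ ha hb (hPrIB _ _ _ _ _ _ _ _ hL hlev)
  have hap : P.ap = pc 20 P.w := by rw [Par.ap, hjz]
  rw [hjz] at hMz hFb p1
  have hA : 0 ≤ P.A := (xHP0_Fb 20).trans hFb
  have hj : 30 ≤ 2 * P.jD := by omega
  have n1 := xHP0_aHy hj
  have n2 := xHP0_aGr 20 P.Mb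
  have n3 : 0 ≤ bHy 30 := by unfold bHy; positivity
  have n4 : 0 ≤ bGr P.jD P.Mb := by unfold bGr; positivity
  have q1 := i4 _ _ 0.00035 _ _ (by norm_num) hr hCrude.2.2
  have mSH : ∑' n, conv nuS nuH n ≤ ENNReal.ofReal 7.259 := by
    refine (i5 _ _).trans ((mul_le_mul' hMass.1 hMass.2.1).trans_eq ?_)
    rw [← ENNReal.ofReal_mul (by norm_num)]
    norm_num
  have q2 := i4 _ _ 7.259 _ _ (by norm_num) mSH (i3 _ _ _ _ _ _ (by positivity) (by positivity)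
    n2 n4 (i3 _ _ _ _ _ _ (by norm_num) (by norm_num) n1 n3 hCrude.2.1 (hHy 30 P.jD hj))
    (hGr 20 P.jD P.Mb hMz))
  have q3 := i4 _ _ P.A _ _ hA ((hMass.2.2.1 20).trans (ENNReal.ofReal_le_ofReal hFb))
    (i3 _ _ _ _ _ _ ha0 hb0 ha0 hb0 p1 p1)
  have q4 := i2 _ _ _ (A0 P) (B0 P) (le_of_eq (by unfold A0; ring)) (le_of_eq (by unfold B0; ring))
    (i3 _ _ _ _ _ _ (by positivity) (by positivity) (by positivity) (by positivity)
      (i3 _ _ _ _ _ _ (by norm_num) (by norm_num) (by positivity) (by positivity) q1 q2) q3)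
  have hA0 : 0 ≤ A0 P := by unfold A0; positivity
  have hB0 : 0 ≤ B0 P := by unfold B0; positivity
  obtain ⟨e1, e2, e3, e4⟩ := hEint
  have key := (hHP (2 ^ 20) η (A0 P) (B0 P) (P.ap - a1) nuE _ u u' (by norm_num) hη hη' hA0 hB0
    e1 e2 q4 (fun n => ?_) hu).2
  · rw [e4] at key
    refine key.trans ?_
    rw [add_assoc]
    refine add_le_add le_rfl (le_trans ?_ hh)
    unfold hpCost
    gcongr
  · rw [hap]
    refine (hMaj1 P.w P.jD hlev.1 n).trans ?_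
    simp only [Pi.add_apply, ← add_assoc]
    gcongr
    split_ifs with hn
    · exact zero_le
    · exact hE n hn

end

end Pool.Agent.MP_88bd62_nt.U
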