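import Pool.Agent.MP_88bd62_nt.U.Stmts

namespace Pool.Agent.MP_88bd62_nt.U

open Finset Real
open scoped ENNReal

noncomputable section

theorem xHPG_a {jY jD : ℕ} (h : jY ≤ 2 * jD) : 0 ≤ aHy jY jD := by
  have h1 : (jY : ℝ) ≤ 2 * jD := by exact_mod_cast h
  have h2 := log_pos one_lt_two
  have h3 : (0 : ℝ) ≤ 2 * jD - jY + 1 := by linarith
  unfold aHy
  positivity

theorem xHPG_F (j : ℕ) : 0 ≤ Fb j := prod_nonneg fun p hp => by
  have h : (3 : ℝ) ≤ p := by exact_mod_cast (mem_Icc.1 (mem_filter.1 hp).1).1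
  rw [inv_nonneg, sub_nonneg, div_le_one (by linarith)]
  linarith

theorem xHPG_m {a b : ℝ} (h : 7 * a = b) :
    ENNReal.ofReal 7 * ENNReal.ofReal a ≤ ENNReal.ofReal b := by
  rw [← ENNReal.ofReal_mul (by norm_num), h]

theorem stHPG (hX : StX) (hHP : StHP) (hIB : StIB) (hMaj2 : StMaj2) (hMass : StMass)
    (hCrude : StCrude) (hHy : StHy) (hGr : StGr) (hPrIB : StPrIB) : StHPG := by
  intro P j c h xo ⟨p1, p2, p3, p4, p5⟩ ⟨o1, o2, o3, o4, o5, o6⟩ hM hF hc h1 u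
  obtain ⟨-, i2, i3, i4, i5, -⟩ := hIB
  obtain ⟨m1, m2, m3, m4⟩ := hMass
  obtain ⟨-, c2, c3⟩ := hCrude
  have hw := (hX P xo hM).1
  have hA : 0 ≤ P.A := (xHPG_F _).trans hF
  have l2 := log_pos one_lt_two
  have hb : Lev (fun p => max (c p) (P.w p)) P.J P.θ :=
    ⟨fun p => ⟨(hc.1 p).1.trans (le_max_left _ _), max_le (hc.1 p).2 (hw.1 p).2⟩,
      fun i p hp => max_le (hc.2 i p hp) (hw.2 i p hp)⟩
  have a1 : 0 ≤ aHy (2 * j) P.jD := xHPG_a (by omega)
  have a2 : 0 ≤ aHy 30 P.jD := xHPG_a (by omega)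
  have a3 : 0 ≤ aGr P.jz P.Mb := by unfold aGr; positivity
  have b1 : ∀ i, 0 ≤ bHy i := fun i => by unfold bHy; positivity
  have b3 : 0 ≤ bGr P.jD P.Mb := by unfold bGr; positivity
  have s2 : 0 ≤ S2 j := by unfold S2; positivity
  have b2 := b1 30
  have b4 := b1 (2 * j)
  have g := hGr P.jz P.jD P.Mb hM
  have e1 := i4 (conv nuS nuH) _ 7.259 _ _ (by norm_num) ((i5 _ _).trans
    ((mul_le_mul' m1 m2).trans (xHPG_m (b := 7.259) (by norm_num))))
    (i3 _ _ _ _ _ _ a1 b4 a3 b3 (hHy (2 * j) P.jD (by omega)) g)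
  have e2 := i4 (conv nuS fun h => by classical exact if Sm j h then 0 else nuH h) _ (7.35 * S2 j)
    _ _ (by positivity) ((i5 _ _).trans ((mul_le_mul' m1 (m4 j o1)).trans
      (xHPG_m (b := 7.35 * S2 j) (by ring))))
    (i3 _ _ _ _ _ _ (by positivity) (by positivity) a3 b3
      (i3 _ _ _ _ _ _ (by positivity) (by positivity) a2 b2
        (i3 _ _ _ _ _ _ (by positivity) (by positivity) (by positivity) (by positivity) c3 c2)
        (hHy 30 P.jD (by omega))) g)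
  have e3 := i2 _ _ _ _ _ p2 p3 (hPrIB _ _ _ _ _ _ _ _ p1 hb)
  have e4 := i4 (nuF P.jz) _ P.A _ _ hA ((m3 _).trans (ENNReal.ofReal_le_ofReal hF))
    (i3 _ _ _ _ _ _ p4 p5 p4 p5 e3 e3)
  have e5 := i2 _ _ _ (AG P j) (BG P j) (le_of_eq (by unfold AG; ring))
    (le_of_eq (by unfold BG; ring))
    (i3 _ _ _ _ _ _ (by positivity) (by positivity) (by positivity) (by positivity)
      (i3 _ _ _ _ _ _ (by positivity) (by positivity) (by positivity) (by positivity) e1 e2) e4)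
  have hN : 10 ^ 6 ≤ 2 ^ P.n := le_trans (by norm_num) (Nat.pow_le_pow_right two_pos xo.1)
  have := (hHP (2 ^ P.n) 0 (AG P j) (BG P j) (P.ap - pc j c) (fun _ => 0) _ u u hN le_rfl
    (by norm_num) (by unfold AG; positivity) (by unfold BG; positivity) (fun _ => le_rfl)
    summable_zero e5 (fun n => by
      rw [ENNReal.ofReal_zero, zero_add]
      exact hMaj2 j P.jz P.jD c P.w _ (by omega) o2 o3 (fun p => ⟨(hc.1 p).1, le_max_left _ _,
        (hw.1 p).1, le_max_right _ _⟩) h1 n) (by simp)).2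
  simp only [sub_self, rpow_zero, one_mul, zero_mul, tsum_zero, zero_add] at this
  exact this.trans o6

end

end Pool.Agent.MP_88bd62_nt.U
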