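import Pool.Agent.MP_88bd62_nt.U.Stmts

/-! The pointwise estimate for one node of the high pass part. -/

namespace Pool.Agent.MP_88bd62_nt.U

open Finset Real

noncomputable section

/-- One if an integer lies in `(v - y, v + y]`, and zero otherwise. -/
def xHP_q (v y : ℝ) : ℝ := if ⌊v - y⌋ < ⌊v + y⌋ then 1 else 0

lemma xHP_q_nonneg (v y : ℝ) : 0 ≤ xHP_q v y := by
  unfold xHP_q; split_ifs <;> norm_num

lemma xHP_q_le_one (v y : ℝ) : xHP_q v y ≤ 1 := by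
  unfold xHP_q; split_ifs <;> norm_num

lemma xHP_q_eq_one {v y : ℝ} {m : ℤ} (h1 : v - y < m) (h2 : (m : ℝ) ≤ v + y) : xHP_q v y = 1 := by
  unfold xHP_q
  rw [if_pos]
  exact lt_of_lt_of_le (Int.floor_lt.2 h1) (Int.le_floor.2 h2)

lemma xHP_q_eq_zero {v y : ℝ} (h : y < dZ v) : xHP_q v y = 0 := by
  unfold xHP_q
  rw [if_neg]
  intro hlt
  have h1 : v - y < (⌊v + y⌋ : ℝ) := Int.floor_lt.1 hlt
  have h2 : (⌊v + y⌋ : ℝ) ≤ v + y := Int.floor_le _
  have h3 : dZ v ≤ |v - (⌊v + y⌋ : ℤ)| := round_le v _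
  have h4 : |v - (⌊v + y⌋ : ℤ)| ≤ y := abs_le.2 ⟨by linarith, by linarith⟩
  linarith

lemma xHP_pow (s : ℝ) (hs : |s| ≤ 1) : |(2 : ℝ) ^ s - 1 - log 2 * s| ≤ s ^ 2 / 2 := by
  have l1 := log_two_gt_d9
  have l2 := log_two_lt_d9
  rw [rpow_def_of_pos two_pos]
  have h1 : |log 2 * s| ≤ 1 := by
    rw [abs_mul, abs_of_pos (by linarith : (0 : ℝ) < log 2)]
    nlinarith [abs_nonneg s]
  refine (abs_exp_sub_one_sub_id_le h1).trans ?_
  have h2 : log 2 ^ 2 ≤ (1 : ℝ) / 2 := by nlinarith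
  rw [mul_pow]
  nlinarith [sq_nonneg s]

lemma xHP_shift (v s : ℝ) (k : ℤ) (h : ⌊v + s⌋ = ⌊v⌋ + k) :
    (2 : ℝ) ^ s * sg (v + s) = (-2) ^ k * sg v := by
  unfold sg
  rw [h]
  have e1 : (2 : ℝ) ^ s * 2 ^ (((⌊v⌋ + k : ℤ) : ℝ) - (v + s)) =
      2 ^ k * 2 ^ ((⌊v⌋ : ℝ) - v) := by
    rw [← rpow_add two_pos, ← rpow_intCast, ← rpow_add two_pos]
    congr 1
    push_cast
    ring
  have e2 : ((-2 : ℝ)) ^ k = (-1) ^ k * 2 ^ k := by
    rw [← mul_zpow]; norm_num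
  rw [zpow_add₀ (by norm_num : (-1 : ℝ) ≠ 0), e2]
  linear_combination (2 / 3 * (-1 : ℝ) ^ ⌊v⌋ * (-1) ^ k) * e1

lemma xHP_abs_sg (v : ℝ) : |sg v| = 2 / 3 * 2 ^ ((⌊v⌋ : ℝ) - v) := by
  unfold sg
  rw [abs_mul, abs_mul, abs_zpow, abs_neg, abs_one, one_zpow, mul_one,
    abs_of_pos (rpow_pos_of_pos two_pos _), abs_of_pos (by norm_num : (0 : ℝ) < 2 / 3)]

lemma xHP_abs_sg_le (v : ℝ) : |sg v| ≤ 2 / 3 := by
  rw [xHP_abs_sg]
  have : (2 : ℝ) ^ ((⌊v⌋ : ℝ) - v) ≤ 1 :=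
    rpow_le_one_of_one_le_of_nonpos one_le_two (by linarith [Int.floor_le v])
  linarith

lemma xHP_same {v s : ℝ} (h1 : (⌊v⌋ : ℝ) ≤ v + s) (h2 : v + s < ⌊v⌋ + 1) :
    (2 : ℝ) ^ s * sg (v + s) = sg v := by
  have := xHP_shift v s 0 (by rw [add_zero]; exact Int.floor_eq_iff.2 ⟨h1, h2⟩)
  simpa using this

lemma xHP_up {v s : ℝ} (h1 : (⌊v⌋ : ℝ) + 1 ≤ v + s) (h2 : v + s < ⌊v⌋ + 2) :
    (2 : ℝ) ^ s * sg (v + s) = -2 * sg v ∧ 3 * |sg v| ≤ 2 ^ s := by
  constructor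
  · have := xHP_shift v s 1 (Int.floor_eq_iff.2 ⟨by push_cast; linarith, by push_cast; linarith⟩)
    simpa using this
  · rw [xHP_abs_sg]
    have e : (2 : ℝ) ^ ((⌊v⌋ : ℝ) - v) ≤ 2 ^ (s - 1) :=
      rpow_le_rpow_of_exponent_le one_le_two (by linarith)
    rw [rpow_sub two_pos s, rpow_one] at e
    linarith

lemma xHP_down {v s : ℝ} (h1 : (⌊v⌋ : ℝ) - 1 ≤ v + s) (h2 : v + s < ⌊v⌋) :
    (2 : ℝ) ^ s * sg (v + s) = -(1 / 2) * sg v := by
  have := xHP_shift v s (-1) (Int.floor_eq_iff.2 ⟨by push_cast; linarith, by push_cast; linarith⟩)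
  rw [this]
  norm_num

lemma xHP_split {E c S T y B : ℝ} (hE : E = c * S + c * T) (hc : |c| ≤ 2 / 3) (hS : |S| ≤ y ^ 2)
    (hT : |c| * |T| ≤ B) : |E| ≤ y ^ 2 + B := by
  rw [hE]
  refine (abs_add_le _ _).trans ?_
  rw [abs_mul, abs_mul]
  nlinarith [abs_nonneg c, abs_nonneg S]

lemma xHP_pt (v w y η : ℝ) (hη : η ≤ 1 / 1000) (hw : |w| ≤ η) (hy0 : 0 ≤ y) (hy : y ≤ 1 / 128) :
    |2 * (2 ^ w * sg (v + w)) - sg (v - y) - sg (v + y)| ≤
      y ^ 2 + (1.007 * xHP_q v y + 2.014 * (if y ≤ η then xHP_q v η else 0)) := by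
  have l1 := log_two_gt_d9
  have l2 := log_two_lt_d9
  obtain ⟨w1, w2⟩ := abs_le.1 hw
  have m1 : (⌊v⌋ : ℝ) ≤ v := Int.floor_le v
  have m2 : v < ⌊v⌋ + 1 := Int.lt_floor_add_one v
  have hc := xHP_abs_sg_le v
  have hc0 := abs_nonneg (sg v)
  have pY := abs_le.1 (xHP_pow y (abs_le.2 ⟨by linarith, by linarith⟩))
  have pZ := abs_le.1 (xHP_pow (-y) (abs_le.2 ⟨by linarith, by linarith⟩))
  have pW := abs_le.1 (xHP_pow w (abs_le.2 ⟨by linarith, by linarith⟩))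
  have hYZ : (2 : ℝ) ^ y * 2 ^ (-y) = 1 := by rw [← rpow_add two_pos]; simp
  have hY1 : (1 : ℝ) ≤ 2 ^ y := one_le_rpow one_le_two hy0
  have hZ1 : (2 : ℝ) ^ (-y) ≤ 1 := rpow_le_one_of_one_le_of_nonpos one_le_two (by linarith)
  have hY2 : (2 : ℝ) ^ y ≤ 1.0055 := by nlinarith [pY.2]
  have hZ2 : (0.9945 : ℝ) ≤ 2 ^ (-y) := by nlinarith [pZ.1]
  have hW2 : (2 : ℝ) ^ w ≤ 1.0007 := by nlinarith [pW.2]
  have hS : |2 - (2 : ℝ) ^ y - 2 ^ (-y)| ≤ y ^ 2 :=
    abs_le.2 ⟨by nlinarith [pY.2, pZ.2], by nlinarith [pY.1, pZ.1]⟩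
  have eb : sg (v - y) = 2 ^ y * (2 ^ (-y) * sg (v + -y)) := by
    rw [← mul_assoc, hYZ, one_mul, sub_eq_add_neg]
  have eg : sg (v + y) = 2 ^ (-y) * (2 ^ y * sg (v + y)) := by
    rw [← mul_assoc, mul_comm ((2 : ℝ) ^ (-y)), hYZ, one_mul]
  have q1 := xHP_q_nonneg v y
  have q2 : 0 ≤ (if y ≤ η then xHP_q v η else 0) := by
    split_ifs
    · exact xHP_q_nonneg v η
    · exact le_rfl
  rw [eb, eg]
  clear eb eg pY pZ pW l1 l2
  generalize hYd : (2 : ℝ) ^ y = Y at *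
  generalize hZd : (2 : ℝ) ^ (-y) = Z at *
  by_cases hf : v - ⌊v⌋ < 1 / 2
  · have hg : Y * sg (v + y) = sg v := by
      rw [← hYd]; exact xHP_same (by linarith) (by linarith)
    rw [hg]
    by_cases h1 : (⌊v⌋ : ℝ) ≤ v + -y
    · have hb : Z * sg (v + -y) = sg v := by
        rw [← hZd]; exact xHP_same h1 (by linarith)
      rw [hb]
      by_cases h2 : (⌊v⌋ : ℝ) ≤ v + w
      · rw [xHP_same h2 (by linarith)]
        refine xHP_split (T := 0) (by ring) hc hS ?_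
        rw [abs_zero, mul_zero]
        linarith
      · rw [xHP_down (by linarith) (not_le.1 h2)]
        refine xHP_split (T := -3) (by ring) hc hS ?_
        rw [if_pos (by linarith), xHP_q_eq_one (v := v) (y := η) (m := ⌊v⌋) (by linarith)
          (by linarith), abs_neg, abs_of_pos (by norm_num : (0 : ℝ) < 3)]
        linarith
    · have hb : Z * sg (v + -y) = -(1 / 2) * sg v := by
        rw [← hZd]; exact xHP_down (by linarith) (not_le.1 h1)
      rw [hb, xHP_q_eq_one (v := v) (y := y) (m := ⌊v⌋) (by linarith) (by linarith)]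
      by_cases h2 : (⌊v⌋ : ℝ) ≤ v + w
      · rw [xHP_same h2 (by linarith)]
        refine xHP_split (T := 3 / 2 * Y) (by ring) hc hS ?_
        rw [abs_of_pos (by linarith : 0 < 3 / 2 * Y)]
        have : |sg v| * (3 / 2 * Y) ≤ 2 / 3 * (3 / 2 * 1.0055) :=
          mul_le_mul hc (by linarith) (by linarith) (by norm_num)
        linarith
      · rw [xHP_down (by linarith) (not_le.1 h2)]
        refine xHP_split (T := -(3 / 2 * (2 - Y))) (by ring) hc hS ?_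
        rw [abs_neg, abs_of_pos (by linarith : 0 < 3 / 2 * (2 - Y))]
        have : |sg v| * (3 / 2 * (2 - Y)) ≤ 2 / 3 * (3 / 2) :=
          mul_le_mul hc (by linarith) (by linarith) (by norm_num)
        linarith
  · have hb : Z * sg (v + -y) = sg v := by
      rw [← hZd]; exact xHP_same (by linarith) (by linarith)
    rw [hb]
    by_cases h1 : v + y < ⌊v⌋ + 1
    · have hg : Y * sg (v + y) = sg v := by
        rw [← hYd]; exact xHP_same (by linarith) h1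
      rw [hg]
      by_cases h2 : v + w < ⌊v⌋ + 1
      · rw [xHP_same (by linarith) h2]
        refine xHP_split (T := 0) (by ring) hc hS ?_
        rw [abs_zero, mul_zero]
        linarith
      · obtain ⟨u1, u2⟩ := xHP_up (v := v) (s := w) (not_lt.1 h2) (by linarith)
        rw [u1]
        refine xHP_split (T := -6) (by ring) hc hS ?_
        rw [if_pos (by linarith), xHP_q_eq_one (v := v) (y := η) (m := ⌊v⌋ + 1)
          (by push_cast; linarith) (by push_cast; linarith), abs_neg,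
          abs_of_pos (by norm_num : (0 : ℝ) < 6)]
        linarith
    · obtain ⟨g1, g2⟩ := xHP_up (v := v) (s := y) (not_lt.1 h1) (by linarith)
      rw [hYd] at g1 g2
      rw [g1, xHP_q_eq_one (v := v) (y := y) (m := ⌊v⌋ + 1) (by push_cast; linarith)
        (by push_cast; linarith)]
      by_cases h2 : v + w < ⌊v⌋ + 1
      · rw [xHP_same (by linarith) h2]
        refine xHP_split (T := 3 * Z) (by ring) hc hS ?_
        rw [abs_of_pos (by linarith : 0 < 3 * Z)]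
        have : 3 * |sg v| * Z ≤ Y * Z := mul_le_mul_of_nonneg_right g2 (by linarith)
        linarith
      · obtain ⟨u1, u2⟩ := xHP_up (v := v) (s := w) (not_lt.1 h2) (by linarith)
        rw [u1]
        refine xHP_split (T := -(3 * (2 - Z))) (by ring) hc hS ?_
        rw [abs_neg, abs_of_pos (by linarith : 0 < 3 * (2 - Z))]
        have : 3 * |sg v| * (2 - Z) ≤ 1.0007 * 1.0055 :=
          mul_le_mul (u2.trans hW2) (by linarith) (by linarith) (by norm_num)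
        linarith

lemma xHP_pt_far (v w y : ℝ) (hw : |w| ≤ 1 / 1000) :
    |2 * (2 ^ w * sg (v + w)) - sg (v - y) - sg (v + y)| ≤ 3 := by
  have l1 := log_two_gt_d9
  have l2 := log_two_lt_d9
  obtain ⟨w1, w2⟩ := abs_le.1 hw
  have pW := abs_le.1 (xHP_pow w (abs_le.2 ⟨by linarith, by linarith⟩))
  have hW2 : (2 : ℝ) ^ w ≤ 1.0007 := by nlinarith [pW.2]
  have hW0 : (0 : ℝ) < 2 ^ w := rpow_pos_of_pos two_pos w
  have a1 := abs_le.1 (xHP_abs_sg_le (v + w))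
  have a2 := abs_le.1 (xHP_abs_sg_le (v - y))
  have a3 := abs_le.1 (xHP_abs_sg_le (v + y))
  exact abs_le.2 ⟨by nlinarith [a1.1, a2.2, a3.2], by nlinarith [a1.2, a2.1, a3.1]⟩

end

end Pool.Agent.MP_88bd62_nt.U
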