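import Pool.Agent.MP_88bd62_nt.U.HPa

/-! Masses and kernel integrals for the high pass part. -/

namespace Pool.Agent.MP_88bd62_nt.U

open Finset Real MeasureTheory
open scoped ENNReal

noncomputable section

lemma xHP_cnt_ge (n : ℕ) (u y : ℝ) :
    ENNReal.ofReal (xHP_q (u - th n) y) ≤ (cnt n (u - y) (u + y) : ℝ≥0∞) := by
  unfold xHP_q
  split_ifs with h
  · rw [ENNReal.ofReal_one]
    have e1 : u - th n - y = u - y - th n := by ring
    have e2 : u - th n + y = u + y - th n := by ring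
    rw [e1, e2] at h
    have : 1 ≤ cnt n (u - y) (u + y) := by unfold cnt; omega
    exact_mod_cast this
  · simp

lemma xHP_cnt_total (n : ℕ) :
    1 ≤ ∑ i ∈ range 64, cnt n ((i : ℝ) / 64) (((i + 1 : ℕ) : ℝ) / 64) := by
  have h := Finset.sum_range_sub (fun i : ℕ => ⌊(i : ℝ) / 64 - th n⌋) 64
  have e : ⌊((64 : ℕ) : ℝ) / 64 - th n⌋ = ⌊((0 : ℕ) : ℝ) / 64 - th n⌋ + 1 := by
    rw [← Int.floor_add_one]
    congr 1
    push_cast
    ring
  have h2 : ∑ i ∈ range 64, (⌊((i + 1 : ℕ) : ℝ) / 64 - th n⌋ - ⌊(i : ℝ) / 64 - th n⌋) ≤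
      ∑ i ∈ range 64, ((cnt n ((i : ℝ) / 64) (((i + 1 : ℕ) : ℝ) / 64) : ℕ) : ℤ) :=
    Finset.sum_le_sum fun i _ => by unfold cnt; exact Int.self_le_toNat _
  rw [h, e, ← Nat.cast_sum] at h2
  omega

lemma xHP_mass {ν : ℕ → ℝ≥0∞} {A B : ℝ} (hA : 0 ≤ A) (hB : 0 ≤ B) (h : IB ν A B) :
    ∑' n, ν n ≤ ENNReal.ofReal (A + 64 * B) := by
  calc ∑' n, ν n
      ≤ ∑' n, ∑ i ∈ range 64, ν n * (cnt n ((i : ℝ) / 64) (((i + 1 : ℕ) : ℝ) / 64) : ℝ≥0∞) := by
        refine ENNReal.tsum_le_tsum fun n => ?_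
        rw [← Finset.mul_sum, ← Nat.cast_sum]
        refine le_mul_of_one_le_right' ?_
        exact_mod_cast xHP_cnt_total n
    _ = ∑ i ∈ range 64, ∑' n, ν n * (cnt n ((i : ℝ) / 64) (((i + 1 : ℕ) : ℝ) / 64) : ℝ≥0∞) :=
        Summable.tsum_finsetSum fun _ _ => ENNReal.summable
    _ ≤ ∑ _i ∈ range 64, ENNReal.ofReal (A / 64 + B) := by
        refine Finset.sum_le_sum fun i _ => ?_
        refine (h _ _ (by push_cast; linarith) (by push_cast; linarith)).trans (le_of_eq ?_)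
        congr 1
        push_cast
        ring
    _ = ENNReal.ofReal (A + 64 * B) := by
        rw [← ENNReal.ofReal_sum_of_nonneg fun _ _ => by positivity, Finset.sum_const,
          Finset.card_range]
        congr 1
        simp only [nsmul_eq_mul]
        push_cast
        ring

lemma xHP_real {ν : ℕ → ℝ≥0∞} {A B : ℝ} (hA : 0 ≤ A) (hB : 0 ≤ B) (h : IB ν A B) :
    ∃ g : ℕ → ℝ, (∀ n, 0 ≤ g n) ∧ Summable g ∧ ∑' n, g n ≤ A + 64 * B ∧
      (∀ u y : ℝ, 0 ≤ y → y ≤ 1 / 128 → ∑' n, g n * xHP_q (u - th n) y ≤ 2 * A * y + B) ∧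
      ∀ n (x z : ℝ), 0 ≤ z → ENNReal.ofReal x ≤ ENNReal.ofReal z + ν n → x ≤ z + g n := by
  have hm := xHP_mass hA hB h
  have hfin : ∑' n, ν n ≠ ⊤ := ne_top_of_le_ne_top ENNReal.ofReal_ne_top hm
  have hn : ∀ n, ν n ≠ ⊤ := fun n => ENNReal.ne_top_of_tsum_ne_top hfin n
  refine ⟨fun n => (ν n).toReal, fun n => ENNReal.toReal_nonneg, ENNReal.summable_toReal hfin,
    ?_, ?_, ?_⟩
  · rw [← ENNReal.tsum_toReal_eq hn]
    exact ENNReal.toReal_le_of_le_ofReal (by positivity) hm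
  · intro u y h0 h1
    have e : ∀ n, (ν n).toReal * xHP_q (u - th n) y =
        (ν n * ENNReal.ofReal (xHP_q (u - th n) y)).toReal := fun n => by
      rw [ENNReal.toReal_mul, ENNReal.toReal_ofReal (xHP_q_nonneg _ _)]
    simp only [e]
    rw [← ENNReal.tsum_toReal_eq fun n => ENNReal.mul_ne_top (hn n) ENNReal.ofReal_ne_top]
    refine ENNReal.toReal_le_of_le_ofReal (by positivity) ?_
    refine le_trans (ENNReal.tsum_le_tsum fun n => mul_le_mul_right (xHP_cnt_ge n u y) _) ?_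
    refine (h _ _ (by linarith) (by linarith)).trans (le_of_eq ?_)
    congr 1
    ring
  · intro n x z hz hx
    rw [← ENNReal.ofReal_toReal (hn n), ← ENNReal.ofReal_add hz ENNReal.toReal_nonneg] at hx
    exact (ENNReal.ofReal_le_ofReal_iff (add_nonneg hz ENNReal.toReal_nonneg)).1 hx

lemma xHP_ker_cont (N : ℕ) : Continuous (ker N) := by
  unfold ker
  fun_prop

lemma xHP_ker_neg (N : ℕ) (y : ℝ) : ker N (-y) = ker N y := by
  unfold ker
  refine Finset.sum_congr rfl fun k _ => ?_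
  rw [mul_neg, cos_neg]

lemma xHP_ii (N : ℕ) {f : ℝ → ℝ} (hf : Measurable f) {C : ℝ} (hC : ∀ y, |f y| ≤ C) (a b : ℝ) :
    IntervalIntegrable (fun y => ker N y * f y) volume a b := by
  refine IntervalIntegrable.continuousOn_mul ?_ (xHP_ker_cont N).continuousOn
  rw [intervalIntegrable_iff]
  exact Measure.integrableOn_of_bounded (M := C) measure_Ioc_lt_top.ne hf.aestronglyMeasurable
    (Filter.Eventually.of_forall hC)

lemma xHP_q_meas (v : ℝ) : Measurable (xHP_q v) := by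
  unfold xHP_q
  refine Measurable.ite (measurableSet_lt ?_ ?_) measurable_const measurable_const
  · exact (measurable_const.sub measurable_id).floor
  · exact (measurable_const.add measurable_id).floor

lemma xHP_far (hKerA : StKerA) {N : ℕ} (hN : 1 ≤ N) {f : ℝ → ℝ} (hf : Measurable f)
    (h0 : ∀ y, 0 ≤ f y) (h1 : ∀ y, f y ≤ 1) {d : ℝ} (hd0 : 0 ≤ d) (hd1 : d ≤ 1)
    (hz : ∀ y, y < d → f y = 0) : ∫ y in (0 : ℝ)..1, ker N y * f y ≤ ∫ y in d..1, ker N y := by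
  have hb : ∀ y, |f y| ≤ 1 := fun y => abs_le.2 ⟨by linarith [h0 y], h1 y⟩
  obtain ⟨hk, -, -⟩ := hKerA N hN
  rw [← intervalIntegral.integral_add_adjacent_intervals (xHP_ii N hf hb 0 d) (xHP_ii N hf hb d 1)]
  have a1 : ∫ y in (0 : ℝ)..d, ker N y * f y ≤ ∫ _y in (0 : ℝ)..d, (0 : ℝ) :=
    intervalIntegral.integral_mono_on_of_le_Ioo hd0 (xHP_ii N hf hb 0 d)
      intervalIntegrable_const fun y hy => by rw [hz y hy.2, mul_zero]
  have a2 : ∫ y in d..1, ker N y * f y ≤ ∫ y in d..1, ker N y :=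
    intervalIntegral.integral_mono_on hd1 (xHP_ii N hf hb d 1)
      ((xHP_ker_cont N).intervalIntegrable _ _) fun y _ => mul_le_of_le_one_right (hk y).1 (h1 y)
  rw [intervalIntegral.integral_zero] at a1
  linarith

/-- The indicator of `y ≤ η`. -/
def xHP_i (η y : ℝ) : ℝ := if y ≤ η then 1 else 0

lemma xHP_i_meas (η : ℝ) : Measurable (xHP_i η) :=
  Measurable.ite measurableSet_Iic measurable_const measurable_const

lemma xHP_i_nonneg (η y : ℝ) : 0 ≤ xHP_i η y := by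
  unfold xHP_i; split_ifs <;> norm_num

lemma xHP_i_le_one (η y : ℝ) : xHP_i η y ≤ 1 := by
  unfold xHP_i; split_ifs <;> norm_num

lemma xHP_i_abs (η y : ℝ) : |xHP_i η y| ≤ 1 :=
  abs_le.2 ⟨by linarith [xHP_i_nonneg η y], xHP_i_le_one η y⟩

lemma xHP_near (hKerA : StKerA) {N : ℕ} (hN : 1 ≤ N) {η : ℝ} (h0 : 0 ≤ η) (h1 : η ≤ 1) :
    ∫ y in (0 : ℝ)..1, ker N y * xHP_i η y ≤ 3 / 2 * N * η := by
  obtain ⟨hk, -, -⟩ := hKerA N hN
  have hi := xHP_ii N (xHP_i_meas η) (xHP_i_abs η)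
  rw [← intervalIntegral.integral_add_adjacent_intervals (hi 0 η) (hi η 1)]
  have a1 : ∫ y in (0 : ℝ)..η, ker N y * xHP_i η y ≤ ∫ _y in (0 : ℝ)..η, (3 / 2 * N : ℝ) :=
    intervalIntegral.integral_mono_on h0 (hi 0 η) intervalIntegrable_const fun y _ =>
      (mul_le_of_le_one_right (hk y).1 (xHP_i_le_one η y)).trans (hk y).2
  have a2 : ∫ y in η..1, ker N y * xHP_i η y ≤ ∫ _y in η..1, (0 : ℝ) :=
    intervalIntegral.integral_mono_on_of_le_Ioo h1 (hi η 1) intervalIntegrable_const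
      fun y hy => by rw [xHP_i, if_neg (not_le.2 hy.1), mul_zero]
  rw [intervalIntegral.integral_zero] at a2
  rw [intervalIntegral.integral_const, smul_eq_mul] at a1
  linarith

lemma xHP_tail (hKerA : StKerA) {N : ℕ} (hN : 10 ^ 6 ≤ N) :
    ∫ y in (0 : ℝ)..1, ker N y * (1 - xHP_i (1 / 128) y) ≤ 0.2 / (N : ℝ) ^ 2 := by
  have hN1 : 1 ≤ N := le_trans (by norm_num) hN
  have hNr : (1000000 : ℝ) ≤ N := by exact_mod_cast hN
  have hN0 : (0 : ℝ) < N := by linarith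
  have h := xHP_far hKerA hN1 (f := fun y => 1 - xHP_i (1 / 128) y)
    (measurable_const.sub (xHP_i_meas _)) (fun y => by linarith [xHP_i_le_one (1 / 128) y])
    (fun y => by linarith [xHP_i_nonneg (1 / 128) y]) (d := 1 / 128) (by norm_num) (by norm_num)
    (fun y hy => by rw [xHP_i, if_pos hy.le, sub_self])
  refine h.trans (((hKerA N hN1).2.2 _ (by norm_num) (by norm_num)).trans ?_)
  have e : 0.09 / ((N : ℝ) * (1 / 128)) ^ 3 + 4000 / (N : ℝ) ^ 3 =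
      ((0.09 * 128 ^ 3 + 4000) / N) / (N : ℝ) ^ 2 := by
    field_simp
  rw [e]
  refine div_le_div_of_nonneg_right ?_ (by positivity)
  rw [div_le_iff₀ hN0]
  linarith

/-- The jump indicator cut at `1 / 128`. -/
def xHP_r (v y : ℝ) : ℝ := xHP_i (1 / 128) y * xHP_q v y

lemma xHP_r_meas (v : ℝ) : Measurable (xHP_r v) := (xHP_i_meas _).mul (xHP_q_meas v)

lemma xHP_r_nonneg (v y : ℝ) : 0 ≤ xHP_r v y := mul_nonneg (xHP_i_nonneg _ _) (xHP_q_nonneg _ _)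

lemma xHP_r_le_one (v y : ℝ) : xHP_r v y ≤ 1 :=
  mul_le_one₀ (xHP_i_le_one _ _) (xHP_q_nonneg _ _) (xHP_q_le_one _ _)

lemma xHP_r_abs (v y : ℝ) : |xHP_r v y| ≤ 1 :=
  abs_le.2 ⟨by linarith [xHP_r_nonneg v y], xHP_r_le_one v y⟩

lemma xHP_r_int (hKerA : StKerA) {N : ℕ} (hN : 1 ≤ N) (v : ℝ) :
    ∫ y in (0 : ℝ)..1, ker N y * xHP_r v y ≤ 1 := by
  refine (xHP_far hKerA hN (xHP_r_meas v) (xHP_r_nonneg v) (xHP_r_le_one v) le_rfl zero_le_one
    fun y hy => ?_).trans (hKerA N hN).2.1.le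
  have : (0 : ℝ) ≤ dZ v := abs_nonneg _
  rw [xHP_r, xHP_q_eq_zero (by linarith), mul_zero]

lemma xHP_node (hKerA : StKerA) {N : ℕ} (hN : 10 ^ 6 ≤ N) (v : ℝ) {η : ℝ} (h0 : 0 ≤ η) :
    1.007 / 2 * (∫ y in (0 : ℝ)..1, ker N y * xHP_r v y) + 1.007 * (3 / 2 * N * η) * xHP_q v η ≤
      psi N η (dZ v) + 0.01 / (N : ℝ) ^ 2 := by
  have hN1 : 1 ≤ N := le_trans (by norm_num) hN
  have hNr : (1000000 : ℝ) ≤ N := by exact_mod_cast hN
  have hN0 : (0 : ℝ) < N := by linarith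
  have a1 : (3 / 2 * N * η) * xHP_q v η ≤ if dZ v ≤ η then 3 / 2 * N * η else 0 := by
    split_ifs with h
    · exact mul_le_of_le_one_right (by positivity) (xHP_q_le_one v η)
    · rw [xHP_q_eq_zero (not_le.1 h), mul_zero]
  have a3 : 4000 / (N : ℝ) ^ 3 ≤ 0.004 / (N : ℝ) ^ 2 := by
    have e : 4000 / (N : ℝ) ^ 3 = (4000 / N) / (N : ℝ) ^ 2 := by field_simp
    rw [e]
    refine div_le_div_of_nonneg_right ?_ (by positivity)
    rw [div_le_iff₀ hN0]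
    linarith
  have a4 : 0.004 / (N : ℝ) ^ 2 ≤ 0.01 / (N : ℝ) ^ 2 :=
    div_le_div_of_nonneg_right (by norm_num) (by positivity)
  have a5 : 0 ≤ 0.004 / (N : ℝ) ^ 2 := by positivity
  have a2 : ∫ y in (0 : ℝ)..1, ker N y * xHP_r v y ≤
      2 * (if N * dZ v ≤ 1 / 2 then 1 / 2 else 0.045 / (N * dZ v) ^ 3) + 0.004 / (N : ℝ) ^ 2 := by
    split_ifs with h
    · linarith [xHP_r_int hKerA hN1 v]
    · have hd : 0 < dZ v := by
        by_contra hc
        have : (N : ℝ) * dZ v ≤ 0 := mul_nonpos_of_nonneg_of_nonpos hN0.le (not_lt.1 hc)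
        linarith
      have hd1 : dZ v ≤ 1 := (abs_sub_round v).trans (by norm_num)
      have b1 := xHP_far hKerA hN1 (xHP_r_meas v) (xHP_r_nonneg v) (xHP_r_le_one v) hd.le hd1
        fun y hy => by rw [xHP_r, xHP_q_eq_zero hy, mul_zero]
      have b2 := (hKerA N hN1).2.2 _ hd hd1
      have e : 0.09 / ((N : ℝ) * dZ v) ^ 3 = 2 * (0.045 / ((N : ℝ) * dZ v) ^ 3) := by ring
      linarith
  unfold psi
  linarith

lemma xHP_psi (N : ℕ) {η : ℝ} (h0 : 0 ≤ η) (d : ℝ) :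
    0 ≤ psi N η d ∧ psi N η d ≤ 1.007 * (1 / 2 + 3 / 2 * N * η) := by
  have a0 : (0 : ℝ) ≤ 3 / 2 * N * η := by positivity
  have a1 : 0 ≤ (if d ≤ η then 3 / 2 * N * η else 0 : ℝ) ∧
      (if d ≤ η then 3 / 2 * N * η else 0 : ℝ) ≤ 3 / 2 * N * η := by
    split_ifs
    · exact ⟨a0, le_rfl⟩
    · exact ⟨le_rfl, a0⟩
  have a2 : 0 ≤ (if N * d ≤ 1 / 2 then 1 / 2 else 0.045 / (N * d) ^ 3 : ℝ) ∧
      (if N * d ≤ 1 / 2 then 1 / 2 else 0.045 / (N * d) ^ 3 : ℝ) ≤ 1 / 2 := by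
    split_ifs with h
    · norm_num
    · have h1 : (1 / 2 : ℝ) < N * d := not_le.1 h
      have h2 : (1 / 2 : ℝ) ^ 3 ≤ (N * d) ^ 3 := pow_le_pow_left₀ (by norm_num) h1.le 3
      have h3 : (0 : ℝ) < (N * d) ^ 3 := by linarith
      refine ⟨by positivity, ?_⟩
      rw [div_le_iff₀ h3]
      linarith
  unfold psi
  constructor <;> linarith [a1.1, a1.2, a2.1, a2.2]

end

end Pool.Agent.MP_88bd62_nt.U
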