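import Pool.Agent.MP_88bd62_nt.U.Stmts

/-! The hyperbola bound for the divisor function in short intervals. -/

namespace Pool.Agent.MP_88bd62_nt.U

open Finset Real
open scoped ENNReal

theorem xHy_div (m : ℕ) :
    m.divisors.card ≤ 2 * (m.divisors.filter fun e => e * e ≤ m).card := by
  classical
  set A := m.divisors.filter fun e => e * e ≤ m with hA
  have h : m.divisors ⊆ A ∪ A.image (m / ·) := by
    intro e he
    obtain ⟨⟨f, hf⟩, hm⟩ := Nat.mem_divisors.1 he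
    by_cases h1 : e * e ≤ m
    · exact mem_union_left _ (mem_filter.2 ⟨he, h1⟩)
    · have h2 : f ≤ e := by
        by_contra h3
        exact h1 (hf ▸ Nat.mul_le_mul_left e (not_le.1 h3).le)
      have h4 : 0 < f := Nat.pos_of_ne_zero fun h5 => hm (by rw [hf, h5, mul_zero])
      refine mem_union_right _ (mem_image.2 ⟨f, mem_filter.2 ⟨Nat.mem_divisors.2
        ⟨Dvd.intro_left e hf.symm, hm⟩, hf ▸ Nat.mul_le_mul_right f h2⟩, ?_⟩)
      rw [hf, Nat.mul_div_cancel _ h4]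
  have h1 := card_le_card h
  have h2 := card_union_le A (A.image (m / ·))
  have h3 := card_image_le (s := A) (f := (m / ·))
  omega

theorem xHy_fib (hC : StCount) {x h : ℝ} (hx : 0 ≤ x) (hh : 0 ≤ h) {e : ℕ} (he : 0 < e) :
    ((((Ioc ⌊x⌋₊ ⌊x + h⌋₊).filter fun m => m.Coprime 210).filter fun m => e ∣ m).card : ℝ) ≤
      h / 2 * (1 / e) + 1 := by
  have he' : (0 : ℝ) < e := Nat.cast_pos.2 he
  have h1 := (hC.1 (x / e) (h / e) (by positivity) (by positivity)).1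
  have h2 : (((Ioc ⌊x⌋₊ ⌊x + h⌋₊).filter fun m => m.Coprime 210).filter fun m => e ∣ m).card ≤
      ((Ioc ⌊x / e⌋₊ ⌊x / e + h / e⌋₊).filter Odd).card := by
    refine card_le_card_of_injOn (· / e) (fun m hm => ?_) fun a ha b hb hab => ?_
    · obtain ⟨h3, k, rfl⟩ := mem_filter.1 (mem_coe.1 hm)
      obtain ⟨h4, h5⟩ := mem_filter.1 h3
      obtain ⟨h6, h7⟩ := mem_Ioc.1 h4
      rw [Nat.floor_lt hx] at h6
      rw [Nat.le_floor_iff (by positivity)] at h7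
      push_cast at h6 h7
      refine mem_coe.2 (mem_filter.2 ⟨mem_Ioc.2 ⟨?_, ?_⟩, ?_⟩) <;>
        simp only [Nat.mul_div_cancel_left k he]
      · rw [Nat.floor_lt (by positivity), div_lt_iff₀ he']
        linarith
      · refine Nat.le_floor ?_
        rw [← add_div, le_div_iff₀ he']
        linarith
      · have h8 : (e * k).Coprime 2 := h5.coprime_dvd_right (by norm_num)
        exact (Nat.odd_mul.1 (Nat.coprime_two_right.1 h8)).2
    · obtain ⟨k, rfl⟩ := (mem_filter.1 (mem_coe.1 ha)).2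
      obtain ⟨k', rfl⟩ := (mem_filter.1 (mem_coe.1 hb)).2
      simp only [Nat.mul_div_cancel_left _ he] at hab
      rw [hab]
  calc _ ≤ _ := Nat.cast_le.2 h2
    _ ≤ _ := h1
    _ = _ := by ring

theorem xHy_sum (hC : StCount) {x h t : ℝ} (hx : 0 ≤ x) (hh : 0 ≤ h) (ht : 1 ≤ t)
    (ht' : √(x + h) ≤ t) :
    ∑ m ∈ (Ioc ⌊x⌋₊ ⌊x + h⌋₊).filter (fun m => m.Coprime 210), (m.divisors.card : ℝ) ≤
      h * (1 + 8 / 35 * log t) + 2 * (8 / 35 * √(x + h) + 3.03) := by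
  set S := (Ioc ⌊x⌋₊ ⌊x + h⌋₊).filter (fun m => m.Coprime 210) with hS
  set T := (Ioc ⌊(0 : ℝ)⌋₊ ⌊0 + √(x + h)⌋₊).filter (fun m => m.Coprime 210) with hT
  have hT0 : ∀ e ∈ T, 0 < e := fun e he =>
    lt_of_le_of_lt (Nat.zero_le _) (mem_Ioc.1 (mem_filter.1 he).1).1
  have h1 : ∀ m ∈ S, (m.divisors.card : ℝ) ≤ 2 * ∑ e ∈ T, if e ∣ m then (1 : ℝ) else 0 := by
    intro m hm
    obtain ⟨h2, h3⟩ := mem_filter.1 hm
    have h4 : (m : ℝ) ≤ x + h := (Nat.le_floor_iff (by positivity)).1 (mem_Ioc.1 h2).2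
    have h5 : (m.divisors.filter fun e => e * e ≤ m) ⊆ T.filter (· ∣ m) := by
      intro e he
      obtain ⟨h6, h7⟩ := mem_filter.1 he
      have h8 := Nat.dvd_of_mem_divisors h6
      refine mem_filter.2 ⟨mem_filter.2 ⟨mem_Ioc.2 ⟨?_, Nat.le_floor ?_⟩,
        h3.coprime_dvd_left h8⟩, h8⟩
      · rw [Nat.floor_zero]
        exact Nat.pos_of_mem_divisors h6
      · rw [zero_add]
        refine Real.le_sqrt_of_sq_le (le_trans ?_ h4)
        rw [sq]
        exact_mod_cast h7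
    rw [sum_boole]
    exact_mod_cast (xHy_div m).trans (Nat.mul_le_mul_left 2 (card_le_card h5))
  have h2 : ∑ e ∈ T, (1 / e : ℝ) ≤ 1 + 8 / 35 * log t := by
    refine le_trans (sum_le_sum_of_subset_of_nonneg (fun e he => ?_) fun _ _ _ => by positivity)
      (hC.2 t ht)
    obtain ⟨h3, h4⟩ := mem_filter.1 he
    refine mem_filter.2 ⟨mem_Icc.2 ⟨hT0 e he, (mem_Ioc.1 h3).2.trans (Nat.floor_le_floor ?_)⟩, h4⟩
    rwa [zero_add]
  have h3 : (T.card : ℝ) ≤ 8 / 35 * √(x + h) + 3.03 := (hC.1 0 _ le_rfl (sqrt_nonneg _)).2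
  calc _ ≤ _ := sum_le_sum h1
    _ = 2 * ∑ e ∈ T, ((S.filter fun m => e ∣ m).card : ℝ) := by
      rw [← mul_sum, sum_comm]
      simp only [sum_boole]
    _ ≤ 2 * ∑ e ∈ T, (h / 2 * (1 / e) + 1) := by
      gcongr with e he
      exact xHy_fib hC hx hh (hT0 e he)
    _ = h * ∑ e ∈ T, (1 / e : ℝ) + 2 * T.card := by
      rw [sum_add_distrib, ← mul_sum, sum_const, nsmul_eq_mul]
      ring
    _ ≤ _ := by gcongr

theorem xHy_pow {l : ℝ} (h0 : 0 ≤ l) (h1 : l ≤ 1 / 64) : (2 : ℝ) ^ l - 1 ≤ 1.011 * log 2 * l := by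
  have h2 := log_two_lt_d9
  have h3 := log_two_gt_d9
  rw [rpow_def_of_pos two_pos]
  have h4 : 0 ≤ log 2 * l := by positivity
  have h5 : log 2 * l ≤ 0.011 := by nlinarith
  have h6 := (abs_le.1 (abs_exp_sub_one_sub_id_le (x := log 2 * l)
    (by rw [abs_of_nonneg h4]; linarith))).2
  nlinarith

theorem xHy_w : (2 : ℝ) ^ (1 / 64 : ℝ) ≤ 1.011 := by
  have h := xHy_pow (l := 1 / 64) (by norm_num) le_rfl
  have h2 := log_two_lt_d9
  linarith

theorem xHy_level (hC : StCount) (Q : ℕ → Prop) (j : ℕ) {x l : ℝ}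
    (h1 : (2 : ℝ) ^ ((j : ℝ) - 1 / 64) ≤ x) (h2 : x < (2 : ℝ) ^ ((j : ℝ) + 1 - 1 / 64))
    (h3 : 0 ≤ l) (h4 : l ≤ 1 / 64) :
    ∑ n ∈ Ioc ⌊x⌋₊ ⌊x * 2 ^ l⌋₊, nuD Q n ≤
      ENNReal.ofReal (1.011 * log 2 * (1 + 4 / 35 * log 2 * (j + 1)) * l +
        2.022 * (8 / 35 / √(2 ^ j) + 3.03 / 2 ^ j)) := by
  have hx : 0 < x := lt_of_lt_of_le (by positivity) h1
  have hL := log_two_gt_d9
  have hw := xHy_w
  have hl1 : (1 : ℝ) ≤ 2 ^ l := one_le_rpow one_le_two h3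
  have hl2 : (2 : ℝ) ^ l ≤ 2 ^ (1 / 64 : ℝ) := rpow_le_rpow_of_exponent_le one_le_two h4
  have hw0 : (0 : ℝ) < 2 ^ (1 / 64 : ℝ) := by positivity
  rw [rpow_sub two_pos, rpow_natCast, div_le_iff₀ hw0] at h1
  rw [rpow_sub two_pos, rpow_add two_pos, rpow_natCast, rpow_one, lt_div_iff₀ hw0] at h2
  set h := x * (2 ^ l - 1) with hh
  have hh0 : 0 ≤ h := mul_nonneg hx.le (sub_nonneg.2 hl1)
  have hxh : x * 2 ^ l = x + h := by rw [hh]; ring
  have hj : (0 : ℝ) < 2 ^ j := by positivity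
  have hj1 : (1 : ℝ) ≤ 2 ^ j := one_le_pow₀ one_le_two
  have h5 : x + h ≤ 2 ^ (j + 1) := by
    rw [← hxh, pow_succ]
    exact (mul_le_mul_of_nonneg_left hl2 hx.le).trans h2.le
  have h6 := xHy_sum hC hx.le hh0 (t := √(2 ^ (j + 1)))
    (one_le_sqrt.2 (one_le_pow₀ one_le_two)) (sqrt_le_sqrt h5)
  rw [log_sqrt (by positivity), log_pow] at h6
  have h7 : (2 : ℝ) ^ j ≤ 1.011 * x := by nlinarith
  have h8 : √(x + h) * √(2 ^ j) ≤ 1.011 * x := by
    rw [← sqrt_mul (by positivity), ← hxh]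
    refine sqrt_le_iff.2 ⟨by positivity, ?_⟩
    calc _ ≤ x * 1.011 * (1.011 * x) := by gcongr; exact hl2.trans hw
      _ = _ := by ring
  have h9 : ∀ n ∈ Ioc ⌊x⌋₊ ⌊x + h⌋₊, nuD Q n ≤
      ENNReal.ofReal (if n.Coprime 210 then (n.divisors.card : ℝ) / x else 0) := by
    intro n hn
    unfold nuD
    split_ifs with h10 h11 h11
    · refine ENNReal.ofReal_le_ofReal ?_
      gcongr
      exact ((Nat.floor_lt hx.le).1 (mem_Ioc.1 hn).1).le
    · exact absurd h10.1 h11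
    · exact zero_le
    · exact zero_le
  rw [hxh]
  refine (sum_le_sum h9).trans ?_
  rw [← ENNReal.ofReal_sum_of_nonneg fun n _ => by split_ifs <;> positivity, ← sum_filter,
    ← sum_div]
  refine ENNReal.ofReal_le_ofReal ?_
  rw [div_le_iff₀ hx]
  refine h6.trans ?_
  have hs : (0 : ℝ) < √(2 ^ j) := sqrt_pos.2 hj
  have h10 : √(x + h) ≤ 1.011 * x / √(2 ^ j) := by rwa [le_div_iff₀ hs]
  have h11 : 1 ≤ 1.011 * x / 2 ^ j := by rwa [le_div_iff₀ hj, one_mul]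
  have h12 : h ≤ x * (1.011 * log 2 * l) := mul_le_mul_of_nonneg_left (xHy_pow h3 h4) hx.le
  calc _ ≤ x * (1.011 * log 2 * l) * (1 + 8 / 35 * (((j + 1 : ℕ) : ℝ) * log 2 / 2)) +
        2 * (8 / 35 * (1.011 * x / √(2 ^ j)) + 3.03 * (1.011 * x / 2 ^ j)) := by
        gcongr
        linarith
    _ = _ := by push_cast; ring

theorem xHy_step (j : ℕ) :
    2.022 * (8 / 35 / √(2 ^ j) + 3.03 / 2 ^ j) + bHy (j + 1) ≤ bHy j := by
  unfold bHy
  have hj : (0 : ℝ) < 2 ^ j := by positivity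
  have hs : (0 : ℝ) < √(2 ^ j) := sqrt_pos.2 hj
  have h1 : (1.4142 : ℝ) ≤ √2 := le_sqrt_of_sq_le (by norm_num)
  have h2 : 0.781 / √((2 : ℝ) ^ (j + 1)) ≤ 0.781 / (√(2 ^ j) * 1.4142) := by
    rw [pow_succ, sqrt_mul hj.le]
    gcongr
  have h3 : 0.781 / (√((2 : ℝ) ^ j) * 1.4142) = 0.781 / 1.4142 * (1 / √(2 ^ j)) := by
    field_simp
  have h4 : (0 : ℝ) < 1 / √(2 ^ j) := by positivity
  rw [pow_succ] at h2 ⊢
  rw [show 8 / 35 / √((2 : ℝ) ^ j) = 8 / 35 * (1 / √(2 ^ j)) by ring,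
    show 0.781 / √((2 : ℝ) ^ j) = 0.781 * (1 / √(2 ^ j)) by ring,
    show 6.06 / ((2 : ℝ) ^ j * 2) = 3.03 / 2 ^ j by ring,
    show 6.06 / (2 : ℝ) ^ j = 2 * (3.03 / 2 ^ j) by ring]
  rw [h3] at h2
  have h5 : (0.781 / 1.4142 : ℝ) ≤ 0.781 - 8 / 35 := by norm_num
  have h6 := mul_le_mul_of_nonneg_right h5 h4.le
  linarith

theorem stHy (hIB : StIB) (hCount : StCount) : StHy := by
  intro jY jD hj
  have hL := log_two_gt_d9
  refine hIB.2.2.2.2.2 _ jY
    (fun j => if j ≤ 2 * jD then 1.011 * log 2 * (1 + 4 / 35 * log 2 * (j + 1)) else 0)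
    (fun j => 2.022 * (8 / 35 / √(2 ^ j) + 3.03 / 2 ^ j)) _ _ (fun n hn => ?_) (fun j => ⟨?_, ?_⟩)
    (fun j _ x l h1 h2 h3 h4 => ?_) (fun n => ?_) fun n => ?_
  · unfold nuD
    rw [if_neg fun h => absurd h.2.1 (not_lt.2 hn)]
  · split_ifs <;> positivity
  · positivity
  · split_ifs with h5
    · exact xHy_level hCount _ j h1 h2 h3 h4
    · refine le_of_eq_of_le (sum_eq_zero fun n hn => ?_) zero_le
      unfold nuD
      refine if_neg fun h => absurd h.2.2 (not_le.2 (lt_of_le_of_lt (Nat.le_floor ?_)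
        (mem_Ioc.1 hn).1))
      refine le_trans ?_ h1
      have h6 : ((2 * jD + 1 : ℕ) : ℝ) ≤ j := Nat.cast_le.2 (by omega)
      rw [show ((4 ^ jD : ℕ) : ℝ) = 2 ^ ((2 * jD : ℕ) : ℝ) by
        rw [rpow_natCast, pow_mul]; norm_num]
      refine rpow_le_rpow_of_exponent_le one_le_two ?_
      push_cast at h6 ⊢
      linarith
  · have key : ∀ k, jY ≤ k → ∑ j ∈ Ico jY k, 1.011 * log 2 * (1 + 4 / 35 * log 2 * ((j : ℝ) + 1)) =
        1.011 * log 2 * (k - jY) * (1 + 2 / 35 * log 2 * (jY + k + 1)) := by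
      intro k hk
      induction k, hk using Nat.le_induction with
      | base => simp
      | succ k hk ih =>
        rw [sum_Ico_succ_top hk, ih]
        push_cast
        ring
    rw [← sum_filter]
    refine (sum_le_sum_of_subset_of_nonneg (t := Ico jY (2 * jD + 1)) (fun j hj' => ?_)
      fun _ _ _ => by positivity).trans (le_of_eq ?_)
    · obtain ⟨h1, h2⟩ := mem_filter.1 hj'
      exact mem_Ico.2 ⟨(mem_Ico.1 h1).1, by omega⟩
    · rw [key _ (by omega), aHy]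
      push_cast
      ring
  · have hb : ∀ k, 0 ≤ bHy k := fun k => by unfold bHy; positivity
    have key : ∀ k, jY ≤ k →
        ∑ j ∈ Ico jY k, 2.022 * (8 / 35 / √(2 ^ j) + 3.03 / 2 ^ j) + bHy k ≤ bHy jY := by
      intro k hk
      induction k, hk using Nat.le_induction with
      | base => simp
      | succ k hk ih =>
        rw [sum_Ico_succ_top hk]
        have := xHy_step k
        linarith
    rcases le_total jY n with h | h
    · have := key n h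
      have := hb n
      linarith
    · rw [Ico_eq_empty_of_le h, sum_empty]
      exact hb _

end Pool.Agent.MP_88bd62_nt.U
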