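import Pool.Agent.MP_88bd62_nt.U.Stmts

/-! Calculus of interval bounds. -/

namespace Pool.Agent.MP_88bd62_nt.U

open Finset Real Filter Topology
open scoped ENNReal

lemma xIB_pairs (g : ℕ × ℕ → ℝ≥0∞) :
    ∑' n : ℕ, ∑ x ∈ n.divisorsAntidiagonal, g x ≤ ∑' x, ∑' y, g (x, y) := by
  rw [← ENNReal.tsum_prod (f := fun x y => g (x, y))]
  calc ∑' n : ℕ, ∑ x ∈ n.divisorsAntidiagonal, g x
      ≤ ∑' n : ℕ, ∑' p : ℕ × ℕ, if n = p.1 * p.2 then g p else 0 := by
        refine ENNReal.tsum_le_tsum fun n => le_trans (le_of_eq ?_)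
          (ENNReal.sum_le_tsum n.divisorsAntidiagonal)
        exact sum_congr rfl fun p hp => (if_pos (Nat.mem_divisorsAntidiagonal.1 hp).1.symm).symm
    _ = _ := by
        rw [ENNReal.tsum_comm]
        simp only [tsum_ite_eq]

lemma xIB_cnt_mul {x y : ℕ} (h : x * y ≠ 0) (α β : ℝ) :
    cnt (x * y) α β = cnt y (α - th x) (β - th x) := by
  have e : th (x * y) = th x + th y := by
    rw [th, Nat.cast_mul, logb_mul (by exact_mod_cast left_ne_zero_of_mul h)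
      (by exact_mod_cast right_ne_zero_of_mul h)]
    rfl
  simp only [cnt, e, sub_sub]

lemma xIB_conv (ν μ : ℕ → ℝ≥0∞) (m a b : ℝ) (hm : 0 ≤ m) (hν : ∑' n, ν n ≤ ENNReal.ofReal m)
    (h : IB μ a b) : IB (conv ν μ) (m * a) (m * b) := by
  intro α β h1 h2
  calc ∑' n, conv ν μ n * (cnt n α β : ℝ≥0∞)
      = ∑' n : ℕ, ∑ x ∈ n.divisorsAntidiagonal,
          ν x.1 * (μ x.2 * (cnt x.2 (α - th x.1) (β - th x.1) : ℝ≥0∞)) := by
        refine tsum_congr fun n => ?_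
        rw [conv, sum_mul]
        refine sum_congr rfl fun p hp => ?_
        obtain ⟨h3, h4⟩ := Nat.mem_divisorsAntidiagonal.1 hp
        rw [← h3] at h4 ⊢
        rw [xIB_cnt_mul h4, mul_assoc]
    _ ≤ ∑' x, ∑' y, ν x * (μ y * (cnt y (α - th x) (β - th x) : ℝ≥0∞)) :=
        xIB_pairs fun x => ν x.1 * (μ x.2 * (cnt x.2 (α - th x.1) (β - th x.1) : ℝ≥0∞))
    _ ≤ ∑' x, ν x * ENNReal.ofReal (a * (β - α) + b) := by
        refine ENNReal.tsum_le_tsum fun x => ?_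
        rw [ENNReal.tsum_mul_left]
        have := h (α - th x) (β - th x) (by linarith) (by linarith)
        rw [sub_sub_sub_cancel_right] at this
        exact mul_le_mul_right this _
    _ ≤ ENNReal.ofReal m * ENNReal.ofReal (a * (β - α) + b) := by
        rw [ENNReal.tsum_mul_right]
        exact mul_le_mul_left hν _
    _ = _ := by
        rw [← ENNReal.ofReal_mul hm]
        congr 1
        ring

/-- the left end of the interval at level `j` -/
noncomputable def xIB_x (A : ℝ) (j : ℕ) : ℝ := 2 ^ (A + ⌈(j : ℝ) - 1 / 64 - A⌉)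

lemma xIB_lev {A B : ℝ} (h2 : B - A ≤ 1 / 64) {j₀ n : ℕ} (hn : 2 ^ j₀ < n) :
    cnt n A B = 0 ∨ cnt n A B = 1 ∧
      ∃ j, j₀ ≤ j ∧ n ∈ Ioc ⌊xIB_x A j⌋₊ ⌊xIB_x A j * 2 ^ (B - A)⌋₊ := by
  have hn0 : (0 : ℝ) < n := by exact_mod_cast (Nat.zero_le _).trans_lt hn
  have ht : (j₀ : ℝ) < th n := by
    rw [th, lt_logb_iff_rpow_lt one_lt_two hn0, rpow_natCast]
    exact_mod_cast hn
  by_cases hk : ⌊B - th n⌋ ≤ ⌊A - th n⌋
  · exact Or.inl (Int.toNat_eq_zero.2 (by omega))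
  right
  have h3 : ⌊B - th n⌋ ≤ ⌊A - th n⌋ + 1 := by
    rw [← Int.floor_add_one]
    exact Int.floor_mono (by linarith)
  refine ⟨by unfold cnt; omega, ?_⟩
  have h4 := Int.floor_lt.1 (not_le.1 hk)
  have h5 := Int.floor_le (B - th n)
  set k := ⌊B - th n⌋
  have h6 : (j₀ : ℝ) ≤ A - k + 1 / 64 := by linarith
  have h7 := Nat.floor_le ((Nat.cast_nonneg j₀).trans h6)
  have h8 := Nat.lt_floor_add_one (A - k + 1 / 64)
  refine ⟨⌊A - k + 1 / 64⌋₊, Nat.le_floor h6, ?_⟩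
  have e : ⌈(⌊A - k + 1 / 64⌋₊ : ℝ) - 1 / 64 - A⌉ = -k := by
    rw [Int.ceil_eq_iff]
    push_cast
    constructor <;> linarith
  rw [xIB_x, e, ← rpow_add two_pos, mem_Ioc, Nat.floor_lt (by positivity),
    Nat.le_floor_iff (by positivity), ← lt_logb_iff_rpow_lt one_lt_two hn0,
    ← logb_le_iff_le_rpow one_lt_two hn0]
  push_cast
  constructor
  · change _ < th n
    linarith
  · change th n ≤ _
    linarith

lemma xIB_levels (ν : ℕ → ℝ≥0∞) (j₀ : ℕ) (α β : ℕ → ℝ) (a b : ℝ)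
    (h0 : ∀ n, n ≤ 2 ^ j₀ → ν n = 0) (hp : ∀ j, 0 ≤ α j ∧ 0 ≤ β j)
    (h : ∀ j : ℕ, j₀ ≤ j → ∀ x l : ℝ, (2 : ℝ) ^ ((j : ℝ) - 1 / 64) ≤ x →
      x < (2 : ℝ) ^ ((j : ℝ) + 1 - 1 / 64) → 0 ≤ l → l ≤ 1 / 64 →
      ∑ n ∈ Ioc ⌊x⌋₊ ⌊x * 2 ^ l⌋₊, ν n ≤ ENNReal.ofReal (α j * l + β j))
    (ha : ∀ n, ∑ j ∈ Ico j₀ n, α j ≤ a) (hb : ∀ n, ∑ j ∈ Ico j₀ n, β j ≤ b) : IB ν a b := by
  intro A B h1 h2
  have hl : 0 ≤ B - A := by linarith
  calc ∑' n, ν n * (cnt n A B : ℝ≥0∞)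
      ≤ ∑' n, ∑' j, if j₀ ≤ j then
          (if n ∈ Ioc ⌊xIB_x A j⌋₊ ⌊xIB_x A j * 2 ^ (B - A)⌋₊ then ν n else 0) else 0 := by
        refine ENNReal.tsum_le_tsum fun n => ?_
        by_cases hn : n ≤ 2 ^ j₀
        · rw [h0 n hn, zero_mul]
          exact zero_le
        rcases xIB_lev h2 (not_le.1 hn) with h3 | ⟨h3, j, h4, h5⟩
        · rw [h3, Nat.cast_zero, mul_zero]
          exact zero_le
        · refine le_trans (le_of_eq ?_) (ENNReal.le_tsum j)
          rw [h3, if_pos h4, if_pos h5, Nat.cast_one, mul_one]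
    _ ≤ ∑' j, if j₀ ≤ j then ENNReal.ofReal (α j * (B - A) + β j) else 0 := by
        rw [ENNReal.tsum_comm]
        refine ENNReal.tsum_le_tsum fun j => ?_
        split_ifs with hj
        · rw [tsum_eq_sum (s := Ioc ⌊xIB_x A j⌋₊ ⌊xIB_x A j * 2 ^ (B - A)⌋₊)
            fun n hn => if_neg hn, sum_congr rfl fun n hn => if_pos hn]
          refine h j hj _ _ (rpow_le_rpow_of_exponent_le one_le_two ?_)
            (rpow_lt_rpow_of_exponent_lt one_lt_two ?_) hl h2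
          · linarith [Int.le_ceil ((j : ℝ) - 1 / 64 - A)]
          · linarith [Int.ceil_lt_add_one ((j : ℝ) - 1 / 64 - A)]
        · simp
    _ ≤ _ := by
        refine ENNReal.tsum_le_of_sum_range_le fun N => ?_
        have e : (range N).filter (fun j => j₀ ≤ j) = Ico j₀ N := by
          ext j
          simp [and_comm]
        rw [← sum_filter, e, ← ENNReal.ofReal_sum_of_nonneg fun j _ =>
          add_nonneg (mul_nonneg (hp j).1 hl) (hp j).2, sum_add_distrib, ← sum_mul]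
        exact ENNReal.ofReal_le_ofReal (add_le_add (mul_le_mul_of_nonneg_right (ha N) hl) (hb N))

theorem stIB : StIB := by
  refine ⟨fun ν μ a b h h' α β h1 h2 => ?_, fun ν a b a' b' ha hb h α β h1 h2 => ?_,
    fun ν μ a b a' b' ha hb ha' hb' h h' α β h1 h2 => ?_, xIB_conv, fun ν μ => ?_, xIB_levels⟩
  · exact (ENNReal.tsum_le_tsum fun n => mul_le_mul_left (h n) _).trans (h' α β h1 h2)
  · exact (h α β h1 h2).trans (ENNReal.ofReal_le_ofReal
      (add_le_add (mul_le_mul_of_nonneg_right ha (by linarith)) hb))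
  · have hl : 0 ≤ β - α := by linarith
    simp only [Pi.add_apply, add_mul, ENNReal.tsum_add]
    refine (add_le_add (h α β h1 h2) (h' α β h1 h2)).trans (le_of_eq ?_)
    rw [← ENNReal.ofReal_add (by positivity) (by positivity)]
    congr 1
    ring
  · refine (xIB_pairs fun x => ν x.1 * μ x.2).trans (le_of_eq ?_)
    simp only [ENNReal.tsum_mul_left, ENNReal.tsum_mul_right]

end Pool.Agent.MP_88bd62_nt.U
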