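import Pool.Agent.MP_88bd62_nt.U.Stmts

/-! Bounds for the zeta function to the right of the line of real part one. -/

namespace Pool.Agent.MP_88bd62_nt.U

open Finset Real Filter Topology

noncomputable section

def xInv_Z (x : ℝ) : ℝ := ∑' n : ℕ, ((n : ℝ) + 1) ^ (-x)

theorem xInv_sm {x : ℝ} (hx : 1 < x) : Summable fun n : ℕ => ((n : ℝ) + 1) ^ (-x) := by
  have := (summable_nat_add_iff 1).2 (summable_nat_rpow.2 (by linarith : -x < -1))
  simpa using this

theorem xInv_mvt {x y : ℝ} (hx : 1 < x) (hy : 0 < y) :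
    (y + 1) ^ (-x) ≤ y ^ (1 - x) / (x - 1) - (y + 1) ^ (1 - x) / (x - 1) ∧
      y ^ (1 - x) / (x - 1) - (y + 1) ^ (1 - x) / (x - 1) ≤ y ^ (-x) := by
  have hd : ∀ t, y ≤ t → HasDerivAt (fun t : ℝ => t ^ (1 - x)) ((1 - x) * t ^ (-x)) t := by
    intro t ht
    have := hasDerivAt_rpow_const (x := t) (p := 1 - x) (Or.inl (by linarith))
    rwa [show 1 - x - 1 = -x by ring] at this
  obtain ⟨c, ⟨h1, h2⟩, h3⟩ := exists_hasDerivAt_eq_slope (fun t : ℝ => t ^ (1 - x))
    (fun t => (1 - x) * t ^ (-x)) (by linarith : y < y + 1)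
    (fun t ht => (hd t ht.1).continuousAt.continuousWithinAt) (fun t ht => hd t ht.1.le)
  have h4 : y ^ (1 - x) / (x - 1) - (y + 1) ^ (1 - x) / (x - 1) = c ^ (-x) := by
    rw [add_sub_cancel_left, div_one] at h3
    rw [← sub_div, div_eq_iff (by linarith)]
    linarith
  rw [h4]
  exact ⟨rpow_le_rpow_of_nonpos (by linarith) h2.le (by linarith),
    rpow_le_rpow_of_nonpos hy h1.le (by linarith)⟩

theorem xInv_tel {x : ℝ} (hx : 1 < x) {y : ℝ} (hy : 0 < y) :
    HasSum (fun n : ℕ => (y + n) ^ (1 - x) / (x - 1) - (y + n + 1) ^ (1 - x) / (x - 1))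
      (y ^ (1 - x) / (x - 1)) := by
  rw [hasSum_iff_tendsto_nat_of_nonneg fun n =>
    (rpow_nonneg (by positivity) _).trans (xInv_mvt hx (by positivity)).1]
  have h1 : ∀ N : ℕ, ∑ n ∈ range N, ((y + n) ^ (1 - x) / (x - 1) - (y + n + 1) ^ (1 - x) / (x - 1))
      = y ^ (1 - x) / (x - 1) - (y + N) ^ (-(x - 1)) / (x - 1) := by
    intro N
    have := Finset.sum_range_sub' (fun n : ℕ => (y + n) ^ (1 - x) / (x - 1)) N
    simpa [add_assoc] using this
  simp only [h1]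
  have h2 := ((tendsto_rpow_neg_atTop (by linarith : 0 < x - 1)).comp
    (tendsto_atTop_add_const_left atTop y tendsto_natCast_atTop_atTop)).div_const (x - 1)
  simpa using h2.const_sub (y ^ (1 - x) / (x - 1))

theorem xInv_up {x : ℝ} (hx : 1 < x) : xInv_Z x ≤ 1 + 1 / (x - 1) := by
  have h1 := xInv_tel hx one_pos
  rw [xInv_Z, (xInv_sm hx).tsum_eq_zero_add]
  rw [one_rpow] at h1
  refine add_le_add (by simp) (hasSum_le (fun n => ?_)
    ((summable_nat_add_iff 1).2 (xInv_sm hx)).hasSum h1)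
  have := (xInv_mvt hx (y := 1 + n) (by positivity)).1
  rwa [show ((n + 1 : ℕ) : ℝ) = 1 + n by push_cast; ring]

theorem xInv_lo {x : ℝ} (hx : 1 < x) (M : ℕ) :
    ∑ n ∈ range M, ((n : ℝ) + 1) ^ (-x) + ((M : ℝ) + 1) ^ (1 - x) / (x - 1) ≤ xInv_Z x := by
  rw [xInv_Z, ← (xInv_sm hx).sum_add_tsum_nat_add M]
  refine add_le_add le_rfl (hasSum_le (fun n => ?_) (xInv_tel hx (by positivity))
    ((summable_nat_add_iff M).2 (xInv_sm hx)).hasSum)
  have := (xInv_mvt hx (y := M + 1 + n) (by positivity)).2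
  rwa [show ((n + M : ℕ) : ℝ) + 1 = M + 1 + n by push_cast; ring]

theorem xInv_le {s : ℂ} (hs : 1 < s.re) : ‖riemannZeta s‖ ≤ xInv_Z s.re := by
  rw [zeta_eq_tsum_one_div_nat_add_one_cpow hs]
  refine tsum_of_norm_bounded (xInv_sm hs).hasSum fun n => ?_
  rw [norm_div, norm_one, ← Nat.cast_succ, Complex.norm_natCast_cpow_of_pos n.succ_pos,
    rpow_neg (by positivity), one_div, Nat.cast_succ]

theorem xInv_eq {x : ℝ} (hx : 1 < x) : ‖riemannZeta x‖ = xInv_Z x := by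
  have h : riemannZeta x = (xInv_Z x : ℂ) := by
    rw [zeta_eq_tsum_one_div_nat_add_one_cpow (by simpa), xInv_Z, Complex.ofReal_tsum]
    refine tsum_congr fun n => ?_
    rw [Complex.ofReal_cpow (by positivity), one_div, ← Complex.cpow_neg]
    push_cast
    rfl
  rw [h, Complex.norm_real]
  exact norm_of_nonneg (tsum_nonneg fun n => by positivity)

theorem xInv_fac {p : ℕ} (hp : 1 < p) {x : ℝ} (hx : 0 < x) :
    ‖(1 - (p : ℂ) ^ (-(x : ℂ)))⁻¹‖ = (1 - (p : ℝ) ^ (-x))⁻¹ ∧ (p : ℝ) ^ (-x) < 1 := by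
  have h1 : (p : ℝ) ^ (-x) < 1 :=
    rpow_lt_one_of_one_lt_of_neg (by exact_mod_cast hp) (by linarith)
  refine ⟨?_, h1⟩
  have h2 : (1 - (p : ℂ) ^ (-(x : ℂ)))⁻¹ = (((1 - (p : ℝ) ^ (-x))⁻¹ : ℝ) : ℂ) := by
    push_cast
    rw [Complex.ofReal_cpow (by positivity)]
    push_cast
    rfl
  rw [h2, Complex.norm_real, norm_of_nonneg (inv_nonneg.2 (by linarith))]

theorem xInv_prod {s : ℂ} (hs : 1 < s.re) :
    xInv_Z (2 * s.re) ≤ ‖riemannZeta s‖ * xInv_Z s.re := by
  rw [← xInv_eq hs, ← xInv_eq (by linarith : 1 < 2 * s.re)]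
  refine le_of_tendsto_of_tendsto' (riemannZeta_eulerProduct (by simp; linarith)).norm
    ((riemannZeta_eulerProduct hs).norm.mul (riemannZeta_eulerProduct (by simpa)).norm)
    fun n => ?_
  simp only [norm_prod, ← Finset.prod_mul_distrib]
  refine Finset.prod_le_prod (fun _ _ => norm_nonneg _) fun p hp => ?_
  have h0 := (Nat.prime_of_mem_primesBelow hp).one_lt
  obtain ⟨h1, h2⟩ := xInv_fac h0 (by linarith : 0 < s.re)
  have h3 : ‖(p : ℂ) ^ (-s)‖ = (p : ℝ) ^ (-s.re) := by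
    rw [Complex.norm_natCast_cpow_of_pos (by omega), Complex.neg_re]
  have h4 : (p : ℝ) ^ (-(2 * s.re)) = (p : ℝ) ^ (-s.re) * (p : ℝ) ^ (-s.re) := by
    rw [← rpow_add (by positivity)]
    ring_nf
  have h5 : 0 < ‖1 - (p : ℂ) ^ (-s)‖ := by
    have := norm_sub_norm_le (1 : ℂ) ((p : ℂ) ^ (-s))
    rw [norm_one, h3] at this
    linarith
  have h6 := norm_sub_le (1 : ℂ) ((p : ℂ) ^ (-s))
  rw [norm_one, h3] at h6
  rw [(xInv_fac h0 (by linarith : 0 < 2 * s.re)).1, h1, h4, norm_inv, ← mul_inv]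
  refine inv_anti₀ (mul_pos h5 (by linarith)) ?_
  nlinarith

theorem xInv_pow {x y : ℝ} (h2 : x ≤ 2.04) (hy : 1 ≤ y) (k : ℕ) :
    (1 - 0.04 * (k * 0.6931472 + y / 2 ^ k - 1)) ≤ y ^ (2 - x) := by
  have h3 : log y ≤ k * 0.6931472 + y / 2 ^ k - 1 := by
    have h4 := log_le_sub_one_of_pos (x := y / 2 ^ k) (by positivity)
    rw [log_div (by positivity) (by positivity), log_pow] at h4
    have h5 := mul_le_mul_of_nonneg_left log_two_lt_d9.le (Nat.cast_nonneg (α := ℝ) k)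
    have h6 := Nat.cast_nonneg (α := ℝ) k
    linarith
  rw [rpow_def_of_pos (by linarith)]
  have h4 := add_one_le_exp (log y * (2 - x))
  have h5 := log_nonneg hy
  nlinarith

theorem xInv_num {x : ℝ} (h1 : 2 ≤ x) (h2 : x ≤ 2.04) : 1.6 ≤ xInv_Z x := by
  refine le_trans ?_ (xInv_lo (by linarith) 11)
  have h3 : ∀ y : ℝ, 1 ≤ y → ∀ k : ℕ,
      (1 - 0.04 * (k * 0.6931472 + y / 2 ^ k - 1)) / y ^ 2 ≤ y ^ (-x) := fun y hy k => by
    rw [div_le_iff₀ (by positivity), ← rpow_two, ← rpow_add (by linarith), neg_add_eq_sub]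
    exact xInv_pow h2 hy k
  have h4 : (1 - 0.04 * ((3 : ℕ) * 0.6931472 + 12 / 2 ^ 3 - 1)) / 12 / 1.04 ≤
      (12 : ℝ) ^ (1 - x) / (x - 1) := by
    refine div_le_div₀ (by positivity) ?_ (by linarith) (by linarith)
    have := xInv_pow h2 (y := 12) (by norm_num) 3
    rwa [div_le_iff₀ (by positivity), ← rpow_add_one (by norm_num), show 1 - x + 1 = 2 - x by ring]
  have a1 := h3 1 (by norm_num) 0
  have a2 := h3 2 (by norm_num) 1
  have a3 := h3 3 (by norm_num) 2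
  have a4 := h3 4 (by norm_num) 2
  have a5 := h3 5 (by norm_num) 2
  have a6 := h3 6 (by norm_num) 3
  have a7 := h3 7 (by norm_num) 3
  have a8 := h3 8 (by norm_num) 3
  have a9 := h3 9 (by norm_num) 3
  have a10 := h3 10 (by norm_num) 3
  have a11 := h3 11 (by norm_num) 3
  simp only [Finset.sum_range_succ, Finset.sum_range_zero]
  norm_num at *
  linarith

theorem stInv : StInv := by
  have h0 : ∀ s : ℂ, 1 < s.re → ∀ c : ℝ, 0 ≤ c → c ≤ xInv_Z (2 * s.re) →
      c / (1 + 1 / (s.re - 1)) ≤ ‖riemannZeta s‖ := fun s hs c _ hc => by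
    have : 0 < s.re - 1 := by linarith
    rw [div_le_iff₀ (by positivity)]
    exact hc.trans ((xInv_prod hs).trans
      (mul_le_mul_of_nonneg_left (xInv_up hs) (norm_nonneg _)))
  refine ⟨fun s hs => ?_, fun s hs h => ?_⟩
  · have h1 : 0 < s.re - 1 := by linarith
    have h2 : 1 ≤ xInv_Z (2 * s.re) := by
      refine le_trans ?_ (xInv_lo (by linarith) 1)
      have : 0 < 2 * s.re - 1 := by linarith
      simp only [Finset.sum_range_one, Nat.cast_zero, zero_add, one_rpow, le_add_iff_nonneg_right]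
      positivity
    have h3 := h0 s hs 1 zero_le_one h2
    have h4 := log_le_log (by positivity) h3
    rw [one_div, log_inv] at h4
    exact abs_le.2 ⟨h4, log_le_log (lt_of_lt_of_le (by positivity) h3)
      ((xInv_le hs).trans (xInv_up hs))⟩
  · rw [add_comm]
    exact h0 s hs _ (by norm_num) (xInv_num (by linarith) (by linarith))

end

end Pool.Agent.MP_88bd62_nt.U
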