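import Pool.Agent.MP_88bd62_nt.U.Stmts

/-! The estimate of Kuzmin and Landau with decreasing weights. -/

namespace Pool.Agent.MP_88bd62_nt.U

open Finset Real

/-- The function `cot (π d)`. -/
noncomputable def xKL_c (d : ℝ) : ℝ := cos (π * d) / sin (π * d)

/-- The quotient `1 / (ex d - 1)`. -/
noncomputable def xKL_b (d : ℝ) : ℂ :=
  ((-(1 / 2) : ℝ) : ℂ) + ((-(xKL_c d / 2) : ℝ) : ℂ) * Complex.I

theorem xKL_sin {d : ℝ} (h0 : 0 < d) (h1 : d < 1) : 0 < sin (π * d) :=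
  sin_pos_of_pos_of_lt_pi (by positivity) (mul_lt_of_lt_one_right pi_pos h1)

theorem xKL_cos {u : ℝ} (h0 : 0 ≤ u) (h1 : u < π / 2) : u * cos u ≤ sin u := by
  have h := le_tan h0 h1
  rwa [tan_eq_sin_div_cos, le_div_iff₀ (cos_pos_of_mem_Ioo ⟨by linarith [pi_pos], h1⟩)] at h

theorem xKL_anti {d e : ℝ} (h0 : 0 < e) (h : e ≤ d) (h1 : d < 1) : xKL_c d ≤ xKL_c e := by
  rw [xKL_c, xKL_c, div_le_div_iff₀ (xKL_sin (h0.trans_le h) h1) (xKL_sin h0 (h.trans_lt h1))]
  have h2 : 0 ≤ sin (π * d - π * e) :=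
    sin_nonneg_of_nonneg_of_le_pi (by nlinarith [pi_pos]) (by nlinarith [pi_pos])
  rw [sin_sub] at h2
  linarith

theorem xKL_id {d : ℝ} (h0 : 0 < d) (h1 : d < 1) : xKL_b d * (ex d - 1) = 1 := by
  have hs := (xKL_sin h0 h1).ne'
  have h := sin_sq_add_cos_sq (π * d)
  have e : ex d = (cos (2 * (π * d)) : ℝ) + (sin (2 * (π * d)) : ℝ) * Complex.I := by
    rw [ex, mul_assoc, Complex.exp_mul_I, Complex.ofReal_cos, Complex.ofReal_sin]
  rw [e, xKL_b, xKL_c, cos_two_mul, sin_two_mul]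
  generalize sin (π * d) = s at *
  generalize cos (π * d) = c at *
  refine Complex.ext ?_ ?_
  · simp only [Complex.mul_re, Complex.add_re, Complex.sub_re, Complex.ofReal_re, Complex.I_re,
      Complex.ofReal_im, Complex.I_im, Complex.add_im, Complex.mul_im, Complex.sub_im,
      Complex.one_re, Complex.one_im]
    field_simp
    ring
  · simp only [Complex.mul_re, Complex.add_re, Complex.sub_re, Complex.ofReal_re, Complex.I_re,
      Complex.ofReal_im, Complex.I_im, Complex.add_im, Complex.mul_im, Complex.sub_im,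
      Complex.one_re, Complex.one_im]
    field_simp
    linear_combination (-2 * c) * h

theorem xKL_step (x : ℝ) {y : ℝ} (ν : ℤ) (h0 : 0 < y - x - ν) (h1 : y - x - ν < 1) :
    ex x = xKL_b (y - x - ν) * (ex y - ex x) := by
  have e : ex y = ex (y - x - ν) * ex x := by
    rw [ex, ex, ex, ← Complex.exp_add, ← mul_one (Complex.exp (_ + _)),
      ← Complex.exp_int_mul_two_pi_mul_I ν, ← Complex.exp_add]
    congr 1
    push_cast
    ring
  rw [e, ← sub_one_mul, ← mul_assoc, xKL_id h0 h1, one_mul]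

theorem xKL_sub {d e : ℝ} (h0 : 0 < e) (h : e ≤ d) (h1 : d < 1) :
    ‖xKL_b d - xKL_b e‖ ≤ (xKL_c e - xKL_c d) / 2 := by
  have h2 := xKL_anti h0 h h1
  have h3 : xKL_b d - xKL_b e = (((xKL_c e - xKL_c d) / 2 : ℝ) : ℂ) * Complex.I := by
    rw [xKL_b, xKL_b]
    push_cast
    ring
  rw [h3, norm_mul, Complex.norm_I, mul_one, Complex.norm_real, Real.norm_eq_abs,
    abs_of_nonneg (by linarith)]

theorem xKL_norm {d : ℝ} (h0 : 0 < d) (h1 : d < 1) : ‖xKL_b d‖ ≤ 1 / sin (π * d) / 2 := by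
  have hs := xKL_sin h0 h1
  rw [xKL_b, Complex.norm_add_mul_I, xKL_c]
  refine sqrt_le_iff.2 ⟨by positivity, le_of_eq ?_⟩
  have h := sin_sq_add_cos_sq (π * d)
  generalize π * d = s at *
  field_simp
  exact h

theorem xKL_half {d η : ℝ} (hη : 0 < η) (h0 : η ≤ d) (h1 : d < 1) :
    (1 + cos (π * d)) / sin (π * d) / 2 ≤ 1 / (π * η) := by
  have hs := xKL_sin (hη.trans_le h0) h1
  obtain ⟨u, hu⟩ : ∃ u, π * d = 2 * u := ⟨π * d / 2, by ring⟩
  have h3 : π * η ≤ 2 * u := by nlinarith [pi_pos]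
  have h4 : u < π / 2 := by nlinarith [pi_pos]
  have hp := mul_pos pi_pos hη
  have h5 := xKL_cos (by linarith) h4
  have h6 : 0 < cos u := cos_pos_of_mem_Ioo ⟨by linarith [pi_pos], h4⟩
  rw [div_div, div_le_div_iff₀ (by positivity) hp, hu, cos_two_mul, sin_two_mul]
  have h8 := mul_le_mul_of_nonneg_left h3 (sq_nonneg (cos u))
  have h9 := mul_le_mul_of_nonneg_left h5 h6.le
  linarith

theorem xKL_last {d η : ℝ} (hη : 0 < η) (h0 : η ≤ d) (h1 : d < 1) :
    ‖xKL_b d‖ + xKL_c d / 2 ≤ 1 / (π * η) := by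
  have h2 := xKL_norm (hη.trans_le h0) h1
  have h3 := xKL_half hη h0 h1
  rw [add_div, add_div] at h3
  rw [xKL_c]
  linarith

theorem xKL_first {d η : ℝ} (hη : 0 < η) (h0 : 0 < d) (h1 : d ≤ 1 - η) :
    ‖xKL_b d‖ - xKL_c d / 2 ≤ 1 / (π * η) := by
  have h2 := xKL_norm h0 (by linarith)
  have h3 := xKL_half (d := 1 - d) hη (by linarith) (by linarith)
  rw [mul_sub, mul_one, cos_pi_sub, sin_pi_sub, add_div, add_div, neg_div, neg_div] at h3
  rw [xKL_c]
  linarith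

theorem xKL_one (φ : ℕ → ℝ) (A B : ℕ) (ν : ℤ) (η₀ η₁ : ℝ) (h₀ : 0 < η₀) (h₁ : 0 < η₁)
    (h1 : ∀ n, A ≤ n → n < B → ν + η₀ ≤ φ (n + 1) - φ n ∧ φ (n + 1) - φ n ≤ ν + 1 - η₁)
    (h2 : ∀ n, A ≤ n → n + 1 < B → φ (n + 2) - φ (n + 1) ≤ φ (n + 1) - φ n)
    (m : ℕ) (hm : m ≤ B) : ‖∑ n ∈ Ico A m, ex (φ n)‖ ≤ 1 / (π * η₀) + 1 / (π * η₁) := by
  have hn : ∀ x, ‖ex x‖ = 1 := fun x => Complex.norm_exp_ofReal_mul_I _
  have key : ∀ m, A ≤ m → m < B →
      ‖∑ n ∈ Ico A (m + 1), ex (φ n) -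
        xKL_b (φ (m + 1) - φ m - ν) * ex (φ (m + 1)) + xKL_b (φ (A + 1) - φ A - ν) * ex (φ A)‖ ≤
        (xKL_c (φ (m + 1) - φ m - ν) - xKL_c (φ (A + 1) - φ A - ν)) / 2 := by
    intro m hm
    induction m, hm using Nat.le_induction with
    | base =>
      intro h
      have h4 := h1 A le_rfl h
      have h5 := xKL_step (φ A) (y := φ (A + 1)) ν (by linarith [h4.1]) (by linarith [h4.2])
      rw [Nat.Ico_succ_singleton, sum_singleton, sub_self, zero_div, norm_le_zero_iff]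
      linear_combination h5
    | succ m hm ih =>
      intro h
      have h4 := h1 m hm (by omega)
      have h5 := h1 (m + 1) (by omega) h
      have h6 := xKL_sub (d := φ (m + 1) - φ m - ν) (e := φ (m + 1 + 1) - φ (m + 1) - ν)
        (by linarith [h5.1]) (by linarith [h2 m hm h]) (by linarith [h4.2])
      have h7 := norm_add_le_of_le (ih (by omega))
        ((norm_mul _ (ex (φ (m + 1)))).trans_le ((hn _).symm ▸ (mul_one _).trans_le h6))
      have h8 := xKL_step (φ (m + 1)) (y := φ (m + 1 + 1)) ν (by linarith [h5.1])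
        (by linarith [h5.2])
      rw [sum_Ico_succ_top (by omega)]
      refine (le_of_eq (congrArg _ ?_)).trans (h7.trans_eq (by ring))
      linear_combination h8
  rcases le_or_gt m A with hA | hA
  · rw [Ico_eq_empty_of_le hA, sum_empty, norm_zero]
    positivity
  obtain ⟨m, rfl⟩ : ∃ k, m = k + 1 := ⟨m - 1, by omega⟩
  have h4 := key m (by omega) (by omega)
  have h3 := h1 m (by omega) (by omega)
  have h3' := h1 A le_rfl (by omega)
  have h5 := xKL_last (d := φ (m + 1) - φ m - ν) h₀ (by linarith [h3.1]) (by linarith [h3.2])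
  have h6 := xKL_first (d := φ (A + 1) - φ A - ν) h₁ (by linarith [h3'.1]) (by linarith [h3'.2])
  have h7 : ∀ a b c : ℂ, ‖a‖ ≤ ‖a - b + c‖ + ‖b‖ + ‖c‖ := fun a b c =>
    (le_of_eq (congrArg _ (by ring))).trans
      ((norm_sub_le (a - b + c + b) c).trans (add_le_add (norm_add_le _ _) le_rfl))
  refine (h7 _ (xKL_b (φ (m + 1) - φ m - ν) * ex (φ (m + 1)))
    (xKL_b (φ (A + 1) - φ A - ν) * ex (φ A))).trans ?_
  rw [norm_mul, norm_mul, hn, hn]
  linarith

theorem stKL : StKL := by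
  intro φ w A B ν η₀ η₁ h₀ h₁ h1 h2 h3
  have hS := xKL_one φ A B ν η₀ η₁ h₀ h₁ h1 h2
  generalize hK : 1 / (π * η₀) + 1 / (π * η₁) = K at *
  have hK0 : 0 ≤ K := (norm_nonneg _).trans (hS 0 (Nat.zero_le _))
  have hw : ∀ n, A ≤ n → 0 ≤ w n := fun n hn => (h3 n hn).1.trans (h3 n hn).2
  rcases le_or_gt B A with hA | hA
  · rw [Ico_eq_empty_of_le hA, sum_empty, norm_zero]
    exact mul_nonneg (hw A le_rfl) hK0
  have key : ∀ m, A ≤ m → m ≤ B →
      ‖∑ n ∈ Ico A m, (w n : ℂ) * ex (φ n) - (w m : ℂ) * ∑ n ∈ Ico A m, ex (φ n)‖ ≤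
        (w A - w m) * K := by
    intro m hm
    induction m, hm using Nat.le_induction with
    | base => intro _; simp
    | succ m hm ih =>
      intro h
      have h4 : ‖((w m - w (m + 1) : ℝ) : ℂ) * ∑ n ∈ Ico A (m + 1), ex (φ n)‖ ≤
          (w m - w (m + 1)) * K := by
        rw [norm_mul, Complex.norm_real, Real.norm_eq_abs, abs_of_nonneg (by linarith [h3 m hm])]
        exact mul_le_mul_of_nonneg_left (hS _ h) (by linarith [h3 m hm])
      have h5 := norm_add_le_of_le (ih (by omega)) h4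
      refine (le_of_eq (congrArg _ ?_)).trans (h5.trans_eq (by ring))
      rw [sum_Ico_succ_top hm, sum_Ico_succ_top hm]
      push_cast
      ring
  have h4 : ‖(w B : ℂ) * ∑ n ∈ Ico A B, ex (φ n)‖ ≤ w B * K := by
    rw [norm_mul, Complex.norm_real, Real.norm_eq_abs, abs_of_nonneg (hw B hA.le)]
    exact mul_le_mul_of_nonneg_left (hS _ le_rfl) (hw B hA.le)
  have h5 := norm_add_le_of_le (key B hA.le le_rfl) h4
  rw [sub_add_cancel] at h5
  linarith

end Pool.Agent.MP_88bd62_nt.U
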