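import Pool.Agent.MP_88bd62_nt.U.Stmts

namespace Pool.Agent.MP_88bd62_nt.U

open Finset Real Filter Topology

theorem xKerB_low {n m w : ℝ} (hn : 1000 ≤ n) (h0 : 0 ≤ m) (hm : m ≤ n) (h3 : m ≤ m ^ 3)
    (hw : w = (cub (2 * n - m) - 4 * cub (n - m)) / (n * (2 * n ^ 2 + 1) / 3)) :
    0 ≤ w ∧ w ≤ 1 ∧ 1 - w ≤ 1.501 * m / (2 * n) ∧ m * w ≤ 0.4 * n ∧
      1 - w ≤ 1.6 * m ^ 2 / n ^ 2 := by
  have n0 : 0 < n := by linarith
  have D0 : 0 < 4 * n ^ 3 + 2 * n := by positivity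
  have n2 : 1000000 ≤ n ^ 2 := by nlinarith
  have e : w = (4 * n ^ 3 - 6 * n * m ^ 2 + 3 * m ^ 3 + 2 * n - 3 * m) / (4 * n ^ 3 + 2 * n) := by
    rw [hw, cub, cub]
    field_simp
    ring
  have e' : 1 - w = (6 * n * m ^ 2 - 3 * m ^ 3 + 3 * m) / (4 * n ^ 3 + 2 * n) := by
    rw [e]
    field_simp
    ring
  have d0 : 0 ≤ n - m := by linarith
  have n3 : 1000000 * n ≤ n ^ 3 := by nlinarith
  refine ⟨?_, ?_, ?_, ?_, ?_⟩
  · rw [e]
    refine div_nonneg ?_ D0.le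
    have a : 0 ≤ (n - m) * (n ^ 2 + n * m - m ^ 2) :=
      mul_nonneg d0 (by nlinarith [mul_nonneg h0 d0])
    nlinarith
  · rw [← sub_nonneg, e']
    refine div_nonneg ?_ D0.le
    nlinarith [mul_nonneg (sq_nonneg m) d0, mul_nonneg n0.le (sq_nonneg m)]
  · rw [e', div_le_div_iff₀ D0 (by positivity)]
    have a : 6 * n * m - 3 * m ^ 2 + 3 ≤ 1.501 * (2 * n ^ 2 + 1) := by nlinarith [sq_nonneg (n - m)]
    have b := mul_le_mul_of_nonneg_left a (by positivity : 0 ≤ 2 * n * m)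
    nlinarith
  · rw [e, ← mul_div_assoc, div_le_iff₀ D0]
    have a := mul_nonneg (mul_nonneg h0 d0) (sq_nonneg (m - n / 2))
    have b : 0 ≤ n ^ 2 * (1.6 * n ^ 2 - 4.75 * n * m + 3.75 * m ^ 2) :=
      mul_nonneg (sq_nonneg n) (by nlinarith [sq_nonneg (m - 19 / 30 * n), sq_nonneg n])
    nlinarith [sq_nonneg (n - 3 * m), sq_nonneg n]
  · rw [e', div_le_div_iff₀ D0 (by positivity)]
    have a := mul_le_mul_of_nonneg_right h3 (sq_nonneg n)
    have b : 0 ≤ m ^ 2 * n ^ 3 := by positivity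
    have c : 0 ≤ m ^ 2 * n := by positivity
    nlinarith

theorem xKerB_mid {n m w : ℝ} (hn : 1000 ≤ n) (hm : n ≤ m) (h1 : 1 ≤ 2 * n - m)
    (hw : w = (cub (2 * n - m) - 0) / (n * (2 * n ^ 2 + 1) / 3)) :
    0 ≤ w ∧ w ≤ 1 ∧ 1 - w ≤ 1.501 * m / (2 * n) ∧ m * w ≤ 0.4 * n ∧
      1 - w ≤ 1.6 * m ^ 2 / n ^ 2 := by
  obtain ⟨r, rfl⟩ : ∃ r, m = 2 * n - r := ⟨2 * n - m, by ring⟩
  have n0 : 0 < n := by linarith
  have D0 : 0 < 4 * n ^ 3 + 2 * n := by positivity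
  have n2 : 1000000 ≤ n ^ 2 := by nlinarith
  have n3 : 1000000 * n ≤ n ^ 3 := by nlinarith
  have r1 : 1 ≤ r := by linarith
  have rn : r ≤ n := by linarith
  have e : w = (r ^ 3 - r) / (4 * n ^ 3 + 2 * n) := by
    rw [hw, cub]
    field_simp
    ring
  have e' : 1 - w = (4 * n ^ 3 + 2 * n - r ^ 3 + r) / (4 * n ^ 3 + 2 * n) := by
    rw [e]
    field_simp
    ring
  have r3 : r ^ 3 ≤ n ^ 3 := pow_le_pow_left₀ (by linarith) rn 3
  have w0 : 0 ≤ w := by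
    rw [e]
    refine div_nonneg ?_ D0.le
    have : r ≤ r ^ 3 := le_self_pow₀ r1 (by norm_num)
    linarith
  refine ⟨w0, ?_, ?_, ?_, ?_⟩
  · rw [e, div_le_one D0]
    nlinarith
  · rw [e', div_le_div_iff₀ D0 (by positivity)]
    have a : 0 ≤ (n - r) ^ 2 * (2 * n + r) := mul_nonneg (sq_nonneg _) (by linarith)
    have b : n ^ 2 * r ≤ n ^ 2 * n := mul_le_mul_of_nonneg_left rn (sq_nonneg n)
    have c : 4 * n ^ 3 + 2 * n - r ^ 3 + r ≤ 1.501 * (2 * n - r) * (2 * n ^ 2 + 1) := by nlinarith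
    have d := mul_le_mul_of_nonneg_right c (by positivity : 0 ≤ 2 * n)
    nlinarith
  · rw [e, ← mul_div_assoc, div_le_iff₀ D0]
    have a : (2 * n - r) * r ≤ n ^ 2 := by nlinarith [sq_nonneg (n - r)]
    have b : r ^ 2 ≤ n ^ 2 := pow_le_pow_left₀ (by linarith) rn 2
    have c := mul_le_mul a b (sq_nonneg r) (sq_nonneg n)
    have d : 0 ≤ (2 * n - r) * r := mul_nonneg (by linarith) (by linarith)
    have f : 0 ≤ n ^ 4 := by positivity
    nlinarith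
  · rw [le_div_iff₀ (by positivity)]
    have b : n ^ 2 ≤ (2 * n - r) ^ 2 := pow_le_pow_left₀ n0.le hm 2
    nlinarith [mul_nonneg w0 (sq_nonneg n)]

theorem stKerB : StKerB := by
  intro N hN k
  have hn : (1000 : ℝ) ≤ N := by exact_mod_cast hN
  have n0 : (0 : ℝ) < N := by linarith
  rw [← sq_abs (k : ℝ)]
  have ek : |(k : ℝ)| = ((|k| : ℤ) : ℝ) := by push_cast; rfl
  by_cases h2 : 2 * (N : ℤ) ≤ |k|
  · have a : 2 * (N : ℝ) ≤ |(k : ℝ)| := by rw [ek]; exact_mod_cast h2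
    rw [wk, if_pos h2]
    refine ⟨le_rfl, zero_le_one, ?_, by rw [mul_zero]; positivity, ?_⟩
    · rw [le_div_iff₀ (by positivity)]
      linarith
    · rw [le_div_iff₀ (by positivity)]
      have := pow_le_pow_left₀ (by positivity) a 2
      nlinarith [sq_nonneg (N : ℝ)]
  · by_cases h1 : |k| ≤ (N : ℤ)
    · refine xKerB_low hn (abs_nonneg _) (by rw [ek]; exact_mod_cast h1) ?_
        (by rw [wk, if_neg h2, if_pos h1, cN])
      rcases (abs_nonneg k).eq_or_lt with h | h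
      · rw [ek, ← h]
        simp
      · exact le_self_pow₀ (by rw [ek]; exact_mod_cast h) (by norm_num)
    · refine xKerB_mid hn (by rw [ek]; exact_mod_cast (not_le.1 h1).le) ?_
        (by rw [wk, if_neg h2, if_neg h1, cN])
      have : (1 : ℤ) ≤ 2 * N - |k| := by omega
      rw [ek]
      exact_mod_cast this

end Pool.Agent.MP_88bd62_nt.U
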