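import Pool.Agent.MP_88bd62_nt.U.Stmts

/-! First and second moments of the Jackson kernel. -/

namespace Pool.Agent.MP_88bd62_nt.U

open Finset Real Filter Topology

theorem xKerC_J (m : ℤ) : ∫ y in (0 : ℝ)..1, cos (π * m * y) = if m = 0 then 1 else 0 := by
  split_ifs with h
  · simp [h]
  · have hm : (π * m : ℝ) ≠ 0 := mul_ne_zero pi_ne_zero (by exact_mod_cast h)
    rw [intervalIntegral.integral_comp_mul_left (fun x => cos x) hm]
    have : sin (π * m) = 0 := by rw [mul_comm]; exact sin_int_mul_pi m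
    simp [this]

theorem xKerC_I {m : ℤ} (h : m ≠ 0) :
    ∫ y in (0 : ℝ)..1, y * cos (π * m * y) = (cos (π * m) - 1) / (π * m) ^ 2 := by
  have hm : (π * m : ℝ) ≠ 0 := mul_ne_zero pi_ne_zero (by exact_mod_cast h)
  set c : ℝ := π * m with hc
  have hd : ∀ y ∈ Set.uIcc (0 : ℝ) 1,
      HasDerivAt (fun y => y * sin (c * y) / c + cos (c * y) / c ^ 2) (y * cos (c * y)) y := by
    intro y _
    have h1 : HasDerivAt (fun y => c * y) c y := by simpa using (hasDerivAt_id y).const_mul c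
    have h2 := (((hasDerivAt_id y).mul h1.sin).div_const c).add (h1.cos.div_const (c ^ 2))
    refine HasDerivAt.congr_deriv h2 ?_
    simp only [id]
    field_simp
    ring
  rw [intervalIntegral.integral_eq_sub_of_hasDerivAt hd
    (Continuous.intervalIntegrable (by fun_prop) _ _)]
  have : sin c = 0 := by rw [hc, mul_comm]; exact sin_int_mul_pi m
  simp only [mul_one, this, mul_zero, zero_mul, cos_zero]
  ring

theorem xKerC_sumA (F : ℤ → ℝ) (hF : ∀ k, F (-k) = F k) (n : ℕ) :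
    ∑ k ∈ Ioo (-((n : ℤ) + 1)) ((n : ℤ) + 1), F k = F 0 + 2 * ∑ i ∈ range n, F (i + 1) := by
  induction n with
  | zero =>
    have : Ioo (-(((0 : ℕ) : ℤ) + 1)) (((0 : ℕ) : ℤ) + 1) = {0} := by
      ext k
      simp only [mem_Ioo, mem_singleton]
      omega
    rw [this]
    simp
  | succ n ih =>
    have : Ioo (-(((n + 1 : ℕ) : ℤ) + 1)) (((n + 1 : ℕ) : ℤ) + 1) =
        insert ((n : ℤ) + 1) (insert (-((n : ℤ) + 1)) (Ioo (-((n : ℤ) + 1)) ((n : ℤ) + 1))) := by
      ext k
      simp only [mem_Ioo, mem_insert]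
      push_cast
      omega
    rw [this, sum_insert, sum_insert, ih, sum_range_succ, hF]
    · ring
    · simp
    · simp only [mem_insert, mem_Ioo]
      omega

theorem xKerC_sumB (F : ℤ → ℝ) (h0 : ∀ j : ℕ, F (2 * j + 2) = 0) (M : ℕ) :
    ∑ i ∈ range (2 * M + 1), F (i + 1) = ∑ j ∈ range (M + 1), F (2 * j + 1) := by
  induction M with
  | zero => simp
  | succ M ih =>
    rw [show 2 * (M + 1) + 1 = 2 * M + 1 + 1 + 1 by ring, sum_range_succ, sum_range_succ, ih,
      sum_range_succ _ (M + 1)]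
    have h1 : F (((2 * M + 1 : ℕ) : ℤ) + 1) = 0 := by
      rw [← h0 M]
      congr 1
    have h2 : ((2 * M + 1 + 1 : ℕ) : ℤ) + 1 = 2 * ((M + 1 : ℕ) : ℤ) + 1 := by
      push_cast
      ring
    rw [h1, h2, add_zero]

theorem xKerC_odd : HasSum (fun j : ℕ => 1 / ((2 * j + 1 : ℕ) : ℝ) ^ 2) (π ^ 2 / 8) := by
  have h := hasSum_zeta_two
  have he : HasSum (fun j : ℕ => 1 / ((2 * j : ℕ) : ℝ) ^ 2) (π ^ 2 / 24) := by
    have e : (fun j : ℕ => 1 / ((2 * j : ℕ) : ℝ) ^ 2) = fun j : ℕ => 1 / 4 * (1 / (j : ℝ) ^ 2) := by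
      funext j
      push_cast
      rw [mul_pow, ← one_div_mul_one_div]
      norm_num
    rw [e, show π ^ 2 / 24 = 1 / 4 * (π ^ 2 / 6) by ring]
    exact h.mul_left (1 / 4)
  have ho : Summable (fun j : ℕ => 1 / ((2 * j + 1 : ℕ) : ℝ) ^ 2) :=
    h.summable.comp_injective (i := fun j : ℕ => 2 * j + 1) fun a b hab => by
      simp only at hab
      omega
  have h2 := HasSum.even_add_odd (f := fun n : ℕ => 1 / (n : ℝ) ^ 2) he ho.hasSum
  have h3 := h.unique h2
  convert ho.hasSum using 1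
  linarith

theorem xKerC_tail {N : ℕ} (hN : 1 ≤ N) :
    π ^ 2 / 8 ≤ ∑ j ∈ range N, 1 / (2 * (j : ℝ) + 1) ^ 2 + 1 / (4 * N) := by
  have h : ∀ M, N ≤ M → ∑ j ∈ range M, 1 / (2 * (j : ℝ) + 1) ^ 2 + 1 / (4 * (M : ℝ)) ≤
      ∑ j ∈ range N, 1 / (2 * (j : ℝ) + 1) ^ 2 + 1 / (4 * N) := by
    intro M hM
    induction M, hM using Nat.le_induction with
    | base => exact le_rfl
    | succ M hM ih =>
      refine le_trans ?_ ih
      have hM1 : (1 : ℝ) ≤ M := by exact_mod_cast hN.trans hM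
      rw [sum_range_succ, add_assoc]
      gcongr
      push_cast
      rw [div_add_div _ _ (by positivity) (by positivity), div_le_div_iff₀ (by positivity)
        (by positivity)]
      nlinarith
  refine le_of_tendsto xKerC_odd.tendsto_sum_nat ?_
  filter_upwards [eventually_ge_atTop N] with M hM
  have h1 := h M hM
  have h2 : (0 : ℝ) ≤ 1 / (4 * (M : ℝ)) := by positivity
  push_cast
  linarith

theorem xKerC_sq (N : ℝ) (m : ℕ) :
    ∑ j ∈ range m, max (2 * (j : ℝ) + 1 - N) 0 ^ 2 ≤ max (2 * (m : ℝ) - N) 0 ^ 3 / 6 := by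
  induction m with
  | zero => simp only [range_zero, sum_empty]; positivity
  | succ m ih =>
    rw [sum_range_succ]
    push_cast
    set a : ℝ := 2 * (m : ℝ) - N with ha
    have e1 : 2 * (m : ℝ) + 1 - N = a + 1 := by rw [ha]; ring
    have e2 : 2 * ((m : ℝ) + 1) - N = a + 2 := by rw [ha]; ring
    rw [e1, e2]
    have : max a 0 ^ 3 / 6 + max (a + 1) 0 ^ 2 ≤ max (a + 2) 0 ^ 3 / 6 := by
      rcases le_total 0 a with h | h
      · rw [max_eq_left h, max_eq_left (by linarith), max_eq_left (by linarith)]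
        nlinarith
      · rw [max_eq_right h]
        rcases le_total 0 (a + 1) with h1 | h1
        · rw [max_eq_left h1, max_eq_left (by linarith)]
          nlinarith [mul_nonneg h1 (mul_nonneg h1 h1), mul_nonneg h1 (neg_nonneg.2 h)]
        · rw [max_eq_right h1]
          have : 0 ≤ max (a + 2) 0 ^ 3 := pow_nonneg (le_max_right _ _) _
          norm_num
          linarith
    linarith

theorem xKerC_lin (m : ℕ) : ∑ j ∈ range m, (2 * (j : ℝ) + 1) = (m : ℝ) ^ 2 := by
  induction m with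
  | zero => simp
  | succ m ih =>
    rw [sum_range_succ, ih]
    push_cast
    ring

theorem xKerC_pt {N j : ℕ} (hj : j < N) :
    (1 - wk N (2 * j + 1)) / (2 * (j : ℝ) + 1) ^ 2 ≤
      (6 * N - 3 * (2 * (j : ℝ) + 1) + 3 + max (2 * (j : ℝ) + 1 - N) 0 ^ 2 / N) / (4 * N ^ 3) := by
  have hj' : (j : ℝ) + 1 ≤ N := by exact_mod_cast hj
  have hj0 : (0 : ℝ) ≤ j := Nat.cast_nonneg j
  have hN : (1 : ℝ) ≤ N := by linarith
  have habs : |(2 * (j : ℤ) + 1)| = 2 * j + 1 := abs_of_nonneg (by positivity)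
  have habs' : |((2 * (j : ℤ) + 1 : ℤ) : ℝ)| = 2 * (j : ℝ) + 1 := by
    push_cast
    exact abs_of_nonneg (by positivity)
  set k : ℝ := 2 * (j : ℝ) + 1 with hk
  have hk1 : 1 ≤ k := by linarith
  have hk2 : k ≤ 2 * N := by linarith
  have hD : (0 : ℝ) < 4 * N ^ 3 + 2 * N := by positivity
  have key : 1 - wk N (2 * j + 1) ≤
      k ^ 2 * (6 * N - 3 * k + 3 + max (k - N) 0 ^ 2 / N) / (4 * N ^ 3 + 2 * N) := by
    rw [wk, if_neg (by rw [habs]; omega), habs', habs]
    split_ifs with h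
    · have h' : k ≤ N := by rw [hk]; exact_mod_cast h
      rw [max_eq_right (by linarith)]
      have e : 1 - (cub (2 * N - k) - 4 * cub (N - k)) / cN N =
          (6 * N * k ^ 2 - 3 * k ^ 3 + 3 * k) / (4 * N ^ 3 + 2 * N) := by
        rw [cub, cub, cN]
        field_simp
        ring
      rw [e]
      gcongr
      norm_num
      nlinarith
    · have h' : (N : ℝ) ≤ k := by
        rw [hk]
        have : (N : ℤ) ≤ 2 * j + 1 := by omega
        exact_mod_cast this
      rw [max_eq_left (by linarith)]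
      have e : 1 - (cub (2 * N - k) - 0) / cN N =
          (6 * N * k ^ 2 - 3 * k ^ 3 + 3 * k + 4 * ((k - N) ^ 3 - (k - N))) /
            (4 * N ^ 3 + 2 * N) := by
        rw [cub, cN]
        field_simp
        ring
      rw [e]
      gcongr
      have h1 : 4 * (k - N) ^ 3 ≤ k ^ 2 * ((k - N) ^ 2 / N) := by
        rw [← mul_div_assoc, le_div_iff₀ (by positivity)]
        have := mul_nonneg (sq_nonneg (k - N)) (sq_nonneg (k - 2 * N))
        nlinarith
      nlinarith
  rw [div_le_iff₀ (by positivity)]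
  refine key.trans ?_
  have hB : 0 ≤ 6 * N - 3 * k + 3 + max (k - N) 0 ^ 2 / N := by
    have : 0 ≤ max (k - N) 0 ^ 2 / N := by positivity
    linarith
  rw [div_mul_eq_mul_div, mul_comm _ (k ^ 2)]
  gcongr
  linarith

theorem xKerC_first {N : ℕ} (hN : 1 ≤ N) : ∫ y in (0 : ℝ)..1, y * ker N y =
    1 / 2 - 4 / π ^ 2 * ∑ j ∈ range N, wk N (2 * j + 1) / (2 * (j : ℝ) + 1) ^ 2 := by
  obtain ⟨M, rfl⟩ : ∃ M, N = M + 1 := ⟨N - 1, by omega⟩
  set F : ℤ → ℝ := fun k => wk (M + 1) k * ∫ y in (0 : ℝ)..1, y * cos (π * k * y) with hF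
  have h1 : ∫ y in (0 : ℝ)..1, y * ker (M + 1) y =
      ∑ k ∈ Ioo (-(2 * ((M + 1 : ℕ) : ℤ))) (2 * ((M + 1 : ℕ) : ℤ)), F k := by
    simp only [ker, mul_sum, hF]
    rw [intervalIntegral.integral_finsetSum
      fun k _ => Continuous.intervalIntegrable (by fun_prop) _ _]
    refine sum_congr rfl fun k _ => ?_
    rw [← intervalIntegral.integral_const_mul]
    congr 1
    funext y
    ring
  have heven : ∀ k, F (-k) = F k := by
    intro k
    simp only [hF, wk, abs_neg, Int.cast_neg, mul_neg, neg_mul, cos_neg]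
  have h0 : ∀ j : ℕ, F (2 * j + 2) = 0 := by
    intro j
    simp only [hF]
    rw [xKerC_I (by positivity)]
    have : cos (π * ((2 * (j : ℤ) + 2 : ℤ) : ℝ)) = 1 := by
      rw [← cos_nat_mul_two_pi (j + 1)]
      congr 1
      push_cast
      ring
    rw [this]
    simp
  have hz : F 0 = 1 / 2 := by
    have hw : wk (M + 1) 0 = 1 := by
      rw [wk, if_neg (by simp only [abs_zero]; push_cast; omega), if_pos (by simp; omega), cub, cub, cN]
      simp only [Int.cast_zero, abs_zero, sub_zero]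
      field_simp
      ring
    simp [hF, hw]
  have hodd : ∀ j : ℕ, F (2 * j + 1) =
      -(2 / π ^ 2) * (wk (M + 1) (2 * j + 1) / (2 * (j : ℝ) + 1) ^ 2) := by
    intro j
    simp only [hF]
    rw [xKerC_I (by positivity)]
    have : cos (π * ((2 * (j : ℤ) + 1 : ℤ) : ℝ)) = -1 := by
      rw [← cos_nat_mul_two_pi_add_pi j]
      congr 1
      push_cast
      ring
    rw [this]
    push_cast
    field_simp
    ring
  have e : (2 * ((M + 1 : ℕ) : ℤ)) = ((2 * M + 1 : ℕ) : ℤ) + 1 := by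
    push_cast
    ring
  rw [h1, e, xKerC_sumA F heven, xKerC_sumB F h0, hz, sum_congr rfl fun j _ => hodd j, ← mul_sum]
  ring

theorem xKerC_cos {N : ℕ} (hN : 1 ≤ N) : ∫ y in (0 : ℝ)..1, cos (π * y) * ker N y = wk N 1 := by
  have h1 : ∫ y in (0 : ℝ)..1, cos (π * y) * ker N y =
      ∑ k ∈ Ioo (-(2 * N : ℤ)) (2 * N), ((if k = -1 then wk N k / 2 else 0) +
        if k = 1 then wk N k / 2 else 0) := by
    simp only [ker, mul_sum]
    rw [intervalIntegral.integral_finsetSum
      fun k _ => Continuous.intervalIntegrable (by fun_prop) _ _]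
    refine sum_congr rfl fun k _ => ?_
    have e : (fun y : ℝ => cos (π * y) * (wk N k * cos (π * k * y))) = fun y : ℝ =>
        wk N k / 2 * cos (π * ((k + 1 : ℤ) : ℝ) * y) +
          wk N k / 2 * cos (π * ((k - 1 : ℤ) : ℝ) * y) := by
      funext y
      push_cast
      rw [show π * ((k : ℝ) + 1) * y = π * k * y + π * y by ring,
        show π * ((k : ℝ) - 1) * y = π * k * y - π * y by ring, cos_add, cos_sub]
      ring
    rw [e, intervalIntegral.integral_add (Continuous.intervalIntegrable (by fun_prop) _ _)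
      (Continuous.intervalIntegrable (by fun_prop) _ _), intervalIntegral.integral_const_mul,
      intervalIntegral.integral_const_mul, xKerC_J, xKerC_J]
    congr 1
    · by_cases h : k = -1
      · simp [h]
      · rw [if_neg h, if_neg (by omega), mul_zero]
    · by_cases h : k = 1
      · simp [h]
      · rw [if_neg h, if_neg (by omega), mul_zero]
  have h2 : wk N (-1) = wk N 1 := by
    simp only [wk, abs_neg, Int.cast_neg]
  rw [h1, sum_add_distrib, sum_ite_eq', sum_ite_eq', if_pos (by simp only [mem_Ioo]; omega),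
    if_pos (by simp only [mem_Ioo]; omega), h2]
  ring

theorem stKerC (hKerA : StKerA) (hKerB : StKerB) : StKerC := by
  intro N hN
  have hN1 : 1 ≤ N := le_trans (by norm_num) hN
  have hNr : (10 : ℝ) ^ 6 ≤ N := by exact_mod_cast hN
  have hN0 : (0 : ℝ) < N := by linarith
  have hc : Continuous (ker N) := by
    unfold ker
    fun_prop
  constructor
  · rw [xKerC_first hN1]
    have h1 := xKerC_tail hN1
    have h2 : ∑ j ∈ range N, (1 - wk N (2 * j + 1)) / (2 * (j : ℝ) + 1) ^ 2 ≤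
        (3 * (N : ℝ) ^ 2 + 3 * N + N ^ 2 / 6) / (4 * N ^ 3) := by
      refine (sum_le_sum fun j hj => xKerC_pt (mem_range.1 hj)).trans ?_
      rw [← sum_div]
      gcongr
      rw [sum_add_distrib, sum_add_distrib, sum_sub_distrib, ← mul_sum _ _ (3 : ℝ), xKerC_lin,
        ← sum_div]
      have h3 := xKerC_sq N N
      rw [max_eq_left (by linarith)] at h3
      have h4 : (∑ j ∈ range N, max (2 * (j : ℝ) + 1 - N) 0 ^ 2) / N ≤ N ^ 2 / 6 := by
        rw [div_le_iff₀ hN0]
        refine h3.trans (le_of_eq ?_)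
        ring
      simp only [sum_const, card_range, nsmul_eq_mul]
      nlinarith
    have h3 : ∑ j ∈ range N, (1 - wk N (2 * j + 1)) / (2 * (j : ℝ) + 1) ^ 2 =
        ∑ j ∈ range N, 1 / (2 * (j : ℝ) + 1) ^ 2 -
          ∑ j ∈ range N, wk N (2 * j + 1) / (2 * (j : ℝ) + 1) ^ 2 := by
      rw [← sum_sub_distrib]
      exact sum_congr rfl fun j _ => sub_div _ _ _
    have h4 : (3 * N ^ 2 + 3 * N + N ^ 2 / 6) / (4 * N ^ 3) + 1 / (4 * N) ≤ (1.0417 : ℝ) / N := by
      rw [div_add_div _ _ (by positivity) (by positivity), div_le_div_iff₀ (by positivity) hN0]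
      have : (0 : ℝ) ≤ N ^ 3 * (N - 10 ^ 6) := mul_nonneg (by positivity) (by linarith)
      have h5 : (0 : ℝ) ≤ N ^ 4 := by positivity
      have h6 : (0 : ℝ) ≤ N ^ 4 * (N - 10 ^ 6) := mul_nonneg (by positivity) (by linarith)
      nlinarith
    have hp : (9.869 : ℝ) ≤ π ^ 2 := by nlinarith [pi_gt_d4]
    have h5 : 1 / 2 - 4 / π ^ 2 * ∑ j ∈ range N, wk N (2 * j + 1) / (2 * (j : ℝ) + 1) ^ 2 =
        4 / π ^ 2 * (π ^ 2 / 8 - ∑ j ∈ range N, wk N (2 * j + 1) / (2 * (j : ℝ) + 1) ^ 2) := by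
      field_simp
      ring
    rw [h5]
    calc 4 / π ^ 2 * (π ^ 2 / 8 - ∑ j ∈ range N, wk N (2 * j + 1) / (2 * (j : ℝ) + 1) ^ 2)
        ≤ 4 / π ^ 2 * ((1.0417 : ℝ) / N) := by
          gcongr
          linarith
      _ ≤ 4 / 9.869 * ((1.0417 : ℝ) / N) := by gcongr
      _ ≤ (0.4225 : ℝ) / N := by
          rw [← mul_div_assoc]
          gcongr
          norm_num
  · obtain ⟨hpos, hone, -⟩ := hKerA N hN1
    have hB := (hKerB N (le_trans (by norm_num) hN) 1).2.2.2.2
    have h1 : ∫ y in (0 : ℝ)..1, y ^ 2 * ker N y ≤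
        ∫ y in (0 : ℝ)..1, (1 / 2 * ker N y - 1 / 2 * (cos (π * y) * ker N y)) := by
      refine intervalIntegral.integral_mono_on zero_le_one
        (Continuous.intervalIntegrable (by fun_prop) _ _)
        (Continuous.intervalIntegrable (by fun_prop) _ _) fun y hy => ?_
      have h2 : cos (π * y) ≤ 1 - 2 * y ^ 2 := by
        have h3 := le_sin_mul hy.1 hy.2
        have h4 : cos (π * y) = 1 - 2 * sin (π / 2 * y) ^ 2 := by
          rw [show π * y = 2 * (π / 2 * y) by ring, cos_two_mul, cos_sq']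
          ring
        rw [h4]
        nlinarith [hy.1]
      nlinarith [(hpos y).1]
    rw [intervalIntegral.integral_sub (Continuous.intervalIntegrable (by fun_prop) _ _)
      (Continuous.intervalIntegrable (by fun_prop) _ _), intervalIntegral.integral_const_mul,
      intervalIntegral.integral_const_mul, hone, xKerC_cos hN1] at h1
    have h2 : (1.6 : ℝ) * ((1 : ℤ) : ℝ) ^ 2 / (N : ℝ) ^ 2 = 1.6 * (1 / (N : ℝ) ^ 2) := by
      push_cast
      ring
    have h3 : (0 : ℝ) ≤ 1 / (N : ℝ) ^ 2 := by positivity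
    rw [h2] at hB
    linarith

end Pool.Agent.MP_88bd62_nt.U
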