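import Pool.Agent.MP_88bd62_nt.U.L2x

/-! The mean square bound in closed form. -/

namespace Pool.Agent.MP_88bd62_nt.U

open Finset Real

theorem xL2_cnt (hCount : StCount) (hSel : StSel) {jl j₀ j₁ : ℕ} {g : ℝ} (h0 : 20 ≤ jl)
    (h1 : j₀ + 4 ≤ j₁) (hg : 0 < g) (hg' : g < 1 / 2) :
    Cnt (fun j => if j < j₁ then 8 / 35 else slH j₀ g j)
      (fun j => if j < j₁ then 3.03 else elH j₀ g j) jl := by
  intro j hj
  have c0 : (20 : ℝ) ≤ j := by exact_mod_cast h0.trans hj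
  by_cases h : j < j₁
  · simp only [if_pos h]
    refine ⟨by norm_num, by norm_num, fun X l hX hl => ?_⟩
    have h2 : (2 : ℝ) ^ (3 : ℝ) ≤ X :=
      (rpow_le_rpow_of_exponent_le (by norm_num) (by linarith)).trans hX
    have h3 : 8 ≤ ⌊X⌋₊ := Nat.le_floor (by norm_num at h2 ⊢; exact h2)
    refine le_trans ?_ (hCount.1 X l (le_trans (by positivity) h2) hl).2
    refine Nat.cast_le.2 (card_le_card fun p hp => ?_)
    rw [mem_filter] at hp ⊢
    refine ⟨hp.1, (Nat.Prime.coprime_iff_not_dvd hp.2).2 fun hd => ?_⟩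
    have h4 := (mem_Ioc.1 hp.1).1
    rw [show 210 = 2 * 3 * 5 * 7 by norm_num, hp.2.dvd_mul, hp.2.dvd_mul, hp.2.dvd_mul] at hd
    rcases hd with ((hd | hd) | hd) | hd <;> have := Nat.le_of_dvd (by norm_num) hd <;> omega
  · simp only [if_neg h]
    refine ⟨(xL2_sl hg (by omega) le_rfl).1.le, by unfold elH; positivity, fun X l hX hl => ?_⟩
    have c1 : (j₀ : ℝ) + 4 ≤ j := by exact_mod_cast h1.trans (not_lt.1 h)
    have c2 : (0 : ℝ) ≤ j₀ := by positivity
    have c3 : 0 < g * ((j : ℝ) - j₀) := mul_pos hg (by linarith)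
    obtain ⟨y, hy⟩ : ∃ y : ℝ, y = 2 ^ (g * ((j : ℝ) - j₀)) := ⟨_, rfl⟩
    have y1 : 1 < y := hy ▸ one_lt_rpow (by norm_num) c3
    have y2 : log y = g * ((j : ℝ) - j₀) * log 2 := by rw [hy, log_rpow (by norm_num)]
    have y3 : 2 * y ≤ X := by
      refine le_trans ?_ hX
      rw [hy, mul_comm, ← rpow_add_one (by norm_num)]
      exact rpow_le_rpow_of_exponent_le (by norm_num) (by nlinarith)
    have y4 := Nat.ceil_lt_add_one (a := y) (by linarith)
    refine (hSel ⌈y⌉₊ X l (Nat.lt_ceil.2 (by exact_mod_cast y1)) (by linarith) hl).trans ?_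
    rw [slH, elH, ← hy, ← y2, one_div_mul_eq_div]
    have y5 := log_pos y1
    have y6 := Nat.le_ceil y
    gcongr

/-- The bounds for the mass up to level `j`. -/
noncomputable def xL2_A (jz j₀ J : ℕ) (g θ : ℝ) (j : ℕ) : ℝ :=
  if j ≤ J then log ((j + 1) / jz) + eM jz else Atot jz j₀ J g θ

theorem xL2_eM (jz : ℕ) : 0 ≤ eM jz := by
  have := log_pos (x := 2) (by norm_num)
  unfold eM
  positivity

theorem xL2_A0 {jz j : ℕ} (h0 : 20 ≤ jz) (h : jz ≤ j + 1) : 0 ≤ log ((j + 1) / jz) + eM jz := by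
  have c : (jz : ℝ) ≤ j + 1 := by exact_mod_cast h
  have c' : (0 : ℝ) < jz := by exact_mod_cast (by omega : 0 < jz)
  exact add_nonneg (log_nonneg ((one_le_div c').2 c)) (xL2_eM jz)

variable {jz jl j₀ j₁ J : ℕ} {g θ : ℝ} {c : ℕ → ℝ}

theorem xL2_At (h : LOK jz jl j₀ j₁ J g θ) {j : ℕ} (hj : j ≤ J) :
    log ((j + 1) / jz) + eM jz ≤ Atot jz j₀ J g θ := by
  obtain ⟨h0, -, -, h3, h4, hg, -, t0, t1, -⟩ := h
  have c' : (0 : ℝ) < jz := by exact_mod_cast (by omega : 0 < jz)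
  have c1 := (xL2_sl (j₀ := j₀) (j := J) hg (by omega) le_rfl).1
  have c2 : 0 < 1 - θ := by linarith
  refine le_add_of_le_of_nonneg ?_ (by positivity)
  gcongr

theorem xL2_A_le (h : LOK jz jl j₀ j₁ J g θ) (j : ℕ) :
    xL2_A jz j₀ J g θ j ≤ Atot jz j₀ J g θ := by
  unfold xL2_A
  split_ifs with hj
  exacts [xL2_At h hj, le_rfl]

theorem xL2_At0 (h : LOK jz jl j₀ j₁ J g θ) : 0 ≤ Atot jz j₀ J g θ :=
  (xL2_A0 h.1 (by have := h.2.1; have := h.2.2.1; have := h.2.2.2.2.1; omega)).trans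
    (xL2_At h le_rfl)

theorem xL2_A_nonneg (h : LOK jz jl j₀ j₁ J g θ) {j : ℕ} (hj : jz ≤ j) :
    0 ≤ xL2_A jz j₀ J g θ j := by
  unfold xL2_A
  split_ifs
  exacts [xL2_A0 h.1 (by omega), xL2_At0 h]

theorem xL2_mert (hMert : StMert) (hc : Lev c J θ) (h0 : 20 ≤ jz) {j : ℕ} (hj : jz ≤ j) :
    ∑ p ∈ (Ioc (2 ^ jz) (2 ^ (j + 1))).filter Nat.Prime, c p / p ≤ log ((j + 1) / jz) + eM jz := by
  have h1 := hMert (2 ^ jz) (2 ^ (j + 1)) (Nat.pow_le_pow_right (by norm_num) h0)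
    (Nat.pow_le_pow_right (by norm_num) (by omega))
  have h2 := log_pos (x := 2) (by norm_num)
  push_cast at h1
  rw [log_pow, log_pow, mul_div_mul_right _ _ h2.ne'] at h1
  push_cast at h1
  refine le_trans (sum_le_sum fun p _ => ?_) h1
  gcongr
  exact (hc.1 p).2

theorem xL2_mass (hCount : StCount) (hSel : StSel) (hMert : StMert) (h : LOK jz jl j₀ j₁ J g θ)
    (hc : Lev c J θ) {j : ℕ} (hj : jz ≤ j) :
    ∑ p ∈ (Ioo (2 ^ jz) (2 ^ (j + 1))).filter Nat.Prime, c p / p ≤ xL2_A jz j₀ J g θ j := by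
  obtain ⟨h0, h1, h2, h3, h4, hg, hg', t0, t1, -⟩ := h
  refine le_trans (b := ∑ p ∈ (Ioc (2 ^ jz) (2 ^ (j + 1))).filter Nat.Prime, c p / p)
    (sum_le_sum_of_subset_of_nonneg (filter_subset_filter _ Ioo_subset_Ioc_self)
      fun p _ _ => div_nonneg (hc.1 p).1 (by positivity)) ?_
  unfold xL2_A
  split_ifs with hJ
  · exact xL2_mert hMert hc h0 hj
  have key : ∀ n, J + 1 ≤ n → ∑ p ∈ (Ioc (2 ^ jz) (2 ^ n)).filter Nat.Prime, c p / p ≤
      log ((J + 1) / jz) + eM jz +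
        (slH j₀ g J + 4 / 2 ^ j₀) * ∑ i ∈ Ico (J + 1) n, θ ^ (i - J) := by
    intro n hn
    induction n, hn using Nat.le_induction with
    | base => simpa using xL2_mert hMert hc h0 (j := J) (by omega)
    | succ n hn ih =>
      have a1 : 2 ^ jz ≤ 2 ^ n := Nat.pow_le_pow_right (by norm_num) (by omega)
      have a2 : 2 ^ n ≤ 2 ^ (n + 1) := Nat.pow_le_pow_right (by norm_num) (by omega)
      rw [← Ioc_union_Ioc_eq_Ioc a1 a2, filter_union,
        sum_union (disjoint_filter_filter (Ioc_disjoint_Ioc_of_le le_rfl)), sum_Ico_succ_top hn,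
        mul_add, ← add_assoc]
      refine add_le_add ih ?_
      have a3 : (2 : ℝ) ^ ((n : ℝ) - 1 / 64) ≤ 2 ^ n := by
        rw [← rpow_natCast]
        exact rpow_le_rpow_of_exponent_le (by norm_num) (by linarith)
      have a4 := (xL2_cnt hCount hSel (jl := jz) h0 h3 hg hg' n (by omega)).2.2 _ (2 ^ n) a3
        (by positivity)
      simp only [if_neg (show ¬ n < j₁ by omega)] at a4
      rw [show (2 : ℝ) ^ n + 2 ^ n = ((2 ^ (n + 1) : ℕ) : ℝ) by push_cast; ring,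
        show ⌊(2 : ℝ) ^ n⌋₊ = 2 ^ n by exact_mod_cast Nat.floor_natCast (2 ^ n),
        Nat.floor_natCast] at a4
      refine (sum_le_card_nsmul _ _ (θ ^ (n - J) / 2 ^ n) fun p hp => ?_).trans ?_
      · have a5 : (2 : ℝ) ^ n ≤ p := by exact_mod_cast (mem_Ioc.1 (mem_filter.1 hp).1).1.le
        gcongr
        exact hc.2 n p (a3.trans a5)
      · have a5 := (xL2_sl (j₀ := j₀) (i := J) (j := n) hg (by omega) (by omega)).2
        have a6 := xL2_el4 (j₀ := j₀) (j := n) hg hg' (by omega)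
        rw [nsmul_eq_mul]
        refine (mul_le_mul_of_nonneg_right a4 (by positivity)).trans
          (le_of_eq_of_le (b := (slH j₀ g n + elH j₀ g n / 2 ^ n) * θ ^ (n - J))
            (by field_simp) (by gcongr))
  refine (key (j + 1) (by omega)).trans ?_
  have a1 := (xL2_sl (j₀ := j₀) (j := J) hg (by omega) le_rfl).1
  unfold Atot
  gcongr
  exact xL2_geo t0 t1 J (by omega)

theorem xL2_ext {t : ℕ → ℝ} {a b : ℕ} {B : ℝ} (h0 : ∀ j, a ≤ j → 0 ≤ t j)
    (h : ∀ n, b ≤ n → ∑ j ∈ Ico a n, t j ≤ B) (n : ℕ) : ∑ j ∈ Ico a n, t j ≤ B :=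
  (sum_le_sum_of_subset_of_nonneg (Ico_subset_Ico_right (le_max_left n b))
    fun j hj _ => h0 j (mem_Ico.1 hj).1).trans (h _ (le_max_right n b))

theorem xL2_q (h : LOK jz jl j₀ j₁ J g θ) (n : ℕ) :
    1.011 * log 2 * ∑ j ∈ Ico jz n, (if j < jl then 1 else if j < j₁ then 8 / 35 else slH j₀ g j) *
      θ ^ (j - J) * xL2_A jz j₀ J g θ j ≤ qP jz jl j₀ j₁ J g θ := by
  have hA := xL2_At0 h
  have hB := fun j => xL2_A_nonneg h (j := j)
  obtain ⟨h0, h1, h2, h3, h4, hg, hg', t0, t1, -⟩ := h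
  have l2 := log_pos (x := 2) (by norm_num)
  have z1 : (1 : ℝ) ≤ jz := by exact_mod_cast (by omega : 1 ≤ jz)
  rw [← le_div_iff₀' (by positivity)]
  refine xL2_ext (b := J + 1) (fun j hj => mul_nonneg (mul_nonneg ?_ (by positivity)) (hB j hj))
    (fun n hn => ?_) n
  · split_ifs
    exacts [by norm_num, by norm_num, (xL2_sl hg (by omega) le_rfl).1.le]
  rw [le_div_iff₀' (by positivity), ← sum_Ico_consecutive _ (by omega : jz ≤ J + 1) hn,
    ← sum_Ico_consecutive _ (by omega : jz ≤ j₁) (by omega : j₁ ≤ J + 1),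
    ← sum_Ico_consecutive _ h1 h2, qP, mul_assoc, mul_add (log 2), mul_add (log 2),
    mul_add (log 2)]
  have p1 := xL2_jen h1 (z := jz) (by linarith) (eM jz)
  have p2 := xL2_jen h2 (z := jz) (by linarith) (eM jz)
  have p3 := xL2_high h3 h4 z1 (xL2_eM jz)
  have p4 := xL2_geo t0 t1 J hn
  have s0 := (xL2_sl (j₀ := j₀) (j := J) hg (by omega) le_rfl).1
  refine mul_le_mul_of_nonneg_left (a := (1.011 : ℝ))
    (add_le_add (add_le_add (add_le_add ?_ ?_) ?_) ?_) (by norm_num)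
  · rw [mul_assoc]
    refine mul_le_mul_of_nonneg_left (le_of_eq_of_le (sum_congr rfl fun j hj => ?_) p1) l2.le
    have := (mem_Ico.1 hj).2
    rw [if_pos this, xL2_A, if_pos (by omega), show j - J = 0 by omega]
    ring
  · rw [mul_assoc (8 / 35 * log 2)]
    refine le_of_eq_of_le ?_ (mul_le_mul_of_nonneg_left p2 (by positivity))
    rw [mul_sum, mul_sum]
    refine sum_congr rfl fun j hj => ?_
    have := mem_Ico.1 hj
    rw [if_neg (by omega), if_pos this.2, xL2_A, if_pos (by omega), show j - J = 0 by omega]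
    ring
  · refine le_of_eq_of_le ?_ (mul_le_mul_of_nonneg_left p3 (by positivity))
    rw [mul_sum, mul_sum]
    refine sum_congr rfl fun j hj => ?_
    have := mem_Ico.1 hj
    rw [if_neg (by omega), if_neg (by omega), xL2_A, if_pos (by omega), show j - J = 0 by omega,
      slH]
    field_simp
  · rw [mul_assoc, mul_assoc]
    refine mul_le_mul_of_nonneg_left ((sum_le_sum (g := fun j =>
      slH j₀ g J * (θ ^ (j - J) * Atot jz j₀ J g θ)) fun j hj => ?_).trans ?_) l2.le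
    · have := mem_Ico.1 hj
      rw [if_neg (by omega), if_neg (by omega), xL2_A, if_neg (by omega), mul_assoc]
      gcongr
      exact (xL2_sl hg (by omega) (by omega)).2
    · rw [← mul_sum, ← sum_mul]
      gcongr

theorem xL2_D (h : LOK jz jl j₀ j₁ J g θ) (n : ℕ) :
    S2 jz + 2.025 * ∑ j ∈ Ico jl n, (if j < j₁ then 3.03 else elH j₀ g j) / 2 ^ j *
      xL2_A jz j₀ J g θ j ≤ DP jz jl j₀ j₁ J g θ := by
  have hA := xL2_At0 h
  have hB := fun j => xL2_A_nonneg h (j := j)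
  have hC := xL2_A_le h
  obtain ⟨h0, h1, h2, h3, h4, hg, hg', t0, t1, -⟩ := h
  have z1 : (0 : ℝ) < jz := by exact_mod_cast (by omega : 0 < jz)
  have e0 : ∀ j, 0 ≤ elH j₀ g j := fun j => by unfold elH; positivity
  refine add_le_add le_rfl (mul_le_mul_of_nonneg_left ?_ (by norm_num))
  refine xL2_ext (b := j₁) (fun j hj => mul_nonneg (div_nonneg ?_ (by positivity))
    (hB j (by omega))) (fun n hn => ?_) n
  · split_ifs
    exacts [by norm_num, e0 j]
  rw [← sum_Ico_consecutive _ h2 hn]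
  refine add_le_add ?_ ?_
  · have z2 : (jz : ℝ) ≤ j₁ := by exact_mod_cast h1.trans h2
    refine le_trans ?_ (mul_le_mul_of_nonneg_right (xL2_lo h2)
      (add_nonneg (log_nonneg ((one_le_div z1).2 z2)) (xL2_eM jz)))
    rw [sum_mul]
    refine sum_le_sum fun j hj => ?_
    have h5 := (mem_Ico.1 hj).2
    have h6 : (j : ℝ) + 1 ≤ j₁ := by exact_mod_cast h5
    rw [if_pos h5, xL2_A, if_pos (by omega)]
    gcongr
  · refine le_trans ?_ (mul_le_mul_of_nonneg_right (xL2_hi hg hg' hn) hA)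
    rw [sum_mul]
    refine sum_le_sum fun j hj => ?_
    rw [if_neg (not_lt.2 (mem_Ico.1 hj).1)]
    exact mul_le_mul_of_nonneg_left (hC j) (div_nonneg (e0 j) (by positivity))

theorem stL2 (hL2a : StL2a) (hCount : StCount) (hSel : StSel) (hMert : StMert) : StL2 := by
  intro jz jl j₀ j₁ J g θ c h hc
  obtain ⟨h0, h1, h2, h3, h4, hg, hg', t0, t1, h5⟩ := id h
  refine hL2a jz jl J θ _ _ _ c _ _ (xL2_A jz j₀ J g θ) (by omega) h1 hc t0 t1
    (xL2_cnt hCount hSel (h0.trans h1) h3 hg hg') ?_ (fun j _ => ?_)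
    (fun j hj => xL2_mass hCount hSel hMert h hc hj) (xL2_A_le h) (xL2_q h) (xL2_D h)
  · split_ifs with h6
    · norm_num
    · rw [show jl = j₁ by omega]
      linarith
  · split_ifs with h6 h7 h7
    · exact le_rfl
    · omega
    · rwa [show j + 1 = j₁ by omega]
    · exact (xL2_sl hg (by omega) (by omega)).2

end Pool.Agent.MP_88bd62_nt.U
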