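import Pool.Agent.MP_88bd62_nt.U.Stmts

namespace Pool.Agent.MP_88bd62_nt.U

open Finset Real Filter Topology

noncomputable section

lemma xL2a_two {s : ℝ} (h0 : 0 ≤ s) (h1 : s ≤ 1 / 32) :
    (2 : ℝ) ^ s - 1 ≤ 1.011 * log 2 * s := by
  have a1 := log_two_lt_d9
  have a2 := log_two_gt_d9
  have a3 : 0 ≤ log 2 * s := by positivity
  have a4 : log 2 * s ≤ 0.0217 := by nlinarith
  have a5 := Real.exp_bound' a3 (by linarith) (n := 3) (by norm_num)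
  rw [rpow_def_of_pos two_pos, mul_assoc]
  generalize log 2 * s = y at *
  simp only [sum_range_succ, range_zero, sum_empty, Nat.factorial] at a5
  norm_num at a5
  nlinarith [mul_nonneg a3 a3, mul_nonneg a3 (mul_nonneg a3 (sub_nonneg.2 a4))]

lemma xL2a_mass {Q : Finset ℕ} {c : ℕ → ℝ} {w X K : ℝ} (hX : 0 < X) (hw : 0 ≤ w)
    (h : ∀ n ∈ Q, c n ≤ w ∧ X ≤ n) (hK : (Q.card : ℝ) ≤ K) :
    ∑ n ∈ Q, c n / n ≤ w * (K / X) := by
  have := Q.sum_le_card_nsmul (fun n => c n / n) (w / X) fun n hn =>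
    div_le_div₀ hw (h n hn).1 hX (h n hn).2
  rw [nsmul_eq_mul] at this
  refine this.trans ((mul_le_mul_of_nonneg_right hK (by positivity)).trans_eq (by ring))

lemma xL2a_up {Q : Finset ℕ} {C : ℕ} {h : ℝ} (h0 : 0 ≤ h)
    (hQ : ∀ n ∈ Q, C < n ∧ (n : ℝ) ≤ C + h) : (Q.card : ℝ) ≤ h := by
  have h1 : Q ⊆ Ioc C (C + ⌊h⌋₊) := fun n hn => by
    obtain ⟨a, b⟩ := hQ n hn
    have : n - C ≤ ⌊h⌋₊ := Nat.le_floor (by rw [Nat.cast_sub a.le]; linarith)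
    exact mem_Ioc.2 ⟨a, by omega⟩
  have h2 := card_le_card h1
  rw [Nat.card_Ioc, Nat.add_sub_cancel_left] at h2
  exact (Nat.cast_le.2 h2).trans (Nat.floor_le h0)

lemma xL2a_down {Q : Finset ℕ} {C : ℕ} {h : ℝ} (h0 : 0 ≤ h)
    (hQ : ∀ n ∈ Q, n < C ∧ C - h ≤ (n : ℝ)) : (Q.card : ℝ) ≤ h := by
  have h1 : Q ⊆ Ico (C - ⌊h⌋₊) C := fun n hn => by
    obtain ⟨a, b⟩ := hQ n hn
    have : C - n ≤ ⌊h⌋₊ := Nat.le_floor (by rw [Nat.cast_sub a.le]; linarith)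
    exact mem_Ico.2 ⟨by omega, a⟩
  have h2 := card_le_card h1
  rw [Nat.card_Ico] at h2
  exact (Nat.cast_le.2 (h2.trans (by omega))).trans (Nat.floor_le h0)

def xL2a_d (jl J : ℕ) (θ : ℝ) (sl : ℕ → ℝ) (i : ℕ) : ℝ :=
  1.011 * log 2 * ((if i < jl then 1 else sl i) * θ ^ (i - J))

def xL2a_e (jl : ℕ) (el : ℕ → ℝ) (i : ℕ) : ℝ := if i < jl then 0 else 1.011 * (el i / 2 ^ i)

lemma xL2a_lev {i : ℕ} {x r : ℝ} (hx : 2 ^ i ≤ x) (hr : r ≤ 1 / 64) :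
    (2 : ℝ) ^ ((i : ℝ) - 1 / 64) ≤ x / 2 ^ r := by
  rw [rpow_sub two_pos, rpow_natCast]
  exact div_le_div₀ (le_trans (by positivity) hx) hx (by positivity)
    (rpow_le_rpow_of_exponent_le one_le_two hr)

section
variable {jl J : ℕ} {θ : ℝ} {c sl el : ℕ → ℝ} (hc : Lev c J θ) (h0 : 0 < θ) (h1 : θ < 1)
  (hC : Cnt sl el jl)

include h0 hC in
lemma xL2a_d_nonneg (i : ℕ) : 0 ≤ xL2a_d jl J θ sl i := by
  have := log_two_gt_d9
  refine mul_nonneg (by positivity) (mul_nonneg ?_ (by positivity))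
  split_ifs with h
  · exact zero_le_one
  · exact (hC i (not_lt.1 h)).1

include hC in
lemma xL2a_e_nonneg (i : ℕ) : 0 ≤ xL2a_e jl el i := by
  unfold xL2a_e
  split_ifs with h
  · exact le_rfl
  · have := (hC i (not_lt.1 h)).2.1
    positivity

include h0 h1 hC in
lemma xL2a_d_anti (hs : sl jl ≤ 1) (hm : ∀ j, jl ≤ j → sl (j + 1) ≤ sl j) (i : ℕ) :
    xL2a_d jl J θ sl (i + 1) ≤ xL2a_d jl J θ sl i := by
  have := log_two_gt_d9
  refine mul_le_mul_of_nonneg_left (mul_le_mul ?_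
    (pow_le_pow_of_le_one h0.le h1.le (by omega)) (by positivity) ?_) (by positivity)
  · split_ifs with a b b
    · exact le_rfl
    · omega
    · rwa [show i + 1 = jl by omega]
    · exact hm i (not_lt.1 b)
  · split_ifs with h
    · exact zero_le_one
    · exact (hC i (not_lt.1 h)).1

include hc h0 h1 hC in
lemma xL2a_w0 {i : ℕ} (hi : ¬ i < jl) {X s : ℝ} (hX : (2 : ℝ) ^ ((i : ℝ) - 1 / 64) ≤ X)
    (hs : 0 ≤ s) (hs' : s ≤ 1 / 32) {Q : Finset ℕ}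
    (hQ : ∀ n ∈ Q, n.Prime ∧ X < n ∧ (n : ℝ) ≤ X * 2 ^ s) :
    ∑ n ∈ Q, c n / n ≤ xL2a_d jl J θ sl i * s + xL2a_e jl el i := by
  have hX0 : 0 < X := lt_of_lt_of_le (by positivity) hX
  have a1 : 1 ≤ (2 : ℝ) ^ s := one_le_rpow one_le_two hs
  obtain ⟨a2, a3, a4⟩ := hC i (not_lt.1 hi)
  have a5 : Q ⊆ (Ioc ⌊X⌋₊ ⌊X + X * (2 ^ s - 1)⌋₊).filter Nat.Prime := fun n hn => by
    obtain ⟨b1, b2, b3⟩ := hQ n hn
    exact mem_filter.2 ⟨mem_Ioc.2 ⟨(Nat.floor_lt hX0.le).2 b2, Nat.le_floor (by linarith)⟩, b1⟩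
  have a6 := xL2a_mass (c := c) (w := θ ^ (i - J)) hX0 (by positivity)
    (fun n hn => ⟨hc.2 i n (hX.trans (hQ n hn).2.1.le), (hQ n hn).2.1.le⟩)
    ((Nat.cast_le.2 (card_le_card a5)).trans (a4 X _ hX (by positivity)))
  have a7 : el i / X ≤ 1.011 * (el i / 2 ^ i) := by
    have b1 := xL2a_two (s := 1 / 64) (by norm_num) (by norm_num)
    have b2 := log_two_lt_d9
    rw [rpow_sub two_pos, rpow_natCast, div_le_iff₀ (by positivity)] at hX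
    have b3 : 2 ^ i ≤ X * 1.011 := hX.trans (mul_le_mul_of_nonneg_left (by linarith) hX0.le)
    rw [← mul_div_assoc, div_le_div_iff₀ hX0 (by positivity)]
    nlinarith
  have a8 : θ ^ (i - J) ≤ 1 := pow_le_one₀ h0.le h1.le
  have a9 : 0 ≤ θ ^ (i - J) := by positivity
  have a10 : 0 ≤ el i / X := by positivity
  have a11 := mul_le_mul_of_nonneg_left (xL2a_two hs hs') (mul_nonneg a2 a9)
  rw [add_div, ← mul_assoc, mul_right_comm, mul_div_cancel_right₀ _ hX0.ne'] at a6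
  rw [xL2a_d, xL2a_e, if_neg hi, if_neg hi]
  nlinarith

include hc h0 in
lemma xL2a_triv {i C : ℕ} (hi : 2 ^ i ≤ C) {r : ℝ} (hr : 0 ≤ r) (hr' : r ≤ 1 / 64) {Q : Finset ℕ}
    (hQ : (∀ n ∈ Q, C < n ∧ (n : ℝ) ≤ C * 2 ^ r) ∨ ∀ n ∈ Q, n < C ∧ C / 2 ^ r ≤ (n : ℝ)) :
    ∑ n ∈ Q, c n / n ≤ 1.011 * log 2 * θ ^ (i - J) * r := by
  have a0 : (2 : ℝ) ^ i ≤ C := by exact_mod_cast hi
  have a1 : 1 ≤ (2 : ℝ) ^ r := one_le_rpow one_le_two hr
  have a2 : (0 : ℝ) < C := lt_of_lt_of_le (by positivity) a0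
  have a3 := xL2a_lev a0 hr'
  have a4 : C / (2 : ℝ) ^ r ≤ C := div_le_self a2.le a1
  have a5 : 0 ≤ θ ^ (i - J) := by positivity
  have a6 := mul_le_mul_of_nonneg_left (xL2a_two hr (by linarith)) a5
  rcases hQ with hQ | hQ
  · have b1 : ∀ n ∈ Q, (C : ℝ) ≤ n := fun n hn => Nat.cast_le.2 (hQ n hn).1.le
    have b2 := xL2a_mass (c := c) a2 a5
      (fun n hn => ⟨hc.2 i n (a3.trans (a4.trans (b1 n hn))), b1 n hn⟩)
      (xL2a_up (h := C * (2 ^ r - 1)) (by positivity) fun n hn =>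
        ⟨(hQ n hn).1, by linarith [(hQ n hn).2]⟩)
    rw [mul_div_cancel_left₀ _ a2.ne'] at b2
    linarith
  · have b2 := xL2a_mass (c := c) (X := C / 2 ^ r) (by positivity) a5
      (fun n hn => ⟨hc.2 i n (a3.trans (hQ n hn).2), (hQ n hn).2⟩)
      (xL2a_down (h := C - C / 2 ^ r) (by linarith) fun n hn =>
        ⟨(hQ n hn).1, by linarith [(hQ n hn).2]⟩)
    rw [show (C - C / (2 : ℝ) ^ r) / (C / 2 ^ r) = 2 ^ r - 1 by field_simp] at b2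
    linarith

include hc h0 h1 hC in
lemma xL2a_w1 {i C : ℕ} (hi : 2 ^ i ≤ C) {r : ℝ} (hr : 0 ≤ r) (hr' : r ≤ 1 / 64) {Q : Finset ℕ}
    (hQ : ∀ n ∈ Q, n.Prime ∧ C < n ∧ (n : ℝ) ≤ C * 2 ^ r) :
    ∑ n ∈ Q, c n / n ≤ xL2a_d jl J θ sl i * r + xL2a_e jl el i := by
  by_cases h : i < jl
  · rw [xL2a_d, xL2a_e, if_pos h, if_pos h, one_mul, add_zero]
    exact xL2a_triv hc h0 hi hr hr' (Or.inl fun n hn => (hQ n hn).2)
  · have a0 : (2 : ℝ) ^ i ≤ C := by exact_mod_cast hi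
    refine xL2a_w0 hc h0 h1 hC h (X := C) ?_ hr (by linarith) fun n hn =>
      ⟨(hQ n hn).1, Nat.cast_lt.2 (hQ n hn).2.1, (hQ n hn).2.2⟩
    simpa using xL2a_lev a0 (r := 0) (by norm_num)

include hc h0 h1 hC in
lemma xL2a_w2 {i C : ℕ} (hi : 2 ^ i ≤ C) {r : ℝ} (hr : 0 ≤ r) (hr' : r ≤ 1 / 64) {Q : Finset ℕ}
    (hQ : ∀ n ∈ Q, n.Prime ∧ n ≠ C ∧ C / 2 ^ r < (n : ℝ) ∧ (n : ℝ) ≤ C * 2 ^ r) :
    ∑ n ∈ Q, c n / n ≤ xL2a_d jl J θ sl i * (2 * r) + xL2a_e jl el i := by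
  by_cases h : i < jl
  · rw [xL2a_d, xL2a_e, if_pos h, if_pos h, one_mul, add_zero,
      ← sum_filter_add_sum_filter_not Q (C < ·)]
    have b1 := xL2a_triv hc h0 hi hr hr' (Q := Q.filter (C < ·)) (Or.inl fun n hn =>
      ⟨(mem_filter.1 hn).2, (hQ n (mem_filter.1 hn).1).2.2.2⟩)
    have b2 := xL2a_triv hc h0 hi hr hr' (Q := Q.filter (¬ C < ·)) (Or.inr fun n hn =>
      ⟨lt_of_le_of_ne (not_lt.1 (mem_filter.1 hn).2) (hQ n (mem_filter.1 hn).1).2.1,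
        (hQ n (mem_filter.1 hn).1).2.2.1.le⟩)
    linarith
  · have a0 : (2 : ℝ) ^ i ≤ C := by exact_mod_cast hi
    refine xL2a_w0 hc h0 h1 hC h (xL2a_lev a0 hr') (by linarith) (by linarith) fun n hn =>
      ⟨(hQ n hn).1, (hQ n hn).2.2.1, (hQ n hn).2.2.2.trans_eq ?_⟩
    rw [two_mul, rpow_add two_pos]
    field_simp

lemma xL2a_win {p n m : ℕ} (hp : 0 < p) (hn : 0 < n) {r : ℝ} (h : |th n - th p - 2 * m| < r) :
    ((2 ^ (2 * m) * p : ℕ) : ℝ) / 2 ^ r < n ∧ (n : ℝ) ≤ (2 ^ (2 * m) * p : ℕ) * 2 ^ r := by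
  have e : ∀ k : ℕ, 0 < k → (k : ℝ) = 2 ^ th k := fun k hk =>
    (rpow_logb two_pos (by norm_num) (Nat.cast_pos.2 hk)).symm
  have e1 : ((2 ^ (2 * m) * p : ℕ) : ℝ) = 2 ^ (2 * (m : ℝ) + th p) := by
    rw [rpow_add two_pos, ← e p hp, show 2 * (m : ℝ) = (2 * m : ℕ) by push_cast; rfl,
      rpow_natCast]
    push_cast
    rfl
  obtain ⟨h1, h2⟩ := abs_lt.1 h
  rw [e1, e n hn, ← rpow_sub two_pos, ← rpow_add two_pos]
  exact ⟨rpow_lt_rpow_of_exponent_lt one_lt_two (by linarith),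
    rpow_le_rpow_of_exponent_le one_le_two (by linarith)⟩

include hc h0 h1 hC in
lemma xL2a_loc (hs : sl jl ≤ 1) (hm : ∀ j, jl ≤ j → sl (j + 1) ≤ sl j) {p j : ℕ} (hp : p.Prime)
    (hj : 2 ^ j ≤ p) {I : Finset ℕ} (hI : ∀ n ∈ I, n.Prime ∧ p < n) :
    ∃ N, ∀ r : ℝ, 0 < r → r ≤ 1 / 64 →
      ∑ n ∈ I.filter (fun n => dZ ((th n - th p) / 2) < r / 2), c n / n ≤
        ∑ i ∈ Ico j N, (xL2a_d jl J θ sl i * r + xL2a_e jl el i) := by
  let f : ℕ → ℕ := fun n => (round ((th n - th p) / 2)).toNat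
  refine ⟨j + (2 * I.sup f + 1), fun r hr hr' => ?_⟩
  set Q := I.filter (fun n => dZ ((th n - th p) / 2) < r / 2)
  have a1 : ∀ n ∈ Q, |th n - th p - 2 * f n| < r := fun n hn => by
    obtain ⟨b1, b2⟩ := mem_filter.1 hn
    have b3 : th p ≤ th n := logb_le_logb_of_le one_lt_two (Nat.cast_pos.2 hp.pos)
      (Nat.cast_le.2 (hI n b1).2.le)
    have b4 : 0 ≤ round ((th n - th p) / 2) := by
      rw [round_eq]
      exact Int.floor_nonneg.2 (by linarith)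
    have b5 : (f n : ℝ) = round ((th n - th p) / 2) := by
      exact_mod_cast congrArg (Int.cast : ℤ → ℝ) (Int.toNat_of_nonneg b4)
    rw [dZ, ← b5, abs_lt] at b2
    rw [abs_lt]
    constructor <;> linarith [b2.1, b2.2]
  have a2 : ∀ m, ∀ n ∈ Q.filter (f · = m), n.Prime ∧ p < n ∧
      ((2 ^ (2 * m) * p : ℕ) : ℝ) / 2 ^ r < n ∧ (n : ℝ) ≤ (2 ^ (2 * m) * p : ℕ) * 2 ^ r := by
    intro m n hn
    obtain ⟨b1, rfl⟩ := mem_filter.1 hn
    obtain ⟨b2, b3⟩ := hI n (mem_filter.1 b1).1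
    exact ⟨b2, b3, xL2a_win hp.pos b2.pos (a1 n b1)⟩
  rw [← sum_fiberwise_of_maps_to (t := range (I.sup f + 1)) (g := f)
    (fun n hn => mem_range.2 (Nat.lt_succ_of_le (le_sup (mem_filter.1 hn).1))),
    sum_Ico_eq_sum_range, Nat.add_sub_cancel_left]
  induction I.sup f with
  | zero =>
    rw [mul_zero, zero_add, sum_range_one, sum_range_one]
    refine xL2a_w1 hc h0 h1 hC hj hr.le hr' fun n hn => ?_
    obtain ⟨b1, b2, -, b3⟩ := a2 0 n hn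
    exact ⟨b1, b2, by simpa using b3⟩
  | succ M ih =>
    rw [sum_range_succ, show 2 * (M + 1) + 1 = 2 * M + 1 + 1 + 1 by ring,
      sum_range_succ _ (2 * M + 1 + 1), sum_range_succ _ (2 * M + 1)]
    have b1 := xL2a_w2 hc h0 h1 hC (i := j + (2 * M + 1 + 1)) (C := 2 ^ (2 * (M + 1)) * p)
      (by rw [pow_add, mul_comm]; exact Nat.mul_le_mul le_rfl hj) hr.le hr'
      (Q := Q.filter (f · = M + 1)) fun n hn => by
        obtain ⟨b1, -, b3⟩ := a2 _ n hn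
        refine ⟨b1, ?_, b3⟩
        rintro rfl
        exact Nat.not_prime_mul (Nat.one_lt_two_pow (by omega)).ne' hp.one_lt.ne' b1
    have b2 := mul_le_mul_of_nonneg_right
      (xL2a_d_anti (J := J) h0 h1 hC hs hm (j + (2 * M + 1))) hr.le
    have b3 := xL2a_e_nonneg hC (j + (2 * M + 1))
    rw [add_assoc] at b2
    linarith

end

lemma xL2a_far (P : Finset ℕ) {μ : ℕ → ℝ} (h : ∀ p, 0 ≤ μ p) :
    2 * ∑ p ∈ P, μ p * ∑ n ∈ P.filter (p < ·), μ n ≤ (∑ p ∈ P, μ p) ^ 2 := by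
  have e : ∑ p ∈ P, μ p * ∑ n ∈ P.filter (p < ·), μ n =
      ∑ p ∈ P, ∑ n ∈ P, if p < n then μ p * μ n else 0 := by
    simp only [mul_sum, sum_filter, mul_ite, mul_zero]
  rw [two_mul, e, sq, sum_mul_sum]
  nth_rewrite 1 [sum_comm]
  rw [← sum_add_distrib]
  refine sum_le_sum fun p _ => ?_
  rw [← sum_add_distrib]
  refine sum_le_sum fun n _ => ?_
  have := mul_nonneg (h p) (h n)
  split_ifs <;> first | omega | linarith

lemma xL2a_swap {jz : ℕ} {μ Ab f : ℕ → ℝ} (h : ∀ p, 0 ≤ μ p) (hf : ∀ i, 0 ≤ f i)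
    (hA : ∀ j, jz ≤ j → ∑ p ∈ (Ioo (2 ^ jz) (2 ^ (j + 1))).filter Nat.Prime, μ p ≤ Ab j)
    {P : Finset ℕ} (hP : ∀ p ∈ P, p.Prime ∧ 2 ^ jz < p) (N : ℕ) :
    ∑ p ∈ P, μ p * ∑ i ∈ Ico (Nat.log 2 p) N, f i ≤ ∑ i ∈ Ico jz N, f i * Ab i := by
  simp only [mul_sum]
  rw [sum_comm' (t' := Ico jz N) (s' := fun i => P.filter (Nat.log 2 · ≤ i))]
  · refine sum_le_sum fun i hi => ?_
    rw [← sum_mul, mul_comm]
    refine mul_le_mul_of_nonneg_left (le_trans (sum_le_sum_of_subset_of_nonneg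
      (fun p hp => ?_) fun p _ _ => h p) (hA i (mem_Ico.1 hi).1)) (hf i)
    obtain ⟨a1, a2⟩ := mem_filter.1 hp
    exact mem_filter.2 ⟨mem_Ioo.2 ⟨(hP p a1).2,
      Nat.lt_pow_of_log_lt one_lt_two (Nat.lt_succ_of_le a2)⟩, (hP p a1).1⟩
  · intro p i
    simp only [mem_Ico, mem_filter]
    refine ⟨fun ⟨a, b, d⟩ => ⟨⟨a, b⟩, le_trans ?_ b, d⟩, fun ⟨⟨a, b⟩, _, d⟩ => ⟨a, b, d⟩⟩
    exact Nat.le_log_of_pow_le one_lt_two (hP p a).2.le

lemma xL2a_diag (hS2 : StS2) {jz : ℕ} (hz : 3 ≤ jz) {c : ℕ → ℝ} (hc : ∀ p, 0 ≤ c p ∧ c p ≤ 1)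
    {P : Finset ℕ} (hP : ∀ p ∈ P, p.Prime ∧ 2 ^ jz < p) : ∑ p ∈ P, (c p / p) ^ 2 ≤ S2 jz := by
  obtain ⟨h1, h2⟩ := hS2 jz hz
  refine le_trans (sum_le_sum fun p hp => ?_)
    ((h1.sum_le_tsum P fun n _ => by positivity).trans h2)
  obtain ⟨a1, a2⟩ := hP p hp
  have a3 : 8 < p := lt_of_le_of_lt (Nat.pow_le_pow_right two_pos hz) a2
  have a4 : p.Coprime 210 := by
    rw [show 210 = 2 * 3 * 5 * 7 from rfl]
    simp only [Nat.coprime_mul_iff_right]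
    refine ⟨⟨⟨?_, ?_⟩, ?_⟩, ?_⟩ <;>
      exact (Nat.coprime_primes a1 (by norm_num)).2 (by omega)
  rw [if_pos ⟨a4, a2⟩, div_pow]
  exact div_le_div_of_nonneg_right (pow_le_one₀ (hc p).1 (hc p).2) (by positivity)

theorem stL2a (hPois : StPois) (hS2 : StS2) : StL2a := by
  intro jz jl J θ q D At c sl el Ab hz hl hc h0 h1 hC hs hm hA hAt hq hD l hl0 hl1 S hS
  have hμ : ∀ p : ℕ, 0 ≤ c p / p := fun p => div_nonneg (hc.1 p).1 (Nat.cast_nonneg p)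
  have hA0 : ∀ j, jz ≤ j → 0 ≤ Ab j := fun j hj => (sum_nonneg fun p _ => hμ p).trans (hA j hj)
  have tot : ∀ P : Finset ℕ, (∀ p ∈ P, p.Prime ∧ 2 ^ jz < p) → ∑ p ∈ P, c p / p ≤ At := by
    intro P hP
    refine le_trans (sum_le_sum_of_subset_of_nonneg (fun p hp => ?_) fun p _ _ => hμ p)
      ((hA (jz + P.sup id) (by omega)).trans (hAt _))
    have a1 : p ≤ P.sup id := le_sup (f := id) hp
    have a2 := Nat.lt_two_pow_self (n := jz + P.sup id + 1)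
    exact mem_filter.2 ⟨mem_Ioo.2 ⟨(hP p hp).2, by omega⟩, (hP p hp).1⟩
  have key : ∀ P : Finset ℕ, (∀ p ∈ P, p.Prime ∧ 2 ^ jz < p) → ∑ k ∈ S, exp (-(l * |(k : ℝ)|)) *
      ‖∑ p ∈ P, ((c p / p : ℝ) : ℂ) * ee k (-th p)‖ ^ 2 ≤ q + D / l + 420 * At ^ 2 * l := by
    intro P hP
    obtain ⟨p1, p2⟩ := hPois l hl0 hl1
    have d0 := xL2a_d_nonneg (J := J) h0 hC
    have e0 := xL2a_e_nonneg hC
    choose! N hN using fun p (hp : p ∈ P) => xL2a_loc hc h0 h1 hC hs hm (hP p hp).1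
      (Nat.pow_log_le_self 2 (hP p hp).1.ne_zero) (I := P.filter (p < ·))
      fun n hn => ⟨(hP n (mem_filter.1 hn).1).1, (mem_filter.1 hn).2⟩
    have a1 : ∑ p ∈ P, c p / p * ∑ n ∈ P.filter (p < ·), c n / n * pk l (th n - th p) ≤
        ∑ p ∈ P, c p / p * ((∑ i ∈ Ico (Nat.log 2 p) (P.sup N), xL2a_d jl J θ sl i) / 2 +
          1.001 * (∑ i ∈ Ico (Nat.log 2 p) (P.sup N), xL2a_e jl el i) / l +
          420 * l * ∑ n ∈ P.filter (p < ·), c n / n) := by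
      refine sum_le_sum fun p hp => mul_le_mul_of_nonneg_left (p2 _ (fun n : ℕ => c n / n)
        (fun n => th n - th p) _ _ hμ (div_nonneg (sum_nonneg fun i _ => d0 i) zero_le_two)
        (sum_nonneg fun i _ => e0 i) fun r hr hr' => (hN p hp r hr hr').trans ?_) (hμ p)
      refine (sum_le_sum_of_subset_of_nonneg (Ico_subset_Ico_right (le_sup hp)) fun i _ _ =>
        add_nonneg (mul_nonneg (d0 i) hr.le) (e0 i)).trans_eq ?_
      rw [sum_add_distrib, ← sum_mul]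
      ring
    have a2 := xL2a_swap hμ d0 hA hP (P.sup N)
    have a3 := xL2a_swap hμ e0 hA hP (P.sup N)
    have a4 : ∑ i ∈ Ico jz (P.sup N), xL2a_d jl J θ sl i * Ab i ≤ q := by
      refine le_of_eq_of_le ?_ (hq (P.sup N))
      rw [mul_sum]
      exact sum_congr rfl fun i _ => mul_assoc _ _ _
    have a5 : ∑ i ∈ Ico jz (P.sup N), xL2a_e jl el i * Ab i =
        1.011 * ∑ i ∈ Ico jl (P.sup N), el i / 2 ^ i * Ab i := by
      rw [mul_sum, ← sum_subset (Ico_subset_Ico_left hl)]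
      · refine sum_congr rfl fun i hi => ?_
        rw [xL2a_e, if_neg (not_lt.2 (mem_Ico.1 hi).1), mul_assoc]
      · intro i hi hi'
        rw [mem_Ico] at hi hi'
        rw [xL2a_e, if_pos (by omega), zero_mul]
    have a6 : 0 ≤ ∑ i ∈ Ico jl (P.sup N), el i / 2 ^ i * Ab i := sum_nonneg fun i hi =>
      mul_nonneg (div_nonneg (hC i (mem_Ico.1 hi).1).2.1 (by positivity))
        (hA0 i (hl.trans (mem_Ico.1 hi).1))
    have a7 := hD (P.sup N)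
    have a8 := xL2a_diag hS2 hz hc.1 hP
    have a9 := (xL2a_far P hμ).trans
      (pow_le_pow_left₀ (sum_nonneg fun p _ => hμ p) (tot P hP) 2)
    have a10 := mul_le_mul_of_nonneg_left a9 hl0.le
    refine (p1 S P _ hS hμ).trans ?_
    have a11 : ∀ x y z w : ℝ, x * (y / 2 + 1.001 * z / l + 420 * l * w) =
        x * y / 2 + 1.001 * (x * z) / l + 420 * l * (x * w) := fun _ _ _ _ => by ring
    simp only [a11, sum_add_distrib, ← sum_div, ← mul_sum] at a1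
    have a12 : (∑ p ∈ P, (c p / p) ^ 2 + 2 * (1.001 * ∑ p ∈ P, c p / p *
        ∑ i ∈ Ico (Nat.log 2 p) (P.sup N), xL2a_e jl el i)) / l ≤ D / l :=
      div_le_div_of_nonneg_right (by linarith) hl0.le
    rw [add_div, mul_div_assoc] at a12
    linarith
  have sm : ∀ k : ℤ, Summable fun p : ℕ =>
      if p.Prime ∧ 2 ^ jz < p then ((c p / p : ℝ) : ℂ) * ee k (-th p) else 0 := by
    intro k
    refine Summable.of_norm (summable_of_sum_range_le (c := At) (fun _ => norm_nonneg _)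
      fun n => le_of_eq_of_le ?_ (tot ((range n).filter fun p => p.Prime ∧ 2 ^ jz < p)
        fun p hp => (mem_filter.1 hp).2))
    rw [sum_filter]
    refine sum_congr rfl fun p _ => ?_
    split_ifs
    · rw [norm_mul, ee, Complex.norm_exp_ofReal_mul_I, mul_one, Complex.norm_real,
        Real.norm_of_nonneg (hμ p)]
    · exact norm_zero
  refine le_of_tendsto' (tendsto_finsetSum S fun k _ =>
    (((sm k).hasSum.tendsto_sum_nat.norm.pow 2).const_mul (exp (-(l * |(k : ℝ)|))))) fun n => ?_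
  simp only [← sum_filter]
  exact key _ fun p hp => (mem_filter.1 hp).2

end

end Pool.Agent.MP_88bd62_nt.U
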