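import Pool.Agent.MP_88bd62_nt.U.Stmts

/-! Elementary sums over levels. -/

namespace Pool.Agent.MP_88bd62_nt.U

open Finset Real

theorem xL2_tel (a : ℕ) (t G : ℕ → ℝ) (h : ∀ j, a ≤ j → t j ≤ G (j + 1) - G j) {n : ℕ}
    (hn : a ≤ n) : ∑ j ∈ Ico a n, t j ≤ G n - G a := by
  induction n, hn using Nat.le_induction with
  | base => simp
  | succ n hn ih =>
    rw [sum_Ico_succ_top hn]
    linarith [h n hn]

theorem xL2_geo {θ : ℝ} (h0 : 0 < θ) (h1 : θ < 1) (J : ℕ) {n : ℕ} (hn : J + 1 ≤ n) :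
    ∑ j ∈ Ico (J + 1) n, θ ^ (j - J) ≤ θ / (1 - θ) := by
  have h2 : 0 < 1 - θ := by linarith
  refine (xL2_tel (J + 1) _ (fun j => -(θ ^ (j - J) / (1 - θ))) (fun j hj => ?_) hn).trans ?_
  · rw [show j + 1 - J = j - J + 1 by omega, pow_succ]
    apply le_of_eq
    field_simp
    ring
  · have : 0 ≤ θ ^ (n - J) / (1 - θ) := by positivity
    simp only [Nat.add_sub_cancel_left, pow_one]
    linarith

theorem xL2_jen {a b : ℕ} (hab : a ≤ b) {z : ℝ} (hz : 0 < z) (e : ℝ) :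
    ∑ j ∈ Ico a b, (log ((j + 1) / z) + e) ≤
      ((b : ℝ) - a) * (log ((a + b + 1) / (2 * z)) + e) := by
  have hμ : (0 : ℝ) < a + b + 1 := by positivity
  refine (xL2_tel a _ (fun n => n * (log ((a + b + 1) / (2 * z)) + e - 1) +
    n * (n + 1) / (a + b + 1)) (fun j _ => ?_) hab).trans (le_of_eq ?_)
  · have h1 := log_le_sub_one_of_pos (x := 2 * (j + 1) / (a + b + 1)) (by positivity)
    have h2 : log ((j + 1) / z) = log ((a + b + 1) / (2 * z)) + log (2 * (j + 1) / (a + b + 1)) := by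
      rw [← log_mul (by positivity) (by positivity)]
      congr 1
      field_simp
    have h3 : ((j : ℝ) + 1) * (j + 1 + 1) / (a + b + 1) - j * (j + 1) / (a + b + 1) =
        2 * (j + 1) / (a + b + 1) := by ring
    push_cast
    linarith
  · field_simp
    ring

/-- The primitive used on the high levels. -/
noncomputable def xL2_F (c Z e m : ℝ) : ℝ :=
  log m ^ 2 / 2 - Z * log (m + 1) - 2 * √(1 + c / m) + e * log m

theorem xL2_log (v : ℝ) (hv : 1 ≤ v) : 2 * log v ≤ v - v⁻¹ := by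
  have h := self_le_sinh_iff.2 (log_nonneg hv)
  rw [sinh_log (by linarith)] at h
  linarith

theorem xL2_step {c Z e m : ℝ} (hm : 4 ≤ m) (hc : 0 ≤ c) (hZ : 0 ≤ Z) (he : 0 ≤ e) :
    (log (m + c) - Z + e) / m ≤ xL2_F c Z e m - xL2_F c Z e (m - 1) := by
  have m0 : 0 < m := by linarith
  have m1 : 0 < m - 1 := by linarith
  have m2 : 0 < 2 * m - 1 := by linarith
  have a1 : 2 / (2 * m - 1) ≤ log m - log (m - 1) := by
    have h := le_log_one_add_of_nonneg (x := 1 / (m - 1)) (by positivity)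
    rw [← log_div m0.ne' m1.ne']
    convert h using 1
    · field_simp
      ring
    · congr 1
      field_simp
      ring
  have a2 : 1 / m ≤ 2 / (2 * m - 1) := by
    rw [div_le_div_iff₀ m0 m2]
    linarith
  have a3 : 8 / 7 ≤ log m := by
    have h := log_le_log (by norm_num) hm
    rw [show (4 : ℝ) = 2 ^ 2 by norm_num, log_pow] at h
    have := log_two_gt_d9
    push_cast at h
    linarith
  have a4 : 0 ≤ log (m - 1) := log_nonneg (by linarith)
  have a5 : log m / m ≤ log m ^ 2 / 2 - log (m - 1) ^ 2 / 2 := by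
    have h1 : 2 / (2 * m - 1) ≤ 1 := by
      rw [div_le_one m2]
      linarith
    have h2 : (2 / (2 * m - 1)) ^ 2 / 2 ≤ 8 / 7 * (2 / (2 * m - 1) - 1 / m) := by
      rw [← sub_nonneg]
      have : 8 / 7 * (2 / (2 * m - 1) - 1 / m) - (2 / (2 * m - 1)) ^ 2 / 2 =
          2 * (m - 4) / (7 * m * (2 * m - 1) ^ 2) := by
        field_simp
        ring
      rw [this]
      have : 0 ≤ m - 4 := by linarith
      positivity
    rw [div_eq_mul_one_div]
    generalize 2 / (2 * m - 1) = d at *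
    generalize 1 / m = w at *
    nlinarith [mul_nonneg (sub_nonneg.2 a1) (show 0 ≤ log m + log (m - 1) - d by linarith),
      mul_nonneg (sub_nonneg.2 a3) (sub_nonneg.2 a2)]
  have a6 : log (m + 1) - log m ≤ 1 / m := by
    have h := log_le_sub_one_of_pos (x := (m + 1) / m) (by positivity)
    rw [log_div (by positivity) m0.ne'] at h
    refine h.trans (le_of_eq ?_)
    field_simp
    ring
  have a7 : (log (m + c) - log m) / m ≤ 2 * √(1 + c / (m - 1)) - 2 * √(1 + c / m) := by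
    have c1 : 0 ≤ c / m := by positivity
    have c2 : 0 ≤ c / (m - 1) := by positivity
    obtain ⟨v, hv⟩ : ∃ v, v = √(1 + c / m) := ⟨_, rfl⟩
    obtain ⟨u, hu⟩ : ∃ u, u = √(1 + c / (m - 1)) := ⟨_, rfl⟩
    have v1 : 1 ≤ v := hv ▸ one_le_sqrt.2 (by linarith)
    have u1 : 1 ≤ u := hu ▸ one_le_sqrt.2 (by linarith)
    have v2 : m * v ^ 2 = m + c := by
      rw [hv, sq_sqrt (by linarith)]
      field_simp
    have u2 : (m - 1) * u ^ 2 = m - 1 + c := by
      rw [hu, sq_sqrt (by linarith)]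
      field_simp
    have b1 : log (m + c) - log m = 2 * log v := by
      rw [← v2, log_mul m0.ne' (by positivity), log_pow]
      push_cast
      ring
    have b2 : (m - 1) * u ≤ m * v := by
      refine le_of_sq_le_sq ?_ (by positivity)
      nlinarith
    have b3 : v ≤ u := by
      rw [hu, hv]
      exact sqrt_le_sqrt (by gcongr; linarith)
    rw [← hu, ← hv, b1, div_le_iff₀ m0]
    refine (xL2_log v v1).trans ?_
    have v0 : 0 < v := by linarith
    rw [← sub_nonneg]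
    have b4 : (2 * u - 2 * v) * m - (v - v⁻¹) =
        (u - v) * (2 * m * v - (m - 1) * (u + v)) / v := by
      field_simp
      linear_combination u2 - v2
    rw [b4]
    have : 0 ≤ 2 * m * v - (m - 1) * (u + v) := by nlinarith
    have : 0 ≤ u - v := by linarith
    positivity
  have a8 : (log (m + c) - Z + e) / m =
      log m / m + (log (m + c) - log m) / m - Z * (1 / m) + e * (1 / m) := by ring
  rw [a8, xL2_F, xL2_F, sub_add_cancel]
  nlinarith [mul_le_mul_of_nonneg_left a6 hZ, mul_le_mul_of_nonneg_left (a2.trans a1) he]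

theorem xL2_high {j₀ j₁ J : ℕ} (h1 : j₀ + 4 ≤ j₁) (h2 : j₁ ≤ J) {z e : ℝ} (hz : 1 ≤ z)
    (he : 0 ≤ e) : ∑ j ∈ Ico j₁ (J + 1), (log ((j + 1) / z) + e) / ((j : ℝ) - j₀) ≤
      (log ((J : ℝ) - j₀) ^ 2 - log ((j₁ : ℝ) - j₀ - 1) ^ 2) / 2
      - log z * log (((J : ℝ) - j₀ + 1) / ((j₁ : ℝ) - j₀))
      + 2 * (√(1 + (j₀ + 1) / ((j₁ : ℝ) - j₀ - 1)) - 1)
      + e * log (((J : ℝ) - j₀) / ((j₁ : ℝ) - j₀ - 1)) := by
  have c1 : (j₀ : ℝ) + 4 ≤ j₁ := by exact_mod_cast h1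
  have c2 : (j₁ : ℝ) ≤ J := by exact_mod_cast h2
  refine (xL2_tel j₁ _ (fun n => xL2_F (j₀ + 1) (log z) e ((n : ℝ) - j₀ - 1)) (fun j hj => ?_)
    (by omega)).trans ?_
  · have c3 : (j₁ : ℝ) ≤ j := by exact_mod_cast hj
    have h := xL2_step (c := j₀ + 1) (m := (j : ℝ) - j₀) (by linarith) (by positivity)
      (log_nonneg hz) he
    rw [log_div (by positivity) (by positivity)]
    push_cast
    convert h using 3 <;> ring_nf
  · have c4 : 1 ≤ √(1 + (j₀ + 1) / ((J : ℝ) - j₀)) :=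
      one_le_sqrt.2 (le_add_of_nonneg_right (div_nonneg (by positivity) (by linarith)))
    rw [log_div (by linarith) (by linarith), log_div (by linarith) (by linarith)]
    simp only [xL2_F]
    push_cast
    rw [show (J : ℝ) + 1 - j₀ - 1 = J - j₀ by ring, sub_add_cancel]
    linarith

theorem xL2_sl {j₀ i j : ℕ} {g : ℝ} (hg : 0 < g) (h1 : j₀ < i) (h2 : i ≤ j) :
    0 < slH j₀ g j ∧ slH j₀ g j ≤ slH j₀ g i := by
  have c1 : (0 : ℝ) < (i : ℝ) - j₀ := sub_pos.2 (by exact_mod_cast h1)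
  have c2 : (i : ℝ) ≤ j := by exact_mod_cast h2
  have c3 : (0 : ℝ) < (j : ℝ) - j₀ := by linarith
  have := log_pos (x := 2) (by norm_num)
  unfold slH
  exact ⟨by positivity, by gcongr⟩

theorem xL2_el {j₀ j₁ j : ℕ} {g : ℝ} (hg : 0 < g) (h2 : j₁ ≤ j) :
    elH j₀ g j / 2 ^ j ≤ (1 + 2 ^ (-(g * ((j₁ : ℝ) - j₀)))) ^ 2 / 2 ^ j₀ *
      2 ^ (-((1 - 2 * g) * ((j : ℝ) - j₀))) := by
  have c2 : (j₁ : ℝ) ≤ j := by exact_mod_cast h2
  have e1 : (2 : ℝ) ^ (-((1 - 2 * g) * ((j : ℝ) - j₀))) =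
      (2 ^ (g * ((j : ℝ) - j₀))) ^ 2 * 2 ^ j₀ / 2 ^ j := by
    rw [← rpow_natCast, ← rpow_natCast, ← rpow_natCast, ← rpow_mul (by norm_num),
      ← rpow_add (by norm_num), ← rpow_sub (by norm_num)]
    congr 1
    push_cast
    ring
  have e2 : (1 : ℝ) ≤ 2 ^ (-(g * ((j₁ : ℝ) - j₀))) * 2 ^ (g * ((j : ℝ) - j₀)) := by
    rw [← rpow_add (by norm_num)]
    exact one_le_rpow (by norm_num) (by nlinarith)
  rw [e1, elH]
  refine le_of_le_of_eq (b := ((1 + 2 ^ (-(g * ((j₁ : ℝ) - j₀)))) * 2 ^ (g * ((j : ℝ) - j₀))) ^ 2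
    / 2 ^ j) ?_ (by field_simp)
  gcongr
  linarith

theorem xL2_el4 {j₀ j : ℕ} {g : ℝ} (hg : 0 < g) (hg' : g < 1 / 2) (h2 : j₀ ≤ j) :
    elH j₀ g j / 2 ^ j ≤ 4 / 2 ^ j₀ := by
  have c2 : (j₀ : ℝ) ≤ j := by exact_mod_cast h2
  refine (xL2_el hg h2).trans ?_
  rw [sub_self, mul_zero, neg_zero, rpow_zero]
  refine (mul_le_of_le_one_right (by positivity)
    (rpow_le_one_of_one_le_of_nonpos (by norm_num) (by nlinarith))).trans (le_of_eq (by norm_num))

theorem xL2_hi {j₀ j₁ n : ℕ} {g : ℝ} (hg : 0 < g) (hg' : g < 1 / 2) (hn : j₁ ≤ n) :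
    ∑ j ∈ Ico j₁ n, elH j₀ g j / 2 ^ j ≤ hiB j₀ j₁ g := by
  have r1 : (0 : ℝ) < 1 - 2 ^ (-(1 - 2 * g)) :=
    sub_pos.2 (rpow_lt_one_of_one_lt_of_neg (by norm_num) (by linarith))
  refine (xL2_tel j₁ _ (fun j => -hiB j₀ j₁ g * 2 ^ (-((1 - 2 * g) * ((j : ℝ) - j₁))))
    (fun j hj => (xL2_el hg hj).trans (le_of_eq ?_)) hn).trans ?_
  · have e1 : (2 : ℝ) ^ (-((1 - 2 * g) * (((j + 1 : ℕ) : ℝ) - j₁))) =
        2 ^ (-((1 - 2 * g) * ((j : ℝ) - j₁))) * 2 ^ (-(1 - 2 * g)) := by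
      rw [← rpow_add (by norm_num)]
      congr 1
      push_cast
      ring
    have e2 : (2 : ℝ) ^ (-((1 - 2 * g) * ((j : ℝ) - j₀))) =
        2 ^ (-((1 - 2 * g) * ((j : ℝ) - j₁))) * 2 ^ (-((1 - 2 * g) * ((j₁ : ℝ) - j₀))) := by
      rw [← rpow_add (by norm_num)]
      congr 1
      ring
    rw [e1, e2, hiB]
    generalize (2 : ℝ) ^ (-(1 - 2 * g)) = r at r1 ⊢
    field_simp
    ring
  · have : 0 ≤ hiB j₀ j₁ g * 2 ^ (-((1 - 2 * g) * ((n : ℝ) - j₁))) := by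
      unfold hiB
      positivity
    rw [sub_self, mul_zero, neg_zero, rpow_zero]
    linarith

theorem xL2_lo {a b : ℕ} (h : a ≤ b) : ∑ j ∈ Ico a b, (3.03 : ℝ) / 2 ^ j ≤ 6.06 / 2 ^ a := by
  refine (xL2_tel a _ (fun j => -(6.06 / 2 ^ j)) (fun j _ => le_of_eq ?_) h).trans ?_
  · rw [pow_succ]
    field_simp
    norm_num
  · have : (0 : ℝ) ≤ 6.06 / 2 ^ b := by positivity
    linarith

end Pool.Agent.MP_88bd62_nt.U
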