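import Pool.Agent.MP_88bd62_nt.U.Stmts

/-! The later stages. -/

namespace Pool.Agent.MP_88bd62_nt.U

open Finset Real Filter Topology

/-- The parameters of the stages. -/
noncomputable def xLater_par : ℕ → Par
  | 0 => par0
  | 1 => par1
  | 2 => par2
  | 3 => par3
  | i + 4 => parT (64 * 2 ^ i)

/-- The costs of the high pass parts. -/
noncomputable def xLater_h : ℕ → ℝ
  | 0 => 0.00033
  | 1 => 0.00006
  | 2 => 0.000001
  | i + 3 => 1 / 2 ^ (64 * 2 ^ i / 4)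

/-- The costs of the remainders. -/
noncomputable def xLater_r : ℕ → ℝ
  | 0 => 0.00437
  | 1 => 0.00088
  | 2 => 0.000012
  | i + 3 => 1 / 2 ^ (64 * 2 ^ i / 4)

theorem xLater_ge (i : ℕ) : 64 ≤ 64 * 2 ^ i := Nat.le_mul_of_pos_right _ (by positivity)

theorem xLater_n : ∀ i, (xLater_par i).n' = (xLater_par (i + 1)).n
  | 0 => rfl
  | 1 => rfl
  | 2 => rfl
  | 3 => rfl
  | i + 4 => by
    change 2 * (64 * 2 ^ i) = 64 * 2 ^ (i + 1)
    ring

theorem xLater_J : ∀ i, (xLater_par i).J ≤ (xLater_par (i + 1)).J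
  | 0 => by change 7620 ≤ 10750; norm_num
  | 1 => by change 10750 ≤ 15400; norm_num
  | 2 => by change 15400 ≤ 26000; norm_num
  | 3 => by change 26000 ≤ 101 * (64 * 2 ^ 0) ^ 2; norm_num
  | i + 4 => by
    change 101 * (64 * 2 ^ i) ^ 2 ≤ 101 * (64 * 2 ^ (i + 1)) ^ 2
    gcongr <;> omega

theorem xLater_th : ∀ i, (xLater_par i).θ ≤ (xLater_par (i + 1)).θ
  | 0 => by change (0.996 : ℝ) ≤ 0.9963; norm_num
  | 1 => by change (0.9963 : ℝ) ≤ 0.998; norm_num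
  | 2 => by change (0.998 : ℝ) ≤ 0.999; norm_num
  | 3 => by change (0.999 : ℝ) ≤ 1 - 1 / (200 * ((64 * 2 ^ 0 : ℕ) : ℝ)); norm_num
  | i + 4 => by
    change 1 - 1 / (200 * ((64 * 2 ^ i : ℕ) : ℝ)) ≤ 1 - 1 / (200 * ((64 * 2 ^ (i + 1) : ℕ) : ℝ))
    gcongr <;> omega

theorem xLater_lev {c : ℕ → ℝ} {J J' : ℕ} {θ θ' : ℝ} (h : Lev c J θ) (hJ : J ≤ J') (h0 : 0 < θ)
    (h1 : θ ≤ θ') (h2 : θ' < 1) : Lev c J' θ' :=
  ⟨h.1, fun j p hp => (h.2 j p hp).trans ((pow_le_pow_left₀ h0.le h1 _).trans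
    (pow_le_pow_of_le_one (h0.le.trans h1) h2.le (by omega)))⟩

theorem xLater_tail (i : ℕ) : (1 : ℝ) / 2 ^ (64 * 2 ^ i / 4) ≤ 1 / 2 ^ 16 * (1 / 4) ^ i := by
  have h1 : i < 2 ^ i := Nat.lt_two_pow_self
  have h2 : 16 + 2 * i ≤ 64 * 2 ^ i / 4 := by omega
  have h3 : (1 : ℝ) / 2 ^ 16 * (1 / 4) ^ i = 1 / 2 ^ (16 + 2 * i) := by
    rw [pow_add, pow_mul, one_div_pow]
    norm_num
    ring
  rw [h3]
  exact one_div_le_one_div_of_le (by positivity) (pow_le_pow_right₀ (by norm_num) h2)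

theorem xLater_sum3 (n : ℕ) : ∑ i ∈ range (n + 3), (xLater_h i + xLater_r i) ≤
    0.005653 + 8 / 3 / 2 ^ 16 * (1 - (1 / 4) ^ n) := by
  induction n with
  | zero =>
    simp only [zero_add, Finset.sum_range_succ, Finset.sum_range_zero, xLater_h, xLater_r]
    norm_num
  | succ n ih =>
    rw [show n + 1 + 3 = n + 3 + 1 by ring, Finset.sum_range_succ, pow_succ (1 / 4 : ℝ)]
    have h := xLater_tail n
    have e1 : xLater_h (n + 3) = 1 / 2 ^ (64 * 2 ^ n / 4) := rfl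
    have e2 : xLater_r (n + 3) = 1 / 2 ^ (64 * 2 ^ n / 4) := rfl
    rw [e1, e2]
    linarith

theorem xLater_nonneg : ∀ i, 0 ≤ xLater_h i + xLater_r i
  | 0 => by simp only [xLater_h, xLater_r]; norm_num
  | 1 => by simp only [xLater_h, xLater_r]; norm_num
  | 2 => by simp only [xLater_h, xLater_r]; norm_num
  | i + 3 => by simp only [xLater_h, xLater_r]; positivity

theorem xLater_sum (n : ℕ) : ∑ i ∈ range n, (xLater_h i + xLater_r i) ≤ 0.0057 := by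
  have h1 : ∑ i ∈ range n, (xLater_h i + xLater_r i) ≤
      ∑ i ∈ range (n + 3), (xLater_h i + xLater_r i) :=
    Finset.sum_le_sum_of_subset_of_nonneg (Finset.range_mono (by omega))
      fun i _ _ => xLater_nonneg i
  have h2 := xLater_sum3 n
  have h3 : (0 : ℝ) ≤ (1 / 4) ^ n := by positivity
  linarith

theorem xLater_grow (hGrow : StGrow) (hS : NumS) {P : Par} (hX : XOK P) (hG : GOK P) :
    Mz P.jz ≤ P.Mb ∧ Fb P.jz ≤ P.A := by
  obtain ⟨h1, h2⟩ := hGrow P.jz hX.2.2.1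
  exact ⟨h2.trans ((mul_le_mul_of_nonneg_right hS.2.1 (exp_pos _).le).trans hG.2),
    h1.trans ((mul_le_mul_of_nonneg_right hS.1 (exp_pos _).le).trans hG.1)⟩

theorem stLater (hChain : StChain) (hX : StX) (hRemG : StRemG) (hHPG : StHPG) (hGrow : StGrow)
    (hP0X : StP0X) (hP1X : StP1X) (hP1L : StP1L) (hP1R : StP1R) (hP2X : StP2X) (hP2L : StP2L)
    (hP2R : StP2R) (hP3X : StP3X) (hP3L : StP3L) (hP3R : StP3R) (hPTX : StPTX) (hPTL : StPTL)
    (hPTR : StPTR) : StLater := by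
  intro hS B hB J
  have hXG : ∀ i, XOK (xLater_par (i + 1)) ∧ GOK (xLater_par (i + 1))
    | 0 => hP1X
    | 1 => hP2X
    | 2 => hP3X
    | i + 3 => hPTX _ (xLater_ge i)
  have hXO : ∀ i, XOK (xLater_par i)
    | 0 => hP0X
    | i + 1 => (hXG i).1
  have hMF : ∀ i, Mz (xLater_par i).jz ≤ (xLater_par i).Mb ∧
      Fb (xLater_par i).jz ≤ (xLater_par i).A
    | 0 => ⟨hS.2.1, hS.1⟩
    | i + 1 => xLater_grow hGrow hS (hXG i).1 (hXG i).2
  have hL : ∀ i, LB (xLater_par (i + 1)) ∧ PB (xLater_par (i + 1))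
    | 0 => hP1L
    | 1 => hP2L
    | 2 => hP3L
    | i + 3 => hPTL _ (xLater_ge i)
  have hR : ∀ i, ROK (xLater_par (i + 1)) (xLater_r i) ∧
      HOK (xLater_par (i + 1)) (xLater_par i).jz (xLater_h i)
    | 0 => hP1R
    | 1 => hP2R
    | 2 => hP3R
    | 3 => hPTR (64 * 2 ^ 0) 40 (by norm_num) (by norm_num) (by norm_num)
    | i + 4 => hPTR (64 * 2 ^ (i + 1)) (64 * 2 ^ i) (xLater_ge _) (by omega) (by omega)
  have hθ : ∀ i, 0 < (xLater_par i).θ ∧ (xLater_par i).θ < 1 := fun i => by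
    obtain ⟨-, -, -, -, -, -, -, -, -, -, -, -, -, h1, h2, -⟩ := hXO i
    exact ⟨h1, h2⟩
  have key := hChain (fun i => 2 ^ (xLater_par i).n) (fun i => (xLater_par i).ap) B 0.0057
    xLater_h xLater_r (by change 1000 ≤ 2 ^ 20; norm_num)
    (monotone_nat_of_le_succ fun i => Nat.pow_le_pow_right two_pos
      (xLater_n i ▸ (hXO i).2.1))
    (fun i => (hX _ (hXO i) (hMF i).1).2.1) hB
    (fun i u => hHPG _ (xLater_par i).jz (xLater_par i).w _ (hXO (i + 1)) (hL i).2 (hR i).2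
      (hMF (i + 1)).1 (hMF (i + 1)).2
      (xLater_lev (hX _ (hXO i) (hMF i).1).1 (xLater_J i) (hθ i).1 (xLater_th i) (hθ (i + 1)).2)
      (fun p hp => if_pos hp) u)
    (fun i => by
      have h := hRemG _ _ (hXO (i + 1)) (hL i).1 (hR i).1 (hMF (i + 1)).1 (hMF (i + 1)).2
      rwa [xLater_n] at h)
    xLater_sum (J + 3)
  refine ⟨_, ?_, key⟩
  change J ≤ 2 ^ (64 * 2 ^ J)
  have h1 : J < 2 ^ J := Nat.lt_two_pow_self
  have h2 : 64 * 2 ^ J < 2 ^ (64 * 2 ^ J) := Nat.lt_two_pow_self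
  omega

end Pool.Agent.MP_88bd62_nt.U
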