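import Pool.Agent.MP_88bd62_nt.U.Stmts

/-! The majorant of the first stage. -/

namespace Pool.Agent.MP_88bd62_nt.U

open Finset Real
open ArithmeticFunction (cardFactors)
open scoped ENNReal

theorem xMaj1_abs_fo {n : ℕ} (hn : Odd n) : |fo n| = 2 ^ cardFactors n := by
  rw [fo, if_pos hn, abs_pow, abs_neg, abs_two]

theorem xMaj1_notMem {n p : ℕ} (hn : n ≠ 0) (hp : p ∣ n) (h : 2 ^ 20 < p) : n ∉ E0 := by
  intro hE
  have h1 : p ≤ n := Nat.le_of_dvd (Nat.pos_of_ne_zero hn) hp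
  simp only [E0, mem_insert, mem_singleton] at hE
  omega

theorem xMaj1_sm {j n : ℕ} (hn : n ≠ 0)
    (h : n.primeFactorsList.filter (fun p => 2 ^ j < p) = []) : Sm j n := by
  intro p hp hd
  by_contra hlt
  have h1 : p ∈ n.primeFactorsList.filter (fun p => 2 ^ j < p) := by
    rw [List.mem_filter]
    exact ⟨(Nat.mem_primeFactorsList hn).2 ⟨hp, hd⟩, by simpa using hlt⟩
  rw [h] at h1
  exact absurd h1 List.not_mem_nil

theorem xMaj1_split (jD : ℕ) {e : ℕ} (he : Sm 20 e) :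
    nuD (fun _ => True) e ≤ nuD (fun m => m ≤ 2 ^ 20) e +
      ((nuD fun m => 2 ^ 20 < m ∧ m ≤ 2 ^ 30)
        + (nuD fun m => 2 ^ 30 < m ∧ m ≤ 4 ^ jD) + nuD fun m => 4 ^ jD < m ∧ Sm 20 m) e := by
  simp only [Pi.add_apply]
  by_cases hc : e.Coprime 210
  · have key : ∀ Q : ℕ → Prop, Q e → nuD (fun _ => True) e = nuD Q e := by
      intro Q hQ
      unfold nuD
      rw [if_pos ⟨hc, trivial⟩, if_pos ⟨hc, hQ⟩]
    by_cases h1 : e ≤ 2 ^ 20
    · rw [key (fun m => m ≤ 2 ^ 20) h1]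
      exact le_self_add
    by_cases h2 : e ≤ 2 ^ 30
    · rw [key (fun m => 2 ^ 20 < m ∧ m ≤ 2 ^ 30) ⟨not_le.1 h1, h2⟩]
      exact le_add_left (le_add_right le_self_add)
    by_cases h3 : e ≤ 4 ^ jD
    · rw [key (fun m => 2 ^ 30 < m ∧ m ≤ 4 ^ jD) ⟨not_le.1 h2, h3⟩]
      exact le_add_left (le_add_right le_add_self)
    · rw [key (fun m => 4 ^ jD < m ∧ Sm 20 m) ⟨not_le.1 h3, he⟩]
      exact le_add_left le_add_self
  · have h0 : nuD (fun _ => True) e = 0 := by
      unfold nuD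
      rw [if_neg fun h => hc h.1]
    rw [h0]
    exact bot_le

theorem xMaj1_conv (A μ μ₁ μ₂ : ℕ → ℝ≥0∞) (n : ℕ) (h : ∀ e, e ∣ n → μ e ≤ μ₁ e + μ₂ e) :
    conv A μ n ≤ conv A μ₁ n + conv A μ₂ n := by
  unfold conv
  rw [← sum_add_distrib]
  refine sum_le_sum fun x hx => ?_
  rw [← mul_add]
  have hx' := (Nat.mem_divisorsAntidiagonal.1 hx).1
  exact mul_le_mul_right (h x.2 ⟨x.1, by rw [← hx', mul_comm]⟩) _

theorem xMaj1_one (c : ℕ → ℝ) (hc : ∀ p, 0 ≤ c p ∧ c p ≤ 1) {n p : ℕ} (hn : Odd n)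
    (h : n.primeFactorsList.filter (fun p => 2 ^ 20 < p) = [p]) :
    ENNReal.ofReal (2 ^ cardFactors n * c p / n) ≤ conv (nuF 20) (muP 20 c + muP 20 c) n := by
  have hn0 : n ≠ 0 := hn.pos.ne'
  have h1 : p ∈ n.primeFactorsList.filter (fun p => 2 ^ 20 < p) := by
    rw [h]
    exact List.mem_singleton_self p
  rw [List.mem_filter, Nat.mem_primeFactorsList hn0] at h1
  obtain ⟨⟨hp, m, hm⟩, hlt⟩ := h1
  have hlt' : 2 ^ 20 < p := by simpa using hlt
  rw [mul_comm] at hm
  subst hm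
  have hm0 : m ≠ 0 := left_ne_zero_of_mul hn0
  have hmo : Odd m := Odd.of_dvd_nat hn (Dvd.intro _ rfl)
  have hs : Sm 20 m := by
    apply xMaj1_sm hm0
    have h2 := (Nat.perm_primeFactorsList_mul hm0 hp.ne_zero).filter (fun p => 2 ^ 20 < p)
    rw [h, List.filter_append, Nat.primeFactorsList_prime hp] at h2
    have h3 := h2.length_eq
    rw [List.length_append, List.filter_cons_of_pos (by simpa using hlt')] at h3
    simp only [List.length_cons, List.length_nil, List.filter_nil] at h3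
    exact List.eq_nil_of_length_eq_zero (by omega)
  have hmem : (m, p) ∈ (m * p).divisorsAntidiagonal := Nat.mem_divisorsAntidiagonal.2 ⟨rfl, hn0⟩
  refine le_trans ?_ (single_le_sum (f := fun x : ℕ × ℕ =>
    nuF 20 x.1 * (muP 20 c + muP 20 c) x.2) (fun _ _ => bot_le) hmem)
  have hmp : (0 : ℝ) < m := by exact_mod_cast Nat.pos_of_ne_zero hm0
  have hpp : (0 : ℝ) < p := by exact_mod_cast hp.pos
  have hcp : 0 ≤ c p / p := div_nonneg (hc p).1 hpp.le
  have e1 : nuF 20 m = ENNReal.ofReal (2 ^ cardFactors m / m) := by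
    unfold nuF
    rw [if_pos ⟨hmo, hs⟩]
  have e2 : muP 20 c p = ENNReal.ofReal (c p / p) := by
    unfold muP
    rw [if_pos ⟨hp, hlt'⟩]
  simp only [Pi.add_apply]
  rw [e1, e2, ← ENNReal.ofReal_add hcp hcp, ← ENNReal.ofReal_mul (by positivity),
    ArithmeticFunction.cardFactors_mul hm0 hp.ne_zero,
    ArithmeticFunction.cardFactors_apply_prime hp]
  refine ENNReal.ofReal_le_ofReal (le_of_eq ?_)
  push_cast
  field_simp
  ring

theorem stMaj1 (hFac : StFac) : StMaj1 := by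
  intro c jD hc n
  by_cases hn : Odd n
  swap
  · have h0 : fo n = 0 := by rw [fo, if_neg hn]
    have h1 : (pc 20 c - a1) n = 0 := by
      simp only [Pi.sub_apply, pc, a1, h0, zero_mul, ite_self, sub_zero]
    rw [h1, abs_zero, zero_div, ENNReal.ofReal_zero]
    exact bot_le
  have hn0 : n ≠ 0 := hn.pos.ne'
  have hmem : ∀ p, p ∈ n.primeFactorsList.filter (fun p => 2 ^ 20 < p) → n ∉ E0 := by
    intro p hp
    rw [List.mem_filter, Nat.mem_primeFactorsList hn0] at hp
    exact xMaj1_notMem hn0 hp.1.2 (by simpa using hp.2)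
  rcases hB : n.primeFactorsList.filter (fun p => 2 ^ 20 < p) with _ | ⟨p, _ | ⟨q, l⟩⟩
  · have hchi : chi 20 c n = 1 := by
      unfold chi
      rw [hB]
    by_cases hE : n ∈ E0
    · have h1 : (pc 20 c - a1) n = 0 := by
        simp only [Pi.sub_apply, pc, a1, hchi, mul_one, if_pos hE, sub_self]
      rw [h1, abs_zero, zero_div, ENNReal.ofReal_zero]
      exact bot_le
    · have h1 : (pc 20 c - a1) n = fo n := by
        simp only [Pi.sub_apply, pc, a1, hchi, mul_one, if_neg hE, sub_zero]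
      rw [h1, xMaj1_abs_fo hn, if_neg hE]
      refine le_add_right ((hFac n hn).trans (xMaj1_conv _ _ _ _ n fun e he => ?_))
      exact xMaj1_split jD fun r hr hd => xMaj1_sm hn0 hB r hr (hd.trans he)
  · have hchi : chi 20 c n = c p := by
      unfold chi
      rw [hB]
    have hE : n ∉ E0 := hmem p (by rw [hB]; exact List.mem_singleton_self p)
    have h1 : (pc 20 c - a1) n = fo n * c p := by
      simp only [Pi.sub_apply, pc, a1, hchi, if_neg hE, sub_zero]
    rw [h1, abs_mul, xMaj1_abs_fo hn, abs_of_nonneg (hc p).1]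
    exact le_add_left (xMaj1_one c hc hn hB)
  · have hchi : chi 20 c n = 0 := by
      unfold chi
      rw [hB]
    have hE : n ∉ E0 := hmem p (by rw [hB]; exact List.mem_cons_self)
    have h1 : (pc 20 c - a1) n = 0 := by
      simp only [Pi.sub_apply, pc, a1, hchi, mul_zero, if_neg hE, sub_zero]
    rw [h1, abs_zero, zero_div, ENNReal.ofReal_zero]
    exact bot_le

end Pool.Agent.MP_88bd62_nt.U
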