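import Pool.Agent.MP_88bd62_nt.U.Stmts

/-! The majorant of the difference of two consecutive approximants. -/

namespace Pool.Agent.MP_88bd62_nt.U

open Finset Real
open ArithmeticFunction (cardFactors)
open scoped ENNReal

/-- The prime factors above `2 ^ j`, with multiplicity. -/
def xMaj2_B (j n : ℕ) : List ℕ := n.primeFactorsList.filter (fun p => 2 ^ j < p)

theorem xMaj2_chi (j : ℕ) (c : ℕ → ℝ) (n : ℕ) : (xMaj2_B j n = [] ∧ chi j c n = 1) ∨
    (∃ p, xMaj2_B j n = [p] ∧ chi j c n = c p) ∨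
    ∃ p q r, xMaj2_B j n = p :: q :: r ∧ chi j c n = 0 := by
  unfold chi xMaj2_B
  generalize n.primeFactorsList.filter (fun p => 2 ^ j < p) = l
  rcases l with _ | ⟨p, _ | ⟨q, r⟩⟩ <;> simp

theorem xMaj2_mem {j n p : ℕ} (h : p ∈ xMaj2_B j n) : p.Prime ∧ p ∣ n ∧ 2 ^ j < p := by
  rw [xMaj2_B, List.mem_filter, decide_eq_true_eq] at h
  exact ⟨Nat.prime_of_mem_primeFactorsList h.1, Nat.dvd_of_mem_primeFactorsList h.1, h.2⟩

theorem xMaj2_sm {j n : ℕ} (hn : n ≠ 0) (h : xMaj2_B j n = []) : Sm j n := fun p hp hd => by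
  rw [xMaj2_B, List.filter_eq_nil_iff] at h
  simpa using h p ((Nat.mem_primeFactorsList hn).2 ⟨hp, hd⟩)

theorem xMaj2_sub {j j' : ℕ} (h : j ≤ j') (n : ℕ) : (xMaj2_B j' n).Sublist (xMaj2_B j n) :=
  List.monotone_filter_right _ fun p hp => by
    rw [decide_eq_true_eq] at hp ⊢
    exact (Nat.pow_le_pow_right two_pos h).trans_lt hp

theorem xMaj2_big {j a e p q : ℕ} {r : List ℕ} (hn : a * e ≠ 0) (ha : Sm j a)
    (h : xMaj2_B j (a * e) = p :: q :: r) : 2 ^ (2 * j) < e := by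
  obtain ⟨p1, -, p2⟩ := xMaj2_mem (h ▸ List.mem_cons_self : p ∈ xMaj2_B j (a * e))
  obtain ⟨q1, -, q2⟩ := xMaj2_mem
    (h ▸ List.mem_cons_of_mem _ List.mem_cons_self : q ∈ xMaj2_B j (a * e))
  have h1 : p * q ∣ a * e := by
    have h2 : (xMaj2_B j (a * e)).prod ∣ a * e := by
      conv_rhs => rw [← Nat.prod_primeFactorsList hn]
      exact List.filter_sublist.prod_dvd_prod
    rw [h, List.prod_cons, List.prod_cons, ← mul_assoc] at h2
    exact (dvd_mul_right _ _).trans h2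
  have h2 : (p * q).Coprime a := Nat.Coprime.mul_left
    ((Nat.Prime.coprime_iff_not_dvd p1).2 fun hd => (ha p p1 hd).not_gt p2)
    ((Nat.Prime.coprime_iff_not_dvd q1).2 fun hd => (ha q q1 hd).not_gt q2)
  refine lt_of_lt_of_le ?_ (Nat.le_of_dvd (Nat.pos_of_ne_zero (right_ne_zero_of_mul hn))
    (h2.dvd_of_dvd_mul_left h1))
  rw [two_mul, pow_add]
  exact Nat.mul_lt_mul'' p2 q2

theorem xMaj2_nuD {Q : ℕ → Prop} {e : ℕ} (h : Q e) : nuD (fun _ => True) e = nuD Q e := by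
  simp only [nuD, h, and_true]

open Classical in
theorem xMaj2_two {j j' jD n p q : ℕ} {r : List ℕ} (hj : 3 ≤ j) (hn : n ≠ 0) (hs : Sm j' n)
    (h : xMaj2_B j n = p :: q :: r) : conv (conv nuS nuH) (nuD fun _ => True) n ≤
    conv (conv nuS nuH) ((nuD fun m => 2 ^ (2 * j) < m ∧ m ≤ 4 ^ jD)
        + nuD fun m => 4 ^ jD < m ∧ Sm j' m) n
    + conv (conv nuS fun h => if Sm j h then 0 else nuH h) ((nuD fun m => m ≤ 2 ^ 20)
        + (nuD fun m => 2 ^ 20 < m ∧ m ≤ 2 ^ 30) + (nuD fun m => 2 ^ 30 < m ∧ m ≤ 4 ^ jD)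
        + nuD fun m => 4 ^ jD < m ∧ Sm j' m) n := by
  simp only [conv, ← sum_add_distrib, sum_mul]
  refine sum_le_sum fun x hx => sum_le_sum fun y hy => ?_
  obtain ⟨a, e⟩ := x
  obtain ⟨s, t⟩ := y
  obtain rfl : a * e = n := (Nat.mem_divisorsAntidiagonal.1 hx).1
  obtain rfl : s * t = a := (Nat.mem_divisorsAntidiagonal.1 hy).1
  have he : Sm j' e := fun u hu hd => hs u hu (hd.mul_left _)
  simp only [Pi.add_apply]
  by_cases ht : Sm j t
  · refine le_add_right ?_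
    by_cases h7 : Odd s ∧ ∀ p, p.Prime → p ∣ s → p ≤ 7
    · have h1 := xMaj2_big hn (a := s * t) (fun u hu hd => (hu.dvd_mul.1 hd).elim
        (fun hd => (h7.2 u hu hd).trans (le_trans (by norm_num) (Nat.pow_le_pow_right two_pos hj)))
        (ht u hu)) h
      refine mul_le_mul_right ?_ _
      rcases le_or_gt e (4 ^ jD) with h2 | h2
      · exact le_add_right (xMaj2_nuD ⟨h1, h2⟩).le
      · exact le_add_left (xMaj2_nuD ⟨h2, he⟩).le
    · rw [nuS, if_neg h7, zero_mul, zero_mul]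
      exact zero_le
  · rw [if_neg ht]
    refine le_add_left (mul_le_mul_right ?_ _)
    rcases le_or_gt e (4 ^ jD) with h2 | h2
    · refine le_add_right ?_
      rcases le_or_gt e (2 ^ 30) with h3 | h3
      · refine le_add_right ?_
        rcases le_or_gt e (2 ^ 20) with h4 | h4
        · exact le_add_right (xMaj2_nuD (Q := fun m => m ≤ 2 ^ 20) h4).le
        · exact le_add_left (xMaj2_nuD ⟨h4, h3⟩).le
      · exact le_add_left (xMaj2_nuD ⟨h3, h2⟩).le
    · exact le_add_left (xMaj2_nuD ⟨h2, he⟩).le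

theorem xMaj2_one {j n p : ℕ} {cb : ℕ → ℝ} (hn : Odd n) (h : xMaj2_B j n = [p]) (hc : 0 ≤ cb p) :
    ENNReal.ofReal (2 ^ cardFactors n * cb p / n) ≤ conv (nuF j) (muP j cb + muP j cb) n := by
  obtain ⟨p1, ⟨m, rfl⟩, p2⟩ := xMaj2_mem (h ▸ List.mem_cons_self : p ∈ xMaj2_B j n)
  have h0 : p * m ≠ 0 := hn.pos.ne'
  have hm : m ≠ 0 := right_ne_zero_of_mul h0
  have h1 : xMaj2_B j m = [] := by
    have h2 := ((Nat.perm_primeFactorsList_mul p1.ne_zero hm).filter fun p => 2 ^ j < p).length_eq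
    rw [Nat.primeFactorsList_prime p1, List.filter_append, List.length_append,
      List.filter_cons_of_pos (by simpa using p2)] at h2
    change (xMaj2_B j (p * m)).length = _ + (xMaj2_B j m).length at h2
    rw [h] at h2
    simp only [List.length_cons, List.length_nil, List.filter_nil] at h2
    exact List.length_eq_zero_iff.1 (by omega)
  refine le_trans (le_of_eq ?_) (single_le_sum (f := fun x : ℕ × ℕ =>
    nuF j x.1 * (muP j cb + muP j cb) x.2) (fun _ _ => zero_le) (a := (m, p))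
    (Nat.mem_divisorsAntidiagonal.2 ⟨mul_comm _ _, h0⟩))
  have h3 : 0 ≤ cb p / p := by positivity
  simp only [Pi.add_apply]
  rw [nuF, if_pos ⟨(Nat.odd_mul.1 hn).2, xMaj2_sm hm h1⟩, muP, if_pos ⟨p1, p2⟩,
    ← ENNReal.ofReal_add h3 h3, ← ENNReal.ofReal_mul (by positivity),
    ArithmeticFunction.cardFactors_mul p1.ne_zero hm,
    ArithmeticFunction.cardFactors_apply_prime p1]
  congr 1
  push_cast
  ring

theorem stMaj2 (hFac : StFac) : StMaj2 := by
  intro j j' jD c c' cb hj hjj hj' hc h1 n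
  rw [Pi.sub_apply, pc, pc, ← mul_sub, abs_mul]
  by_cases hn : Odd n
  swap
  · rw [fo, if_neg hn, abs_zero, zero_mul, zero_div, ENNReal.ofReal_zero]
    exact zero_le
  rw [fo, if_pos hn, abs_pow, abs_neg, abs_two]
  have hz : chi j' c' n = chi j c n → ∀ x : ℝ≥0∞,
      ENNReal.ofReal (2 ^ cardFactors n * |chi j' c' n - chi j c n| / n) ≤ x := fun h x => by
    rw [h, sub_self, abs_zero, mul_zero, zero_div, ENNReal.ofReal_zero]
    exact zero_le
  have hsub := xMaj2_sub hjj n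
  rcases xMaj2_chi j' c' n with ⟨a1, a2⟩ | ⟨p, a1, a2⟩ | ⟨p, q, r, a1, a2⟩
  · have hs := xMaj2_sm hn.pos.ne' a1
    rcases xMaj2_chi j c n with ⟨b1, b2⟩ | ⟨u, b1, b2⟩ | ⟨u, v, w, b1, b2⟩
    · exact hz (a2.trans b2.symm) _
    · obtain ⟨u1, u2, -⟩ := xMaj2_mem (b1 ▸ List.mem_cons_self : u ∈ xMaj2_B j n)
      have h2 : 2 ^ j' ≤ 4 ^ j := by
        rw [show 4 = 2 ^ 2 from rfl, ← pow_mul]
        exact Nat.pow_le_pow_right two_pos hj'
      exact hz (by rw [a2, b2, h1 u ((hs u u1 u2).trans h2)]) _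
    · rw [a2, b2, sub_zero, abs_one, mul_one]
      exact le_add_right ((hFac n hn).trans (xMaj2_two hj hn.pos.ne' hs b1))
  · obtain ⟨c1, c2, c3, c4⟩ := hc p
    refine le_add_left (le_trans (ENNReal.ofReal_le_ofReal ?_) (xMaj2_one hn a1 (c1.trans c2)))
    gcongr
    rw [a1] at hsub
    rcases xMaj2_chi j c n with ⟨b1, b2⟩ | ⟨u, b1, b2⟩ | ⟨u, v, w, b1, b2⟩
    · rw [b1] at hsub
      simp at hsub
    · rw [b1] at hsub
      obtain rfl : p = u := by simpa using hsub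
      rw [a2, b2, abs_le]
      constructor <;> linarith
    · rwa [a2, b2, sub_zero, abs_of_nonneg c3]
  · have h2 := hsub.length_le
    rw [a1] at h2
    rcases xMaj2_chi j c n with ⟨b1, b2⟩ | ⟨u, b1, b2⟩ | ⟨u, v, w, b1, b2⟩
    · rw [b1] at h2
      simp at h2
    · rw [b1] at h2
      simp at h2
    · exact hz (a2.trans b2.symm) _

end Pool.Agent.MP_88bd62_nt.U
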