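import Pool.Agent.MP_88bd62_nt.U.MajEb

/-! The explicit nodes carry the product of the three small measures up to a small mass. -/

namespace Pool.Agent.MP_88bd62_nt.U

open Finset Real
open ArithmeticFunction (cardFactors)
open scoped ENNReal

noncomputable section

lemma xMajE_geo {p : ℕ} (hp : 11 ≤ p) {k : ℕ} (hk : 2 ≤ k) :
    ∑' i : ℕ, (if k ≤ i then ENNReal.ofReal (hW (p, i)) else 0) ≤
      ENNReal.ofReal (11 / 9 * hW (p, k)) := by
  have hp' : (11 : ℝ) ≤ p := by exact_mod_cast hp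
  have h1 : ∀ i : ℕ, hW (p, i + k) ≤ hW (p, k) * (2 / 11) ^ i := fun i => by
    have e : hW (p, i + k) = hW (p, k) * (2 / p) ^ i := by
      unfold hW
      rw [show i + k - 2 = i + (k - 2) by omega]
      simp only [pow_add, div_pow]
      field_simp
    rw [e]
    exact mul_le_mul_of_nonneg_left (by gcongr) (xMajE_hW _)
  have h2 := (hasSum_geometric_of_lt_one (r := 2 / 11) (by norm_num) (by norm_num)).mul_left
    (hW (p, k))
  rw [← ENNReal.summable.sum_add_tsum_nat_add' (k := k),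
    sum_eq_zero fun i hi => if_neg (not_le.2 (mem_range.1 hi)), zero_add]
  refine (ENNReal.tsum_le_tsum fun i => (if_pos (Nat.le_add_left k i)).le.trans
    (ENNReal.ofReal_le_ofReal (h1 i))).trans ?_
  rw [← ENNReal.ofReal_tsum_of_nonneg (fun i => mul_nonneg (xMajE_hW _) (by positivity))
    h2.summable, h2.tsum_eq]
  exact ENNReal.ofReal_le_ofReal (le_of_eq (by ring))

/-- The first term that is not listed. -/
def xMajE_u (p : ℕ) : ℝ := if p.Coprime 210 ∧ 11 ≤ p then hW (p, xMajE_k p) else 0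

def xMajE_t (j n : ℕ) : ℝ := if n.Coprime 210 ∧ 2 ^ j < n then 1 / (n : ℝ) ^ 2 else 0

lemma xMajE_u0 (p : ℕ) : 0 ≤ xMajE_u p := by
  unfold xMajE_u
  split_ifs
  exacts [xMajE_hW _, le_rfl]

lemma xMajE_t0 (j p : ℕ) : 0 ≤ xMajE_t j p := by
  unfold xMajE_t
  positivity

lemma xMajE_ule (p : ℕ) : xMajE_u p ≤ (if p ∈ range 65 then xMajE_u p else 0)
    + 1 / 1024 * xMajE_t 6 p + 1 / 256 * xMajE_t 9 p + xMajE_t 15 p := by
  have h6 := xMajE_t0 6 p
  have h9 := xMajE_t0 9 p
  have h15 := xMajE_t0 15 p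
  by_cases h : p ∈ range 65
  · rw [if_pos h]
    linarith
  rw [if_neg h]
  have h64 : 64 < p := not_lt.1 fun h' => h (mem_range.2 h')
  by_cases hc : p.Coprime 210
  swap
  · rw [xMajE_u, if_neg fun h => hc h.1]
    linarith
  have e : ∀ j, 2 ^ j < p → xMajE_t j p = 1 / (p : ℝ) ^ 2 := fun j hj => if_pos ⟨hc, hj⟩
  have h0 : (64 : ℝ) ≤ p := by exact_mod_cast h64.le
  rw [xMajE_u, if_pos ⟨hc, by omega⟩, xMajE_k, if_neg (by omega), if_neg (by omega),
    if_neg (by omega)]
  split_ifs with h1 h2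
  · have : hW (p, 4) ≤ 1 / 1024 * (1 / (p : ℝ) ^ 2) := by
      unfold hW
      norm_num
      field_simp
      nlinarith
    rw [e 6 h64]
    linarith
  · have h3 : (512 : ℝ) ≤ p := by exact_mod_cast (not_le.1 h1).le
    have : hW (p, 3) ≤ 1 / 256 * (1 / (p : ℝ) ^ 2) := by
      unfold hW
      norm_num
      field_simp
      linarith
    rw [e 9 (not_le.1 h1)]
    linarith
  · have : hW (p, 2) = 1 / (p : ℝ) ^ 2 := by
      unfold hW
      norm_num
    rw [e 15 (not_le.1 h2)]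
    linarith

lemma xMajE_small : ∑ p ∈ range 65, xMajE_u p ≤ 0.0000098 := by
  have e : ∑ p ∈ range 65, xMajE_u p = ∑ p ∈ ({11, 13, 17, 19, 23, 29, 31, 37, 41, 43, 47, 53,
      59, 61} : Finset ℕ), hW (p, xMajE_k p) := by
    unfold xMajE_u
    rw [← sum_filter]
    exact sum_congr (by decide) fun _ _ => rfl
  rw [e]
  simp only [hW, xMajE_k]
  rw [sum_insert (by decide), sum_insert (by decide), sum_insert (by decide),
    sum_insert (by decide), sum_insert (by decide), sum_insert (by decide),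
    sum_insert (by decide), sum_insert (by decide), sum_insert (by decide),
    sum_insert (by decide), sum_insert (by decide), sum_insert (by decide),
    sum_insert (by decide), sum_singleton]
  norm_num

lemma xMajE_MB (hS2 : StS2) : ∑' n, xMajE_B n ≤ ENNReal.ofReal 0.00003 := by
  obtain ⟨s6, t6⟩ := hS2 6 (by norm_num)
  obtain ⟨s9, t9⟩ := hS2 9 (by norm_num)
  obtain ⟨s15, t15⟩ := hS2 15 (by norm_num)
  have h0 : HasSum (fun p => if p ∈ range 65 then xMajE_u p else 0)
      (∑ p ∈ range 65, xMajE_u p) := by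
    rw [← sum_congr rfl fun p hp => if_pos (t := xMajE_u p) (e := 0) hp]
    exact hasSum_sum_of_ne_finset_zero fun p hp => if_neg hp
  have h1 := (((h0.add (s6.hasSum.mul_left (1 / 1024))).add
    (s9.hasSum.mul_left (1 / 256))).add s15.hasSum)
  have h2 : Summable xMajE_u := Summable.of_nonneg_of_le xMajE_u0 xMajE_ule h1.summable
  have h3 := hasSum_le xMajE_ule h2.hasSum h1
  have h4 := xMajE_small
  unfold xMajE_B
  rw [xMajE_push, ENNReal.tsum_prod']
  refine (ENNReal.tsum_le_tsum (g := fun p => ENNReal.ofReal (11 / 9 * xMajE_u p))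
    fun p => ?_).trans ?_
  · unfold xMajE_bw xMajE_u
    by_cases h : p.Coprime 210 ∧ 11 ≤ p
    · simp only [eq_true h.1, h.2, true_and, if_true]
      refine xMajE_geo h.2 ?_
      unfold xMajE_k
      split_ifs <;> norm_num
    · rw [tsum_congr fun i => if_neg fun h' => h ⟨h'.1, h'.2.1⟩, tsum_zero]
      exact zero_le
  · rw [← ENNReal.ofReal_tsum_of_nonneg (fun p => mul_nonneg (by norm_num) (xMajE_u0 p))
      (h2.mul_left _), tsum_mul_left]
    refine ENNReal.ofReal_le_ofReal ?_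
    norm_num [S2] at t6 t9 t15 h3 h4 ⊢
    linarith

lemma xMajE_E {n : ℕ} (hn : n ∉ E0) :
    conv (conv (xMajE_X SB sW sN) fun h => xMajE_X {1} (fun _ => 1) id h
      + xMajE_X HA hW (fun α => α.1 ^ α.2) h
      + xMajE_X (HA ×ˢ HA) (fun β => hW β.1 * hW β.2 / 2)
        (fun β => β.1.1 ^ β.1.2 * β.2.1 ^ β.2.2) h) (xMajE_X MB mW id) n ≤
      ENNReal.ofReal (nuE n) := by
  unfold nuE Eint
  generalize HA = A
  have w : ∀ β : (ℕ × ℕ) × ℕ × ℕ, 0 ≤ hW β.1 * hW β.2 / 2 := fun β =>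
    div_nonneg (mul_nonneg (xMajE_hW _) (xMajE_hW _)) zero_le_two
  have p : ∀ {ι : Type} (J : Finset ι) {v : ι → ℝ} (_ : ∀ i, 0 ≤ v i) (M : ι → ℕ),
      0 ≤ ∑ s ∈ SB, ∑ m ∈ MB, sW s * mW m *
        ∑ j ∈ J, v j * if sN s * m * M j = n then 1 else 0 := fun J v hv M =>
    sum_nonneg fun s _ => sum_nonneg fun m _ => mul_nonneg (mul_nonneg (xMajE_sW s) (xMajE_mW m))
      (sum_nonneg fun j _ => mul_nonneg (hv j) (by positivity))
  rw [funext (xMajE_addr _ _ _), funext (xMajE_addr _ _ _), xMajE_addl, xMajE_addl]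
  refine (add_le_add (add_le_add (xMajE_tri _ (fun _ => zero_le_one) _ n)
    (xMajE_tri _ xMajE_hW _ n)) (xMajE_tri _ w _ n)).trans (le_of_eq ?_)
  rw [← ENNReal.ofReal_add (p _ (fun _ => zero_le_one) _) (p _ xMajE_hW _),
    ← ENNReal.ofReal_add (add_nonneg (p _ (fun _ => zero_le_one) _) (p _ xMajE_hW _)) (p _ w _),
    ← sum_add_distrib, ← sum_add_distrib]
  refine congrArg _ (sum_congr rfl fun s _ => ?_)
  rw [← sum_add_distrib, ← sum_add_distrib]
  refine sum_congr rfl fun m _ => ?_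
  rw [← mul_add, ← mul_add, sum_singleton, sum_product, id, mul_one, one_mul]
  simp only [mul_assoc (sN s * m)]
  congr 3
  by_cases h : sN s * m = n
  · rw [h, if_neg hn]
  · simp only [if_neg h, ite_self]

theorem stMajE (hMass : StMass) (hS2 : StS2) : StMajE := by
  obtain ⟨h7, hH, _, _⟩ := hMass
  obtain ⟨S₀, S₁, e1, e2, e3, e4⟩ := xMajE_S h7
  have hR : ∑' h, (xMajE_H 3 h + conv xMajE_B nuH h) ≤
      ENNReal.ofReal (0.00001 + 0.00003 * 1.037) := by
    rw [ENNReal.tsum_add, ENNReal.ofReal_add (by norm_num) (by norm_num)]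
    exact add_le_add (xMajE_M3 hH) (xMajE_massR (by norm_num) (xMajE_MB hS2) hH)
  refine ⟨fun n => conv nuS (fun h => xMajE_H 3 h + conv xMajE_B nuH h) n + conv S₁ nuH n, ?_,
    fun n hn => ?_⟩
  · rw [ENNReal.tsum_add]
    refine (add_le_add (xMajE_massR (by norm_num) h7 hR)
      (xMajE_massR (by norm_num) e4 hH)).trans ?_
    rw [← ENNReal.ofReal_add (by norm_num) (by norm_num)]
    exact ENNReal.ofReal_le_ofReal (by norm_num)
  · refine le_trans ?_ (add_le_add ((xMajE_mono (fun _ => le_rfl) xMajE_D n).trans (xMajE_E hn))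
      le_rfl)
    rw [← xMajE_addl]
    refine xMajE_mono (fun m => ?_) (fun _ => le_rfl) n
    refine (xMajE_mono e1 (fun _ => le_rfl) m).trans ?_
    rw [xMajE_addl, ← add_assoc]
    refine add_le_add ((xMajE_mono (fun _ => le_rfl) (xMajE_Hle @xMajE_HA) m).trans ?_) le_rfl
    rw [xMajE_addr]
    exact add_le_add (xMajE_mono e3 (fun _ => le_rfl) m) (xMajE_mono e2 (fun _ => le_rfl) m)

end

end Pool.Agent.MP_88bd62_nt.U
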