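import Pool.Agent.MP_88bd62_nt.U.Stmts

namespace Pool.Agent.MP_88bd62_nt.U

open Finset Real
open ArithmeticFunction (cardFactors)
open scoped ENNReal

lemma xMass_dom {A : Type} (f : ℕ → ℝ≥0∞) (L : A → ℝ≥0∞) (g : ℕ → ℝ≥0∞) (φ : A → ℕ → ℕ)
    (h : ∀ n, f n ≠ 0 → ∃ a m, φ a m = n ∧ f n ≤ L a * g m) :
    ∑' n, f n ≤ (∑' a, L a) * ∑' m, g m := by
  classical
  calc ∑' n, f n ≤ ∑' n, ∑' x : A × ℕ, if n = φ x.1 x.2 then L x.1 * g x.2 else 0 := by
        refine ENNReal.tsum_le_tsum fun n => ?_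
        by_cases h0 : f n = 0
        · rw [h0]
          exact zero_le
        · obtain ⟨a, m, e, hle⟩ := h n h0
          refine le_trans ?_ (ENNReal.le_tsum (a, m))
          rw [if_pos e.symm]
          exact hle
    _ = ∑' x : A × ℕ, L x.1 * g x.2 := by
        rw [ENNReal.tsum_comm]
        exact tsum_congr fun x => tsum_ite_eq _ _
    _ = (∑' a, L a) * ∑' m, g m := by
        rw [ENNReal.tsum_prod' , ← ENNReal.tsum_mul_right]
        exact tsum_congr fun a => ENNReal.tsum_mul_left (a := L a) (f := g)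

open Classical in
lemma xMass_euler (f : ℕ → ℝ≥0∞) (h0 : f 0 = 0) (h1 : f 1 ≤ 1)
    (hm : ∀ m n : ℕ, m.Coprime n → f (m * n) ≤ f m * f n) (s : Finset ℕ)
    (hs : ∀ p ∈ s, p.Prime) :
    ∑' n, (if ∀ p, p.Prime → p ∣ n → p ∈ s then f n else 0) ≤ ∏ p ∈ s, ∑' k, f (p ^ k) := by
  induction s using Finset.induction_on with
  | empty =>
    rw [prod_empty, tsum_eq_single 1]
    · split_ifs
      · exact h1
      · exact zero_le
    · intro n hn
      obtain ⟨p, hp, hd⟩ := Nat.exists_prime_and_dvd hn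
      exact if_neg fun h => notMem_empty p (h p hp hd)
  | insert p s hp ih =>
    rw [prod_insert hp]
    have hpp := hs p (mem_insert_self p s)
    refine le_trans (xMass_dom _ (fun k => f (p ^ k))
      (fun n => if ∀ q, q.Prime → q ∣ n → q ∈ s then f n else 0) (fun k m => p ^ k * m) ?_)
      (mul_le_mul_right (ih fun q hq => hs q (mem_insert_of_mem hq)) _)
    intro n hn
    have h2 : ∀ q, q.Prime → q ∣ n → q ∈ insert p s := by_contra fun h => hn (if_neg h)
    rw [if_pos h2] at hn ⊢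
    have hn0 : n ≠ 0 := fun e => hn (e ▸ h0)
    obtain ⟨k, m, hd, e⟩ := Nat.exists_eq_pow_mul_and_not_dvd hn0 p hpp.ne_one
    refine ⟨k, m, e.symm, ?_⟩
    rw [if_pos, e]
    · exact hm _ _ (Nat.Coprime.pow_left k ((Nat.Prime.coprime_iff_not_dvd hpp).2 hd))
    · intro q hq hqm
      rcases mem_insert.1 (h2 q hq (e ▸ hqm.mul_left _)) with rfl | h3
      · exact absurd hqm hd
      · exact h3

lemma xMass_geo {a r : ℝ} (ha : 0 ≤ a) (h0 : 0 ≤ r) (h1 : r < 1) :
    ∑' k : ℕ, ENNReal.ofReal (a * r ^ k) = ENNReal.ofReal (a * (1 - r)⁻¹) := by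
  rw [← ENNReal.ofReal_tsum_of_nonneg (fun k => by positivity)
    ((summable_geometric_of_lt_one h0 h1).mul_left a), tsum_mul_left,
    tsum_geometric_of_lt_one h0 h1]

lemma xMass_F (j : ℕ) : ∑' n, nuF j n ≤ ENNReal.ofReal (Fb j) := by
  classical
  have hP : ∀ p ∈ Pr j, p.Prime ∧ (3 : ℝ) ≤ p := fun p hp => by
    rw [Pr, mem_filter, mem_Icc] at hp
    exact ⟨hp.2, by exact_mod_cast hp.1.1⟩
  have h := xMass_euler (fun n => ENNReal.ofReal (2 ^ cardFactors n / n)) (by simp) (by simp)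
    (fun m n _ => by
      rcases eq_or_ne m 0 with rfl | hm
      · simp
      rcases eq_or_ne n 0 with rfl | hn
      · simp
      rw [← ENNReal.ofReal_mul (by positivity), ArithmeticFunction.cardFactors_mul hm hn, pow_add,
        Nat.cast_mul, mul_div_mul_comm]) (Pr j) fun p hp => (hP p hp).1
  refine le_trans (ENNReal.tsum_le_tsum fun n => ?_) (h.trans (le_of_eq ?_))
  · rw [nuF]
    split_ifs with h1 h2
    · exact le_rfl
    · refine absurd (fun p hp hd => ?_) h2
      rw [Pr, mem_filter, mem_Icc]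
      refine ⟨⟨?_, h1.2 p hp hd⟩, hp⟩
      rcases hp.eq_two_or_odd' with rfl | ho
      · exact absurd (even_iff_two_dvd.2 hd) (Nat.not_even_iff_odd.2 h1.1)
      · have := hp.two_le
        obtain ⟨c, hc⟩ := ho
        omega
    · exact zero_le
    · exact le_rfl
  · rw [Fb, ENNReal.ofReal_prod_of_nonneg]
    · refine prod_congr rfl fun p hp => ?_
      obtain ⟨h1, h2⟩ := hP p hp
      have h3 : 2 / (p : ℝ) < 1 := by rw [div_lt_one (by linarith)]; linarith
      rw [← one_mul (1 - 2 / (p : ℝ))⁻¹, ← xMass_geo zero_le_one (by positivity) h3]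
      refine tsum_congr fun k => ?_
      rw [ArithmeticFunction.cardFactors_apply_prime_pow h1, one_mul, div_pow, Nat.cast_pow]
    · intro p hp
      obtain ⟨h1, h2⟩ := hP p hp
      have h3 : 2 / (p : ℝ) < 1 := by rw [div_lt_one (by linarith)]; linarith
      exact inv_nonneg.2 (by linarith)

lemma xMass_S : ∑' n, nuS n ≤ ENNReal.ofReal 7 := by
  have h : Fb 3 = 7 := by
    have e : Pr 3 = {3, 5, 7} := by decide
    rw [Fb, e]
    norm_num
  rw [← h]
  refine le_trans (ENNReal.tsum_le_tsum fun n => ?_) (xMass_F 3)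
  rw [nuS, nuF]
  split_ifs with h1 h2
  · exact le_rfl
  · exact absurd ⟨h1.1, fun p hp hd => (h1.2 p hp hd).trans (by norm_num)⟩ h2
  · exact zero_le
  · exact le_rfl

lemma xMass_hh_nonneg (n : ℕ) : 0 ≤ hh n :=
  prod_nonneg fun p _ => by
    split_ifs
    · exact le_rfl
    · positivity

lemma xMass_hh_mul {m n : ℕ} (h : m.Coprime n) : hh (m * n) = hh m * hh n := by
  have e : ∀ n : ℕ, hh n = n.factorization.prod
      fun _ k => if k = 1 then (0 : ℝ) else 2 ^ (k - 2) := fun _ => rfl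
  rw [e, e, e, Nat.factorization_mul_of_coprime h,
    Finsupp.prod_add_index_of_disjoint h.disjoint_primeFactors]

lemma xMass_hh_pow {p : ℕ} (hp : p.Prime) (k : ℕ) :
    hh (p ^ (k + 1)) = if k + 1 = 1 then 0 else 2 ^ (k + 1 - 2) := by
  rw [hh, Nat.primeFactors_prime_pow (Nat.succ_ne_zero k) hp, prod_singleton,
    Nat.Prime.factorization_pow hp, Finsupp.single_eq_same]

/-- The local weight. -/
noncomputable def xMass_w (p : ℕ) : ℝ := 1 / ((p : ℝ) * (p - 2))

lemma xMass_H_mul (m n : ℕ) (h : m.Coprime n) : ENNReal.ofReal (hh (m * n) / (m * n : ℕ)) =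
    ENNReal.ofReal (hh m / m) * ENNReal.ofReal (hh n / n) := by
  rw [← ENNReal.ofReal_mul (div_nonneg (xMass_hh_nonneg m) (Nat.cast_nonneg m)), xMass_hh_mul h,
    Nat.cast_mul, mul_div_mul_comm]

lemma xMass_H_two {p : ℕ} (hp : p.Prime) (k : ℕ) :
    hh (p ^ (k + 2)) / (p ^ (k + 2) : ℕ) = 1 / (p : ℝ) ^ 2 * (2 / p) ^ k := by
  have h0 : (p : ℝ) ≠ 0 := by exact_mod_cast hp.ne_zero
  rw [xMass_hh_pow hp (k + 1), if_neg (by omega), show k + 1 + 1 - 2 = k by omega, div_pow]
  push_cast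
  field_simp
  ring

lemma xMass_geo2 {p : ℕ} (h3 : 3 ≤ p) :
    ∑' k : ℕ, ENNReal.ofReal (1 / (p : ℝ) ^ 2 * (2 / p) ^ k) = ENNReal.ofReal (xMass_w p) := by
  have h2 : (3 : ℝ) ≤ p := by exact_mod_cast h3
  have h4 : 2 / (p : ℝ) < 1 := by rw [div_lt_one (by linarith)]; linarith
  rw [xMass_geo (by positivity) (by positivity) h4, xMass_w]
  congr 1
  have h5 : (p : ℝ) - 2 ≠ 0 := by linarith
  have h6 : (p : ℝ) ≠ 0 := by linarith
  field_simp

lemma xMass_w_nonneg {p : ℕ} (h3 : 3 ≤ p) : 0 ≤ xMass_w p := by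
  have h2 : (3 : ℝ) ≤ p := by exact_mod_cast h3
  exact one_div_nonneg.2 (mul_nonneg (by linarith) (by linarith))

lemma xMass_loc {p : ℕ} (hp : p.Prime) (h3 : 3 ≤ p) :
    ∑' k, ENNReal.ofReal (hh (p ^ k) / (p ^ k : ℕ)) ≤ ENNReal.ofReal (exp (xMass_w p)) := by
  rw [tsum_eq_zero_add' ENNReal.summable, tsum_eq_zero_add' ENNReal.summable]
  simp only [add_assoc, Nat.reduceAdd, xMass_H_two hp]
  rw [xMass_geo2 h3, xMass_hh_pow hp 0]
  simp only [pow_zero, hh, Nat.primeFactors_one, prod_empty, Nat.cast_one, div_one, zero_add,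
    if_true, zero_div, ENNReal.ofReal_zero]
  rw [← ENNReal.ofReal_add zero_le_one (xMass_w_nonneg h3)]
  refine ENNReal.ofReal_le_ofReal ?_
  rw [add_comm]
  exact add_one_le_exp _

lemma xMass_tail (hS2 : StS2) {j : ℕ} (hj : 3 ≤ j) {c : ℝ} (hc0 : 0 ≤ c)
    (hc : ∀ p : ℕ, 2 ^ j < p → (p : ℝ) ≤ c * (p - 2)) (s : Finset ℕ) :
    ∑ p ∈ s, (if p.Coprime 210 ∧ 2 ^ j < p then xMass_w p else 0) ≤ c * S2 j := by
  obtain ⟨h1, h2⟩ := hS2 j hj
  refine le_trans ?_ (mul_le_mul_of_nonneg_left ((h1.sum_le_tsum s fun n _ => by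
    split_ifs
    · positivity
    · exact le_rfl).trans h2) hc0)
  rw [mul_sum]
  refine sum_le_sum fun p _ => ?_
  split_ifs with h
  · have h3 : 2 ^ 3 ≤ 2 ^ j := Nat.pow_le_pow_right (by norm_num) hj
    have h4 : (8 : ℝ) < p := by exact_mod_cast (show 8 < p by omega)
    have h5 := hc p h.2
    rw [xMass_w, mul_one_div, div_le_div_iff₀ (mul_pos (by linarith) (by linarith))
      (by positivity)]
    nlinarith
  · rw [mul_zero]

lemma xMass_expl : ∑ p ∈ (Icc 11 128).filter (fun p => p.Coprime 210), xMass_w p ≤ 0.033716 := by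
  have e : (Icc 11 128).filter (fun p => p.Coprime 210) = {11, 13, 17, 19, 23, 29, 31, 37, 41, 43,
      47, 53, 59, 61, 67, 71, 73, 79, 83, 89, 97, 101, 103, 107, 109, 113, 121, 127} := by
    decide +kernel
  rw [e]
  simp only [xMass_w]
  norm_num

lemma xMass_sum (hS2 : StS2) (s : Finset ℕ) (hs : ∀ p ∈ s, p.Coprime 210 ∧ 11 ≤ p) :
    ∑ p ∈ s, xMass_w p ≤ 0.035718 := by
  have h1 := xMass_tail hS2 (j := 7) (by norm_num) (c := 129 / 127) (by norm_num) (fun p hp => by
    have : (129 : ℝ) ≤ p := by exact_mod_cast (show 129 ≤ p by omega)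
    linarith) s
  have h2 : ∑ p ∈ s.filter (fun p => p ≤ 128), xMass_w p ≤ 0.033716 := by
    refine le_trans (sum_le_sum_of_subset_of_nonneg (fun p hp => ?_) fun p hp _ => ?_) xMass_expl
    · rw [mem_filter] at hp
      rw [mem_filter, mem_Icc]
      exact ⟨⟨(hs p hp.1).2, hp.2⟩, (hs p hp.1).1⟩
    · rw [mem_filter, mem_Icc] at hp
      exact xMass_w_nonneg (by omega)
  have h3 : ∑ p ∈ s.filter (fun p => ¬ p ≤ 128), xMass_w p =
      ∑ p ∈ s, (if p.Coprime 210 ∧ 2 ^ 7 < p then xMass_w p else 0) := by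
    rw [sum_filter]
    refine sum_congr rfl fun p hp => if_congr ⟨fun h => ⟨(hs p hp).1, by omega⟩, fun h => ?_⟩
      rfl rfl
    have := h.2
    omega
  rw [← sum_filter_add_sum_filter_not s fun p => p ≤ 128, h3]
  have h4 : (129 / 127 : ℝ) * S2 7 ≤ 0.002002 := by
    rw [S2]
    norm_num
  linarith

lemma xMass_eleven {p : ℕ} (hp : p.Prime) (h : p.Coprime 210) : 11 ≤ p := by
  by_contra hc
  have h2 := hp.two_le
  have h3 : p < 11 := by omega
  interval_cases p <;> revert h <;> decide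

lemma xMass_H (hS2 : StS2) : ∑' n, nuH n ≤ ENNReal.ofReal 1.037 := by
  classical
  refine ENNReal.tsum_le_of_sum_range_le fun N => ?_
  set s := (range N).filter (fun p => p.Prime ∧ p.Coprime 210) with hs
  have hP : ∀ p ∈ s, p.Prime ∧ p.Coprime 210 := fun p hp => (mem_filter.1 hp).2
  have h := xMass_euler (fun n => ENNReal.ofReal (hh n / n)) (by simp) (by simp [hh])
    (fun m n h => (xMass_H_mul m n h).le) s fun p hp => (hP p hp).1
  refine le_trans (le_trans (sum_le_sum fun n hn => ?_) (ENNReal.sum_le_tsum _)) (h.trans ?_)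
  · rw [nuH]
    split_ifs with h1 h2
    · exact le_rfl
    · refine absurd (fun p hp hd => ?_) h2
      have h0 : 0 < n := Nat.pos_of_ne_zero fun e => by
        rw [e] at h1
        revert h1
        decide
      exact mem_filter.2 ⟨mem_range.2 ((Nat.le_of_dvd h0 hd).trans_lt (mem_range.1 hn)), hp,
        h1.coprime_dvd_left hd⟩
    · exact zero_le
    · exact le_rfl
  · refine le_trans (prod_le_prod' fun p hp => xMass_loc (hP p hp).1
      (le_trans (by norm_num) (xMass_eleven (hP p hp).1 (hP p hp).2))) ?_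
    rw [← ENNReal.ofReal_prod_of_nonneg fun p _ => (exp_pos _).le, ← exp_sum]
    refine ENNReal.ofReal_le_ofReal ((exp_le_exp.2 (xMass_sum hS2 s fun p hp =>
      ⟨(hP p hp).2, xMass_eleven (hP p hp).1 (hP p hp).2⟩)).trans ?_)
    have h5 := abs_exp_sub_one_sub_id_le (x := 0.035718) (by rw [abs_le]; constructor <;> norm_num)
    have h6 := (abs_le.1 h5).2
    norm_num at h6 ⊢
    linarith

open Classical in
lemma xMass_R (hS2 : StS2) {j : ℕ} (hj : 10 ≤ j) :
    ∑' n, (if Sm j n then 0 else nuH n) ≤ ENNReal.ofReal (1.05 * S2 j) := by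
  have hj' : 2 ^ 10 ≤ 2 ^ j := Nat.pow_le_pow_right (by norm_num) hj
  have hS : 0 ≤ S2 j := by
    rw [S2]
    positivity
  refine le_trans (xMass_dom _ (fun a : ℕ × ℕ => if a.1.Coprime 210 ∧ 2 ^ j < a.1 then
    ENNReal.ofReal (1 / (a.1 : ℝ) ^ 2 * (2 / a.1) ^ a.2) else 0) nuH
    (fun a m => a.1 ^ (a.2 + 2) * m) fun n hn => ?_) ?_
  · have h1 : ¬ Sm j n := fun h => hn (if_pos h)
    rw [if_neg h1] at hn ⊢
    have h2 : n.Coprime 210 := by_contra fun h => hn (if_neg h)
    rw [nuH, if_pos h2] at hn ⊢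
    have hn0 : n ≠ 0 := fun e => hn (by simp [e])
    simp only [Sm, not_forall, not_le] at h1
    obtain ⟨p, hp, hd, hlt⟩ := h1
    obtain ⟨k, m, hm, e⟩ := Nat.exists_eq_pow_mul_and_not_dvd hn0 p hp.ne_one
    have hc : (p ^ k).Coprime m :=
      Nat.Coprime.pow_left k ((Nat.Prime.coprime_iff_not_dvd hp).2 hm)
    have h3 : m.Coprime 210 := h2.coprime_dvd_left (e ▸ Dvd.intro_left _ rfl)
    rcases k with _ | _ | k
    · rw [pow_zero, one_mul] at e
      exact absurd (e ▸ hd) hm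
    · refine absurd ?_ hn
      rw [e, xMass_H_mul _ _ hc, xMass_hh_pow hp 0]
      simp
    · refine ⟨(p, k), m, e.symm, ?_⟩
      rw [if_pos ⟨h2.coprime_dvd_left hd, hlt⟩, nuH, if_pos h3, e, xMass_H_mul _ _ hc,
        xMass_H_two hp]
  · have h1 : ∑' a : ℕ × ℕ, (if a.1.Coprime 210 ∧ 2 ^ j < a.1 then
        ENNReal.ofReal (1 / (a.1 : ℝ) ^ 2 * (2 / a.1) ^ a.2) else 0) ≤
        ENNReal.ofReal (1.002 * S2 j) := by
      rw [ENNReal.tsum_prod']
      refine ENNReal.tsum_le_of_sum_range_le fun N => ?_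
      refine le_trans (le_of_eq ?_) (ENNReal.ofReal_le_ofReal (xMass_tail hS2 (j := j) (by omega)
        (c := 1.002) (by norm_num) (fun p hp => ?_) (range N)))
      · rw [ENNReal.ofReal_sum_of_nonneg fun p _ => by
          split_ifs with h
          · exact xMass_w_nonneg (by omega)
          · exact le_rfl]
        refine sum_congr rfl fun p _ => ?_
        by_cases h : p.Coprime 210 ∧ 2 ^ j < p
        · simp only [if_pos h]
          exact xMass_geo2 (by omega)
        · simp only [if_neg h, tsum_zero, ENNReal.ofReal_zero]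
      · have : (1025 : ℝ) ≤ p := by exact_mod_cast (show 1025 ≤ p by omega)
        linarith
    refine (mul_le_mul' h1 (xMass_H hS2)).trans ?_
    rw [← ENNReal.ofReal_mul (by positivity)]
    exact ENNReal.ofReal_le_ofReal (by nlinarith)

theorem stMass (hS2 : StS2) : StMass :=
  ⟨xMass_S, xMass_H hS2, xMass_F, fun _ hj => xMass_R hS2 hj⟩

end Pool.Agent.MP_88bd62_nt.U
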