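import Pool.Agent.MP_88bd62_nt.U.Stmts

namespace Pool.Agent.MP_88bd62_nt.U

open Finset Real
open ArithmeticFunction (vonMangoldt)

noncomputable section

theorem xMert_log {a b : ℝ} (ha : 0 < a) (hb : 0 < b) : (a - b) / a ≤ log a - log b := by
  have := log_le_sub_one_of_pos (div_pos hb ha)
  rw [log_div hb.ne' ha.ne'] at this
  have e : (a - b) / a = 1 - b / a := by field_simp
  linarith

theorem xMert_fact {t : ℕ} (ht : 1 ≤ t) : t * log t - t ≤ ∑ n ∈ Ioc 0 t, log n ∧
    ∑ n ∈ Ioc 0 t, log n ≤ t * log t - t + log t + 1 := by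
  induction t, ht using Nat.le_induction with
  | base => simp
  | succ t ht ih =>
    have h0 : (0 : ℝ) < t := by exact_mod_cast ht
    have h1 := xMert_log (a := t + 1) (by linarith) h0
    have h2 := xMert_log (b := t + 1) h0 (by linarith)
    rw [div_le_iff₀ (by linarith)] at h1 h2
    rw [sum_Ioc_succ_top (Nat.zero_le t)]
    push_cast
    constructor <;> nlinarith [ih.1, ih.2]

theorem xMert_id (t : ℕ) :
    ∑ n ∈ Ioc 0 t, log n = ∑ n ∈ Ioc 0 t, vonMangoldt n * ((t / n : ℕ) : ℝ) := by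
  rw [← ArithmeticFunction.sum_Ioc_mul_zeta_eq_sum, ArithmeticFunction.vonMangoldt_mul_zeta]
  rfl

theorem xMert_low {t : ℕ} (ht : 1 ≤ t) : log t - 1 ≤ ∑ n ∈ Ioc 0 t, vonMangoldt n / n := by
  have h0 : (0 : ℝ) < t := by exact_mod_cast ht
  refine le_of_mul_le_mul_left ?_ h0
  rw [mul_sum, mul_sub, mul_one]
  refine (xMert_fact ht).1.trans ((xMert_id t).trans_le (sum_le_sum fun n _ => ?_))
  rw [mul_div_left_comm]
  exact mul_le_mul_of_nonneg_left Nat.cast_div_le ArithmeticFunction.vonMangoldt_nonneg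

theorem xMert_num {t : ℝ} (ht : 2 ^ 20 ≤ t) : log 4 * t + 2 * √t * log t + log t + 1 ≤ 1.42 * t := by
  have h0 : 0 < t := lt_of_lt_of_le (by norm_num) ht
  have h1 : (1024 : ℝ) ≤ √t := le_sqrt_of_sq_le (by linarith)
  have h2 : √t * √t = t := mul_self_sqrt h0.le
  have h3 : log t = 2 * log √t := by rw [log_sqrt h0.le]; ring
  have h4 := log_le_sub_one_of_pos (div_pos (sqrt_pos.2 h0) (by norm_num : (0 : ℝ) < 1024))
  have h5 : log 4 = 2 * log 2 := by rw [show (4 : ℝ) = 2 ^ 2 by norm_num, log_pow]; norm_num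
  have h6 : log 1024 = 10 * log 2 := by rw [show (1024 : ℝ) = 2 ^ 10 by norm_num, log_pow]; norm_num
  rw [log_div (by positivity) (by norm_num), h6] at h4
  have h7 := log_two_lt_d9
  have h8 : log √t ≤ 0.0068 * √t := by linarith
  rw [h3, h5]
  nlinarith

theorem xMert_up {t : ℕ} (ht : 2 ^ 20 ≤ t) : ∑ n ∈ Ioc 0 t, vonMangoldt n / n ≤ log t + 0.42 := by
  have h1 : (2 : ℝ) ^ 20 ≤ t := by exact_mod_cast ht
  have h0 : (0 : ℝ) < t := lt_of_lt_of_le (by norm_num) h1
  refine le_of_mul_le_mul_left ?_ h0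
  have h2 := Chebyshev.psi_le (x := t) (by linarith)
  have h3 := (xMert_fact (t := t) (by omega)).2
  have h4 : t * ∑ n ∈ Ioc 0 t, vonMangoldt n / n ≤ ∑ n ∈ Ioc 0 t, log n + Chebyshev.psi t := by
    rw [xMert_id, Chebyshev.psi, Nat.floor_natCast, ← sum_add_distrib, mul_sum]
    refine sum_le_sum fun n hn => ?_
    rw [mul_div_left_comm, ← mul_add_one]
    refine mul_le_mul_of_nonneg_left ?_ ArithmeticFunction.vonMangoldt_nonneg
    rw [← Nat.floor_div_eq_div (K := ℝ)]
    exact (Nat.lt_floor_add_one _).le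
  linarith [xMert_num h1]

theorem xMert_B {y t : ℕ} (hy : 2 ^ 20 ≤ y) (ht : y ≤ t) :
    ∑ p ∈ (Ioc y t).filter Nat.Prime, log p / p ≤ log t - log y + 1.42 := by
  have h1 := xMert_low (t := y) (by omega)
  have h2 := xMert_up (hy.trans ht)
  have h3 := sum_Ioc_consecutive (fun n : ℕ => vonMangoldt n / n) (Nat.zero_le y) ht
  have h4 : ∑ p ∈ (Ioc y t).filter Nat.Prime, log p / p ≤ ∑ n ∈ Ioc y t, vonMangoldt n / n := by
    rw [sum_filter]
    refine sum_le_sum fun n _ => ?_
    split_ifs with h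
    · rw [ArithmeticFunction.vonMangoldt_apply_prime h]
    · exact div_nonneg ArithmeticFunction.vonMangoldt_nonneg n.cast_nonneg
  linarith

theorem xMert_abel {y x : ℕ} (hy : 2 ^ 20 ≤ y) (hx : y ≤ x) :
    ∑ p ∈ (Ioc y x).filter Nat.Prime, (1 / p : ℝ) + (log x - log y + 1.42 -
      ∑ p ∈ (Ioc y x).filter Nat.Prime, log p / p) / log x ≤
        log (log x) - log (log y) + 1.42 / log y := by
  induction x, hx using Nat.le_induction with
  | base => simp
  | succ t ht ih =>
    have h0 : (1 : ℝ) < t := by exact_mod_cast (by omega : 1 < t)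
    have l0 := log_pos h0
    have l1 : log t ≤ log (t + 1) := log_le_log (by linarith) (by linarith)
    have h1 := xMert_log (l0.trans_le l1) l0
    have h2 := div_le_div_of_nonneg_left (sub_nonneg.2 (xMert_B hy ht)) l0 l1
    simp only [sum_filter] at ih h2 ⊢
    rw [sum_Ioc_succ_top ht, sum_Ioc_succ_top ht]
    push_cast
    have e : ∀ a b : ℝ, (log (t + 1) - log y + 1.42 - (a + b)) / log (t + 1) =
        (log t - log y + 1.42 - a) / log (t + 1) + (log (t + 1) - log t) / log (t + 1) -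
          b / log (t + 1) := fun a b => by ring
    rw [e]
    split_ifs
    · rw [div_right_comm, div_self (l0.trans_le l1).ne']
      linarith
    · rw [zero_div]
      linarith

theorem stMert : StMert := fun y x hy hx => by
  have h0 : (1 : ℝ) < y := by exact_mod_cast (by omega : 1 < y)
  have h1 : (1 : ℝ) < x := by exact_mod_cast (by omega : 1 < x)
  have := div_nonneg (sub_nonneg.2 (xMert_B hy hx)) (log_pos h1).le
  rw [log_div (log_pos h1).ne' (log_pos h0).ne']
  linarith [xMert_abel hy hx]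

end

end Pool.Agent.MP_88bd62_nt.U
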