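import Pool.Agent.MP_88bd62_nt.U.NSp

/-! The numerical input about products and sums over primes. -/

namespace Pool.Agent.MP_88bd62_nt.U.NS

open Finset

theorem b1 : blk 10 55 11 1099511627776 1099511627776 0 4509529780307 2189743412442
    740637757803 = true := by decide +kernel

theorem b2 : blk 120 7260 121 4509529780307 2189743412442 740637757803 17381327664313
    4296046316462 1480855100212 = true := by decide +kernel

theorem b3 : blk 1024 25448 14641 17381327664313 4296046316462 1480855100212 23220005399736
    4965437342982 1640068371744 = true := by decide +kernel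

theorem b4 : blk 1024 122880 65537 23220005399736 4965437342982 1640068371744 30192290208681
    5662055904259 1784417925188 = true := by decide +kernel

theorem b5 : blk 1024 122880 311297 30192290208681 5662055904259 1784417925188 33035971607772
    5922698748439 1833901544155 = true := by decide +kernel

theorem b6 : blk 1024 122880 557057 33035971607772 5922698748439 1833901544155 34885531541799
    6086235672586 1863849524531 = true := by decide +kernel

theorem b7 : blk 1024 122880 802817 34885531541799 6086235672586 1863849524531 36267225204406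
    6205592497932 1885203257085 = true := by decide +kernel

theorem Pr_eq {j : ℕ} (hj : 4 ≤ j) : Pr j = {3, 5, 7} ∪ PI (2 ^ j + 1) := by
  have h : 2 ^ 4 ≤ 2 ^ j := Nat.pow_le_pow_right (by norm_num) hj
  ext p
  simp only [Pr, PI, mem_filter, mem_Icc, mem_Ico, mem_union, mem_insert, mem_singleton]
  constructor
  · rintro ⟨⟨h1, h2⟩, h3⟩
    by_cases h4 : 11 ≤ p
    · exact Or.inr ⟨⟨h4, by omega⟩, h3⟩
    · left
      have : p < 11 := by omega
      interval_cases p <;> simp_all (config := {decide := true})
  · rintro ((rfl | rfl | rfl) | ⟨⟨h1, h2⟩, h3⟩)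
    · exact ⟨⟨by omega, by omega⟩, by norm_num⟩
    · exact ⟨⟨by omega, by omega⟩, by norm_num⟩
    · exact ⟨⟨by omega, by omega⟩, by norm_num⟩
    · exact ⟨⟨by omega, by omega⟩, h3⟩

theorem disj (n : ℕ) : Disjoint ({3, 5, 7} : Finset ℕ) (PI n) := by
  rw [disjoint_left]
  intro p h1 h2
  simp only [PI, mem_filter, mem_Ico, mem_insert, mem_singleton] at h1 h2
  omega

theorem numS : NumS := by
  have i3 := blk_spec (2 ^ 16 + 1) b3 (by norm_num) (blk_spec 14641 b2 (by norm_num)
    (blk_spec 121 b1 (by norm_num) inv0))
  have i7 := blk_spec (2 ^ 20 + 1) b7 (by norm_num) (blk_spec 802817 b6 (by norm_num)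
    (blk_spec 557057 b5 (by norm_num) (blk_spec 311297 b4 (by norm_num) i3)))
  refine ⟨?_, ?_, ?_⟩
  · rw [Fb, Pr_eq (by norm_num), prod_union (disj _)]
    have h := i7.1
    generalize ∏ p ∈ PI (2 ^ 20 + 1), (1 - 2 / (p : ℝ))⁻¹ = X at h
    norm_num at h ⊢
    linarith
  · have e : (Icc 11 (2 ^ 20)).filter Nat.Prime = PI (2 ^ 20 + 1) := rfl
    rw [Mz, e]
    exact i7.2.1.trans (by norm_num)
  · rw [Pr_eq (by norm_num), sum_union (disj _)]
    have h := i3.2.2
    generalize ∑ p ∈ PI (2 ^ 16 + 1), (1 / p : ℝ) = X at h
    norm_num at h ⊢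
    linarith

end Pool.Agent.MP_88bd62_nt.U.NS
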