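import Pool.Agent.MP_88bd62_nt.U.Stmts

/-! The numerical conditions on the parameters of the first stage. -/

namespace Pool.Agent.MP_88bd62_nt.U

open Finset Real

noncomputable section

theorem xP0X_exp (n : ℕ) {f : ℝ} (hf : 0 ≤ f) :
    2.718281828 ^ n * (1 + f + f ^ 2 / 2 + f ^ 3 / 6 + f ^ 4 / 24 + f ^ 5 / 120) ≤ exp (n + f) := by
  have h1 : (2.718281828 : ℝ) ^ n ≤ exp n := by
    rw [← exp_one_pow]
    exact pow_le_pow_left₀ (by norm_num) (by linarith [exp_one_gt_d9]) n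
  have h2 := sum_le_exp_of_nonneg hf 6
  simp only [sum_range_succ, range_zero, sum_empty, Nat.factorial] at h2
  norm_num at h2
  rw [exp_add]
  exact mul_le_mul h1 (by linarith) (by positivity) (exp_pos _).le

theorem xP0X_log (n : ℕ) {f x : ℝ} (hf : 0 ≤ f) (hx : 0 < x)
    (h : x ≤ 2.718281828 ^ n * (1 + f + f ^ 2 / 2 + f ^ 3 / 6 + f ^ 4 / 24 + f ^ 5 / 120)) :
    log x ≤ n + f :=
  (log_le_iff_le_exp hx).2 (h.trans (xP0X_exp n hf))

theorem xP0X_l67 : log 6.7 ≤ 1.903 := by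
  have := xP0X_log 1 (f := 0.903) (x := 6.7) (by norm_num) (by norm_num) (by norm_num)
  norm_num at this ⊢
  linarith

theorem xP0X_Kf {L a b : ℝ} (ha : log (L / 2 + 3.1) ≤ a) (hb : log (1.132 * L + 4.45) ≤ b)
    (hc : 0 ≤ 10 / 3 * a + 4 / 3 * b - 8 / 3 * 1.903) :
    Kf L ≤ (L / 4 + 1.903 - a + 0.39 / 0.999
      + (10 / 3 * a + 4 / 3 * b - 8 / 3 * 1.903 + 0.668 / 0.999) * 0.31831) / 0.999 := by
  have hπ := pi_pos
  have p1 : π⁻¹ ≤ 0.31831 := by
    rw [inv_le_comm₀ hπ (by norm_num)]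
    linarith [pi_gt_d6]
  have p2 : 0.3183 ≤ π⁻¹ := by
    rw [le_inv_comm₀ (by norm_num) hπ]
    linarith [pi_lt_d6]
  have e : Kf L = (L / 4 + log 6.7 * (1 - 8 / 3 * π⁻¹) + log (L / 2 + 3.1) * (10 / 3 * π⁻¹ - 1)
      + log (1.132 * L + 4.45) * (4 / 3 * π⁻¹) + 0.39 / 0.999 + 0.668 / 0.999 * π⁻¹) / 0.999 := by
    unfold Kf Kg al1 al2 al0
    field_simp
    ring
  rw [e]
  refine div_le_div_of_nonneg_right ?_ (by norm_num)
  have h1 := mul_le_mul_of_nonneg_right xP0X_l67 (by linarith : 0 ≤ 1 - 8 / 3 * π⁻¹)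
  have h2 := mul_le_mul_of_nonneg_right ha (by linarith : 0 ≤ 10 / 3 * π⁻¹ - 1)
  have h3 := mul_le_mul_of_nonneg_right hb (by linarith : 0 ≤ 4 / 3 * π⁻¹)
  have h4 := mul_le_mul_of_nonneg_left p1
    (by linarith : 0 ≤ 10 / 3 * a + 4 / 3 * b - 8 / 3 * 1.903 + 0.668 / 0.999)
  nlinarith

theorem xP0X_a1 : log (17.71 / 2 + 3.1) ≤ 2.482 := by
  have := xP0X_log 2 (f := 0.482) (x := 17.71 / 2 + 3.1) (by norm_num) (by norm_num) (by norm_num)
  norm_num at this ⊢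
  linarith

theorem xP0X_b1 : log (1.132 * 17.71 + 4.45) ≤ 3.199 := by
  have := xP0X_log 3 (f := 0.199) (x := 1.132 * 17.71 + 4.45) (by norm_num) (by norm_num)
    (by norm_num)
  norm_num at this ⊢
  linarith

theorem xP0X_KK : ta 1 * Kf 17.71 + ta 2 * Kf 18.4 + ta 3 * Kf 18.81 + ta 4 * Kf 19.1 ≤
    ta 1 * 13.3 := by
  have k1 := xP0X_Kf xP0X_a1 xP0X_b1 (by norm_num)
  have k2 := xP0X_Kf (L := 18.4) (a := (2 : ℕ) + 0.51) (b := (3 : ℕ) + 0.231)
    (xP0X_log 2 (by norm_num) (by norm_num) (by norm_num))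
    (xP0X_log 3 (by norm_num) (by norm_num) (by norm_num)) (by norm_num)
  have k3 := xP0X_Kf (L := 18.81) (a := (2 : ℕ) + 0.527) (b := (3 : ℕ) + 0.249)
    (xP0X_log 2 (by norm_num) (by norm_num) (by norm_num))
    (xP0X_log 3 (by norm_num) (by norm_num) (by norm_num)) (by norm_num)
  have k4 := xP0X_Kf (L := 19.1) (a := (2 : ℕ) + 0.538) (b := (3 : ℕ) + 0.261)
    (xP0X_log 2 (by norm_num) (by norm_num) (by norm_num))
    (xP0X_log 3 (by norm_num) (by norm_num) (by norm_num)) (by norm_num)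
  simp only [ta]
  norm_num at k1 k2 k3 k4 ⊢
  linarith

theorem xP0X_ht (n : ℕ) {f L y : ℝ} (hf : 0 ≤ f) (hL : L = n + f)
    (h : y ≤ 2 * 3.141592 *
      (2.718281828 ^ n * (1 + f + f ^ 2 / 2 + f ^ 3 / 6 + f ^ 4 / 24 + f ^ 5 / 120))) :
    y ≤ 2 * π * exp L := by
  rw [hL]
  exact h.trans (mul_le_mul (by linarith [pi_gt_d6]) (xP0X_exp n hf) (by positivity)
    (by positivity))

theorem xP0X_Z : ZOK par0.T par0.L par0.KK := by
  refine ⟨fun j hj => ?_, ?_⟩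
  · rw [mem_Icc] at hj
    obtain ⟨h1, h2⟩ := hj
    interval_cases j
    · exact ⟨by norm_num [Par.L, par0], xP0X_ht 17 (f := 0.71) (by norm_num)
        (by norm_num [Par.L, par0]) (by norm_num [par0])⟩
    · exact ⟨by norm_num [Par.L, par0], xP0X_ht 18 (f := 0.4) (by norm_num)
        (by norm_num [Par.L, par0]) (by norm_num [par0])⟩
    · exact ⟨by norm_num [Par.L, par0], xP0X_ht 18 (f := 0.81) (by norm_num)
        (by norm_num [Par.L, par0]) (by norm_num [par0])⟩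
    · exact ⟨by norm_num [Par.L, par0], xP0X_ht 19 (f := 0.1) (by norm_num)
        (by norm_num [Par.L, par0]) (by norm_num [par0])⟩
  · have e : Icc 1 4 = ({1, 2, 3, 4} : Finset ℕ) := by decide
    rw [e, sum_insert (by decide), sum_insert (by decide), sum_insert (by decide), sum_singleton]
    have := xP0X_KK
    show ta 1 * Kf 17.71 + (ta 2 * Kf 18.4 + (ta 3 * Kf 18.81 + ta 4 * Kf 19.1)) ≤ ta 1 * 13.3
    linarith

theorem xP0X_T : π * 2 ^ (25 + 1) / log 2 + 1 ≤ 305000000 := by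
  have h1 : π * 2 ^ (25 + 1) / log 2 ≤ 304999999 := by
    rw [div_le_iff₀ (by linarith [log_two_gt_d9])]
    have := pi_lt_d6
    have := log_two_gt_d9
    norm_num at *
    linarith
  linarith

theorem xP0X_th : (2 : ℝ) ^ (-(0.1 * 0.058 : ℝ)) ≤ 0.996 := by
  rw [rpow_neg (by norm_num), inv_le_comm₀ (by positivity) (by norm_num),
    rpow_def_of_pos (by norm_num)]
  have h1 := add_one_le_exp (log 2 * (0.1 * 0.058))
  have h2 := log_two_gt_d9
  norm_num at *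
  linarith

theorem xP0X_J : (290 : ℝ) * log (1 / (1 - 0.1)) ≤ 0.1 * 0.058 * ((7620 - 1 / 64) * log 2) := by
  have h1 := xP0X_log 0 (f := 0.1055) (x := 1 / (1 - 0.1)) (by norm_num) (by norm_num)
    (by norm_num)
  have h2 := log_two_gt_d9
  norm_num at *
  linarith

theorem xP0X_M : al0 17.71 + al1 17.71 * 0.00417 + al2 17.71 * 0.00417 ^ 2
    + 2 ^ ((20 : ℝ) * 0.00417) * (1.18 + log 5.65) + log (1 + 1 / 0.058) ≤ 9 := by
  have h1 := xP0X_a1
  have h2 := xP0X_b1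
  have h3 := xP0X_l67
  have h4 : log 5.65 ≤ (1 : ℕ) + 0.74 := xP0X_log 1 (by norm_num) (by norm_num) (by norm_num)
  have h5 : log (1 + 1 / 0.058) ≤ (2 : ℕ) + 0.92 :=
    xP0X_log 2 (by norm_num) (by norm_num) (by norm_num)
  have h6 : (2 : ℝ) ^ ((20 : ℝ) * 0.00417) ≤ 1.07 := by
    rw [rpow_def_of_pos (by norm_num)]
    have a1 := log_two_gt_d9
    have a2 := log_two_lt_d9
    calc exp (log 2 * (20 * 0.00417)) ≤ exp 0.06 := exp_le_exp.2 (by linarith)
      _ ≤ 1 / (1 - 0.06) := exp_bound_div_one_sub_of_interval (by norm_num) (by norm_num)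
      _ ≤ 1.07 := by norm_num
  have h7 : 0 ≤ log (5.65 : ℝ) := log_nonneg (by norm_num)
  have h8 : (2 : ℝ) ^ ((20 : ℝ) * 0.00417) * (1.18 + log 5.65) ≤ 1.07 * (1.18 + 1.74) :=
    mul_le_mul h6 (by push_cast at h4; linarith) (by linarith) (by norm_num)
  push_cast at h5
  unfold al1 al2 al0
  linarith

theorem xP0X_r : (0.058 / (0.058 + 0.00417) : ℝ) ^ 290 ≤ 0.00000000181 := by
  have h1 : (0.058 / (0.058 + 0.00417) : ℝ) ^ 29 ≤ 0.13355 := by norm_num
  calc (0.058 / (0.058 + 0.00417) : ℝ) ^ 290 = ((0.058 / (0.058 + 0.00417) : ℝ) ^ 29) ^ 10 := by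
        rw [← pow_mul]
    _ ≤ 0.13355 ^ 10 := pow_le_pow_left₀ (by positivity) h1 10
    _ ≤ 0.00000000181 := by norm_num

theorem xP0X_f : (0.058 * (2 * 20 * log 2) : ℝ) ^ 290 / (Nat.factorial 290 : ℕ) * (20 * log 2) ≤
    0.000000001 := by
  have a1 := log_two_gt_d9
  have a2 := log_two_lt_d9
  have h1 : (0.058 * (2 * 20 * log 2) : ℝ) ^ 290 ≤ 0.81 ^ 290 * 2 ^ 290 := by
    rw [← mul_pow]
    exact pow_le_pow_left₀ (by positivity) (by linarith) _
  have h2 : (2 : ℝ) ^ 290 / (Nat.factorial 290 : ℕ) ≤ exp 2 := pow_div_factorial_le_exp 2 (by norm_num) _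
  have h3 : exp 2 ≤ 8 := by
    have : exp 2 = exp 1 ^ 2 := by rw [exp_one_pow]; norm_num
    rw [this]
    calc exp 1 ^ 2 ≤ 2.8 ^ 2 := pow_le_pow_left₀ (exp_pos _).le (by linarith [exp_one_lt_d9]) 2
      _ ≤ 8 := by norm_num
  have h4 : (0.81 : ℝ) ^ 290 ≤ 0.000000000001 :=
    (pow_le_pow_of_le_one (by norm_num) (by norm_num) (by norm_num : 200 ≤ 290)).trans
      (by norm_num)
  have h5 : (0.058 * (2 * 20 * log 2) : ℝ) ^ 290 / (Nat.factorial 290 : ℕ) ≤
      0.000000000001 * 8 := by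
    refine (div_le_div_of_nonneg_right h1 (Nat.cast_nonneg _)).trans ?_
    rw [mul_div_assoc]
    exact mul_le_mul h4 (h2.trans h3) (by positivity) (by norm_num)
  calc _ ≤ (0.000000000001 * 8 : ℝ) * 14 := mul_le_mul h5 (by linarith) (by linarith) (by norm_num)
    _ ≤ _ := by norm_num

theorem xP0X_E : 2 * (2 * (al0 17.71 + al1 17.71 * 0.00417 + al2 17.71 * 0.00417 ^ 2
        + 2 ^ ((20 : ℝ) * 0.00417) * (1.18 + log 5.65) + log (1 + 1 / 0.058))
        * (0.058 / (0.058 + 0.00417)) ^ 290 / (1 - 0.058 / (0.058 + 0.00417))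
      + (0.058 * (2 * 20 * log 2)) ^ 290 / (Nat.factorial 290 : ℕ) * (20 * log 2))
      + 4.01 * S2 20 ≤ 0.0000019 := by
  have h1 := mul_le_mul (mul_le_mul_of_nonneg_left xP0X_M (by norm_num : (0 : ℝ) ≤ 2)) xP0X_r
    (by positivity) (by norm_num)
  have h2 := div_le_div_of_nonneg_right h1
    (by norm_num : (0 : ℝ) ≤ 1 - 0.058 / (0.058 + 0.00417))
  have h3 : (2 * 9 * 0.00000000181 / (1 - 0.058 / (0.058 + 0.00417)) : ℝ) ≤ 0.00000049 := by
    norm_num
  have h4 : S2 20 ≤ 0.000000219 := by norm_num [S2]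
  have key : ∀ a b c : ℝ, a ≤ 0.00000049 → b ≤ 0.000000001 → c ≤ 0.000000219 →
      2 * (a + b) + 4.01 * c ≤ 0.0000019 := fun a b c x1 x2 x3 => by linarith
  exact key _ _ _ (h2.trans h3) xP0X_f h4

theorem stP0X : StP0X := by
  refine ⟨by decide, by decide, by decide, by decide, by decide, by norm_num [par0],
    by norm_num [par0], by norm_num [par0], by norm_num [par0], by norm_num [par0],
    by norm_num [par0], by norm_num [par0], by norm_num [par0], by norm_num [par0],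
    by norm_num [par0], by norm_num [par0], xP0X_T, xP0X_Z, by norm_num [par0, Sbar, ta],
    xP0X_th, ?_, ?_⟩
  · have := xP0X_J
    simp only [par0, Nat.cast_ofNat]
    exact this
  · have := xP0X_E
    simp only [par0, Nat.cast_ofNat]
    exact this

end

end Pool.Agent.MP_88bd62_nt.U
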