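import Pool.Agent.MP_88bd62_nt.U.Stmts

/-! Numerical level bounds for the parameters of the second stage. -/

namespace Pool.Agent.MP_88bd62_nt.U

open Finset Real

theorem xP1L_up {a b : ℝ} (ha : 0 < a) (hb : 0 < b) : log a ≤ log b + (a / b - 1) := by
  have h := Real.log_le_sub_one_of_pos (div_pos ha hb)
  rw [Real.log_div ha.ne' hb.ne'] at h
  linarith

theorem xP1L_lo {a b : ℝ} (ha : 0 < a) (hb : 0 < b) : log b + (1 - b / a) ≤ log a := by
  have h := xP1L_up hb ha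
  linarith

theorem xP1L_sm (i j k : ℕ) :
    log ((2 : ℝ) ^ i * 3 ^ j * 5 ^ k) = i * log 2 + j * log 3 + k * log 5 := by
  rw [Real.log_mul (by positivity) (by positivity), Real.log_mul (by positivity) (by positivity),
    Real.log_pow, Real.log_pow, Real.log_pow]

theorem xP1L_rp {y : ℝ} (hy : 0 ≤ y) :
    (2 : ℝ) ^ (-y) ≤ 1 / (1 + 0.6931 * y + (0.6931 * y) ^ 2 / 2) := by
  have h2 := Real.log_two_gt_d9
  rw [Real.rpow_neg (by norm_num), Real.rpow_def_of_pos (by norm_num), one_div]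
  refine inv_anti₀ (by positivity) ?_
  refine (Real.quadratic_le_exp_of_nonneg (by positivity)).trans (Real.exp_le_exp.2 ?_)
  nlinarith

theorem xP1L_rn {y : ℝ} (n : ℕ) (hy : (n : ℝ) ≤ y) : (2 : ℝ) ^ (-y) ≤ 1 / 2 ^ n := by
  rw [one_div, ← Real.rpow_natCast, ← Real.rpow_neg (by norm_num)]
  exact Real.rpow_le_rpow_of_exponent_le (by norm_num) (by linarith)

theorem xP1L_w : (2 : ℝ) ^ (-(1 - 2 * 0.49 : ℝ)) ≤ 0.98625 := by
  refine (xP1L_rp (by norm_num)).trans ?_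
  norm_num

theorem xP1L_hi {j₀ j₁ : ℕ} {u v : ℝ} (hu : (2 : ℝ) ^ (-(0.49 * ((j₁ : ℝ) - j₀))) ≤ u)
    (hv : (2 : ℝ) ^ (-((1 - 2 * 0.49) * ((j₁ : ℝ) - j₀))) ≤ v) :
    hiB j₀ j₁ 0.49 ≤ (1 + u) ^ 2 / 2 ^ j₀ * v / (1 - 0.98625) := by
  unfold hiB
  have h1 := xP1L_w
  have h2 : (0 : ℝ) < 2 ^ (-(0.49 * ((j₁ : ℝ) - j₀))) := by positivity
  have h3 : (0 : ℝ) < 2 ^ (-((1 - 2 * 0.49) * ((j₁ : ℝ) - j₀))) := by positivity
  have h4 : 0 ≤ u := by linarith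
  have h5 : 0 ≤ v := by linarith
  gcongr

theorem xP1L_hi39 : hiB 39 56 0.49 ≤ 58.1 / 2 ^ 39 := by
  refine (xP1L_hi (u := 1 / 2 ^ 8) (v := 0.7916) (xP1L_rn 8 (by norm_num)) ?_).trans (by norm_num)
  refine (xP1L_rp (by norm_num)).trans ?_
  norm_num

theorem xP1L_hi33 : hiB 33 47 0.49 ≤ 62 / 2 ^ 33 := by
  refine (xP1L_hi (u := 1 / 2 ^ 6) (v := 0.825) (xP1L_rn 6 (by norm_num)) ?_).trans (by norm_num)
  refine (xP1L_rp (by norm_num)).trans ?_
  norm_num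

theorem xP1L_hi0 : 0 ≤ hiB 39 56 0.49 := by
  unfold hiB
  have h1 := xP1L_w
  have h2 : (0 : ℝ) < 1 - 2 ^ (-(1 - 2 * 0.49 : ℝ)) := by linarith
  positivity

theorem xP1L_eM : 0 ≤ eM 27 ∧ eM 27 ≤ 0.075876 := by
  have h2 := Real.log_two_gt_d9
  unfold eM
  refine ⟨by positivity, ?_⟩
  rw [div_le_iff₀ (by positivity)]
  push_cast
  linarith

theorem xP1L_sl {j₀ j : ℕ} {c : ℝ} (h : (j₀ : ℝ) < j) (hc : 0 ≤ c)
    (h1 : 1 ≤ c * (0.49 * ((j : ℝ) - j₀) * 0.6931471803)) :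
    0 ≤ slH j₀ 0.49 j ∧ slH j₀ 0.49 j ≤ c := by
  have h2 := Real.log_two_gt_d9
  have h3 : (0 : ℝ) < (j : ℝ) - j₀ := by linarith
  unfold slH
  refine ⟨by positivity, ?_⟩
  rw [div_le_iff₀ (by positivity)]
  refine h1.trans ?_
  gcongr

theorem xP1L_sl39 : 0 ≤ slH 39 0.49 10750 ∧ slH 39 0.49 10750 ≤ 0.00027489 :=
  xP1L_sl (by norm_num) (by norm_num) (by norm_num)

theorem xP1L_sl33 : 0 ≤ slH 33 0.49 10750 ∧ slH 33 0.49 10750 ≤ 0.00027474 :=
  xP1L_sl (by norm_num) (by norm_num) (by norm_num)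

theorem xP1L_At : 0 ≤ Atot 27 39 10750 0.49 0.9963 ∧ Atot 27 39 10750 0.49 0.9963 ≤ 6.137 := by
  have h2 := Real.log_two_lt_d9
  have h5 := Real.log_five_lt_d9
  have h1 := xP1L_eM
  have h3 := xP1L_sl39
  have e := xP1L_sm 4 0 2
  have h4 := xP1L_up (a := 10751 / 27) (b := 2 ^ 4 * 3 ^ 0 * 5 ^ 2) (by norm_num) (by norm_num)
  have h6 : 0 ≤ log (10751 / 27 : ℝ) := Real.log_nonneg (by norm_num)
  rw [e] at h4
  unfold Atot
  have e1 : (((10750 : ℕ) : ℝ) + 1) / (27 : ℕ) = 10751 / 27 := by norm_num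
  rw [e1]
  norm_num at h4 ⊢
  constructor <;> linarith [h1.1, h1.2, h3.1, h3.2]

theorem xP1L_l1 : log (61 / 54 : ℝ) ≤ 0.1219 := by
  have h2 := Real.log_two_gt_d9
  have h3 := Real.log_three_lt_d9
  have h4 := xP1L_up (a := 61 / 54) (b := 3 ^ 2 / 2 ^ 3) (by norm_num) (by norm_num)
  rw [Real.log_div (x := 3 ^ 2) (by norm_num) (by norm_num), Real.log_pow, Real.log_pow] at h4
  norm_num at h4 ⊢
  linarith

theorem xP1L_l2 : log (5 / 3 : ℝ) ≤ 0.510826 := by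
  have h3 := Real.log_three_gt_d9
  have h5 := Real.log_five_lt_d9
  rw [Real.log_div (by norm_num) (by norm_num)]
  linarith

theorem xP1L_l3 : 0 ≤ log (10711 : ℝ) ∧ log (10711 : ℝ) ≤ 9.27907 := by
  have h2 := Real.log_two_lt_d9
  have h3 := Real.log_three_lt_d9
  have h5 := Real.log_five_lt_d9
  have h4 := xP1L_up (a := 10711) (b := 2 ^ 4 * 3 ^ 3 * 5 ^ 2) (by norm_num) (by norm_num)
  rw [xP1L_sm] at h4
  refine ⟨Real.log_nonneg (by norm_num), ?_⟩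
  norm_num at h4 ⊢
  linarith

theorem xP1L_l4 : 2.772588 ≤ log (16 : ℝ) := by
  have h2 := Real.log_two_gt_d9
  rw [show (16 : ℝ) = 2 ^ 4 by norm_num, Real.log_pow]
  push_cast
  linarith

theorem xP1L_l5 : 3.295836 ≤ log (27 : ℝ) := by
  have h2 := Real.log_three_gt_d9
  rw [show (27 : ℝ) = 3 ^ 3 by norm_num, Real.log_pow]
  push_cast
  linarith

theorem xP1L_l6 : 6.44587 ≤ log (10712 / 17 : ℝ) := by
  have h5 := Real.log_five_gt_d9
  have h4 := xP1L_lo (a := 10712 / 17) (b := 5 ^ 4) (by norm_num) (by norm_num)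
  rw [Real.log_pow] at h4
  norm_num at h4 ⊢
  linarith

theorem xP1L_l7 : 0 ≤ log (10711 / 16 : ℝ) ∧ log (10711 / 16 : ℝ) ≤ 6.5065 := by
  refine ⟨Real.log_nonneg (by norm_num), ?_⟩
  rw [Real.log_div (by norm_num) (by norm_num)]
  linarith [xP1L_l3.2, xP1L_l4]

theorem xP1L_l8 : log (56 / 27 : ℝ) ≤ 0.7296 := by
  have h2 := Real.log_two_gt_d9
  have h3 := Real.log_three_gt_d9
  have h5 := Real.log_five_lt_d9
  have h4 := xP1L_up (a := 56 / 27) (b := 5 ^ 2 / (2 ^ 2 * 3)) (by norm_num) (by norm_num)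
  rw [Real.log_div (x := 5 ^ 2) (by norm_num) (by norm_num),
    Real.log_mul (by norm_num) (by norm_num), Real.log_pow, Real.log_pow] at h4
  norm_num at h4 ⊢
  linarith

theorem xP1L_l9 : log (10717 / 13 : ℝ) ≤ 6.715 := by
  have h2 := Real.log_two_lt_d9
  have h3 := Real.log_three_lt_d9
  have h5 := Real.log_five_lt_d9
  have h4 := xP1L_up (a := 10717 / 13) (b := 2 ^ 1 * 3 ^ 4 * 5 ^ 1) (by norm_num) (by norm_num)
  rw [xP1L_sm] at h4
  norm_num at h4 ⊢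
  linarith

theorem xP1L_sq : √(7 / 2 : ℝ) ≤ 1.87083 := by
  rw [Real.sqrt_le_left (by norm_num)]
  norm_num

theorem xP1L_q : qP 27 33 39 56 10750 0.49 0.9963 ≤ 45.1 := by
  have h2 := Real.log_two_lt_d9
  have h2' := Real.log_two_gt_d9
  have he := xP1L_eM
  have hs := xP1L_sl39
  have hA := xP1L_At
  unfold qP
  have e1 : (((27 : ℕ) : ℝ) + (33 : ℕ) + 1) / (2 * (27 : ℕ)) = 61 / 54 := by norm_num
  have e2 : (((33 : ℕ) : ℝ) + (56 : ℕ) + 1) / (2 * (27 : ℕ)) = 5 / 3 := by norm_num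
  have e3 : ((10750 : ℕ) : ℝ) - (39 : ℕ) = 10711 := by norm_num
  have e4 : ((56 : ℕ) : ℝ) - (39 : ℕ) = 17 := by norm_num
  have e5 : ((33 : ℕ) : ℝ) - (27 : ℕ) = 6 := by norm_num
  have e6 : ((56 : ℕ) : ℝ) - (33 : ℕ) = 23 := by norm_num
  have e7 : (17 : ℝ) - 1 = 16 := by norm_num
  have e8 : (10711 : ℝ) + 1 = 10712 := by norm_num
  have e9 : (1 : ℝ) + ((39 : ℕ) + 1) / 16 = 7 / 2 := by norm_num
  have e10 : ((27 : ℕ) : ℝ) = 27 := by norm_num
  rw [e1, e2, e3, e4, e5, e6, e7, e8, e9, e10]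
  have t1 : log 2 * (log (61 / 54) + eM 27) ≤ 0.6931471808 * (0.1219 + 0.075876) := by
    have h0 : 0 ≤ log (61 / 54 : ℝ) := Real.log_nonneg (by norm_num)
    exact mul_le_mul h2.le (add_le_add xP1L_l1 he.2) (by linarith [he.1]) (by norm_num)
  have t2 : log 2 * (log (5 / 3) + eM 27) ≤ 0.6931471808 * (0.510826 + 0.075876) := by
    have h0 : 0 ≤ log (5 / 3 : ℝ) := Real.log_nonneg (by norm_num)
    exact mul_le_mul h2.le (add_le_add xP1L_l2 he.2) (by linarith [he.1]) (by norm_num)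
  have t3 : log (10711 : ℝ) ^ 2 ≤ 9.27907 ^ 2 := pow_le_pow_left₀ xP1L_l3.1 xP1L_l3.2 2
  have t4 : (2.772588 : ℝ) ^ 2 ≤ log 16 ^ 2 := pow_le_pow_left₀ (by norm_num) xP1L_l4 2
  have t5 : (3.295836 : ℝ) * 6.44587 ≤ log 27 * log (10712 / 17) :=
    mul_le_mul xP1L_l5 xP1L_l6 (by norm_num) (by linarith [xP1L_l5])
  have t6 := xP1L_sq
  have t7 : eM 27 * log (10711 / 16) ≤ 0.075876 * 6.5065 :=
    mul_le_mul he.2 xP1L_l7.2 xP1L_l7.1 (by norm_num)
  have t8 : log 2 * slH 39 0.49 10750 * Atot 27 39 10750 0.49 0.9963 ≤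
      0.6931471808 * 0.00027489 * 6.137 :=
    mul_le_mul (mul_le_mul h2.le hs.2 hs.1 (by norm_num)) hA.2 hA.1 (by norm_num)
  have e : ∀ a b c d : ℝ, a * b * c * d = c * (a * b * d) := by intros; ring
  have e' : ∀ a b c : ℝ, a * b * c = b * (a * c) := by intros; ring
  have e'' : ∀ k a b c : ℝ, k * a * b * c = k * b * (a * c) := by intros; ring
  rw [e (log 2) (slH 39 0.49 10750), e' (log 2) 6, e'' (8 / 35) (log 2) 23]
  generalize log 2 * (log (61 / 54) + eM 27) = A1 at *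
  generalize log 2 * (log (5 / 3) + eM 27) = A2 at *
  generalize log (10711 : ℝ) ^ 2 = A3 at *
  generalize log (16 : ℝ) ^ 2 = A4 at *
  generalize log 27 * log (10712 / 17) = A5 at *
  generalize √(7 / 2 : ℝ) = A6 at *
  generalize eM 27 * log (10711 / 16) = A7 at *
  generalize log 2 * slH 39 0.49 10750 * Atot 27 39 10750 0.49 0.9963 = A8 at *
  norm_num at t1 t2 t3 t4 t5 t6 t7 t8 ⊢
  linarith

theorem xP1L_D : DP 27 33 39 56 10750 0.49 0.9963 ≤ 0.0000000042 := by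
  have he := xP1L_eM
  have hA := xP1L_At
  have t1 : hiB 39 56 0.49 * Atot 27 39 10750 0.49 0.9963 ≤ 58.1 / 2 ^ 39 * 6.137 :=
    mul_le_mul xP1L_hi39 hA.2 hA.1 (by norm_num)
  have t2 := xP1L_l8
  unfold DP S2
  have e1 : ((56 : ℕ) : ℝ) / (27 : ℕ) = 56 / 27 := by norm_num
  rw [e1]
  generalize hiB 39 56 0.49 * Atot 27 39 10750 0.49 0.9963 = A1 at *
  generalize log (56 / 27 : ℝ) = A2 at *
  have t3 := he.2
  generalize eM 27 = A3 at *
  norm_num at t1 t2 t3 ⊢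
  linarith

theorem xP1L_E : 420 * Atot 27 39 10750 0.49 0.9963 ^ 2 ≤ 16000 := by
  have hA := xP1L_At
  have h : Atot 27 39 10750 0.49 0.9963 ^ 2 ≤ 6.137 ^ 2 := pow_le_pow_left₀ hA.1 hA.2 2
  generalize Atot 27 39 10750 0.49 0.9963 ^ 2 = A at *
  norm_num at h
  linarith

theorem xP1L_a : aP 27 29 33 47 10750 0.49 0.9963 ≤ 17.7 := by
  have h2 := Real.log_two_lt_d9
  have hs := xP1L_sl33
  have t1 := xP1L_l9
  have t2 : log 2 * slH 33 0.49 10750 ≤ 0.6931471808 * 0.00027474 :=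
    mul_le_mul h2.le hs.2 hs.1 (by norm_num)
  unfold aP
  have e1 : (((10750 : ℕ) : ℝ) - (33 : ℕ)) / (((47 : ℕ) : ℝ) - (33 : ℕ) - 1) = 10717 / 13 := by
    norm_num
  rw [e1]
  generalize log 2 * slH 33 0.49 10750 = A1 at *
  generalize log (10717 / 13 : ℝ) = A2 at *
  generalize log (2 : ℝ) = A3 at *
  norm_num at t1 t2 h2 ⊢
  linarith

theorem xP1L_b : bP 27 29 33 47 0.49 ≤ 0.000000031 := by
  have t1 := xP1L_hi33
  unfold bP
  generalize hiB 33 47 0.49 = A1 at *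
  norm_num at t1 ⊢
  linarith

theorem stP1L : StP1L := by
  refine ⟨⟨?_, xP1L_q, xP1L_D, xP1L_E⟩, ?_, xP1L_a, xP1L_b, ?_, ?_⟩
  · change LOK 27 33 39 56 10750 0.49 0.9963
    refine ⟨by norm_num, by norm_num, by norm_num, by norm_num, by norm_num, by norm_num,
      by norm_num, by norm_num, by norm_num, ?_⟩
    exact (xP1L_sl (by norm_num) (by norm_num) (by norm_num)).2
  · change LOK 27 29 33 47 10750 0.49 0.9963
    refine ⟨by norm_num, by norm_num, by norm_num, by norm_num, by norm_num, by norm_num,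
      by norm_num, by norm_num, by norm_num, ?_⟩
    exact (xP1L_sl (by norm_num) (by norm_num) (by norm_num)).2
  · change (0 : ℝ) ≤ 17.7
    norm_num
  · change (0 : ℝ) ≤ 0.000000031
    norm_num

end Pool.Agent.MP_88bd62_nt.U
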