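import Pool.Agent.MP_88bd62_nt.U.Stmts

/-! Numerical inequalities of the second stage. -/

namespace Pool.Agent.MP_88bd62_nt.U

open Finset Real

noncomputable section

lemma xP1R_up (x y : ℝ) (k : ℕ) (h0 : 0 ≤ x - k) (h1 : x - k ≤ 1)
    (h : 2.7182818286 ^ k * (∑ i ∈ range 8, (x - k) ^ i / (i.factorial : ℝ)
      + (x - k) ^ 8 * ((8 : ℕ) + 1) / ((Nat.factorial 8 : ℝ) * (8 : ℕ))) ≤ y) : exp x ≤ y := by
  have e : exp x = exp 1 ^ k * exp (x - k) := by
    rw [← Real.exp_nat_mul, ← Real.exp_add]; congr 1; ring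
  have h2 := Real.exp_bound' h0 h1 (n := 8) (by norm_num)
  rw [e]
  refine le_trans ?_ h
  have := Real.exp_one_lt_d9
  gcongr

lemma xP1R_lo (x y : ℝ) (h0 : 0 ≤ x) (h : y ≤ ∑ i ∈ range 20, x ^ i / (i.factorial : ℝ)) :
    y ≤ exp x := h.trans (Real.sum_le_exp_of_nonneg h0 20)

lemma xP1R_logle (a b : ℝ) (ha : 0 < a) (h0 : 0 ≤ b)
    (h : a ≤ ∑ i ∈ range 20, b ^ i / (i.factorial : ℝ)) : log a ≤ b :=
  (Real.log_le_iff_le_exp ha).2 (xP1R_lo b a h0 h)

lemma xP1R_nlo (x y : ℝ) (hy : 0 < y) (h : exp x ≤ 1 / y) : y ≤ exp (-x) := by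
  rw [Real.exp_neg, le_inv_comm₀ hy (exp_pos x), ← one_div]; exact h

lemma xP1R_nup (x y : ℝ) (hy : 0 < y) (h : 1 / y ≤ exp x) : exp (-x) ≤ y := by
  rw [Real.exp_neg, inv_le_comm₀ (exp_pos x) hy, ← one_div]; exact h

lemma xP1R_J : Jf 19.79 ≤ 2.32 := by
  have h1 : al0 19.79 ≤ 2.5646 := xP1R_logle _ _ (by norm_num) (by norm_num)
    (by norm_num [Finset.sum_range_succ, Nat.factorial])
  have h2 : 2.5645 ≤ al0 19.79 := (Real.le_log_iff_exp_le (by norm_num)).2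
    (xP1R_up _ _ 2 (by norm_num) (by norm_num) (by norm_num [Finset.sum_range_succ, Nat.factorial]))
  have h3 : log 6.7 ≤ 1.9022 := xP1R_logle _ _ (by norm_num) (by norm_num)
    (by norm_num [Finset.sum_range_succ, Nat.factorial])
  have h4 : 1.9021 ≤ log 6.7 := (Real.le_log_iff_exp_le (by norm_num)).2
    (xP1R_up _ _ 1 (by norm_num) (by norm_num) (by norm_num [Finset.sum_range_succ, Nat.factorial]))
  have h5 : log (1.132 * 19.79 + 4.45) ≤ 3.2904 := xP1R_logle _ _ (by norm_num) (by norm_num)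
    (by norm_num [Finset.sum_range_succ, Nat.factorial])
  have h6 : al1 19.79 ≤ 8.5704 := by unfold al1; linarith
  have h7 : al2 19.79 ≤ 2.0508 := by unfold al2; linarith
  have p1 := Real.pi_gt_d6
  have p2 := Real.pi_lt_d6
  unfold Jf Jg
  rw [div_le_iff₀ (by positivity)]
  have k1 : al0 19.79 * (π - 2) ≤ 2.5646 * (π - 2) := by gcongr; linarith
  have k2 : al1 19.79 * (2 - π / 2) ≤ 8.5704 * (2 - π / 2) := by gcongr; linarith
  have k3 : al2 19.79 * (π / 2 - 4 / 3) ≤ 2.0508 * (π / 2 - 4 / 3) := by gcongr; linarith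
  have k4 : (al0 19.79 + 0.2) * (π + 2) ≤ (2.5646 + 0.2) * (π + 2) := by gcongr
  linarith

lemma xP1R_lv : lvG (log ((1 / 0.0134 + 1) / 1.6)) (Sbar 14.38 0.0134) (Jf 19.79) 0.0134 0.00385
    ≤ 5.546 := by
  have h1 : log ((1 / 0.0134 + 1) / 1.6) ≤ 3.8559 := xP1R_logle _ _ (by norm_num) (by norm_num)
    (by norm_num [Finset.sum_range_succ, Nat.factorial])
  have h2 : log (1 + 0.0134 / 0.00385) ≤ 1.4998 := xP1R_logle _ _ (by norm_num) (by norm_num)
    (by norm_num [Finset.sum_range_succ, Nat.factorial])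
  have h3 := xP1R_J
  unfold lvG Sbar ta
  generalize log ((1 / 0.0134 + 1) / 1.6 : ℝ) = l at *
  generalize log (1 + 0.0134 / 0.00385 : ℝ) = m at *
  generalize Jf 19.79 = J at *
  norm_num at *
  linarith

lemma xP1R_W : WOK (2 ^ 25) (2 ^ 28) 1.501 1 11.4 0.047 0.19 := by
  have e : (((2 ^ 28 : ℕ) : ℝ) / ((2 ^ 25 : ℕ) : ℝ)) = 8 := by norm_num
  have h1 : 0.9691 ≤ exp (-(0.047 * (1 / 1.501))) := xP1R_nlo _ _ (by norm_num)
    (xP1R_up _ _ 0 (by norm_num) (by norm_num) (by norm_num [Finset.sum_range_succ, Nat.factorial]))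
  have h2 : exp (-(0.19 * (1 / 1.501))) ≤ 0.8812 := xP1R_nup _ _ (by norm_num)
    (xP1R_lo _ _ (by norm_num) (by norm_num [Finset.sum_range_succ, Nat.factorial]))
  have h3 : 0.68 ≤ exp (-(0.047 * 8)) := xP1R_nlo _ _ (by norm_num)
    (xP1R_up _ _ 0 (by norm_num) (by norm_num) (by norm_num [Finset.sum_range_succ, Nat.factorial]))
  have h4 : exp (-(0.19 * 8)) ≤ 0.22 := xP1R_nup _ _ (by norm_num)
    (xP1R_lo _ _ (by norm_num) (by norm_num [Finset.sum_range_succ, Nat.factorial]))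
  unfold WOK
  rw [e]
  refine ⟨by norm_num, by norm_num, by norm_num, by norm_num, by norm_num, by norm_num,
    by norm_num, by linarith, by linarith⟩

lemma xP1R_Wc : Wc (2 ^ 25) 45.1 0.0000000042 16000 11.4 0.047 0.19 ≤ 0.00000037003 := by
  have h1 : log (0.19 / 0.047) ≤ 1.397 := xP1R_logle _ _ (by norm_num) (by norm_num)
    (by norm_num [Finset.sum_range_succ, Nat.factorial])
  have p1 := Real.pi_gt_d6
  unfold Wc
  generalize log (0.19 / 0.047 : ℝ) = l at *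
  rw [div_mul_eq_mul_div, div_le_iff₀ (by positivity)]
  norm_num at *
  linarith

lemma xP1R_R : ROK par1 0.00437 := by
  have l2 := Real.log_two_lt_d9
  have p1 := Real.pi_gt_d6
  refine ⟨by norm_num [par1], by norm_num [par1], by norm_num [par1], by norm_num [par1],
    by norm_num [par1], ?_, ?_, by norm_num [par1], xP1R_W, ?_⟩
  · show 2.35 * (4 / 9) * exp (2 * lvG (log ((1 / 0.0134 + 1) / 1.6)) (Sbar 14.38 0.0134)
      (Jf 19.79) 0.0134 0.00385) ≤ (68900 : ℝ)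
    have h1 := xP1R_lv
    have h2 : exp 11.092 ≤ 65900 := xP1R_up _ _ 11 (by norm_num) (by norm_num)
      (by norm_num [Finset.sum_range_succ, Nat.factorial])
    have h3 := Real.exp_le_exp.2 (show 2 * lvG (log ((1 / 0.0134 + 1) / 1.6)) (Sbar 14.38 0.0134)
      (Jf 19.79) 0.0134 0.00385 ≤ 11.092 by linarith)
    linarith
  · show (518 : ℝ) * (exp (2 * 2.48) - 1 - 2 * 2.48) ≤ 11750 * 2.48 ^ 2
    have h2 : exp (2 * 2.48) ≤ 143 := xP1R_up _ _ 4 (by norm_num) (by norm_num)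
      (by norm_num [Finset.sum_range_succ, Nat.factorial])
    norm_num at *
    linarith
  · show 2.02 * 518 * 0.00000001 * ((1.501 + (((28 : ℕ) : ℝ) - (25 : ℕ)) * log 2) / π)
      + (11750 + 1.01 * 0.00000001 * (518 + 11750))
        * Wc (2 ^ 25) 45.1 0.0000000042 16000 11.4 0.047 0.19 ≤ (0.00437 : ℝ)
    have h1 := xP1R_Wc
    have h2 : (1.501 + (((28 : ℕ) : ℝ) - (25 : ℕ)) * log 2) / π ≤ 1.2 := by
      rw [div_le_iff₀ (by positivity)]
      norm_num at *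
      linarith
    generalize (1.501 + (((28 : ℕ) : ℝ) - (25 : ℕ)) * log 2) / π = t at *
    generalize Wc (2 ^ 25) 45.1 0.0000000042 16000 11.4 0.047 0.19 = w at *
    norm_num at *
    linarith

lemma xP1R_H : HOK par1 20 0.00033 := by
  have l2 := Real.log_two_lt_d9
  have l1 := Real.log_two_gt_d9
  have a1 : aHy (2 * 20) 31 ≤ 82.6 := by
    unfold aHy; push_cast; nlinarith
  have a2 : aHy 30 31 ≤ 110 := by
    unfold aHy; push_cast; nlinarith
  have a3 : aGr 27 8.5 ≤ 648.1 := by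
    unfold aGr; push_cast; nlinarith
  have s1 : √((2 : ℝ) ^ (2 * 20)) = 2 ^ 20 := by
    rw [show (2 : ℝ) ^ (2 * 20) = (2 ^ 20) ^ 2 by norm_num, Real.sqrt_sq (by positivity)]
  have s2 : √((2 : ℝ) ^ 30) = 2 ^ 15 := by
    rw [show (2 : ℝ) ^ 30 = (2 ^ 15) ^ 2 by norm_num, Real.sqrt_sq (by positivity)]
  have hA : AG par1 20 ≤ 23650 := by
    show 7.259 * (aHy (2 * 20) 31 + aGr 27 8.5) + 7.35 * S2 20 * (272 + aHy 30 31 + aGr 27 8.5)
      + 2 * 518 * 17.7 ≤ (23650 : ℝ)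
    generalize aHy (2 * 20) 31 = u at *
    generalize aHy 30 31 = v at *
    generalize aGr 27 8.5 = w at *
    unfold S2
    norm_num at *
    linarith
  have hB : BG par1 20 ≤ 0.00005 := by
    show 7.259 * (bHy (2 * 20) + bGr 31 8.5) + 7.35 * S2 20 * (2.100122 + bHy 30 + bGr 31 8.5)
      + 2 * 518 * 0.000000031 ≤ (0.00005 : ℝ)
    unfold bHy bGr S2
    rw [s1, s2]
    norm_num
  refine ⟨by norm_num, by norm_num [par1], by norm_num [par1], by norm_num [par1],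
    by norm_num [par1], ?_⟩
  show hpCost (2 ^ 25) 0 (AG par1 20) (BG par1 20) 0 ≤ 0.00033
  unfold hpCost
  generalize AG par1 20 = A at *
  generalize BG par1 20 = B at *
  norm_num at *
  linarith

theorem stP1R : StP1R := ⟨xP1R_R, xP1R_H⟩

end

end Pool.Agent.MP_88bd62_nt.U
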