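import Pool.Agent.MP_88bd62_nt.U.Stmts

/-! The numerical conditions on the approximant of stage one. -/

namespace Pool.Agent.MP_88bd62_nt.U

open Finset Real

theorem xP1X_log_le {a b : ℝ} (n : ℕ) (ha : 0 < a) (hb : 0 ≤ b)
    (h : a ≤ ∑ i ∈ range n, b ^ i / i.factorial) : log a ≤ b :=
  (log_le_iff_le_exp ha).2 (h.trans (Real.sum_le_exp_of_nonneg hb n))

theorem xP1X_exp_le {x y b : ℝ} (hxy : x ≤ y) (h0 : 0 ≤ y) (h1 : y ≤ 1)
    (h : ∑ i ∈ range 6, y ^ i / i.factorial + y ^ 6 * 7 / (720 * 6) ≤ b) : exp x ≤ b := by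
  have h2 := Real.exp_bound' h0 h1 (n := 6) (by norm_num)
  refine (exp_le_exp.2 hxy).trans (h2.trans (le_trans (le_of_eq ?_) h))
  norm_num [Nat.factorial]

theorem xP1X_l67 : log 6.7 ≤ 1.9022 :=
  xP1X_log_le 14 (by norm_num) (by norm_num) (by norm_num [sum_range_succ, Nat.factorial])

theorem xP1X_Kf {L A C B : ℝ} (hL : 0 ≤ L) (hA : log (L / 2 + 3.1) ≤ A)
    (hC : log (1.132 * L + 4.45) ≤ C)
    (hB : (A * 0.061034 + 1.9022 * 0.151177 + 4 / 3 * C * 0.31831 + L / 4 + 0.39 / 0.999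
      + 0.668 / 0.999 * 0.31831) / 0.999 ≤ B) : Kf L ≤ B := by
  refine le_trans ?_ hB
  have hp := pi_pos
  have hw1 : π⁻¹ ≤ 0.31831 := by
    rw [inv_le_comm₀ hp (by norm_num)]
    exact le_trans (by norm_num) pi_gt_d6.le
  have hw2 : 0.318309 ≤ π⁻¹ := by
    rw [le_inv_comm₀ (by norm_num) hp]
    exact le_trans pi_lt_d6.le (by norm_num)
  have hA0 : 0 ≤ log (L / 2 + 3.1) := log_nonneg (by linarith)
  have hC0 : 0 ≤ log (1.132 * L + 4.45) := log_nonneg (by linarith)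
  have hl0 : 0 ≤ log (6.7 : ℝ) := log_nonneg (by norm_num)
  have hl := xP1X_l67
  have e : Kf L = (log (L / 2 + 3.1) * (10 / 3 * π⁻¹ - 1) + log 6.7 * (1 - 8 / 3 * π⁻¹)
      + 4 / 3 * (log (1.132 * L + 4.45) * π⁻¹) + L / 4 + 0.39 / 0.999
      + 0.668 / 0.999 * π⁻¹) / 0.999 := by
    simp only [Kf, Kg, al0, al1, al2]
    field_simp
    ring
  rw [e]
  have h1 : log (L / 2 + 3.1) * (10 / 3 * π⁻¹ - 1) ≤ A * 0.061034 :=
    mul_le_mul hA (by linarith) (by linarith) (by linarith)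
  have h2 : log 6.7 * (1 - 8 / 3 * π⁻¹) ≤ 1.9022 * 0.151177 :=
    mul_le_mul hl (by linarith) (by linarith) (by norm_num)
  have h3 : log (1.132 * L + 4.45) * π⁻¹ ≤ C * 0.31831 :=
    mul_le_mul hC hw1 (by linarith) (by linarith)
  refine div_le_div_of_nonneg_right ?_ (by norm_num)
  linarith

theorem xP1X_a1 : log ((19.79 : ℝ) / 2 + 3.1) ≤ 2.565 :=
  xP1X_log_le 16 (by norm_num) (by norm_num) (by norm_num [sum_range_succ, Nat.factorial])

theorem xP1X_c1 : log (1.132 * (19.79 : ℝ) + 4.45) ≤ 3.291 :=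
  xP1X_log_le 16 (by norm_num) (by norm_num) (by norm_num [sum_range_succ, Nat.factorial])

theorem xP1X_K1 : Kf 19.79 ≤ 7.4 := xP1X_Kf (by norm_num) xP1X_a1 xP1X_c1 (by norm_num)

theorem xP1X_K2 : Kf 20.48 ≤ 7.587 :=
  xP1X_Kf (A := 2.591) (C := 3.32) (by norm_num)
    (xP1X_log_le 16 (by norm_num) (by norm_num) (by norm_num [sum_range_succ, Nat.factorial]))
    (xP1X_log_le 16 (by norm_num) (by norm_num) (by norm_num [sum_range_succ, Nat.factorial]))
    (by norm_num)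

theorem xP1X_K3 : Kf 20.89 ≤ 7.697 :=
  xP1X_Kf (A := 2.607) (C := 3.3365) (by norm_num)
    (xP1X_log_le 16 (by norm_num) (by norm_num) (by norm_num [sum_range_succ, Nat.factorial]))
    (xP1X_log_le 16 (by norm_num) (by norm_num) (by norm_num [sum_range_succ, Nat.factorial]))
    (by norm_num)

theorem xP1X_K4 : Kf 21.18 ≤ 7.776 :=
  xP1X_Kf (A := 2.617) (C := 3.348) (by norm_num)
    (xP1X_log_le 16 (by norm_num) (by norm_num) (by norm_num [sum_range_succ, Nat.factorial]))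
    (xP1X_log_le 16 (by norm_num) (by norm_num) (by norm_num [sum_range_succ, Nat.factorial]))
    (by norm_num)

theorem xP1X_height {a L : ℝ} (hL : 0 ≤ L)
    (h : a ≤ 2 * 3.141592 * (∑ i ∈ range 14, (L / 8) ^ i / i.factorial) ^ 8) :
    a ≤ 2 * π * exp L := by
  have h1 := Real.sum_le_exp_of_nonneg (x := L / 8) (by linarith) 14
  have h0 : 0 ≤ ∑ i ∈ range 14, (L / 8) ^ i / i.factorial := sum_nonneg fun i _ => by positivity
  have h2 : exp L = exp (L / 8) ^ 8 := by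
    rw [← exp_nat_mul]; congr 1; push_cast; ring
  refine h.trans ?_
  rw [h2]
  have := pi_gt_d6
  exact mul_le_mul (by linarith) (pow_le_pow_left₀ h0 h1 8) (by positivity) (by linarith)

theorem xP1X_ZOK : ZOK par1.T par1.L par1.KK := by
  constructor
  · intro j hj
    rw [mem_Icc] at hj
    obtain ⟨h1, h4⟩ := hj
    interval_cases j <;> simp only [Par.L, par1] <;>
      exact ⟨by norm_num, xP1X_height (by norm_num) (by norm_num [sum_range_succ, Nat.factorial])⟩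
  · have e : Icc 1 4 = ({1, 2, 3, 4} : Finset ℕ) := by decide
    rw [e, sum_insert (by decide), sum_insert (by decide), sum_insert (by decide), sum_singleton]
    simp only [Par.L, par1, ta]
    linarith [xP1X_K1, xP1X_K2, xP1X_K3, xP1X_K4]

theorem xP1X_T : π * 2 ^ (28 + 1) / log 2 + 1 ≤ (2440000000 : ℝ) := by
  have h1 := pi_lt_d6
  have h2 := log_two_gt_d9
  have : π * 2 ^ (28 + 1) / log 2 ≤ 2439999999 := by
    rw [div_le_iff₀ (by linarith), show (2 : ℝ) ^ (28 + 1) = 536870912 by norm_num]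
    linarith
  linarith

theorem xP1X_theta : (2 : ℝ) ^ (-((0.1 : ℝ) * 0.054)) ≤ 0.9963 := by
  have h2 := log_two_gt_d9
  rw [rpow_def_of_pos (by norm_num), mul_neg, exp_neg, inv_le_comm₀ (exp_pos _) (by norm_num)]
  have := add_one_le_exp (log 2 * (0.1 * 0.054))
  have h3 : (0.9963 : ℝ)⁻¹ ≤ 1.003714 := by norm_num
  linarith

theorem xP1X_J : ((380 : ℕ) : ℝ) * log (1 / (1 - 0.1)) ≤
    0.1 * 0.054 * ((((10750 : ℕ) : ℝ) - 1 / 64) * log 2) := by
  have h2 := log_two_gt_d9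
  have h1 : log (1 / (1 - 0.1) : ℝ) ≤ 0.1058 :=
    xP1X_log_le 4 (by norm_num) (by norm_num) (by norm_num [sum_range_succ, Nat.factorial])
  push_cast
  linarith

theorem xP1X_eps : 2 * (2 * (al0 19.79 + al1 19.79 * 0.00385 + al2 19.79 * 0.00385 ^ 2
        + 2 ^ (((27 : ℕ) : ℝ) * 0.00385) * (1.18 + log 8.5) + log (1 + 1 / 0.054))
        * (0.054 / (0.054 + 0.00385)) ^ 380 / (1 - 0.054 / (0.054 + 0.00385))
      + (0.054 * (2 * ((27 : ℕ) : ℝ) * log 2)) ^ 380 / (Nat.factorial 380 : ℝ)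
        * (((27 : ℕ) : ℝ) * log 2)) + 4.01 * S2 27 ≤ (0.00000001 : ℝ) := by
  have h2 := log_two_gt_d9
  have h2' := log_two_lt_d9
  have hA := xP1X_a1
  have hC := xP1X_c1
  have hl := xP1X_l67
  have hA0 : 0 ≤ log ((19.79 : ℝ) / 2 + 3.1) := log_nonneg (by norm_num)
  have hl0 : 0 ≤ log (6.7 : ℝ) := log_nonneg (by norm_num)
  have hM : log (8.5 : ℝ) ≤ 2.2 :=
    xP1X_log_le 8 (by norm_num) (by norm_num) (by norm_num [sum_range_succ, Nat.factorial])
  have hM0 : 0 ≤ log (8.5 : ℝ) := log_nonneg (by norm_num)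
  have hx : log (1 + 1 / 0.054 : ℝ) ≤ 3.1 :=
    xP1X_log_le 8 (by norm_num) (by norm_num) (by norm_num [sum_range_succ, Nat.factorial])
  have hp : (2 : ℝ) ^ (((27 : ℕ) : ℝ) * 0.00385) ≤ 1.1 := by
    rw [rpow_def_of_pos (by norm_num)]
    refine xP1X_exp_le (y := 0.08) ?_ (by norm_num) (by norm_num)
      (by norm_num [sum_range_succ, Nat.factorial])
    push_cast
    linarith
  have hpm : (2 : ℝ) ^ (((27 : ℕ) : ℝ) * 0.00385) * (1.18 + log 8.5) ≤ 1.1 * 3.38 :=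
    mul_le_mul hp (by linarith) (by linarith) (by norm_num)
  have ht : 2 * (al0 19.79 + al1 19.79 * 0.00385 + al2 19.79 * 0.00385 ^ 2
      + 2 ^ (((27 : ℕ) : ℝ) * 0.00385) * (1.18 + log 8.5) + log (1 + 1 / 0.054)) ≤ 19 := by
    simp only [al0, al1, al2]
    linarith
  have hr : ((0.054 : ℝ) / (0.054 + 0.00385)) ^ 380 ≤ 4.4 / 10 ^ 12 := by
    have e : ((0.054 : ℝ) / (0.054 + 0.00385)) ^ 380 = ((0.054 / (0.054 + 0.00385)) ^ 20) ^ 19 := by
      rw [← pow_mul]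
    rw [e]
    exact (pow_le_pow_left₀ (by positivity) (b := 0.2523) (by norm_num) 19).trans (by norm_num)
  have hf : (0.054 * (2 * ((27 : ℕ) : ℝ) * log 2)) ^ 380 / (Nat.factorial 380 : ℝ) ≤
      1 / 10 ^ 19 := by
    set y : ℝ := 0.054 * (2 * ((27 : ℕ) : ℝ) * log 2) with hy
    have hy0 : 0 ≤ y := by rw [hy]; positivity
    have hy1 : 10 * y ≤ ((21 : ℕ) : ℝ) * 1 := by rw [hy]; push_cast; linarith
    have h3 := Real.pow_div_factorial_le_exp (10 * y) (by positivity) 380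
    have h4 : exp (10 * y) ≤ 10 ^ 11 := by
      refine (exp_le_exp.2 hy1).trans ?_
      rw [exp_nat_mul]
      exact (pow_le_pow_left₀ (exp_pos _).le (b := 3) (by linarith [exp_one_lt_d9]) 21).trans
        (by norm_num)
    have h5 : (10 : ℝ) ^ 30 ≤ 10 ^ 380 := pow_le_pow_right₀ (by norm_num) (by norm_num)
    rw [mul_pow, mul_div_assoc] at h3
    have h6 : 0 ≤ y ^ 380 / (Nat.factorial 380 : ℝ) := by positivity
    have h7 := mul_le_mul_of_nonneg_right h5 h6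
    generalize y ^ 380 / (Nat.factorial 380 : ℝ) = z at *
    generalize (10 : ℝ) ^ 380 * z = w at *
    linarith
  have hb := mul_le_mul ht hr (by positivity) (by norm_num)
  have hc : (0.054 * (2 * ((27 : ℕ) : ℝ) * log 2)) ^ 380 / (Nat.factorial 380 : ℝ)
      * (((27 : ℕ) : ℝ) * log 2) ≤ 1 / 10 ^ 19 * 19 :=
    mul_le_mul hf (by push_cast; linarith) (by positivity) (by norm_num)
  have hd := div_le_div_of_nonneg_right hb (c := 1 - 0.054 / (0.054 + 0.00385)) (by norm_num)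
  have hs : S2 27 ≤ 1.71 / 10 ^ 9 := by norm_num [S2]
  have he : (19 : ℝ) * (4.4 / 10 ^ 12) / (1 - 0.054 / (0.054 + 0.00385)) ≤ 1.3 / 10 ^ 9 := by
    norm_num
  have hd' := hd.trans he
  exact le_trans (add_le_add (mul_le_mul_of_nonneg_left (add_le_add hd' hc) (by norm_num))
    (mul_le_mul_of_nonneg_left hs (by norm_num))) (by norm_num)

theorem xP1X_G : GOK par1 := by
  have h2 := log_two_gt_d9
  have h1 : log ((((27 : ℕ) : ℝ)) / 20) ≤ 0.3002 :=
    xP1X_log_le 6 (by norm_num) (by norm_num) (by norm_num [sum_range_succ, Nat.factorial])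
  have h3 : eM 20 ≤ 0.1025 := by
    rw [eM, div_le_iff₀ (by push_cast; linarith)]
    push_cast
    linarith
  constructor
  · have := xP1X_exp_le (x := 2.0001 * (log ((((27 : ℕ) : ℝ)) / 20) + eM 20)) (y := 0.8055)
      (b := 2.242) (by linarith) (by norm_num) (by norm_num)
      (by norm_num [sum_range_succ, Nat.factorial])
    simp only [par1]
    linarith
  · have := xP1X_exp_le (x := 1.0001 * (log ((((27 : ℕ) : ℝ)) / 20) + eM 20)) (y := 0.403)
      (b := 1.5) (by linarith) (by norm_num) (by norm_num)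
      (by norm_num [sum_range_succ, Nat.factorial])
    simp only [par1]
    linarith

theorem stP1X : StP1X := by
  refine ⟨⟨?_, ?_, ?_, ?_, ?_, ?_, ?_, ?_, ?_, ?_, ?_, ?_, ?_, ?_, ?_, ?_, xP1X_T, xP1X_ZOK, ?_,
    xP1X_theta, xP1X_J, xP1X_eps⟩, xP1X_G⟩ <;> norm_num [par1, Sbar, ta]

end Pool.Agent.MP_88bd62_nt.U
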