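import Pool.Agent.MP_88bd62_nt.U.Stmts

/-! Level sums of the third stage. -/

namespace Pool.Agent.MP_88bd62_nt.U

open Finset Real

/-- A truncated exponential series. -/
noncomputable def xP2L_e (t : ℝ) : ℝ :=
  1 + t + t ^ 2 / 2 + t ^ 3 / 6 + t ^ 4 / 24 + t ^ 5 / 120 + t ^ 6 / 720

lemma xP2L_sum (t : ℝ) : ∑ i ∈ range 7, t ^ i / i.factorial = xP2L_e t := by
  simp only [sum_range_succ, sum_range_zero, Nat.factorial, xP2L_e]
  push_cast
  ring

lemma xP2L_le {t : ℝ} (ht : 0 ≤ t) : xP2L_e t ≤ exp t :=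
  xP2L_sum t ▸ Real.sum_le_exp_of_nonneg ht 7

lemma xP2L_ge {t : ℝ} (ht : 0 ≤ t) (h1 : t ≤ 1) : exp t ≤ xP2L_e t + t ^ 7 / 4410 := by
  have h := Real.exp_bound' ht h1 (n := 7) (by norm_num)
  rw [xP2L_sum] at h
  refine h.trans_eq ?_
  simp only [Nat.factorial]
  push_cast
  ring

lemma xP2L_up (k : ℕ) (t : ℝ) {x b : ℝ} (hx : 0 < x) (ht : 0 ≤ t) (h : x ≤ 2 ^ k * xP2L_e t)
    (hb : k * 0.6931471808 + t ≤ b) : log x ≤ b := by
  have h1 : log x ≤ log (2 ^ k * exp t) :=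
    log_le_log hx (h.trans (mul_le_mul_of_nonneg_left (xP2L_le ht) (by positivity)))
  rw [log_mul (by positivity) (exp_pos t).ne', log_pow, log_exp] at h1
  have h2 := mul_le_mul_of_nonneg_left log_two_lt_d9.le (Nat.cast_nonneg (α := ℝ) k)
  linarith

lemma xP2L_lo (k : ℕ) (t : ℝ) {x b : ℝ} (ht : 0 ≤ t) (ht1 : t ≤ 1)
    (h : 2 ^ k * (xP2L_e t + t ^ 7 / 4410) ≤ x) (hb : b ≤ k * 0.6931471803 + t) : b ≤ log x := by
  have h1 : log (2 ^ k * exp t) ≤ log x :=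
    log_le_log (by positivity) ((mul_le_mul_of_nonneg_left (xP2L_ge ht ht1) (by positivity)).trans h)
  rw [log_mul (by positivity) (exp_pos t).ne', log_pow, log_exp] at h1
  have h2 := mul_le_mul_of_nonneg_left log_two_gt_d9.le (Nat.cast_nonneg (α := ℝ) k)
  linarith

lemma xP2L_pw {y b : ℝ} (hy : 0 ≤ y) (h : 1 ≤ b * xP2L_e (0.6931 * y)) (hb : 0 ≤ b) :
    (2 : ℝ) ^ (-y) ≤ b := by
  have h1 : 0.6931 * y ≤ log 2 * y :=
    mul_le_mul_of_nonneg_right (by linarith [log_two_gt_d9]) hy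
  have h2 := (xP2L_le (by positivity)).trans (exp_le_exp.2 h1)
  rw [rpow_def_of_pos two_pos, mul_neg, exp_neg, inv_le_iff_one_le_mul₀ (exp_pos _)]
  exact h.trans (mul_le_mul_of_nonneg_left h2 hb)

lemma xP2L_inv {c d b : ℝ} (hc : 0 ≤ c) (hd : 0 < d) (h : c / (d * 0.6931) ≤ b) :
    c / (d * log 2) ≤ b := by
  refine le_trans (div_le_div_of_nonneg_left hc (by positivity) ?_) h
  exact mul_le_mul_of_nonneg_left (by linarith [log_two_gt_d9]) hd.le

lemma xP2L_eM : 0 ≤ eM 30 ∧ eM 30 ≤ 0.0683 := by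
  have := log_two_gt_d9
  exact ⟨by unfold eM; positivity, xP2L_inv (by norm_num) (by norm_num) (by norm_num)⟩

lemma xP2L_sl {j₀ j : ℕ} {b : ℝ} (h0 : (j₀ : ℝ) < j)
    (h : 1 / (0.49 * ((j : ℝ) - j₀) * 0.6931) ≤ b) : 0 ≤ slH j₀ 0.49 j ∧ slH j₀ 0.49 j ≤ b := by
  have := log_two_gt_d9
  have := sub_pos.2 h0
  exact ⟨by unfold slH; positivity, xP2L_inv (by norm_num) (by positivity) h⟩

lemma xP2L_A : 0 ≤ Atot 30 43 15400 0.49 0.998 ∧ Atot 30 43 15400 0.49 0.998 ≤ 6.41 := by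
  obtain ⟨h1, h2⟩ := xP2L_eM
  obtain ⟨h3, h4⟩ := xP2L_sl (j₀ := 43) (j := 15400) (b := 0.000192) (by norm_num) (by norm_num)
  have h5 : log (15401 / 30) ≤ 6.2411 :=
    xP2L_up 9 0.0027 (by norm_num) (by norm_num) (by norm_num [xP2L_e]) (by norm_num)
  have h6 : 0 ≤ log (15401 / 30) := log_nonneg (by norm_num)
  have e : Atot 30 43 15400 0.49 0.998 =
      log (15401 / 30) + eM 30 + (slH 43 0.49 15400 + 4 / 2 ^ 43) * 499 := by
    unfold Atot
    norm_num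
  rw [e]
  constructor
  · positivity
  · linarith

lemma xP2L_hi {j₀ j₁ : ℕ} (a b : ℝ) {c : ℝ} (h0 : (j₀ : ℝ) ≤ j₁) (ha : 0 ≤ a) (hb : 0 ≤ b)
    (h1 : 1 ≤ a * xP2L_e (0.6931 * (0.49 * ((j₁ : ℝ) - j₀))))
    (h2 : 1 ≤ b * xP2L_e (0.6931 * ((1 - 2 * 0.49) * ((j₁ : ℝ) - j₀))))
    (h3 : (1 + a) ^ 2 / 2 ^ j₀ * b / 0.0136 ≤ c) : hiB j₀ j₁ 0.49 ≤ c := by
  have h4 := sub_nonneg.2 h0
  have h5 := xP2L_pw (by positivity) h1 ha
  have h6 := xP2L_pw (mul_nonneg (by norm_num) h4) h2 hb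
  have h7 : (2 : ℝ) ^ (-(1 - 2 * 0.49 : ℝ)) ≤ 0.9864 :=
    xP2L_pw (by norm_num) (by norm_num [xP2L_e]) (by norm_num)
  refine le_trans ?_ h3
  unfold hiB
  refine div_le_div₀ (by positivity) ?_ (by norm_num) (by linarith)
  gcongr

lemma xP2L_q : qP 30 37 43 61 15400 0.49 0.998 ≤ 48.6 := by
  obtain ⟨h1, h2⟩ := xP2L_eM
  obtain ⟨h3, h4⟩ := xP2L_sl (j₀ := 43) (j := 15400) (b := 0.000192) (by norm_num) (by norm_num)
  obtain ⟨h5, h6⟩ := xP2L_A
  have l0 := log_two_gt_d9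
  have l1 : log 2 ≤ 0.6932 := by linarith [log_two_lt_d9]
  have a1 : log (17 / 15) ≤ 0.1252 :=
    xP2L_up 0 0.1252 (by norm_num) (by norm_num) (by norm_num [xP2L_e]) (by norm_num)
  have a2 : log (33 / 20) ≤ 0.5009 :=
    xP2L_up 0 0.5009 (by norm_num) (by norm_num) (by norm_num [xP2L_e]) (by norm_num)
  have a3 : log 15357 ≤ 9.6395 :=
    xP2L_up 13 0.6285 (by norm_num) (by norm_num) (by norm_num [xP2L_e]) (by norm_num)
  have a4 : 2.8331 ≤ log 17 :=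
    xP2L_lo 4 0.0606 (by norm_num) (by norm_num) (by norm_num [xP2L_e]) (by norm_num)
  have a5 : 3.4011 ≤ log 30 :=
    xP2L_lo 4 0.6286 (by norm_num) (by norm_num) (by norm_num [xP2L_e]) (by norm_num)
  have a6 : 6.7489 ≤ log (7679 / 9) :=
    xP2L_lo 9 0.5106 (by norm_num) (by norm_num) (by norm_num [xP2L_e]) (by norm_num)
  have a7 : log (15357 / 17) ≤ 6.8063 :=
    xP2L_up 9 0.5679 (by norm_num) (by norm_num) (by norm_num [xP2L_e]) (by norm_num)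
  have a8 : √(61 / 17) ≤ 1.8943 := sqrt_le_iff.2 ⟨by norm_num, by norm_num⟩
  have b1 : 0 ≤ log (17 / 15) := log_nonneg (by norm_num)
  have b2 : 0 ≤ log (33 / 20) := log_nonneg (by norm_num)
  have b3 : 0 ≤ log 15357 := log_nonneg (by norm_num)
  have b7 : 0 ≤ log (15357 / 17) := log_nonneg (by norm_num)
  have e : qP 30 37 43 61 15400 0.49 0.998 = 1.011 * (7 * (log 2 * (log (17 / 15) + eM 30))
      + 192 / 35 * (log 2 * (log (33 / 20) + eM 30))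
      + 100 / 49 * ((log 15357 ^ 2 - log 17 ^ 2) / 2 - log 30 * log (7679 / 9)
        + 2 * (√(61 / 17) - 1) + eM 30 * log (15357 / 17))
      + 499 * (log 2 * slH 43 0.49 15400 * Atot 30 43 15400 0.49 0.998)) := by
    unfold qP
    norm_num
    ring
  have c1 : log 2 * (log (17 / 15) + eM 30) ≤ 0.6932 * (0.1252 + 0.0683) := by gcongr
  have c2 : log 2 * (log (33 / 20) + eM 30) ≤ 0.6932 * (0.5009 + 0.0683) := by gcongr
  have c3 : log 15357 ^ 2 ≤ 9.6395 ^ 2 := by gcongr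
  have c4 : 2.8331 ^ 2 ≤ log 17 ^ 2 := by gcongr
  have c5 : 3.4011 * 6.7489 ≤ log 30 * log (7679 / 9) := by gcongr
  have c6 : eM 30 * log (15357 / 17) ≤ 0.0683 * 6.8063 := by gcongr
  have c7 : log 2 * slH 43 0.49 15400 * Atot 30 43 15400 0.49 0.998 ≤
      0.6932 * 0.000192 * 6.41 := by gcongr
  rw [e]
  linarith

lemma xP2L_D : DP 30 37 43 61 15400 0.49 0.998 ≤ 0.00000000038 := by
  obtain ⟨h1, h2⟩ := xP2L_eM
  obtain ⟨h5, h6⟩ := xP2L_A
  have a1 : log (61 / 30) ≤ 0.71 :=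
    xP2L_up 1 0.0166 (by norm_num) (by norm_num) (by norm_num [xP2L_e]) (by norm_num)
  have a2 : hiB 43 61 0.49 ≤ 0.000000000007 := xP2L_hi 0.004 0.8 (by norm_num) (by norm_num)
    (by norm_num) (by norm_num [xP2L_e]) (by norm_num [xP2L_e]) (by norm_num)
  have c1 : hiB 43 61 0.49 * Atot 30 43 15400 0.49 0.998 ≤ 0.000000000007 * 6.41 := by gcongr
  have e : DP 30 37 43 61 15400 0.49 0.998 = 8 / 35 / 2 ^ 30 + 3.03 / 4 ^ 30 +
      2.025 * (6.06 / 2 ^ 37 * (log (61 / 30) + eM 30)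
        + hiB 43 61 0.49 * Atot 30 43 15400 0.49 0.998) := by
    unfold DP S2
    norm_num
  rw [e]
  linarith

lemma xP2L_a : aP 30 32 36 50 15400 0.49 0.998 ≤ 19 := by
  obtain ⟨h3, h4⟩ := xP2L_sl (j₀ := 36) (j := 15400) (b := 0.000192) (by norm_num) (by norm_num)
  have l1 : log 2 ≤ 0.6932 := by linarith [log_two_lt_d9]
  have a1 : log (15364 / 13) ≤ 7.08 :=
    xP2L_up 10 0.145 (by norm_num) (by norm_num) (by norm_num [xP2L_e]) (by norm_num)
  have c1 : log 2 * slH 36 0.49 15400 ≤ 0.6932 * 0.000192 := by gcongr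
  have e : aP 30 32 36 50 15400 0.49 0.998 = 1.011 * (179 / 35 * log 2
      + 100 / 49 * log (15364 / 13) + 499 * (log 2 * slH 36 0.49 15400)) := by
    unfold aP
    norm_num
    ring
  rw [e]
  linarith

lemma xP2L_b : bP 30 32 36 50 0.49 ≤ 0.000000004 := by
  have a2 : hiB 36 50 0.49 ≤ 0.000000001 := xP2L_hi 0.011 0.83 (by norm_num) (by norm_num)
    (by norm_num) (by norm_num [xP2L_e]) (by norm_num [xP2L_e]) (by norm_num)
  unfold bP
  norm_num at a2 ⊢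
  linarith

theorem stP2L : StP2L := by
  have h1 : LOK 30 37 43 61 15400 0.49 0.998 := by
    refine ⟨by norm_num, by norm_num, by norm_num, by norm_num, by norm_num, by norm_num,
      by norm_num, by norm_num, by norm_num, (xP2L_sl (by norm_num) (by norm_num)).2⟩
  have h2 : LOK 30 32 36 50 15400 0.49 0.998 := by
    refine ⟨by norm_num, by norm_num, by norm_num, by norm_num, by norm_num, by norm_num,
      by norm_num, by norm_num, by norm_num, (xP2L_sl (by norm_num) (by norm_num)).2⟩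
  have h3 : 420 * Atot 30 43 15400 0.49 0.998 ^ 2 ≤ 18000 := by
    obtain ⟨h5, h6⟩ := xP2L_A
    have : Atot 30 43 15400 0.49 0.998 ^ 2 ≤ 6.41 ^ 2 := by gcongr
    linarith
  exact ⟨⟨h1, xP2L_q, xP2L_D, h3⟩, h2, xP2L_a, xP2L_b, by norm_num [par2], by norm_num [par2]⟩

end Pool.Agent.MP_88bd62_nt.U
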