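import Pool.Agent.MP_88bd62_nt.U.Stmts

/-! The numerical conditions for the remainder and the high pass part at the third stage. -/

namespace Pool.Agent.MP_88bd62_nt.U

open Finset Real

lemma xP2R_le_exp {x b : ℝ} (hb : 0 ≤ b) (h : x ≤ ∑ i ∈ range 18, b ^ i / i.factorial) :
    x ≤ exp b := h.trans (sum_le_exp_of_nonneg hb _)

lemma xP2R_exp_le {x b y z : ℝ} (k : ℕ) (hb : b ≤ k * y) (h0 : 0 ≤ y) (h1 : y ≤ 1)
    (h : ∑ i ∈ range 7, y ^ i / i.factorial + y ^ 7 * 8 / (5040 * 7) ≤ z) (hx : z ^ k ≤ x) :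
    exp b ≤ x := by
  have := exp_bound' h0 h1 (n := 7) (by norm_num)
  have e : exp y ≤ z := by
    refine this.trans (le_trans (le_of_eq ?_) h)
    norm_num [Nat.factorial]
  calc exp b ≤ exp y ^ k := by rw [← exp_nat_mul]; exact exp_le_exp.2 hb
    _ ≤ z ^ k := pow_le_pow_left₀ (exp_pos y).le e k
    _ ≤ x := hx

lemma xP2R_log_le {x b : ℝ} (hx : 0 < x) (hb : 0 ≤ b)
    (h : x ≤ ∑ i ∈ range 18, b ^ i / i.factorial) : log x ≤ b :=
  (log_le_iff_le_exp hx).2 (xP2R_le_exp hb h)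

lemma xP2R_exp_neg_le {x b : ℝ} (hx : 0 < x) (hb : 0 ≤ b)
    (h : 1 / x ≤ ∑ i ∈ range 18, b ^ i / i.factorial) : exp (-b) ≤ x := by
  rw [exp_neg, inv_le_comm₀ (exp_pos b) hx, ← one_div]
  exact xP2R_le_exp hb h

lemma xP2R_J : Jf 26.8 ≤ 2.79 := by
  have h1 : log (26.8 / 2 + 3.1) ≤ 2.805 := xP2R_log_le (by norm_num) (by norm_num)
    (by norm_num [sum_range_succ, Nat.factorial])
  have h2 : 2.802 ≤ log (26.8 / 2 + 3.1) := (le_log_iff_exp_le (by norm_num)).2
    (xP2R_exp_le 3 (y := 0.934) (z := 2.5447) (by norm_num) (by norm_num) (by norm_num)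
      (by norm_num [sum_range_succ, Nat.factorial]) (by norm_num))
  have h3 : log 6.7 ≤ 1.903 := xP2R_log_le (by norm_num) (by norm_num)
    (by norm_num [sum_range_succ, Nat.factorial])
  have h4 : 1.9 ≤ log 6.7 := (le_log_iff_exp_le (by norm_num)).2
    (xP2R_exp_le 2 (y := 0.95) (z := 2.586) (by norm_num) (by norm_num) (by norm_num)
      (by norm_num [sum_range_succ, Nat.factorial]) (by norm_num))
  have h5 : log (1.132 * 26.8 + 4.45) ≤ 3.55 := xP2R_log_le (by norm_num) (by norm_num)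
    (by norm_num [sum_range_succ, Nat.factorial])
  have a0 : al0 26.8 ≤ 2.805 := h1
  have a1 : al1 26.8 ≤ 11.602 := by unfold al1 al0; linarith
  have a2 : al2 26.8 ≤ 2.555 := by unfold al2 al0; linarith
  have p1 := pi_gt_d4
  have p2 := pi_lt_d4
  have b0 := mul_le_mul_of_nonneg_right a0 pi_pos.le
  have b1 := mul_le_mul_of_nonneg_right a1 (show 0 ≤ 2 - π / 2 by linarith)
  have b2 := mul_le_mul_of_nonneg_right a2 (show 0 ≤ π / 2 - 4 / 3 by linarith)
  rw [Jf, Jg, div_le_iff₀ (by positivity)]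
  linarith

lemma xP2R_lv :
    lvG (log ((1 / 0.011 + 1) / 1.6)) (Sbar 18 0.011) (Jf 26.8) 0.011 0.003 ≤ 5.758 := by
  have h1 : log ((1 / 0.011 + 1) / 1.6) ≤ 4.0515 := xP2R_log_le (by norm_num) (by norm_num)
    (by norm_num [sum_range_succ, Nat.factorial])
  have h2 : log (1 + 0.011 / 0.003) ≤ 1.541 := xP2R_log_le (by norm_num) (by norm_num)
    (by norm_num [sum_range_succ, Nat.factorial])
  have h3 := xP2R_J
  unfold lvG Sbar
  simp only [ta]
  generalize log ((1 / 0.011 + 1) / 1.6) = x at h1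
  generalize log (1 + 0.011 / 0.003) = y at h2
  generalize Jf 26.8 = z at h3
  norm_num at h1 h2 h3 ⊢
  linarith

lemma xP2R_W : WOK (2 ^ 28) (2 ^ 38) 1.501 1 7.9 0.002 0.21 := by
  refine ⟨by norm_num, by norm_num, by norm_num, by norm_num, by norm_num, by norm_num,
    by norm_num, ?_, ?_⟩
  · have h1 := add_one_le_exp (-(0.002 * (1 / 1.501)))
    have h2 : exp (-(0.21 * (1 / 1.501))) ≤ 0.87 := xP2R_exp_neg_le (by norm_num) (by norm_num)
      (by norm_num [sum_range_succ, Nat.factorial])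
    linarith
  · have e : ((2 ^ 38 : ℕ) : ℝ) / (2 ^ 28 : ℕ) = 1024 := by norm_num
    rw [e]
    have h1 : exp (0.002 * 1024) ≤ 7.8 :=
      xP2R_exp_le 4 (y := 0.512) (z := 1.67) (by norm_num) (by norm_num) (by norm_num)
        (by norm_num [sum_range_succ, Nat.factorial]) (by norm_num)
    have h2 : 1 / 7.8 ≤ exp (-(0.002 * 1024)) := by
      rw [exp_neg, ← one_div]
      exact one_div_le_one_div_of_le (exp_pos _) h1
    have h3 : exp (-(0.21 * 1024)) ≤ 0.001 := xP2R_exp_neg_le (by norm_num) (by norm_num)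
      (by norm_num [sum_range_succ, Nat.factorial])
    linarith

lemma xP2R_R : ROK par2 0.00088 := by
  have l2 := log_two_lt_d9
  have p1 := pi_gt_d4
  refine ⟨?_, ?_, ?_, ?_, ?_, ?_, ?_, ?_, xP2R_W, ?_⟩ <;> simp only [par2]
  · norm_num
  · norm_num
  · norm_num
  · norm_num
  · norm_num
  · have := xP2R_exp_le 16 (b := 2 * lvG (log ((1 / 0.011 + 1) / 1.6)) (Sbar 18 0.011) (Jf 26.8)
      0.011 0.003) (y := 0.71975) (z := 2.054) (x := 100500) (by push_cast; linarith [xP2R_lv])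
      (by norm_num) (by norm_num) (by norm_num [sum_range_succ, Nat.factorial]) (by norm_num)
    linarith
  · have : exp (2 * 2.6) ≤ 182 :=
      xP2R_exp_le 8 (y := 0.65) (z := 1.916) (by norm_num) (by norm_num) (by norm_num)
        (by norm_num [sum_range_succ, Nat.factorial]) (by norm_num)
    linarith
  · norm_num
  · have h1 : log (0.21 / 0.002) ≤ 4.7 := xP2R_log_le (by norm_num) (by norm_num)
      (by norm_num [sum_range_succ, Nat.factorial])
    have h2 : (1.501 + (((38 : ℕ) : ℝ) - (28 : ℕ)) * log 2) / π ≤ 3 := by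
      rw [div_le_iff₀ pi_pos]
      push_cast
      linarith
    have h3 : Wc (2 ^ 28) 48.6 0.00000000038 18000 7.9 0.002 0.21 ≤ 0.0000000522 := by
      rw [Wc, div_mul_eq_mul_div, div_le_iff₀ pi_pos]
      push_cast
      linarith
    linarith

lemma xP2R_H : HOK par2 27 0.00006 := by
  refine ⟨by norm_num, by norm_num [par2], by norm_num [par2], by norm_num [par2],
    by norm_num [par2], ?_⟩
  have l1 := log_two_gt_d9
  have l2 := log_two_lt_d9
  have l3 : log 2 * log 2 ≤ 0.49 := by nlinarith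
  have s1 : √((2 : ℝ) ^ (2 * 27)) = 2 ^ 27 := by rw [pow_mul', sqrt_sq (by positivity)]
  have s2 : √((2 : ℝ) ^ 30) = 2 ^ 15 := by
    rw [show (2 : ℝ) ^ 30 = (2 ^ 15) ^ 2 by norm_num, sqrt_sq (by positivity)]
  have hA : AG par2 27 ≤ 32000 := by
    simp only [AG, par2, aHy, aGr, S2]
    push_cast
    linarith
  have hB : BG par2 27 ≤ 0.000006 := by
    simp only [BG, par2, bHy, bGr, S2, s1, s2]
    norm_num
  simp only [hpCost, par2] at hA hB ⊢
  push_cast
  linarith

theorem stP2R : StP2R := ⟨xP2R_R, xP2R_H⟩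

end Pool.Agent.MP_88bd62_nt.U
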