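import Pool.Agent.MP_88bd62_nt.U.Stmts

/-! Numerical checks for the third stage. -/

namespace Pool.Agent.MP_88bd62_nt.U

open Finset Real

lemma xP2X_exp (n : ℕ) {r : ℝ} (h : 0 ≤ r) :
    2.7182818283 ^ n * (1 + r + r ^ 2 / 2 + r ^ 3 / 6 + r ^ 4 / 24) ≤ exp (n + r) := by
  have h1 := sum_le_exp_of_nonneg h 5
  simp only [sum_range_succ, sum_range_zero, Nat.factorial] at h1
  rw [exp_add, ← exp_one_pow]
  refine mul_le_mul (pow_le_pow_left₀ (by norm_num) exp_one_gt_d9.le n) ?_ (by positivity)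
    (by positivity)
  norm_num at h1
  linarith

lemma xP2X_log (n : ℕ) {a r : ℝ} (h : 0 ≤ r) (ha : 0 < a)
    (h1 : a ≤ 2.7182818283 ^ n * (1 + r + r ^ 2 / 2 + r ^ 3 / 6 + r ^ 4 / 24)) : log a ≤ n + r :=
  (log_le_iff_le_exp ha).2 (h1.trans (xP2X_exp n h))

lemma xP2X_l67 : log 6.7 ≤ 1.91 :=
  (xP2X_log 1 (r := 0.91) (by norm_num) (by norm_num) (by norm_num)).trans_eq (by norm_num)

lemma xP2X_al0 {L : ℝ} (h0 : 0 ≤ L) (h1 : L ≤ 28.2) : 0 ≤ al0 L ∧ al0 L ≤ 2.85 :=
  ⟨log_nonneg (by linarith), (log_le_log (by linarith) (by linarith : L / 2 + 3.1 ≤ 17.2)).trans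
    ((xP2X_log 2 (r := 0.85) (by norm_num) (by norm_num) (by norm_num)).trans_eq (by norm_num))⟩

lemma xP2X_Kf {L B : ℝ} (h0 : 0 ≤ L) (h1 : L ≤ 28.2) (hB : log (1.132 * L + 4.45) ≤ B)
    (B0 : 0 ≤ B) : Kf L ≤ (L / 4 + (1.4537 + 4 / 3 * B) / 3.141592 + 0.6033) / 0.999 := by
  obtain ⟨a0, a1⟩ := xP2X_al0 h0 h1
  have c1 := xP2X_l67
  have c0 : 0 ≤ log 6.7 := log_nonneg (by norm_num)
  have p0 := pi_gt_d6
  have p1 := pi_lt_d6
  rw [Kf, Kg, al1, al2]
  refine div_le_div_of_nonneg_right (add_le_add ?_ ?_) (by norm_num)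
  · have e : (1.4537 + 4 / 3 * B) / π ≤ (1.4537 + 4 / 3 * B) / 3.141592 :=
      div_le_div_of_nonneg_left (by positivity) (by norm_num) p0.le
    refine le_trans ?_ (add_le_add_right e _)
    rw [add_div' _ _ _ pi_pos.ne']
    refine div_le_div_of_nonneg_right ?_ pi_pos.le
    have e1 : al0 L * (10 / 3 - π) ≤ 2.85 * 0.19175 :=
      mul_le_mul a1 (by linarith) (by linarith) (by norm_num)
    have e2 : log 6.7 * (π - 8 / 3) ≤ 1.91 * 0.47493 :=
      mul_le_mul c1 (by linarith) (by linarith) (by norm_num)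
    nlinarith
  · rw [div_le_iff₀ (by positivity)]
    linarith

lemma xP2X_Z : ZOK par2.T par2.L par2.KK := by
  have p0 := pi_gt_d6
  have key : ∀ (n : ℕ) (r t : ℝ), 0 ≤ r →
      t ≤ 2 * 3.141592 * (2.7182818283 ^ n * (1 + r + r ^ 2 / 2 + r ^ 3 / 6 + r ^ 4 / 24)) →
      t ≤ 2 * π * exp (n + r) := fun n r t h h1 =>
    h1.trans (mul_le_mul (by linarith) (xP2X_exp n h) (by positivity) (by positivity))
  constructor
  · intro j hj
    obtain ⟨j1, j2⟩ := mem_Icc.1 hj
    interval_cases j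
    · exact ⟨by norm_num [Par.L, par2], (key 26 0.8 _ (by norm_num) (by norm_num [par2])).trans_eq
        (by norm_num [Par.L, par2])⟩
    · exact ⟨by norm_num [Par.L, par2], (key 27 0.5 _ (by norm_num) (by norm_num [par2])).trans_eq
        (by norm_num [Par.L, par2])⟩
    · exact ⟨by norm_num [Par.L, par2], (key 27 0.9 _ (by norm_num) (by norm_num [par2])).trans_eq
        (by norm_num [Par.L, par2])⟩
    · exact ⟨by norm_num [Par.L, par2], (key 28 0.2 _ (by norm_num) (by norm_num [par2])).trans_eq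
        (by norm_num [Par.L, par2])⟩
  · have k1 := xP2X_Kf (L := 26.8) (by norm_num) (by norm_num)
      (xP2X_log 3 (r := 0.555) (by norm_num) (by norm_num) (by norm_num)) (by norm_num)
    have k2 := xP2X_Kf (L := 27.5) (by norm_num) (by norm_num)
      (xP2X_log 3 (r := 0.58) (by norm_num) (by norm_num) (by norm_num)) (by norm_num)
    have k3 := xP2X_Kf (L := 27.9) (by norm_num) (by norm_num)
      (xP2X_log 3 (r := 0.59) (by norm_num) (by norm_num) (by norm_num)) (by norm_num)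
    have k4 := xP2X_Kf (L := 28.2) (by norm_num) (by norm_num)
      (xP2X_log 3 (r := 0.6) (by norm_num) (by norm_num) (by norm_num)) (by norm_num)
    rw [show Icc 1 4 = ({1, 2, 3, 4} : Finset ℕ) from rfl, sum_insert (by decide),
      sum_insert (by decide), sum_insert (by decide), sum_singleton]
    show 2.391424 * Kf 26.8 + (1.46285 * Kf 27.5 + (0.595 * Kf 27.9 + 0.125 * Kf 28.2))
      ≤ 2.391424 * 18
    push_cast at k1 k2 k3 k4
    linarith

set_option exponentiation.threshold 400 in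
lemma xP2X_eps : 2 * (2 * (al0 26.8 + al1 26.8 * 0.003 + al2 26.8 * 0.003 ^ 2
      + 2 ^ (((30 : ℕ) : ℝ) * 0.003) * (1.18 + log 9.5) + log (1 + 1 / 0.03))
      * (0.03 / (0.03 + 0.003)) ^ 300 / (1 - 0.03 / (0.03 + 0.003))
    + (0.03 * (2 * ((30 : ℕ) : ℝ) * log 2)) ^ 300 / (Nat.factorial 300 : ℝ)
      * (((30 : ℕ) : ℝ) * log 2)) + 4.01 * S2 30 ≤ 0.0000000012 := by
  obtain ⟨a0, a1⟩ := xP2X_al0 (L := 26.8) (by norm_num) (by norm_num)
  have c1 := xP2X_l67
  have c0 : 0 ≤ log 6.7 := log_nonneg (by norm_num)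
  have l0 : 0 < log 2 := log_pos one_lt_two
  have l1 := log_two_lt_d9
  have b1 := xP2X_log 4 (a := 1.132 * 26.8 + 4.45) le_rfl (by norm_num) (by norm_num)
  have b2 := xP2X_log 3 (a := 9.5) le_rfl (by norm_num) (by norm_num)
  have b3 := xP2X_log 4 (a := 1 + 1 / 0.03) le_rfl (by norm_num) (by norm_num)
  have b4 : (2 : ℝ) ^ (((30 : ℕ) : ℝ) * 0.003) * (1.18 + log 9.5) ≤ 2 * 4.18 := by
    have b5 : 0 ≤ log 9.5 := log_nonneg (by norm_num)
    refine mul_le_mul ?_ (by push_cast at b2; linarith) (by linarith) (by norm_num)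
    exact (rpow_le_rpow_of_exponent_le one_le_two (by norm_num)).trans_eq (rpow_one 2)
  have b6 : 2 * (al0 26.8 + al1 26.8 * 0.003 + al2 26.8 * 0.003 ^ 2
      + 2 ^ (((30 : ℕ) : ℝ) * 0.003) * (1.18 + log 9.5) + log (1 + 1 / 0.03)) ≤ 31 := by
    rw [al1, al2]
    push_cast at b1 b3
    linarith
  have b7 : ((0.03 : ℝ) / (0.03 + 0.003)) ^ 300 ≤ 0.00000000000039 := by norm_num
  have b8 := mul_le_mul b6 b7 (by positivity) (by norm_num)
  have b9 : (0.03 * (2 * ((30 : ℕ) : ℝ) * log 2)) ^ 300 / (Nat.factorial 300 : ℝ)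
      ≤ 0.0000000000001 := by
    refine le_trans (div_le_div_of_nonneg_right (pow_le_pow_left₀ (by positivity)
      (show _ ≤ (2 : ℝ) by push_cast; linarith) 300) (Nat.cast_nonneg _)) ?_
    rw [div_le_iff₀ (by positivity)]
    norm_num [Nat.factorial]
  have b10 := mul_le_mul b9 (show ((30 : ℕ) : ℝ) * log 2 ≤ 21 by push_cast; linarith)
    (by positivity) (by norm_num)
  have b11 : S2 30 ≤ 0.000000000213 := by norm_num [S2]
  have e : (1 - 0.03 / (0.03 + 0.003) : ℝ) = 1 / 11 := by norm_num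
  rw [e, div_div_eq_mul_div, div_one]
  generalize _ * ((0.03 : ℝ) / (0.03 + 0.003)) ^ 300 = u at b8 ⊢
  generalize _ / (Nat.factorial 300 : ℝ) * _ = v at b10 ⊢
  linarith

lemma xP2X_G : GOK par2 := by
  have l0 := log_two_gt_d9
  have a1 := xP2X_log 0 (a := ((30 : ℕ) : ℝ) / 20) (r := 0.4056) (by norm_num) (by norm_num)
    (by norm_num)
  have a2 : eM 20 ≤ 0.10244 := by
    rw [eM, div_le_iff₀ (by positivity)]
    push_cast
    linarith
  have a3 : exp (1 + 0.0162) ≤ 2.7631 := by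
    have := exp_bound_div_one_sub_of_interval (x := 0.0162) (by norm_num) (by norm_num)
    rw [exp_add]
    exact (mul_le_mul exp_one_lt_d9.le this (exp_pos _).le (by norm_num)).trans (by norm_num)
  have a4 : exp 0.5081 ≤ 1.67 := by
    refine le_of_sq_le_sq ?_ (by norm_num)
    rw [← exp_nat_mul]
    exact (exp_le_exp.2 (by norm_num)).trans (a3.trans (by norm_num))
  rw [Nat.cast_zero, zero_add] at a1
  constructor
  · show 231 * exp (2.0001 * (log (((30 : ℕ) : ℝ) / 20) + eM 20)) ≤ 640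
    have := (exp_le_exp.2 (show 2.0001 * (log (((30 : ℕ) : ℝ) / 20) + eM 20) ≤ 1 + 0.0162 by
      linarith)).trans a3
    linarith
  · show 5.65 * exp (1.0001 * (log (((30 : ℕ) : ℝ) / 20) + eM 20)) ≤ 9.5
    have := (exp_le_exp.2 (show 1.0001 * (log (((30 : ℕ) : ℝ) / 20) + eM 20) ≤ 0.5081 by
      linarith)).trans a4
    linarith

theorem stP2X : StP2X := by
  have l0 := log_two_gt_d9
  have p1 := pi_lt_d6
  refine ⟨⟨by decide, by decide, by decide, by decide, by decide, by norm_num [par2],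
    by norm_num [par2], by norm_num [par2], by norm_num [par2], by norm_num [par2],
    by norm_num [par2], by norm_num [par2], by norm_num [par2], by norm_num [par2],
    by norm_num [par2], by norm_num [par2], ?_, xP2X_Z, by norm_num [par2, Sbar, ta], ?_, ?_,
    xP2X_eps⟩, xP2X_G⟩
  · show π * 2 ^ (38 + 1) / log 2 + 1 ≤ 2500000000000
    rw [← le_sub_iff_add_le, div_le_iff₀ (by positivity),
      show (2 : ℝ) ^ (38 + 1) = 549755813888 by norm_num]
    linarith
  · show (2 : ℝ) ^ (-(0.1 * 0.03 : ℝ)) ≤ 0.998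
    rw [rpow_neg two_pos.le, inv_le_comm₀ (by positivity) (by norm_num), rpow_def_of_pos two_pos]
    refine le_trans ?_ (add_one_le_exp _)
    linarith
  · show ((300 : ℕ) : ℝ) * log (1 / (1 - 0.1)) ≤ 0.1 * 0.03 * ((((15400 : ℕ) : ℝ) - 1 / 64) * log 2)
    have := xP2X_log 0 (a := 1 / (1 - 0.1)) (r := 0.106) (by norm_num) (by norm_num) (by norm_num)
    push_cast at this ⊢
    linarith

end Pool.Agent.MP_88bd62_nt.U
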