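import Pool.Agent.MP_88bd62_nt.U.Stmts

/-! The level inequalities of the fourth stage. -/

namespace Pool.Agent.MP_88bd62_nt.U

open Finset Real

theorem xP3L_up {x : ℝ} (k : ℕ) (h0 : 0 < x) (h : x ≤ 2 ^ k) : log x ≤ k * 0.6932 := by
  have h1 := log_le_log h0 h
  rw [log_pow] at h1
  have h2 := log_two_lt_d9
  have h3 : (0 : ℝ) ≤ k := Nat.cast_nonneg k
  nlinarith

theorem xP3L_lo {x : ℝ} (k : ℕ) (h : 2 ^ k ≤ x) : k * 0.6931 ≤ log x := by
  have h1 := log_le_log (by positivity) h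
  rw [log_pow] at h1
  have h2 := log_two_gt_d9
  have h3 : (0 : ℝ) ≤ k := Nat.cast_nonneg k
  nlinarith

theorem xP3L_hi {j₀ j₁ : ℕ} (h : j₀ ≤ j₁) :
    0 ≤ hiB j₀ j₁ 0.45 ∧ hiB j₀ j₁ 0.45 ≤ 67 / 2 ^ j₀ := by
  have h0 : (0 : ℝ) ≤ (j₁ : ℝ) - j₀ := sub_nonneg.2 (Nat.cast_le.2 h)
  have h1 : (2 : ℝ) ^ (-(0.45 * ((j₁ : ℝ) - j₀))) ≤ 1 :=
    rpow_le_one_of_one_le_of_nonpos (by norm_num) (by nlinarith)
  have h2 : (2 : ℝ) ^ (-((1 - 2 * 0.45) * ((j₁ : ℝ) - j₀))) ≤ 1 :=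
    rpow_le_one_of_one_le_of_nonpos (by norm_num) (by nlinarith)
  have h3 : (2 : ℝ) ^ (-(1 - 2 * 0.45 : ℝ)) ≤ 0.94 := by
    rw [rpow_def_of_pos (by norm_num), mul_neg, exp_neg, inv_le_comm₀ (exp_pos _) (by norm_num)]
    have h4 := add_one_le_exp (log 2 * (1 - 2 * 0.45))
    have h5 := log_two_gt_d9
    refine le_trans ?_ h4
    norm_num at h5 ⊢
    linarith
  have h4 : (0 : ℝ) < (2 : ℝ) ^ (-(0.45 * ((j₁ : ℝ) - j₀))) := rpow_pos_of_pos (by norm_num) _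
  have h5 : (0 : ℝ) < (2 : ℝ) ^ (-((1 - 2 * 0.45) * ((j₁ : ℝ) - j₀))) :=
    rpow_pos_of_pos (by norm_num) _
  unfold hiB
  generalize (2 : ℝ) ^ (-(0.45 * ((j₁ : ℝ) - j₀))) = a at *
  generalize (2 : ℝ) ^ (-((1 - 2 * 0.45) * ((j₁ : ℝ) - j₀))) = b at *
  generalize (2 : ℝ) ^ (-(1 - 2 * 0.45 : ℝ)) = c at *
  have h6 : (0 : ℝ) < 1 - c := by linarith
  have h7 : (0 : ℝ) < 2 ^ j₀ := by positivity
  refine ⟨by positivity, ?_⟩
  rw [div_le_iff₀ h6, div_mul_eq_mul_div, div_mul_eq_mul_div]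
  refine div_le_div_of_nonneg_right ?_ h7.le
  have h8 : (1 + a) ^ 2 ≤ 4 := by nlinarith
  nlinarith

theorem xP3L_eM : 0 ≤ eM 40 ∧ eM 40 ≤ 0.052 := by
  have h := log_two_gt_d9
  unfold eM
  refine ⟨by positivity, ?_⟩
  rw [div_le_iff₀ (by positivity)]
  push_cast
  linarith

theorem xP3L_sl {j₀ j : ℕ} {c : ℝ} (h : (j₀ : ℝ) < j) (hc : 1 ≤ c * (0.3118 * ((j : ℝ) - j₀))) :
    0 ≤ slH j₀ 0.45 j ∧ slH j₀ 0.45 j ≤ c := by
  have h1 := log_two_gt_d9
  have h2 : (0 : ℝ) < (j : ℝ) - j₀ := sub_pos.2 h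
  have h3 : 0 < c := by
    by_contra h3
    nlinarith [mul_nonneg (neg_nonneg.2 (not_lt.1 h3)) h2.le]
  unfold slH
  refine ⟨by positivity, ?_⟩
  rw [div_le_iff₀ (by positivity)]
  nlinarith [mul_pos h3 h2]

theorem xP3L_A : 0 ≤ Atot 40 52 26000 0.45 0.999 ∧ Atot 40 52 26000 0.45 0.999 ≤ 7.2 := by
  obtain ⟨h1, h2⟩ := xP3L_eM
  obtain ⟨h3, h4⟩ := xP3L_sl (j₀ := 52) (j := 26000) (c := 0.00013) (by norm_num) (by norm_num)
  have h5 := xP3L_up (x := (((26000 : ℕ) : ℝ) + 1) / (40 : ℕ)) 10 (by norm_num) (by norm_num)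
  have h6 := xP3L_lo (x := (((26000 : ℕ) : ℝ) + 1) / (40 : ℕ)) 0 (by norm_num)
  unfold Atot
  generalize log ((((26000 : ℕ) : ℝ) + 1) / (40 : ℕ)) = a at *
  norm_num at *
  constructor <;> linarith

theorem xP3L_q : qP 40 48 52 72 26000 0.45 0.999 ≤ 80 := by
  obtain ⟨h1, h2⟩ := xP3L_eM
  obtain ⟨h3, h4⟩ := xP3L_sl (j₀ := 52) (j := 26000) (c := 0.00013) (by norm_num) (by norm_num)
  obtain ⟨h5, h6⟩ := xP3L_A
  have l0 := log_two_lt_d9
  have l0' := log_two_gt_d9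
  have l1 := log_le_sub_one_of_pos (x := 89 / 80) (by norm_num)
  have l2 := log_le_sub_one_of_pos (x := 121 / 80) (by norm_num)
  have l3 := xP3L_up (x := 25948) 15 (by norm_num) (by norm_num)
  have l3' := xP3L_lo (x := 25948) 0 (by norm_num)
  have l4 := xP3L_lo (x := 19) 4 (by norm_num)
  have l5 := xP3L_lo (x := 40) 5 (by norm_num)
  have l6 := xP3L_lo (x := 25949 / 20) 10 (by norm_num)
  have l7 := xP3L_up (x := 25948 / 19) 11 (by norm_num) (by norm_num)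
  have l8 : √(72 / 19 : ℝ) ≤ 2 := by
    rw [sqrt_le_left (by norm_num)]; norm_num
  have e : qP 40 48 52 72 26000 0.45 0.999 =
      1.011 * (log 2 * 8 * (log (89 / 80) + eM 40) + 8 / 35 * log 2 * 24 * (log (121 / 80) + eM 40)
        + 1 / 0.45 * ((log 25948 ^ 2 - log 19 ^ 2) / 2 - log 40 * log (25949 / 20)
          + 2 * (√(72 / 19) - 1) + eM 40 * log (25948 / 19))
        + log 2 * slH 52 0.45 26000 * 999 * Atot 40 52 26000 0.45 0.999) := by
    unfold qP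
    norm_num
  rw [e]
  generalize log 25948 = a3 at *
  generalize log 19 = a4 at *
  generalize log 40 = a5 at *
  generalize log (25949 / 20) = a6 at *
  generalize log (25948 / 19) = a7 at *
  generalize log (89 / 80) = a1 at *
  generalize log (121 / 80) = a2 at *
  generalize √(72 / 19 : ℝ) = a8 at *
  generalize log 2 = l at *
  generalize eM 40 = m at *
  generalize slH 52 0.45 26000 = s at *
  generalize Atot 40 52 26000 0.45 0.999 = A at *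
  norm_num at l3 l3' l4 l5 l6 l7
  have t1 : l * 8 * (a1 + m) ≤ 1 := by nlinarith
  have t2 : 8 / 35 * l * 24 * (a2 + m) ≤ 3 := by nlinarith
  have t3 : a3 ^ 2 ≤ 109 := by nlinarith
  have t4 : 7 ≤ a4 ^ 2 := by nlinarith
  have t5 : 24 ≤ a5 * a6 := by nlinarith
  have t6 : m * a7 ≤ 1 := by nlinarith
  have t7 : s * A ≤ 0.001 := by nlinarith
  have t8 : l * s * 999 * A ≤ 1 := by nlinarith [mul_nonneg h3 h5]
  norm_num
  linarith

theorem xP3L_D : DP 40 48 52 72 26000 0.45 0.999 ≤ 0.000000000001 := by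
  obtain ⟨h1, h2⟩ := xP3L_eM
  obtain ⟨h5, h6⟩ := xP3L_A
  obtain ⟨h7, h8⟩ := xP3L_hi (j₀ := 52) (j₁ := 72) (by norm_num)
  have l1 := log_le_sub_one_of_pos (x := ((72 : ℕ) : ℝ) / (40 : ℕ)) (by norm_num)
  unfold DP S2
  generalize log (((72 : ℕ) : ℝ) / (40 : ℕ)) = a at *
  have t := mul_le_mul h8 h6 h5 (by positivity)
  generalize hiB 52 72 0.45 * Atot 40 52 26000 0.45 0.999 = b at *
  generalize eM 40 = m at *
  norm_num at *
  linarith

theorem xP3L_a : 0 ≤ (30 : ℝ) ∧ aP 40 42 46 62 26000 0.45 0.999 ≤ 30 := by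
  obtain ⟨h3, h4⟩ := xP3L_sl (j₀ := 46) (j := 26000) (c := 0.00013) (by norm_num) (by norm_num)
  have l0 := log_two_lt_d9
  have l0' := log_two_gt_d9
  have l7 := xP3L_up (x := 25954 / 15) 11 (by norm_num) (by norm_num)
  have e : aP 40 42 46 62 26000 0.45 0.999 =
      1.011 * (log 2 * (39 / 7) + 1 / 0.45 * log (25954 / 15)
        + log 2 * slH 46 0.45 26000 * 999) := by
    unfold aP
    norm_num
  refine ⟨by norm_num, ?_⟩
  rw [e]
  generalize log (25954 / 15) = a7 at *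
  generalize log 2 = l at *
  generalize slH 46 0.45 26000 = s at *
  have t8 : l * s * 999 ≤ 1 := by nlinarith
  norm_num at l7 ⊢
  linarith

theorem xP3L_b : bP 40 42 46 62 0.45 ≤ 0.00000000001 := by
  obtain ⟨h7, h8⟩ := xP3L_hi (j₀ := 46) (j₁ := 62) (by norm_num)
  unfold bP
  generalize hiB 46 62 0.45 = b at *
  norm_num at *
  linarith

theorem stP3L : StP3L := by
  obtain ⟨h5, h6⟩ := xP3L_A
  refine ⟨⟨?_, xP3L_q, xP3L_D, ?_⟩, ?_, xP3L_a.2, xP3L_b, xP3L_a.1, ?_⟩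
  · change LOK 40 48 52 72 26000 0.45 0.999
    refine ⟨by norm_num, by norm_num, by norm_num, by norm_num, by norm_num, by norm_num,
      by norm_num, by norm_num, by norm_num, ?_⟩
    exact (xP3L_sl (by norm_num) (by norm_num)).2
  · change 420 * Atot 40 52 26000 0.45 0.999 ^ 2 ≤ 30000
    nlinarith
  · change LOK 40 42 46 62 26000 0.45 0.999
    refine ⟨by norm_num, by norm_num, by norm_num, by norm_num, by norm_num, by norm_num,
      by norm_num, by norm_num, by norm_num, ?_⟩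
    exact (xP3L_sl (by norm_num) (by norm_num)).2
  · change (0 : ℝ) ≤ 0.00000000001
    norm_num

end Pool.Agent.MP_88bd62_nt.U
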