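import Pool.Agent.MP_88bd62_nt.U.Stmts

/-! Numerical inequalities of the third stage. -/

namespace Pool.Agent.MP_88bd62_nt.U

open Finset Real

theorem xP3R_log {a b : ℝ} (n : ℕ) (ha : 0 < a) (hb : 0 ≤ b)
    (h : a ≤ ∑ i ∈ range n, b ^ i / i.factorial) : log a ≤ b :=
  (log_le_iff_le_exp ha).2 (h.trans (sum_le_exp_of_nonneg hb n))

theorem xP3R_exp (n : ℕ) : exp n ≤ 2.7182818286 ^ n := by
  rw [← exp_one_pow]
  exact pow_le_pow_left₀ (exp_pos 1).le exp_one_lt_d9.le n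

theorem xP3R_J : Jf 45 ≤ 5 := by
  have h0 : al0 45 ≤ 3.3 := xP3R_log 12 (by norm_num) (by norm_num)
    (by norm_num [sum_range_succ, Nat.factorial])
  have h0' : 0 ≤ al0 45 := log_nonneg (by norm_num)
  have h1 : log 6.7 ≤ 2 := xP3R_log 6 (by norm_num) (by norm_num)
    (by norm_num [sum_range_succ, Nat.factorial])
  have h1' : 0 ≤ log 6.7 := log_nonneg (by norm_num)
  have h2 : log (1.132 * 45 + 4.45) ≤ 4.1 := xP3R_log 12 (by norm_num) (by norm_num)
    (by norm_num [sum_range_succ, Nat.factorial])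
  have a1 : al1 45 ≤ 26.5 := by
    unfold al1
    linarith
  have a2 : al2 45 ≤ 7.4 := by
    unfold al2
    linarith
  have p1 := pi_gt_d2
  have p2 := pi_lt_d2
  unfold Jf Jg
  rw [div_le_iff₀ (by positivity)]
  have b0 : al0 45 * (π - 2) ≤ 3.3 * (π - 2) := mul_le_mul_of_nonneg_right h0 (by linarith)
  have b1 : al1 45 * (2 - π / 2) ≤ 26.5 * (2 - π / 2) :=
    mul_le_mul_of_nonneg_right a1 (by linarith)
  have b2 : al2 45 * (π / 2 - 4 / 3) ≤ 7.4 * (π / 2 - 4 / 3) :=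
    mul_le_mul_of_nonneg_right a2 (by linarith)
  have b3 : (al0 45 + 0.2) * (π + 2) ≤ 3.5 * (π + 2) :=
    mul_le_mul_of_nonneg_right (by linarith) (by linarith)
  linarith

theorem xP3R_f : 2.35 * (4 / 9) *
    exp (2 * lvG (log ((1 / 0.0075 + 1) / 1.6)) (Sbar 27.5 0.0075) (Jf 45) 0.0075 0.0019) ≤
      300000 := by
  have h1 : log ((1 / 0.0075 + 1) / 1.6) ≤ 4.45 := xP3R_log 14 (by norm_num) (by norm_num)
    (by norm_num [sum_range_succ, Nat.factorial])
  have h2 : log (1 + 0.0075 / 0.0019) ≤ 1.61 := xP3R_log 8 (by norm_num) (by norm_num)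
    (by norm_num [sum_range_succ, Nat.factorial])
  have h3 := xP3R_J
  have h4 : lvG (log ((1 / 0.0075 + 1) / 1.6)) (Sbar 27.5 0.0075) (Jf 45) 0.0075 0.0019 ≤ 6.25 := by
    unfold lvG
    generalize log ((1 / 0.0075 + 1) / 1.6) = x at h1 ⊢
    generalize log (1 + 0.0075 / 0.0019) = y at h2 ⊢
    generalize Jf 45 = z at h3 ⊢
    simp only [Sbar, ta]
    norm_num at h1 h2 h3 ⊢
    linarith
  have h5 : exp (1 / 2) ≤ 1.65 := by
    have h := exp_one_lt_d9
    have e : exp 1 = exp (1 / 2) * exp (1 / 2) := by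
      rw [← exp_add]
      norm_num
    nlinarith [exp_pos (1 / 2 : ℝ)]
  have h6 := xP3R_exp 12
  have h7 : exp (2 * lvG (log ((1 / 0.0075 + 1) / 1.6)) (Sbar 27.5 0.0075) (Jf 45) 0.0075 0.0019)
      ≤ exp ((12 : ℕ) + 1 / 2) := exp_le_exp.2 (by push_cast; linarith)
  rw [exp_add] at h7
  have h8 := mul_le_mul h6 h5 (exp_pos _).le (by positivity)
  have h9 : (2.7182818286 : ℝ) ^ 12 * 1.65 ≤ 280000 := by norm_num
  linarith

theorem xP3R_lam : (1200 : ℝ) * (exp (2 * 3) - 1 - 2 * 3) ≤ 60000 * 3 ^ 2 := by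
  have h := xP3R_exp 6
  have h2 : (2.7182818286 : ℝ) ^ 6 ≤ 404 := by norm_num
  have e : (2 * 3 : ℝ) = (6 : ℕ) := by norm_num
  rw [e]
  push_cast at h ⊢
  linarith

theorem xP3R_neg {x : ℝ} (hx : 0 ≤ x) : exp (-x) ≤ 1 / (1 + x) := by
  rw [exp_neg, ← one_div]
  exact one_div_le_one_div_of_le (by positivity) (by linarith [add_one_le_exp x])

theorem xP3R_W : WOK (2 ^ 38) (2 ^ 64) 1.501 1 5 0.00000001 0.5 := by
  have e : ((2 ^ 64 : ℕ) : ℝ) / ((2 ^ 38 : ℕ) : ℝ) = 2 ^ 26 := by norm_num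
  unfold WOK
  rw [e]
  refine ⟨by norm_num, by norm_num, by norm_num, by norm_num, by norm_num, by norm_num,
    by norm_num, ?_, ?_⟩
  · have h1 := add_one_le_exp (-(0.00000001 * (1 / 1.501)) : ℝ)
    have h2 := xP3R_neg (x := 0.5 * (1 / 1.501)) (by norm_num)
    have h3 : (1 : ℝ) / (1 + 0.5 * (1 / 1.501)) ≤ 0.76 := by norm_num
    linarith
  · have h1 := add_one_le_exp (-(0.00000001 * 2 ^ 26) : ℝ)
    have h2 := xP3R_neg (x := 0.5 * 2 ^ 26) (by norm_num)
    have h3 : (1 : ℝ) / (1 + 0.5 * 2 ^ 26) ≤ 0.01 := by norm_num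
    linarith

theorem xP3R_r : 2.02 * 1200 * 0.0000000001 * ((1.501 + (((64 : ℕ) : ℝ) - (38 : ℕ)) * log 2) / π)
    + (60000 + 1.01 * 0.0000000001 * (1200 + 60000)) *
      Wc (2 ^ 38) 80 0.000000000001 30000 5 0.00000001 0.5 ≤ 0.000012 := by
  have l2 := log_two_lt_d9
  have p1 := pi_gt_d2
  have h1 : log (0.5 / 0.00000001) ≤ 19 := by
    have : log (0.5 / 0.00000001) ≤ log (2 ^ 26) := log_le_log (by norm_num) (by norm_num)
    rw [log_pow] at this
    push_cast at this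
    linarith
  have h2 : (1.501 + (((64 : ℕ) : ℝ) - (38 : ℕ)) * log 2) / π ≤ 6.3 := by
    rw [div_le_iff₀ pi_pos]
    push_cast
    linarith
  have h3 : Wc (2 ^ 38) 80 0.000000000001 30000 5 0.00000001 0.5 ≤ 0.00000000015 := by
    unfold Wc
    rw [div_mul_eq_mul_div, div_le_iff₀ pi_pos]
    push_cast
    linarith
  linarith

theorem xP3R_h : hpCost (2 ^ 38) 0 (AG par3 30) (BG par3 30) 0 ≤ 0.000001 := by
  have l1 := log_two_gt_d9
  have l2 := log_two_lt_d9
  have l3 : log 2 * log 2 ≤ 0.49 := by nlinarith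
  have hA : AG par3 30 ≤ 100000 := by
    simp only [AG, par3, aHy, aGr, S2]
    push_cast
    nlinarith
  have s1 : √((2 : ℝ) ^ (2 * 30)) = 2 ^ 30 := by
    rw [mul_comm, pow_mul, sqrt_sq (by positivity)]
  have s2 : √((2 : ℝ) ^ 30) = 2 ^ 15 := by
    rw [show 30 = 15 * 2 from rfl, pow_mul, sqrt_sq (by positivity)]
  have hB : BG par3 30 ≤ 0.0000001 := by
    simp only [BG, par3, bHy, bGr, S2, s1, s2]
    norm_num
  unfold hpCost
  push_cast
  linarith

theorem stP3R : StP3R :=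
  ⟨⟨by norm_num [par3], by norm_num [par3], by norm_num [par3], by norm_num [par3],
    by norm_num [par3], xP3R_f, xP3R_lam, by norm_num [par3], xP3R_W, xP3R_r⟩,
    by norm_num, by norm_num [par3], by norm_num [par3], by norm_num [par3], by norm_num [par3],
    xP3R_h⟩

end Pool.Agent.MP_88bd62_nt.U
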