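import Pool.Agent.MP_88bd62_nt.U.Stmts

/-! The level sums for the tail family of parameters. -/

namespace Pool.Agent.MP_88bd62_nt.U

open Finset Real Filter Topology

theorem xPTL_l2 : 0.69 ≤ log 2 ∧ log 2 ≤ 0.7 :=
  ⟨by have := Real.log_two_gt_d9; linarith, by have := Real.log_two_lt_d9; linarith⟩

theorem xPTL_log {x : ℝ} (hx : 64 ≤ x) : log x ≤ 3.2 + x / 64 := by
  have h1 : log x = 6 * log 2 + log (x / 64) := by
    rw [Real.log_div (by linarith) (by norm_num), show (64 : ℝ) = 2 ^ 6 by norm_num, Real.log_pow]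
    push_cast
    ring
  have h2 := Real.log_le_sub_one_of_pos (x := x / 64) (by linarith)
  have := xPTL_l2.2
  linarith

theorem xPTL_l128 : log 128 ≤ 4.9 := by
  rw [show (128 : ℝ) = 2 ^ 7 by norm_num, Real.log_pow]
  have := xPTL_l2.2
  push_cast
  linarith

theorem xPTL_log1 {x y : ℝ} (hx : 64 ≤ x) (hy : 0 < y) (h : y ≤ 128 * x) : log y ≤ x / 6 := by
  have h1 := Real.log_le_log hy h
  rw [Real.log_mul (by norm_num) (by linarith)] at h1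
  have := xPTL_log hx
  have := xPTL_l128
  linarith

theorem xPTL_log2 {x y : ℝ} (hx : 64 ≤ x) (hy : 0 < y) (h : y ≤ 128 * x ^ 2) :
    log y ≤ x / 4 := by
  have h1 := Real.log_le_log hy h
  rw [Real.log_mul (by norm_num) (by positivity), Real.log_pow] at h1
  have := xPTL_log hx
  have := xPTL_l128
  push_cast at h1
  linarith

theorem xPTL_pow {n : ℕ} (hn : 64 ≤ n) : 8000 * (n : ℝ) ≤ 2 ^ n := by
  obtain ⟨m, rfl⟩ : ∃ m, n = m + 32 := ⟨n - 32, by omega⟩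
  have h1 : (m : ℝ) ≤ 2 ^ m := by exact_mod_cast (Nat.lt_two_pow_self (n := m)).le
  have h2 : (32 : ℝ) ≤ m := by exact_mod_cast (by omega : 32 ≤ m)
  rw [pow_add]
  push_cast
  linarith

theorem xPTL_eM {n : ℕ} (hn : 64 ≤ n) : 0 ≤ eM n ∧ eM n ≤ 1 / 20 := by
  have hx : (64 : ℝ) ≤ n := by exact_mod_cast hn
  have h := xPTL_l2.1
  have h0 : 0 < (n : ℝ) * log 2 := mul_pos (by linarith) (by linarith)
  refine ⟨by unfold eM; positivity, ?_⟩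
  unfold eM
  rw [div_le_iff₀ h0]
  nlinarith

theorem xPTL_r {x : ℝ} (hx : 64 ≤ x) :
    (1 - 1 / (200 * x)) / (1 - (1 - 1 / (200 * x))) = 200 * x - 1 := by
  have : x ≠ 0 := by linarith
  rw [sub_sub_cancel]
  field_simp

theorem xPTL_sl {n : ℕ} (hn : 64 ≤ n) : 0 ≤ slH n (1 / 4) (101 * n ^ 2) ∧
    slH n (1 / 4) (101 * n ^ 2) * (200 * n - 1) ≤ 1 / 5 := by
  have hx : (64 : ℝ) ≤ n := by exact_mod_cast hn
  have h := xPTL_l2.1
  have h1 : 100 * (n : ℝ) ^ 2 ≤ 101 * (n : ℝ) ^ 2 - n := by nlinarith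
  have h2 : 17 * (n : ℝ) ^ 2 ≤ 1 / 4 * (101 * (n : ℝ) ^ 2 - n) * log 2 := by
    have : (0 : ℝ) ≤ (n : ℝ) ^ 2 := by positivity
    nlinarith
  have h3 : 0 < 1 / 4 * (101 * (n : ℝ) ^ 2 - n) * log 2 := lt_of_lt_of_le (by positivity) h2
  unfold slH
  push_cast
  refine ⟨by positivity, ?_⟩
  rw [div_mul_eq_mul_div, div_le_iff₀ h3]
  nlinarith

theorem xPTL_A {n : ℕ} (hn : 64 ≤ n) :
    0 ≤ Atot n n (101 * n ^ 2) (1 / 4) (1 - 1 / (200 * n)) ∧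
      Atot n n (101 * n ^ 2) (1 / 4) (1 - 1 / (200 * n)) ≤ n / 5 := by
  have hx : (64 : ℝ) ≤ n := by exact_mod_cast hn
  have hx0 : (0 : ℝ) < n := by linarith
  obtain ⟨e0, e1⟩ := xPTL_eM hn
  obtain ⟨s0, s1⟩ := xPTL_sl hn
  have h1 : 0 ≤ log ((101 * (n : ℝ) ^ 2 + 1) / n) :=
    Real.log_nonneg (by rw [le_div_iff₀ hx0]; nlinarith)
  have h2 : log ((101 * (n : ℝ) ^ 2 + 1) / n) ≤ n / 6 :=
    xPTL_log1 hx (by positivity) (by rw [div_le_iff₀ hx0]; nlinarith)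
  have h3 : 4 / 2 ^ n * (200 * (n : ℝ) - 1) ≤ 1 / 10 := by
    have := xPTL_pow hn
    rw [div_mul_eq_mul_div, div_le_iff₀ (by positivity)]
    linarith
  have h4 : (0 : ℝ) ≤ 200 * n - 1 := by linarith
  unfold Atot
  rw [xPTL_r hx, add_mul]
  push_cast
  exact ⟨by positivity, by linarith⟩

theorem xPTL_hi {n : ℕ} (hn : 64 ≤ n) : hiB n (2 * n) (1 / 4) ≤ 1 / 1000 / 2 ^ n := by
  have hx : (64 : ℝ) ≤ n := by exact_mod_cast hn
  have h1 : (2 : ℝ) ^ (-(1 / 4 * (((2 * n : ℕ) : ℝ) - n))) ≤ 1 :=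
    Real.rpow_le_one_of_one_le_of_nonpos (by norm_num) (by push_cast; linarith)
  have h2 : (2 : ℝ) ^ (-((1 - 2 * (1 / 4)) * (((2 * n : ℕ) : ℝ) - n))) ≤ 1 / 2 ^ 14 := by
    refine (Real.rpow_le_rpow_of_exponent_le (y := _) (z := -((14 : ℕ) : ℝ)) (by norm_num)
      (by push_cast; linarith)).trans (le_of_eq ?_)
    rw [Real.rpow_neg (by norm_num), Real.rpow_natCast, one_div]
  have h3 : (2 : ℝ) ^ (-(1 - 2 * (1 / 4) : ℝ)) ≤ 3 / 4 := by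
    have a0 : 0 < (2 : ℝ) ^ (-(1 - 2 * (1 / 4) : ℝ)) := by positivity
    have a1 : (2 : ℝ) ^ (-(1 - 2 * (1 / 4) : ℝ)) * (2 : ℝ) ^ (-(1 - 2 * (1 / 4) : ℝ)) = 1 / 2 := by
      rw [← Real.rpow_add (by norm_num),
        show (-(1 - 2 * (1 / 4)) + -(1 - 2 * (1 / 4)) : ℝ) = -1 by norm_num, Real.rpow_neg_one]
      norm_num
    nlinarith
  unfold hiB
  calc _ ≤ (1 + 1) ^ 2 / 2 ^ n * (1 / 2 ^ 14) / (1 / 4 : ℝ) := by
        gcongr
        linarith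
    _ ≤ 1 / 1000 / 2 ^ n := by
        have : (1 + 1) ^ 2 / 2 ^ n * (1 / 2 ^ 14) / (1 / 4 : ℝ) = 1 / 1024 / 2 ^ n := by ring
        rw [this]
        gcongr
        norm_num

theorem xPTL_ok {n : ℕ} (hn : 64 ≤ n) :
    LOK n n n (2 * n) (101 * n ^ 2) (1 / 4) (1 - 1 / (200 * n)) := by
  have hx : (64 : ℝ) ≤ n := by exact_mod_cast hn
  have h1 : 1 / (200 * (n : ℝ)) < 1 := by
    rw [div_lt_one (by linarith)]
    linarith
  have h2 : 0 < 1 / (200 * (n : ℝ)) := by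
    apply one_div_pos.2
    linarith
  refine ⟨by omega, le_rfl, by omega, by omega, by nlinarith, by norm_num, by norm_num,
    by linarith, by linarith, ?_⟩
  have h := xPTL_l2.1
  have h3 : 11 ≤ 1 / 4 * (2 * (n : ℝ) - n) * log 2 := by nlinarith
  unfold slH
  push_cast
  rw [div_le_iff₀ (by linarith)]
  linarith

theorem xPTL_lg {x : ℝ} (hx : 64 ≤ x) : 0 ≤ log ((101 * x ^ 2 - x) / (2 * x - x - 1)) ∧
    log ((101 * x ^ 2 - x) / (2 * x - x - 1)) ≤ x / 4 := by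
  have h1 : 0 < 2 * x - x - 1 := by linarith
  have h2 : 1 ≤ (101 * x ^ 2 - x) / (2 * x - x - 1) := by
    rw [le_div_iff₀ h1]
    nlinarith
  refine ⟨Real.log_nonneg h2, xPTL_log2 hx (by linarith) ?_⟩
  rw [div_le_iff₀ h1]
  have : 0 ≤ x ^ 2 := by positivity
  nlinarith

theorem xPTL_q {n : ℕ} (hn : 64 ≤ n) :
    qP n n n (2 * n) (101 * n ^ 2) (1 / 4) (1 - 1 / (200 * n)) ≤ (n : ℝ) ^ 2 := by
  have hx : (64 : ℝ) ≤ n := by exact_mod_cast hn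
  obtain ⟨e0, e1⟩ := xPTL_eM hn
  obtain ⟨s0, s1⟩ := xPTL_sl hn
  obtain ⟨A0, A1⟩ := xPTL_A hn
  obtain ⟨l0, l1⟩ := xPTL_l2
  obtain ⟨g0, g1⟩ := xPTL_lg hx
  unfold qP
  rw [xPTL_r hx]
  push_cast
  generalize eM n = e at *
  generalize slH n (1 / 4) (101 * n ^ 2) = s at *
  generalize Atot n n (101 * n ^ 2) (1 / 4) (1 - 1 / (200 * n)) = A at *
  generalize (n : ℝ) = x at *
  have hx0 : 0 < x := by linarith
  have t2 : 8 / 35 * log 2 * (2 * x - x) * (log ((x + 2 * x + 1) / (2 * x)) + e) ≤ x := by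
    have a1 : log ((x + 2 * x + 1) / (2 * x)) ≤ log 2 :=
      Real.log_le_log (by positivity) (by rw [div_le_iff₀ (by positivity)]; linarith)
    have a2 : 8 / 35 * log 2 * (2 * x - x) ≤ x := by nlinarith
    have a3 : 0 ≤ 8 / 35 * log 2 * (2 * x - x) := by nlinarith
    nlinarith
  have t3 : log (101 * x ^ 2 - x) ^ 2 ≤ (x / 4) ^ 2 := by
    have a1 : 1 ≤ 101 * x ^ 2 - x := by nlinarith
    exact pow_le_pow_left₀ (Real.log_nonneg a1) (xPTL_log2 hx (by linarith) (by nlinarith)) 2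
  have t4 : 0 ≤ log (2 * x - x - 1) ^ 2 := sq_nonneg _
  have t5 : 0 ≤ log x * log ((101 * x ^ 2 - x + 1) / (2 * x - x)) :=
    mul_nonneg (Real.log_nonneg (by linarith))
      (Real.log_nonneg (by rw [le_div_iff₀ (by linarith)]; nlinarith))
  have t6 : √(1 + (x + 1) / (2 * x - x - 1)) ≤ 2 := by
    rw [Real.sqrt_le_left (by norm_num)]
    have : (x + 1) / (2 * x - x - 1) ≤ 3 := by
      rw [div_le_iff₀ (by linarith)]
      linarith
    linarith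
  have t7 : e * log ((101 * x ^ 2 - x) / (2 * x - x - 1)) ≤ 1 / 20 * (x / 4) := by gcongr
  have t8 : log 2 * s * (200 * x - 1) * A ≤ x := by
    have a1 : 0 ≤ s * (200 * x - 1) := mul_nonneg s0 (by linarith)
    have a2 : log 2 * (s * (200 * x - 1)) ≤ 1 := by nlinarith
    rw [mul_assoc (log 2)]
    nlinarith
  have t9 : 64 * x ≤ x ^ 2 := by nlinarith
  rw [sub_self, mul_zero, zero_mul, zero_add]
  linarith

theorem xPTL_D {n : ℕ} (hn : 64 ≤ n) :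
    DP n n n (2 * n) (101 * n ^ 2) (1 / 4) (1 - 1 / (200 * n)) ≤ n / 2 ^ n := by
  have hx : (64 : ℝ) ≤ n := by exact_mod_cast hn
  obtain ⟨e0, e1⟩ := xPTL_eM hn
  obtain ⟨A0, A1⟩ := xPTL_A hn
  obtain ⟨l0, l1⟩ := xPTL_l2
  have h1 := xPTL_hi hn
  have h2 : ((2 * n : ℕ) : ℝ) / n = 2 := by
    have : (n : ℝ) ≠ 0 := by linarith
    push_cast
    field_simp
  have h3 : (3.03 : ℝ) / 4 ^ n ≤ 3.03 / 2 ^ n := by
    gcongr
    norm_num
  have h4 : hiB n (2 * n) (1 / 4) * Atot n n (101 * n ^ 2) (1 / 4) (1 - 1 / (200 * n)) ≤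
      1 / 1000 / 2 ^ n * (n / 5) :=
    (mul_le_mul_of_nonneg_right h1 A0).trans (by gcongr)
  have h5 : 6.06 / 2 ^ n * (log 2 + eM n) ≤ 6.06 / 2 ^ n * 1 := by
    gcongr
    linarith
  have h6 : (0 : ℝ) < (2 ^ n)⁻¹ := by positivity
  have h7 : 64 * ((2 : ℝ) ^ n)⁻¹ ≤ n * (2 ^ n)⁻¹ := by gcongr
  unfold DP S2
  rw [h2]
  simp only [div_eq_mul_inv _ ((2 : ℝ) ^ n)] at *
  linarith

theorem xPTL_a {n : ℕ} (hn : 64 ≤ n) :
    aP n n n (2 * n) (101 * n ^ 2) (1 / 4) (1 - 1 / (200 * n)) ≤ (n : ℝ) ^ 2 := by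
  have hx : (64 : ℝ) ≤ n := by exact_mod_cast hn
  obtain ⟨s0, s1⟩ := xPTL_sl hn
  obtain ⟨l0, l1⟩ := xPTL_l2
  obtain ⟨g0, g1⟩ := xPTL_lg hx
  unfold aP
  rw [xPTL_r hx]
  push_cast
  generalize slH n (1 / 4) (101 * n ^ 2) = s at *
  generalize (n : ℝ) = x at *
  have t1 : log 2 * ((x - x) / 2 + 8 / 35 * (2 * x - x)) ≤ x := by nlinarith
  have t2 : log 2 * s * (200 * x - 1) ≤ 1 := by
    have a1 : 0 ≤ s * (200 * x - 1) := mul_nonneg s0 (by linarith)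
    rw [mul_assoc]
    nlinarith
  have t9 : 64 * x ≤ x ^ 2 := by nlinarith
  linarith

theorem xPTL_b {n : ℕ} (hn : 64 ≤ n) : bP n n n (2 * n) (1 / 4) ≤ n / 2 ^ n := by
  have hx : (64 : ℝ) ≤ n := by exact_mod_cast hn
  have h1 := xPTL_hi hn
  have h6 : (0 : ℝ) < (2 ^ n)⁻¹ := by positivity
  have h7 : 64 * ((2 : ℝ) ^ n)⁻¹ ≤ n * (2 ^ n)⁻¹ := by gcongr
  unfold bP
  simp only [div_eq_mul_inv _ ((2 : ℝ) ^ n)] at *
  linarith

theorem stPTL : StPTL := by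
  intro n hn
  obtain ⟨A0, A1⟩ := xPTL_A hn
  refine ⟨⟨xPTL_ok hn, xPTL_q hn, xPTL_D hn, ?_⟩, xPTL_ok hn, xPTL_a hn, xPTL_b hn, ?_, ?_⟩
  · show 420 * Atot n n (101 * n ^ 2) (1 / 4) (1 - 1 / (200 * n)) ^ 2 ≤ 420 * (n : ℝ) ^ 2
    have : (0 : ℝ) ≤ n := Nat.cast_nonneg n
    gcongr
    linarith
  · show (0 : ℝ) ≤ (n : ℝ) ^ 2
    positivity
  · show (0 : ℝ) ≤ n / 2 ^ n
    positivity

end Pool.Agent.MP_88bd62_nt.U
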