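import Pool.Agent.MP_88bd62_nt.U.Stmts

/-! The remainder and high pass conditions for the tail stages. -/

namespace Pool.Agent.MP_88bd62_nt.U

open Finset Real

theorem xPTR_pow (n : ℕ) (hn : 64 ≤ n) : (50 * n ^ 7) ^ 4 ≤ 8 ^ n := by
  induction n, hn using Nat.le_induction with
  | base => norm_num
  | succ n hn ih =>
    have h1 : (64 * (n + 1)) ^ 28 ≤ (65 * n) ^ 28 := Nat.pow_le_pow_left (by omega) _
    have h2 : (n + 1) ^ 28 ≤ 8 * n ^ 28 := by
      rw [mul_pow, mul_pow] at h1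
      have h3 : 65 ^ 28 * n ^ 28 ≤ 64 ^ 28 * (8 * n ^ 28) := by
        rw [← mul_assoc]
        exact Nat.mul_le_mul_right _ (by norm_num)
      exact Nat.le_of_mul_le_mul_left (h1.trans h3) (by norm_num)
    calc (50 * (n + 1) ^ 7) ^ 4 = 50 ^ 4 * (n + 1) ^ 28 := by ring
      _ ≤ 50 ^ 4 * (8 * n ^ 28) := Nat.mul_le_mul_left _ h2
      _ = 8 * (50 * n ^ 7) ^ 4 := by ring
      _ ≤ 8 * 8 ^ n := Nat.mul_le_mul_left _ ih
      _ = 8 ^ (n + 1) := by ring

theorem xPTR_key (n : ℕ) (hn : 64 ≤ n) : 50 * (n : ℝ) ^ 7 / 2 ^ n ≤ 1 / 2 ^ (n / 4) := by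
  have h1 : (2 ^ (n / 4)) ^ 4 ≤ 2 ^ n := by
    rw [← pow_mul]
    exact Nat.pow_le_pow_right two_pos (Nat.div_mul_le_self n 4)
  have h2 : (50 * n ^ 7 * 2 ^ (n / 4)) ^ 4 ≤ (2 ^ n) ^ 4 := by
    calc (50 * n ^ 7 * 2 ^ (n / 4)) ^ 4 = (50 * n ^ 7) ^ 4 * (2 ^ (n / 4)) ^ 4 := mul_pow _ _ _
      _ ≤ 8 ^ n * 2 ^ n := Nat.mul_le_mul (xPTR_pow n hn) h1
      _ = (2 ^ n) ^ 4 := by rw [← mul_pow, ← pow_mul, mul_comm n 4, pow_mul]; norm_num
  have h3 := (Nat.pow_le_pow_iff_left (by norm_num)).1 h2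
  rw [div_le_div_iff₀ (by positivity) (by positivity), one_mul]
  exact_mod_cast h3

theorem xPTR_exp {y : ℝ} (hy : 0 ≤ y) : exp (-y) ≤ 1 / (1 + y) := by
  rw [exp_neg, one_div]
  exact inv_anti₀ (by positivity) (by linarith [add_one_le_exp y])

theorem xPTR_J {x : ℝ} (hx : 64 ≤ x) : Jf (2 * x) ≤ 2 * x := by
  have p1 := pi_gt_d2
  have p2 := pi_lt_d2
  unfold Jf Jg al1 al2 al0
  have a0 : 0 ≤ log (2 * x / 2 + 3.1) := log_nonneg (by linarith)
  have a1 := log_le_sub_one_of_pos (x := 2 * x / 2 + 3.1) (by linarith)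
  have b0 : 0 ≤ log (6.7 : ℝ) := log_nonneg (by norm_num)
  have b1 := log_le_sub_one_of_pos (x := (6.7 : ℝ)) (by norm_num)
  have c0 : 0 ≤ log (1.132 * (2 * x) + 4.45) := log_nonneg (by linarith)
  have c1 := log_le_sub_one_of_pos (x := 1.132 * (2 * x) + 4.45) (by linarith)
  generalize log (2 * x / 2 + 3.1) = a at *
  generalize log (6.7 : ℝ) = b at *
  generalize log (1.132 * (2 * x) + 4.45) = c at *
  rw [div_le_iff₀ (by positivity)]
  have e1 := mul_le_mul_of_nonneg_right p2.le a0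
  have e2 := mul_nonneg pi_pos.le b0
  have e3 := mul_le_mul_of_nonneg_right p2.le c0
  have e4 := mul_le_mul_of_nonneg_right p1.le (show 0 ≤ x by linarith)
  linarith

theorem xPTR_f {x : ℝ} (hx : 64 ≤ x) :
    2.35 * (4 / 9) * exp (2 * lvG (log ((1 / (1 / (10 * x)) + 1) / 1.6))
      (Sbar (2 * x) (1 / (10 * x))) (Jf (2 * x)) (1 / (10 * x)) (1 / (50 * x))) ≤ x ^ 5 := by
  have x0 : 0 < x := by linarith
  have l1 := log_two_gt_d9
  have l2 := log_two_lt_d9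
  have ht : 6 * log 2 ≤ log x := by
    have := log_le_log (by norm_num) hx
    rwa [show (64 : ℝ) = 2 ^ 6 by norm_num, log_pow, Nat.cast_ofNat] at this
  have l8 : log 8 = 3 * log 2 := by
    rw [show (8 : ℝ) = 2 ^ 3 by norm_num, log_pow, Nat.cast_ofNat]
  have hl0 : 0 ≤ log ((1 / (1 / (10 * x)) + 1) / 1.6) := log_nonneg (by
    rw [one_div_one_div, le_div_iff₀ (by norm_num)]; linarith)
  have hl : log ((1 / (1 / (10 * x)) + 1) / 1.6) ≤ 3 * log 2 + log x := by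
    rw [← l8, ← log_mul (by norm_num) x0.ne', one_div_one_div]
    exact log_le_log (by positivity) (by rw [div_le_iff₀ (by norm_num)]; linarith)
  have hS : Sbar (2 * x) (1 / (10 * x)) ≤ 8 * x := by
    change 1.40277304 / 2.391424 * (1 / (1 / (10 * x)) - 0.4) + 2 * x ≤ 8 * x
    rw [one_div_one_div]
    linarith
  have hJ := xPTR_J hx
  have h6 : log (1 + 1 / (10 * x) / (1 / (50 * x))) ≤ 2.08 := by
    have : 1 + 1 / (10 * x) / (1 / (50 * x)) = 6 := by field_simp; norm_num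
    rw [this]
    linarith [log_le_log (show (0 : ℝ) < 6 by norm_num) (show (6 : ℝ) ≤ 8 by norm_num)]
  have h60 : 0 ≤ log (1 + 1 / (10 * x) / (1 / (50 * x))) :=
    log_nonneg (le_add_of_nonneg_right (by positivity))
  unfold lvG
  generalize log ((1 / (1 / (10 * x)) + 1) / 1.6) = l at *
  generalize Sbar (2 * x) (1 / (10 * x)) = S at *
  generalize Jf (2 * x) = J at *
  generalize log (1 + 1 / (10 * x) / (1 / (50 * x))) = m at *
  have e0 : 0 < 1 / (10 * x) / 0.999 := by positivity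
  have ex : 1 / (10 * x) / 0.999 * x ≤ 0.1002 := by
    rw [show 1 / (10 * x) / 0.999 * x = 1 / 9.99 by field_simp; norm_num]
    norm_num
  have e1 : 1 / (10 * x) / 0.999 ≤ 0.002 := by nlinarith
  have d1 : (1 / (10 * x) + 1 / (50 * x)) * (8 * x) = 0.96 := by field_simp; norm_num
  have d0 : 0 < 1 / (10 * x) + 1 / (50 * x) := by positivity
  generalize 1 / (10 * x) / 0.999 = e at *
  generalize 1 / (10 * x) + 1 / (50 * x) = d at *
  have t1 : (1 + 2 * e / (1 - e)) * l ≤ 1.01 * l := by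
    refine mul_le_mul_of_nonneg_right ?_ hl0
    have : 2 * e / (1 - e) ≤ 0.01 := by rw [div_le_iff₀ (by linarith)]; linarith
    linarith
  have t2 : S * (d * m) / (1 - e) ≤ 2.1 := by
    rw [div_le_iff₀ (by linarith)]
    have := mul_le_mul_of_nonneg_right hS (mul_nonneg d0.le h60)
    have h2 : 8 * x * (d * m) = 0.96 * m := by rw [← d1]; ring
    linarith
  have t3 : 2 * e * (1 + e) / (1 - e) ^ 3 * J ≤ 0.5 := by
    have h3 : (0.998 : ℝ) ^ 3 ≤ (1 - e) ^ 3 := pow_le_pow_left₀ (by norm_num) (by linarith) 3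
    have h4 : 0 < (1 - e) ^ 3 := lt_of_lt_of_le (by norm_num) h3
    refine (mul_le_mul_of_nonneg_left hJ (by positivity)).trans ?_
    rw [div_mul_eq_mul_div, div_le_iff₀ h4]
    have h5 : e * x * (1 + e) ≤ 0.1002 * 1.002 :=
      mul_le_mul ex (by linarith) (by linarith) (by norm_num)
    norm_num at h3 h5 ⊢
    linarith
  calc _ ≤ exp 0.05 * exp (2 * (1.01 * l + 2.1 + 0.5)) := by
        refine mul_le_mul ?_ (exp_le_exp.2 (by linarith)) (exp_pos _).le (exp_pos _).le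
        linarith [add_one_le_exp (0.05 : ℝ)]
    _ ≤ exp (5 * log x) := by
        rw [← exp_add]
        exact exp_le_exp.2 (by linarith)
    _ = x ^ 5 := by
        rw [show 5 * log x = log (x ^ 5) by rw [log_pow, Nat.cast_ofNat], exp_log (by positivity)]

theorem xPTR_W {P : ℝ} (N N' : ℕ) (hN : (N : ℝ) = P) (hN' : (N' : ℝ) = P * P) (hP : 100 ≤ P) :
    WOK N N' 1.501 1 4 (1 / (P * 2)) 2 := by
  have P0 : 0 < P := by linarith
  have ha : 1 / (P * 2) ≤ 1 / 200 := one_div_le_one_div_of_le (by norm_num) (by linarith)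
  have ha0 : 0 < 1 / (P * 2) := by positivity
  unfold WOK
  rw [hN, hN', mul_div_assoc, div_self P0.ne', mul_one]
  refine ⟨by norm_num, by norm_num, by norm_num, ha0, by linarith, by linarith,
    le_trans (by norm_num) hP, ?_, ?_⟩
  · have h1 := add_one_le_exp (-(1 / (P * 2) * (1 / 1.501)))
    have h2 := xPTR_exp (y := 2 * (1 / 1.501)) (by norm_num)
    have h3 : 1 / (1 + 2 * (1 / 1.501 : ℝ)) ≤ 0.5 := by norm_num
    have h4 : 1 / (P * 2) * (1 / 1.501) ≤ 1 / 200 * 1 :=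
      mul_le_mul ha (by norm_num) (by norm_num) (by norm_num)
    linarith
  · have h0 : 1 / (P * 2) * P = 1 / 2 := by field_simp
    have h1 := add_one_le_exp (-(1 / (P * 2) * P))
    have h2 := xPTR_exp (y := 2 * P) (by linarith)
    have h3 : 1 / (1 + 2 * P) ≤ 1 / 4 := one_div_le_one_div_of_le (by norm_num) (by linarith)
    linarith

theorem xPTR_r {x P : ℝ} (N : ℕ) (hN : (N : ℝ) = P) (hx : 64 ≤ x) (hP : 1000 * x ^ 2 ≤ P)
    (hl : log (2 / (1 / (P * 2))) ≤ x) :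
    2.02 * x ^ 3 * (x ^ 2 / P) * ((1.501 + (2 * x - x) * log 2) / π)
      + (5 * x ^ 5 + 1.01 * (x ^ 2 / P) * (x ^ 3 + 5 * x ^ 5))
        * Wc N (x ^ 2) (x / P) (420 * x ^ 2) 4 (1 / (P * 2)) 2 ≤ 50 * x ^ 7 / P := by
  have x0 : 0 < x := by linarith
  have x2 : 1 ≤ x ^ 2 := one_le_pow₀ (by linarith)
  have P0 : 0 < P := by linarith
  have p1 := pi_gt_three
  have l2 := log_two_lt_d9
  have he : x ^ 2 / P ≤ 1 := by rw [div_le_one P0]; linarith
  have h35 : x ^ 3 ≤ x ^ 5 := pow_le_pow_right₀ (by linarith) (by norm_num)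
  have t1 : (1.501 + (2 * x - x) * log 2) / π ≤ x ^ 2 := by
    rw [div_le_iff₀ pi_pos]
    nlinarith
  have t2 : Wc N (x ^ 2) (x / P) (420 * x ^ 2) 4 (1 / (P * 2)) 2 ≤ 4 * x ^ 2 / P := by
    unfold Wc
    rw [hN]
    have h1 : 420 * x ^ 2 * 2 / (2 * P) ≤ x ^ 2 := by
      rw [div_le_iff₀ (by positivity)]
      nlinarith
    have h2 : (x ^ 2 + 420 * x ^ 2 * 2 / (2 * P)) * (2 - 1 / (P * 2)) ≤ (2 * x ^ 2) * 2 := by
      have h0 : 0 < 1 / (P * 2) := by positivity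
      refine (mul_le_mul_of_nonneg_left (show 2 - 1 / (P * 2) ≤ 2 by linarith)
        (by positivity)).trans ?_
      linarith
    have h3 := div_le_div_of_nonneg_right h2 (show 0 ≤ 2 * P by positivity)
    have h4 := mul_le_mul_of_nonneg_left hl (show 0 ≤ x / P by positivity)
    have h5 : 4 / π ≤ 4 / 3 := div_le_div_of_nonneg_left (by norm_num) (by norm_num) p1.le
    calc _ ≤ 4 / π * (2 * x ^ 2 * 2 / (2 * P) + x / P * x) :=
          mul_le_mul_of_nonneg_left (add_le_add h3 h4) (by positivity)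
      _ ≤ 4 / 3 * (2 * x ^ 2 * 2 / (2 * P) + x / P * x) :=
          mul_le_mul_of_nonneg_right h5 (by positivity)
      _ = 4 * x ^ 2 / P := by field_simp; ring
  have t3 : 5 * x ^ 5 + 1.01 * (x ^ 2 / P) * (x ^ 3 + 5 * x ^ 5) ≤ 11.1 * x ^ 5 := by
    have := mul_le_mul_of_nonneg_right he (show 0 ≤ x ^ 3 + 5 * x ^ 5 by positivity)
    have : 0 < x ^ 5 := by positivity
    nlinarith
  calc _ ≤ 2.02 * x ^ 3 * (x ^ 2 / P) * x ^ 2 + (5 * x ^ 5 + 1.01 * (x ^ 2 / P)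
          * (x ^ 3 + 5 * x ^ 5)) * (4 * x ^ 2 / P) :=
        add_le_add (mul_le_mul_of_nonneg_left t1 (by positivity))
          (mul_le_mul_of_nonneg_left t2 (by positivity))
    _ ≤ 2.02 * x ^ 3 * (x ^ 2 / P) * x ^ 2 + 11.1 * x ^ 5 * (4 * x ^ 2 / P) :=
        add_le_add le_rfl (mul_le_mul_of_nonneg_right t3 (by positivity))
    _ = 46.42 * (x ^ 7 / P) := by ring
    _ ≤ 50 * (x ^ 7 / P) := mul_le_mul_of_nonneg_right (by norm_num) (by positivity)
    _ = _ := by ring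

theorem xPTR_big (n : ℕ) (hn : 64 ≤ n) : 1000 * (n : ℝ) ^ 5 ≤ 2 ^ n := by
  have hx : (64 : ℝ) ≤ n := by exact_mod_cast hn
  have h := (xPTR_key n hn).trans (div_le_one_of_le₀ (one_le_pow₀ one_le_two) (by positivity))
  rw [div_le_one (by positivity)] at h
  have h2 : (64 : ℝ) ^ 2 ≤ (n : ℝ) ^ 2 := pow_le_pow_left₀ (by norm_num) hx 2
  have h3 := mul_le_mul_of_nonneg_left h2 (show 0 ≤ (n : ℝ) ^ 5 by positivity)
  have h4 : 0 ≤ (n : ℝ) ^ 5 := by positivity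
  nlinarith

theorem xPTR_R (n : ℕ) (hn : 64 ≤ n) : ROK (parT n) (1 / 2 ^ (n / 4)) := by
  have hx : (64 : ℝ) ≤ n := by exact_mod_cast hn
  have hb := xPTR_big n hn
  have h25 : (n : ℝ) ^ 2 ≤ (n : ℝ) ^ 5 := pow_le_pow_right₀ (by linarith) (by norm_num)
  have h35 : (n : ℝ) ^ 3 ≤ (n : ℝ) ^ 5 := pow_le_pow_right₀ (by linarith) (by norm_num)
  have h5 : 1 ≤ (n : ℝ) ^ 5 := one_le_pow₀ (by linarith)
  unfold ROK
  simp only [parT]
  refine ⟨by positivity, one_div_le_one_div_of_le (by norm_num) (by linarith), one_pos,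
    by positivity, by positivity, xPTR_f hx, ?_, ?_, ?_, ?_⟩
  · have h1 : exp (2 * 1) ≤ 8 := by
      rw [two_mul, exp_add]
      nlinarith [exp_one_lt_d9, exp_pos 1]
    have := mul_le_mul_of_nonneg_left h1 (show 0 ≤ (n : ℝ) ^ 3 by positivity)
    linarith
  · have he : (n : ℝ) ^ 2 / 2 ^ n ≤ 1 / 2 := by
      rw [div_le_iff₀ (by positivity)]
      linarith
    have := mul_le_mul_of_nonneg_left he (show 0 ≤ (n : ℝ) ^ 5 by positivity)
    linarith
  · rw [pow_succ]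
    exact xPTR_W _ _ (by push_cast; rfl) (by push_cast; rw [two_mul, pow_add]) (by linarith)
  · refine le_trans ?_ (xPTR_key n hn)
    rw [pow_succ, Nat.cast_mul, Nat.cast_ofNat]
    refine xPTR_r _ (by push_cast; rfl) hx (by linarith) ?_
    rw [show (2 : ℝ) / (1 / (2 ^ n * 2)) = 2 ^ (n + 2) by field_simp; ring, log_pow]
    push_cast
    nlinarith [log_two_lt_d9]

theorem xPTR_hp {N : ℕ} {A B A' B' P : ℝ} (hN : (N : ℝ) = P) (hP : 8 ≤ P) (hA : A ≤ A')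
    (hB : B ≤ B') (A0 : 0 ≤ A') (B0 : 0 ≤ B') : hpCost N 0 A B 0 ≤ 2 * (A' / P) + 2 * B' := by
  have P0 : 0 < P := by linarith
  unfold hpCost
  rw [hN]
  have h1 : A * (0.4225 / P + 3 * P * 0 ^ 2) ≤ 0.4225 * (A' / P) := by
    refine (mul_le_mul_of_nonneg_right hA (by positivity)).trans (le_of_eq ?_)
    ring
  have h2 : (A + 64 * B + 0) / P ^ 2 ≤ A' / P + B' := by
    rw [div_le_iff₀ (by positivity)]
    have e : (A' / P + B') * P ^ 2 = A' * P + B' * P ^ 2 := by field_simp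
    have h3 := mul_le_mul_of_nonneg_left hP A0
    have h4 := mul_le_mul_of_nonneg_left (pow_le_pow_left₀ (by norm_num) hP 2) B0
    linarith
  have h5 : 0 ≤ A' / P := by positivity
  linarith

theorem xPTR_aHy {jY jD : ℕ} (h : 64 ≤ jD) (h1 : jY ≤ 2 * jD) : aHy jY jD ≤ (jD : ℝ) ^ 5 := by
  have hx : (64 : ℝ) ≤ jD := by exact_mod_cast h
  have hy : (jY : ℝ) ≤ 2 * jD := by exact_mod_cast h1
  have y0 : (0 : ℝ) ≤ jY := Nat.cast_nonneg _
  have l1 := log_two_gt_d9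
  have l2 := log_two_lt_d9
  have h2 : 1.011 * log 2 * (2 * (jD : ℝ) - jY + 1) ≤ 1 * (3 * jD) :=
    mul_le_mul (by linarith) (by linarith) (by linarith) zero_le_one
  have h3 : 2 / 35 * log 2 * ((jY : ℝ) + 2 * jD + 2) ≤ 1 / 10 * (5 * jD) :=
    mul_le_mul (by linarith) (by linarith) (by linarith) (by norm_num)
  have h4 : aHy jY jD ≤ (1 * (3 * jD)) * jD :=
    mul_le_mul h2 (by linarith) (by positivity) (by positivity)
  have h5 : (64 : ℝ) ^ 3 ≤ (jD : ℝ) ^ 3 := pow_le_pow_left₀ (by norm_num) hx 3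
  have h6 := mul_le_mul_of_nonneg_left h5 (show 0 ≤ (jD : ℝ) ^ 2 by positivity)
  nlinarith

theorem xPTR_bHy {j : ℕ} (h : 10 ≤ j) : bHy (2 * j) ≤ 2 / 2 ^ j := by
  have hQ : (2 : ℝ) ^ 10 ≤ 2 ^ j := pow_le_pow_right₀ one_le_two h
  unfold bHy
  rw [two_mul, pow_add, sqrt_mul_self (by positivity)]
  generalize (2 : ℝ) ^ j = Q at *
  have Q0 : 0 < Q := by linarith
  have h1 : 6.06 / (Q * Q) ≤ 0.01 / Q := by
    rw [div_le_div_iff₀ (by positivity) Q0]
    nlinarith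
  have h2 : 2.022 * (0.781 / Q + 0.01 / Q) ≤ 2 / Q := by
    rw [← add_div, ← mul_div_assoc]
    exact div_le_div_of_nonneg_right (by norm_num) Q0.le
  linarith

theorem xPTR_S2 {j : ℕ} (h : 10 ≤ j) : S2 j ≤ 1 / 2 ^ j := by
  have hQ : (2 : ℝ) ^ 10 ≤ 2 ^ j := pow_le_pow_right₀ one_le_two h
  unfold S2
  rw [show (4 : ℝ) = 2 * 2 by norm_num, mul_pow]
  generalize (2 : ℝ) ^ j = Q at *
  have Q0 : 0 < Q := by linarith
  have h1 : 3.03 / (Q * Q) ≤ 0.01 / Q := by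
    rw [div_le_div_iff₀ (by positivity) Q0]
    nlinarith
  have h2 : 8 / 35 / Q + 0.01 / Q ≤ 1 / Q := by
    rw [← add_div]
    exact div_le_div_of_nonneg_right (by norm_num) Q0.le
  linarith

theorem xPTR_H (n j : ℕ) (hn : 64 ≤ n) (h1 : j ≤ n) (h2 : n ≤ 2 * j) :
    HOK (parT n) j (1 / 2 ^ (n / 4)) := by
  have hx : (64 : ℝ) ≤ n := by exact_mod_cast hn
  have hb := xPTR_big n hn
  have h5 : (64 : ℝ) ^ 5 ≤ (n : ℝ) ^ 5 := pow_le_pow_left₀ (by norm_num) hx 5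
  have l1 := log_two_gt_d9
  have l2 := log_two_lt_d9
  have hS := xPTR_S2 (j := j) (by omega)
  have hS0 : 0 ≤ S2 j := by unfold S2; positivity
  have hS1 : S2 j ≤ 1 := hS.trans (div_le_one_of_le₀ (one_le_pow₀ one_le_two) (by positivity))
  have hG : aGr n ((n : ℝ) ^ 2) ≤ (n : ℝ) ^ 5 := by
    have h3 : 1.011 * log 2 * (8 / 35) * ((n : ℝ) + 1) ≤ 1 / 4 * (2 * n) :=
      mul_le_mul (by linarith) (by linarith) (by linarith) (by norm_num)
    refine (mul_le_mul_of_nonneg_left h3 (by positivity)).trans (le_of_eq ?_)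
    ring
  have hA : AG (parT n) j ≤ 40 * (n : ℝ) ^ 5 := by
    unfold AG
    simp only [parT]
    have a1 := xPTR_aHy (jY := 2 * j) hn (by omega)
    have a2 := xPTR_aHy (jY := 30) hn (by omega)
    have a3 : S2 j * (272 + aHy 30 n + aGr n ((n : ℝ) ^ 2)) ≤ 1 * (3 * (n : ℝ) ^ 5) :=
      (mul_le_mul_of_nonneg_left (by linarith) hS0).trans
        (mul_le_mul_of_nonneg_right hS1 (by positivity))
    nlinarith
  have hK := xPTR_key n hn
  have h57 : 1000 * ((n : ℝ) ^ 5 / 2 ^ n) ≤ 1 / 2 ^ (n / 4) := by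
    refine le_trans ?_ hK
    rw [← mul_div_assoc]
    refine div_le_div_of_nonneg_right ?_ (by positivity)
    have h3 : (64 : ℝ) ^ 2 ≤ (n : ℝ) ^ 2 := pow_le_pow_left₀ (by norm_num) hx 2
    have h4 := mul_le_mul_of_nonneg_left h3 (show 0 ≤ (n : ℝ) ^ 5 by positivity)
    nlinarith
  have h45 : (n : ℝ) ^ 4 / 2 ^ n ≤ (n : ℝ) ^ 5 / 2 ^ n := div_le_div_of_nonneg_right
    (pow_le_pow_right₀ (by linarith) (by norm_num)) (by positivity)
  have hQ : 1000 * (1 / (2 : ℝ) ^ j) ≤ 1 / 2 ^ (n / 4) := by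
    have h3 : (2 : ℝ) ^ (n / 4 + 10) ≤ 2 ^ j := pow_le_pow_right₀ one_le_two (by omega)
    rw [mul_one_div, div_le_div_iff₀ (by positivity) (by positivity)]
    rw [pow_add] at h3
    have : (0 : ℝ) < 2 ^ (n / 4) := by positivity
    linarith
  have hu : 1 / (2 : ℝ) ^ (n / 4) ≤ 1 := div_le_one_of_le₀ (one_le_pow₀ one_le_two) (by positivity)
  have hu0 : 0 < 1 / (2 : ℝ) ^ (n / 4) := by positivity
  have h40 : 0 ≤ (n : ℝ) ^ 4 / 2 ^ n := by positivity
  have hB : BG (parT n) j ≤ 1 / 5 * (1 / 2 ^ (n / 4)) := by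
    unfold BG
    simp only [parT]
    have b1 := xPTR_bHy (j := j) (by omega)
    have b2 : bHy 30 ≤ 1 := (xPTR_bHy (j := 15) (by norm_num)).trans (by norm_num)
    have b3 : bGr n ((n : ℝ) ^ 2) = 2 * 1.011 * 6.06 * ((n : ℝ) ^ 4 / 2 ^ n) := by
      unfold bGr
      ring
    have b4 : S2 j * (2.100122 + bHy 30 + bGr n ((n : ℝ) ^ 2)) ≤ 1 / 2 ^ j * 4 :=
      (mul_le_mul_of_nonneg_left (by linarith) hS0).trans
        (mul_le_mul_of_nonneg_right hS (by norm_num))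
    have b5 : 2 * (n : ℝ) ^ 3 * (n / 2 ^ n) = 2 * ((n : ℝ) ^ 4 / 2 ^ n) := by ring
    have b6 : 2 / (2 : ℝ) ^ j = 2 * (1 / 2 ^ j) := by ring
    rw [b5, mul_assoc 7.35]
    linarith
  refine ⟨by omega, h1, h2, h1, by change 15 ≤ n; omega, ?_⟩
  refine (xPTR_hp (P := 2 ^ n) (by simp [parT]) (by linarith) hA hB (by positivity)
    (by positivity)).trans ?_
  rw [mul_div_assoc]
  linarith

theorem stPTR : StPTR := fun n j hn h1 h2 => ⟨xPTR_R n hn, xPTR_H n j hn h1 h2⟩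

end Pool.Agent.MP_88bd62_nt.U
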