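import Pool.Agent.MP_88bd62_nt.U.Stmts

/-! The analytic side conditions for the late stages. -/

namespace Pool.Agent.MP_88bd62_nt.U

open Real Finset

theorem xPTX_log {y : ℝ} (hy : 0 < y) (k : ℕ) : log y ≤ 0.7 * k + y / 2 ^ k - 1 := by
  have h := log_le_sub_one_of_pos (div_pos hy (pow_pos two_pos k))
  rw [log_div hy.ne' (by positivity), log_pow] at h
  have h2 := mul_le_mul_of_nonneg_left log_two_lt_d9.le (Nat.cast_nonneg (α := ℝ) k)
  have h3 : (0 : ℝ) ≤ k := Nat.cast_nonneg k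
  linarith

theorem xPTX_al {L : ℝ} (hL : 128 ≤ L) :
    0 ≤ al0 L ∧ al0 L ≤ L / 16 + 2 ∧ log (1.132 * L + 4.45) ≤ 0.15 * L + 2 ∧
      0 ≤ log 6.7 ∧ log 6.7 ≤ 2 := by
  have h1 := xPTX_log (y := L / 2 + 3.1) (by linarith) 3
  have h2 := xPTX_log (y := 1.132 * L + 4.45) (by linarith) 3
  have h3 := xPTX_log (y := 6.7) (by norm_num) 3
  push_cast at h1 h2 h3
  exact ⟨log_nonneg (by linarith), by unfold al0; linarith, by linarith, log_nonneg (by norm_num),
    by linarith⟩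

theorem xPTX_Kf {L : ℝ} (hL : 128 ≤ L) : Kf L ≤ L / 2 := by
  obtain ⟨h1, h2, h3, h4, h5⟩ := xPTX_al hL
  have p1 := pi_gt_three
  have p2 := pi_lt_d2
  have a1 : (0.39 * π + 0.668) / (π * 0.999) ≤ 1 := by
    rw [div_le_one (by positivity)]
    linarith
  have a2 : (2 * al0 L + al1 L * π / 2 + al2 L * 4 / 3) / π ≤ 0.4 * L := by
    rw [div_le_iff₀ pi_pos, al1, al2]
    have b1 : al0 L * 3 ≤ al0 L * π := mul_le_mul_of_nonneg_left p1.le h1
    have b2 : log 6.7 * π ≤ log 6.7 * 3.15 := mul_le_mul_of_nonneg_left p2.le h4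
    have b3 : L * 3 ≤ L * π := mul_le_mul_of_nonneg_left p1.le (by linarith)
    linarith
  rw [Kf, Kg, div_le_iff₀ (by norm_num)]
  linarith

theorem xPTX_L (n j : ℕ) : (parT n).L j = 2 * n := by
  rcases j with _ | _ | _ | _ | j <;> rfl

theorem xPTX_pow {n : ℕ} (hn : 64 ≤ n) : 100 * n ^ 2 ≤ 2 ^ n := by
  induction n, hn using Nat.le_induction with
  | base => norm_num
  | succ k hk ih =>
    have h : (k + 1) ^ 2 ≤ 2 * k ^ 2 := by nlinarith
    rw [pow_succ 2 k]
    omega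

theorem xPTX_zok {n : ℕ} (hn : 64 ≤ n) : ZOK (10 * 4 ^ n) (parT n).L (2 * n) := by
  have hN : (64 : ℝ) ≤ n := by exact_mod_cast hn
  refine ⟨fun j hj => ?_, ?_⟩
  · rw [xPTX_L]
    refine ⟨by linarith, ?_⟩
    have h1 : (j : ℝ) ≤ 4 := by exact_mod_cast (mem_Icc.1 hj).2
    have h2 : (1 : ℝ) ≤ 4 ^ n := one_le_pow₀ (by norm_num)
    have h3 : exp (2 * n) = 4 ^ n * exp (2 * n - n * log 4) := by
      rw [← exp_log (show (0 : ℝ) < 4 ^ n by positivity), ← exp_add, log_pow]
      congr 1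
      ring
    have h4 : log 4 ≤ 1.4 := by
      rw [show (4 : ℝ) = 2 ^ 2 by norm_num, log_pow]
      have := log_two_lt_d9
      push_cast
      linarith
    have h5 : 10 ≤ exp (2 * n - n * log 4) := by
      have h6 := add_one_le_exp (2 * n - n * log 4)
      have h7 := mul_le_mul_of_nonneg_left h4 (Nat.cast_nonneg (α := ℝ) n)
      linarith
    have h6 : 4 ^ n * 10 ≤ exp (2 * n) := by
      rw [h3]
      exact mul_le_mul_of_nonneg_left h5 (by positivity)
    have h7 : j * (10 * 4 ^ n) ≤ (4 : ℝ) * (10 * 4 ^ n) :=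
      mul_le_mul_of_nonneg_right h1 (by positivity)
    have h8 : 3 * exp (2 * n) ≤ π * exp (2 * n) :=
      mul_le_mul_of_nonneg_right pi_gt_three.le (exp_pos _).le
    linarith
  · have h1 := xPTX_Kf (L := 2 * n) (by linarith)
    have h2 : Icc 1 4 = ({1, 2, 3, 4} : Finset ℕ) := rfl
    simp only [xPTX_L, h2]
    rw [sum_insert (by decide), sum_insert (by decide), sum_insert (by decide), sum_singleton]
    simp only [ta]
    linarith

theorem xPTX_th {n : ℝ} (hn : 64 ≤ n) :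
    (2 : ℝ) ^ (-(1 / 2 * (1 / (50 * n)))) ≤ 1 - 1 / (200 * n) := by
  have h0 : 0 < n := by linarith
  have e1 : 1 / 2 * (1 / (50 * n)) = 2 * (1 / (200 * n)) := by
    field_simp
    norm_num
  have h1 : 0 < 1 / (200 * n) := by positivity
  have h2 : 1 / (200 * n) ≤ 1 / 100 := one_div_le_one_div_of_le (by norm_num) (by linarith)
  rw [e1]
  generalize 1 / (200 * n) = s at h1 h2
  rw [rpow_def_of_pos two_pos, mul_neg, exp_neg, inv_eq_one_div, div_le_iff₀ (exp_pos _)]
  have h3 := add_one_le_exp (log 2 * (2 * s))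
  have h4 := mul_le_mul_of_nonneg_right log_two_gt_d9.le (by linarith : 0 ≤ 2 * s)
  have h5 : (1 - s) * (1.38 * s + 1) ≤ (1 - s) * exp (log 2 * (2 * s)) :=
    mul_le_mul_of_nonneg_left (by linarith) (by linarith)
  nlinarith

theorem xPTX_br {n : ℝ} (hn : 64 ≤ n) :
    al0 (2 * n) + al1 (2 * n) * (1 / (50 * n)) + al2 (2 * n) * (1 / (50 * n)) ^ 2
      + 2 ^ (n * (1 / (50 * n))) * (1.18 + log (n ^ 2)) + log (1 + 1 / (1 / (50 * n))) ≤ 5 * n := by
  have h0 : 0 < n := by linarith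
  obtain ⟨h1, h2, h3, h4, h5⟩ := xPTX_al (L := 2 * n) (by linarith)
  have d0 : 0 < 1 / (50 * n) := by positivity
  have d1 : 1 / (50 * n) ≤ 1 := by
    rw [div_le_one (by positivity)]
    linarith
  have a1 : al1 (2 * n) * (1 / (50 * n)) ≤ n + 4 :=
    (mul_le_mul_of_nonneg_right (show al1 (2 * n) ≤ n + 4 by unfold al1; linarith) d0.le).trans
      (mul_le_of_le_one_right (by linarith) d1)
  have a2 : al2 (2 * n) * (1 / (50 * n)) ^ 2 ≤ n :=
    (mul_le_mul_of_nonneg_right (show al2 (2 * n) ≤ n by unfold al2; linarith)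
      (by positivity)).trans (mul_le_of_le_one_right h0.le (pow_le_one₀ d0.le d1))
  have a3 : (2 : ℝ) ^ (n * (1 / (50 * n))) ≤ 2 := by
    refine (rpow_le_rpow_of_exponent_le one_le_two (?_ : _ ≤ (1 : ℝ))).trans (rpow_one 2).le
    rw [mul_one_div, div_le_one (by positivity)]
    linarith
  have a4 := xPTX_log h0 3
  have a5 : 0 ≤ log n := log_nonneg (by linarith)
  have a6 := xPTX_log (y := 1 + 50 * n) (by linarith) 6
  push_cast at a4 a6
  rw [log_pow, one_div_one_div]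
  push_cast
  have a7 := mul_le_mul_of_nonneg_right a3 (by linarith : 0 ≤ 1.18 + 2 * log n)
  linarith

theorem xPTX_eps {n : ℕ} (hn : 64 ≤ n) {B : ℝ} (hB : B ≤ 5 * n) :
    2 * (2 * B * (1 / (50 * (n : ℝ)) / (1 / (50 * n) + 1 / (50 * n))) ^ n /
        (1 - 1 / (50 * (n : ℝ)) / (1 / (50 * n) + 1 / (50 * n)))
      + (1 / (50 * (n : ℝ)) * (2 * n * log 2)) ^ n / n.factorial * (n * log 2)) + 4.01 * S2 n ≤
      (n : ℝ) ^ 2 / 2 ^ n := by
  have hN : (64 : ℝ) ≤ n := by exact_mod_cast hn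
  have h0 : (0 : ℝ) < n := by linarith
  have e1 : 1 / (50 * (n : ℝ)) / (1 / (50 * n) + 1 / (50 * n)) = 1 / 2 := by
    field_simp
    norm_num
  have e2 : 1 / (50 * (n : ℝ)) * (2 * n * log 2) = log 2 / 25 := by
    field_simp
    norm_num
  have l1 := log_two_lt_d9
  have l2 := log_two_gt_d9
  have p0 : (0 : ℝ) < (1 / 2) ^ n := by positivity
  have a1 : (log 2 / 25) ^ n / n.factorial ≤ (1 / 2 : ℝ) ^ n :=
    (div_le_self (by positivity) (by exact_mod_cast n.factorial_pos)).trans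
      (pow_le_pow_left₀ (by positivity) (by linarith) n)
  have a2 : (log 2 / 25) ^ n / n.factorial * (n * log 2) ≤ (1 / 2 : ℝ) ^ n * n :=
    mul_le_mul a1 (mul_le_of_le_one_right h0.le (by linarith)) (by positivity) p0.le
  have a3 : S2 n ≤ 4 * (1 / 2) ^ n := by
    have b1 : (3.03 : ℝ) / 4 ^ n ≤ 3.03 / 2 ^ n := by gcongr; norm_num
    have b2 : ∀ c : ℝ, c / 2 ^ n = c * (1 / 2) ^ n := fun c => by
      rw [one_div, inv_pow, div_eq_mul_inv]
    rw [S2, b2]
    rw [b2 3.03] at b1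
    linarith
  have a4 := mul_le_mul_of_nonneg_right hB p0.le
  have a5 := mul_le_mul_of_nonneg_right hN p0.le
  have a6 := mul_le_mul_of_nonneg_right (mul_le_mul_of_nonneg_right hN h0.le) p0.le
  have e3 : (n : ℝ) ^ 2 / 2 ^ n = n * n * (1 / 2) ^ n := by
    rw [one_div, inv_pow, div_eq_mul_inv, sq]
  rw [e1, e2, e3, show (1 : ℝ) - 1 / 2 = 1 / 2 by norm_num]
  linarith

theorem xPTX_exp {a y e : ℝ} {k : ℕ} (ha : a ≤ k) (ha3 : a ≤ 3) (hy : 1 ≤ y) (he : 0 ≤ e)
    (he1 : e ≤ 1 / 3) : exp (a * (log y + e)) ≤ 3 * y ^ k := by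
  have h1 := mul_le_mul_of_nonneg_right ha (log_nonneg hy)
  have h2 := mul_le_mul_of_nonneg_right ha3 he
  have h3 : exp (a * (log y + e)) ≤ exp (1 + k * log y) := exp_le_exp.2 (by linarith)
  rw [exp_add, ← log_pow, exp_log (by positivity)] at h3
  exact h3.trans (mul_le_mul_of_nonneg_right (by linarith [exp_one_lt_d9]) (by positivity))

theorem stPTX : StPTX := by
  intro n hn
  have hN : (64 : ℝ) ≤ n := by exact_mod_cast hn
  have h0 : (0 : ℝ) < n := by linarith
  have l1 := log_two_lt_d9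
  have l2 := log_two_gt_d9
  have d1 : 1 / (50 * (n : ℝ)) ≤ 1 / 50 := one_div_le_one_div_of_le (by norm_num) (by linarith)
  have d2 : 1 / (10 * (n : ℝ)) ≤ 1 / 50 := one_div_le_one_div_of_le (by norm_num) (by linarith)
  have d3 : 1 / (200 * (n : ℝ)) ≤ 1 / 50 := one_div_le_one_div_of_le (by norm_num) (by linarith)
  have d4 : 0 < 1 / (200 * (n : ℝ)) := by positivity
  constructor
  · unfold XOK
    refine ⟨?_, ?_, ?_, ?_, ?_, ?_, ?_, ?_, ?_, ?_, ?_, ?_, ?_, ?_, ?_, ?_, ?_, xPTX_zok hn, ?_,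
      xPTX_th hN, ?_, xPTX_eps hn (xPTX_br hN)⟩ <;> dsimp only [parT]
    · omega
    · omega
    · omega
    · omega
    · nlinarith
    · positivity
    · positivity
    · exact d1
    · linarith
    · positivity
    · exact d2
    · norm_num
    · norm_num
    · linarith
    · linarith
    · rw [div_le_div_iff₀ (by positivity) (by norm_num)]
      have h1 : ((100 * n ^ 2 : ℕ) : ℝ) ≤ ((2 ^ n : ℕ) : ℝ) := by exact_mod_cast xPTX_pow hn
      push_cast at h1
      linarith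
    · have h1 : (64 : ℝ) ≤ 4 ^ n := by
        calc (64 : ℝ) = 4 ^ 3 := by norm_num
          _ ≤ 4 ^ n := pow_le_pow_right₀ (by norm_num) (by omega)
      have h2 : π * 2 ^ (2 * n + 1) / log 2 ≤ 9.5 * 4 ^ n := by
        rw [div_le_iff₀ (by linarith), pow_succ, pow_mul, show (2 : ℝ) ^ 2 = 4 by norm_num]
        have h3 := mul_le_mul_of_nonneg_right pi_lt_d2.le (by linarith : (0 : ℝ) ≤ 4 ^ n)
        have h4 := mul_le_mul_of_nonneg_right l2.le (by linarith : (0 : ℝ) ≤ 4 ^ n)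
        linarith
      linarith
    · have e1 : 1 / (1 / (10 * (n : ℝ)) + 1 / (50 * n)) = 25 / 3 * n := by
        field_simp
        norm_num
      rw [Sbar, e1, one_div_one_div]
      simp only [ta]
      linarith
    · have e1 : 1 / 2 * (1 / (50 * (n : ℝ))) * ((((101 * n ^ 2 : ℕ) : ℝ) - 1 / 64) * log 2) =
          (101 * n ^ 2 - 1 / 64) / (100 * n) * log 2 := by
        push_cast
        field_simp
        ring
      rw [e1, show (1 : ℝ) / (1 - 1 / 2) = 2 by norm_num]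
      refine mul_le_mul_of_nonneg_right ?_ (by linarith)
      rw [le_div_iff₀ (by positivity)]
      nlinarith
  · have e0 : 0 ≤ eM 20 := by
      unfold eM
      positivity
    have e1 : eM 20 ≤ 1 / 3 := by
      rw [eM, div_le_iff₀ (by positivity)]
      push_cast
      linarith
    have hy : 1 ≤ (n : ℝ) / 20 := by linarith
    have h1 := xPTX_exp (a := 2.0001) (k := 3) (by norm_num) (by norm_num) hy e0 e1
    have h2 := xPTX_exp (a := 1.0001) (k := 2) (by norm_num) (by norm_num) hy e0 e1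
    have h3 : 0 < (n : ℝ) ^ 3 := by positivity
    have h4 : 0 < (n : ℝ) ^ 2 := by positivity
    unfold GOK
    dsimp only [parT]
    constructor <;> linarith

end Pool.Agent.MP_88bd62_nt.U
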