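import Pool.Agent.MP_88bd62_nt.U.Stmts

/-! Counting primes in intervals at the three kinds of levels. -/

namespace Pool.Agent.MP_88bd62_nt.U

open Finset Real

noncomputable section

def xPrIB_sl (jo j₀ j₁ : ℕ) (g : ℝ) (j : ℕ) : ℝ :=
  if j < jo then 1 / 2 else if j < j₁ then 8 / 35 else slH j₀ g j

def xPrIB_el (jo j₀ j₁ : ℕ) (g : ℝ) (j : ℕ) : ℝ :=
  if j < jo then 1 else if j < j₁ then 3.03 else elH j₀ g j

lemma xPrIB_m {j₀ j₁ j : ℕ} (h : j₀ + 4 ≤ j₁) (hj : j₁ ≤ j) : (4 : ℝ) ≤ (j : ℝ) - j₀ := by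
  have : ((j₀ + 4 : ℕ) : ℝ) ≤ j := by exact_mod_cast h.trans hj
  push_cast at this
  linarith

lemma xPrIB_nonneg {jo j₀ j₁ : ℕ} {g : ℝ} (h : j₀ + 4 ≤ j₁) (hg : 0 < g) (j : ℕ) :
    0 ≤ xPrIB_sl jo j₀ j₁ g j ∧ 0 ≤ xPrIB_el jo j₀ j₁ g j := by
  unfold xPrIB_sl xPrIB_el slH elH
  split_ifs with h1 h2
  · norm_num
  · norm_num
  · have := xPrIB_m h (not_lt.1 h2)
    have h3 : 0 < log 2 := log_pos one_lt_two
    have h4 : 0 < (j : ℝ) - j₀ := by linarith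
    exact ⟨by positivity, by positivity⟩

lemma xPrIB_cnt (hCount : StCount) (hSel : StSel) {jz jo j₀ j₁ : ℕ} {g : ℝ} (hz : 20 ≤ jz)
    (h : j₀ + 4 ≤ j₁) (hg : 0 < g) (hg' : g < 1 / 2) :
    Cnt (xPrIB_sl jo j₀ j₁ g) (xPrIB_el jo j₀ j₁ g) jz := by
  intro j hj
  refine ⟨(xPrIB_nonneg h hg j).1, (xPrIB_nonneg h hg j).2, fun X t hX ht => ?_⟩
  have hj' : (20 : ℝ) ≤ j := by exact_mod_cast hz.trans hj
  have h8 : (256 : ℝ) ≤ X := by
    refine le_trans ?_ hX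
    calc (256 : ℝ) = 2 ^ ((8 : ℕ) : ℝ) := by rw [rpow_natCast]; norm_num
      _ ≤ _ := rpow_le_rpow_of_exponent_le one_le_two (by push_cast; linarith)
  have hc : ∀ n ∈ (Ioc ⌊X⌋₊ ⌊X + t⌋₊).filter Nat.Prime, n ∈ Ioc ⌊X⌋₊ ⌊X + t⌋₊ ∧ n.Coprime 210 := by
    intro n hn
    obtain ⟨h1, h2⟩ := mem_filter.1 hn
    refine ⟨h1, (Nat.Prime.coprime_iff_not_dvd h2).2 fun h3 => ?_⟩
    have h4 := Nat.le_of_dvd (by norm_num) h3
    have h5 : 256 ≤ ⌊X⌋₊ := Nat.le_floor (by exact_mod_cast h8)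
    have h6 := (mem_Ioc.1 h1).1
    omega
  obtain ⟨c1, c2⟩ := hCount.1 X t (by linarith) ht
  unfold xPrIB_sl xPrIB_el
  split_ifs with h1 h2
  · refine le_trans ?_ (c1.trans_eq (by ring))
    refine Nat.cast_le.2 (card_le_card fun n hn => mem_filter.2 ⟨(hc n hn).1, ?_⟩)
    exact Nat.coprime_two_right.1 (Nat.Coprime.coprime_dvd_right (by norm_num) (hc n hn).2)
  · refine le_trans ?_ c2
    exact Nat.cast_le.2 (card_le_card fun n hn => mem_filter.2 (hc n hn))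
  · have hm := xPrIB_m h (not_lt.1 h2)
    have hl : 0 < log 2 := log_pos one_lt_two
    have h3 : 0 < g * ((j : ℝ) - j₀) := mul_pos hg (by linarith)
    have h4 : (1 : ℝ) < 2 ^ (g * ((j : ℝ) - j₀)) := one_lt_rpow one_lt_two h3
    have h5 := Nat.le_ceil ((2 : ℝ) ^ (g * ((j : ℝ) - j₀)))
    have h6 := Nat.ceil_lt_add_one (zero_le_one.trans h4.le)
    have h7 : (2 : ℝ) ^ (g * ((j : ℝ) - j₀)) * 2 ≤ X := by
      rw [← rpow_add_one two_ne_zero]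
      refine le_trans (rpow_le_rpow_of_exponent_le one_le_two ?_) hX
      have : (0 : ℝ) ≤ j₀ := Nat.cast_nonneg _
      nlinarith
    refine (hSel ⌈(2 : ℝ) ^ (g * ((j : ℝ) - j₀))⌉₊ X t
      (Nat.lt_ceil.2 (by exact_mod_cast h4)) (by linarith) ht).trans (add_le_add ?_ ?_)
    · rw [slH, one_div, mul_comm _ t, ← div_eq_mul_inv]
      refine div_le_div_of_nonneg_left ht (mul_pos h3 hl) ?_
      rw [← log_rpow two_pos]
      exact log_le_log (zero_lt_one.trans h4) h5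
    · exact pow_le_pow_left₀ (Nat.cast_nonneg _) h6.le 2

end

end Pool.Agent.MP_88bd62_nt.U
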