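import Pool.Agent.MP_88bd62_nt.U.Stmts
import Pool.Agent.MP_88bd62_nt.U.PrIBa

/-! The interval bound for the weighted primes. -/

namespace Pool.Agent.MP_88bd62_nt.U

open Finset Real
open scoped ENNReal

noncomputable section

lemma xPrIB_tele {f : ℕ → ℝ} (F : ℕ → ℝ) {a b : ℕ} (hab : a ≤ b)
    (h : ∀ j, a ≤ j → j < b → f j ≤ F (j + 1) - F j) : ∑ j ∈ Ico a b, f j ≤ F b - F a := by
  induction b, hab using Nat.le_induction with
  | base => simp
  | succ b hab ih =>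
    rw [sum_Ico_succ_top hab]
    have h1 := ih fun j h1 h2 => h j h1 (h2.trans (Nat.lt_succ_self b))
    have h2 := h b hab (Nat.lt_succ_self b)
    linarith

lemma xPrIB_ext {f : ℕ → ℝ} (hf : ∀ j, 0 ≤ f j) (a n m : ℕ) :
    ∑ j ∈ Ico a n, f j ≤ ∑ j ∈ Ico a (max n m), f j :=
  sum_le_sum_of_subset_of_nonneg (Ico_subset_Ico_right (le_max_left _ _)) fun j _ _ => hf j

lemma xPrIB_pow {l : ℝ} (h0 : 0 ≤ l) (h1 : l ≤ 1 / 64) : (2 : ℝ) ^ l - 1 ≤ 1.011 * log 2 * l := by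
  have h2 := log_two_lt_d9
  have h3 : 0 < log 2 := log_pos one_lt_two
  have h4 : 0 ≤ log 2 * l := mul_nonneg h3.le h0
  have h5 : log 2 * l ≤ 0.01084 := by nlinarith
  rw [rpow_def_of_pos two_pos, mul_assoc]
  generalize log 2 * l = y at h4 h5
  have h6 := exp_bound_div_one_sub_of_interval h4 (by linarith)
  have h7 : 1 / (1 - y) ≤ 1 + 1.011 * y := by
    rw [div_le_iff₀ (by linarith)]
    nlinarith
  linarith

lemma xPrIB_local {sl el c : ℕ → ℝ} {jz J : ℕ} {θ : ℝ} (hC : Cnt sl el jz) (hc : Lev c J θ)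
    (h0 : 0 < θ) (h1 : θ < 1) {j : ℕ} (hj : jz ≤ j) {x l : ℝ}
    (hx : (2 : ℝ) ^ ((j : ℝ) - 1 / 64) ≤ x) (l0 : 0 ≤ l) (l1 : l ≤ 1 / 64) :
    ∑ n ∈ Ioc ⌊x⌋₊ ⌊x * 2 ^ l⌋₊, muP jz c n ≤
      ENNReal.ofReal (1.011 * log 2 * (sl j * θ ^ (j - J)) * l + 1.011 * (el j / 2 ^ j)) := by
  obtain ⟨s0, e0, hcnt⟩ := hC j hj
  have x0 : 0 < x := (rpow_pos_of_pos two_pos _).trans_le hx
  have p1 : (1 : ℝ) ≤ 2 ^ l := one_le_rpow one_le_two l0
  have t0 : 0 ≤ θ ^ (j - J) := pow_nonneg h0.le _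
  have t1 : θ ^ (j - J) ≤ 1 := pow_le_one₀ h0.le h1.le
  have k1 := hcnt x (x * (2 ^ l - 1)) hx (mul_nonneg x0.le (sub_nonneg.2 p1))
  rw [show x + x * (2 ^ l - 1) = x * 2 ^ l by ring] at k1
  have k2 : (2 : ℝ) ^ j ≤ 1.011 * x := by
    have a1 := xPrIB_pow (l := 1 / 64) (by norm_num) le_rfl
    have a2 := log_two_lt_d9
    calc (2 : ℝ) ^ j = 2 ^ (1 / 64 : ℝ) * 2 ^ ((j : ℝ) - 1 / 64) := by
          rw [← rpow_add two_pos, ← rpow_natCast]
          congr 1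
          ring
      _ ≤ _ := mul_le_mul (by linarith) hx (by positivity) (by norm_num)
  calc ∑ n ∈ Ioc ⌊x⌋₊ ⌊x * 2 ^ l⌋₊, muP jz c n
      ≤ ∑ n ∈ Ioc ⌊x⌋₊ ⌊x * 2 ^ l⌋₊, if n.Prime then ENNReal.ofReal (θ ^ (j - J) / x) else 0 := by
        refine sum_le_sum fun n hn => ?_
        have a1 : x ≤ n := (Nat.lt_of_floor_lt (mem_Ioc.1 hn).1).le
        unfold muP
        split_ifs with b1 b2
        · exact ENNReal.ofReal_le_ofReal (div_le_div₀ t0 (hc.2 j n (hx.trans a1)) x0 a1)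
        · exact absurd b1.1 b2
        · exact zero_le
        · exact le_rfl
    _ = ENNReal.ofReal ((((Ioc ⌊x⌋₊ ⌊x * 2 ^ l⌋₊).filter Nat.Prime).card : ℝ)
          * (θ ^ (j - J) / x)) := by
        rw [← sum_filter, sum_const, nsmul_eq_mul, ENNReal.ofReal_mul (Nat.cast_nonneg _),
          ENNReal.ofReal_natCast]
    _ ≤ _ := by
        refine ENNReal.ofReal_le_ofReal ((mul_le_mul_of_nonneg_right k1 (by positivity)).trans ?_)
        rw [add_mul]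
        refine add_le_add ?_ ?_
        · have := mul_le_mul_of_nonneg_left (xPrIB_pow l0 l1) (mul_nonneg s0 t0)
          refine le_trans (le_of_eq ?_) (this.trans_eq (by ring))
          field_simp
        · rw [div_eq_mul_inv (el j), mul_left_comm]
          refine mul_le_mul_of_nonneg_left ((div_le_div_of_nonneg_right t1 x0.le).trans ?_) e0
          rw [← div_eq_mul_inv, div_le_div_iff₀ x0 (by positivity), one_mul]
          exact k2

lemma xPrIB_sumA {jz jo j₀ j₁ J : ℕ} {g θ : ℝ} (h : LOK jz jo j₀ j₁ J g θ) (n : ℕ) :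
    ∑ j ∈ Ico jz n, 1.011 * log 2 * (xPrIB_sl jo j₀ j₁ g j * θ ^ (j - J))
      ≤ aP jz jo j₀ j₁ J g θ := by
  obtain ⟨-, h1, h2, h3, h4, g0, -, t0, t1, -⟩ := h
  have hl : 0 < log 2 := log_pos one_lt_two
  have s0 := fun j => (xPrIB_nonneg (jo := jo) h3 g0 j).1
  have s1 : ∀ j, xPrIB_sl jo j₀ j₁ g j * θ ^ (j - J) ≤ xPrIB_sl jo j₀ j₁ g j := fun j =>
    mul_le_of_le_one_right (s0 j) (pow_le_one₀ t0.le t1.le)
  have s2 : ∀ j, j₁ ≤ j → xPrIB_sl jo j₀ j₁ g j = slH j₀ g j := fun j hj => by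
    rw [xPrIB_sl, if_neg (by omega), if_neg (by omega)]
  have a0 := xPrIB_ext (f := fun j => xPrIB_sl jo j₀ j₁ g j * θ ^ (j - J))
    (fun j => mul_nonneg (s0 j) (pow_nonneg t0.le _)) jz n (J + 1)
  have hN := le_max_right n (J + 1)
  generalize max n (J + 1) = N at a0 hN
  rw [← sum_Ico_consecutive _ h1 (by omega : jo ≤ N), ← sum_Ico_consecutive _ h2 (by omega : j₁ ≤ N),
    ← sum_Ico_consecutive _ (by omega : j₁ ≤ J + 1) hN] at a0
  have a1 := xPrIB_tele (f := fun j => xPrIB_sl jo j₀ j₁ g j * θ ^ (j - J)) (fun j => j / 2) h1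
    fun j _ hj => (s1 j).trans_eq (by rw [xPrIB_sl, if_pos hj]; push_cast; ring)
  have a2 := xPrIB_tele (f := fun j => xPrIB_sl jo j₀ j₁ g j * θ ^ (j - J))
    (fun j => 8 / 35 * j) h2 fun j hj' hj => (s1 j).trans_eq
      (by rw [xPrIB_sl, if_neg (by omega), if_pos hj]; push_cast; ring)
  have a3 := xPrIB_tele (f := fun j => xPrIB_sl jo j₀ j₁ g j * θ ^ (j - J))
    (fun j => log ((j : ℝ) - j₀ - 1) / (g * log 2)) (by omega : j₁ ≤ J + 1) fun j hj _ => by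
      have b1 := xPrIB_m h3 hj
      refine (s1 j).trans ?_
      rw [s2 j hj, slH, ← sub_div, mul_right_comm, mul_comm, ← div_div]
      refine div_le_div_of_nonneg_right ?_ (mul_pos g0 hl).le
      have b2 : 0 < (j : ℝ) - j₀ := by linarith
      have b3 : 0 < (j : ℝ) - j₀ - 1 := by linarith
      have b4 := log_le_sub_one_of_pos (div_pos b3 b2)
      rw [log_div b3.ne' b2.ne', sub_div, div_self b2.ne'] at b4
      rw [show ((j + 1 : ℕ) : ℝ) - j₀ - 1 = j - j₀ by push_cast; ring]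
      linarith
  have m1 := xPrIB_m h3 le_rfl
  have m2 := xPrIB_m h3 h4
  have u0 : 0 < 1 - θ := sub_pos.2 t1
  have sJ : 0 ≤ slH j₀ g J := s2 J h4 ▸ s0 J
  have a4 := xPrIB_tele (f := fun j => xPrIB_sl jo j₀ j₁ g j * θ ^ (j - J))
    (fun j => -(slH j₀ g J * (θ ^ (j - J) / (1 - θ)))) hN fun j hj _ => by
      have b1 : (J : ℝ) ≤ j := by exact_mod_cast (by omega : J ≤ j)
      have b2 : slH j₀ g j ≤ slH j₀ g J :=
        one_div_le_one_div_of_le (mul_pos (mul_pos g0 (by linarith)) hl)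
          (mul_le_mul_of_nonneg_right (mul_le_mul_of_nonneg_left (by linarith) g0.le) hl.le)
      rw [s2 j (by omega), show j + 1 - J = j - J + 1 by omega, pow_succ]
      refine (mul_le_mul_of_nonneg_right b2 (pow_nonneg t0.le _)).trans_eq ?_
      field_simp
      ring
  have a5 : 0 ≤ slH j₀ g J * (θ ^ (N - J) / (1 - θ)) := by positivity
  rw [show J + 1 - J = 1 by omega, pow_one] at a4
  rw [← sub_div, show ((J + 1 : ℕ) : ℝ) - j₀ - 1 = J - j₀ by push_cast; ring,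
    ← log_div (by linarith) (by linarith)] at a3
  have e : 1 / g * log (((J : ℝ) - j₀) / ((j₁ : ℝ) - j₀ - 1)) =
      log 2 * (log (((J : ℝ) - j₀) / ((j₁ : ℝ) - j₀ - 1)) / (g * log 2)) := by field_simp
  rw [← mul_sum, aP, e, mul_assoc (log 2), ← mul_add, ← mul_add, ← mul_assoc]
  exact mul_le_mul_of_nonneg_left (by linarith) (by positivity)

lemma xPrIB_sumB {jz jo j₀ j₁ J : ℕ} {g θ : ℝ} (h : LOK jz jo j₀ j₁ J g θ) (n : ℕ) :
    ∑ j ∈ Ico jz n, 1.011 * (xPrIB_el jo j₀ j₁ g j / 2 ^ j) ≤ bP jz jo j₀ j₁ g := by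
  obtain ⟨-, h1, h2, h3, -, g0, g1, -, -, -⟩ := h
  have a0 := xPrIB_ext (f := fun j => xPrIB_el jo j₀ j₁ g j / 2 ^ j)
    (fun j => div_nonneg (xPrIB_nonneg h3 g0 j).2 (by positivity)) jz n j₁
  have hN := le_max_right n j₁
  generalize max n j₁ = N at a0 hN
  rw [← sum_Ico_consecutive _ h1 (by omega : jo ≤ N), ← sum_Ico_consecutive _ h2 hN] at a0
  have a1 := xPrIB_tele (f := fun j => xPrIB_el jo j₀ j₁ g j / 2 ^ j) (fun j => -(2 / 2 ^ j)) h1
    fun j _ hj => le_of_eq (by rw [xPrIB_el, if_pos hj, pow_succ]; field_simp; ring)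
  have a2 := xPrIB_tele (f := fun j => xPrIB_el jo j₀ j₁ g j / 2 ^ j) (fun j => -(6.06 / 2 ^ j)) h2
    fun j hj' hj => le_of_eq
      (by rw [xPrIB_el, if_neg (by omega), if_pos hj, pow_succ]; field_simp; ring)
  have u0 : 0 < 1 - (2 : ℝ) ^ (-(1 - 2 * g)) :=
    sub_pos.2 (rpow_lt_one_of_one_lt_of_neg one_lt_two (by linarith))
  have a3 := xPrIB_tele (f := fun j => xPrIB_el jo j₀ j₁ g j / 2 ^ j)
    (fun j => -((1 + 2 ^ (-(g * ((j₁ : ℝ) - j₀)))) ^ 2 / 2 ^ j₀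
      * 2 ^ (-((1 - 2 * g) * ((j : ℝ) - j₀))) / (1 - 2 ^ (-(1 - 2 * g))))) hN fun j hj _ => by
      have b1 : (j₁ : ℝ) ≤ j := by exact_mod_cast hj
      have b2 : (2 : ℝ) ^ (-(g * ((j : ℝ) - j₀))) ≤ 2 ^ (-(g * ((j₁ : ℝ) - j₀))) :=
        rpow_le_rpow_of_exponent_le one_le_two (by nlinarith)
      have b3 : (2 : ℝ) ^ (-((1 - 2 * g) * (((j + 1 : ℕ) : ℝ) - j₀))) =
          2 ^ (-((1 - 2 * g) * ((j : ℝ) - j₀))) * 2 ^ (-(1 - 2 * g)) := by
        rw [← rpow_add two_pos]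
        congr 1
        push_cast
        ring
      have b4 : (2 : ℝ) ^ (-((1 - 2 * g) * ((j : ℝ) - j₀))) =
          (2 ^ (g * ((j : ℝ) - j₀))) ^ 2 * 2 ^ j₀ / 2 ^ j := by
        rw [← rpow_natCast, ← rpow_natCast, ← rpow_natCast, ← rpow_mul two_pos.le,
          ← rpow_add two_pos, ← rpow_sub two_pos]
        congr 1
        push_cast
        ring
      have b5 : (0 : ℝ) < 2 ^ (g * ((j : ℝ) - j₀)) := rpow_pos_of_pos two_pos _
      have b6 : elH j₀ g j ≤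
          (1 + 2 ^ (-(g * ((j₁ : ℝ) - j₀)))) ^ 2 * (2 ^ (g * ((j : ℝ) - j₀))) ^ 2 := by
        rw [elH, ← mul_pow]
        refine pow_le_pow_left₀ (by positivity) ?_ 2
        have b7 := mul_le_mul_of_nonneg_right b2 b5.le
        rw [rpow_neg two_pos.le, inv_mul_cancel₀ b5.ne'] at b7
        linarith
      rw [xPrIB_el, if_neg (by omega), if_neg (by omega), b3, b4]
      refine (div_le_div_of_nonneg_right b6 (by positivity)).trans_eq ?_
      generalize (2 : ℝ) ^ (-(1 - 2 * g)) = r at u0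
      field_simp
      ring
  have a4 : (0 : ℝ) ≤ 6.06 / 2 ^ j₁ := by positivity
  have a5 : (0 : ℝ) ≤ (1 + 2 ^ (-(g * ((j₁ : ℝ) - j₀)))) ^ 2 / 2 ^ j₀
      * 2 ^ (-((1 - 2 * g) * ((N : ℝ) - j₀))) / (1 - 2 ^ (-(1 - 2 * g))) := by positivity
  rw [← mul_sum, bP, hiB]
  exact mul_le_mul_of_nonneg_left (by linarith) (by norm_num)

theorem stPrIB (hIB : StIB) (hCount : StCount) (hSel : StSel) : StPrIB := by
  intro jz jo j₀ j₁ J g θ c h hc
  have h' := h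
  obtain ⟨h0, -, -, h3, -, g0, g1, t0, t1, -⟩ := h'
  have hl : 0 < log 2 := log_pos one_lt_two
  refine hIB.2.2.2.2.2 _ jz (fun j => 1.011 * log 2 * (xPrIB_sl jo j₀ j₁ g j * θ ^ (j - J)))
    (fun j => 1.011 * (xPrIB_el jo j₀ j₁ g j / 2 ^ j)) _ _
    (fun n hn => if_neg fun e => absurd e.2 (not_lt.2 hn)) (fun j => ?_)
    (fun j hj x l hx _ l0 l1 => xPrIB_local (xPrIB_cnt hCount hSel h0 h3 g0 g1) hc t0 t1 hj hx l0 l1)
    (xPrIB_sumA h) (xPrIB_sumB h)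
  obtain ⟨s0, e0⟩ := xPrIB_nonneg (jo := jo) h3 g0 j
  exact ⟨by positivity, by positivity⟩

end

end Pool.Agent.MP_88bd62_nt.U
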