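import Pool.Agent.MP_88bd62_nt.U.Stmts

/-! Pointwise comparison of an exponential with its linearisation. -/

namespace Pool.Agent.MP_88bd62_nt.U

open Finset Real

lemma xPt_small {E : ℂ} {ε : ℝ} (h : ‖E‖ ≤ ε) (h1 : ε ≤ 1 / 100) :
    ‖Complex.exp E - 1‖ ≤ 1.01 * ε := by
  have h2 := Complex.norm_exp_sub_one_sub_id_le (x := E) (by linarith)
  have h3 := norm_add_le (Complex.exp E - 1 - E) E
  rw [sub_add_cancel] at h3
  nlinarith [norm_nonneg E]

lemma xPt_cmp (w : ℂ) {B B' : ℝ → ℝ} (h0 : B 0 = 0) (hB : ∀ t, HasDerivAt B (B' t) t)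
    (hb : ∀ t ∈ Set.Ico (0 : ℝ) 1, (1 - t) * ‖w‖ ^ 2 * exp (t * w.re) ≤ B' t) :
    ‖Complex.exp w - 1 - w‖ ≤ B 1 := by
  have hd : ∀ t : ℝ, HasDerivAt
      (fun t : ℝ => (1 - (t : ℂ)) * w * Complex.exp (t * w) + Complex.exp (t * w) - (w + 1))
      ((1 - (t : ℂ)) * w ^ 2 * Complex.exp (t * w)) t := by
    intro t
    have h1 : HasDerivAt (fun z : ℂ => Complex.exp (z * w)) (Complex.exp (t * w) * w) t := by
      simpa using ((hasDerivAt_id (t : ℂ)).mul_const w).cexp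
    have h2 : HasDerivAt (fun z : ℂ => (1 - z) * w) (-w) t := by
      simpa using ((hasDerivAt_id (t : ℂ)).const_sub 1).mul_const w
    have h3 := (((h2.fun_mul h1).fun_add h1).sub_const (w + 1)).comp_ofReal
    exact h3.congr_deriv (by ring)
  have h := image_norm_le_of_norm_deriv_right_le_deriv_boundary (a := 0) (b := 1)
    (fun t _ => (hd t).continuousAt.continuousWithinAt) (fun t _ => (hd t).hasDerivWithinAt)
    (by simp [h0]) hB (fun t ht => by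
      refine le_trans (le_of_eq ?_) (hb t ht)
      rw [norm_mul, norm_mul, norm_pow, Complex.norm_exp, Complex.re_ofReal_mul,
        ← Complex.ofReal_one, ← Complex.ofReal_sub, Complex.norm_real,
        Real.norm_of_nonneg (by linarith [ht.2])]) (x := 1) ⟨zero_le_one, le_rfl⟩
  simpa [sub_add_eq_sub_sub_swap] using h

lemma xPt_one (w : ℂ) : ‖Complex.exp w - 1 - w‖ ≤ ‖w‖ ^ 2 * (1 / 3 + exp w.re / 6) := by
  refine (xPt_cmp w
    (B := fun t => ‖w‖ ^ 2 * (t - t ^ 2 + t ^ 3 / 3 + exp w.re * (t ^ 2 / 2 - t ^ 3 / 3)))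
    (B' := fun t => ‖w‖ ^ 2 * ((1 - t) * ((1 - t) + t * exp w.re))) (by simp) (fun t => ?_)
    fun t ht => ?_).trans (le_of_eq (by ring))
  · have h2 := hasDerivAt_pow 2 t
    have h3 := hasDerivAt_pow 3 t
    exact (((((hasDerivAt_id' t).fun_sub h2).fun_add (h3.div_const 3)).fun_add
      (((h2.div_const 2).fun_sub (h3.div_const 3)).const_mul (exp w.re))).const_mul
      (‖w‖ ^ 2)).congr_deriv (by push_cast; ring)
  · have h1 := convexOn_exp.2 (Set.mem_univ 0) (Set.mem_univ w.re)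
      (show 0 ≤ 1 - t by linarith [ht.2]) ht.1 (by ring)
    simp only [smul_eq_mul, mul_zero, zero_add, exp_zero, mul_one] at h1
    have h2 : 0 ≤ (1 - t) * ‖w‖ ^ 2 := mul_nonneg (by linarith [ht.2]) (sq_nonneg _)
    exact (mul_le_mul_of_nonneg_left h1 h2).trans (le_of_eq (by ring))

lemma xPt_two (w : ℂ) {y : ℝ} (hy : 0 < y) (h : ‖w‖ ≤ y) :
    ‖Complex.exp w - 1 - w‖ ≤ ‖w‖ ^ 2 / y ^ 2 * (exp y - 1 - y) := by
  refine (xPt_cmp w
    (B := fun t => ‖w‖ ^ 2 / y ^ 2 * ((1 - t) * y * exp (t * y) + exp (t * y) - (y + 1)))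
    (B' := fun t => (1 - t) * ‖w‖ ^ 2 * exp (t * y)) (by simp) (fun t => ?_)
    fun t ht => ?_).trans (le_of_eq (by simp; ring_nf; simp))
  · have h1 : HasDerivAt (fun z : ℝ => exp (z * y)) (exp (t * y) * y) t := by
      simpa using ((hasDerivAt_id t).mul_const y).exp
    have h2 : HasDerivAt (fun z : ℝ => (1 - z) * y) (-y) t := by
      simpa using ((hasDerivAt_id t).const_sub 1).mul_const y
    exact ((((h2.fun_mul h1).fun_add h1).sub_const (y + 1)).const_mul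
      (‖w‖ ^ 2 / y ^ 2)).congr_deriv (by field_simp; ring)
  · have h2 : 0 ≤ (1 - t) * ‖w‖ ^ 2 := mul_nonneg (by linarith [ht.2]) (sq_nonneg _)
    exact mul_le_mul_of_nonneg_left (exp_le_exp.2 (mul_le_mul_of_nonneg_left
      ((Complex.re_le_norm w).trans h) ht.1)) h2

theorem stPt : StPt := by
  intro A L E F a f ε hF hA hf hE hε
  have ha0 : 0 ≤ a := (norm_nonneg _).trans hA
  have hf0 : 0 ≤ f := (norm_nonneg _).trans hf
  have hε0 : 0 ≤ ε := (norm_nonneg _).trans hE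
  have hl0 := norm_nonneg L
  obtain ⟨F0, hF0⟩ : ∃ F0, F0 = A * Complex.exp (-2 * L) := ⟨_, rfl⟩
  have e1 : F = F0 * Complex.exp E := by rw [hF, hF0, Complex.exp_add, mul_assoc]
  have e2 : F0 = F * Complex.exp (-E) := by
    rw [e1, mul_assoc, ← Complex.exp_add, add_neg_cancel, Complex.exp_zero, mul_one]
  have h1 : ‖F0 - F‖ ≤ f * (1.01 * ε) := by
    rw [show F0 - F = F * (Complex.exp (-E) - 1) by rw [e2]; ring, norm_mul]
    exact mul_le_mul hf (xPt_small (by rwa [norm_neg]) hε) (norm_nonneg _) hf0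
  have h2 : ‖F0‖ ≤ f * (1 + 1.01 * ε) := by
    have := norm_add_le (F0 - F) F
    rw [sub_add_cancel] at this
    linarith
  have h3 : ‖F - F0‖ ≤ ‖F0‖ * (1.01 * ε) := by
    rw [show F - F0 = F0 * (Complex.exp E - 1) by rw [e1]; ring, norm_mul]
    exact mul_le_mul_of_nonneg_left (xPt_small hE hε) (norm_nonneg _)
  have e3 : F0 - A * (1 - 2 * L) = A * (Complex.exp (-2 * L) - 1 - -2 * L) := by rw [hF0]; ring
  have e4 : ‖-2 * L‖ = 2 * ‖L‖ := by simp
  have e5 : ‖F0‖ = ‖A‖ * exp (-2 * L).re := by rw [hF0, norm_mul, Complex.norm_exp]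
  have h4 := norm_sub_le_norm_sub_add_norm_sub F F0 (A * (1 - 2 * L))
  have h5 : ‖A * (1 - 2 * L)‖ ≤ a * (1 + 2 * ‖L‖) := by
    rw [norm_mul]
    refine mul_le_mul hA ((norm_sub_le _ _).trans (le_of_eq (by simp))) (norm_nonneg _) ha0
  constructor
  · have h6 := mul_le_mul_of_nonneg_left (xPt_one (-2 * L)) (norm_nonneg A)
    rw [← norm_mul, ← e3, e4] at h6
    rw [norm_sub_rev] at h1
    have h7 : ‖A‖ * ((2 * ‖L‖) ^ 2 * (1 / 3 + exp (-2 * L).re / 6)) =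
        (4 / 3 * ‖A‖ + 2 / 3 * ‖F0‖) * ‖L‖ ^ 2 := by rw [e5]; ring
    have h8 : (4 / 3 * ‖A‖ + 2 / 3 * ‖F0‖) * ‖L‖ ^ 2 ≤
        (4 / 3 * a + 2 / 3 * f * (1 + 1.01 * ε)) * ‖L‖ ^ 2 :=
      mul_le_mul_of_nonneg_right (by linarith) (sq_nonneg _)
    linarith
  intro x₀ lam hx k1 k2
  have hx2 : 0 < x₀ ^ 2 := by positivity
  have hf' : 0 ≤ f * (1 + 1.01 * ε) := by positivity
  have h6 : ‖F0 - A * (1 - 2 * L)‖ ≤ lam * ‖L‖ ^ 2 := by
    rcases le_total ‖L‖ x₀ with h7 | h7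
    · have h8 := xPt_two (-2 * L) (y := 2 * x₀) (by linarith) (by rw [e4]; linarith)
      rw [e3, norm_mul]
      refine (mul_le_mul hA h8 (norm_nonneg _) ha0).trans ?_
      rw [e4, show a * ((2 * ‖L‖) ^ 2 / (2 * x₀) ^ 2 * (exp (2 * x₀) - 1 - 2 * x₀)) =
        a * (exp (2 * x₀) - 1 - 2 * x₀) / x₀ ^ 2 * ‖L‖ ^ 2 by field_simp]
      exact mul_le_mul_of_nonneg_right ((div_le_iff₀ hx2).2 k1) (sq_nonneg _)
    · refine (norm_sub_le _ _).trans (le_of_mul_le_mul_right ?_ hx2)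
      have h8 : x₀ ^ 2 ≤ ‖L‖ ^ 2 := by gcongr
      have h9 := mul_le_mul_of_nonneg_right k2 (sq_nonneg ‖L‖)
      have h10 := mul_le_mul_of_nonneg_left h8 (add_nonneg hf' ha0)
      have h11 := mul_le_mul_of_nonneg_left h7 (show 0 ≤ 2 * a * x₀ * ‖L‖ by positivity)
      have h12 := mul_le_mul_of_nonneg_right (add_le_add h2 h5) hx2.le
      nlinarith
  have h7 : ‖F0‖ ≤ 2 * a + (a + lam) * ‖L‖ ^ 2 := by
    have h8 := norm_add_le (F0 - A * (1 - 2 * L)) (A * (1 - 2 * L))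
    rw [sub_add_cancel] at h8
    nlinarith [mul_nonneg ha0 (sq_nonneg (‖L‖ - 1))]
  have h8 := mul_le_mul_of_nonneg_right h7 (show 0 ≤ 1.01 * ε by positivity)
  nlinarith

end Pool.Agent.MP_88bd62_nt.U
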