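import Pool.Agent.MP_88bd62_nt.U.Stmts

namespace Pool.Agent.MP_88bd62_nt.U

open Finset Real

theorem xRem0_mono {X : ℤ → ℝ} {q D E q' D' E' : ℝ} (h : L2B X q D E) (hq : q ≤ q') (hD : D ≤ D')
    (hE : E ≤ E') : L2B X q' D' E' := by
  intro l hl hl' S hS
  have h1 := h l hl hl' S hS
  have h2 : D / l ≤ D' / l := div_le_div_of_nonneg_right hD hl.le
  have h3 : E * l ≤ E' * l := mul_le_mul_of_nonneg_right hE hl.le
  linarith

theorem xRem0_log (n n' : ℕ) :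
    log (((2 ^ n' : ℕ) : ℝ) / ((2 ^ n : ℕ) : ℝ)) = ((n' : ℝ) - n) * log 2 := by
  push_cast
  rw [Real.log_div (by positivity) (by positivity), Real.log_pow, Real.log_pow]
  ring

theorem xRem0_odd {N : ℕ} {k : ℤ} (hk : k ∈ Kset N) : Odd k := (Finset.mem_filter.1 hk).2

theorem xRem0_big {N : ℕ} {k : ℤ} (ho : Odd k) (hk : k ∉ Kset N) : 2 * (N : ℝ) ≤ |(k : ℝ)| := by
  have h1 : 2 * (N : ℤ) ≤ |k| := by
    by_contra h
    push Not at h
    exact hk (Finset.mem_filter.2 ⟨Finset.mem_Ioo.2 (abs_lt.1 h), ho⟩)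
  exact_mod_cast h1

theorem xRem0_f {z w F : ℝ} (hz : 0 < z) (hw : z ≤ w) (hF : F ≤ 2.35 * (4 / 9) / w ^ 2) :
    F ≤ 2.35 * (4 / 9) / z ^ 2 :=
  hF.trans (div_le_div_of_nonneg_left (by norm_num) (by positivity) (pow_le_pow_left₀ hz.le hw 2))

theorem xRem0_term {W₁ W₂ R X μ la lb d : ℝ} (hd : 0 ≤ d) (h1 : 0 ≤ W₁) (h2 : 0 ≤ W₂) (hX : 0 ≤ X)
    (hl : la ≤ lb) (h : R ≤ μ + la * X ∨ (R ≤ μ + lb * X ∧ W₁ ≤ W₂)) :
    W₁ * R / d ≤ μ * (W₁ / d) + la * (W₁ * X / d) + (lb - la) * (W₂ * X / d) := by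
  have h3 : W₁ * R ≤ μ * W₁ + la * (W₁ * X) + (lb - la) * (W₂ * X) := by
    rcases h with h | ⟨h, h'⟩
    · have h4 := mul_le_mul_of_nonneg_left h h1
      have h5 : 0 ≤ (lb - la) * (W₂ * X) := mul_nonneg (sub_nonneg.2 hl) (mul_nonneg h2 hX)
      nlinarith
    · have h4 := mul_le_mul_of_nonneg_left h h1
      have h5 : (lb - la) * (W₁ * X) ≤ (lb - la) * (W₂ * X) :=
        mul_le_mul_of_nonneg_left (mul_le_mul_of_nonneg_right h' hX) (sub_nonneg.2 hl)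
      nlinarith
  calc W₁ * R / d ≤ (μ * W₁ + la * (W₁ * X) + (lb - la) * (W₂ * X)) / d :=
        div_le_div_of_nonneg_right h3 hd
    _ = _ := by ring

theorem stRem0 (hX : StX) (hH : StH) (hPt : StPt) (hFz : StFz) (hL2 : StL2) (hW : StW) :
    StRem0 := by
  intro P m j₀ za zb V S s C c a b c' a' b' la lb r hXO hLB hMz hFb hnm hmn hj hBa hBb hC hS hR
  obtain ⟨hLev, -, hrep⟩ := hX P hXO hMz
  obtain ⟨hzb, hzab, hε, hla, hlab, hA1, hA2, hW1, hW2, hfin⟩ := hR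
  obtain ⟨hLOK, hq, hD, hE⟩ := hLB
  have hε1 : P.ε ≤ 1 / 100 := hXO.2.2.2.2.2.2.2.2.2.2.2.2.2.2.2.1
  have hnn : P.n ≤ P.n' := hnm.trans hmn
  have hL : L2B (fun k => ‖LL P.jz P.w k‖ ^ 2) P.q P.D P.E :=
    xRem0_mono (hL2 _ _ _ _ _ _ _ _ hLOK hLev) hq hD hE
  have hE0 : 0 ≤ P.E := le_trans (by positivity) hE
  obtain ⟨hs, hC0, hc, ha, hab, hb, hCs, hx1, hx2⟩ := hW1
  obtain ⟨-, -, hc', ha', hab', hb', hCs', hx1', hx2'⟩ := hW2
  have hS1 := hW (2 ^ P.n) (2 ^ P.n') s C Nat.one_le_two_pow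
    (Nat.pow_le_pow_right (by norm_num) hnn) hs hC0
  have hS2 := hW (2 ^ m) (2 ^ P.n') C C Nat.one_le_two_pow
    (Nat.pow_le_pow_right (by norm_num) hmn) hC0 hC0
  have hT1 := hS1.1
  have hT2 := hS1.2 (fun k => ‖LL P.jz P.w k‖ ^ 2) P.q P.D P.E c a b (fun k => by positivity) hL
    hE0 hc ha hab hb hCs hx1 hx2
  have hT3 := hS2.2 (fun k => ‖LL P.jz P.w k‖ ^ 2) P.q P.D P.E c' a' b' (fun k => by positivity) hL
    hE0 hc' ha' hab' hb' hCs' hx1' hx2'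
  rw [xRem0_log] at hT1
  have hza : 0 < za := hzb.trans_le hzab
  have hfab : 2.35 * (4 / 9) / za ^ 2 ≤ 2.35 * (4 / 9) / zb ^ 2 := xRem0_f hzb hzab le_rfl
  have hμ : 0 ≤ 1.01 * (2.35 * (4 / 9) / zb ^ 2) * P.ε := by positivity
  have key : ∀ k ∈ Kset (2 ^ P.n'),
      min (s * |(k : ℝ)| / (2 * ((2 ^ P.n : ℕ) : ℝ))) C * ‖FS k - Ser P.ap k‖ / (π * |(k : ℝ)|) ≤
        1.01 * (2.35 * (4 / 9) / zb ^ 2) * P.ε *
            (min (s * |(k : ℝ)| / (2 * ((2 ^ P.n : ℕ) : ℝ))) C / (π * |(k : ℝ)|))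
          + la * (min (s * |(k : ℝ)| / (2 * ((2 ^ P.n : ℕ) : ℝ))) C * ‖LL P.jz P.w k‖ ^ 2
            / (π * |(k : ℝ)|))
          + (lb - la) * (min (C * |(k : ℝ)| / (2 * ((2 ^ m : ℕ) : ℝ))) C * ‖LL P.jz P.w k‖ ^ 2
            / (π * |(k : ℝ)|)) := by
    intro k hk
    obtain ⟨-, -, hSer, E, hEε, hFS⟩ := hrep k hk
    have ho := xRem0_odd hk
    have hHk := (hH k ho).2
    refine xRem0_term (by positivity) (le_min (by positivity) hC0.le)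
      (le_min (by positivity) hC0.le) (by positivity) hlab ?_
    rw [hSer]
    by_cases hm : k ∈ Kset (2 ^ m)
    · left
      have h1 : ‖Fz P.jz (sk k)‖ ≤ P.A * exp (2 * V - 2 * S) :=
        ((hFz P.jz k).2 j₀ V S hj (hC k hm) hS).trans
          (mul_le_mul_of_nonneg_right hFb (exp_pos _).le)
      have h2 := (hPt _ _ _ _ _ _ _ hFS h1 (xRem0_f hza (hBa k hm) hHk) hEε hε1).1
      have h3 : 1.01 * (2.35 * (4 / 9) / za ^ 2) * P.ε ≤ 1.01 * (2.35 * (4 / 9) / zb ^ 2) * P.ε :=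
        mul_le_mul_of_nonneg_right (mul_le_mul_of_nonneg_left hfab (by norm_num)) hε
      have h4 := mul_le_mul_of_nonneg_right hA1 (sq_nonneg ‖LL P.jz P.w k‖)
      linarith
    · right
      have h1 : ‖Fz P.jz (sk k)‖ ≤ P.A := (hFz P.jz k).1.trans hFb
      have h2 := (hPt _ _ _ _ _ _ _ hFS h1 (xRem0_f hzb (hBb k hk) hHk) hEε hε1).1
      have h4 := mul_le_mul_of_nonneg_right hA2 (sq_nonneg ‖LL P.jz P.w k‖)
      refine ⟨by linarith, (min_le_right _ _).trans (le_min ?_ le_rfl)⟩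
      have h5 := xRem0_big ho hm
      rw [le_div_iff₀ (by positivity)]
      exact mul_le_mul_of_nonneg_left h5 hC0.le
  have hsum := Finset.sum_le_sum key
  rw [Finset.sum_add_distrib, Finset.sum_add_distrib, ← Finset.mul_sum, ← Finset.mul_sum,
    ← Finset.mul_sum] at hsum
  have g1 := mul_le_mul_of_nonneg_left hT1 hμ
  have g2 := mul_le_mul_of_nonneg_left hT2 hla
  have g3 := mul_le_mul_of_nonneg_left hT3 (sub_nonneg.2 hlab)
  unfold Wc at hfin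
  unfold Rem
  linarith

end Pool.Agent.MP_88bd62_nt.U
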