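import Pool.Agent.MP_88bd62_nt.U.Stmts

/-! The remainder on a band, for the later stages. -/

namespace Pool.Agent.MP_88bd62_nt.U

open Finset Real

theorem xRemG_mono {X : ℤ → ℝ} {q D E q' D' E' : ℝ} (h : L2B X q D E) (hq : q ≤ q') (hD : D ≤ D')
    (hE : E ≤ E') : L2B X q' D' E' := fun l hl hl' S hS => (h l hl hl' S hS).trans (by gcongr)

theorem xRemG_log (n n' : ℕ) :
    log (((2 ^ n' : ℕ) : ℝ) / ((2 ^ n : ℕ) : ℝ)) = ((n' : ℝ) - n) * log 2 := by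
  rw [Real.log_div (by positivity) (by positivity), Nat.cast_pow, Nat.cast_pow, Real.log_pow,
    Real.log_pow, Nat.cast_ofNat]
  ring

theorem stRemG (hX : StX) (hZF : StZF) (hH : StH) (hPt : StPt) (hFz : StFz) (hL2 : StL2)
    (hW : StW) : StRemG := by
  intro P r hx hlb hro hM hA
  obtain ⟨hlev, -, hk⟩ := hX P hx hM
  obtain ⟨-, hn, -, -, -, -, hδ, hδ', -, hη, hη', -, -, -, -, hε, -, hzok, hsb, -⟩ := hx
  obtain ⟨hlok, hq, hD, hE⟩ := hlb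
  obtain ⟨h1, h1', hx0, hε0, hlam, hf, ha1, ha2, ⟨-, -, w1, w2, w3, w4, w5, w6, w7⟩, hr⟩ := hro
  have hA0 : 0 ≤ P.A := (norm_nonneg _).trans ((hFz P.jz 0).1.trans hA)
  have hz := (hZF P.T P.KK P.η₀ P.δ P.L hzok hη hη' hδ hδ' hsb).2 P.η₁
  have hl := xRemG_mono (hL2 _ _ _ _ _ _ _ P.w hlok hlev) hq hD hE
  obtain ⟨hW1, hW2⟩ := hW (2 ^ P.n) (2 ^ P.n') 1.501 1 Nat.one_le_two_pow
    (Nat.pow_le_pow_right (by norm_num) hn) (by norm_num) one_pos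
  have hW3 := hW2 _ _ _ _ P.c P.a P.b (fun k => by positivity) hl
    (le_trans (by positivity) hE) w1 w2 w3 w4 w5 w6 w7
  rw [xRemG_log, one_mul] at hW1
  have hp : ∀ k ∈ Kset (2 ^ P.n'), ‖FS k - Ser P.ap k‖ ≤
      2.02 * P.A * P.ε + (P.lam + 1.01 * P.ε * (P.A + P.lam)) * ‖LL P.jz P.w k‖ ^ 2 := by
    intro k hkm
    obtain ⟨t1, t2, hs, E, hE1, hE2⟩ := hk k hkm
    have hζ : exp (-lvG (log ((1 / P.η₁ + 1) / 1.6)) (Sbar P.KK P.η₁) (Jf P.L₁) P.η₁ P.δ) ≤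
        ‖riemannZeta (sk k)‖ := hz (tk k) h1 h1' t1 t2
    have hF : ‖FS k‖ ≤ P.f := by
      refine (hH k (mem_filter.1 hkm).2).2.trans (le_trans ?_ hf)
      generalize lvG (log ((1 / P.η₁ + 1) / 1.6)) (Sbar P.KK P.η₁) (Jf P.L₁) P.η₁ P.δ = v at hζ
      have e : exp (2 * v) = (exp (-v) ^ 2)⁻¹ := by
        rw [← exp_nat_mul, ← exp_neg]
        congr 1
        push_cast
        ring
      rw [e, ← div_eq_mul_inv]
      have := exp_pos (-v)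
      gcongr
    rw [hs]
    exact (hPt _ _ E _ P.A P.f P.ε hE2 ((hFz P.jz k).1.trans hA) hF hE1 hε).2 P.x₀ P.lam hx0
      ha1 ha2
  have c1 : 0 ≤ 2.02 * P.A * P.ε := by positivity
  have c2 : 0 ≤ P.lam + 1.01 * P.ε * (P.A + P.lam) := by positivity
  refine le_trans ?_ (le_trans (add_le_add (mul_le_mul_of_nonneg_left hW1 c1)
    (mul_le_mul_of_nonneg_left hW3 c2)) hr)
  rw [Rem, mul_sum, mul_sum, ← sum_add_distrib]
  refine sum_le_sum fun k hkm => ?_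
  have m0 : 0 ≤ min (1.501 * |(k : ℝ)| / (2 * ((2 ^ P.n : ℕ) : ℝ))) 1 :=
    le_min (by positivity) zero_le_one
  generalize min (1.501 * |(k : ℝ)| / (2 * ((2 ^ P.n : ℕ) : ℝ))) 1 = m at m0 ⊢
  have d0 : 0 ≤ π * |(k : ℝ)| := by positivity
  refine (div_le_div_of_nonneg_right (mul_le_mul_of_nonneg_left (hp k hkm) m0) d0).trans_eq ?_
  ring

end Pool.Agent.MP_88bd62_nt.U
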