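import Pool.Agent.MP_88bd62_nt.U.Stmts

/-! The tail of the sum of inverse squares over the numbers prime to `210`. -/

namespace Pool.Agent.MP_88bd62_nt.U

open Finset Real

lemma xS2_abel {X : ℕ} (hX : 0 < X) {a b : ℝ} (ha : 0 ≤ a) (e : ℕ → ℝ)
    (h : ∀ k : ℕ, ∑ n ∈ Ioc X (X + k), e n ≤ a * k + b) (k : ℕ) :
    ∑ n ∈ Ioc X (X + k), e n / (n : ℝ) ^ 2 + (a * k + b - ∑ n ∈ Ioc X (X + k), e n) /
      ((X : ℝ) + k) ^ 2 ≤ a / X + b / (X : ℝ) ^ 2 - a / (X + k) := by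
  induction k with
  | zero => simp
  | succ k ih =>
    have hY : (0 : ℝ) < X + k := by positivity
    have h1 : (a * k + b - ∑ n ∈ Ioc X (X + k), e n) / ((X : ℝ) + k + 1) ^ 2 ≤
        (a * k + b - ∑ n ∈ Ioc X (X + k), e n) / ((X : ℝ) + k) ^ 2 :=
      div_le_div_of_nonneg_left (sub_nonneg.2 (h k)) (by positivity) (by nlinarith)
    have h2 : a / ((X : ℝ) + k + 1) ^ 2 ≤ a / (X + k) - a / (X + k + 1) := by
      rw [div_sub_div _ _ hY.ne' (by positivity),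
        show a * ((X : ℝ) + k + 1) - (X + k) * a = a by ring]
      exact div_le_div_of_nonneg_left ha (by positivity) (by nlinarith)
    rw [← add_assoc, sum_Ioc_succ_top (Nat.le_add_right X k),
      sum_Ioc_succ_top (Nat.le_add_right X k)]
    push_cast
    rw [← add_assoc]
    have h3 : (a * (k + 1) + b - (∑ n ∈ Ioc X (X + k), e n + e (X + k + 1))) /
        ((X : ℝ) + k + 1) ^ 2 = (a * k + b - ∑ n ∈ Ioc X (X + k), e n) / ((X : ℝ) + k + 1) ^ 2 +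
          a / ((X : ℝ) + k + 1) ^ 2 - e (X + k + 1) / ((X : ℝ) + k + 1) ^ 2 := by ring
    linarith

theorem stS2 (hCount : StCount) : StS2 := by
  intro j _
  have hX : 0 < 2 ^ j := by positivity
  have hN : ∀ k : ℕ, ∑ n ∈ Ioc (2 ^ j) (2 ^ j + k), (if n.Coprime 210 then 1 else 0 : ℝ) ≤
      8 / 35 * k + 3.03 := fun k => by
    have h := (hCount.1 ((2 ^ j : ℕ) : ℝ) k (Nat.cast_nonneg _) (Nat.cast_nonneg _)).2
    rwa [← Nat.cast_add, Nat.floor_natCast, Nat.floor_natCast, ← sum_boole] at h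
  have h0 : ∀ n : ℕ, 0 ≤ if n.Coprime 210 ∧ 2 ^ j < n then 1 / (n : ℝ) ^ 2 else 0 := fun n => by
    split_ifs <;> positivity
  have key : ∀ k, ∑ n ∈ range k, (if n.Coprime 210 ∧ 2 ^ j < n then 1 / (n : ℝ) ^ 2 else 0) ≤
      S2 j := fun k => by
    have h1 := xS2_abel hX (by norm_num) _ hN k
    have h2 := div_nonneg (sub_nonneg.2 (hN k)) (sq_nonneg (((2 ^ j : ℕ) : ℝ) + k))
    have h3 : (0 : ℝ) ≤ 8 / 35 / (((2 ^ j : ℕ) : ℝ) + k) := by positivity
    have h4 : ∑ n ∈ range k, (if n.Coprime 210 ∧ 2 ^ j < n then 1 / (n : ℝ) ^ 2 else 0) ≤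
        ∑ n ∈ Ioc (2 ^ j) (2 ^ j + k), (if n.Coprime 210 then 1 else 0 : ℝ) / (n : ℝ) ^ 2 := by
      rw [← sum_filter_ne_zero]
      refine (sum_le_sum_of_subset_of_nonneg (t := Ioc (2 ^ j) (2 ^ j + k)) (fun n hn => ?_)
        fun n _ _ => h0 n).trans (sum_le_sum fun n hn => ?_)
      · obtain ⟨hn, h⟩ := mem_filter.1 hn
        have h5 : 2 ^ j < n := by
          by_contra h6
          exact h (if_neg fun h7 => h6 h7.2)
        exact mem_Ioc.2 ⟨h5, (mem_range.1 hn).le.trans (Nat.le_add_left _ _)⟩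
      · simp only [(mem_Ioc.1 hn).1, and_true, ite_div, zero_div, le_refl]
    have h5 : S2 j = 8 / 35 / ((2 ^ j : ℕ) : ℝ) + 3.03 / ((2 ^ j : ℕ) : ℝ) ^ 2 := by
      rw [S2, Nat.cast_pow, ← pow_mul, mul_comm j, pow_mul]
      norm_num
    linarith
  exact ⟨summable_of_sum_range_le h0 key, Real.tsum_le_of_sum_range_le h0 key⟩

end Pool.Agent.MP_88bd62_nt.U
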