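import Pool.Agent.MP_88bd62_nt.U.Stmts

/-! The Selberg upper bound sieve for primes in an interval. -/

namespace Pool.Agent.MP_88bd62_nt.U

open Finset Real

noncomputable section

section abstract

variable {P : Finset ℕ} {ν g : ℕ → ℝ} {L : Finset (Finset ℕ)}

/-- the product measure on subsets -/
def xSel_mu (P : Finset ℕ) (ν : ℕ → ℝ) (S : Finset ℕ) : ℝ :=
  (∏ p ∈ S, ν p) * ∏ p ∈ P \ S, (1 - ν p)

lemma xSel_prod (P : Finset ℕ) (ν u v : ℕ → ℝ) :
    ∑ S ∈ P.powerset, xSel_mu P ν S * ∏ p ∈ P, (if p ∈ S then u p else v p) =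
      ∏ p ∈ P, (ν p * u p + (1 - ν p) * v p) := by
  rw [prod_add]
  refine sum_congr rfl fun S hS => ?_
  rw [prod_ite, filter_mem_eq_inter, inter_eq_right.2 (mem_powerset.1 hS), filter_notMem_eq_sdiff,
    xSel_mu, prod_mul_distrib, prod_mul_distrib]
  ring

lemma xSel_ind (ν : ℕ → ℝ) {d : Finset ℕ} (hd : d ⊆ P) :
    ∑ S ∈ P.powerset, xSel_mu P ν S * (if d ⊆ S then 1 else 0) = ∏ p ∈ d, ν p := by
  have h := xSel_prod P ν (fun _ => 1) (fun p => if p ∈ d then 0 else 1)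
  have h1 : ∏ p ∈ P, (ν p * 1 + (1 - ν p) * if p ∈ d then 0 else 1) = ∏ p ∈ d, ν p := by
    rw [← inter_eq_right.2 hd, ← prod_ite_mem, inter_eq_right.2 hd]
    refine prod_congr rfl fun p _ => ?_
    split_ifs <;> ring
  rw [← h1, ← h]
  refine sum_congr rfl fun S _ => ?_
  congr 1
  split_ifs with hS
  · refine (prod_eq_one fun p _ => ?_).symm
    split_ifs with h2 h3
    · rfl
    · exact absurd (hS h3) h2
    · rfl
  · obtain ⟨p, hp, hp'⟩ := not_subset.1 hS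
    exact (prod_eq_zero (hd hp) (by rw [if_neg hp', if_pos hp])).symm

/-- the orthogonal functions -/
def xSel_h (g : ℕ → ℝ) (l S : Finset ℕ) : ℝ := ∏ p ∈ l, if p ∈ S then -1 else g p

lemma xSel_orth (hg : ∀ p ∈ P, (1 - ν p) * g p = ν p) {l l' : Finset ℕ} (hl : l ⊆ P)
    (hl' : l' ⊆ P) : ∑ S ∈ P.powerset, xSel_mu P ν S * (xSel_h g l S * xSel_h g l' S) =
      if l = l' then ∏ p ∈ l, g p else 0 := by
  have h := xSel_prod P ν (fun p => (if p ∈ l then -1 else 1) * if p ∈ l' then -1 else 1)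
    (fun p => (if p ∈ l then g p else 1) * if p ∈ l' then g p else 1)
  have h1 : ∀ S, xSel_h g l S * xSel_h g l' S = ∏ p ∈ P, if p ∈ S then
      ((if p ∈ l then -1 else 1) * if p ∈ l' then -1 else 1) else
      ((if p ∈ l then g p else 1) * if p ∈ l' then g p else 1) := by
    intro S
    rw [xSel_h, xSel_h, ← inter_eq_right.2 hl, ← inter_eq_right.2 hl', ← prod_ite_mem,
      ← prod_ite_mem, inter_eq_right.2 hl, inter_eq_right.2 hl', ← prod_mul_distrib]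
    refine prod_congr rfl fun p _ => ?_
    split_ifs <;> rfl
  simp only [h1]
  rw [h]
  split_ifs with he
  · subst he
    rw [← inter_eq_right.2 hl, ← prod_ite_mem, inter_eq_right.2 hl]
    refine prod_congr rfl fun p hp => ?_
    have := hg p hp
    split_ifs
    · linear_combination (g p - 1) * this
    · ring
  · obtain ⟨p, hp⟩ := not_forall.1 fun h2 => he (Finset.ext h2)
    by_cases h2 : p ∈ l
    · have h3 : p ∉ l' := fun h3 => hp (iff_of_true h2 h3)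
      refine prod_eq_zero (hl h2) ?_
      simp only [if_pos h2, if_neg h3]
      linear_combination hg p (hl h2)
    · have h3 : p ∈ l' := by_contra fun h3 => hp (iff_of_false h2 h3)
      refine prod_eq_zero (hl' h3) ?_
      simp only [if_neg h2, if_pos h3]
      linear_combination hg p (hl' h3)

/-- the sieve weights -/
def xSel_lam (g : ℕ → ℝ) (L : Finset (Finset ℕ)) (d : Finset ℕ) : ℝ :=
  (∏ p ∈ d, -(1 + g p)) * ∑ l ∈ L with d ⊆ l, ∏ p ∈ l \ d, g p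

lemma xSel_exp (hL : ∀ l ∈ L, ∀ d ⊆ l, d ∈ L) (S : Finset ℕ) :
    ∑ l ∈ L, xSel_h g l S = ∑ d ∈ L, xSel_lam g L d * if d ⊆ S then 1 else 0 := by
  have h1 : ∀ l, xSel_h g l S = ∑ d ∈ l.powerset,
      ((∏ p ∈ d, -(1 + g p)) * ∏ p ∈ l \ d, g p) * if d ⊆ S then 1 else 0 := by
    intro l
    have h2 : xSel_h g l S = ∏ p ∈ l, ((if p ∈ S then -(1 + g p) else 0) + g p) :=
      prod_congr rfl fun p _ => by split_ifs <;> ring
    rw [h2, prod_add]
    refine sum_congr rfl fun d _ => ?_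
    rw [prod_ite_zero]
    by_cases h3 : d ⊆ S
    · rw [if_pos h3, if_pos fun i hi => h3 hi, mul_one]
    · rw [if_neg h3, if_neg fun h4 => h3 fun i hi => h4 i hi, mul_zero, zero_mul]
  simp only [h1, xSel_lam, mul_sum, sum_mul]
  refine sum_comm' fun l d => ?_
  simp only [mem_powerset, mem_filter]
  exact ⟨fun h => ⟨h, hL l h.1 d h.2⟩, fun h => h.1⟩

lemma xSel_abs (hg : ∀ p, 0 ≤ g p) (hL : ∀ l ∈ L, ∀ d ⊆ l, d ∈ L) (d : Finset ℕ) :
    |xSel_lam g L d| ≤ ∑ l ∈ L, ∏ p ∈ l, g p := by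
  have h0 : ∀ l : Finset ℕ, 0 ≤ ∏ p ∈ l, g p := fun l => prod_nonneg fun p _ => hg p
  rw [xSel_lam, abs_mul, abs_prod, abs_of_nonneg (sum_nonneg fun l _ => h0 _),
    prod_congr rfl fun p _ => (abs_neg _).trans (abs_of_nonneg (add_nonneg zero_le_one (hg p))),
    prod_one_add, sum_mul_sum, ← sum_product']
  have hd : ∀ x ∈ d.powerset ×ˢ (L.filter fun l => d ⊆ l), Disjoint x.1 (x.2 \ d) := fun x hx =>
    disjoint_sdiff.mono_left (mem_powerset.1 (mem_product.1 hx).1)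
  rw [sum_congr rfl fun x hx => (prod_union (hd x hx)).symm,
    ← sum_image (f := fun l => ∏ p ∈ l, g p) (g := fun x : Finset ℕ × Finset ℕ => x.1 ∪ x.2 \ d)]
  · refine sum_le_sum_of_subset_of_nonneg (fun l hl => ?_) fun l _ _ => h0 l
    obtain ⟨x, hx, rfl⟩ := mem_image.1 hl
    obtain ⟨h1, h2⟩ := mem_product.1 hx
    obtain ⟨h3, h4⟩ := mem_filter.1 h2
    exact hL _ h3 _ (union_subset ((mem_powerset.1 h1).trans h4) sdiff_subset)
  · rintro ⟨k, l⟩ hx ⟨k', l'⟩ hx' he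
    simp only [coe_product, Set.mem_prod, mem_coe, mem_powerset, mem_filter] at hx hx'
    have h1 : ∀ p, p ∈ k ∪ l \ d ↔ p ∈ k' ∪ l' \ d := fun p => by
      rw [show k ∪ l \ d = k' ∪ l' \ d from he]
    simp only [mem_union, mem_sdiff] at h1
    refine Prod.ext (Finset.ext fun p => ?_) (Finset.ext fun p => ?_)
    · exact ⟨fun h => ((h1 p).1 (Or.inl h)).resolve_right fun h2 => h2.2 (hx.1 h),
        fun h => ((h1 p).2 (Or.inl h)).resolve_right fun h2 => h2.2 (hx'.1 h)⟩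
    · by_cases hp : p ∈ d
      · exact iff_of_true (hx.2.2 hp) (hx'.2.2 hp)
      · exact ⟨fun h => (((h1 p).1 (Or.inr ⟨h, hp⟩)).resolve_left fun h2 => hp (hx'.1 h2)).1,
          fun h => (((h1 p).2 (Or.inr ⟨h, hp⟩)).resolve_left fun h2 => hp (hx.1 h2)).1⟩

lemma xSel_main (hg : ∀ p ∈ P, (1 - ν p) * g p = ν p) (hP : ∀ l ∈ L, l ⊆ P)
    (hL : ∀ l ∈ L, ∀ d ⊆ l, d ∈ L) :
    ∑ d ∈ L, ∑ e ∈ L, xSel_lam g L d * xSel_lam g L e * ∏ p ∈ d ∪ e, ν p =
      ∑ l ∈ L, ∏ p ∈ l, g p := by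
  have h1 : ∑ S ∈ P.powerset, xSel_mu P ν S *
      ((∑ l ∈ L, xSel_h g l S) * ∑ l ∈ L, xSel_h g l S) = ∑ l ∈ L, ∏ p ∈ l, g p := by
    simp only [sum_mul_sum]
    simp only [mul_sum]
    rw [sum_comm]
    refine sum_congr rfl fun l hl => ?_
    rw [sum_comm, sum_congr rfl fun l' hl' => xSel_orth hg (hP l hl) (hP l' hl'), sum_ite_eq,
      if_pos hl]
  rw [← h1]
  simp only [xSel_exp hL, sum_mul_sum]
  simp only [mul_sum]
  rw [sum_comm (s := P.powerset)]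
  refine sum_congr rfl fun d hd => ?_
  rw [sum_comm]
  refine sum_congr rfl fun e he => ?_
  rw [← xSel_ind ν (union_subset (hP d hd) (hP e he)), mul_sum]
  refine sum_congr rfl fun S _ => ?_
  simp only [union_subset_iff]
  by_cases h2 : d ⊆ S <;> by_cases h3 : e ⊆ S <;> simp [h2, h3]
  ring

end abstract

/-- the sets of primes with product at most `R` -/
def xSel_L (R : ℕ) : Finset (Finset ℕ) :=
  ((Icc 1 R).filter Nat.Prime).powerset.filter fun l => ∏ p ∈ l, p ≤ R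

lemma xSel_prime {R : ℕ} {l : Finset ℕ} (hl : l ∈ xSel_L R) {p : ℕ} (hp : p ∈ l) :
    p.Prime ∧ p ≤ R := by
  have h := mem_filter.1 (mem_powerset.1 (mem_filter.1 hl).1 hp)
  exact ⟨h.2, (mem_Icc.1 h.1).2⟩

lemma xSel_down {R : ℕ} : ∀ l ∈ xSel_L R, ∀ d ⊆ l, d ∈ xSel_L R := by
  intro l hl d hd
  refine mem_filter.2 ⟨mem_powerset.2 (hd.trans (mem_powerset.1 (mem_filter.1 hl).1)),
    le_trans ?_ (mem_filter.1 hl).2⟩
  exact Nat.le_of_dvd (prod_pos fun p hp => (xSel_prime hl hp).1.pos)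
    (prod_dvd_prod_of_subset _ _ _ hd)

lemma xSel_card (R : ℕ) : (xSel_L R).card ≤ R := by
  refine (card_le_card_of_injOn (t := Icc 1 R) (fun l => ∏ p ∈ l, p) (fun l hl => ?_)
    fun l hl l' hl' e => ?_).trans (by simp)
  · exact mem_Icc.2 ⟨prod_pos fun p hp => (xSel_prime hl hp).1.pos, (mem_filter.1 hl).2⟩
  · rw [← Nat.primeFactors_prod (s := l) fun p hp => (xSel_prime hl hp).1,
      ← Nat.primeFactors_prod (s := l') fun p hp => (xSel_prime hl' hp).1]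
    exact congrArg _ e

lemma xSel_fib {l T : Finset ℕ} (hl : ∀ p ∈ l, p.Prime) (hT : ∀ n ∈ T, n ≠ 0 ∧ n.primeFactors = l) :
    ∑ n ∈ T, (n : ℝ)⁻¹ ≤ ∏ p ∈ l, ((p : ℝ) - 1)⁻¹ := by
  let f : ℕ →* ℝ := ⟨⟨fun n => (n : ℝ)⁻¹, by simp⟩, fun a b => by simp [mul_comm]⟩
  have hf : ∀ n, f n = (n : ℝ)⁻¹ := fun _ => rfl
  have h := (EulerProduct.summable_and_hasSum_factoredNumbers_prod_filter_prime_geometric
    (f := f) (fun {p} hp => by
      rw [hf, norm_inv, Real.norm_natCast]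
      exact inv_lt_one_of_one_lt₀ (by exact_mod_cast hp.one_lt)) l).2
  rw [filter_true_of_mem hl] at h
  have hd : ∀ n ∈ T, ∏ p ∈ l, p ∣ n := fun n hn => (hT n hn).2 ▸ Nat.prod_primeFactors_dvd n
  have h1 := sum_le_hasSum ((T.image fun n => n / ∏ p ∈ l, p).subtype (· ∈ Nat.factoredNumbers l))
    (fun n _ => by rw [hf]; positivity) h
  rw [sum_subtype_of_mem (fun n => f n), sum_image] at h1
  · have h2 : ∑ n ∈ T, (n : ℝ)⁻¹ = (∏ p ∈ l, (p : ℝ)⁻¹) * ∑ n ∈ T, f (n / ∏ p ∈ l, p) := by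
      rw [mul_sum]
      refine sum_congr rfl fun n hn => ?_
      rw [hf, prod_inv_distrib, ← mul_inv, ← Nat.cast_prod, ← Nat.cast_mul,
        Nat.mul_div_cancel' (hd n hn)]
    rw [h2]
    refine (mul_le_mul_of_nonneg_left h1 (prod_nonneg fun p _ => by positivity)).trans_eq ?_
    rw [← prod_mul_distrib]
    refine prod_congr rfl fun p hp => ?_
    have h3 : (p : ℝ) ≠ 0 := by exact_mod_cast (hl p hp).ne_zero
    rw [hf, ← mul_inv, mul_sub, mul_one, mul_inv_cancel₀ h3]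
  · intro a ha b hb hab
    rw [← Nat.mul_div_cancel' (hd a ha), ← Nat.mul_div_cancel' (hd b hb)]
    exact congrArg _ hab
  · intro k hk
    obtain ⟨n, hn, rfl⟩ := mem_image.1 hk
    refine Nat.mem_factoredNumbers'.2 fun p hp hpn => ?_
    rw [← (hT n hn).2]
    exact Nat.mem_primeFactors.2 ⟨hp, hpn.trans (Nat.div_dvd_of_dvd (hd n hn)), (hT n hn).1⟩

lemma xSel_G (R : ℕ) : log (R + 1 : ℕ) ≤ ∑ l ∈ xSel_L R, ∏ p ∈ l, ((p : ℝ) - 1)⁻¹ := by
  have h := log_add_one_le_harmonic R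
  rw [harmonic_eq_sum_Icc] at h
  push_cast at h ⊢
  refine h.trans ?_
  have hm : ∀ n ∈ Icc 1 R, n.primeFactors ∈ xSel_L R := by
    intro n hn
    obtain ⟨h1, h2⟩ := mem_Icc.1 hn
    refine mem_filter.2 ⟨mem_powerset.2 fun p hp => mem_filter.2 ⟨mem_Icc.2
      ⟨(Nat.prime_of_mem_primeFactors hp).pos, (Nat.le_of_mem_primeFactors hp).trans h2⟩,
      Nat.prime_of_mem_primeFactors hp⟩,
      (Nat.le_of_dvd h1 (Nat.prod_primeFactors_dvd n)).trans h2⟩
  rw [← sum_fiberwise_of_maps_to hm]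
  refine sum_le_sum fun l hl => xSel_fib (fun p hp => (xSel_prime hl hp).1) fun n hn => ?_
  obtain ⟨h1, h2⟩ := mem_filter.1 hn
  exact ⟨Nat.one_le_iff_ne_zero.1 (mem_Icc.1 h1).1, h2⟩

lemma xSel_cnt {X h : ℝ} (hX : 0 ≤ X) (hh : 0 ≤ h) {q : ℕ} (hq : 0 < q) :
    |(∑ m ∈ Ioc ⌊X⌋₊ ⌊X + h⌋₊, if q ∣ m then (1 : ℝ) else 0) - h * (q : ℝ)⁻¹| ≤ 1 := by
  have h1 := sum_Ioc_consecutive (fun m => if q ∣ m then (1 : ℝ) else 0) (Nat.zero_le ⌊X⌋₊)
    (Nat.floor_le_floor (le_add_of_nonneg_right hh : X ≤ X + h))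
  have h2 : ∀ y : ℝ, (∑ m ∈ Ioc 0 ⌊y⌋₊, if q ∣ m then (1 : ℝ) else 0) = ⌊y / q⌋₊ := fun y => by
    rw [sum_boole, Nat.Ioc_filter_dvd_card_eq_div, Nat.floor_div_natCast]
  rw [h2, h2] at h1
  have hq' : (0 : ℝ) < q := by exact_mod_cast hq
  have h3 := Nat.floor_le (div_nonneg hX hq'.le)
  have h4 := Nat.floor_le (div_nonneg (add_nonneg hX hh) hq'.le)
  have h5 := Nat.lt_floor_add_one (X / q)
  have h6 := Nat.lt_floor_add_one ((X + h) / q)
  have h7 : (X + h) / q = X / q + h * (q : ℝ)⁻¹ := by ring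
  rw [abs_le]
  constructor <;> linarith

theorem stSel : StSel := by
  intro R X h hR hX hh
  set g : ℕ → ℝ := fun p => ((p : ℝ) - 1)⁻¹ ⊔ 0 with hgd
  have hg : ∀ p : ℕ, p.Prime → g p = ((p : ℝ) - 1)⁻¹ := fun p hp =>
    sup_eq_left.2 (inv_nonneg.2 (sub_nonneg.2 (by exact_mod_cast hp.pos)))
  set L := xSel_L R with hLd
  set G : ℝ := ∑ l ∈ L, ∏ p ∈ l, g p with hG
  have hR1 : (1 : ℝ) < R := by exact_mod_cast hR
  have hlog : log R ≤ G := by
    refine (log_le_log (by linarith) (by push_cast; linarith)).trans ((xSel_G R).trans_eq ?_)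
    exact sum_congr rfl fun l hl => prod_congr rfl fun p hp => (hg p (xSel_prime hl hp).1).symm
  have hl0 := log_pos hR1
  have hG0 : 0 < G := hl0.trans_le hlog
  have hmain := xSel_main (P := (Icc 1 R).filter Nat.Prime) (ν := fun p => (p : ℝ)⁻¹) (g := g)
    (L := L) (fun p hp => by
      have h1 := (mem_filter.1 hp).2
      have h2 : (1 : ℝ) < p := by exact_mod_cast h1.one_lt
      have h3 : (p : ℝ) - 1 ≠ 0 := by linarith
      rw [hg p h1]
      field_simp) (fun l hl => mem_powerset.1 (mem_filter.1 hl).1) xSel_down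
  have habs := xSel_abs (g := g) (fun p => le_sup_right) (xSel_down (R := R))
  let F : ℕ → ℝ := fun m => ∑ d ∈ L, xSel_lam g L d * if ∏ p ∈ d, p ∣ m then 1 else 0
  have hF : ∀ m ∈ (Ioc ⌊X⌋₊ ⌊X + h⌋₊).filter Nat.Prime, F m * F m = G * G := by
    intro m hm
    obtain ⟨h1, h2⟩ := mem_filter.1 hm
    have h3 : R < m := (Nat.le_floor hX).trans_lt (mem_Ioc.1 h1).1
    have h4 : F m = G := by
      have h5 := xSel_exp (g := g) (xSel_down (R := R)) ∅
      simp only [xSel_h, notMem_empty, if_false] at h5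
      rw [hG, hLd, h5]
      refine sum_congr rfl fun d hd => ?_
      congr 2
      refine propext ⟨fun h6 p hp => ?_, fun h6 => by simp [subset_empty.1 h6]⟩
      have h7 := xSel_prime hd hp
      have h8 := (Nat.prime_dvd_prime_iff_eq h7.1 h2).1 ((dvd_prod_of_mem _ hp).trans h6)
      omega
    rw [h4]
  have hdvd : ∀ d ∈ L, ∀ e ∈ L, ∀ m : ℕ, (∏ p ∈ d ∪ e, p ∣ m ↔ ∏ p ∈ d, p ∣ m ∧ ∏ p ∈ e, p ∣ m) := by
    intro d hd e he m
    refine ⟨fun h1 => ⟨(prod_dvd_prod_of_subset _ _ _ subset_union_left).trans h1,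
      (prod_dvd_prod_of_subset _ _ _ subset_union_right).trans h1⟩, fun h1 => ?_⟩
    refine prod_primes_dvd m (fun p hp => ?_) fun p hp => ?_
    · rcases mem_union.1 hp with h2 | h2
      · exact (xSel_prime hd h2).1.prime
      · exact (xSel_prime he h2).1.prime
    · rcases mem_union.1 hp with h2 | h2
      · exact (dvd_prod_of_mem _ h2).trans h1.1
      · exact (dvd_prod_of_mem _ h2).trans h1.2
  have h1 : ∑ m ∈ Ioc ⌊X⌋₊ ⌊X + h⌋₊, F m * F m = ∑ d ∈ L, ∑ e ∈ L,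
      xSel_lam g L d * xSel_lam g L e *
        ∑ m ∈ Ioc ⌊X⌋₊ ⌊X + h⌋₊, if ∏ p ∈ d ∪ e, p ∣ m then (1 : ℝ) else 0 := by
    simp only [F, sum_mul_sum]
    simp only [mul_sum]
    rw [sum_comm]
    refine sum_congr rfl fun d hd => ?_
    rw [sum_comm]
    refine sum_congr rfl fun e he => sum_congr rfl fun m _ => ?_
    simp only [hdvd d hd e he]
    by_cases h2 : ∏ p ∈ d, p ∣ m <;> by_cases h3 : ∏ p ∈ e, p ∣ m <;> simp [h2, h3]
  have h2 : ∑ m ∈ Ioc ⌊X⌋₊ ⌊X + h⌋₊, F m * F m ≤ h * G + (R : ℝ) ^ 2 * (G * G) := by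
    have h3 : (L.card : ℝ) ≤ R := by exact_mod_cast xSel_card R
    have h4 : ∑ d ∈ L, ∑ e ∈ L, G * G ≤ (R : ℝ) ^ 2 * (G * G) := by
      rw [sum_const, sum_const, nsmul_eq_mul, nsmul_eq_mul, ← mul_assoc, ← sq]
      exact mul_le_mul_of_nonneg_right (pow_le_pow_left₀ (Nat.cast_nonneg _) h3 2)
        (mul_self_nonneg G)
    refine le_trans ?_ (add_le_add_right h4 _)
    rw [h1]
    conv_rhs => rw [show h * G = h * _ from congrArg _ hmain.symm]
    simp only [mul_sum (a := h), ← sum_add_distrib]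
    refine sum_le_sum fun d hd => sum_le_sum fun e he => ?_
    have h5 := xSel_cnt (X := X) (by linarith) hh (q := ∏ p ∈ d ∪ e, p) (prod_pos fun p hp => by
      rcases mem_union.1 hp with h2 | h2
      · exact (xSel_prime hd h2).1.pos
      · exact (xSel_prime he h2).1.pos)
    rw [Nat.cast_prod, ← prod_inv_distrib] at h5
    have h6 : |xSel_lam g L d * xSel_lam g L e| ≤ G * G := by
      rw [abs_mul]
      exact mul_le_mul (habs d) (habs e) (abs_nonneg _) hG0.le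
    have h7 := (le_abs_self _).trans ((abs_mul _ _).trans_le
      (mul_le_mul h6 h5 (abs_nonneg _) (mul_self_nonneg G)))
    linarith
  have h3 : (((Ioc ⌊X⌋₊ ⌊X + h⌋₊).filter Nat.Prime).card : ℝ) * (G * G) ≤
      ∑ m ∈ Ioc ⌊X⌋₊ ⌊X + h⌋₊, F m * F m := by
    rw [← nsmul_eq_mul, ← sum_const, ← sum_congr rfl hF]
    exact sum_le_sum_of_subset_of_nonneg (filter_subset _ _) fun m _ _ => mul_self_nonneg _
  have h4 : h * G ≤ h / log R * (G * G) := by
    rw [div_mul_eq_mul_div, le_div_iff₀ hl0, mul_assoc]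
    exact mul_le_mul_of_nonneg_left (mul_le_mul_of_nonneg_left hlog hG0.le) hh
  refine le_of_mul_le_mul_right ?_ (mul_pos hG0 hG0)
  rw [add_mul]
  linarith

end

end Pool.Agent.MP_88bd62_nt.U
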