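import Pool.Agent.MP_88bd62_nt.U.Stmts

/-! The Dirichlet series of the approximants. -/

namespace Pool.Agent.MP_88bd62_nt.U

open Finset Real
open ArithmeticFunction (cardFactors)

noncomputable section

lemma xSer_fo_mul (m n : ℕ) : fo (m * n) = fo m * fo n := by
  unfold fo
  by_cases hm : Odd m
  · by_cases hn : Odd n
    · rw [if_pos (hm.mul hn), if_pos hm, if_pos hn,
        ArithmeticFunction.cardFactors_mul hm.pos.ne' hn.pos.ne', pow_add]
    · rw [if_neg fun h => hn (Nat.Odd.of_mul_right h), if_neg hn, mul_zero]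
  · rw [if_neg fun h => hm (Nat.Odd.of_mul_left h), if_neg hm, zero_mul]

lemma xSer_norm_ee (k : ℤ) (v : ℝ) : ‖ee k v‖ = 1 := Complex.norm_exp_ofReal_mul_I _

lemma xSer_ee_mul (k : ℤ) {m n : ℕ} (hm : m ≠ 0) (hn : n ≠ 0) :
    ee k (-th (m * n)) = ee k (-th m) * ee k (-th n) := by
  unfold ee th
  rw [← Complex.exp_add, Nat.cast_mul, logb_mul (by exact_mod_cast hm) (by exact_mod_cast hn)]
  congr 1
  push_cast
  ring

/-- The completely multiplicative summand. -/
def xSer_G (k : ℤ) : ℕ →* ℂ where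
  toFun n := ((fo n / n : ℝ) : ℂ) * ee k (-th n)
  map_one' := by simp [fo, ee, th]
  map_mul' m n := by
    rcases eq_or_ne m 0 with rfl | hm
    · simp
    rcases eq_or_ne n 0 with rfl | hn
    · simp
    rw [xSer_fo_mul, xSer_ee_mul k hm hn]
    push_cast
    ring

lemma xSer_G_apply (k : ℤ) (n : ℕ) : xSer_G k n = ((fo n / n : ℝ) : ℂ) * ee k (-th n) := rfl

lemma xSer_fo_prime {p : ℕ} (hp : p.Prime) (h2 : p ≠ 2) : fo p = -2 := by
  unfold fo
  rw [if_pos (hp.odd_of_ne_two h2), ArithmeticFunction.cardFactors_apply_prime hp, pow_one]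

lemma xSer_G_lt (k : ℤ) {p : ℕ} (hp : p.Prime) : ‖xSer_G k p‖ < 1 := by
  rw [xSer_G_apply, norm_mul, xSer_norm_ee, mul_one, Complex.norm_real]
  rcases eq_or_ne p 2 with rfl | h2
  · have : fo 2 = 0 := if_neg (by decide)
    simp [this]
  · have h3 : (3 : ℝ) ≤ p := by
      have := hp.two_le
      exact_mod_cast (by omega : 3 ≤ p)
    rw [xSer_fo_prime hp h2, norm_div, norm_neg, Real.norm_natCast, Real.norm_ofNat,
      div_lt_one (by linarith)]
    linarith

lemma xSer_cpow (k : ℤ) {p : ℕ} (hp : p ≠ 0) :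
    (p : ℂ) ^ (-sk k) = ((1 / p : ℝ) : ℂ) * ee k (-th p) := by
  have h0 : (p : ℂ) ≠ 0 := by exact_mod_cast hp
  unfold sk
  rw [neg_add, Complex.cpow_add _ _ h0, Complex.cpow_neg_one, Complex.cpow_def_of_ne_zero h0,
    ← Complex.natCast_log]
  unfold ee th tk logb
  congr 1
  · simp
  · congr 1
    push_cast
    ring

lemma xSer_mem_Pr {j p : ℕ} : p ∈ Pr j ↔ (3 ≤ p ∧ p ≤ 2 ^ j) ∧ p.Prime := by
  simp [Pr]

lemma xSer_euler (j : ℕ) (k : ℤ) :
    Summable (fun m : Nat.factoredNumbers (Pr j) => ‖xSer_G k m‖) ∧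
      HasSum (fun m : Nat.factoredNumbers (Pr j) => xSer_G k m) (Fz j (sk k)) := by
  have h := EulerProduct.summable_and_hasSum_factoredNumbers_prod_filter_prime_geometric
    (f := xSer_G k) (fun hp => xSer_G_lt k hp) (Pr j)
  refine ⟨h.1, ?_⟩
  suffices h3 : Fz j (sk k) = ∏ p ∈ Pr j with p.Prime, (1 - xSer_G k p)⁻¹ by
    rw [h3]; exact h.2
  unfold Fz
  rw [Finset.filter_true_of_mem fun p hp => (xSer_mem_Pr.1 hp).2]
  refine Finset.prod_congr rfl fun p hp => ?_
  obtain ⟨⟨h1, -⟩, h2⟩ := xSer_mem_Pr.1 hp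
  rw [xSer_G_apply, xSer_fo_prime h2 (by omega), xSer_cpow k h2.ne_zero]
  push_cast
  ring

lemma xSer_sumc {c : ℕ → ℝ} {J : ℕ} {θ : ℝ} (h : Lev c J θ) (h0 : 0 < θ) (h1 : θ < 1) :
    Summable fun n : ℕ => c n / n := by
  have hs : Summable fun n : ℕ => θ ^ (Nat.log 2 n - J) / n := by
    rw [← summable_condensed_iff_of_nonneg (fun n => by positivity) (fun m n hm hmn => by
      have h2 : θ ^ (Nat.log 2 n - J) ≤ θ ^ (Nat.log 2 m - J) :=
        pow_le_pow_of_le_one h0.le h1.le (Nat.sub_le_sub_right (Nat.log_mono_right hmn) J)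
      have h3 : (0 : ℝ) < m := by exact_mod_cast hm
      have h4 : (m : ℝ) ≤ n := by exact_mod_cast hmn
      gcongr), ← summable_nat_add_iff J]
    refine (summable_geometric_of_lt_one h0.le h1).congr fun n => ?_
    rw [Nat.log_pow (by norm_num), Nat.add_sub_cancel]
    push_cast
    field_simp
  refine hs.of_nonneg_of_le (fun n => div_nonneg (h.1 n).1 (Nat.cast_nonneg n)) fun n => ?_
  rcases eq_or_ne n 0 with rfl | hn
  · simp
  refine div_le_div_of_nonneg_right (h.2 _ _ ?_) (Nat.cast_nonneg n)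
  have h2 : ((2 ^ Nat.log 2 n : ℕ) : ℝ) ≤ n := by exact_mod_cast Nat.pow_log_le_self 2 hn
  refine le_trans ?_ h2
  rw [Nat.cast_pow, ← Real.rpow_natCast]
  exact Real.rpow_le_rpow_of_exponent_le (by norm_num) (by linarith)

/-- The second factors. -/
def xSer_Q (j : ℕ) : Set ℕ := {q | q = 1 ∨ (q.Prime ∧ 2 ^ j < q)}

/-- The summand of the second factor. -/
def xSer_b (j : ℕ) (c : ℕ → ℝ) (k : ℤ) (q : ℕ) : ℂ :=
  (if q = 1 then 1 else 0) -
    2 * if q.Prime ∧ 2 ^ j < q then ((c q / q : ℝ) : ℂ) * ee k (-th q) else 0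

lemma xSer_second (j : ℕ) {c : ℕ → ℝ} {J : ℕ} {θ : ℝ} (h : Lev c J θ) (h0 : 0 < θ) (h1 : θ < 1)
    (k : ℤ) : Summable (fun q : xSer_Q j => ‖xSer_b j c k q‖) ∧
      HasSum (fun q : xSer_Q j => xSer_b j c k q) (1 - 2 * LL j c k) := by
  have h2 : Summable fun q : ℕ =>
      if q.Prime ∧ 2 ^ j < q then ((c q / q : ℝ) : ℂ) * ee k (-th q) else 0 := by
    refine (xSer_sumc h h0 h1).of_norm_bounded fun q => ?_
    have h3 : 0 ≤ c q / q := div_nonneg (h.1 q).1 (Nat.cast_nonneg q)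
    split_ifs
    · rw [norm_mul, xSer_norm_ee, mul_one, Complex.norm_real, Real.norm_of_nonneg h3]
    · simpa using h3
  have h3 : HasSum (xSer_b j c k) (1 - 2 * LL j c k) :=
    (hasSum_ite_eq 1 (1 : ℂ)).sub (h2.hasSum.mul_left 2)
  refine ⟨(summable_norm_iff.2 h3.summable).subtype _,
    (hasSum_subtype_iff_of_support_subset fun q hq => ?_).2 h3⟩
  by_contra h4
  simp only [xSer_Q, Set.mem_ofPred_eq, not_or] at h4
  exact hq (by rw [xSer_b, if_neg h4.1, if_neg h4.2]; simp)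

lemma xSer_filter {j m q : ℕ} (hm : m ∈ Nat.factoredNumbers (Pr j)) (hq : q ∈ xSer_Q j) :
    (m * q).primeFactorsList.filter (fun p => 2 ^ j < p) = q.primeFactorsList := by
  have h1 : m.primeFactorsList.filter (fun p => 2 ^ j < p) = [] := by
    rw [List.filter_eq_nil_iff]
    intro p hp
    have := (xSer_mem_Pr.1 (hm.2 p hp)).1.2
    simpa using this
  rcases hq with rfl | ⟨h2, h3⟩
  · simpa using h1
  · have h4 := (Nat.perm_primeFactorsList_mul hm.1 h2.ne_zero).filter (fun p => 2 ^ j < p)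
    rw [List.filter_append, h1, Nat.primeFactorsList_prime h2, List.nil_append,
      List.filter_cons_of_pos (by simpa using h3), List.filter_nil] at h4
    rw [List.perm_singleton.1 h4, Nat.primeFactorsList_prime h2]

lemma xSer_Q_ne {j q : ℕ} (hq : q ∈ xSer_Q j) : q ≠ 0 := by
  rcases hq with rfl | ⟨h2, -⟩
  · exact one_ne_zero
  · exact h2.ne_zero

lemma xSer_inj (j : ℕ) : Function.Injective
    fun x : Nat.factoredNumbers (Pr j) × xSer_Q j => (x.1 : ℕ) * (x.2 : ℕ) := by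
  rintro ⟨⟨m, hm⟩, ⟨q, hq⟩⟩ ⟨⟨m', hm'⟩, ⟨q', hq'⟩⟩ h
  simp only at h
  have h1 := xSer_filter hm hq
  rw [h, xSer_filter hm' hq'] at h1
  have h2 : q' = q := by
    rw [← Nat.prod_primeFactorsList (xSer_Q_ne hq), ← h1,
      Nat.prod_primeFactorsList (xSer_Q_ne hq')]
  subst h2
  have h3 := Nat.eq_of_mul_eq_mul_right (Nat.pos_of_ne_zero (xSer_Q_ne hq)) h
  subst h3
  rfl

lemma xSer_fact {j m : ℕ} (ho : Odd m)
    (h : m.primeFactorsList.filter (fun p => 2 ^ j < p) = []) :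
    m ∈ Nat.factoredNumbers (Pr j) := by
  refine ⟨ho.pos.ne', fun p hp => ?_⟩
  have h1 := List.filter_eq_nil_iff.1 h p hp
  have h2 := Nat.prime_of_mem_primeFactorsList hp
  have h3 : Odd p := ho.of_dvd_nat (Nat.dvd_of_mem_primeFactorsList hp)
  have h4 := h2.two_le
  refine xSer_mem_Pr.2 ⟨⟨?_, by simpa using h1⟩, h2⟩
  obtain ⟨r, hr⟩ := h3
  omega

lemma xSer_supp {j : ℕ} {c : ℕ → ℝ} {n : ℕ} (h : pc j c n ≠ 0) :
    ∃ m ∈ Nat.factoredNumbers (Pr j), ∃ q ∈ xSer_Q j, m * q = n := by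
  have ho : Odd n := by
    by_contra h1
    exact h (by rw [pc, fo, if_neg h1, zero_mul])
  have h1 : chi j c n ≠ 0 := right_ne_zero_of_mul h
  unfold chi at h1
  split at h1
  · rename_i h2
    exact ⟨n, xSer_fact ho h2, 1, Or.inl rfl, mul_one n⟩
  · rename_i p h2
    have h3 : p ∈ n.primeFactorsList.filter (fun p => 2 ^ j < p) := by rw [h2]; simp
    rw [List.mem_filter] at h3
    have h4 := Nat.prime_of_mem_primeFactorsList h3.1
    have h5 : 2 ^ j < p := by simpa using h3.2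
    obtain ⟨m, rfl⟩ := Nat.dvd_of_mem_primeFactorsList h3.1
    have hm := Nat.Odd.of_mul_right ho
    refine ⟨m, xSer_fact hm ?_, p, Or.inr ⟨h4, h5⟩, mul_comm _ _⟩
    have h6 := (Nat.perm_primeFactorsList_mul h4.ne_zero hm.pos.ne').filter (fun p => 2 ^ j < p)
    rw [h2, List.filter_append, Nat.primeFactorsList_prime h4,
      List.filter_cons_of_pos (by simpa using h5), List.filter_nil] at h6
    have h7 := h6.length_eq
    rw [List.length_append] at h7
    exact List.length_eq_zero_iff.1 (by simpa using h7)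
  · exact absurd rfl h1

lemma xSer_val {j : ℕ} (hj : 1 ≤ j) (c : ℕ → ℝ) (k : ℤ) {m q : ℕ}
    (hm : m ∈ Nat.factoredNumbers (Pr j)) (hq : q ∈ xSer_Q j) :
    ((pc j c (m * q) / (m * q : ℕ) : ℝ) : ℂ) * ee k (-th (m * q)) =
      xSer_G k m * xSer_b j c k q := by
  have h1 : ((pc j c (m * q) / (m * q : ℕ) : ℝ) : ℂ) * ee k (-th (m * q)) =
      xSer_G k (m * q) * chi j c (m * q) := by
    rw [xSer_G_apply, pc]
    push_cast
    ring
  rw [h1, map_mul, mul_assoc, chi, xSer_filter hm hq]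
  congr 1
  rcases hq with rfl | ⟨h2, h3⟩
  · simp [xSer_b, Nat.not_prime_one]
  · have h4 : 2 ^ 1 ≤ 2 ^ j := Nat.pow_le_pow_right (by norm_num) hj
    rw [Nat.primeFactorsList_prime h2, xSer_b, if_neg h2.ne_one, if_pos ⟨h2, h3⟩, xSer_G_apply,
      xSer_fo_prime h2 (by omega)]
    push_cast
    ring

theorem stSer : StSer := by
  intro j J c θ hj h h0 h1
  have hz : ∀ k : ℤ, ∀ n ∉ Set.range
      (fun x : Nat.factoredNumbers (Pr j) × xSer_Q j => (x.1 : ℕ) * (x.2 : ℕ)),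
      ((pc j c n / n : ℝ) : ℂ) * ee k (-th n) = 0 := by
    intro k n hn
    have h2 : pc j c n = 0 := by
      by_contra h3
      obtain ⟨m, hm, q, hq, h4⟩ := xSer_supp h3
      exact hn ⟨(⟨m, hm⟩, ⟨q, hq⟩), h4⟩
    simp [h2]
  constructor
  · have h2 := (xSer_euler j 0).1.mul_norm (xSer_second j h h0 h1 0).1
    have h3 : Summable fun n : ℕ => ‖((pc j c n / n : ℝ) : ℂ) * ee 0 (-th n)‖ := by
      rw [← (xSer_inj j).summable_iff fun n hn => by rw [hz 0 n hn, norm_zero]]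
      refine h2.congr fun x => ?_
      rw [← xSer_val hj c 0 x.1.2 x.2.2]
      rfl
    refine h3.congr fun n => ?_
    rw [norm_mul, xSer_norm_ee, mul_one, Complex.norm_real, norm_div, Real.norm_natCast,
      Real.norm_eq_abs]
  · intro k
    have h2 := (xSer_euler j k).2.mul (xSer_second j h h0 h1 k).2
      ((xSer_euler j k).1.mul_norm (xSer_second j h h0 h1 k).1).of_norm
    refine HasSum.tsum_eq ?_
    rw [← (xSer_inj j).hasSum_iff (hz k)]
    exact h2.congr_fun fun x => xSer_val hj c k x.1.2 x.2.2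

end

end Pool.Agent.MP_88bd62_nt.U
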