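import Pool.Agent.MP_88bd62_nt.U.Stmts

/-! The summatory function in terms of the saw. -/

namespace Pool.Agent.MP_88bd62_nt.U

open Finset Real
open ArithmeticFunction (cardFactors)

noncomputable section

lemma xTau1_rec (X : ℕ) :
    ∑ n ∈ Icc 1 X, (-2 : ℝ) ^ cardFactors n
      = ∑ n ∈ Icc 1 X, fo n - 2 * ∑ n ∈ Icc 1 (X / 2), (-2 : ℝ) ^ cardFactors n := by
  induction X with
  | zero => simp
  | succ X ih =>
    rw [Finset.sum_Icc_succ_top (by omega), Finset.sum_Icc_succ_top (by omega), ih]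
    rcases Nat.even_or_odd' X with ⟨k, rfl | rfl⟩
    · have h1 : (2 * k + 1) / 2 = 2 * k / 2 := by omega
      have h2 : Odd (2 * k + 1) := ⟨k, rfl⟩
      rw [h1]
      simp only [fo, if_pos h2]
      ring
    · have h1 : (2 * k + 1 + 1) / 2 = k + 1 := by omega
      have h0 : (2 * k + 1) / 2 = k := by omega
      have h2 : ¬ Odd (2 * k + 1 + 1) := by
        rw [Nat.not_odd_iff_even]; exact ⟨k + 1, by ring⟩
      have h3 : cardFactors (2 * k + 1 + 1) = cardFactors (k + 1) + 1 := by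
        have : 2 * k + 1 + 1 = (k + 1) * 2 := by ring
        rw [this, ArithmeticFunction.cardFactors_mul (by omega) (by omega),
          ArithmeticFunction.cardFactors_apply_prime Nat.prime_two]
      rw [h1, h0, Finset.sum_Icc_succ_top (by omega : 1 ≤ k + 1), h3]
      simp only [fo, if_neg h2]
      ring

lemma xTau1_nat (X : ℕ) :
    ∑ n ∈ Icc 1 X, (-2 : ℝ) ^ cardFactors n
      = ∑ m ∈ Icc 1 X, fo m * ((1 + 2 * (-2 : ℝ) ^ Nat.log 2 (X / m)) / 3) := by
  induction X using Nat.strong_induction_on with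
  | _ X ih =>
    rcases Nat.eq_zero_or_pos X with rfl | hX
    · simp
    rw [xTau1_rec, ih (X / 2) (by omega)]
    have hsub : Icc 1 (X / 2) ⊆ Icc 1 X := Finset.Icc_subset_Icc_right (by omega)
    rw [← Finset.sum_sdiff hsub, ← Finset.sum_sdiff hsub (f := fun m =>
      fo m * ((1 + 2 * (-2 : ℝ) ^ Nat.log 2 (X / m)) / 3)), add_sub_assoc, Finset.mul_sum,
      ← Finset.sum_sub_distrib]
    congr 1
    · refine Finset.sum_congr rfl fun m hm => ?_
      simp only [Finset.mem_sdiff, Finset.mem_Icc] at hm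
      have h1 : X / m < 2 := by
        rw [Nat.div_lt_iff_lt_mul (by omega)]; omega
      rw [Nat.log_of_lt h1]
      ring
    · refine Finset.sum_congr rfl fun m hm => ?_
      simp only [Finset.mem_Icc] at hm
      have h1 : 2 ≤ X / m := by
        rw [Nat.le_div_iff_mul_le (by omega)]; omega
      have h2 : X / m / 2 = X / 2 / m := by
        rw [Nat.div_div_eq_div_mul, Nat.div_div_eq_div_mul, mul_comm]
      rw [Nat.log_of_one_lt_of_le (by norm_num) h1, h2, pow_succ]
      ring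

lemma xTau1_sg (x : ℝ) (m : ℕ) (hm : 1 ≤ m) (hx : (m : ℝ) ≤ x) :
    sg (logb 2 x - th m) = 2 / 3 * (-2 : ℝ) ^ Nat.log 2 (⌊x⌋₊ / m) * (m / x) := by
  have hm0 : (0 : ℝ) < m := by exact_mod_cast hm
  have hx0 : 0 < x := lt_of_lt_of_le hm0 hx
  have hv : logb 2 x - th m = logb 2 (x / m) := by
    rw [th, logb_div hx0.ne' hm0.ne']
  have h1 : (1 : ℝ) ≤ x / m := by rwa [le_div_iff₀ hm0, one_mul]
  have hf : ⌊logb 2 (x / m)⌋ = (Nat.log 2 (⌊x⌋₊ / m) : ℤ) := by
    have := Real.floor_logb_natCast (b := 2) (r := x / m) (by positivity)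
    rw [Int.log_of_one_le_right 2 h1, Nat.floor_div_natCast] at this
    exact_mod_cast this
  rw [hv, sg, hf]
  generalize Nat.log 2 (⌊x⌋₊ / m) = J
  rw [Real.rpow_sub (by norm_num), Real.rpow_logb (by norm_num) (by norm_num) (by positivity)]
  rw [zpow_natCast, Int.cast_natCast, Real.rpow_natCast, show (-2 : ℝ) = (-1) * 2 by norm_num,
    mul_pow]
  field_simp

theorem stTau1 : StTau1 := by
  intro x hx
  have hx0 : 0 < x := by linarith
  have hP : Phi (ax x) (logb 2 x)
      = ∑ m ∈ Icc 1 ⌊x⌋₊, fo m * (2 / 3 * (-2 : ℝ) ^ Nat.log 2 (⌊x⌋₊ / m)) / x := by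
    unfold Phi
    rw [tsum_eq_sum (s := Icc 1 ⌊x⌋₊)]
    · refine Finset.sum_congr rfl fun m hm => ?_
      rw [Finset.mem_Icc] at hm
      have hm0 : (0 : ℝ) < m := by exact_mod_cast hm.1
      have hmx : (m : ℝ) ≤ x := (Nat.le_floor_iff hx0.le).1 hm.2
      rw [xTau1_sg x m hm.1 hmx, ax, if_pos hmx]
      field_simp
    · intro m hm
      rw [Finset.mem_Icc, not_and_or] at hm
      rcases hm with hm | hm
      · have : m = 0 := by omega
        subst this
        simp
      · have hmx : ¬ (m : ℝ) ≤ x := fun h => hm ((Nat.le_floor_iff hx0.le).2 h)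
        rw [ax, if_neg hmx]
        simp
  rw [hP, xTau1_nat, TT, Finset.sum_div, Finset.sum_div, ← Finset.sum_add_distrib]
  refine Finset.sum_congr rfl fun m _ => ?_
  field_simp

end

end Pool.Agent.MP_88bd62_nt.U
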