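import Pool.Agent.MP_88bd62_nt.U.Stmts

/-! The value of the saw sum is bounded by the low pass polynomial at a nearby point. -/

namespace Pool.Agent.MP_88bd62_nt.U

open Finset Real Filter Topology MeasureTheory

noncomputable section

theorem xTau4_sg_bd (v : ℝ) : |sg v| ≤ 1 := by
  have h1 : (2 : ℝ) ^ ((⌊v⌋ : ℝ) - v) ≤ 1 :=
    rpow_le_one_of_one_le_of_nonpos (by norm_num) (sub_nonpos.2 (Int.floor_le v))
  have h2 : (0 : ℝ) < 2 ^ ((⌊v⌋ : ℝ) - v) := by positivity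
  have h3 : |(-1 : ℝ) ^ ⌊v⌋| = 1 := by
    rw [abs_zpow]; simp
  rw [sg, abs_mul, abs_mul, h3, abs_of_pos h2, abs_of_pos (by norm_num : (0 : ℝ) < 2 / 3)]
  linarith

theorem xTau4_sg_rc (v : ℝ) : ContinuousWithinAt sg (Set.Ici v) v := by
  have h1 : Continuous fun w : ℝ => 2 / 3 * (-1 : ℝ) ^ ⌊v⌋ * 2 ^ ((⌊v⌋ : ℝ) - w) :=
    continuous_const.mul (continuous_const.rpow (continuous_const.sub continuous_id)
      fun _ => Or.inl (by norm_num))
  refine h1.continuousWithinAt.congr_of_eventuallyEq ?_ rfl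
  filter_upwards [Ico_mem_nhdsGE (Int.lt_floor_add_one v)] with w hw
  have : ⌊w⌋ = ⌊v⌋ := Int.floor_eq_iff.2 ⟨(Int.floor_le v).trans hw.1, hw.2⟩
  rw [sg, this]

theorem xTau4_zero (y : ℝ) (n : ℕ) (hn : n ∉ range (⌊y⌋₊ + 1)) : ax y n / n = 0 := by
  have h1 : ⌊y⌋₊ < n := by simpa using hn
  have h2 : y < n := Nat.lt_of_floor_lt h1
  rw [ax, if_neg (not_le.2 h2), zero_div]

theorem xTau4_phi (y u : ℝ) :
    Phi (ax y) u = ∑ n ∈ range (⌊y⌋₊ + 1), ax y n / n * sg (u - th n) :=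
  tsum_eq_sum fun n hn => by rw [xTau4_zero y n hn, zero_mul]

theorem xTau4_ac (y : ℝ) : AC (ax y) := by
  refine summable_of_ne_finset_zero (s := range (⌊y⌋₊ + 1)) fun n hn => ?_
  have := xTau4_zero y n hn
  rcases div_eq_zero_iff.1 this with h | h <;> simp [h]

theorem xTau4_bd (y : ℝ) : ∃ M : ℝ, 0 ≤ M ∧ ∀ u, |Phi (ax y) u| ≤ M := by
  refine ⟨∑ n ∈ range (⌊y⌋₊ + 1), |ax y n / n|, sum_nonneg fun _ _ => abs_nonneg _, fun u => ?_⟩
  rw [xTau4_phi]
  refine (abs_sum_le_sum_abs _ _).trans (sum_le_sum fun n _ => ?_)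
  rw [abs_mul]
  exact mul_le_of_le_one_right (abs_nonneg _) (xTau4_sg_bd _)

theorem xTau4_rc (y u : ℝ) : ContinuousWithinAt (Phi (ax y)) (Set.Ici u) u := by
  have h : Phi (ax y) = fun u => ∑ n ∈ range (⌊y⌋₊ + 1), ax y n / n * sg (u - th n) :=
    funext (xTau4_phi y)
  rw [h]
  refine tendsto_finsetSum _ fun n _ => ?_
  refine ContinuousWithinAt.mul continuousWithinAt_const ?_
  exact (xTau4_sg_rc (u - th n)).comp (f := fun w => w - th n)
    (continuous_id.sub continuous_const).continuousWithinAt fun w hw =>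
      sub_le_sub_right (Set.mem_Ici.1 hw) _

theorem xTau4_near (y u e : ℝ) (he : 0 < e) : ∃ ρ : ℝ, 0 < ρ ∧ ρ ≤ 1 ∧
    ∀ z, -ρ ≤ z → z ≤ ρ → |Phi (ax y) (u + ρ - z) - Phi (ax y) u| ≤ e := by
  obtain ⟨δ, hδ, h⟩ := Metric.continuousWithinAt_iff.1 (xTau4_rc y u) e he
  have h1 := min_le_left (δ / 4) 1
  have h2 : 0 < min (δ / 4) 1 := lt_min (by linarith) one_pos
  refine ⟨min (δ / 4) 1, h2, min_le_right _ _, fun z a b => ?_⟩
  have := @h (u + min (δ / 4) 1 - z) (by rw [Set.mem_Ici]; linarith) (by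
    rw [Real.dist_eq, abs_lt]; constructor <;> linarith)
  rw [Real.dist_eq] at this
  exact this.le

theorem xTau4_avg {K G : ℝ → ℝ} {c e M ρ τ : ℝ} (hK : Continuous K) (hev : ∀ z, K (-z) = K z)
    (h0 : ∀ z, 0 ≤ K z) (h1 : ∫ z in (0 : ℝ)..1, K z = 1) (hρ : 0 < ρ) (hρ1 : ρ ≤ 1)
    (hτ : ∫ z in ρ..1, K z ≤ τ) (he : 0 ≤ e) (hM : 0 ≤ M)
    (hI : IntervalIntegrable (fun z => K z * G z) volume (-1) 1)
    (hn : ∀ z, -ρ ≤ z → z ≤ ρ → |G z - c| ≤ e) (hb : ∀ z, |G z - c| ≤ M) :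
    |1 / 2 * (∫ z in (-1 : ℝ)..1, K z * G z) - c| ≤ e + M * τ := by
  have iK : ∀ a b : ℝ, IntervalIntegrable K volume a b := fun a b => hK.intervalIntegrable a b
  have sym : ∀ a b : ℝ, ∫ z in -b..-a, K z = ∫ z in a..b, K z := by
    intro a b
    rw [← intervalIntegral.integral_comp_neg]
    simp only [hev]
  have tot : ∫ z in (-1 : ℝ)..1, K z = 2 := by
    rw [← intervalIntegral.integral_add_adjacent_intervals (iK (-1) 0) (iK 0 1)]
    have := sym 0 1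
    rw [neg_zero] at this
    rw [this, h1]
    norm_num
  have hH : IntervalIntegrable (fun z => K z * G z - c * K z) volume (-1) 1 :=
    hI.sub ((iK _ _).const_mul c)
  have e1 : ∫ z in (-1 : ℝ)..1, (K z * G z - c * K z) =
      (∫ z in (-1 : ℝ)..1, K z * G z) - c * 2 := by
    rw [intervalIntegral.integral_sub hI ((iK _ _).const_mul c),
      intervalIntegral.integral_const_mul, tot]
  have sub : ∀ a b : ℝ, -1 ≤ a → a ≤ b → b ≤ 1 →
      IntervalIntegrable (fun z => K z * G z - c * K z) volume a b := by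
    intro a b x1 x2 x3
    refine hH.mono_set ?_
    rw [Set.uIcc_of_le x2, Set.uIcc_of_le (by norm_num)]
    exact Set.Icc_subset_Icc x1 x3
  have bd : ∀ a b B : ℝ, a ≤ b → (∀ z, a ≤ z → z ≤ b → |G z - c| ≤ B) →
      |∫ z in a..b, (K z * G z - c * K z)| ≤ B * ∫ z in a..b, K z := by
    intro a b B x1 x2
    rw [← intervalIntegral.integral_const_mul, ← Real.norm_eq_abs]
    refine intervalIntegral.norm_integral_le_of_norm_le x1 (Eventually.of_forall fun z hz => ?_)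
      ((iK _ _).const_mul B)
    have : K z * G z - c * K z = (G z - c) * K z := by ring
    rw [this, Real.norm_eq_abs, abs_mul, abs_of_nonneg (h0 z)]
    exact mul_le_mul_of_nonneg_right (x2 z hz.1.le hz.2) (h0 z)
  have s1 := sub (-1) (-ρ) le_rfl (by linarith) (by linarith)
  have s2 := sub (-ρ) ρ (by linarith) (by linarith) hρ1
  have s3 := sub ρ 1 (by linarith) hρ1 le_rfl
  have b1 := bd (-1) (-ρ) M (by linarith) fun z _ _ => hb z
  have b2 := bd (-ρ) ρ e (by linarith) hn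
  have b3 := bd ρ 1 M hρ1 fun z _ _ => hb z
  rw [sym ρ 1] at b1
  have t0 : 0 ≤ ∫ z in ρ..1, K z := intervalIntegral.integral_nonneg hρ1 fun z _ => h0 z
  have t1 : ∫ z in -ρ..ρ, K z ≤ 2 := by
    have a1 := intervalIntegral.integral_add_adjacent_intervals (iK (-1) (-ρ)) (iK (-ρ) ρ)
    have a2 := intervalIntegral.integral_add_adjacent_intervals (iK (-1) ρ) (iK ρ 1)
    rw [sym ρ 1] at a1
    linarith
  have a1 := intervalIntegral.integral_add_adjacent_intervals s1 s2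
  have a2 := intervalIntegral.integral_add_adjacent_intervals (s1.trans s2) s3
  have m1 := mul_le_mul_of_nonneg_left hτ hM
  have m2 := mul_le_mul_of_nonneg_left t1 he
  rw [abs_le] at b1 b2 b3 ⊢
  constructor <;> linarith [b1.1, b1.2, b2.1, b2.2, b3.1, b3.2]

theorem xTau4_ker_cont (N : ℕ) : Continuous (ker N) := by
  unfold ker
  fun_prop

theorem xTau4_ker_even (N : ℕ) (z : ℝ) : ker N (-z) = ker N z := by
  simp [ker]

theorem xTau4_tail (ρ M e : ℝ) (he : 0 < e) : ∃ N₀ : ℕ, ∀ N : ℕ, N₀ ≤ N →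
    M * (0.09 / (N * ρ) ^ 3 + 4000 / (N : ℝ) ^ 3) ≤ e := by
  have h1 : Tendsto (fun N : ℕ => M * (0.09 / ρ ^ 3 + 4000) * ((N : ℝ)⁻¹) ^ 3) atTop
      (𝓝 (M * (0.09 / ρ ^ 3 + 4000) * 0 ^ 3)) :=
    (tendsto_inv_atTop_nhds_zero_nat.pow 3).const_mul _
  rw [zero_pow (by norm_num), mul_zero] at h1
  obtain ⟨N₀, h⟩ := eventually_atTop.1 (h1.eventually (ge_mem_nhds he))
  refine ⟨N₀, fun N hN => le_of_eq_of_le ?_ (h N hN)⟩
  rw [mul_pow, inv_pow]
  simp only [div_eq_mul_inv, mul_inv]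
  ring

theorem stTau4 (hKerA : StKerA) (hLP : StLP) : StTau4 := by
  intro y u ε hε
  obtain ⟨M, hM, hb⟩ := xTau4_bd y
  obtain ⟨ρ, hρ, hρ1, hn⟩ := xTau4_near y u (ε / 2) (by linarith)
  obtain ⟨N₀, hN₀⟩ := xTau4_tail ρ (2 * M) (ε / 2) (by linarith)
  refine ⟨max N₀ 1, fun N hN => ⟨u + ρ, ?_⟩⟩
  have hN1 : 1 ≤ N := (le_max_right _ _).trans hN
  obtain ⟨k1, k2, k3⟩ := hKerA N hN1
  obtain ⟨l1, l2⟩ := hLP N (ax y) hN1 (xTau4_ac y) (u + ρ)
  have key := xTau4_avg (G := fun z => Phi (ax y) (u + ρ - z)) (c := Phi (ax y) u) (M := 2 * M)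
    (xTau4_ker_cont N) (xTau4_ker_even N) (fun z => (k1 z).1) k2 hρ hρ1 (k3 ρ hρ hρ1)
    (by linarith) (by linarith) l1 hn fun z => by
      have := abs_sub (Phi (ax y) (u + ρ - z)) (Phi (ax y) u)
      linarith [hb (u + ρ - z), hb u]
  have h2 := hN₀ N ((le_max_left _ _).trans hN)
  rw [← l2, Complex.norm_real, Real.norm_eq_abs]
  have h3 := abs_sub_abs_le_abs_sub (Phi (ax y) u)
    (1 / 2 * ∫ z in (-1 : ℝ)..1, ker N z * Phi (ax y) (u + ρ - z))
  rw [abs_sub_comm] at h3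
  linarith

end

end Pool.Agent.MP_88bd62_nt.U
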