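import Pool.Agent.MP_88bd62_nt.U.Stmts

/-! The trigonometric inequality for the logarithmic derivative of the zeta function. -/

namespace Pool.Agent.MP_88bd62_nt.U

open Finset Real Filter Topology
open ArithmeticFunction (vonMangoldt)

noncomputable section

theorem xTrig_d {x : ℝ} (hx : 0 < x) :
    1 / (x + 1) ≤ log (x + 1) - log x ∧ 2 * (log (x + 1) - log x) ≤ 1 / x + 1 / (x + 1) := by
  have h1 : 0 < x + 1 := by linarith
  have h2 : 1 / (x + 1) ≤ log (x + 1) - log x := by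
    have := one_sub_inv_le_log_of_pos (div_pos h1 hx)
    rw [log_div h1.ne' hx.ne'] at this
    refine le_trans (le_of_eq ?_) this
    field_simp
    ring
  refine ⟨h2, ?_⟩
  have h3 := self_le_sinh_iff.2 ((one_div_pos.2 h1).le.trans h2)
  rw [sinh_eq, exp_neg, exp_sub, exp_log h1, exp_log hx] at h3
  have h4 : (x + 1) / x - ((x + 1) / x)⁻¹ = 1 / x + 1 / (x + 1) := by
    field_simp
    ring
  linarith

theorem xTrig_e {y : ℝ} (hy : 0 ≤ y) :
    1 - exp (-y) ≤ y * (1 + exp (-y)) / 2 ∧ exp (-y) * (1 + y) ≤ 1 ∧ exp (-y) ≤ 1 := by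
  have h0 := exp_pos y
  have h1 := add_one_le_exp y
  have h2 := le_log_one_add_of_nonneg (x := exp y - 1) (by linarith)
  rw [add_sub_cancel, log_exp, div_le_iff₀ (by linarith)] at h2
  have h3 : exp (-y) * exp y = 1 := by rw [← exp_add, neg_add_cancel, exp_zero]
  have h4 := exp_pos (-y)
  refine ⟨?_, ?_, exp_le_one_iff.2 (by linarith)⟩
  · have := mul_le_mul_of_nonneg_left h2 h4.le
    nlinarith
  · have := mul_le_mul_of_nonneg_left h1 h4.le
    linarith

/-- the power `x ^ (-η)` -/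
def xTrig_u (η x : ℝ) : ℝ := exp (-(η * log x))

theorem xTrig_succ (η x : ℝ) :
    xTrig_u η (x + 1) = xTrig_u η x * exp (-(η * (log (x + 1) - log x))) := by
  rw [xTrig_u, xTrig_u, ← exp_add]
  congr 1
  ring

theorem xTrig_A {η x : ℝ} (hη : 0 < η) (hx : 0 < x) :
    2 * (xTrig_u η x - xTrig_u η (x + 1)) ≤
      η * (xTrig_u η x / x + xTrig_u η (x + 1) / (x + 1)) := by
  obtain ⟨h1, h2⟩ := xTrig_d hx
  have h0 : 0 < 1 / (x + 1) := by positivity
  obtain ⟨h3, -, h5⟩ := xTrig_e (mul_nonneg hη.le (h0.le.trans h1))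
  rw [xTrig_succ]
  have hu : 0 < xTrig_u η x := exp_pos _
  generalize log (x + 1) - log x = d at *
  generalize exp (-(η * d)) = E at *
  have h6 : d * (1 + E) ≤ 1 / x + E * (1 / (x + 1)) := by
    nlinarith [mul_nonneg (sub_nonneg.2 h5) (sub_nonneg.2 h1)]
  have h7 : 2 * (1 - E) ≤ η * (1 / x + E * (1 / (x + 1))) := by
    nlinarith [mul_le_mul_of_nonneg_left h6 hη.le]
  have := mul_le_mul_of_nonneg_left h7 hu.le
  refine (le_of_eq (by ring)).trans (this.trans (le_of_eq (by ring)))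

/-- the majorant of the tail of the logarithmic series -/
def xTrig_H (η x : ℝ) : ℝ := xTrig_u η x * (log x / η + 1 / η ^ 2) + 1 / x

theorem xTrig_B {η x : ℝ} (hη : 0 < η) (hx : 1 ≤ x) :
    log (x + 1) * (xTrig_u η (x + 1) / (x + 1)) ≤ xTrig_H η x - xTrig_H η (x + 1) := by
  have hx0 : 0 < x := by linarith
  obtain ⟨h1, h2⟩ := xTrig_d hx0
  have h0 : 0 < 1 / (x + 1) := by positivity
  obtain ⟨-, h4, h5⟩ := xTrig_e (mul_nonneg hη.le (h0.le.trans h1))
  have ha := log_nonneg hx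
  have hu : 0 < xTrig_u η x := exp_pos _
  have hu1 : xTrig_u η x ≤ 1 := (xTrig_e (mul_nonneg hη.le ha)).2.2
  have hE := exp_pos (-(η * (log (x + 1) - log x)))
  have e1 : log (x + 1) = log x + (log (x + 1) - log x) := by ring
  rw [xTrig_H, xTrig_H, xTrig_succ]
  generalize log (x + 1) - log x = d at *
  rw [e1]
  generalize exp (-(η * d)) = E at *
  generalize log x = a at *
  generalize xTrig_u η x = u at *
  have k1 : 0 ≤ (1 - E * (1 + η * d)) * (a / η + 1 / η ^ 2) := by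
    have := sub_nonneg.2 h4
    positivity
  have k2 : a / η + 1 / η ^ 2 - E * ((a + d) / η + 1 / η ^ 2) =
      (1 - E * (1 + η * d)) * (a / η + 1 / η ^ 2) + E * a * d := by
    field_simp
    ring
  have k3 : E * a * (1 / (x + 1)) ≤ E * a * d := mul_le_mul_of_nonneg_left h1 (by positivity)
  have k4 : u * (E * a * (1 / (x + 1))) ≤
      u * (a / η + 1 / η ^ 2 - E * ((a + d) / η + 1 / η ^ 2)) :=
    mul_le_mul_of_nonneg_left (by linarith) hu.le
  have k5 : u * E * (d * (1 / (x + 1))) ≤ 1 * 1 * (1 / x * (1 / (x + 1))) := by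
    have : d ≤ 1 / x := by linarith
    have : 0 ≤ d := by linarith
    gcongr
  have k6 : 1 / x * (1 / (x + 1)) = 1 / x - 1 / (x + 1) := by
    field_simp
    ring
  have k7 : (a + d) * (u * E / (x + 1)) =
      u * (E * a * (1 / (x + 1))) + u * E * (d * (1 / (x + 1))) := by ring
  linarith

theorem xTrig_Z {η Z : ℝ} (hη : 0 < η)
    (h : HasSum (fun n : ℕ => xTrig_u η (n + 1) / (n + 1)) Z) : 1 / η + 1 / 2 ≤ Z := by
  have hp : ∀ n : ℕ, 0 ≤ xTrig_u η (n + 1) / (n + 1) := fun n =>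
    div_nonneg (exp_pos _).le (by positivity)
  have h1 := (hasSum_nat_add_iff' 1).2 h
  have u1 : xTrig_u η 1 = 1 := by simp [xTrig_u]
  simp only [sum_range_one, Nat.cast_zero, zero_add, u1, div_one, Nat.cast_add, Nat.cast_one] at h1
  have h2 := (h.add h1).mul_left η
  have h3 : ∀ N : ℕ, 2 * (1 - xTrig_u η (N + 1)) ≤ η * (Z + (Z - 1)) := fun N => by
    refine le_trans ?_ (sum_le_hasSum (range N) (fun n _ => mul_nonneg hη.le (add_nonneg (hp n)
      (div_nonneg (exp_pos _).le (by positivity)))) h2)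
    refine le_trans (le_of_eq ?_) (sum_le_sum fun n _ => xTrig_A hη (by positivity))
    have := sum_range_sub' (fun n : ℕ => xTrig_u η (n + 1)) N
    simp only [Nat.cast_zero, zero_add, u1, Nat.cast_add, Nat.cast_one] at this
    rw [← mul_sum, this]
  have h4 : Tendsto (fun N : ℕ => xTrig_u η (N + 1)) atTop (𝓝 0) :=
    tendsto_exp_neg_atTop_nhds_zero.comp ((tendsto_log_atTop.comp
      (tendsto_atTop_add_const_right _ 1 tendsto_natCast_atTop_atTop)).const_mul_atTop hη)
  have h5 := le_of_tendsto' ((h4.const_sub 1).const_mul 2) h3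
  have h6 : 1 / η ≤ Z - 1 / 2 := by
    rw [div_le_iff₀ hη]
    linarith
  linarith

theorem xTrig_Z1 {η Z : ℝ} (hη : 0 < η)
    (h : HasSum (fun n : ℕ => log (n + 1) * (xTrig_u η (n + 1) / (n + 1))) Z) :
    Z ≤ 1 / η ^ 2 + 1 := by
  have h1 := (hasSum_nat_add_iff' 1).2 h
  simp only [sum_range_one, Nat.cast_zero, zero_add, log_one, zero_mul, sub_zero, Nat.cast_add,
    Nat.cast_one] at h1
  refine le_of_tendsto' h1.tendsto_sum_nat fun N => ?_
  refine (sum_le_sum fun n _ => xTrig_B hη (by simp)).trans ?_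
  have := sum_range_sub' (fun n : ℕ => xTrig_H η (n + 1)) N
  simp only [Nat.cast_zero, zero_add, Nat.cast_add, Nat.cast_one] at this
  rw [this]
  have h2 : xTrig_H η 1 = 1 / η ^ 2 + 1 := by simp [xTrig_H, xTrig_u]
  have h3 : 0 ≤ xTrig_H η (N + 1) := by
    have := log_nonneg (show (1 : ℝ) ≤ N + 1 by simp)
    have : 0 < xTrig_u η (N + 1) := exp_pos _
    rw [xTrig_H]
    positivity
  linarith

/-- real parts of Dirichlet series with real coefficients -/
theorem xTrig_re {F : ℕ → ℂ} (f : ℕ → ℝ) (hf : ∀ n, F n = f n) {η τ : ℝ}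
    (hs : LSeriesSummable F (((1 + η : ℝ) : ℂ) + τ * Complex.I)) :
    HasSum (fun n : ℕ => f (n + 1) * (xTrig_u η (n + 1) / (n + 1)) * cos (τ * log (n + 1)))
      (LSeries F (((1 + η : ℝ) : ℂ) + τ * Complex.I)).re := by
  have h1 := Complex.hasSum_re ((hasSum_nat_add_iff' 1).2 hs.hasSum)
  simp only [sum_range_one, LSeries.term_zero, sub_zero] at h1
  refine h1.congr_fun fun n => Eq.symm ?_
  have h0 : (0 : ℝ) < n + 1 := by positivity
  have e : ((n + 1 : ℕ) : ℂ) = ((n + 1 : ℝ) : ℂ) := by push_cast; rfl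
  rw [LSeries.term_of_ne_zero n.succ_ne_zero, hf, e, div_eq_mul_inv (f (n + 1) : ℂ),
    Complex.cpow_def_of_ne_zero (Complex.ofReal_ne_zero.2 h0.ne'), ← Complex.exp_neg,
    ← Complex.ofReal_log h0.le, Complex.re_ofReal_mul, Complex.exp_re]
  have e1 : (-((log (n + 1) : ℝ) * (((1 + η : ℝ) : ℂ) + τ * Complex.I))).re =
      -(η * log (n + 1)) - log (n + 1) := by
    simp only [Complex.neg_re, Complex.re_ofReal_mul, Complex.add_re, Complex.ofReal_re,
      Complex.I_re]
    ring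
  have e2 : (-((log (n + 1) : ℝ) * (((1 + η : ℝ) : ℂ) + τ * Complex.I))).im =
      -(τ * log (n + 1)) := by
    simp only [Complex.neg_im, Complex.im_ofReal_mul, Complex.add_im, Complex.ofReal_im,
      Complex.I_im]
    ring
  rw [e1, e2, cos_neg, exp_sub, exp_log h0, xTrig_u, mul_assoc]

theorem xTrig_one {η τ : ℝ} (hη : 0 < η) : 1 < (((1 + η : ℝ) : ℂ) + τ * Complex.I).re := by
  simp [hη]

theorem xTrig_L {η : ℝ} (hη : 0 < η) (h20 : η ≤ 1 / 20) :
    (LSeries (fun n => (vonMangoldt n : ℂ)) (((1 + η : ℝ) : ℂ) + (0 : ℝ) * Complex.I)).re ≤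
      1 / η - 0.4 := by
  have hs := xTrig_one (τ := 0) hη
  have ha : LSeries.abscissaOfAbsConv 1 < (((1 + η : ℝ) : ℂ) + (0 : ℝ) * Complex.I).re := by
    rw [LSeries.abscissaOfAbsConv_one]
    exact_mod_cast hs
  have h1 := xTrig_re (F := 1) (fun _ => 1) (fun _ => rfl) (LSeriesSummable_one_iff.2 hs)
  have h2 := xTrig_re (fun n => log n) (fun n => by simp [LSeries.logMul, Complex.natCast_log])
    (LSeriesSummable_logMul_of_lt_re ha)
  simp only [zero_mul, cos_zero, mul_one, one_mul, Nat.cast_add, Nat.cast_one] at h1 h2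
  have h3 := xTrig_Z hη h1
  have h4 := xTrig_Z1 hη h2
  have h5 := ArithmeticFunction.LSeries_vonMangoldt_eq hs
  rw [LSeries_deriv ha, neg_neg, eq_div_iff (LSeries_one_ne_zero_of_one_lt_re hs)] at h5
  have h6 : (LSeries 1 (((1 + η : ℝ) : ℂ) + (0 : ℝ) * Complex.I)).im = 0 := by
    rw [LSeries_one_eq_riemannZeta hs, Complex.ofReal_zero, zero_mul, add_zero]
    exact riemannZeta_im_eq_zero_of_one_lt (by linarith)
  rw [← h5, Complex.mul_re, h6, mul_zero, sub_zero] at h4
  have h7 : 20 ≤ 1 / η := by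
    rw [le_div_iff₀ hη]
    linarith
  rw [← one_pow 2, ← div_pow, one_pow] at h4
  by_contra hc
  have := mul_le_mul (not_le.1 hc).le h3 (by linarith) (by linarith)
  nlinarith

theorem xTrig_poly (x : ℝ) : 0 ≤ ta 0 + ∑ j ∈ Icc 1 4, ta j * cos (j * x) := by
  have e : Icc 1 4 = ({1, 2, 3, 4} : Finset ℕ) := by decide
  have e4 : cos (4 * x) = 2 * (2 * cos x ^ 2 - 1) ^ 2 - 1 := by
    rw [← cos_two_mul, ← cos_two_mul]
    congr 1
    ring
  rw [e, sum_insert (by decide), sum_insert (by decide), sum_insert (by decide), sum_singleton]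
  simp only [ta, Nat.cast_one, Nat.cast_ofNat, one_mul, cos_two_mul, cos_three_mul, e4]
  refine le_of_le_of_eq (sq_nonneg (cos x ^ 2 + 1.19 * cos x + 0.2548)) ?_
  ring

theorem stTrig : StTrig := by
  intro η t hη h20
  have hS := fun τ : ℝ => xTrig_re (η := η) (τ := τ) vonMangoldt (fun _ => rfl)
    (ArithmeticFunction.LSeriesSummable_vonMangoldt (xTrig_one hη))
  have h1 := ((hS 0).mul_left (ta 0)).add
    (hasSum_sum (s := Icc 1 4) fun (j : ℕ) _ => (hS (j * t)).mul_left (ta j))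
  have h2 := h1.nonneg fun n => by
    have h3 : 0 ≤ vonMangoldt (n + 1) * (xTrig_u η (n + 1) / (n + 1)) :=
      mul_nonneg ArithmeticFunction.vonMangoldt_nonneg (div_nonneg (exp_pos _).le (by positivity))
    refine le_of_le_of_eq (mul_nonneg h3 (xTrig_poly (t * log (n + 1)))) ?_
    rw [zero_mul, cos_zero, mul_add, mul_sum]
    refine congrArg₂ _ (by ring) (sum_congr rfl fun j _ => ?_)
    rw [← mul_assoc (j : ℝ)]
    ring
  refine h2.trans (add_le_add (mul_le_mul_of_nonneg_left (xTrig_L hη h20) (by norm_num [ta]))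
    (le_of_eq (sum_congr rfl fun j _ => ?_)))
  rw [ArithmeticFunction.LSeries_vonMangoldt_eq_deriv_riemannZeta_div (xTrig_one hη), neg_div,
    Complex.neg_re]

end

end Pool.Agent.MP_88bd62_nt.U
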