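import Pool.Agent.MP_88bd62_nt.U.Stmts

/-! From Poisson weights to the weights of a band. -/

namespace Pool.Agent.MP_88bd62_nt.U

open Finset Real

lemma xW_mem {N : ℕ} {k : ℤ} : k ∈ Kset N ↔ (-(2 * N : ℤ) < k ∧ k < 2 * N) ∧ k % 2 = 1 := by
  simp only [Kset, mem_filter, mem_Ioo, Int.odd_iff]

lemma xW_succ (N : ℕ) (g : ℝ → ℝ) :
    ∑ k ∈ Kset (N + 1), g |(k : ℝ)| = ∑ k ∈ Kset N, g |(k : ℝ)| + 2 * g (2 * N + 1) := by
  have h : Kset (N + 1) = insert (2 * N + 1 : ℤ) (insert (-(2 * N + 1 : ℤ)) (Kset N)) := by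
    ext k
    simp only [mem_insert, xW_mem]
    omega
  have h1 : |(2 * N + 1 : ℝ)| = 2 * N + 1 := abs_of_nonneg (by positivity)
  rw [h, sum_insert, sum_insert]
  · push_cast
    rw [abs_neg, h1]
    ring
  · simp only [xW_mem]
    omega
  · simp only [mem_insert, xW_mem]
    omega

lemma xW_card (N : ℕ) (t : ℝ) : ∑ _k ∈ Kset N, t = 2 * N * t := by
  induction N with
  | zero => simp [Kset]
  | succ N ih =>
    rw [xW_succ N fun _ => t, ih]
    push_cast
    ring

lemma xW_abs {N : ℕ} {k : ℤ} (h : k ∈ Kset N) : 0 < |(k : ℝ)| ∧ |(k : ℝ)| ≤ 2 * N := by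
  rw [xW_mem] at h
  have h1 : 0 < |k| := abs_pos.2 (by omega)
  have h2 : |k| ≤ 2 * N := abs_le.2 (by omega)
  exact ⟨by exact_mod_cast h1, by exact_mod_cast h2⟩

lemma xW_one {N N' : ℕ} {s C : ℝ} (hN : 1 ≤ N) (h : N ≤ N') (hC : 0 < C) :
    ∑ k ∈ Kset N', min (s * |(k : ℝ)| / (2 * N)) C / (π * |(k : ℝ)|) ≤
      (s + C * log (N' / N)) / π := by
  have hN0 : (0 : ℝ) < N := by exact_mod_cast hN
  have hπ := pi_pos
  induction N', h using Nat.le_induction with
  | base =>
    calc _ ≤ ∑ _k ∈ Kset N, s / (2 * N * π) := by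
          refine sum_le_sum fun k hk => ?_
          have h1 := (xW_abs hk).1
          refine (div_le_div_of_nonneg_right (min_le_left _ _) (by positivity)).trans_eq ?_
          field_simp
      _ = _ := by
          rw [xW_card, div_self hN0.ne', log_one]
          field_simp
          ring
  | succ M hM ih =>
    have hM0 : (0 : ℝ) < M := by exact_mod_cast hN.trans hM
    rw [xW_succ M fun t => min (s * t / (2 * N)) C / (π * t)]
    have h1 : min (s * (2 * M + 1) / (2 * N)) C / (π * (2 * M + 1)) ≤ C / (π * (2 * M + 1)) :=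
      div_le_div_of_nonneg_right (min_le_right _ _) (by positivity)
    have h2 : 2 / (2 * M + 1 : ℝ) ≤ log (1 + 1 / M) := by
      refine le_trans (le_of_eq ?_) (le_log_one_add_of_nonneg (by positivity))
      field_simp
      ring
    have h3 : log (((M + 1 : ℕ) : ℝ) / N) = log (M / N) + log (1 + 1 / M) := by
      rw [← log_mul (by positivity) (by positivity)]
      congr 1
      push_cast
      field_simp
    have h4 : 2 * (C / (π * (2 * M + 1))) = C / π * (2 / (2 * M + 1)) := by field_simp
    have h5 := mul_le_mul_of_nonneg_left h2 (div_pos hC hπ).le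
    have h6 : (s + C * (log (M / N) + log (1 + 1 / M))) / π =
        (s + C * log (M / N)) / π + C / π * log (1 + 1 / M) := by ring
    rw [h3, h6]
    linarith

lemma xW_int (a b : ℝ) {x : ℝ} (hx : x ≠ 0) :
    x * ∫ l in a..b, exp (-(l * x)) = exp (-(a * x)) - exp (-(b * x)) := by
  have h : ∀ l ∈ Set.uIcc a b, HasDerivAt (fun l => -exp (-(l * x)) / x) (exp (-(l * x))) l := by
    intro l _
    refine (((((hasDerivAt_id' l).mul_const x).fun_neg.exp).fun_neg).div_const x).congr_deriv ?_
    field_simp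
  rw [intervalIntegral.integral_eq_sub_of_hasDerivAt h
    (Continuous.intervalIntegrable (by fun_prop) _ _)]
  field_simp
  ring

lemma xW_cvx (α : ℝ) : ConvexOn ℝ Set.univ fun x => exp (α * x) :=
  ⟨convex_univ, fun x _ y _ p q hp hq hpq => by
    simpa [mul_add, mul_left_comm] using
      convexOn_exp.2 (Set.mem_univ (α * x)) (Set.mem_univ (α * y)) hp hq hpq⟩

lemma xW_iff (C c a b x : ℝ) : C ≤ c * (exp (-(a * x)) - exp (-(b * x))) ↔
    C * exp (a * x) + c * exp ((a - b) * x) ≤ c := by
  have h1 : exp (-(a * x)) * exp (a * x) = 1 := by rw [← exp_add, neg_add_cancel, exp_zero]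
  have h2 : exp (-(b * x)) * exp (a * x) = exp ((a - b) * x) := by
    rw [← exp_add]
    congr 1
    ring
  rw [← mul_le_mul_iff_left₀ (exp_pos (a * x)), mul_assoc, sub_mul, h1, h2, mul_sub, mul_one,
    le_sub_iff_add_le]

lemma xW_min {s C c a b x y : ℝ} (hs : 0 < s) (hC : 0 < C) (hc : 0 < c) (ha : 0 < a) (hab : a < b)
    (h1 : C ≤ c * (exp (-(a * (C / s))) - exp (-(b * (C / s)))))
    (h2 : C ≤ c * (exp (-(a * y)) - exp (-(b * y)))) (hx : 0 < x) (hxy : x ≤ y) :
    min (s * x) C ≤ c * (exp (-(a * x)) - exp (-(b * x))) := by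
  have h0 : 0 < C / s := div_pos hC hs
  rcases le_total x (C / s) with h | h
  · refine (min_le_left _ _).trans ?_
    have h3 : ∫ l in a..b, exp (-(l * (C / s))) ≤ ∫ l in a..b, exp (-(l * x)) :=
      intervalIntegral.integral_mono_on hab.le (Continuous.intervalIntegrable (by fun_prop) _ _)
        (Continuous.intervalIntegrable (by fun_prop) _ _) fun l hl =>
          exp_le_exp.2 (neg_le_neg (mul_le_mul_of_nonneg_left h (ha.le.trans hl.1)))
    rw [← xW_int a b h0.ne'] at h1
    rw [← xW_int a b hx.ne']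
    generalize ∫ l in a..b, exp (-(l * (C / s))) = I at h1 h3
    generalize ∫ l in a..b, exp (-(l * x)) = J at h3
    have h4 : s ≤ c * I := by
      have h5 : c * (C / s * I) = c * I * C / s := by ring
      rw [h5, le_div_iff₀ hs, mul_comm (c * I)] at h1
      exact le_of_mul_le_mul_left h1 hC
    calc s * x ≤ c * J * x :=
          mul_le_mul_of_nonneg_right (h4.trans (mul_le_mul_of_nonneg_left h3 hc.le)) hx.le
      _ = _ := by ring
  · refine (min_le_right _ _).trans ?_
    rw [xW_iff] at h1 h2 ⊢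
    exact ((((xW_cvx a).smul hC.le).add ((xW_cvx (a - b)).smul hc.le)).le_max_of_mem_Icc
      (Set.mem_univ _) (Set.mem_univ _) ⟨h, hxy⟩).trans (max_le h1 h2)

lemma xW_two {X : ℤ → ℝ} {q D E a b : ℝ} (hL : L2B X q D E) (hE : 0 ≤ E) (ha : 0 < a)
    (hab : a < b) (hb : b ≤ 1 / 10) (N : ℕ) :
    ∑ k ∈ Kset N, (∫ l in a..b, exp (-(l * |(k : ℝ)|))) * X k ≤
      (q + E * b) * (b - a) + D * log (b / a) := by
  have hc : ∀ k : ℤ, Continuous fun l : ℝ => exp (-(l * |(k : ℝ)|)) * X k := fun k => by fun_prop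
  have hi : IntervalIntegrable (fun l : ℝ => D * l⁻¹) MeasureTheory.volume a b :=
    (intervalIntegral.intervalIntegrable_inv
      (fun l hl => (ha.trans_le ((Set.uIcc_of_le hab.le ▸ hl).1)).ne') continuousOn_id).const_mul D
  simp only [← intervalIntegral.integral_mul_const]
  rw [← intervalIntegral.integral_finsetSum fun k _ => (hc k).intervalIntegrable _ _]
  calc _ ≤ ∫ l in a..b, (q + E * b) + D * l⁻¹ := by
        refine intervalIntegral.integral_mono_on hab.le
          ((continuous_finsetSum _ fun k _ => hc k).intervalIntegrable _ _)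
          (intervalIntegrable_const.add hi) fun l hl => ?_
        have h1 := hL l (ha.trans_le hl.1) (hl.2.trans hb) (Kset N) fun k hk => (mem_filter.1 hk).2
        have h2 := mul_le_mul_of_nonneg_left hl.2 hE
        rw [div_eq_mul_inv] at h1
        linarith
    _ = _ := by
        rw [intervalIntegral.integral_add intervalIntegrable_const hi,
          intervalIntegral.integral_const, intervalIntegral.integral_const_mul,
          integral_inv_of_pos ha (ha.trans hab), smul_eq_mul, mul_comm]

theorem stW : StW := by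
  intro N N' s C hN h hs hC
  refine ⟨xW_one hN h hC, fun X q D E c a b hX hL hE hc ha hab hb _ h1 h2 => ?_⟩
  have hN0 : (0 : ℝ) < 2 * N := by positivity
  have hπ := pi_pos
  have h3 := xW_two hL hE (div_pos ha hN0) (div_lt_div_of_pos_right hab hN0)
    (by rw [div_le_iff₀ hN0]; linarith) N'
  calc _ ≤ ∑ k ∈ Kset N', c / π *
        ((∫ l in (a / (2 * N))..(b / (2 * N)), exp (-(l * |(k : ℝ)|))) * X k) := by
        refine sum_le_sum fun k hk => ?_
        obtain ⟨h4, h5⟩ := xW_abs hk
        have h6 := xW_min (x := |(k : ℝ)| / (2 * N)) hs hC hc ha hab h1 h2 (div_pos h4 hN0) (by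
          rw [div_le_iff₀ hN0]
          refine h5.trans_eq ?_
          field_simp)
        rw [← mul_div_assoc, mul_div_left_comm a, mul_div_left_comm b, mul_comm |(k : ℝ)|,
          mul_comm |(k : ℝ)|, ← xW_int _ _ h4.ne'] at h6
        refine (div_le_div_of_nonneg_right (mul_le_mul_of_nonneg_right h6 (hX k))
          (by positivity)).trans_eq ?_
        field_simp
    _ ≤ c / π * ((q + E * (b / (2 * N))) * (b / (2 * N) - a / (2 * N)) +
        D * log (b / (2 * N) / (a / (2 * N)))) := by
        rw [← mul_sum]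
        exact mul_le_mul_of_nonneg_left h3 (by positivity)
    _ = _ := by
        rw [div_div_div_cancel_right₀ hN0.ne']
        ring

end Pool.Agent.MP_88bd62_nt.U
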