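import Pool.Agent.MP_88bd62_nt.U.Stmts

namespace Pool.Agent.MP_88bd62_nt.U

open Finset Real

theorem xX_band (n : ℕ) (k : ℤ) (hk : k ∈ Kset (2 ^ n)) :
    4 ≤ |tk k| ∧ |tk k| ≤ π * 2 ^ (n + 1) / log 2 := by
  have l2 : 0 < log 2 := log_pos one_lt_two
  obtain ⟨h1, h2⟩ := mem_filter.mp hk
  obtain ⟨h3, h4⟩ := mem_Ioo.mp h1
  have e : |tk k| = π * |(k : ℝ)| / log 2 := by
    rw [tk, abs_div, abs_mul, abs_of_pos pi_pos, abs_of_pos l2]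
  have k1 : (1 : ℝ) ≤ |(k : ℝ)| := by
    have : k ≠ 0 := by rintro rfl; exact absurd h2 (by decide)
    exact_mod_cast Int.one_le_abs this
  have k2 : |(k : ℝ)| ≤ 2 ^ (n + 1) := by
    have : |k| ≤ 2 ^ (n + 1) := by
      push_cast at h3 h4
      rw [pow_succ', abs_le]
      exact ⟨h3.le, h4.le⟩
    exact_mod_cast this
  rw [e]
  refine ⟨?_, by gcongr⟩
  rw [le_div_iff₀ l2]
  nlinarith [pi_gt_three, log_two_lt_d9]

theorem stX (hZF : StZF) (hEx : StEx) (hChern : StChern) (hSer : StSer) : StX := by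
  rintro P ⟨-, -, h3, h4, h5, h6, h7, h8, h9, h10, h11, h12, h13, h14, h15, -, h17, h18, h19,
    h20, h21, h22⟩ hM
  have hL : Lev P.w P.J P.θ := hChern _ _ _ _ _ _ h4 h6 h12 h13 h5 h20 h15.le h21
  obtain ⟨hA, hS⟩ := hSer P.jz P.J P.w P.θ (by omega) hL h14 h15
  obtain ⟨z1, z2⟩ := h18.1 1 (by simp)
  have hT : P.T ≤ 2 * π * exp P.L₁ := by
    have : ((1 : ℕ) : ℝ) * P.T + 1 ≤ 2 * π * exp P.L₁ := z2
    push_cast at this
    linarith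
  refine ⟨hL, hA, fun k hk => ?_⟩
  obtain ⟨b1, b2⟩ := xX_band _ k hk
  have b3 : |tk k| ≤ P.T - 1 := by linarith
  exact ⟨b1, b3, hS k, hEx P.jz P.K P.x P.δ P.T P.L₁ P.Mb P.ε h3 h4 h6 h7 h9 z1 hT
    (hZF _ _ _ _ _ h18 h10 h11 h7 h8 h19).1 hM h22 k (mem_filter.mp hk).2 b3⟩

end Pool.Agent.MP_88bd62_nt.U
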