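import Pool.Agent.MP_88bd62_nt.U.Stmts

namespace Pool.Agent.MP_88bd62_nt.U

open Finset Real

lemma xZF_al0 {L : ℝ} (hL : 17 ≤ L) : 2.4 ≤ al0 L := by
  rw [al0, le_log_iff_exp_le (by linarith)]
  have h1 : exp 2.4 = exp 1 * exp 1 * exp 0.4 := by
    rw [← exp_add, ← exp_add]; norm_num
  have h2 := (abs_le.1 (abs_exp_sub_one_sub_id_le (x := 0.4) (by
    rw [abs_of_pos] <;> norm_num))).2
  have h3 := exp_one_lt_d9
  have h4 : exp 1 * exp 1 ≤ 2.72 * 2.72 :=
    mul_le_mul (by linarith) (by linarith) (exp_pos _).le (by norm_num)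
  have h5 : exp 1 * exp 1 * exp 0.4 ≤ 2.72 * 2.72 * 1.56 :=
    mul_le_mul h4 (by norm_num at h2 ⊢; linarith) (exp_pos _).le (by norm_num)
  rw [h1]
  norm_num at h5 ⊢
  linarith

lemma xZF_al1 {L : ℝ} (hL : 17 ≤ L) : 0 ≤ al1 L := by
  have h1 := log_le_sub_one_of_pos (x := (L / 2 + 3.1) / 6.7) (by positivity)
  rw [log_div (by positivity) (by norm_num)] at h1
  have h2 : (L / 2 + 3.1) / 6.7 ≤ L / 4 + 1 := by
    rw [div_le_iff₀ (by norm_num)]
    norm_num
    linarith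
  rw [al1, al0]
  linarith

lemma xZF_al2 {L : ℝ} (hL : 17 ≤ L) : 0 ≤ al2 L := by
  have h1 : log 6.7 ≤ log (1.132 * L + 4.45) := log_le_log (by norm_num) (by linarith)
  have h2 : log 6.7 ≤ log (L / 2 + 3.1) := log_le_log (by norm_num) (by linarith)
  rw [al2, al0]
  linarith

lemma xZF_re {ρ : ℂ} (h : riemannZeta ρ = 0) : ρ.re < 1 :=
  not_le.1 fun h1 => riemannZeta_ne_zero_of_one_le_re h1 h

lemma xZF_im {z a : ℂ} {r : ℝ} (h : ‖z - a‖ ≤ r) :
    |a.im| - r ≤ |z.im| ∧ |z.im| ≤ |a.im| + r := by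
  have h1 := (Complex.abs_im_le_norm (z - a)).trans h
  rw [Complex.sub_im] at h1
  have h2 := abs_le.1 ((abs_abs_sub_abs_le_abs_sub z.im a.im).trans h1)
  constructor <;> linarith [h2.1, h2.2]

/-- the conclusion of the disc estimate for the zeta function -/
def xZF_C (a : ℂ) (L S : ℝ) : Prop :=
  0 ≤ S ∧ -(deriv riemannZeta a / riemannZeta a).re ≤ Kf L - S ∧
    (∀ ρ, ‖ρ - a‖ < 0.999 → riemannZeta ρ = 0 → (a - ρ).re * (1 / ‖a - ρ‖ ^ 2 - 1.003) ≤ S) ∧
    ∀ η δ ℓ : ℝ, 0 < η → η ≤ 1 / 50 → 0 < δ → 0 ≤ ℓ →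
      (∀ ρ, ‖ρ - a‖ ≤ 1 → riemannZeta ρ = 0 → η + δ ≤ (a - ρ).re) →
      -ℓ ≤ log ‖riemannZeta a‖ → exp (-lvG ℓ S (Jf L) η δ) ≤ ‖riemannZeta (a - η)‖

lemma xZF_disc (hZ2 : StZ2) (hDisc : StDisc) (hInv : StInv) {a : ℂ} {L : ℝ} (ha : 1 < a.re)
    (h3 : 3 ≤ |a.im|) (hL : 17 ≤ L) (hT : |a.im| + 1 ≤ 2 * π * exp L) : ∃ S, xZF_C a L S := by
  refine hDisc riemannZeta a _ _ _ (fun z hz => ?_) (riemannZeta_ne_zero_of_one_le_re ha.le)
    (xZF_al0 hL) (xZF_al1 hL) (xZF_al2 hL) (fun ρ _ h => ?_) (fun z u hz h0 h1 h2 => ?_)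
    fun z _ h => ?_
  · refine (differentiableAt_riemannZeta ?_).differentiableWithinAt
    rintro rfl
    have := (xZF_im (mem_ball_iff_norm.1 hz).le).1
    norm_num at this
    linarith
  · rw [Complex.sub_re]
    linarith [xZF_re h]
  · rw [Complex.sub_re] at h2
    have h4 := xZF_im hz
    have := hZ2 L z.im u z.re hL (by linarith [h4.1]) (by linarith [h4.2]) h0 h1 (by linarith)
    rwa [Complex.re_add_im] at this
  · rw [Complex.sub_re] at h ⊢
    refine (hInv.1 z (by linarith)).trans (log_le_log ?_ ?_)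
    · have : 0 < z.re - 1 := by linarith
      positivity
    · have := one_div_le_one_div_of_le h (by linarith : z.re - a.re ≤ z.re - 1)
      linarith

lemma xZF_S (hZ2 : StZ2) (hDisc : StDisc) (hTrig : StTrig) (hInv : StInv) {T KK η t : ℝ}
    {L : ℕ → ℝ} (hOK : ZOK T L KK) (h0 : 0 < η) (h1 : η ≤ 1 / 50) (h3 : 3 ≤ |t|) (hT : |t| ≤ T) :
    ∃ S, S ≤ Sbar KK η ∧ xZF_C ((1 + η : ℝ) + t * Complex.I) (L 1) S := by
  have key : ∀ j : ℕ, ∃ S, j ∈ Icc 1 4 →
      xZF_C ((1 + η : ℝ) + (j * t : ℝ) * Complex.I) (L j) S := by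
    intro j
    by_cases hj : j ∈ Icc 1 4
    · have hj1 : (1 : ℝ) ≤ j := by exact_mod_cast (mem_Icc.1 hj).1
      have him : |(((1 + η : ℝ) : ℂ) + (j * t : ℝ) * Complex.I).im| = j * |t| := by
        simp [abs_mul]
      obtain ⟨S, hS⟩ := xZF_disc hZ2 hDisc hInv (a := (1 + η : ℝ) + (j * t : ℝ) * Complex.I)
        (L := L j) (by simpa using h0) (by rw [him]; nlinarith) (hOK.1 j hj).1 (by
          rw [him]
          have := (hOK.1 j hj).2
          nlinarith)
      exact ⟨S, fun _ => hS⟩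
    · exact ⟨0, fun h => absurd h hj⟩
  choose S hS using key
  have k1 := hS 1 (by decide)
  have k2 := hS 2 (by decide)
  have k3 := hS 3 (by decide)
  have k4 := hS 4 (by decide)
  refine ⟨S 1, ?_, by simpa using k1⟩
  have e1 := hTrig η t h0 (by linarith)
  have e2 := hOK.2
  rw [show (Icc 1 4 : Finset ℕ) = {1, 2, 3, 4} by decide] at e1 e2
  rw [sum_insert (by decide), sum_insert (by decide), sum_pair (by decide)] at e1 e2
  simp only [ta, Sbar] at e1 e2 ⊢
  linarith [k1.2.1, k2.2.1, k3.2.1, k4.2.1, k2.1, k3.1, k4.1]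

theorem stZF (hZ2 : StZ2) (hDisc : StDisc) (hTrig : StTrig) (hInv : StInv) : StZF := by
  intro T KK η₀ δ L hOK h0 h1 hδ hδ1 hS
  have hZF : ZF T δ := by
    intro ρ hρ h3 hT
    by_contra hlt
    obtain ⟨S, k1, -, -, k2, -⟩ := xZF_S hZ2 hDisc hTrig hInv hOK h0 h1 h3 hT
    have hre := xZF_re hρ
    set x := 1 + η₀ - ρ.re with hx
    have hx0 : 0 < x := by linarith
    have hx1 : x < η₀ + δ := by linarith [not_le.1 hlt]
    have he : ((1 + η₀ : ℝ) : ℂ) + ρ.im * Complex.I - ρ = (x : ℝ) :=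
      Complex.ext (by simp [hx]) (by simp)
    have k3 := k2 ρ (by
      rw [norm_sub_rev, he, Complex.norm_real, Real.norm_eq_abs, abs_of_pos hx0]
      linarith) hρ
    rw [he, Complex.norm_real, Real.norm_eq_abs, sq_abs, Complex.ofReal_re,
      show x * (1 / x ^ 2 - 1.003) = 1 / x - 1.003 * x by field_simp] at k3
    have := one_div_lt_one_div_of_lt hx0 hx1
    linarith
  refine ⟨hZF, fun η t g0 g1 g4 gT => ?_⟩
  obtain ⟨S, k1, -, -, -, k2⟩ :=
    xZF_S hZ2 hDisc hTrig hInv hOK g0 g1 (by linarith : 3 ≤ |t|) (by linarith)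
  have hη : 50 ≤ 1 / η := by
    rw [le_div_iff₀ g0]
    linarith
  have k3 := k2 η δ (log ((1 / η + 1) / 1.6)) g0 g1 hδ
    (log_nonneg (by rw [le_div_iff₀ (by norm_num)]; linarith)) (fun ρ h hρ => by
      have h4 := xZF_im h
      have him : (((1 + η : ℝ) : ℂ) + t * Complex.I).im = t := by simp
      rw [him] at h4
      have := hZF ρ hρ (by linarith [h4.1]) (by linarith [h4.2])
      simp only [Complex.sub_re, Complex.add_re, Complex.ofReal_re, Complex.mul_re, Complex.I_re,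
        Complex.ofReal_im, Complex.I_im]
      linarith) (by
      have hre : (((1 + η : ℝ) : ℂ) + t * Complex.I).re = 1 + η := by simp
      have := hInv.2 (((1 + η : ℝ) : ℂ) + t * Complex.I) (by rw [hre]; linarith)
        (by rw [hre]; linarith)
      rw [hre, add_sub_cancel_left] at this
      rw [← log_inv, inv_div]
      exact log_le_log (by positivity) this)
  rw [show ((1 + η : ℝ) : ℂ) + t * Complex.I - η = 1 + t * Complex.I by push_cast; ring] at k3
  refine le_trans (exp_le_exp.2 (neg_le_neg ?_)) k3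
  have hc : 0 ≤ (η + δ) * log (1 + η / δ) :=
    mul_nonneg (by positivity) (log_nonneg (by linarith [div_pos g0 hδ]))
  have hd : 0 < 1 - η / 0.999 := by
    rw [sub_pos, div_lt_one (by norm_num)]
    linarith
  have := div_le_div_of_nonneg_right (mul_le_mul_of_nonneg_right k1 hc) hd.le
  simp only [lvG]
  linarith

end Pool.Agent.MP_88bd62_nt.U
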