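import Pool.Agent.MP_88bd62_nt.U.KL
import Pool.Agent.MP_88bd62_nt.U.Block
import Pool.Agent.MP_88bd62_nt.U.EM
import Pool.Agent.MP_88bd62_nt.U.Z2a
import Pool.Agent.MP_88bd62_nt.U.Z2
import Pool.Agent.MP_88bd62_nt.U.ZC
import Pool.Agent.MP_88bd62_nt.U.FA
import Pool.Agent.MP_88bd62_nt.U.Fo
import Pool.Agent.MP_88bd62_nt.U.Smooth
import Pool.Agent.MP_88bd62_nt.U.SI
import Pool.Agent.MP_88bd62_nt.U.TB
import Pool.Agent.MP_88bd62_nt.U.Tau1
import Pool.Agent.MP_88bd62_nt.U.Tau2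
import Pool.Agent.MP_88bd62_nt.U.Tau3
import Pool.Agent.MP_88bd62_nt.U.KerA
import Pool.Agent.MP_88bd62_nt.U.LP
import Pool.Agent.MP_88bd62_nt.U.Tau4
import Pool.Agent.MP_88bd62_nt.U.Tau
import Pool.Agent.MP_88bd62_nt.U.KerB
import Pool.Agent.MP_88bd62_nt.U.Chain
import Pool.Agent.MP_88bd62_nt.U.DiscA
import Pool.Agent.MP_88bd62_nt.U.DiscB
import Pool.Agent.MP_88bd62_nt.U.DiscC
import Pool.Agent.MP_88bd62_nt.U.Disc
import Pool.Agent.MP_88bd62_nt.U.Trig
import Pool.Agent.MP_88bd62_nt.U.Inv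
import Pool.Agent.MP_88bd62_nt.U.ZF
import Pool.Agent.MP_88bd62_nt.U.Car
import Pool.Agent.MP_88bd62_nt.U.Count
import Pool.Agent.MP_88bd62_nt.U.S2
import Pool.Agent.MP_88bd62_nt.U.Ex1
import Pool.Agent.MP_88bd62_nt.U.Ex
import Pool.Agent.MP_88bd62_nt.U.Chern
import Pool.Agent.MP_88bd62_nt.U.Ser
import Pool.Agent.MP_88bd62_nt.U.X
import Pool.Agent.MP_88bd62_nt.U.H
import Pool.Agent.MP_88bd62_nt.U.Pt
import Pool.Agent.MP_88bd62_nt.U.Fz
import Pool.Agent.MP_88bd62_nt.U.Pois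
import Pool.Agent.MP_88bd62_nt.U.L2a
import Pool.Agent.MP_88bd62_nt.U.Sel
import Pool.Agent.MP_88bd62_nt.U.Mert
import Pool.Agent.MP_88bd62_nt.U.L2
import Pool.Agent.MP_88bd62_nt.U.W
import Pool.Agent.MP_88bd62_nt.U.RemG
import Pool.Agent.MP_88bd62_nt.U.KerC
import Pool.Agent.MP_88bd62_nt.U.HP
import Pool.Agent.MP_88bd62_nt.U.IB
import Pool.Agent.MP_88bd62_nt.U.Fac
import Pool.Agent.MP_88bd62_nt.U.Maj2
import Pool.Agent.MP_88bd62_nt.U.Mass
import Pool.Agent.MP_88bd62_nt.U.Crude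
import Pool.Agent.MP_88bd62_nt.U.Hy
import Pool.Agent.MP_88bd62_nt.U.Gr
import Pool.Agent.MP_88bd62_nt.U.PrIB
import Pool.Agent.MP_88bd62_nt.U.HPG
import Pool.Agent.MP_88bd62_nt.U.Grow
import Pool.Agent.MP_88bd62_nt.U.P0X
import Pool.Agent.MP_88bd62_nt.U.P1X
import Pool.Agent.MP_88bd62_nt.U.P1L
import Pool.Agent.MP_88bd62_nt.U.P1R
import Pool.Agent.MP_88bd62_nt.U.P2X
import Pool.Agent.MP_88bd62_nt.U.P2L
import Pool.Agent.MP_88bd62_nt.U.P2R
import Pool.Agent.MP_88bd62_nt.U.P3X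
import Pool.Agent.MP_88bd62_nt.U.P3L
import Pool.Agent.MP_88bd62_nt.U.P3R
import Pool.Agent.MP_88bd62_nt.U.PTX
import Pool.Agent.MP_88bd62_nt.U.PTL
import Pool.Agent.MP_88bd62_nt.U.PTR
import Pool.Agent.MP_88bd62_nt.U.Later
import Pool.Agent.MP_88bd62_nt.U.Base
import Pool.Agent.MP_88bd62_nt.U.Rem0
import Pool.Agent.MP_88bd62_nt.U.Maj1
import Pool.Agent.MP_88bd62_nt.U.MajE
import Pool.Agent.MP_88bd62_nt.U.Eint
import Pool.Agent.MP_88bd62_nt.U.HP0
import Pool.Agent.MP_88bd62_nt.U.P0L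
import Pool.Agent.MP_88bd62_nt.U.EM1
import Pool.Agent.MP_88bd62_nt.U.KL0
import Pool.Agent.MP_88bd62_nt.U.Tail
import Pool.Agent.MP_88bd62_nt.U.First1
import Pool.Agent.MP_88bd62_nt.U.NS

/-! Assembly of the analytic part. -/

namespace Pool.Agent.MP_88bd62_nt.U

open Finset Real Filter
open ArithmeticFunction (cardFactors)

theorem fKL : StKL := stKL
theorem fBlock : StBlock := stBlock fKL
theorem fEM : StEM := stEM
theorem fZ2a : StZ2a := stZ2a fBlock fKL fEM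
theorem fZ2 : StZ2 := stZ2 fZ2a fEM
theorem fZC : StZC := stZC fZ2
theorem fFA : StFA := stFA fZC fZ2
theorem fFo : StFo := stFo
theorem fSmooth : StSmooth := stSmooth fFA fFo
theorem fSI : StSI := stSI
theorem fTB : StTB := stTB fSmooth fSI
theorem fTau1 : StTau1 := stTau1
theorem fTau2 : StTau2 := stTau2 fTB
theorem fTau3 : StTau3 := stTau3 fTB fFo
theorem fKerA : StKerA := stKerA
theorem fLP : StLP := stLP
theorem fTau4 : StTau4 := stTau4 fKerA fLP
theorem fTau : StTau := stTau fTB fTau1 fTau2 fTau3 fTau4 fKerA fLP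
theorem fKerB : StKerB := stKerB
theorem fChain : StChain := stChain fKerA fKerB fLP
theorem fDiscA : StDiscA := stDiscA
theorem fDiscB : StDiscB := stDiscB
theorem fDiscC : StDiscC := stDiscC
theorem fDisc : StDisc := stDisc fDiscA fDiscB fDiscC
theorem fTrig : StTrig := stTrig
theorem fInv : StInv := stInv
theorem fZF : StZF := stZF fZ2 fDisc fTrig fInv
theorem fCar : StCar := stCar
theorem fCount : StCount := stCount
theorem fS2 : StS2 := stS2 fCount
theorem fEx1 : StEx1 := stEx1 fCar fS2 fInv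
theorem fEx : StEx := stEx fEx1 fZ2 fS2
theorem fChern : StChern := stChern
theorem fSer : StSer := stSer
theorem fX : StX := stX fZF fEx fChern fSer
theorem fH : StH := stH fS2
theorem fPt : StPt := stPt
theorem fFz : StFz := stFz
theorem fPois : StPois := stPois
theorem fL2a : StL2a := stL2a fPois fS2
theorem fSel : StSel := stSel
theorem fMert : StMert := stMert
theorem fL2 : StL2 := stL2 fL2a fCount fSel fMert
theorem fW : StW := stW
theorem fRemG : StRemG := stRemG fX fZF fH fPt fFz fL2 fW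
theorem fKerC : StKerC := stKerC fKerA fKerB
theorem fHP : StHP := stHP fKerA fKerC fLP
theorem fIB : StIB := stIB
theorem fFac : StFac := stFac
theorem fMaj2 : StMaj2 := stMaj2 fFac
theorem fMass : StMass := stMass fS2
theorem fCrude : StCrude := stCrude fIB fCount
theorem fHy : StHy := stHy fIB fCount
theorem fGr : StGr := stGr fIB fCount
theorem fPrIB : StPrIB := stPrIB fIB fCount fSel
theorem fHPG : StHPG := stHPG fX fHP fIB fMaj2 fMass fCrude fHy fGr fPrIB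
theorem fGrow : StGrow := stGrow fMert
theorem fP0X : StP0X := stP0X
theorem fP1X : StP1X := stP1X
theorem fP1L : StP1L := stP1L
theorem fP1R : StP1R := stP1R
theorem fP2X : StP2X := stP2X
theorem fP2L : StP2L := stP2L
theorem fP2R : StP2R := stP2R
theorem fP3X : StP3X := stP3X
theorem fP3L : StP3L := stP3L
theorem fP3R : StP3R := stP3R
theorem fPTX : StPTX := stPTX
theorem fPTL : StPTL := stPTL
theorem fPTR : StPTR := stPTR
theorem fLater : StLater := stLater fChain fX fRemG fHPG fGrow fP0X fP1X fP1L fP1R fP2X fP2L fP2R fP3X fP3L fP3R fPTX fPTL fPTR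
theorem fBase : StBase := stBase fKerB fLP
theorem fRem0 : StRem0 := stRem0 fX fH fPt fFz fL2 fW
theorem fMaj1 : StMaj1 := stMaj1 fFac
theorem fMajE : StMajE := stMajE fMass fS2
theorem fEint : StEint := stEint
theorem fHP0 : StHP0 := stHP0 fX fHP fIB fMaj1 fMajE fMass fCrude fHy fGr fPrIB fEint
theorem fP0L : StP0L := stP0L
theorem fEM1 : StEM1 := stEM1 fEM
theorem fKL0 : StKL0 := stKL0
theorem fTail : StTail := stTail fBlock fKL0 fEM

theorem upper_of_num (hB1 : NumB (2 ^ 23) (1 / 6)) (hB2 : NumB (2 ^ 25) (1 / 10))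
    (hC : NumC 16 (2 ^ 23) 1.23) (hA : NumA1 0.9846) :
    limsup (fun x : ℝ => ((|∑ n ∈ Icc 1 ⌊x⌋₊, (-2 : ℝ) ^ cardFactors n| / x : ℝ) : EReal)) atTop
      ≤ ((1 : ℝ) : EReal) := by
  refine fTau 1 fun J => ?_
  obtain ⟨N, hN, h⟩ := fLater NS.numS _
    (stFirst1 fBase fX fRem0 fHP0 fP0X fP0L NS.numS hB1 hB2 hC _ hA (by norm_num)) J
  exact ⟨N, hN, fun u => (h u).trans (by norm_num)⟩

end Pool.Agent.MP_88bd62_nt.U
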