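import Pool.Agent.MP_88bd62_nt.U.Stmts

/-! Convolution of measures on the positive integers and the part on `3, 5, 7`. -/

namespace Pool.Agent.MP_88bd62_nt.U

open Finset Real
open ArithmeticFunction (cardFactors)
open scoped ENNReal

noncomputable section

lemma xMajE_mono {ν ν' μ μ' : ℕ → ℝ≥0∞} (h : ∀ n, ν n ≤ ν' n) (h' : ∀ n, μ n ≤ μ' n) (n : ℕ) :
    conv ν μ n ≤ conv ν' μ' n :=
  sum_le_sum fun _ _ => mul_le_mul' (h _) (h' _)

lemma xMajE_addl (ν ν' μ : ℕ → ℝ≥0∞) (n : ℕ) :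
    conv (fun m => ν m + ν' m) μ n = conv ν μ n + conv ν' μ n := by
  simp only [conv, add_mul, sum_add_distrib]

lemma xMajE_addr (ν μ μ' : ℕ → ℝ≥0∞) (n : ℕ) :
    conv ν (fun m => μ m + μ' m) n = conv ν μ n + conv ν μ' n := by
  simp only [conv, mul_add, sum_add_distrib]

lemma xMajE_term (ν μ : ℕ → ℝ≥0∞) {a b n : ℕ} (h : a * b = n) (hn : n ≠ 0) :
    ν a * μ b ≤ conv ν μ n :=
  single_le_sum (f := fun x : ℕ × ℕ => ν x.1 * μ x.2) (fun _ _ => zero_le)
    (a := (a, b)) (Nat.mem_divisorsAntidiagonal.2 ⟨h, hn⟩)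

lemma xMajE_push {ι : Type} (w : ι → ℝ≥0∞) (N : ι → ℕ) :
    ∑' n, ∑' i, (if N i = n then w i else 0) = ∑' i, w i := by
  rw [ENNReal.tsum_comm]
  refine tsum_congr fun i => ?_
  rw [tsum_eq_single (N i) fun n hn => if_neg hn.symm, if_pos rfl]

lemma xMajE_mass (ν μ : ℕ → ℝ≥0∞) : ∑' n, conv ν μ n ≤ (∑' n, ν n) * ∑' n, μ n := by
  calc ∑' n, conv ν μ n
      ≤ ∑' n, ∑' x : ℕ × ℕ, (if x.1 * x.2 = n then ν x.1 * μ x.2 else 0) := by
        refine ENNReal.tsum_le_tsum fun n => le_trans (le_of_eq ?_)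
          (ENNReal.sum_le_tsum n.divisorsAntidiagonal)
        exact sum_congr rfl fun x hx => (if_pos (Nat.mem_divisorsAntidiagonal.1 hx).1).symm
    _ = ∑' x : ℕ × ℕ, ν x.1 * μ x.2 := xMajE_push _ _
    _ = _ := by
        rw [ENNReal.tsum_prod (f := fun a b => ν a * μ b)]
        simp only [ENNReal.tsum_mul_left, ENNReal.tsum_mul_right]

lemma xMajE_massR {ν μ : ℕ → ℝ≥0∞} {a b : ℝ} (ha : 0 ≤ a) (h : ∑' n, ν n ≤ ENNReal.ofReal a)
    (h' : ∑' n, μ n ≤ ENNReal.ofReal b) : ∑' n, conv ν μ n ≤ ENNReal.ofReal (a * b) := by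
  rw [ENNReal.ofReal_mul ha]
  exact (xMajE_mass ν μ).trans (mul_le_mul' h h')

/-- A finite sum of point masses. -/
def xMajE_X {ι : Type} (I : Finset ι) (w : ι → ℝ) (N : ι → ℕ) (n : ℕ) : ℝ≥0∞ :=
  ∑ i ∈ I, if N i = n then ENNReal.ofReal (w i) else 0

lemma xMajE_le_X {ι : Type} {I : Finset ι} (w : ι → ℝ) {N : ι → ℕ} {n : ℕ} {i : ι} (hi : i ∈ I)
    (h : N i = n) : ENNReal.ofReal (w i) ≤ xMajE_X I w N n :=
  le_trans (if_pos h).ge (single_le_sum
    (f := fun i => if N i = n then ENNReal.ofReal (w i) else 0) (fun _ _ => zero_le) hi)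

lemma xMajE_convX {ι κ : Type} (I : Finset ι) (J : Finset κ) {w : ι → ℝ} (hw : ∀ i, 0 ≤ w i)
    (v : κ → ℝ) (N : ι → ℕ) (M : κ → ℕ) (n : ℕ) :
    conv (xMajE_X I w N) (xMajE_X J v M) n ≤
      xMajE_X (I ×ˢ J) (fun k => w k.1 * v k.2) (fun k => N k.1 * M k.2) n := by
  unfold conv xMajE_X
  simp only [sum_mul_sum]
  rw [sum_product, sum_comm]
  refine sum_le_sum fun i _ => ?_
  rw [sum_comm]
  refine sum_le_sum fun j _ => ?_
  have h0 : ∀ x : ℕ × ℕ, x ≠ (N i, M j) → ((if N i = x.1 then ENNReal.ofReal (w i) else 0) *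
      if M j = x.2 then ENNReal.ofReal (v j) else 0) = 0 := fun x hx => by
    by_cases h : N i = x.1
    · rw [if_neg fun h' : M j = x.2 => hx (Prod.ext h.symm h'.symm), mul_zero]
    · rw [if_neg h, zero_mul]
  by_cases hm : (N i, M j) ∈ n.divisorsAntidiagonal
  · rw [sum_eq_single_of_mem _ hm fun x _ hx => h0 x hx, if_pos rfl, if_pos rfl,
      if_pos (Nat.mem_divisorsAntidiagonal.1 hm).1, ENNReal.ofReal_mul (hw i)]
  · rw [sum_eq_zero fun x hx => h0 x fun h => hm (h ▸ hx)]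
    exact zero_le

lemma xMajE_X_eq {ι : Type} (I : Finset ι) {w : ι → ℝ} (hw : ∀ i, 0 ≤ w i) (N : ι → ℕ) (n : ℕ) :
    xMajE_X I w N n = ENNReal.ofReal (∑ i ∈ I, w i * if N i = n then 1 else 0) := by
  rw [ENNReal.ofReal_sum_of_nonneg fun i _ => mul_nonneg (hw i) (by positivity)]
  refine sum_congr rfl fun i _ => ?_
  split_ifs <;> simp

lemma xMajE_sW (s : ℕ × ℕ × ℕ) : 0 ≤ sW s := by
  unfold sW
  positivity

lemma xMajE_mW (m : ℕ) : 0 ≤ mW m := by
  unfold mW
  positivity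

lemma xMajE_hW (α : ℕ × ℕ) : 0 ≤ hW α := by
  unfold hW
  positivity

lemma xMajE_tri {ι : Type} (J : Finset ι) {v : ι → ℝ} (hv : ∀ i, 0 ≤ v i) (M : ι → ℕ) (n : ℕ) :
    conv (conv (xMajE_X SB sW sN) (xMajE_X J v M)) (xMajE_X MB mW id) n ≤
      ENNReal.ofReal (∑ s ∈ SB, ∑ m ∈ MB, sW s * mW m *
        ∑ j ∈ J, v j * if sN s * m * M j = n then 1 else 0) := by
  refine (xMajE_mono (xMajE_convX SB J xMajE_sW v sN M) (fun _ => le_rfl) n).trans ?_
  refine (xMajE_convX _ MB (fun k => mul_nonneg (xMajE_sW _) (hv _)) mW _ id n).trans ?_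
  rw [xMajE_X_eq _ fun k => mul_nonneg (mul_nonneg (xMajE_sW _) (hv _)) (xMajE_mW _),
    sum_product, sum_product]
  refine le_of_eq (congrArg _ (sum_congr rfl fun s _ => ?_))
  rw [sum_comm]
  refine sum_congr rfl fun m _ => ?_
  rw [mul_sum]
  refine sum_congr rfl fun j _ => ?_
  simp only [id, mul_right_comm (sN s) m]
  ring

lemma xMajE_D (m : ℕ) : nuD (fun m => m ≤ 2 ^ 20) m ≤ xMajE_X MB mW id m := by
  unfold nuD
  split_ifs with h
  · refine xMajE_le_X mW (i := m) (mem_filter.2 ⟨mem_Icc.2 ⟨Nat.pos_of_ne_zero ?_, h.2⟩, h.1⟩) rfl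
    rintro rfl
    exact absurd h.1 (by norm_num)
  · exact zero_le

lemma xMajE_fac (s : ℕ × ℕ × ℕ) (p : ℕ) : (sN s).factorization p =
    (if 3 = p then s.1 else 0) + (if 5 = p then s.2.1 else 0) + if 7 = p then s.2.2 else 0 := by
  unfold sN
  rw [Nat.factorization_mul (by positivity) (by positivity),
    Nat.factorization_mul (by positivity) (by positivity), Nat.prime_three.factorization_pow,
    Nat.prime_five.factorization_pow, (by norm_num : Nat.Prime 7).factorization_pow]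
  simp only [Finsupp.add_apply, Finsupp.single_apply]

lemma xMajE_inj : Function.Injective sN := by
  rintro ⟨a, b, c⟩ ⟨a', b', c'⟩ h
  have h1 : ∀ p, (sN (a, b, c)).factorization p = (sN (a', b', c')).factorization p :=
    fun p => by rw [h]
  have h3 := h1 3
  have h5 := h1 5
  have h7 := h1 7
  simp only [xMajE_fac] at h3 h5 h7
  norm_num at h3 h5 h7
  rw [h3, h5, h7]

lemma xMajE_nuS (s : ℕ × ℕ × ℕ) : nuS (sN s) = ENNReal.ofReal (sW s) := by
  have h7 : Nat.Prime 7 := by norm_num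
  unfold nuS
  rw [if_pos]
  · congr 1
    unfold sN sW
    rw [ArithmeticFunction.cardFactors_mul (by positivity) (by positivity),
      ArithmeticFunction.cardFactors_mul (by positivity) (by positivity),
      ArithmeticFunction.cardFactors_apply_prime_pow Nat.prime_three,
      ArithmeticFunction.cardFactors_apply_prime_pow Nat.prime_five,
      ArithmeticFunction.cardFactors_apply_prime_pow h7]
    push_cast
    simp only [div_pow, pow_add]
    field_simp
  · unfold sN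
    refine ⟨((Odd.pow (by decide)).mul (Odd.pow (by decide))).mul (Odd.pow (by decide)),
      fun p hp h => ?_⟩
    rcases (hp.dvd_mul).1 h with h | h
    · rcases (hp.dvd_mul).1 h with h | h
      · exact (Nat.le_of_dvd (by norm_num) (hp.dvd_of_dvd_pow h)).trans (by norm_num)
      · exact (Nat.le_of_dvd (by norm_num) (hp.dvd_of_dvd_pow h)).trans (by norm_num)
    · exact Nat.le_of_dvd (by norm_num) (hp.dvd_of_dvd_pow h)

lemma xMajE_sumS : 7 - 0.000023 ≤ ∑ s ∈ SB, sW s := by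
  have h : ∑ s ∈ SB, sW s = (∑ a ∈ range 34, (2 / 3 : ℝ) ^ a) *
      ((∑ a ∈ range 15, (2 / 5 : ℝ) ^ a) * ∑ a ∈ range 11, (2 / 7 : ℝ) ^ a) := by
    unfold SB sW
    rw [sum_mul_sum, sum_mul, sum_product]
    refine sum_congr rfl fun a _ => ?_
    rw [sum_product, mul_sum]
    refine sum_congr rfl fun b _ => ?_
    rw [mul_sum]
    exact sum_congr rfl fun c _ => mul_assoc _ _ _
  rw [h, geom_sum_eq (by norm_num), geom_sum_eq (by norm_num), geom_sum_eq (by norm_num)]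
  norm_num

/-- The splitting of the measure on the numbers composed of `3, 5, 7`. -/
lemma xMajE_S (h7 : ∑' n, nuS n ≤ ENNReal.ofReal 7) : ∃ S₀ S₁ : ℕ → ℝ≥0∞,
    (∀ n, nuS n ≤ S₀ n + S₁ n) ∧ (∀ n, S₀ n ≤ nuS n) ∧ (∀ n, S₀ n ≤ xMajE_X SB sW sN n) ∧
      ∑' n, S₁ n ≤ ENNReal.ofReal 0.000023 := by
  have e : ∀ n, nuS n = (if n ∈ SB.image sN then nuS n else 0) +
      if n ∈ SB.image sN then 0 else nuS n := fun n => by split_ifs <;> simp
  refine ⟨_, _, fun n => (e n).le, fun n => ?_, fun n => ?_, ?_⟩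
  · split_ifs <;> simp
  · split_ifs with h
    · obtain ⟨s, hs, rfl⟩ := mem_image.1 h
      rw [xMajE_nuS]
      exact xMajE_le_X sW hs rfl
    · exact zero_le
  · rw [tsum_congr e, ENNReal.tsum_add, tsum_eq_sum (s := SB.image sN) fun n hn => if_neg hn,
      sum_congr rfl fun n hn => if_pos hn, sum_image xMajE_inj.injOn,
      sum_congr rfl fun s _ => xMajE_nuS s,
      ← ENNReal.ofReal_sum_of_nonneg fun s _ => xMajE_sW s] at h7
    have h1 := (add_le_add_left (ENNReal.ofReal_le_ofReal xMajE_sumS) _).trans h7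
    have h2 : ENNReal.ofReal 7 = ENNReal.ofReal (7 - 0.000023) + ENNReal.ofReal 0.000023 := by
      rw [← ENNReal.ofReal_add (by norm_num) (by norm_num)]
      norm_num
    rw [h2] at h1
    exact (ENNReal.add_le_add_iff_left ENNReal.ofReal_ne_top).1 h1

end

end Pool.Agent.MP_88bd62_nt.U
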