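import Pool.Agent.MP_88bd62_nt.U.MajEa

/-! The splitting of the measure on the powerful numbers. -/

namespace Pool.Agent.MP_88bd62_nt.U

open Finset Real
open ArithmeticFunction (cardFactors)
open scoped ENNReal

noncomputable section

lemma xMajE_hh0 (n : ℕ) : 0 ≤ hh n := prod_nonneg fun p _ => by positivity

lemma xMajE_hmul {a b : ℕ} (h : a.Coprime b) : nuH (a * b) = nuH a * nuH b := by
  have e : ∀ n, hh n = n.factorization.prod fun _ k => if k = 1 then (0 : ℝ) else 2 ^ (k - 2) :=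
    fun n => rfl
  have h1 : hh (a * b) = hh a * hh b := by
    rw [e, e, e, Nat.factorization_mul_of_coprime h, Finsupp.prod_add_index_of_disjoint]
    exact h.disjoint_primeFactors
  unfold nuH
  simp only [Nat.coprime_mul_iff_left]
  by_cases ha : a.Coprime 210
  · by_cases hb : b.Coprime 210
    · rw [if_pos ⟨ha, hb⟩, if_pos ha, if_pos hb, h1,
        ← ENNReal.ofReal_mul (div_nonneg (xMajE_hh0 a) (Nat.cast_nonneg a)), Nat.cast_mul,
        mul_div_mul_comm]
    · rw [if_neg fun h => hb h.2, if_neg hb, mul_zero]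
  · rw [if_neg fun h => ha h.1, if_neg ha, zero_mul]

lemma xMajE_hle {h : ℕ} (h0 : h ≠ 0) :
    nuH h ≤ ENNReal.ofReal (∏ p ∈ h.primeFactors, hW (p, h.factorization p)) := by
  unfold nuH
  split_ifs
  · refine ENNReal.ofReal_le_ofReal ?_
    have e : (h : ℝ) = ∏ p ∈ h.primeFactors, (p : ℝ) ^ h.factorization p := by
      exact_mod_cast Nat.prod_primeFactors_pow_factorization h0
    unfold hW
    rw [prod_div_distrib, ← e]
    refine div_le_div_of_nonneg_right (prod_le_prod (fun p _ => by positivity) fun p _ => ?_)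
      (Nat.cast_nonneg h)
    split_ifs
    · positivity
    · exact le_rfl
  · exact zero_le

lemma xMajE_split {h p : ℕ} (hp : p ∈ h.primeFactors) : ∃ m, p ^ h.factorization p * m = h ∧
    nuH h = nuH (p ^ h.factorization p) * nuH m ∧ m.primeFactors = h.primeFactors.erase p ∧
    (p ^ h.factorization p).primeFactors = {p} := by
  obtain ⟨h1, h2, h3⟩ := Nat.mem_primeFactors.1 hp
  have e := Nat.ordProj_mul_ordCompl_eq_self h p
  refine ⟨h / p ^ h.factorization p, e, ?_, ?_, ?_⟩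
  · rw [← xMajE_hmul ((Nat.coprime_ordCompl h1 h3).pow_left _), e]
  · rw [← Nat.support_factorization, Nat.factorization_ordCompl, Finsupp.support_erase,
      Nat.support_factorization]
  · exact Nat.primeFactors_prime_pow (h1.factorization_pos_of_dvd h3 h2).ne' h1

/-- The part on numbers with at least `r` prime factors. -/
def xMajE_H (r h : ℕ) : ℝ≥0∞ := if r ≤ h.primeFactors.card then nuH h else 0

lemma xMajE_step (r h : ℕ) :
    ((r + 1 : ℕ) : ℝ≥0∞) * xMajE_H (r + 1) h ≤ conv (xMajE_H 1) (xMajE_H r) h := by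
  by_cases hr : r + 1 ≤ h.primeFactors.card
  swap
  · simp [xMajE_H, hr]
  have h0 : h ≠ 0 := by
    rintro rfl
    simp at hr
  choose! m hm using fun p (hp : p ∈ h.primeFactors) => xMajE_split hp
  have hi : Set.InjOn (fun p => (p ^ h.factorization p, m p)) h.primeFactors := by
    intro p hp q hq e
    have e1 : p ^ h.factorization p = q ^ h.factorization q := congrArg Prod.fst e
    have e2 := (hm p hp).2.2.2
    rw [e1, (hm q hq).2.2.2] at e2
    exact (singleton_injective e2).symm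
  calc ((r + 1 : ℕ) : ℝ≥0∞) * xMajE_H (r + 1) h ≤ (h.primeFactors.card : ℝ≥0∞) * nuH h := by
        rw [xMajE_H, if_pos hr]
        exact mul_le_mul' (Nat.cast_le.2 hr) le_rfl
    _ = ∑ p ∈ h.primeFactors, xMajE_H 1 (p ^ h.factorization p) * xMajE_H r (m p) := by
        rw [← nsmul_eq_mul, ← sum_const]
        refine sum_congr rfl fun p hp => ?_
        obtain ⟨_, h2, h3, h4⟩ := hm p hp
        rw [xMajE_H, xMajE_H, h3, h4, card_singleton, if_pos le_rfl, card_erase_of_mem hp,
          if_pos (by omega), h2]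
    _ = ∑ x ∈ h.primeFactors.image fun p => (p ^ h.factorization p, m p),
          xMajE_H 1 x.1 * xMajE_H r x.2 := (sum_image (f := fun x : ℕ × ℕ =>
            xMajE_H 1 x.1 * xMajE_H r x.2) hi).symm
    _ ≤ _ := by
        refine sum_le_sum_of_subset fun x hx => ?_
        obtain ⟨p, hp, rfl⟩ := mem_image.1 hx
        exact Nat.mem_divisorsAntidiagonal.2 ⟨(hm p hp).1, h0⟩

lemma xMajE_M1 (hH : ∑' n, nuH n ≤ ENNReal.ofReal 1.037) :
    ∑' n, xMajE_H 1 n ≤ ENNReal.ofReal 0.037 := by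
  have h1 : nuH 1 = 1 := by simp [nuH, hh]
  have h2 : ENNReal.ofReal 1.037 = 1 + ENNReal.ofReal 0.037 := by
    rw [← ENNReal.ofReal_one, ← ENNReal.ofReal_add (by norm_num) (by norm_num)]
    norm_num
  rw [ENNReal.tsum_eq_add_tsum_ite 1, h1, h2, ENNReal.add_le_add_iff_left ENNReal.one_ne_top] at hH
  refine le_trans (ENNReal.tsum_le_tsum fun n => ?_) hH
  unfold xMajE_H
  by_cases hn : n = 1
  · simp [hn]
  · rw [if_neg hn]
    split_ifs <;> simp

lemma xMajE_M3 (hH : ∑' n, nuH n ≤ ENNReal.ofReal 1.037) :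
    ∑' n, xMajE_H 3 n ≤ ENNReal.ofReal 0.00001 := by
  have h1 := xMajE_M1 hH
  have st : ∀ (r : ℕ) (a b : ℝ), 0 ≤ b → 0.037 * a ≤ (r + 1 : ℕ) * b →
      ∑' n, xMajE_H r n ≤ ENNReal.ofReal a → ∑' n, xMajE_H (r + 1) n ≤ ENNReal.ofReal b := by
    intro r a b hb hab h
    have h2 := (ENNReal.tsum_le_tsum (xMajE_step r)).trans
      ((xMajE_massR (by norm_num) h1 h).trans (ENNReal.ofReal_le_ofReal hab))
    rw [ENNReal.tsum_mul_left, ENNReal.ofReal_mul (Nat.cast_nonneg _), ENNReal.ofReal_natCast] at h2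
    exact (ENNReal.mul_le_mul_iff_right (by simp) (by simp)).1 h2
  exact st 2 0.0007 _ (by norm_num) (by norm_num) (st 1 _ _ (by norm_num) (by norm_num) h1)

/-- The first exponent that is not listed. -/
def xMajE_k (p : ℕ) : ℕ :=
  if p ≤ 13 then 7 else if p ≤ 19 then 6 else if p ≤ 37 then 5 else if p ≤ 2 ^ 9 then 4
    else if p ≤ 2 ^ 15 then 3 else 2

lemma xMajE_ge {p : ℕ} (hp : p.Prime) (hc : p.Coprime 210) : 11 ≤ p := by
  by_contra h
  have h2 := hp.two_le
  have h3 : p < 11 := not_le.1 h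
  interval_cases p <;> revert hc <;> decide

lemma xMajE_HA (p k : ℕ) (hc : p.Coprime 210) (h11 : 11 ≤ p) (h2 : 2 ≤ k) (hk : k < xMajE_k p) :
    (p, k) ∈ HA := by
  unfold HA
  simp only [mem_union, mem_product, mem_filter, mem_Icc, mem_insert, mem_singleton]
  have h37 : p ≤ 37 → p = 11 ∨ p = 13 ∨ p = 17 ∨ p = 19 ∨ p = 23 ∨ p = 29 ∨ p = 31 ∨ p = 37 := by
    intro h
    interval_cases p <;> revert hc <;> decide
  simp only [eq_true hc, and_true]
  unfold xMajE_k at hk
  split_ifs at hk <;> omega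

/-- Weights of the prime powers that are not listed. -/
def xMajE_bw (α : ℕ × ℕ) : ℝ≥0∞ :=
  if α.1.Coprime 210 ∧ 11 ≤ α.1 ∧ xMajE_k α.1 ≤ α.2 then ENNReal.ofReal (hW α) else 0

def xMajE_B (n : ℕ) : ℝ≥0∞ := ∑' α : ℕ × ℕ, if α.1 ^ α.2 = n then xMajE_bw α else 0

lemma xMajE_Hle {A : Finset (ℕ × ℕ)}
    (hA₀ : ∀ p k : ℕ, p.Coprime 210 → 11 ≤ p → 2 ≤ k → k < xMajE_k p → (p, k) ∈ A) (h : ℕ) :
    nuH h ≤ (xMajE_X {1} (fun _ => 1) id h + xMajE_X A hW (fun α => α.1 ^ α.2) h
    + xMajE_X (A ×ˢ A) (fun β => hW β.1 * hW β.2 / 2)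
        (fun β => β.1.1 ^ β.1.2 * β.2.1 ^ β.2.2) h)
    + (xMajE_H 3 h + conv xMajE_B nuH h) := by
  by_cases hc : h.Coprime 210
  swap
  · simp [nuH, hc]
  have h0 : h ≠ 0 := by
    rintro rfl
    exact absurd hc (by norm_num)
  have hp : ∀ p ∈ h.primeFactors, p.Coprime 210 ∧ 11 ≤ p := fun p hp =>
    have h1 := hc.of_dvd_left (Nat.dvd_of_mem_primeFactors hp)
    ⟨h1, xMajE_ge (Nat.prime_of_mem_primeFactors hp) h1⟩
  by_cases h3 : 3 ≤ h.primeFactors.card
  · rw [xMajE_H, if_pos h3]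
    exact le_add_left le_self_add
  by_cases hb : ∃ p ∈ h.primeFactors, xMajE_k p ≤ h.factorization p
  · obtain ⟨p, hq, hk⟩ := hb
    obtain ⟨m, e1, e2, _, e4⟩ := xMajE_split hq
    refine le_add_left (le_add_left (le_trans ?_ (xMajE_term _ _ e1 h0)))
    rw [e2]
    refine mul_le_mul' (le_trans ?_ (ENNReal.le_tsum (p, h.factorization p))) le_rfl
    rw [if_pos rfl, xMajE_bw, if_pos ⟨(hp p hq).1, (hp p hq).2, hk⟩]
    have h4 := xMajE_hle (pow_ne_zero (h.factorization p) (Nat.pos_of_mem_primeFactors hq).ne')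
    rwa [e4, prod_singleton, (Nat.prime_of_mem_primeFactors hq).factorization_pow,
      Finsupp.single_eq_same] at h4
  by_cases h1 : ∃ p ∈ h.primeFactors, h.factorization p = 1
  · obtain ⟨p, hq, hk⟩ := h1
    have : hh h = 0 := prod_eq_zero hq (if_pos hk)
    simp [nuH, this]
  have hA : ∀ p ∈ h.primeFactors, (p, h.factorization p) ∈ A := fun p hq => by
    have h4 := (Nat.prime_of_mem_primeFactors hq).factorization_pos_of_dvd h0
      (Nat.dvd_of_mem_primeFactors hq)
    have h5 : h.factorization p ≠ 1 := fun e => h1 ⟨p, hq, e⟩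
    exact hA₀ _ _ (hp p hq).1 (hp p hq).2 (by omega) (not_le.1 fun e => hb ⟨p, hq, e⟩)
  refine le_add_right ((xMajE_hle h0).trans ?_)
  have e := (Nat.prod_primeFactors_pow_factorization h0).symm
  obtain h4 | h4 | h4 : h.primeFactors.card = 0 ∨ h.primeFactors.card = 1 ∨
    h.primeFactors.card = 2 := by omega
  · rw [card_eq_zero.1 h4, prod_empty] at e ⊢
    exact le_add_right (le_add_right (xMajE_le_X (fun _ => 1) (mem_singleton_self 1) e))
  · obtain ⟨p, h5⟩ := card_eq_one.1 h4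
    rw [h5] at hA
    rw [h5, prod_singleton] at e ⊢
    exact le_add_right (le_add_left (xMajE_le_X hW (hA p (mem_singleton_self p)) e))
  · obtain ⟨p, q, hne, h5⟩ := card_eq_two.1 h4
    rw [h5] at hA
    rw [h5, prod_pair hne] at e ⊢
    have hp' := hA p (by simp)
    have hq' := hA q (by simp)
    refine le_add_left (le_trans (le_of_eq ?_) (add_le_sum (fun _ _ => zero_le)
      (i := ((p, h.factorization p), (q, h.factorization q)))
      (j := ((q, h.factorization q), (p, h.factorization p))) (mem_product.2 ⟨hp', hq'⟩)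
      (mem_product.2 ⟨hq', hp'⟩) fun e' => hne (congrArg (fun x => x.1.1) e')))
    have w := fun a b => div_nonneg (mul_nonneg (xMajE_hW a) (xMajE_hW b)) zero_le_two
    rw [if_pos e, if_pos ((mul_comm _ _).trans e), ← ENNReal.ofReal_add (w _ _) (w _ _)]
    congr 1
    ring

end

end Pool.Agent.MP_88bd62_nt.U
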