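import Pool.Agent.MP_88bd62_nt.U.Defs
import Pool.Agent.MP_22d5c4_co.Dig

/-! Products and sums over the primes, evaluated by the kernel. -/

namespace Pool.Agent.MP_88bd62_nt.U.NS

open Finset Pool.Agent.MP_22d5c4_co.K

noncomputable section

def cnd (c x y : Bool) : Bool := @Bool.rec (fun _ => Bool) y x c

theorem cnd_eq (c x y : Bool) : cnd c x y = if c = true then x else y := by
  cases c <;> simp [cnd]

def stp (a n c : ℕ) : ℕ := Nat.succ (Nat.div (Nat.mul a n) (Nat.sub n c))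

/-- The loop over the odd numbers from `n` on. -/
def up (F : ℕ) (f : ℕ → ℕ → ℕ → Bool) (r : ℕ) : ℕ → ℕ → ℕ → ℕ → Bool :=
  @Nat.rec (fun _ => ℕ → ℕ → ℕ → ℕ → Bool) (fun _ => f) (fun _ ih n a b s =>
    frc (Nat.add n 2) fun n' => cnd (Nat.beq (Nat.gcd n F) 1)
      (frc (stp a n 2) fun a' => frc (stp b n 1) fun b' =>
        frc (Nat.add s (Nat.div 1099511627776 n)) fun s' => ih n' a' b' s')
      (ih n' a b s)) r

def blk (K r n a b s a' b' s' : ℕ) : Bool :=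
  frc (Nat.factorial K) fun F =>
    up F (fun x y z => an (Nat.ble x a') (an (Nat.ble y b') (Nat.ble s' z))) r n a b s

def PI (n : ℕ) : Finset ℕ := (Ico 11 n).filter Nat.Prime

/-- The invariant. -/
def Inv (n a b s : ℕ) : Prop :=
  ∏ p ∈ PI n, (1 - 2 / (p : ℝ))⁻¹ ≤ a / 2 ^ 40 ∧ ∏ p ∈ PI n, (1 - 1 / (p : ℝ))⁻¹ ≤ b / 2 ^ 40 ∧
    (s : ℝ) / 2 ^ 40 ≤ ∑ p ∈ PI n, (1 / p : ℝ)

theorem PI_succ {n : ℕ} (hn : 11 ≤ n) :
    PI (n + 1) = if n.Prime then insert n (PI n) else PI n := by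
  unfold PI
  rw [← Nat.succ_eq_add_one, Nat.Ico_succ_right_eq_insert_Ico hn, filter_insert]

theorem PI_two {n : ℕ} (hn : 11 ≤ n) (ho : Odd n) : PI (n + 2) = PI (n + 1) := by
  rw [PI_succ (by omega), if_neg]
  intro h
  have := h.even_iff.mp ho.add_one
  omega

theorem stp_le {A : ℝ} {a n c : ℕ} (hc : c < n) (h : A ≤ a / 2 ^ 40) :
    (1 - (c : ℝ) / n)⁻¹ * A ≤ (stp a n c : ℕ) / 2 ^ 40 := by
  have h1 : (0 : ℝ) < ((n - c : ℕ) : ℝ) := by exact_mod_cast Nat.sub_pos_of_lt hc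
  have h2 : (0 : ℝ) < n := by exact_mod_cast (by omega : 0 < n)
  have h3 : (1 - (c : ℝ) / n)⁻¹ = n / ((n - c : ℕ) : ℝ) := by
    rw [Nat.cast_sub hc.le]; field_simp
  have h4 : ((a * n : ℕ) : ℝ) / ((n - c : ℕ) : ℝ) ≤ (stp a n c : ℕ) := by
    rw [div_le_iff₀ h1]
    have := Nat.lt_mul_div_succ (a * n) (Nat.sub_pos_of_lt hc)
    have h5 : a * n ≤ stp a n c * (n - c) := by rw [mul_comm _ (n - c)]; exact this.le
    exact_mod_cast h5
  rw [h3]
  calc n / ((n - c : ℕ) : ℝ) * A ≤ n / ((n - c : ℕ) : ℝ) * (a / 2 ^ 40) := by gcongr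
    _ = ((a * n : ℕ) : ℝ) / ((n - c : ℕ) : ℝ) / 2 ^ 40 := by push_cast; ring
    _ ≤ _ := by gcongr

theorem tst_iff {K n : ℕ} (h1 : K < n) (h2 : n < (K + 1) ^ 2) (hK : 1 ≤ K) :
    Nat.gcd n K.factorial = 1 ↔ n.Prime := by
  constructor
  · intro h
    by_contra hp
    have h3 := Nat.minFac_sq_le_self (by omega) hp
    have h4 : n.minFac < K + 1 := lt_of_pow_lt_pow_left₀ 2 (by omega) (h3.trans_lt h2)
    have h5 := Nat.minFac_prime (show n ≠ 1 by omega)
    have h6 : n.minFac ∣ Nat.gcd n K.factorial :=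
      Nat.dvd_gcd (Nat.minFac_dvd n) (Nat.dvd_factorial h5.pos (by omega))
    rw [h] at h6
    exact h5.one_lt.ne' (Nat.dvd_one.mp h6)
  · intro h
    exact (Nat.Prime.coprime_iff_not_dvd h).mpr fun hd => by
      have := (Nat.Prime.dvd_factorial h).mp hd
      omega

theorem up_spec (K : ℕ) (hK : 10 ≤ K) (f : ℕ → ℕ → ℕ → Bool) (r : ℕ) : ∀ n a b s : ℕ, K < n →
    Odd n → n + 2 * r ≤ (K + 1) ^ 2 + 1 → up K.factorial f r n a b s = true → Inv n a b s →
    ∃ x y z, f x y z = true ∧ Inv (n + 2 * r) x y z := by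
  induction r with
  | zero => intro n a b s _ _ _ h hi; exact ⟨a, b, s, h, hi⟩
  | succ r ih =>
    intro n a b s h1 ho h2 h hi
    have h11 : 11 ≤ n := by omega
    have e : up K.factorial f (r + 1) n a b s = cnd (Nat.beq (Nat.gcd n K.factorial) 1)
        (up K.factorial f r (n + 2) (stp a n 2) (stp b n 1) (s + 1099511627776 / n))
        (up K.factorial f r (n + 2) a b s) := rfl
    rw [e, cnd_eq] at h
    simp only [Nat.beq_eq, tst_iff h1 (by omega : n < (K + 1) ^ 2) (by omega)] at h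
    rw [show n + 2 * (r + 1) = n + 2 + 2 * r by ring]
    have hn : n ∉ PI n := by simp [PI]
    split_ifs at h with hp
    · refine ih _ _ _ _ (by omega) (ho.add_even even_two) (by omega) h ?_
      unfold Inv
      rw [PI_two h11 ho, PI_succ h11, if_pos hp, prod_insert hn, prod_insert hn, sum_insert hn]
      refine ⟨by exact_mod_cast stp_le (c := 2) (by omega) hi.1,
        by exact_mod_cast stp_le (c := 1) (by omega) hi.2.1, ?_⟩
      have h3 : ((1099511627776 / n : ℕ) : ℝ) ≤ 1099511627776 / n := by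
        exact_mod_cast Nat.cast_div_le (α := ℝ) (m := 1099511627776) (n := n)
      have h4 := hi.2.2
      push_cast
      have h5 : (1099511627776 : ℝ) / n / 2 ^ 40 = 1 / n := by ring
      rw [add_div]
      have : ((1099511627776 / n : ℕ) : ℝ) / 2 ^ 40 ≤ 1 / n := by rw [← h5]; gcongr
      linarith
    · refine ih _ _ _ _ (by omega) (ho.add_even even_two) (by omega) h ?_
      unfold Inv
      rw [PI_two h11 ho, PI_succ h11, if_neg hp]
      exact hi

theorem blk_spec {K r n a b s a' b' s' : ℕ} (m : ℕ) (h : blk K r n a b s a' b' s' = true)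
    (hc : 10 ≤ K ∧ K < n ∧ n % 2 = 1 ∧ n + 2 * r ≤ (K + 1) ^ 2 + 1 ∧ n + 2 * r = m)
    (hi : Inv n a b s) : Inv m a' b' s' := by
  obtain ⟨hK, h1, ho, h2, hm⟩ := hc
  rw [← Nat.odd_iff] at ho
  obtain ⟨x, y, z, h3, h4, h5, h6⟩ := up_spec K hK _ r n a b s h1 ho h2 h hi
  simp only [an_eq, Nat.ble_eq] at h3
  obtain ⟨h7, h8, h9⟩ := h3
  subst hm
  exact ⟨h4.trans (by gcongr), h5.trans (by gcongr), le_trans (by gcongr) h6⟩

theorem inv0 : Inv 11 1099511627776 1099511627776 0 := by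
  simp [Inv, PI]; norm_num

end

end Pool.Agent.MP_88bd62_nt.U.NS
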