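import Pool.Agent.MP_88bd62_nt.U.Stmts

namespace Pool.Agent.MP_88bd62_nt.U

open Finset Real

theorem xP0L_exp {b : ℝ} (hb : 0 ≤ b) :
    1 + b + b ^ 2 / 2 + b ^ 3 / 6 + b ^ 4 / 24 + b ^ 5 / 120 ≤ exp b := by
  have := Real.sum_le_exp_of_nonneg hb 6
  simp only [sum_range_succ, sum_range_zero, Nat.factorial] at this
  norm_num at this
  linarith

theorem xP0L_up (m : ℕ) (b : ℝ) {a c : ℝ} (ha : 0 < a) (hb : 0 ≤ b)
    (h : a ≤ 2 ^ m * (1 + b + b ^ 2 / 2 + b ^ 3 / 6 + b ^ 4 / 24 + b ^ 5 / 120))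
    (hc : m * 0.6931471808 + b ≤ c) : log a ≤ c := by
  have h1 : a ≤ 2 ^ m * exp b := h.trans (mul_le_mul_of_nonneg_left (xP0L_exp hb) (by positivity))
  have h2 := Real.log_le_log ha h1
  rw [Real.log_mul (by positivity) (exp_pos b).ne', Real.log_pow, Real.log_exp] at h2
  have h3 := mul_le_mul_of_nonneg_left Real.log_two_lt_d9.le (Nat.cast_nonneg (α := ℝ) m)
  linarith

theorem xP0L_lo (m : ℕ) (b : ℝ) {a c : ℝ} (ha : 0 < a) (hb : 0 ≤ b)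
    (h : 2 ^ m ≤ a * (1 + b + b ^ 2 / 2 + b ^ 3 / 6 + b ^ 4 / 24 + b ^ 5 / 120))
    (hc : c ≤ m * 0.6931471803 - b) : c ≤ log a := by
  have h1 : 2 ^ m ≤ a * exp b := h.trans (mul_le_mul_of_nonneg_left (xP0L_exp hb) ha.le)
  have h2 := Real.log_le_log (by positivity) h1
  rw [Real.log_mul ha.ne' (exp_pos b).ne', Real.log_pow, Real.log_exp] at h2
  have h3 := mul_le_mul_of_nonneg_left Real.log_two_gt_d9.le (Nat.cast_nonneg (α := ℝ) m)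
  linarith

theorem xP0L_rpow (b : ℝ) {y c : ℝ} (hy : 0 ≤ y) (hc : 0 < c) (hb : 0 ≤ b) (h0 : b ≤ 0.693 * y)
    (h : 1 ≤ c * (1 + b + b ^ 2 / 2 + b ^ 3 / 6 + b ^ 4 / 24 + b ^ 5 / 120)) :
    (2 : ℝ) ^ (-y) ≤ c := by
  have h1 : exp b ≤ exp (log 2 * y) := exp_le_exp.2 (by nlinarith [Real.log_two_gt_d9])
  rw [Real.rpow_neg zero_le_two, Real.rpow_def_of_pos two_pos, inv_le_iff_one_le_mul₀ (exp_pos _)]
  exact h.trans (mul_le_mul_of_nonneg_left ((xP0L_exp hb).trans h1) hc.le)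

theorem xP0L_hi (j₀ j₁ : ℕ) {u v : ℝ} (hu : (2 : ℝ) ^ (-(0.49 * ((j₁ : ℝ) - j₀))) ≤ u)
    (hv : (2 : ℝ) ^ (-((1 - 2 * 0.49) * ((j₁ : ℝ) - j₀))) ≤ v) :
    0 ≤ hiB j₀ j₁ 0.49 ∧ hiB j₀ j₁ 0.49 ≤ (1 + u) ^ 2 / 2 ^ j₀ * v / 0.0137 := by
  have h1 : (2 : ℝ) ^ (-(1 - 2 * 0.49 : ℝ)) ≤ 0.9863 :=
    xP0L_rpow 0.01386 (by norm_num) (by norm_num) (by norm_num) (by norm_num) (by norm_num)
  have h2 : (0.0137 : ℝ) ≤ 1 - 2 ^ (-(1 - 2 * 0.49 : ℝ)) := by linarith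
  have h3 : 0 ≤ v := le_trans (by positivity) hv
  unfold hiB
  exact ⟨div_nonneg (by positivity) (by linarith), by gcongr⟩

theorem xP0L_eM : 0 ≤ eM 20 ∧ eM 20 ≤ 0.10244 := by
  have h := Real.log_two_gt_d9
  unfold eM
  refine ⟨by positivity, ?_⟩
  rw [div_le_iff₀ (by positivity)]
  push_cast
  linarith

theorem xP0L_sl (j₀ j : ℕ) {c : ℝ} (h0 : (j₀ : ℝ) < j) (hc : 0 ≤ c)
    (h : 1 ≤ c * (0.49 * ((j : ℝ) - j₀) * 0.693)) : 0 ≤ slH j₀ 0.49 j ∧ slH j₀ 0.49 j ≤ c := by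
  have h1 := Real.log_two_gt_d9
  have h2 : (0 : ℝ) < j - j₀ := sub_pos.2 h0
  unfold slH
  refine ⟨by positivity, ?_⟩
  rw [div_le_iff₀ (by positivity)]
  refine h.trans ?_
  gcongr
  linarith

theorem xP0L_A : 0 ≤ Atot 20 36 7620 0.49 0.996 ∧ Atot 20 36 7620 0.49 0.996 ≤ 6.143 := by
  have h1 : log ((7620 + 1) / 20) ≤ 5.943 :=
    xP0L_up 8 0.3978 (by norm_num) (by norm_num) (by norm_num) (by norm_num)
  have h2 : 0 ≤ log ((7620 + 1) / 20) := log_nonneg (by norm_num)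
  obtain ⟨h3, h4⟩ := xP0L_eM
  obtain ⟨h5, h6⟩ := xP0L_sl 36 7620 (c := 0.0003884) (by norm_num) (by norm_num) (by norm_num)
  simp only [Atot, Nat.cast_ofNat]
  constructor <;> norm_num <;> linarith

theorem xP0L_q : qP 20 30 36 52 7620 0.49 0.996 ≤ 47.5 := by
  have a1 : log ((20 + 30 + 1) / (2 * 20)) ≤ 0.243 :=
    xP0L_up 0 0.243 (by norm_num) (by norm_num) (by norm_num) (by norm_num)
  have a2 : log ((30 + 52 + 1) / (2 * 20)) ≤ 0.73 :=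
    xP0L_up 1 0.03682 (by norm_num) (by norm_num) (by norm_num) (by norm_num)
  have a3 : log (7620 - 36) ≤ 8.934 :=
    xP0L_up 12 0.6162 (by norm_num) (by norm_num) (by norm_num) (by norm_num)
  have a4 : 2.708 ≤ log (52 - 36 - 1) :=
    xP0L_lo 4 0.06454 (by norm_num) (by norm_num) (by norm_num) (by norm_num)
  have a5 : 2.9956 ≤ log 20 :=
    xP0L_lo 5 0.47003 (by norm_num) (by norm_num) (by norm_num) (by norm_num)
  have a6 : 6.1613 ≤ log ((7620 - 36 + 1) / (52 - 36)) :=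
    xP0L_lo 9 0.077 (by norm_num) (by norm_num) (by norm_num) (by norm_num)
  have a7 : log ((7620 - 36) / (52 - 36 - 1)) ≤ 6.226 :=
    xP0L_up 8 0.6808 (by norm_num) (by norm_num) (by norm_num) (by norm_num)
  have a8 : √(1 + (36 + 1) / (52 - 36 - 1)) ≤ 1.862 := Real.sqrt_le_iff.2 (by norm_num)
  have b1 : 0 ≤ log ((20 + 30 + 1) / (2 * 20)) := log_nonneg (by norm_num)
  have b2 : 0 ≤ log ((30 + 52 + 1) / (2 * 20)) := log_nonneg (by norm_num)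
  have b3 : 0 ≤ log (7620 - 36) := log_nonneg (by norm_num)
  have b7 : 0 ≤ log ((7620 - 36) / (52 - 36 - 1)) := log_nonneg (by norm_num)
  have l1 := Real.log_two_lt_d9.le
  obtain ⟨e1, e2⟩ := xP0L_eM
  obtain ⟨s1, s2⟩ := xP0L_sl 36 7620 (c := 0.0003884) (by norm_num) (by norm_num) (by norm_num)
  obtain ⟨t1, t2⟩ := xP0L_A
  simp only [qP, Nat.cast_ofNat]
  refine le_trans (b := 1.011 * (0.6931471808 * (30 - 20) * (0.243 + 0.10244)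
    + 8 / 35 * 0.6931471808 * (52 - 30) * (0.73 + 0.10244)
    + 1 / 0.49 * ((8.934 ^ 2 - 2.708 ^ 2) / 2 - 2.9956 * 6.1613 + 2 * (1.862 - 1) + 0.10244 * 6.226)
    + 0.6931471808 * 0.0003884 * (0.996 / (1 - 0.996)) * 6.143)) ?_ (by norm_num)
  gcongr

theorem xP0L_D : DP 20 30 36 52 7620 0.49 0.996 ≤ 0.000000242 := by
  have a1 : log (52 / 20) ≤ 0.956 :=
    xP0L_up 1 0.2625 (by norm_num) (by norm_num) (by norm_num) (by norm_num)
  obtain ⟨e1, e2⟩ := xP0L_eM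
  obtain ⟨t1, t2⟩ := xP0L_A
  obtain ⟨h1, h2⟩ := xP0L_hi 36 52 (u := 0.0082) (v := 0.81)
    (xP0L_rpow 5.43 (by norm_num) (by norm_num) (by norm_num) (by norm_num) (by norm_num))
    (xP0L_rpow 0.22 (by norm_num) (by norm_num) (by norm_num) (by norm_num) (by norm_num))
  simp only [DP, S2, Nat.cast_ofNat]
  refine le_trans (b := 8 / 35 / 2 ^ 20 + 3.03 / 4 ^ 20 + 2.025 * (6.06 / 2 ^ 30 * (0.956 + 0.10244)
    + (1 + 0.0082) ^ 2 / 2 ^ 36 * 0.81 / 0.0137 * 6.143)) ?_ (by norm_num)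
  gcongr

theorem xP0L_a : aP 20 24 29 43 7620 0.49 0.996 ≤ 17.7 := by
  have a1 : log ((7620 - 29) / (43 - 29 - 1)) ≤ 6.37 :=
    xP0L_up 9 0.1315 (by norm_num) (by norm_num) (by norm_num) (by norm_num)
  have l1 := Real.log_two_lt_d9.le
  obtain ⟨s1, s2⟩ := xP0L_sl 29 7620 (c := 0.000388) (by norm_num) (by norm_num) (by norm_num)
  simp only [aP, Nat.cast_ofNat]
  refine le_trans (b := 1.011 * (0.6931471808 * ((24 - 20) / 2 + 8 / 35 * (43 - 24))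
    + 1 / 0.49 * 6.37 + 0.6931471808 * 0.000388 * (0.996 / (1 - 0.996)))) ?_ (by norm_num)
  gcongr

theorem xP0L_b : bP 20 24 29 43 0.49 ≤ 0.0000023 := by
  obtain ⟨h1, h2⟩ := xP0L_hi 29 43 (u := 0.0132) (v := 0.83)
    (xP0L_rpow 4.75 (by norm_num) (by norm_num) (by norm_num) (by norm_num) (by norm_num))
    (xP0L_rpow 0.19 (by norm_num) (by norm_num) (by norm_num) (by norm_num) (by norm_num))
  unfold bP
  norm_num at h2 ⊢
  linarith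

theorem stP0L : StP0L := by
  obtain ⟨t1, t2⟩ := xP0L_A
  refine ⟨⟨⟨?_, ?_, ?_, ?_, ?_, ?_, ?_, ?_, ?_,
    (xP0L_sl 36 52 (by norm_num) (by norm_num) (by norm_num)).2⟩, xP0L_q, xP0L_D, ?_⟩,
    ⟨?_, ?_, ?_, ?_, ?_, ?_, ?_, ?_, ?_,
    (xP0L_sl 29 43 (by norm_num) (by norm_num) (by norm_num)).2⟩, xP0L_a, xP0L_b, ?_, ?_⟩
  case refine_10 =>
    change 420 * Atot 20 36 7620 0.49 0.996 ^ 2 ≤ 16000
    nlinarith
  all_goals norm_num [par0]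

end Pool.Agent.MP_88bd62_nt.U
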