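import Pool.Agent.MP_88bd62_nt.U.Stmts

/-! Numerical checks for the third stage. -/

namespace Pool.Agent.MP_88bd62_nt.U

open Finset Real

theorem xP3X_log (x : ℝ) (k : ℕ) (hx : 0 < x) : log x ≤ k * 0.6931471808 + (x / 2 ^ k - 1) := by
  have h1 : log x = k * log 2 + log (x / 2 ^ k) := by
    rw [log_div hx.ne' (by positivity), log_pow]
    ring
  have h2 := log_le_sub_one_of_pos (x := x / 2 ^ k) (by positivity)
  have h3 : k * log 2 ≤ k * 0.6931471808 := by
    gcongr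
    exact log_two_lt_d9.le
  linarith

theorem xP3X_exp (n : ℕ) : (2.718 : ℝ) ^ n ≤ exp n := by
  rw [← exp_one_pow]
  gcongr
  linarith [exp_one_gt_d9]

theorem xP3X_c : 0 ≤ log (6.7 : ℝ) ∧ log (6.7 : ℝ) ≤ 1.95 := by
  refine ⟨log_nonneg (by norm_num), (xP3X_log _ 3 (by norm_num)).trans (by norm_num)⟩

theorem xP3X_a {L : ℝ} (h0 : 45 ≤ L) (h1 : L ≤ 47) : 0 ≤ al0 L ∧ al0 L ≤ 3.3 := by
  refine ⟨log_nonneg (by linarith), (xP3X_log _ 5 (by linarith)).trans ?_⟩
  norm_num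
  linarith

theorem xP3X_d {L : ℝ} (h0 : 45 ≤ L) (h1 : L ≤ 47) : log (1.132 * L + 4.45) ≤ 4.1 := by
  refine (xP3X_log _ 6 (by linarith)).trans ?_
  norm_num
  linarith

theorem xP3X_K {L : ℝ} (h0 : 45 ≤ L) (h1 : L ≤ 47) : Kf L ≤ (L / 4 + 2.85) / 0.999 := by
  obtain ⟨c0, c1⟩ := xP3X_c
  obtain ⟨a0, a1⟩ := xP3X_a h0 h1
  have d1 := xP3X_d h0 h1
  have hp := pi_pos
  have u0 : 0.3183 ≤ π⁻¹ := by
    rw [le_inv_comm₀ (by norm_num) hp]
    linarith [pi_lt_d4]
  have u1 : π⁻¹ ≤ 0.3184 := by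
    rw [inv_le_comm₀ hp (by norm_num)]
    linarith [pi_gt_d4]
  unfold Kf Kg al1 al2
  refine div_le_div_of_nonneg_right ?_ (by norm_num)
  set a := al0 L
  set c := log (6.7 : ℝ)
  set d := log (1.132 * L + 4.45)
  have e : (2 * a + 2 * (L / 4 + c - a) * π / 2 + (L / 2 + d - 2 * (L / 4 + c) + a) * 4 / 3) / π
      + (0.39 * π + 0.668) / (π * 0.999) = L / 4 + a * (10 / 3 * π⁻¹ - 1)
        + c * (1 - 8 / 3 * π⁻¹) + d * (4 / 3 * π⁻¹) + 0.39 / 0.999 + 0.668 / 0.999 * π⁻¹ := by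
    field_simp
    ring
  rw [e]
  have b1 : a * (10 / 3 * π⁻¹ - 1) ≤ 3.3 * 0.0614 :=
    mul_le_mul a1 (by linarith) (by linarith) (by norm_num)
  have b2 : c * (1 - 8 / 3 * π⁻¹) ≤ 1.95 * 0.1513 :=
    mul_le_mul c1 (by linarith) (by linarith) (by norm_num)
  have b3 : d * (4 / 3 * π⁻¹) ≤ 4.1 * 0.4246 :=
    mul_le_mul d1 (by linarith) (by linarith) (by norm_num)
  linarith

theorem xP3X_Z : ZOK par3.T par3.L par3.KK := by
  have hp : 3.1415 ≤ π := pi_gt_d4.le
  have e : ∀ n : ℕ, 2 * 3.1415 * (2.718 : ℝ) ^ n ≤ 2 * π * exp n := fun n => by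
    have := xP3X_exp n
    gcongr
  have e45 := e 45
  have e46 := e 46
  have e47 := e 47
  constructor
  · intro j hj
    obtain ⟨h1, h2⟩ := mem_Icc.1 hj
    interval_cases j
    · simp only [par3, Par.L]
      exact ⟨by norm_num, le_trans (by norm_num) e45⟩
    · simp only [par3, Par.L]
      exact ⟨by norm_num, le_trans (by norm_num) e46⟩
    · simp only [par3, Par.L]
      exact ⟨by norm_num, le_trans (by norm_num) e46⟩
    · simp only [par3, Par.L]
      exact ⟨by norm_num, le_trans (by norm_num) e47⟩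
  · have k45 := xP3X_K (L := 45) (by norm_num) (by norm_num)
    have k46 := xP3X_K (L := 46) (by norm_num) (by norm_num)
    have k47 := xP3X_K (L := 47) (by norm_num) (by norm_num)
    rw [show Icc 1 4 = ({1, 2, 3, 4} : Finset ℕ) by rfl]
    simp only [par3, Par.L, ta, mem_insert, mem_singleton, sum_insert, sum_singleton,
      OfNat.one_ne_ofNat, Nat.reduceEqDiff, or_self, not_false_eq_true]
    norm_num at k45 k46 k47 ⊢
    linarith

theorem xP3X_eps : 2 * (2 * (al0 45 + al1 45 * 0.0019 + al2 45 * 0.0019 ^ 2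
        + 2 ^ (((40 : ℕ) : ℝ) * 0.0019) * (1.18 + log 13) + log (1 + 1 / 0.02))
        * (0.02 / (0.02 + 0.0019)) ^ 330 / (1 - 0.02 / (0.02 + 0.0019))
      + (0.02 * (2 * ((40 : ℕ) : ℝ) * log 2)) ^ 330 / (Nat.factorial 330 : ℝ)
        * (((40 : ℕ) : ℝ) * log 2)) + 4.01 * S2 40 ≤ (0.0000000001 : ℝ) := by
  obtain ⟨c0, c1⟩ := xP3X_c
  obtain ⟨a0, a1⟩ := xP3X_a (L := 45) (by norm_num) (by norm_num)
  have d1 := xP3X_d (L := 45) (by norm_num) (by norm_num)
  have l0 : 0 < log 2 := log_pos one_lt_two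
  have l1 := log_two_lt_d9
  have h13 : log (13 : ℝ) ≤ 2.6 := (xP3X_log _ 4 (by norm_num)).trans (by norm_num)
  have h13' : 0 ≤ log (13 : ℝ) := log_nonneg (by norm_num)
  have h51 : log (1 + 1 / 0.02 : ℝ) ≤ 3.96 := (xP3X_log _ 6 (by norm_num)).trans (by norm_num)
  have h2 : (2 : ℝ) ^ (((40 : ℕ) : ℝ) * 0.0019) ≤ 1.076 := by
    have := rpow_one_add_le_one_add_mul_self (s := 1) (p := ((40 : ℕ) : ℝ) * 0.0019)
      (by norm_num) (by norm_num) (by norm_num)
    norm_num at this ⊢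
    exact this
  have h3 : (2 : ℝ) ^ (((40 : ℕ) : ℝ) * 0.0019) * (1.18 + log 13) ≤ 1.076 * 3.78 :=
    mul_le_mul h2 (by linarith) (by linarith) (by norm_num)
  have h4 : al0 45 + al1 45 * 0.0019 + al2 45 * 0.0019 ^ 2
      + 2 ^ (((40 : ℕ) : ℝ) * 0.0019) * (1.18 + log 13) + log (1 + 1 / 0.02) ≤ 11.5 := by
    unfold al1 al2
    linarith
  have h5 : (0.02 / (0.02 + 0.0019) : ℝ) ^ 330 ≤ 1 / 10 ^ 13 := by
    rw [show 330 = 165 * 2 from rfl, pow_mul]
    norm_num
  have h6 : (0.02 * (2 * ((40 : ℕ) : ℝ) * log 2)) ^ 330 / (Nat.factorial 330 : ℝ)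
      * (((40 : ℕ) : ℝ) * log 2) ≤ 1.2 ^ 330 / (Nat.factorial 330 : ℝ) * 28 := by
    gcongr
    · push_cast
      linarith
    · push_cast
      linarith
  have h7 : (1.2 : ℝ) ^ 330 / (Nat.factorial 330 : ℝ) * 28 ≤ 1 / 10 ^ 13 := by
    rw [show (1.2 : ℝ) ^ 330 = (1.2 ^ 165) ^ 2 by rw [← pow_mul]]
    norm_num [Nat.factorial]
  have h8 : 2 * (al0 45 + al1 45 * 0.0019 + al2 45 * 0.0019 ^ 2
      + 2 ^ (((40 : ℕ) : ℝ) * 0.0019) * (1.18 + log 13) + log (1 + 1 / 0.02))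
        * (0.02 / (0.02 + 0.0019)) ^ 330 / (1 - 0.02 / (0.02 + 0.0019)) ≤
      2 * 11.5 * (1 / 10 ^ 13) / (1 - 0.02 / (0.02 + 0.0019) : ℝ) := by
    refine div_le_div_of_nonneg_right ?_ (by norm_num)
    exact mul_le_mul (by linarith) h5 (by positivity) (by norm_num)
  have h9 : S2 40 ≤ 1 / 10 ^ 12 := by
    unfold S2
    norm_num
  have h10 : 2 * 11.5 * (1 / 10 ^ 13) / (1 - 0.02 / (0.02 + 0.0019) : ℝ) ≤ 3 / 10 ^ 11 := by
    norm_num
  have h11 : 2 * ((3 : ℝ) / 10 ^ 11 + 1 / 10 ^ 13) + 4.01 * (1 / 10 ^ 12) ≤ 0.0000000001 := by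
    norm_num
  exact le_trans (add_le_add (mul_le_mul_of_nonneg_left (add_le_add (h8.trans h10) (h6.trans h7))
    (by norm_num)) (mul_le_mul_of_nonneg_left h9 (by norm_num))) h11

theorem xP3X_expb {x : ℝ} (h : x ≤ 0.796) : exp x ≤ 2.22 := by
  refine (exp_le_exp.2 h).trans ?_
  have := Real.exp_bound' (x := 0.796) (by norm_num) (by norm_num) (n := 6) (by norm_num)
  refine this.trans ?_
  norm_num [sum_range_succ, Nat.factorial]

theorem stP3X : StP3X := by
  have l0 := log_two_gt_d9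
  have l1 := log_two_lt_d9
  constructor
  · refine ⟨by simp [par3], by simp [par3], by simp [par3], by simp [par3], by simp [par3],
      by norm_num [par3], by norm_num [par3], by norm_num [par3], by norm_num [par3],
      by norm_num [par3], by norm_num [par3], by norm_num [par3], by norm_num [par3],
      by norm_num [par3], by norm_num [par3], by norm_num [par3], ?_, xP3X_Z, ?_, ?_, ?_,
      xP3X_eps⟩
    · change π * 2 ^ (64 + 1) / log 2 + 1 ≤ 170000000000000000000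
      have : π * 2 ^ (64 + 1) / log 2 ≤ 3.1416 * 2 ^ (64 + 1) / 0.6931471803 := by
        gcongr
        exact pi_lt_d4.le
      refine le_trans (add_le_add this le_rfl) (by norm_num)
    · norm_num [par3, Sbar, ta]
    · change (2 : ℝ) ^ (-(0.1 * 0.02 : ℝ)) ≤ 0.999
      rw [rpow_def_of_pos two_pos]
      have h1 : log 2 * -(0.1 * 0.02 : ℝ) ≤ -0.00138 := by linarith
      refine (exp_le_exp.2 h1).trans ?_
      rw [exp_neg, inv_le_comm₀ (exp_pos _) (by norm_num)]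
      exact le_trans (by norm_num) (add_one_le_exp _)
    · change ((330 : ℕ) : ℝ) * log (1 / (1 - 0.1)) ≤
        0.1 * 0.02 * ((((26000 : ℕ) : ℝ) - 1 / 64) * log 2)
      have h1 : log (1 / (1 - 0.1) : ℝ) ≤ 0.108 := by
        rw [log_le_iff_le_exp (by norm_num)]
        exact le_trans (by norm_num) (quadratic_le_exp_of_nonneg (by norm_num))
      push_cast
      linarith
  · have e1 : log (((40 : ℕ) : ℝ) / 20) = log 2 := by norm_num
    have e2 : eM 20 ≤ 0.1025 := by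
      unfold eM
      rw [div_le_iff₀ (by positivity)]
      push_cast
      linarith
    constructor
    · change 231 * exp (2.0001 * (log (((40 : ℕ) : ℝ) / 20) + eM 20)) ≤ 1200
      have h1 : 2.0001 * (log (((40 : ℕ) : ℝ) / 20) + eM 20) =
          1.00005 * (log 2 + eM 20) + 1.00005 * (log 2 + eM 20) := by
        rw [e1]; ring
      have h2 : exp (1.00005 * (log 2 + eM 20)) ≤ 2.22 := xP3X_expb (by linarith)
      rw [h1, exp_add]
      have h3 := mul_le_mul h2 h2 (exp_pos _).le (by norm_num)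
      linarith
    · change 5.65 * exp (1.0001 * (log (((40 : ℕ) : ℝ) / 20) + eM 20)) ≤ 13
      have h2 : exp (1.0001 * (log 2 + eM 20)) ≤ 2.22 := xP3X_expb (by linarith)
      rw [e1]
      linarith

end Pool.Agent.MP_88bd62_nt.U
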