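import Pool.Agent.MP_88bd62_nt.U.Stmts

/-! The Poisson kernel. -/

namespace Pool.Agent.MP_88bd62_nt.U

open Finset Real

theorem xPois_den {r : ℝ} (h0 : 0 ≤ r) (h1 : r < 1) (x : ℝ) : 0 < 1 - 2 * r * cos x + r ^ 2 := by
  nlinarith [mul_le_mul_of_nonneg_left (cos_le_one x) h0, sq_pos_of_pos (sub_pos.2 h1)]

theorem xPois_nat {r : ℝ} (h0 : 0 ≤ r) (h1 : r < 1) (x : ℝ) :
    HasSum (fun n : ℕ => r ^ n * cos (n * x)) ((1 - r * cos x) / (1 - 2 * r * cos x + r ^ 2)) := by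
  have h := Complex.hasSum_re (hasSum_geometric_of_norm_lt_one
    (ξ := (r : ℂ) * Complex.exp (x * Complex.I)) (by simpa [abs_of_nonneg h0] using h1))
  convert h using 1
  · funext n
    rw [mul_pow, ← Complex.exp_nat_mul, ← Complex.ofReal_pow, Complex.re_ofReal_mul, ← mul_assoc,
      ← Complex.ofReal_natCast, ← Complex.ofReal_mul, Complex.exp_ofReal_mul_I_re]
  · rw [Complex.inv_re, Complex.normSq_apply]
    simp only [Complex.sub_re, Complex.one_re, Complex.re_ofReal_mul, Complex.exp_ofReal_mul_I_re,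
      Complex.sub_im, Complex.one_im, Complex.im_ofReal_mul, Complex.exp_ofReal_mul_I_im]
    congr 1
    linear_combination (-r ^ 2) * sin_sq_add_cos_sq x

theorem xPois_lt {l : ℝ} (hl : 0 < l) : exp (-l) < 1 := exp_lt_one_iff.2 (by linarith)

theorem xPois_int {l : ℝ} (hl : 0 < l) (v : ℝ) :
    HasSum (fun k : ℤ => exp (-(l * |(k : ℝ)|)) * cos (π * k * v)) (2 * pk l v) := by
  have h0 := (exp_pos (-l)).le
  have h1 := xPois_lt hl
  have h := xPois_nat h0 h1 (π * v)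
  have e : ∀ n : ℕ, exp (-(l * |(n : ℝ)|)) * cos (π * n * v) = exp (-l) ^ n * cos (n * (π * v)) :=
    fun n => by
      rw [← exp_nat_mul, Nat.abs_cast]
      congr 2 <;> ring
  have h3 := HasSum.of_nat_of_neg (f := fun k : ℤ => exp (-(l * |(k : ℝ)|)) * cos (π * k * v))
    (by simpa only [Int.cast_natCast, e] using h)
    (by simpa only [Int.cast_neg, Int.cast_natCast, abs_neg, mul_neg π, neg_mul, cos_neg, e]
      using h)
  refine Eq.mp (congrArg (fun x => HasSum _ x) ?_) h3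
  have h2 := (xPois_den h0 h1 (π * v)).ne'
  simp only [pk, Int.cast_zero, abs_zero, mul_zero, neg_zero, exp_zero, zero_mul, cos_zero]
  rw [mul_div_cancel₀ _ two_ne_zero, ← add_div, div_sub' h2]
  congr 1
  ring

theorem xPois_nonneg {l : ℝ} (hl : 0 < l) (v : ℝ) : 0 ≤ pk l v := by
  have h0 := (exp_pos (-l)).le
  have h1 := xPois_lt hl
  exact div_nonneg (div_nonneg (by nlinarith) (xPois_den h0 h1 _).le) two_pos.le

theorem xPois_odd {l : ℝ} (hl : 0 < l) (v : ℝ) :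
    HasSum (fun k : ℤ => (if Odd k then exp (-(l * |(k : ℝ)|)) else 0) * cos (π * k * v))
      (pk l v - pk l (v + 1)) := by
  have h := ((xPois_int hl v).sub (xPois_int hl (v + 1))).div_const 2
  rw [← mul_sub, mul_div_cancel_left₀ _ two_ne_zero] at h
  refine h.congr_fun fun k => ?_
  rw [show π * k * (v + 1) = π * k * v + k * π by ring, cos_add_int_mul_pi]
  split_ifs with h
  · rw [h.neg_one_zpow]
    ring
  · rw [(Int.not_odd_iff_even.1 h).neg_one_zpow]
    ring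

theorem xPois_sym (P : Finset ℕ) (F : ℕ → ℕ → ℝ) (h : ∀ p q, F p q = F q p) :
    ∑ p ∈ P, ∑ q ∈ P, F p q = ∑ p ∈ P, F p p + 2 * ∑ p ∈ P, ∑ q ∈ P.filter (p < ·), F p q := by
  have e : ∀ p q, F p q = (if p = q then F p q else 0) + (if p < q then F p q else 0) +
      if q < p then F q p else 0 := fun p q => by
    rcases lt_trichotomy p q with c | c | c
    · simp [c, c.ne, c.not_gt]
    · simp [c]
    · simp [c, c.ne', c.not_gt, h p q]
  rw [sum_congr rfl fun p _ => sum_congr rfl fun q _ => e p q]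
  simp only [sum_add_distrib, sum_filter]
  rw [sum_comm (f := fun p q => if q < p then F q p else 0),
    sum_congr rfl fun p hp => (sum_ite_eq P p (F p)).trans (if_pos hp)]
  ring

theorem xPois_sq (P : Finset ℕ) (μ : ℕ → ℝ) (k : ℤ) :
    ‖∑ p ∈ P, (μ p : ℂ) * ee k (-th p)‖ ^ 2 = (∑ p ∈ P, μ p ^ 2) * cos (π * k * (0 : ℝ)) +
      2 * ∑ p ∈ P, μ p * ∑ q ∈ P.filter (p < ·), μ q * cos (π * k * (th q - th p)) := by
  have h := xPois_sym P (fun p q => μ p * (μ q * cos (π * k * (th q - th p)))) fun p q => by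
    rw [← cos_neg, show -(π * k * (th q - th p)) = π * k * (th p - th q) by ring]
    ring
  simp only [sub_self, mul_zero, cos_zero, mul_one, ← mul_sum, ← sq] at h ⊢
  rw [← h, Complex.sq_norm, Complex.normSq_apply, Complex.re_sum, Complex.im_sum, sum_mul_sum,
    sum_mul_sum, ← sum_add_distrib]
  refine sum_congr rfl fun p _ => ?_
  rw [← sum_add_distrib, mul_sum]
  refine sum_congr rfl fun q _ => ?_
  simp only [ee, Complex.re_ofReal_mul, Complex.im_ofReal_mul, Complex.exp_ofReal_mul_I_re,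
    Complex.exp_ofReal_mul_I_im]
  rw [show π * k * (th q - th p) = π * k * -th p - π * k * -th q by ring, cos_sub]
  ring

theorem xPois_zero {l : ℝ} (hl : 0 < l) : pk l 0 - pk l (0 + 1) ≤ 1 / l := by
  have h0 := exp_pos (-l)
  have h1 := xPois_lt hl
  have h2 := self_le_sinh_iff.2 hl.le
  have h3 : exp l * exp (-l) = 1 := by rw [← exp_add, add_neg_cancel, exp_zero]
  rw [sinh_eq] at h2
  have h4 : pk l 0 - pk l (0 + 1) = 2 * exp (-l) / (1 - exp (-l) ^ 2) := by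
    have a1 : 1 - exp (-l) ≠ 0 := by linarith
    have a2 : 1 + exp (-l) ≠ 0 := by linarith
    simp only [pk, mul_zero, zero_add, mul_one, cos_zero, cos_pi]
    rw [show 1 - 2 * exp (-l) + exp (-l) ^ 2 = (1 - exp (-l)) ^ 2 by ring,
      show 1 - 2 * exp (-l) * -1 + exp (-l) ^ 2 = (1 + exp (-l)) ^ 2 by ring,
      show 1 - exp (-l) ^ 2 = (1 - exp (-l)) * (1 + exp (-l)) by ring]
    field_simp
    ring
  rw [h4, div_le_div_iff₀ (by nlinarith) hl]
  nlinarith [mul_le_mul_of_nonneg_right h2 h0.le]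

theorem xPois_one {l : ℝ} (hl : 0 < l) (S : Finset ℤ) (P : Finset ℕ) (μ : ℕ → ℝ)
    (hS : ∀ k ∈ S, Odd k) (hμ : ∀ p, 0 ≤ μ p) :
    ∑ k ∈ S, exp (-(l * |(k : ℝ)|)) * ‖∑ p ∈ P, (μ p : ℂ) * ee k (-th p)‖ ^ 2 ≤
      (∑ p ∈ P, μ p ^ 2) / l
        + 2 * ∑ p ∈ P, μ p * ∑ p' ∈ P.filter (p < ·), μ p' * pk l (th p' - th p) := by
  have h1 := ((xPois_odd hl 0).mul_left (∑ p ∈ P, μ p ^ 2)).add ((hasSum_sum fun p (_ : p ∈ P) =>
    (hasSum_sum fun q (_ : q ∈ P.filter (p < ·)) =>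
      (xPois_odd hl (th q - th p)).mul_left (μ q)).mul_left (μ p)).mul_left 2)
  have h2 : HasSum (fun k : ℤ => (if Odd k then exp (-(l * |(k : ℝ)|)) else 0) *
      ‖∑ p ∈ P, (μ p : ℂ) * ee k (-th p)‖ ^ 2) _ := h1.congr_fun fun k => by
    rw [xPois_sq]
    simp only [mul_add, mul_sum, mul_left_comm]
  have h3 := sum_le_hasSum S (fun k _ => mul_nonneg (by split_ifs <;> positivity) (sq_nonneg _)) h2
  rw [sum_congr rfl fun k hk => by rw [if_pos (hS k hk)]] at h3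
  refine h3.trans (add_le_add ?_ ?_)
  · rw [← mul_one_div]
    exact mul_le_mul_of_nonneg_left (xPois_zero hl) (sum_nonneg fun _ _ => sq_nonneg _)
  · gcongr with p _ q _
    · exact hμ p
    · exact hμ q
    · exact sub_le_self _ (xPois_nonneg hl _)

/-- Abel summation -/
theorem xPois_abel {ι : Type} (μ d : ι → ℝ) (κ H M : ℝ → ℝ) (r₀ : ℝ) (I : Finset ι)
    (hH : ∀ s R, 0 ≤ s → s ≤ R → R ≤ r₀ → M s * (κ s - κ R) ≤ H R - H s)
    (hκ : ∀ s R, 0 ≤ s → s ≤ R → R ≤ r₀ → κ R ≤ κ s) (h0 : 0 ≤ M 0) (hd : ∀ i, 0 ≤ d i)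
    (hM : ∀ J ⊆ I, ∀ m ∈ J, (∀ i ∈ J, d i ≤ d m) → ∑ i ∈ J, μ i ≤ M (d m)) (J : Finset ι) :
    J ⊆ I → ∀ R, (∀ i ∈ J, d i ≤ R) → 0 ≤ R → R ≤ r₀ →
      ∑ i ∈ J, μ i * (κ (d i) - κ R) ≤ H R - H 0 := by
  classical
  induction J using Finset.induction_on_max_value d with
  | empty =>
    intro _ R _ a b
    exact (mul_nonneg h0 (sub_nonneg.2 (hκ 0 R le_rfl a b))).trans (hH 0 R le_rfl a b)
  | insert m J hm hJ ih =>
    intro hI R a b c
    have h1 := a m (mem_insert_self _ _)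
    have h2 := ih ((subset_insert _ _).trans hI) (d m) hJ (hd m) (h1.trans c)
    have h3 := mul_le_mul_of_nonneg_right (hM _ hI m (mem_insert_self _ _)
      (forall_mem_insert _ _ _ |>.2 ⟨le_rfl, hJ⟩)) (sub_nonneg.2 (hκ _ R (hd m) h1 c))
    have h4 := hH _ R (hd m) h1 c
    have h5 : ∑ i ∈ insert m J, μ i * (κ (d i) - κ R) = ∑ i ∈ J, μ i * (κ (d i) - κ (d m)) +
        (∑ i ∈ insert m J, μ i) * (κ (d m) - κ R) := by
      rw [sum_insert hm, sum_insert hm, add_mul, sum_mul, add_left_comm, ← sum_add_distrib]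
      exact congrArg _ (sum_congr rfl fun i _ => by ring)
    linarith

theorem xPois_anti {l : ℝ} (hl : 0 < l) {s R : ℝ} (h0 : 0 ≤ s) (h : s ≤ R) (h1 : R ≤ 1) :
    pk l R ≤ pk l s := by
  have a0 := (exp_pos (-l)).le
  have a1 := xPois_lt hl
  have a2 : cos (π * R) ≤ cos (π * s) := cos_le_cos_of_nonneg_of_le_pi (by positivity)
    (mul_le_of_le_one_right pi_pos.le h1) (by gcongr)
  refine div_le_div_of_nonneg_right (div_le_div_of_nonneg_left (by nlinarith)
    (xPois_den a0 a1 _) ?_) two_pos.le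
  nlinarith

theorem xPois_deriv {l : ℝ} (hl : 0 < l) {t : ℝ} (h0 : 0 ≤ t) (h1 : t < 1) :
    HasDerivAt (fun t => arctan ((1 + exp (-l)) / (1 - exp (-l)) * tan (π / 2 * t)) / π)
      (pk l t) t := by
  have a0 := (exp_pos (-l)).le
  have a1 := xPois_lt hl
  have a2 : cos (π / 2 * t) ≠ 0 := (cos_pos_of_mem_Ioo ⟨by nlinarith [pi_pos], by
    nlinarith [pi_pos]⟩).ne'
  refine (((((hasDerivAt_tan a2).comp t ((hasDerivAt_id t).const_mul (π / 2))).const_mul
    ((1 + exp (-l)) / (1 - exp (-l)))).arctan).div_const π).congr_deriv ?_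
  have a3 := (xPois_den a0 a1 (π * t)).ne'
  have a4 : 1 - exp (-l) ≠ 0 := by linarith
  have a5 : 1 - 2 * exp (-l) * cos (π * t) + exp (-l) ^ 2 =
      ((1 - exp (-l)) * cos (π / 2 * t)) ^ 2 + ((1 + exp (-l)) * sin (π / 2 * t)) ^ 2 := by
    rw [show π * t = 2 * (π / 2 * t) by ring, cos_two_mul]
    linear_combination (-(1 + exp (-l)) ^ 2) * sin_sq_add_cos_sq (π / 2 * t)
  rw [pk, Function.comp_apply, tan_eq_sin_div_cos]
  rw [a5] at a3 ⊢
  have a6 := pi_pos.ne'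
  generalize cos (π / 2 * t) = c at a2 a3 ⊢
  generalize sin (π / 2 * t) = s at a3 ⊢
  generalize exp (-l) = r at a3 a4 ⊢
  field_simp
  ring

theorem xPois_top {l : ℝ} (hl : 0 < l) (hl' : l ≤ 1 / 10) : pk l 0 ≤ 1.001 / l := by
  have h0 := exp_pos (-l)
  have h1 := xPois_lt hl
  have h2 := sum_le_exp_of_nonneg hl.le 4
  have h3 : exp l * exp (-l) = 1 := by rw [← exp_add, add_neg_cancel, exp_zero]
  simp only [sum_range_succ, range_zero, sum_empty, Nat.factorial] at h2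
  norm_num at h2
  have h4 : pk l 0 = (1 + exp (-l)) / (2 * (1 - exp (-l))) := by
    have a1 : 1 - exp (-l) ≠ 0 := by linarith
    simp only [pk, mul_zero, mul_one, cos_zero]
    rw [show 1 - 2 * exp (-l) + exp (-l) ^ 2 = (1 - exp (-l)) ^ 2 by ring,
      show 1 - exp (-l) ^ 2 = (1 - exp (-l)) * (1 + exp (-l)) by ring]
    field_simp
  have h5 : 2.002 + l ≤ exp l * (2.002 - l) := by
    refine le_trans ?_ (mul_le_mul_of_nonneg_right h2 (by linarith))
    have a1 : l ^ 2 ≤ l / 10 := by nlinarith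
    have a2 : l ^ 3 ≤ l / 100 := by nlinarith
    have a3 : l ^ 4 ≤ l / 1000 := by nlinarith
    nlinarith [sq_nonneg l]
  rw [h4, div_le_div_iff₀ (by linarith) hl]
  nlinarith [mul_le_mul_of_nonneg_right h5 h0.le]

theorem xPois_bot {l : ℝ} (hl : 0 < l) (hl' : l ≤ 1 / 10) : pk l (1 / 64) ≤ 420 * l := by
  have h0 := exp_pos (-l)
  have h1 := xPois_lt hl
  have h3 : exp l * exp (-l) = 1 := by rw [← exp_add, add_neg_cancel, exp_zero]
  have e1 := (abs_le.1 (exp_bound (x := l) (by rw [abs_of_pos hl]; linarith) (n := 3) (by simp))).2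
  have e2 := (abs_le.1 (exp_bound (x := -l) (by rw [abs_neg, abs_of_pos hl]; linarith) (n := 3)
    (by simp))).1
  simp only [sum_range_succ, range_zero, sum_empty, Nat.factorial, abs_neg, abs_of_pos hl] at e1 e2
  norm_num at e1 e2
  have a1 : l ^ 2 ≤ l / 10 := by nlinarith
  have a2 : l ^ 3 ≤ l / 100 := by nlinarith
  have e3 : exp l - exp (-l) ≤ 2.016 * l := by linarith
  have p1 := pi_gt_d2
  have p2 := pi_lt_d2
  have c1 := (abs_le.1 (cos_bound (x := π * (1 / 64)) (by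
    rw [abs_of_pos (by positivity)]; linarith))).2
  rw [abs_of_pos (by positivity)] at c1
  have c2 : (π * (1 / 64)) ^ 4 ≤ (1 / 20) ^ 4 := by gcongr; linarith
  have c3 : (3.14 / 64) ^ 2 ≤ (π * (1 / 64)) ^ 2 := by gcongr; linarith
  have c4 : cos (π * (1 / 64)) ≤ 1 - 0.0012 := by
    norm_num at c1 c2 c3 ⊢
    linarith
  rw [pk, div_le_iff₀ two_pos, div_le_iff₀ (xPois_den h0.le h1 _)]
  have d1 : 0.0024 * exp (-l) ≤ 1 - 2 * exp (-l) * cos (π * (1 / 64)) + exp (-l) ^ 2 := by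
    nlinarith [mul_le_mul_of_nonneg_left c4 h0.le, sq_nonneg (1 - exp (-l))]
  nlinarith [mul_le_mul_of_nonneg_right e3 h0.le, mul_le_mul_of_nonneg_left d1 hl.le]

theorem xPois_per (l v : ℝ) : pk l v = pk l (2 * dZ (v / 2)) := by
  have h : cos (π * (2 * dZ (v / 2))) = cos (π * v) := by
    rw [dZ, ← mul_assoc, ← abs_of_pos (show 0 < π * 2 by positivity), ← abs_mul, cos_abs,
      show π * 2 * (v / 2 - round (v / 2)) = π * v - round (v / 2) * (2 * π) by ring,
      cos_sub_int_mul_two_pi]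
  rw [pk, pk, h]

theorem xPois_two {l : ℝ} (hl : 0 < l) (hl' : l ≤ 1 / 10) {ι : Type} (I : Finset ι) (μ d : ι → ℝ)
    (a b : ℝ) (hμ : ∀ i, 0 ≤ μ i) (ha : 0 ≤ a) (hb : 0 ≤ b) (hd : ∀ i, 0 ≤ d i ∧ d i ≤ 1)
    (h : ∀ r : ℝ, 0 < r → r ≤ 1 / 64 → ∑ i ∈ I.filter (fun i => d i < r), μ i ≤ a * (2 * r) + b) :
    ∑ i ∈ I, μ i * pk l (d i) ≤ a + 1.001 * b / l + 420 * l * ∑ i ∈ I, μ i := by
  obtain ⟨A, hA, A0, A1⟩ : ∃ A : ℝ → ℝ, (∀ t, 0 ≤ t → t < 1 → HasDerivAt A (pk l t) t) ∧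
      A 0 = 0 ∧ A (1 / 64) ≤ 1 / 2 := ⟨_, fun t => xPois_deriv hl, by simp, by
    rw [div_le_iff₀ pi_pos]
    linarith [arctan_lt_pi_div_two ((1 + exp (-l)) / (1 - exp (-l)) * tan (π / 2 * (1 / 64)))]⟩
  have h1 := xPois_abel μ d (pk l) (fun t => 2 * a * A t - (a * (2 * t) + b) * pk l t)
    (fun t => a * (2 * t) + b) (1 / 64) (I.filter fun i => d i < 1 / 64) (fun s R a1 a2 a3 => by
      have a4 : (R - s) * pk l R ≤ A R - A s := by
        rcases a2.eq_or_lt with rfl | a5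
        · simp
        obtain ⟨x, hx, e⟩ := exists_hasDerivAt_eq_slope A (pk l) a5
          (fun t ht => (hA t (a1.trans ht.1) (by linarith [ht.2])).continuousAt.continuousWithinAt)
          fun t ht => hA t (a1.trans ht.1.le) (by linarith [ht.2])
        have a6 := xPois_anti hl (a1.trans hx.1.le) hx.2.le (by linarith)
        rwa [e, le_div_iff₀' (sub_pos.2 a5)] at a6
      nlinarith [mul_le_mul_of_nonneg_left a4 ha])
    (fun s R a1 a2 a3 => xPois_anti hl a1 a2 (by linarith)) (by simpa using hb) (fun i => (hd i).1)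
    (fun J hJ m hm hJm => le_of_forall_pos_le_add fun ε hε => by
      have a1 : d m < min (1 / 64) (d m + ε / (2 * a + 1)) :=
        lt_min (mem_filter.1 (hJ hm)).2 (lt_add_of_pos_right _ (by positivity))
      refine ((sum_le_sum_of_subset_of_nonneg (fun i hi => mem_filter.2
        ⟨(mem_filter.1 (hJ hi)).1, (hJm i hi).trans_lt a1⟩) fun i _ _ => hμ i).trans
          (h _ ((hd m).1.trans_lt a1) (min_le_left _ _))).trans ?_
      have a2 := mul_le_mul_of_nonneg_left (min_le_right (1 / 64) (d m + ε / (2 * a + 1))) ha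
      have a3 : ε / (2 * a + 1) * (2 * a + 1) = ε := div_mul_cancel₀ _ (by positivity)
      have a4 : 0 ≤ ε / (2 * a + 1) := by positivity
      nlinarith) _ subset_rfl (1 / 64) (fun i hi => (mem_filter.1 hi).2.le) (by norm_num) le_rfl
  have h2 : ∑ i ∈ I.filter (fun i => ¬ d i < 1 / 64), μ i * (pk l (d i) - pk l (1 / 64)) ≤ 0 :=
    sum_nonpos fun i hi => mul_nonpos_of_nonneg_of_nonpos (hμ i) (sub_nonpos.2
      (xPois_anti hl (by norm_num) (not_lt.1 (mem_filter.1 hi).2) (hd i).2))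
  have h3 := sum_filter_add_sum_filter_not I (fun i => d i < 1 / 64)
    fun i => μ i * (pk l (d i) - pk l (1 / 64))
  have h4 : ∑ i ∈ I, μ i * (pk l (d i) - pk l (1 / 64)) =
      ∑ i ∈ I, μ i * pk l (d i) - pk l (1 / 64) * ∑ i ∈ I, μ i := by
    rw [mul_sum, ← sum_sub_distrib]
    exact sum_congr rfl fun i _ => by ring
  have h5 := mul_le_mul_of_nonneg_right (xPois_bot hl hl') (sum_nonneg fun i (_ : i ∈ I) => hμ i)
  have h6 := mul_le_mul_of_nonneg_left (xPois_top hl hl') hb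
  have h7 := mul_le_mul_of_nonneg_left A1 ha
  have h8 := mul_nonneg (show 0 ≤ a * (2 * (1 / 64)) + b by positivity) (xPois_nonneg hl (1 / 64))
  have h9 : b * (1.001 / l) = 1.001 * b / l := by ring
  simp only [A0] at h1
  linarith

theorem stPois : StPois := by
  intro l hl hl'
  refine ⟨xPois_one hl, fun I μ v a b hμ ha hb h => ?_⟩
  rw [sum_congr rfl fun i _ => by rw [xPois_per l (v i)]]
  refine xPois_two hl hl' I μ (fun i => 2 * dZ (v i / 2)) a b hμ ha hb (fun i => ⟨mul_nonneg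
    two_pos.le (abs_nonneg _), by linarith [abs_sub_round (v i / 2), dZ.eq_1 (v i / 2)]⟩)
    fun r h0 h1 => ?_
  simpa only [lt_div_iff₀' (two_pos (α := ℝ))] using h r h0 h1

end Pool.Agent.MP_88bd62_nt.U
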