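import Pool.Agent.MP_88bd62_nt.U.DatZ0
import Pool.Agent.MP_88bd62_nt.U.DatZ1
import Pool.Agent.MP_88bd62_nt.U.DatZ2
import Pool.Agent.MP_88bd62_nt.U.DatZ3
import Pool.Agent.MP_88bd62_nt.U.DatW

/-! A check run by the kernel. -/

namespace Pool.Agent.MP_88bd62_nt.U.A

theorem run_r : rchk zu0 zu1 zu2 zu3 wl = true := by decide +kernel

end Pool.Agent.MP_88bd62_nt.U.A
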