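import Pool.Agent.MP_88bd62_nt.U.DatT

/-! A check run by the kernel. -/

namespace Pool.Agent.MP_88bd62_nt.U.A

theorem run_t : D.chk T1 = true := by decide +kernel

end Pool.Agent.MP_88bd62_nt.U.A
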