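import Pool.Agent.MP_88bd62_nt.U.DatZ1

/-! A check run by the kernel. -/

namespace Pool.Agent.MP_88bd62_nt.U.A

theorem run_z1 : zchk 655360 1350264 1103246 21 5581958384 38149353 zu1 = true := by decide +kernel

end Pool.Agent.MP_88bd62_nt.U.A
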