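import Pool.Agent.MP_88bd62_nt.U.Stmts

namespace Pool.Agent.MP_88bd62_nt.U

open Real MeasureTheory Filter Topology Set

noncomputable section

/-- The Mellin transform of the weight. -/
def xSmooth_Ps (κ : ℝ) (s : ℂ) : ℂ := 1 / s - 1 / (s + κ)

theorem xSmooth_Ps_le {κ : ℝ} (hκ : 0 < κ) {s : ℂ} (hs : 0 < s.re) :
    ‖xSmooth_Ps κ s‖ ≤ κ ^ (1 / 4 : ℝ) * ‖s‖ ^ (-(5 / 4) : ℝ) := by
  have h0 : s ≠ 0 := fun h => by simp [h] at hs
  have h1 : s + κ ≠ 0 := fun h => by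
    have := congrArg Complex.re h
    simp at this
    linarith
  have hs0 : 0 < ‖s‖ := norm_pos_iff.2 h0
  have e : xSmooth_Ps κ s = κ / (s * (s + κ)) := by
    unfold xSmooth_Ps
    field_simp
    ring
  have a1 : ‖s‖ ≤ ‖s + κ‖ := by
    refine abs_le_of_sq_le_sq' ?_ (norm_nonneg _) |>.2
    rw [Complex.sq_norm, Complex.sq_norm, Complex.normSq_apply, Complex.normSq_apply]
    simp
    nlinarith
  have a2 : κ ≤ ‖s + κ‖ := by
    refine le_trans ?_ (Complex.re_le_norm _)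
    simp
    exact hs.le
  have a3 : κ ^ (3 / 4 : ℝ) * ‖s‖ ^ (1 / 4 : ℝ) ≤ ‖s + κ‖ := by
    calc _ ≤ ‖s + κ‖ ^ (3 / 4 : ℝ) * ‖s + κ‖ ^ (1 / 4 : ℝ) := by gcongr
      _ = _ := by
        rw [← rpow_add (norm_pos_iff.2 h1)]
        norm_num
  have a4 : κ = κ ^ (1 / 4 : ℝ) * κ ^ (3 / 4 : ℝ) := by
    rw [← rpow_add hκ]
    norm_num
  have a5 : ‖s‖ ^ (-(5 / 4) : ℝ) * ‖s‖ * ‖s‖ ^ (1 / 4 : ℝ) = 1 := by
    rw [← rpow_add_one hs0.ne', ← rpow_add hs0]
    norm_num
  rw [e, norm_div, norm_mul, Complex.norm_real, Real.norm_eq_abs, abs_of_pos hκ,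
    div_le_iff₀ (mul_pos hs0 (norm_pos_iff.2 h1))]
  calc κ = κ ^ (1 / 4 : ℝ) * ‖s‖ ^ (-(5 / 4) : ℝ) * (‖s‖ * (κ ^ (3 / 4 : ℝ) * ‖s‖ ^ (1 / 4 : ℝ))) := by
        linear_combination a4 - (κ ^ (1 / 4 : ℝ) * κ ^ (3 / 4 : ℝ)) * a5
    _ ≤ _ := by gcongr

theorem xSmooth_Ps_an {κ : ℝ} (hκ : 0 < κ) {s : ℂ} (hs : 0 < s.re) :
    DifferentiableAt ℂ (xSmooth_Ps κ) s := by
  have h0 : s ≠ 0 := fun h => by simp [h] at hs
  have h1 : s + κ ≠ 0 := fun h => by
    have := congrArg Complex.re h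
    simp at this
    linarith
  unfold xSmooth_Ps
  fun_prop (disch := assumption)

theorem xSmooth_line {K : ℂ → ℂ} {σ : ℝ} (hK : ∀ t : ℝ, DifferentiableAt ℂ K (σ + t * Complex.I))
    (t : ℝ) : HasDerivAt (fun t : ℝ => K (σ + t * Complex.I))
      (deriv K (σ + t * Complex.I) * Complex.I) t := by
  have h1 : HasDerivAt (fun z : ℂ => σ + z * Complex.I) Complex.I (t : ℂ) := by
    simpa using ((hasDerivAt_id (t : ℂ)).mul_const Complex.I).const_add (σ : ℂ)
  exact ((hK t).hasDerivAt.comp (t : ℂ) h1).comp_ofReal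

theorem xSmooth_int {K : ℂ → ℂ} {σ : ℝ} (hK : ∀ t : ℝ, DifferentiableAt ℂ K (σ + t * Complex.I))
    {B : ℝ → ℝ} (hB : Integrable B) (h : ∀ t : ℝ, ‖K (σ + t * Complex.I)‖ ≤ B t) :
    Integrable fun t : ℝ => K (σ + t * Complex.I) :=
  hB.mono' (continuous_iff_continuousAt.2 fun t =>
    (xSmooth_line hK t).continuousAt).aestronglyMeasurable (Eventually.of_forall h)

theorem xSmooth_Ps_int {κ σ : ℝ} (hκ : 0 < κ) (hσ : 1 ≤ σ) :
    Integrable fun t : ℝ => xSmooth_Ps κ (σ + t * Complex.I) := by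
  have hr : ∀ t : ℝ, 0 < (σ + t * Complex.I : ℂ).re := fun t => by
    simp
    linarith
  refine xSmooth_int (fun t => xSmooth_Ps_an hκ (hr t))
    (B := fun t => κ ^ (1 / 4 : ℝ) * 2 ^ (5 / 4 : ℝ) * (1 + ‖t‖) ^ (-(5 / 4) : ℝ))
    ((integrable_one_add_norm (by norm_num)).const_mul _) fun t => ?_
  refine (xSmooth_Ps_le hκ (hr t)).trans ?_
  have a1 : σ ≤ ‖(σ + t * Complex.I : ℂ)‖ := by simpa using Complex.re_le_norm (σ + t * Complex.I)
  have a2 : ‖t‖ ≤ ‖(σ + t * Complex.I : ℂ)‖ := by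
    simpa using Complex.abs_im_le_norm (σ + t * Complex.I)
  have a3 : ‖(σ + t * Complex.I : ℂ)‖ ^ (-(5 / 4) : ℝ) ≤ ((1 + ‖t‖) / 2) ^ (-(5 / 4) : ℝ) :=
    rpow_le_rpow_of_nonpos (by positivity) (by linarith) (by norm_num)
  rw [div_rpow (by positivity) (by norm_num), rpow_neg (x := 2) (by norm_num), div_inv_eq_mul] at a3
  rw [mul_assoc, mul_comm (2 ^ (5 / 4 : ℝ))]
  gcongr

/-- integration by parts against a character -/
theorem xSmooth_ibp1 {u u' : ℝ → ℂ} (h : ∀ t, HasDerivAt u (u' t) t) (h0 : Integrable u)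
    (h1 : Integrable u') {l : ℝ} (hl : 0 < l) :
    ∫ t : ℝ, u t * Complex.exp (l * t * Complex.I) =
      (Complex.I / l) * ∫ t : ℝ, u' t * Complex.exp (l * t * Complex.I) := by
  have hl' : (l : ℂ) ≠ 0 := by exact_mod_cast hl.ne'
  have hv : ∀ t : ℝ, HasDerivAt (fun t : ℝ => Complex.exp (l * t * Complex.I))
      (Complex.exp (l * t * Complex.I) * (l * Complex.I)) t := fun t => by
    have a : HasDerivAt (fun z : ℂ => l * z * Complex.I) (l * Complex.I) (t : ℂ) := by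
      simpa using ((hasDerivAt_id (t : ℂ)).const_mul (l : ℂ)).mul_const Complex.I
    exact a.cexp.comp_ofReal
  have hc : AEStronglyMeasurable (fun t : ℝ => Complex.exp (l * t * Complex.I)) volume :=
    Continuous.aestronglyMeasurable (by fun_prop)
  have hb : ∀ᵐ t : ℝ, ‖Complex.exp (l * t * Complex.I)‖ ≤ 1 := Eventually.of_forall fun t => by
    rw [← Complex.ofReal_mul, Complex.norm_exp_ofReal_mul_I]
  have i0 := h0.mul_bdd hc hb
  have i1 := h1.mul_bdd hc hb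
  have key := integral_mul_deriv_eq_deriv_mul_of_integrable (fun t _ => h t) (fun t _ => hv t)
    (by simpa only [Pi.mul_def, mul_assoc] using i0.mul_const (l * Complex.I)) i1 i0
  simp only [← mul_assoc _ _ (l * Complex.I : ℂ)] at key
  rw [integral_mul_const] at key
  generalize (∫ t : ℝ, u t * Complex.exp (l * t * Complex.I)) = A at key
  generalize (∫ t : ℝ, u' t * Complex.exp (l * t * Complex.I)) = A' at key
  field_simp
  linear_combination (-Complex.I) * key + (l * A) * Complex.I_mul_I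

theorem xSmooth_ibp {K : ℂ → ℂ} {σ : ℝ} (hK : ∀ t : ℝ, AnalyticAt ℂ K (σ + t * Complex.I))
    {B : ℝ → ℝ} (hB : Integrable B)
    (h : ∀ j ≤ 2, ∀ t : ℝ, ‖iteratedDeriv j K (σ + t * Complex.I)‖ ≤ B t) {l : ℝ} (hl : 0 < l) :
    ‖∫ t : ℝ, K (σ + t * Complex.I) * Complex.exp (l * t * Complex.I)‖ ≤ (∫ t, B t) / l ^ 2 := by
  have d0 := fun t => (hK t).differentiableAt
  have d1 := fun t => (hK t).deriv.differentiableAt
  have d2 := fun t => (hK t).deriv.deriv.differentiableAt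
  have b2 : ∀ t : ℝ, ‖deriv (deriv K) (σ + t * Complex.I)‖ ≤ B t := fun t => by
    simpa [iteratedDeriv_succ] using h 2 le_rfl t
  have i0 := xSmooth_int d0 hB fun t => by simpa using h 0 (by norm_num) t
  have i1 := xSmooth_int d1 hB fun t => by simpa using h 1 (by norm_num) t
  have i2 := xSmooth_int d2 hB b2
  rw [xSmooth_ibp1 (xSmooth_line d0) i0 (i1.mul_const _) hl,
    xSmooth_ibp1 (fun t => (xSmooth_line d1 t).mul_const Complex.I) (i1.mul_const _)
      ((i2.mul_const _).mul_const _) hl, norm_mul, norm_mul, norm_div, Complex.norm_I,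
    Complex.norm_real, Real.norm_eq_abs, abs_of_pos hl]
  have := norm_integral_le_of_norm_le (f := fun t : ℝ =>
    deriv (deriv K) (σ + t * Complex.I) * Complex.I * Complex.I * Complex.exp (l * t * Complex.I))
    hB (Eventually.of_forall fun t => by
      rw [norm_mul, norm_mul, norm_mul, ← Complex.ofReal_mul, Complex.norm_exp_ofReal_mul_I]
      simpa using b2 t)
  calc _ ≤ 1 / l * (1 / l * ∫ t, B t) := by gcongr
    _ = _ := by ring

/-- The weight. -/
def xSmooth_w (κ : ℝ) (x : ℝ) : ℂ :=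
  indicator (Ioc 0 1) (fun _ => 1 : ℝ → ℂ) x - indicator (Ioc 0 1) (fun t => ↑t ^ (κ : ℂ) : ℝ → ℂ) x

theorem xSmooth_w_eq (κ : ℝ) {x : ℝ} (hx : 0 < x) :
    xSmooth_w κ x = ((1 - (min x 1) ^ κ : ℝ) : ℂ) := by
  unfold xSmooth_w
  rcases le_or_gt x 1 with h | h
  · rw [indicator_of_mem (show x ∈ Ioc 0 1 from ⟨hx, h⟩),
      indicator_of_mem (show x ∈ Ioc 0 1 from ⟨hx, h⟩), min_eq_left h, Complex.ofReal_sub,
      Complex.ofReal_cpow hx.le, Complex.ofReal_one]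
  · rw [indicator_of_notMem (fun h' => not_le.2 h h'.2),
      indicator_of_notMem (fun h' => not_le.2 h h'.2), min_eq_right h.le]
    simp

theorem xSmooth_inv {κ σ : ℝ} (hκ : 0 < κ) (hσ : 1 ≤ σ) {x : ℝ} (hx : 0 < x) :
    ∫ t : ℝ, (x : ℂ) ^ (-(σ + t * Complex.I)) * xSmooth_Ps κ (σ + t * Complex.I) =
      ((2 * π * (1 - (min x 1) ^ κ) : ℝ) : ℂ) := by
  have hm : ∀ s : ℂ, 0 < s.re → HasMellin (xSmooth_w κ) s (xSmooth_Ps κ s) := fun s hs => by
    have a := hasMellin_one_Ioc hs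
    have b := hasMellin_cpow_Ioc (κ : ℂ) (s := s) (by simp; linarith)
    have c := hasMellin_sub a.1 b.1
    rw [a.2, b.2] at c
    exact c
  have hr : ∀ t : ℝ, 0 < (σ + t * Complex.I : ℂ).re := fun t => by
    simp
    linarith
  have hc : ContinuousAt (xSmooth_w κ) x := by
    have : ContinuousAt (fun x : ℝ => ((1 - (min x 1) ^ κ : ℝ) : ℂ)) x :=
      Complex.continuous_ofReal.continuousAt.comp (continuousAt_const.sub
        (ContinuousAt.rpow_const (by fun_prop) (Or.inr hκ.le)))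
    refine this.congr ?_
    filter_upwards [lt_mem_nhds hx] with y hy using (xSmooth_w_eq κ hy).symm
  have h := mellinInv_mellin_eq σ (xSmooth_w κ) hx (hm σ (by simp; linarith)).1 (by
    unfold Complex.VerticalIntegrable
    simp only [fun t : ℝ => (hm _ (hr t)).2]
    exact xSmooth_Ps_int hκ hσ) hc
  unfold mellinInv at h
  simp only [fun t : ℝ => (hm _ (hr t)).2, smul_eq_mul] at h
  rw [xSmooth_w_eq κ hx, Complex.real_smul] at h
  rw [Complex.ofReal_mul, ← h, ← mul_assoc, ← Complex.ofReal_mul, mul_one_div_cancel (by positivity),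
    Complex.ofReal_one, one_mul]

end

end Pool.Agent.MP_88bd62_nt.U
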