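import Pool.Agent.MP_88bd62_nt.U.Defs

/-! The steps of the proof of the upper bound, as propositions. -/

namespace Pool.Agent.MP_88bd62_nt.U

open Finset Real Filter Topology
open ArithmeticFunction (cardFactors)
open scoped ENNReal

noncomputable section

/-! Kernel and Fourier analysis -/

def StKerA : Prop := ∀ N : ℕ, 1 ≤ N →
  (∀ y, 0 ≤ ker N y ∧ ker N y ≤ 3 / 2 * N) ∧ ∫ y in (0 : ℝ)..1, ker N y = 1 ∧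
    ∀ d : ℝ, 0 < d → d ≤ 1 → ∫ y in d..1, ker N y ≤ 0.09 / (N * d) ^ 3 + 4000 / (N : ℝ) ^ 3

def StKerB : Prop := ∀ N : ℕ, 1000 ≤ N → ∀ k : ℤ,
  0 ≤ wk N k ∧ wk N k ≤ 1 ∧ 1 - wk N k ≤ 1.501 * |(k : ℝ)| / (2 * N) ∧
    |(k : ℝ)| * wk N k ≤ 0.4 * N ∧ 1 - wk N k ≤ 1.6 * (k : ℝ) ^ 2 / (N : ℝ) ^ 2

def StKerC : Prop := ∀ N : ℕ, 10 ^ 6 ≤ N →
  ∫ y in (0 : ℝ)..1, y * ker N y ≤ 0.4225 / N ∧ ∫ y in (0 : ℝ)..1, y ^ 2 * ker N y ≤ 1 / (N : ℝ) ^ 2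

/-- The low pass polynomial is the average against the kernel. -/
def StLP : Prop := ∀ (N : ℕ) (a : ℕ → ℝ), 1 ≤ N → AC a → ∀ u : ℝ,
  IntervalIntegrable (fun y => ker N y * Phi a (u - y)) MeasureTheory.volume (-1) 1 ∧
    (((1 / 2 * ∫ y in (-1 : ℝ)..1, ker N y * Phi a (u - y) : ℝ)) : ℂ) = LPc N (Ser a) u

def StHP : Prop := ∀ (N : ℕ) (η A B : ℝ) (a νE : ℕ → ℝ) (νG : ℕ → ℝ≥0∞) (u u' : ℝ),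
  10 ^ 6 ≤ N → 0 ≤ η → η ≤ 1 / 1000 → 0 ≤ A → 0 ≤ B → (∀ n, 0 ≤ νE n) → Summable νE → IB νG A B →
  (∀ n, ENNReal.ofReal (|a n| / n) ≤ ENNReal.ofReal (νE n) + νG n) → |u - u'| ≤ η →
  AC a ∧ ‖(((2 : ℝ) ^ (u - u') * Phi a u : ℝ) : ℂ) - LPc N (Ser a) u'‖ ≤
    ∑' n, νE n * psi N η (dZ (u' - th n))
      + 1.007 * (A * (0.4225 / N + 3 * N * η ^ 2) + B * (1 / 2 + 3 / 2 * N * η))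
      + (A + 64 * B + ∑' n, νE n) / (N : ℝ) ^ 2

/-- From Poisson weights to the weights of a band. -/
def StW : Prop := ∀ (N N' : ℕ) (s C : ℝ), 1 ≤ N → N ≤ N' → 0 < s → 0 < C →
  ∑ k ∈ Kset N', min (s * |(k : ℝ)| / (2 * N)) C / (π * |(k : ℝ)|) ≤ (s + C * log (N' / N)) / π ∧
  ∀ (X : ℤ → ℝ) (q D E c a b : ℝ), (∀ k, 0 ≤ X k) → L2B X q D E → 0 ≤ E → 0 < c → 0 < a →
    a < b → b ≤ N / 5 → C / s ≤ N' / N →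
    C ≤ c * (exp (-(a * (C / s))) - exp (-(b * (C / s)))) →
    C ≤ c * (exp (-(a * (N' / N))) - exp (-(b * (N' / N)))) →
    ∑ k ∈ Kset N', min (s * |(k : ℝ)| / (2 * N)) C * X k / (π * |(k : ℝ)|) ≤
      c / π * ((q + E * b / (2 * N)) * (b - a) / (2 * N) + D * log (b / a))

def StBase : Prop :=
  (∀ (N : ℕ) (c : ℤ → ℂ) (a : ℕ → ℝ) (u : ℝ) (m : ℤ), ‖Psi N c a (u + m)‖ = ‖Psi N c a u‖) ∧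
  ∀ (N N' : ℕ) (a a' : ℕ → ℝ) (η u u' : ℝ), 1000 ≤ N → N ≤ N' → AC a → AC a' → 0 ≤ η →
    η ≤ 1 / 1000 → |u - u'| ≤ η →
    ‖Psi N FS a u‖ + Rem N N' 1.501 1 a ≤
      2 ^ η * (‖LPc N (fun k => FS k - Ser a' k) u' + (((2 : ℝ) ^ (u - u') * Phi a' u : ℝ) : ℂ)‖
        + ‖(((2 : ℝ) ^ (u - u') * Phi (a - a') u : ℝ) : ℂ) - LPc N (Ser (a - a')) u'‖)
      + Rem N N' (1.501 + 6.3 * N * η) (1 + 1.26 * N * η) a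

def StChain : Prop := ∀ (N : ℕ → ℕ) (a : ℕ → ℕ → ℝ) (B R : ℝ) (h r : ℕ → ℝ),
  1000 ≤ N 0 → Monotone N → (∀ i, AC (a i)) →
  (∀ u, ‖Psi (N 0) FS (a 0) u‖ + Rem (N 0) (N 1) 1.501 1 (a 0) ≤ B) →
  (∀ i u, ‖HP (N (i + 1)) (a (i + 1) - a i) u‖ ≤ h i) →
  (∀ i, Rem (N (i + 1)) (N (i + 2)) 1.501 1 (a (i + 1)) ≤ r i) →
  (∀ n, ∑ i ∈ range n, (h i + r i) ≤ R) →
  ∀ i u, ‖LPc (N (i + 1)) FS u‖ ≤ B + R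

/-! The Tauberian part -/

def StFo : Prop := ∀ s : ℂ, 1 < s.re →
  LSeriesSummable (fun n => (fo n : ℂ)) s ∧ LSeries (fun n => (fo n : ℂ)) s = FF s

def StSI : Prop := ∃ C : ℝ, ∀ y h : ℝ, 2 ≤ y → y ^ (0.8 : ℝ) ≤ h → h ≤ y →
  ∑ n ∈ Ioc ⌊y - h⌋₊ ⌊y⌋₊, |fo n| ≤ C * h * log y

def StZC : Prop := ∃ c C : ℝ, 0 < c ∧ ∀ (σ t : ℝ) (s : ℂ), 1 ≤ σ → σ ≤ 2 → 4 ≤ |t| →
  ‖s - (σ + t * Complex.I)‖ < c / log (|t| + 3) ^ 9 →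
  riemannZeta s ≠ 0 ∧ ‖(riemannZeta s)⁻¹‖ ≤ C * log (|t| + 3) ^ 7

def StFA : Prop := ∃ (G : ℂ → ℂ) (c C : ℝ), 0 < c ∧ (∀ s : ℂ, 1 < s.re → G s = FF s) ∧
  ∀ σ t : ℝ, 1 ≤ σ → σ ≤ 2 →
    DifferentiableOn ℂ G (Metric.ball (σ + t * Complex.I) (c / log (|t| + 3) ^ 9)) ∧
    ∀ s ∈ Metric.ball ((σ : ℂ) + t * Complex.I) (c / log (|t| + 3) ^ 9),
      ‖G s‖ ≤ C * (1 + |t|) ^ (1 / 8 : ℝ)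

/-- The smoothed sum is small. -/
def StSmooth : Prop := ∃ C : ℝ, ∀ y η : ℝ, 3 ≤ y → 0 < η → η ≤ 1 / 2 →
  |∑ n ∈ Icc 1 ⌊y⌋₊, fo n * (1 - (n / y) ^ (1 / η - 1))| ≤ C * y * η ^ (-(1 / 4) : ℝ) / log y ^ 2

def StTB : Prop := ∃ C : ℝ, ∀ y : ℝ, 2 ≤ y → |TT y| ≤ C * y / log y ^ (5 / 4 : ℝ)

def StTau1 : Prop := ∀ x : ℝ, 1 ≤ x →
  (∑ n ∈ Icc 1 ⌊x⌋₊, (-2 : ℝ) ^ cardFactors n) / x = TT x / (3 * x) + Phi (ax x) (logb 2 x)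

def StTau2 : Prop := ∀ ε : ℝ, 0 < ε → ∃ y₀ : ℝ, ∀ x y u : ℝ, y₀ ≤ y → y ≤ x →
  |Phi (ax x) u - Phi (ax y) u| ≤ ε

def StTau3 : Prop := ∀ k : ℤ, Odd k → Tendsto (fun x : ℝ => Ser (ax x) k) atTop (𝓝 (FS k))

def StTau4 : Prop := ∀ (y u ε : ℝ), 0 < ε → ∃ N₀ : ℕ, ∀ N, N₀ ≤ N → ∃ u' : ℝ,
  |Phi (ax y) u| ≤ ‖LPc N (Ser (ax y)) u'‖ + ε

def StTau : Prop := ∀ B : ℝ, (∀ J : ℕ, ∃ N, J ≤ N ∧ ∀ u, ‖LPc N FS u‖ ≤ B) →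
  limsup (fun x : ℝ => ((|∑ n ∈ Icc 1 ⌊x⌋₊, (-2 : ℝ) ^ cardFactors n| / x : ℝ) : EReal)) atTop
    ≤ (B : EReal)

/-! Exponential sums and the zeta function -/

def ex (x : ℝ) : ℂ := Complex.exp ((2 * π * x : ℝ) * Complex.I)

/-- Kuzmin and Landau, with decreasing weights. -/
def StKL : Prop := ∀ (φ w : ℕ → ℝ) (A B : ℕ) (ν : ℤ) (η₀ η₁ : ℝ), 0 < η₀ → 0 < η₁ →
  (∀ n, A ≤ n → n < B → ν + η₀ ≤ φ (n + 1) - φ n ∧ φ (n + 1) - φ n ≤ ν + 1 - η₁) →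
  (∀ n, A ≤ n → n + 1 < B → φ (n + 2) - φ (n + 1) ≤ φ (n + 1) - φ n) →
  (∀ n, A ≤ n → 0 ≤ w (n + 1) ∧ w (n + 1) ≤ w n) →
  ‖∑ n ∈ Ico A B, (w n : ℂ) * ex (φ n)‖ ≤ w A * (1 / (π * η₀) + 1 / (π * η₁))

/-- The same with the increments as weights. -/
def StKL0 : Prop := ∀ (φ : ℕ → ℝ) (A B : ℕ) (η₁ : ℝ), 0 < η₁ → A < B →
  (∀ n, A ≤ n → n < B → 0 < φ (n + 1) - φ n ∧ φ (n + 1) - φ n ≤ 1 - η₁) →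
  (∀ n, A ≤ n → n + 1 < B → φ (n + 2) - φ (n + 1) ≤ φ (n + 1) - φ n) →
  φ B - φ (B - 1) ≤ 1 / 100 →
  ‖∑ n ∈ Ico A B, ((φ (n + 1) - φ n : ℝ) : ℂ) * ex (φ n)‖ ≤
    (φ (A + 1) - φ A) * (1 / (π * η₁) + 1 / 2) + 2.001 / (2 * π)

/-- The blocks of the second derivative test. -/
def StBlock : Prop := ∀ (τ α : ℝ) (A : ℕ) (w : ℝ → ℝ), 400 ≤ τ → 0 ≤ α → α ≤ 1 → 2 * √τ ≤ A →
  AntitoneOn w (Set.Ici 1) → (∀ x, 1 ≤ x → 0 ≤ w x) →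
  ∃ A₀ : ℕ, A ≤ A₀ ∧ τ - 2 ≤ A₀ ∧ (A₀ = A ∨ (A₀ : ℝ) ≤ 2 * τ) ∧
    τ * log (1 + 1 / (A₀ + α)) ≤ 1 - 1 / √(π * τ) ∧
    ‖∑ n ∈ Ico A A₀, (w (n + α) : ℂ) * ex (τ * log (n + α))‖ ≤
      ∑ ν ∈ Icc 1 ⌊1.04 * τ / A⌋₊, blk τ ν * w (max A (τ / (ν + 1) - 1))

def StEM : Prop := ∀ (s : ℂ) (N : ℕ), 0 ≤ s.re → s ≠ 1 → 1 ≤ N →
  ‖riemannZeta s - ∑ n ∈ Icc 1 N, (n : ℂ) ^ (-s) - ((N : ℂ) + 1 / 2) ^ (1 - s) / (s - 1)‖ ≤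
    ‖s‖ * ‖s + 1‖ / 24 * ((N : ℝ) - 1 / 2) ^ (-s.re - 1) / (s.re + 1)

def StEM1 : Prop := ∀ (t : ℝ) (N : ℕ), t ≠ 0 → 1000 ≤ N →
  ‖riemannZeta (1 + t * Complex.I) - ∑ n ∈ Ico 1 N, (n : ℂ) ^ (-(1 + t * Complex.I))
      - (N : ℂ) ^ (-(1 + t * Complex.I)) / 2 - (N : ℂ) ^ (-(t * Complex.I)) / (t * Complex.I)‖ ≤
    (|t| + 6) ^ 2 / (47 * (N : ℝ) ^ 2)

def StTail : Prop := ∀ (t : ℝ) (A : ℕ), 400 ≤ |t| / (2 * π) → 2 * √(|t| / (2 * π)) ≤ A →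
  ‖riemannZeta (1 + t * Complex.I) - ∑ n ∈ Ico 1 A, (n : ℂ) ^ (-(1 + t * Complex.I))‖ ≤
      tailB (|t| / (2 * π)) A + 3.01 / |t| ∧
  ‖(1 - (2 : ℂ) ^ (-(1 + t * Complex.I))) * riemannZeta (1 + t * Complex.I)
      - ∑ j ∈ range A, ((2 * j + 1 : ℕ) : ℂ) ^ (-(1 + t * Complex.I))‖ ≤
      tailB (|t| / (2 * π)) A / 2 + 2.6 / |t|

/-- A finite sum of decreasing exponentials. -/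
def ExpSum (G : ℝ → ℝ) : Prop := ∃ (n : ℕ) (a b : Fin n → ℝ),
  (∀ i, 0 ≤ a i ∧ 0 < b i ∧ b i ≤ 1) ∧ ∀ σ, G σ = ∑ i, a i * b i ^ σ

def StZ2a : Prop := ∀ t : ℝ, 400 ≤ |t| / (2 * π) → ∃ G : ℝ → ℝ, ExpSum G ∧
  (∀ σ : ℝ, 0 ≤ σ → σ ≤ 2 → ‖riemannZeta (σ + t * Complex.I)‖ ≤ G σ) ∧
  G 0 ≤ √(|t| / (2 * π)) * (1.132 * log (|t| / (2 * π)) + 4.45) ∧
  G (1 / 2) ≤ 6.6 * √√(|t| / (2 * π)) + 3 ∧ G 1 ≤ log (|t| / (2 * π)) / 2 + 3.1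

def StZ2 : Prop := ∀ (L t u σ : ℝ), 17 ≤ L → 2 ≤ |t| → |t| ≤ 2 * π * exp L → 0 ≤ u → u ≤ 1 →
  1 - u ≤ σ → ‖riemannZeta (σ + t * Complex.I)‖ ≤ exp (al0 L + al1 L * u + al2 L * u ^ 2)

def StDiscA : Prop := ∀ (f : ℂ → ℂ) (a : ℂ), DifferentiableOn ℂ f (Metric.ball a (3 / 2)) →
  f a ≠ 0 → ∃ (r R : ℝ) (Z : Finset ℂ) (m : ℂ → ℕ) (G : ℂ → ℂ), 0.999 ≤ r ∧ r ≤ 1 ∧ r < R ∧
    R ≤ 3 / 2 ∧ DifferentiableOn ℂ G (Metric.ball a R) ∧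
    (∀ ρ ∈ Z, ‖ρ - a‖ < r ∧ f ρ = 0 ∧ 1 ≤ m ρ ∧
      ∀ z ∈ Metric.ball a R, (r : ℂ) ^ 2 - (starRingEnd ℂ) (ρ - a) * (z - a) ≠ 0) ∧
    (∀ ρ, ‖ρ - a‖ ≤ r → f ρ = 0 → ρ ∈ Z) ∧
    ∀ z ∈ Metric.ball a R, f z = Complex.exp (G z) * ∏ ρ ∈ Z, bl a r ρ z ^ m ρ

/-- Bounds for a holomorphic function from bounds of its real part on a circle. -/
def StDiscB : Prop := ∀ (G : ℂ → ℂ) (a : ℂ) (r R a0 a1 a2 : ℝ), 0.999 ≤ r → r ≤ 1 → r < R →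
  DifferentiableOn ℂ G (Metric.ball a R) → 2.4 ≤ a0 → 0 ≤ a1 → 0 ≤ a2 →
  (∀ z u, ‖z - a‖ = r → 0 ≤ u → u ≤ 1 → -u ≤ (z - a).re → (G z).re ≤ a0 + a1 * u + a2 * u ^ 2) →
  (∀ z, ‖z - a‖ = r → 0 < (z - a).re → |(G z).re| ≤ log (1 + 1 / (z - a).re)) →
  -(deriv G a).re ≤ Kg a0 a1 a2 ∧ ∀ η : ℝ, 0 < η → η ≤ 1 / 50 →
    (1 + 2 * (η / r) / (1 - η / r)) * (G a).re
      - 2 * (η / 0.999) * (1 + η / 0.999) / (1 - η / 0.999) ^ 3 * Jg a0 a1 a2 ≤ (G (a - η)).re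

/-- The factors of the canonical product. -/
def StDiscC : Prop := ∀ (a ρ : ℂ) (r : ℝ), 0.999 ≤ r → r ≤ 1 → ‖ρ - a‖ < r → 0 < (a - ρ).re →
  (∀ z, ‖z - a‖ = r → ‖bl a r ρ z‖ = 1) ∧ ‖bl a r ρ a‖ ≤ 1 ∧ bl a r ρ a ≠ 0 ∧
  DifferentiableAt ℂ (bl a r ρ) a ∧
  (deriv (bl a r ρ) a / bl a r ρ a).re = (a - ρ).re * (1 / ‖a - ρ‖ ^ 2 - 1 / r ^ 2) ∧
  ∀ η δ : ℝ, 0 < η → η ≤ 1 / 50 → 0 < δ → η + δ ≤ (a - ρ).re → bl a r ρ (a - η) ≠ 0 ∧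
    log ‖bl a r ρ a‖ - (a - ρ).re * (1 / ‖a - ρ‖ ^ 2 - 1 / r ^ 2)
      * ((η + δ) * log (1 + η / δ)) / (1 - η / 0.999) ≤ log ‖bl a r ρ (a - η)‖

def StDisc : Prop := ∀ (f : ℂ → ℂ) (a : ℂ) (a0 a1 a2 : ℝ),
  DifferentiableOn ℂ f (Metric.ball a (3 / 2)) → f a ≠ 0 → 2.4 ≤ a0 → 0 ≤ a1 → 0 ≤ a2 →
  (∀ ρ, ‖ρ - a‖ ≤ 1 → f ρ = 0 → 0 < (a - ρ).re) →
  (∀ z u, ‖z - a‖ ≤ 1 → 0 ≤ u → u ≤ 1 → -u ≤ (z - a).re → ‖f z‖ ≤ exp (a0 + a1 * u + a2 * u ^ 2)) →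
  (∀ z, ‖z - a‖ ≤ 1 → 0 < (z - a).re → |log ‖f z‖| ≤ log (1 + 1 / (z - a).re)) →
  ∃ S : ℝ, 0 ≤ S ∧ -(deriv f a / f a).re ≤ Kg a0 a1 a2 - S ∧
    (∀ ρ, ‖ρ - a‖ < 0.999 → f ρ = 0 → (a - ρ).re * (1 / ‖a - ρ‖ ^ 2 - 1.003) ≤ S) ∧
    ∀ η δ ℓ : ℝ, 0 < η → η ≤ 1 / 50 → 0 < δ → 0 ≤ ℓ →
      (∀ ρ, ‖ρ - a‖ ≤ 1 → f ρ = 0 → η + δ ≤ (a - ρ).re) → -ℓ ≤ log ‖f a‖ →
      exp (-lvG ℓ S (Jg a0 a1 a2) η δ) ≤ ‖f (a - η)‖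

def StTrig : Prop := ∀ η t : ℝ, 0 < η → η ≤ 1 / 20 →
  0 ≤ ta 0 * (1 / η - 0.4) + ∑ j ∈ Icc 1 4, ta j *
    -(deriv riemannZeta ((1 + η : ℝ) + (j * t : ℝ) * Complex.I) /
      riemannZeta ((1 + η : ℝ) + (j * t : ℝ) * Complex.I)).re

def StInv : Prop :=
  (∀ s : ℂ, 1 < s.re → |log ‖riemannZeta s‖| ≤ log (1 + 1 / (s.re - 1))) ∧
  ∀ s : ℂ, 1 < s.re → s.re ≤ 1.02 → 1.6 / (1 / (s.re - 1) + 1) ≤ ‖riemannZeta s‖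

def StH : Prop := ∀ k : ℤ, Odd k →
  riemannZeta (sk k) ≠ 0 ∧ ‖FS k‖ ≤ 2.35 * (4 / 9) / ‖riemannZeta (sk k)‖ ^ 2

def StZF : Prop := ∀ (T KK η₀ δ : ℝ) (L : ℕ → ℝ), ZOK T L KK → 0 < η₀ → η₀ ≤ 1 / 50 → 0 < δ →
  δ ≤ 1 / 50 → Sbar KK η₀ ≤ 1 / (η₀ + δ) - 1.003 * (η₀ + δ) → ZF T δ ∧
  ∀ η t : ℝ, 0 < η → η ≤ 1 / 50 → 4 ≤ |t| → |t| ≤ T - 1 →
    exp (-lvG (log ((1 / η + 1) / 1.6)) (Sbar KK η) (Jf (L 1)) η δ) ≤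
      ‖riemannZeta (1 + t * Complex.I)‖

/-- Taylor expansion of a function with bounded real part. -/
def StCar : Prop := ∀ (G : ℂ → ℂ) (b w : ℂ) (R M : ℝ) (K : ℕ),
  DifferentiableOn ℂ G (Metric.ball b R) → (∀ z ∈ Metric.ball b R, (G z).re ≤ M) → ‖w‖ < R →
  1 ≤ K → ‖G (b + w) - ∑ i ∈ range K, iteratedDeriv i G b / i.factorial * w ^ i‖ ≤
    2 * (M - (G b).re) * (‖w‖ / R) ^ K / (1 - ‖w‖ / R)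

def StS2 : Prop := ∀ j : ℕ, 3 ≤ j →
  Summable (fun n : ℕ => if n.Coprime 210 ∧ 2 ^ j < n then 1 / (n : ℝ) ^ 2 else 0) ∧
  ∑' n : ℕ, (if n.Coprime 210 ∧ 2 ^ j < n then 1 / (n : ℝ) ^ 2 else 0) ≤ S2 j

/-- Extrapolation of the logarithm of the zeta function without the small primes. -/
def StEx1 : Prop := ∀ (j K : ℕ) (x δ M : ℝ) (k : ℤ), 20 ≤ j → 1 ≤ K → 0 < x → 0 < δ →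
  x + δ ≤ 1 / 4 → Odd k →
  (∀ s ∈ Metric.ball (sk k + x) (x + δ), riemannZeta s ≠ 0 ∧
    ‖riemannZeta s * ∏ p ∈ (Icc 1 (2 ^ j)).filter Nat.Prime, (1 - (p : ℂ) ^ (-s))‖ ≤ exp M) →
  ∃ E : ℂ, ‖E‖ ≤ 2 * (M + log (1 + 1 / x)) * (x / (x + δ)) ^ K / (1 - x / (x + δ)) + 0.5001 * S2 j ∧
    riemannZeta (sk k) * ∏ p ∈ (Icc 1 (2 ^ j)).filter Nat.Prime, (1 - (p : ℂ) ^ (-sk k)) =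
      Complex.exp (LL j (fun p => gam x K (log p)) k + E)

def StEx : Prop := ∀ (j K : ℕ) (x δ T L Mb ε : ℝ), 20 ≤ j → 1 ≤ K → 0 < x → 0 < δ →
  x + δ ≤ 1 / 4 → 17 ≤ L → T ≤ 2 * π * exp L → ZF T δ → Mz j ≤ Mb →
  2 * (2 * (al0 L + al1 L * δ + al2 L * δ ^ 2 + 2 ^ (j * δ) * (1.18 + log Mb) + log (1 + 1 / x))
      * (x / (x + δ)) ^ K / (1 - x / (x + δ))
    + (x * (2 * j * log 2)) ^ K / K.factorial * (j * log 2)) + 4.01 * S2 j ≤ ε →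
  ∀ k : ℤ, Odd k → |tk k| ≤ T - 1 → ∃ E : ℂ, ‖E‖ ≤ ε ∧
    FS k = Fz j (sk k) * Complex.exp (-2 * LL j (ct j x K) k + E)

def StPt : Prop := ∀ (A L E F : ℂ) (a f ε : ℝ), F = A * Complex.exp (-2 * L + E) → ‖A‖ ≤ a →
  ‖F‖ ≤ f → ‖E‖ ≤ ε → ε ≤ 1 / 100 →
  ‖F - A * (1 - 2 * L)‖ ≤ 1.01 * f * ε + (4 / 3 * a + 2 / 3 * f * (1 + 1.01 * ε)) * ‖L‖ ^ 2 ∧
  ∀ x₀ lam : ℝ, 0 < x₀ → a * (exp (2 * x₀) - 1 - 2 * x₀) ≤ lam * x₀ ^ 2 →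
    f * (1 + 1.01 * ε) + a * (1 + 2 * x₀) ≤ lam * x₀ ^ 2 →
    ‖F - A * (1 - 2 * L)‖ ≤ 2.02 * a * ε + (lam + 1.01 * ε * (a + lam)) * ‖L‖ ^ 2

def StChern : Prop := ∀ (j K J : ℕ) (x g θ : ℝ), 1 ≤ K → 0 < x → 0 < g → g < 1 → 2 * j < J →
  2 ^ (-(g * x)) ≤ θ → θ ≤ 1 → K * log (1 / (1 - g)) ≤ g * x * (((J : ℝ) - 1 / 64) * log 2) →
  Lev (ct j x K) J θ

def StFz : Prop := ∀ (j : ℕ) (k : ℤ), ‖Fz j (sk k)‖ ≤ Fb j ∧ ∀ (j₀ : ℕ) (V S : ℝ), j₀ ≤ j →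
  ‖∑ p ∈ Pr j₀, ((1 / p : ℝ) : ℂ) * ee k (-th p)‖ ≤ V → S ≤ ∑ p ∈ Pr j₀, (1 / p : ℝ) →
  ‖Fz j (sk k)‖ ≤ Fb j * exp (2 * V - 2 * S)

def StSer : Prop := ∀ (j J : ℕ) (c : ℕ → ℝ) (θ : ℝ), 1 ≤ j → Lev c J θ → 0 < θ → θ < 1 →
  AC (pc j c) ∧ ∀ k : ℤ, Ser (pc j c) k = Fz j (sk k) * (1 - 2 * LL j c k)

/-! Sieve and counting -/

def StCount : Prop := (∀ X h : ℝ, 0 ≤ X → 0 ≤ h →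
    (((Ioc ⌊X⌋₊ ⌊X + h⌋₊).filter Odd).card : ℝ) ≤ h / 2 + 1 ∧
    (((Ioc ⌊X⌋₊ ⌊X + h⌋₊).filter fun n => n.Coprime 210).card : ℝ) ≤ 8 / 35 * h + 3.03) ∧
  ∀ t : ℝ, 1 ≤ t →
    ∑ n ∈ (Icc 1 ⌊t⌋₊).filter (fun n => n.Coprime 210), (1 / n : ℝ) ≤ 1 + 8 / 35 * log t

def StSel : Prop := ∀ (R : ℕ) (X h : ℝ), 2 ≤ R → (R : ℝ) ≤ X → 0 ≤ h →
  (((Ioc ⌊X⌋₊ ⌊X + h⌋₊).filter Nat.Prime).card : ℝ) ≤ h / log R + (R : ℝ) ^ 2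

def StMert : Prop := ∀ y x : ℕ, 2 ^ 20 ≤ y → y ≤ x →
  ∑ p ∈ (Ioc y x).filter Nat.Prime, (1 / p : ℝ) ≤ log (log x / log y) + 1.42 / log y

def StGrow : Prop := ∀ j : ℕ, 20 ≤ j →
  Fb j ≤ Fb 20 * exp (2.0001 * (log (j / 20) + eM 20)) ∧
  Mz j ≤ Mz 20 * exp (1.0001 * (log (j / 20) + eM 20))

def StIB : Prop :=
  (∀ (ν μ : ℕ → ℝ≥0∞) (a b : ℝ), (∀ n, ν n ≤ μ n) → IB μ a b → IB ν a b) ∧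
  (∀ (ν : ℕ → ℝ≥0∞) (a b a' b' : ℝ), a ≤ a' → b ≤ b' → IB ν a b → IB ν a' b') ∧
  (∀ (ν μ : ℕ → ℝ≥0∞) (a b a' b' : ℝ), 0 ≤ a → 0 ≤ b → 0 ≤ a' → 0 ≤ b' → IB ν a b → IB μ a' b' →
    IB (ν + μ) (a + a') (b + b')) ∧
  (∀ (ν μ : ℕ → ℝ≥0∞) (m a b : ℝ), 0 ≤ m → ∑' n, ν n ≤ ENNReal.ofReal m → IB μ a b →
    IB (conv ν μ) (m * a) (m * b)) ∧
  (∀ ν μ : ℕ → ℝ≥0∞, ∑' n, conv ν μ n ≤ (∑' n, ν n) * ∑' n, μ n) ∧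
  ∀ (ν : ℕ → ℝ≥0∞) (j₀ : ℕ) (α β : ℕ → ℝ) (a b : ℝ), (∀ n, n ≤ 2 ^ j₀ → ν n = 0) →
    (∀ j, 0 ≤ α j ∧ 0 ≤ β j) →
    (∀ j : ℕ, j₀ ≤ j → ∀ x l : ℝ, (2 : ℝ) ^ ((j : ℝ) - 1 / 64) ≤ x →
      x < (2 : ℝ) ^ ((j : ℝ) + 1 - 1 / 64) → 0 ≤ l → l ≤ 1 / 64 →
      ∑ n ∈ Ioc ⌊x⌋₊ ⌊x * 2 ^ l⌋₊, ν n ≤ ENNReal.ofReal (α j * l + β j)) →
    (∀ n, ∑ j ∈ Ico j₀ n, α j ≤ a) → (∀ n, ∑ j ∈ Ico j₀ n, β j ≤ b) → IB ν a b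

def StPrIB : Prop := ∀ (jz jo j₀ j₁ J : ℕ) (g θ : ℝ) (c : ℕ → ℝ), LOK jz jo j₀ j₁ J g θ →
  Lev c J θ → IB (muP jz c) (aP jz jo j₀ j₁ J g θ) (bP jz jo j₀ j₁ g)

/-- The Poisson kernel on the circle of length two. -/
def pk (l v : ℝ) : ℝ := (1 - exp (-l) ^ 2) / (1 - 2 * exp (-l) * cos (π * v) + exp (-l) ^ 2) / 2

def StPois : Prop := ∀ l : ℝ, 0 < l → l ≤ 1 / 10 →
  (∀ (S : Finset ℤ) (P : Finset ℕ) (μ : ℕ → ℝ), (∀ k ∈ S, Odd k) → (∀ p, 0 ≤ μ p) →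
    ∑ k ∈ S, exp (-(l * |(k : ℝ)|)) * ‖∑ p ∈ P, (μ p : ℂ) * ee k (-th p)‖ ^ 2 ≤
      (∑ p ∈ P, μ p ^ 2) / l
        + 2 * ∑ p ∈ P, μ p * ∑ p' ∈ P.filter (p < ·), μ p' * pk l (th p' - th p)) ∧
  ∀ {ι : Type} (I : Finset ι) (μ v : ι → ℝ) (a b : ℝ), (∀ i, 0 ≤ μ i) → 0 ≤ a → 0 ≤ b →
    (∀ r : ℝ, 0 < r → r ≤ 1 / 64 →
      ∑ i ∈ I.filter (fun i => dZ (v i / 2) < r / 2), μ i ≤ a * (2 * r) + b) →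
    ∑ i ∈ I, μ i * pk l (v i) ≤ a + 1.001 * b / l + 420 * l * ∑ i ∈ I, μ i

/-- Mean square bound in terms of sums over levels. -/
def StL2a : Prop := ∀ (jz jl J : ℕ) (θ q D At : ℝ) (c sl el Ab : ℕ → ℝ), 3 ≤ jz → jz ≤ jl →
  Lev c J θ → 0 < θ → θ < 1 → Cnt sl el jl → sl jl ≤ 1 → (∀ j, jl ≤ j → sl (j + 1) ≤ sl j) →
  (∀ j, jz ≤ j → ∑ p ∈ (Ioo (2 ^ jz) (2 ^ (j + 1))).filter Nat.Prime, c p / p ≤ Ab j) →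
  (∀ j, Ab j ≤ At) →
  (∀ n, 1.011 * log 2 * ∑ j ∈ Ico jz n, (if j < jl then 1 else sl j) * θ ^ (j - J) * Ab j ≤ q) →
  (∀ n, S2 jz + 2.025 * ∑ j ∈ Ico jl n, el j / 2 ^ j * Ab j ≤ D) →
  L2B (fun k => ‖LL jz c k‖ ^ 2) q D (420 * At ^ 2)

def StL2 : Prop := ∀ (jz jl j₀ j₁ J : ℕ) (g θ : ℝ) (c : ℕ → ℝ), LOK jz jl j₀ j₁ J g θ →
  Lev c J θ → L2B (fun k => ‖LL jz c k‖ ^ 2) (qP jz jl j₀ j₁ J g θ) (DP jz jl j₀ j₁ J g θ)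
    (420 * Atot jz j₀ J g θ ^ 2)

def StCrude : Prop :=
  (∀ n : ℕ, n.Coprime 210 → (n.divisors.card : ℝ) ≤ 2.05 * (n : ℝ) ^ (1 / 5 : ℝ)) ∧
  IB (nuD fun m => 2 ^ 20 < m ∧ m ≤ 2 ^ 30) 172 0.000122 ∧ IB (nuD fun m => m ≤ 2 ^ 20) 100 2.1

def StHy : Prop := ∀ jY jD : ℕ, jY ≤ 2 * jD →
  IB (nuD fun m => 2 ^ jY < m ∧ m ≤ 4 ^ jD) (aHy jY jD) (bHy jY)

def StGr : Prop := ∀ (jz jD : ℕ) (M : ℝ), Mz jz ≤ M →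
  IB (nuD fun m => 4 ^ jD < m ∧ Sm jz m) (aGr jz M) (bGr jD M)

open Classical in
def StMass : Prop := ∑' n, nuS n ≤ ENNReal.ofReal 7 ∧ ∑' n, nuH n ≤ ENNReal.ofReal 1.037 ∧
  (∀ j, ∑' n, nuF j n ≤ ENNReal.ofReal (Fb j)) ∧
  ∀ j, 10 ≤ j → ∑' n, (if Sm j n then 0 else nuH n) ≤ ENNReal.ofReal (1.05 * S2 j)

/-- The factorisation of `2 ^ Ω` on odd numbers. -/
def StFac : Prop := ∀ n : ℕ, Odd n →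
  ENNReal.ofReal (2 ^ cardFactors n / n) ≤ conv (conv nuS nuH) (nuD fun _ => True) n

def nuE (n : ℕ) : ℝ := Eint fun m => if m = n then 1 else 0

def StEint : Prop := (∀ n, 0 ≤ nuE n) ∧ Summable nuE ∧ ∑' n, nuE n ≤ 1000 ∧
  ∀ φ : ℕ → ℝ, ∑' n, nuE n * φ n = Eint φ

/-- The explicit nodes carry the product of the three small measures up to a small mass. -/
def StMajE : Prop := ∃ νr : ℕ → ℝ≥0∞, ∑' n, νr n ≤ ENNReal.ofReal 0.00035 ∧ ∀ n, n ∉ E0 →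
  conv (conv nuS nuH) (nuD fun m => m ≤ 2 ^ 20) n ≤
    ENNReal.ofReal (nuE n) + conv νr (nuD fun m => m ≤ 2 ^ 20) n

def StMaj1 : Prop := ∀ (c : ℕ → ℝ) (jD : ℕ), (∀ p, 0 ≤ c p ∧ c p ≤ 1) → ∀ n,
  ENNReal.ofReal (|(pc 20 c - a1) n| / n) ≤
    (if n ∈ E0 then 0 else conv (conv nuS nuH) (nuD fun m => m ≤ 2 ^ 20) n)
    + conv (conv nuS nuH) ((nuD fun m => 2 ^ 20 < m ∧ m ≤ 2 ^ 30)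
        + (nuD fun m => 2 ^ 30 < m ∧ m ≤ 4 ^ jD) + nuD fun m => 4 ^ jD < m ∧ Sm 20 m) n
    + conv (nuF 20) (muP 20 c + muP 20 c) n

open Classical in
def StMaj2 : Prop := ∀ (j j' jD : ℕ) (c c' cb : ℕ → ℝ), 3 ≤ j → j ≤ j' → j' ≤ 2 * j →
  (∀ p, 0 ≤ c p ∧ c p ≤ cb p ∧ 0 ≤ c' p ∧ c' p ≤ cb p) → (∀ p, p ≤ 4 ^ j → c p = 1) → ∀ n,
  ENNReal.ofReal (|(pc j' c' - pc j c) n| / n) ≤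
    conv (conv nuS nuH) ((nuD fun m => 2 ^ (2 * j) < m ∧ m ≤ 4 ^ jD)
        + nuD fun m => 4 ^ jD < m ∧ Sm j' m) n
    + conv (conv nuS fun h => if Sm j h then 0 else nuH h) ((nuD fun m => m ≤ 2 ^ 20)
        + (nuD fun m => 2 ^ 20 < m ∧ m ≤ 2 ^ 30) + (nuD fun m => 2 ^ 30 < m ∧ m ≤ 4 ^ jD)
        + nuD fun m => 4 ^ jD < m ∧ Sm j' m) n
    + conv (nuF j') (muP j' cb + muP j' cb) n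

/-! The stages -/

/-- The representation on the whole band. -/
def StX : Prop := ∀ P : Par, XOK P → Mz P.jz ≤ P.Mb →
  Lev P.w P.J P.θ ∧ AC P.ap ∧ ∀ k ∈ Kset (2 ^ P.n'), 4 ≤ |tk k| ∧ |tk k| ≤ P.T - 1 ∧
    Ser P.ap k = Fz P.jz (sk k) * (1 - 2 * LL P.jz P.w k) ∧
    ∃ E : ℂ, ‖E‖ ≤ P.ε ∧ FS k = Fz P.jz (sk k) * Complex.exp (-2 * LL P.jz P.w k + E)

def StRemG : Prop := ∀ (P : Par) (r : ℝ), XOK P → LB P → ROK P r → Mz P.jz ≤ P.Mb →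
  Fb P.jz ≤ P.A → Rem (2 ^ P.n) (2 ^ P.n') 1.501 1 P.ap ≤ r

def StRem0 : Prop := ∀ (P : Par) (m j₀ : ℕ) (za zb V S s C c a b c' a' b' la lb r : ℝ),
  XOK P → LB P → Mz P.jz ≤ P.Mb → Fb P.jz ≤ P.A → P.n ≤ m → m ≤ P.n' → j₀ ≤ P.jz →
  NumB (2 ^ m) za → NumB (2 ^ P.n') zb → NumC j₀ (2 ^ m) V → S ≤ ∑ p ∈ Pr j₀, (1 / p : ℝ) →
  R0OK P m za zb V S s C c a b c' a' b' la lb r → Rem (2 ^ P.n) (2 ^ P.n') s C P.ap ≤ r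

def StHPG : Prop := ∀ (P : Par) (j : ℕ) (c : ℕ → ℝ) (h : ℝ), XOK P → PB P → HOK P j h →
  Mz P.jz ≤ P.Mb → Fb P.jz ≤ P.A → Lev c P.J P.θ → (∀ p, p ≤ 4 ^ j → c p = 1) →
  ∀ u, ‖HP (2 ^ P.n) (P.ap - pc j c) u‖ ≤ h

def StHP0 : Prop := ∀ (P : Par) (η h u u' : ℝ), XOK P → PB P → P.n = 20 → P.jz = 20 → 15 ≤ P.jD →
  Mz P.jz ≤ P.Mb → Fb P.jz ≤ P.A → 0 ≤ η → η ≤ 1 / 1000 → |u - u'| ≤ η →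
  hpCost (2 ^ 20) η (A0 P) (B0 P) 1000 ≤ h →
  ‖(((2 : ℝ) ^ (u - u') * Phi (P.ap - a1) u : ℝ) : ℂ) - LPc (2 ^ 20) (Ser (P.ap - a1)) u'‖ ≤
    Bexp η u' + h

def StP0X : Prop := XOK par0
def StP0L : Prop := LB par0 ∧ PB par0
def StP0R : Prop :=
  R0OK par0 23 (1 / 6) (1 / 10) 1.23 2.1678 1.895 1.079 23.1 0.091 0.18 11.9 0.193 0.31 72.5 378
    0.00205 ∧
  R0OK par0 23 (1 / 6) (1 / 10) 1.23 2.1678 3.076 1.315 24.8 0.087 0.22 11.8 0.194 0.34 72.5 378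
    0.00298 ∧
  hpCost (2 ^ 20) (1 / 2 ^ 24) (A0 par0) (B0 par0) 1000 ≤ 0.00665 ∧
  hpCost (2 ^ 20) (1 / 2 ^ 22) (A0 par0) (B0 par0) 1000 ≤ 0.00947
def StP1X : Prop := XOK par1 ∧ GOK par1
def StP1L : Prop := LB par1 ∧ PB par1
def StP1R : Prop := ROK par1 0.00437 ∧ HOK par1 20 0.00033
def StP2X : Prop := XOK par2 ∧ GOK par2
def StP2L : Prop := LB par2 ∧ PB par2
def StP2R : Prop := ROK par2 0.00088 ∧ HOK par2 27 0.00006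
def StP3X : Prop := XOK par3 ∧ GOK par3
def StP3L : Prop := LB par3 ∧ PB par3
def StP3R : Prop := ROK par3 0.000012 ∧ HOK par3 30 0.000001
def StPTX : Prop := ∀ n : ℕ, 64 ≤ n → XOK (parT n) ∧ GOK (parT n)
def StPTL : Prop := ∀ n : ℕ, 64 ≤ n → LB (parT n) ∧ PB (parT n)
def StPTR : Prop := ∀ n j : ℕ, 64 ≤ n → j ≤ n → n ≤ 2 * j →
  ROK (parT n) (1 / 2 ^ (n / 4)) ∧ HOK (parT n) j (1 / 2 ^ (n / 4))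

/-- All stages after the first. -/
def StLater : Prop := NumS → ∀ B : ℝ,
  (∀ u, ‖Psi (2 ^ 20) FS par0.ap u‖ + Rem (2 ^ 20) (2 ^ 25) 1.501 1 par0.ap ≤ B) →
  ∀ J : ℕ, ∃ N, J ≤ N ∧ ∀ u, ‖LPc N FS u‖ ≤ B + 0.0057

/-- The first stage. -/
def StFirst : Prop := NumS → NumB (2 ^ 23) (1 / 6) → NumB (2 ^ 25) (1 / 10) →
  NumC 16 (2 ^ 23) 1.23 → ∀ tf tm B : ℝ, NumA tf tm → tf ≤ 1 → tm ≤ 1 → tf + 0.00871 ≤ B →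
  tm + 0.01246 ≤ B →
  ∀ u, ‖Psi (2 ^ 20) FS par0.ap u‖ + Rem (2 ^ 20) (2 ^ 25) 1.501 1 par0.ap ≤ B

end

end Pool.Agent.MP_88bd62_nt.U
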