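import Pool.Agent.MP_88bd62_nt.U.Stmts

/-! The first stage on one grid. -/

namespace Pool.Agent.MP_88bd62_nt.U

open Finset Real

noncomputable section

def NumA1 (t : ℝ) : Prop := ∀ u : ℝ, 0 ≤ u → u < 1 → ∃ u' : ℝ,
  |u - u'| ≤ 1 / 2 ^ 23 ∧ lowA u u' + Bexp (1 / 2 ^ 23) u' ≤ t

def StP0M : Prop :=
  R0OK par0 23 (1 / 6) (1 / 10) 1.23 2.1678 2.289 1.158 22.7 0.091 0.2 10.6 0.188 0.33 72.5 378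
    0.00236 ∧
  hpCost (2 ^ 20) (1 / 2 ^ 23) (A0 par0) (B0 par0) 1000 ≤ 0.00733

def StFirst1 : Prop := NumS → NumB (2 ^ 23) (1 / 6) → NumB (2 ^ 25) (1 / 10) →
  NumC 16 (2 ^ 23) 1.23 → ∀ t : ℝ, NumA1 t → t ≤ 1 →
  ∀ u, ‖Psi (2 ^ 20) FS par0.ap u‖ + Rem (2 ^ 20) (2 ^ 25) 1.501 1 par0.ap ≤ t + 0.0097

end

end Pool.Agent.MP_88bd62_nt.U
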