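import Pool.Agent.MP_88bd62_nt.U.ANum
import Pool.Agent.MP_88bd62_nt.U.AMk
import Pool.Agent.MP_88bd62_nt.U.ALg
import Pool.Agent.MP_88bd62_nt.U.ARt
import Pool.Agent.MP_88bd62_nt.U.ASp
import Pool.Agent.MP_88bd62_nt.U.ANd
import Pool.Agent.MP_88bd62_nt.U.ABt
import Pool.Agent.MP_88bd62_nt.U.ABlk
import Pool.Agent.MP_88bd62_nt.U.ATree
import Pool.Agent.MP_88bd62_nt.U.ARamp
import Pool.Agent.MP_88bd62_nt.U.AChk
import Pool.Agent.MP_88bd62_nt.U.AZ
import Pool.Agent.MP_88bd62_nt.U.AGrid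
import Pool.Agent.MP_88bd62_nt.U.ALD
import Pool.Agent.MP_88bd62_nt.U.AIsp
import Pool.Agent.MP_88bd62_nt.U.ALH
import Pool.Agent.MP_88bd62_nt.U.ADH
import Pool.Agent.MP_88bd62_nt.U.AMw
import Pool.Agent.MP_88bd62_nt.U.ARc
import Pool.Agent.MP_88bd62_nt.U.AK
import Pool.Agent.MP_88bd62_nt.U.AE0
import Pool.Agent.MP_88bd62_nt.U.AE
import Pool.Agent.MP_88bd62_nt.U.AFt
import Pool.Agent.MP_88bd62_nt.U.AXy
import Pool.Agent.MP_88bd62_nt.U.AXq
import Pool.Agent.MP_88bd62_nt.U.RunZ0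
import Pool.Agent.MP_88bd62_nt.U.RunZ1
import Pool.Agent.MP_88bd62_nt.U.RunZ2
import Pool.Agent.MP_88bd62_nt.U.RunZ3
import Pool.Agent.MP_88bd62_nt.U.RunK
import Pool.Agent.MP_88bd62_nt.U.RunT
import Pool.Agent.MP_88bd62_nt.U.RunR
import Pool.Agent.MP_88bd62_nt.U.RunX
import Pool.Agent.MP_88bd62_nt.B.Fin

/-! The upper bound. -/

namespace Pool.Agent.MP_88bd62_nt.U.A

open Finset Filter
open ArithmeticFunction (cardFactors)

theorem gMk : StMk := stMk stUni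
theorem gSp : StSp := stSp stUni gNode gMk
theorem gNd : StNd := stNd gBas gNode gPar stUni stNrm gSp
theorem gBlk : StBlk := stBlk gBas gNode gFold gPar stUni stNrm gSp (stBt stLg)
theorem gChk : StChk :=
  stChk gFold gPar stUni stNrm gMk stLg (stTree stNrm stLg gBlk) (stRamp stUni stRt)
theorem gZ : StZ := stZ gBas gTl gFold gDens stMon gPar stUni stNrm
theorem gDH : StDH :=
  stDH gBas stMon stNrm gMk (stGrid stUni stNrm gNd) (stLD stLg) (stLH stPs stLg stIsp)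
theorem gMw : StMw := stMw gPar stUni stNrm gMk
theorem gRc : StRc := stRc gBas gTT gPar stUni stNrm gMk gMw
theorem gK : StK := stK gI gPar stUni stNrm gMk gMw
theorem gE' : StE := stE stUni stNrm gMk stLg gNd stE0
theorem gXy : StXy := stXy gBas stNrm gMk gMw
theorem gXq : StXq := stXq gBas gPar stUni stNrm gMk stE0 (stFt gMk stRt)

theorem numA : NumA1 0.984 :=
  num_of_spec gChk gZ gDH gRc gK stE0 gE' gXy gXq (B.numW fTail fEM1) zu0 zu1 zu2 zu3 wl T1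
    run_z0 run_z1 run_z2 run_z3 run_r run_k run_x run_t (by decide)

theorem upper :
    limsup (fun x : ℝ => ((|∑ n ∈ Icc 1 ⌊x⌋₊, (-2 : ℝ) ^ cardFactors n| / x : ℝ) : EReal)) atTop
      ≤ ((9994 / 10000 : ℝ) : EReal) := by
  refine fTau _ fun J => ?_
  obtain ⟨N, hN, h⟩ := fLater NS.numS _
    (stFirst1 fBase fX fRem0 fHP0 fP0X fP0L NS.numS (B.numB fTail fEM1).1 (B.numB fTail fEM1).2
      B.numC _ numA (by norm_num)) J
  exact ⟨N, hN, fun u => (h u).trans (by norm_num)⟩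

end Pool.Agent.MP_88bd62_nt.U.A
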