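import Pool.Agent.MP_88bd62_nt.U.Stmts

namespace Pool.Agent.MP_88bd62_nt.U

open Finset Real

noncomputable section

theorem xZ2a_fin {ι : Type} (s : Finset ι) (a b : ι → ℝ)
    (h : ∀ i ∈ s, 0 ≤ a i ∧ 0 < b i ∧ b i ≤ 1) : ExpSum fun σ => ∑ i ∈ s, a i * b i ^ σ := by
  refine ⟨s.card, fun i => a (s.equivFin.symm i), fun i => b (s.equivFin.symm i),
    fun i => h _ (s.equivFin.symm i).2, fun σ => ?_⟩
  beta_reduce
  rw [← Finset.sum_coe_sort s, ← Equiv.sum_comp s.equivFin.symm]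

theorem xZ2a_add {F G : ℝ → ℝ} (hF : ExpSum F) (hG : ExpSum G) : ExpSum fun σ => F σ + G σ := by
  obtain ⟨n, a, b, h1, h2⟩ := hF
  obtain ⟨m, a', b', h3, h4⟩ := hG
  refine ⟨n + m, Fin.append a a', Fin.append b b', fun i => ?_, fun σ => ?_⟩
  · refine Fin.addCases (fun i => ?_) (fun i => ?_) i
    · simpa using h1 i
    · simpa using h3 i
  · simp [Fin.sum_univ_add, h2, h4]

theorem xZ2a_one {a b : ℝ} (ha : 0 ≤ a) (h0 : 0 < b) (h1 : b ≤ 1) :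
    ExpSum fun σ => a * b ^ σ :=
  ⟨1, fun _ => a, fun _ => b, fun _ => ⟨ha, h0, h1⟩, fun σ => by simp⟩

/-- The harmonic sum. -/
def xZ2a_H (m : ℕ) : ℝ := ∑ n ∈ Icc 1 m, (n : ℝ)⁻¹

theorem xZ2a_H_succ (m : ℕ) : xZ2a_H (m + 1) = xZ2a_H m + ((m : ℝ) + 1)⁻¹ := by
  rw [xZ2a_H, Finset.sum_Icc_succ_top (by omega)]
  push_cast
  rfl

theorem xZ2a_H_mono {k m : ℕ} (hk : 1 ≤ k) (h : k ≤ m) :
    xZ2a_H m - log m ≤ xZ2a_H k - log k := by
  induction m, h using Nat.le_induction with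
  | base => exact le_rfl
  | succ m h ih =>
    have h0 : (0 : ℝ) < m := by exact_mod_cast (by omega : 0 < m)
    have h1 := one_sub_inv_le_log_of_pos (x := ((m : ℝ) + 1) / m) (by positivity)
    rw [log_div (by positivity) h0.ne'] at h1
    have h2 : 1 - (((m : ℝ) + 1) / m)⁻¹ = ((m : ℝ) + 1)⁻¹ := by
      field_simp
      ring
    rw [xZ2a_H_succ]
    push_cast
    linarith

theorem xZ2a_H8 {m : ℕ} (h : 8 ≤ m) : xZ2a_H m ≤ log m + 0.6385 := by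
  have h1 := xZ2a_H_mono (by norm_num) h
  have h2 : log ((8 : ℕ) : ℝ) = 3 * log 2 := by
    rw [show ((8 : ℕ) : ℝ) = 2 ^ 3 by norm_num, log_pow]
    norm_num
  have h3 : xZ2a_H 8 ≤ 2.7179 := by
    simp only [xZ2a_H_succ]
    norm_num [xZ2a_H]
  linarith [log_two_gt_d9]

theorem xZ2a_H32 {m : ℕ} (h : 32 ≤ m) : xZ2a_H m ≤ log m + 0.593 := by
  have h1 := xZ2a_H_mono (by norm_num) h
  have h2 : log ((32 : ℕ) : ℝ) = 5 * log 2 := by
    rw [show ((32 : ℕ) : ℝ) = 2 ^ 5 by norm_num, log_pow]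
    norm_num
  have h3 : xZ2a_H 32 ≤ 4.0585 := by
    simp only [xZ2a_H_succ]
    norm_num [xZ2a_H]
  linarith [log_two_gt_d9]

theorem xZ2a_s0 (M : ℕ) : ∑ ν ∈ Icc 1 M, (3.01 / (ν : ℝ) + 1 / (ν + 1)) =
    4.01 * xZ2a_H M - 1 + ((M : ℝ) + 1)⁻¹ := by
  induction M with
  | zero => simp [xZ2a_H]
  | succ M ih =>
    rw [Finset.sum_Icc_succ_top (by omega), ih, xZ2a_H_succ]
    push_cast
    rw [div_eq_mul_inv, one_div]
    ring

theorem xZ2a_s1 (M : ℕ) : ∑ ν ∈ Icc 1 M, (3.01 / (ν : ℝ) + 1 / (ν + 1)) * (ν + 1) =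
    4.01 * M + 3.01 * xZ2a_H M := by
  induction M with
  | zero => simp [xZ2a_H]
  | succ M ih =>
    rw [Finset.sum_Icc_succ_top (by omega), ih, xZ2a_H_succ]
    push_cast
    field_simp
    ring

theorem xZ2a_s2 (M : ℕ) : ∑ ν ∈ Icc 1 M, ((ν : ℝ) + 1) = M * (M + 3) / 2 := by
  induction M with
  | zero => simp
  | succ M ih =>
    rw [Finset.sum_Icc_succ_top (by omega), ih]
    push_cast
    ring

theorem xZ2a_s3 (m : ℕ) : ∑ n ∈ Icc 1 m, (√(n : ℝ))⁻¹ ≤ 2 * √m := by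
  induction m with
  | zero => simp
  | succ m ih =>
    rw [Finset.sum_Icc_succ_top (by omega)]
    push_cast
    have h1 := sq_sqrt (x := (m : ℝ)) (by positivity)
    have h2 := sq_sqrt (x := (m : ℝ) + 1) (by positivity)
    have h3 : 0 < √((m : ℝ) + 1) := sqrt_pos.2 (by positivity)
    have h4 : (√((m : ℝ) + 1))⁻¹ ≤ 2 * (√((m : ℝ) + 1) - √m) := by
      rw [inv_le_iff_one_le_mul₀ h3]
      nlinarith [sq_nonneg (√((m : ℝ) + 1) - √m)]
    linarith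

theorem xZ2a_step {a b : ℝ} (ha : 1 ≤ a) (hb : 0 < b) (h : b ^ 2 = a ^ 2 + 1) :
    (3.01 / a ^ 2 + 1 / b ^ 2) * b ≤ 8.02 * (b - a) + 7.525 * (a⁻¹ - b⁻¹) := by
  have h0 : 0 < a := by linarith
  have h1 : b⁻¹ ≤ 2 * (b - a) := by
    rw [inv_le_iff_one_le_mul₀ hb]
    nlinarith [sq_nonneg (b - a)]
  have h2 : b ≤ 1.5 * a := by nlinarith
  have h3 : a ≤ b := by nlinarith
  have h4 : (a ^ 2 * b)⁻¹ ≤ 2.5 * (a⁻¹ - b⁻¹) := by
    have e : 2.5 * (a⁻¹ - b⁻¹) = 2.5 * a * (b - a) * (a ^ 2 * b)⁻¹ := by field_simp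
    rw [e]
    refine le_mul_of_one_le_left (by positivity) ?_
    nlinarith
  have h5 : (3.01 / a ^ 2 + 1 / b ^ 2) * b = 4.01 * b⁻¹ + 3.01 * (a ^ 2 * b)⁻¹ := by
    field_simp
    rw [h]
    ring
  linarith

theorem xZ2a_s4 (M : ℕ) : ∑ ν ∈ Icc 1 M, (3.01 / (ν : ℝ) + 1 / (ν + 1)) * √(ν + 1) ≤
    8.02 * √((M : ℝ) + 1) - 0.495 - 7.525 * (√((M : ℝ) + 1))⁻¹ := by
  induction M with
  | zero => norm_num
  | succ M ih =>
    rw [Finset.sum_Icc_succ_top (by omega)]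
    push_cast
    have h1 := sq_sqrt (x := (M : ℝ) + 1) (by positivity)
    have h2 := sq_sqrt (x := (M : ℝ) + 1 + 1) (by positivity)
    have h3 := xZ2a_step (a := √((M : ℝ) + 1)) (b := √((M : ℝ) + 1 + 1))
      (one_le_sqrt.2 (by linarith [Nat.cast_nonneg (α := ℝ) M])) (by positivity) (by rw [h1, h2])
    rw [h1, h2] at h3
    linarith

theorem xZ2a_c {r : ℝ} (hr : 0 ≤ r) : √(r ^ 2 / π) ≤ 0.5642 * r := by
  refine sqrt_le_iff.2 ⟨by positivity, ?_⟩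
  rw [div_le_iff₀ pi_pos]
  nlinarith [pi_gt_d6, sq_nonneg r]

theorem xZ2a_blk {r : ℝ} (hr : 0 ≤ r) (ν : ℕ) :
    0 ≤ blk (r ^ 2) ν ∧ blk (r ^ 2) ν ≤ 0.5642 * r * (3.01 / (ν : ℝ) + 1 / (ν + 1)) + 1 := by
  unfold blk
  exact ⟨by positivity, by gcongr; exact xZ2a_c hr⟩

theorem xZ2a_HM {r : ℝ} (hr : 20 ≤ r) {M : ℕ} (h1 : 10 ≤ M) (h2 : (M : ℝ) ≤ 0.52 * r) :
    xZ2a_H M ≤ log r ∧ log r ≤ 0.152 * r := by
  have h0 : (0 : ℝ) < M := by exact_mod_cast (by omega : 0 < M)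
  constructor
  · have h3 := xZ2a_H8 (m := M) (by omega)
    have h4 : log M ≤ log (1.04 * r / 2) := log_le_log h0 (by linarith)
    rw [log_div (by positivity) two_ne_zero, log_mul (by norm_num) (by positivity)] at h4
    have h5 := log_le_sub_one_of_pos (x := 1.04) (by norm_num)
    linarith [log_two_gt_d9]
  · have h5 := log_le_sub_one_of_pos (x := r / 2 ^ 4) (by positivity)
    rw [log_div (by positivity) (by positivity), log_pow] at h5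
    push_cast at h5
    linarith [log_two_lt_d9]

end

end Pool.Agent.MP_88bd62_nt.U
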