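import Pool.Agent.MP_88bd62_nt.U.Z2aa

namespace Pool.Agent.MP_88bd62_nt.U

open Finset Real

noncomputable section

/-- The majorant. -/
def xZ2a_G (r : ℝ) (A M : ℕ) (σ : ℝ) : ℝ :=
  ∑ n ∈ Ico 1 A, 1 * (n : ℝ)⁻¹ ^ σ
    + ∑ ν ∈ Icc 1 M, blk (r ^ 2) ν * (max (A : ℝ) (r ^ 2 / (ν + 1) - 1))⁻¹ ^ σ
    + 2.35 * r * (r ^ 2 - 2)⁻¹ ^ σ

variable {r : ℝ} {A M : ℕ}

theorem xZ2a_exp (hr : 20 ≤ r) (hA : 2 * r ≤ A) : ExpSum (xZ2a_G r A M) := by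
  refine xZ2a_add (xZ2a_add (xZ2a_fin _ _ _ fun n hn => ?_) (xZ2a_fin _ _ _ fun ν _ => ?_))
    (xZ2a_one (by positivity) (inv_pos.2 (by nlinarith)) (inv_le_one_of_one_le₀ (by nlinarith)))
  · have h : (1 : ℝ) ≤ n := by exact_mod_cast (mem_Ico.1 hn).1
    exact ⟨zero_le_one, by positivity, inv_le_one_of_one_le₀ h⟩
  · have h : (1 : ℝ) ≤ max (A : ℝ) (r ^ 2 / (ν + 1) - 1) := le_max_of_le_left (by linarith)
    exact ⟨(xZ2a_blk (by linarith) ν).1, by positivity, inv_le_one_of_one_le₀ h⟩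

theorem xZ2a_Ico (hA : 1 ≤ A) : Ico 1 A = Icc 1 (A - 1) := by
  ext n
  simp only [mem_Ico, mem_Icc]
  omega

theorem xZ2a_x (hr : 20 ≤ r) (h2 : (M : ℝ) ≤ 0.52 * r) {ν : ℕ}
    (hν : ν ∈ Icc 1 M) : (max (A : ℝ) (r ^ 2 / (ν + 1) - 1))⁻¹ ≤ (ν + 1) / (0.97 * r ^ 2) := by
  have h1 : (ν : ℝ) ≤ M := by exact_mod_cast (mem_Icc.1 hν).2
  have h0 : (0 : ℝ) < ν + 1 := by positivity
  have hr0 : 0 < r := by linarith
  rw [← inv_div (0.97 * r ^ 2)]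
  refine inv_anti₀ (by positivity) (le_max_of_le_right ?_)
  rw [le_sub_iff_add_le, div_add_one h0.ne', div_le_div_iff_of_pos_right h0]
  nlinarith

theorem xZ2a_G0 (hr : 20 ≤ r) (hA : 2 * r ≤ A) (hA' : (A : ℝ) < 2 * r + 1) (h1 : 10 ≤ M)
    (h2 : (M : ℝ) ≤ 0.52 * r) : xZ2a_G r A M 0 ≤ r * (1.132 * log (r ^ 2) + 4.45) := by
  have hA1 : 1 ≤ A := by exact_mod_cast (by linarith : (1 : ℝ) ≤ A)
  simp only [xZ2a_G, rpow_zero, mul_one, sum_const, Nat.card_Ico, nsmul_eq_mul]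
  have h3 := Finset.sum_le_sum fun ν (_ : ν ∈ Icc 1 M) => (xZ2a_blk (r := r) (by linarith) ν).2
  rw [Finset.sum_add_distrib, ← Finset.mul_sum, xZ2a_s0] at h3
  simp only [sum_const, Nat.card_Icc, nsmul_eq_mul, mul_one, Nat.add_sub_cancel] at h3
  obtain ⟨h4, -⟩ := xZ2a_HM hr h1 h2
  have h5 : ((M : ℝ) + 1)⁻¹ ≤ 11⁻¹ := by
    refine inv_anti₀ (by norm_num) ?_
    have : (10 : ℝ) ≤ M := by exact_mod_cast h1
    linarith
  have h6 : 0 ≤ log r := log_nonneg (by linarith)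
  rw [Nat.cast_sub hA1, log_pow]
  push_cast
  have h7 : 0.5642 * r * (4.01 * xZ2a_H M - 1 + ((M : ℝ) + 1)⁻¹) ≤
      0.5642 * r * (4.01 * log r - 1 + 11⁻¹) := by gcongr
  nlinarith

theorem xZ2a_G1 (hr : 20 ≤ r) (hA : 2 * r ≤ A) (hA' : (A : ℝ) < 2 * r + 1) (h1 : 10 ≤ M)
    (h2 : (M : ℝ) ≤ 0.52 * r) : xZ2a_G r A M 1 ≤ log (r ^ 2) / 2 + 3.1 := by
  have hA1 : 40 ≤ A := by exact_mod_cast (by linarith : (40 : ℝ) ≤ A)
  have hr0 : 0 < r := by linarith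
  simp only [xZ2a_G, rpow_one, one_mul]
  have a1 : ∑ n ∈ Ico 1 A, (n : ℝ)⁻¹ ≤ log r + 1.2862 := by
    rw [xZ2a_Ico (by omega)]
    have h3 := xZ2a_H32 (m := A - 1) (by omega)
    have h4 : log ((A - 1 : ℕ) : ℝ) ≤ log (2 * r) := by
      refine log_le_log (by exact_mod_cast (by omega : 0 < A - 1)) ?_
      rw [Nat.cast_sub (by omega)]
      push_cast
      linarith
    rw [log_mul two_ne_zero hr0.ne'] at h4
    unfold xZ2a_H at h3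
    linarith [log_two_lt_d9]
  have a2 : ∑ ν ∈ Icc 1 M, blk (r ^ 2) ν * (max (A : ℝ) (r ^ 2 / (ν + 1) - 1))⁻¹ ≤ 1.66 := by
    have h3 : ∀ ν ∈ Icc 1 M, blk (r ^ 2) ν * (max (A : ℝ) (r ^ 2 / (ν + 1) - 1))⁻¹ ≤
        (0.5642 * r * ((3.01 / (ν : ℝ) + 1 / (ν + 1)) * (ν + 1)) + (ν + 1)) / (0.97 * r ^ 2) := by
      intro ν hν
      refine (mul_le_mul (xZ2a_blk hr0.le ν).2 (xZ2a_x hr h2 hν) (by positivity)
        (by positivity)).trans (le_of_eq ?_)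
      ring
    refine (Finset.sum_le_sum h3).trans ?_
    rw [← Finset.sum_div, Finset.sum_add_distrib, ← Finset.mul_sum, xZ2a_s1, xZ2a_s2,
      div_le_iff₀ (by positivity)]
    obtain ⟨h4, h5⟩ := xZ2a_HM hr h1 h2
    have h6 : 0.5642 * r * (4.01 * M + 3.01 * xZ2a_H M) ≤
        0.5642 * r * (4.01 * (0.52 * r) + 3.01 * (0.152 * r)) := by
      gcongr
      linarith
    have h7 : (M : ℝ) * (M + 3) / 2 ≤ 0.52 * r * (0.52 * r + 3) / 2 := by gcongr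
    nlinarith
  have a3 : 2.35 * r * (r ^ 2 - 2)⁻¹ ≤ 0.12 := by
    rw [← div_eq_mul_inv, div_le_iff₀ (by nlinarith)]
    nlinarith
  rw [log_pow]
  push_cast
  linarith

theorem xZ2a_Gh (hr : 20 ≤ r) (hA : 2 * r ≤ A) (hA' : (A : ℝ) < 2 * r + 1)
    (h2 : (M : ℝ) ≤ 0.52 * r) : xZ2a_G r A M (1 / 2) ≤ 6.6 * √r + 3 := by
  have hA1 : 40 ≤ A := by exact_mod_cast (by linarith : (40 : ℝ) ≤ A)
  have hr0 : 0 < r := by linarith
  simp only [xZ2a_G, ← sqrt_eq_rpow, one_mul]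
  have hq := sq_sqrt hr0.le
  have hq1 : 4.47 ≤ √r := le_sqrt_of_sq_le (by linarith)
  have a1 : ∑ n ∈ Ico 1 A, √((n : ℝ)⁻¹) ≤ 2.83 * √r := by
    rw [xZ2a_Ico (by omega)]
    simp only [sqrt_inv]
    refine (xZ2a_s3 _).trans ?_
    have h4 : √((A - 1 : ℕ) : ℝ) ≤ 1.415 * √r := by
      refine sqrt_le_iff.2 ⟨by positivity, ?_⟩
      rw [Nat.cast_sub (by omega), mul_pow, hq]
      push_cast
      linarith
    linarith
  have b1 : √((M : ℝ) + 1) ≤ 0.7212 * √r + 0.16 := by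
    refine sqrt_le_iff.2 ⟨by positivity, ?_⟩
    nlinarith
  have a2 : ∑ ν ∈ Icc 1 M, blk (r ^ 2) ν * √(max (A : ℝ) (r ^ 2 / (ν + 1) - 1))⁻¹ ≤
      3.7 * √r + 0.6 := by
    have h3 : ∀ ν ∈ Icc 1 M, blk (r ^ 2) ν * √(max (A : ℝ) (r ^ 2 / (ν + 1) - 1))⁻¹ ≤
        1.0154 * (0.5642 * ((3.01 / (ν : ℝ) + 1 / (ν + 1)) * √(ν + 1)) + √(M + 1) / r) := by
      intro ν hν
      have h4 : √(max (A : ℝ) (r ^ 2 / (ν + 1) - 1))⁻¹ ≤ 1.0154 * √(ν + 1) / r := by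
        refine sqrt_le_iff.2 ⟨by positivity, (xZ2a_x hr h2 hν).trans ?_⟩
        rw [div_pow, mul_pow, sq_sqrt (by positivity), div_le_div_iff₀ (by positivity)
          (by positivity)]
        have : 0 ≤ ((ν : ℝ) + 1) * r ^ 2 := by positivity
        nlinarith
      have h5 : √((ν : ℝ) + 1) / r ≤ √((M : ℝ) + 1) / r := by
        gcongr
        exact (mem_Icc.1 hν).2
      refine (mul_le_mul (xZ2a_blk hr0.le ν).2 h4 (by positivity) (by positivity)).trans ?_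
      have e : (0.5642 * r * (3.01 / (ν : ℝ) + 1 / (ν + 1)) + 1) * (1.0154 * √(ν + 1) / r) =
          1.0154 * (0.5642 * ((3.01 / (ν : ℝ) + 1 / (ν + 1)) * √(ν + 1)) + √(ν + 1) / r) := by
        field_simp
      rw [e]
      gcongr
    refine (Finset.sum_le_sum h3).trans ?_
    rw [← Finset.mul_sum, Finset.sum_add_distrib, ← Finset.mul_sum]
    simp only [sum_const, Nat.card_Icc, nsmul_eq_mul, Nat.add_sub_cancel]
    have h4 := xZ2a_s4 M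
    have h5 : (M : ℝ) * (√((M : ℝ) + 1) / r) ≤ 0.52 * √((M : ℝ) + 1) := by
      rw [← mul_div_assoc, div_le_iff₀ hr0]
      nlinarith [sqrt_nonneg ((M : ℝ) + 1)]
    have h6 : 0 ≤ (√((M : ℝ) + 1))⁻¹ := by positivity
    linarith
  have a3 : 2.35 * r * √(r ^ 2 - 2)⁻¹ ≤ 2.4 := by
    have h4 : √(r ^ 2 - 2)⁻¹ ≤ 1.02 / r := by
      refine sqrt_le_iff.2 ⟨by positivity, ?_⟩
      rw [div_pow, inv_eq_one_div, div_le_div_iff₀ (by nlinarith) (by positivity)]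
      nlinarith
    have h5 : 2.35 * r * (1.02 / r) = 2.35 * 1.02 := by field_simp
    have h6 := mul_le_mul_of_nonneg_left h4 (by positivity : 0 ≤ 2.35 * r)
    linarith
  linarith

theorem xZ2a_K (hr : 20 ≤ r) {B T : ℝ} (h1 : 2 * r ^ 3 ≤ B) (h2 : B < 2 * r ^ 3 + 1)
    (hT : T = 2 * π * r ^ 2) :
    (1 / (π * (r ^ 2 / (B + 1))) + 1 / (π * (1 / √(π * r ^ 2)))) + (B + 1 / 2) / T
      + (T + 2) * (T + 3) / 24 / (B - 1 / 2) ≤ 2.35 * r := by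
  have hr0 : 0 < r := by linarith
  have h3 : 400 ≤ r ^ 2 := by nlinarith
  have h4 : 400 * r ≤ r ^ 3 := by nlinarith
  have hp := pi_gt_d4
  have hp' := pi_lt_d4
  have h5 : 3.1415 * r ^ 3 ≤ π * r ^ 3 := by gcongr
  have a1 : 1 / (π * (r ^ 2 / (B + 1))) ≤ 0.637 * r := by
    rw [← mul_div_assoc, one_div_div, div_le_iff₀ (by positivity)]
    nlinarith
  have a2 : 1 / (π * (1 / √(π * r ^ 2))) ≤ 0.5643 * r := by
    rw [mul_one_div, one_div_div, div_le_iff₀ pi_pos]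
    refine sqrt_le_iff.2 ⟨by positivity, ?_⟩
    have : π * r ^ 2 * 1 ≤ π * r ^ 2 * (0.5643 ^ 2 * π) := by
      gcongr
      linarith
    linarith
  have a3 : (B + 1 / 2) / T ≤ 0.3185 * r := by
    rw [hT, div_le_iff₀ (by positivity)]
    nlinarith
  have a4 : (T + 2) * (T + 3) / 24 / (B - 1 / 2) ≤ 0.826 * r := by
    have h6 : T + 3 ≤ 6.291 * r ^ 2 := by
      have : π * r ^ 2 ≤ 3.1416 * r ^ 2 := by gcongr
      linarith
    have h7 : 0 ≤ T := by rw [hT]; positivity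
    have h8 : (T + 2) * (T + 3) ≤ 6.291 * r ^ 2 * (6.291 * r ^ 2) := by
      gcongr
      linarith
    rw [div_le_iff₀ (by linarith)]
    have h9 : 0.826 * r * (1.9999 * r ^ 3) ≤ 0.826 * r * (B - 1 / 2) := by
      gcongr
      linarith
    nlinarith [pow_pos hr0 4]
  linarith

end

end Pool.Agent.MP_88bd62_nt.U
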